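import Pool.Agent.PLX.Ns
import Pool.Agent.PLX.NUGC.TopC
import Pool.Agent.PLX.PB.ClsR40

/-!
# The class level for any base functions

`top_cDB`: the sum over the numbers `n`, `n + e` of quanta of the moduli of the values of a class D1, D1'
from the tilted bounds `PerCof` at a given half quantum, any base `Bs X ob P ep κ e E0`.
-/

set_option autoImplicit false
set_option linter.unusedSectionVars false

noncomputable section

open Complex MeasureTheory Finset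
open scoped ENNReal

open PLX (Fil)

namespace PBR.PLX

open NUO NUP1 NUCR NUP1S NUP1S.Ab NUP1S.AbC NUP1S.AbG NURow NUP1.Leg NUGC NUGC.PLX

/-- **The bound of the classes D1 (`o = true`), D1' (`o = false`), any base** -/
theorem top_cDB [Fil] {C c b c1 c' : ℝ} {k : ℕ} (hC : 0 < C) (hc : 0 < c) (hb : 0 < b) (hc1 : 0 < c1)
    (hc' : 0 ≤ c') {δ : ℝ} (hδ : 0 < δ) :
    ∃ a0 : ℝ, 0 < a0 ∧ ∀ C' : ℝ, 0 ≤ C' → ∃ L0 : ℝ, ∀ L ≥ L0, ∀ ep : ℝ, 0 < ep → ep ≤ 1 / 100 →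
      ∀ e1 : ℝ, 0 < e1 → e1 ≤ 1 / 4 → ∀ J : ℝ, 0 ≤ J →
      Real.exp (-(2 * Real.pi * J)) + 3 * e1 + 3 * ep ≤ a0 →
      ∀ (P : NUO.Par), ParC P → ∀ (X : Bool → Option O3 → ℂ → ℂ) (ob : (Bool → ℂ → ℝ) → OB)
        (κ : ℝ) (E0 : Set ℝ) (kD : ℂ → ℂ) (o : Bool)
        (ν : ℝ → ℝ) (d : ℝ) (K e : ℕ) (Q : ℝ → ℝ), Bs X ob P ep κ e E0 → 0 < d → (∀ y, 0 ≤ Q y) →
      ((2 * K + e + 1 : ℕ) : ℝ) ≤ Real.exp (2 * L) →
      (∀ᵐ y : ℝ, PerCof C C' c b k c1 c' L ep e1 J (ν y) d K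
        (obDB ob o (vl (-(11 / 4) * l) y)) P 0 e (Q y)) →
      ∑ n ∈ range (K + 1), ‖(cDo o kD).val
        (X true) (X false) (3 / 5 * l) n (n + e) (lX P) (lY P)‖ₑ ≤
        ENNReal.ofReal (4 * (1 + 1 / d) * Real.exp (δ * L)) *
          ∫⁻ y : ℝ, ENNReal.ofReal (‖kD (vl (-(11 / 4) * l) y)‖ * Q y) := by
  obtain ⟨a0, ha0, h⟩ := glue_class (k := k) hC hc hb hc1 hc' hδ
  refine ⟨a0, ha0, fun C' hC' => ?_⟩
  obtain ⟨L0, h⟩ := h C' hC'
  refine ⟨L0, fun L hL ep hep hep' e1 he1 he1' J hJ hsm P hP X ob κ E0 kD o ν d K e Q hB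
    hd hQ hK hPer => ?_⟩
  have hR : ∀ w : ℂ, w.re = -(11 / 4) * l → R4Cof ep (obDB ob o w) P 0 e
      (fun n => (cDo o kD).Z (X true) (X false) (3 / 5 * l) n (n + e) (lX P) (lY P) w) := by
    intro w hw
    have key := r4_cDB hB hP hep hep' kD hw
    cases o
    · exact key.2
    · exact key.1
  have key := CD1_sum_val (cDo o kD) (X true) (X false) (3 / 5 * l) K e
    (lX P) (lY P) (fun y => ENNReal.ofReal (4 * (1 + 1 / d) * (Q y * Real.exp (δ * L)))) (by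
      filter_upwards [hPer] with y hy
      rw [sum_enorm_eq, cDo_a]
      refine ENNReal.ofReal_le_ofReal ?_
      exact h L hL ep hep.le (hep'.trans (by norm_num)) e1 he1 he1' J hJ hsm (ν y) d (Q y) K 0 e
        _ P _ hd (hQ y) (by simpa using hK) (hR (vl (-(11 / 4) * l) y) (by simp [vl])) hy)
  refine key.trans (le_of_eq ?_)
  have h4 : (0 : ℝ) ≤ 4 * (1 + 1 / d) * Real.exp (δ * L) := by positivity
  rw [← lintegral_const_mul' _ _ ENNReal.ofReal_ne_top]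
  refine lintegral_congr fun y => ?_
  rw [cDo_a, cDo_K, ← ofReal_norm, ← ENNReal.ofReal_mul (norm_nonneg _), ← ENNReal.ofReal_mul h4]
  congr 1
  ring

end PBR.PLX

end
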