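import Pool.Agent.PLX.PB.KVal
import Pool.Agent.PLX.MinU

/-!
# The moved rows of a content against the row of `cF`, `JU`; atoms on the curve

Rows `E ∪ 0^k` of a group, `|Re| ≤ l / 2`, `|Im| ≤ 1` in `E`; all heights of the far (removed) row:

* `exists_kOX` : `kO e x`, `kX e x` are not `0` and `‖kO e (x - y)‖ ≤ C ‖kO e x‖`, the same for `kX`,
  `23/10 l ≤ Re x ≤ 53/20 l`;
* `exists_JF` : the same for `rh w ^ 2 / Fp w`, `rh w ^ 2`, `|Re w| ≤ 7/10 l`;
* **`exists_kOXE`**, **`exists_JFE`** : the products over the rows `E ∪ 0^k`;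
* `int_HS`, **`cur_HS`** : the mean of the atoms on the line and on the curve;
* **`exists_KValS`** : `exists_KVal` with atoms.
-/

set_option autoImplicit false
set_option linter.unusedSectionVars false
set_option linter.unusedVariables false

noncomputable section

open Complex MeasureTheory Set Filter Topology
open PLX (EMs)

namespace PBV.PLX

open NUMF (l l_pos)
open PBR (rh rh_ne_zero)
open PBH.PLX (NL pw RO RX AT_NL Atm HS AtOk)
open PBH (AT)
open Pool.Agent.PB (Pf Fp Lp)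
open Pool.Agent.PLX (zr)
open _root_.RX (kO kX)

/-! ### sines -/

lemma l_eq : NUP1.l = l := rfl

lemma pi_eq : Real.pi = 8 * l := by
  unfold NUMF.l
  ring

/-- away from the zeros of the sine -/
def Gw (w : ℂ) : Prop := 3 / 10 * l ≤ |w.re| ∧ |w.re| ≤ 8 * l - 3 / 10 * l

/-- the bound of the sine -/
def s0 : ℝ := Real.sin (3 / 10 * l)

lemma s0_pos : 0 < s0 := by
  have hl := l_pos
  have hp := pi_eq
  exact Real.sin_pos_of_pos_of_lt_pi (by positivity) (by linarith)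

lemma Gw.sin {w : ℂ} (h : Gw w) : s0 ≤ |Real.sin w.re| := by
  have hl := l_pos
  have hp := pi_eq
  obtain ⟨h1, h2⟩ := h
  have key : s0 ≤ Real.sin |w.re| := by
    unfold s0
    rcases le_total |w.re| (Real.pi / 2) with h | h
    · exact Real.sin_le_sin_of_le_of_le_pi_div_two (by (clear * - hl hp; linarith)) h h1
    · rw [← Real.sin_pi_sub |w.re|]
      exact Real.sin_le_sin_of_le_of_le_pi_div_two (by (clear * - hl hp; linarith)) (by linarith) (by (clear * - hp h2; linarith))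
  refine key.trans ?_
  rcases abs_cases w.re with ⟨e, -⟩ | ⟨e, -⟩
  · rw [e]
    exact le_abs_self _
  · rw [e, Real.sin_neg]
    exact neg_le_abs _

lemma Gw.ne {w : ℂ} (h : Gw w) : Complex.sin w ≠ 0 := by
  intro h0
  have h1 := PBR.norm_sin_ge w
  rw [h0, norm_zero] at h1
  have h2 := h.sin
  have h3 := s0_pos
  have h4 : 0 < |Real.sin w.re| / 2 * Real.exp |w.im| := by
    have : 0 < |Real.sin w.re| := h3.trans_le h2
    clear * - this
    positivity
  linarith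

/-- the constant -/
def Bs : ℝ := 2 / s0 * Real.exp 1

lemma Bs_one : 1 ≤ Bs := by
  have h := s0_pos
  have h1 : s0 ≤ 1 := Real.sin_le_one _
  unfold Bs
  have h2 : 1 ≤ 2 / s0 := by
    rw [le_div_iff₀ h]
    linarith
  have h3 : 1 ≤ Real.exp 1 := Real.one_le_exp zero_le_one
  clear * - h2 h3
  nlinarith

/-- **two sines at heights of distance `≤ 1`** -/
lemma sin_cp {w w' : ℂ} (h : Gw w) (hi : |w'.im - w.im| ≤ 1) :
    ‖Complex.sin w'‖ ≤ Bs * ‖Complex.sin w‖ := by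
  have h1 := PBR.norm_sin_le w'
  have h2 := PBR.norm_sin_ge w
  have h3 := h.sin
  have h4 := s0_pos
  have h5 : |w'.im| ≤ 1 + |w.im| := by
    have := abs_add_le (w'.im - w.im) w.im
    rw [sub_add_cancel] at this
    linarith
  have h6 : s0 / 2 * Real.exp |w.im| ≤ ‖Complex.sin w‖ := by
    refine le_trans ?_ h2
    clear * - h3
    gcongr
  have h7 : Real.exp |w'.im| ≤ Real.exp 1 * Real.exp |w.im| := by
    rw [← Real.exp_add]
    exact Real.exp_le_exp.2 h5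
  calc ‖Complex.sin w'‖ ≤ Real.exp 1 * Real.exp |w.im| := h1.trans h7
    _ = Bs * (s0 / 2 * Real.exp |w.im|) := by
        unfold Bs
        field_simp
    _ ≤ _ := mul_le_mul_of_nonneg_left h6 (zero_le_one.trans Bs_one)

/-! ### comparison -/

/-- `‖a‖ ≤ M ^ n ‖b‖` -/
def Cp (M : ℝ) (n : ℕ) (a b : ℂ) : Prop := ‖a‖ ≤ M ^ n * ‖b‖

lemma Cp.mul {M : ℝ} (hM : 1 ≤ M) {n k : ℕ} {a b c d : ℂ} (h : Cp M n a b) (h' : Cp M k c d) :
    Cp M (n + k) (a * c) (b * d) := by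
  unfold Cp at *
  rw [norm_mul, norm_mul, pow_add]
  calc ‖a‖ * ‖c‖ ≤ (M ^ n * ‖b‖) * (M ^ k * ‖d‖) :=
        mul_le_mul h h' (norm_nonneg _) (by positivity)
    _ = _ := by ring

lemma Cp.div {M : ℝ} (hM : 1 ≤ M) {n k : ℕ} {a b c d : ℂ} (h : Cp M n a b) (h' : Cp M k d c)
    (hc : c ≠ 0) (hd : d ≠ 0) : Cp M (n + k) (a / c) (b / d) := by
  unfold Cp at *
  have hc' := norm_pos_iff.2 hc
  have hd' := norm_pos_iff.2 hd
  rw [norm_div, norm_div, pow_add, div_le_iff₀ hc']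
  calc ‖a‖ ≤ M ^ n * ‖b‖ := h
    _ = M ^ n * (‖b‖ / ‖d‖) * ‖d‖ := by field_simp
    _ ≤ M ^ n * (‖b‖ / ‖d‖) * (M ^ k * ‖c‖) := mul_le_mul_of_nonneg_left h' (by positivity)
    _ = _ := by ring

lemma Cp.mono {M : ℝ} (hM : 1 ≤ M) {n k : ℕ} {a b : ℂ} (h : Cp M n a b) (hk : n ≤ k) : Cp M k a b := by
  unfold Cp at *
  refine h.trans (mul_le_mul_of_nonneg_right (pow_le_pow_right₀ hM hk) (norm_nonneg _))

lemma Cp.one (M : ℝ) : Cp M 0 1 1 := by
  unfold Cp
  simp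

lemma Cp.sq {M : ℝ} (hM : 1 ≤ M) {n : ℕ} {a b : ℂ} (h : Cp M n a b) : Cp M (n + n) (a ^ 2) (b ^ 2) := by
  rw [pow_two, pow_two]
  exact h.mul hM h

/-- the constant of the sines and of `rh` -/
theorem exists_M : ∃ M : ℝ, 1 ≤ M ∧ (∀ w w' : ℂ, Gw w → |w'.im - w.im| ≤ 1 →
    Cp M 1 (Complex.sin w') (Complex.sin w)) ∧ ∀ w w' : ℂ, |w.re| ≤ 4 * l → |w'.re| ≤ 4 * l →
    |w'.im - w.im| ≤ 1 → Cp M 1 (rh w') (rh w) := by
  obtain ⟨C, hC, H⟩ := NUMFH.log_rh_bd
  have hl := l_pos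
  have hB := Bs_one
  refine ⟨max Bs (Real.exp (2 * C + 1)), le_max_of_le_left hB, fun w w' h hi => ?_,
    fun w w' h h' hi => ?_⟩
  · unfold Cp
    rw [pow_one]
    exact (sin_cp h hi).trans (mul_le_mul_of_nonneg_right (le_max_left _ _) (norm_nonneg _))
  · have n1 : rh w ≠ 0 := rh_ne_zero (by show _ < 5 * l; linarith)
    have n2 : rh w' ≠ 0 := rh_ne_zero (by show _ < 5 * l; linarith)
    have p1 := norm_pos_iff.2 n1
    have p2 := norm_pos_iff.2 n2
    have e1 := (abs_le.1 (H w h)).1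
    have e2 := (abs_le.1 (H w' h')).2
    have h5 : |w'.im| ≤ 1 + |w.im| := by
      have := abs_add_le (w'.im - w.im) w.im
      rw [sub_add_cancel] at this
      linarith
    unfold Cp
    rw [pow_one]
    have : ‖rh w'‖ ≤ Real.exp (2 * C + 1) * ‖rh w‖ := by
      rw [← Real.exp_log p2, ← Real.exp_log p1, ← Real.exp_add]
      exact Real.exp_le_exp.2 (by linarith)
    exact this.trans (mul_le_mul_of_nonneg_right (le_max_right _ _) (norm_nonneg _))

/-! ### the rows -/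

/-- a sine with the row `x - y` against the one with `x` -/
lemma im_sub (x y : ℂ) (c : ℂ) (hc : c.im = 0) (hy : |y.im| ≤ 1) :
    |(c + (x - y)).im - (c + x).im| ≤ 1 ∧ |(c + x).im - (c + (x - y)).im| ≤ 1 := by
  rw [add_im, sub_im, add_im, hc]
  constructor
  · rw [show 0 + (x.im - y.im) - (0 + x.im) = -y.im by ring, abs_neg]
    exact hy
  · rw [show 0 + x.im - (0 + (x.im - y.im)) = y.im by ring]
    exact hy

/-- **the factors of a far row** -/
theorem exists_kOX : ∃ C : ℝ, 1 ≤ C ∧ ∀ (e : SignType) (x : ℂ), 23 / 10 * l ≤ x.re → x.re ≤ 53 / 20 * l →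
    kO e x ≠ 0 ∧ kX e x ≠ 0 ∧ ∀ y : ℂ, |y.re| ≤ l / 2 → |y.im| ≤ 1 →
      ‖kO e (x - y)‖ ≤ C * ‖kO e x‖ ∧ ‖kX e (x - y)‖ ≤ C * ‖kX e x‖ := by
  obtain ⟨M, hM, HS, HR⟩ := exists_M
  have hl := l_pos
  refine ⟨M ^ 6, one_le_pow₀ hM, fun e x h1 h2 => ?_⟩
  -- the sines `sin (k l + w)`, `sin (k l - w)`
  have gp : ∀ {w : ℂ}, 9 / 5 * l ≤ w.re → w.re ≤ 63 / 20 * l → ∀ k : ℝ, -1 ≤ k → k ≤ 3 →
      Gw (((k * l : ℝ) : ℂ) + w) := by
    intro w w1 w2 k k1 k2
    have a1 := mul_le_mul_of_nonneg_right k1 hl.le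
    have a2 := mul_le_mul_of_nonneg_right k2 hl.le
    unfold Gw
    rw [add_re, ofReal_re, abs_of_pos (by (clear * - hl w1 a1; linarith))]
    constructor <;> (clear * - hl w1 a1 w2 a2; linarith)
  have gx : ∀ k : ℝ, k = 3 ∨ k = 2 → Gw (((-k * l : ℝ) : ℂ) + x) := by
    intro k hk
    unfold Gw
    rw [add_re, ofReal_re]
    rcases hk with rfl | rfl
    · rw [abs_of_neg (by linarith)]
      constructor <;> (clear * - hl h2 h1; linarith)
    · rw [abs_of_pos (by linarith)]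
      constructor <;> (clear * - h1 hl h2; linarith)
  have cst : ∀ k : ℝ, (((k * l : ℝ) : ℂ)).im = 0 := fun k => ofReal_im _
  have e0 : ∀ w : ℂ, ((0 * l : ℝ) : ℂ) + w = w := fun w => by push_cast; ring
  have e1 : ∀ w : ℂ, ((-1 * l : ℝ) : ℂ) + w = w - l := fun w => by push_cast; ring
  have e2 : ∀ w : ℂ, ((2 * l : ℝ) : ℂ) + w = w + 2 * l := fun w => by push_cast; ring
  have e2' : ∀ w : ℂ, ((2 * l : ℝ) : ℂ) + w = 2 * l + w := fun w => by push_cast; ring
  have e3 : ∀ w : ℂ, ((3 * l : ℝ) : ℂ) + w = w + 3 * l := fun w => by push_cast; ring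
  have e3' : ∀ w : ℂ, ((3 * l : ℝ) : ℂ) + w = 3 * l + w := fun w => by push_cast; ring
  have f2 : ∀ w : ℂ, Complex.sin (2 * l - w) = -Complex.sin (((-2 * l : ℝ) : ℂ) + w) := fun w => by
    rw [← Complex.sin_neg]
    congr 1
    push_cast
    ring
  have f3 : ∀ w : ℂ, Complex.sin (3 * l - w) = -Complex.sin (((-3 * l : ℝ) : ℂ) + w) := fun w => by
    rw [← Complex.sin_neg]
    congr 1
    push_cast
    ring
  have x1 : 9 / 5 * l ≤ x.re := by linarith
  have x2 : x.re ≤ 63 / 20 * l := by linarith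
  have n0 : Complex.sin x ≠ 0 := by
    have := (gp x1 x2 0 (by norm_num) (by norm_num)).ne
    rwa [e0] at this
  have n1 : Complex.sin (x - l) ≠ 0 := by
    have := (gp x1 x2 (-1) (by norm_num) (by norm_num)).ne
    rwa [e1] at this
  have n2 : Complex.sin (x + 2 * l) ≠ 0 := by
    have := (gp x1 x2 2 (by norm_num) (by norm_num)).ne
    rwa [e2] at this
  have n3 : Complex.sin (x + 3 * l) ≠ 0 := by
    have := (gp x1 x2 3 (by norm_num) (by norm_num)).ne
    rwa [e3] at this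
  have m2 : Complex.sin (2 * l - x) ≠ 0 := by
    rw [f2]
    exact neg_ne_zero.2 (gx 2 (Or.inr rfl)).ne
  have m3 : Complex.sin (3 * l - x) ≠ 0 := by
    rw [f3]
    exact neg_ne_zero.2 (gx 3 (Or.inl rfl)).ne
  have r0 : rh x ≠ 0 := rh_ne_zero (by
    show _ < 5 * l
    rw [abs_of_pos (by linarith)]
    linarith)
  have hO : kO e x ≠ 0 := by
    unfold RX.kO
    refine div_ne_zero ?_ (pow_ne_zero _ r0)
    cases e
    · show Complex.sin (3 * l + x) * Complex.sin (3 * l - x) * Complex.sin (x + 2 * l) / Complex.sin x ≠ 0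
      rw [add_comm]
      exact div_ne_zero (mul_ne_zero (mul_ne_zero n3 m3) n2) n0
    · show Complex.sin (x + 2 * l) * Complex.sin (x + 3 * l) / (Complex.sin x * Complex.sin (x - l)) ≠ 0
      exact div_ne_zero (mul_ne_zero n2 n3) (mul_ne_zero n0 n1)
    · show Complex.sin (3 * l + x) * Complex.sin (3 * l - x) *
        (Complex.sin (2 * l + x) * Complex.sin (2 * l - x)) ≠ 0
      rw [add_comm, add_comm (2 * (l : ℂ))]
      exact mul_ne_zero (mul_ne_zero n3 m3) (mul_ne_zero n2 m2)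
  have hX : kX e x ≠ 0 := by
    unfold RX.kX
    refine div_ne_zero ?_ (pow_ne_zero _ r0)
    cases e
    · show Complex.sin (3 * l - -x) ^ 2 ≠ 0
      rw [sub_neg_eq_add, add_comm]
      exact pow_ne_zero _ n3
    · show Complex.sin (2 * l - -x) ^ 2 * Complex.sin (3 * l - -x) ^ 2 ≠ 0
      rw [sub_neg_eq_add, sub_neg_eq_add, add_comm, add_comm (3 * (l : ℂ))]
      exact mul_ne_zero (pow_ne_zero _ n2) (pow_ne_zero _ n3)
    · exact one_ne_zero
  refine ⟨hO, hX, fun y hy hi => ?_⟩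
  obtain ⟨y1, y2⟩ := abs_le.1 hy
  have w1 : 9 / 5 * l ≤ (x - y).re := by rw [sub_re]; linarith
  have w2 : (x - y).re ≤ 63 / 20 * l := by rw [sub_re]; linarith
  have d0 : Complex.sin (x - y) ≠ 0 := by
    have := (gp w1 w2 0 (by norm_num) (by norm_num)).ne
    rwa [e0] at this
  have d1 : Complex.sin (x - y - l) ≠ 0 := by
    have := (gp w1 w2 (-1) (by norm_num) (by norm_num)).ne
    rwa [e1] at this
  have r1 : rh (x - y) ≠ 0 := rh_ne_zero (by
    show _ < 5 * l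
    rw [abs_of_pos (by linarith)]
    linarith)
  -- comparisons
  have c2 : Cp M 1 (Complex.sin (x - y + 2 * l)) (Complex.sin (x + 2 * l)) := by
    have := HS _ _ (gp x1 x2 2 (by norm_num) (by norm_num)) (im_sub x y _ (cst 2) hi).1
    rwa [e2, e2] at this
  have c3 : Cp M 1 (Complex.sin (x - y + 3 * l)) (Complex.sin (x + 3 * l)) := by
    have := HS _ _ (gp x1 x2 3 (by norm_num) (by norm_num)) (im_sub x y _ (cst 3) hi).1
    rwa [e3, e3] at this
  have neg : ∀ {n : ℕ} {a b : ℂ}, Cp M n a b → Cp M n (-a) (-b) := fun h => by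
    unfold Cp at *
    rwa [norm_neg, norm_neg]
  have c2' : Cp M 1 (Complex.sin (2 * l - (x - y))) (Complex.sin (2 * l - x)) := by
    rw [f2, f2]
    exact neg (HS _ _ (gx 2 (Or.inr rfl)) (im_sub x y _ (cst (-2)) hi).1)
  have c3' : Cp M 1 (Complex.sin (3 * l - (x - y))) (Complex.sin (3 * l - x)) := by
    rw [f3, f3]
    exact neg (HS _ _ (gx 3 (Or.inl rfl)) (im_sub x y _ (cst (-3)) hi).1)
  have c0 : Cp M 1 (Complex.sin x) (Complex.sin (x - y)) := by
    have := HS _ _ (gp w1 w2 0 (by norm_num) (by norm_num)) (im_sub x y _ (cst 0) hi).2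
    rwa [e0, e0] at this
  have c1 : Cp M 1 (Complex.sin (x - l)) (Complex.sin (x - y - l)) := by
    have := HS _ _ (gp w1 w2 (-1) (by norm_num) (by norm_num)) (im_sub x y _ (cst (-1)) hi).2
    rwa [e1, e1] at this
  have cr : Cp M 1 (rh x) (rh (x - y)) := by
    refine HR _ _ ?_ ?_ ?_
    · rw [abs_of_pos (by linarith)]
      clear * - hl w2
      linarith
    · rw [abs_of_pos (by (clear * - hl h1; linarith))]
      clear * - hl h2
      linarith
    · rw [sub_im, show x.im - (x.im - y.im) = y.im by ring]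
      exact hi
  have cr2 := cr.sq hM
  have q0 := pow_ne_zero 2 r0
  have q1 := pow_ne_zero 2 r1
  constructor
  · show Cp M 6 (kO e (x - y)) (kO e x)
    unfold RX.kO
    cases e
    · show Cp M 6 (Complex.sin (3 * l + (x - y)) * Complex.sin (3 * l - (x - y)) *
        Complex.sin (x - y + 2 * l) / Complex.sin (x - y) / rh (x - y) ^ 2)
        (Complex.sin (3 * l + x) * Complex.sin (3 * l - x) * Complex.sin (x + 2 * l) / Complex.sin x /
          rh x ^ 2)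
      rw [add_comm (3 * (l : ℂ)), add_comm (3 * (l : ℂ))]
      exact ((((c3.mul hM c3').mul hM c2).div hM c0 d0 n0).div hM cr2 q1 q0).mono hM (by norm_num)
    · show Cp M 6 (Complex.sin (x - y + 2 * l) * Complex.sin (x - y + 3 * l) /
        (Complex.sin (x - y) * Complex.sin (x - y - l)) / rh (x - y) ^ 2)
        (Complex.sin (x + 2 * l) * Complex.sin (x + 3 * l) / (Complex.sin x * Complex.sin (x - l)) /
          rh x ^ 2)
      exact (((c2.mul hM c3).div hM (c0.mul hM c1) (mul_ne_zero d0 d1) (mul_ne_zero n0 n1)).div hM cr2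
        q1 q0).mono hM (by norm_num)
    · show Cp M 6 (Complex.sin (3 * l + (x - y)) * Complex.sin (3 * l - (x - y)) *
        (Complex.sin (2 * l + (x - y)) * Complex.sin (2 * l - (x - y))) / rh (x - y) ^ 2)
        (Complex.sin (3 * l + x) * Complex.sin (3 * l - x) *
          (Complex.sin (2 * l + x) * Complex.sin (2 * l - x)) / rh x ^ 2)
      rw [add_comm (3 * (l : ℂ)), add_comm (3 * (l : ℂ)), add_comm (2 * (l : ℂ)), add_comm (2 * (l : ℂ))]
      exact (((c3.mul hM c3').mul hM (c2.mul hM c2')).div hM cr2 q1 q0).mono hM (by norm_num)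
  · show Cp M 6 (kX e (x - y)) (kX e x)
    unfold RX.kX
    cases e
    · show Cp M 6 (Complex.sin (3 * l - -(x - y)) ^ 2 / rh (x - y) ^ 2)
        (Complex.sin (3 * l - -x) ^ 2 / rh x ^ 2)
      rw [sub_neg_eq_add, sub_neg_eq_add, add_comm (3 * (l : ℂ)), add_comm (3 * (l : ℂ))]
      exact ((c3.sq hM).div hM cr2 q1 q0).mono hM (by norm_num)
    · show Cp M 6 (Complex.sin (2 * l - -(x - y)) ^ 2 * Complex.sin (3 * l - -(x - y)) ^ 2 /
        rh (x - y) ^ 2) (Complex.sin (2 * l - -x) ^ 2 * Complex.sin (3 * l - -x) ^ 2 / rh x ^ 2)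
      rw [sub_neg_eq_add, sub_neg_eq_add, sub_neg_eq_add, sub_neg_eq_add, add_comm (3 * (l : ℂ)),
        add_comm (3 * (l : ℂ)), add_comm (2 * (l : ℂ)), add_comm (2 * (l : ℂ))]
      exact (((c2.sq hM).mul hM (c3.sq hM)).div hM cr2 q1 q0).mono hM (by norm_num)
    · show Cp M 6 (1 / rh (x - y) ^ 2) (1 / rh x ^ 2)
      exact ((Cp.one M).div hM cr2 q1 q0).mono hM (by norm_num)

/-- **the factors of a removed row** -/
theorem exists_JF : ∃ C : ℝ, 1 ≤ C ∧ ∀ w : ℂ, |w.re| ≤ 7 / 10 * l →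
    rh w ^ 2 / Fp w ≠ 0 ∧ rh w ^ 2 ≠ 0 ∧ ∀ y : ℂ, |y.re| ≤ l / 2 → |y.im| ≤ 1 →
      ‖rh (w - y) ^ 2 / Fp (w - y)‖ ≤ C * ‖rh w ^ 2 / Fp w‖ ∧ ‖rh (w - y) ^ 2‖ ≤ C * ‖rh w ^ 2‖ := by
  obtain ⟨M, hM, HS, HR⟩ := exists_M
  have hl := l_pos
  refine ⟨M ^ 6, one_le_pow₀ hM, fun w hw => ?_⟩
  obtain ⟨w1, w2⟩ := abs_le.1 hw
  have r0 : rh w ≠ 0 := rh_ne_zero (by
    show _ < 5 * l
    clear * - hl hw
    linarith)
  have q0 := pow_ne_zero 2 r0
  have n0 : Fp w ≠ 0 := Pool.Agent.RX.Fp_ne (by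
    show _ < 2 * l
    clear * - hl hw
    linarith)
  refine ⟨div_ne_zero q0 n0, q0, fun y hy hi => ?_⟩
  obtain ⟨y1, y2⟩ := abs_le.1 hy
  have v1 : -(6 / 5 * l) ≤ (w - y).re := by rw [sub_re]; (clear * - w1 y2; linarith)
  have v2 : (w - y).re ≤ 6 / 5 * l := by rw [sub_re]; (clear * - w2 y1; linarith)
  have r1 : rh (w - y) ≠ 0 := rh_ne_zero (by
    show _ < 5 * l
    rw [abs_lt]
    constructor <;> (clear * - hl v1 v2; linarith))
  have n1 : Fp (w - y) ≠ 0 := Pool.Agent.RX.Fp_ne (by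
    show _ < 2 * l
    rw [abs_lt]
    constructor <;> (clear * - hl v1 v2; linarith))
  have cr : Cp M 1 (rh (w - y)) (rh w) := by
    refine HR _ _ (by linarith) ?_ ?_
    · rw [abs_le]
      constructor <;> (clear * - hl v1 v2; linarith)
    · rw [sub_im, show w.im - y.im - w.im = -y.im by ring, abs_neg]
      exact hi
  have cr2 := cr.sq hM
  -- the four sines
  have gd : ∀ k : ℝ, 2 ≤ k → k ≤ 3 → Gw (((k * l : ℝ) : ℂ) + (w - y)) ∧
      Gw (((k * l : ℝ) : ℂ) - (w - y)) := by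
    intro k k1 k2
    have a1 := mul_le_mul_of_nonneg_right k1 hl.le
    have a2 := mul_le_mul_of_nonneg_right k2 hl.le
    constructor
    · unfold Gw
      rw [add_re, ofReal_re, abs_of_pos (by linarith)]
      constructor <;> (clear * - hl v1 a1 v2 a2; linarith)
    · unfold Gw
      rw [sub_re, ofReal_re, abs_of_pos (by (clear * - hl v2 a1; linarith))]
      constructor <;> (clear * - hl v2 a1 v1 a2; linarith)
  have ci : ∀ k : ℝ, |(((k * l : ℝ) : ℂ) + w).im - (((k * l : ℝ) : ℂ) + (w - y)).im| ≤ 1 ∧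
      |(((k * l : ℝ) : ℂ) - w).im - (((k * l : ℝ) : ℂ) - (w - y)).im| ≤ 1 := by
    intro k
    simp only [add_im, sub_im, ofReal_im]
    constructor
    · rw [show 0 + w.im - (0 + (w.im - y.im)) = y.im by ring]
      exact hi
    · rw [show 0 - w.im - (0 - (w.im - y.im)) = -y.im by ring, abs_neg]
      exact hi
  have e2 : ∀ v : ℂ, ((2 * l : ℝ) : ℂ) + v = v + 2 * l := fun v => by push_cast; ring
  have e3 : ∀ v : ℂ, ((3 * l : ℝ) : ℂ) + v = v + 3 * l := fun v => by push_cast; ring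
  have e2' : ((2 * l : ℝ) : ℂ) = 2 * l := by push_cast; ring
  have e3' : ((3 * l : ℝ) : ℂ) = 3 * l := by push_cast; ring
  have a2 := HS _ _ (gd 2 le_rfl (by norm_num)).1 (ci 2).1
  have b2 := HS _ _ (gd 2 le_rfl (by norm_num)).2 (ci 2).2
  have a3 := HS _ _ (gd 3 (by norm_num) le_rfl).1 (ci 3).1
  have b3 := HS _ _ (gd 3 (by norm_num) le_rfl).2 (ci 3).2
  rw [e2, e2] at a2
  rw [e3, e3] at a3
  rw [e2'] at b2
  rw [e3'] at b3
  have cF : Cp M 4 (Fp w) (Fp (w - y)) := (a2.mul hM a3).mul hM (b3.mul hM b2)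
  constructor
  · show Cp M 6 (rh (w - y) ^ 2 / Fp (w - y)) (rh w ^ 2 / Fp w)
    exact (cr2.div hM cF n1 n0).mono hM (by norm_num)
  · show Cp M 6 (rh (w - y) ^ 2) (rh w ^ 2)
    exact cr2.mono hM (by norm_num)

/-! ### the products -/

/-- **a product over the rows `E ∪ 0^k`** -/
theorem prod_E {f : ℂ → ℂ} {C : ℝ} (hC : 0 ≤ C) {E : List ℂ} (h : ∀ y ∈ E, ‖f y‖ ≤ C * ‖f 0‖) (k : ℕ) :
    ‖∏ i, f ((E ++ zr k).get i)‖ ≤ C ^ E.length * ‖f 0‖ ^ (E.length + k) := by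
  have e : ∏ i, f ((E ++ zr k).get i) = ((E ++ zr k).map f).prod := by
    rw [← Fin.prod_univ_fun_getElem]
    rfl
  rw [e, List.map_append, List.prod_append]
  unfold Pool.Agent.PLX.zr
  rw [List.map_replicate, List.prod_replicate, norm_mul, norm_pow, pow_add, ← mul_assoc]
  refine mul_le_mul_of_nonneg_right ?_ (by positivity)
  clear e
  induction E with
  | nil => simp
  | cons x E ih =>
    have h1 := h x (by simp)
    have h2 := ih fun y hy => h y (by simp [hy])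
    rw [List.map_cons, List.prod_cons, List.length_cons, norm_mul, pow_succ, pow_succ]
    calc ‖f x‖ * ‖(E.map f).prod‖ ≤ (C * ‖f 0‖) * (C ^ E.length * ‖f 0‖ ^ E.length) :=
          mul_le_mul h1 h2 (norm_nonneg _) (by positivity)
      _ = _ := by ring

/-- **the rows of the content against a far row** -/
theorem exists_kOXE : ∃ C : ℝ, 1 ≤ C ∧ ∀ (e : SignType) (x : ℂ), 23 / 10 * l ≤ x.re → x.re ≤ 53 / 20 * l →
    ∀ (P Q : List ℂ) (k k' : ℕ), (∀ y ∈ P, |y.re| ≤ l / 2 ∧ |y.im| ≤ 1) →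
      (∀ y ∈ Q, |y.re| ≤ l / 2 ∧ |y.im| ≤ 1) →
      ‖(∏ i, kO e (x - (P ++ zr k).get i)) * ∏ j, kX e (x - (Q ++ zr k').get j)‖ ≤
        C ^ (P.length + Q.length) * (‖kO e x‖ ^ (P.length + k) * ‖kX e x‖ ^ (Q.length + k')) := by
  obtain ⟨C, hC, H⟩ := exists_kOX
  refine ⟨C, hC, fun e x h1 h2 P Q k k' hP hQ => ?_⟩
  obtain ⟨-, -, h⟩ := H e x h1 h2
  have hC0 : 0 ≤ C := by linarith
  have a := prod_E (f := fun y => kO e (x - y)) hC0 (E := P) (fun y hy => by
    rw [sub_zero]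
    exact (h y (hP y hy).1 (hP y hy).2).1) k
  have b := prod_E (f := fun y => kX e (x - y)) hC0 (E := Q) (fun y hy => by
    rw [sub_zero]
    exact (h y (hQ y hy).1 (hQ y hy).2).2) k'
  rw [sub_zero] at a b
  rw [norm_mul, pow_add]
  calc _ ≤ (C ^ P.length * ‖kO e x‖ ^ (P.length + k)) * (C ^ Q.length * ‖kX e x‖ ^ (Q.length + k')) :=
        mul_le_mul a b (norm_nonneg _) (by positivity)
    _ = _ := by ring

/-- **the rows of the content against a removed row** -/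
theorem exists_JFE : ∃ C : ℝ, 1 ≤ C ∧ ∀ w : ℂ, |w.re| ≤ 7 / 10 * l →
    ∀ (P Q : List ℂ) (k k' : ℕ), (∀ y ∈ P, |y.re| ≤ l / 2 ∧ |y.im| ≤ 1) →
      (∀ y ∈ Q, |y.re| ≤ l / 2 ∧ |y.im| ≤ 1) →
      ‖(∏ i, rh (w - (P ++ zr k).get i) ^ 2 / Fp (w - (P ++ zr k).get i)) *
        ∏ j, rh (w - (Q ++ zr k').get j) ^ 2‖ ≤
        C ^ (P.length + Q.length) * (‖rh w ^ 2 / Fp w‖ ^ (P.length + k) * ‖rh w ^ 2‖ ^ (Q.length + k')) := by
  obtain ⟨C, hC, H⟩ := exists_JF
  refine ⟨C, hC, fun w hw P Q k k' hP hQ => ?_⟩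
  obtain ⟨-, -, h⟩ := H w hw
  have hC0 : 0 ≤ C := by linarith
  have a := prod_E (f := fun y => rh (w - y) ^ 2 / Fp (w - y)) hC0 (E := P) (fun y hy => by
    rw [sub_zero]
    exact (h y (hP y hy).1 (hP y hy).2).1) k
  have b := prod_E (f := fun y => rh (w - y) ^ 2) hC0 (E := Q) (fun y hy => by
    rw [sub_zero]
    exact (h y (hQ y hy).1 (hQ y hy).2).2) k'
  rw [sub_zero] at a b
  rw [norm_mul, pow_add]
  calc _ ≤ (C ^ P.length * ‖rh w ^ 2 / Fp w‖ ^ (P.length + k)) *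
        (C ^ Q.length * ‖rh w ^ 2‖ ^ (Q.length + k')) :=
        mul_le_mul a b (norm_nonneg _) (by positivity)
    _ = _ := by ring

/-! ### atoms -/

/-- the mean of the atoms on the line -/
def mHS {n : ℕ} (x : Bool → Fin n → Atm) (a : Bool) : ℝ :=
  ∑ i, (x a i).k * ((NUMF.H (x a i).c (x a i).y1 - NUMF.H (x a i).c (x a i).y2) / 2)

/-- **the mean of the atoms on the line** -/
theorem int_HS {δ K : ℝ} (hδ : 0 < δ) {n : ℕ} {x : Bool → Fin n → Atm} (hx : AtOk K δ x) (a : Bool) :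
    Integrable (fun t => NUMF.P t * HS x (fun _ _ => 0) a t) ∧
      ∫ t, NUMF.P t * HS x (fun _ _ => 0) a t = mHS x a := by
  have hl := l_pos
  have h : ∀ i, Integrable (fun t => (x a i).k * (NUMF.P t * AT (x a i).y1 (x a i).y2 (x a i).c
      (fun _ => 0) t)) ∧ ∫ t, (x a i).k * (NUMF.P t * AT (x a i).y1 (x a i).y2 (x a i).c (fun _ => 0) t) =
      (x a i).k * ((NUMF.H (x a i).c (x a i).y1 - NUMF.H (x a i).c (x a i).y2) / 2) := by
    intro i
    obtain ⟨-, h1, h2⟩ := hx a i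
    obtain ⟨i1, e1⟩ := int_AT (y1 := (x a i).y1) (y2 := (x a i).y2) (by linarith) (by linarith) (x a i).c
    exact ⟨i1.const_mul _, by rw [integral_const_mul, e1]⟩
  have e : (fun t => NUMF.P t * HS x (fun _ _ => 0) a t) = fun t => ∑ i, (x a i).k *
      (NUMF.P t * AT (x a i).y1 (x a i).y2 (x a i).c (fun _ => 0) t) := by
    funext t
    unfold PBH.PLX.HS
    rw [Finset.mul_sum]
    exact Finset.sum_congr rfl fun i _ => by ring
  rw [e]
  refine ⟨integrable_finsetSum _ fun i _ => (h i).1, ?_⟩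
  rw [integral_finsetSum _ fun i _ => (h i).1]
  exact Finset.sum_congr rfl fun i _ => (h i).2

/-- **the mean of the atoms on the curve** -/
theorem cur_HS {δ K : ℝ} (hδ : 0 < δ) (hδ1 : δ ≤ l / 2) {n : ℕ} {x : Bool → Fin n → Atm} (hx : AtOk K δ x)
    {a : Bool} {s h0 : ℝ} {ζ : Bool → ℝ → ℝ} (hs : 0 ≤ s) (hζ : ∀ t, |ζ a t| ≤ δ / 2)
    (hc : Continuous (ζ a)) (hh : ∀ t, |s * NUMF.P t * ζ a t| ≤ h0) :
    Integrable (fun t => s * NUMF.P t * HS x ζ a t) ∧
      |(∫ t, s * NUMF.P t * HS x ζ a t) - s * mHS x a| ≤ n * (K * (2 * (KN δ * h0))) := by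
  have hl := l_pos
  have hh0 : 0 ≤ h0 := (abs_nonneg _).trans (hh 0)
  have hK0 := (KN_pos hδ (by linarith)).le
  have h : ∀ i, Integrable (fun t => (x a i).k * (s * NUMF.P t * AT (x a i).y1 (x a i).y2 (x a i).c
      (ζ a) t)) ∧ |(∫ t, (x a i).k * (s * NUMF.P t * AT (x a i).y1 (x a i).y2 (x a i).c (ζ a) t)) -
      s * ((x a i).k * ((NUMF.H (x a i).c (x a i).y1 - NUMF.H (x a i).c (x a i).y2) / 2))| ≤
        K * (2 * (KN δ * h0)) := by
    intro i
    obtain ⟨hk, h1, h2⟩ := hx a i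
    obtain ⟨i1, e1⟩ := cur_AT hδ hδ1 hs hζ hc hh h1 h2 (x a i).c
    refine ⟨i1.const_mul _, ?_⟩
    rw [integral_const_mul]
    have e2 : (x a i).k * (∫ t, s * NUMF.P t * AT (x a i).y1 (x a i).y2 (x a i).c (ζ a) t) -
        s * ((x a i).k * ((NUMF.H (x a i).c (x a i).y1 - NUMF.H (x a i).c (x a i).y2) / 2)) =
        (x a i).k * ((∫ t, s * NUMF.P t * AT (x a i).y1 (x a i).y2 (x a i).c (ζ a) t) -
        s * ((NUMF.H (x a i).c (x a i).y1 - NUMF.H (x a i).c (x a i).y2) / 2)) := by ring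
    rw [e2, abs_mul]
    exact mul_le_mul hk e1 (abs_nonneg _) ((abs_nonneg _).trans hk)
  have e : (fun t => s * NUMF.P t * HS x ζ a t) = fun t => ∑ i, (x a i).k *
      (s * NUMF.P t * AT (x a i).y1 (x a i).y2 (x a i).c (ζ a) t) := by
    funext t
    unfold PBH.PLX.HS
    rw [Finset.mul_sum]
    exact Finset.sum_congr rfl fun i _ => by ring
  rw [e]
  refine ⟨integrable_finsetSum _ fun i _ => (h i).1, ?_⟩
  rw [integral_finsetSum _ fun i _ => (h i).1]
  unfold mHS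
  rw [Finset.mul_sum, ← Finset.sum_sub_distrib]
  exact PBH.PLX.sum_abs_le fun i => (h i).2

/-- **the value of a content with atoms** -/
theorem exists_KValS {δ : ℝ} (hδ : 0 < δ) (hδ1 : δ ≤ l / 2) : ∃ C : ℝ, 1 ≤ C ∧
    ∀ (EX EY : List ℂ) (k k' : ℕ) (z : ℂ), (∀ x ∈ EX, |x.re| ≤ l / 2 ∧ |x.im| ≤ 1) →
    (∀ y ∈ EY, |y.re| ≤ l / 2 ∧ |y.im| ≤ 1) → -(l / 2) ≤ z.re → z.re ≤ 7 / 2 * l →
    ∀ (n : ℕ) (K : ℝ) (x : Bool → Fin n → Atm), 0 ≤ K → AtOk K δ x →
    ∀ (h0 : ℝ) (ζ : Bool → ℝ → ℝ), (∀ a t, |ζ a t| ≤ δ / 2) → (∀ a, Continuous (ζ a)) →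
      (∀ a t, |nS EX EY k k' a * NUMF.P t * ζ a t| ≤ h0) →
      (∀ a, Integrable (fun t => nS EX EY k k' a * NUMF.P t * (HE EX EY z ζ a t + HS x ζ a t))) ∧
      ‖Pf z (EX ++ zr k).get (EY ++ zr k').get‖ * Real.exp (EMs (nS EX EY k k') +
        ∑ a, ∫ t, nS EX EY k k' a * NUMF.P t * (HE EX EY z ζ a t + HS x ζ a t)) ≤
        Real.exp (C * (((EX.length : ℝ) + EY.length + 1) ^ 2 +
          ((EX.length : ℝ) + EY.length + 1 + n * K) * h0) + ∑ a, nS EX EY k k' a * mHS x a) := by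
  obtain ⟨C, hC, H⟩ := exists_KVal hδ hδ1
  have hl := l_pos
  have hK0 := (KN_pos hδ (by linarith)).le
  refine ⟨C + 4 * KN δ, by linarith, ?_⟩
  intro EX EY k k' z hX hY hz1 hz2 n K x hK hx h0 ζ hζ hc hh
  obtain ⟨i1, e1⟩ := H EX EY k k' z hX hY hz1 hz2 h0 ζ hζ hc hh
  have hh0 : 0 ≤ h0 := (abs_nonneg _).trans (hh true 0)
  have hn : ∀ a, 0 ≤ nS EX EY k k' a := by
    intro a
    unfold nS
    cases a
    · show (0:ℝ) ≤ (EY.length : ℝ) + k'
      positivity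
    · show (0:ℝ) ≤ (EX.length : ℝ) + k
      positivity
  have h2 := fun a => cur_HS hδ hδ1 hx (hn a) (hζ a) (hc a) (hh a)
  have e : ∀ a, (fun t => nS EX EY k k' a * NUMF.P t * (HE EX EY z ζ a t + HS x ζ a t)) = fun t =>
      nS EX EY k k' a * NUMF.P t * HE EX EY z ζ a t + nS EX EY k k' a * NUMF.P t * HS x ζ a t := by
    intro a
    funext t
    ring
  refine ⟨fun a => by
    rw [e a]
    exact (i1 a).add (h2 a).1, ?_⟩
  have e3 : ∀ a, ∫ t, nS EX EY k k' a * NUMF.P t * (HE EX EY z ζ a t + HS x ζ a t) =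
      (∫ t, nS EX EY k k' a * NUMF.P t * HE EX EY z ζ a t) +
        ∫ t, nS EX EY k k' a * NUMF.P t * HS x ζ a t := by
    intro a
    rw [e a]
    exact integral_add (i1 a) (h2 a).1
  simp only [e3]
  rw [Finset.sum_add_distrib, ← add_assoc, Real.exp_add, ← mul_assoc]
  obtain ⟨D, hD⟩ : ∃ D : ℝ, D = (EX.length : ℝ) + EY.length + 1 := ⟨_, rfl⟩
  have hD1 : 1 ≤ D := by
    rw [hD]
    have : (0:ℝ) ≤ (EX.length : ℝ) + EY.length := by positivity
    linarith
  rw [← hD] at e1 ⊢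
  refine (mul_le_mul e1 (le_refl _) (Real.exp_pos _).le (Real.exp_pos _).le).trans ?_
  rw [← Real.exp_add]
  refine Real.exp_le_exp.2 ?_
  rw [Fintype.sum_bool, Fintype.sum_bool]
  have g1 := (abs_le.1 (h2 true).2).2
  have g2 := (abs_le.1 (h2 false).2).2
  have nK : 0 ≤ (n : ℝ) * K := by positivity
  have k1 : 0 ≤ C * ((n * K) * h0) := by (clear * - hC hK hh0; positivity)
  have k2 : 0 ≤ KN δ * (D ^ 2 + D * h0) := by positivity
  have e5 : (C + 4 * KN δ) * (D ^ 2 + (D + n * K) * h0) = C * (D ^ 2 + D * h0) + C * ((n * K) * h0) +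
      4 * (KN δ * (D ^ 2 + D * h0)) + 4 * (n * (K * (KN δ * h0))) := by ring
  rw [e5]
  linarith

end PBV.PLX

end
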