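import Pool.Agent.PLX.Ns
import Pool.Agent.PLX.Yq
import Pool.Agent.PLX.ExU
import Pool.Agent.PLX.NUGC.OneXH

/-!
# PLAX: the class functions of the dislocated function are bounded by their one body data

* `rwN c0 xr a u` : modulus of the row factor, rows `xr a : Fin (N a) → ℂ` of the species `a`;
* `obU c0 β xr ex ex0 g` : one body data (cutoffs `NUP1.phi β (ofFn (xr a) ++ ex a)`,
  `NUP1.phi (4 / 3) (ofFn (xr a) ++ ex0 a)`);
* **`oneC_XXU`** : `OneC` for the functions `XXU`, charge `q + N true - N false`;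
* `rwC a x u` : modulus of the row factor of a row `x` of X and a `q`-fold row `x` of Y;
  `obX c0 β x ex ex0 g`, **`obU_rwq`**, **`oneC_XX`** : rows `(x | x^q)`;
* `oneC_Lg` : legs at `z`, `- 9 l / 10 ≤ Re z < 37 l / 10`.
-/

set_option autoImplicit false
set_option linter.unusedSectionVars false
set_option linter.unusedVariables false

noncomputable section

open Complex MeasureTheory Finset
open scoped ENNReal
open PLX (Fil)

namespace PBX.PLX

open NUO NUP1 NUCR NUP1S NUP1S.Ab NUP1S.AbC NURow NUGC NUGC.PLX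
open _root_.Pool.Agent.PLX

variable {m : ℕ}

/-- modulus of the leg factor at `z` -/
def thZ (z u : ℂ) : ℝ := ‖Complex.sin (z - u - 3 * l)‖ / ‖Complex.sin (z - u + 2 * l)‖

theorem thZ_nonneg (z u : ℂ) : 0 ≤ thZ z u := by
  unfold thZ
  positivity

theorem norm_Lg (z u : ℂ) : ‖Lg z z u‖ = thZ z u := by
  unfold Lg thZ
  rw [norm_div]

/-! ## rows of any number in both groups -/

/-- modulus of the row factor of a quantum: own rows `x`, rows `y` of the other group -/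
def rwU {k k' : ℕ} (x : Fin k → ℂ) (y : Fin k' → ℂ) (u : ℂ) : ℝ :=
  (∏ i, 1 / (‖Complex.sin (u - x i)‖ * ‖Complex.sin (u - x i - 2 * l)‖)) *
    ∏ j, ‖Complex.sin (u - y j + 3 * l)‖ ^ 2

theorem rwU_nonneg {k k' : ℕ} (x : Fin k → ℂ) (y : Fin k' → ℂ) (u : ℂ) : 0 ≤ rwU x y u := by
  unfold rwU
  positivity

/-- **the modulus of the row factor** -/
theorem norm_RRU {k k' : ℕ} (c : ℂ) (x : Fin k → ℂ) (y : Fin k' → ℂ) (u : ℂ) :
    ‖RRU c x y u‖ = ‖c‖ * rwU x y u := by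
  unfold RRU rwU
  rw [norm_mul, norm_mul, norm_mul, norm_prod, norm_prod, norm_prod, mul_assoc, mul_assoc,
    ← mul_assoc (∏ i, ‖1 / Complex.sin (u - x i)‖), ← Finset.prod_mul_distrib]
  congr 2
  · refine Finset.prod_congr rfl fun i _ => ?_
    simp only [norm_inv, div_eq_mul_inv, mul_inv, one_mul]
  · refine Finset.prod_congr rfl fun i _ => ?_
    rw [norm_pow]

/-- regularity on `[3/5 l, 21/20 l]` -/
theorem NPr_A : NPr (l / 2) (Set.Icc (3 / 5 * l) (21 / 20 * l)) := by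
  have hl := Bd.l_pos
  intro d hd e he
  obtain ⟨h3, h4⟩ := abs_le.1 he
  exact NP_pos (by linarith [hd.1]) (by linarith [hd.2])

theorem NQr_A {β : ℝ} (hβ : 0 < β) (hβ' : β ≤ 4 / 3) :
    NQr β (l / 2) (Set.Icc (3 / 5 * l) (21 / 20 * l)) := by
  have hl := Bd.l_pos
  refine NQr_strip hβ hβ' fun d hd => ?_
  obtain ⟨h1, h2⟩ := hd
  constructor <;> linarith

section gen

variable {N : Bool → ℕ}

/-- one body data: rows `xr a` of the species `a`, cutoff points `xr a` and `ex a` (quanta), `xr a`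
and `ex0 a` (strings) -/
def obU (c0 : ℝ) (β : ℝ) (xr : ∀ a, Fin (N a) → ℂ) (ex ex0 : Bool → List ℂ) (g : Bool → ℂ → ℝ) :
    OB where
  R a u := c0 * ((∏ i, 1 / (‖Complex.sin (u - xr a i)‖ * ‖Complex.sin (u - xr a i - 2 * l)‖)) *
    ∏ j, ‖Complex.sin (u - xr (!a) j + 3 * l)‖ ^ 2) * g a u
  φ a := NUP1.phi β (List.ofFn (xr a) ++ ex a)
  φ0 a := NUP1.phi (4 / 3) (List.ofFn (xr a) ++ ex0 a)

theorem obU_R (c0 : ℝ) (β : ℝ) (xr : ∀ a, Fin (N a) → ℂ) (ex ex0 : Bool → List ℂ)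
    (g : Bool → ℂ → ℝ) (a : Bool) (u : ℂ) :
    (obU c0 β xr ex ex0 g).R a u = c0 * rwU (xr a) (xr !a) u * g a u := rfl

theorem obU_nn {c0 : ℝ} (hc : 0 ≤ c0) (β : ℝ) (xr : ∀ a, Fin (N a) → ℂ) (ex ex0 : Bool → List ℂ)
    {g : Bool → ℂ → ℝ} (hg : ∀ a u, 0 ≤ g a u) : (obU c0 β xr ex ex0 g).Nn := fun a u =>
  mul_nonneg (mul_nonneg hc (rwU_nonneg _ _ _)) (hg a u)

variable {P : NUO.Par} {ep β Q : ℝ} {c : Bool → ℂ} {s1 s2 : Bool → ℂ → ℂ} {E : Set ℝ}

/-- **The class functions are bounded by the one body data.** -/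
theorem oneC_XXU {x0 : ℝ} (hx0 : 3 / 5 * l ≤ x0) (hx0' : x0 ≤ 19 / 20 * l)
    (hP : ParC P) (hep0 : 0 < ep) (hep : ep ≤ 1 / 100) (hβ : 0 < β) (hβ' : β ≤ 4 / 3)
    {xr : ∀ a, Fin (N a) → ℂ} (hx : ∀ a, Rws (xr a)) {ex : Bool → List ℂ}
    (hex : ∀ a, ∀ w ∈ ex a, |w.re| ≤ l / 2) (ex0 : Bool → List ℂ)
    {c0 : ℝ}
    (hc : ∀ a, ‖c a‖ = c0) {q : ℤ}
    (hm1 : ∀ a, Measurable (s1 a)) (hm2 : ∀ a, Measurable (s2 a))
    (hA : ∀ a, SpecAt x0 a q (s1 a)) (hS : ∀ a, SpecS P E (s1 a) (s2 a))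
    (hE : volume E = 0) :
    OneC (fun a => XXU (c a) β (xr a) (xr !a) (gP β (ex a)) (gP (4 / 3) (ex0 a)) (s1 a) (s2 a))
      (obU c0 β xr ex ex0 fun a u => ‖s1 a u‖) P ep (2 * β) x0 (q + N true - N false)
      (E ∪ ⋃ a, Set.range fun i => (xr a i).im) := by
  have hl := Bd.l_pos
  have hc0 : 0 ≤ c0 := by
    rw [← hc true]
    exact norm_nonneg _
  have hone : ∀ a (u : ℂ), ‖RRU (c a) (xr a) (xr !a) u * ph β (xr a) (gP β (ex a)) u * s1 a u‖ =
      c0 * rwU (xr a) (xr !a) u * ‖s1 a u‖ * ‖NUP1.phi β (List.ofFn (xr a) ++ ex a) u‖ := by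
    intro a u
    rw [norm_mul, norm_mul, ph_gP, norm_RRU, hc]
    ring
  have hstr : ∀ a (u : ℂ), ‖s2 a u‖ ≤ ‖s1 a u‖ * ‖s1 a (u - l)‖ →
      ‖RRU (c a) (xr a) (xr !a) u‖ * ‖RRU (c a) (xr a) (xr !a) (u - l)‖ * ‖s2 a u‖ ≤
      (c0 * rwU (xr a) (xr !a) u * ‖s1 a u‖) *
        (c0 * rwU (xr a) (xr !a) (u - l) * ‖s1 a (u - l)‖) := by
    intro a u h5
    rw [norm_RRU, norm_RRU, hc]
    have p1 : 0 ≤ rwU (xr a) (xr !a) u := rwU_nonneg _ _ _
    have p2 : 0 ≤ rwU (xr a) (xr !a) (u - l) := rwU_nonneg _ _ _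
    calc _ ≤ c0 * rwU (xr a) (xr !a) u * (c0 * rwU (xr a) (xr !a) (u - l)) *
          (‖s1 a u‖ * ‖s1 a (u - l)‖) := mul_le_mul_of_nonneg_left h5 (by positivity)
      _ = _ := by ring
  refine
    { kpos := by linarith
      nn := obU_nn hc0 β xr ex ex0 fun a u => norm_nonneg _
      nul := ?_
      meas := fun a k => measurable_XXU (measurable_gP _ _) (measurable_gP _ _) (hm1 a) (hm2 a) k
      L := fun a t _ => le_of_eq (hone a _)
      T := ?_
      S := ?_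
      V := fun a r e _ _ u _ => le_of_eq (hone a u)
      A := fun a u _ => le_of_eq (hone a u)
      x1 := hx0'
      dA := ?_
      bA := ?_ }
  · rw [measure_union_null_iff]
    exact ⟨hE, measure_iUnion_null fun a => (Set.finite_range _).measure_zero _⟩
  · intro a t ht
    have htE : t ∉ E := fun h => ht (Or.inl h)
    have hre : (posT t).re = -(1 / 2 * l) := by
      unfold posT vl
      simp
    have him : (posT t).im = t := by
      unfold posT vl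
      simp
    have hK : (posT t).re ∈ K2 := by
      rw [hre]
      exact ⟨by linarith, by linarith⟩
    have hs : ∀ i, (xr a i).re = -(l / 2) → Complex.sin (posT t - xr a i) ≠ 0 := by
      intro i _
      refine NUP1.sin_ne_im ?_
      rw [sub_im, him]
      intro h0
      exact ht (Or.inr (Set.mem_iUnion.2 ⟨a, i, by linarith⟩))
    show ‖TTU (c a) β (4 / 3) (xr a) (xr !a) (gP β (ex a)) (gP (4 / 3) (ex0 a)) (posT t) *
      s2 a (posT t)‖ ≤ _
    rw [TTU_eq (fun i => NQ_KK hβ hβ' (hx a) (K2_KK hK) i)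
      (fun i => NQ_KK (by norm_num) le_rfl (hx a) (K2_KK hK) i)
      (fun i hi => NQ_neg hβ hβ' (hx a) hK i hi) hs, norm_mul, norm_mul, norm_mul, ph_gP, ph_gP,
      ph_gP]
    have key := hstr a (posT t) ((hS a).1 t htE)
    calc _ = (‖RRU (c a) (xr a) (xr !a) (posT t)‖ * ‖RRU (c a) (xr a) (xr !a) (posT t - l)‖ *
            ‖s2 a (posT t)‖) *
          ‖NUP1.phi β (List.ofFn (xr a) ++ ex a) (posT t) *
            NUP1.phi β (List.ofFn (xr a) ++ ex a) (posT t - l) -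
            NUP1.phi (4 / 3) (List.ofFn (xr a) ++ ex0 a) (posT t)‖ := by ring
      _ ≤ _ := mul_le_mul_of_nonneg_right key (norm_nonneg _)
  · intro a r e t ht h1 h2
    have htE : t ∉ E := fun h => ht (Or.inl h)
    show ‖RRU (c a) (xr a) (xr !a) (posS e t) * RRU (c a) (xr a) (xr !a) (posS e t - l) *
      ph (4 / 3) (xr a) (gP (4 / 3) (ex0 a)) (posS e t) * s2 a (posS e t)‖ ≤ _
    rw [norm_mul, norm_mul, norm_mul, ph_gP]
    have key := hstr a (posS e t) ((hS a).2 r e t htE h1 h2)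
    calc _ = (‖RRU (c a) (xr a) (xr !a) (posS e t)‖ *
            ‖RRU (c a) (xr a) (xr !a) (posS e t - l)‖ * ‖s2 a (posS e t)‖) *
          ‖NUP1.phi (4 / 3) (List.ofFn (xr a) ++ ex0 a) (posS e t)‖ := by ring
      _ ≤ _ := mul_le_mul_of_nonneg_right key (norm_nonneg _)
  · intro a u u1 u2
    have u3 : u.re ≤ 21 / 20 * l := by nlinarith
    have hu : u.re ∈ Set.Icc (3 / 5 * l) (21 / 20 * l) := ⟨by linarith, u3⟩
    have h2 := diffAt_RRU (c a) (y := xr !a) NPr_A (hx a) hu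
    have h3 : DifferentiableAt ℂ (ph β (xr a) (gP β (ex a))) u := by
      have d1 := DifferentiableAt.fun_finsetProd (𝕜 := ℂ) (u := Finset.univ)
        (f := fun (i : Fin (N a)) s => psi β (s - xr a i)) (x := u) (fun i _ =>
          diffAt_psiw (NQr_A hβ hβ') (hx a i) hu)
      exact (d1.mul (diffAt_gP (NQr_A hβ hβ') (hex a) hu)).const_sub 1
    exact (h2.mul h3).mul ((hA a).df u ⟨u1, u3⟩)
  · intro a
    have hsub : Set.Icc x0 (21 / 20 * l) ⊆ Set.Icc (3 / 5 * l) (21 / 20 * l) := fun y hy =>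
      ⟨hx0.trans hy.1, hy.2⟩
    have h2 := Bdd.mono_set (bdd_RRU (c a) (hx a) (hx !a) isCompact_Icc NPr_A) hsub
    have h3 : Bdd (Set.Icc x0 (21 / 20 * l)) (-(2 * β)) (ph β (xr a) (gP β (ex a))) := by
      have hW : ∀ w ∈ List.ofFn (xr a) ++ ex a, |w.re| ≤ l / 2 := by
        intro w hw
        rcases List.mem_append.1 hw with h | h
        · obtain ⟨i, rfl⟩ := (List.mem_ofFn' _ _).1 h
          exact hx a i
        · exact hex a w h
      have h := (bdd_gP hβ (K := Set.Icc (3 / 5 * l) (21 / 20 * l)) isCompact_Icc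
        (NQr_A hβ hβ') hW).1
      refine Bdd.cg (Bdd.mono_set h hsub) fun z _ => ?_
      rw [ph_gP]
      rfl
    have h4 := (h2.mul h3).mul (hA a).bd
    have h5 : Bdd (Set.Icc x0 (21 / 20 * l)) (-(2 * β + 2 * (sg a * (q + N true - N false) : ℤ)))
        (XXU (c a) β (xr a) (xr !a) (gP β (ex a)) (gP (4 / 3) (ex0 a)) (s1 a) (s2 a) none) := by
      refine h4.rate ?_
      cases a <;> simp [sc, sg, Bd.chg] <;> ring
    obtain ⟨C, hC, hb⟩ := h5
    exact ⟨C, hC, fun z hz => hb z ⟨hz.1, hz.2.trans (by nlinarith)⟩⟩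

end gen

/-! ## the legs -/

theorem Lg_SpecAt {x0 : ℝ} (hx0 : 3 / 5 * l ≤ x0) (b : Bool) {z : ℂ} (h1 : -(9 / 10 * l) ≤ z.re)
    (h2 : z.re < 37 / 10 * l) : SpecAt x0 b ((0 : ℤ) : ℝ) (Lg z z) := by
  have hl := Bd.l_pos
  have hs : ∀ r ∈ Set.Icc x0 (21 / 20 * l), Real.sin (z.re - r + 2 * l) ≠ 0 := by
    intro r hr
    exact sin_pos_ne (by linarith [hr.2]) (by linarith [hr.1])
  constructor
  · have h := Bdd_of_Gr (K := Set.Icc x0 (21 / 20 * l)) (f := Lg z z) isCompact_Icc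
      (α := 21 / 20 * l) (β := x0) (s := 0) (fun r hr => hr) (Lg_gr _ _ z z)
      (fun u hu => (Lg_diff (hs _ hu)).continuousAt)
    refine h.rate ?_
    simp
  · intro u hu
    exact Lg_diff (hs _ hu)

theorem Lg_SpecS {P : NUO.Par} (z : ℂ) :
    SpecS P ∅ (Lg z z) (fun w => Lg z z w * Lg z z (w - l)) :=
  ⟨fun t _ => le_of_eq (norm_mul _ _), fun r e t _ _ _ => le_of_eq (norm_mul _ _)⟩

/-! ## the `q`-fold rows -/

variable [Fil]

/-- **modulus of the row factor of a quantum of species `a`: a row `x` of X, a `q`-fold row `x` of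
Y** -/
def rwC (a : Bool) (x u : ℂ) : ℝ :=
  ‖Complex.sin (u - x + 3 * l)‖ ^ (2 * Fil.n (!a)) /
    (‖Complex.sin (u - x)‖ * ‖Complex.sin (u - x - 2 * l)‖) ^ Fil.n a

theorem rwC_nonneg (a : Bool) (x u : ℂ) : 0 ≤ rwC a x u := by
  unfold rwC
  positivity

/-- one-fold rows: the factor of the landed files -/
theorem rwC_one (a : Bool) (x u : ℂ) : @rwC Fil.one a x u = ‖Complex.sin (u - x + 3 * l)‖ ^ 2 /
    (‖Complex.sin (u - x)‖ * ‖Complex.sin (u - x - 2 * l)‖) := by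
  have h : ∀ b : Bool, @Fil.n Fil.one b = 1 := fun b => by cases b <;> rfl
  unfold rwC
  rw [h, h, pow_one]

theorem rwU_rwq (x : Fin m → ℂ) (a : Bool) (u : ℂ) :
    rwU (rwq x a) (rwq x !a) u = ∏ i, rwC a (x i) u := by
  unfold rwU
  rw [prod_rwq (fun w => 1 / (‖Complex.sin (u - w)‖ * ‖Complex.sin (u - w - 2 * l)‖)) x a,
    prod_rwq (fun w => ‖Complex.sin (u - w + 3 * l)‖ ^ 2) x (!a), ← Finset.prod_pow,
    ← Finset.prod_pow, ← Finset.prod_mul_distrib]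
  refine Finset.prod_congr rfl fun i _ => ?_
  unfold rwC
  rw [← pow_mul, one_div, inv_pow, div_eq_mul_inv, mul_comm]

/-- **the modulus of the row factor** -/
theorem norm_RRU_rwq (c : ℂ) (x : Fin m → ℂ) (a : Bool) (u : ℂ) :
    ‖RRU c (rwq x a) (rwq x !a) u‖ = ‖c‖ * ∏ i, rwC a (x i) u := by
  rw [norm_RRU, rwU_rwq]

/-- one body data: rows `(x | x^q)`, cutoff points `rwq x a` and `ex a` (quanta), `rwq x a` and
`ex0 a` (strings) -/
def obX (c0 : ℝ) (β : ℝ) (x : Fin m → ℂ) (ex ex0 : Bool → List ℂ) (g : Bool → ℂ → ℝ) : OB where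
  R a u := c0 * (∏ i, rwC a (x i) u) * g a u
  φ a := NUP1.phi β (List.ofFn (rwq x a) ++ ex a)
  φ0 a := NUP1.phi (4 / 3) (List.ofFn (rwq x a) ++ ex0 a)

theorem obX_nn {c0 : ℝ} (hc : 0 ≤ c0) (β : ℝ) (x : Fin m → ℂ) (ex ex0 : Bool → List ℂ)
    {g : Bool → ℂ → ℝ} (hg : ∀ a u, 0 ≤ g a u) : (obX c0 β x ex ex0 g).Nn := fun a u =>
  mul_nonneg (mul_nonneg hc (Finset.prod_nonneg fun i _ => rwC_nonneg _ _ _)) (hg a u)

/-- **rows `(x | x^q)`** -/
theorem obU_rwq (c0 : ℝ) (β : ℝ) (x : Fin m → ℂ) (ex ex0 : Bool → List ℂ) (g : Bool → ℂ → ℝ) :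
    obU c0 β (rwq x) ex ex0 g = obX c0 β x ex ex0 g := by
  unfold obU obX
  congr 1
  funext a u
  show c0 * rwU (rwq x a) (rwq x !a) u * g a u = _
  rw [rwU_rwq]

variable {P : NUO.Par} {ep β Q : ℝ} {c : Bool → ℂ} {s1 s2 : Bool → ℂ → ℂ} {E : Set ℝ}

theorem iUnion_range_rwq (x : Fin m → ℂ) :
    (⋃ a : Bool, Set.range fun i => (rwq x a i).im) = Set.range fun i => (x i).im := by
  have h : ∀ a : Bool, (Set.range fun i => (rwq x a i).im) = Set.range fun i => (x i).im := by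
    intro a
    have e := range_rwq (fun i => (x i).im) a
    rw [rwq_comp (fun w : ℂ => w.im) x a] at e
    exact e
  simp only [h, Set.iUnion_const]

/-- **The class functions are bounded by the one body data**, rows `(x | x^q)`: the charge of the
spectators is `q`, the charge is `q - (Fil.q - 1) m`. -/
theorem oneC_XX {x0 : ℝ} (hx0 : 3 / 5 * l ≤ x0) (hx0' : x0 ≤ 19 / 20 * l)
    (hP : ParC P) (hep0 : 0 < ep) (hep : ep ≤ 1 / 100) (hβ : 0 < β) (hβ' : β ≤ 4 / 3)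
    {x : Fin m → ℂ} (hx : Rws x) {ex : Bool → List ℂ} (hex : ∀ a, ∀ w ∈ ex a, |w.re| ≤ l / 2)
    (ex0 : Bool → List ℂ)
    {c0 : ℝ}
    (hc : ∀ a, ‖c a‖ = c0) {q : ℤ}
    (hm1 : ∀ a, Measurable (s1 a)) (hm2 : ∀ a, Measurable (s2 a))
    (hA : ∀ a, SpecAt x0 a q (s1 a)) (hS : ∀ a, SpecS P E (s1 a) (s2 a))
    (hE : volume E = 0) :
    OneC (fun a => XXU (c a) β (rwq x a) (rwq x !a) (gP β (ex a)) (gP (4 / 3) (ex0 a))
        (s1 a) (s2 a))
      (obX c0 β x ex ex0 fun a u => ‖s1 a u‖) P ep (2 * β) x0 (q - Fil.xn m)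
      (E ∪ Set.range fun i => (x i).im) := by
  have h := oneC_XXU (N := fun a => cond a m (Fil.q * m)) (xr := rwq x) hx0 hx0' hP hep0 hep hβ hβ'
    (fun a => Rws_rwq hx a) hex ex0 hc (q := q) hm1 hm2 hA hS hE
  rw [iUnion_range_rwq, obU_rwq] at h
  have e : q + ((cond true m (Fil.q * m) : ℕ) : ℤ) - ((cond false m (Fil.q * m) : ℕ) : ℤ) =
      q - Fil.xn m := by
    show q + (m : ℤ) - ((Fil.q * m : ℕ) : ℤ) = q - Fil.xn m
    rw [← Fil.add_xn]
    push_cast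
    ring
  rw [e] at h
  exact h

/-- **The dislocated function with legs at `z`.** -/
theorem oneC_Lg {x0 : ℝ} (hx0 : 3 / 5 * l ≤ x0) (hx0' : x0 ≤ 19 / 20 * l)
    (hP : ParC P) (hep0 : 0 < ep) (hep : ep ≤ 1 / 100) (hβ : 0 < β) (hβ' : β ≤ 4 / 3)
    {x : Fin m → ℂ} (hx : Rws x) {ex : Bool → List ℂ} (hex : ∀ a, ∀ w ∈ ex a, |w.re| ≤ l / 2)
    (ex0 : Bool → List ℂ)
    {c0 : ℝ}
    (hc : ∀ a, ‖c a‖ = c0) {z : ℂ} (h1 : -(9 / 10 * l) ≤ z.re) (h2 : z.re < 37 / 10 * l) :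
    OneC (fun a => XXU (c a) β (rwq x a) (rwq x !a) (gP β (ex a)) (gP (4 / 3) (ex0 a)) (Lg z z)
        (fun w => Lg z z w * Lg z z (w - l)))
      (obX c0 β x ex ex0 fun _ u => thZ z u) P ep (2 * β) x0 (-Fil.xn m)
      (Set.range fun i => (x i).im) := by
  have h := oneC_XX (E := ∅) (q := 0) (s1 := fun _ => Lg z z)
    (s2 := fun _ w => Lg z z w * Lg z z (w - l)) hx0 hx0' hP hep0 hep hβ hβ' hx hex ex0 hc
    (fun _ => Lg_meas z z)
    (fun _ => (Lg_meas z z).mul ((Lg_meas z z).comp (measurable_id.sub_const _)))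
    (fun a => Lg_SpecAt hx0 a h1 h2) (fun _ => Lg_SpecS z) (by simp)
  rw [Set.empty_union, zero_sub] at h
  simp only [norm_Lg] at h
  exact h

end PBX.PLX

end
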