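import Pool.Agent.PLX.PB.ClsR40
import Pool.Agent.PLX.PB.OneD

/-!
# Base functions with any rows `|Re x| ≤ l / 2`, any ends or legs as base spectators (PLAX: any numbers of rows)

* `bs_spX`: a base with base spectators (legs, ends) is a base;
* `bs_rowsU`, `bs_XXU`: rows `xr a : Fin (N a) → ℂ` of the species `a`, `N false = N true + e`, cutoff points `ex a`
  (quanta), `ex0 a` (strings), base spectators `s0 a`, `t0 a` of rate 0, one body data `obU c0 β xr ex ex0 (‖s0‖ g)`;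
* `bs_XX`: rows `(x | x^q)`, `e = Fil.xn m`, one body data `obX c0 β x ex ex0 (‖s0‖ g)`;
* `bs_legs`: legs at `z`, `- 9 l / 10 ≤ Re z < 37 l / 10`; `bs_ends`: ends `p`, `q`,
  `|Re p|, |Re q| ≤ l / 2` (spectator `NUP1.Leg.thE p p q q`).
-/

set_option autoImplicit false
set_option linter.unusedSectionVars false

noncomputable section

open Complex MeasureTheory Finset
open scoped ENNReal

open PLX (Fil)

namespace PBR.PLX

open NUO NUP1 NUCR NUP1S NUP1S.Ab NUP1S.AbC NUP1S.AbG NURow NUP1.Leg NUGC NUGC.PLX PBX PBX.PLX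
open _root_.Pool.Agent.PLX

/-- one body data with base spectators -/
theorem Bs.congr {X X' : Bool → Option O3 → ℂ → ℂ} {ob ob' : (Bool → ℂ → ℝ) → OB} {P : NUO.Par}
    {ep κ : ℝ} {e : ℕ} {E0 : Set ℝ} (h : Bs X ob P ep κ e E0) (hX : ∀ a k u, X a k u = X' a k u)
    (hob : ∀ g, ob g = ob' g) : Bs X' ob' P ep κ e E0 := by
  have e1 : X = X' := funext fun a => funext fun k => funext fun u => hX a k u
  have e2 : ob = ob' := funext hob
  rw [← e1, ← e2]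
  exact h

/-- admissible base spectators (rate 0) -/
structure Bsp (P : NUO.Par) (E1 : Set ℝ) (s0 t0 : ℂ → ℂ) : Prop where
  m1 : Measurable s0
  m2 : Measurable t0
  bd : Bdd (Set.Icc (3 / 5 * l) (21 / 20 * l)) 0 s0
  df : ∀ z : ℂ, z.re ∈ Set.Icc (3 / 5 * l) (21 / 20 * l) → DifferentiableAt ℂ s0 z
  st : SpecS P E1 s0 t0

theorem SpecS.mul {P : NUO.Par} {E E1 : Set ℝ} {s1 s2 t1 t2 : ℂ → ℂ} (h : SpecS P E s1 s2)
    (h' : SpecS P E1 t1 t2) :
    SpecS P (E ∪ E1) (fun u => t1 u * s1 u) fun u => t2 u * s2 u := by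
  have key : ∀ w : ℂ, ‖s2 w‖ ≤ ‖s1 w‖ * ‖s1 (w - l)‖ → ‖t2 w‖ ≤ ‖t1 w‖ * ‖t1 (w - l)‖ →
      ‖t2 w * s2 w‖ ≤ ‖t1 w * s1 w‖ * ‖t1 (w - l) * s1 (w - l)‖ := by
    intro w h1 h2
    rw [norm_mul, norm_mul, norm_mul]
    calc ‖t2 w‖ * ‖s2 w‖ ≤ (‖t1 w‖ * ‖t1 (w - l)‖) * (‖s1 w‖ * ‖s1 (w - l)‖) :=
          mul_le_mul h2 h1 (norm_nonneg _) (by positivity)
      _ = _ := by ring
  exact ⟨fun t ht => key _ (h.1 t fun h0 => ht (Or.inl h0)) (h'.1 t fun h0 => ht (Or.inr h0)),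
    fun r e t ht h1 h2 => key _ (h.2 r e t (fun h0 => ht (Or.inl h0)) h1 h2)
      (h'.2 r e t (fun h0 => ht (Or.inr h0)) h1 h2)⟩

/-- **a base with base spectators is a base** -/
theorem bs_spX {X : Bool → Option O3 → ℂ → ℂ} {ob : (Bool → ℂ → ℝ) → OB} {P : NUO.Par}
    {ep κ : ℝ} {e : ℕ} {E0 E1 : Set ℝ} (h : Bs X ob P ep κ e E0) {s0 t0 : Bool → ℂ → ℂ}
    (hs : ∀ a, Bsp P E1 (s0 a) (t0 a)) (hE1 : volume E1 = 0) :
    Bs (fun a => spX (X a) (s0 a) (t0 a)) (fun g => ob fun a u => ‖s0 a u‖ * g a u) P ep κ e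
      (E1 ∪ E0) where
  kpos := h.kpos
  nul := by
    rw [measure_union_null_iff]
    exact ⟨hE1, h.nul⟩
  meas a k := measurable_spX (h.meas a) (hs a).m1 (hs a).m2 k
  df a u hu := (h.df a u hu).mul ((hs a).df u hu)
  bd a := ((h.bd a).mul (hs a).bd).rate (by ring)
  one x0 h0 h1 q s1 s2 E hm1 hm2 hA hS hE := by
    have hsub : Set.Icc x0 (21 / 20 * l) ⊆ Set.Icc (3 / 5 * l) (21 / 20 * l) := fun y hy =>
      ⟨h0.trans hy.1, hy.2⟩
    have key := h.one x0 h0 h1 q (fun a u => s0 a u * s1 a u) (fun a u => t0 a u * s2 a u)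
      (E ∪ E1) (fun a => (hs a).m1.mul (hm1 a)) (fun a => (hs a).m2.mul (hm2 a))
      (fun a => ⟨((Bdd.mono_set (hs a).bd hsub).mul (hA a).bd).rate (by ring),
        fun z hz => ((hs a).df z (hsub hz)).mul ((hA a).df z hz)⟩)
      (fun a => SpecS.mul (hS a) (hs a).st) (by
        rw [measure_union_null_iff]
        exact ⟨hE, hE1⟩)
    have e1 : (fun a => spX (X a) (fun u => s0 a u * s1 a u) fun u => t0 a u * s2 a u) =
        fun a => spX (spX (X a) (s0 a) (t0 a)) (s1 a) (s2 a) := by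
      funext a
      rw [spX_spX]
    have e2 : (fun (a : Bool) (u : ℂ) => ‖s0 a u * s1 a u‖) = fun a u => ‖s0 a u‖ * ‖s1 a u‖ := by
      funext a u
      exact norm_mul _ _
    rw [e1, e2, Set.union_assoc] at key
    exact key

/-- the functions `XXU` with spectators -/
theorem spX_XXU {m M : ℕ} (c : ℂ) (β : ℝ) (x : Fin m → ℂ) (y : Fin M → ℂ) (g g0 s0 t0 : ℂ → ℂ) :
    spX (XXU c β x y g g0 (fun _ => 1) fun _ => 1) s0 t0 = XXU c β x y g g0 s0 t0 := by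
  funext k u
  rcases k with _ | (_ | _ | _) <;> simp only [spX, XXU, mul_one]

section gen

variable {N : Bool → ℕ} {P : NUO.Par} {ep β : ℝ} {e : ℕ} {c : Bool → ℂ} {c0 : ℝ} {xr : ∀ a, Fin (N a) → ℂ}
  {ex ex0 : Bool → List ℂ}

/-- the rows alone -/
theorem bs_rowsU (hN : N false = N true + e) (hP : ParC P) (hep0 : 0 < ep) (hep : ep ≤ 1 / 100) (hβ : 0 < β)
    (hβ' : β ≤ 4 / 3) (hx : ∀ a, Rws (xr a)) (hex : ∀ a, ∀ w ∈ ex a, |w.re| ≤ l / 2) (hc : ∀ a, ‖c a‖ = c0) :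
    Bs (fun a => XXU (c a) β (xr a) (xr !a) (gP β (ex a)) (gP (4 / 3) (ex0 a)) (fun _ => 1) fun _ => 1)
      (obU c0 β xr ex ex0) P ep (2 * β) e (⋃ a, Set.range fun i => (xr a i).im) := by
  have hl := l_pos
  have hW : ∀ a, ∀ w ∈ List.ofFn (xr a) ++ ex a, |w.re| ≤ l / 2 := by
    intro a w hw
    rcases List.mem_append.1 hw with h | h
    · obtain ⟨i, rfl⟩ := (List.mem_ofFn' _ _).1 h
      exact hx a i
    · exact hex a w h
  have hN' : ((N false : ℕ) : ℝ) = N true + e := by exact_mod_cast hN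
  refine
    { kpos := by linarith
      nul := measure_iUnion_null fun a => (Set.finite_range _).measure_zero _
      meas := fun a k => measurable_XXU (measurable_gP _ _) (measurable_gP _ _) measurable_const
        measurable_const k
      df := ?_
      bd := ?_
      one := ?_ }
  · intro a u hu
    have h2 := diffAt_RRU (c a) (y := xr !a) NPr_A (hx a) hu
    have h3 : DifferentiableAt ℂ (ph β (xr a) (gP β (ex a))) u := by
      have d1 := DifferentiableAt.fun_finsetProd (𝕜 := ℂ) (u := Finset.univ)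
        (f := fun (i : Fin (N a)) s => psi β (s - xr a i)) (x := u) (fun i _ =>
          diffAt_psiw (NQr_A hβ hβ') (hx a i) hu)
      exact (d1.mul (diffAt_gP (NQr_A hβ hβ') (hex a) hu)).const_sub 1
    exact (h2.mul h3).mul (differentiableAt_const _)
  · intro a
    have h2 := bdd_RRU (c a) (hx a) (hx !a) isCompact_Icc NPr_A
    have h3 : Bdd (Set.Icc (3 / 5 * l) (21 / 20 * l)) (-(2 * β)) (ph β (xr a) (gP β (ex a))) := by
      have h := (bdd_gP hβ (K := Set.Icc (3 / 5 * l) (21 / 20 * l)) isCompact_Icc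
        (NQr_A hβ hβ') (hW a)).1
      refine Bdd.cg h fun z _ => ?_
      rw [ph_gP]
      rfl
    refine ((h2.mul h3).mul (Bdd.const _ _)).rate ?_
    cases a <;> simp [sc, Bd.chg, hN'] <;> ring
  · intro x0 h0 h1 q s1 s2 E hm1 hm2 hA hS hE
    have h := oneC_XXU h0 h1 hP hep0 hep hβ hβ' hx hex ex0 hc hm1 hm2 hA hS hE
    have e1 : (fun a => XXU (c a) β (xr a) (xr !a) (gP β (ex a)) (gP (4 / 3) (ex0 a)) (s1 a) (s2 a)) =
        fun a => spX (XXU (c a) β (xr a) (xr !a) (gP β (ex a)) (gP (4 / 3) (ex0 a)) (fun _ => 1) fun _ => 1) (s1 a)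
          (s2 a) := by
      funext a
      rw [spX_XXU]
    have e2 : q + (N true : ℤ) - (N false : ℤ) = q - e := by
      rw [hN]
      push_cast
      ring
    rw [e1, e2] at h
    exact h

/-- **rows with base spectators** -/
theorem bs_XXU {E1 : Set ℝ} {s0 t0 : Bool → ℂ → ℂ} (hN : N false = N true + e) (hP : ParC P) (hep0 : 0 < ep)
    (hep : ep ≤ 1 / 100) (hβ : 0 < β) (hβ' : β ≤ 4 / 3) (hx : ∀ a, Rws (xr a))
    (hex : ∀ a, ∀ w ∈ ex a, |w.re| ≤ l / 2) (hc : ∀ a, ‖c a‖ = c0) (hs : ∀ a, Bsp P E1 (s0 a) (t0 a))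
    (hE1 : volume E1 = 0) :
    Bs (fun a => XXU (c a) β (xr a) (xr !a) (gP β (ex a)) (gP (4 / 3) (ex0 a)) (s0 a) (t0 a))
      (fun g => obU c0 β xr ex ex0 fun a u => ‖s0 a u‖ * g a u) P ep (2 * β) e
      (E1 ∪ ⋃ a, Set.range fun i => (xr a i).im) := by
  refine (bs_spX (bs_rowsU hN hP hep0 hep hβ hβ' hx hex hc) hs hE1).congr (fun a k u => ?_)
    fun g => rfl
  rw [spX_XXU]

end gen

/-! ## rows `(x | x^q)` -/

section fil

variable [Fil] {m : ℕ} {P : NUO.Par} {ep β : ℝ} {c : Bool → ℂ} {c0 : ℝ} {x : Fin m → ℂ} {ex ex0 : Bool → List ℂ}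

theorem cond_xn (m : ℕ) : cond false m (Fil.q * m) = cond true m (Fil.q * m) + Fil.xn m :=
  (Fil.add_xn m).symm

/-- **rows `(x | x^q)` with base spectators** -/
theorem bs_XX {E1 : Set ℝ} {s0 t0 : Bool → ℂ → ℂ} (hP : ParC P) (hep0 : 0 < ep)
    (hep : ep ≤ 1 / 100) (hβ : 0 < β) (hβ' : β ≤ 4 / 3) (hx : Rws x)
    (hex : ∀ a, ∀ w ∈ ex a, |w.re| ≤ l / 2) (hc : ∀ a, ‖c a‖ = c0) (hs : ∀ a, Bsp P E1 (s0 a) (t0 a))
    (hE1 : volume E1 = 0) :
    Bs (fun a => XXU (c a) β (rwq x a) (rwq x !a) (gP β (ex a)) (gP (4 / 3) (ex0 a)) (s0 a) (t0 a))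
      (fun g => obX c0 β x ex ex0 fun a u => ‖s0 a u‖ * g a u) P ep (2 * β) (Fil.xn m)
      (E1 ∪ Set.range fun i => (x i).im) := by
  have h := bs_XXU (N := fun a => cond a m (Fil.q * m)) (xr := rwq x) (ex0 := ex0) (cond_xn m) hP hep0 hep hβ hβ'
    (fun a => Rws_rwq hx a) hex hc hs hE1
  rw [iUnion_range_rwq] at h
  exact h.congr (fun _ _ _ => rfl) fun g => obU_rwq _ _ _ _ _ _

end fil

/-! ## legs -/

theorem bsp_Lg {P : NUO.Par} {z : ℂ} (h1 : -(9 / 10 * l) ≤ z.re) (h2 : z.re < 37 / 10 * l) :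
    Bsp P ∅ (Lg z z) fun w => Lg z z w * Lg z z (w - l) where
  m1 := Lg_meas z z
  m2 := (Lg_meas z z).mul ((Lg_meas z z).comp (measurable_id.sub_const _))
  bd := ((Lg_SpecAt le_rfl true h1 h2).bd).rate (by simp)
  df := (Lg_SpecAt le_rfl true h1 h2).df
  st := Lg_SpecS z

/-- **legs at `z`**, any numbers of rows -/
theorem bs_legsU {N : Bool → ℕ} {P : NUO.Par} {ep β : ℝ} {e : ℕ} {c : Bool → ℂ} {c0 : ℝ} {xr : ∀ a, Fin (N a) → ℂ}
    {ex ex0 : Bool → List ℂ} {z : ℂ} (hN : N false = N true + e) (hP : ParC P) (hep0 : 0 < ep) (hep : ep ≤ 1 / 100)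
    (hβ : 0 < β) (hβ' : β ≤ 4 / 3) (hx : ∀ a, Rws (xr a)) (hex : ∀ a, ∀ w ∈ ex a, |w.re| ≤ l / 2)
    (hc : ∀ a, ‖c a‖ = c0) (h1 : -(9 / 10 * l) ≤ z.re) (h2 : z.re < 37 / 10 * l) :
    Bs (fun a => XXU (c a) β (xr a) (xr !a) (gP β (ex a)) (gP (4 / 3) (ex0 a)) (Lg z z)
        fun w => Lg z z w * Lg z z (w - l))
      (fun g => obU c0 β xr ex ex0 fun a u => thZ z u * g a u) P ep (2 * β) e
      (⋃ a, Set.range fun i => (xr a i).im) := by
  have h := bs_XXU (ex0 := ex0) (E1 := ∅) (s0 := fun _ => Lg z z)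
    (t0 := fun _ w => Lg z z w * Lg z z (w - l)) hN hP hep0 hep hβ hβ' hx hex hc
    (fun _ => bsp_Lg h1 h2) (by simp)
  simp only [norm_Lg, Set.empty_union] at h
  exact h

/-- **legs at `z`**, rows `(x | x^q)` -/
theorem bs_legs [Fil] {m : ℕ} {P : NUO.Par} {ep β : ℝ} {c : Bool → ℂ} {c0 : ℝ} {x : Fin m → ℂ} {ex ex0 : Bool → List ℂ}
    {z : ℂ} (hP : ParC P) (hep0 : 0 < ep) (hep : ep ≤ 1 / 100) (hβ : 0 < β)
    (hβ' : β ≤ 4 / 3) (hx : Rws x) (hex : ∀ a, ∀ w ∈ ex a, |w.re| ≤ l / 2) (hc : ∀ a, ‖c a‖ = c0)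
    (h1 : -(9 / 10 * l) ≤ z.re) (h2 : z.re < 37 / 10 * l) :
    Bs (fun a => XXU (c a) β (rwq x a) (rwq x !a) (gP β (ex a)) (gP (4 / 3) (ex0 a)) (Lg z z)
        fun w => Lg z z w * Lg z z (w - l))
      (fun g => obX c0 β x ex ex0 fun a u => thZ z u * g a u) P ep (2 * β) (Fil.xn m)
      (Set.range fun i => (x i).im) := by
  have h := bs_XX (ex0 := ex0) (E1 := ∅) (s0 := fun _ => Lg z z)
    (t0 := fun _ w => Lg z z w * Lg z z (w - l)) hP hep0 hep hβ hβ' hx hex hc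
    (fun _ => bsp_Lg h1 h2) (by simp)
  simp only [norm_Lg, Set.empty_union] at h
  exact h

/-! ## ends -/

theorem measurable_thE (r o r' o' : ℂ) : Measurable (thE r o r' o') := by
  unfold thE
  fun_prop

/-- the ends on the strip of the quanta -/
theorem PB_thE {p q : ℂ} (hp : |p.re| ≤ l / 2) (hq : |q.re| ≤ l / 2) :
    (Bdd (Set.Icc (3 / 5 * l) (21 / 20 * l)) 0 (thE p p q q)) ∧
    ∀ z : ℂ, z.re ∈ Set.Icc (3 / 5 * l) (21 / 20 * l) →
      DifferentiableAt ℂ (thE p p q q) z := by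
  have hl := l_pos
  obtain ⟨p1, p2⟩ := abs_le.1 hp
  obtain ⟨q1, q2⟩ := abs_le.1 hq
  have hden : ∀ {r : ℂ}, |r.re| ≤ l / 2 → ∀ d ∈ Set.Icc (3 / 5 * l) (21 / 20 * l),
      Real.sin (r.re - d + 2 * l) ≠ 0 := by
    intro r hr d hd
    obtain ⟨r1, r2⟩ := abs_le.1 hr
    exact sin_pos_ne (by linarith [hd.2]) (by linarith [hd.1])
  have hp' := hden hp
  have hq' := hden hq
  have hdC : ∀ {r : ℂ}, (∀ d ∈ Set.Icc (3 / 5 * l) (21 / 20 * l), Real.sin (r.re - d + 2 * l) ≠ 0) →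
      ∀ z : ℂ, z.re ∈ Set.Icc (3 / 5 * l) (21 / 20 * l) → sin (r - z + 2 * l) ≠ 0 := by
    intro r hr z hz
    exact Lg_den (hr _ hz)
  -- the leg factors
  have e : thE p p q q = fun u => Lg p q u * Lg q p u := by
    funext u
    unfold thE Lg
    have e1 : sin (u - p + 3 * l) = -sin (p - u - 3 * l) := by
      rw [← Complex.sin_neg]
      congr 1
      ring
    have e2 : sin (u - q + 3 * l) = -sin (q - u - 3 * l) := by
      rw [← Complex.sin_neg]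
      congr 1
      ring
    rw [e1, e2, div_mul_div_comm]
    congr 1
    ring
  have key : ∀ {r o : ℂ}, (∀ d ∈ Set.Icc (3 / 5 * l) (21 / 20 * l),
      Real.sin (r.re - d + 2 * l) ≠ 0) → Bdd (Set.Icc (3 / 5 * l) (21 / 20 * l)) 0 (Lg r o) ∧
      ∀ z : ℂ, z.re ∈ Set.Icc (3 / 5 * l) (21 / 20 * l) → DifferentiableAt ℂ (Lg r o) z := by
    intro r o hr
    have hd : ∀ z : ℂ, z.re ∈ Set.Icc (3 / 5 * l) (21 / 20 * l) →
        DifferentiableAt ℂ (Lg r o) z := fun z hz => Lg_diff (hr _ hz)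
    refine ⟨?_, hd⟩
    have h := Bdd_of_Gr (K := Set.Icc (3 / 5 * l) (21 / 20 * l)) (f := Lg r o) isCompact_Icc
      (α := 21 / 20 * l) (β := 3 / 5 * l) (s := 0) (fun r hr => hr) (Lg_gr _ _ r o)
      (fun u hu => (hd u hu).continuousAt)
    exact h
  rw [e]
  have k1 := key (o := q) hp'
  have k2 := key (o := p) hq'
  exact ⟨(k1.1.mul k2.1).rate (by ring), fun z hz => (k1.2 z hz).mul (k2.2 z hz)⟩

theorem bsp_thE {P : NUO.Par} {p q : ℂ} (hp : |p.re| ≤ l / 2) (hq : |q.re| ≤ l / 2) :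
    Bsp P ∅ (thE p p q q) fun w => thE p p q q w * thE p p q q (w - l) where
  m1 := measurable_thE _ _ _ _
  m2 := (measurable_thE _ _ _ _).mul ((measurable_thE _ _ _ _).comp (measurable_id.sub_const _))
  bd := (PB_thE hp hq).1
  df := (PB_thE hp hq).2
  st := ⟨fun _ _ => le_of_eq (norm_mul _ _), fun _ _ _ _ _ _ => le_of_eq (norm_mul _ _)⟩

/-- **ends `p`, `q`** (both ends of each species at one point, as `RU.X`, `RU.Y`), any numbers of rows -/
theorem bs_endsU {N : Bool → ℕ} {P : NUO.Par} {ep β : ℝ} {e : ℕ} {c : Bool → ℂ} {c0 : ℝ} {xr : ∀ a, Fin (N a) → ℂ}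
    {ex ex0 : Bool → List ℂ} {p q : ℂ} (hN : N false = N true + e) (hP : ParC P) (hep0 : 0 < ep) (hep : ep ≤ 1 / 100)
    (hβ : 0 < β) (hβ' : β ≤ 4 / 3) (hx : ∀ a, Rws (xr a)) (hex : ∀ a, ∀ w ∈ ex a, |w.re| ≤ l / 2)
    (hc : ∀ a, ‖c a‖ = c0) (hp : |p.re| ≤ l / 2) (hq : |q.re| ≤ l / 2) :
    Bs (fun a => XXU (c a) β (xr a) (xr !a) (gP β (ex a)) (gP (4 / 3) (ex0 a)) (thE p p q q)
        fun w => thE p p q q w * thE p p q q (w - l))
      (fun g => obU c0 β xr ex ex0 fun a u => ‖thE p p q q u‖ * g a u) P ep (2 * β) e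
      (⋃ a, Set.range fun i => (xr a i).im) := by
  have h := bs_XXU (ex0 := ex0) (E1 := ∅) (s0 := fun _ => thE p p q q)
    (t0 := fun _ w => thE p p q q w * thE p p q q (w - l)) hN hP hep0 hep hβ hβ' hx hex hc
    (fun _ => bsp_thE hp hq) (by simp)
  simp only [Set.empty_union] at h
  exact h

/-- **ends `p`, `q`**, rows `(x | x^q)` -/
theorem bs_ends [Fil] {m : ℕ} {P : NUO.Par} {ep β : ℝ} {c : Bool → ℂ} {c0 : ℝ} {x : Fin m → ℂ} {ex ex0 : Bool → List ℂ}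
    {p q : ℂ} (hP : ParC P) (hep0 : 0 < ep) (hep : ep ≤ 1 / 100) (hβ : 0 < β)
    (hβ' : β ≤ 4 / 3) (hx : Rws x) (hex : ∀ a, ∀ w ∈ ex a, |w.re| ≤ l / 2) (hc : ∀ a, ‖c a‖ = c0)
    (hp : |p.re| ≤ l / 2) (hq : |q.re| ≤ l / 2) :
    Bs (fun a => XXU (c a) β (rwq x a) (rwq x !a) (gP β (ex a)) (gP (4 / 3) (ex0 a)) (thE p p q q)
        fun w => thE p p q q w * thE p p q q (w - l))
      (fun g => obX c0 β x ex ex0 fun a u => ‖thE p p q q u‖ * g a u) P ep (2 * β) (Fil.xn m)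
      (Set.range fun i => (x i).im) := by
  have h := bs_XX (ex0 := ex0) (E1 := ∅) (s0 := fun _ => thE p p q q)
    (t0 := fun _ w => thE p p q q w * thE p p q q (w - l)) hP hep0 hep hβ hβ' hx hex hc
    (fun _ => bsp_thE hp hq) (by simp)
  simp only [Set.empty_union] at h
  exact h

/-- the mirrored ends are the same function -/
theorem thE_symm (p q : ℂ) : thE p p q q = thE q q p p := by
  funext u
  unfold thE
  rw [mul_comm (sin (u - p + 3 * l)), mul_comm (sin (p - u + 2 * l))]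

end PBR.PLX

end
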