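import Pool.Agent.PLX.Rg1
import Pool.Agent.PLX.RgW
import Pool.Agent.PLX.TRRat2
import Pool.Agent.PLX.Fil
import Pool.Agent.PB.Reg0

/-!
# The regular function at rows `0`, ends `0`, groups of sizes `(m, M)`: closed forms

* `rcU m M`: the factor of `m` own rows and `M` rows of the other group, all at `0`; `RRU_zero`,
  `rcU_thE` (the ends are one more row of both groups, up to `th0`), `norm_rcU`;
* `RU.Z.X_none`, `RU.Z.norm_X_none`, `RU.Z.X_S`, `RU.Z.norm_XS`, `RU.Z.KF` (`kfX`), `RU.Z.XD` (`xd0`) and the same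
  for the other species;
* `R0U m M β ex ex0 : RU m M`, **`R0 m β ex ex0 : RU m (Fil.q * m)`**: rows `0`, ends `0`, cutoffs over the rows
  and `ex` (quanta), the rows and `ex0` (strings); `R0_Z`, `R0_Ok`.
-/

set_option autoImplicit false
set_option linter.unusedSectionVars false
set_option linter.unusedVariables false

noncomputable section

open Complex MeasureTheory
open PLX (Fil)

namespace Pool.Agent.PLX

open NUP1 NUP1S NUP1.Bd NURow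
open NUP1.Leg (hE hr thE cc Ck Dk kap)
open PBX (rc0 th0 Th0 xd0 norm_rc0 norm_th0 Th0_nonneg sin_six thE_zero norm_cc ph gP GOk)

/-! ## functions of one variable -/

/-- `m` own rows, `M` rows of the other group, all at `0` -/
def rcU (m M : ℕ) (u : ℂ) : ℂ := sin (u + 3 * l) ^ (2 * M) / (sin u * sin (u - 2 * l)) ^ m

theorem rcU_self (m : ℕ) (u : ℂ) : rcU m m u = rc0 u ^ m := by
  unfold rcU rc0
  rw [div_pow, ← pow_mul]

theorem norm_rcU (m M : ℕ) (u : ℂ) : ‖rcU m M u‖ =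
    ‖sin (u + 3 * l)‖ ^ (2 * M) / (‖sin u‖ * ‖sin (u - 2 * l)‖) ^ m := by
  unfold rcU
  rw [norm_div, norm_pow, norm_pow, norm_mul]

theorem RRU_zero (c : ℂ) (m M : ℕ) (u : ℂ) :
    RRU c (fun _ : Fin m => 0) (fun _ : Fin M => 0) u = c * rcU m M u := by
  unfold RRU rcU
  simp only [Finset.prod_const, Finset.card_univ, Fintype.card_fin, sub_zero]
  rw [mul_assoc, mul_assoc, one_div_pow, one_div_pow, ← pow_mul, mul_pow, one_div, one_div]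
  congr 1
  rw [div_eq_mul_inv (sin (u + 3 * (l : ℂ)) ^ (2 * M)), mul_inv]
  ring

/-- the ends are one more row of both groups, up to `th0` -/
theorem rcU_thE (m M : ℕ) {u : ℂ} (h : sin u ≠ 0) :
    rcU m M u * thE 0 0 0 0 u = rcU (m + 1) (M + 1) u * th0 u := by
  rw [PBX.thE_zero' h]
  unfold rcU rc0
  rw [← mul_assoc]
  congr 1
  rw [div_mul_div_comm, ← pow_succ, ← pow_add, show 2 * (M + 1) = 2 * M + 2 by ring]

/-! ## the data -/

section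

variable {m M : ℕ} {D : RU m M}

/-- **a quantum of species X** -/
theorem RU.Z.X_none (h : D.Z) (u : ℂ) : D.X none u =
    D.c * rcU m M u * (1 - psi D.β u ^ m * D.g u) * thE 0 0 0 0 u := by
  show RRU D.c D.x D.y u * ph D.β D.x D.g u * thE D.p D.p D.q D.q u = _
  rw [h.x, h.y, h.p, h.q, RRU_zero, PBX.ph_zero]

theorem RU.Z.Y_none (h : D.Z) (u : ℂ) : D.Y none u =
    D.c' * rcU M m u * (1 - psi D.β u ^ M * D.g' u) * thE 0 0 0 0 u := h.sw.X_none u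

theorem RU.Z.X_none' (h : D.Z) {u : ℂ} (hu : sin u ≠ 0) : D.X none u =
    D.c * rcU (m + 1) (M + 1) u * th0 u * (1 - psi D.β u ^ m * D.g u) := by
  rw [h.X_none, mul_right_comm, mul_assoc D.c, rcU_thE m M hu]
  ring

theorem RU.Z.Y_none' (h : D.Z) {u : ℂ} (hu : sin u ≠ 0) : D.Y none u =
    D.c' * rcU (M + 1) (m + 1) u * th0 u * (1 - psi D.β u ^ M * D.g' u) := h.sw.X_none' hu

theorem RU.Z.norm_X_none (h : D.Z) {u : ℂ} (hu : sin u ≠ 0) : ‖D.X none u‖ =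
    ‖D.c‖ * ‖rcU (m + 1) (M + 1) u‖ * Th0 u * ‖1 - psi D.β u ^ m * D.g u‖ := by
  rw [h.X_none' hu, norm_mul, norm_mul, norm_mul, norm_th0]

theorem RU.Z.norm_Y_none (h : D.Z) {u : ℂ} (hu : sin u ≠ 0) : ‖D.Y none u‖ =
    ‖D.c'‖ * ‖rcU (M + 1) (m + 1) u‖ * Th0 u * ‖1 - psi D.β u ^ M * D.g' u‖ :=
  h.sw.norm_X_none hu

/-- **the string S of species X** -/
theorem RU.Z.X_S (h : D.Z) {w : ℂ} (h1 : sin w ≠ 0) (h2 : sin (w - l) ≠ 0) : D.X (some .S) w =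
    D.c * rcU (m + 1) (M + 1) w * th0 w * (D.c * rcU (m + 1) (M + 1) (w - l) * th0 (w - l)) *
      (1 - psi (4 / 3) w ^ m * D.g0 w) := by
  show RRU D.c D.x D.y w * RRU D.c D.x D.y (w - l) * ph (4 / 3) D.x D.g0 w *
    (thE D.p D.p D.q D.q w * thE D.p D.p D.q D.q (w - l)) = _
  rw [h.x, h.y, h.p, h.q, RRU_zero, RRU_zero, PBX.ph_zero]
  have e1 := rcU_thE m M h1
  have e2 := rcU_thE m M h2
  calc D.c * rcU m M w * (D.c * rcU m M (w - l)) * (1 - psi (4 / 3) w ^ m * D.g0 w) *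
        (thE 0 0 0 0 w * thE 0 0 0 0 (w - l))
      = D.c * (rcU m M w * thE 0 0 0 0 w) * (D.c * (rcU m M (w - l) * thE 0 0 0 0 (w - l))) *
        (1 - psi (4 / 3) w ^ m * D.g0 w) := by ring
    _ = _ := by
        rw [e1, e2]
        ring

theorem RU.Z.Y_S (h : D.Z) {w : ℂ} (h1 : sin w ≠ 0) (h2 : sin (w - l) ≠ 0) : D.Y (some .S) w =
    D.c' * rcU (M + 1) (m + 1) w * th0 w * (D.c' * rcU (M + 1) (m + 1) (w - l) * th0 (w - l)) *
      (1 - psi (4 / 3) w ^ M * D.g0' w) := h.sw.X_S h1 h2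

theorem RU.Z.norm_XS (h : D.Z) {w : ℂ} (h1 : sin w ≠ 0) (h2 : sin (w - l) ≠ 0) :
    ‖D.X (some .S) w‖ = ‖D.c‖ * ‖rcU (m + 1) (M + 1) w‖ * Th0 w *
      (‖D.c‖ * ‖rcU (m + 1) (M + 1) (w - l)‖ * Th0 (w - l)) *
        ‖1 - psi (4 / 3) w ^ m * D.g0 w‖ := by
  rw [h.X_S h1 h2, norm_mul, norm_mul, norm_mul, norm_mul, norm_mul, norm_mul, norm_th0, norm_th0]

/-- **prefactor of a half quantum X** -/
theorem RU.Z.KF (h : D.Z) (w : ℂ) : D.KF w = kfX m M w := by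
  unfold RU.KF NUP1.N.pr1 NUP1.N.prc NUP1.N.rA NUP1.N.rB kfX
  rw [h.x, h.y, h.p, h.q]
  simp only [Finset.prod_const, Finset.card_univ, Fintype.card_fin, sub_zero]
  rw [mul_assoc, one_div_pow]
  congr 1
  ring

/-- **prefactor of a half quantum Y** -/
theorem RU.Z.KF' (h : D.Z) (w : ℂ) : D.KF' w = kfX M m w := h.sw.KF w

/-- **the captured pair** -/
theorem RU.Z.XD (h : D.Z) (w : ℂ) : D.XD w = xd0 M w := by
  unfold RU.XD NUP1.N.XD xd0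
  rw [h.y, h.p, h.q]
  simp only [Finset.prod_const, Finset.card_univ, Fintype.card_fin, sub_zero]

theorem RU.Z.XD' (h : D.Z) (w : ℂ) : D.XD' w = xd0 m w := h.sw.XD w

end

/-! ## the instance -/

/-- **rows `0`, ends `0`, sizes `(m, M)`**, cutoffs over the rows and `ex` (quanta), the rows and `ex0` (strings) -/
def R0U (m M : ℕ) (β : ℝ) (ex ex0 : List ℂ) : RU m M :=
  ⟨cc m, cc M, β, fun _ => 0, fun _ => 0, 0, 0, gP β ex, gP β ex, gP (4 / 3) ex0, gP (4 / 3) ex0⟩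

theorem R0U_Z (m M : ℕ) (β : ℝ) (ex ex0 : List ℂ) : (R0U m M β ex ex0).Z := ⟨rfl, rfl, rfl, rfl⟩

theorem R0U_sw (m M : ℕ) (β : ℝ) (ex ex0 : List ℂ) : (R0U m M β ex ex0).sw = R0U M m β ex ex0 := rfl

theorem R0U_Ok (m M : ℕ) {β : ℝ} (hβ : 0 < β) (hβ' : β ≤ 4 / 3) {ex ex0 : List ℂ}
    (hex : ∀ w ∈ ex, |w.re| ≤ l / 2) (hex0 : ∀ w ∈ ex0, |w.re| ≤ l / 2) :
    (R0U m M β ex ex0).Ok := by
  have hl := Bd.l_pos
  have h0 : |(0 : ℂ).re| ≤ l / 2 := by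
    rw [zero_re, abs_zero]
    linarith
  have h1 : (0 : ℂ).re ≠ l / 4 := by
    rw [zero_re]
    exact ne_of_lt (by linarith)
  exact ⟨hβ, hβ', fun _ => h0, fun _ => h0, h0, h0, fun _ => h1, fun _ => h1, GOk.gP hβ hβ' hex,
    GOk.gP hβ hβ' hex, GOk.gP (by norm_num) le_rfl hex0, GOk.gP (by norm_num) le_rfl hex0⟩

/-- a quantum X -/
theorem R0U_none (m M : ℕ) (β : ℝ) (ex ex0 : List ℂ) {u : ℂ} (hu : sin u ≠ 0) :
    ‖(R0U m M β ex ex0).X none u‖ = 2 * Real.cos l * ‖rcU (m + 1) (M + 1) u‖ * Th0 u *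
      ‖NUP1.phi β (List.replicate m 0 ++ ex) u‖ := by
  rw [(R0U_Z m M β ex ex0).norm_X_none hu]
  show ‖cc m‖ * _ * _ * ‖1 - psi β u ^ m * gP β ex u‖ = _
  rw [norm_cc, ← PBX.ph_zero, PBX.ph_zero_gP]

/-- a quantum Y -/
theorem R0U_none' (m M : ℕ) (β : ℝ) (ex ex0 : List ℂ) {u : ℂ} (hu : sin u ≠ 0) :
    ‖(R0U m M β ex ex0).Y none u‖ = 2 * Real.cos l * ‖rcU (M + 1) (m + 1) u‖ * Th0 u *
      ‖NUP1.phi β (List.replicate M 0 ++ ex) u‖ := R0U_none M m β ex ex0 hu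

/-- **rows `0`, ends `0`, every row of species Y is a `q`-fold row** -/
abbrev R0 [Fil] (m : ℕ) (β : ℝ) (ex ex0 : List ℂ) : RU m (Fil.q * m) := R0U m (Fil.q * m) β ex ex0

theorem R0_Z [Fil] (m : ℕ) (β : ℝ) (ex ex0 : List ℂ) : (R0 m β ex ex0).Z := ⟨rfl, rfl, rfl, rfl⟩

theorem R0_Ok [Fil] (m : ℕ) {β : ℝ} (hβ : 0 < β) (hβ' : β ≤ 4 / 3) {ex ex0 : List ℂ}
    (hex : ∀ w ∈ ex, |w.re| ≤ l / 2) (hex0 : ∀ w ∈ ex0, |w.re| ≤ l / 2) :
    (R0 m β ex ex0).Ok := R0U_Ok m _ hβ hβ' hex hex0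

end Pool.Agent.PLX
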