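import Pool.Agent.PLX.Ns
import Pool.Agent.PLX.PB.ClsFam
import Pool.Agent.NUO.GasPot

/-!
# Plan B: the pair weights of the constituents of one word are bounded

Slots of a word: main constituents, satellites, quanta on `Re u = l`.  `word_pairs`: one constant for
the pair weights of all constituents of different objects, uniform in heights and angles.
-/

set_option autoImplicit false
set_option linter.unusedSectionVars false

noncomputable section

open Complex MeasureTheory Finset
open scoped Real ENNReal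

namespace PBC.PLX

open NUP1 NUO NUP1S NUP1S.Mg NUP1S.Ab NUP1S.AbG NUP1S.AbC NURow
open NUP1.Bd (wt Ob)

theorem Ok_symm {o o' : CO} {d : ℝ} (h : Ok o o' d) : Ok o' o (-d) := by
  obtain ⟨c, k⟩ := o
  obtain ⟨c', k'⟩ := o'
  have key : ∀ x : ℝ, Real.sin (d + -x) ≠ 0 → Real.sin (-d + x) ≠ 0 := by
    intro x hx h0
    apply hx
    rw [show d + -x = -(-d + x) by ring, Real.sin_neg, h0, neg_zero]
  intro x hx
  refine key x (h (-x) ?_)
  unfold poles at hx ⊢
  by_cases hc : c = c'
  · simp only [hc, if_true] at hx ⊢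
    cases k <;> cases k' <;>
      simp only [List.mem_cons, List.not_mem_nil, or_false] at hx ⊢ <;>
      rcases hx with rfl | rfl <;> simp
  · have hc' : ¬ c' = c := fun h => hc h.symm
    simp only [hc', if_false] at hx
    simp only [hc, if_false]
    cases k <;> cases k' <;>
      simp only [List.mem_cons, List.not_mem_nil, or_false] at hx ⊢ <;>
      rcases hx with rfl | rfl | rfl | rfl | rfl | rfl <;> simp

/-- small differences: no poles except between quanta of the same species -/
theorem Ok_small {o o' : CO} {d : ℝ} (h1 : |d| < 2 * l)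
    (h2 : o.1 = o'.1 → o.2 ≠ .S → o'.2 ≠ .S → |d| < l) : Ok o o' d := by
  have hl := Bd.l_pos
  obtain ⟨h3, h4⟩ := abs_lt.1 h1
  obtain ⟨c, k⟩ := o
  obtain ⟨c', k'⟩ := o'
  intro x hx
  unfold poles at hx
  by_cases hc : c = c'
  · simp only [hc, if_true] at hx
    have hs : ∀ x : ℝ, |d| < l → (x = l ∨ x = -l) → Real.sin (d + x) ≠ 0 := by
      intro x h0 hx
      obtain ⟨h5, h6⟩ := abs_lt.1 h0
      rcases hx with rfl | rfl
      · exact sne (by linarith) (by linarith) (by linarith)
      · exact sne (by linarith) (by linarith) (by linarith)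
    cases k <;> cases k' <;>
      simp only [List.mem_cons, List.not_mem_nil, or_false] at hx <;>
      exact hs x (h2 hc (by simp) (by simp)) hx
  · simp only [hc, if_false] at hx
    have h6 : x = 3 * l ∨ x = -(3 * l) ∨ x = 4 * l ∨ x = -(2 * l) ∨ x = 2 * l ∨ x = -(4 * l) := by
      cases k <;> cases k' <;>
        simp only [List.mem_cons, List.not_mem_nil, or_false] at hx <;> tauto
    rcases h6 with rfl | rfl | rfl | rfl | rfl | rfl
    · exact sne (by linarith) (by linarith) (by linarith)
    · exact sne (by linarith) (by linarith) (by linarith)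
    · exact sne (by linarith) (by linarith) (by linarith)
    · exact sne (by linarith) (by linarith) (by linarith)
    · exact sne (by linarith) (by linarith) (by linarith)
    · exact sne (by linarith) (by linarith) (by linarith)

section word
variable {p p' : ℕ}

/-- line of the object `i` of a word -/
def xw (P : NUO.Par) (k : Fin p → O3) (k' : Fin p' → O3) (i : Fin p ⊕ Fin p') : ℝ :=
  lnO P (p + p') (rkS i) (Sum.elim k k' i)

theorem zO_re (P : NUO.Par) (k : Fin p → O3) (k' : Fin p' → O3) (t : Fin p ⊕ Fin p' → ℝ)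
    (i : Fin p ⊕ Fin p') : (zO P k k' t i).re = xw P k k' i := by
  show (pos _ t i).re = _
  rw [pos_re, line_eq]
  rfl

theorem zO_im (P : NUO.Par) (k : Fin p → O3) (k' : Fin p' → O3) (t : Fin p ⊕ Fin p' → ℝ)
    (i : Fin p ⊕ Fin p') : (zO P k k' t i).im = t i := by
  show (pos _ t i).im = _
  rw [pos_im]

/-- half width of the windows of the satellites -/
def rm (P : NUO.Par) (r : ℕ) : ℝ := NUP1.l * P.d r / (8 * (r + 1))

theorem rm_pos {P : NUO.Par} (h : GoodP P) (r : ℕ) : 0 < rm P r := by
  have := h.d0 r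
  have := Bd.l_pos
  unfold rm
  positivity

theorem rm_le {P : NUO.Par} (h : GoodP P) (r : ℕ) : rm P r ≤ NUP1.l / 16 := by
  have hl := Bd.l_pos
  have h2 := h.e1
  have h3 := h.e2 r
  have h4 := h.d0 r
  unfold rm
  rw [div_le_div_iff₀ (by positivity) (by norm_num)]
  have hr : (0 : ℝ) ≤ r := Nat.cast_nonneg _
  have h5 : P.d r ≤ 1 / 2 := by linarith
  nlinarith [mul_nonneg hl.le hr]

/-- the slots: `inl (i, false)` = main constituent, `inl (i, true)` = satellites of `i`,
`inr (s, _)` = quanta of species `s` (two copies) -/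
abbrev Sl (p p' : ℕ) : Type := ((Fin p ⊕ Fin p') × Bool) ⊕ (Bool × Bool)

/-- type of a slot -/
def so (k : Fin p → O3) (k' : Fin p' → O3) : Sl p p' → CO
  | .inl (i, false) => ((o3 k k' i).1, if tyB (o3 k k' i).2 then .S else .A)
  | .inl (i, true) => (!(o3 k k' i).1, .A)
  | .inr (s, _) => (s, .A)

/-- left end of the window -/
def slo (P : NUO.Par) (k : Fin p → O3) (k' : Fin p' → O3) : Sl p p' → ℝ
  | .inl (i, false) => xw P k k' i
  | .inl (i, true) => xw P k k' i + 2 * NUP1.l - rm P (p + p')
  | .inr _ => NUP1.l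

/-- right end of the window -/
def shi (P : NUO.Par) (k : Fin p → O3) (k' : Fin p' → O3) : Sl p p' → ℝ
  | .inl (i, false) => xw P k k' i
  | .inl (i, true) => xw P k k' i + 2 * NUP1.l + rm P (p + p')
  | .inr _ => NUP1.l

/-- pairs of slots which do not interact -/
def sx (k : Fin p → O3) (k' : Fin p' → O3) : Sl p p' → Sl p p' → Prop
  | .inl (i, b), .inl (j, b') => i = j ∨ (b = true ∧ ¬ actO k k' i) ∨ (b' = true ∧ ¬ actO k k' j)
  | .inl (i, b), .inr _ => b = true ∧ ¬ actO k k' i
  | .inr _, .inl (j, b') => b' = true ∧ ¬ actO k k' j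
  | .inr _, .inr _ => False

open scoped Classical in
/-- window of the difference -/
def sK (P : NUO.Par) (k : Fin p → O3) (k' : Fin p' → O3) (a b : Sl p p') : Set ℝ :=
  if sx k k' a b then ∅ else Set.Icc (slo P k k' a - shi P k k' b) (shi P k k' a - slo P k k' b)

/-! ### geometry -/

section geo
variable {P : NUO.Par} {k : Fin p → O3} {k' : Fin p' → O3}

theorem xw_S (h : GoodP P) {i : Fin p ⊕ Fin p'} (hi : actO k k' i) :
    xw P k k' i = lnO P (p + p') (rkS i) .S ∧ -(8 / 5 * NUP1.l) ≤ xw P k k' i ∧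
      xw P k k' i ≤ -(11 / 10 * NUP1.l) := by
  have hl := Bd.l_pos
  have e : Sum.elim k k' i = .S := by rcases i with i | i <;> exact hi
  have e1 : xw P k k' i = lnO P (p + p') (rkS i) .S := by
    unfold xw
    rw [e]
  obtain ⟨h1, h2⟩ := h.shift (rkS_lt i)
  refine ⟨e1, ?_, ?_⟩
  · rw [e1]
    show _ ≤ -((1 + (P.e + P.d (p + p') * ((rkS i : ℕ) / ((p + p' : ℕ) : ℝ)))) * NUP1.l)
    nlinarith
  · rw [e1]
    show -((1 + (P.e + P.d (p + p') * ((rkS i : ℕ) / ((p + p' : ℕ) : ℝ)))) * NUP1.l) ≤ _
    nlinarith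

theorem xw_mem (h : GoodP P) (i : Fin p ⊕ Fin p') :
    -(2 * NUP1.l) < xw P k k' i ∧ xw P k k' i ≤ -(1 / 2 * NUP1.l) := by
  have hl := Bd.l_pos
  have hj1 := h.j1
  have hj2 := h.j2
  unfold xw
  rcases hk : Sum.elim k k' i with _ | _ | _
  · show -(2 * NUP1.l) < (1 - P.jL) * NUP1.l ∧ (1 - P.jL) * NUP1.l ≤ _
    constructor <;> nlinarith
  · obtain ⟨h1, h2⟩ := h.shift (rkS_lt i)
    show -(2 * NUP1.l) < -((1 + (P.e + P.d (p + p') * ((rkS i : ℕ) / ((p + p' : ℕ) : ℝ)))) *
      NUP1.l) ∧ -((1 + (P.e + P.d (p + p') * ((rkS i : ℕ) / ((p + p' : ℕ) : ℝ)))) *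
      NUP1.l) ≤ _
    constructor <;> nlinarith
  · show -(2 * NUP1.l) < -(1 / 2 * NUP1.l) ∧ -(1 / 2 * NUP1.l) ≤ -(1 / 2 * NUP1.l)
    constructor <;> linarith

theorem o3_ty (i : Fin p ⊕ Fin p') : tyB (o3 k k' i).2 = false ↔ Sum.elim k k' i = .L := by
  rcases i with i | i
  · show tyB (ob3 (k i)) = false ↔ k i = .L
    cases k i <;> simp [tyB, ob3]
  · show tyB (ob3 (k' i)) = false ↔ k' i = .L
    cases k' i <;> simp [tyB, ob3]

theorem xw_L {i : Fin p ⊕ Fin p'} (hi : Sum.elim k k' i = .L) :
    xw P k k' i = (1 - P.jL) * NUP1.l := by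
  unfold xw
  rw [hi]
  rfl

/-- separation of the strings of one species -/
theorem xw_sep (h : GoodP P) {i j : Fin p ⊕ Fin p'} (hi : actO k k' i) (hj : actO k k' j)
    (hne : i ≠ j) (hs : (o3 k k' i).1 = (o3 k k' j).1) :
    rm P (p + p') < |xw P k k' i - xw P k k' j| := by
  have hl := Bd.l_pos
  have hr' : (0 : ℝ) < ((p + p' : ℕ) : ℝ) := by
    exact_mod_cast (Nat.zero_le _).trans_lt (rkS_lt i)
  have h4 := h.d0 (p + p')
  rw [(xw_S h hi).1, (xw_S h hj).1]
  have hij : rkS i ≠ rkS j := by
    intro hr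
    apply hne
    rcases i with i | i <;> rcases j with j | j
    · exact congrArg Sum.inl (Fin.ext hr)
    · exact absurd hs (by simp [o3, oo])
    · exact absurd hs (by simp [o3, oo])
    · exact congrArg Sum.inr (Fin.ext hr)
  have e : lnO P (p + p') (rkS i) .S - lnO P (p + p') (rkS j) .S =
      P.d (p + p') * NUP1.l * (((rkS j : ℝ) - rkS i) / ((p + p' : ℕ) : ℝ)) := by
    show -((1 + (P.e + P.d (p + p') * ((rkS i : ℝ) / ((p + p' : ℕ) : ℝ)))) * NUP1.l) -
      -((1 + (P.e + P.d (p + p') * ((rkS j : ℝ) / ((p + p' : ℕ) : ℝ)))) * NUP1.l) = _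
    ring
  have h5 : (1 : ℝ) ≤ |(rkS j : ℝ) - rkS i| := by
    have : (1 : ℤ) ≤ |(rkS j : ℤ) - rkS i| :=
      Int.one_le_abs (sub_ne_zero.2 (by exact_mod_cast hij.symm))
    exact_mod_cast this
  rw [e, abs_mul, abs_div, abs_of_pos (by positivity : 0 < P.d (p + p') * NUP1.l),
    abs_of_pos hr']
  have h6 : 1 / ((p + p' : ℕ) : ℝ) ≤ |(rkS j : ℝ) - rkS i| / ((p + p' : ℕ) : ℝ) := by gcongr
  have h8 : rm P (p + p') < P.d (p + p') * NUP1.l * (1 / ((p + p' : ℕ) : ℝ)) := by
    unfold rm
    rw [mul_one_div, div_lt_div_iff₀ (by positivity) hr']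
    have := mul_pos hl h4
    nlinarith
  exact h8.trans_le (mul_le_mul_of_nonneg_left h6 (by positivity))

/-- **no poles** -/
theorem sK_ok (h : GoodP P) (a b : Sl p p') (hab : a ≠ b) :
    ∀ d ∈ sK P k k' a b, Ok (so k k' a) (so k k' b) d := by
  have hl := Bd.l_pos
  have hrm := rm_le h (p + p')
  have hrm0 := rm_pos h (p + p')
  -- main - main
  have mm : ∀ i j : Fin p ⊕ Fin p', i ≠ j → Ok (so k k' (.inl (i, false)))
      (so k k' (.inl (j, false))) (xw P k k' i - xw P k k' j) := by
    intro i j hij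
    obtain ⟨h1, h2⟩ := xw_mem (k := k) (k' := k') h i
    obtain ⟨h3, h4⟩ := xw_mem (k := k) (k' := k') h j
    refine Ok_small (abs_lt.2 ⟨by linarith, by linarith⟩) fun _ hi hj => ?_
    have ti : tyB (o3 k k' i).2 = false := by
      by_contra hc
      rw [Bool.not_eq_false] at hc
      exact hi (by show (if tyB (o3 k k' i).2 then Ob.S else Ob.A) = _; rw [hc]; rfl)
    have tj : tyB (o3 k k' j).2 = false := by
      by_contra hc
      rw [Bool.not_eq_false] at hc
      exact hj (by show (if tyB (o3 k k' j).2 then Ob.S else Ob.A) = _; rw [hc]; rfl)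
    rw [xw_L ((o3_ty i).1 ti), xw_L ((o3_ty j).1 tj), sub_self, abs_zero]
    exact hl
  -- quantum at real part `v` - main
  have vm : ∀ (s : Bool) (j : Fin p ⊕ Fin p') (v : ℝ), 3 / 10 * NUP1.l < v → v ≤ NUP1.l →
      (actO k k' j → s ≠ (o3 k k' j).1 → v - xw P k k' j ≠ 2 * NUP1.l) →
      Ok (s, .A) (so k k' (.inl (j, false))) (v - xw P k k' j) := by
    intro s j v hv1 hv2 hv3
    obtain ⟨h3, h4⟩ := xw_mem (k := k) (k' := k') h j
    have h5 : 0 < v - xw P k k' j := by linarith
    have h6 : v - xw P k k' j < 3 * NUP1.l := by linarith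
    have e0 : so k k' (.inl (j, false)) =
      ((o3 k k' j).1, if tyB (o3 k k' j).2 then Ob.S else Ob.A) := rfl
    rw [e0]
    rcases hk : tyB (o3 k k' j).2
    · have hL := xw_L (P := P) ((o3_ty j).1 hk)
      simp only [Bool.false_eq_true, if_false]
      refine okA (by linarith) h6 (Or.inr ?_)
      rw [hL]
      nlinarith [h.j1]
    · simp only [if_true]
      by_cases hs : s = (o3 k k' j).1
      · intro x hx
        unfold poles at hx
        rw [if_pos hs] at hx
        simp at hx
      · refine okS h5 h6 ?_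
        by_cases hj : actO k k' j
        · exact hv3 hj hs
        · -- T
          have hT : Sum.elim k k' j = .T := by
            rcases hq : Sum.elim k k' j with _ | _ | _
            · rw [(o3_ty j).2 hq] at hk
              exact absurd hk (by decide)
            · refine absurd ?_ hj
              rcases j with j | j <;> exact hq
            · rfl
          have : xw P k k' j = -(1 / 2 * NUP1.l) := by
            unfold xw
            rw [hT]
            rfl
          rw [this]
          intro h7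
          linarith
  -- quantum - quantum
  have vv : ∀ (s s' : Bool) (d : ℝ), |d| < NUP1.l → Ok (s, .A) (s', .A) d := by
    intro s s' d hd
    have := abs_lt.1 hd
    exact okA (by linarith [this.1]) (by linarith [this.2]) (Or.inl hd)
  -- windows of the satellites
  have ws : ∀ i : Fin p ⊕ Fin p', actO k k' i → ∀ v, xw P k k' i + 2 * NUP1.l - rm P (p + p') ≤ v →
      v ≤ xw P k k' i + 2 * NUP1.l + rm P (p + p') → 3 / 10 * NUP1.l < v ∧ v < NUP1.l := by
    intro i hi v h1 h2
    obtain ⟨-, h3, h4⟩ := xw_S h hi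
    constructor <;> linarith
  -- satellite - main
  have sm : ∀ i j : Fin p ⊕ Fin p', i ≠ j → actO k k' i → ∀ d,
      xw P k k' i + 2 * NUP1.l - rm P (p + p') - xw P k k' j ≤ d →
      d ≤ xw P k k' i + 2 * NUP1.l + rm P (p + p') - xw P k k' j →
      Ok (so k k' (.inl (i, true))) (so k k' (.inl (j, false))) d := by
    intro i j hij hi d h1 h2
    obtain ⟨h3, h4⟩ := ws i hi (d + xw P k k' j) (by linarith) (by linarith)
    have := vm (!(o3 k k' i).1) j (d + xw P k k' j) h3 h4.le (by
      intro hj hs h5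
      have h6 : (o3 k k' i).1 = (o3 k k' j).1 := by
        revert hs
        generalize (o3 k k' i).1 = x
        generalize (o3 k k' j).1 = y
        cases x <;> cases y <;> simp
      have h7 := xw_sep h hi hj hij h6
      rw [lt_abs] at h7
      rcases h7 with h7 | h7 <;> linarith)
    rw [add_sub_cancel_right] at this
    exact this
  intro d hd
  unfold sK at hd
  by_cases hx : sx k k' a b
  · rw [if_pos hx] at hd
    exact absurd hd (Set.notMem_empty _)
  rw [if_neg hx] at hd
  rcases a with ⟨i, _ | _⟩ | ⟨s, c⟩ <;> rcases b with ⟨j, _ | _⟩ | ⟨s', c'⟩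
  · -- main, main
    have hij : i ≠ j := fun h => hx (Or.inl h)
    have : d = xw P k k' i - xw P k k' j := le_antisymm hd.2 hd.1
    rw [this]
    exact mm i j hij
  · -- main, satellite
    have hij : i ≠ j := fun h => hx (Or.inl h)
    have hj : actO k k' j := by
      by_contra hj
      exact hx (Or.inr (Or.inr ⟨rfl, hj⟩))
    have h1 := hd.1
    have h2 := hd.2
    simp only [slo, shi] at h1 h2
    have := Ok_symm (sm j i hij.symm hj (-d) (by linarith) (by linarith))
    rwa [neg_neg] at this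
  · -- main, quantum
    have h1 := hd.1
    have h2 := hd.2
    simp only [slo, shi] at h1 h2
    have h3 : d = xw P k k' i - NUP1.l := le_antisymm h2 h1
    have := Ok_symm (vm s' i NUP1.l (by linarith) le_rfl (fun hi _ => by
      obtain ⟨-, -, h4⟩ := xw_S h hi
      intro h5
      linarith))
    rw [neg_sub] at this
    rw [h3]
    exact this
  · -- satellite, main
    have hij : i ≠ j := fun h => hx (Or.inl h)
    have hi : actO k k' i := by
      by_contra hi
      exact hx (Or.inr (Or.inl ⟨rfl, hi⟩))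
    exact sm i j hij hi d hd.1 hd.2
  · -- satellite, satellite
    have hi : actO k k' i := by
      by_contra hi
      exact hx (Or.inr (Or.inl ⟨rfl, hi⟩))
    have hj : actO k k' j := by
      by_contra hj
      exact hx (Or.inr (Or.inr ⟨rfl, hj⟩))
    obtain ⟨-, h3, h4⟩ := xw_S h hi
    obtain ⟨-, h5, h6⟩ := xw_S h hj
    have h1 := hd.1
    have h2 := hd.2
    simp only [slo, shi] at h1 h2
    exact vv _ _ d (abs_lt.2 ⟨by linarith, by linarith⟩)
  · -- satellite, quantum
    have hi : actO k k' i := by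
      by_contra hi
      exact hx ⟨rfl, hi⟩
    obtain ⟨-, h3, h4⟩ := xw_S h hi
    have h1 := hd.1
    have h2 := hd.2
    simp only [slo, shi] at h1 h2
    exact vv _ _ d (abs_lt.2 ⟨by linarith, by linarith⟩)
  · -- quantum, main
    have h1 := hd.1
    have h2 := hd.2
    simp only [slo, shi] at h1 h2
    have h3 : d = NUP1.l - xw P k k' j := le_antisymm h2 h1
    rw [h3]
    exact vm s j NUP1.l (by linarith) le_rfl (fun hj _ => by
      obtain ⟨-, -, h4⟩ := xw_S h hj
      intro h5
      linarith)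
  · -- quantum, satellite
    have hj : actO k k' j := by
      by_contra hj
      exact hx ⟨rfl, hj⟩
    obtain ⟨-, h3, h4⟩ := xw_S h hj
    have h1 := hd.1
    have h2 := hd.2
    simp only [slo, shi] at h1 h2
    exact vv _ _ d (abs_lt.2 ⟨by linarith, by linarith⟩)
  · have h1 := hd.1
    have h2 := hd.2
    simp only [slo, shi] at h1 h2
    exact vv _ _ d (abs_lt.2 ⟨by linarith, by linarith⟩)

/-- **one constant for all pairs of slots** -/
theorem slots_const (h : GoodP P) (k : Fin p → O3) (k' : Fin p' → O3) : ∃ C : ℝ, 1 ≤ C ∧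
    ∀ a b : Sl p p', a ≠ b → ¬ sx k k' a b → ∀ z : ℂ,
      slo P k k' a - shi P k k' b ≤ z.re → z.re ≤ shi P k k' a - slo P k k' b →
      ‖gz (so k k' a) (so k k' b) z‖ ≤
        C * Real.exp (rt (so k k' a) (so k k' b) * |z.im|) := by
  obtain ⟨C, hC, hc⟩ := gz_const (so k k') (sK P k k') (fun a b => by
    unfold sK
    split_ifs
    · exact isCompact_empty
    · exact isCompact_Icc) (fun a b hab => sK_ok h a b hab)
  refine ⟨C, hC, fun a b hab hx z h1 h2 => hc a b hab z ?_⟩
  unfold sK
  rw [if_neg hx]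
  exact ⟨h1, h2⟩

end geo

end word

end PBC.PLX

end
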