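import Pool.Agent.PLX.Ns
import Pool.Agent.PLX.PB.ClsOk

/-!
# Plan B: bound of the complex weight of one word times the gas

`DecZ`: decay of the one body functions, total charge `q0`; `word_bound`: the complex weight of a
word with satellites times the gas of the quanta on `Re u = l` is bounded by a constant times
`∏ i, exp (-(κ * |t i|))`, uniformly in the angles.
-/

set_option autoImplicit false
set_option linter.unusedSectionVars false

noncomputable section

open Complex MeasureTheory Finset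
open scoped Real ENNReal

namespace PBC.PLX

open NUP1 NUO NUP1S NUP1S.Mg NUP1S.Ab NUP1S.AbG NUP1S.AbC NURow
open NUP1.Bd (wt Ob)
open PBF.PLX (obK wK)

/-- decay of the one body functions, total charge `q0` -/
structure DecZ (Z : Bool → Option O3 → ℂ → ℂ) (P : NUO.Par) (x0 κ q0 : ℝ) : Prop where
  A : ∀ s, DecOn (κ + 2 * q0 * sc (s, Ob.A)) (Set.Icc x0 NUP1.l) (Z s none)
  L : ∀ s, DecOn (κ + 2 * q0 * sc (s, Ob.L)) {(1 - P.jL) * NUP1.l} (Z s (some .L))
  T : ∀ s, DecOn (κ + 2 * q0 * sc (s, Ob.S)) {-(1 / 2 * NUP1.l)} (Z s (some .T))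
  S : ∀ s r i, i < r → DecOn (κ + 2 * q0 * sc (s, Ob.S)) {lnO P r i .S} (Z s (some .S))

section word
variable {p p' : ℕ} {P : NUO.Par} {k : Fin p → O3} {k' : Fin p' → O3}
  {τ : Fin p ⊕ Fin p' → Fin 3}

/-- the constituents of the objects of a word -/
def cw (P : NUO.Par) (k : Fin p → O3) (k' : Fin p' → O3) (τ : Fin p ⊕ Fin p' → Fin 3)
    (t θ : Fin p ⊕ Fin p' → ℝ) (i : Fin p ⊕ Fin p') : List Part :=
  parts P.jL (elO P i) (P.rad (p + p') (t i)) (OO k k' τ t θ i)

theorem cw_cc (hτ : ∀ i, τ i ≠ 0 → actO k k' i) (t θ : Fin p ⊕ Fin p' → ℝ) :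
    cw P k k' τ t θ = cc (o3 k k') (zO P k k' t) (fun i => P.rad (p + p') (t i)) τ θ := by
  unfold cw
  rw [OO_eq]
  exact cW_eq hτ t θ

theorem l_small : NUP1.l < 1 / 2 := by
  have := Bd.pi_eq
  have := Real.pi_lt_d2
  linarith

theorem norm_circ (ρ θ : ℝ) (hρ : 0 ≤ ρ) : ‖(ρ : ℂ) * Complex.exp (2 * π * θ * I)‖ = ρ := by
  rw [norm_mul, norm_real, Real.norm_of_nonneg hρ]
  have : Complex.exp (2 * π * θ * I) = Complex.exp (((2 * π * θ : ℝ) : ℂ) * I) := by
    push_cast
    rfl
  rw [this, norm_exp_ofReal_mul_I, mul_one]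

/-- **the constituents are in their slots** -/
theorem cc_slot (h : GoodP P) (hτ : ∀ i, τ i ≠ 0 → actO k k' i) (t θ : Fin p ⊕ Fin p' → ℝ)
    (i : Fin p ⊕ Fin p') : ∀ a ∈ cw P k k' τ t θ i, ∃ b : Bool,
      co a = so k k' (.inl (i, b)) ∧ slo P k k' (.inl (i, b)) ≤ a.2.2.re ∧
      a.2.2.re ≤ shi P k k' (.inl (i, b)) ∧ (b = true → actO k k' i) ∧
      |a.2.2.im - t i| ≤ 1 / 4 := by
  intro a ha
  rw [cw_cc hτ] at ha
  unfold NUP1S.cc at ha
  rw [List.mem_cons] at ha
  rcases ha with rfl | ha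
  · refine ⟨false, rfl, ?_, ?_, fun h => absurd h (by decide), ?_⟩
    · show xw P k k' i ≤ (zO P k k' t i).re
      rw [zO_re]
    · show (zO P k k' t i).re ≤ xw P k k' i
      rw [zO_re]
    · show |(zO P k k' t i).im - t i| ≤ 1 / 4
      rw [zO_im, sub_self, abs_zero]
      norm_num
  · have h1 := List.eq_of_mem_replicate ha
    have h2 : τ i ≠ 0 := by
      intro h0
      rw [h0] at ha
      simp at ha
    subst h1
    have hρ0 := h.r0 (p + p') (t i)
    have hρ1 := h.r1 (p + p') (t i)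
    have hρ2 := rad_bound h (p + p') (t i)
    have hl := l_small
    have hcf : |(cf (zO P k k' t) (fun i => P.rad (p + p') (t i)) τ θ i).re -
        (xw P k k' i + 2 * NUP1.l)| ≤ rm P (p + p') ∧
        |(cf (zO P k k' t) (fun i => P.rad (p + p') (t i)) τ θ i).im - t i| ≤ 1 / 4 := by
      unfold cf
      split_ifs with h3
      · rw [cM_eq]
        have h4 := norm_circ (P.rad (p + p') (t i)) (θ i) hρ0.le
        set w := (P.rad (p + p') (t i) : ℂ) * Complex.exp (2 * π * θ i * I) with hw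
        have h5 : (zO P k k' t i + 2 * (NUP1.l : ℂ) + w).re - (xw P k k' i + 2 * NUP1.l) =
            w.re := by
          simp only [add_re, zO_re, mul_re, re_ofNat, ofReal_re, im_ofNat, ofReal_im, mul_zero,
            sub_zero]
          ring
        have h6 : (zO P k k' t i + 2 * (NUP1.l : ℂ) + w).im - t i = w.im := by
          simp only [add_im, zO_im, mul_im, re_ofNat, ofReal_re, im_ofNat, ofReal_im, mul_zero,
            zero_mul, add_zero]
          ring
        rw [h5, h6]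
        refine ⟨(abs_re_le_norm w).trans ?_, (abs_im_le_norm w).trans ?_⟩
        · rw [h4]
          exact hρ1
        · rw [h4]
          clear * - hρ0 hρ2 hl
          linarith
      · have h5 : (zO P k k' t i + 2 * (NUP1.l : ℂ)).re - (xw P k k' i + 2 * NUP1.l) = 0 := by
          simp only [add_re, zO_re, mul_re, re_ofNat, ofReal_re, im_ofNat, ofReal_im, mul_zero,
            sub_zero]
          ring
        have h6 : (zO P k k' t i + 2 * (NUP1.l : ℂ)).im - t i = 0 := by
          simp only [add_im, zO_im, mul_im, re_ofNat, ofReal_re, im_ofNat, ofReal_im, mul_zero,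
            zero_mul, add_zero]
          ring
        rw [h5, h6, abs_zero]
        exact ⟨(rm_pos h _).le, by norm_num⟩
    obtain ⟨h4, h5⟩ := hcf
    obtain ⟨h6, h7⟩ := abs_le.1 h4
    refine ⟨true, rfl, ?_, ?_, fun _ => hτ i h2, h5⟩
    · show xw P k k' i + 2 * NUP1.l - rm P (p + p') ≤
        (cf (zO P k k' t) (fun i => P.rad (p + p') (t i)) τ θ i).re
      clear * - h6
      linarith
    · show (cf (zO P k k' t) (fun i => P.rad (p + p') (t i)) τ θ i).re ≤
        xw P k k' i + 2 * NUP1.l + rm P (p + p')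
      linarith

theorem cw_length (P : NUO.Par) (k : Fin p → O3) (k' : Fin p' → O3)
    (τ : Fin p ⊕ Fin p' → Fin 3) (t θ : Fin p ⊕ Fin p' → ℝ) (i : Fin p ⊕ Fin p') :
    (cw P k k' τ t θ i).length ≤ 3 := by
  unfold cw parts
  cases kd (OO k k' τ t θ i) <;> simp

theorem pow_le_nine {C : ℝ} (hC : 1 ≤ C) {m : ℕ} (hm : m ≤ 9) : C ^ m ≤ C ^ 9 :=
  pow_le_pow_right₀ hC hm

/-- **pairs of objects** -/
theorem cw_pairs (h : GoodP P) (k : Fin p → O3) (k' : Fin p' → O3) : ∃ C : ℝ, 1 ≤ C ∧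
    ∀ (τ : Fin p ⊕ Fin p' → Fin 3), (∀ i, τ i ≠ 0 → actO k k' i) →
      ∀ t θ : Fin p ⊕ Fin p' → ℝ,
      (∀ i j, i ≠ j → ‖ppC (cw P k k' τ t θ i) (cw P k k' τ t θ j)‖ ≤
        C * Real.exp (2 * (lch (cw P k k' τ t θ i) * lch (cw P k k' τ t θ j)) * |t i - t j|)) ∧
      (∀ i, ∀ s : Bool, ∀ u : ℂ, u.re = NUP1.l → ‖ppC (cw P k k' τ t θ i) [(s, false, u)]‖ ≤
        C * Real.exp (2 * (lch (cw P k k' τ t θ i) * sc (s, Ob.A)) * |t i - u.im|)) ∧
      (∀ s s' : Bool, ∀ u : ℂ, u.re = 0 → ‖gz (s, Ob.A) (s', Ob.A) u‖ ≤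
        C * Real.exp (rt (s, Ob.A) (s', Ob.A) * |u.im|)) := by
  obtain ⟨C, hC, hc⟩ := slots_const h k k'
  have hC1 : 1 ≤ C * Real.exp 8 := by
    have : (1 : ℝ) ≤ Real.exp 8 := Real.one_le_exp (by norm_num)
    clear * - hC this
    nlinarith
  have hC0 : 0 ≤ C := by linarith
  refine ⟨(C * Real.exp 8) ^ 9, one_le_pow₀ hC1, fun τ hτ t θ => ⟨?_, ?_, ?_⟩⟩
  · intro i j hij
    have h1 : ∀ a ∈ cw P k k' τ t θ i, ∀ b ∈ cw P k k' τ t θ j, ‖pp a b‖ ≤
        C * Real.exp 8 * Real.exp (2 * (sc (co a) * sc (co b)) * |t i - t j|) := by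
      intro a ha b hb
      obtain ⟨x, a1, a2, a3, a4, a5⟩ := cc_slot h hτ t θ i a ha
      obtain ⟨y, b1, b2, b3, b4, b5⟩ := cc_slot h hτ t θ j b hb
      refine pp_shift hC0 ?_ ?_
      · rw [a1, b1]
        refine hc _ _ (fun hab => hij ?_) ?_ _ ?_ ?_
        · have := Sum.inl.inj hab
          exact (Prod.mk.inj this).1
        · rintro (h2 | ⟨h2, h3⟩ | ⟨h2, h3⟩)
          · exact hij h2
          · exact h3 (a4 h2)
          · exact h3 (b4 h2)
        · rw [sub_re]
          clear * - a2 b3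
          linarith
        · rw [sub_re]
          linarith
      · rw [sub_im]
        have h3 := abs_abs_sub_abs_le_abs_sub (a.2.2.im - b.2.2.im) (t i - t j)
        refine h3.trans ?_
        have e : a.2.2.im - b.2.2.im - (t i - t j) = (a.2.2.im - t i) - (b.2.2.im - t j) := by ring
        rw [e]
        have := abs_sub (a.2.2.im - t i) (b.2.2.im - t j)
        clear * - a5 b5 this
        linarith
    refine (ppC_le (by linarith) _ _ h1).trans
      (mul_le_mul_of_nonneg_right ?_ (Real.exp_pos _).le)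
    refine pow_le_nine hC1 ?_
    have h2 := cw_length P k k' τ t θ i
    have h3 := cw_length P k k' τ t θ j
    nlinarith
  · intro i s u hu
    have h1 : ∀ a ∈ cw P k k' τ t θ i, ∀ b ∈ [((s, false, u) : Part)], ‖pp a b‖ ≤
        C * Real.exp 8 * Real.exp (2 * (sc (co a) * sc (co b)) * |t i - u.im|) := by
      intro a ha b hb
      rw [List.mem_singleton] at hb
      subst hb
      obtain ⟨x, a1, a2, a3, a4, a5⟩ := cc_slot h hτ t θ i a ha
      refine pp_shift hC0 ?_ ?_
      · have e : co ((s, false, u) : Part) = so k k' (.inr (s, false)) := rfl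
        rw [a1, e]
        refine hc _ _ (fun hab => ?_) ?_ _ ?_ ?_
        · exact absurd hab (by simp)
        · rintro ⟨h2, h3⟩
          exact h3 (a4 h2)
        · rw [sub_re, hu]
          show _ - NUP1.l ≤ _
          linarith
        · rw [sub_re, hu]
          show _ ≤ _ - NUP1.l
          linarith
      · rw [sub_im]
        have h3 := abs_abs_sub_abs_le_abs_sub (a.2.2.im - u.im) (t i - u.im)
        refine h3.trans ?_
        have e : a.2.2.im - u.im - (t i - u.im) = a.2.2.im - t i := by ring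
        rw [e]
        linarith
    have h2 := ppC_le (by linarith) _ _ h1
    have e : lch [((s, false, u) : Part)] = sc (s, Ob.A) := by
      unfold lch co
      simp
    rw [e] at h2
    refine h2.trans (mul_le_mul_of_nonneg_right ?_ (Real.exp_pos _).le)
    refine pow_le_nine hC1 ?_
    have h2 := cw_length P k k' τ t θ i
    simp only [List.length_cons, List.length_nil]
    omega
  · intro s s' u hu
    have h1 := hc (.inr (s, false)) (.inr (s', true)) (by simp) (fun h => h) u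
      (by show NUP1.l - NUP1.l ≤ _; rw [hu, sub_self]) (by show _ ≤ NUP1.l - NUP1.l; rw [hu, sub_self])
    refine h1.trans (mul_le_mul_of_nonneg_right ?_ (Real.exp_pos _).le)
    calc C ≤ C * Real.exp 8 := by
          have : (1 : ℝ) ≤ Real.exp 8 := Real.one_le_exp (by norm_num)
          clear * - this hC
          nlinarith
      _ ≤ _ := by
          have := pow_le_pow_right₀ hC1 (show 1 ≤ 9 by norm_num)
          rwa [pow_one] at this

/-! ### one body weights -/

/-- the interaction of a satellite with its string -/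
theorem own_bound {ρ0 : ℝ} (hρ0 : 0 < ρ0) : ∃ C : ℝ, 1 ≤ C ∧ ∀ (w : ℂ), ρ0 ≤ ‖w‖ →
    ‖w‖ ≤ NUP1.l / 16 → ‖Kn.cz false true (2 * NUP1.l + w)‖ ≤ C := by
  have hl := Bd.l_pos
  have hls := l_small
  obtain ⟨m, hm, hs⟩ := sin_lower (w := NUP1.l / 16) hρ0 (by (clear * - hl; linarith))
  set c := Real.sin (NUP1.l) with hc
  have hc0 : 0 < c := Bd.sin_pos_of hl (by linarith)
  refine ⟨1 + (c⁻¹) ^ 2 * (m⁻¹) ^ 2, le_add_of_nonneg_right (by positivity), fun w h1 h2 => ?_⟩
  have hre : |w.re| ≤ NUP1.l / 16 := (abs_re_le_norm w).trans h2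
  obtain ⟨r1, r2⟩ := abs_le.1 hre
  have hw1 : NUP1.l < (2 * (NUP1.l : ℂ) + w).re := by
    simp only [add_re, mul_re, re_ofNat, ofReal_re, im_ofNat, ofReal_im, mul_zero, sub_zero]
    clear * - hρ0 h1 h2 r1
    linarith
  have hw2 : (2 * (NUP1.l : ℂ) + w).re < 3 * NUP1.l := by
    simp only [add_re, mul_re, re_ofNat, ofReal_re, im_ofNat, ofReal_im, mul_zero, sub_zero]
    clear * - hρ0 h1 h2 r2
    linarith
  show ‖Bd.cwz .A .S (2 * NUP1.l + w)‖ ≤ _
  rw [cwz_AS hw1 hw2]
  have e1 : 2 * (NUP1.l : ℂ) + w - 2 * NUP1.l = w := by ring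
  rw [e1, norm_div, norm_div, norm_one, norm_pow, norm_pow]
  have s1 : m ≤ ‖sin w‖ := by
    have h3 := hs w hre h1
    have h4 : (1 : ℝ) ≤ Real.exp |w.im| := Real.one_le_exp (abs_nonneg _)
    clear * - h3 hl hls hm h4
    nlinarith
  have s2 : c ≤ ‖sin (2 * (NUP1.l : ℂ) + w + 3 * NUP1.l)‖ := by
    have e2 : (2 * (NUP1.l : ℂ) + w + 3 * NUP1.l).re = 5 * NUP1.l + w.re := by
      simp only [add_re, mul_re, re_ofNat, ofReal_re, im_ofNat, ofReal_im, mul_zero, sub_zero]
      ring
    have h3 : |Real.sin (5 * NUP1.l + w.re)| ≤ ‖sin (2 * (NUP1.l : ℂ) + w + 3 * NUP1.l)‖ := by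
      have h4 := Bd.norm_sin_sq (2 * (NUP1.l : ℂ) + w + 3 * NUP1.l)
      rw [e2] at h4
      refine abs_le_of_sq_le_sq ?_ (norm_nonneg _)
      rw [h4]
      clear * -
      nlinarith [sq_nonneg (Real.sinh (2 * (NUP1.l : ℂ) + w + 3 * NUP1.l).im)]
    have h5 : c ≤ Real.sin (5 * NUP1.l + w.re) := by
      have hpi := Bd.pi_eq
      have e3 : Real.sin (5 * NUP1.l + w.re) = Real.sin (3 * NUP1.l - w.re) := by
        rw [← Real.sin_pi_sub, hpi]
        congr 1
        ring
      rw [e3, hc]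
      exact Real.sin_le_sin_of_le_of_le_pi_div_two (by linarith) (by linarith) (by linarith)
    exact h5.trans ((le_abs_self _).trans h3)
  have hs1 : 0 < ‖sin w‖ := hm.trans_le s1
  have hs2 : 0 < ‖sin (2 * (NUP1.l : ℂ) + w + 3 * NUP1.l)‖ := hc0.trans_le s2
  rw [one_div, ← inv_pow, div_eq_mul_inv, ← inv_pow]
  have i1 : (‖sin w‖)⁻¹ ≤ m⁻¹ := inv_anti₀ hm s1
  have i2 : (‖sin (2 * (NUP1.l : ℂ) + w + 3 * NUP1.l)‖)⁻¹ ≤ c⁻¹ := inv_anti₀ hc0 s2
  have := mul_le_mul (pow_le_pow_left₀ (by positivity) i2 2) (pow_le_pow_left₀ (by positivity) i1 2)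
    (by positivity) (by positivity)
  linarith

/-- **the factor of the satellites** -/
theorem om0_le {Z : Bool → Option O3 → ℂ → ℂ} {x0 κ q0 ρ0 : ℝ} (h : GoodQ P x0) (hρ0 : 0 < ρ0)
    (hρ : ∀ t, ρ0 ≤ P.rad (p + p') t) (hZ : DecZ Z P x0 κ q0) (k : Fin p → O3)
    (k' : Fin p' → O3) : ∃ B : ℝ, 1 ≤ B ∧ ∀ (τ : Fin p ⊕ Fin p' → Fin 3),
      (∀ i, τ i ≠ 0 → actO k k' i) → ∀ t θ : Fin p ⊕ Fin p' → ℝ, ∀ i,
      ‖om0 (o3 k k') (zO P k k' t) (fun i => P.rad (p + p') (t i)) (fun s => Z s none) τ θ i‖ ≤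
        B * Real.exp (-((κ + 2 * q0 * sc (!(o3 k k' i).1, Ob.A)) * |t i|)) ^ (τ i : ℕ) := by
  have hl := Bd.l_pos
  have hls := l_small
  obtain ⟨C, hC, hc⟩ := own_bound hρ0
  obtain ⟨D1, h1⟩ := hZ.A true
  obtain ⟨D2, h2⟩ := hZ.A false
  set D := 1 + |D1| + |D2| with hD
  have hD1 : 1 ≤ D := by
    have := abs_nonneg D1
    have := abs_nonneg D2
    linarith
  have hdec : ∀ s, ∀ u : ℂ, u.re ∈ Set.Icc x0 NUP1.l → ‖Z s none u‖ ≤
      D * Real.exp (-((κ + 2 * q0 * sc (s, Ob.A)) * |u.im|)) := by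
    intro s u hu
    cases s
    · refine (h2 u hu).trans (mul_le_mul_of_nonneg_right ?_ (Real.exp_pos _).le)
      have := le_abs_self D2
      have := abs_nonneg D1
      linarith
    · refine (h1 u hu).trans (mul_le_mul_of_nonneg_right ?_ (Real.exp_pos _).le)
      have := le_abs_self D1
      have := abs_nonneg D2
      linarith
  set E := Real.exp (|κ| + 2 * |q0|) with hE
  have hE1 : 1 ≤ E := Real.one_le_exp (by (clear * -; positivity))
  set S5 := ‖(1 / sin (5 * NUP1.l) ^ 2 : ℂ)‖ with hS5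
  set T2 := ‖(sin (2 * NUP1.l) / sin NUP1.l : ℂ) ^ 2‖ with hT2
  refine ⟨1 + D * E * C + T2 * (D * S5) ^ 2, ?_, fun τ hτ t θ i => ?_⟩
  · have : 0 ≤ D * E * C := by positivity
    have : 0 ≤ T2 * (D * S5) ^ 2 := by (clear * - T2 D S5; positivity)
    linarith
  have b1 : 0 ≤ D * E * C := by positivity
  have b2 : 0 ≤ T2 * (D * S5) ^ 2 := by (clear * - T2 D S5; positivity)
  set s' := (!(o3 k k' i).1) with hs'
  set X := Real.exp (-((κ + 2 * q0 * sc (s', Ob.A)) * |t i|)) with hX
  have hX0 : 0 < X := Real.exp_pos _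
  have hmem : ∀ v : ℝ, actO k k' i → |v - (xw P k k' i + 2 * NUP1.l)| ≤ rm P (p + p') →
      v ∈ Set.Icc x0 NUP1.l := by
    intro v hi hv
    obtain ⟨g1, g2⟩ := abs_le.1 hv
    obtain ⟨e1, e2, e3⟩ := xw_S (P := P) h.toGoodP hi
    have hrm := rm_le h.toGoodP (p + p')
    have hx := h.xl (p + p')
    have hr' : (0 : ℝ) < ((p + p' : ℕ) : ℝ) := by
      exact_mod_cast (Nat.zero_le _).trans_lt (rkS_lt i)
    have h3 : ((rkS i : ℕ) : ℝ) / ((p + p' : ℕ) : ℝ) ≤ 1 := by
      rw [div_le_one hr']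
      exact_mod_cast (rkS_lt i).le
    have h4 := h.d0 (p + p')
    have h5 := mul_le_mul_of_nonneg_left h3 h4.le
    have hrm2 : rm P (p + p') ≤ NUP1.l * P.d (p + p') / 8 := by
      unfold rm
      rw [div_le_div_iff₀ (by positivity) (by norm_num)]
      have hr : (0 : ℝ) ≤ ((p + p' : ℕ) : ℝ) := Nat.cast_nonneg _
      clear * - hl h4 hr
      nlinarith [mul_pos hl h4, mul_nonneg (mul_pos hl h4).le hr]
    have e4 : -((1 + (P.e + P.d (p + p'))) * NUP1.l) ≤ xw P k k' i := by
      rw [e1]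
      show _ ≤ -((1 + (P.e + P.d (p + p') * ((rkS i : ℕ) / ((p + p' : ℕ) : ℝ)))) * NUP1.l)
      clear * - hl h5
      nlinarith
    constructor
    · (clear * - g1 hx hrm2 e4; nlinarith)
    · (clear * - hl g2 e3 hrm; linarith)
  unfold om0
  rcases fin3_cases (τ i) with h0 | h0 | h0
  · rw [h0, if_pos rfl, norm_one]
    simp only [Fin.val_zero, pow_zero, mul_one]
    linarith
  · have hi := hτ i (by rw [h0]; decide)
    rw [h0, if_neg (by decide), if_pos rfl, cM_eq, cM_eq, zero_add, norm_mul, norm_neg,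
      norm_circ _ _ (h.r0 _ _).le, norm_mul]
    simp only [Fin.val_one, pow_one]
    have hr1 := rad_bound h.toGoodP (p + p') (t i)
    have hw := norm_circ (P.rad (p + p') (t i)) (θ i) (h.r0 _ _).le
    set w := (P.rad (p + p') (t i) : ℂ) * Complex.exp (2 * π * θ i * I) with hwd
    have a1 : ‖gz (!(o3 k k' i).1, Ob.A) (o3 k k' i)
        (zO P k k' t i + 2 * (NUP1.l : ℂ) + w - zO P k k' t i)‖ ≤ C := by
      have e1 : zO P k k' t i + 2 * (NUP1.l : ℂ) + w - zO P k k' t i = 2 * NUP1.l + w := by ring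
      have e2 : gz (!(o3 k k' i).1, Ob.A) (o3 k k' i) (2 * NUP1.l + w) =
          Kn.cz false true (2 * NUP1.l + w) := by
        have e3 : (o3 k k' i).2 = .S := by
          rcases i with i | i
          · have : k i = .S := hi
            show ob3 (k i) = _
            rw [this]
            rfl
          · have : k' i = .S := hi
            show ob3 (k' i) = _
            rw [this]
            rfl
        unfold gz
        have e4 : ¬ (!(o3 k k' i).1) = (o3 k k' i).1 := by cases (o3 k k' i).1 <;> decide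
        simp only [if_neg e4, e3]
        rfl
      rw [e1, e2]
      refine hc w ?_ ?_
      · rw [hw]
        exact hρ _
      · rw [hw]
        exact hr1
    have a2 : ‖Z (!(o3 k k' i).1) none (zO P k k' t i + 2 * (NUP1.l : ℂ) + w)‖ ≤ D * (E * X) := by
      have e5 : (zO P k k' t i + 2 * (NUP1.l : ℂ) + w).re - (xw P k k' i + 2 * NUP1.l) =
          w.re := by
        simp only [add_re, zO_re, mul_re, re_ofNat, ofReal_re, im_ofNat, ofReal_im, mul_zero,
          sub_zero]
        ring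
      have e6 : (zO P k k' t i + 2 * (NUP1.l : ℂ) + w).im - t i = w.im := by
        simp only [add_im, zO_im, mul_im, re_ofNat, ofReal_re, im_ofNat, ofReal_im, mul_zero,
          zero_mul, add_zero]
        ring
      have hre := hmem (zO P k k' t i + 2 * (NUP1.l : ℂ) + w).re hi (by
        rw [e5]
        refine (abs_re_le_norm w).trans ?_
        rw [hw]
        exact h.r1 _ _)
      have a3 := hdec s' _ hre
      refine a3.trans (mul_le_mul_of_nonneg_left ?_ (by linarith))
      rw [hE, hX, ← Real.exp_add]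
      refine Real.exp_le_exp.2 ?_
      set v := (zO P k k' t i + 2 * (NUP1.l : ℂ) + w).im with hv
      have h7 : |(|v|) - (|t i|)| ≤ 1 := by
        refine (abs_abs_sub_abs_le_abs_sub v (t i)).trans ?_
        rw [e6]
        refine (abs_im_le_norm w).trans ?_
        rw [hw]
        linarith
      have h8 : |κ + 2 * q0 * sc (s', Ob.A)| ≤ |κ| + 2 * |q0| := by
        refine (abs_add_le _ _).trans ?_
        rw [abs_mul, abs_mul, abs_two]
        have : |sc (s', Ob.A)| ≤ 1 := by cases s' <;> simp [sc, Bd.chg]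
        have := mul_le_mul_of_nonneg_left this (by positivity : 0 ≤ 2 * |q0|)
        linarith
      have h9 : -((κ + 2 * q0 * sc (s', Ob.A)) * (|v| - |t i|)) ≤ |κ| + 2 * |q0| := by
        refine (neg_le_abs _).trans ?_
        rw [abs_mul]
        calc _ ≤ (|κ| + 2 * |q0|) * 1 := mul_le_mul h8 h7 (abs_nonneg _) (by positivity)
          _ = _ := mul_one _
      linarith
    have a4 : P.rad (p + p') (t i) ≤ 1 := by linarith
    have a5 := h.r0 (p + p') (t i)
    calc _ ≤ 1 * (D * (E * X) * C) :=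
          mul_le_mul a4 (mul_le_mul a2 a1 (norm_nonneg _) (by positivity)) (by positivity)
            zero_le_one
      _ = D * E * C * X := by ring
      _ ≤ _ := mul_le_mul_of_nonneg_right (by linarith) hX0.le
  · have hi := hτ i (by rw [h0]; decide)
    rw [h0, if_neg (by decide), if_neg (by decide), norm_mul, norm_pow ((_ : ℂ) * _), norm_mul]
    simp only [Fin.val_two]
    have a2 : ‖Z (!(o3 k k' i).1) none (zO P k k' t i + 2 * (NUP1.l : ℂ))‖ ≤ D * X := by
      have e5 : (zO P k k' t i + 2 * (NUP1.l : ℂ)).re = xw P k k' i + 2 * NUP1.l := by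
        simp only [add_re, zO_re, mul_re, re_ofNat, ofReal_re, im_ofNat, ofReal_im, mul_zero,
          sub_zero]
      have e6 : (zO P k k' t i + 2 * (NUP1.l : ℂ)).im = t i := by
        simp only [add_im, zO_im, mul_im, re_ofNat, ofReal_re, im_ofNat, ofReal_im, mul_zero,
          zero_mul, add_zero]
      have a3 := hdec s' _ (hmem (zO P k k' t i + 2 * (NUP1.l : ℂ)).re hi (by
        rw [e5, sub_self, abs_zero]
        exact (rm_pos h.toGoodP _).le))
      rw [e6] at a3
      exact a3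
    have a3 : (‖Z (!(o3 k k' i).1) none (zO P k k' t i + 2 * (NUP1.l : ℂ))‖ * S5) ^ 2 ≤
        (D * X * S5) ^ 2 :=
      pow_le_pow_left₀ (by positivity) (mul_le_mul_of_nonneg_right a2 (norm_nonneg _)) 2
    calc _ ≤ T2 * (D * X * S5) ^ 2 := mul_le_mul_of_nonneg_left a3 (norm_nonneg _)
      _ = T2 * (D * S5) ^ 2 * X ^ 2 := by ring
      _ ≤ _ := mul_le_mul_of_nonneg_right (by linarith) (by positivity)

end word

end PBC.PLX

end
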