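import Pool.Agent.PLX.Ns
import Pool.Agent.PLX.PB.ClsBd

/-!
# Plan B: the complex term of a family of objects, measurability and integrability

`fK`: complex weight of a family of objects times the gas of the other quanta on `Re u = y`;
`measurable_fK`, `integrable_word`: joint integrability over heights and angles of every word.
-/

set_option autoImplicit false
set_option linter.unusedSectionVars false

noncomputable section

open Complex MeasureTheory Finset
open scoped Real ENNReal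

namespace PBC.PLX

open NUP1 NUO NUP1S NUP1S.Mg NUP1S.Ab NUP1S.AbG NUP1S.AbC NURow
open NUP1.Bd (wt Ob)
open PBF.PLX (obK wK)

/-- the complex term of a family of objects: every object comes with its line, its radius and
itself -/
def fK (Z : Bool → Option O3 → ℂ → ℂ) (jL y : ℝ) (n n' : ℕ) {ι : Type} [Fintype ι]
    (a : ι → ℝ × ℝ × Xo) : ℂ :=
  if qa a true ≤ n ∧ qa a false ≤ n' then
    wCx (fun i => obK Z jL (a i).1 (a i).2.1 (a i).2.2) (pa jL a) *
      gas (n - qa a true) (n' - qa a false) y (fun z => Z true none z * potG (pa jL a) true z)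
        (fun z => Z false none z * potG (pa jL a) false z)
  else 0

theorem fK_equiv (Z : Bool → Option O3 → ℂ → ℂ) (jL y : ℝ) (n n' : ℕ) {ι ι' : Type}
    [Fintype ι] [Fintype ι'] (e : ι ≃ ι') (a : ι' → ℝ × ℝ × Xo) :
    fK Z jL y n n' (fun i => a (e i)) = fK Z jL y n n' a := by
  have h1 : ∀ s, qa (fun i => a (e i)) s = qa a s := fun s =>
    e.sum_comp fun i => chg s (a i).2.2
  have h2 : ∀ s z, potG (pa jL fun i => a (e i)) s z = potG (pa jL a) s z := fun s z =>
    potG_equiv e (pa jL a) s z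
  have h3 : wCx (fun i => obK Z jL (a (e i)).1 (a (e i)).2.1 (a (e i)).2.2)
      (pa jL fun i => a (e i)) = wCx (fun i => obK Z jL (a i).1 (a i).2.1 (a i).2.2) (pa jL a) :=
    wCx_equiv e (fun i => obK Z jL (a i).1 (a i).2.1 (a i).2.2) (pa jL a)
  unfold fK
  simp only [h1, h2, h3]

/-! ### measurability -/

section meas

variable {Y : Type*} [MeasurableSpace Y] {Z : Bool → Option O3 → ℂ → ℂ}

theorem measurable_obK (hZ : ∀ s k, Measurable (Z s k)) (jL e : ℝ) (k : Bool × Kind)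
    {t a ρ : Y → ℝ} (ht : Measurable t) (ha : Measurable a) (hρ : Measurable ρ) :
    Measurable fun y => obK Z jL e (ρ y) (k, (t y, a y)) := by
  obtain ⟨s, k⟩ := k
  have hS : Measurable fun y => posS e (t y) := NUO.measurable_vl ht _
  have hS' : Measurable fun y => posS e (t y) + 2 * (NUP1.l : ℂ) := hS.add_const _
  have hV := measurable_posV ht ha hρ e
  have hL : Measurable fun y => posL jL (t y) := NUO.measurable_vl ht _
  have hT : Measurable fun y => posT (t y) := NUO.measurable_vl ht _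
  have hE : Measurable fun y => -((ρ y : ℂ) * Complex.exp (2 * Real.pi * (a y) * I)) := by
    fun_prop
  cases k
  · exact ((hZ s (some .L)).comp hL).const_mul _
  · exact ((hZ s (some .T)).comp hT).const_mul _
  · exact ((hZ s (some .S)).comp hS).const_mul _
  · exact (((hZ s (some .S)).comp hS).mul (hE.mul (((hZ (!s) none).comp hV).mul
      ((NUO.measurable_cz false true).comp (hV.sub hS))))).const_mul _
  · exact (((hZ s (some .S)).comp hS).mul (((((hZ (!s) none).comp hS').mul_const _).pow_const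
      2).const_mul _)).const_mul _

theorem measurable_fK (hZ : ∀ s k, Measurable (Z s k)) (jL y : ℝ) (n n' : ℕ) {ι : Type}
    [Fintype ι] (e : ι → ℝ) (K : ι → Bool × Kind) {ρ t a : ι → Y → ℝ}
    (hρ : ∀ i, Measurable (ρ i)) (ht : ∀ i, Measurable (t i)) (ha : ∀ i, Measurable (a i)) :
    Measurable fun ω => fK Z jL y n n' (fun i => (e i, ρ i ω, (K i, (t i ω, a i ω)))) := by
  have hq : ∀ (s : Bool) (ω : Y), qa (fun i => (e i, ρ i ω, (K i, (t i ω, a i ω)))) s =
      qa (fun i => ((0 : ℝ), (0 : ℝ), (K i, ((0 : ℝ), (0 : ℝ))))) s := fun s ω => rfl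
  set Q := qa (fun i => ((0 : ℝ), (0 : ℝ), (K i, ((0 : ℝ), (0 : ℝ))))) true
  set Q' := qa (fun i => ((0 : ℝ), (0 : ℝ), (K i, ((0 : ℝ), (0 : ℝ))))) false
  unfold fK
  simp only [hq]
  split_ifs with hc
  swap
  · exact measurable_const
  choose L hL hL' using fun i => exists_evl (K i) (ht i) (ha i) (hρ i) jL (e i)
  choose M hM hM' using fun i => exists_evl (Y := Y × ℂ) (K i) ((ht i).comp measurable_fst)
    ((ha i).comp measurable_fst) ((hρ i).comp measurable_fst) jL (e i)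
  refine Measurable.mul ?_ ?_
  · unfold wCx
    refine Measurable.mul ?_ ?_
    · exact Finset.measurable_prod _ fun i _ => measurable_obK hZ jL (e i) (K i) (ht i) (ha i) (hρ i)
    · refine measurable_PU (fun i j (ω : Y) => ppC (pa jL (fun i => (e i, ρ i ω,
        (K i, (t i ω, a i ω)))) i) (pa jL (fun i => (e i, ρ i ω, (K i, (t i ω, a i ω)))) j))
        fun i j => ?_
      have h1 := measurable_ppC_evl (hL i) (hL j)
      refine (congrArg Measurable (funext fun ω => ?_)).mpr h1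
      rw [← hL' i, ← hL' j]
      rfl
  · have hpot : ∀ s : Bool, Measurable fun q : Y × ℂ =>
        potG (pa jL (fun i => (e i, ρ i q.1, (K i, (t i q.1, a i q.1))))) s q.2 := by
      intro s
      unfold potG
      refine Finset.measurable_prod _ fun i _ => ?_
      have h1 := measurable_ppC_evl (L := [(s, false, fun q : Y × ℂ => q.2)]) (M := M i)
        (fun q hq => by
          rw [List.mem_singleton] at hq
          subst hq
          exact measurable_snd) (hM i)
      refine (congrArg Measurable (funext fun q => ?_)).mpr h1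
      rw [← hM' i]
      rfl
    exact measurable_gas (n - Q) (n' - Q') y
      (H := fun q : Y × ℂ => Z true none q.2 *
        potG (pa jL (fun i => (e i, ρ i q.1, (K i, (t i q.1, a i q.1))))) true q.2)
      (H' := fun q : Y × ℂ => Z false none q.2 *
        potG (pa jL (fun i => (e i, ρ i q.1, (K i, (t i q.1, a i q.1))))) false q.2)
      (((hZ true none).comp measurable_snd).mul (hpot true))
      (((hZ false none).comp measurable_snd).mul (hpot false))

end meas

/-! ### bound of one word -/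

theorem lch_parts (jL e ρ : ℝ) (x : Xo) :
    lch (parts jL e ρ x) = (chg true x : ℝ) - chg false x := by
  obtain ⟨⟨c, k⟩, t, a⟩ := x
  cases c <;> cases k <;>
    simp [parts, NUO.chg, lch, co, sc, NUP1.Bd.chg] <;> norm_num

section word
variable {p p' : ℕ} {P : NUO.Par} {k : Fin p → O3} {k' : Fin p' → O3}
  {τ : Fin p ⊕ Fin p' → Fin 3}

theorem o3_fst (i : Fin p ⊕ Fin p') : (o3 k k' i).1 = isl i := by
  rcases i with i | i <;> rfl

theorem o3_snd (i : Fin p ⊕ Fin p') : (o3 k k' i).2 = ob3 (Sum.elim k k' i) := by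
  rcases i with i | i <;> rfl

theorem obK_word (Z : Bool → Option O3 → ℂ → ℂ) (hτ : ∀ i, τ i ≠ 0 → actO k k' i)
    (t θ : Fin p ⊕ Fin p' → ℝ) (i : Fin p ⊕ Fin p') :
    obK Z P.jL (elO P i) (P.rad (p + p') (t i)) (OO k k' τ t θ i) =
      wt (ob3 (Sum.elim k k' i)) * (Z (isl i) (some (Sum.elim k k' i)) (zO P k k' t i) *
        om0 (o3 k k') (zO P k k' t) (fun i => P.rad (p + p') (t i)) (fun s => Z s none) τ θ i) := by
  rw [OO_eq]
  symm
  refine obK_eq Z (n := rkS) (t := t) (s := isl i) rfl (fun hi => ?_) ?_ ?_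
  · rcases i with i | i <;> exact hτ _ hi
  · rcases i with i | i <;> rfl
  · rcases i with i | i <;> rfl

theorem lch_cw (hτ : ∀ i, τ i ≠ 0 → actO k k' i) (t θ : Fin p ⊕ Fin p' → ℝ)
    (i : Fin p ⊕ Fin p') : lch (cw P k k' τ t θ i) =
      sc (isl i, ob3 (Sum.elim k k' i)) + (τ i : ℕ) * sc (!isl i, Ob.A) := by
  rw [cw_cc hτ]
  unfold NUP1S.cc
  rw [lch_cons]
  congr 1
  · unfold co
    simp only [o3_fst, o3_snd]
    cases Sum.elim k k' i <;> cases isl i <;> simp [sc, tyB, ob3, Bd.chg]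
  · unfold lch
    rw [List.map_replicate, List.sum_replicate, nsmul_eq_mul]
    unfold co
    simp only [o3_fst, Bool.false_eq_true, if_false]

/-- **one body weights of a word** -/
theorem obK_le {Z : Bool → Option O3 → ℂ → ℂ} {x0 κ q0 ρ0 : ℝ} (h : GoodQ P x0) (hκ : 0 ≤ κ)
    (hρ0 : 0 < ρ0) (hρ : ∀ t, ρ0 ≤ P.rad (p + p') t) (hZ : DecZ Z P x0 κ q0) (k : Fin p → O3)
    (k' : Fin p' → O3) : ∃ D : ℝ, 1 ≤ D ∧ (∀ s, ∀ u : ℂ, u.re ∈ Set.Icc x0 NUP1.l →
        ‖Z s none u‖ ≤ D * Real.exp (-((κ + 2 * q0 * sc (s, Ob.A)) * |u.im|))) ∧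
      ∀ (τ : Fin p ⊕ Fin p' → Fin 3), (∀ i, τ i ≠ 0 → actO k k' i) →
      ∀ t θ : Fin p ⊕ Fin p' → ℝ, ∀ i,
      ‖obK Z P.jL (elO P i) (P.rad (p + p') (t i)) (OO k k' τ t θ i)‖ ≤
        D * Real.exp (-((κ + 2 * q0 * lch (cw P k k' τ t θ i)) * |t i|)) := by
  obtain ⟨B, hB, hb⟩ := om0_le h hρ0 hρ hZ k k'
  have hd : ∀ i : Fin p ⊕ Fin p', DecOn (κ + 2 * q0 * sc (isl i, ob3 (Sum.elim k k' i)))
      {xw P k k' i} (Z (isl i) (some (Sum.elim k k' i))) := by
    intro i
    unfold xw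
    cases hk : Sum.elim k k' i
    · exact hZ.L _
    · exact hZ.S _ _ _ (rkS_lt i)
    · exact hZ.T _
  choose D hD using hd
  obtain ⟨A1, h1⟩ := hZ.A true
  obtain ⟨A2, h2⟩ := hZ.A false
  set W := (2 * π)⁻¹ + aS with hW
  have haS := NUP1S.aS_pos
  have hW0 : 0 ≤ W := by positivity
  have hw : ∀ k : O3, ‖wt (ob3 k)‖ ≤ W := by
    intro k
    cases k
    · show ‖wt .L‖ ≤ _
      rw [norm_wt_L]
      linarith
    · show ‖wt .S‖ ≤ _
      rw [norm_wt_S]
      have : (0 : ℝ) ≤ (2 * π)⁻¹ := by positivity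
      linarith
    · show ‖wt .S‖ ≤ _
      rw [norm_wt_S]
      have : (0 : ℝ) ≤ (2 * π)⁻¹ := by positivity
      linarith
  set Dt := ∑ i, |D i| with hDt
  have hDt0 : 0 ≤ Dt := Finset.sum_nonneg fun i _ => abs_nonneg _
  have hA1 := abs_nonneg A1
  have hA2 := abs_nonneg A2
  have hWDB : 0 ≤ W * (Dt * B) := by positivity
  refine ⟨1 + |A1| + |A2| + W * (Dt * B), by linarith, fun s u hu => ?_,
    fun τ hτ t θ i => ?_⟩
  · cases s
    · refine (h2 u hu).trans (mul_le_mul_of_nonneg_right ?_ (Real.exp_pos _).le)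
      have := le_abs_self A2
      linarith
    · refine (h1 u hu).trans (mul_le_mul_of_nonneg_right ?_ (Real.exp_pos _).le)
      have := le_abs_self A1
      linarith
  · rw [obK_word Z hτ, lch_cw hτ, norm_mul, norm_mul]
    have a1 : ‖Z (isl i) (some (Sum.elim k k' i)) (zO P k k' t i)‖ ≤
        Dt * Real.exp (-((κ + 2 * q0 * sc (isl i, ob3 (Sum.elim k k' i))) * |t i|)) := by
      have := hD i (zO P k k' t i) (by rw [Set.mem_singleton_iff]; exact zO_re P k k' t i)
      rw [zO_im] at this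
      refine this.trans (mul_le_mul_of_nonneg_right ?_ (Real.exp_pos _).le)
      exact (le_abs_self _).trans (Finset.single_le_sum (f := fun i => |D i|)
        (fun i _ => abs_nonneg _) (Finset.mem_univ i))
    have a2 := hb τ hτ t θ i
    rw [o3_fst] at a2
    set q1 := sc (isl i, ob3 (Sum.elim k k' i)) with hq1
    set q2 := sc (!isl i, Ob.A) with hq2
    have e1 : Real.exp (-((κ + 2 * q0 * q1) * |t i|)) *
        Real.exp (-((κ + 2 * q0 * q2) * |t i|)) ^ (τ i : ℕ) ≤
        Real.exp (-((κ + 2 * q0 * (q1 + (τ i : ℕ) * q2)) * |t i|)) := by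
      rw [← Real.exp_nat_mul, ← Real.exp_add]
      refine Real.exp_le_exp.2 ?_
      have : 0 ≤ ((τ i : ℕ) : ℝ) * (κ * |t i|) := by positivity
      linarith
    calc _ ≤ W * ((Dt * Real.exp (-((κ + 2 * q0 * q1) * |t i|))) *
          (B * Real.exp (-((κ + 2 * q0 * q2) * |t i|)) ^ (τ i : ℕ))) :=
          mul_le_mul (hw _) (mul_le_mul a1 a2 (norm_nonneg _) (by positivity)) (by positivity) hW0
      _ = W * (Dt * B) * (Real.exp (-((κ + 2 * q0 * q1) * |t i|)) *
          Real.exp (-((κ + 2 * q0 * q2) * |t i|)) ^ (τ i : ℕ)) := by ring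
      _ ≤ W * (Dt * B) * Real.exp (-((κ + 2 * q0 * (q1 + (τ i : ℕ) * q2)) * |t i|)) :=
          mul_le_mul_of_nonneg_left e1 hWDB
      _ ≤ _ := mul_le_mul_of_nonneg_right (by linarith) (Real.exp_pos _).le

/-- **bound of one word** -/
theorem word_bound {Z : Bool → Option O3 → ℂ → ℂ} {x0 κ q0 ρ0 : ℝ} (h : GoodQ P x0)
    (hx0 : x0 ≤ NUP1.l) (hκ : 0 < κ)
    (hρ0 : 0 < ρ0) (hρ : ∀ t, ρ0 ≤ P.rad (p + p') t) (hZ : DecZ Z P x0 κ q0) {n n' : ℕ}
    (hq : (n : ℝ) - n' = q0) (K : Fin p → Kind) (K' : Fin p' → Kind) :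
    ∃ M : ℝ, ∀ x : Fin p ⊕ Fin p' → ℝ × ℝ, ‖fK Z P.jL NUP1.l n n' (d2 P (mk2 K K' x))‖ ≤
      M * ∏ i, Real.exp (-(κ * |(x i).1|)) := by
  set k : Fin p → O3 := fun i => b3 (K i) with hk
  set k' : Fin p' → O3 := fun i => b3 (K' i) with hk'
  set τ : Fin p ⊕ Fin p' → Fin 3 := Sum.elim (fun i => t3 (K i)) (fun i => t3 (K' i)) with hτd
  have hτ : ∀ i, τ i ≠ 0 → actO k k' i := by
    rintro (i | i) hi
    · exact t3_ne (K i) hi
    · exact t3_ne (K' i) hi
  obtain ⟨D, hD, hG, ho⟩ := obK_le h hκ.le hρ0 hρ hZ k k'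
  obtain ⟨C, hC, hc⟩ := cw_pairs h.toGoodP k k'
  have hO : ∀ x : Fin p ⊕ Fin p' → ℝ × ℝ, mk2 K K' x =
      OO k k' τ (fun i => (x i).1) (fun i => (x i).2) := by
    intro x
    funext i
    rcases i with i | i
    · show ((true, K i), x (.inl i)) = ((true, kdO (b3 (K i)) (t3 (K i))), ((x (.inl i)).1, (x (.inl i)).2))
      rw [kdO_b3]
    · show ((false, K' i), x (.inr i)) =
        ((false, kdO (b3 (K' i)) (t3 (K' i))), ((x (.inr i)).1, (x (.inr i)).2))
      rw [kdO_b3]
  refine ⟨(D ^ (Fintype.card (Fin p ⊕ Fin p') +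
      ((n - (∑ i, chg true (mk2 K K' (fun _ => ((0 : ℝ), (0 : ℝ))) i))) +
        (n' - (∑ i, chg false (mk2 K K' (fun _ => ((0 : ℝ), (0 : ℝ))) i))))) *
        C ^ ((Fintype.card (Fin p ⊕ Fin p') +
      ((n - (∑ i, chg true (mk2 K K' (fun _ => ((0 : ℝ), (0 : ℝ))) i))) +
        (n' - (∑ i, chg false (mk2 K K' (fun _ => ((0 : ℝ), (0 : ℝ))) i))))) *
        (Fintype.card (Fin p ⊕ Fin p') +
      ((n - (∑ i, chg true (mk2 K K' (fun _ => ((0 : ℝ), (0 : ℝ))) i))) +
        (n' - (∑ i, chg false (mk2 K K' (fun _ => ((0 : ℝ), (0 : ℝ))) i)))))) *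
        ∫ u : Fin (n - (∑ i, chg true (mk2 K K' (fun _ => ((0 : ℝ), (0 : ℝ))) i))) ⊕
          Fin (n' - (∑ i, chg false (mk2 K K' (fun _ => ((0 : ℝ), (0 : ℝ))) i))) → ℝ,
          ∏ i, Real.exp (-(κ * |u i|)) ∂(Measure.pi fun _ => volume)), fun x => ?_⟩
  have hqa : ∀ s, qa (d2 P (mk2 K K' x)) s =
      ∑ i, chg s (mk2 K K' (fun _ => ((0 : ℝ), (0 : ℝ))) i) := fun s => rfl
  unfold fK
  rw [hqa, hqa]
  set Q := ∑ i, chg true (mk2 K K' (fun _ => ((0 : ℝ), (0 : ℝ))) i) with hQ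
  set Q' := ∑ i, chg false (mk2 K K' (fun _ => ((0 : ℝ), (0 : ℝ))) i) with hQ'
  split_ifs with hcond
  swap
  · rw [norm_zero]
    have : 0 ≤ ∏ i, Real.exp (-(κ * |(x i).1|)) := Finset.prod_nonneg fun i _ => (Real.exp_pos _).le
    refine mul_nonneg (mul_nonneg (by positivity) ?_) this
    exact integral_nonneg fun u => Finset.prod_nonneg fun i _ => (Real.exp_pos _).le
  have hpa : pa P.jL (d2 P (mk2 K K' x)) = cw P k k' τ (fun i => (x i).1) (fun i => (x i).2) := by
    funext i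
    show parts P.jL (el2 P i) (P.rad (p + p') (ht (mk2 K K' x i))) (mk2 K K' x i) = _
    rw [hO]
    rfl
  have hob : (fun i => obK Z P.jL (d2 P (mk2 K K' x) i).1 (d2 P (mk2 K K' x) i).2.1
      (d2 P (mk2 K K' x) i).2.2) = fun i => obK Z P.jL (elO P i) (P.rad (p + p') ((x i).1))
        (OO k k' τ (fun i => (x i).1) (fun i => (x i).2) i) := by
    funext i
    show obK Z P.jL (el2 P i) (P.rad (p + p') (ht (mk2 K K' x i))) (mk2 K K' x i) = _
    rw [hO]
    rfl
  rw [hpa, hob]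
  obtain ⟨c1, c2, c3'⟩ := hc τ hτ (fun i => (x i).1) (fun i => (x i).2)
  have hsum : (∑ i, lch (cw P k k' τ (fun i => (x i).1) (fun i => (x i).2) i)) +
      (((n - Q : ℕ) : ℝ) - ((n' - Q' : ℕ) : ℝ)) = q0 := by
    have e1 : ∀ i, lch (cw P k k' τ (fun i => (x i).1) (fun i => (x i).2) i) =
        (chg true (mk2 K K' x i) : ℝ) - chg false (mk2 K K' x i) := by
      intro i
      rw [hO]
      exact lch_parts _ _ _ _
    simp only [e1]
    rw [Finset.sum_sub_distrib]
    have e2 : ∑ i, (chg true (mk2 K K' x i) : ℝ) = (Q : ℝ) := by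
      rw [hQ]
      push_cast
      rfl
    have e3 : ∑ i, (chg false (mk2 K K' x i) : ℝ) = (Q' : ℝ) := by
      rw [hQ']
      push_cast
      rfl
    rw [e2, e3]
    push_cast [hcond.1, hcond.2]
    linarith
  have key := wCx_gas_le (y := NUP1.l) (a := n - Q) (b := n' - Q')
    (o := fun i => obK Z P.jL (elO P i) (P.rad (p + p') ((x i).1))
        (OO k k' τ (fun i => (x i).1) (fun i => (x i).2) i))
    (c := cw P k k' τ (fun i => (x i).1) (fun i => (x i).2)) (t := fun i => (x i).1)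
    (G := fun s => Z s none) (D := D) (C := C) hκ hC hsum
    (fun i => ho τ hτ (fun i => (x i).1) (fun i => (x i).2) i)
    (fun s u hu => hG s u ⟨by rw [hu]; exact hx0, hu.le⟩) c1 c2 c3'
  refine key.trans (le_of_eq ?_)
  ring

/-- **joint integrability of one word** -/
theorem integrable_word {Z : Bool → Option O3 → ℂ → ℂ} {x0 κ q0 ρ0 : ℝ} (h : GoodQ P x0)
    (hx0 : x0 ≤ NUP1.l) (hP : ∀ r, Measurable (P.rad r)) (hZm : ∀ s k, Measurable (Z s k))
    (hκ : 0 < κ)
    (hρ0 : 0 < ρ0) (hρ : ∀ t, ρ0 ≤ P.rad (p + p') t) (hZ : DecZ Z P x0 κ q0) {n n' : ℕ}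
    (hq : (n : ℝ) - n' = q0) (K : Fin p → Kind) (K' : Fin p' → Kind) :
    Integrable (fun x : Fin p ⊕ Fin p' → ℝ × ℝ => fK Z P.jL NUP1.l n n' (d2 P (mk2 K K' x)))
      (Measure.pi fun _ => muE) := by
  obtain ⟨M, hM⟩ := word_bound h hx0 hκ hρ0 hρ hZ hq K K'
  have h1 : Integrable (fun y : ℝ × ℝ => Real.exp (-(κ * |y.1|))) muE := by
    have h0 : Integrable (fun t : ℝ => Real.exp (-(κ * |t|))) := by
      have := Bd.integrable_exp_neg_abs hκ
      simpa using this
    exact h0.comp_fst _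
  have h2 : Integrable (fun x : Fin p ⊕ Fin p' → ℝ × ℝ => ∏ i, Real.exp (-(κ * |(x i).1|)))
      (Measure.pi fun _ => muE) :=
    Integrable.fintype_prod (f := fun _ (y : ℝ × ℝ) => Real.exp (-(κ * |y.1|))) fun _ => h1
  refine (h2.const_mul M).mono' ?_ (Filter.Eventually.of_forall hM)
  have hm := measurable_fK (Y := Fin p ⊕ Fin p' → ℝ × ℝ) hZm P.jL NUP1.l n n'
      (ι := Fin p ⊕ Fin p') (fun i => el2 P i) (wd2 K K')
      (ρ := fun i x => P.rad (p + p') ((x i).1)) (t := fun i x => (x i).1)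
      (a := fun i x => (x i).2)
      (fun i => (hP _).comp (measurable_fst.comp (measurable_pi_apply i)))
      (fun i => measurable_fst.comp (measurable_pi_apply i))
      fun i => measurable_snd.comp (measurable_pi_apply i)
  exact hm.aestronglyMeasurable

end word

end PBC.PLX

end
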