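import Pool.Agent.PLX.Ns
import Pool.Agent.PLX.PB.ClsInt

/-!
# Plan B: the exact class formula on the final lines

`ZobjQ_eq`: the sum over the objects of `NURow.stage2Q` (first line `x0` of the quanta) is the
integral over the configurations of the complex weight times the gas of the quanta on `Re u = l`.
-/

set_option autoImplicit false
set_option linter.unusedSectionVars false

noncomputable section

open Complex MeasureTheory Finset
open scoped Real ENNReal

namespace PBC.PLX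

open NUP1 NUO NUP1S NUP1S.Mg NUP1S.Ab NUP1S.AbG NUP1S.AbC NURow
open NUP1.Bd (wt Ob)
open PBF.PLX (obK wK)

/-! ## merging, complex version -/

section merge
variable {K : Type} [Fintype K] [DecidableEq K]

open scoped Nat in
/-- **merging without symmetry**, `ℂ`, equality -/
theorem mergeRC (F : ∀ r : ℕ, (Fin r → Bool × K) → ℂ)
    (T : ∀ a p : ℕ, (Fin a → K) → (Fin p → K) → ℂ)
    (hFT : ∀ (r : ℕ) (s : Finset (Fin r)) (a p : ℕ) (ha : s.card = a) (hp : sᶜ.card = p)
      (kX : Fin a → K) (kY : Fin p → K),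
      F r (wd2 kX kY ∘ (finSumEquivOfFinset ha hp).symm) = T a p kX kY) (n n' : ℕ)
    (h0 : ∀ (a p : ℕ) (kX : Fin a → K) (kY : Fin p → K), n < a ∨ n' < p → T a p kX kY = 0) :
    ∑ p ∈ range (n' + 1), ∑ a ∈ range (n + 1), ((p ! : ℕ) : ℂ)⁻¹ * ((a ! : ℕ) : ℂ)⁻¹ *
      ∑ kX : Fin a → K, ∑ kY : Fin p → K, T a p kX kY =
    ∑ r ∈ range (n + n' + 1), ((r ! : ℕ) : ℂ)⁻¹ * ∑ k : Fin r → Bool × K, F r k := by
  set U : ℕ → ℕ → ℂ := fun a p => ((a ! : ℕ) : ℂ)⁻¹ * ((p ! : ℕ) : ℂ)⁻¹ *
    ∑ kX : Fin a → K, ∑ kY : Fin p → K, T a p kX kY with hU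
  have hU0 : ∀ a p, n < a ∨ n' < p → U a p = 0 := by
    intro a p h
    have : ∑ kX : Fin a → K, ∑ kY : Fin p → K, T a p kX kY = 0 :=
      sum_eq_zero fun kX _ => sum_eq_zero fun kY _ => h0 a p kX kY h
    rw [hU]
    simp only [this, mul_zero]
  have h4 : ∑ p ∈ range (n' + 1), ∑ a ∈ range (n + 1), ((p ! : ℕ) : ℂ)⁻¹ * ((a ! : ℕ) : ℂ)⁻¹ *
      ∑ kX : Fin a → K, ∑ kY : Fin p → K, T a p kX kY =
      ∑ x ∈ (range (n + 1) ×ˢ range (n' + 1)), U x.1 x.2 := by
    rw [sum_product, sum_comm]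
    refine sum_congr rfl fun a _ => sum_congr rfl fun p _ => ?_
    rw [hU, mul_comm (((p ! : ℕ) : ℂ)⁻¹)]
  have h5 : ∀ r ∈ range (n + n' + 1), ((r ! : ℕ) : ℂ)⁻¹ * ∑ k : Fin r → Bool × K, F r k =
      ∑ x ∈ antidiagonal r, U x.1 x.2 := fun r _ =>
    merge_fixR (fun r => ((r ! : ℕ) : ℂ)⁻¹) inv_factC r (F r) T (hFT r)
  rw [h4, sum_congr rfl h5, ← sum_fiberwise_of_maps_to (s := range (n + 1) ×ˢ range (n' + 1))
      (t := range (n + n' + 1)) (g := fun x => x.1 + x.2)]
  · refine sum_congr rfl fun r _ => ?_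
    refine sum_subset ?_ ?_
    · intro x hx
      rw [HasAntidiagonal.mem_antidiagonal]
      exact (mem_filter.1 hx).2
    · intro x hx hx2
      rw [HasAntidiagonal.mem_antidiagonal] at hx
      refine hU0 _ _ ?_
      by_contra hcon
      apply hx2
      rw [mem_filter, mem_product, mem_range, mem_range]
      omega
  · intro x hx
    rw [mem_product, mem_range, mem_range] at hx
    rw [mem_range]
    omega

end merge

/-! ## integrals over words -/

/-- heights and angles together -/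
theorem int_pair {ι : Type*} [Fintype ι] {F : (ι → ℝ × ℝ) → ℂ}
    (hF : Integrable F (Measure.pi fun _ => muE)) :
    (Integrable (fun t : ι → ℝ => ∫ θ : ι → ℝ, F (fun i => (t i, θ i))
      ∂(Measure.pi fun _ => volume.restrict (Set.Ioc (0 : ℝ) 1))) (Measure.pi fun _ => volume)) ∧
    ∫ t : ι → ℝ, ∫ θ : ι → ℝ, F (fun i => (t i, θ i))
      ∂(Measure.pi fun _ => volume.restrict (Set.Ioc (0 : ℝ) 1)) ∂(Measure.pi fun _ => volume) =
      ∫ x, F x ∂(Measure.pi fun _ => muE) := by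
  have mp := measurePreserving_arrowProdEquivProdArrow ℝ ℝ ι (fun _ => (volume : Measure ℝ))
    (fun _ => volume.restrict (Set.Ioc (0 : ℝ) 1))
  set G : (ι → ℝ) × (ι → ℝ) → ℂ := fun q => F fun i => (q.1 i, q.2 i) with hG
  have hG1 : Integrable G ((Measure.pi fun _ => (volume : Measure ℝ)).prod
      (Measure.pi fun _ => volume.restrict (Set.Ioc (0 : ℝ) 1))) := by
    rw [← mp.integrable_comp_emb (MeasurableEquiv.measurableEmbedding _)]
    exact hF
  refine ⟨hG1.integral_prod_left, ?_⟩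
  have h1 := mp.integral_comp' G
  rw [integral_prod _ hG1] at h1
  exact h1.symm

section main
variable {Z : Bool → Option O3 → ℂ → ℂ} {P : NUO.Par} {n n' : ℕ}

/-- words of the configurations and words of two families -/
theorem int_wordC {p p' : ℕ} {r : ℕ} (s : Finset (Fin r)) (ha : s.card = p)
    (hp : sᶜ.card = p') (K : Fin p → Kind) (K' : Fin p' → Kind) (y : ℝ) :
    ∫ x : Fin r → ℝ × ℝ, fK Z P.jL y n n'
      (dG P fun i => ((wd2 K K' ∘ (finSumEquivOfFinset ha hp).symm) i, x i))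
      ∂(Measure.pi fun _ => muE) =
    ∫ x : Fin p ⊕ Fin p' → ℝ × ℝ, fK Z P.jL y n n' (d2 P (mk2 K K' x))
      ∂(Measure.pi fun _ => muE) := by
  set e := finSumEquivOfFinset ha hp with he
  have h := measurePreserving_piCongrLeft (α := fun _ : Fin r => ℝ × ℝ) (fun _ : Fin r => muE) e
  have h2 := h.integral_comp'
    (fun x : Fin r → ℝ × ℝ => fK Z P.jL y n n' (dG P fun i => ((wd2 K K' ∘ e.symm) i, x i)))
  rw [← h2]
  refine integral_congr_ae (Filter.Eventually.of_forall fun x => ?_)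
  have hr : p + p' = r := by
    have := s.card_add_card_compl
    rw [ha, hp, Fintype.card_fin] at this
    exact this
  set O : Fin r → Xo := fun i => ((wd2 K K' ∘ e.symm) i,
    (MeasurableEquiv.piCongrLeft (fun _ : Fin r => ℝ × ℝ) e) x i) with hO
  have hOs : ∀ j, sp (O j) = true ↔ j ∈ s := by
    intro j
    obtain ⟨i, rfl⟩ := e.surjective j
    simp only [hO, Function.comp, e.symm_apply_apply]
    rcases i with i | i
    · simp only [wd2, Sum.elim_inl, true_iff]
      rw [he, finSumEquivOfFinset_inl]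
      exact orderEmbOfFin_mem s ha i
    · rw [he, finSumEquivOfFinset_inr]
      exact ⟨fun h => (Bool.false_ne_true h).elim, fun h =>
        absurd h (mem_compl.1 (orderEmbOfFin_mem sᶜ hp i))⟩
  have hrk : ∀ i, rk O (e i) = rkS i := by
    rintro (i | i)
    · exact rk_inl s ha hp O hOs i
    · exact rk_inr s ha hp O hOs i
  have hei : ∀ i, ei P O (e i) = el2 P i := by
    intro i
    unfold ei el2
    rw [hrk, hr]
  show fK Z P.jL y n n' (dG P O) = _
  rw [← fK_equiv Z P.jL y n n' e (dG P O)]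
  congr 1
  funext i
  unfold dG d2 rr
  rw [hei, hr]
  have h5 : O (e i) = mk2 K K' x i := by
    simp only [hO, Function.comp, e.symm_apply_apply]
    unfold mk2
    congr 1
    exact Equiv.piCongrLeft_apply_apply (fun _ : Fin r => ℝ × ℝ) e x i
  rw [h5]

/-- configurations = words and positions -/
theorem int_nu {r : ℕ} {F : (Fin r → Xo) → ℂ}
    (hF : ∀ K : Fin r → Bool × Kind, Integrable (fun x : Fin r → ℝ × ℝ => F fun i => (K i, x i))
      (Measure.pi fun _ => muE)) :
    ∫ O, F O ∂(Measure.pi fun _ => nu) =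
      ∑ K : Fin r → Bool × Kind, ∫ x : Fin r → ℝ × ℝ, F (fun i => (K i, x i))
        ∂(Measure.pi fun _ => muE) := by
  have h := measurePreserving_arrowProdEquivProdArrow (Bool × Kind) (ℝ × ℝ) (Fin r)
    (fun _ => (Measure.count : Measure (Bool × Kind))) (fun _ => muE)
  have h3 : ∫ O, F O ∂(Measure.pi fun _ => nu) =
      ∫ q : (Fin r → Bool × Kind) × (Fin r → ℝ × ℝ), F (fun i => (q.1 i, q.2 i))
        ∂((Measure.pi fun _ => (Measure.count : Measure (Bool × Kind))).prod
        (Measure.pi fun _ => muE)) := by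
    rw [← h.integral_comp']
    rfl
  rw [h3, pi_count]
  have h4 : (Measure.count : Measure (Fin r → Bool × Kind)).prod (Measure.pi fun _ => muE) =
      ∑ K : Fin r → Bool × Kind, (Measure.pi fun _ : Fin r => muE).map (Prod.mk K) := by
    rw [← Measure.sum_fintype]
    unfold Measure.count
    rw [Measure.prod_sum_left]
    congr 1
    funext K
    rw [Measure.dirac_prod]
  rw [h4, integral_finsetSum_measure]
  · refine Finset.sum_congr rfl fun K _ => ?_
    rw [(measurableEmbedding_prodMk_left K).integral_map]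
  · intro K _
    rw [(measurableEmbedding_prodMk_left K).integrable_map_iff]
    exact hF K

theorem qa_le {p p' : ℕ} (P : NUO.Par) (K : Fin p → Kind) (K' : Fin p' → Kind)
    (x : Fin p ⊕ Fin p' → ℝ × ℝ) :
    p ≤ qa (d2 P (mk2 K K' x)) true ∧ p' ≤ qa (d2 P (mk2 K K' x)) false := by
  unfold qa d2 mk2
  rw [Fintype.sum_sum_type, Fintype.sum_sum_type]
  constructor
  · have h1 : ∀ i : Fin p, 1 ≤ chg true (wd2 K K' (Sum.inl i), x (Sum.inl i)) := by
      intro i
      show 1 ≤ chg true ((true, K i), x (Sum.inl i))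
      unfold chg
      cases K i <;> simp
    calc p = ∑ _i : Fin p, 1 := by simp
      _ ≤ ∑ i : Fin p, chg true (wd2 K K' (Sum.inl i), x (Sum.inl i)) :=
          Finset.sum_le_sum fun i _ => h1 i
      _ ≤ _ := Nat.le_add_right _ _
  · have h1 : ∀ i : Fin p', 1 ≤ chg false (wd2 K K' (Sum.inr i), x (Sum.inr i)) := by
      intro i
      show 1 ≤ chg false ((false, K' i), x (Sum.inr i))
      unfold chg
      cases K' i <;> simp
    calc p' = ∑ _i : Fin p', 1 := by simp
      _ ≤ ∑ i : Fin p', chg false (wd2 K K' (Sum.inr i), x (Sum.inr i)) :=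
          Finset.sum_le_sum fun i _ => h1 i
      _ ≤ _ := Nat.le_add_left _ _

/-- **one term of `ZobjQ`** -/
theorem termQ_eq {x0 κ : ℝ} {q0 : ℤ} (h : GoodQ P x0) (hx0 : x0 ≤ NUP1.l)
    (hP : ∀ r, Measurable (P.rad r)) (hZm : ∀ s k, Measurable (Z s k)) (hκ : 0 < κ)
    (hρ : ∀ r, ∃ ρ0, 0 < ρ0 ∧ ∀ t, ρ0 ≤ P.rad r t)
    (hd : ∀ s, ∀ u : ℂ, x0 ≤ u.re → u.re ≤ NUP1.l → DifferentiableAt ℂ (Z s none) u)
    (hZ : DecZ Z P x0 κ q0) (hq : (n : ℤ) - n' = q0) {p p' : ℕ} (k : Fin p → O3)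
    (k' : Fin p' → O3) (hk : ∑ i, c3 (k i) ≤ n) (hk' : ∑ i, c3 (k' i) ≤ n') :
    termQ (Z true) (Z false) x0 n n' k k' (lX P p p' k k') (lY P p p' k k') =
      ∑ τ : Fin p ⊕ Fin p' → Fin 3, if ∀ i, τ i ≠ 0 → actO k k' i then
        ∫ x : Fin p ⊕ Fin p' → ℝ × ℝ, fK Z P.jL NUP1.l n n'
          (d2 P (mk2 (fun i => kdO (k i) (τ (Sum.inl i)))
            (fun i => kdO (k' i) (τ (Sum.inr i))) x)) ∂(Measure.pi fun _ => muE) else 0 := by
  obtain ⟨ρ0, hρ0, hρ'⟩ := hρ (p + p')
  have hqR : (n : ℝ) - n' = q0 := by exact_mod_cast hq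
  have hb : ∀ s, DecOn (κ + 2 * (sg s * q0 : ℤ)) (Set.Icc x0 NUP1.l) (Z s none) := by
    intro s
    have := hZ.A s
    have e : κ + 2 * (q0 : ℝ) * sc (s, Ob.A) = κ + 2 * ((sg s * q0 : ℤ) : ℝ) := by
      cases s <;> simp [sc, Bd.chg, sg]
    rwa [e] at this
  have hI : ∀ τ : Fin p ⊕ Fin p' → Fin 3, Integrable (fun x : Fin p ⊕ Fin p' → ℝ × ℝ =>
      fK Z P.jL NUP1.l n n' (d2 P (mk2 (fun i => kdO (k i) (τ (Sum.inl i)))
            (fun i => kdO (k' i) (τ (Sum.inr i))) x))) (Measure.pi fun _ => muE) := fun τ =>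
    integrable_word h hx0 hP hZm hκ hρ0 hρ' hZ hqR _ _
  have hterm : ∀ t : Fin p ⊕ Fin p' → ℝ,
      ((∏ i, wt (ob3 (k i))) * (∏ i, wt (ob3 (k' i)))) *
      (Fg (o3 k k') (h3 (Z true) (Z false) k k')
          (pos (Sum.elim (lX P p p' k k') (lY P p p' k k')) t) *
        gas (nA n k) (nA n' k') x0
          (fld (o3 k k') (pos (Sum.elim (lX P p p' k k') (lY P p p' k k')) t) (true, .A)
            (Z true none))
          (fld (o3 k k') (pos (Sum.elim (lX P p p' k k') (lY P p p' k k')) t) (false, .A)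
            (Z false none))) =
      ∑ τ : Fin p ⊕ Fin p' → Fin 3, if ∀ i, τ i ≠ 0 → actO k k' i then
        ∫ θ : Fin p ⊕ Fin p' → ℝ, fK Z P.jL NUP1.l n n'
          (d2 P (mk2 (fun i => kdO (k i) (τ (Sum.inl i)))
            (fun i => kdO (k' i) (τ (Sum.inr i))) fun i => (t i, θ i)))
          ∂(Measure.pi fun _ => volume.restrict (Set.Ioc (0 : ℝ) 1)) else 0 := by
    intro t
    rw [word_eq h hκ hq (fun s => hZm s none) hd hb hk hk' t]
    refine Finset.sum_congr rfl fun τ _ => ?_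
    by_cases hA : ∀ i, τ i ≠ 0 → actO k k' i
    swap
    · rw [if_neg hA, if_neg fun hh => hA hh.1]
    have e1 := fun θ : Fin p ⊕ Fin p' → ℝ => chg_true k k' τ hA (fun i => (t i, θ i))
    have e2 := fun θ : Fin p ⊕ Fin p' → ℝ => chg_false k k' τ hA (fun i => (t i, θ i))
    have q1 : ∀ θ : Fin p ⊕ Fin p' → ℝ, qa (d2 P (mk2 (fun i => kdO (k i) (τ (Sum.inl i)))
        (fun i => kdO (k' i) (τ (Sum.inr i))) fun i => (t i, θ i))) true =
        ∑ i, c3 (k i) + nsat (o3 k k') true τ := e1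
    have q2 : ∀ θ : Fin p ⊕ Fin p' → ℝ, qa (d2 P (mk2 (fun i => kdO (k i) (τ (Sum.inl i)))
        (fun i => kdO (k' i) (τ (Sum.inr i))) fun i => (t i, θ i))) false =
        ∑ i, c3 (k' i) + nsat (o3 k k') false τ := e2
    have hmk : ∀ θ : Fin p ⊕ Fin p' → ℝ, (mk2 (fun i => kdO (k i) (τ (Sum.inl i)))
        (fun i => kdO (k' i) (τ (Sum.inr i))) fun i => (t i, θ i)) = OO k k' τ t θ := by
      intro θ
      funext i
      rcases i with i | i <;> rfl
    rw [if_pos hA]
    by_cases hB : nsat (o3 k k') true τ ≤ nA n k ∧ nsat (o3 k k') false τ ≤ nA n' k'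
    · rw [if_pos ⟨hA, hB⟩]
      refine integral_congr_ae (Filter.Eventually.of_forall fun θ => ?_)
      unfold fK
      simp only [q1, q2]
      obtain ⟨h1, h2⟩ := hB
      unfold nA at h1 h2 ⊢
      rw [if_pos ⟨by omega, by omega⟩, Nat.sub_sub, Nat.sub_sub]
      have hpa : pa P.jL (d2 P (mk2 (fun i => kdO (k i) (τ (Sum.inl i)))
        (fun i => kdO (k' i) (τ (Sum.inr i))) fun i => (t i, θ i))) = fun i =>
          parts P.jL (elO P i) (P.rad (p + p') (t i)) (OO k k' τ t θ i) := by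
        rw [hmk]
        rfl
      have hob : (fun i => obK Z P.jL (d2 P (mk2 (fun i => kdO (k i) (τ (Sum.inl i)))
        (fun i => kdO (k' i) (τ (Sum.inr i))) fun i => (t i, θ i)) i).1
          (d2 P (mk2 (fun i => kdO (k i) (τ (Sum.inl i)))
        (fun i => kdO (k' i) (τ (Sum.inr i))) fun i => (t i, θ i)) i).2.1
          (d2 P (mk2 (fun i => kdO (k i) (τ (Sum.inl i)))
        (fun i => kdO (k' i) (τ (Sum.inr i))) fun i => (t i, θ i)) i).2.2) = fun i =>
          obK Z P.jL (elO P i) (P.rad (p + p') (t i)) (OO k k' τ t θ i) := by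
        rw [hmk]
        rfl
      rw [hpa, hob]
    · rw [if_neg fun hh => hB hh.2]
      symm
      rw [← integral_zero (α := Fin p ⊕ Fin p' → ℝ) (G := ℂ)
        (μ := Measure.pi fun _ => volume.restrict (Set.Ioc (0 : ℝ) 1))]
      refine integral_congr_ae (Filter.Eventually.of_forall fun θ => ?_)
      unfold fK
      simp only [q1, q2]
      rw [if_neg]
      intro hc
      apply hB
      unfold nA
      omega
  unfold termQ
  rw [← integral_const_mul]
  simp only [hterm]
  rw [integral_finsetSum]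
  · refine Finset.sum_congr rfl fun τ _ => ?_
    by_cases hA : ∀ i, τ i ≠ 0 → actO k k' i
    · simp only [if_pos hA]
      exact (int_pair (hI τ)).2
    · simp only [if_neg hA, integral_zero]
  · intro τ _
    by_cases hA : ∀ i, τ i ≠ 0 → actO k k' i
    · simp only [if_pos hA]
      exact (int_pair (hI τ)).1
    · simp only [if_neg hA]
      exact integrable_zero _ _ _

/-- **The exact class formula on the final lines.** -/
theorem ZobjQ_eq {x0 κ : ℝ} {q0 : ℤ} (h : GoodQ P x0) (hx0 : x0 ≤ NUP1.l)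
    (hP : ∀ r, Measurable (P.rad r)) (hZm : ∀ s k, Measurable (Z s k)) (hκ : 0 < κ)
    (hρ : ∀ r, ∃ ρ0, 0 < ρ0 ∧ ∀ t, ρ0 ≤ P.rad r t)
    (hd : ∀ s, ∀ u : ℂ, x0 ≤ u.re → u.re ≤ NUP1.l → DifferentiableAt ℂ (Z s none) u)
    (hZ : DecZ Z P x0 κ q0) (hq : (n : ℤ) - n' = q0) :
    AbC.ZobjQ (Z true) (Z false) x0 n n' (lX P) (lY P) =
      ∑ r ∈ range (n + n' + 1), ((r.factorial : ℕ) : ℂ)⁻¹ *
        ∫ O : Fin r → Xo, fK Z P.jL NUP1.l n n' (dG P O) ∂(Measure.pi fun _ => nu) := by
  have hqR : (n : ℝ) - n' = q0 := by exact_mod_cast hq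
  have hI : ∀ (p p' : ℕ) (K : Fin p → Kind) (K' : Fin p' → Kind),
      Integrable (fun x : Fin p ⊕ Fin p' → ℝ × ℝ => fK Z P.jL NUP1.l n n'
        (d2 P (mk2 K K' x))) (Measure.pi fun _ => muE) := by
    intro p p' K K'
    obtain ⟨ρ0, hρ0, hρ'⟩ := hρ (p + p')
    exact integrable_word h hx0 hP hZm hκ hρ0 hρ' hZ hqR K K'
  set T : ∀ a p : ℕ, (Fin a → Kind) → (Fin p → Kind) → ℂ := fun a p K K' =>
    ∫ x : Fin a ⊕ Fin p → ℝ × ℝ, fK Z P.jL NUP1.l n n' (d2 P (mk2 K K' x))
      ∂(Measure.pi fun _ => muE) with hT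
  have hT0 : ∀ (a p : ℕ) (K : Fin a → Kind) (K' : Fin p → Kind),
      (∀ x, ¬ (qa (d2 P (mk2 K K' x)) true ≤ n ∧ qa (d2 P (mk2 K K' x)) false ≤ n')) →
      T a p K K' = 0 := by
    intro a p K K' hx
    rw [hT]
    simp only
    rw [← integral_zero (α := Fin a ⊕ Fin p → ℝ × ℝ) (G := ℂ)
      (μ := Measure.pi fun _ => muE)]
    refine integral_congr_ae (Filter.Eventually.of_forall fun x => ?_)
    unfold fK
    simp only [if_neg (hx x)]
  have hmerge := mergeRC (K := Kind) (fun r k => ∫ x : Fin r → ℝ × ℝ,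
      fK Z P.jL NUP1.l n n' (dG P fun i => (k i, x i)) ∂(Measure.pi fun _ => muE)) T
    (fun r s a p ha hp kX kY => int_wordC s ha hp kX kY NUP1.l) n n' (fun a p K K' hap => by
      refine hT0 a p K K' fun x hx => ?_
      obtain ⟨h1, h2⟩ := qa_le P K K' x
      rcases hap with hap | hap
      · exact absurd (h1.trans hx.1) (not_le.2 hap)
      · exact absurd (h2.trans hx.2) (not_le.2 hap))
  unfold AbC.ZobjQ
  have hnu : ∀ r : ℕ, ∫ O : Fin r → Xo, fK Z P.jL NUP1.l n n' (dG P O)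
      ∂(Measure.pi fun _ => nu) = ∑ K : Fin r → Bool × Kind, ∫ x : Fin r → ℝ × ℝ,
        fK Z P.jL NUP1.l n n' (dG P fun i => (K i, x i)) ∂(Measure.pi fun _ => muE) := by
    intro r
    refine int_nu (F := fun O => fK Z P.jL NUP1.l n n' (dG P O)) fun K => ?_
    set s : Finset (Fin r) := univ.filter fun j => (K j).1 = true with hs
    set e := finSumEquivOfFinset (rfl : s.card = s.card) (rfl : sᶜ.card = sᶜ.card) with he
    have hw : K = wd2 (fun i => (K (e (Sum.inl i))).2) (fun i => (K (e (Sum.inr i))).2) ∘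
        e.symm := by
      funext j
      obtain ⟨i, rfl⟩ := e.surjective j
      simp only [Function.comp, e.symm_apply_apply]
      rcases i with i | i
      · simp only [wd2, Sum.elim_inl]
        refine Prod.ext ?_ rfl
        have : e (Sum.inl i) ∈ s := by
          rw [he, finSumEquivOfFinset_inl]
          exact orderEmbOfFin_mem s rfl i
        exact (Finset.mem_filter.1 this).2
      · simp only [wd2, Sum.elim_inr]
        refine Prod.ext ?_ rfl
        have : e (Sum.inr i) ∈ sᶜ := by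
          rw [he, finSumEquivOfFinset_inr]
          exact orderEmbOfFin_mem sᶜ rfl i
        rw [Finset.mem_compl] at this
        have h1 : ¬ (K (e (Sum.inr i))).1 = true := fun h =>
          this (Finset.mem_filter.2 ⟨Finset.mem_univ _, h⟩)
        simpa using h1
    have h2 := measurePreserving_piCongrLeft (α := fun _ : Fin r => ℝ × ℝ)
      (fun _ : Fin r => muE) e
    rw [← h2.integrable_comp_emb (MeasurableEquiv.measurableEmbedding _)]
    refine (hI s.card sᶜ.card (fun i => (K (e (Sum.inl i))).2)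
      (fun i => (K (e (Sum.inr i))).2)).congr (Filter.Eventually.of_forall fun x => ?_)
    have hr : s.card + sᶜ.card = r := by
      have := s.card_add_card_compl
      rwa [Fintype.card_fin] at this
    set O : Fin r → Xo := fun i => (K i,
      (MeasurableEquiv.piCongrLeft (fun _ : Fin r => ℝ × ℝ) e) x i) with hO
    have hOs : ∀ j, sp (O j) = true ↔ j ∈ s := by
      intro j
      rw [hs, Finset.mem_filter]
      simp only [hO, Finset.mem_univ, true_and]
    have hrk : ∀ i, rk O (e i) = rkS i := by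
      rintro (i | i)
      · exact rk_inl s rfl rfl O hOs i
      · exact rk_inr s rfl rfl O hOs i
    have hei : ∀ i, ei P O (e i) = el2 P i := by
      intro i
      unfold ei el2
      rw [hrk, hr]
    show fK Z P.jL NUP1.l n n' (d2 P (mk2 (fun i => (K (e (Sum.inl i))).2)
        (fun i => (K (e (Sum.inr i))).2) x)) = fK Z P.jL NUP1.l n n' (dG P O)
    rw [← fK_equiv Z P.jL NUP1.l n n' e (dG P O)]
    congr 1
    funext i
    unfold dG d2 rr
    rw [hei, hr]
    have h5 : O (e i) = mk2 (fun i => (K (e (Sum.inl i))).2)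
        (fun i => (K (e (Sum.inr i))).2) x i := by
      have h6 := congrFun hw (e i)
      simp only [Function.comp, e.symm_apply_apply] at h6
      simp only [hO]
      unfold mk2
      rw [h6]
      congr 1
      exact Equiv.piCongrLeft_apply_apply (fun _ : Fin r => ℝ × ℝ) e x i
    rw [h5]
  simp only [hnu]
  rw [← hmerge]
  refine Finset.sum_congr rfl fun p' _ => Finset.sum_congr rfl fun p _ => ?_
  congr 1
  rw [← sum_kdO_two (fun K K' => T p p' K K')]
  refine Finset.sum_congr rfl fun k' _ => Finset.sum_congr rfl fun k _ => ?_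
  by_cases hc : ∑ i, c3 (k' i) ≤ n' ∧ ∑ i, c3 (k i) ≤ n
  · rw [if_pos hc]
    exact termQ_eq h hx0 hP hZm hκ hρ hd hZ hq k k' hc.2 hc.1
  · rw [if_neg hc]
    symm
    refine Finset.sum_eq_zero fun τ _ => ?_
    split_ifs with hA
    · refine hT0 _ _ _ _ fun x hx => hc ?_
      have e1 := chg_true k k' τ hA x
      have e2 := chg_false k k' τ hA x
      have q1 : qa (d2 P (mk2 (fun i => kdO (k i) (τ (Sum.inl i)))
        (fun i => kdO (k' i) (τ (Sum.inr i))) x)) true =
        ∑ i, c3 (k i) + nsat (o3 k k') true τ := e1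
      have q2 : qa (d2 P (mk2 (fun i => kdO (k i) (τ (Sum.inl i)))
        (fun i => kdO (k' i) (τ (Sum.inr i))) x)) false =
        ∑ i, c3 (k' i) + nsat (o3 k k') false τ := e2
      rw [q1, q2] at hx
      omega
    · rfl

/-- the same for `NURow.ZobjQ` -/
theorem ZobjQ_eq' {x0 κ : ℝ} {q0 : ℤ} (h : GoodQ P x0) (hx0 : x0 ≤ NUP1.l)
    (hP : ∀ r, Measurable (P.rad r)) (hZm : ∀ s k, Measurable (Z s k)) (hκ : 0 < κ)
    (hρ : ∀ r, ∃ ρ0, 0 < ρ0 ∧ ∀ t, ρ0 ≤ P.rad r t)
    (hd : ∀ s, ∀ u : ℂ, x0 ≤ u.re → u.re ≤ NUP1.l → DifferentiableAt ℂ (Z s none) u)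
    (hZ : DecZ Z P x0 κ q0) (hq : (n : ℤ) - n' = q0) :
    NURow.ZobjQ (Z true) (Z false) x0 n n' (lX P) (lY P) =
      ∑ r ∈ range (n + n' + 1), ((r.factorial : ℕ) : ℂ)⁻¹ *
        ∫ O : Fin r → Xo, fK Z P.jL NUP1.l n n' (dG P O) ∂(Measure.pi fun _ => nu) :=
  ZobjQ_eq h hx0 hP hZm hκ hρ hd hZ hq

/-- `fK` of a configuration in the notation of `PB/FDef` -/
theorem fK_dG {r : ℕ} (O : Fin r → Xo) : fK Z P.jL NUP1.l n n' (dG P O) =
    if chgO O true ≤ n ∧ chgO O false ≤ n' then
      wK Z P O * gas (n - chgO O true) (n' - chgO O false) NUP1.l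
        (fun z => Z true none z * potC P O true z) (fun z => Z false none z * potC P O false z)
    else 0 := rfl

end main

end PBC.PLX

end
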