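import Pool.Agent.PLX.Ns
import Pool.Agent.PLX.PB.ClsEq
import Pool.Agent.PLX.PB.ClsCrv

/-!
# Plan B, module Cls: the sum over the objects on their final lines is the functional of `PB/FDef`

* `FF_one`: `ZobjQ .. = PBF.FF Z P n n' η η' 1`, for every family of admissible curves;
* `FF_oneC`: the same with the hypotheses on the quanta taken from `OneC`, curves `CurB ep`;
* `FF_crv`: the functional without insertion does not depend on the curves.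
-/

set_option autoImplicit false
set_option linter.unusedSectionVars false

noncomputable section

open Complex MeasureTheory Finset

open PLX (Fil)

namespace PBC.PLX

open NUO NUP1 NUCR NUP1S NUP1S.Ab NUP1S.AbC NUP1S.AbG NUGC NUGC.PLX PBF PBF.PLX

variable [Fil] {Z : Bool → Option O3 → ℂ → ℂ} {P : NUO.Par} {n n' : ℕ}

/-- the functional without insertion as the sum of the terms `fK` -/
theorem FF_fK {δ κ : ℝ} {Q : ℤ} (h : QOk Z δ κ Q) (hP : GoodP P) (hδ0 : 0 ≤ δ) (hδ : δ ≤ 1 / 20)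
    (hj : P.jL + δ < 3) {η η' : Crs}
    (hη : ∀ r ≤ n + n', ∀ᵐ O ∂(Measure.pi fun _ : Fin r => nu), CrvR δ (η r O) (η' r O))
    (hn : (n : ℤ) - n' = Q) :
    PBF.PLX.FF Z P n n' η η' (fun _ _ _ _ _ => 1) =
      ∑ r ∈ range (n + n' + 1), ((r.factorial : ℕ) : ℂ)⁻¹ *
        ∫ O : Fin r → Xo, fK Z P.jL NUP1.l n n' (dG P O) ∂(Measure.pi fun _ => nu) := by
  unfold PBF.PLX.FF
  refine Finset.sum_congr rfl fun r hr => ?_
  congr 1
  refine integral_congr_ae ?_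
  filter_upwards [hη r (Nat.lt_succ_iff.1 (Finset.mem_range.1 hr))] with O hO
  rw [trm_one h hP hδ0 hδ hj O hO hn, fK_dG]

/-- **The functional without insertion does not depend on the curves.** -/
theorem FF_crv {δ κ : ℝ} {Q : ℤ} (h : QOk Z δ κ Q) (hP : GoodP P) (hδ0 : 0 ≤ δ) (hδ : δ ≤ 1 / 20)
    (hj : P.jL + δ < 3) {η η' ζ ζ' : Crs}
    (hη : ∀ r ≤ n + n', ∀ᵐ O ∂(Measure.pi fun _ : Fin r => nu), CrvR δ (η r O) (η' r O))
    (hζ : ∀ r ≤ n + n', ∀ᵐ O ∂(Measure.pi fun _ : Fin r => nu), CrvR δ (ζ r O) (ζ' r O))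
    (hn : (n : ℤ) - n' = Q) :
    PBF.PLX.FF Z P n n' η η' (fun _ _ _ _ _ => 1) = PBF.PLX.FF Z P n n' ζ ζ' (fun _ _ _ _ _ => 1) := by
  rw [FF_fK h hP hδ0 hδ hj hη hn, FF_fK h hP hδ0 hδ hj hζ hn]

/-- **The sum over the objects on their final lines is the functional**, for every family of
admissible curves. -/
theorem FF_one {x0 κ κ' δ : ℝ} {Q : ℤ} (h : GoodQ P x0) (hx0 : x0 ≤ NUP1.l)
    (hP : ∀ r, Measurable (P.rad r)) (hZm : ∀ s k, Measurable (Z s k)) (hκ : 0 < κ)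
    (hρ : ∀ r, ∃ ρ0, 0 < ρ0 ∧ ∀ t, ρ0 ≤ P.rad r t)
    (hd : ∀ s, ∀ u : ℂ, x0 ≤ u.re → u.re ≤ NUP1.l → DifferentiableAt ℂ (Z s none) u)
    (hZ : DecZ Z P x0 κ Q) (hn : (n : ℤ) - n' = Q) (hQ : QOk Z δ κ' Q) (hδ0 : 0 ≤ δ)
    (hδ : δ ≤ 1 / 20) (hj : P.jL + δ < 3) {η η' : Crs}
    (hη : ∀ r ≤ n + n', ∀ᵐ O ∂(Measure.pi fun _ : Fin r => nu), CrvR δ (η r O) (η' r O)) :
    NURow.ZobjQ (Z true) (Z false) x0 n n' (lX P) (lY P) =
      PBF.PLX.FF Z P n n' η η' (fun _ _ _ _ _ => 1) := by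
  rw [FF_fK hQ h.toGoodP hδ0 hδ hj hη hn]
  exact ZobjQ_eq' h hx0 hP hZm hκ hρ hd hZ hn

/-- the same with the data of the quanta from `OneC`, curves `CurB ep` -/
theorem FF_oneC {B : OB} {ep x0 κ κ' : ℝ} {Q : ℤ} {E : Set ℝ} (h : OneC Z B P ep κ' x0 Q E)
    (hG : GoodQ P x0) (hep0 : 0 < ep) (hep : ep ≤ 1 / 100) (hj : P.jL + ep / 4 < 3)
    (hP : ∀ r, Measurable (P.rad r)) (hκ : 0 < κ) (hρ : ∀ r, ∃ ρ0, 0 < ρ0 ∧ ∀ t, ρ0 ≤ P.rad r t)
    (hZ : DecZ Z P x0 κ Q) (hn : (n : ℤ) - n' = Q) {η η' : Crs}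
    (hη : ∀ r ≤ n + n', ∀ᵐ O ∂(Measure.pi fun _ : Fin r => nu), CurB ep (η r O) (η' r O)) :
    NURow.ZobjQ (Z true) (Z false) x0 n n' (lX P) (lY P) =
      PBF.PLX.FF Z P n n' η η' (fun _ _ _ _ _ => 1) := by
  have hl := Bd.l_pos
  refine FF_one hG ?_ hP h.meas hκ hρ (fun s u h1 h2 => h.dA s u h1 (h2.trans ?_)) hZ hn
    (QOk.of_oneC h) (by linarith) (by linarith) hj fun r hr => ?_
  · linarith [h.x1]
  · nlinarith
  · filter_upwards [hη r hr] with O hO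
    exact crvR_of hep0 hep hO

end PBC.PLX

end
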