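import Pool.Agent.PLX.Ns
import Pool.Agent.PLX.PB.ClsR40
import Pool.Agent.PLX.PB.ClsCrv

/-!
# Classes without poles: `OneC` at fixed half quanta, any base

`oneC_flatB`: the one body functions of two half quanta without poles at fixed positions;
`oneC_WW`: both half quanta of type W; `cFWW_Z`: the integrand of the class W W.
-/

set_option autoImplicit false
set_option linter.unusedSectionVars false

noncomputable section

open Complex MeasureTheory Finset
open scoped ENNReal

namespace PBR.PLX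

open NUO NUP1 NUCR NUP1S NUP1S.Ab NUP1S.AbC NUP1S.AbG NURow NUP1.Leg NUGC NUGC.PLX

variable {X : Bool → Option O3 → ℂ → ℂ} {ob : (Bool → ℂ → ℝ) → OB} {P : NUO.Par} {x κ : ℝ}
  {e : ℕ} {E0 : Set ℝ} {q q' p p' : ℝ} {F F' : Bool → Option O3 → ℂ → ℂ} {T T' : Bool → ℂ → ℂ} {w w' : ℂ}

theorem sG_eq_tG (hF : HG false q p F T) (hF' : HG false q' p' F' T') :
    tG T T' w w' = sG F F' w w' := by
  funext a u
  unfold tG sG
  rw [hF.eq, hF'.eq]
  simp

/-- **`OneC` of two half quanta without poles at fixed positions, any base** -/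
theorem oneC_flatB (hB : Bs X ob P x κ e E0) (hF : HG false q p F T) (hF' : HG false q' p' F' T')
    (hw : w.re = p) (hw' : w'.re = p') {aX aY : ℕ} (hq : q' - q = 2 * ((aX : ℝ) + e - aY))
    {x0 : ℝ}
    (h0 : 3 / 5 * l ≤ x0) (h1 : x0 ≤ 19 / 20 * l) :
    OneC (fun a => XS a (X a) F (fl F') w w') (ob fun a z => ‖sG F F' w w' a z‖) P x κ x0
      ((aX : ℤ) - aY) ({w.im, w'.im} ∪ E0) := by
  have hl := l_pos
  have hms : ∀ a, Measurable (s2G F F' w w' a) := fun a =>
    ((hF.ms a _).comp (measurable_const.sub measurable_id)).mul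
      ((hF'.ms (!a) _).comp (measurable_const.sub measurable_id))
  have hm1 : ∀ a, Measurable (sG F F' w w' a) := fun a =>
    ((hF.ms a _).comp (measurable_const.sub measurable_id)).mul
      ((hF'.ms (!a) _).comp (measurable_const.sub measurable_id))
  have hsub : Set.Icc x0 (21 / 20 * l) ⊆ Set.Icc (3 / 5 * l) (21 / 20 * l) := fun y hy =>
    ⟨h0.trans hy.1, hy.2⟩
  have hq' : q' - q = 2 * (((aX + e : ℕ) : ℝ) - aY) := by
    rw [hq]; push_cast; ring
  have hSp : ∀ a, SpecAt x0 a ((((aX + e : ℕ) : ℤ) - aY : ℤ) : ℝ) (sG F F' w w' a) := by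
    intro a
    have h := specP_two (w := w) (w' := w') hF hF' hw hw' hq' a
    rw [← sG_eq_tG hF hF']
    refine ⟨(Bdd.mono_set h.bd hsub).rate ?_, fun z hz => h.df z (hsub hz)⟩
    rw [cE_eps]
    simp
  have hSS : ∀ a, SpecS P {w.im, w'.im} (sG F F' w w' a) (s2G F F' w w' a) := by
    intro a
    have h := specS_two (P := P) (w := w) (w' := w') hF hF' a
    have e' : (fun u => tG T T' w w' a u / dX (esE (b := false) (b' := false)) (epE w w') a u) =
        sG F F' w w' a := by
      funext u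
      exact tG_div hF hF' a u
    rw [e'] at h
    exact h
  have key := hB.one x0 h0 h1 (((aX + e : ℕ) : ℤ) - aY) (sG F F' w w') (s2G F F' w w') {w.im, w'.im} hm1 hms
    hSp hSS ((Set.toFinite _).measure_zero _)
  have e' : (fun a => spX (X a) (sG F F' w w' a) (s2G F F' w w' a)) =
      fun a => XS a (X a) F (fl F') w w' := by
    funext a
    exact spX_XS a (X a) (S := F) (S' := fl F') (hF.kL a) (hF.kT a) (hF'.kL _) (hF'.kT _) w w'
  have eq1 : (((aX + e : ℕ) : ℤ) - aY - e : ℤ) = (aX : ℤ) - aY := by push_cast; ring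
  rw [e', eq1] at key
  exact key

/-- the functions of the class W W at fixed half quanta -/
def ZW (X : Bool → Option O3 → ℂ → ℂ) (w w' : ℂ) (a : Bool) : Option O3 → ℂ → ℂ :=
  XS a (X a) SF (fl SF) w w'

end PBR.PLX

end
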