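import Pool.Agent.PLX.Ns
import Pool.Agent.PLX.PB.BsX
import Pool.Agent.PLX.Rg1
import Pool.Agent.PLX.PB.Top0
import Pool.Agent.PLX.PB.FlatOne

/-!
# The base of the regular function (PLAX: groups of sizes `(m, M)`, rows `(x | x^q)`)

* `RCo D ex ex0 c0`: data `D : RU m M` with the cutoff corrections of the lists `ex a`, `ex0 a` and constants of modulus `c0`;
  `xrU D a`: the rows of the species `a`; `obRU`: one body data; **`bs_RU`**: `Bs (XB D.X D.Y) (obRU ..) P ep (2 β) e`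
  for `M = m + e`;
* `REq D ex ex0 c0`: `D : RU m (Fil.q * m)` with rows `(x | x^q)`; `obR`: one body data; **`bs_RD`**:
  `Bs (XB D.X D.Y) (obR ..) P ep (2 β) (Fil.xn m)`;
* `RZW D w w'`: the class functions, W W.
-/

set_option autoImplicit false
set_option linter.unusedSectionVars false

noncomputable section

open Complex MeasureTheory Finset
open scoped ENNReal
open PLX (Fil)

namespace PBR.PLX

open NUO NUP1 NUCR NUP1S NUP1S.Ab NUP1S.AbC NUP1S.AbG NURow NUGC NUGC.PLX PBX PBX.PLX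
open NUP1.Leg (thE Ck Dk)
open _root_.Pool.Agent.PLX

/-! ## any numbers of rows -/

/-- the rows of the species -/
def xrU {m M : ℕ} (D : RU m M) : ∀ a : Bool, Fin (cond a m M) → ℂ
  | true => D.x
  | false => D.y

theorem xrU_Rws {m M : ℕ} {D : RU m M} (H : D.Ok) (a : Bool) : Rws (xrU D a) := by
  cases a
  · exact H.hy
  · exact H.hx

/-- cutoff corrections from lists, constants of modulus `c0` -/
structure RCo {m M : ℕ} (D : RU m M) (ex ex0 : Bool → List ℂ) (c0 : ℝ) : Prop where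
  g : D.g = gP D.β (ex true)
  g' : D.g' = gP D.β (ex false)
  g0 : D.g0 = gP (4 / 3) (ex0 true)
  g0' : D.g0' = gP (4 / 3) (ex0 false)
  c : ‖D.c‖ = c0
  c' : ‖D.c'‖ = c0
  hex : ∀ a, ∀ w ∈ ex a, |w.re| ≤ l / 2

/-- one body data, spectators `g` -/
def obRU {m M : ℕ} (D : RU m M) (ex ex0 : Bool → List ℂ) (c0 : ℝ) (g : Bool → ℂ → ℝ) : OB :=
  obU c0 D.β (xrU D) ex ex0 fun a u => ‖thE D.p D.p D.q D.q u‖ * g a u

/-- **The base of the regular function, `M = m + e`.** -/
theorem bs_RU {m M e : ℕ} (hM : M = m + e) {D : RU m M} (H : D.Ok) {ex ex0 : Bool → List ℂ} {c0 : ℝ}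
    (h : RCo D ex ex0 c0) {P : NUO.Par} {ep : ℝ} (hP : ParC P) (hep0 : 0 < ep) (hep : ep ≤ 1 / 100) :
    Bs (XB D.X D.Y) (obRU D ex ex0 c0) P ep (2 * D.β) e (⋃ a, Set.range fun i => (xrU D a i).im) := by
  have hc : ∀ a : Bool, ‖cond a D.c D.c'‖ = c0 := by
    intro a
    cases a
    · exact h.c'
    · exact h.c
  refine (bs_endsU (N := fun a => cond a m M) (xr := xrU D) (c := fun a => cond a D.c D.c') (ex0 := ex0) hM hP hep0 hep
    H.b0 H.b1 (xrU_Rws H) h.hex hc H.hp H.hq).congr (fun a k u => ?_) fun g => rfl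
  cases a
  · show XXU D.c' D.β D.y D.x (gP D.β (ex false)) (gP (4 / 3) (ex0 false)) (thE D.p D.p D.q D.q)
        (fun w => thE D.p D.p D.q D.q w * thE D.p D.p D.q D.q (w - l)) k u = D.Y k u
    unfold RU.Y thS
    rw [h.g', h.g0', thE_symm D.q D.p]
  · show XXU D.c D.β D.x D.y (gP D.β (ex true)) (gP (4 / 3) (ex0 true)) (thE D.p D.p D.q D.q)
        (fun w => thE D.p D.p D.q D.q w * thE D.p D.p D.q D.q (w - l)) k u = D.X k u
    unfold RU.X thS
    rw [h.g, h.g0]

/-- the class functions of the regular function, W W -/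
def RZW {m M : ℕ} (D : RU m M) (w w' : ℂ) : Bool → Option O3 → ℂ → ℂ := ZW (XB D.X D.Y) w w'

/-! ## rows `(x | x^q)` -/

section fil

variable [Fil] {m : ℕ}

/-- rows `(x | x^q)`, cutoff corrections from lists -/
structure REq (D : RU m (Fil.q * m)) (ex ex0 : Bool → List ℂ) (c0 : ℝ) : Prop extends RCo D ex ex0 c0 where
  xy : D.y = yq D.x

theorem REq.xr {D : RU m (Fil.q * m)} {ex ex0 : Bool → List ℂ} {c0 : ℝ} (h : REq D ex ex0 c0) (a : Bool) :
    xrU D a = rwq D.x a := by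
  cases a
  · exact h.xy
  · rfl

/-- **one body data of the regular function**, spectators `g` -/
def obR (D : RU m (Fil.q * m)) (ex ex0 : Bool → List ℂ) (c0 : ℝ) (g : Bool → ℂ → ℝ) : OB :=
  obX c0 D.β D.x ex ex0 fun a u => ‖thE D.p D.p D.q D.q u‖ * g a u

theorem REq.ob {D : RU m (Fil.q * m)} {ex ex0 : Bool → List ℂ} {c0 : ℝ} (h : REq D ex ex0 c0)
    (g : Bool → ℂ → ℝ) : obRU D ex ex0 c0 g = obR D ex ex0 c0 g := by
  unfold obRU obR
  rw [← obU_rwq]
  congr 1
  funext a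
  exact h.xr a

/-- **The base of the regular function, rows `(x | x^q)`.** -/
theorem bs_RD {D : RU m (Fil.q * m)} (H : D.Ok) {ex ex0 : Bool → List ℂ} {c0 : ℝ} (h : REq D ex ex0 c0)
    {P : NUO.Par} {ep : ℝ} (hP : ParC P) (hep0 : 0 < ep) (hep : ep ≤ 1 / 100) :
    Bs (XB D.X D.Y) (obR D ex ex0 c0) P ep (2 * D.β) (Fil.xn m) (Set.range fun i => (D.x i).im) := by
  have h1 := bs_RU (e := Fil.xn m) (Fil.add_xn m).symm H h.toRCo hP hep0 hep
  have e1 : (⋃ a : Bool, Set.range fun i => (xrU D a i).im) = Set.range fun i => (D.x i).im := by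
    rw [← iUnion_range_rwq D.x]
    congr 1
    funext a
    rw [h.xr a]
  rw [e1] at h1
  exact h1.congr (fun _ _ _ => rfl) fun g => h.ob g

end fil

end PBR.PLX

end
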