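import Pool.Agent.PLX.Ns
import Pool.Agent.PLX.PB.FlatOne
import Pool.Agent.PLX.PB.ClsFF

/-!
# The class W W as the functional of `PB/FDef`, two numbers of rows

* `lnS P k`: real parts of the lines of the kinds; `HLn q p S`: spectators of a half quantum on these
  lines; `HLn_W`, `HLn_of`;
* `decZ_flat`: decay of the functions of a class without poles;
* **`flat_FF`**: the sum over the objects of a class without poles at fixed half quanta `=` the
  functional `PBF.PLX.FF` without insertion, numbers `n + aX`, `n + aY`, any base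
  `Bs X ob P x κ e E0`; **`WW_FF`** the same for W W, numbers `n`, `n + e`.
-/

set_option autoImplicit false
set_option linter.unusedSectionVars false

noncomputable section

open Complex MeasureTheory Finset
open scoped ENNReal

open PLX (Fil)

namespace PBR.PLX

open NUO NUP1 NUCR NUP1S NUP1S.Ab NUP1S.AbC NUP1S.AbG NURow NUGC NUGC.PLX PBC PBC.PLX PBF PBF.PLX

theorem DecOn.mulB {κ s κ' : ℝ} {K : Set ℝ} {f g : ℂ → ℂ} (hf : DecOn κ K f) (hg : Bdd K s g)
    (h : κ' ≤ κ - s) : DecOn κ' K fun z => f z * g z := by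
  obtain ⟨D, hD⟩ := hf
  obtain ⟨C, hC, hb⟩ := hg
  refine ⟨|D| * C, fun z hz => ?_⟩
  have h1 : ‖f z‖ ≤ |D| * Real.exp (-(κ * |z.im|)) :=
    (hD z hz).trans (mul_le_mul_of_nonneg_right (le_abs_self _) (Real.exp_pos _).le)
  rw [norm_mul]
  calc ‖f z‖ * ‖g z‖ ≤ (|D| * Real.exp (-(κ * |z.im|))) * (C * Real.exp (s * |z.im|)) :=
        mul_le_mul h1 (hb z hz) (norm_nonneg _) (by positivity)
    _ = |D| * C * Real.exp (-(κ * |z.im|) + s * |z.im|) := by
        rw [Real.exp_add]
        ring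
    _ ≤ _ := by
        refine mul_le_mul_of_nonneg_left (Real.exp_le_exp.2 ?_) (by positivity)
        nlinarith [abs_nonneg z.im]

theorem decOn_sub {κ κ' : ℝ} {K K' : Set ℝ} {f : ℂ → ℂ} (h : DecOn κ K f) (hK : K' ⊆ K)
    (e : κ = κ') : DecOn κ' K' f := by
  obtain ⟨D, hD⟩ := h
  rw [← e]
  exact ⟨D, fun z hz => hD z (hK hz)⟩

/-- real parts of the lines of the kinds -/
def lnS (P : NUO.Par) : Option O3 → Set ℝ
  | none => Set.Icc (3 / 5 * l) l
  | some .L => {(1 - P.jL) * l}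
  | some .T => {-(1 / 2 * l)}
  | some .S => Set.Icc (-(13 / 10 * l)) (-(11 / 10 * l))

theorem lnO_S_mem {P : NUO.Par} (hP : ParC P) {r i : ℕ} (hi : i < r) :
    lnO P r i .S ∈ lnS P (some .S) := by
  have hl := l_pos
  have hr : (0 : ℝ) < r := by exact_mod_cast (Nat.zero_le i).trans_lt hi
  have g0 : (0 : ℝ) ≤ (i : ℝ) / r := by positivity
  have g1 : (i : ℝ) / r ≤ 1 := by
    rw [div_le_one hr]
    exact_mod_cast hi.le
  have e1 := hP.e1
  have d0 := hP.d0 r
  have e2 := hP.e2 r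
  have k1 : P.d r * ((i : ℝ) / r) ≤ P.d r := by nlinarith
  have k2 : 0 ≤ P.d r * ((i : ℝ) / r) := by positivity
  simp only [lnO, lnS]
  constructor <;> nlinarith

/-- the lines are in the strips of the kinds -/
theorem lnS_sub {P : NUO.Par} (hP : ParC P) (k : Option O3) :
    lnS P k ⊆ Set.Icc (loK k) (hiK k) := by
  have hl := l_pos
  have j1 := hP.j1
  have j2 := hP.j2
  intro x hx
  rcases k with _ | (_ | _ | _) <;> simp only [lnS, loK, hiK, Set.mem_Icc, Set.mem_singleton_iff] at hx ⊢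
  · exact ⟨hx.1, by linarith [hx.2]⟩
  · subst hx
    constructor <;> nlinarith
  · exact ⟨hx.1, by linarith [hx.2]⟩
  · subst hx
    constructor <;> linarith

/-- **spectators of a half quantum at `Re = p` on the lines of the kinds**, rate `q` -/
structure HLn (q p : ℝ) (S : Sp) : Prop where
  bd : ∀ (P : NUO.Par), ParC P → ∀ (c : Bool) (k : Option O3) (w : ℂ), w.re = p →
    Bdd (lnS P k) (q * sc (c, ob4 k)) fun u => S c k (w - u)

theorem HLn_of {cw q p : ℝ} {S : Sp} (h : HQ cw p S) (hq : q = 2 * cw) : HLn q p S := by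
  refine ⟨fun P hP c k w hw => ?_⟩
  have h1 := (h.pb c k).one w (K := lnS P k) fun x hx => by
    have := lnS_sub hP k hx
    rw [hw]
    exact ⟨by linarith [this.2], by linarith [this.1]⟩
  rw [hq]
  exact h1.1

theorem HLn_W : HLn 1 (5 / 4 * l) SF := by
  have hl := l_pos
  refine ⟨fun P hP c k w hw => ?_⟩
  have j1 := hP.j1
  have j2 := hP.j2
  obtain ⟨K', hK', hc⟩ : ∃ K' : Set ℝ, (∀ x ∈ lnS P k, w.re - x ∈ K') ∧
      PB (sc (c, ob4 k)) K' (SF c k) := by
    rcases k with _ | (_ | _ | _)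
    · refine ⟨Set.Icc (1 / 4 * l) (13 / 20 * l), fun x hx => ?_,
        PB_SF_of isCompact_Icc c none (fun _ _ d hd => ?_) (fun _ _ d hd => ⟨?_, ?_⟩)
          (fun _ h => ?_)⟩
      · rw [hw]
        exact ⟨by linarith [hx.2], by linarith [hx.1]⟩
      · exact NURow.sin_ne_pos (by linarith [hd.1]) (by linarith [hd.2])
      · exact NURow.sin_ne_pos (by linarith [hd.1]) (by linarith [hd.2])
      · exact NURow.sin_ne_neg (by linarith [hd.2]) (by linarith [hd.1])
      · rcases h with h | h <;> exact absurd h (by decide)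
    · refine ⟨Set.Icc (5 / 2 * l) (59 / 20 * l), fun x hx => ?_,
        PB_SF_of isCompact_Icc c (some .L) (fun _ _ d hd => ?_) (fun _ _ d hd => ⟨?_, ?_⟩)
          (fun _ h => ?_)⟩
      · have hx' : x = (1 - P.jL) * l := hx
        rw [hw, hx']
        constructor <;> nlinarith
      · exact NURow.sin_ne_pos (by linarith [hd.1]) (by linarith [hd.2])
      · exact NURow.sin_ne_pos (by linarith [hd.1]) (by linarith [hd.2])
      · exact NURow.sin_ne_neg (by linarith [hd.2]) (by linarith [hd.1])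
      · rcases h with h | h <;> exact absurd h (by decide)
    · refine ⟨Set.Icc (47 / 20 * l) (51 / 20 * l), fun x hx => ?_,
        PB_SF_of isCompact_Icc c (some .S) (fun _ h => ?_) (fun _ h => ?_)
          (fun _ _ d hd => ⟨?_, ?_⟩)⟩
      · rw [hw]
        exact ⟨by linarith [hx.2], by linarith [hx.1]⟩
      · rcases h with h | h <;> exact absurd h (by decide)
      · rcases h with h | h <;> exact absurd h (by decide)
      · exact NURow.sin_ne_pos (by linarith [hd.1]) (by linarith [hd.2])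
      · exact NURow.sin_ne_pos (by linarith [hd.1]) (by linarith [hd.2])
    · refine ⟨{7 / 4 * l}, fun x hx => ?_,
        PB_SF_of isCompact_singleton c (some .T) (fun _ h => ?_) (fun _ h => ?_)
          (fun _ _ d hd => ⟨?_, ?_⟩)⟩
      · have hx' : x = -(1 / 2 * l) := hx
        show w.re - x = 7 / 4 * l
        rw [hw, hx']
        ring
      · rcases h with h | h <;> exact absurd h (by decide)
      · rcases h with h | h <;> exact absurd h (by decide)
      · have hd' : d = 7 / 4 * l := hd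
        rw [hd']
        exact NURow.sin_ne_pos (by linarith) (by linarith)
      · have hd' : d = 7 / 4 * l := hd
        rw [hd']
        exact NURow.sin_ne_neg (by linarith) (by linarith)
  have h1 := hc.one w (K := lnS P k) hK'
  rw [one_mul]
  exact h1.1

theorem HLn_F : HLn 1 (-(11 / 4) * l) SF := HLn_of HQ_SF_B (by norm_num)

theorem HLn_P : HLn (-1) (-(11 / 4) * l) SP := HLn_of HQ_SP_B (by norm_num)

section flat

variable {X : Bool → Option O3 → ℂ → ℂ} {ob : (Bool → ℂ → ℝ) → OB} {P : NUO.Par} {x κ : ℝ}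
  {e : ℕ} {E0 : Set ℝ} {q q' p p' : ℝ} {F F' : Bool → Option O3 → ℂ → ℂ} {T T' : Bool → ℂ → ℂ}
  {w w' : ℂ}

/-- **decay of the functions of a class without poles** -/
theorem decZ_flat {κ1 Q0 Q : ℝ} (hX : DecZ X P (3 / 5 * l) κ1 Q0) (hP : ParC P) (hF : HLn q p F)
    (hF' : HLn q' p' F') (hw : w.re = p) (hw' : w'.re = p') {q0 : ℝ} (hq : q' - q = 2 * q0)
    (hQ : Q = Q0 + q0) :
    DecZ (fun a => XS a (X a) F (fl F') w w') P (3 / 5 * l) κ1 Q := by
  have key : ∀ (a : Bool) (k : Option O3), Bdd (lnS P k) (-(2 * q0 * sc (a, ob4 k)))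
      fun u => F a k (w - u) * fl F' a k (w' - u) := by
    intro a k
    have h1 := hF.bd P hP a k w hw
    have h2 := hF'.bd P hP (!a) k w' hw'
    refine (h1.mul h2).rate ?_
    have e : sc (!a, ob4 k) = -sc (a, ob4 k) := by
      cases a <;> simp [sc]
    rw [e, ← hq]
    ring
  subst hQ
  refine ⟨fun s => ?_, fun s => ?_, fun s => ?_, fun s r i hi => ?_⟩
  · exact DecOn.mulB (hX.A s) (key s none) (le_of_eq (by simp only [ob4, Option.elim]; ring))
  · exact DecOn.mulB (hX.L s) (key s (some .L))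
      (le_of_eq (by simp only [ob4, ob3, Option.elim]; ring))
  · exact DecOn.mulB (hX.T s) (key s (some .T))
      (le_of_eq (by simp only [ob4, ob3, Option.elim]; ring))
  · have h := key s (some .S)
    obtain ⟨C, hC, hb⟩ := h
    have h' : Bdd {lnO P r i .S} (-(2 * q0 * sc (s, ob4 (some .S))))
        fun u => F s (some .S) (w - u) * fl F' s (some .S) (w' - u) :=
      ⟨C, hC, fun z hz => hb z (by
        have hz' : z.re = lnO P r i .S := hz
        rw [hz']
        exact lnO_S_mem hP hi)⟩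
    exact DecOn.mulB (hX.S s r i hi) h' (le_of_eq (by simp only [ob4, ob3, Option.elim]; ring))

/-- **A class without poles at fixed half quanta is the functional without insertion.** -/
theorem flat_FF [Fil] (hB : Bs X ob P x κ e E0) {κ1 : ℝ} (hκ1 : 0 < κ1)
    (hX : DecZ X P (3 / 5 * l) κ1 (-(e : ℝ)))
    (hP : ParC P) (hx0 : 0 < x) (hx1 : x ≤ 1 / 100)
    (hρ : ∀ r, ∃ ρ0, 0 < ρ0 ∧ ∀ t, ρ0 ≤ P.rad r t)
    (hF : HG false q p F T) (hF' : HG false q' p' F' T') (hL : HLn q p F) (hL' : HLn q' p' F')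
    (hw : w.re = p) (hw' : w'.re = p') {aX aY : ℕ} (hq : q' - q = 2 * ((aX : ℝ) + e - aY)) (n : ℕ)
    {η η' : Crs} (hη : ∀ r ≤ n + aX + (n + aY), ∀ᵐ O ∂(Measure.pi fun _ : Fin r => nu),
      CurB x (η r O) (η' r O)) :
    NURow.ZobjQ (XS true (X true) F (fl F') w w') (XS false (X false) F (fl F') w w')
      (3 / 5 * l) (n + aX) (n + aY) (lX P) (lY P) =
      PBF.PLX.FF (fun a => XS a (X a) F (fl F') w w') P (n + aX) (n + aY) η η'
        (fun _ _ _ _ _ => 1) := by
  have hl := l_pos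
  have h1 := oneC_flatB hB hF hF' hw hw' hq (x0 := 3 / 5 * l) le_rfl (by linarith)
  refine FF_oneC h1 hP.goodQ hx0 hx1 (by linarith [hP.j2]) hP.rm hκ1 hρ ?_
    (by push_cast; ring) hη
  refine decZ_flat hX hP hL hL' hw hw' hq ?_
  push_cast
  ring

/-- **`OneC` of the class W W at fixed half quanta** (`Re w = Re w' = 5 l / 4`) -/
theorem oneC_WW (hB : Bs X ob P x κ e E0) (hw : w.re = 5 / 4 * l) (hw' : w'.re = 5 / 4 * l) {x0 : ℝ}
    (h0 : 3 / 5 * l ≤ x0) (h1 : x0 ≤ 19 / 20 * l) :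
    OneC (ZW X w w') (ob fun a z => ‖sG SF SF w w' a z‖) P x κ x0 (-(e : ℤ))
      ({w.im, w'.im} ∪ E0) := by
  have h := oneC_flatB hB HG_SF_A HG_SF_A hw hw' (aX := 0) (aY := e) (by push_cast; ring) h0 h1
  have e' : ((0 : ℕ) : ℤ) - (e : ℤ) = -(e : ℤ) := by push_cast; ring
  rw [e'] at h
  exact h

/-- **The class W W at fixed half quanta is the functional without insertion**, any base. -/
theorem WW_FF [Fil] (hB : Bs X ob P x κ e E0) {κ1 : ℝ} (hκ1 : 0 < κ1)
    (hX : DecZ X P (3 / 5 * l) κ1 (-(e : ℝ)))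
    (hP : ParC P) (hx0 : 0 < x) (hx1 : x ≤ 1 / 100)
    (hρ : ∀ r, ∃ ρ0, 0 < ρ0 ∧ ∀ t, ρ0 ≤ P.rad r t)
    (hw : w.re = 5 / 4 * l) (hw' : w'.re = 5 / 4 * l) (n : ℕ)
    {η η' : Crs} (hη : ∀ r ≤ n + (n + e), ∀ᵐ O ∂(Measure.pi fun _ : Fin r => nu),
      CurB x (η r O) (η' r O)) :
    NURow.ZobjQ (ZW X w w' true) (ZW X w w' false) (3 / 5 * l) n (n + e) (lX P) (lY P) =
      PBF.PLX.FF (ZW X w w') P n (n + e) η η' (fun _ _ _ _ _ => 1) :=
  flat_FF hB hκ1 hX hP hx0 hx1 hρ HG_SF_A HG_SF_A HLn_W HLn_W hw hw' (aX := 0) (aY := e)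
    (by push_cast; ring) n hη

end flat

end PBR.PLX

end
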