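import Pool.Agent.PLX.Ns
import Pool.Agent.PLX.PB.W1FFa
import Pool.Agent.PLX.PB.BsR
import Pool.Agent.PLX.DZUcls

/-!
# The class W W of the regular function as the functional of `PB/FDef`, two numbers of rows

* `decZ_RU`: decay of the one body functions, `D : RU m M`, charge `m - M`; `decZ_RD`: rows `(x | x^q)`;
* **`RWW_FFU`**: the class W W at fixed half quanta `=` the functional without insertion, `M = m + e`,
  numbers `n`, `n + e`; **`RWW_FF`**: rows `(x | x^q)`, numbers `n`, `n + Fil.xn m`.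
-/

set_option autoImplicit false
set_option linter.unusedSectionVars false

noncomputable section

open Complex MeasureTheory Finset
open scoped ENNReal

open PLX (Fil)

namespace PBR.PLX

open NUO NUP1 NUCR NUP1S NUP1S.Ab NUP1S.AbC NUP1S.AbG NURow NUGC NUGC.PLX PBX PBX.PLX PBC.PLX PBF.PLX
open NUP1.Leg (thE Ck Dk)
open _root_.Pool.Agent.PLX

section reg

variable {m M e : ℕ} {D : RU m M} {ex ex0 : Bool → List ℂ} {c0 : ℝ} {P : NUO.Par} {ep : ℝ} {w w' : ℂ}

/-- **decay of the one body functions of the regular function** -/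
theorem decZ_RU (H : D.Ok) (hP : ParC P) :
    PBC.PLX.DecZ (XB D.X D.Y) P (3 / 5 * l) (2 * D.β) ((m : ℝ) - M) := by
  have h := decZ_XXU (P := P) hP (c := fun a => cond a D.c D.c') (Q := (m : ℝ) - M) (Q' := 0) H.b0 H.b1
    (N := fun a => cond a m M) (ro := xrU D) (xrU_Rws H) (g := fun a => cond a D.g D.g')
    (g0 := fun a => cond a D.g0 D.g0') (fun a => by cases a; exacts [H.gg', H.gg])
    (fun a => by cases a; exacts [H.gg0', H.gg0])
    (s1 := fun a => cond a (thE D.p D.p D.q D.q) (thE D.q D.q D.p D.p))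
    (s2 := fun a => cond a (thS D.p D.p D.q D.q) (thS D.q D.q D.p D.p))
    (fun a => by
      cases a
      · exact thE_SpecQ false (r := D.q) (o := D.q) (r' := D.p) (o' := D.p) H.hq H.hp
      · exact thE_SpecQ true (r := D.p) (o := D.p) (r' := D.q) (o' := D.q) H.hp H.hq)
    (by show (m : ℝ) - M = 0 - ((M : ℝ) - m); ring)
  have e1 : (fun a => XXU (cond a D.c D.c') D.β (xrU D a) (xrU D (!a)) (cond a D.g D.g')
      (cond a D.g0 D.g0') (cond a (thE D.p D.p D.q D.q) (thE D.q D.q D.p D.p))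
      (cond a (thS D.p D.p D.q D.q) (thS D.q D.q D.p D.p))) = XB D.X D.Y := by
    funext a
    cases a <;> rfl
  rw [e1] at h
  exact h

/-- **The class W W of the regular function at fixed half quanta is the functional without
insertion**, `M = m + e`. -/
theorem RWW_FFU [Fil] (hM : M = m + e) (H : D.Ok) (h : RCo D ex ex0 c0) (hP : ParC P) (hep0 : 0 < ep)
    (hep : ep ≤ 1 / 100) (hρ : ∀ r, ∃ ρ0, 0 < ρ0 ∧ ∀ t, ρ0 ≤ P.rad r t)
    (hw : w.re = 5 / 4 * l) (hw' : w'.re = 5 / 4 * l) (n : ℕ)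
    {η η' : Crs} (hη : ∀ r ≤ n + (n + e), ∀ᵐ O ∂(Measure.pi fun _ : Fin r => nu),
      CurB ep (η r O) (η' r O)) :
    NURow.ZobjQ (RZW D w w' true) (RZW D w w' false) (3 / 5 * l) n (n + e) (lX P) (lY P) =
      PBF.PLX.FF (RZW D w w') P n (n + e) η η' (fun _ _ _ _ _ => 1) := by
  have hD := decZ_RU (P := P) H hP
  rw [show (m : ℝ) - M = -(e : ℝ) by rw [hM]; push_cast; ring] at hD
  exact WW_FF (bs_RU hM H h hP hep0 hep) (κ1 := 2 * D.β) (by linarith [H.b0]) hD hP hep0 hep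
    hρ hw hw' n hη

end reg

section fil

variable [Fil] {m : ℕ} {D : RU m (Fil.q * m)} {ex ex0 : Bool → List ℂ} {c0 : ℝ} {P : NUO.Par} {ep : ℝ}
  {w w' : ℂ}

/-- decay of the one body functions of the regular function, rows `(x | x^q)` -/
theorem decZ_RD (H : D.Ok) (hP : ParC P) :
    PBC.PLX.DecZ (XB D.X D.Y) P (3 / 5 * l) (2 * D.β) (-(Fil.xn m : ℝ)) := by
  have hD := decZ_RU (P := P) H hP
  rw [show (m : ℝ) - (Fil.q * m : ℕ) = -(Fil.xn m : ℝ) by
    rw [← Fil.add_xn m]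
    push_cast
    ring] at hD
  exact hD

/-- **`OneC` of the class W W of the regular function at fixed half quanta** -/
theorem oneC_RZW (H : D.Ok) (h : REq D ex ex0 c0) (hP : ParC P) (hep0 : 0 < ep) (hep : ep ≤ 1 / 100)
    (hw : w.re = 5 / 4 * l) (hw' : w'.re = 5 / 4 * l) {x0 : ℝ} (h0 : 3 / 5 * l ≤ x0)
    (h1 : x0 ≤ 19 / 20 * l) :
    OneC (RZW D w w') (obR D ex ex0 c0 fun a z => ‖sG SF SF w w' a z‖) P ep (2 * D.β) x0
      (-(Fil.xn m : ℤ)) ({w.im, w'.im} ∪ Set.range fun i => (D.x i).im) :=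
  oneC_WW (bs_RD H h hP hep0 hep) hw hw' h0 h1

/-- **The class W W of the regular function at fixed half quanta is the functional without
insertion**, rows `(x | x^q)`. -/
theorem RWW_FF (H : D.Ok) (h : REq D ex ex0 c0) (hP : ParC P) (hep0 : 0 < ep)
    (hep : ep ≤ 1 / 100) (hρ : ∀ r, ∃ ρ0, 0 < ρ0 ∧ ∀ t, ρ0 ≤ P.rad r t)
    (hw : w.re = 5 / 4 * l) (hw' : w'.re = 5 / 4 * l) (n : ℕ)
    {η η' : Crs} (hη : ∀ r ≤ n + (n + Fil.xn m), ∀ᵐ O ∂(Measure.pi fun _ : Fin r => nu),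
      CurB ep (η r O) (η' r O)) :
    NURow.ZobjQ (RZW D w w' true) (RZW D w w' false) (3 / 5 * l) n (n + Fil.xn m) (lX P) (lY P) =
      PBF.PLX.FF (RZW D w w') P n (n + Fil.xn m) η η' (fun _ _ _ _ _ => 1) :=
  RWW_FFU (Fil.add_xn m).symm H h.toRCo hP hep0 hep hρ hw hw' n hη

end fil

end PBR.PLX

end
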