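import Pool.Agent.PLX.Ns
import Pool.Agent.PLX.PB.W1FF
import Pool.Agent.PLX.PB.Reg0
import Pool.Agent.PLX.NUGC.Ob1Fac
import Pool.Agent.PLX.FilN

/-!
# The base at rows `0`, ends `0`, every row of species Y a `q`-fold row

`ob0 m β ex ex0`: one body data, `m` rows and one end (`Fil.nn a (m + 1) = Fil.n a * m + 1` effective rows
of species `a`): activity `2 cos l · rwC a 0 u ^ m · (rw1 u · Th0 u)`, cutoffs over the rows and `ex`
(quanta), `ex0` (strings); `rw1`: one end = one row in each group; **`bs_R0`**: `Bs` of `R0 m β ex ex0` with `(ob0 ..).mul g`, `Fil.xn m`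
additional rows Y; `R0_WW_FF`.
-/

set_option autoImplicit false
set_option linter.unusedSectionVars false

noncomputable section

open Complex MeasureTheory Finset
open scoped ENNReal

open PLX (Fil)

namespace PBR.PLX

open NUO NUP1 NUCR NUP1S NUP1S.Ab NUP1S.AbC NUP1S.AbG NURow PBX.PLX PBF.PLX
open NUGC.PLX (ParC OB OneC)
open NUP1.Leg (thE Ck Dk cc)
open PBX (Th0 Th0_nonneg norm_cc norm_thE_zero)
open _root_.Pool.Agent.PLX (RU R0 R0_Z R0_Ok R0U rwq)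

variable [Fil]

omit [Fil] in
/-- modulus of the factor of one row at `0` in each group -/
def rw1 (u : ℂ) : ℝ := ‖Complex.sin (u + 3 * l)‖ ^ 2 / (‖Complex.sin u‖ * ‖Complex.sin (u - 2 * l)‖)

omit [Fil] in
theorem rw1_eq (u : ℂ) : rw1 u = PBX.rwC 0 u := by
  unfold rw1 PBX.rwC
  rw [sub_zero]

omit [Fil] in
theorem rw1_nonneg (u : ℂ) : 0 ≤ rw1 u := by
  unfold rw1
  positivity

/-- **one body data at rows 0, ends 0** -/
def ob0 (m : ℕ) (β : ℝ) (ex ex0 : List ℂ) : OB where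
  R a u := 2 * Real.cos l * rwC a 0 u ^ m * (rw1 u * Th0 u)
  φ a := NUP1.phi β (List.replicate (Fil.n a * m) 0 ++ ex)
  φ0 a := NUP1.phi (4 / 3) (List.replicate (Fil.n a * m) 0 ++ ex0)

theorem ob0_R (m : ℕ) (β : ℝ) (ex ex0 : List ℂ) (a : Bool) (u : ℂ) : (ob0 m β ex ex0).R a u =
    2 * Real.cos l * rwC a 0 u ^ m * (rw1 u * Th0 u) := rfl

theorem ob0_nn (m : ℕ) (β : ℝ) (ex ex0 : List ℂ) : (ob0 m β ex ex0).Nn := fun a u => by
  have hc : 0 ≤ Real.cos l := by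
    have hl := l_pos
    exact (Real.cos_pos_of_mem_Ioo ⟨by linarith [Real.pi_pos], by
      have := NURow.l8
      unfold NUP1.l
      linarith [Real.pi_pos]⟩).le
  have := rwC_nonneg a 0 u
  have := rw1_nonneg u
  have := Th0_nonneg u
  show 0 ≤ 2 * Real.cos l * rwC a 0 u ^ m * (rw1 u * Th0 u)
  positivity

/-- the activity with the effective numbers of rows -/
theorem ob0_R_nn (m : ℕ) (β : ℝ) (ex ex0 : List ℂ) (a : Bool) (u : ℂ) : (ob0 m β ex ex0).R a u =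
    2 * Real.cos l * (‖sin (u + 3 * l)‖ ^ (2 * Fil.nn (!a) (m + 1)) /
      (‖sin u‖ * ‖sin (u - 2 * l)‖) ^ Fil.nn a (m + 1)) * Th0 u := by
  have e : rwC a 0 u ^ m * rw1 u = ‖sin (u + 3 * l)‖ ^ (2 * Fil.nn (!a) (m + 1)) /
      (‖sin u‖ * ‖sin (u - 2 * l)‖) ^ Fil.nn a (m + 1) := by
    rw [Fil.nn_succ, Fil.nn_succ]
    unfold rwC rw1
    rw [sub_zero, div_pow, div_mul_div_comm, ← pow_mul, ← pow_mul, ← pow_add, ← pow_succ,
      show 2 * Fil.n (!a) * m + 2 = 2 * (Fil.n (!a) * m + 1) by ring]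
  rw [ob0_R, ← e]
  ring

/-- the activity and the row factors of 63's `rcU` -/
theorem ob0_R_rcU (m : ℕ) (β : ℝ) (ex ex0 : List ℂ) (a : Bool) (u : ℂ) : (ob0 m β ex ex0).R a u =
    2 * Real.cos l * ‖_root_.Pool.Agent.PLX.rcU (Fil.nn a (m + 1)) (Fil.nn (!a) (m + 1)) u‖ * Th0 u := by
  rw [ob0_R_nn, _root_.Pool.Agent.PLX.norm_rcU]

theorem REq_R0 (m : ℕ) (β : ℝ) {ex ex0 : List ℂ} (hex : ∀ w ∈ ex, |w.re| ≤ l / 2) :
    REq (R0 m β ex ex0) (fun _ => ex) (fun _ => ex0) (2 * Real.cos l) where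
  xy := rfl
  g := rfl
  g' := rfl
  g0 := rfl
  g0' := rfl
  c := norm_cc m
  c' := norm_cc _
  hex := fun _ => hex

theorem obR_R0 {m : ℕ} (hm : 1 ≤ m) (β : ℝ) (ex ex0 : List ℂ) (g : Bool → ℂ → ℝ) :
    obR (R0 m β ex ex0) (fun _ => ex) (fun _ => ex0) (2 * Real.cos l) g =
      (ob0 m β ex ex0).mul g := by
  have eR : ∀ (a : Bool) (u : ℂ), 2 * Real.cos l * (∏ _i : Fin m, rwC a 0 u) *
      (‖thE 0 0 0 0 u‖ * g a u) =
        2 * Real.cos l * rwC a 0 u ^ m * (rw1 u * Th0 u) * g a u := by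
    intro a u
    rw [Finset.prod_const, Finset.card_univ, Fintype.card_fin]
    by_cases hu : Complex.sin u = 0
    · have h0 : rwC a 0 u = 0 := by
        unfold rwC
        rw [sub_zero, hu, norm_zero, zero_mul, zero_pow (Fil.n_ne a), div_zero]
      rw [h0, zero_pow (by omega)]
      ring
    · rw [norm_thE_zero hu, rw1_eq]
      ring
  have eL : ∀ a : Bool, List.ofFn (rwq (fun _ : Fin m => (0 : ℂ)) a) =
      List.replicate (Fil.n a * m) 0 := by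
    intro a
    cases a
    · exact List.ofFn_const _ 0
    · show List.ofFn (fun _ : Fin m => (0 : ℂ)) = List.replicate (1 * m) 0
      rw [one_mul]
      exact List.ofFn_const m 0
  unfold obR PBX.PLX.obX NUGC.PLX.OB.mul ob0
  show OB.mk _ (fun a => NUP1.phi β (List.ofFn (rwq (fun _ : Fin m => (0 : ℂ)) a) ++ ex))
    (fun a => NUP1.phi (4 / 3) (List.ofFn (rwq (fun _ : Fin m => (0 : ℂ)) a) ++ ex0)) = _
  simp only [eL]
  congr 1
  funext a u
  exact eR a u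

/-- **The base of the regular function at rows 0, ends 0.** -/
theorem bs_R0 {m : ℕ} (hm : 1 ≤ m) {β : ℝ} (hβ : 0 < β) (hβ' : β ≤ 4 / 3) {ex ex0 : List ℂ}
    (hex : ∀ w ∈ ex, |w.re| ≤ l / 2) (hex0 : ∀ w ∈ ex0, |w.re| ≤ l / 2) {P : NUO.Par} {ep : ℝ}
    (hP : ParC P) (hep0 : 0 < ep) (hep : ep ≤ 1 / 100) :
    Bs (XB (R0 m β ex ex0).X (R0 m β ex ex0).Y) (fun g => (ob0 m β ex ex0).mul g) P ep
      (2 * β) (Fil.xn m) {0} := by
  have h := bs_RD (R0_Ok m hβ hβ' hex hex0) (REq_R0 m β (ex0 := ex0) hex) hP hep0 hep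
  have e : (Set.range fun i : Fin m => ((R0 m β ex ex0).x i).im) = {0} := by
    have : Nonempty (Fin m) := ⟨⟨0, hm⟩⟩
    show (Set.range fun _ : Fin m => (0 : ℂ).im) = {0}
    rw [Set.range_const, zero_im]
  rw [e] at h
  exact h.congr (fun _ _ _ => rfl) fun g => obR_R0 hm β ex ex0 g

/-- **W W at rows 0, ends 0: the functional without insertion.** -/
theorem R0_WW_FF {m : ℕ} {β : ℝ} (hβ : 0 < β) (hβ' : β ≤ 4 / 3) {ex ex0 : List ℂ}
    (hex : ∀ w ∈ ex, |w.re| ≤ l / 2) (hex0 : ∀ w ∈ ex0, |w.re| ≤ l / 2) {P : NUO.Par} {ep : ℝ}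
    (hP : ParC P) (hep0 : 0 < ep) (hep : ep ≤ 1 / 100)
    (hρ : ∀ r, ∃ ρ0, 0 < ρ0 ∧ ∀ t, ρ0 ≤ P.rad r t) {w w' : ℂ}
    (hw : w.re = 5 / 4 * l) (hw' : w'.re = 5 / 4 * l) (n : ℕ)
    {η η' : Crs} (hη : ∀ r ≤ n + (n + Fil.xn m), ∀ᵐ O ∂(Measure.pi fun _ : Fin r => nu),
      CurB ep (η r O) (η' r O)) :
    NURow.ZobjQ (RZW (R0 m β ex ex0) w w' true) (RZW (R0 m β ex ex0) w w' false) (3 / 5 * l) n
      (n + Fil.xn m) (lX P) (lY P) =
      PBF.PLX.FF (RZW (R0 m β ex ex0) w w') P n (n + Fil.xn m) η η' (fun _ _ _ _ _ => 1) :=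
  RWW_FF (R0_Ok m hβ hβ' hex hex0) (REq_R0 m β hex) hP hep0 hep hρ hw hw' n hη

end PBR.PLX

end
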