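import Pool.Agent.PB.F0W
import Pool.Agent.PB.WardQ

/-!
# Two fillings: Ward identity and derivative of the functional of the straight lines (helper70)

As `PB/F0W`, numbers `n`, `n'` of quanta of the two species, any total charge. The charge is inside the bound of the
one body functions: `ZBd c x κ D Z`: `‖Z‖ ≤ D exp (-((κ + 2 (∑ j, sc) sc) |t|))`.

* `F0_ward`: the Ward identity summed over all words, fields depending on species and kind;
* `F0_deriv`: the derivative with respect to a parameter of the one body functions.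
-/

set_option autoImplicit false
set_option linter.unusedSectionVars false

noncomputable section

open Complex MeasureTheory Finset
open scoped Classical

namespace PBI.PLX

open NUP1 NUP1S NUP1.Bd NURow PB

section one

variable {ι : Type} [Fintype ι]

/-- bound of one body data on the lines, with the charge of the class -/
def ZBd (c : ι → Bool × Option O3) (x : ι → ℝ) (κ D : ℝ) (Z : Stt) : Prop :=
  ∀ i, ∀ t : ℝ, ‖Z (c i).1 (c i).2 (vl (x i) t)‖ ≤
    D * Real.exp (-((κ + 2 * (∑ j, sc (co (c j))) * sc (co (c i))) * |t|))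

/-- the landed bound, total charge `0` -/
theorem zBd_zero {c : ι → Bool × Option O3} {x : ι → ℝ} {κ D : ℝ} {Z : Stt}
    (hn : ∑ i, sc (co (c i)) = 0) : ZBd c x κ D Z ↔ PBI.ZBd c x κ D Z := by
  unfold ZBd PBI.ZBd
  simp only [hn, mul_zero, zero_mul, add_zero]

theorem ZBd.dec {c : ι → Bool × Option O3} {x : ι → ℝ} {κ D : ℝ} {Z : Stt}
    (h : ZBd c x κ D Z) (i : ι) :
    DecOn (κ + 2 * (∑ j, sc (co (c j))) * sc (co (c i))) {x i} (Z (c i).1 (c i).2) := by
  refine ⟨D, fun z hz => ?_⟩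
  rw [Set.mem_singleton_iff] at hz
  have e : z = vl (x i) z.im := by
    rw [← hz]
    unfold vl
    rw [re_add_im]
  have := h i z.im
  rwa [← e] at this

theorem exp_rate (κ S s a : ℝ) : Real.exp (-((κ + 2 * S * s) * a)) = Real.exp (-(κ * a) + 2 * -S * s * a) := by
  congr 1
  ring

/-- the charge as a parameter -/
theorem zBd_of {c : ι → Bool × Option O3} {x : ι → ℝ} {κ D Q : ℝ} {Z : Stt}
    (hn : Q + ∑ i, sc (co (c i)) = 0) (h : ∀ i, ∀ t : ℝ, ‖Z (c i).1 (c i).2 (vl (x i) t)‖ ≤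
      D * Real.exp (-(κ * |t|) + 2 * Q * sc (co (c i)) * |t|)) : ZBd c x κ D Z := by
  intro i t
  rw [exp_rate, ← eq_neg_of_add_eq_zero_left hn]
  exact h i t

theorem ZBd.decQ {c : ι → Bool × Option O3} {x : ι → ℝ} {κ D : ℝ} {Z : Stt}
    (h : ZBd c x κ D Z) (i : ι) :
    DecQ κ (2 * -(∑ j, sc (co (c j))) * sc (co (c i))) {x i} (Z (c i).1 (c i).2) := by
  obtain ⟨D, hD⟩ := h.dec i
  refine ⟨D, fun z hz => ?_⟩
  rw [← exp_rate]
  exact hD z hz

theorem ZBd.mono {c : ι → Bool × Option O3} {x : ι → ℝ} {κ D D' : ℝ} {Z : Stt}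
    (h : ZBd c x κ D Z) (hD : D ≤ D') : ZBd c x κ D' Z := fun i t =>
  (h i t).trans (mul_le_mul_of_nonneg_right hD (Real.exp_pos _).le)

/-- **the Ward identity of a word** -/
theorem Iz_ward {c : ι → Bool × Option O3} {x : ι → ℝ} {Z Lz : Stt} {κ D D' B : ℝ} (hκ : 0 < κ)
    (hok : LnOk c x) (hm : ∀ s k, Measurable (Z s k))
    (hmL : ∀ s k, Measurable (Lz s k)) (hZ : ZBd c x κ D Z)
    (hZL : ZBd c x κ D' fun s k z => Lz s k z * Z s k z)
    (hd : ∀ i t, HasDerivAt (Z (c i).1 (c i).2)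
      (Lz (c i).1 (c i).2 (vl (x i) t) * Z (c i).1 (c i).2 (vl (x i) t)) (vl (x i) t))
    {ξ dξ : Bool × Option O3 → ℝ → ℂ} (hξ : ∀ b t, HasDerivAt (ξ b) (dξ b t) t)
    (hξB : ∀ b t, ‖ξ b t‖ ≤ B) (hdB : ∀ b t, ‖dξ b t‖ ≤ B)
    {a : Bool × Option O3 → Bool × Option O3 → ℂ → ℂ → ℂ}
    (ha : ∀ i j s t, i ≠ j → s ≠ t → a (c i) (c j) (vl (x i) s) (vl (x j) t) =
      (ξ (c i) s - ξ (c j) t) * (I * lz (co (c i)) (co (c j)) (vl (x i) s - vl (x j) t))) :
    Iz c x Z (fun ι _ c z => St (w1 Lz ξ dξ) ι c z + w2 a ι c z) = 0 := by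
  have hB : 0 ≤ max B 1 := zero_le_one.trans (le_max_right _ _)
  have hE : ∀ t : ι → ℝ, EX (-0) t = 1 := fun t => by
    unfold EX
    simp
  have key := ward_Q (ι := ι) (o := fun i => co (c i)) (Q := -∑ i, sc (co (c i)))
    (by ring) (h := fun i => Z (c i).1 (c i).2) (L := fun i => Lz (c i).1 (c i).2) (x := x)
    (κ := κ) (δ := 0) le_rfl (by linarith)
    (fun i => hm _ _) (fun i => hmL _ _) (fun i => hZ.decQ i) (fun i => hZL.decQ i)
    (fun i z hz => by
      have e : z = vl (x i) z.im := by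
        rw [← hz]
        unfold vl
        rw [re_add_im]
      rw [e]
      exact hd i z.im) hok
    (ξ := fun i => ξ (c i)) (dξ := fun i => dξ (c i)) (B := max B 1) hB (fun i t => hξ _ t)
    (fun i t => by
      rw [zero_mul, Real.exp_zero, mul_one]
      exact (hξB _ t).trans (le_max_left _ _))
    (fun i t => by
      rw [zero_mul, Real.exp_zero, mul_one]
      exact (hdB _ t).trans (le_max_left _ _))
    (a := fun i j s t => a (c i) (c j) (vl (x i) s) (vl (x j) t)) ha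
    (O := fun _ => 1) (dO := fun _ _ => 0)
    (fun k t => by
      unfold HasLineDerivAt
      exact hasDerivAt_const _ _)
    aestronglyMeasurable_const (fun k => aestronglyMeasurable_const)
    (fun t => by
      rw [hE, mul_one, norm_one]
      exact le_max_right _ _)
    (fun k t => by
      rw [hE, mul_one, norm_zero]
      exact hB)
  unfold Iz
  rw [← key]
  refine integral_congr_ae (Filter.Eventually.of_forall fun t => ?_)
  simp only [St, w1, w2, pos_im, mul_one, mul_zero, Finset.sum_const_zero, add_zero]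
  rfl

/-- integrability of the integrand -/
theorem int_Fz {c : ι → Bool × Option O3} {x : ι → ℝ} {Z : Stt} {κ D : ℝ} (hκ : 0 < κ)
    (hok : LnOk c x) (hm : ∀ s k, Measurable (Z s k))
    (hZ : ZBd c x κ D Z) : Integrable (fun t : ι → ℝ => Fg (fun i => co (c i))
      (fun i => Z (c i).1 (c i).2) (pos x t)) (Measure.pi fun _ => volume) :=
  integrable_FgQ (Q := ∑ j, sc (co (c j))) rfl hκ (fun _ => hm _ _) (fun i => hZ.dec i) hok

/-- integrability of the integrand -/
theorem Iz_ok {c : ι → Bool × Option O3} {x : ι → ℝ} {Z : Stt} {κ D : ℝ} (hκ : 0 < κ)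
    (hok : LnOk c x) (hm : ∀ s k, Measurable (Z s k))
    (hZ : ZBd c x κ D Z) : IzOk c x Z fun _ _ _ _ => 1 := by
  unfold IzOk Fz
  simp only [one_mul]
  exact int_Fz hκ hok hm hZ

/-- bound of the integrand -/
theorem Fg_norm_leQ {o : ι → CO} {h : ι → ℂ → ℂ} {z : ι → ℂ} {C D κ : ℝ} (hC : 1 ≤ C)
    (hh : ∀ i, ‖h i (z i)‖ ≤ D * Real.exp (-((κ + 2 * (∑ j, sc (o j)) * sc (o i)) * |(z i).im|)))
    (hg : ∀ a b, a ≠ b → ‖gz (o a) (o b) (z a - z b)‖ ≤
      C * Real.exp (rt (o a) (o b) * |(z a - z b).im|)) :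
    ‖Fg o h z‖ ≤ D ^ Fintype.card ι * C ^ (Fintype.card ι * Fintype.card ι) *
      ∏ i, Real.exp (-(κ * |(z i).im|)) := by
  unfold Fg
  refine gen_norm_leQ (Q := -∑ j, sc (o j)) (by ring) hC (fun i => ?_) hg
  rw [← exp_rate]
  exact hh i

/-- **derivative with respect to a parameter**, one word -/
theorem hasDerivAt_IzP {c : ι → Bool × Option O3} {x : ι → ℝ} {Z Zd : ℝ → Stt} {M : Stt}
    {κ D r η0 : ℝ} (hκ : 0 < κ) (hr : 0 < r) (hok : LnOk c x)
    (hm : ∀ η s k, Measurable (Z η s k)) (hmd : ∀ s k, Measurable (Zd η0 s k))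
    (hZ : ∀ η ∈ Metric.ball η0 r, ZBd c x κ D (Z η))
    (hZd : ∀ η ∈ Metric.ball η0 r, ZBd c x κ D (Zd η))
    (hd : ∀ η ∈ Metric.ball η0 r, ∀ i, ∀ t : ℝ, HasDerivAt
      (fun η => Z η (c i).1 (c i).2 (vl (x i) t)) (Zd η (c i).1 (c i).2 (vl (x i) t)) η)
    (hM : ∀ i, ∀ t : ℝ, Zd η0 (c i).1 (c i).2 (vl (x i) t) =
      M (c i).1 (c i).2 (vl (x i) t) * Z η0 (c i).1 (c i).2 (vl (x i) t)) :
    HasDerivAt (fun η => Iz c x (Z η) fun _ _ _ _ => 1) (Iz c x (Z η0) (St M)) η0 := by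
  set o : ι → CO := fun i => co (c i) with ho
  set h : ℝ → ι → ℂ → ℂ := fun η i => Z η (c i).1 (c i).2 with hh
  set d : ℝ → ι → ℂ → ℂ := fun η i => Zd η (c i).1 (c i).2 with hdd
  obtain ⟨C, hC, hg⟩ := gz_const o (fun a b => {x a - x b}) (fun a b => isCompact_singleton)
    (fun a b hab e he => by
      rw [Set.mem_singleton_iff] at he
      rw [he]
      exact hok a b hab)
  have hg' : ∀ t : ι → ℝ, ∀ a b, a ≠ b →
      ‖gz (o a) (o b) (pos x t a - pos x t b)‖ ≤
        C * Real.exp (rt (o a) (o b) * |(pos x t a - pos x t b).im|) := fun t a b hab =>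
    hg a b hab _ (by simp)
  have hbd : ∀ η ∈ Metric.ball η0 r, ∀ i (t : ι → ℝ), ‖Fg o (rpl i (h η) (d η)) (pos x t)‖ ≤
      D ^ Fintype.card ι * C ^ (Fintype.card ι * Fintype.card ι) *
        ∏ j, Real.exp (-(κ * |t j|)) := by
    intro η hη i t
    have := Fg_norm_leQ (o := o) (h := rpl i (h η) (d η)) (z := pos x t) (D := D) (κ := κ) hC
      (fun j => by
        rw [pos_im]
        unfold rpl
        split_ifs with hj
        · subst hj
          exact hZd η hη j (t j)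
        · exact hZ η hη j (t j)) (hg' t)
    simpa using this
  have hη0 : η0 ∈ Metric.ball η0 r := Metric.mem_ball_self hr
  have hme : ∀ η, AEStronglyMeasurable (fun t : ι → ℝ => Fg o (h η) (pos x t))
      (Measure.pi fun _ => volume) := fun η =>
    (measurable_Fg_pos (fun i => hm η _ _) x).aestronglyMeasurable
  have key := hasDerivAt_integral_of_dominated_loc_of_deriv_le
    (μ := Measure.pi fun _ : ι => (volume : Measure ℝ)) (𝕜 := ℝ)
    (F := fun η t => Fg o (h η) (pos x t))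
    (F' := fun η t => ∑ i, Fg o (rpl i (h η) (d η)) (pos x t))
    (x₀ := η0) (s := Metric.ball η0 r)
    (bound := fun t => Fintype.card ι * (D ^ Fintype.card ι *
      C ^ (Fintype.card ι * Fintype.card ι) * ∏ j, Real.exp (-(κ * |t j|))))
    (Metric.ball_mem_nhds _ hr) (Filter.Eventually.of_forall hme) ?_ ?_ ?_ ?_ ?_
  · have h2 := key.2
    refine (h2.congr_deriv ?_).congr_of_eventuallyEq (Filter.Eventually.of_forall fun η => ?_)
    · unfold Iz
      refine integral_congr_ae (Filter.Eventually.of_forall fun t => ?_)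
      simp only [St, Fz]
      rw [Finset.sum_mul]
      refine Finset.sum_congr rfl fun i _ => ?_
      rw [Fg_rpl]
      unfold Fg
      have e : d η0 i (pos x t i) = M (c i).1 (c i).2 (pos x t i) * h η0 i (pos x t i) :=
        hM i (t i)
      rw [e, ← Finset.prod_erase_mul univ (fun i => Z η0 (c i).1 (c i).2 (pos x t i))
        (mem_univ i)]
      simp only [hh, ho]
      ring
    · unfold Iz Fz
      simp only [one_mul, hh, ho]
  · exact int_Fz hκ hok (hm η0) (hZ η0 hη0)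
  · refine Finset.aestronglyMeasurable_fun_sum _ fun i _ => ?_
    refine (measurable_Fg_pos (fun j => ?_) x).aestronglyMeasurable
    unfold rpl
    split_ifs
    · exact hmd _ _
    · exact hm η0 _ _
  · refine Filter.Eventually.of_forall fun t η hη => ?_
    refine (norm_sum_le _ _).trans ?_
    refine (Finset.sum_le_sum fun i _ => hbd η hη i t).trans (le_of_eq ?_)
    rw [Finset.sum_const, Finset.card_univ, nsmul_eq_mul]
  · exact ((integrable_prod_exp' (ι := ι) hκ).const_mul _).const_mul _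
  · refine Filter.Eventually.of_forall fun t η hη => ?_
    have h1 := HasDerivAt.fun_finsetProd (u := (univ : Finset ι)) (x := η)
      (f := fun i η => h η i (pos x t i)) (f' := fun i => d η i (pos x t i))
      (fun i _ => hd η hη i (t i))
    have h2 := h1.mul_const (PU fun a b => gz (o a) (o b) (pos x t a - pos x t b))
    refine h2.congr_deriv ?_
    rw [Finset.sum_mul]
    refine Finset.sum_congr rfl fun i _ => ?_
    rw [Fg_rpl, smul_eq_mul]

end one

/-! ## the sums over the words -/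

variable {α : ℝ} {n n' : ℕ} {L : Lns}

theorem F0_ok {Z : Stt} {κ D : ℝ} (hκ : 0 < κ) (hok : AllW α n n' L fun c x => LnOk c x)
    (hm : ∀ s k, Measurable (Z s k)) (hZ : AllW α n n' L fun c x => ZBd c x κ D Z) :
    F0Ok α n n' L Z fun _ _ _ _ => 1 := fun p p' k k' h1 h2 =>
  Iz_ok hκ (hok p p' k k' h1 h2) hm (hZ p p' k k' h1 h2)

/-- **The Ward identity**, all words. -/
theorem F0_ward {Z Lz : Stt} {κ D D' B : ℝ} (hκ : 0 < κ)
    (hok : AllW α n n' L fun c x => LnOk c x) (hm : ∀ s k, Measurable (Z s k))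
    (hmL : ∀ s k, Measurable (Lz s k)) (hZ : AllW α n n' L fun c x => ZBd c x κ D Z)
    (hZL : AllW α n n' L fun c x => ZBd c x κ D' fun s k z => Lz s k z * Z s k z)
    (hd : AllW α n n' L fun c x => ∀ i, ∀ t : ℝ, HasDerivAt (Z (c i).1 (c i).2)
      (Lz (c i).1 (c i).2 (vl (x i) t) * Z (c i).1 (c i).2 (vl (x i) t)) (vl (x i) t))
    {ξ dξ : Bool × Option O3 → ℝ → ℂ} (hξ : ∀ b t, HasDerivAt (ξ b) (dξ b t) t)
    (hξB : ∀ b t, ‖ξ b t‖ ≤ B) (hdB : ∀ b t, ‖dξ b t‖ ≤ B)
    {a : Bool × Option O3 → Bool × Option O3 → ℂ → ℂ → ℂ}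
    (ha : AllW α n n' L fun c x => ∀ i j, ∀ s t : ℝ, i ≠ j → s ≠ t →
      a (c i) (c j) (vl (x i) s) (vl (x j) t) =
      (ξ (c i) s - ξ (c j) t) * (I * lz (co (c i)) (co (c j)) (vl (x i) s - vl (x j) t))) :
    F0 α n n' L Z (fun ι _ c z => St (w1 Lz ξ dξ) ι c z + w2 a ι c z) = 0 := by
  unfold F0
  refine Sw_zero fun p p' k k' h1 h2 => ?_
  rw [Iz_ward hκ (hok p p' k k' h1 h2) hm hmL
    (hZ p p' k k' h1 h2) (hZL p p' k k' h1 h2) (hd p p' k k' h1 h2) hξ hξB hdB
    (ha p p' k k' h1 h2), mul_zero]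

/-- **The derivative with respect to a parameter**, all words. -/
theorem F0_deriv {Z Zd : ℝ → Stt} {M : Stt} {κ D r η0 : ℝ} (hκ : 0 < κ) (hr : 0 < r)
    (hok : AllW α n n' L fun c x => LnOk c x)
    (hm : ∀ η s k, Measurable (Z η s k)) (hmd : ∀ s k, Measurable (Zd η0 s k))
    (hZ : ∀ η ∈ Metric.ball η0 r, AllW α n n' L fun c x => ZBd c x κ D (Z η))
    (hZd : ∀ η ∈ Metric.ball η0 r, AllW α n n' L fun c x => ZBd c x κ D (Zd η))
    (hd : ∀ η ∈ Metric.ball η0 r, AllW α n n' L fun c x => ∀ i, ∀ t : ℝ, HasDerivAt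
      (fun η => Z η (c i).1 (c i).2 (vl (x i) t)) (Zd η (c i).1 (c i).2 (vl (x i) t)) η)
    (hM : AllW α n n' L fun c x => ∀ i, ∀ t : ℝ, Zd η0 (c i).1 (c i).2 (vl (x i) t) =
      M (c i).1 (c i).2 (vl (x i) t) * Z η0 (c i).1 (c i).2 (vl (x i) t)) :
    HasDerivAt (fun η => F0 α n n' L (Z η) fun _ _ _ _ => 1) (F0 α n n' L (Z η0) (St M)) η0 := by
  unfold F0
  exact hasDerivAt_Sw fun p p' k k' h1 h2 =>
    (hasDerivAt_IzP hκ hr (hok p p' k k' h1 h2) hm hmd
      (fun η hη => hZ η hη p p' k k' h1 h2) (fun η hη => hZd η hη p p' k k' h1 h2)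
      (fun η hη => hd η hη p p' k k' h1 h2) (hM p p' k k' h1 h2)).const_mul _

end PBI.PLX

end
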