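import Pool.Agent.PLX.Ns
import Pool.Agent.PLX.PB.F0W
import Pool.Agent.PLX.PB.ClsBd

/-!
# Plan B: the functional of the straight lines on the final lines `lX P`, `lY P` of the objects

* `fl P`: the lines; `lnOk_fl`: no pole of the pair functions on them, start line `x0`;
* `F0Ok_decZ`: integrability of all words from the decay `DecZ` (any charge `Q = n - n'`);
* `zBd_word`: the bounds `ZBd` of `PLX/PB/F0W` (charge `Q = n - n'`);
* `F0_ZobjQ`: `F0 .. 1 = ZobjQ .. (lX P) (lY P)`.
-/

set_option autoImplicit false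
set_option linter.unusedSectionVars false

noncomputable section

open Complex MeasureTheory Finset

namespace PBI.PLX

open NUP1 NUO NUP1S NUP1S.Ab NUP1S.AbG NUP1S.AbC NURow PBC PBC.PLX
open NUP1.Bd (wt Ob)

/-- the final lines of the objects -/
def fl (P : NUO.Par) : Lns := ⟨lX P, lY P⟩

theorem Ok_ty {s s' : Bool} {o o' : Ob} {d : ℝ}
    (h : Ok (s, if tyB o then Ob.S else Ob.A) (s', if tyB o' then Ob.S else Ob.A) d) :
    Ok (s, o) (s', o') d := by
  cases o <;> cases o' <;> exact h

section word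

variable {P : NUO.Par} {x0 : ℝ} {p p' : ℕ} {k : Fin p → O3} {k' : Fin p' → O3}

/-- two objects -/
theorem ok_oo (h : GoodP P) {i j : Fin p ⊕ Fin p'} (hij : i ≠ j) :
    Ok (o3 k k' i) (o3 k k' j) (xw P k k' i - xw P k k' j) := by
  have h1 := sK_ok (k := k) (k' := k') h (.inl (i, false)) (.inl (j, false)) (by
    intro h0
    exact hij (congrArg Prod.fst (Sum.inl.inj h0))) (xw P k k' i - xw P k k' j) (by
      unfold sK
      rw [if_neg]
      · exact ⟨le_rfl, le_rfl⟩
      · rintro (h0 | ⟨h0, -⟩ | ⟨h0, -⟩)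
        · exact hij h0
        · exact absurd h0 (by decide)
        · exact absurd h0 (by decide))
  exact Ok_ty (s := (o3 k k' i).1) (s' := (o3 k k' j).1) h1

/-- quantum and object -/
theorem ok_qo (h : GoodQ P x0) (hx0 : x0 ≤ NUP1.l) (s : Bool) (j : Fin p ⊕ Fin p') :
    Ok (s, .A) (o3 k k' j) (x0 - xw P k k' j) := by
  have hl := Bd.l_pos
  have hx := h.xp
  have hj1 := h.j1
  have hj2 := h.j2
  obtain ⟨h3, h4⟩ := xw_mem (k := k) (k' := k') h.toGoodP j
  have key : ∀ o : Ob, (o3 k k' j).2 = o → Ok (s, .A) ((o3 k k' j).1, o) (x0 - xw P k k' j) := by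
    intro o ho
    rcases hk : Sum.elim k k' j with _ | _ | _
    · have hty := (o3_ty (k := k) (k' := k') j).2 hk
      have hL := xw_L (P := P) hk
      have h5 : Ok (s, Ob.A) ((o3 k k' j).1, Ob.A) (x0 - xw P k k' j) := by
        rw [hL]
        exact okA (by nlinarith) (by nlinarith) (Or.inr (by nlinarith))
      refine Ok_ty ?_
      rw [← ho, hty]
      exact h5
    · have hS : actO k k' j := by rcases j with j | j <;> exact hk
      have hty : tyB (o3 k k' j).2 = true := by
        by_contra hc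
        rw [Bool.not_eq_true] at hc
        have := (o3_ty (k := k) (k' := k') j).1 hc
        rw [hk] at this
        exact absurd this (by decide)
      have h5 : Ok (s, Ob.A) ((o3 k k' j).1, Ob.S) (x0 - xw P k k' j) := by
        refine okS (by linarith) (by linarith) ?_
        have h6 := (xw_S h.toGoodP hS).1
        have h7 := h.xl (p + p')
        have h8 := h.d0 (p + p')
        have hr : ((rkS j : ℕ) : ℝ) / ((p + p' : ℕ) : ℝ) ≤ 1 := by
          have h9 := rkS_lt j
          have h10 : (0 : ℝ) < ((p + p' : ℕ) : ℝ) := by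
            exact_mod_cast (Nat.zero_le _).trans_lt h9
          rw [div_le_one h10]
          exact_mod_cast h9.le
        have h11 : xw P k k' j =
            -((1 + (P.e + P.d (p + p') * ((rkS j : ℝ) / ((p + p' : ℕ) : ℝ)))) * NUP1.l) := h6
        have h12 : P.d (p + p') * ((rkS j : ℝ) / ((p + p' : ℕ) : ℝ)) ≤ P.d (p + p') * 1 :=
          mul_le_mul_of_nonneg_left hr h8.le
        have h13 : x0 - xw P k k' j < 2 * NUP1.l := by
          rw [h11]
          nlinarith
        exact h13.ne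
      refine Ok_ty ?_
      rw [← ho, hty]
      exact h5
    · have hty : tyB (o3 k k' j).2 = true := by
        by_contra hc
        rw [Bool.not_eq_true] at hc
        have := (o3_ty (k := k) (k' := k') j).1 hc
        rw [hk] at this
        exact absurd this (by decide)
      have hT : xw P k k' j = -(1 / 2 * NUP1.l) := by
        unfold xw
        rw [hk]
        rfl
      have h5 : Ok (s, Ob.A) ((o3 k k' j).1, Ob.S) (x0 - xw P k k' j) := by
        refine okS (by linarith) (by linarith) ?_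
        rw [hT]
        intro h7
        linarith
      refine Ok_ty ?_
      rw [← ho, hty]
      exact h5
  exact key _ rfl

/-- object and quantum -/
theorem ok_oq (h : GoodQ P x0) (hx0 : x0 ≤ NUP1.l) (s : Bool) (j : Fin p ⊕ Fin p') :
    Ok (o3 k k' j) (s, .A) (xw P k k' j - x0) := by
  have := Ok_symm (ok_qo (k := k) (k' := k') h hx0 s j)
  rwa [neg_sub] at this

/-- two quanta -/
theorem ok_qq (s s' : Bool) : Ok (s, .A) (s', .A) (x0 - x0) := by
  have hl := Bd.l_pos
  rw [sub_self]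
  exact okA (by linarith) (by linarith) (Or.inl (by rw [abs_zero]; exact hl))

/-- **no pole on the final lines** -/
theorem lnOk_word (h : GoodQ P x0) (hx0 : x0 ≤ NUP1.l) (n n' : ℕ) :
    LnOk (cl n n' k k') ((fl P).all x0 n n' k k') := by
  rintro ((a | i) | (a | i)) ((b | j) | (b | j)) hab
  · exact ok_qq true true
  · exact ok_qo (k := k) (k' := k') h hx0 true (.inl j)
  · exact ok_qq true false
  · exact ok_qo (k := k) (k' := k') h hx0 true (.inr j)
  · exact ok_oq (k := k) (k' := k') h hx0 true (.inl i)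
  · exact ok_oo (k := k) (k' := k') h.toGoodP (i := .inl i) (j := .inl j) fun h0 =>
      hab (congrArg (fun x => Sum.inl (Sum.inr x)) (Sum.inl.inj h0))
  · exact ok_oq (k := k) (k' := k') h hx0 false (.inl i)
  · exact ok_oo (k := k) (k' := k') h.toGoodP (i := .inl i) (j := .inr j) fun h0 => by
      exact absurd h0 (by simp)
  · exact ok_qq false true
  · exact ok_qo (k := k) (k' := k') h hx0 false (.inl j)
  · exact ok_qq false false
  · exact ok_qo (k := k) (k' := k') h hx0 false (.inr j)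
  · exact ok_oq (k := k) (k' := k') h hx0 true (.inr i)
  · exact ok_oo (k := k) (k' := k') h.toGoodP (i := .inr i) (j := .inl j) fun h0 => by
      exact absurd h0 (by simp)
  · exact ok_oq (k := k) (k' := k') h hx0 false (.inr i)
  · exact ok_oo (k := k) (k' := k') h.toGoodP (i := .inr i) (j := .inr j) fun h0 =>
      hab (congrArg (fun x => Sum.inr (Sum.inr x)) (Sum.inr.inj h0))

end word

variable {P : NUO.Par} {x0 : ℝ} {n n' : ℕ}

theorem lnOk_fl (h : GoodQ P x0) (hx0 : x0 ≤ NUP1.l) :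
    AllW x0 n n' (fl P) fun c x => LnOk c x := fun _ _ _ _ _ _ => lnOk_word h hx0 n n'

/-- the decay of the one body functions on the lines of a word -/
theorem dec_word {Z : Stt} {κ q0 : ℝ} (hx0 : x0 ≤ NUP1.l) (hZ : DecZ Z P x0 κ q0) {p p' : ℕ}
    (k : Fin p → O3) (k' : Fin p' → O3)
    (i : (Fin (nA n k) ⊕ Fin p) ⊕ (Fin (nA n' k') ⊕ Fin p')) :
    DecOn (κ + 2 * q0 * sc (co (cl n n' k k' i))) {(fl P).all x0 n n' k k' i}
      (Z (cl n n' k k' i).1 (cl n n' k k' i).2) := by
  have hA : ∀ s, DecOn (κ + 2 * q0 * sc (s, Ob.A)) {x0} (Z s none) := by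
    intro s
    obtain ⟨D, hD⟩ := hZ.A s
    exact ⟨D, fun z hz => hD z (by
      rw [Set.mem_singleton_iff] at hz
      rw [hz]
      exact ⟨le_rfl, hx0⟩)⟩
  have hO : ∀ (s : Bool) (o : O3) (i : ℕ), i < p + p' →
      DecOn (κ + 2 * q0 * sc (s, ob3 o)) {lnO P (p + p') i o} (Z s (some o)) := by
    intro s o i hi
    cases o
    · exact hZ.L s
    · exact hZ.S s _ _ hi
    · exact hZ.T s
  rcases i with (a | i) | (a | i)
  · exact hA true
  · exact hO true (k i) i (i.2.trans_le (Nat.le_add_right _ _))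
  · exact hA false
  · exact hO false (k' i) i (i.2.trans_le (Nat.le_add_left _ _))

/-- **integrability of all words** -/
theorem F0Ok_decZ {Z : Stt} {κ : ℝ} {Q : ℤ} (h : GoodQ P x0) (hx0 : x0 ≤ NUP1.l) (hκ : 0 < κ)
    (hm : ∀ s k, Measurable (Z s k)) (hZ : DecZ Z P x0 κ Q) (hn : (n : ℤ) - n' = Q) :
    F0Ok x0 n n' (fl P) Z fun _ _ _ _ => 1 := by
  intro p p' k k' h1 h2
  unfold IzOk Fz
  simp only [one_mul]
  have hQ : (n : ℝ) - n' = Q := by
    rw [← hn]
    push_cast
    ring
  exact integrable_FgQ (Q := (Q : ℝ)) (by rw [sum_sc_cl h1 h2, hQ]) hκ (fun i => hm _ _)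
    (fun i => dec_word hx0 hZ k k' i) (lnOk_word h hx0 n n')

/-- the bounds `ZBd` -/
theorem zBd_word {Z : Stt} {κ : ℝ} {Q : ℤ} (hx0 : x0 ≤ NUP1.l) (hZ : DecZ Z P x0 κ Q) {p p' : ℕ}
    (k : Fin p → O3) (k' : Fin p' → O3) (h1 : ∑ i, c3 (k' i) ≤ n') (h2 : ∑ i, c3 (k i) ≤ n)
    (hn : (n : ℤ) - n' = Q) :
    ∃ D : ℝ, ZBd (cl n n' k k') ((fl P).all x0 n n' k k') κ D Z := by
  choose D hD using fun i => dec_word (n := n) (n' := n') hx0 hZ k k' i
  have hQ : (n : ℝ) - n' = Q := by
    rw [← hn]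
    push_cast
    ring
  refine ⟨∑ i, |D i|, fun i t => ?_⟩
  have h3 := hD i (vl ((fl P).all x0 n n' k k' i) t) (by simp [vl])
  rw [sum_sc_cl h1 h2, hQ]
  refine (h3.trans (le_of_eq ?_)).trans (mul_le_mul_of_nonneg_right ((le_abs_self _).trans
    (Finset.single_le_sum (f := fun i => |D i|) (fun i _ => abs_nonneg _) (Finset.mem_univ i)))
    (Real.exp_pos _).le)
  simp [vl]

/-- **the insertion `1`: the sum of stage 2 on the final lines** -/
theorem F0_ZobjQ {Z : Stt} {κ : ℝ} {Q : ℤ} (h : GoodQ P x0) (hx0 : x0 ≤ NUP1.l) (hκ : 0 < κ)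
    (hm : ∀ s k, Measurable (Z s k)) (hZ : DecZ Z P x0 κ Q) (hn : (n : ℤ) - n' = Q) :
    F0 x0 n n' (fl P) Z (fun _ _ _ _ => 1) =
      NURow.ZobjQ (Z true) (Z false) x0 n n' (lX P) (lY P) :=
  F0_one (F0Ok_decZ h hx0 hκ hm hZ hn)

end PBI.PLX

end
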