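import Pool.Agent.PLX.Ns
import Pool.Agent.PLX.PB.ClsMeas
import Pool.Agent.PB.Sig

/-!
# Plan B: one measure space for the functional `FF` and its modulus `FA`

* `Cf n n'` : configurations, `Σ (r, a, b), (Fin r → Xo) × ((Fin a → ℝ) × (Fin b → ℝ))`;
* `mC`, `wC` : the measure, the weight (zero unless the charges fit), `ev Ψ` the insertion;
* **`FA_eq`** : `FA Ψ = ∫⁻ ‖w‖ ‖Ψ‖`; **`FF_eq`** : `FF Ψ = ∫ w Ψ` if `FA Ψ < ∞`
  (`ClsMeas`: curves `MCr`, insertions `MIn` jointly measurable);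
* `dN N = Fil.xn (N / 2)` : the number of the additional quanta Y, `N = 2 *` number of rows;
* `CfN N`, `mN`, `wN`, `evN` : the same with the sum over the numbers `n ≤ N` of quanta X and
  `n + dN N` of quanta Y (coefficients `c n`, data depending on `n`);
* **`FAN_eq`**, **`FFN_eq`**, `WIN_of`: the sums as `∫⁻ ‖w‖ ‖Ψ‖` and `PBFunc.F mN wN (evN Ψ)`.
-/

set_option autoImplicit false
set_option linter.unusedSectionVars false

noncomputable section

open Complex MeasureTheory Finset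
open scoped ENNReal

open PLX (Fil)

namespace PBF.PLX

open NUO NUP1 NUCR NUP1S NUP1S.Ab NUP1S.AbC NUGC NUGC.PLX PBFunc PBFunc.PLX

/-! ### the configuration space -/

/-- number of objects, numbers of quanta X, Y on the curve -/
abbrev CIx (n n' : ℕ) : Type := Fin (n + n' + 1) × Fin (n + 1) × Fin (n' + 1)

/-- one piece -/
abbrev Pc {n n' : ℕ} (i : CIx n n') : Type :=
  (Fin (i.1 : ℕ) → Xo) × ((Fin (i.2.1 : ℕ) → ℝ) × (Fin (i.2.2 : ℕ) → ℝ))

/-- configurations -/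
abbrev Cf (n n' : ℕ) : Type := Σ i : CIx n n', Pc i

/-- measure on one piece -/
def mP {n n' : ℕ} (i : CIx n n') : Measure (Pc i) :=
  (Measure.pi fun _ : Fin (i.1 : ℕ) => nu).prod
    (volume : Measure ((Fin (i.2.1 : ℕ) → ℝ) × (Fin (i.2.2 : ℕ) → ℝ)))

instance {n n' : ℕ} (i : CIx n n') : SigmaFinite (mP i) := by unfold mP; infer_instance

/-- the measure -/
def mC (n n' : ℕ) : Measure (Cf n n') := sig fun i => mP i

instance (n n' : ℕ) : SFinite (mC n n') := by unfold mC; infer_instance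

variable [Fil]

variable (Z : Bool → Option O3 → ℂ → ℂ) (P : NUO.Par) (n n' : ℕ) (η η' : Crs)

/-- the weight on one piece -/
def wP (i : CIx n n') (p : Pc i) : ℂ :=
  if chgO p.1 true + (i.2.1 : ℕ) = n ∧ chgO p.1 false + (i.2.2 : ℕ) = n' then
    (((i.1 : ℕ).factorial : ℕ) : ℂ)⁻¹ * (wK Z P p.1 *
      (((((i.2.1 : ℕ).factorial : ℕ) : ℂ) * (((i.2.2 : ℕ).factorial : ℕ) : ℂ))⁻¹ *
        gK (gF Z P p.1) (η i.1 p.1) (η' i.1 p.1) i.2.1 i.2.2 p.2))
  else 0

/-- **the weight** -/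
def wC : Cf n n' → ℂ := fun c => wP Z P n n' η η' c.1 c.2

/-- the insertion as a function of the configuration -/
def ev {n n' : ℕ} (Ψ : Ins) : Cf n n' → ℂ := fun c => Ψ c.1.1 c.2.1 c.1.2.1 c.1.2.2 c.2.2

/-- joint measurability of the weights -/
structure MC : Prop where
  w : ∀ r : ℕ, Measurable fun O : Fin r → Xo => wK Z P O
  g : ∀ r a b : ℕ, Measurable fun p : (Fin r → Xo) × ((Fin a → ℝ) × (Fin b → ℝ)) =>
    gK (gF Z P p.1) (η r p.1) (η' r p.1) a b p.2

variable {Z P n n' η η'}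

/-- measurability of the weights from the measurability of the data -/
theorem MC.of (hP : ∀ r, Measurable (P.rad r)) (hZ : ∀ s k, Measurable (Z s k))
    (hc : MCr η η') : MC Z P η η' where
  w r := measurable_wK (hP r) hZ
  g r a b := measurable_gK (hP r) hZ (hc.m r) (hc.m' r) a b

theorem MIn.ev {Ψ : Ins} (h : MIn Ψ) : Measurable (ev Ψ : Cf n n' → ℂ) :=
  meas_sig.2 fun i => h i.1 i.2.1 i.2.2

theorem meas_chg (i : CIx n n') :
    MeasurableSet {p : Pc i | chgO p.1 true + (i.2.1 : ℕ) = n ∧ chgO p.1 false + (i.2.2 : ℕ) = n'} := by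
  have h1 : Measurable fun p : Pc i => chgO p.1 true := (measurable_chgO true).comp measurable_fst
  have h2 : Measurable fun p : Pc i => chgO p.1 false :=
    (measurable_chgO false).comp measurable_fst
  exact (measurableSet_eq_fun (h1.add_const _) measurable_const).inter
    (measurableSet_eq_fun (h2.add_const _) measurable_const)

theorem MC.wP (h : MC Z P η η') (i : CIx n n') : Measurable (wP Z P n n' η η' i) := by
  unfold PBF.PLX.wP
  refine Measurable.ite (meas_chg i) ?_ measurable_const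
  exact ((((h.w _).comp measurable_fst).mul ((h.g _ _ _).const_mul _)).const_mul _)

theorem MC.wC (h : MC Z P η η') : Measurable (wC Z P n n' η η') := meas_sig.2 fun i => h.wP i

/-! ### the pieces -/

/-- every object carries a charge -/
theorem le_chgO {r : ℕ} (O : Fin r → Xo) : r ≤ chgO O true + chgO O false := by
  unfold chgO
  rw [← Finset.sum_add_distrib]
  calc r = ∑ _i : Fin r, 1 := by simp
    _ ≤ ∑ i, (chg true (O i) + chg false (O i)) := Finset.sum_le_sum fun i _ => by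
        unfold chg
        rcases kd (O i) with _ | _ | _ | _ | _ <;> rcases sp (O i) with _ | _ <;> simp

theorem not_chg {r : ℕ} (hr : ¬ r ≤ n + n') (O : Fin r → Xo) :
    ¬ (chgO O true ≤ n ∧ chgO O false ≤ n') := by
  rintro ⟨h1, h2⟩
  have := le_chgO O
  omega

/-- the pieces of one configuration of objects, moduli -/
theorem sum_wP_enorm (Ψ : Ins) (r : Fin (n + n' + 1)) (O : Fin (r : ℕ) → Xo) :
    ∑ ab : Fin (n + 1) × Fin (n' + 1), ∫⁻ x, ‖wP Z P n n' η η' (r, ab) (O, x)‖ₑ *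
      ‖Ψ r O ab.1 ab.2 x‖ₑ = (((r : ℕ).factorial : ℕ) : ℝ≥0∞)⁻¹ * trA Z P n n' η η' Ψ r O := by
  unfold trA
  split_ifs with hc
  · have hA : n - chgO O true < n + 1 := by omega
    have hB : n' - chgO O false < n' + 1 := by omega
    rw [Finset.sum_eq_single ((⟨n - chgO O true, hA⟩, ⟨n' - chgO O false, hB⟩) :
      Fin (n + 1) × Fin (n' + 1))]
    · have hcond : chgO O true + (n - chgO O true) = n ∧ chgO O false + (n' - chgO O false) = n' :=
        ⟨by omega, by omega⟩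
      have e : ∀ x, ‖wP Z P n n' η η'
          (r, ((⟨n - chgO O true, hA⟩, ⟨n' - chgO O false, hB⟩) : Fin (n + 1) × Fin (n' + 1)))
            (O, x)‖ₑ * ‖Ψ r O (n - chgO O true) (n' - chgO O false) x‖ₑ =
          ((((r : ℕ).factorial : ℕ) : ℝ≥0∞)⁻¹ * (‖wK Z P O‖ₑ *
            (((n - chgO O true).factorial : ℝ≥0∞) * (n' - chgO O false).factorial)⁻¹)) *
            (‖gK (gF Z P O) (η r O) (η' r O) (n - chgO O true) (n' - chgO O false) x‖ₑ *
              ‖Ψ r O (n - chgO O true) (n' - chgO O false) x‖ₑ) := by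
        intro x
        unfold PBF.PLX.wP
        rw [if_pos hcond, enorm_mul, enorm_mul, enorm_mul,
          enorm_inv_natCast _ (Nat.factorial_ne_zero _), enorm_fac]
        ring
      show ∫⁻ x, ‖wP Z P n n' η η'
          (r, ((⟨n - chgO O true, hA⟩, ⟨n' - chgO O false, hB⟩) : Fin (n + 1) × Fin (n' + 1)))
            (O, x)‖ₑ * ‖Ψ r O (n - chgO O true) (n' - chgO O false) x‖ₑ = _
      simp only [e]
      rw [lintegral_const_mul']
      · ring
      · refine ENNReal.mul_ne_top (ENNReal.inv_ne_top.2 (by exact_mod_cast Nat.factorial_ne_zero _))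
          (ENNReal.mul_ne_top enorm_ne_top (ENNReal.inv_ne_top.2 ?_))
        exact mul_ne_zero (by exact_mod_cast Nat.factorial_ne_zero _)
          (by exact_mod_cast Nat.factorial_ne_zero _)
    · rintro ⟨a, b⟩ - hne
      have : ¬ (chgO O true + (a : ℕ) = n ∧ chgO O false + (b : ℕ) = n') := by
        rintro ⟨h1, h2⟩
        refine hne (Prod.ext (Fin.ext ?_) (Fin.ext ?_))
        · show (a : ℕ) = n - chgO O true
          omega
        · show (b : ℕ) = n' - chgO O false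
          omega
      have e : ∀ x, ‖wP Z P n n' η η' (r, (a, b)) (O, x)‖ₑ * ‖Ψ r O a b x‖ₑ = 0 := by
        intro x
        unfold PBF.PLX.wP
        rw [if_neg this]
        simp
      simp only [e, lintegral_zero]
    · intro h
      exact absurd (Finset.mem_univ _) h
  · rw [mul_zero]
    refine Finset.sum_eq_zero fun ab _ => ?_
    have : ¬ (chgO O true + (ab.1 : ℕ) = n ∧ chgO O false + (ab.2 : ℕ) = n') := by
      rintro ⟨h1, h2⟩
      exact hc ⟨by omega, by omega⟩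
    have e : ∀ x, ‖wP Z P n n' η η' (r, ab) (O, x)‖ₑ * ‖Ψ r O ab.1 ab.2 x‖ₑ = 0 := by
      intro x
      unfold PBF.PLX.wP
      rw [if_neg this]
      simp
    simp only [e, lintegral_zero]

/-- the pieces of one configuration of objects -/
theorem sum_wP (Ψ : Ins) (r : Fin (n + n' + 1)) (O : Fin (r : ℕ) → Xo) :
    ∑ ab : Fin (n + 1) × Fin (n' + 1), ∫ x, wP Z P n n' η η' (r, ab) (O, x) *
      Ψ r O ab.1 ab.2 x = (((r : ℕ).factorial : ℕ) : ℂ)⁻¹ * trm Z P n n' η η' Ψ r O := by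
  unfold trm
  split_ifs with hc
  · have hA : n - chgO O true < n + 1 := by omega
    have hB : n' - chgO O false < n' + 1 := by omega
    rw [Finset.sum_eq_single ((⟨n - chgO O true, hA⟩, ⟨n' - chgO O false, hB⟩) :
      Fin (n + 1) × Fin (n' + 1))]
    · have hcond : chgO O true + (n - chgO O true) = n ∧ chgO O false + (n' - chgO O false) = n' :=
        ⟨by omega, by omega⟩
      have e : ∀ x, wP Z P n n' η η'
          (r, ((⟨n - chgO O true, hA⟩, ⟨n' - chgO O false, hB⟩) : Fin (n + 1) × Fin (n' + 1)))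
            (O, x) * Ψ r O (n - chgO O true) (n' - chgO O false) x =
          ((((r : ℕ).factorial : ℕ) : ℂ)⁻¹ * (wK Z P O *
            (((n - chgO O true).factorial : ℂ) * (n' - chgO O false).factorial)⁻¹)) *
            (gK (gF Z P O) (η r O) (η' r O) (n - chgO O true) (n' - chgO O false) x *
              Ψ r O (n - chgO O true) (n' - chgO O false) x) := by
        intro x
        unfold PBF.PLX.wP
        rw [if_pos hcond]
        ring
      show ∫ x, wP Z P n n' η η'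
          (r, ((⟨n - chgO O true, hA⟩, ⟨n' - chgO O false, hB⟩) : Fin (n + 1) × Fin (n' + 1)))
            (O, x) * Ψ r O (n - chgO O true) (n' - chgO O false) x = _
      simp only [e]
      rw [integral_const_mul]
      ring
    · rintro ⟨a, b⟩ - hne
      have : ¬ (chgO O true + (a : ℕ) = n ∧ chgO O false + (b : ℕ) = n') := by
        rintro ⟨h1, h2⟩
        refine hne (Prod.ext (Fin.ext ?_) (Fin.ext ?_))
        · show (a : ℕ) = n - chgO O true
          omega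
        · show (b : ℕ) = n' - chgO O false
          omega
      have e : ∀ x, wP Z P n n' η η' (r, (a, b)) (O, x) * Ψ r O a b x = 0 := by
        intro x
        unfold PBF.PLX.wP
        rw [if_neg this, zero_mul]
      simp only [e, integral_zero]
    · intro h
      exact absurd (Finset.mem_univ _) h
  · rw [mul_zero]
    refine Finset.sum_eq_zero fun ab _ => ?_
    have : ¬ (chgO O true + (ab.1 : ℕ) = n ∧ chgO O false + (ab.2 : ℕ) = n') := by
      rintro ⟨h1, h2⟩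
      exact hc ⟨by omega, by omega⟩
    have e : ∀ x, wP Z P n n' η η' (r, ab) (O, x) * Ψ r O ab.1 ab.2 x = 0 := by
      intro x
      unfold PBF.PLX.wP
      rw [if_neg this, zero_mul]
    simp only [e, integral_zero]

/-! ### the modulus -/

/-- **the functional with moduli as an integral** -/
theorem FA_eq (h : MC Z P η η') {Ψ : Ins} (hΨ : MIn Ψ) :
    FA Z P n n' η η' Ψ = ∫⁻ c, ‖wC Z P n n' η η' c‖ₑ * ‖ev Ψ c‖ₑ ∂(mC n n') := by
  have hm : ∀ i : CIx n n', Measurable fun p : Pc i => ‖wP Z P n n' η η' i p‖ₑ *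
      ‖Ψ i.1 p.1 i.2.1 i.2.2 p.2‖ₑ := fun i => (h.wP i).enorm.mul (hΨ _ _ _).enorm
  have e1 : ∫⁻ c, ‖wC Z P n n' η η' c‖ₑ * ‖ev Ψ c‖ₑ ∂(mC n n') =
      ∑ i : CIx n n', ∫⁻ p : Pc i, ‖wP Z P n n' η η' i p‖ₑ * ‖Ψ i.1 p.1 i.2.1 i.2.2 p.2‖ₑ ∂(mP i) := by
    unfold mC
    rw [lintegral_sig]
    rfl
  have e2 : ∀ i : CIx n n', ∫⁻ p : Pc i, ‖wP Z P n n' η η' i p‖ₑ *
      ‖Ψ i.1 p.1 i.2.1 i.2.2 p.2‖ₑ ∂(mP i) =
      ∫⁻ O : Fin (i.1 : ℕ) → Xo, (∫⁻ x, ‖wP Z P n n' η η' i (O, x)‖ₑ *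
        ‖Ψ i.1 O i.2.1 i.2.2 x‖ₑ) ∂(Measure.pi fun _ => nu) := by
    intro i
    unfold mP
    exact lintegral_prod _ (hm i).aemeasurable
  rw [e1, Fintype.sum_prod_type]
  unfold FA
  rw [Finset.sum_range]
  refine Finset.sum_congr rfl fun r _ => ?_
  simp only [e2]
  have e3 : ∑ ab : Fin (n + 1) × Fin (n' + 1), ∫⁻ O : Fin (r : ℕ) → Xo,
      (∫⁻ x, ‖wP Z P n n' η η' (r, ab) (O, x)‖ₑ * ‖Ψ r O ab.1 ab.2 x‖ₑ)
        ∂(Measure.pi fun _ => nu) =
      ∫⁻ O : Fin (r : ℕ) → Xo, ∑ ab : Fin (n + 1) × Fin (n' + 1),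
        (∫⁻ x, ‖wP Z P n n' η η' (r, ab) (O, x)‖ₑ * ‖Ψ r O ab.1 ab.2 x‖ₑ)
        ∂(Measure.pi fun _ => nu) :=
    (lintegral_finsetSum' _ fun ab _ => ((hm (r, ab)).lintegral_prod_right').aemeasurable).symm
  have e4 : (((r : ℕ).factorial : ℕ) : ℝ≥0∞)⁻¹ *
      ∫⁻ O : Fin (r : ℕ) → Xo, trA Z P n n' η η' Ψ r O ∂(Measure.pi fun _ => nu) =
      ∫⁻ O : Fin (r : ℕ) → Xo, (((r : ℕ).factorial : ℕ) : ℝ≥0∞)⁻¹ * trA Z P n n' η η' Ψ r O
        ∂(Measure.pi fun _ => nu) :=
    (lintegral_const_mul' _ _ (ENNReal.inv_ne_top.2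
      (by exact_mod_cast Nat.factorial_ne_zero _))).symm
  rw [e3, e4]
  exact lintegral_congr fun O => (sum_wP_enorm Ψ r O).symm

/-- integrability with respect to the weight -/
theorem WI_of (h : MC Z P η η') {Ψ : Ins} (hΨ : MIn Ψ) (hf : FA Z P n n' η η' Ψ < ∞) :
    WI (mC n n') (wC Z P n n' η η') (ev Ψ) := by
  refine ⟨(h.wC.mul hΨ.ev).aestronglyMeasurable, ?_⟩
  rw [FA_eq h hΨ] at hf
  unfold HasFiniteIntegral
  simpa only [enorm_mul] using hf

/-- **the functional as an integral** -/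
theorem FF_eq (h : MC Z P η η') {Ψ : Ins} (hΨ : MIn Ψ) (hf : FA Z P n n' η η' Ψ < ∞) :
    FF Z P n n' η η' Ψ = F (mC n n') (wC Z P n n' η η') (ev Ψ) := by
  have hI := WI_of h hΨ hf
  have hI' : ∀ i : CIx n n', Integrable (fun p : Pc i => wP Z P n n' η η' i p *
      Ψ i.1 p.1 i.2.1 i.2.2 p.2) (mP i) := integrable_sig.1 hI
  have e1 : F (mC n n') (wC Z P n n' η η') (ev Ψ) =
      ∑ i : CIx n n', ∫ p : Pc i, wP Z P n n' η η' i p * Ψ i.1 p.1 i.2.1 i.2.2 p.2 ∂(mP i) :=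
    F_sig hI'
  have e2 : ∀ i : CIx n n', ∫ p : Pc i, wP Z P n n' η η' i p * Ψ i.1 p.1 i.2.1 i.2.2 p.2 ∂(mP i) =
      ∫ O : Fin (i.1 : ℕ) → Xo, (∫ x, wP Z P n n' η η' i (O, x) * Ψ i.1 O i.2.1 i.2.2 x)
        ∂(Measure.pi fun _ => nu) := by
    intro i
    have := hI' i
    unfold mP at this ⊢
    exact integral_prod _ this
  rw [e1, Fintype.sum_prod_type]
  unfold FF
  rw [Finset.sum_range]
  refine Finset.sum_congr rfl fun r _ => ?_
  simp only [e2]
  have e3 : ∑ ab : Fin (n + 1) × Fin (n' + 1), ∫ O : Fin (r : ℕ) → Xo,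
      (∫ x, wP Z P n n' η η' (r, ab) (O, x) * Ψ r O ab.1 ab.2 x)
        ∂(Measure.pi fun _ => nu) =
      ∫ O : Fin (r : ℕ) → Xo, ∑ ab : Fin (n + 1) × Fin (n' + 1),
        (∫ x, wP Z P n n' η η' (r, ab) (O, x) * Ψ r O ab.1 ab.2 x)
        ∂(Measure.pi fun _ => nu) := by
    refine (integral_finsetSum _ fun ab _ => ?_).symm
    have := hI' (r, ab)
    unfold mP at this
    exact this.integral_prod_left
  have e4 : (((r : ℕ).factorial : ℕ) : ℂ)⁻¹ *
      ∫ O : Fin (r : ℕ) → Xo, trm Z P n n' η η' Ψ r O ∂(Measure.pi fun _ => nu) =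
      ∫ O : Fin (r : ℕ) → Xo, (((r : ℕ).factorial : ℕ) : ℂ)⁻¹ * trm Z P n n' η η' Ψ r O
        ∂(Measure.pi fun _ => nu) := (integral_const_mul _ _).symm
  rw [e3, e4]
  exact integral_congr_ae (Filter.Eventually.of_forall fun O => (sum_wP Ψ r O).symm)

/-! ### the sum over the number of quanta -/

section sumn

/-- the number of the additional quanta Y, `N = 2 *` number of rows -/
def dN (N : ℕ) : ℕ := Fil.xn (N / 2)

@[simp] theorem dN_two (m : ℕ) : dN (2 * m) = Fil.xn m := by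
  unfold dN
  rw [Nat.mul_div_cancel_left m (by norm_num)]

/-- configurations with `n ≤ N` quanta X and `n + dN N` quanta Y -/
abbrev CfN (N : ℕ) : Type := Σ n : Fin (N + 1), Cf (n : ℕ) ((n : ℕ) + dN N)

/-- the measure -/
def mN (N : ℕ) : Measure (CfN N) := sig fun n => mC (n : ℕ) ((n : ℕ) + dN N)

instance (N : ℕ) : SFinite (mN N) := by unfold mN; infer_instance

variable (Z : ℕ → Bool → Option O3 → ℂ → ℂ) (P : ℕ → NUO.Par) (N : ℕ) (η η' : ℕ → Crs) (c : ℕ → ℂ)

/-- the weight -/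
def wN : CfN N → ℂ := fun x =>
  c x.1 * wC (Z x.1) (P x.1) x.1 (x.1 + dN N) (η x.1) (η' x.1) x.2

/-- the insertion -/
def evN {N : ℕ} (Ψ : ℕ → Ins) : CfN N → ℂ := fun x => ev (Ψ x.1) x.2

/-- the sum of the functionals -/
def FFN (Ψ : ℕ → Ins) : ℂ :=
  ∑ n ∈ range (N + 1), c n * FF (Z n) (P n) n (n + dN N) (η n) (η' n) (Ψ n)

/-- the sum of the moduli -/
def FAN (Ψ : ℕ → Ins) : ℝ≥0∞ :=
  ∑ n ∈ range (N + 1), ‖c n‖ₑ * FA (Z n) (P n) n (n + dN N) (η n) (η' n) (Ψ n)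

variable {Z P N η η' c}

theorem evN_meas {Ψ : ℕ → Ins} (h : ∀ n ≤ N, MIn (Ψ n)) : Measurable (evN Ψ : CfN N → ℂ) :=
  meas_sig.2 fun n => (h n (by omega)).ev

theorem wN_meas (h : ∀ n ≤ N, MC (Z n) (P n) (η n) (η' n)) : Measurable (wN Z P N η η' c) :=
  meas_sig.2 fun n =>
    ((h n (by omega)).wC (n := (n : ℕ)) (n' := (n : ℕ) + dN N)).const_mul (c n)

/-- **the sum of the moduli as an integral** -/
theorem FAN_eq (h : ∀ n ≤ N, MC (Z n) (P n) (η n) (η' n)) {Ψ : ℕ → Ins}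
    (hΨ : ∀ n ≤ N, MIn (Ψ n)) :
    FAN Z P N η η' c Ψ = ∫⁻ x, ‖wN Z P N η η' c x‖ₑ * ‖evN Ψ x‖ₑ ∂(mN N) := by
  unfold FAN mN
  rw [lintegral_sig, Finset.sum_range]
  refine Finset.sum_congr rfl fun n _ => ?_
  rw [FA_eq (h n (by omega)) (hΨ n (by omega)), ← lintegral_const_mul' _ _ enorm_ne_top]
  refine lintegral_congr fun x => ?_
  unfold wN evN
  rw [enorm_mul, mul_assoc]

theorem WIN_of (h : ∀ n ≤ N, MC (Z n) (P n) (η n) (η' n)) {Ψ : ℕ → Ins}
    (hΨ : ∀ n ≤ N, MIn (Ψ n)) (hf : FAN Z P N η η' c Ψ < ∞) :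
    WI (mN N) (wN Z P N η η' c) (evN Ψ) := by
  refine ⟨((wN_meas h).mul (evN_meas hΨ)).aestronglyMeasurable, ?_⟩
  rw [FAN_eq h hΨ] at hf
  unfold HasFiniteIntegral
  simpa only [enorm_mul] using hf

/-- **the sum of the functionals as an integral**; `FA` must be finite also where `c n = 0` -/
theorem FFN_eq (h : ∀ n ≤ N, MC (Z n) (P n) (η n) (η' n)) {Ψ : ℕ → Ins}
    (hΨ : ∀ n ≤ N, MIn (Ψ n)) (hf : FAN Z P N η η' c Ψ < ∞) :
    FFN Z P N η η' c Ψ = F (mN N) (wN Z P N η η' c) (evN Ψ) := by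
  have hI := WIN_of h hΨ hf
  have hI' := integrable_sig.1 hI
  have e1 : F (mN N) (wN Z P N η η' c) (evN Ψ) = ∑ n : Fin (N + 1),
      ∫ x, wN Z P N η η' c ⟨n, x⟩ * evN Ψ ⟨n, x⟩ ∂(mC (n : ℕ) ((n : ℕ) + dN N)) := F_sig hI'
  rw [e1]
  unfold FFN
  rw [Finset.sum_range]
  refine Finset.sum_congr rfl fun n _ => ?_
  have hn : (n : ℕ) ≤ N := by omega
  by_cases hc : c n = 0
  · have e2 : ∀ x, wN Z P N η η' c ⟨n, x⟩ * evN Ψ ⟨n, x⟩ = 0 := by
      intro x
      unfold wN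
      simp only
      rw [hc, zero_mul, zero_mul]
    simp only [e2, integral_zero]
    rw [hc, zero_mul]
  · have hfn : FA (Z n) (P n) n (n + dN N) (η n) (η' n) (Ψ n) < ∞ := by
      have h1 : ‖c n‖ₑ * FA (Z n) (P n) n (n + dN N) (η n) (η' n) (Ψ n) < ∞ := by
        unfold FAN at hf
        rw [ENNReal.sum_lt_top] at hf
        exact hf n (Finset.mem_range.2 (by omega))
      by_contra h2
      rw [not_lt, top_le_iff] at h2
      rw [h2, ENNReal.mul_top (enorm_ne_zero.2 hc)] at h1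
      exact lt_irrefl _ h1
    rw [FF_eq (h n hn) (hΨ n hn) hfn]
    unfold F
    rw [← integral_const_mul]
    refine integral_congr_ae (Filter.Eventually.of_forall fun x => ?_)
    unfold wN evN
    simp only
    ring

end sumn

end PBF.PLX
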