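import Pool.Agent.PLX.Ns
import Pool.Agent.PLX.PB.Conf
import Pool.Agent.PB.F0

/-!
# Plan B: linear statistics inside the functional on the curves

* `cst`, `csA`: the constituents (species, kind, position) of an object, of a configuration: heads,
  satellites as quanta, quanta on the curve;
* `StF a P η`: the linear statistic of the one body function `a`; `Fa_eq`: `Fa g` is the product;
* `MIn.StF`, `MIn.Fa`: measurability;
* `hasDerivAt_FF`: the derivative at `ε = 0` of `FF (tw Z a ε) Ψ` is `FF Z (Ψ * StF a)`.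
-/

set_option autoImplicit false
set_option linter.unusedSectionVars false

noncomputable section

open Complex MeasureTheory Finset
open scoped ENNReal

open PLX (Fil)

namespace PBF.PLX

open NUO NUP1 NUCR NUP1S NUP1S.Ab NUP1S.AbC NUGC NUGC.PLX PBFunc PBFunc.PLX
open PBI (Stt tw)

/-! ### products of `1 + ε a` over a list -/

/-- product of `1 + ε a` -/
def lp (L : List ℂ) (ε : ℂ) : ℂ := (L.map fun a => 1 + ε * a).prod

/-- its derivative -/
def dlp : List ℂ → ℂ → ℂ
  | [], _ => 0
  | a :: L, ε => a * lp L ε + (1 + ε * a) * dlp L ε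

theorem lp_cons (a : ℂ) (L : List ℂ) (ε : ℂ) : lp (a :: L) ε = (1 + ε * a) * lp L ε := by
  simp [lp]

theorem lp_zero (L : List ℂ) : lp L 0 = 1 := by
  induction L with
  | nil => rfl
  | cons a L ih => rw [lp_cons, ih, zero_mul, add_zero, one_mul]

theorem hasDerivAt_lp (L : List ℂ) (ε : ℂ) : HasDerivAt (lp L) (dlp L ε) ε := by
  induction L with
  | nil => exact hasDerivAt_const _ _
  | cons a L ih =>
    have h1 : HasDerivAt (fun ε : ℂ => 1 + ε * a) a ε := by
      simpa using ((hasDerivAt_id ε).mul_const a).const_add 1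
    have h2 := h1.mul ih
    refine (h2.congr_of_eventuallyEq (Filter.Eventually.of_forall fun e => lp_cons a L e))

theorem dlp_zero (L : List ℂ) : dlp L 0 = L.sum := by
  induction L with
  | nil => rfl
  | cons a L ih =>
    show a * lp L 0 + (1 + 0 * a) * dlp L 0 = _
    rw [lp_zero, ih, List.sum_cons]
    ring

theorem norm_one_add_le {a ε : ℂ} {C : ℝ} (h : ‖a‖ ≤ C) (hε : ‖ε‖ ≤ 1) : ‖1 + ε * a‖ ≤ 1 + C := by
  refine (norm_add_le _ _).trans ?_
  rw [norm_one, norm_mul]
  have := mul_le_mul hε h (norm_nonneg _) zero_le_one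
  linarith

theorem norm_lp_le {L : List ℂ} {C : ℝ} (hC : 0 ≤ C) (h : ∀ a ∈ L, ‖a‖ ≤ C) {ε : ℂ}
    (hε : ‖ε‖ ≤ 1) : ‖lp L ε‖ ≤ (1 + C) ^ L.length := by
  induction L with
  | nil => simp [lp]
  | cons a L ih =>
    rw [lp_cons, norm_mul, List.length_cons, pow_succ']
    exact mul_le_mul (norm_one_add_le (h a List.mem_cons_self) hε)
      (ih fun b hb => h b (List.mem_cons_of_mem _ hb)) (norm_nonneg _) (by positivity)

theorem norm_dlp_le {L : List ℂ} {C : ℝ} (hC : 0 ≤ C) (h : ∀ a ∈ L, ‖a‖ ≤ C) {ε : ℂ}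
    (hε : ‖ε‖ ≤ 1) : ‖dlp L ε‖ ≤ L.length * (C * (1 + C) ^ L.length) := by
  induction L with
  | nil => simp [dlp]
  | cons a L ih =>
    have h1 := h a List.mem_cons_self
    have h2 := ih fun b hb => h b (List.mem_cons_of_mem _ hb)
    have h3 := norm_lp_le hC (fun b hb => h b (List.mem_cons_of_mem _ hb)) (L := L) hε
    show ‖a * lp L ε + (1 + ε * a) * dlp L ε‖ ≤ _
    refine (norm_add_le _ _).trans ?_
    rw [norm_mul, norm_mul, List.length_cons]
    have h4 : ‖a‖ * ‖lp L ε‖ ≤ C * (1 + C) ^ (L.length + 1) := by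
      refine mul_le_mul h1 (h3.trans ?_) (norm_nonneg _) hC
      exact pow_le_pow_right₀ (by linarith) (Nat.le_succ _)
    have h5 : ‖1 + ε * a‖ * ‖dlp L ε‖ ≤ (1 + C) * (L.length * (C * (1 + C) ^ L.length)) :=
      mul_le_mul (norm_one_add_le h1 hε) h2 (norm_nonneg _) (by linarith)
    have h6 : (1 + C) * (L.length * (C * (1 + C) ^ L.length)) =
        L.length * (C * (1 + C) ^ (L.length + 1)) := by ring
    push_cast
    linarith

/-- **derivative of the abstract functional** -/
theorem hasDerivAt_Flist {Ω : Type*} [MeasurableSpace Ω] {μ : Measure Ω} {w O : Ω → ℂ}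
    (hI : WI μ w O) {L : Ω → List ℂ} {N : ℕ} {C : ℝ} (hC : 0 ≤ C) (hN : ∀ ω, (L ω).length ≤ N)
    (hL : ∀ ω, ∀ a ∈ L ω, ‖a‖ ≤ C) (hm : ∀ ε : ℂ, AEStronglyMeasurable (fun ω => lp (L ω) ε) μ)
    (hs : AEStronglyMeasurable (fun ω => (L ω).sum) μ) :
    HasDerivAt (fun ε => F μ w fun ω => O ω * lp (L ω) ε) (F μ w fun ω => O ω * (L ω).sum) 0 := by
  unfold WI at hI
  have key := hasDerivAt_integral_of_dominated_loc_of_deriv_le (μ := μ) (𝕜 := ℂ)
    (F := fun ε ω => (w ω * O ω) * lp (L ω) ε)
    (F' := fun ε ω => (w ω * O ω) * dlp (L ω) ε)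
    (x₀ := 0) (s := Metric.ball 0 1)
    (bound := fun ω => ‖w ω * O ω‖ * (N * (C * (1 + C) ^ N)))
    (Metric.ball_mem_nhds _ one_pos) (Filter.Eventually.of_forall fun ε => hI.1.mul (hm ε))
    (by simpa only [lp_zero, mul_one] using hI)
    (by
      simp only [dlp_zero]
      exact hI.1.mul hs) ?_ (hI.norm.mul_const _) ?_
  · have h2 := key.2
    refine (h2.congr_deriv ?_).congr_of_eventuallyEq (Filter.Eventually.of_forall fun ε => ?_)
    · unfold F
      refine integral_congr_ae (Filter.Eventually.of_forall fun ω => ?_)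
      simp only [dlp_zero]
      ring
    · unfold F
      refine integral_congr_ae (Filter.Eventually.of_forall fun ω => ?_)
      simp only []
      ring
  · refine Filter.Eventually.of_forall fun ω ε hε => ?_
    rw [norm_mul]
    refine mul_le_mul_of_nonneg_left ?_ (norm_nonneg _)
    have hε' : ‖ε‖ ≤ 1 := by
      rw [Metric.mem_ball, dist_zero_right] at hε
      exact hε.le
    refine (norm_dlp_le hC (hL ω) hε').trans ?_
    have h1 : ((L ω).length : ℝ) ≤ N := by exact_mod_cast hN ω
    have h2 : (1 + C) ^ (L ω).length ≤ (1 + C) ^ N := pow_le_pow_right₀ (by linarith) (hN ω)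
    exact mul_le_mul h1 (mul_le_mul_of_nonneg_left h2 hC) (by positivity) (by positivity)
  · refine Filter.Eventually.of_forall fun ω ε _ => ?_
    exact (hasDerivAt_lp (L ω) ε).const_mul _

/-! ### constituents -/

/-- a constituent: species, kind, position -/
abbrev Cst : Type := (Bool × Option O3) × ℂ

/-- value of a one body function at a constituent -/
def ap (a : Stt) (c : Cst) : ℂ := a c.1.1 c.1.2 c.2

/-- the constituents of an object -/
def cst (jL e ρ : ℝ) (x : Xo) : List Cst :=
  match kd x with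
  | .L => [((sp x, some .L), posL jL (ht x))]
  | .St => [((sp x, some .T), posT (ht x))]
  | .S => [((sp x, some .S), posS e (ht x))]
  | .Sv => [((sp x, some .S), posS e (ht x)), ((!sp x, none), posV e ρ (ht x) (an x))]
  | .Svv => [((sp x, some .S), posS e (ht x)), ((!sp x, none), posS e (ht x) + 2 * l),
      ((!sp x, none), posS e (ht x) + 2 * l)]

theorem cst_length (jL e ρ : ℝ) (x : Xo) : (cst jL e ρ x).length ≤ 3 := by
  unfold cst
  rcases kd x with _ | _ | _ | _ | _ <;> simp

variable [Fil] {r a b : ℕ}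

/-- the constituents of a configuration -/
def csA (P : NUO.Par) (η : ℝ → ℝ) (O : Fin r → Xo) (x : (Fin a → ℝ) × (Fin b → ℝ)) : List Cst :=
  (List.ofFn fun i => cst P.jL (ei P O i) (rr P O i) (O i)).flatten ++
    ((List.ofFn fun i => (((true, none), NUO.pA (Fil.cv true η) (x.1 i)) : Cst)) ++
      List.ofFn fun j => (((false, none), NUO.pA (Fil.cv false η) (x.2 j)) : Cst))

theorem csA_length (P : NUO.Par) (η : ℝ → ℝ) (O : Fin r → Xo) (x : (Fin a → ℝ) × (Fin b → ℝ)) :
    (csA P η O x).length ≤ 3 * r + (a + b) := by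
  unfold csA
  rw [List.length_append, List.length_append, List.length_ofFn, List.length_ofFn,
    List.length_flatten, List.map_ofFn, List.sum_ofFn]
  refine Nat.add_le_add_right ?_ _
  calc _ ≤ ∑ _i : Fin r, 3 := Finset.sum_le_sum fun i _ => cst_length _ _ _ _
    _ = _ := by
      rw [Finset.sum_const, Finset.card_univ, Fintype.card_fin, smul_eq_mul, mul_comm]

theorem obF_eq (g : Stt) (jL e ρ : ℝ) (x : Xo) : obF g jL e ρ x = ((cst jL e ρ x).map (ap g)).prod := by
  unfold obF cst
  rcases kd x with _ | _ | _ | _ | _ <;> simp [ap, sq]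

/-- **the product over the constituents** -/
theorem Fa_eq (g : Stt) (P : NUO.Par) (η : Crs) (O : Fin r → Xo) (x : (Fin a → ℝ) × (Fin b → ℝ)) :
    Fa g P η r O a b x = ((csA P (η r O) O x).map (ap g)).prod := by
  unfold Fa csA quF
  rw [List.map_append, List.prod_append, List.map_append, List.prod_append, List.map_ofFn,
    List.map_ofFn, List.prod_ofFn, List.prod_ofFn, List.map_flatten, List.prod_flatten,
    List.map_map, List.map_ofFn, List.prod_ofFn]
  simp only [obF_eq]
  rfl

/-- **the linear statistic** of a configuration -/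
def StF (s : Stt) (P : NUO.Par) (η : Crs) : Ins := fun r O _ _ x =>
  ((csA P (η r O) O x).map (ap s)).sum

/-- the statistic of an object -/
def obSt (s : Stt) (jL e ρ : ℝ) (x : Xo) : ℂ := ((cst jL e ρ x).map (ap s)).sum

theorem StF_eq (s : Stt) (P : NUO.Par) (η : Crs) (O : Fin r → Xo)
    (x : (Fin a → ℝ) × (Fin b → ℝ)) :
    StF s P η r O a b x = (∑ i, obSt s P.jL (ei P O i) (rr P O i) (O i)) +
      ((∑ i, s true none (NUO.pA (Fil.cv true (η r O)) (x.1 i))) +
        ∑ j, s false none (NUO.pA (Fil.cv false (η r O)) (x.2 j))) := by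
  unfold StF csA obSt
  rw [List.map_append, List.sum_append, List.map_append, List.sum_append, List.map_ofFn,
    List.map_ofFn, List.sum_ofFn, List.sum_ofFn, List.map_flatten, List.sum_flatten,
    List.map_map, List.map_ofFn, List.sum_ofFn]
  rfl

theorem Fa_tw (s : Stt) (ε : ℂ) (P : NUO.Par) (η : Crs) (O : Fin r → Xo)
    (x : (Fin a → ℝ) × (Fin b → ℝ)) :
    Fa (fun c k z => 1 + ε * s c k z) P η r O a b x = lp ((csA P (η r O) O x).map (ap s)) ε := by
  rw [Fa_eq]
  unfold lp
  rw [List.map_map]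
  rfl

/-! ### measurability -/

theorem measurable_obSt' {Y : Type*} [MeasurableSpace Y] {s : Stt}
    (hs : ∀ c k, Measurable (s c k)) (jL e : ℝ) (k : Bool × Kind)
    {t α ρ : Y → ℝ} (ht : Measurable t) (ha : Measurable α) (hρ : Measurable ρ) :
    Measurable fun y => obSt s jL e (ρ y) (k, (t y, α y)) := by
  obtain ⟨c, k⟩ := k
  have hS : Measurable fun y => posS e (t y) := NUO.measurable_vl ht _
  have hS' : Measurable fun y => posS e (t y) + 2 * l := hS.add_const _
  have hV := measurable_posV ht ha hρ e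
  have hL : Measurable fun y => posL jL (t y) := NUO.measurable_vl ht _
  have hT : Measurable fun y => posT (t y) := NUO.measurable_vl ht _
  have m0 : Measurable fun _ : Y => (0 : ℂ) := measurable_const
  cases k
  · exact ((hs c (some .L)).comp hL).add m0
  · exact ((hs c (some .T)).comp hT).add m0
  · exact ((hs c (some .S)).comp hS).add m0
  · exact ((hs c (some .S)).comp hS).add (((hs (!c) none).comp hV).add m0)
  · exact ((hs c (some .S)).comp hS).add
      (((hs (!c) none).comp hS').add (((hs (!c) none).comp hS').add m0))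

theorem measurable_obF' {Y : Type*} [MeasurableSpace Y] {s : Stt}
    (hs : ∀ c k, Measurable (s c k)) (jL e : ℝ) (k : Bool × Kind)
    {t α ρ : Y → ℝ} (ht : Measurable t) (ha : Measurable α) (hρ : Measurable ρ) :
    Measurable fun y => obF s jL e (ρ y) (k, (t y, α y)) := by
  obtain ⟨c, k⟩ := k
  have hS : Measurable fun y => posS e (t y) := NUO.measurable_vl ht _
  have hS' : Measurable fun y => posS e (t y) + 2 * l := hS.add_const _
  have hV := measurable_posV ht ha hρ e
  have hL : Measurable fun y => posL jL (t y) := NUO.measurable_vl ht _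
  have hT : Measurable fun y => posT (t y) := NUO.measurable_vl ht _
  cases k
  · exact (hs c (some .L)).comp hL
  · exact (hs c (some .T)).comp hT
  · exact (hs c (some .S)).comp hS
  · exact ((hs c (some .S)).comp hS).mul ((hs (!c) none).comp hV)
  · exact ((hs c (some .S)).comp hS).mul (((hs (!c) none).comp hS').pow_const 2)

section meas

variable {P : NUO.Par} (hP : ∀ r, Measurable (P.rad r)) {s : Stt}
  (hs : ∀ c k, Measurable (s c k)) {η η' : Crs} (hc : MCr η η')

include hP hs

theorem measurable_obSt (i : Fin r) :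
    Measurable fun O : Fin r → Xo => obSt s P.jL (ei P O i) (rr P O i) (O i) := by
  refine measurable_config' fun K => ?_
  have ht : Measurable fun y : Fin r → ℝ × ℝ => (y i).1 :=
    measurable_fst.comp (measurable_pi_apply i)
  have ha : Measurable fun y : Fin r → ℝ × ℝ => (y i).2 :=
    measurable_snd.comp (measurable_pi_apply i)
  exact measurable_obSt' hs P.jL (ei P (fun i => (K i, ((0 : ℝ), (0 : ℝ)))) i) (K i) ht ha
    ((hP r).comp ht)

theorem measurable_obFr (i : Fin r) :
    Measurable fun O : Fin r → Xo => obF s P.jL (ei P O i) (rr P O i) (O i) := by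
  refine measurable_config' fun K => ?_
  have ht : Measurable fun y : Fin r → ℝ × ℝ => (y i).1 :=
    measurable_fst.comp (measurable_pi_apply i)
  have ha : Measurable fun y : Fin r → ℝ × ℝ => (y i).2 :=
    measurable_snd.comp (measurable_pi_apply i)
  exact measurable_obF' hs P.jL (ei P (fun i => (K i, ((0 : ℝ), (0 : ℝ)))) i) (K i) ht ha
    ((hP r).comp ht)

include hc

theorem measurable_qs (c : Bool) : Measurable fun p : (Fin r → Xo) × ℝ =>
    s c none (NUO.pA (Fil.cv c (η r p.1)) p.2) := by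
  have h0 := hc.m r
  have hpos : Measurable fun p : (Fin r → Xo) × ℝ => NUO.pA (Fil.cv c (η r p.1)) p.2 := by
    unfold NUO.pA vl Fil.cv
    fun_prop
  exact (hs c none).comp hpos

theorem MIn.StF : MIn (PBF.PLX.StF s P η) := by
  intro r a b
  have h1 : Measurable fun p : (Fin r → Xo) × ((Fin a → ℝ) × (Fin b → ℝ)) =>
      ∑ i, obSt s P.jL (ei P p.1 i) (rr P p.1 i) (p.1 i) :=
    (Finset.measurable_fun_sum _ fun i _ => measurable_obSt hP hs i).comp measurable_fst
  have h2 : Measurable fun p : (Fin r → Xo) × ((Fin a → ℝ) × (Fin b → ℝ)) =>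
      ∑ i, s true none (NUO.pA (Fil.cv true (η r p.1)) (p.2.1 i)) := by
    refine Finset.measurable_fun_sum _ fun i _ => ?_
    have e1 : Measurable fun p : (Fin r → Xo) × ((Fin a → ℝ) × (Fin b → ℝ)) =>
        (p.1, p.2.1 i) := measurable_fst.prodMk
      ((measurable_pi_apply i).comp (measurable_fst.comp measurable_snd))
    refine (congrArg Measurable (funext fun p => ?_)).mpr
      ((measurable_qs (r := r) hP hs hc true).comp e1)
    rfl
  have h3 : Measurable fun p : (Fin r → Xo) × ((Fin a → ℝ) × (Fin b → ℝ)) =>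
      ∑ i, s false none (NUO.pA (Fil.cv false (η r p.1)) (p.2.2 i)) := by
    refine Finset.measurable_fun_sum _ fun i _ => ?_
    have e1 : Measurable fun p : (Fin r → Xo) × ((Fin a → ℝ) × (Fin b → ℝ)) =>
        (p.1, p.2.2 i) := measurable_fst.prodMk
      ((measurable_pi_apply i).comp (measurable_snd.comp measurable_snd))
    refine (congrArg Measurable (funext fun p => ?_)).mpr
      ((measurable_qs (r := r) hP hs hc false).comp e1)
    rfl
  simp only [StF_eq]
  exact h1.add (h2.add h3)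

theorem MIn.Fa : MIn (PBF.PLX.Fa s P η) := by
  intro r a b
  have h1 : Measurable fun p : (Fin r → Xo) × ((Fin a → ℝ) × (Fin b → ℝ)) =>
      ∏ i, obF s P.jL (ei P p.1 i) (rr P p.1 i) (p.1 i) :=
    (Finset.measurable_fun_prod _ fun i _ => measurable_obFr hP hs i).comp measurable_fst
  have h2 : Measurable fun p : (Fin r → Xo) × ((Fin a → ℝ) × (Fin b → ℝ)) =>
      ∏ i, s true none (NUO.pA (Fil.cv true (η r p.1)) (p.2.1 i)) := by
    refine Finset.measurable_fun_prod _ fun i _ => ?_
    have e1 : Measurable fun p : (Fin r → Xo) × ((Fin a → ℝ) × (Fin b → ℝ)) =>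
        (p.1, p.2.1 i) := measurable_fst.prodMk
      ((measurable_pi_apply i).comp (measurable_fst.comp measurable_snd))
    refine (congrArg Measurable (funext fun p => ?_)).mpr
      ((measurable_qs (r := r) hP hs hc true).comp e1)
    rfl
  have h3 : Measurable fun p : (Fin r → Xo) × ((Fin a → ℝ) × (Fin b → ℝ)) =>
      ∏ i, s false none (NUO.pA (Fil.cv false (η r p.1)) (p.2.2 i)) := by
    refine Finset.measurable_fun_prod _ fun i _ => ?_
    have e1 : Measurable fun p : (Fin r → Xo) × ((Fin a → ℝ) × (Fin b → ℝ)) =>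
        (p.1, p.2.2 i) := measurable_fst.prodMk
      ((measurable_pi_apply i).comp (measurable_snd.comp measurable_snd))
    refine (congrArg Measurable (funext fun p => ?_)).mpr
      ((measurable_qs (r := r) hP hs hc false).comp e1)
    rfl
  exact h1.mul (h2.mul h3)

end meas

/-! ### bounded statistics -/

/-- the one body function is bounded by `C` at all constituents of the configurations with at most
`N` objects -/
def CBd (s : Stt) (P : NUO.Par) (η : Crs) (N : ℕ) (C : ℝ) : Prop :=
  ∀ r ≤ N, ∀ (O : Fin r → Xo) (a b : ℕ) (x : (Fin a → ℝ) × (Fin b → ℝ)),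
    ∀ c ∈ csA P (η r O) O x, ‖ap s c‖ ≤ C

section deriv

variable {Z s : Stt} {P : NUO.Par} {n n' : ℕ} {η η' : Crs} {Ψ : Ins} {C : ℝ}

/-- finiteness with a bounded factor -/
theorem FA_mul_lt (hM : MC Z P η η') (hΨ : MIn Ψ) (hf : FA Z P n n' η η' Ψ < ∞) {Φ : Ins}
    (hΦ : MIn Φ) {K : ℝ} (hK : ∀ r ≤ n + n', ∀ (O : Fin r → Xo) (a b : ℕ), a ≤ n → b ≤ n' →
      ∀ (x : (Fin a → ℝ) × (Fin b → ℝ)), ‖Φ r O a b x‖ ≤ K) :
    FA Z P n n' η η' (fun r O a b x => Ψ r O a b x * Φ r O a b x) < ∞ := by
  have hm : MIn (fun r O a b x => Ψ r O a b x * Φ r O a b x) := fun r a b => (hΨ r a b).mul (hΦ r a b)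
  rw [FA_eq hM hm]
  rw [FA_eq hM hΨ] at hf
  refine lt_of_le_of_lt (b := ENNReal.ofReal K *
    ∫⁻ c, ‖wC Z P n n' η η' c‖ₑ * ‖ev Ψ c‖ₑ ∂(mC n n')) ?_ (ENNReal.mul_lt_top
      ENNReal.ofReal_lt_top hf)
  rw [← lintegral_const_mul' _ _ ENNReal.ofReal_ne_top]
  refine lintegral_mono fun c => ?_
  have h1 : ‖ev (n := n) (n' := n') (fun r O a b x => Ψ r O a b x * Φ r O a b x) c‖ₑ =
      ‖ev Ψ c‖ₑ * ‖ev Φ c‖ₑ := enorm_mul _ _
  have h2 : ‖ev Φ c‖ₑ ≤ ENNReal.ofReal K := by
    rw [← ofReal_norm]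
    refine ENNReal.ofReal_le_ofReal (hK _ ?_ _ _ _ ?_ ?_ _)
    · have := c.1.1.2
      omega
    · have := c.1.2.1.2
      omega
    · have := c.1.2.2.2
      omega
  rw [h1]
  calc ‖wC Z P n n' η η' c‖ₑ * (‖ev Ψ c‖ₑ * ‖ev Φ c‖ₑ)
      = ‖ev Φ c‖ₑ * (‖wC Z P n n' η η' c‖ₑ * ‖ev Ψ c‖ₑ) := by ring
    _ ≤ _ := mul_le_mul' h2 le_rfl

theorem norm_Fa_tw_le (hC : 0 ≤ C) (hB : CBd s P η (n + n') C) {ε : ℂ} (hε : ‖ε‖ ≤ 1)
    {r : ℕ} (hr : r ≤ n + n') (O : Fin r → Xo) {a b : ℕ} (ha : a ≤ n) (hb : b ≤ n')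
    (x : (Fin a → ℝ) × (Fin b → ℝ)) :
    ‖Fa (fun c k z => 1 + ε * s c k z) P η r O a b x‖ ≤ (1 + C) ^ (4 * (n + n')) := by
  rw [Fa_tw]
  refine (norm_lp_le hC (fun z hz => ?_) hε).trans (pow_le_pow_right₀ (by linarith) ?_)
  · rw [List.mem_map] at hz
    obtain ⟨c, hc, rfl⟩ := hz
    exact hB r hr O a b x c hc
  · rw [List.length_map]
    have := csA_length P (η r O) O x
    omega

theorem norm_StF_le (hB : CBd s P η (n + n') C)
    {r : ℕ} (hr : r ≤ n + n') (O : Fin r → Xo) {a b : ℕ} (ha : a ≤ n) (hb : b ≤ n')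
    (x : (Fin a → ℝ) × (Fin b → ℝ)) (hC : 0 ≤ C) :
    ‖StF s P η r O a b x‖ ≤ (4 * (n + n') : ℕ) * C := by
  unfold StF
  have key : ∀ L : List ℂ, (∀ z ∈ L, ‖z‖ ≤ C) → ‖L.sum‖ ≤ L.length * C := by
    intro L
    induction L with
    | nil => simp
    | cons z L ih =>
      intro h
      rw [List.sum_cons, List.length_cons]
      refine (norm_add_le _ _).trans ?_
      have h1 := h z List.mem_cons_self
      have h2 := ih fun b hb => h b (List.mem_cons_of_mem _ hb)
      push_cast
      linarith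
  refine (key _ fun z hz => ?_).trans (mul_le_mul_of_nonneg_right ?_ hC)
  · rw [List.mem_map] at hz
    obtain ⟨c, hc, rfl⟩ := hz
    exact hB r hr O a b x c hc
  · rw [List.length_map]
    have := csA_length P (η r O) O x
    exact_mod_cast this.trans (by omega)

/-- **the derivative at `ε = 0` is the insertion of the statistic** -/
theorem hasDerivAt_FF (hP : ∀ r, Measurable (P.rad r)) (hZ : ∀ s k, Measurable (Z s k))
    (hc : MCr η η') (hΨ : MIn Ψ) (hf : FA Z P n n' η η' Ψ < ∞) (hs : ∀ c k, Measurable (s c k))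
    (hC : 0 ≤ C) (hB : CBd s P η (n + n') C) :
    HasDerivAt (fun ε : ℂ => FF (tw Z s ε) P n n' η η' Ψ)
      (FF Z P n n' η η' fun r O a b x => Ψ r O a b x * StF s P η r O a b x) 0 := by
  have hM := MC.of hP hZ hc
  have hI := WI_of hM hΨ hf
  have key := hasDerivAt_Flist (μ := mC n n') (w := wC Z P n n' η η') (O := ev Ψ) hI
    (L := fun c => (csA P (η c.1.1 c.2.1) c.2.1 c.2.2).map (ap s)) (N := 4 * (n + n')) (C := C) hC
    (fun c => by
      rw [List.length_map]
      have h1 := csA_length P (η c.1.1 c.2.1) c.2.1 c.2.2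
      have h2 := c.1.1.2
      have h3 := c.1.2.1.2
      have h4 := c.1.2.2.2
      omega)
    (fun c z hz => by
      rw [List.mem_map] at hz
      obtain ⟨d, hd, rfl⟩ := hz
      have h2 := c.1.1.2
      exact hB _ (by omega) _ _ _ _ d hd)
    (fun ε => by
      have h1 : MIn (Fa (fun c k z => 1 + ε * s c k z) P η) :=
        MIn.Fa hP (fun c k => ((hs c k).const_mul ε).const_add 1) hc
      refine (congrArg (fun f => AEStronglyMeasurable f (mC n n')) (funext fun c => ?_)).mpr
        h1.ev.aestronglyMeasurable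
      exact (Fa_tw s ε P η c.2.1 c.2.2).symm)
    ((MIn.StF hP hs hc).ev.aestronglyMeasurable)
  have hmS : MIn fun r O a b x => Ψ r O a b x * StF s P η r O a b x := fun r a b =>
    (hΨ r a b).mul (MIn.StF hP hs hc r a b)
  have hfS := FA_mul_lt hM hΨ hf (MIn.StF hP hs hc)
    (fun r hr O a b ha hb x => norm_StF_le hB hr O ha hb x hC)
  refine (key.congr_deriv ?_).congr_of_eventuallyEq ?_
  · rw [FF_eq hM hmS hfS]
    rfl
  · have hball : Metric.ball (0 : ℂ) 1 ∈ nhds (0 : ℂ) := Metric.ball_mem_nhds _ one_pos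
    filter_upwards [hball] with ε hε
    have hε' : ‖ε‖ ≤ 1 := by
      rw [Metric.mem_ball, dist_zero_right] at hε
      exact hε.le
    have h1 : MIn (Fa (fun c k z => 1 + ε * s c k z) P η) :=
      MIn.Fa hP (fun c k => ((hs c k).const_mul ε).const_add 1) hc
    have hm : MIn fun r O a b x => Ψ r O a b x *
        Fa (fun c k z => 1 + ε * s c k z) P η r O a b x := fun r a b => (hΨ r a b).mul (h1 r a b)
    have hf1 := FA_mul_lt hM hΨ hf h1
      (fun r hr O a b ha hb x => norm_Fa_tw_le hC hB hε' hr O ha hb x)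
    have e1 : FF (tw Z s ε) P n n' η η' Ψ = FF Z P n n' η η' fun r O a b x =>
        Ψ r O a b x * Fa (fun c k z => 1 + ε * s c k z) P η r O a b x := by
      have := FF_mul Z (fun c k z => 1 + ε * s c k z) P n n' η η' Ψ
      refine Eq.trans ?_ (this.trans ?_)
      · rfl
      · congr 1
        funext r O a b x
        ring
    rw [e1, FF_eq hM hm hf1]
    unfold F
    refine integral_congr_ae (Filter.Eventually.of_forall fun c => ?_)
    show wC Z P n n' η η' c * (Ψ _ _ _ _ _ * Fa (fun c k z => 1 + ε * s c k z) P η _ _ _ _ _) =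
      wC Z P n n' η η' c * (ev Ψ c * lp ((csA P (η c.1.1 c.2.1) c.2.1 c.2.2).map (ap s)) ε)
    rw [Fa_tw]
    rfl

end deriv

end PBF.PLX

end
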