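import Pool.Agent.PLX.Ns
import Pool.Agent.PLX.PB.FDef

/-!
# Plan B, (TR), s-path: the family `Z e^{s D}` of one body functions

* `expZ Z D s`: the one body functions `Z b k u * exp (s * D b k u)`;
* `obT`, `stO`, `stQ`, `stA`: the statistic of `D` (objects with their satellites, quanta on the curve);
* `FF_expZ`, `FA_expZ`: `FF (expZ Z D s) Ψ = FF Z (exp (s A) Ψ)`, `A = stA D`, the same with moduli;
* `FA_conv`: `FA Z (e^{s Re A} Ψ) ≤ (1 - s) λ^s FA Z Ψ + s λ^{s-1} FA Z (e^{Re A} Ψ)`, `FA_geo`: the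
  geometric mean.
-/

set_option autoImplicit false
set_option linter.unusedSectionVars false

noncomputable section

open Complex MeasureTheory Finset
open scoped ENNReal
open PLX (Fil)

namespace PBF.PLX

open NUO NUP1 NUP1S NUP1S.Ab NUP1S.AbC NUGC NUGC.PLX NUCR

variable {r : ℕ}

/-! ### the family -/

/-- the family of one body functions -/
def expZ (Z D : Bool → Option O3 → ℂ → ℂ) (s : ℂ) : Bool → Option O3 → ℂ → ℂ :=
  fun b k u => Z b k u * Complex.exp (s * D b k u)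

/-- the statistic of an object (with its satellites) -/
def obT (D : Bool → Option O3 → ℂ → ℂ) (jL e ρ : ℝ) (x : Xo) : ℂ :=
  match kd x with
  | .L => D (sp x) (some .L) (posL jL (ht x))
  | .St => D (sp x) (some .T) (posT (ht x))
  | .S => D (sp x) (some .S) (posS e (ht x))
  | .Sv => D (sp x) (some .S) (posS e (ht x)) + D (!sp x) none (posV e ρ (ht x) (an x))
  | .Svv => D (sp x) (some .S) (posS e (ht x)) + 2 * D (!sp x) none (posS e (ht x) + 2 * l)

/-- the statistic of the objects -/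
def stO (D : Bool → Option O3 → ℂ → ℂ) (P : NUO.Par) (O : Fin r → Xo) : ℂ :=
  ∑ i, obT D P.jL (ei P O i) (rr P O i) (O i)

variable [Fil]

/-- the statistic of the quanta on the curve -/
def stQ (D : Bool → Option O3 → ℂ → ℂ) (η : ℝ → ℝ) (a b : ℕ) (x : (Fin a → ℝ) × (Fin b → ℝ)) : ℂ :=
  ∑ i, D true none (NUO.pA (Fil.cv true η) (x.1 i)) + ∑ j, D false none (NUO.pA (Fil.cv false η) (x.2 j))

/-- **the total statistic** -/
def stA (D : Bool → Option O3 → ℂ → ℂ) (P : NUO.Par) (η : Crs) : Ins :=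
  fun r O a b x => stO D P O + stQ D (η r O) a b x

theorem expZ_zero (Z D : Bool → Option O3 → ℂ → ℂ) : expZ Z D 0 = Z := by
  funext b k u
  simp [expZ]

theorem obK_expZ (Z D : Bool → Option O3 → ℂ → ℂ) (s : ℂ) (jL e ρ : ℝ) (x : Xo) :
    obK (expZ Z D s) jL e ρ x = obK Z jL e ρ x * Complex.exp (s * obT D jL e ρ x) := by
  unfold obK obT expZ
  rcases h : kd x with _ | _ | _ | _ | _ <;> simp only []
  · ring
  · ring
  · ring
  · rw [mul_add, Complex.exp_add]
    ring
  · rw [show s * (D (sp x) (some .S) (posS e (ht x)) + 2 * D (!sp x) none (posS e (ht x) + 2 * l)) =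
      s * D (sp x) (some .S) (posS e (ht x)) + (s * D (!sp x) none (posS e (ht x) + 2 * l) +
        s * D (!sp x) none (posS e (ht x) + 2 * l)) by ring, Complex.exp_add, Complex.exp_add]
    ring

theorem wK_expZ (Z D : Bool → Option O3 → ℂ → ℂ) (s : ℂ) (P : NUO.Par) (O : Fin r → Xo) :
    wK (expZ Z D s) P O = wK Z P O * Complex.exp (s * stO D P O) := by
  unfold wK stO
  simp only [obK_expZ]
  rw [Finset.prod_mul_distrib, ← Complex.exp_sum, Finset.mul_sum]
  ring

theorem gK_expZ (Z D : Bool → Option O3 → ℂ → ℂ) (s : ℂ) (P : NUO.Par) (O : Fin r → Xo)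
    (η η' : ℝ → ℝ) (a b : ℕ) (x : (Fin a → ℝ) × (Fin b → ℝ)) :
    gK (gF (expZ Z D s) P O) η η' a b x =
      gK (gF Z P O) η η' a b x * Complex.exp (s * stQ D η a b x) := by
  unfold gK Fc
  rw [show (∏ i, NUP1S.hh p0 (gF (expZ Z D s) P O) (cCt a b (crvC true NUP1.l (dA (Fil.cv true η)) (dA (Fil.cv true η')))
      (crvC false NUP1.l (dA (Fil.cv false η)) (dA (Fil.cv false η'))) i) (Sum.elim x.1 x.2 i)) =
      (∏ i, NUP1S.hh p0 (gF Z P O) (cCt a b (crvC true NUP1.l (dA (Fil.cv true η)) (dA (Fil.cv true η')))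
      (crvC false NUP1.l (dA (Fil.cv false η)) (dA (Fil.cv false η'))) i) (Sum.elim x.1 x.2 i)) *
        Complex.exp (s * stQ D η a b x) by
    rw [Fintype.prod_sum_type, Fintype.prod_sum_type]
    unfold stQ
    rw [mul_add, Complex.exp_add, Finset.mul_sum, Finset.mul_sum, Complex.exp_sum, Complex.exp_sum]
    have e1 : ∀ i, NUP1S.hh p0 (gF (expZ Z D s) P O) (cCt a b (crvC true NUP1.l (dA (Fil.cv true η)) (dA (Fil.cv true η')))
        (crvC false NUP1.l (dA (Fil.cv false η)) (dA (Fil.cv false η'))) (Sum.inl i)) (Sum.elim x.1 x.2 (Sum.inl i)) =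
        NUP1S.hh p0 (gF Z P O) (cCt a b (crvC true NUP1.l (dA (Fil.cv true η)) (dA (Fil.cv true η')))
        (crvC false NUP1.l (dA (Fil.cv false η)) (dA (Fil.cv false η'))) (Sum.inl i)) (Sum.elim x.1 x.2 (Sum.inl i)) *
          Complex.exp (s * D true none (NUO.pA (Fil.cv true η) (x.1 i))) := by
      intro i
      unfold NUP1S.hh
      rw [Wt_p0, Wt_p0]
      simp only [cCt, Sum.elim_inl, crvC]
      rw [pA_crv]
      simp only [gF, g2, expZ, if_true]
      ring
    have e2 : ∀ j, NUP1S.hh p0 (gF (expZ Z D s) P O) (cCt a b (crvC true NUP1.l (dA (Fil.cv true η)) (dA (Fil.cv true η')))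
        (crvC false NUP1.l (dA (Fil.cv false η)) (dA (Fil.cv false η'))) (Sum.inr j)) (Sum.elim x.1 x.2 (Sum.inr j)) =
        NUP1S.hh p0 (gF Z P O) (cCt a b (crvC true NUP1.l (dA (Fil.cv true η)) (dA (Fil.cv true η')))
        (crvC false NUP1.l (dA (Fil.cv false η)) (dA (Fil.cv false η'))) (Sum.inr j)) (Sum.elim x.1 x.2 (Sum.inr j)) *
          Complex.exp (s * D false none (NUO.pA (Fil.cv false η) (x.2 j))) := by
      intro j
      unfold NUP1S.hh
      rw [Wt_p0, Wt_p0]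
      simp only [cCt, Sum.elim_inr, crvC]
      rw [pA_crv]
      simp only [gF, g2, expZ, Bool.false_eq_true, if_false]
      ring
    rw [Finset.prod_congr rfl fun i _ => e1 i, Finset.prod_congr rfl fun j _ => e2 j,
      Finset.prod_mul_distrib, Finset.prod_mul_distrib]
    ring]
  ring

variable {Z D : Bool → Option O3 → ℂ → ℂ} {P : NUO.Par} {n n' : ℕ} {η η' : Crs}

/-- the insertion `exp (s A) Ψ` -/
def insE (D : Bool → Option O3 → ℂ → ℂ) (P : NUO.Par) (η : Crs) (s : ℂ) (Ψ : Ins) : Ins :=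
  fun r O a b x => Complex.exp (s * stA D P η r O a b x) * Ψ r O a b x

theorem trm_expZ (s : ℂ) (Ψ : Ins) (O : Fin r → Xo) :
    trm (expZ Z D s) P n n' η η' Ψ r O = trm Z P n n' η η' (insE D P η s Ψ) r O := by
  unfold trm
  split_ifs with h
  · rw [wK_expZ]
    have e : ∀ x, gK (gF (expZ Z D s) P O) (η r O) (η' r O) (n - chgO O true) (n' - chgO O false) x *
        Ψ r O (n - chgO O true) (n' - chgO O false) x =
        Complex.exp (-(s * stO D P O)) * (gK (gF Z P O) (η r O) (η' r O) (n - chgO O true)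
          (n' - chgO O false) x * insE D P η s Ψ r O (n - chgO O true) (n' - chgO O false) x) := by
      intro x
      rw [gK_expZ]
      unfold insE stA
      rw [mul_add, Complex.exp_add, Complex.exp_neg]
      field_simp
    simp only [e]
    rw [integral_const_mul, Complex.exp_neg]
    field_simp
  · rfl

/-- **the functional of the family** -/
theorem FF_expZ (s : ℂ) (Ψ : Ins) :
    FF (expZ Z D s) P n n' η η' Ψ = FF Z P n n' η η' (insE D P η s Ψ) := by
  unfold FF
  simp only [trm_expZ]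

theorem trA_expZ (s : ℂ) (Ψ : Ins) (O : Fin r → Xo) :
    trA (expZ Z D s) P n n' η η' Ψ r O = trA Z P n n' η η' (insE D P η s Ψ) r O := by
  unfold trA
  split_ifs with h
  · have e : ∀ x, ‖gK (gF (expZ Z D s) P O) (η r O) (η' r O) (n - chgO O true)
        (n' - chgO O false) x‖ₑ * ‖Ψ r O (n - chgO O true) (n' - chgO O false) x‖ₑ =
        ‖Complex.exp (-(s * stO D P O))‖ₑ * (‖gK (gF Z P O) (η r O) (η' r O) (n - chgO O true)
          (n' - chgO O false) x‖ₑ *
          ‖insE D P η s Ψ r O (n - chgO O true) (n' - chgO O false) x‖ₑ) := by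
      intro x
      rw [← enorm_mul, ← enorm_mul, ← enorm_mul, gK_expZ]
      congr 1
      unfold insE stA
      rw [mul_add, Complex.exp_add, Complex.exp_neg]
      field_simp
    simp only [e]
    rw [lintegral_const_mul' _ _ enorm_ne_top, wK_expZ, enorm_mul]
    rw [show ∀ a b c d I : ℝ≥0∞, a * b * (c * (d * I)) = a * (c * ((b * d) * I)) from
      fun a b c d I => by ring]
    rw [← enorm_mul, ← Complex.exp_add, add_neg_cancel, Complex.exp_zero, enorm_one, one_mul]
  · rfl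

/-- **the functional with moduli of the family** -/
theorem FA_expZ (s : ℂ) (Ψ : Ins) :
    FA (expZ Z D s) P n n' η η' Ψ = FA Z P n n' η η' (insE D P η s Ψ) := by
  unfold FA
  simp only [trA_expZ]

/-! ### linear bounds of the functional with moduli -/

/-- the functional with moduli only depends on the moduli of the insertion on the relevant numbers -/
theorem FA_lin {Ψ Ψ1 Ψ2 : Ins} {a b : ℝ≥0∞} (ha : a ≠ ∞) (hb : b ≠ ∞)
    (hm : ∀ (r : ℕ) (O : Fin r → Xo), AEMeasurable (fun x =>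
      ‖gK (gF Z P O) (η r O) (η' r O) (n - chgO O true) (n' - chgO O false) x‖ₑ *
        ‖Ψ1 r O (n - chgO O true) (n' - chgO O false) x‖ₑ))
    (hM : ∀ r : ℕ, AEMeasurable (fun O : Fin r → Xo => trA Z P n n' η η' Ψ1 r O)
      (Measure.pi fun _ => nu))
    (h : ∀ r O p q x, ‖Ψ r O p q x‖ₑ ≤ a * ‖Ψ1 r O p q x‖ₑ + b * ‖Ψ2 r O p q x‖ₑ) :
    FA Z P n n' η η' Ψ ≤ a * FA Z P n n' η η' Ψ1 + b * FA Z P n n' η η' Ψ2 := by
  have h1 : ∀ (r : ℕ) (O : Fin r → Xo), trA Z P n n' η η' Ψ r O ≤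
      a * trA Z P n n' η η' Ψ1 r O + b * trA Z P n n' η η' Ψ2 r O := by
    intro r O
    unfold trA
    split_ifs with hc
    · calc ‖wK Z P O‖ₑ * ((((n - chgO O true).factorial : ℝ≥0∞) * (n' - chgO O false).factorial)⁻¹ *
          ∫⁻ x, ‖gK (gF Z P O) (η r O) (η' r O) (n - chgO O true) (n' - chgO O false) x‖ₑ *
            ‖Ψ r O (n - chgO O true) (n' - chgO O false) x‖ₑ)
        ≤ ‖wK Z P O‖ₑ * ((((n - chgO O true).factorial : ℝ≥0∞) * (n' - chgO O false).factorial)⁻¹ *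
          ∫⁻ x, (a * (‖gK (gF Z P O) (η r O) (η' r O) (n - chgO O true) (n' - chgO O false) x‖ₑ *
            ‖Ψ1 r O (n - chgO O true) (n' - chgO O false) x‖ₑ) +
            b * (‖gK (gF Z P O) (η r O) (η' r O) (n - chgO O true) (n' - chgO O false) x‖ₑ *
            ‖Ψ2 r O (n - chgO O true) (n' - chgO O false) x‖ₑ))) := by
              refine mul_le_mul' le_rfl (mul_le_mul' le_rfl (lintegral_mono fun x => ?_))
              refine (mul_le_mul' le_rfl (h r O _ _ x)).trans (le_of_eq ?_)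
              ring
        _ = _ := by
              rw [lintegral_add_left' ((hm r O).const_mul _), lintegral_const_mul' _ _ ha,
                lintegral_const_mul' _ _ hb]
              ring
    · simp
  unfold FA
  rw [Finset.mul_sum, Finset.mul_sum, ← Finset.sum_add_distrib]
  refine Finset.sum_le_sum fun r _ => ?_
  calc ((r.factorial : ℕ) : ℝ≥0∞)⁻¹ *
        ∫⁻ O : Fin r → Xo, trA Z P n n' η η' Ψ r O ∂(Measure.pi fun _ => nu)
      ≤ ((r.factorial : ℕ) : ℝ≥0∞)⁻¹ *
        ∫⁻ O : Fin r → Xo, (a * trA Z P n n' η η' Ψ1 r O + b * trA Z P n n' η η' Ψ2 r O)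
          ∂(Measure.pi fun _ => nu) :=
        mul_le_mul' le_rfl (lintegral_mono fun O => h1 r O)
    _ = _ := by
        rw [lintegral_add_left' ((hM r).const_mul _), lintegral_const_mul' _ _ ha,
          lintegral_const_mul' _ _ hb]
        ring

/-- weighted arithmetic and geometric means -/
theorem exp_interp {s x lam : ℝ} (h0 : 0 ≤ s) (h1 : s ≤ 1) (hl : 0 < lam) :
    Real.exp (s * x) ≤ (1 - s) * lam ^ s + s * lam ^ (s - 1) * Real.exp x := by
  have hc := convexOn_exp.2 (Set.mem_univ (s * Real.log lam))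
    (Set.mem_univ (x + (s - 1) * Real.log lam)) (by linarith : (0 : ℝ) ≤ 1 - s) h0 (by ring)
  have e : (1 - s) • (s * Real.log lam) + s • (x + (s - 1) * Real.log lam) = s * x := by
    simp only [smul_eq_mul]
    ring
  rw [e] at hc
  refine hc.trans (le_of_eq ?_)
  simp only [smul_eq_mul]
  rw [Real.rpow_def_of_pos hl, Real.rpow_def_of_pos hl, Real.exp_add]
  ring_nf

theorem enorm_insE_le {s lam : ℝ} (h0 : 0 ≤ s) (h1 : s ≤ 1) (hl : 0 < lam) (Ψ : Ins)
    (r : ℕ) (O : Fin r → Xo) (a b : ℕ) (x : (Fin a → ℝ) × (Fin b → ℝ)) :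
    ‖insE D P η (s : ℂ) Ψ r O a b x‖ₑ ≤ ENNReal.ofReal ((1 - s) * lam ^ s) * ‖Ψ r O a b x‖ₑ +
      ENNReal.ofReal (s * lam ^ (s - 1)) * ‖insE D P η 1 Ψ r O a b x‖ₑ := by
  unfold insE
  rw [enorm_mul, enorm_mul, ← mul_assoc, ← add_mul]
  refine mul_le_mul' ?_ le_rfl
  have e : ∀ z : ℂ, ‖Complex.exp z‖ₑ = ENNReal.ofReal (Real.exp z.re) := by
    intro z
    rw [← ofReal_norm, Complex.norm_exp]
  rw [e, e, one_mul, ← ENNReal.ofReal_mul (mul_nonneg h0 (Real.rpow_nonneg hl.le _)),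
    ← ENNReal.ofReal_add (mul_nonneg (by linarith) (Real.rpow_nonneg hl.le _))
      (mul_nonneg (mul_nonneg h0 (Real.rpow_nonneg hl.le _)) (Real.exp_pos _).le)]
  refine ENNReal.ofReal_le_ofReal ?_
  have : ((s : ℂ) * stA D P η r O a b x).re = s * (stA D P η r O a b x).re := by simp
  rw [this]
  exact exp_interp h0 h1 hl

/-- measurability of an insertion against the weights -/
structure MeasI (Z : Bool → Option O3 → ℂ → ℂ) (P : NUO.Par) (n n' : ℕ) (η η' : Crs) (Ψ : Ins) :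
    Prop where
  /-- the quanta -/
  q : ∀ (r : ℕ) (O : Fin r → Xo), AEMeasurable (fun x =>
      ‖gK (gF Z P O) (η r O) (η' r O) (n - chgO O true) (n' - chgO O false) x‖ₑ *
        ‖Ψ r O (n - chgO O true) (n' - chgO O false) x‖ₑ)
  /-- the objects -/
  o : ∀ r : ℕ, AEMeasurable (fun O : Fin r → Xo => trA Z P n n' η η' Ψ r O)
      (Measure.pi fun _ => nu)

/-- **convexity** -/
theorem FA_conv {s lam : ℝ} (h0 : 0 ≤ s) (h1 : s ≤ 1) (hl : 0 < lam) {Ψ : Ins}
    (hM : MeasI Z P n n' η η' Ψ) :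
    FA (expZ Z D s) P n n' η η' Ψ ≤ ENNReal.ofReal ((1 - s) * lam ^ s) * FA Z P n n' η η' Ψ +
      ENNReal.ofReal (s * lam ^ (s - 1)) * FA (expZ Z D 1) P n n' η η' Ψ := by
  rw [FA_expZ, FA_expZ]
  exact FA_lin ENNReal.ofReal_ne_top ENNReal.ofReal_ne_top hM.q hM.o
    fun r O p q x => enorm_insE_le h0 h1 hl Ψ r O p q x

/-- **the masses on the path are bounded by the geometric mean of the two ends** -/
theorem FA_geo {s M0 M1 : ℝ} (h0 : 0 ≤ s) (h1 : s ≤ 1) (hM0 : 0 < M0) (hM1 : 0 < M1) {Ψ : Ins}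
    (hM : MeasI Z P n n' η η' Ψ) (b0 : FA Z P n n' η η' Ψ ≤ ENNReal.ofReal M0)
    (b1 : FA (expZ Z D 1) P n n' η η' Ψ ≤ ENNReal.ofReal M1) :
    FA (expZ Z D s) P n n' η η' Ψ ≤ ENNReal.ofReal (M0 ^ (1 - s) * M1 ^ s) := by
  have hl : 0 < M1 / M0 := div_pos hM1 hM0
  refine (FA_conv (D := D) h0 h1 hl hM).trans ?_
  have hs : 0 ≤ (1 - s) * (M1 / M0) ^ s := mul_nonneg (by linarith) (Real.rpow_nonneg hl.le _)
  have hs' : 0 ≤ s * (M1 / M0) ^ (s - 1) := mul_nonneg h0 (Real.rpow_nonneg hl.le _)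
  calc ENNReal.ofReal ((1 - s) * (M1 / M0) ^ s) * FA Z P n n' η η' Ψ +
        ENNReal.ofReal (s * (M1 / M0) ^ (s - 1)) * FA (expZ Z D 1) P n n' η η' Ψ
      ≤ ENNReal.ofReal ((1 - s) * (M1 / M0) ^ s) * ENNReal.ofReal M0 +
        ENNReal.ofReal (s * (M1 / M0) ^ (s - 1)) * ENNReal.ofReal M1 := by gcongr
    _ = ENNReal.ofReal (M0 ^ (1 - s) * M1 ^ s) := by
        rw [← ENNReal.ofReal_mul hs, ← ENNReal.ofReal_mul hs', ← ENNReal.ofReal_add
          (mul_nonneg hs hM0.le) (mul_nonneg hs' hM1.le)]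
        congr 1
        have e1 : (M1 / M0) ^ (s - 1) * M1 = (M1 / M0) ^ s * M0 := by
          rw [Real.rpow_sub_one hl.ne']
          field_simp
        have e2 : (M1 / M0) ^ s * M0 = M0 ^ (1 - s) * M1 ^ s := by
          rw [Real.div_rpow hM1.le hM0.le, Real.rpow_sub hM0, Real.rpow_one]
          field_simp
        calc (1 - s) * (M1 / M0) ^ s * M0 + s * (M1 / M0) ^ (s - 1) * M1
            = (1 - s) * ((M1 / M0) ^ s * M0) + s * ((M1 / M0) ^ (s - 1) * M1) := by ring
          _ = (M1 / M0) ^ s * M0 := by rw [e1]; ring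
          _ = _ := e2

end PBF.PLX

end
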