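import Pool.Agent.PLX.Ns
import Pool.Agent.PLX.PB.ClsFF
import Pool.Agent.PLX.PB.F0Ln
import Pool.Agent.PLX.PB.InsFF
import Pool.Agent.PLX.PB.TRsA

/-!
# Plan B: products of linear statistics: straight lines = curves

* `ClZ`: the class of one body data (hypotheses of `F0_ZobjQ` and `FF_one`), `Adm`: admissible
  statistics; `ClZ.tw`: the class is closed under `tw`;
* **`ins_list`**: `F0 Z (∏ St a) = FF Z (∏ StF a)` for every list of admissible statistics;
* `StF_stA`: `StF = stA` (`TRsA`); `AdS`, `ins_listA`, `ins_one`, `ins_two`: the same with `stA`.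
-/

set_option autoImplicit false
set_option linter.unusedSectionVars false

noncomputable section

open Complex MeasureTheory Finset
open scoped ENNReal

open PLX (Fil)

namespace PBF.PLX

open NUO NUP1 NUCR NUP1S NUP1S.Ab NUP1S.AbC NUGC NUGC.PLX PBFunc PBFunc.PLX PBC PBC.PLX
open PBI (Stt tw F0)
open PBI.PLX (fl)

/-! ### the class -/

/-- **the class of one body data** -/
structure ClZ (Z : Stt) (P : NUO.Par) (x0 κ κ' δ : ℝ) (Q : ℤ) : Prop where
  m : ∀ s k, Measurable (Z s k)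
  d : ∀ s, ∀ u : ℂ, x0 ≤ u.re → u.re ≤ NUP1.l → DifferentiableAt ℂ (Z s none) u
  dec : DecZ Z P x0 κ Q
  q : QOk Z δ κ' Q

/-- **admissible statistics** -/
structure Adm (a : Stt) (P : NUO.Par) (x0 δ C : ℝ) : Prop where
  m : ∀ s k, Measurable (a s k)
  d : ∀ s, ∀ u : ℂ, x0 ≤ u.re → u.re ≤ (1 + δ) * NUP1.l → DifferentiableAt ℂ (a s none) u
  A : ∀ s (u : ℂ), x0 ≤ u.re → u.re ≤ (1 + δ) * NUP1.l → ‖a s none u‖ ≤ C
  L : ∀ s (u : ℂ), u.re = (1 - P.jL) * NUP1.l → ‖a s (some .L) u‖ ≤ C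
  T : ∀ s (u : ℂ), u.re = -(1 / 2 * NUP1.l) → ‖a s (some .T) u‖ ≤ C
  S : ∀ s (r : ℕ) (e : ℝ) (u : ℂ), P.e ≤ e → e ≤ P.e + P.d r → u.re = -((1 + e) * NUP1.l) →
    ‖a s (some .S) u‖ ≤ C

theorem decOn_mul {κ : ℝ} {K : Set ℝ} {f g : ℂ → ℂ} {B : ℝ} (h : DecOn κ K f)
    (hg : ∀ z : ℂ, z.re ∈ K → ‖g z‖ ≤ B) : DecOn κ K (fun z => f z * g z) := by
  obtain ⟨D, hD⟩ := h
  refine ⟨|D| * |B|, fun z hz => ?_⟩
  rw [norm_mul]
  have h1 := (hD z hz).trans (mul_le_mul_of_nonneg_right (le_abs_self D) (Real.exp_pos _).le)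
  have h2 := (hg z hz).trans (le_abs_self B)
  calc _ ≤ (|D| * Real.exp (-(κ * |z.im|))) * |B| :=
        mul_le_mul h1 h2 (norm_nonneg _) (by positivity)
    _ = _ := by ring

theorem bdd_mul {σ : ℝ} {K : Set ℝ} {f g : ℂ → ℂ} {B : ℝ} (h : Bdd K σ f)
    (hg : ∀ z : ℂ, z.re ∈ K → ‖g z‖ ≤ B) : Bdd K σ (fun z => f z * g z) := by
  obtain ⟨D, hD0, hD⟩ := h
  refine ⟨D * |B|, by positivity, fun z hz => ?_⟩
  rw [norm_mul]
  calc _ ≤ (D * Real.exp (σ * |z.im|)) * |B| :=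
        mul_le_mul (hD z hz) ((hg z hz).trans (le_abs_self B)) (norm_nonneg _) (by positivity)
    _ = _ := by ring

variable {Z a : Stt} {P : NUO.Par} {x0 κ κ' δ C : ℝ} {Q : ℤ} {n n' : ℕ} {η η' : Crs}

theorem norm_tw_le {z : ℂ} (hz : ‖z‖ ≤ C) (ε : ℂ) : ‖1 + ε * z‖ ≤ 1 + ‖ε‖ * C := by
  refine (norm_add_le _ _).trans ?_
  rw [norm_one, norm_mul]
  have := mul_le_mul_of_nonneg_left hz (norm_nonneg ε)
  linarith

/-- line of the strings -/
theorem lnO_S (h : GoodP P) {r i : ℕ} (hi : i < r) : ∃ e : ℝ, P.e ≤ e ∧ e ≤ P.e + P.d r ∧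
    lnO P r i .S = -((1 + e) * NUP1.l) := by
  have hr : (0 : ℝ) < r := by exact_mod_cast (Nat.zero_le _).trans_lt hi
  have h0 := h.d0 r
  have h1 : (0 : ℝ) ≤ (i : ℝ) / r := by positivity
  have h2 : (i : ℝ) / r ≤ 1 := by
    rw [div_le_one hr]
    exact_mod_cast hi.le
  exact ⟨P.e + P.d r * ((i : ℝ) / r), by nlinarith, by nlinarith, rfl⟩

/-- **the class is closed under `tw`** -/
theorem ClZ.tw (h : ClZ Z P x0 κ κ' δ Q) (ha : Adm a P x0 δ C) (hP : GoodP P)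
    (hx0 : x0 ≤ 19 / 20 * NUP1.l) (hδ0 : 0 ≤ δ) (ε : ℂ) :
    ClZ (PBI.tw Z a ε) P x0 κ κ' δ Q := by
  have hl := Bd.l_pos
  have hle : NUP1.l ≤ (1 + δ) * NUP1.l := by nlinarith
  refine ⟨fun s k => (h.m s k).mul (((ha.m s k).const_mul ε).const_add 1), fun s u h1 h2 => ?_,
    ⟨fun s => ?_, fun s => ?_, fun s => ?_, fun s r i hi => ?_⟩, ⟨h.q.kpos, fun s => ?_,
      fun s u hu => ?_, fun s => ?_⟩⟩
  · exact (h.d s u h1 h2).mul (((ha.d s u h1 (h2.trans hle)).const_mul ε).const_add 1)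
  · exact decOn_mul (h.dec.A s) (B := 1 + ‖ε‖ * C) fun z hz =>
      norm_tw_le (ha.A s z hz.1 (hz.2.trans hle)) ε
  · exact decOn_mul (h.dec.L s) (B := 1 + ‖ε‖ * C) fun z hz => norm_tw_le (ha.L s z hz) ε
  · exact decOn_mul (h.dec.T s) (B := 1 + ‖ε‖ * C) fun z hz => norm_tw_le (ha.T s z hz) ε
  · obtain ⟨e, e1, e2, e3⟩ := lnO_S hP hi
    exact decOn_mul (h.dec.S s r i hi) (B := 1 + ‖ε‖ * C) fun z hz =>
      norm_tw_le (ha.S s r e z e1 e2 ((Set.mem_singleton_iff.1 hz).trans e3)) ε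
  · exact (h.q.m s).mul (((ha.m s none).const_mul ε).const_add 1)
  · exact (h.q.d s u hu).mul (((ha.d s u (hx0.trans hu.1) hu.2).const_mul ε).const_add 1)
  · exact bdd_mul (h.q.b s) (B := 1 + ‖ε‖ * C) fun z hz =>
      norm_tw_le (ha.A s z (hx0.trans hz.1) hz.2) ε

/-- admissible statistics are bounded on the straight lines -/
theorem Adm.sok (ha : Adm a P x0 δ C) (hP : GoodP P) (hx0 : x0 ≤ NUP1.l) (hδ0 : 0 ≤ δ)
    (n n' : ℕ) : PBI.SOk x0 n n' (fl P) a := by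
  have hl := Bd.l_pos
  have hle : NUP1.l ≤ (1 + δ) * NUP1.l := by nlinarith
  refine ⟨|C|, abs_nonneg _, fun p p' k k' _ _ => ⟨ha.m, fun i t => ?_⟩⟩
  have hA : ∀ s, ‖a s none (vl x0 t)‖ ≤ |C| := fun s =>
    (ha.A s _ (by rw [NUO.vl_re59]) (by rw [NUO.vl_re59]; linarith)).trans (le_abs_self C)
  have hO : ∀ (s : Bool) (o : O3) (j : ℕ), j < p + p' →
      ‖a s (some o) (vl (lnO P (p + p') j o) t)‖ ≤ |C| := by
    intro s o j hj
    refine le_trans ?_ (le_abs_self C)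
    cases o
    · exact ha.L s _ (NUO.vl_re59 _ _)
    · obtain ⟨e, e1, e2, e3⟩ := lnO_S hP hj
      exact ha.S s _ e _ e1 e2 ((NUO.vl_re59 _ _).trans e3)
    · exact ha.T s _ (NUO.vl_re59 _ _)
  rcases i with (i | i) | (i | i)
  · exact hA true
  · exact hO true (k i) i (i.2.trans_le (Nat.le_add_right _ _))
  · exact hA false
  · exact hO false (k' i) i (i.2.trans_le (Nat.le_add_left _ _))

variable [Fil]

/-- admissible statistics are bounded at all constituents -/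
theorem Adm.cbd (ha : Adm a P x0 δ C) (h : GoodQ P x0) (hx0 : x0 ≤ 19 / 20 * NUP1.l)
    (hδ0 : 0 ≤ δ) {N : ℕ} (hη : ∀ r ≤ N, ∀ O, CrvR δ (η r O) (η' r O)) : CBd a P η N C := by
  have hl := Bd.l_pos
  intro r hr O m m' x c hc
  have hsat : ∀ (s : Bool) (i : Fin r) (u : ℂ), |u.re - (1 - ei P O i) * NUP1.l| ≤
      NUP1.l * P.d r / 8 → ‖a s none u‖ ≤ C := by
    intro s i u hu
    obtain ⟨e1, e2⟩ := ei_mem' h.d0 O i
    have h1 := h.xl r
    have h2 := h.e1
    have h3 := h.d0 r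
    have h4 := h.e2 r
    obtain ⟨h5, h6⟩ := abs_le.1 hu
    exact ha.A s u (by nlinarith) (by nlinarith)
  unfold csA at hc
  simp only [List.mem_append, List.mem_flatten, List.mem_ofFn] at hc
  rcases hc with ⟨Lc, ⟨i, rfl⟩, hc⟩ | ⟨i, rfl⟩ | ⟨i, rfl⟩
  · obtain ⟨e1, e2⟩ := ei_mem' h.d0 O i
    have hρ0 := h.r0 r (ht (O i))
    have hρ := h.rad r (ht (O i))
    have hρ' : rr P O i ≤ NUP1.l * P.d r / 8 := hρ
    have hρ0' : 0 < rr P O i := hρ0
    have h8 : 0 ≤ NUP1.l * P.d r / 8 := hρ0'.le.trans hρ'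
    unfold cst at hc
    rcases hk : kd (O i) with _ | _ | _ | _ | _ <;> rw [hk] at hc <;>
      simp only [List.mem_cons, List.not_mem_nil, or_false] at hc
    · subst hc
      exact ha.L _ _ (NUO.vl_re59 _ _)
    · subst hc
      exact ha.T _ _ (NUO.vl_re59 _ _)
    · subst hc
      exact ha.S _ r _ _ e1 e2 (NUO.vl_re59 _ _)
    · rcases hc with rfl | rfl
      · exact ha.S _ r _ _ e1 e2 (NUO.vl_re59 _ _)
      · refine hsat _ i _ ?_
        show |(posV (ei P O i) (rr P O i) (ht (O i)) (an (O i))).re - _| ≤ _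
        rw [posV_re', add_sub_cancel_left, abs_mul, abs_of_pos hρ0']
        calc rr P O i * |Real.cos (2 * Real.pi * an (O i))| ≤ rr P O i * 1 :=
              mul_le_mul_of_nonneg_left (Real.abs_cos_le_one _) hρ0'.le
          _ ≤ _ := by rw [mul_one]; exact hρ'
    · have h0 : (posS (ei P O i) (ht (O i)) + 2 * (NUP1.l : ℂ)).re - (1 - ei P O i) * NUP1.l = 0 := by
        unfold posS vl
        simp
        ring
      rcases hc with rfl | rfl | rfl
      · exact ha.S _ r _ _ e1 e2 (NUO.vl_re59 _ _)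
      · refine hsat _ i _ ?_
        show |(posS (ei P O i) (ht (O i)) + 2 * (NUP1.l : ℂ)).re - _| ≤ _
        rw [h0, abs_zero]
        exact h8
      · refine hsat _ i _ ?_
        show |(posS (ei P O i) (ht (O i)) + 2 * (NUP1.l : ℂ)).re - _| ≤ _
        rw [h0, abs_zero]
        exact h8
  · have h1 := NUO.pA_cv_mem (hη r hr O) hδ0 true (x.1 i)
    exact ha.A true _ (hx0.trans h1.1) h1.2
  · have h1 := NUO.pA_cv_mem (hη r hr O) hδ0 false (x.2 i)
    exact ha.A false _ (hx0.trans h1.1) h1.2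

/-! ### the moduli with multiplicative insertions -/

theorem wC_mul (Z g : Stt) (P : NUO.Par) (n n' : ℕ) (η η' : Crs) (c : Cf n n') :
    wC (Zm Z g) P n n' η η' c = wC Z P n n' η η' c * ev (Fa g P η) c := by
  unfold wC wP ev
  split_ifs
  · rw [wK_mul, gK_mul]
    unfold Fa
    ring
  · rw [zero_mul]

theorem FA_tw_lt (hP : ∀ r, Measurable (P.rad r)) (hZ : ∀ s k, Measurable (Z s k))
    (hc : MCr η η') {Ψ : Ins} (hΨ : MIn Ψ) (hf : FA Z P n n' η η' Ψ < ∞)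
    (ha : ∀ c k, Measurable (a c k)) (hC : 0 ≤ C) (hB : CBd a P η (n + n') C) {ε : ℂ}
    (hε : ‖ε‖ ≤ 1) : FA (tw Z a ε) P n n' η η' Ψ < ∞ := by
  have hM := MC.of hP hZ hc
  have hm1 : ∀ c k, Measurable fun z => 1 + ε * a c k z := fun c k =>
    ((ha c k).const_mul ε).const_add 1
  have hM' : MC (tw Z a ε) P η η' := MC.of hP (fun s k => (hZ s k).mul (hm1 s k)) hc
  have hF : MIn (Fa (fun c k z => 1 + ε * a c k z) P η) := MIn.Fa hP hm1 hc
  have hf1 := FA_mul_lt hM hΨ hf hF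
    (fun r hr O m m' hm hm' x => norm_Fa_tw_le hC hB hε hr O hm hm' x)
  have hm2 : MIn fun r O m m' x => Ψ r O m m' x *
      Fa (fun c k z => 1 + ε * a c k z) P η r O m m' x := fun r m m' => (hΨ r m m').mul (hF r m m')
  rw [FA_eq hM hm2] at hf1
  rw [FA_eq hM' hΨ]
  refine lt_of_le_of_lt (le_of_eq (lintegral_congr fun c => ?_)) hf1
  have e1 : wC (tw Z a ε) P n n' η η' c = wC Z P n n' η η' c *
      ev (Fa (fun c k z => 1 + ε * a c k z) P η) c := wC_mul Z _ P n n' η η' c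
  rw [e1, enorm_mul]
  have e2 : ‖ev (n := n) (n' := n') (fun r O m m' x => Ψ r O m m' x *
      Fa (fun c k z => 1 + ε * a c k z) P η r O m m' x) c‖ₑ =
      ‖ev Ψ c‖ₑ * ‖ev (Fa (fun c k z => 1 + ε * a c k z) P η) c‖ₑ := enorm_mul _ _
  rw [e2]
  ring

/-! ### products of statistics -/

/-- product of the statistics on the straight lines -/
def pSt (L : List Stt) : PBI.Ins := fun ι _ c z => (L.map fun a => PBI.St a ι c z).prod

/-- product of the statistics on the curves -/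
def pStF (L : List Stt) (P : NUO.Par) (η : Crs) : Ins := fun r O m m' x =>
  (L.map fun a => StF a P η r O m m' x).prod

/-- **Products of linear statistics: straight lines = curves.** -/
theorem ins_list (h : GoodQ P x0) (hx0 : x0 ≤ 19 / 20 * NUP1.l) (hP : ∀ r, Measurable (P.rad r))
    (hρ : ∀ r, ∃ ρ0, 0 < ρ0 ∧ ∀ t, ρ0 ≤ P.rad r t) (hκ : 0 < κ) (hn : (n : ℤ) - n' = Q)
    (hδ0 : 0 ≤ δ) (hδ : δ ≤ 1 / 20) (hj : P.jL + δ < 3) (hc : MCr η η')
    (hη : ∀ r ≤ n + n', ∀ O, CrvR δ (η r O) (η' r O)) (L : List Stt)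
    (hL : ∀ a ∈ L, ∃ C, Adm a P x0 δ C) :
    ∀ Z : Stt, ClZ Z P x0 κ κ' δ Q → FA Z P n n' η η' (fun _ _ _ _ _ => 1) < ∞ →
      F0 x0 n n' (fl P) Z (pSt L) = FF Z P n n' η η' (pStF L P η) ∧
      PBI.F0Ok x0 n n' (fl P) Z (pSt L) ∧ MIn (pStF L P η) ∧
      FA Z P n n' η η' (pStF L P η) < ∞ := by
  have hl := Bd.l_pos
  have hx0' : x0 ≤ NUP1.l := by linarith
  induction L with
  | nil =>
    intro Z hZ hf
    refine ⟨?_, PBI.PLX.F0Ok_decZ h hx0' hκ hZ.m hZ.dec hn, MIn.one, hf⟩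
    refine (PBI.PLX.F0_ZobjQ h hx0' hκ hZ.m hZ.dec hn).trans ?_
    exact FF_one h hx0' hP hZ.m hκ hρ hZ.d hZ.dec hn hZ.q hδ0 hδ hj fun r hr =>
      Filter.Eventually.of_forall fun O => hη r hr O
  | cons a L ih =>
    intro Z hZ hf
    obtain ⟨C, ha⟩ := hL a List.mem_cons_self
    have ih' := ih fun b hb => hL b (List.mem_cons_of_mem _ hb)
    obtain ⟨hE, hOk, hM, hFA⟩ := ih' Z hZ hf
    have hCB := ha.cbd h hx0 hδ0 hη
    have hC : 0 ≤ C := (norm_nonneg _).trans (ha.A true (x0 : ℂ) (by simp) (by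
      rw [ofReal_re]
      nlinarith))
    have hS := ha.sok h.toGoodP hx0' hδ0 n n'
    have hd1 := PBI.hasDerivAt_F0 hOk hS
    have hd2 := hasDerivAt_FF hP hZ.m hc hM hFA ha.m hC hCB
    have hev : (fun ε : ℂ => F0 x0 n n' (fl P) (tw Z a ε) (pSt L)) =ᶠ[nhds 0]
        fun ε => FF (tw Z a ε) P n n' η η' (pStF L P η) := by
      filter_upwards [Metric.ball_mem_nhds (0 : ℂ) one_pos] with ε hε
      have hε' : ‖ε‖ ≤ 1 := by
        rw [Metric.mem_ball, dist_zero_right] at hε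
        exact hε.le
      exact (ih' _ (hZ.tw ha h.toGoodP hx0 hδ0 ε)
        (FA_tw_lt hP hZ.m hc MIn.one hf ha.m hC hCB hε')).1
    have hun := (hd2.congr_of_eventuallyEq hev).unique hd1
    have e1 : pSt (a :: L) = (fun ι _ c z => pSt L ι c z * PBI.St a ι c z : PBI.Ins) := by
      funext ι _ c z
      unfold pSt
      rw [List.map_cons, List.prod_cons, mul_comm]
    have e2 : pStF (a :: L) P η = (fun r O m m' x => pStF L P η r O m m' x *
        StF a P η r O m m' x : Ins) := by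
      funext r O m m' x
      unfold pStF
      rw [List.map_cons, List.prod_cons, mul_comm]
    have hM2 : MIn (StF a P η) := MIn.StF hP ha.m hc
    refine ⟨?_, ?_, ?_, ?_⟩
    · rw [e1, e2]
      exact hun.symm
    · rw [e1]
      exact hOk.mul_St hS
    · rw [e2]
      exact fun r m m' => (hM r m m').mul (hM2 r m m')
    · rw [e2]
      exact FA_mul_lt (MC.of hP hZ.m hc) hM hFA hM2
        (fun r hr O m m' hm hm' x => norm_StF_le hCB hr O hm hm' x hC)

/-! ### the statistics `stA` of `TRsA` -/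

theorem obSt_obT (D : Stt) (jL e ρ : ℝ) (x : Xo) : obSt D jL e ρ x = obT D jL e ρ x := by
  unfold obSt obT cst
  rcases kd x with _ | _ | _ | _ | _
  · show D _ _ _ + 0 = _
    rw [add_zero]
  · show D _ _ _ + 0 = _
    rw [add_zero]
  · show D _ _ _ + 0 = _
    rw [add_zero]
  · show D _ _ _ + (D _ _ _ + 0) = _
    rw [add_zero]
  · show D (sp x) (some .S) (posS e (ht x)) + (D (!sp x) none (posS e (ht x) + 2 * l) +
      (D (!sp x) none (posS e (ht x) + 2 * l) + 0)) = D (sp x) (some .S) (posS e (ht x)) +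
      2 * D (!sp x) none (posS e (ht x) + 2 * l)
    ring

/-- **the two forms of the total statistic** -/
theorem StF_stA (D : Stt) (P : NUO.Par) (η : Crs) : StF D P η = stA D P η := by
  funext r O m m' x
  rw [StF_eq]
  simp only [obSt_obT]
  rfl

/-- **admissible statistics** -/
def AdS (P : NUO.Par) (x0 δ : ℝ) (D : Stt) : Prop := ∃ C, Adm D P x0 δ C

/-- product of the statistics on the curves -/
def pStA (L : List Stt) (P : NUO.Par) (η : Crs) : Ins := fun r O m m' x =>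
  (L.map fun a => stA a P η r O m m' x).prod

theorem pStF_pStA (L : List Stt) (P : NUO.Par) (η : Crs) : pStF L P η = pStA L P η := by
  unfold pStF pStA
  simp only [StF_stA]

/-- the data of the transfer -/
structure InsQ (P : NUO.Par) (x0 κ κ' δ : ℝ) (Q : ℤ) (n n' : ℕ) (η η' : Crs) : Prop where
  hG : GoodQ P x0
  hx0 : x0 ≤ 19 / 20 * NUP1.l
  hP : ∀ r, Measurable (P.rad r)
  hρ : ∀ r, ∃ ρ0, 0 < ρ0 ∧ ∀ t, ρ0 ≤ P.rad r t
  hκ : 0 < κ
  hn : (n : ℤ) - n' = Q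
  hδ0 : 0 ≤ δ
  hδ : δ ≤ 1 / 20
  hj : P.jL + δ < 3
  hc : MCr η η'
  hη : ∀ r ≤ n + n', ∀ O, CrvR δ (η r O) (η' r O)

/-- **Products of linear statistics: straight lines = curves** (`stA`). -/
theorem ins_listA (h : InsQ P x0 κ κ' δ Q n n' η η') {L : List Stt} (hL : ∀ a ∈ L, AdS P x0 δ a)
    (hZ : ClZ Z P x0 κ κ' δ Q) (hf : FA Z P n n' η η' (fun _ _ _ _ _ => 1) < ∞) :
    F0 x0 n n' (fl P) Z (pSt L) = FF Z P n n' η η' (pStA L P η) ∧
      PBI.F0Ok x0 n n' (fl P) Z (pSt L) ∧ MIn (pStA L P η) ∧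
      FA Z P n n' η η' (pStA L P η) < ∞ := by
  have key := ins_list h.hG h.hx0 h.hP h.hρ h.hκ h.hn h.hδ0 h.hδ h.hj h.hc h.hη L hL Z hZ hf
  rwa [pStF_pStA] at key

/-- no statistic -/
theorem ins_zero (h : InsQ P x0 κ κ' δ Q n n' η η')
    (hZ : ClZ Z P x0 κ κ' δ Q) (hf : FA Z P n n' η η' (fun _ _ _ _ _ => 1) < ∞) :
    F0 x0 n n' (fl P) Z (fun _ _ _ _ => 1) = FF Z P n n' η η' (fun _ _ _ _ _ => 1) :=
  (ins_listA h (L := []) (fun a ha => absurd ha List.not_mem_nil) hZ hf).1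

/-- **one statistic** -/
theorem ins_one (h : InsQ P x0 κ κ' δ Q n n' η η') (ha : AdS P x0 δ a)
    (hZ : ClZ Z P x0 κ κ' δ Q) (hf : FA Z P n n' η η' (fun _ _ _ _ _ => 1) < ∞) :
    F0 x0 n n' (fl P) Z (PBI.St a) = FF Z P n n' η η' (stA a P η) ∧
      FA Z P n n' η η' (stA a P η) < ∞ := by
  have key := ins_listA h (L := [a]) (fun b hb => by
    rw [List.mem_singleton] at hb
    rw [hb]
    exact ha) hZ hf
  have e1 : pSt [a] = PBI.St a := by
    funext ι _ c z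
    simp [pSt]
  have e2 : pStA [a] P η = stA a P η := by
    funext r O m m' x
    show ([stA a P η r O m m' x] : List ℂ).prod = _
    rw [List.prod_cons, List.prod_nil, mul_one]
  rw [e1, e2] at key
  exact ⟨key.1, key.2.2.2⟩

/-- **two statistics** -/
theorem ins_two {b : Stt} (h : InsQ P x0 κ κ' δ Q n n' η η') (ha : AdS P x0 δ a)
    (hb : AdS P x0 δ b) (hZ : ClZ Z P x0 κ κ' δ Q)
    (hf : FA Z P n n' η η' (fun _ _ _ _ _ => 1) < ∞) :
    F0 x0 n n' (fl P) Z (fun ι _ c z => PBI.St a ι c z * PBI.St b ι c z) =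
      FF Z P n n' η η' (fun r O m m' x => stA a P η r O m m' x * stA b P η r O m m' x) ∧
      FA Z P n n' η η' (fun r O m m' x => stA a P η r O m m' x * stA b P η r O m m' x) < ∞ := by
  have key := ins_listA h (L := [a, b]) (fun d hd => by
    simp only [List.mem_cons, List.not_mem_nil, or_false] at hd
    rcases hd with rfl | rfl
    · exact ha
    · exact hb) hZ hf
  have e1 : pSt [a, b] = (fun ι _ c z => PBI.St a ι c z * PBI.St b ι c z : PBI.Ins) := by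
    funext ι _ c z
    simp [pSt]
  have e2 : pStA [a, b] P η =
      (fun r O m m' x => stA a P η r O m m' x * stA b P η r O m m' x : Ins) := by
    funext r O m m' x
    show ([stA a P η r O m m' x, stA b P η r O m m' x] : List ℂ).prod = _
    rw [List.prod_cons, List.prod_cons, List.prod_nil, mul_one]
  rw [e1, e2] at key
  exact ⟨key.1, key.2.2.2⟩

/-! ### closure of the admissible statistics -/

theorem AdS.cmul {P : NUO.Par} {x0 δ : ℝ} {a : Stt} (ha : AdS P x0 δ a) (c : ℂ) :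
    AdS P x0 δ fun s k z => c * a s k z := by
  obtain ⟨C, h⟩ := ha
  have key : ∀ z : ℂ, ‖z‖ ≤ C → ‖c * z‖ ≤ ‖c‖ * C := fun z hz => by
    rw [norm_mul]
    exact mul_le_mul_of_nonneg_left hz (norm_nonneg _)
  exact ⟨‖c‖ * C, fun s k => (h.m s k).const_mul c, fun s u h1 h2 => (h.d s u h1 h2).const_mul c,
    fun s u h1 h2 => key _ (h.A s u h1 h2), fun s u h1 => key _ (h.L s u h1),
    fun s u h1 => key _ (h.T s u h1), fun s r e u h1 h2 h3 => key _ (h.S s r e u h1 h2 h3)⟩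

end PBF.PLX

end
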