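import Pool.Agent.PLX.Ns
import Pool.Agent.PLX.PB.Conf
import Pool.Agent.PLX.PB.TRsA
import Pool.Agent.PB.ObKer
import Pool.Agent.PB.RepE
import Pool.Agent.PB.CovW

/-!
# Plan B: the literal statistics on the configurations of all numbers of quanta, two fillings

On `CfN N` (`Conf`), curves `η n` (`Fil.cv s (η n)` for the species `s`), `ρ` = density of a ONE-fold row
on the line `A`, `Fil.b s * ρ` = density of the species `s`:

* `hgt z = -I (z - l)`: the height of a position; `qD ε g`: the one body function of the quanta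
  `ε s * g (height)`;
* `Vp ρ η g`: sum over the quanta on the curve of `g`, minus `(b true + b false) ∫ ρ g`; `Vm ρ η g`: the
  difference of the species, minus `(b true - b false) ∫ ρ g`;
* `SN ρ P η`: the step statistic of ALL constituents (heads, satellites, quanta), weights = charges, minus its
  mean `(b true - b false) ∫ ρ sgC`;
* `pinN a`: `∑ exp (-a |height of the object|)`;
* `VLin` of `Vp`, `Vm`;
* `mD ρ D`: the mean of one body data `D`; `Vp_mD`, `Vm_mD`, `SN_mD`, `SN_sgU`: the general form.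
-/

set_option autoImplicit false
set_option linter.unusedSectionVars false

noncomputable section

open Complex MeasureTheory Finset
open PLX (Fil)

namespace PBF.PLX

open NUO NUP1 NUP1S NUP1S.Ab NUP1S.AbC NUGC NUGC.PLX NUCR
open PBI (Stt Kd)

/-- the height of a position -/
def hgt (z : ℂ) : ℂ := -I * (z - NUP1.l)

theorem hgt_re (z : ℂ) : (hgt z).re = z.im := by simp [hgt]

theorem hgt_im (z : ℂ) : (hgt z).im = NUP1.l - z.re := by simp [hgt]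

theorem hgt_line (u : ℝ) : hgt (vl NUP1.l u) = u := by
  unfold hgt vl
  linear_combination (-(u : ℂ)) * I_mul_I

/-- both species -/
def eP : Bool → ℂ := fun _ => 1

/-- difference of the species -/
def eM : Bool → ℂ := fun s => if s then 1 else -1

/-- one body function of the quanta -/
def qD (ε : Bool → ℂ) (g : ℂ → ℂ) : Stt := fun s k z =>
  match k with
  | none => ε s * g (hgt z)
  | some _ => 0

/-- the step with charges -/
def sgD : Stt := fun s k z => PBOb.qb (s, k) * PBOb.sgU (PBOb.pf k z)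

/-- statistic of the objects and their satellites -/
def VO {N : ℕ} [Fil] (D : Stt) (P : NUO.Par) : CfN N → ℂ := evN fun _ _ O _ _ _ => stO D P O

/-- pinning -/
def pinN {N : ℕ} [Fil] (a : ℝ) : CfN N → ℝ := fun ω => ∑ i, Real.exp (-(a * |ht (ω.2.2.1 i)|))

variable [Fil]

variable {N : ℕ}

/-- statistic of the quanta on the curve -/
def VQ (D : Stt) (η : ℕ → Crs) : CfN N → ℂ :=
  evN fun n r O a b x => stQ D (η n r O) a b x

/-- statistic of all constituents -/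
def VA (D : Stt) (P : NUO.Par) (η : ℕ → Crs) : CfN N → ℂ := evN fun n => stA D P (η n)

/-- **plus channel** -/
def Vp (ρ : ℝ → ℂ) (η : ℕ → Crs) (g : ℂ → ℂ) : CfN N → ℂ := fun ω =>
  VQ (qD eP g) η ω - ((Fil.b true : ℂ) + Fil.b false) * ∫ u : ℝ, ρ u * g u

/-- **minus channel** -/
def Vm (ρ : ℝ → ℂ) (η : ℕ → Crs) (g : ℂ → ℂ) : CfN N → ℂ := fun ω =>
  VQ (qD eM g) η ω - ((Fil.b true : ℂ) - Fil.b false) * ∫ u : ℝ, ρ u * g u

/-- **the step** -/
def SN (ρ : ℝ → ℂ) (P : NUO.Par) (η : ℕ → Crs) : CfN N → ℂ := fun ω =>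
  VA sgD P η ω - ((Fil.b true : ℂ) - Fil.b false) * ∫ u : ℝ, ρ u * PB.NX.sgC u

theorem pinN_nonneg (a : ℝ) (ω : CfN N) : 0 ≤ pinN a ω :=
  Finset.sum_nonneg fun _ _ => (Real.exp_pos _).le

theorem VA_eq (D : Stt) (P : NUO.Par) (η : ℕ → Crs) (ω : CfN N) :
    VA D P η ω = VO D P ω + VQ D η ω := rfl

/-- the statistics of the quanta on the curve -/
theorem VQ_eq (D : Stt) (η : ℕ → Crs) (ω : CfN N) :
    VQ D η ω = ∑ i, D true none (NUO.pA (Fil.cv true (η ω.1 ω.2.1.1 ω.2.2.1)) (ω.2.2.2.1 i)) +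
      ∑ j, D false none (NUO.pA (Fil.cv false (η ω.1 ω.2.1.1 ω.2.2.1)) (ω.2.2.2.2 j)) := rfl

theorem Vp_eq (ρ : ℝ → ℂ) (η : ℕ → Crs) (g : ℂ → ℂ) (ω : CfN N) :
    Vp ρ η g ω = ∑ i, g (hgt (NUO.pA (Fil.cv true (η ω.1 ω.2.1.1 ω.2.2.1)) (ω.2.2.2.1 i))) +
      ∑ j, g (hgt (NUO.pA (Fil.cv false (η ω.1 ω.2.1.1 ω.2.2.1)) (ω.2.2.2.2 j))) -
      ((Fil.b true : ℂ) + Fil.b false) * ∫ u : ℝ, ρ u * g u := by
  unfold Vp
  rw [VQ_eq]
  simp only [qD, eP, one_mul]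

theorem Vm_eq (ρ : ℝ → ℂ) (η : ℕ → Crs) (g : ℂ → ℂ) (ω : CfN N) :
    Vm ρ η g ω = ∑ i, g (hgt (NUO.pA (Fil.cv true (η ω.1 ω.2.1.1 ω.2.2.1)) (ω.2.2.2.1 i))) -
      ∑ j, g (hgt (NUO.pA (Fil.cv false (η ω.1 ω.2.1.1 ω.2.2.1)) (ω.2.2.2.2 j))) -
      ((Fil.b true : ℂ) - Fil.b false) * ∫ u : ℝ, ρ u * g u := by
  unfold Vm
  rw [VQ_eq]
  simp only [qD, eM, if_true, Bool.false_eq_true, if_false, one_mul, neg_mul,
    Finset.sum_neg_distrib]
  ring

theorem VQ_qD_lin (ε : Bool → ℂ) (η : ℕ → Crs) (g h : ℂ → ℂ) (c : ℂ) (ω : CfN N) :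
    VQ (qD ε fun z => c * g z + h z) η ω = c * VQ (qD ε g) η ω + VQ (qD ε h) η ω := by
  simp only [VQ_eq, qD]
  have e : ∀ {ι : Type} [Fintype ι] (s : Bool) (u : ι → ℂ),
      ∑ i, ε s * (c * g (u i) + h (u i)) = c * ∑ i, ε s * g (u i) + ∑ i, ε s * h (u i) := by
    intro ι _ s u
    rw [Finset.mul_sum, ← Finset.sum_add_distrib]
    exact Finset.sum_congr rfl fun i _ => by ring
  rw [e true, e false]
  ring

omit [Fil] in
/-- `ρ g` is integrable for the test functions -/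
theorem int_rho {y₁ y₂ a M : ℝ} {g : ℂ → ℂ} {ρ : ℝ → ℂ} (hg : PBE.TC y₁ y₂ a M g) (ha : 0 < a)
    (h1 : y₁ < 0) (h2 : 0 < y₂) (hm : AEStronglyMeasurable ρ volume) {B : ℝ} (hB : ∀ u, ‖ρ u‖ ≤ B) :
    Integrable fun u : ℝ => ρ u * g u :=
  (hg.real ha h1 h2).1.bdd_mul hm (Filter.Eventually.of_forall hB)

omit [Fil] in
/-- linearity of `g ↦ ∫ ρ g` on the test functions -/
theorem int_rho_lin {y₁ y₂ a M M' : ℝ} {g h : ℂ → ℂ} {ρ : ℝ → ℂ} (hg : PBE.TC y₁ y₂ a M g)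
    (hh : PBE.TC y₁ y₂ a M' h) (ha : 0 < a) (h1 : y₁ < 0) (h2 : 0 < y₂)
    (hm : AEStronglyMeasurable ρ volume) {B : ℝ} (hB : ∀ u, ‖ρ u‖ ≤ B) (c : ℂ) :
    ∫ u : ℝ, ρ u * (c * g u + h u) = c * (∫ u : ℝ, ρ u * g u) + ∫ u : ℝ, ρ u * h u := by
  rw [← integral_const_mul, ← integral_add ((int_rho hg ha h1 h2 hm hB).const_mul c)
    (int_rho hh ha h1 h2 hm hB)]
  refine integral_congr_ae (Filter.Eventually.of_forall fun u => ?_)
  simp only []
  ring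

theorem Vp_lin {y₁ y₂ a : ℝ} {ρ : ℝ → ℂ} (η : ℕ → Crs) (ha : 0 < a) (h1 : y₁ < 0) (h2 : 0 < y₂)
    (hm : AEStronglyMeasurable ρ volume) {B : ℝ} (hB : ∀ u, ‖ρ u‖ ≤ B) :
    PBE.VLin y₁ y₂ a (Vp ρ η : (ℂ → ℂ) → CfN N → ℂ) := by
  intro M M' g h c ω hg hh
  unfold Vp
  rw [VQ_qD_lin, int_rho_lin hg hh ha h1 h2 hm hB c]
  ring

theorem Vm_lin {y₁ y₂ a : ℝ} {ρ : ℝ → ℂ} (η : ℕ → Crs) (ha : 0 < a) (h1 : y₁ < 0) (h2 : 0 < y₂)
    (hm : AEStronglyMeasurable ρ volume) {B : ℝ} (hB : ∀ u, ‖ρ u‖ ≤ B) :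
    PBE.VLin y₁ y₂ a (Vm ρ η : (ℂ → ℂ) → CfN N → ℂ) := by
  intro M M' g h c ω hg hh
  unfold Vm
  rw [VQ_qD_lin, int_rho_lin hg hh ha h1 h2 hm hB c]
  ring

/-! ### the general form: one body data minus the mean -/

/-- the mean of one body data: the species `s` has the density `Fil.b s * ρ` on the line `A` -/
def mD (ρ : ℝ → ℂ) (D : Stt) : ℂ := ∑ s, (Fil.b s : ℂ) * ∫ u : ℝ, ρ u * D s none (vl NUP1.l u)

theorem mD_eq (ρ : ℝ → ℂ) (D : Stt) :
    mD ρ D = (Fil.b true : ℂ) * (∫ u : ℝ, ρ u * D true none (vl NUP1.l u)) +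
      (Fil.b false : ℂ) * ∫ u : ℝ, ρ u * D false none (vl NUP1.l u) := by
  unfold mD
  rw [Fintype.sum_bool]

theorem mD_qD (ρ : ℝ → ℂ) (ε : Bool → ℂ) (g : ℂ → ℂ) :
    mD ρ (qD ε g) = ((Fil.b true : ℂ) * ε true + (Fil.b false : ℂ) * ε false) *
      ∫ u : ℝ, ρ u * g u := by
  have e : ∀ s : Bool, ∫ u : ℝ, ρ u * qD ε g s none (vl NUP1.l u) = ε s * ∫ u : ℝ, ρ u * g u := by
    intro s
    rw [← integral_const_mul]
    refine integral_congr_ae (Filter.Eventually.of_forall fun u => ?_)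
    simp only [qD, hgt_line]
    ring
  rw [mD_eq, e, e]
  ring

theorem Vp_mD (ρ : ℝ → ℂ) (η : ℕ → Crs) (g : ℂ → ℂ) (ω : CfN N) :
    Vp ρ η g ω = VQ (qD eP g) η ω - mD ρ (qD eP g) := by
  unfold Vp
  rw [mD_qD]
  simp only [eP, mul_one]

theorem Vm_mD (ρ : ℝ → ℂ) (η : ℕ → Crs) (g : ℂ → ℂ) (ω : CfN N) :
    Vm ρ η g ω = VQ (qD eM g) η ω - mD ρ (qD eM g) := by
  unfold Vm
  rw [mD_qD]
  simp only [eM, if_true, Bool.false_eq_true, if_false]
  ring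

omit [Fil] in
/-- the step of the positions and of the heights -/
theorem sgU_hgt (z : ℂ) : PBOb.sgU z = PB.NX.sgC (hgt z) := rfl

omit [Fil] in
theorem sgU_vl (u : ℝ) : PBOb.sgU (vl NUP1.l u) = PB.NX.sgC u := by
  rw [sgU_hgt, hgt_line]

omit [Fil] in
theorem sgD_nn (s : Bool) (z : ℂ) : sgD s none z = eM s * PB.NX.sgC (hgt z) := by
  have h1 : PBOb.pf none z = z := by
    unfold PBOb.pf
    rw [PBOb.sh_none, ofReal_zero, add_zero]
  have h2 : PBOb.qb (s, none) = eM s := by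
    cases s <;> simp [PBOb.qb, PBI.co, sc, ob4, Bd.chg, eM]
  unfold sgD
  rw [h1, h2, sgU_hgt]

theorem mD_sgD (ρ : ℝ → ℂ) :
    mD ρ sgD = ((Fil.b true : ℂ) - Fil.b false) * ∫ u : ℝ, ρ u * PB.NX.sgC u := by
  have e : mD ρ sgD = mD ρ (qD eM PB.NX.sgC) := by
    unfold mD
    simp only [sgD_nn, qD]
  rw [e, mD_qD]
  simp only [eM, if_true, Bool.false_eq_true, if_false]
  ring

theorem SN_mD (ρ : ℝ → ℂ) (P : NUO.Par) (η : ℕ → Crs) (ω : CfN N) :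
    SN ρ P η ω = VA sgD P η ω - mD ρ sgD := by
  unfold SN
  rw [mD_sgD]

theorem SN_sgU (ρ : ℝ → ℂ) (P : NUO.Par) (η : ℕ → Crs) (ω : CfN N) :
    SN ρ P η ω = VA sgD P η ω -
      ((Fil.b true : ℂ) - Fil.b false) * ∫ u : ℝ, ρ u * PBOb.sgU (vl NUP1.l u) := by
  unfold SN
  simp only [sgU_vl]

/-- the statistics of the step of the quanta -/
theorem VQ_sgD (η : ℕ → Crs) (ω : CfN N) : VQ sgD η ω = VQ (qD eM PB.NX.sgC) η ω := by
  simp only [VQ_eq, sgD_nn, qD]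

/-- **the step is the minus channel of `sgC` and the statistic of the objects** -/
theorem SN_Vm (ρ : ℝ → ℂ) (P : NUO.Par) (η : ℕ → Crs) (ω : CfN N) :
    SN ρ P η ω = Vm ρ η PB.NX.sgC ω + VO sgD P ω := by
  unfold SN Vm
  rw [VA_eq, VQ_sgD]
  ring

end PBF.PLX

end
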