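import Pool.Agent.PLX.Ns
import Pool.Agent.PLX.PB.StatN
import Pool.Agent.PLX.PB.InsTwo
import Pool.Agent.PLX.RepE2

/-!
# Plan B: quadratic insertions, from the straight lines to the curves (helper15)

`Z`, `P` fixed, numbers of quanta `n ≤ N`, coefficients `c n`, curves `η n`.

* `F0N Ψ = ∑ n ≤ N, c n * F0 x0 n (n + dN N) (fl P) Z Ψ`;
* `TrN`: the data of 86's transfer for every `n ≤ N`;
* `VC ρ g`: the centred statistic of all constituents on `CfN N`;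
* `F0N_zero`, `F0N_one`, `F0N_two`: insertions `1`, `nuI A`, `nuI A * nuI B`;
* `Chn`: a kernel which is a superposition of products of admissible statistics;
  **`Chn.F0N_nuQ`**: `F0N (nuQI k) = (1/2) ∫ F (VC (A q) * VC (B q))`;
* **`F0N_total`**: the whole insertion of the first Ward identity.
-/

set_option autoImplicit false
set_option linter.unusedSectionVars false
set_option maxHeartbeats 1000000

noncomputable section

open Complex MeasureTheory Finset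
open scoped ENNReal Classical
open PLX (Fil)

namespace PBRep.PLX

open NUP1 hiding Kd
open NUO NUP1S NUP1S.Ab NUP1S.AbC PBF PBF.PLX PBFunc PBFunc.PLX PB
open PBI (Stt Kd F0 F0Ok nuI nuQI mnI InD PAll F0_rep nuI_eq)
open PBI.PLX (fl)

/-- one body data from functions of kinds -/
abbrev sK (g : Kd → ℂ → ℂ) : Stt := fun s k => g (s, k)

variable [Fil]

/-- the data of the transfer for all numbers of quanta -/
structure TrN (Z : Stt) (P : NUO.Par) (x0 κ κ' δ : ℝ) (N : ℕ) (η η' : ℕ → Crs) : Prop where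
  ins : ∀ n ≤ N, PBF.PLX.InsQ P x0 κ κ' δ (-(dN N : ℤ)) n (n + dN N) (η n) (η' n)
  cl : ClZ Z P x0 κ κ' δ (-(dN N : ℤ))
  fin : ∀ n ≤ N, FA Z P n (n + dN N) (η n) (η' n) (fun _ _ _ _ _ => 1) < ∞

variable {Z : Stt} {P : NUO.Par} {x0 κ κ' δ : ℝ} {N : ℕ} {η η' : ℕ → Crs} {c : ℕ → ℂ}

theorem TrN.mc (h : TrN Z P x0 κ κ' δ N η η') : ∀ n ≤ N, MC Z P (η n) (η' n) := fun n hn =>
  MC.of (h.ins n hn).hP h.cl.m (h.ins n hn).hc

/-- the sum of the functionals of the straight lines -/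
def F0N (Z : Stt) (P : NUO.Par) (x0 : ℝ) (N : ℕ) (c : ℕ → ℂ) (Ψ : PBI.Ins) : ℂ :=
  ∑ n ∈ range (N + 1), c n * F0 x0 n (n + dN N) (fl P) Z Ψ

/-- the weight on the configurations -/
abbrev wT (Z : Stt) (P : NUO.Par) (N : ℕ) (η η' : ℕ → Crs) (c : ℕ → ℂ) : CfN N → ℂ :=
  wN (fun _ => Z) (fun _ => P) N η η' c

/-- centred statistic of all constituents -/
def VC (ρ : Kd → ℝ → ℂ) (P : NUO.Par) (η : ℕ → Crs) (g : Kd → ℂ → ℂ) : CfN N → ℂ := fun ω =>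
  VA (sK g) P η ω - mnI ρ g

/-- centred statistic as an insertion -/
def cI (ρ : Kd → ℝ → ℂ) (P : NUO.Par) (η : Crs) (g : Kd → ℂ → ℂ) : PBF.PLX.Ins := fun r O a b x =>
  stA (sK g) P η r O a b x - mnI ρ g

theorem FAN_lt {Ψ : ℕ → PBF.PLX.Ins} (h : ∀ n ≤ N, FA Z P n (n + dN N) (η n) (η' n) (Ψ n) < ∞) :
    FAN (fun _ => Z) (fun _ => P) N η η' c Ψ < ∞ := by
  unfold FAN
  refine ENNReal.sum_lt_top.2 fun n hn => ?_
  exact ENNReal.mul_lt_top enorm_lt_top (h n (Nat.lt_succ_iff.1 (Finset.mem_range.1 hn)))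

theorem FFN_F (h : TrN Z P x0 κ κ' δ N η η') {Ψ : ℕ → PBF.PLX.Ins} (hΨ : ∀ n ≤ N, MIn (Ψ n))
    (hf : ∀ n ≤ N, FA Z P n (n + dN N) (η n) (η' n) (Ψ n) < ∞) :
    ∑ n ∈ range (N + 1), c n * FF Z P n (n + dN N) (η n) (η' n) (Ψ n) =
      F (mN N) (wT Z P N η η' c) (evN Ψ) :=
  FFN_eq (Z := fun _ => Z) (P := fun _ => P) h.mc hΨ (FAN_lt hf)

theorem WI_N (h : TrN Z P x0 κ κ' δ N η η') {Ψ : ℕ → PBF.PLX.Ins} (hΨ : ∀ n ≤ N, MIn (Ψ n))
    (hf : ∀ n ≤ N, FA Z P n (n + dN N) (η n) (η' n) (Ψ n) < ∞) :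
    WI (mN N) (wT Z P N η η' c) (evN Ψ) :=
  WIN_of (Z := fun _ => Z) (P := fun _ => P) h.mc hΨ (FAN_lt hf)

theorem MIn_stA (h : TrN Z P x0 κ κ' δ N η η') {D : Stt} (hD : ∀ s k, Measurable (D s k))
    {n : ℕ} (hn : n ≤ N) : MIn (stA D P (η n)) := by
  have := MIn.StF (h.ins n hn).hP hD (h.ins n hn).hc
  rwa [StF_stA] at this

/-! ### one and two statistics, one number of quanta -/

section one

variable {n : ℕ} {ρ : Kd → ℝ → ℂ} {A B : Kd → ℂ → ℂ}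

theorem MIn_cI (h : TrN Z P x0 κ κ' δ N η η') (hA : AdS P x0 δ (sK A)) (hn : n ≤ N) :
    MIn (cI ρ P (η n) A) := by
  obtain ⟨C, hA⟩ := hA
  exact fun r a b => ((MIn_stA h hA.m hn) r a b).sub_const _

/-- the total statistic is bounded -/
theorem FA_stA (h : TrN Z P x0 κ κ' δ N η η') (hA : AdS P x0 δ (sK A)) (hn : n ≤ N) :
    FA Z P n (n + dN N) (η n) (η' n) (stA (sK A) P (η n)) < ∞ :=
  (ins_one (h.ins n hn) hA h.cl (h.fin n hn)).2

theorem ok_St (h : TrN Z P x0 κ κ' δ N η η') (hA : AdS P x0 δ (sK A)) (hn : n ≤ N) :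
    F0Ok x0 n (n + dN N) (fl P) Z (PBI.St (sK A)) := by
  have key := (ins_listA (h.ins n hn) (L := [sK A]) (fun b hb => by
    rw [List.mem_singleton] at hb
    rw [hb]
    exact hA) h.cl (h.fin n hn)).2.1
  have e1 : pSt [sK A] = PBI.St (sK A) := by
    funext ι _ c z
    simp [pSt]
  rwa [e1] at key

theorem ok_St2 (h : TrN Z P x0 κ κ' δ N η η') (hA : AdS P x0 δ (sK A))
    (hB : AdS P x0 δ (sK B)) (hn : n ≤ N) :
    F0Ok x0 n (n + dN N) (fl P) Z (fun ι _ c z => PBI.St (sK A) ι c z * PBI.St (sK B) ι c z) := by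
  have key := (ins_listA (h.ins n hn) (L := [sK A, sK B]) (fun d hd => by
    simp only [List.mem_cons, List.not_mem_nil, or_false] at hd
    rcases hd with rfl | rfl
    · exact hA
    · exact hB) h.cl (h.fin n hn)).2.1
  have e1 : pSt [sK A, sK B] = (fun ι _ c z => PBI.St (sK A) ι c z * PBI.St (sK B) ι c z : PBI.Ins) := by
    funext ι _ c z
    simp [pSt]
  rwa [e1] at key

theorem ok_one (h : TrN Z P x0 κ κ' δ N η η') (hn : n ≤ N) :
    F0Ok x0 n (n + dN N) (fl P) Z (fun _ _ _ _ => 1) := by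
  have hi := h.ins n hn
  exact PBI.PLX.F0Ok_decZ hi.hG (hi.hx0.trans (by have := Bd.l_pos; linarith)) hi.hκ h.cl.m h.cl.dec
    hi.hn

/-- insertion of one centred statistic -/
theorem F0_nuI (h : TrN Z P x0 κ κ' δ N η η') (hA : AdS P x0 δ (sK A)) (hn : n ≤ N) :
    F0Ok x0 n (n + dN N) (fl P) Z (nuI ρ A) ∧
    F0 x0 n (n + dN N) (fl P) Z (nuI ρ A) = FF Z P n (n + dN N) (η n) (η' n) (cI ρ P (η n) A) ∧
    FA Z P n (n + dN N) (η n) (η' n) (cI ρ P (η n) A) < ∞ := by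
  obtain ⟨C, hAm⟩ := id hA
  have hM := h.mc n hn
  have o1 := ok_St h hA hn
  have o0 := ok_one h hn
  have oc := o0.smul (-(mnI ρ A))
  have e0 : nuI ρ A = (fun ι _ c z => PBI.St (sK A) ι c z + -(mnI ρ A) * 1 : PBI.Ins) := by
    funext ι _ c z
    rw [nuI_eq]
    ring
  have w1 := WI_of hM (MIn_stA h hAm.m hn) (FA_stA h hA hn)
  have w0 := WI_of hM MIn.one (h.fin n hn)
  have wc := w0.smul (-(mnI ρ A))
  have wt := w1.add wc
  have ec : ev (n := n) (n' := n + dN N) (cI ρ P (η n) A) = fun ω =>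
      ev (stA (sK A) P (η n)) ω + -(mnI ρ A) * ev (fun _ _ _ _ _ => 1) ω := by
    funext ω
    show stA (sK A) P (η n) _ _ _ _ _ - mnI ρ A = stA (sK A) P (η n) _ _ _ _ _ + -(mnI ρ A) * 1
    ring
  have hf : FA Z P n (n + dN N) (η n) (η' n) (cI ρ P (η n) A) < ∞ := by
    rw [FA_eq hM (MIn_cI h hA hn)]
    have := wt.2
    unfold HasFiniteIntegral at this
    rw [← ec] at this
    simpa only [enorm_mul] using this
  refine ⟨?_, ?_, hf⟩
  · rw [e0]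
    exact o1.add oc
  · rw [e0, PBI.F0_add o1 oc, PBI.F0_smul, (ins_one (h.ins n hn) hA h.cl (h.fin n hn)).1,
      ins_zero (h.ins n hn) h.cl (h.fin n hn), FF_eq hM (MIn_stA h hAm.m hn) (FA_stA h hA hn),
      FF_eq hM MIn.one (h.fin n hn), FF_eq hM (MIn_cI h hA hn) hf, ec, F_add w1 wc, F_smul]

/-- **insertion of two centred statistics** -/
theorem F0_nuI2 (h : TrN Z P x0 κ κ' δ N η η') (hA : AdS P x0 δ (sK A))
    (hB : AdS P x0 δ (sK B)) (hn : n ≤ N) :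
    F0Ok x0 n (n + dN N) (fl P) Z (fun ι _ c z => nuI ρ A ι c z * nuI ρ B ι c z) ∧
    F0 x0 n (n + dN N) (fl P) Z (fun ι _ c z => nuI ρ A ι c z * nuI ρ B ι c z) =
      FF Z P n (n + dN N) (η n) (η' n) (fun r O a b x => cI ρ P (η n) A r O a b x *
        cI ρ P (η n) B r O a b x) ∧
    FA Z P n (n + dN N) (η n) (η' n) (fun r O a b x => cI ρ P (η n) A r O a b x *
        cI ρ P (η n) B r O a b x) < ∞ := by
  obtain ⟨C, hAm⟩ := id hA
  obtain ⟨C', hBm⟩ := id hB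
  have hM := h.mc n hn
  set mA := mnI ρ A with hmA
  set mB := mnI ρ B with hmB
  have o2 := ok_St2 h hA hB hn
  have oA := (ok_St h hA hn).smul (-mB)
  have oB := (ok_St h hB hn).smul (-mA)
  have o0 := (ok_one h hn).smul (mA * mB)
  have e0 : (fun ι _ c z => nuI ρ A ι c z * nuI ρ B ι c z : PBI.Ins) = (fun ι _ c z =>
      PBI.St (sK A) ι c z * PBI.St (sK B) ι c z + (-mB * PBI.St (sK A) ι c z +
        (-mA * PBI.St (sK B) ι c z + (mA * mB) * 1)) : PBI.Ins) := by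
    funext ι _ c z
    rw [nuI_eq, nuI_eq, ← hmA, ← hmB]
    ring
  have t2 := ins_two (h.ins n hn) hA hB h.cl (h.fin n hn)
  have MA := MIn_stA h hAm.m hn
  have MB := MIn_stA h hBm.m hn
  have M2 : MIn (fun r O m m' x => stA (sK A) P (η n) r O m m' x * stA (sK B) P (η n) r O m m' x) :=
    fun r a b => (MA r a b).mul (MB r a b)
  have MC2 : MIn (fun r O a b x => cI ρ P (η n) A r O a b x * cI ρ P (η n) B r O a b x) :=
    fun r a b => (MIn_cI h hA hn r a b).mul (MIn_cI h hB hn r a b)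
  have w2 := WI_of hM M2 t2.2
  have wA := (WI_of hM MA (FA_stA h hA hn)).smul (-mB)
  have wB := (WI_of hM MB (FA_stA h hB hn)).smul (-mA)
  have w0 := (WI_of hM MIn.one (h.fin n hn)).smul (mA * mB)
  have wt := w2.add (wA.add (wB.add w0))
  have ec : ev (n := n) (n' := n + dN N) (fun r O a b x => cI ρ P (η n) A r O a b x *
      cI ρ P (η n) B r O a b x) = fun ω =>
      ev (fun r O m m' x => stA (sK A) P (η n) r O m m' x * stA (sK B) P (η n) r O m m' x) ω +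
      (-mB * ev (stA (sK A) P (η n)) ω + (-mA * ev (stA (sK B) P (η n)) ω +
        (mA * mB) * ev (fun _ _ _ _ _ => 1) ω)) := by
    funext ω
    show (stA (sK A) P (η n) _ _ _ _ _ - mA) * (stA (sK B) P (η n) _ _ _ _ _ - mB) =
      stA (sK A) P (η n) _ _ _ _ _ * stA (sK B) P (η n) _ _ _ _ _ +
        (-mB * stA (sK A) P (η n) _ _ _ _ _ + (-mA * stA (sK B) P (η n) _ _ _ _ _ +
          (mA * mB) * 1))
    ring
  have hf : FA Z P n (n + dN N) (η n) (η' n) (fun r O a b x => cI ρ P (η n) A r O a b x *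
      cI ρ P (η n) B r O a b x) < ∞ := by
    rw [FA_eq hM MC2]
    have := wt.2
    unfold HasFiniteIntegral at this
    rw [← ec] at this
    simpa only [enorm_mul] using this
  refine ⟨?_, ?_, hf⟩
  · rw [e0]
    exact o2.add (oA.add (oB.add o0))
  · rw [e0, PBI.F0_add o2 (oA.add (oB.add o0)), PBI.F0_add oA (oB.add o0), PBI.F0_add oB o0,
      PBI.F0_smul, PBI.F0_smul, PBI.F0_smul, t2.1,
      (ins_one (h.ins n hn) hA h.cl (h.fin n hn)).1, (ins_one (h.ins n hn) hB h.cl (h.fin n hn)).1,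
      ins_zero (h.ins n hn) h.cl (h.fin n hn), FF_eq hM M2 t2.2,
      FF_eq hM MA (FA_stA h hA hn), FF_eq hM MB (FA_stA h hB hn), FF_eq hM MIn.one (h.fin n hn),
      FF_eq hM MC2 hf, ec, F_add w2 (wA.add (wB.add w0)), F_add wA (wB.add w0), F_add wB w0,
      F_smul, F_smul, F_smul]

end one

/-! ### sums over the numbers of quanta -/

section sum

variable {ρ : Kd → ℝ → ℂ} {A B : Kd → ℂ → ℂ}

theorem F0N_zero (h : TrN Z P x0 κ κ' δ N η η') :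
    F0N Z P x0 N c (fun _ _ _ _ => 1) = F (mN N) (wT Z P N η η' c) fun _ => 1 := by
  rw [show (fun _ : CfN N => (1 : ℂ)) = evN fun _ _ _ _ _ _ => 1 from rfl,
    ← FFN_F h (fun _ _ => MIn.one) h.fin]
  unfold F0N
  refine Finset.sum_congr rfl fun n hn => ?_
  have hn' := Nat.lt_succ_iff.1 (Finset.mem_range.1 hn)
  rw [ins_zero (h.ins n hn') h.cl (h.fin n hn')]

theorem F0N_one (h : TrN Z P x0 κ κ' δ N η η') (hA : AdS P x0 δ (sK A)) :
    WI (mN N) (wT Z P N η η' c) (VC ρ P η A) ∧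
    F0N Z P x0 N c (nuI ρ A) = F (mN N) (wT Z P N η η' c) (VC ρ P η A) := by
  have hΨ : ∀ n ≤ N, MIn (cI ρ P (η n) A) := fun n hn => MIn_cI h hA hn
  have hf : ∀ n ≤ N, FA Z P n (n + dN N) (η n) (η' n) (cI ρ P (η n) A) < ∞ := fun n hn =>
    (F0_nuI h hA hn).2.2
  refine ⟨WI_N h hΨ hf, ?_⟩
  rw [show (VC ρ P η A : CfN N → ℂ) = evN fun n => cI ρ P (η n) A from rfl, ← FFN_F h hΨ hf]
  unfold F0N
  refine Finset.sum_congr rfl fun n hn => ?_
  have hn' := Nat.lt_succ_iff.1 (Finset.mem_range.1 hn)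
  rw [(F0_nuI h hA hn').2.1]

/-- **two centred statistics** -/
theorem F0N_two (h : TrN Z P x0 κ κ' δ N η η') (hA : AdS P x0 δ (sK A))
    (hB : AdS P x0 δ (sK B)) :
    WI (mN N) (wT Z P N η η' c) (fun ω => VC ρ P η A ω * VC ρ P η B ω) ∧
    F0N Z P x0 N c (fun ι _ c z => nuI ρ A ι c z * nuI ρ B ι c z) =
      F (mN N) (wT Z P N η η' c) (fun ω => VC ρ P η A ω * VC ρ P η B ω) := by
  have hΨ : ∀ n ≤ N, MIn (fun r O a b x => cI ρ P (η n) A r O a b x *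
      cI ρ P (η n) B r O a b x) := fun n hn r a b =>
    (MIn_cI h hA hn r a b).mul (MIn_cI h hB hn r a b)
  have hf : ∀ n ≤ N, FA Z P n (n + dN N) (η n) (η' n) (fun r O a b x => cI ρ P (η n) A r O a b x *
      cI ρ P (η n) B r O a b x) < ∞ := fun n hn => (F0_nuI2 h hA hB hn).2.2
  refine ⟨WI_N h hΨ hf, ?_⟩
  rw [show (fun ω : CfN N => VC ρ P η A ω * VC ρ P η B ω) = evN fun n r O a b x =>
      cI ρ P (η n) A r O a b x * cI ρ P (η n) B r O a b x from rfl, ← FFN_F h hΨ hf]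
  unfold F0N
  refine Finset.sum_congr rfl fun n hn => ?_
  have hn' := Nat.lt_succ_iff.1 (Finset.mem_range.1 hn)
  rw [(F0_nuI2 h hA hB hn').2.1]

/-! linearity of `F0N` -/

variable {Ψ Ψ' : PBI.Ins}

/-- admissible insertions for every number of quanta -/
def OkN (Z : Stt) (P : NUO.Par) (x0 : ℝ) (N : ℕ) (Ψ : PBI.Ins) : Prop :=
  ∀ n ≤ N, F0Ok x0 n (n + dN N) (fl P) Z Ψ

theorem F0N_add (h : OkN Z P x0 N Ψ) (h' : OkN Z P x0 N Ψ') :
    F0N Z P x0 N c (fun ι _ k z => Ψ ι k z + Ψ' ι k z) = F0N Z P x0 N c Ψ + F0N Z P x0 N c Ψ' := by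
  unfold F0N
  rw [← Finset.sum_add_distrib]
  refine Finset.sum_congr rfl fun n hn => ?_
  have hn' := Nat.lt_succ_iff.1 (Finset.mem_range.1 hn)
  rw [PBI.F0_add (h n hn') (h' n hn')]
  ring

theorem OkN.add (h : OkN Z P x0 N Ψ) (h' : OkN Z P x0 N Ψ') :
    OkN Z P x0 N (fun ι _ k z => Ψ ι k z + Ψ' ι k z) := fun n hn => (h n hn).add (h' n hn)

theorem OkN.smul (h : OkN Z P x0 N Ψ) (r : ℂ) : OkN Z P x0 N (fun ι _ k z => r * Ψ ι k z) :=
  fun n hn => (h n hn).smul r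

theorem F0N_smul (r : ℂ) :
    F0N Z P x0 N c (fun ι _ k z => r * Ψ ι k z) = r * F0N Z P x0 N c Ψ := by
  unfold F0N
  rw [Finset.mul_sum]
  refine Finset.sum_congr rfl fun n _ => ?_
  rw [PBI.F0_smul]
  ring

theorem F0N_congr (h : ∀ n ≤ N, PBI.AllW x0 n (n + dN N) (fl P) fun {ι} _ c x => ∀ t : ι → ℝ,
    Ψ ι c (NUP1S.pos x t) = Ψ' ι c (NUP1S.pos x t)) : F0N Z P x0 N c Ψ = F0N Z P x0 N c Ψ' := by
  unfold F0N
  refine Finset.sum_congr rfl fun n hn => ?_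
  have hn' := Nat.lt_succ_iff.1 (Finset.mem_range.1 hn)
  rw [PBI.F0_congr (h n hn')]

end sum

/-! ### superpositions -/

section chn

variable {T : Type*} [MeasurableSpace T] {μ : Measure T} [SFinite μ] {D : Kd → Set ℂ}
  {ρ : Kd → ℝ → ℂ} {k : Kd → Kd → ℂ → ℂ → ℂ} {A B : T → Kd → ℂ → ℂ} {al be : T → ℝ}
  {φ ψ : Kd → ℂ → ℝ}

/-- **a kernel which is a superposition of products of admissible statistics** -/
structure Chn (P : NUO.Par) (x0 δ : ℝ) (N : ℕ) (μ : Measure T) (D : Kd → Set ℂ)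
    (ρ : Kd → ℝ → ℂ) (k : Kd → Kd → ℂ → ℂ → ℂ) (A B : T → Kd → ℂ → ℂ) (al be : T → ℝ)
    (φ ψ : Kd → ℂ → ℝ) : Prop where
  R : NX.PRep μ D (vl l) ρ k A B al be φ ψ
  hm : ∀ b c x, x ∈ D b → AEStronglyMeasurable (fun u => k b c x (vl l u) * ρ c u) volume
  mA : ∀ b, Measurable fun p : T × ℂ => A p.1 b p.2
  mB : ∀ b, Measurable fun p : T × ℂ => B p.1 b p.2
  adA : ∀ q, AdS P x0 δ (sK (A q))
  adB : ∀ q, AdS P x0 δ (sK (B q))
  inD : ∀ n ≤ N, InD x0 n (n + dN N) (fl P) D φ ψ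

theorem Chn.qid (h : Chn P x0 δ N μ D ρ k A B al be φ ψ) : NX.QID D (vl l) ρ k := h.R.qid h.hm

theorem Chn.ok (h : Chn P x0 δ N μ D ρ k A B al be φ ψ) (hT : TrN Z P x0 κ κ' δ N η η') :
    OkN Z P x0 N (nuQI ρ k) := fun n hn =>
  (F0_rep h.R h.mA h.mB (h.inD n hn) (ok_one hT hn)).2.1

/-- **the quadratic insertion of a superposition** -/
theorem Chn.F0N_nuQ (h : Chn P x0 δ N μ D ρ k A B al be φ ψ)
    (hT : TrN Z P x0 κ κ' δ N η η') :
    Integrable (fun q => F (mN N) (wT Z P N η η' c)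
      fun ω => VC ρ P η (A q) ω * VC ρ P η (B q) ω) μ ∧
    F0N Z P x0 N c (nuQI ρ k) = (1 / 2) * ∫ q, (F (mN N) (wT Z P N η η' c)
      fun ω => VC ρ P η (A q) ω * VC ρ P η (B q) ω) ∂μ := by
  have h1 : ∀ q, F (mN N) (wT Z P N η η' c) (fun ω => VC ρ P η (A q) ω * VC ρ P η (B q) ω) =
      F0N Z P x0 N c (fun ι _ c z => nuI ρ (A q) ι c z * nuI ρ (B q) ι c z) := fun q =>
    (F0N_two hT (h.adA q) (h.adB q)).2.symm
  simp only [h1]
  unfold F0N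
  have h2 := fun n (hn : n ≤ N) => F0_rep h.R h.mA h.mB (h.inD n hn) (ok_one hT hn)
  have h3 : ∀ n ∈ range (N + 1), Integrable (fun q => c n * F0 x0 n (n + dN N) (fl P) Z
      fun ι _ c z => nuI ρ (A q) ι c z * nuI ρ (B q) ι c z) μ := fun n hn =>
    ((h2 n (Nat.lt_succ_iff.1 (Finset.mem_range.1 hn))).1).const_mul _
  refine ⟨integrable_finsetSum _ h3, ?_⟩
  rw [integral_finsetSum _ h3, Finset.mul_sum]
  refine Finset.sum_congr rfl fun n hn => ?_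
  rw [(h2 n (Nat.lt_succ_iff.1 (Finset.mem_range.1 hn))).2.2, integral_const_mul]
  ring

end chn

/-! ### the total insertion -/

section total

variable {T T' T₃ : Type*} [MeasurableSpace T] [MeasurableSpace T'] [MeasurableSpace T₃]
  {μ : Measure T} {μ' : Measure T'} {μ₃ : Measure T₃} [SFinite μ] [SFinite μ'] [SFinite μ₃]
  {D : Kd → Set ℂ} {ρ : Kd → ℝ → ℂ} {a : Kd → Kd → ℂ → ℂ → ℂ}
  {k : Kd → Kd → ℂ → ℂ → ℂ} {A B : T → Kd → ℂ → ℂ} {al be : T → ℝ} {φ ψ : Kd → ℂ → ℝ}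
  {k' : Kd → Kd → ℂ → ℂ → ℂ} {A' B' : T' → Kd → ℂ → ℂ} {al' be' : T' → ℝ} {φ' ψ' : Kd → ℂ → ℝ}
  {k₃ : Kd → Kd → ℂ → ℂ → ℂ} {A₃ B₃ : T₃ → Kd → ℂ → ℂ} {al₃ be₃ : T₃ → ℝ}
  {φ₃ ψ₃ : Kd → ℂ → ℝ} {ξ sg : Kd → ℂ → ℂ} {xp xm : ℂ} {gl : Kd → ℂ → ℂ}

/-- three channels -/
theorem nuQI_split3 (he : ∀ b u, ρ b u ≠ 0 → vl l u ∈ D b) (h1 : NX.QID D (vl l) ρ k)
    (h2 : NX.QID D (vl l) ρ k') (h3 : NX.QID D (vl l) ρ k₃)
    (hk : ∀ b c x y, x ∈ D b → y ∈ D c → a b c x y = k b c x y + k' b c x y + k₃ b c x y)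
    {ι : Type} [Fintype ι] {s : ι → Kd} {z : ι → ℂ} (hz : ∀ i, z i ∈ D (s i)) :
    nuQI ρ a ι s z = nuQI ρ k ι s z + nuQI ρ k' ι s z + nuQI ρ k₃ ι s z := by
  unfold nuQI
  rw [← NX.nuQ_addD s he h1 h2 hz, ← NX.nuQ_addD s he (h1.add he h2) h3 hz]
  refine (NX.nuQ_cD he a hz).symm.trans (Eq.trans ?_ (NX.nuQ_cD he
    (fun b c x y => k b c x y + k' b c x y + k₃ b c x y) hz))
  congr 1
  funext b c x y
  unfold NX.cD
  split_ifs with hxy
  · exact hk b c x y hxy.1 hxy.2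
  · rfl

/-- **the whole insertion of the first Ward identity on the curves** -/
theorem F0N_total (hT : TrN Z P x0 κ κ' δ N η η')
    (C1 : Chn P x0 δ N μ D ρ k A B al be φ ψ) (C2 : Chn P x0 δ N μ' D ρ k' A' B' al' be' φ' ψ')
    (C3 : Chn P x0 δ N μ₃ D ρ k₃ A₃ B₃ al₃ be₃ φ₃ ψ₃)
    (hk : ∀ b c x y, x ∈ D b → y ∈ D c →
      PBI.aLoc xp xm ξ sg a b c x y = k b c x y + k' b c x y + k₃ b c x y)
    (hQ : NX.QID D (vl l) ρ a) (hρ : ∀ b, Integrable (ρ b))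
    (hn : ∑ b, ∫ u, ρ b u * (PBI.chK b * 1) = -(dN N : ℂ))
    (hb : ∀ b, Integrable fun u => ρ b u * PBI.beK xp xm ξ sg b (vl l u))
    (hs : ∀ b, Integrable fun u => ρ b u * PBI.sgK sg b (vl l u))
    (adb : AdS P x0 δ (sK (PBI.beK xp xm ξ sg))) (ads : AdS P x0 δ (sK (PBI.sgK sg)))
    (adl : AdS P x0 δ (sK gl)) :
    F0N Z P x0 N c (fun ι _ s z => nuQI ρ a ι s z + nuI ρ gl ι s z) =
      (1 / 2) * (∫ q, (F (mN N) (wT Z P N η η' c)
        fun ω => VC ρ P η (A q) ω * VC ρ P η (B q) ω) ∂μ) +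
      (1 / 2) * (∫ q, (F (mN N) (wT Z P N η η' c)
        fun ω => VC ρ P η (A' q) ω * VC ρ P η (B' q) ω) ∂μ') +
      (1 / 2) * (∫ q, (F (mN N) (wT Z P N η η' c)
        fun ω => VC ρ P η (A₃ q) ω * VC ρ P η (B₃ q) ω) ∂μ₃) +
      2 * (F (mN N) (wT Z P N η η' c)
        fun ω => VC ρ P η (PBI.beK xp xm ξ sg) ω * VC ρ P η (PBI.sgK sg) ω) -
      (xp - xm) / 2 * (F (mN N) (wT Z P N η η' c)
        fun ω => VC ρ P η (PBI.sgK sg) ω * VC ρ P η (PBI.sgK sg) ω) +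
      F (mN N) (wT Z P N η η' c) (VC ρ P η gl) := by
  have he := C1.R.he
  have q1 := C1.qid
  have q2 := C2.qid
  have q3 := C3.qid
  have o1 := C1.ok hT
  have o2 := C2.ok hT
  have o3 := C3.ok hT
  have ob : OkN Z P x0 N (fun ι _ s z => nuI ρ (PBI.beK xp xm ξ sg) ι s z *
      nuI ρ (PBI.sgK sg) ι s z) := fun n hn' => (F0_nuI2 hT adb ads hn').1
  have os : OkN Z P x0 N (fun ι _ s z => nuI ρ (PBI.sgK sg) ι s z *
      nuI ρ (PBI.sgK sg) ι s z) := fun n hn' => (F0_nuI2 hT ads ads hn').1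
  have ol : OkN Z P x0 N (nuI ρ gl) := fun n hn' => (F0_nuI hT adl hn').1
  have e : F0N Z P x0 N c (fun ι _ s z => nuQI ρ a ι s z + nuI ρ gl ι s z) =
      F0N Z P x0 N c (fun ι _ s z => ((((nuQI ρ k ι s z + nuQI ρ k' ι s z) + nuQI ρ k₃ ι s z) +
        2 * (nuI ρ (PBI.beK xp xm ξ sg) ι s z * nuI ρ (PBI.sgK sg) ι s z)) +
        -((xp - xm) / 2) * (nuI ρ (PBI.sgK sg) ι s z * nuI ρ (PBI.sgK sg) ι s z)) +
        nuI ρ gl ι s z) := by
    refine F0N_congr fun n hn' p p' w w' h1 h2 t => ?_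
    have hz : ∀ i, NUP1S.pos ((fl P).all x0 n (n + dN N) w w') t i ∈ D (PBI.cl n (n + dN N) w w' i) := fun i =>
      (C1.inD n hn').d p p' w w' h1 h2 i (t i)
    have hc : ((∑ i, sc (PBI.co (PBI.cl n (n + dN N) w w' i)) : ℝ) : ℂ) =
        ∑ b, ∫ u, ρ b u * (PBI.chK b * 1) := by
      rw [PBI.sum_sc_cl h1 h2, hn]
      push_cast
      ring
    rw [PBI.nuQI_chargeQ he hQ hρ hb hs hc hz,
      nuQI_split3 (a := PBI.aLoc xp xm ξ sg a) he q1 q2 q3 hk hz]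
    ring
  rw [e, F0N_add (((((o1.add o2).add o3).add (ob.smul 2)).add (os.smul _))) ol,
    F0N_add ((((o1.add o2).add o3).add (ob.smul 2))) (os.smul _),
    F0N_add ((o1.add o2).add o3) (ob.smul 2), F0N_add (o1.add o2) o3, F0N_add o1 o2, F0N_smul,
    F0N_smul, (C1.F0N_nuQ hT).2, (C2.F0N_nuQ hT).2, (C3.F0N_nuQ hT).2, (F0N_two hT adb ads).2,
    (F0N_two hT ads ads).2, (F0N_one hT adl).2]
  ring

end total

end PBRep.PLX

end
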