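import Pool.Agent.PLX.Ns
import Pool.Agent.PB.ObRep
import Pool.Agent.PLX.PB.RepT

/-!
# Plan B: the object channel

* `adS_A3`, `adS_B3`: the factors of the representation of the pairs with an object are admissible
  statistics, with bounds `alO`, `beO`;
* `inD_DQ`: the lines of all words lie in `DQ`;
* **`chnO`**: the object channel, any domain `D` with `D b ⊆ DQ b`.
-/

set_option autoImplicit false
set_option linter.unusedSectionVars false

noncomputable section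

open Complex MeasureTheory Set
open scoped Classical

open PLX (Fil)

namespace PBOb.PLX

open NUP1 hiding Kd
open NUP1.Bd NUP1S PB PBRep PBRep.PLX PBF PBF.PLX
open PBI (Stt Kd F0 F0Ok nuI nuQI mnI InD AllW)
open PBI.PLX (fl)

/-- what is used of the parameters of the lines -/
structure ParO (P : NUO.Par) : Prop where
  jL : P.jL = 9 / 4
  e1 : 1 / 4 ≤ P.e
  d0 : ∀ r, 0 ≤ P.d r
  e2 : ∀ r, P.e + P.d r ≤ 3 / 8

theorem ParO.of {P : NUO.Par} (h : NURow.ParP P) : ParO P :=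
  ⟨h.jL, h.e1, fun r => (h.d0 r).le, h.e2⟩

/-- the lines of the heads lie in the domain -/
theorem DQ_none {u : ℂ} {s : Bool} {x0 δ : ℝ} (hx0 : 13 / 25 * l ≤ x0) (hδ : δ ≤ 1 / 20)
    (h1 : x0 ≤ u.re) (h2 : u.re ≤ (1 + δ) * l) : u ∈ DQ (s, none) := by
  have hl := Bd.l_pos
  show lo none + 1 / 50 * l ≤ u.re ∧ u.re ≤ hi none - 1 / 50 * l
  simp only [lo, hi]
  constructor
  · linarith
  · have : (1 + δ) * l ≤ (1 + 1 / 20) * l := mul_le_mul_of_nonneg_right (by linarith) hl.le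
    linarith

theorem DQ_L {P : NUO.Par} (hP : ParO P) {u : ℂ} {s : Bool} (h : u.re = (1 - P.jL) * l) :
    u ∈ DQ (s, some .L) := by
  have hl := Bd.l_pos
  show lo (some .L) + 1 / 50 * l ≤ u.re ∧ u.re ≤ hi (some .L) - 1 / 50 * l
  rw [h, hP.jL]
  simp only [lo, hi]
  constructor <;> linarith

theorem DQ_T {u : ℂ} {s : Bool} (h : u.re = -(1 / 2 * l)) : u ∈ DQ (s, some .T) := by
  have hl := Bd.l_pos
  show lo (some .T) + 1 / 50 * l ≤ u.re ∧ u.re ≤ hi (some .T) - 1 / 50 * l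
  rw [h]
  simp only [lo, hi]
  constructor <;> linarith

theorem DQ_S {P : NUO.Par} (hP : ParO P) {u : ℂ} {s : Bool} {r : ℕ} {e : ℝ} (h1 : P.e ≤ e)
    (h2 : e ≤ P.e + P.d r) (h : u.re = -((1 + e) * l)) : u ∈ DQ (s, some .S) := by
  have hl := Bd.l_pos
  have h3 := hP.e1
  have h4 := hP.e2 r
  show lo (some .S) + 1 / 50 * l ≤ u.re ∧ u.re ≤ hi (some .S) - 1 / 50 * l
  rw [h]
  simp only [lo, hi]
  constructor <;> nlinarith

/-- **a statistic with a bound on `DQ` is admissible** -/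
theorem adm_of {P : NUO.Par} (hP : ParO P) {x0 δ C : ℝ} (hx0 : 13 / 25 * l ≤ x0) (hδ : δ ≤ 1 / 20)
    {g : Kd → ℂ → ℂ} (hm : ∀ b, Measurable (g b))
    (hd : ∀ (s : Bool) (u : ℂ), u ∈ DQ (s, none) → DifferentiableAt ℂ (g (s, none)) u)
    (hC : ∀ b, ∀ u ∈ DQ b, ‖g b u‖ ≤ C) : Adm (PBRep.PLX.sK g) P x0 δ C where
  m s k := hm (s, k)
  d s u h1 h2 := hd s u (DQ_none hx0 hδ h1 h2)
  A s u h1 h2 := hC (s, none) u (DQ_none hx0 hδ h1 h2)
  L s u h := hC (s, some .L) u (DQ_L hP h)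
  T s u h := hC (s, some .T) u (DQ_T h)
  S s r e u h1 h2 h := hC (s, some .S) u (DQ_S hP h1 h2 h)

theorem DQ_int {b : Kd} {u : ℂ} (h : u ∈ DQ b) : lo b.2 < u.re ∧ u.re < hi b.2 := by
  have hl := Bd.l_pos
  exact ⟨by linarith [h.1], by linarith [h.2]⟩

theorem adm_A3 {X : ℂ → ℂ} {xp xm : ℂ} {M : ℝ} (hX : Measurable X) (h : FX X xp xm M)
    {P : NUO.Par} (hP : ParO P) {x0 δ : ℝ} (hx0 : 13 / 25 * l ≤ x0) (hδ : δ ≤ 1 / 20) (q : IxO) :
    Adm (PBRep.PLX.sK (A3 X xp xm q)) P x0 δ (alO (‖xp - xm‖ + M) q) := by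
  have hM := h.M_nonneg
  refine adm_of hP hx0 hδ (fun b => (measurable_A3 hX xp xm b).comp
    (measurable_const.prodMk measurable_id)) (fun s u hu => A3_diff h.dif xp xm q _ (DQ_sub _ hu))
    fun b u hu => ?_
  refine (norm_A3_le h q (DQ_sub _ hu)).trans (mul_le_of_le_one_right
    (alO_nonneg (by positivity) q) ?_)
  rw [Real.exp_le_one_iff]
  nlinarith [abs_nonneg u.im]

theorem adm_B3 {P : NUO.Par} (hP : ParO P) {x0 δ a : ℝ} (hx0 : 13 / 25 * l ≤ x0) (hδ : δ ≤ 1 / 20)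
    (ha0 : 0 ≤ a) (ha : a ≤ 10) (q : IxO) : Adm (PBRep.PLX.sK (B3 q)) P x0 δ (beO a q) := by
  refine adm_of hP hx0 hδ (fun b => (measurable_B3 b).comp
    (measurable_const.prodMk measurable_id)) (fun s u hu => B3_diff q _ (DQ_int hu).1 (DQ_int hu).2)
    fun b u hu => ?_
  refine (norm_B3_le ha0 ha q hu).trans (mul_le_of_le_one_right (beO_nonneg a q) ?_)
  rw [Real.exp_le_one_iff]
  nlinarith [abs_nonneg u.im]

/-- the lines of a word lie in the strips of the final stage -/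
theorem all_DQ {P : NUO.Par} (hP : NURow.ParP P) {x0 : ℝ} (h0 : 13 / 25 * l ≤ x0)
    (h1 : x0 ≤ 59 / 50 * l) (n n' : ℕ) {p p' : ℕ} (k : Fin p → O3) (k' : Fin p' → O3)
    (i : (Fin (nA n k) ⊕ Fin p) ⊕ (Fin (nA n' k') ⊕ Fin p')) (t : ℝ) :
    vl ((fl P).all x0 n n' k k' i) t ∈ DQ (PBI.cl n n' k k' i) := by
  have hl := Bd.l_pos
  have hre : ∀ y : ℝ, (vl y t).re = y := fun y => by simp [vl]
  have key : ∀ (s : Bool) (k : O3) (x : ℝ), x ∈ Set.Icc (NURow.loP (some k)) (NURow.hiP (some k)) →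
      vl x t ∈ DQ (s, some k) := by
    rintro s k x ⟨a, b⟩
    show lo (some k) + 1 / 50 * l ≤ (vl x t).re ∧ (vl x t).re ≤ hi (some k) - 1 / 50 * l
    rw [hre]
    cases k <;> simp only [lo, hi, NURow.loP, NURow.hiP] at * <;> constructor <;> linarith
  have hA : ∀ s : Bool, vl x0 t ∈ DQ (s, none) := by
    intro s
    show lo none + 1 / 50 * l ≤ (vl x0 t).re ∧ (vl x0 t).re ≤ hi none - 1 / 50 * l
    rw [hre]
    simp only [lo, hi]
    constructor <;> linarith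
  rcases i with (i | i) | (i | i)
  · exact hA true
  · exact key true (k i) _ ((NURow.lnA_P hP).hX p p' k k' i)
  · exact hA false
  · exact key false (k' i) _ ((NURow.lnA_P hP).hY p p' k k' i)

theorem inD_DQ {P : NUO.Par} (hP : NURow.ParP P) {x0 : ℝ} (h0 : 13 / 25 * l ≤ x0)
    (h1 : x0 ≤ 59 / 50 * l) (n n' : ℕ) {c c' : ℝ} (hc : 0 ≤ c) (hc' : 0 ≤ c') :
    InD x0 n n' (fl P) DQ (fun _ z => Real.exp (-c * |z.im|))
      (fun _ z => Real.exp (-c' * |z.im|)) := by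
  have key : ∀ c : ℝ, 0 ≤ c → ∀ z : ℂ, Real.exp (-c * |z.im|) ≤ 1 := by
    intro c hc z
    rw [Real.exp_le_one_iff]
    nlinarith [abs_nonneg z.im]
  exact ⟨fun p p' k k' _ _ i t => all_DQ hP h0 h1 n n' k k' i t,
    fun p p' k k' _ _ => ⟨1, fun i t => key c hc _⟩, fun p p' k k' _ _ => ⟨1, fun i t => key c' hc' _⟩⟩

variable [Fil]

/-- **the object channel** -/
theorem chnO {X : ℂ → ℂ} {xp xm : ℂ} {M : ℝ} (hX : Measurable X) (h : FX X xp xm M)
    {P : NUO.Par} (hP : ParO P) {x0 δ : ℝ} (hx0 : 13 / 25 * l ≤ x0) (hδ : δ ≤ 1 / 20)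
    {D : Kd → Set ℂ} (hD : ∀ b, D b ⊆ DQ b) {ρ : Kd → ℝ → ℂ} (hρ : ∀ b, Integrable (ρ b))
    (hρ0 : ∀ s k u, ρ (s, some k) u = 0) (hl : ∀ s u, vl l u ∈ D (s, none)) {a : ℝ}
    (ha0 : 0 ≤ a) (ha : a < 2) {N : ℕ}
    (hin : ∀ n ≤ N, InD x0 n (n + dN N) (fl P) D (fun _ z => Real.exp (-2 * |z.im|))
      (fun _ z => Real.exp (-a * |z.im|))) :
    Chn P x0 δ N muO D ρ (aO X xp xm) (A3 X xp xm) B3 (alO (‖xp - xm‖ + M)) (beO a)
      (fun _ z => Real.exp (-2 * |z.im|)) (fun _ z => Real.exp (-a * |z.im|)) where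
  R := rep3 hX h hD hρ hρ0 hl ha0 ha
  hm b c x _ := by
    refine AEStronglyMeasurable.mul ?_ (hρ c).1
    have hv : Measurable fun u : ℝ => vl l u := by
      unfold vl
      fun_prop
    have h1 : Measurable fun u : ℝ => aO X xp xm b c x (vl l u) := by
      simp only [aO]
      split_ifs
      · exact measurable_const
      · exact measurable_lK' hX xp xm b c measurable_const hv
    exact h1.aestronglyMeasurable
  mA := measurable_A3 hX xp xm
  mB := measurable_B3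
  adA q := ⟨_, adm_A3 hX h hP hx0 hδ q⟩
  adB q := ⟨_, adm_B3 hP hx0 hδ ha0 (by linarith) q⟩
  inD := hin

end PBOb.PLX

end
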