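import Pool.Agent.PLX.Ns
import Pool.Agent.PLX.NUGC.OneXH
import Pool.Agent.PLX.NUGC.CurEx
import Pool.Agent.PLX.NUSea.Par0G
import Pool.Agent.PLX.NUSea.ParOK

/-!
# Plan B: the parameters `par0 m` and the landed curve, any sea, any number `m` of rows (helper7)

Everything the landed files prove for `NUGC.parC M = par0 (2M+1)` at the sea `seaH`, for `[Sea]` and any
`m`: `parZ_parC`, `parZ_goodP`, `parZ_goodQ`, `parZ_small`, `parZ_ok`, `parZ_rad`; the curve `etaC`:
`curZ` (admissible for large `m`), `curZ_meas` (jointly measurable, does not depend on the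
configuration), `curZ_bd` (bound by `x`), `curZ_hd`, `curZ_cont`.
-/

set_option autoImplicit false
set_option linter.unusedSectionVars false

noncomputable section

open MeasureTheory

namespace PBF.PLX

open NUO NUP1 NUP1S NUGC NUGC.PLX NUCR

variable [NUSea.Sea]

theorem parZ_parC (m : ℕ) : ParC (NUSea.PLX.O.par0 m) where
  j1 := by rw [NUSea.PLX.O.par0_jL]
  j2 := by rw [NUSea.PLX.O.par0_jL]; norm_num
  e1 := by rw [NUSea.PLX.O.par0_e]; norm_num
  d0 := fun r => by rw [NUSea.PLX.O.par0_d]; exact d0_pos r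
  e2 := fun r => by
    have := d0_le r
    rw [NUSea.PLX.O.par0_e, NUSea.PLX.O.par0_d]
    norm_num at this ⊢
    linarith
  rm := NUSea.PLX.O.rad0_meas _
  r0 := fun r t => NUSea.PLX.O.rad0_pos _ r t
  r1 := fun r t => by
    refine (NUSea.PLX.O.rad0_le _ r t).trans ?_
    have h3 := d0_pos r
    have h4 := l_pos0
    show NUP1.l * d0 r / (64 * (r + 1)) ≤ NUP1.l * d0 r / (8 * (r + 1))
    gcongr
    norm_num

theorem parZ_goodP (m : ℕ) : GoodP (NUSea.PLX.O.par0 m) := (parZ_parC m).goodP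

theorem parZ_small (m r : ℕ) : NUDirP.Small 8 (NUSea.PLX.O.par0 m) r := NUSea.PLX.O.small_par0 m r

theorem parZ_fields (m : ℕ) : (NUSea.PLX.O.par0 m).jL = 9 / 4 ∧ (NUSea.PLX.O.par0 m).e = 1 / 4 ∧
    (NUSea.PLX.O.par0 m).d = d0 := ⟨rfl, rfl, rfl⟩

/-- constant family of curves -/
theorem curZ_crs {e1 J ep : ℝ} (he : 0 < e1) (he1 : e1 ≤ 1 / 100) (hJ : 0 ≤ J) (hep : 0 < ep) :
    ∃ m0 : ℕ, 1 ≤ m0 ∧ ∀ m ≥ m0, ∀ (r : ℕ) (_O : Fin r → Xo),
      CurB ep (etaC e1 J m m) (etaC' e1 J m m) := by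
  obtain ⟨m0, h0, h⟩ := curOKC he he1 hJ hep
  refine ⟨m0, h0, fun m hm r _ => h m hm m ?_⟩
  have : (0 : ℝ) ≤ m := Nat.cast_nonneg m
  linarith

theorem curZ_cont (e1 J : ℝ) (m : ℕ) (s : ℝ) : Continuous (etaC e1 J m s) :=
  (etaC_contDiff e1 J m s 0).continuous

theorem curZ_cont' (e1 J : ℝ) (m : ℕ) (s : ℝ) : Continuous (etaC' e1 J m s) := etaC'_cont e1 J m s

/-- the curve is jointly measurable in the configuration and the height -/
theorem curZ_meas (e1 J : ℝ) (m : ℕ) (s : ℝ) (r : ℕ) :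
    Measurable fun x : (Fin r → Xo) × ℝ => etaC e1 J m s x.2 :=
  (curZ_cont e1 J m s).measurable.comp measurable_snd

theorem curZ_meas' (e1 J : ℝ) (m : ℕ) (s : ℝ) (r : ℕ) :
    Measurable fun x : (Fin r → Xo) × ℝ => etaC' e1 J m s x.2 :=
  (curZ_cont' e1 J m s).measurable.comp measurable_snd

end PBF.PLX

end
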