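import Pool.Agent.PLX.Ns
import Pool.Agent.PLX.NUGC.QC2
import Pool.Agent.PLX.NUGC.DirLe

/-!
# The prefactors of the final classes for any one body functions (port of `NUGC/QC2`)

`KD`: one body functions `Z` of the two species and kernels of the half quanta; `K.cl t t'` = the 16
classes `NURow.cF`.

* `K.wt`: weight of a choice of quanta at the simple poles; `K.own a`: own factor of the half quantum of
  species `a`; `pre_wt`: prefactor times weight = own factors times the direct factor `gO` (landed, free of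
  the rows);
* `K.OwnLe`, `OwnDLe`: the bounds of the own factors with the sea term, any mean field exponent `MF k a c w`
  (group of species `a`, class `c`, at `w`);
* `QF`, `QD`: the prefactors with the mean field, the window, `QX` and an extra factor `g` (the gain);
* **`choice_le`**, `sum_le`, `lint_le`; `d_le`, `lintD_le`.
-/

set_option autoImplicit false
set_option linter.unusedSectionVars false

noncomputable section

open MeasureTheory Finset
open scoped ENNReal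

namespace PBQ.PLX

open NUGC NUGC.PLX NUO NUP1 NUCR NUP1S NURow NUP1.Leg NUP1.Bd

/-- one body functions and kernels of the classes -/
structure KD where
  /-- one body functions -/
  Z : Bool → Option O3 → ℂ → ℂ
  /-- kernel of a half quantum X -/
  kF : ℂ → ℂ
  /-- kernel of a half quantum X with a captured quantum Y -/
  kP : ℂ → ℂ
  /-- kernel of a half quantum Y -/
  kF' : ℂ → ℂ
  /-- kernel of a half quantum Y with a captured quantum X -/
  kP' : ℂ → ℂ

namespace KD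

variable (K : KD)

/-- the 16 classes -/
def cl (t t' : HT) : CD := cF (K.Z true) (K.Z false) K.kF K.kP K.kF' K.kP' t t'

/-- weight of the choice `i, i'` -/
def wt (t t' : HT) (w w' : ℂ) (i i' : Bool) : ℝ :=
  if (i = true → htP t = true) ∧ (i' = true → htP t' = true) then
    wgt2 (fun a u => K.Z a none u * tG (htT t) (htT t') w w' a u) w w' i i' else 0

/-- weight of the quantum of species `a` at the simple pole, own part -/
def ownQ (a : Bool) (w : ℂ) : ℝ := ‖K.Z a none w * hR1 0‖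

/-- own kernel of the half quantum of species `a` -/
def ownZ (a : Bool) (t : HT) (w : ℂ) : ℂ :=
  if a then ownK K.kF K.kP (K.Z false) t w else ownK K.kF' K.kP' (K.Z true) t w

/-- own factor of the half quantum of species `a` -/
def own (a : Bool) (t : HT) (i : Bool) (w : ℂ) : ℝ := ‖K.ownZ a t w‖ * (if i then K.ownQ a w else 1)

theorem own_nonneg (a : Bool) (t : HT) (i : Bool) (w : ℂ) : 0 ≤ K.own a t i w := by
  unfold own ownQ
  split_ifs <;> positivity

theorem cl_gw (t t' : HT) : (K.cl t t').gw = (clC 0 0 t t').gw := by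
  cases t <;> cases t' <;> rfl

/-- **prefactor times weight of a choice** -/
theorem pre_wt {t t' : HT} {i i' : Bool} (h : i = true → htP t = true)
    (h' : i' = true → htP t' = true) (w w' : ℂ) :
    ‖(K.cl t t').pre w w'‖ * K.wt t t' w w' i i' =
      K.own true t i w * K.own false t' i' w' * NUGC.PLX.gO 0 0 t t' i i' w w' := by
  have e1 : (K.cl t t').pre w w' = K.ownZ true t w * K.ownZ false t' w' *
      (clC 0 0 t t').gw (w - w') := by
    unfold CD.pre Pre
    rw [cl_gw]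
    unfold cl ownZ
    rw [cF_K, cF_K']
    simp only [if_true, Bool.false_eq_true, if_false]
  have e2 : i = true → K.Z true none w * tG (htT t) (htT t') w w' true w =
      (K.Z true none w * hR1 0) * htT t' false (w' - w) := by
    intro hi
    have ht : t = .H := by
      have := h hi
      cases t <;> simp_all [htP]
    subst ht
    unfold tG htT hT
    simp only [sub_self, if_true, Bool.not_true]
    ring
  have e3 : i' = true → K.Z false none w' * tG (htT t) (htT t') w w' false w' =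
      (K.Z false none w' * hR1 0) * htT t false (w - w') := by
    intro hi
    have ht : t' = .H := by
      have := h' hi
      cases t' <;> simp_all [htP]
    subst ht
    unfold tG
    simp only [htT, hT, sub_self, if_true, Bool.not_false]
    ring
  unfold wt
  rw [if_pos ⟨h, h'⟩, e1]
  unfold wgt2 own NUGC.PLX.gO ownQ
  beta_reduce
  rcases i with _ | _ <;> rcases i' with _ | _
  · simp only [Bool.false_eq_true, if_false, Bool.and_false, norm_mul]
    ring
  · rw [e3 rfl]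
    simp only [Bool.false_eq_true, if_false, if_true, Bool.false_and, norm_mul]
    ring
  · rw [e2 rfl]
    simp only [Bool.false_eq_true, if_false, if_true, Bool.and_false, norm_mul]
    ring
  · rw [e2 rfl, e3 rfl]
    simp only [if_true, Bool.and_self, norm_mul]
    ring

/-- bound of the own factors with the sea term -/
def OwnLe (MF : ℕ → Bool → NUSp.Cl → ℂ → ℝ) (k : ℕ) (ep C : ℝ) : Prop :=
  ∀ (a : Bool) (t : HT) (i : Bool), (i = true → htP t = true) → ∀ τ : ℝ,
    K.own a t i (vl (htL t) τ) * Real.exp (MF k a (clh t i) (vl (htL t) τ)) ≤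
      C * Real.exp (-|τ|) * cut (Real.log k) ep (qh t i) τ

end KD

/-- bound of the kernels of D1, D1' with the sea term -/
def OwnDLe (kD : Bool → ℂ → ℂ) (MF : ℕ → Bool → NUSp.Cl → ℂ → ℝ) (k : ℕ) (C : ℝ) : Prop :=
  ∀ (o : Bool) (τ : ℝ), ‖kD o (vl (-(11 / 4) * l) τ)‖ *
    Real.exp (MF k (!o) .d (vl (-(11 / 4) * l) τ)) ≤ C * Real.exp (-2 * |τ|)

/-- **the prefactor of the choice `u` of the class `t, t'`** (`A` = constant, `g` = extra factor) -/
def QF (MF : ℕ → Bool → NUSp.Cl → ℂ → ℝ) (k : ℕ) (ep e1 A : ℝ) (t t' : HT) (g : ℝ) (y : ℝ × ℝ)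
    (u : Bool × Bool) : ℝ :=
  A * (Real.exp (MF k true (clh t u.1) (vl (htL t) y.1)) *
    Real.exp (MF k false (clh t' u.2) (vl (htL t') y.2)) *
    (fr (TW ep e1 k) (Real.log k) y *
      QX (TW ep e1 k) (qh t u.1) (qh t' u.2) y.1 y.2)) * g

/-- **the prefactor of D1, D1'** -/
def QD (MF : ℕ → Bool → NUSp.Cl → ℂ → ℝ) (k : ℕ) (ep e1 A g : ℝ) (o : Bool) (τ : ℝ) : ℝ :=
  A * (Real.exp (MF k (!o) .d (vl (-(11 / 4) * l) τ)) *
    ((if |τ| ≤ TW ep e1 k then 1 else Real.exp (Real.log k / 2)) *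
      Real.exp (37 / 20 * xs (TW ep e1 k) τ))) * g

theorem QF_nonneg {MF : ℕ → Bool → NUSp.Cl → ℂ → ℝ} {k : ℕ} {ep e1 A g : ℝ} (hA : 0 ≤ A) (hg : 0 ≤ g)
    (t t' : HT) (y : ℝ × ℝ) (u : Bool × Bool) : 0 ≤ QF MF k ep e1 A t t' g y u :=
  mul_nonneg (mul_nonneg hA (mul_nonneg (mul_nonneg (Real.exp_pos _).le (Real.exp_pos _).le)
    (mul_nonneg (fr_nonneg _ _ _) (QX_nonneg _ _ _ _ _)))) hg

theorem QD_nonneg {MF : ℕ → Bool → NUSp.Cl → ℂ → ℝ} {k : ℕ} {ep e1 A g : ℝ} (hA : 0 ≤ A) (hg : 0 ≤ g)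
    (o : Bool) (τ : ℝ) : 0 ≤ QD MF k ep e1 A g o τ := by
  unfold QD
  refine mul_nonneg (mul_nonneg hA (mul_nonneg (Real.exp_pos _).le (mul_nonneg ?_
    (Real.exp_pos _).le))) hg
  split_ifs
  · exact zero_le_one
  · exact (Real.exp_pos _).le

theorem TW_eq (ep e1 : ℝ) (k : ℕ) : TW ep e1 k = (1 + 2 * e1 + 2 * ep) * (3 / 8 * Real.log k) := rfl

theorem log_nonneg' (k : ℕ) : 0 ≤ Real.log (k : ℝ) := Real.log_natCast_nonneg k

/-- the majorant of a pair of groups without gain -/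
def FM (ep e1 : ℝ) (k : ℕ) (y : ℝ × ℝ) : ℝ :=
  fr (TW ep e1 k) (Real.log k) y * MQ (TW ep e1 k) y

theorem FM_nonneg (ep e1 : ℝ) (k : ℕ) (y : ℝ × ℝ) : 0 ≤ FM ep e1 k y :=
  mul_nonneg (fr_nonneg _ _ _) (MQ_nonneg _ _)

namespace KD

variable (K : KD)

/-- **one choice** -/
theorem choice_le {MF : ℕ → Bool → NUSp.Cl → ℂ → ℝ} {k : ℕ} {ep e1 : ℝ} {C CG : ℝ} (hC : 0 ≤ C)
    (hCG : 0 ≤ CG) (hO : K.OwnLe MF k ep C) (hG : DirLe CG) (hep : 0 ≤ ep) (hep' : ep ≤ 1 / 100)
    (he1 : 0 ≤ e1) {A : ℝ} (hA : 0 ≤ A) {g : ℝ} (hg : 0 ≤ g) (t t' : HT) (y : ℝ × ℝ)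
    (u : Bool × Bool) :
    ‖(K.cl t t').pre (vl (htL t) y.1) (vl (htL t') y.2)‖ *
      (K.wt t t' (vl (htL t) y.1) (vl (htL t') y.2) u.1 u.2 * QF MF k ep e1 A t t' g y u) ≤
      A * (C * C * CG) * (FM ep e1 k y * g) := by
  have hL := log_nonneg' k
  have g0 := FM_nonneg ep e1 k y
  by_cases hf : (u.1 = true → htP t = true) ∧ (u.2 = true → htP t' = true)
  · obtain ⟨h, h'⟩ := hf
    have a1 := hO true t u.1 h y.1
    have a2 := hO false t' u.2 h' y.2
    have a3 := hG 0 0 t t' u.1 u.2 h h' y.1 y.2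
    have key := QX_use (q := qh t u.1) (q' := qh t' u.2) hL hep hep' he1 (TW_eq ep e1 k)
      (mul_nonneg (K.own_nonneg false t' u.2 (vl (htL t') y.2)) (Real.exp_pos _).le)
      (gO_nonneg 0 0 t t' u.1 u.2 _ _) hC hC hCG a1 a2 a3
    rw [← mul_assoc, K.pre_wt h h']
    unfold QF FM
    set E1 := Real.exp (MF k true (clh t u.1) (vl (htL t) y.1))
    set E2 := Real.exp (MF k false (clh t' u.2) (vl (htL t') y.2))
    set k1 := K.own true t u.1 (vl (htL t) y.1)
    set k2 := K.own false t' u.2 (vl (htL t') y.2)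
    set d := NUGC.PLX.gO 0 0 t t' u.1 u.2 (vl (htL t) y.1) (vl (htL t') y.2)
    set qx := QX (TW ep e1 k) (qh t u.1) (qh t' u.2) y.1 y.2
    set f := fr (TW ep e1 k) (Real.log k) y with hfr
    have f0 : 0 ≤ f := fr_nonneg _ _ _
    calc k1 * k2 * d * (A * (E1 * E2 * (f * qx)) * g)
        = A * f * g * (k1 * E1 * (k2 * E2) * d * qx) := by ring
      _ ≤ A * f * g * (C * C * CG * MQ (TW ep e1 k) (y.1, y.2)) :=
          mul_le_mul_of_nonneg_left key (mul_nonneg (mul_nonneg hA f0) hg)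
      _ = _ := by ring
  · have : K.wt t t' (vl (htL t) y.1) (vl (htL t') y.2) u.1 u.2 = 0 := by
      unfold wt
      rw [if_neg hf]
    rw [this, zero_mul, mul_zero]
    exact mul_nonneg (by positivity) (mul_nonneg g0 hg)

/-- **the four choices** with the extra factors `g u` of the allowed choices -/
theorem sum_le {MF : ℕ → Bool → NUSp.Cl → ℂ → ℝ} {k : ℕ} {ep e1 : ℝ} {C CG : ℝ} (hC : 0 ≤ C)
    (hCG : 0 ≤ CG) (hO : K.OwnLe MF k ep C) (hG : DirLe CG) (hep : 0 ≤ ep) (hep' : ep ≤ 1 / 100)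
    (he1 : 0 ≤ e1) {A : ℝ} (hA : 0 ≤ A) {g : Bool × Bool → ℝ} (hg : ∀ u, 0 ≤ g u) (t t' : HT)
    (y : ℝ × ℝ) :
    ‖(K.cl t t').pre (vl (htL t) y.1) (vl (htL t') y.2)‖ *
      (∑ u : Bool × Bool, K.wt t t' (vl (htL t) y.1) (vl (htL t') y.2) u.1 u.2 *
        QF MF k ep e1 A t t' (g u) y u) ≤
      A * (C * C * CG) * (FM ep e1 k y * ∑ u : Bool × Bool,
        if (u.1 = true → htP t = true) ∧ (u.2 = true → htP t' = true) then g u else 0) := by
  rw [mul_sum, mul_sum, mul_sum]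
  refine Finset.sum_le_sum fun u _ => ?_
  split_ifs with hf
  · exact K.choice_le hC hCG hO hG hep hep' he1 hA (hg u) t t' y u
  · have : K.wt t t' (vl (htL t) y.1) (vl (htL t') y.2) u.1 u.2 = 0 := by
      unfold wt
      rw [if_neg hf]
    rw [this, zero_mul, mul_zero, mul_zero, mul_zero]

/-- **the integral of the prefactors of the class `t, t'`** over a set `S`: the integral of the
majorant with the extra factors of the allowed choices -/
theorem lint_le {MF : ℕ → Bool → NUSp.Cl → ℂ → ℝ} {k : ℕ} {ep e1 : ℝ} {C CG : ℝ} (hC : 0 ≤ C)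
    (hCG : 0 ≤ CG) (hO : K.OwnLe MF k ep C) (hG : DirLe CG) (hep : 0 ≤ ep) (hep' : ep ≤ 1 / 100)
    (he1 : 0 ≤ e1) {A : ℝ} (hA : 0 ≤ A) {g : ℝ × ℝ → Bool × Bool → ℝ} (hg : ∀ y u, 0 ≤ g y u)
    (t t' : HT) (S : Set (ℝ × ℝ)) :
    ∫⁻ y in S, ‖(K.cl t t').pre (vl (htL t) y.1) (vl (htL t') y.2)‖ₑ *
        ENNReal.ofReal (∑ u : Bool × Bool, K.wt t t' (vl (htL t) y.1) (vl (htL t') y.2) u.1 u.2 *
          QF MF k ep e1 A t t' (g y u) y u) ≤
      ENNReal.ofReal (A * (C * C * CG)) * ∫⁻ y in S, ENNReal.ofReal (FM ep e1 k y *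
        ∑ u : Bool × Bool, if (u.1 = true → htP t = true) ∧ (u.2 = true → htP t' = true) then
          g y u else 0) := by
  have hB : 0 ≤ A * (C * C * CG) := by positivity
  rw [← lintegral_const_mul' _ _ ENNReal.ofReal_ne_top]
  refine lintegral_mono fun y => ?_
  rw [← ofReal_norm, ← ENNReal.ofReal_mul (norm_nonneg _), ← ENNReal.ofReal_mul hB]
  exact ENNReal.ofReal_le_ofReal (K.sum_le hC hCG hO hG hep hep' he1 hA (hg y) t t' y)

end KD

/-- the majorant of a neutral group without gain -/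
def DM (ep e1 : ℝ) (k : ℕ) (τ : ℝ) : ℝ :=
  Real.exp (-2 * |τ|) * ((if |τ| ≤ TW ep e1 k then 1 else Real.exp (Real.log k / 2)) *
    Real.exp (37 / 20 * xs (TW ep e1 k) τ))

/-- **D1, D1'** at one height -/
theorem d_le {kD : Bool → ℂ → ℂ} {MF : ℕ → Bool → NUSp.Cl → ℂ → ℝ} {k : ℕ} {C : ℝ}
    (hD : OwnDLe kD MF k C) {ep e1 : ℝ} {A g : ℝ} (hA : 0 ≤ A) (hg : 0 ≤ g) (o : Bool) (y : ℝ) :
    ‖kD o (vl (-(11 / 4) * l) y)‖ * QD MF k ep e1 A g o y ≤ C * A * (DM ep e1 k y * g) := by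
  have a1 := hD o y
  unfold QD DM
  set f : ℝ := (if |y| ≤ TW ep e1 k then 1 else
    Real.exp (Real.log k / 2)) * Real.exp (37 / 20 * xs (TW ep e1 k) y) with hf
  have f0 : 0 ≤ f := by
    rw [hf]
    refine mul_nonneg ?_ (Real.exp_pos _).le
    split_ifs
    · exact zero_le_one
    · exact (Real.exp_pos _).le
  set E := Real.exp (MF k (!o) .d (vl (-(11 / 4) * l) y))
  set κ := ‖kD o (vl (-(11 / 4) * l) y)‖
  calc κ * (A * (E * f) * g) = A * f * g * (κ * E) := by ring
    _ ≤ A * f * g * (C * Real.exp (-2 * |y|)) := mul_le_mul_of_nonneg_left a1 (by positivity)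
    _ = _ := by ring

/-- **the integral of the prefactors of D1, D1'** -/
theorem lintD_le {kD : Bool → ℂ → ℂ} {MF : ℕ → Bool → NUSp.Cl → ℂ → ℝ} {k : ℕ} {C : ℝ} (hC : 0 ≤ C)
    (hD : OwnDLe kD MF k C) {ep e1 : ℝ} {A : ℝ} (hA : 0 ≤ A) {g : ℝ → ℝ} (hg : ∀ y, 0 ≤ g y)
    (o : Bool) :
    ∫⁻ y : ℝ, ‖kD o (vl (-(11 / 4) * l) y)‖ₑ * ENNReal.ofReal (QD MF k ep e1 A (g y) o y) ≤
      ENNReal.ofReal (C * A) * ∫⁻ y : ℝ, ENNReal.ofReal (DM ep e1 k y * g y) := by
  have hB : 0 ≤ C * A := mul_nonneg hC hA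
  rw [← lintegral_const_mul' _ _ ENNReal.ofReal_ne_top]
  refine lintegral_mono fun y => ?_
  rw [← ofReal_norm, ← ENNReal.ofReal_mul (norm_nonneg _), ← ENNReal.ofReal_mul hB]
  exact ENNReal.ofReal_le_ofReal (d_le hD hA (hg y) o y)

end PBQ.PLX

end
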