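import Pool.Agent.PLX.PB.MF0
import Pool.Agent.PB.ExMix
import Pool.Agent.NUP1L.Link4
import Pool.Agent.NUGC.PrefN

/-!
# The own factors of the half quanta at rows `0`, ends `0`, true heights, two numbers of rows

`mo` rows `0` and the end `0` in the group of the half quantum (own species), `mx` rows `0` and the
end `0` in the other group.  Exact moduli at `zj p τ = p l + i τ`: `norm_KF0`, `norm_XN`, `norm_XS`,
`norm_XD0`; with the sea terms (`MFo`, `MFx` of `MF0.lean`, sea numbers `mo + 1`, `mx + 1`) all powers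
cancel up to `exp (-(mx + 1) Ag (3/4) τ)` (type `F`) and `exp (-(mo + 1) Ag (3/8) τ)` (type `H`):
`own_W`, `own_F`, `own_P`, `own_Hs`, `own_Hp`, `own_D` (equalities).
-/

set_option autoImplicit false
set_option linter.unusedSectionVars false
set_option linter.unusedVariables false

open MeasureTheory Set Filter Topology

namespace PB0.PLX

open NUMF (l l_pos zj Ag)
open NUHM (ls ls_per)
open NUPn (nsin inv_exp' exp_pow' Lin lin_ls norm_sin2l norm_sin1l sin2l_pos sin1l_pos)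
open NUPref (la)

noncomputable section

/-! ### one sine -/

lemma zj_re (p τ : ℝ) : (zj p τ).re = p * l := by unfold NUMF.zj; simp

lemma zj_im (p τ : ℝ) : (zj p τ).im = τ := by unfold NUMF.zj; simp

lemma la_zj (p τ a : ℝ) : la (zj p τ) a = ls (p + a) τ := by
  have hl := l_pos
  unfold NUPref.la
  rw [zj_re, zj_im, mul_div_assoc, div_self hl.ne', mul_one]

lemma zs2 (p τ : ℝ) : zj p τ - 2 * (NUP1.l : ℂ) = zj (p - 2) τ := by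
  have e : (NUP1.l : ℂ) = (l : ℂ) := rfl
  unfold NUMF.zj
  rw [e]
  push_cast
  ring

lemma zs1 (p τ : ℝ) : zj p τ - (NUP1.l : ℂ) = zj (p - 1) τ := by
  have e : (NUP1.l : ℂ) = (l : ℂ) := rfl
  unfold NUMF.zj
  rw [e]
  push_cast
  ring

lemma zp3 (p τ : ℝ) : zj p τ + 3 * (NUP1.l : ℂ) = zj (p + 3) τ := by
  have e : (NUP1.l : ℂ) = (l : ℂ) := rfl
  unfold NUMF.zj
  rw [e]
  push_cast
  ring

lemma zp1 (p τ : ℝ) : zj p τ + (NUP1.l : ℂ) = zj (p + 1) τ := by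
  have e : (NUP1.l : ℂ) = (l : ℂ) := rfl
  unfold NUMF.zj
  rw [e]
  push_cast
  ring

lemma zn2 (p τ : ℝ) : -zj p τ + 2 * (NUP1.l : ℂ) = -zj (p - 2) τ := by
  rw [← zs2]
  ring

/-- the place `p` is not an integer -/
def Gz (p : ℝ) : Prop := ∀ n : ℤ, p ≠ n

lemma Gz.sn {p : ℝ} (h : Gz p) (n : ℤ) : Real.sin ((p + n) * l) ≠ 0 := by
  intro h0
  obtain ⟨k, hk⟩ := Real.sin_eq_zero_iff.1 h0
  have hl := l_pos
  rw [← NUHM.l8] at hk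
  have h1 : (8 * k : ℝ) = p + n := by
    have : (8 * k : ℝ) * l = (p + n) * l := by rw [← hk]; ring
    exact mul_right_cancel₀ hl.ne' this
  refine h (8 * k - n) ?_
  push_cast
  linarith

lemma Gz.s0 {p : ℝ} (h : Gz p) : Real.sin (p * l) ≠ 0 := by
  have := h.sn 0
  simpa using this

lemma Gz.sub {p : ℝ} (h : Gz p) (n : ℕ) : Real.sin ((p - n) * l) ≠ 0 := by
  have := h.sn (-n)
  rw [sub_eq_add_neg]
  simpa using this

lemma Gz.add {p : ℝ} (h : Gz p) (n : ℕ) : Real.sin ((p + n) * l) ≠ 0 := by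
  have := h.sn n
  simpa using this

lemma Gz.shift {p : ℝ} (h : Gz p) (n : ℤ) : Gz (p + n) := by
  intro k hk
  refine h (k - n) ?_
  push_cast
  linarith

lemma gz_W : Gz (5 / 4) := by
  intro n h
  have h1 : ((4 * n : ℤ) : ℝ) = ((5 : ℤ) : ℝ) := by push_cast; linarith
  have := Int.cast_injective h1
  omega

lemma gz_F : Gz (-(11 / 4)) := by
  intro n h
  have h1 : ((4 * n : ℤ) : ℝ) = ((-11 : ℤ) : ℝ) := by push_cast; linarith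
  have := Int.cast_injective h1
  omega

lemma gz_Q : Gz (1 / 4) := by
  intro n h
  have h1 : ((4 * n : ℤ) : ℝ) = ((1 : ℤ) : ℝ) := by push_cast; linarith
  have := Int.cast_injective h1
  omega

lemma gz_S : Gz (5 / 8) := by
  intro n h
  have h1 : ((8 * n : ℤ) : ℝ) = ((5 : ℤ) : ℝ) := by push_cast; linarith
  have := Int.cast_injective h1
  omega

lemma gz_T : Gz (-(11 / 8)) := by
  intro n h
  have h1 : ((8 * n : ℤ) : ℝ) = ((-11 : ℤ) : ℝ) := by push_cast; linarith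
  have := Int.cast_injective h1
  omega

/-! ### kernels -/

/-- the prefactor of a half quantum, `mo` own rows, `mx` rows of the other group -/
def KF0 (mo mx : ℕ) (w : ℂ) : ℂ :=
  NUP1.N.pr1 0 0 (fun _ : Fin mo => (0 : ℂ)) (fun _ : Fin mx => (0 : ℂ)) w

/-- the exponent of the sea terms and of the own factors -/
def e2 (mo mx : ℕ) (u v : ℝ) : ℝ := ((mo : ℝ) + 1) * u + ((mx : ℝ) + 1) * v

theorem norm_KF0 {p : ℝ} (h : Gz p) (mo mx : ℕ) (τ : ℝ) : ‖KF0 mo mx (zj p τ)‖ =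
    Real.sin (2 * l) * Real.exp (-ls (p - 2) τ + e2 mo mx (-ls p τ) (ls (p + 3) τ)) := by
  have h2 : Real.sin ((p - 2) * l) ≠ 0 := by have := h.sub 2; simpa using this
  have h3 : Real.sin ((p + 3) * l) ≠ 0 := by have := h.add 3; simpa using this
  unfold KF0 NUP1.N.pr1 NUP1.N.prc NUP1.N.rA NUP1.N.rB NUP1.Leg.kap
  simp only [sub_zero, Finset.prod_const, Finset.card_univ, Fintype.card_fin, norm_mul, norm_div,
    norm_pow, norm_one]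
  rw [zs2, zp3, norm_sin2l, nsin h.s0, nsin h2, nsin h3, inv_exp', exp_pow', exp_pow', div_eq_mul_inv,
    ← Real.exp_add, ← Real.exp_neg]
  rw [show Real.sin (2 * l) * Real.exp (-(ls p τ + ls (p - 2) τ)) * Real.exp (ls (p + 3) τ) *
      Real.exp (mo * -ls p τ) * Real.exp (mx * ls (p + 3) τ) = Real.sin (2 * l) *
      (Real.exp (-(ls p τ + ls (p - 2) τ)) * Real.exp (ls (p + 3) τ) *
      Real.exp (mo * -ls p τ) * Real.exp (mx * ls (p + 3) τ)) by ring,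
    ← Real.exp_add, ← Real.exp_add, ← Real.exp_add]
  congr 2
  unfold e2
  ring

/-- the exponent of a quantum at `v` -/
def eQ (mo mx : ℕ) (v τ : ℝ) : ℝ :=
  e2 mo mx (-ls v τ - ls (v - 2) τ) (2 * ls (v + 3) τ) + (ls v τ - ls (v - 2) τ)

/-- the factor of the rows for a quantum -/
def RRz (c : ℂ) (mo mx : ℕ) (u : ℂ) : ℂ :=
  c * (∏ _i : Fin mo, 1 / Complex.sin (u - 0)) * (∏ _i : Fin mo, 1 / Complex.sin (u - 0 - 2 * NUP1.l)) *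
    (∏ _j : Fin mx, Complex.sin (u - 0 + 3 * NUP1.l) ^ 2)

/-- modulus of the rows and ends for a quantum -/
theorem norm_RR0 {v : ℝ} (h : Gz v) (c : ℂ) (mo mx : ℕ) (τ : ℝ) :
    ‖RRz c mo mx (zj v τ)‖ * ‖NUP1.Leg.thE 0 0 0 0 (zj v τ)‖ =
      ‖c‖ * Real.exp (eQ mo mx v τ) := by
  have h2 : Real.sin ((v - 2) * l) ≠ 0 := by have := h.sub 2; simpa using this
  have h3 : Real.sin ((v + 3) * l) ≠ 0 := by have := h.add 3; simpa using this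
  unfold RRz NUP1.Leg.thE
  simp only [sub_zero, zero_sub, Finset.prod_const, Finset.card_univ, Fintype.card_fin, norm_mul,
    norm_div, norm_pow, norm_one]
  rw [zs2, zp3, zn2, Complex.sin_neg, norm_neg, nsin h.s0, nsin h2, nsin h3, inv_exp', inv_exp',
    exp_pow', exp_pow', exp_pow', ← Real.exp_add, ← Real.exp_add, div_eq_mul_inv, ← Real.exp_neg]
  rw [show ‖c‖ * Real.exp (mo * -ls v τ) * Real.exp (mo * -ls (v - 2) τ) *
      Real.exp ((2 : ℕ) * ls (v + 3) τ) ^ mx * (Real.exp (ls (v + 3) τ + ls (v + 3) τ) *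
      Real.exp (-(ls (v - 2) τ + ls (v - 2) τ))) = ‖c‖ * (Real.exp (mo * -ls v τ) *
      Real.exp (mo * -ls (v - 2) τ) * Real.exp ((2 : ℕ) * ls (v + 3) τ) ^ mx *
      (Real.exp (ls (v + 3) τ + ls (v + 3) τ) * Real.exp (-(ls (v - 2) τ + ls (v - 2) τ)))) by ring,
    exp_pow', ← Real.exp_add, ← Real.exp_add, ← Real.exp_add, ← Real.exp_add]
  congr 2
  unfold eQ e2
  push_cast
  ring

/-- the cutoff over `0^m` -/
def ph0 (β : ℝ) (g : ℂ → ℂ) (m : ℕ) (u : ℂ) : ℂ := PBX.ph β (fun _ : Fin m => (0 : ℂ)) g u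

/-- one body function of a quantum, rows and ends `0` -/
def XN (c : ℂ) (β : ℝ) (g : ℂ → ℂ) (mo mx : ℕ) (u : ℂ) : ℂ :=
  RRz c mo mx u * ph0 β g mo u * NUP1.Leg.thE 0 0 0 0 u

/-- one body function of a string, rows and ends `0` -/
def XS (c : ℂ) (g0 : ℂ → ℂ) (mo mx : ℕ) (w : ℂ) : ℂ :=
  RRz c mo mx w * RRz c mo mx (w - NUP1.l) * ph0 (4 / 3) g0 mo w *
    (NUP1.Leg.thE 0 0 0 0 w * NUP1.Leg.thE 0 0 0 0 (w - NUP1.l))

theorem norm_XN {v : ℝ} (h : Gz v) (c : ℂ) (β : ℝ) (g : ℂ → ℂ) (mo mx : ℕ) (τ : ℝ) :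
    ‖XN c β g mo mx (zj v τ)‖ = ‖c‖ * Real.exp (eQ mo mx v τ) * ‖ph0 β g mo (zj v τ)‖ := by
  unfold XN
  rw [norm_mul, norm_mul, mul_right_comm, norm_RR0 h]

theorem norm_XS {v : ℝ} (h : Gz v) (c : ℂ) (g0 : ℂ → ℂ) (mo mx : ℕ) (τ : ℝ) :
    ‖XS c g0 mo mx (zj v τ)‖ =
      ‖c‖ ^ 2 * Real.exp (eQ mo mx v τ + eQ mo mx (v - 1) τ) * ‖ph0 (4 / 3) g0 mo (zj v τ)‖ := by
  have h1 : Gz (v - 1) := by
    have := h.shift (-1)
    simpa [sub_eq_add_neg] using this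
  unfold XS
  rw [zs1]
  simp only [norm_mul]
  have e1 := norm_RR0 h c mo mx τ
  have e2' := norm_RR0 h1 c mo mx τ
  calc _ = (‖RRz c mo mx (zj v τ)‖ * ‖NUP1.Leg.thE 0 0 0 0 (zj v τ)‖) *
        (‖RRz c mo mx (zj (v - 1) τ)‖ * ‖NUP1.Leg.thE 0 0 0 0 (zj (v - 1) τ)‖) *
        ‖ph0 (4 / 3) g0 mo (zj v τ)‖ := by ring
    _ = ‖c‖ * Real.exp (eQ mo mx v τ) * (‖c‖ * Real.exp (eQ mo mx (v - 1) τ)) *
        ‖ph0 (4 / 3) g0 mo (zj v τ)‖ := by rw [e1, e2']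
    _ = _ := by
        rw [Real.exp_add]
        ring

/-- the kernel of `D1`, `m` rows of the species of the half quantum at `w` -/
def XD0 (m : ℕ) (w : ℂ) : ℂ := NUP1.N.XD 0 0 (fun _ : Fin m => (0 : ℂ)) w

theorem norm_XD0 {p : ℝ} (h : Gz p) (m : ℕ) (τ : ℝ) : ‖XD0 m (zj p τ)‖ =
    Real.sin (2 * l) ^ 2 * Real.exp (-ls (p + 1) τ - ls (p - 2) τ +
      ((m : ℝ) + 1) * (ls (p - 2) τ - ls p τ)) := by
  have h1 : Real.sin ((p + 1) * l) ≠ 0 := by have := h.add 1; simpa using this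
  have h2 : Real.sin ((p - 2) * l) ≠ 0 := by have := h.sub 2; simpa using this
  unfold XD0 NUP1.N.XD
  simp only [sub_zero, Finset.prod_const, Finset.card_univ, Fintype.card_fin, norm_mul, norm_div,
    norm_pow, norm_neg]
  rw [zs2, zp1, norm_sin2l, nsin h.s0, nsin h2, nsin h1, ← Real.exp_add, ← Real.exp_sub, exp_pow',
    div_eq_mul_inv, ← Real.exp_neg, mul_assoc, ← Real.exp_add]
  congr 2
  ring

/-! ### own factors times the sea term -/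

/-- the sea term of a group with `mo + 1` effective rows of the own species, `mx + 1` of the other -/
def sea2 (mo mx : ℕ) (c : NUSp.Cl) (w : ℂ) : ℝ := e2 mo mx (MFo c w) (MFx c w)

/-- **type `W`** -/
theorem own_W (mo mx : ℕ) (τ : ℝ) : ‖KF0 mo mx (zj (5 / 4) τ)‖ *
    Real.exp (sea2 mo mx .w (zj (5 / 4) τ)) =
      Real.sin (2 * l) * Real.exp (-ls (-(3 / 4)) τ) := by
  unfold sea2
  rw [norm_KF0 gz_W, MFo_W (zj_re _ _), MFx_W (zj_re _ _), la_zj, la_zj, mul_assoc, ← Real.exp_add]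
  congr 2
  rw [show (5 / 4 - 2 : ℝ) = -(3 / 4) by norm_num, show (5 / 4 + 0 : ℝ) = 5 / 4 by norm_num]
  unfold e2
  ring

/-- **type `F`** -/
theorem own_F (mo mx : ℕ) (τ : ℝ) : ‖KF0 mo mx (zj (-(11 / 4)) τ)‖ *
    Real.exp (sea2 mo mx .w (zj (-(11 / 4)) τ)) =
      Real.sin (2 * l) * Real.exp (-ls (-(19 / 4)) τ) *
        Real.exp (-(((mx + 1 : ℕ) : ℝ) * Ag (3 / 4) τ)) := by
  unfold sea2
  rw [norm_KF0 gz_F, MFo_F (zj_re _ _), MFx_F (zj_re _ _), la_zj, la_zj, zj_im, mul_assoc, mul_assoc,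
    ← Real.exp_add, ← Real.exp_add]
  congr 2
  rw [show (-(11 / 4) - 2 : ℝ) = -(19 / 4) by norm_num,
    show (-(11 / 4) + 0 : ℝ) = -(11 / 4) by norm_num]
  unfold e2
  push_cast
  ring

/-- prefactor of `P1`: the captured quantum has the other species -/
def KP0 (c : ℂ) (β : ℝ) (g : ℂ → ℂ) (mo mx : ℕ) (w : ℂ) : ℂ :=
  Complex.sin NUP1.l / Complex.sin (2 * NUP1.l) *
    (KF0 mo mx w * XN c β g mx mo (w + 3 * NUP1.l))

/-- **type `P`** -/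
theorem own_P (c : ℂ) (β : ℝ) (g : ℂ → ℂ) (mo mx : ℕ) (τ : ℝ) :
    ‖KP0 c β g mo mx (zj (-(11 / 4)) τ)‖ * Real.exp (sea2 mo mx .p (zj (-(11 / 4)) τ)) =
      Real.sin l * ‖c‖ * Real.exp (ls (1 / 4) τ - ls (-(19 / 4)) τ - ls (-(7 / 4)) τ) *
        ‖ph0 β g mx (zj (1 / 4) τ)‖ := by
  have hs := sin2l_pos
  have e3 : zj (-(11 / 4)) τ + 3 * (NUP1.l : ℂ) = zj (1 / 4) τ := by
    rw [zp3]
    norm_num
  have e4 : ls (1 / 4 + 3) τ = ls (-(19 / 4)) τ := by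
    rw [← ls_per (-(19 / 4))]
    norm_num
  unfold KP0 sea2
  rw [e3, norm_mul, norm_div, norm_sin1l, norm_sin2l, norm_mul, norm_KF0 gz_F, norm_XN gz_Q,
    MFo_P (zj_re _ _), MFx_P (zj_re _ _), la_zj, la_zj, la_zj]
  rw [show (-(11 / 4) + 3 : ℝ) = 1 / 4 by norm_num, show (-(11 / 4) - 2 : ℝ) = -(19 / 4) by norm_num,
    show (-(11 / 4) + 0 : ℝ) = -(11 / 4) by norm_num, show (-(11 / 4) + 1 : ℝ) = -(7 / 4) by norm_num,
    show (-(11 / 4) + -2 : ℝ) = -(19 / 4) by norm_num]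
  have e5 : Real.sin l / Real.sin (2 * l) * (Real.sin (2 * l) * Real.exp (-ls (-(19 / 4)) τ +
      e2 mo mx (-ls (-(11 / 4)) τ) (ls (1 / 4) τ)) *
      (‖c‖ * Real.exp (eQ mx mo (1 / 4) τ) * ‖ph0 β g mx (zj (1 / 4) τ)‖)) *
      Real.exp (e2 mo mx (ls (-(11 / 4)) τ - 2 * ls (-(19 / 4)) τ) (ls (-(7 / 4)) τ)) =
      Real.sin l * ‖c‖ * (Real.exp (-ls (-(19 / 4)) τ +
      e2 mo mx (-ls (-(11 / 4)) τ) (ls (1 / 4) τ)) * Real.exp (eQ mx mo (1 / 4) τ) *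
      Real.exp (e2 mo mx (ls (-(11 / 4)) τ - 2 * ls (-(19 / 4)) τ) (ls (-(7 / 4)) τ))) *
      ‖ph0 β g mx (zj (1 / 4) τ)‖ := by
    field_simp
  rw [e5, ← Real.exp_add, ← Real.exp_add]
  congr 3
  unfold eQ e2
  rw [e4, show (1 / 4 - 2 : ℝ) = -(7 / 4) by norm_num]
  ring

/-- **`D1`**: `m` rows of the species of the half quantum at `w` -/
theorem own_D (m mx : ℕ) (τ : ℝ) : ‖XD0 m (zj (-(11 / 4)) τ)‖ *
    Real.exp (sea2 m mx .d (zj (-(11 / 4)) τ)) =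
      Real.sin (2 * l) ^ 2 * Real.exp (-ls (-(7 / 4)) τ - ls (-(19 / 4)) τ) := by
  unfold sea2 e2
  rw [norm_XD0 gz_F, MFo_D (zj_re _ _), MFx_d, la_zj, la_zj, mul_assoc, ← Real.exp_add]
  congr 2
  rw [show (-(11 / 4) - 2 : ℝ) = -(19 / 4) by norm_num, show (-(11 / 4) + 1 : ℝ) = -(7 / 4) by norm_num,
    show (-(11 / 4) + 0 : ℝ) = -(11 / 4) by norm_num, show (-(11 / 4) + -2 : ℝ) = -(19 / 4) by norm_num]
  ring

/-- the sum of the exponents of type `H` -/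
theorem hs_exp (mo mx : ℕ) (τ : ℝ) : eQ mx mo (-(11 / 8)) τ + eQ mx mo (-(11 / 8) - 1) τ +
    (-ls (5 / 8 - 2) τ + e2 mo mx (-ls (5 / 8) τ) (ls (5 / 8 + 3) τ)) =
    e2 mo mx (2 * ls (5 / 8 + 1) τ + ls (5 / 8) τ) (-ls (5 / 8 + -2) τ - ls (5 / 8 + -3) τ -
      ls (5 / 8 + 4) τ) + (ls (-(19 / 8)) τ - ls (-(27 / 8)) τ - ls (29 / 8) τ) := by
  have e4 : ls (-(35 / 8)) τ = ls (29 / 8) τ := by
    rw [← ls_per (-(35 / 8))]
    norm_num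
  have e5 : ls (5 / 8 + 4) τ = ls (-(27 / 8)) τ := by
    rw [← ls_per (-(27 / 8))]
    norm_num
  unfold eQ e2
  rw [e5, show (-(11 / 8) + 3 : ℝ) = 13 / 8 by norm_num, show (-(11 / 8) - 2 : ℝ) = -(27 / 8) by norm_num,
    show (-(11 / 8) - 1 : ℝ) = -(19 / 8) by norm_num, show (-(19 / 8) + 3 : ℝ) = 5 / 8 by norm_num,
    show (-(19 / 8) - 2 : ℝ) = -(35 / 8) by norm_num, e4,
    show (5 / 8 - 2 : ℝ) = -(11 / 8) by norm_num, show (5 / 8 + 3 : ℝ) = 29 / 8 by norm_num,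
    show (5 / 8 + -2 : ℝ) = -(11 / 8) by norm_num, show (5 / 8 + -3 : ℝ) = -(19 / 8) by norm_num,
    show (5 / 8 + 1 : ℝ) = 13 / 8 by norm_num]
  ring

/-- **type `H`**, no quantum at the simple pole -/
theorem own_Hs (c : ℂ) (g0 : ℂ → ℂ) (mo mx : ℕ) (τ : ℝ) :
    ‖XS c g0 mx mo (zj (5 / 8) τ - 2 * NUP1.l)‖ * ‖KF0 mo mx (zj (5 / 8) τ)‖ *
      Real.exp (sea2 mo mx .hs (zj (5 / 8) τ)) =
      Real.sin (2 * l) * ‖c‖ ^ 2 * Real.exp (ls (-(19 / 8)) τ - ls (-(27 / 8)) τ - ls (29 / 8) τ) *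
        Real.exp (-(((mo + 1 : ℕ) : ℝ) * Ag (3 / 8) τ)) * ‖ph0 (4 / 3) g0 mx (zj (-(11 / 8)) τ)‖ := by
  have e3 : zj (5 / 8) τ - 2 * (NUP1.l : ℂ) = zj (-(11 / 8)) τ := by
    rw [zs2]
    norm_num
  unfold sea2
  rw [e3, norm_XS gz_T, norm_KF0 gz_S, MFo_Hs (zj_re _ _), MFx_Hs (zj_re _ _), la_zj, la_zj, la_zj,
    la_zj, la_zj, zj_im]
  rw [show ‖c‖ ^ 2 * Real.exp (eQ mx mo (-(11 / 8)) τ + eQ mx mo (-(11 / 8) - 1) τ) *
      ‖ph0 (4 / 3) g0 mx (zj (-(11 / 8)) τ)‖ * (Real.sin (2 * l) * Real.exp (-ls (5 / 8 - 2) τ +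
      e2 mo mx (-ls (5 / 8) τ) (ls (5 / 8 + 3) τ))) * Real.exp (e2 mo mx
      (-ls (5 / 8 + 0) τ - 2 * ls (5 / 8 + 1) τ - Ag (3 / 8) τ)
      (ls (5 / 8 + -2) τ + ls (5 / 8 + -3) τ + ls (5 / 8 + 4) τ)) =
      Real.sin (2 * l) * ‖c‖ ^ 2 * (Real.exp (eQ mx mo (-(11 / 8)) τ + eQ mx mo (-(11 / 8) - 1) τ) *
      Real.exp (-ls (5 / 8 - 2) τ + e2 mo mx (-ls (5 / 8) τ) (ls (5 / 8 + 3) τ)) *
      Real.exp (e2 mo mx (-ls (5 / 8 + 0) τ - 2 * ls (5 / 8 + 1) τ - Ag (3 / 8) τ)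
      (ls (5 / 8 + -2) τ + ls (5 / 8 + -3) τ + ls (5 / 8 + 4) τ))) *
      ‖ph0 (4 / 3) g0 mx (zj (-(11 / 8)) τ)‖ by ring,
    ← Real.exp_add, ← Real.exp_add, hs_exp,
    show Real.sin (2 * l) * ‖c‖ ^ 2 * Real.exp (ls (-(19 / 8)) τ - ls (-(27 / 8)) τ - ls (29 / 8) τ) *
      Real.exp (-(((mo + 1 : ℕ) : ℝ) * Ag (3 / 8) τ)) * ‖ph0 (4 / 3) g0 mx (zj (-(11 / 8)) τ)‖ =
      Real.sin (2 * l) * ‖c‖ ^ 2 * (Real.exp (ls (-(19 / 8)) τ - ls (-(27 / 8)) τ - ls (29 / 8) τ) *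
      Real.exp (-(((mo + 1 : ℕ) : ℝ) * Ag (3 / 8) τ))) * ‖ph0 (4 / 3) g0 mx (zj (-(11 / 8)) τ)‖ by ring,
    ← Real.exp_add]
  congr 3
  unfold e2
  rw [show (5 / 8 + 0 : ℝ) = 5 / 8 by norm_num]
  push_cast
  ring

/-- **type `H`**, with the quantum at the simple pole -/
theorem own_Hp (c c' : ℂ) (β : ℝ) (g0 g' : ℂ → ℂ) (mo mx : ℕ) (τ : ℝ) :
    ‖XS c g0 mx mo (zj (5 / 8) τ - 2 * NUP1.l)‖ * ‖KF0 mo mx (zj (5 / 8) τ)‖ *
      ‖XN c' β g' mo mx (zj (5 / 8) τ)‖ * Real.exp (sea2 mo mx .hp (zj (5 / 8) τ)) =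
      Real.sin (2 * l) * ‖c‖ ^ 2 * ‖c'‖ *
        Real.exp (ls (5 / 8) τ - ls (-(11 / 8)) τ + ls (-(19 / 8)) τ - ls (-(27 / 8)) τ -
          ls (29 / 8) τ) *
        ‖ph0 (4 / 3) g0 mx (zj (-(11 / 8)) τ)‖ * ‖ph0 β g' mo (zj (5 / 8) τ)‖ := by
  have e3 : zj (5 / 8) τ - 2 * (NUP1.l : ℂ) = zj (-(11 / 8)) τ := by
    rw [zs2]
    norm_num
  unfold sea2
  rw [e3, norm_XS gz_T, norm_KF0 gz_S, norm_XN gz_S, MFo_Hp (zj_re _ _), MFx_Hp (zj_re _ _), la_zj,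
    la_zj, la_zj, la_zj, la_zj]
  rw [show ‖c‖ ^ 2 * Real.exp (eQ mx mo (-(11 / 8)) τ + eQ mx mo (-(11 / 8) - 1) τ) *
      ‖ph0 (4 / 3) g0 mx (zj (-(11 / 8)) τ)‖ * (Real.sin (2 * l) * Real.exp (-ls (5 / 8 - 2) τ +
      e2 mo mx (-ls (5 / 8) τ) (ls (5 / 8 + 3) τ))) *
      (‖c'‖ * Real.exp (eQ mo mx (5 / 8) τ) * ‖ph0 β g' mo (zj (5 / 8) τ)‖) *
      Real.exp (e2 mo mx (ls (5 / 8 + -2) τ - 2 * ls (5 / 8 + 1) τ)
      (ls (5 / 8 + -2) τ + ls (5 / 8 + -3) τ + ls (5 / 8 + 4) τ - 2 * ls (5 / 8 + 3) τ)) =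
      Real.sin (2 * l) * ‖c‖ ^ 2 * ‖c'‖ *
      (Real.exp (eQ mx mo (-(11 / 8)) τ + eQ mx mo (-(11 / 8) - 1) τ) *
      Real.exp (-ls (5 / 8 - 2) τ + e2 mo mx (-ls (5 / 8) τ) (ls (5 / 8 + 3) τ)) *
      Real.exp (eQ mo mx (5 / 8) τ) *
      Real.exp (e2 mo mx (ls (5 / 8 + -2) τ - 2 * ls (5 / 8 + 1) τ)
      (ls (5 / 8 + -2) τ + ls (5 / 8 + -3) τ + ls (5 / 8 + 4) τ - 2 * ls (5 / 8 + 3) τ))) *
      ‖ph0 (4 / 3) g0 mx (zj (-(11 / 8)) τ)‖ * ‖ph0 β g' mo (zj (5 / 8) τ)‖ by ring,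
    ← Real.exp_add, ← Real.exp_add, ← Real.exp_add, hs_exp]
  congr 4
  unfold eQ e2
  rw [show (5 / 8 - 2 : ℝ) = -(11 / 8) by norm_num, show (5 / 8 + -2 : ℝ) = -(11 / 8) by norm_num,
    show (5 / 8 + 3 : ℝ) = 29 / 8 by norm_num]
  ring

end

end PB0.PLX
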