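import Pool.Agent.PLX.Ns
import Pool.Agent.PB.EAbs
import Pool.Agent.NUO.GasPot
import Pool.Agent.NUO.Glue

/-!
# PLAX: bounded analytic test functions, the complex height of a quantum

* `hq`: complex height of a quantum on the curve;
* `BC y₁ y₂ M g`: analytic test functions bounded by `M` on the strip (`PBE.TC` is a special case).
-/

set_option autoImplicit false
set_option linter.unusedSectionVars false

noncomputable section

open Complex MeasureTheory Finset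
open scoped ENNReal

namespace PBU.PLX

open NUO NUP1

/-- complex height of a quantum on the curve -/
def hq (η : ℝ → ℝ) (t : ℝ) : ℂ := t + dA η t

theorem pA_hq (η : ℝ → ℝ) (t : ℝ) : NUO.pA η t = NUP1.l + I * hq η t := by
  unfold NUO.pA vl hq dA
  push_cast
  linear_combination (-(η t : ℂ)) * I_sq

theorem hq_pA (η : ℝ → ℝ) (t : ℝ) : hq η t = (NUO.pA η t - NUP1.l) / I := by
  rw [pA_hq]
  field_simp
  ring

/-- bounded analytic test functions -/
structure BC (y₁ y₂ M : ℝ) (g : ℂ → ℂ) : Prop where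
  an : DifferentiableOn ℂ g (PBE.Sp y₁ y₂)
  bd : ∀ z ∈ PBE.Sp y₁ y₂, ‖g z‖ ≤ M

theorem BC.mono {y₁ y₂ M M' : ℝ} {g : ℂ → ℂ} (h : BC y₁ y₂ M g) (hM : M ≤ M') :
    BC y₁ y₂ M' g := ⟨h.an, fun z hz => (h.bd z hz).trans hM⟩

theorem BC.of_TC {y₁ y₂ α M : ℝ} {g : ℂ → ℂ} (h : PBE.TC y₁ y₂ α M g) (hα : 0 ≤ α)
    (hM : 0 ≤ M) : BC y₁ y₂ M g where
  an := h.an
  bd z hz := by
    refine (h.bd z hz).trans ?_
    have h1 : Real.exp (-(α * |z.re|)) ≤ 1 := by
      rw [Real.exp_le_one_iff, neg_nonpos]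
      exact mul_nonneg hα (abs_nonneg _)
    calc M * Real.exp (-(α * |z.re|)) ≤ M * 1 := mul_le_mul_of_nonneg_left h1 hM
      _ = M := mul_one M

theorem BC.const (y₁ y₂ : ℝ) (c : ℂ) : BC y₁ y₂ ‖c‖ fun _ => c :=
  ⟨differentiableOn_const c, fun _ _ => le_rfl⟩

theorem BC.smul {y₁ y₂ M : ℝ} {g : ℂ → ℂ} (h : BC y₁ y₂ M g) (c : ℂ) :
    BC y₁ y₂ (‖c‖ * M) fun z => c * g z where
  an := h.an.const_mul c
  bd z hz := by
    rw [norm_mul]
    exact mul_le_mul_of_nonneg_left (h.bd z hz) (norm_nonneg _)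

/-- the test function divided by its size -/
theorem BC.normed {y₁ y₂ M : ℝ} {g : ℂ → ℂ} (h : BC y₁ y₂ M g) (hM : 0 < M) :
    BC y₁ y₂ 1 fun z => ((M : ℂ)⁻¹) * g z := by
  refine (h.smul _).mono (le_of_eq ?_)
  rw [norm_inv, norm_real, Real.norm_of_nonneg hM.le]
  field_simp

end PBU.PLX

end
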