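import Pool.Agent.PLX.PB.OneD
import Pool.Agent.PLX.NUGC.ExD
import Pool.Agent.PLX.NUSea.Bridge
import Pool.Agent.PLX.RowLine
import Pool.Agent.NUBR.Z1B
import Pool.Agent.NUS4.GDO

/-!
# PLAX: the one body factors of the dislocated function on the curve, rows at `0`: first part

`mu1 k x`: one row at `x`, `k` rows at `0` (the rows of Y are `rwq (mu1 k x) false`, every row `q`-fold);
`row0_pA`: the factor of a row at `0` of X and a `q`-fold row at `0` of Y on the curve is
`exp (b a Re vs + b (!a) Re vx)` (field of the sea `seaP`); `end_pA`: the factor of the ends.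
-/

set_option autoImplicit false
set_option linter.unusedSectionVars false

open PLX (Fil)

noncomputable section

open Complex

namespace PBL.PLX

open NUMF (l l_pos)
open NUO (pA)
open PBX.PLX (rwC)
open Pool.Agent.PLX (rwq)

/-- one row at `x`, `k` rows at `0` -/
def mu1 (k : ℕ) (x : ℂ) : Fin (k + 1) → ℂ := Fin.cons x fun _ => 0

theorem ofFn_mu1 (k : ℕ) (x : ℂ) : List.ofFn (mu1 k x) = x :: List.replicate k 0 := by
  unfold mu1
  rw [List.ofFn_succ]
  simp [List.ofFn_const]

variable [Fil]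

theorem prod_rwC (a : Bool) (k : ℕ) (x u : ℂ) :
    ∏ i, rwC a (mu1 k x i) u = rwC a x u * rwC a 0 u ^ k := by
  unfold mu1
  rw [Fin.prod_univ_succ]
  simp

/-- the field of the sea with the numbers `1`, `q` of rows on the quanta of the species `a` -/
def vq (a : Bool) (z : ℂ) : ℝ :=
  Fil.b a * (@NUSea.vs NUSea.seaP z).re + Fil.b (!a) * (@NUSea.vx NUSea.seaP z).re

/-- **a row at `0` of X and a `q`-fold row at `0` of Y on the curve** -/
theorem row0_pA (a : Bool) {η : ℝ → ℝ} {t : ℝ} (h : |η t| < l) :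
    rwC a 0 (pA η t) = Real.exp (vq a (NUAct.zt (NUKer.iD η) t)) := by
  have him : (NUAct.zt (NUKer.iD η) t).im = η t := by
    unfold NUAct.zt NUKer.iD
    simp
  have hz : |(NUAct.zt (NUKer.iD η) t).im| < NUMF.l := by rw [him]; exact h
  have h1 := Pool.Agent.PLX.own_line hz
  have h2 := Pool.Agent.PLX.cross_line hz
  have e : pA η t = NUP1.l + I * (NUAct.zt (NUKer.iD η) t) := NUBR.line_pt (η t) t
  unfold PBX.PLX.rwC vq
  rw [NUSea.PLX.vs_seaP, NUSea.PLX.vx_seaP, e, sub_zero, Real.exp_add, ← Fil.cast_n, ← Fil.cast_n,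
    Real.exp_nat_mul, Real.exp_nat_mul, ← h1, ← h2, ← pow_mul, one_div, inv_pow, div_eq_mul_inv,
    mul_comm]

/-- **the ends on the curve**, no groups -/
theorem end0_pA (a : Bool) {η : ℝ → ℝ} {t : ℝ} (h : |η t| < 1 / 4 * l) :
    Real.exp (NUSp.DD ((-(l / 2) : ℝ) : ℂ) ((l / 2 : ℝ) : ℂ) [] a
      (NUAct.zt (NUKer.iD η) t)).re = NUGC.PLX.ThN (pA η t) := by
  have h1 := NUGC.PLX.ex_DD_pA (n := 0) (fun i => i.elim0) (fun i => i.elim0) (fun i => i.elim0)
    (fun i => i.elim0) a h
  have e2 : NUAct.zt (NUKer.iD η) t = (t : ℂ) + (η t : ℂ) * I := rfl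
  rw [Finset.univ_eq_empty, Finset.prod_empty, mul_one] at h1
  rw [h1, e2]
  simp only [List.ofFn_zero]

end PBL.PLX

end
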