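import Pool.Agent.PLX.Ns
import Pool.Agent.PLX.PB.OneD
import Pool.Agent.PLX.DZUcls
import Pool.Agent.PLX.NzB
import Pool.Agent.PLX.NUSea.Par0

/-!
# Plan B: the literal function is the functional of its class

Every row of species Y is a `q`-fold row (`q = Fil.q`): rows `x`, `yq x`; `n`, `n + xn m` quanta.

* `decZ_XX`: decay of the class functions on the final lines, total charge `- xn m`;
* `DZ_FF`: state sum with `n`, `n + xn m` quanta = `FF` of the class functions, every family of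
  admissible curves, any admissible neutral spectators (`DZU_FF` of `PLX/DZUcls`: any sizes and charge);
* `ZL β x ex ex0 z`: class functions of the dislocated function (rows `x` / `yq x`, cutoff points
  `rwq x a`, `ex` (quanta), `rwq x a`, `ex0` (strings), legs at `z`); `lgF`: the legs as a
  multiplicative insertion;
* **`nz_FF`**, **`fN_FF`**: `fQ q x z = Pf z x (yq x) * ∑ n ≤ 2 m, FF (ZL ..) P n (n + xn m) η η' 1`,
  `-9/10 l ≤ Re z < 37/10 l`; `fN_le`: the bound by the functional with moduli;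
* `ParC_par0`, `rad_low`: the parameters `par0 m` of a general sea are admissible.
-/

set_option autoImplicit false
set_option linter.unusedSectionVars false
set_option linter.unusedVariables false

noncomputable section

open Complex MeasureTheory Finset
open scoped ENNReal

namespace PBX.PLX

open NUO NUP1 NUCR NUP1S NUP1S.Ab NUP1S.AbC NURow NUGC NUGC.PLX PBF PBF.PLX
open NUP1.Bd (Ob)
open PBC.PLX (DecZ)
open Pool.Agent.PB (Pf LS)
open _root_.Pool.Agent.PLX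
open _root_.PLX (Fil)

variable [Fil] {m : ℕ} {P : NUO.Par}

/-! ## decay on the final lines -/

/-- the number of rows of the two species -/
theorem cast_xnQ (m : ℕ) (Q : ℝ) : Q - Fil.xn m =
    Q - (((cond false m (Fil.q * m) : ℕ) : ℝ) - ((cond true m (Fil.q * m) : ℕ) : ℝ)) := by
  have h : ((m + Fil.xn m : ℕ) : ℝ) = ((Fil.q * m : ℕ) : ℝ) := by rw [Fil.add_xn]
  show _ = Q - (((Fil.q * m : ℕ) : ℝ) - (m : ℝ))
  rw [← h]
  push_cast
  ring

/-- **decay of the class functions on the final lines** -/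
theorem decZ_XX (hP : ParC P) {c : Bool → ℂ} {β Q : ℝ} (hβ : 0 < β) (hβ' : β ≤ 4 / 3)
    {x : Fin m → ℂ} (hx : Rws x) {g g0 : Bool → ℂ → ℂ} (hg : ∀ a, GOk β (g a))
    (hg0 : ∀ a, GOk (4 / 3) (g0 a))
    {s1 s2 : Bool → ℂ → ℂ} (h : ∀ a, SpecQ a Q (s1 a) (s2 a)) :
    DecZ (fun a => XXU (c a) β (rwq x a) (rwq x (!a)) (g a) (g0 a) (s1 a) (s2 a)) P (3 / 5 * l)
      (2 * β) (Q - Fil.xn m) :=
  decZ_XXU (N := fun a => cond a m (Fil.q * m)) (ro := rwq x) hP hβ hβ' (fun a => Rws_rwq hx a) hg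
    hg0 h (cast_xnQ m Q)

/-! ## the state sum is the functional -/

/-- **the state sum with `n`, `n + xn m` quanta is the functional**, every family of admissible curves -/
theorem DZ_FF {ep β : ℝ} (hP : ParC P) (hρ : ∀ r, ∃ ρ0, 0 < ρ0 ∧ ∀ t, ρ0 ≤ P.rad r t)
    (hep0 : 0 < ep) (hep : ep ≤ 1 / 100) (hβ : 0 < β) (hβ' : β ≤ 4 / 3)
    {x : Fin m → ℂ} (hx : Rws x) {ex ex0 : Bool → List ℂ} (hex : ∀ a, ∀ w ∈ ex a, |w.re| ≤ l / 2)
    (hex0 : ∀ a, ∀ w ∈ ex0 a, |w.re| ≤ l / 2) {c : Bool → ℂ} {c0 : ℝ} (hc : ∀ a, ‖c a‖ = c0)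
    {s1 s2 : Bool → ℂ → ℂ} (hA : ∀ a, SpA (s1 a)) (hQ : ∀ a, SpecQ a 0 (s1 a) (s2 a))
    (hAt : ∀ a, SpecAt (3 / 5 * l) a ((0 : ℤ) : ℝ) (s1 a)) {E : Set ℝ} (hE : volume E = 0)
    (hS : ∀ a, SpecS P E (s1 a) (s2 a)) {n : ℕ} {η η' : Crs}
    (hη : ∀ r ≤ n + (n + Fil.xn m), ∀ᵐ O ∂(Measure.pi fun _ : Fin r => nu),
      CurB ep (η r O) (η' r O)) :
    DZU (c true) (c false) (s1 true) (s1 false) x (yq x) n (n + Fil.xn m) =
      FF (fun a => XXU (c a) β (rwq x a) (rwq x (!a)) (gP β (ex a)) (gP (4 / 3) (ex0 a))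
        (s1 a) (s2 a)) P n (n + Fil.xn m) η η' (fun _ _ _ _ _ => 1) := by
  refine DZU_FF (N := fun a => cond a m (Fil.q * m)) (ro := rwq x) (q := 0) hP hρ hep0 hep hβ hβ'
    (fun a => Rws_rwq hx a) hex hex0 hc ?_ ?_ (fun a => ?_) (fun a => ?_) hE hS ?_ hη
  · have := SpU.of_SpA (hA true)
    simpa using this
  · have := SpU.of_SpA (hA false)
    simpa using this
  · simpa using hQ a
  · simpa using hAt a
  · show (((n + Fil.xn m : ℕ) : ℤ)) + ((m : ℕ) : ℤ) = (n : ℤ) + ((Fil.q * m : ℕ) : ℤ) + 0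
    rw [← Fil.add_xn]
    push_cast
    ring

/-! ## the dislocated function -/

/-- class functions of the dislocated function: rows `x`, `yq x`, cutoff points the rows of the
species, `ex` (quanta) and `ex0` (strings), legs at `z` -/
def ZL (β : ℝ) (x : Fin m → ℂ) (ex ex0 : List ℂ) (z : ℂ) : Bool → Option O3 → ℂ → ℂ := fun a =>
  XXU (Leg.cc (cond a m (Fil.q * m))) β (rwq x a) (rwq x (!a)) (gP β ex) (gP (4 / 3) ex0) (Lg z z)
    (fun w => Lg z z w * Lg z z (w - l))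

/-- class functions without legs -/
def Z0 (β : ℝ) (x : Fin m → ℂ) (ex ex0 : List ℂ) : Bool → Option O3 → ℂ → ℂ := fun a =>
  XXU (Leg.cc (cond a m (Fil.q * m))) β (rwq x a) (rwq x (!a)) (gP β ex) (gP (4 / 3) ex0)
    (fun _ => 1) (fun _ => 1)

omit [Fil] in
/-- the legs as a multiplicative insertion -/
def lgF (z : ℂ) : Bool → Option O3 → ℂ → ℂ
  | _, none, u => Lg z z u
  | _, some .L, u => Lg z z u
  | _, some .S, u => Lg z z u * Lg z z (u - l)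
  | _, some .T, u => Lg z z u * Lg z z (u - l)

/-- the legs are a multiplicative insertion -/
theorem ZL_eq (β : ℝ) (x : Fin m → ℂ) (ex ex0 : List ℂ) (z : ℂ) :
    ZL β x ex ex0 z = Zm (Z0 β x ex ex0) (lgF z) := by
  funext a k u
  rcases k with _ | k
  · show RRU _ _ _ _ * ph _ _ _ _ * _ = RRU _ _ _ _ * ph _ _ _ _ * 1 * _
    rw [mul_one]
    rfl
  · rcases k with _ | _ | _
    · show RRU _ _ _ _ * ph _ _ _ _ * _ = RRU _ _ _ _ * ph _ _ _ _ * 1 * _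
      rw [mul_one]
      rfl
    · show RRU _ _ _ _ * RRU _ _ _ _ * ph _ _ _ _ * _ =
        RRU _ _ _ _ * RRU _ _ _ _ * ph _ _ _ _ * 1 * _
      rw [mul_one]
      rfl
    · show TTU _ _ _ _ _ _ _ _ * _ = TTU _ _ _ _ _ _ _ _ * 1 * _
      rw [mul_one]
      rfl

theorem measurable_ZL (β : ℝ) (x : Fin m → ℂ) (ex ex0 : List ℂ) (z : ℂ) (a : Bool)
    (k : Option O3) : Measurable (ZL β x ex ex0 z a k) :=
  measurable_XXU (measurable_gP _ _) (measurable_gP _ _) (Lg_meas z z)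
    ((Lg_meas z z).mul ((Lg_meas z z).comp (measurable_id.sub_const _))) k

/-- the constants of the two species have the same modulus -/
theorem norm_ccU (a : Bool) (m : ℕ) : ‖Leg.cc (cond a m (Fil.q * m))‖ = ‖Leg.cc m‖ := by
  have h : ∀ k : ℕ, ‖Leg.cc k‖ = ‖(Complex.sin (2 * l) / Complex.sin l : ℂ)‖ := by
    intro k
    unfold NUP1.Leg.cc
    rw [norm_mul, norm_pow, norm_neg, norm_one, one_pow, one_mul]
  rw [h, h]

theorem oneC_ZL {ep β x0 : ℝ} (hx0 : 3 / 5 * l ≤ x0) (hx0' : x0 ≤ 19 / 20 * l)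
    (hP : ParC P) (hep0 : 0 < ep) (hep : ep ≤ 1 / 100) (hβ : 0 < β) (hβ' : β ≤ 4 / 3)
    {x : Fin m → ℂ} (hx : Rws x) {ex : List ℂ} (hex : ∀ w ∈ ex, |w.re| ≤ l / 2) (ex0 : List ℂ)
    {z : ℂ} (h1 : -(9 / 10 * l) ≤ z.re) (h2 : z.re < 37 / 10 * l) :
    OneC (ZL β x ex ex0 z)
      (obX ‖Leg.cc m‖ β x (fun _ => ex) (fun _ => ex0) fun _ u => thZ z u) P ep (2 * β) x0
      (-Fil.xn m) (Set.range fun i => (x i).im) :=
  oneC_Lg (c := fun a => Leg.cc (cond a m (Fil.q * m))) hx0 hx0' hP hep0 hep hβ hβ' hx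
    (fun _ => hex) (fun _ => ex0) (fun a => norm_ccU a m) h1 h2

/-- the decay of the class functions of the dislocated function -/
theorem decZ_ZL {β : ℝ} (hP : ParC P) (hβ : 0 < β) (hβ' : β ≤ 4 / 3) {x : Fin m → ℂ} (hx : Rws x)
    {ex ex0 : List ℂ} (hex : ∀ w ∈ ex, |w.re| ≤ l / 2) (hex0 : ∀ w ∈ ex0, |w.re| ≤ l / 2) {z : ℂ}
    (h1 : -l < z.re) (h2 : z.re < 37 / 10 * l) :
    DecZ (ZL β x ex ex0 z) P (3 / 5 * l) (2 * β) (-Fil.xn m) := by
  have h := decZ_XX (c := fun a => Leg.cc (cond a m (Fil.q * m))) (s1 := fun _ => Lg z z) (Q := 0)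
    (s2 := fun _ w => Lg z z w * Lg z z (w - l)) hP hβ hβ' hx (fun _ => GOk.gP hβ hβ' hex)
    (fun _ => GOk.gP (by norm_num) le_rfl hex0) fun a => Lg_SpecQ a h1 h2
  rw [zero_sub] at h
  exact h

/-- the state sum with `n`, `n + xn m` quanta of the dislocated function -/
theorem DZ_ZL {ep β : ℝ} (hP : ParC P) (hρ : ∀ r, ∃ ρ0, 0 < ρ0 ∧ ∀ t, ρ0 ≤ P.rad r t)
    (hep0 : 0 < ep) (hep : ep ≤ 1 / 100) (hβ : 0 < β) (hβ' : β ≤ 4 / 3)
    {x : Fin m → ℂ} (hx : Rws x) {ex ex0 : List ℂ} (hex : ∀ w ∈ ex, |w.re| ≤ l / 2)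
    (hex0 : ∀ w ∈ ex0, |w.re| ≤ l / 2) {z : ℂ} (h1 : -(9 / 10 * l) ≤ z.re)
    (h2 : z.re < 37 / 10 * l) {n : ℕ} {η η' : Crs}
    (hη : ∀ r ≤ n + (n + Fil.xn m), ∀ᵐ O ∂(Measure.pi fun _ : Fin r => nu),
      CurB ep (η r O) (η' r O)) :
    DZU (Leg.cc m) (Leg.cc (Fil.q * m)) (Lg z z) (Lg z z) x (yq x) n (n + Fil.xn m) =
      FF (ZL β x ex ex0 z) P n (n + Fil.xn m) η η' (fun _ _ _ _ _ => 1) := by
  have hl := Bd.l_pos
  exact DZ_FF (c := fun a => Leg.cc (cond a m (Fil.q * m))) (c0 := ‖Leg.cc m‖)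
    (s1 := fun _ => Lg z z) (ex := fun _ => ex) (ex0 := fun _ => ex0)
    (s2 := fun _ w => Lg z z w * Lg z z (w - l)) (E := ∅) hP hρ hep0 hep hβ hβ' hx (fun _ => hex)
    (fun _ => hex0) (fun a => norm_ccU a m) (fun _ => Lg_SpA (by linarith) (by linarith))
    (fun a => Lg_SpecQ a (by linarith) h2) (fun a => Lg_SpecAt le_rfl a h1 h2) (by simp)
    (fun _ => Lg_SpecS z) hη

/-- **the function at all rows is the functional**, `-9/10 l ≤ Re z < 37/10 l` -/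
theorem nz_FF {ep β : ℝ} (hP : ParC P) (hρ : ∀ r, ∃ ρ0, 0 < ρ0 ∧ ∀ t, ρ0 ≤ P.rad r t)
    (hep0 : 0 < ep) (hep : ep ≤ 1 / 100) (hβ : 0 < β) (hβ' : β ≤ 4 / 3)
    {x : Fin m → ℂ} (hx : Rws x) {ex ex0 : List ℂ} (hex : ∀ w ∈ ex, |w.re| ≤ l / 2)
    (hex0 : ∀ w ∈ ex0, |w.re| ≤ l / 2) {z : ℂ} (h1 : -(9 / 10 * l) ≤ z.re)
    (h2 : z.re < 37 / 10 * l) {η η' : ℕ → Crs}
    (hη : ∀ n ∈ range (2 * m + 1), ∀ r ≤ n + (n + Fil.xn m),
      ∀ᵐ O ∂(Measure.pi fun _ : Fin r => nu), CurB ep (η n r O) (η' n r O)) :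
    nzU z x (yq x) = Pf z x (yq x) * ∑ n ∈ range (2 * m + 1),
      FF (ZL β x ex ex0 z) P n (n + Fil.xn m) (η n) (η' n) (fun _ _ _ _ _ => 1) := by
  unfold nzU
  congr 1
  rw [sumU_q Fil.one_le_q]
  refine Finset.sum_congr rfl fun n hn => ?_
  rw [← DZ_ZL hP hρ hep0 hep hβ hβ' hx hex hex0 h1 h2 (hη n hn)]
  rfl

/-- **the literal function is the functional** -/
theorem fN_FF {ep β : ℝ} (hP : ParC P) (hρ : ∀ r, ∃ ρ0, 0 < ρ0 ∧ ∀ t, ρ0 ≤ P.rad r t)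
    (hep0 : 0 < ep) (hep : ep ≤ 1 / 100) (hβ : 0 < β) (hβ' : β ≤ 4 / 3)
    {x : Fin m → ℂ} (hx : Rws x) {ex ex0 : List ℂ} (hex : ∀ w ∈ ex, |w.re| ≤ l / 2)
    (hex0 : ∀ w ∈ ex0, |w.re| ≤ l / 2) {z : ℂ} (h1 : -(9 / 10 * l) ≤ z.re)
    (h2 : z.re < 37 / 10 * l) {η η' : ℕ → Crs}
    (hη : ∀ n ∈ range (2 * m + 1), ∀ r ≤ n + (n + Fil.xn m),
      ∀ᵐ O ∂(Measure.pi fun _ : Fin r => nu), CurB ep (η n r O) (η' n r O)) :
    fQ Fil.q x z = Pf z x (yq x) * ∑ n ∈ range (2 * m + 1),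
      FF (ZL β x ex ex0 z) P n (n + Fil.xn m) (η n) (η' n) (fun _ _ _ _ _ => 1) := by
  have hl := Bd.l_pos
  rw [fQ_right (Pool.Agent.PB.Rws.rwo hx) ⟨by linarith, by linarith⟩]
  exact nz_FF hP hρ hep0 hep hβ hβ' hx hex hex0 h1 h2 hη

/-- **the bound by the functional with moduli** -/
theorem fN_le {ep β : ℝ} (hP : ParC P) (hρ : ∀ r, ∃ ρ0, 0 < ρ0 ∧ ∀ t, ρ0 ≤ P.rad r t)
    (hep0 : 0 < ep) (hep : ep ≤ 1 / 100) (hβ : 0 < β) (hβ' : β ≤ 4 / 3)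
    {x : Fin m → ℂ} (hx : Rws x) {ex ex0 : List ℂ} (hex : ∀ w ∈ ex, |w.re| ≤ l / 2)
    (hex0 : ∀ w ∈ ex0, |w.re| ≤ l / 2) {z : ℂ} (h1 : -(9 / 10 * l) ≤ z.re)
    (h2 : z.re < 37 / 10 * l) {η η' : ℕ → Crs}
    (hη : ∀ n ∈ range (2 * m + 1), ∀ r ≤ n + (n + Fil.xn m),
      ∀ᵐ O ∂(Measure.pi fun _ : Fin r => nu), CurB ep (η n r O) (η' n r O)) :
    ‖fQ Fil.q x z‖ₑ ≤ ‖Pf z x (yq x)‖ₑ * ∑ n ∈ range (2 * m + 1),
      FA (ZL β x ex ex0 z) P n (n + Fil.xn m) (η n) (η' n) (fun _ _ _ _ _ => 1) := by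
  rw [fN_FF hP hρ hep0 hep hβ hβ' hx hex hex0 h1 h2 hη, enorm_mul]
  refine mul_le_mul_right ((enorm_sum_le _ _).trans (Finset.sum_le_sum fun n _ => ?_)) _
  exact FF_le _

/-! ## `q = 1`: the landed class functions -/

omit [Fil] in
theorem XXU_copy {k k' m : ℕ} (e : k = m) (e' : k' = m) (c : ℂ) (β : ℝ) {x y : Fin m → ℂ}
    {x' : Fin k → ℂ} {y' : Fin k' → ℂ} (h : ∀ j, x' j = x (Fin.cast e j))
    (h' : ∀ j, y' j = y (Fin.cast e' j)) (g g0 s1 s2 : ℂ → ℂ) :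
    XXU c β x' y' g g0 s1 s2 = XX c β x y g g0 s1 s2 := by
  subst e
  subst e'
  have h1 : x' = x := funext h
  have h2 : y' = y := funext h'
  rw [h1, h2, XXU_self]

omit [Fil] in
/-- `q = 1` -/
theorem ZL_one (β : ℝ) (x : Fin m → ℂ) (ex ex0 : List ℂ) (z : ℂ) (a : Bool) :
    @ZL Fil.one m β x ex ex0 z a = XX (Leg.cc m) β x x (gP β ex) (gP (4 / 3) ex0) (Lg z z)
      (fun w => Lg z z w * Lg z z (w - l)) := by
  have hm : ∀ j : Fin (1 * m), j.modNat = Fin.cast (one_mul m) j := fun j => by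
    ext
    show (j : ℕ) % m = (j : ℕ)
    have hj : (j : ℕ) < m := by
      have := j.isLt
      omega
    exact Nat.mod_eq_of_lt hj
  have hy : ∀ j : Fin (1 * m), yqn 1 x j = x (Fin.cast (one_mul m) j) := fun j =>
    congrArg x (hm j)
  cases a
  · have hc : Leg.cc (1 * m) = Leg.cc m := congrArg _ (one_mul m)
    rw [← hc]
    exact XXU_copy (one_mul m) rfl _ β hy (fun j => rfl) _ _ _ _
  · exact XXU_copy rfl (one_mul m) _ β (fun j => rfl) hy _ _ _ _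

/-! ## the parameters of a sea -/

omit [Fil] in
theorem ParC_par0 [NUSea.Sea] (k : ℕ) : ParC (NUSea.PLX.O.par0 k) where
  j1 := by rw [NUSea.PLX.O.par0_jL]
  j2 := by rw [NUSea.PLX.O.par0_jL]; norm_num
  e1 := by rw [NUSea.PLX.O.par0_e]; norm_num
  d0 := fun r => by rw [NUSea.PLX.O.par0_d]; exact d0_pos r
  e2 := fun r => by
    have := d0_le r
    rw [NUSea.PLX.O.par0_e, NUSea.PLX.O.par0_d]
    norm_num at this ⊢
    linarith
  rm := NUSea.PLX.O.rad0_meas _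
  r0 := fun r t => NUSea.PLX.O.rad0_pos _ r t
  r1 := fun r t => by
    refine (NUSea.PLX.O.rad0_le _ r t).trans ?_
    have h3 := d0_pos r
    have h4 := l_pos0
    show NUP1.l * d0 r / (64 * (r + 1)) ≤ NUP1.l * d0 r / (8 * (r + 1))
    gcongr
    norm_num

omit [Fil] in
/-- the radii of the circles are bounded below -/
theorem rad_low [X : NUSea.Sea] (k r : ℕ) :
    ∃ ρ0, 0 < ρ0 ∧ ∀ t, ρ0 ≤ (NUSea.PLX.O.par0 k).rad r t := by
  obtain ⟨C, hC, hb⟩ := X.bd 0 0 le_rfl (by have := NUMF.l_pos; linarith)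
  have hPle : ∀ t : ℝ, NUSea.P t ≤ C := by
    intro t
    have h := hb (t : ℂ) (by simp)
    rw [iteratedDeriv_zero, X.real t, Complex.norm_real, Real.norm_eq_abs] at h
    have h1 : Real.exp (-(8 / 3) * |((t : ℂ)).re|) ≤ 1 := by
      rw [Real.exp_le_one_iff]
      have := abs_nonneg ((t : ℂ)).re
      linarith
    calc NUSea.P t ≤ |X.dens t| := le_abs_self _
      _ ≤ C * Real.exp (-(8 / 3) * |((t : ℂ)).re|) := h
      _ ≤ C := mul_le_of_le_one_right hC h1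
  set D : ℝ := K1c * ((r : ℝ) + 1) ^ 5 * (1 + Real.log k) * (1 + k * C) with hD
  have hk0 : (0 : ℝ) ≤ K1c := K1c_nonneg
  have hlog : 0 ≤ Real.log k := by
    rcases Nat.eq_zero_or_pos k with h | h
    · rw [h]
      simp
    · exact Real.log_nonneg (by exact_mod_cast h)
  have hD0 : 0 ≤ D := by
    rw [hD]
    positivity
  refine ⟨1 / (D + 1), by positivity, fun t => ?_⟩
  have h1 := NUSea.PLX.O.rad0_inv k r t
  have h2 := NUSea.PLX.O.rad0_pos k r t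
  have h3 : K1c * ((r : ℝ) + 1) ^ 5 * (1 + Real.log k) * (1 + k * NUSea.P t) ≤ D := by
    rw [hD]
    have := hPle t
    gcongr
  rw [NUSea.PLX.O.par0_rad]
  have h4 : 1 / NUSea.PLX.O.rad0 k r t ≤ D + 1 := by linarith
  rw [div_le_iff₀ (by positivity)]
  rw [div_le_iff₀ h2] at h4
  linarith

end PBX.PLX

end
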