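import Pool.Agent.PLX.Ns
import Pool.Agent.PLX.NUGC.CurEx
import Pool.Agent.NUO.Glue

/-!
# Plan B: the activity of an object with the tent of the current kept (helper79)

The current of TARGET-C is `hC = tent + cur`, `cur` the plateau of height `J`, `tent` of slope
`aC = 4 / (3 π)`.  `S4C` keeps only the plateau.  Here: the tent is kept as a gain.

* `gT e1 L t = (8 / 3) (D' - |t|)_+`, `D' = (1 - 4 e1) (3 / 8) L`: the gain of an object at the height `t`;
* `cur_gT_le`: `cur + gT / (2 π) ≤ hC`; `gT_le_Ph`: `gT ≤ m Ph / 100`;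
* `one_actT`: the one body factor of every object with the current `hC` is at most `act * exp (- gT)`.
-/

set_option autoImplicit false

noncomputable section

open MeasureTheory

namespace PBP.PLX

open NUO NUP1 NUGC NUGC.PLX

/-- half width of the gain -/
def Dg (e1 L : ℝ) : ℝ := (1 - 4 * e1) * Tb L

/-- **the gain of an object at the height `t`** -/
def gT (e1 L t : ℝ) : ℝ := 8 / 3 * max (Dg e1 L - |t|) 0

theorem gT_nonneg (e1 L t : ℝ) : 0 ≤ gT e1 L t := by
  unfold gT
  have := le_max_right (Dg e1 L - |t|) 0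
  positivity

theorem gT_ge (e1 L t : ℝ) : 8 / 3 * (Dg e1 L - |t|) ≤ gT e1 L t := by
  unfold gT
  have := le_max_left (Dg e1 L - |t|) 0
  linarith

/-- the tent contains the gain -/
theorem cur_gT_le {e1 J : ℝ} (he : 0 < e1) (he1 : e1 ≤ 1 / 100) {m : ℕ}
    (hT : 2 ≤ e1 * Tb (Real.log m)) (t : ℝ) :
    NUCUR.cur e1 (Tb (Real.log m)) J t + gT e1 (Real.log m) t / (2 * Real.pi) ≤ hC e1 J m t := by
  have hT0 : 200 ≤ Tb (Real.log m) := by nlinarith
  have hD : 0 ≤ DC e1 m := DC_nonneg he1 (by linarith)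
  have h1 := (tent_bd hD aC_pos.le t).1
  have h2 := tent_ge hD aC_pos.le t
  have hpi := Real.pi_pos
  have e : gT e1 (Real.log m) t / (2 * Real.pi) = aC * max (Dg e1 (Real.log m) - |t|) 0 := by
    unfold gT aC
    field_simp
    ring
  rw [e]
  unfold hC
  have h3 : aC * max (Dg e1 (Real.log m) - |t|) 0 ≤ tent (DC e1 m) aC t := by
    rcases le_total (Dg e1 (Real.log m) - |t|) 0 with h | h
    · rw [max_eq_right h, mul_zero]
      exact h1
    · rw [max_eq_left h]
      refine le_trans ?_ h2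
      have h4 : Dg e1 (Real.log m) + 4 ≤ DC e1 m := by
        unfold Dg DC
        linarith
      have h5 := aC_pos
      nlinarith
  linarith

/-- large `m` -/
theorem exists_M0 {e1 : ℝ} (he : 0 < e1) : ∃ M0 : ℕ, ∀ m ≥ M0, 2 ≤ e1 * Tb (Real.log m) ∧
    50 * Real.pi ≤ (m : ℝ) ^ (4 * e1) := by
  have h1 := (Real.tendsto_log_atTop.comp tendsto_natCast_atTop_atTop).eventually_ge_atTop
    (16 / 3 / e1)
  have h2 := ((tendsto_rpow_atTop (by positivity : 0 < 4 * e1)).comp
    tendsto_natCast_atTop_atTop).eventually_ge_atTop (50 * Real.pi)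
  obtain ⟨M0, hM0⟩ := Filter.eventually_atTop.1 (h1.and h2)
  refine ⟨M0, fun m hm => ⟨?_, (hM0 m hm).2⟩⟩
  have h3 : 16 / 3 / e1 ≤ Real.log m := (hM0 m hm).1
  rw [div_le_iff₀ he] at h3
  unfold Tb
  linarith


end PBP.PLX

end
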