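import Pool.Agent.PLX.Ns
import Pool.Agent.PLX.PB.PinAct

/-!
# Plan B: weights of pinned objects against the gain of the tent (module U4)

`gT e1 L t = (8 / 3) (D' - |t|)_+`, `D' = (1 - 4 e1) (3 / 8) L` (`PB/PinAct`): every object carries the
factor `exp (-gT)` beside its activity `act`.  Here: a weight `exp (-q |t_o|)`, `0 ≤ q ≤ 8 / 3`, of one
of the objects is paid by that factor, price `pinB q e1 L = exp (-q D')`, at `L = log m` equal to
`m ^ (-(3/8) q (1 - 4 e1))`; for `q = 2` it is `m ^ (-(3/4) (1 - 4 e1))`.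

* `pin_one`, `pin_one_sh` (centre `s`), `pin_one_poly` (times a polynomial of the height);
* `pin_sum`: `sum_o exp (-q |t_o|) ≤ B 2 ^ r prod exp (gT)`; `pin_sum_two`; `pin_sum_pow`
  (times `(r + 1) ^ p`); `pin_sum_poly`; `pin_sum2` (two different objects);
* `pow_mul_prod_act`, `pin_conf`: insertion into the bound of a configuration.
-/

set_option autoImplicit false
set_option linter.unusedVariables false

noncomputable section

open MeasureTheory

namespace PBP.PLX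

open NUO

/-- the price of a weight `exp (-q |t|)`: `B = exp (-q D')` -/
def pinB (q e1 L : ℝ) : ℝ := Real.exp (-(q * Dg e1 L))

theorem pinB_pos (q e1 L : ℝ) : 0 < pinB q e1 L := Real.exp_pos _

/-- `B = m ^ (-(3/8) q (1 - 4 e1))` at `L = log m` -/
theorem pinB_rpow (q e1 : ℝ) {m : ℝ} (hm : 0 < m) :
    pinB q e1 (Real.log m) = m ^ (-(3 / 8 * q * (1 - 4 * e1))) := by
  rw [Real.rpow_def_of_pos hm]
  unfold pinB Dg Tb
  congr 1
  ring

/-- `B = m ^ (-3/4 (1 - 4 e1))` for `q = 2` -/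
theorem pinB_two (e1 : ℝ) {m : ℝ} (hm : 0 < m) :
    pinB 2 e1 (Real.log m) = m ^ (-(3 / 4 * (1 - 4 * e1))) := by
  rw [pinB_rpow 2 e1 hm]
  congr 1
  ring

theorem one_le_exp_gT (e1 L t : ℝ) : 1 ≤ Real.exp (gT e1 L t) :=
  Real.one_le_exp (gT_nonneg e1 L t)

/-- **one object**: the weight `exp (-q |t|)`, `0 ≤ q ≤ 8 / 3`, against the gain -/
theorem pin_one {q : ℝ} (hq0 : 0 ≤ q) (hq : q ≤ 8 / 3) (e1 L t : ℝ) :
    Real.exp (-(q * |t|)) ≤ pinB q e1 L * Real.exp (gT e1 L t) := by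
  unfold pinB
  rw [← Real.exp_add, Real.exp_le_exp]
  have h1 := gT_nonneg e1 L t
  have h2 := gT_ge e1 L t
  rcases le_total (|t|) (Dg e1 L) with h | h
  · have h3 : q * (Dg e1 L - |t|) ≤ 8 / 3 * (Dg e1 L - |t|) :=
      mul_le_mul_of_nonneg_right hq (by linarith)
    linarith
  · have h3 := mul_le_mul_of_nonneg_left h hq0
    linarith

/-! ### one pinned object -/

/-- a family: one factor against the product -/
theorem le_prod_of_one {ι : Type*} [Fintype ι] {P : ι → ℝ} (hP : ∀ i, 1 ≤ P i) (i : ι) :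
    P i ≤ ∏ j, P j := by
  classical
  rw [← Finset.mul_prod_erase Finset.univ P (Finset.mem_univ i)]
  have h1 : 1 ≤ ∏ j ∈ Finset.univ.erase i, P j :=
    Finset.prod_induction P (fun x => 1 ≤ x) (fun a b ha hb => one_le_mul_of_one_le_of_one_le ha hb)
      le_rfl fun j _ => hP j
  exact le_mul_of_one_le_right (zero_le_one.trans (hP i)) h1

/-- **abstract form**: weights `w i ≤ A * P i` of one object, `P ≥ 1` -/
theorem sum_le_of_one {r : ℕ} {w P : Fin r → ℝ} {A : ℝ} (hA : 0 ≤ A) (hP : ∀ i, 1 ≤ P i)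
    (hw : ∀ i, w i ≤ A * P i) : ∑ i, w i ≤ A * r * ∏ i, P i := by
  calc ∑ i, w i ≤ ∑ _i : Fin r, A * ∏ j, P j :=
        Finset.sum_le_sum fun i _ => (hw i).trans
          (mul_le_mul_of_nonneg_left (le_prod_of_one hP i) hA)
    _ = A * r * ∏ i, P i := by
        rw [Finset.sum_const, Finset.card_univ, Fintype.card_fin, nsmul_eq_mul]
        ring

/-- `r ≤ 2 ^ r` -/
theorem cast_le_two_pow (r : ℕ) : (r : ℝ) ≤ 2 ^ r := by
  exact_mod_cast Nat.lt_two_pow_self.le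

/-- `(r + 1) ^ p ≤ 3 p! 3 ^ r` -/
theorem pow_le_fact (p r : ℕ) : ((r : ℝ) + 1) ^ p ≤ 3 * p.factorial * 3 ^ r := by
  have h1 := Real.pow_div_factorial_le_exp ((r : ℝ) + 1) (by positivity) p
  rw [div_le_iff₀ (by positivity)] at h1
  have h2 : Real.exp ((r : ℝ) + 1) ≤ 3 ^ r * 3 := by
    have e3 : Real.exp 1 ≤ 3 := by
      have := Real.exp_one_lt_d9
      linarith
    have : Real.exp ((r : ℝ) + 1) = Real.exp 1 ^ r * Real.exp 1 := by
      rw [← Real.exp_nat_mul, ← Real.exp_add, mul_one]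
    rw [this]
    exact mul_le_mul (pow_le_pow_left₀ (Real.exp_pos _).le e3 r) e3 (Real.exp_pos _).le
      (by positivity)
  calc ((r : ℝ) + 1) ^ p ≤ Real.exp ((r : ℝ) + 1) * p.factorial := h1
    _ ≤ 3 ^ r * 3 * p.factorial := mul_le_mul_of_nonneg_right h2 (by positivity)
    _ = _ := by ring

/-- the gain of a configuration -/
def gPi (e1 L : ℝ) {r : ℕ} (t : Fin r → ℝ) : ℝ := ∏ i, Real.exp (gT e1 L (t i))

theorem one_le_gPi (e1 L : ℝ) {r : ℕ} (t : Fin r → ℝ) : 1 ≤ gPi e1 L t :=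
  Finset.prod_induction _ (fun x => 1 ≤ x) (fun a b ha hb => one_le_mul_of_one_le_of_one_le ha hb)
    le_rfl fun i _ => one_le_exp_gT e1 L (t i)

/-- **one pinned object**: `sum_o exp (-q |t_o|) ≤ B 2 ^ r prod exp (gT)`, `0 ≤ q ≤ 8 / 3` -/
theorem pin_sum {q : ℝ} (hq0 : 0 ≤ q) (hq : q ≤ 8 / 3) (e1 L : ℝ) {r : ℕ} (t : Fin r → ℝ) :
    ∑ i, Real.exp (-(q * |t i|)) ≤ pinB q e1 L * 2 ^ r * ∏ i, Real.exp (gT e1 L (t i)) := by
  refine (sum_le_of_one (pinB_pos q e1 L).le (fun i => one_le_exp_gT e1 L (t i))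
    (fun i => pin_one hq0 hq e1 L (t i))).trans ?_
  refine mul_le_mul_of_nonneg_right ?_ (zero_le_one.trans (one_le_gPi e1 L t))
  exact mul_le_mul_of_nonneg_left (cast_le_two_pow r) (pinB_pos q e1 L).le

/-- **with a polynomial of the number of objects**:
`(r + 1) ^ p * sum_o exp (-q |t_o|) ≤ 3 p! B 6 ^ r prod exp (gT)` -/
theorem pin_sum_pow {q : ℝ} (hq0 : 0 ≤ q) (hq : q ≤ 8 / 3) (p : ℕ) (e1 L : ℝ) {r : ℕ}
    (t : Fin r → ℝ) :
    ((r : ℝ) + 1) ^ p * ∑ i, Real.exp (-(q * |t i|)) ≤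
      3 * p.factorial * pinB q e1 L * 6 ^ r * ∏ i, Real.exp (gT e1 L (t i)) := by
  have h1 := pin_sum hq0 hq e1 L t
  have h2 := pow_le_fact p r
  have hs : 0 ≤ ∑ i, Real.exp (-(q * |t i|)) :=
    Finset.sum_nonneg fun i _ => (Real.exp_pos _).le
  calc ((r : ℝ) + 1) ^ p * ∑ i, Real.exp (-(q * |t i|))
      ≤ (3 * p.factorial * 3 ^ r) *
        (pinB q e1 L * 2 ^ r * ∏ i, Real.exp (gT e1 L (t i))) :=
        mul_le_mul h2 h1 hs (by positivity)
    _ = 3 * p.factorial * pinB q e1 L * (3 * 2) ^ r * ∏ i, Real.exp (gT e1 L (t i)) := by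
        rw [mul_pow]; ring
    _ = _ := by norm_num

/-! ### two pinned objects -/

/-! ### absorption in the activities -/

end PBP.PLX

end
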