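import Pool.Agent.PLX.Ns
import Pool.Agent.PLX.PB.HolU
import Pool.Agent.PLX.PB.PinW
import Pool.Agent.PB.EAbs
import Pool.Agent.PLX.NUGC.CurEx
import Pool.Agent.PLX.NUSea.Par0
import Pool.Agent.PLX.PB.DomL0
import Pool.Agent.PLX.PB.Conf
import Pool.Agent.PLX.PB.BCs
import Pool.Agent.PLX.PB.FNeq

/-!
# Plan B: the upper bounds U1, U3, U4 as propositions, and their easy consequences

* `hq`, `nu1`: complex height of a quantum, linear statistic of one species on its curve `Fil.cv s η`, density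
  `Fil.b s * ρ`;
* `nuE`: `1 + |ν_X(g)| + |ν_Y(g')|`;
* `BC y₁ y₂ M g`: analytic test functions bounded by `M` on the strip (`PBE.TC` is a special case);
* `Fam ι`: a family of functionals (class functions, normaliser, admissible indices, bound);
* `FS`: the functional with moduli, summed over the number `n` of quanta X (`n + dN (top m)` quanta Y);
* **`UB F ep e1 J p K ε`**: the master bound, constants before `m` and the index: weights of the
  objects up to `B K ^ r ∏ exp (gT)`, products of at most `p` statistics;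
* **`UX F`**: what the provider proves: `UB` for every `p`, `K`, `ε` and all small parameters;
* `UX.pick`, `UX.pick2`: one choice of the parameters;
* `UB.mass`, `UB.weight` (U1), `UB.stat`, `UB.pow` (U3), `UB.pin` (U4), `OW.pinSh`;
* `famL`: the family of the dislocated function;
* `FL`, `norm_FL_le`: the complex functional.
-/

set_option autoImplicit false
set_option linter.unusedSectionVars false

noncomputable section

open Complex MeasureTheory Finset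
open scoped ENNReal
open PLX (Fil)

namespace PBU.PLX

open NUO NUP1 NUP1S NUP1S.Ab NUP1S.AbC NUGC NUGC.PLX PBF PBF.PLX PBP PBP.PLX

/-! ### statistics -/

/-- linear statistic of the species `s`: density `ρ` of a one-fold row, test function `g` of the
complex height -/
def nu1 [Fil] (ρ : ℝ → ℂ) (η : ℝ → ℝ) (s : Bool) (g : ℂ → ℂ) {a b : ℕ}
    (x : (Fin a → ℝ) × (Fin b → ℝ)) : ℂ :=
  (if s then ∑ i, g (hq (Fil.cv s η) (x.1 i)) else ∑ i, g (hq (Fil.cv s η) (x.2 i))) -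
    Fil.b s * ∫ t : ℝ, ρ t * g t

theorem nu1_smul [Fil] (ρ : ℝ → ℂ) (η : ℝ → ℝ) (s : Bool) (g : ℂ → ℂ) (c : ℂ) {a b : ℕ}
    (x : (Fin a → ℝ) × (Fin b → ℝ)) :
    nu1 ρ η s (fun z => c * g z) x = c * nu1 ρ η s g x := by
  unfold nu1
  have e : (fun t : ℝ => ρ t * (c * g t)) = fun t : ℝ => c * (ρ t * g t) := by
    funext t
    ring
  rw [e, integral_const_mul]
  split_ifs
  · rw [← Finset.mul_sum]
    ring
  · rw [← Finset.mul_sum]
    ring

/-! ### families of functionals -/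

/-- **a family of functionals**: class functions (`ep`, number of rows, index), normaliser, largest
number of quanta, admissible indices, bound -/
structure Fam (ι : Type) where
  /-- one body functions: `ep`, `m`, index -/
  Z : ℝ → ℕ → ι → Bool → Option O3 → ℂ → ℂ
  /-- normaliser -/
  Pf : ℕ → ι → ℂ
  /-- the sum over the number of quanta runs over `n ≤ top m` -/
  top : ℕ → ℕ
  /-- admissible indices -/
  ok : ℕ → ι → Prop
  /-- the bound of the index -/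
  bd : ℕ → ι → ℝ

variable [Fil] [NUSea.Sea] {ι : Type}

/-- the fixed curve -/
def cr (e1 J : ℝ) (m : ℕ) : Crs := fun _ _ => etaC e1 J m m

/-- its derivative -/
def cr' (e1 J : ℝ) (m : ℕ) : Crs := fun _ _ => etaC' e1 J m m

/-- **the functional with moduli**, summed over the number of quanta with weights `c n` -/
def FS (F : Fam ι) (ep e1 J : ℝ) (m : ℕ) (i : ι) (c : ℕ → ℝ≥0∞) (φ : InsE) : ℝ≥0∞ :=
  ∑ n ∈ range (F.top m + 1), c n * (‖F.Pf m i‖ₑ *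
    FE (F.Z ep m i) (NUSea.PLX.O.par0 m) n (n + dN (F.top m)) (cr e1 J m) (cr' e1 J m) φ)

variable {F : Fam ι} {ep e1 J : ℝ} {m : ℕ} {i : ι}

theorem FS_mono {c c' : ℕ → ℝ≥0∞} (hc : ∀ n, c n ≤ c' n) {φ ψ : InsE}
    (h : ∀ r O a b x, φ r O a b x ≤ ψ r O a b x) :
    FS F ep e1 J m i c φ ≤ FS F ep e1 J m i c' ψ :=
  Finset.sum_le_sum fun n _ => mul_le_mul' (hc n) (mul_le_mul' le_rfl (FE_mono h))

theorem FE_const_mul {Z : Bool → Option O3 → ℂ → ℂ} {P : NUO.Par} {n n' : ℕ} {η η' : Crs}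
    {c : ℝ≥0∞} (hc : c ≠ ∞) (φ : InsE) :
    FE Z P n n' η η' (fun r O a b x => c * φ r O a b x) = c * FE Z P n n' η η' φ := by
  unfold FE
  rw [Finset.mul_sum]
  refine Finset.sum_congr rfl fun r _ => ?_
  have e : ∀ O : Fin r → Xo, trE Z P n n' η η' (fun r O a b x => c * φ r O a b x) r O =
      c * trE Z P n n' η η' φ r O := by
    intro O
    unfold trE
    split_ifs
    · have e1 : ∀ x, ‖gK (gF Z P O) (η r O) (η' r O) (n - chgO O true) (n' - chgO O false) x‖ₑ *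
          (c * φ r O (n - chgO O true) (n' - chgO O false) x) =
          c * (‖gK (gF Z P O) (η r O) (η' r O) (n - chgO O true) (n' - chgO O false) x‖ₑ *
            φ r O (n - chgO O true) (n' - chgO O false) x) := fun x => by ring
      simp only [e1]
      rw [lintegral_const_mul' _ _ hc]
      ring
    · rw [mul_zero]
  simp only [e]
  rw [lintegral_const_mul' _ _ hc]
  ring

theorem FS_const_mul {cn : ℕ → ℝ≥0∞} {c : ℝ≥0∞} (hc : c ≠ ∞) (φ : InsE) :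
    FS F ep e1 J m i cn (fun r O a b x => c * φ r O a b x) = c * FS F ep e1 J m i cn φ := by
  unfold FS
  rw [Finset.mul_sum]
  refine Finset.sum_congr rfl fun n _ => ?_
  rw [FE_const_mul hc]
  ring

/-! ### the bounds -/

/-- one factor of a statistic -/
def nuE (ρ : ℝ → ℂ) (η : ℝ → ℝ) (g g' : ℂ → ℂ) {a b : ℕ} (x : (Fin a → ℝ) × (Fin b → ℝ)) : ℝ≥0∞ :=
  1 + ‖nu1 ρ η true g x‖ₑ + ‖nu1 ρ η false g' x‖ₑ

variable (F ep e1 J)

/-- admissible weights of the objects -/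
def OW (K B : ℝ) (m : ℕ) (w : (r : ℕ) → (Fin r → Xo) → ℝ) : Prop :=
  ∀ r O, w r O ≤ B * K ^ r * ∏ j, Real.exp (gT e1 (Real.log m) (ht (O j)))

/-- admissible densities -/
def DN (C0 : ℝ) (m : ℕ) (ρ : ℝ → ℂ) : Prop :=
  Integrable ρ ∧ (∫ t : ℝ, ‖ρ t - (m : ℝ) * NUSea.P t‖) ≤ C0

/-- **the master bound**: at most `p` statistics, constant `K` per object, exponent `ε`. -/
def UB (p : ℕ) (K ε : ℝ) : Prop :=
  ∀ C0 y₁ y₂ : ℝ, y₁ < 0 → 0 < y₂ → ∃ m0 : ℕ, ∀ m ≥ m0, ∀ i : ι, F.ok m i →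
    ∀ ρ : ℝ → ℂ, DN C0 m ρ →
    ∀ B : ℝ, 0 ≤ B → ∀ w : (r : ℕ) → (Fin r → Xo) → ℝ, OW e1 K B m w →
    ∀ g g' : (r : ℕ) → (Fin r → Xo) → Fin p → ℂ → ℂ,
      (∀ r O j, BC y₁ y₂ 1 (g r O j) ∧ BC y₁ y₂ 1 (g' r O j)) →
      FS F ep e1 J m i (fun _ => 1) (fun r O _ _ x => ENNReal.ofReal (w r O) *
          ∏ j, nuE ρ (etaC e1 J m m) (g r O j) (g' r O j) x) ≤
      ENNReal.ofReal (B * (m : ℝ) ^ ε * F.bd m i)

variable {ep e1 J}

/-- **what the provider proves** -/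
def UX : Prop := ∀ (p : ℕ) (K ε : ℝ), 0 < ε → ∃ a0 : ℝ, 0 < a0 ∧ ∀ ep e1 J : ℝ, 0 < ep → 0 < e1 →
  0 ≤ J → Real.exp (-(2 * Real.pi * J)) + 3 * e1 + 3 * ep ≤ a0 → UB F ep e1 J p K ε

variable {F}

theorem OW.mono {K K' B B' : ℝ} {w : (r : ℕ) → (Fin r → Xo) → ℝ} (h : OW e1 K B m w)
    (hK : 0 ≤ K) (hKK : K ≤ K') (hB : 0 ≤ B) (hBB : B ≤ B') : OW e1 K' B' m w := fun r O => by
  refine (h r O).trans ?_
  have h0 := zero_le_one.trans (one_le_gPi e1 (Real.log m) (fun j => ht (O j)))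
  refine mul_le_mul_of_nonneg_right ?_ h0
  exact mul_le_mul hBB (pow_le_pow_left₀ hK hKK r) (pow_nonneg hK r) (hB.trans hBB)

theorem OW.one {K : ℝ} (hK : 1 ≤ K) (m : ℕ) : OW e1 K 1 m fun _ _ => 1 := fun r O => by
  rw [one_mul]
  exact one_le_mul_of_one_le_of_one_le (one_le_pow₀ hK)
    (one_le_gPi e1 (Real.log m) (fun j => ht (O j)))

/-- a power of the number of objects -/
theorem OW.pow (a : ℕ) (m : ℕ) : OW e1 3 (3 * a.factorial) m fun r _ => ((r : ℝ) + 1) ^ a :=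
  fun r O => by
    have h1 := pow_le_fact a r
    have h2 := one_le_gPi e1 (Real.log m) (fun j => ht (O j))
    calc ((r : ℝ) + 1) ^ a ≤ 3 * a.factorial * 3 ^ r := h1
      _ ≤ _ := le_mul_of_one_le_right (by positivity) h2

/-- **a pinned object** -/
theorem OW.pin {q : ℝ} (hq0 : 0 ≤ q) (hq : q ≤ 8 / 3) (a m : ℕ) :
    OW e1 6 (3 * a.factorial * pinB q e1 (Real.log m)) m
      fun r O => ((r : ℝ) + 1) ^ a * ∑ j, Real.exp (-(q * |ht (O j)|)) :=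
  fun r O => pin_sum_pow hq0 hq a e1 (Real.log m) (fun j => ht (O j))

theorem OW.smul {K B c : ℝ} (hc : 0 ≤ c) {w : (r : ℕ) → (Fin r → Xo) → ℝ} (h : OW e1 K B m w) :
    OW e1 K (c * B) m fun r O => c * w r O := fun r O => by
  refine (mul_le_mul_of_nonneg_left (h r O) hc).trans (le_of_eq ?_)
  ring

/-- small parameters -/
theorem exists_small {a : ℝ} (ha : 0 < a) : ∃ e J : ℝ, 0 < e ∧ e ≤ a ∧ 0 ≤ J ∧
    Real.exp (-(2 * Real.pi * J)) + 3 * e + 3 * e ≤ a := by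
  have hpi := Real.pi_pos
  obtain ⟨n, hn⟩ := exists_nat_gt (Real.log (2 / a) / (2 * Real.pi))
  refine ⟨a / 12, n, by positivity, by linarith, Nat.cast_nonneg n, ?_⟩
  have h1 : Real.exp (-(2 * Real.pi * n)) ≤ a / 2 := by
    rw [← Real.exp_log (show (0 : ℝ) < a / 2 by positivity), Real.exp_le_exp]
    rw [div_lt_iff₀ (by positivity)] at hn
    have h2 : Real.log (2 / a) = -Real.log (a / 2) := by
      rw [← Real.log_inv, inv_div]
    rw [h2] at hn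
    nlinarith
  linarith

/-! ### consequences -/

variable {p : ℕ} {K ε : ℝ}

theorem one_le_nuE (ρ : ℝ → ℂ) (η : ℝ → ℝ) (g g' : ℂ → ℂ) {a b : ℕ}
    (x : (Fin a → ℝ) × (Fin b → ℝ)) : 1 ≤ nuE ρ η g g' x := by
  unfold nuE
  rw [add_assoc]
  exact le_self_add

/-- the standard density -/
theorem DN.std (m : ℕ) : DN 0 m fun t => (((m : ℝ) * NUSea.P t : ℝ) : ℂ) := by
  refine ⟨(NUSea.P_int.const_mul _).ofReal, le_of_eq ?_⟩
  have e : ∀ t : ℝ, ‖(((m : ℝ) * NUSea.P t : ℝ) : ℂ) - (m : ℝ) * NUSea.P t‖ = 0 := by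
    intro t
    rw [norm_eq_zero]
    push_cast
    ring
  simp only [e, integral_zero]

/-- **products of statistics of given sizes**, `|ν_X(g_j)| + |ν_Y(g'_j)|` for `j ∈ S` -/
theorem UB.stat (h : UB F ep e1 J p K ε) (C0 y₁ y₂ : ℝ) (h1 : y₁ < 0) (h2 : 0 < y₂) :
    ∃ m0 : ℕ, ∀ m ≥ m0, ∀ i : ι, F.ok m i → ∀ ρ : ℝ → ℂ, DN C0 m ρ →
    ∀ B : ℝ, 0 ≤ B → ∀ w : (r : ℕ) → (Fin r → Xo) → ℝ, OW e1 K B m w →
    ∀ M : Fin p → ℝ, (∀ j, 0 < M j) → ∀ g g' : (r : ℕ) → (Fin r → Xo) → Fin p → ℂ → ℂ,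
      (∀ r O j, BC y₁ y₂ (M j) (g r O j) ∧ BC y₁ y₂ (M j) (g' r O j)) →
    ∀ S : Finset (Fin p),
      FS F ep e1 J m i (fun _ => 1) (fun r O _ _ x => ENNReal.ofReal (w r O) *
          ∏ j ∈ S, (‖nu1 ρ (etaC e1 J m m) true (g r O j) x‖ₑ +
            ‖nu1 ρ (etaC e1 J m m) false (g' r O j) x‖ₑ)) ≤
      ENNReal.ofReal (B * (∏ j ∈ S, M j) * (m : ℝ) ^ ε * F.bd m i) := by
  obtain ⟨m0, h0⟩ := h C0 y₁ y₂ h1 h2
  refine ⟨m0, fun m hm i hi ρ hρ B hB w hw M hM g g' hg S => ?_⟩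
  have h3 := h0 m hm i hi ρ hρ B hB w hw (fun r O j z => ((M j : ℂ)⁻¹) * g r O j z)
    (fun r O j z => ((M j : ℂ)⁻¹) * g' r O j z)
    (fun r O j => ⟨(hg r O j).1.normed (hM j), (hg r O j).2.normed (hM j)⟩)
  have hP : 0 ≤ ∏ j ∈ S, M j := Finset.prod_nonneg fun j _ => (hM j).le
  have e0 : ∀ (j : Fin p) (s : Bool) (f : ℂ → ℂ) {a b : ℕ} (x : (Fin a → ℝ) × (Fin b → ℝ)),
      ‖nu1 ρ (etaC e1 J m m) s f x‖ₑ = ENNReal.ofReal (M j) *
        ‖nu1 ρ (etaC e1 J m m) s (fun z => ((M j : ℂ)⁻¹) * f z) x‖ₑ := by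
    intro j s f a b x
    rw [nu1_smul, enorm_mul, ← mul_assoc, ← ofReal_norm (((M j : ℝ) : ℂ)⁻¹), norm_inv, norm_real,
      Real.norm_of_nonneg (hM j).le, ← ENNReal.ofReal_mul (hM j).le,
      mul_inv_cancel₀ (hM j).ne', ENNReal.ofReal_one, one_mul]
  have key : ∀ (r : ℕ) (O : Fin r → Xo) (a b : ℕ) (x : (Fin a → ℝ) × (Fin b → ℝ)),
      ENNReal.ofReal (w r O) * ∏ j ∈ S, (‖nu1 ρ (etaC e1 J m m) true (g r O j) x‖ₑ +
        ‖nu1 ρ (etaC e1 J m m) false (g' r O j) x‖ₑ) ≤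
      ENNReal.ofReal (∏ j ∈ S, M j) * (ENNReal.ofReal (w r O) *
        ∏ j, nuE ρ (etaC e1 J m m) (fun z => ((M j : ℂ)⁻¹) * g r O j z)
          (fun z => ((M j : ℂ)⁻¹) * g' r O j z) x) := by
    intro r O a b x
    have e2 : ∏ j ∈ S, (‖nu1 ρ (etaC e1 J m m) true (g r O j) x‖ₑ +
        ‖nu1 ρ (etaC e1 J m m) false (g' r O j) x‖ₑ) ≤ ENNReal.ofReal (∏ j ∈ S, M j) *
        ∏ j ∈ S, nuE ρ (etaC e1 J m m) (fun z => ((M j : ℂ)⁻¹) * g r O j z)
          (fun z => ((M j : ℂ)⁻¹) * g' r O j z) x := by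
      rw [ENNReal.ofReal_prod_of_nonneg fun j _ => (hM j).le, ← Finset.prod_mul_distrib]
      refine Finset.prod_le_prod' fun j _ => ?_
      rw [e0 j true (g r O j) x, e0 j false (g' r O j) x, ← mul_add]
      refine mul_le_mul' le_rfl ?_
      unfold nuE
      rw [add_assoc]
      exact le_add_self
    have e3 : ∏ j ∈ S, nuE ρ (etaC e1 J m m) (fun z => ((M j : ℂ)⁻¹) * g r O j z)
          (fun z => ((M j : ℂ)⁻¹) * g' r O j z) x ≤
        ∏ j, nuE ρ (etaC e1 J m m) (fun z => ((M j : ℂ)⁻¹) * g r O j z)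
          (fun z => ((M j : ℂ)⁻¹) * g' r O j z) x :=
      Finset.prod_le_prod_of_subset_of_one_le' (Finset.subset_univ S)
        fun j _ _ => one_le_nuE _ _ _ _ _
    calc _ ≤ ENNReal.ofReal (w r O) * (ENNReal.ofReal (∏ j ∈ S, M j) * _) :=
          mul_le_mul' le_rfl (e2.trans (mul_le_mul' le_rfl e3))
      _ = _ := by ring
  refine (FS_mono (fun _ => le_rfl) key).trans ?_
  rw [FS_const_mul ENNReal.ofReal_ne_top]
  refine (mul_le_mul' le_rfl h3).trans (le_of_eq ?_)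
  rw [← ENNReal.ofReal_mul hP]
  congr 1
  ring

/-- **U1**, with a weight of the objects -/
theorem UB.weight (h : UB F ep e1 J p K ε) :
    ∃ m0 : ℕ, ∀ m ≥ m0, ∀ i : ι, F.ok m i →
      ∀ B : ℝ, 0 ≤ B → ∀ w : (r : ℕ) → (Fin r → Xo) → ℝ, OW e1 K B m w →
      FS F ep e1 J m i (fun _ => 1) (fun r O _ _ _ => ENNReal.ofReal (w r O)) ≤
      ENNReal.ofReal (B * (m : ℝ) ^ ε * F.bd m i) := by
  obtain ⟨m0, h0⟩ := h.stat 0 (-1) 1 (by norm_num) one_pos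
  refine ⟨m0, fun m hm i hi B hB w hw => ?_⟩
  have h3 := h0 m hm i hi _ (DN.std m) B hB w hw (fun _ => 1) (fun _ => one_pos)
    (fun _ _ _ _ => 0) (fun _ _ _ _ => 0)
    (fun _ _ _ => ⟨⟨differentiableOn_const 0, fun _ _ => by simp⟩,
      ⟨differentiableOn_const 0, fun _ _ => by simp⟩⟩) ∅
  simpa using h3

/-- **U1** -/
theorem UB.mass (h : UB F ep e1 J p K ε) (hK : 1 ≤ K) : ∃ m0 : ℕ, ∀ m ≥ m0, ∀ i : ι, F.ok m i →
    FS F ep e1 J m i (fun _ => 1) (fun _ _ _ _ _ => 1) ≤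
      ENNReal.ofReal ((m : ℝ) ^ ε * F.bd m i) := by
  obtain ⟨m0, h0⟩ := h.weight
  refine ⟨m0, fun m hm i hi => ?_⟩
  simpa using h0 m hm i hi 1 zero_le_one (fun _ _ => 1) (OW.one hK m)

theorem FS_eq (φ : InsE) : FS F ep e1 J m i (fun _ => 1) φ = ‖F.Pf m i‖ₑ *
    ∑ n ∈ range (F.top m + 1),
      FE (F.Z ep m i) (NUSea.PLX.O.par0 m) n (n + dN (F.top m)) (cr e1 J m) (cr' e1 J m) φ := by
  unfold FS
  rw [Finset.mul_sum]
  exact Finset.sum_congr rfl fun n _ => by rw [one_mul]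

/-- **U4**: pinned objects, powers of the number of objects, products of statistics -/
theorem UB.pin (h : UB F ep e1 J p K ε) (hK : 6 ≤ K) {q : ℝ} (hq0 : 0 ≤ q) (hq : q ≤ 8 / 3) (a : ℕ)
    (C0 y₁ y₂ : ℝ) (h1 : y₁ < 0) (h2 : 0 < y₂) :
    ∃ m0 : ℕ, ∀ m ≥ m0, ∀ i : ι, F.ok m i → ∀ ρ : ℝ → ℂ, DN C0 m ρ →
    ∀ M : Fin p → ℝ, (∀ j, 0 < M j) → ∀ g g' : (r : ℕ) → (Fin r → Xo) → Fin p → ℂ → ℂ,
      (∀ r O j, BC y₁ y₂ (M j) (g r O j) ∧ BC y₁ y₂ (M j) (g' r O j)) →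
    ∀ S : Finset (Fin p),
      FS F ep e1 J m i (fun _ => 1) (fun r O _ _ x =>
          ENNReal.ofReal (((r : ℝ) + 1) ^ a * ∑ j, Real.exp (-(q * |ht (O j)|))) *
          ∏ j ∈ S, (‖nu1 ρ (etaC e1 J m m) true (g r O j) x‖ₑ +
            ‖nu1 ρ (etaC e1 J m m) false (g' r O j) x‖ₑ)) ≤
      ENNReal.ofReal (3 * a.factorial * (m : ℝ) ^ (-(3 / 8 * q * (1 - 4 * e1))) *
        (∏ j ∈ S, M j) * (m : ℝ) ^ ε * F.bd m i) := by
  obtain ⟨m0, h0⟩ := h.stat C0 y₁ y₂ h1 h2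
  refine ⟨max m0 1, fun m hm i hi ρ hρ M hM g g' hg S => ?_⟩
  have hm0 : m0 ≤ m := (le_max_left _ _).trans hm
  have hm1 : (0 : ℝ) < m := by exact_mod_cast (le_max_right m0 1).trans hm
  have hp := pinB_pos q e1 (Real.log m)
  have h3 := h0 m hm0 i hi ρ hρ _ (by positivity) _
    ((OW.pin (e1 := e1) hq0 hq a m).mono (K' := K) (by norm_num) hK (by positivity) le_rfl)
    M hM g g' hg S
  rw [pinB_rpow q e1 hm1] at h3
  exact h3

/-! ### the family of the dislocated function -/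

/-- **the family of the dislocated function**: index `(x, z)`, one row at `x`, `m - 1` rows at `0` (rows of Y
`q`-fold), legs at `z`; cutoff of the quanta over the rows and `± i`, cutoff of the strings over the rows -/
def famL : Fam (ℂ × ℂ) where
  Z ep m i := PBX.PLX.ZL (4 / 3 * (1 - ep)) (PBL.PLX.mu1 (m - 1) i.1) [I, -I] [] i.2
  Pf m i := Pool.Agent.PB.Pf i.2 (PBL.PLX.mu1 (m - 1) i.1)
    (_root_.Pool.Agent.PLX.yq (PBL.PLX.mu1 (m - 1) i.1))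
  top m := 2 * m
  ok m i := |i.1.re| ≤ NUP1.l / 10 ∧ |i.1.im| ≤ 2 ∧ -(9 / 10 * NUP1.l) ≤ i.2.re ∧
    i.2.re < 37 / 10 * NUP1.l ∧ |i.2.im| ≤ 3 / 20 * Real.log m + 2
  bd _ i := Real.exp (2 * |i.2.im|)

end PBU.PLX

end
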