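import Pool.Agent.PLX.Ns
import Pool.Agent.PLX.WardFc2
import Pool.Agent.PLX.PB.ClsCrv
import Pool.Agent.PLX.MFh2

/-!
# The Ward identity for the functional `FF` (plan B, I2)

The objects, legs and half quanta are fixed, only the quanta on the curve are moved.

* `ward_gK` : `ward_Fc` for the integrand `gK` of the quanta of `FDef` (two groups of variables);
* `Wd` : the Ward insertion of an insertion `Ψ` with derivatives `dΨ` in the complex positions;
* **`ward_FF`** : `FF (Wd ..) = 0`.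
-/

set_option autoImplicit false
set_option linter.unusedSectionVars false

noncomputable section

open Complex MeasureTheory Finset
open scoped ENNReal

open PLX (Fil)

namespace PBF.PLX

open NUO NUP1 NUCR NUP1S NUP1S.Ab NUP1S.AbC NUGC NUGC.PLX

variable {r : ℕ}

/-- the species of the quanta of the two groups -/
def spQ (a b : ℕ) : Fin a ⊕ Fin b → Bool := Sum.elim (fun _ => true) (fun _ => false)

theorem cCt_spQ (a b : ℕ) (τ : ℝ) (D D1 : Bool → ℝ → ℂ) :
    cCt a b (crvC true τ (D true) (D1 true)) (crvC false τ (D false) (D1 false)) =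
      fun i => crvC (spQ a b i) τ (D (spQ a b i)) (D1 (spQ a b i)) := by
  funext i
  rcases i with i | i <;> rfl

theorem sum_spQ (a b : ℕ) : ∑ i, sg (spQ a b i) = (a : ℤ) - b := by
  rw [Fintype.sum_sum_type]
  simp [spQ, sg]
  ring

theorem integral_prod_sum {a b : ℕ} (f : (Fin a ⊕ Fin b → ℝ) → ℂ) :
    ∫ x : (Fin a → ℝ) × (Fin b → ℝ), f (Sum.elim x.1 x.2) = ∫ t : Fin a ⊕ Fin b → ℝ, f t := by
  have h := (volume_measurePreserving_sumPiEquivProdPi_symm (fun _ : Fin a ⊕ Fin b => ℝ))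
  rw [← h.integral_comp' (g := f)]
  rfl

variable [Fil]

open scoped Classical in
/-- the kernel, the divergence and the force of a field `X` with the derivative `X1` along the
curves `u = l + i (t + D s t)` of the two species, the one body functions with log derivative `L` -/
def wdS (η η' : ℝ → ℝ) (X X1 : Bool → ℝ → ℂ) (L : Bool → ℂ → ℂ) (a b : ℕ)
    (x : (Fin a → ℝ) × (Fin b → ℝ)) : ℂ :=
  (∑ k, (X1 (spQ a b k) (Sum.elim x.1 x.2 k) *
      (1 + dA (Fil.cv (spQ a b k) η') (Sum.elim x.1 x.2 k))⁻¹ +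
      X (spQ a b k) (Sum.elim x.1 x.2 k) *
        (I * L (spQ a b k) (pA (Fil.cv (spQ a b k) η) (Sum.elim x.1 x.2 k))))) +
    ∑ p ∈ PB.prs (er (Fin a ⊕ Fin b)), PLC.aF2 (fun s => dA (Fil.cv s η))
      (fun s => dA (Fil.cv s η')) X X1 (spQ a b p.1) (spQ a b p.2)
      (Sum.elim x.1 x.2 p.1) (Sum.elim x.1 x.2 p.2)

/-- **the Ward identity for the quanta of one configuration of objects** -/
theorem ward_gK {η η' : ℝ → ℝ} {κ α β : ℝ} (hκ : 0 < κ)
    (C : ∀ s, Crv α β NUP1.l (dA (Fil.cv s η)) (dA (Fil.cv s η')))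
    (hw : β - α < NUP1.l) {a b : ℕ} {G L : Bool → ℂ → ℂ} (hg : Reg p0 κ α β ((a : ℤ) - b) G)
    (hL : ∀ s t, HasDerivAt (G s) (L s (pA (Fil.cv s η) t) * G s (pA (Fil.cv s η) t))
      (pA (Fil.cv s η) t))
    (hLm : ∀ s, Measurable (L s)) {B : ℝ} (hLB : ∀ s t, ‖L s (pA (Fil.cv s η) t)‖ ≤ B)
    {X X1 : Bool → ℝ → ℂ} (hX : ∀ s x, HasDerivAt (X s) (X1 s x) x)
    (hXc : ∀ s, Continuous (X1 s)) (hXB : ∀ s x, ‖X s x‖ ≤ B) (hX1B : ∀ s x, ‖X1 s x‖ ≤ B)
    {Ψ : (Fin a → ℝ) × (Fin b → ℝ) → ℂ}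
    {dΨ : Fin a ⊕ Fin b → (Fin a → ℝ) × (Fin b → ℝ) → ℂ}
    (hO : ∀ k (t : Fin a ⊕ Fin b → ℝ), HasDerivAt
      (fun s => Ψ (fun i => Function.update t k s (Sum.inl i), fun j => Function.update t k s (Sum.inr j)))
      ((1 + dA (Fil.cv (spQ a b k) η') (t k)) *
        dΨ k (fun i => t (Sum.inl i), fun j => t (Sum.inr j))) (t k))
    (hOm : Measurable Ψ) (hdOm : ∀ k, Measurable (dΨ k))
    {B' : ℝ} (hOB : ∀ x, ‖Ψ x‖ ≤ B') (hdOB : ∀ k x, ‖dΨ k x‖ ≤ B') :
    ∫ x : (Fin a → ℝ) × (Fin b → ℝ), gK G η η' a b x *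
      (wdS η η' X X1 L a b x * Ψ x +
        ∑ k, X (spQ a b k) (Sum.elim x.1 x.2 k) * dΨ k x) = 0 := by
  classical
  have hre : ∀ s t, (dA (Fil.cv s η) t).re = 0 := fun s t => by unfold dA; simp
  have hJ : ∀ s t, 1 ≤ ‖1 + dA (Fil.cv s η') t‖ := fun s t => by
    have h1 : |(1 + dA (Fil.cv s η') t).re| ≤ ‖1 + dA (Fil.cv s η') t‖ :=
      Complex.abs_re_le_norm _
    have h2 : (1 + dA (Fil.cv s η') t).re = 1 := by unfold dA; simp
    rw [h2, abs_one] at h1
    exact h1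
  have hpos : ∀ s t, vl NUP1.l t + I * dA (Fil.cv s η) t = pA (Fil.cv s η) t := fun s =>
    pA_crv (Fil.cv s η)
  let φ : (Fin a ⊕ Fin b → ℝ) → (Fin a → ℝ) × (Fin b → ℝ) :=
    fun t => (fun i => t (Sum.inl i), fun j => t (Sum.inr j))
  have hφ : Measurable φ := by
    refine Measurable.prodMk ?_ ?_ <;>
      exact measurable_pi_lambda _ fun i => measurable_pi_apply _
  have key := PLC.ward_Fc2 (ι := Fin a ⊕ Fin b) (D := fun s => dA (Fil.cv s η))
    (D1 := fun s => dA (Fil.cv s η')) hκ C hw hre hJ (sp := spQ a b) (g := G) (L := L)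
    (by rw [sum_spQ]; exact hg)
    (fun s t => by rw [hpos]; exact hL s t) hLm (B := B) (fun s t => by rw [hpos]; exact hLB s t)
    hX hXc hXB hX1B (O := fun t => Ψ (φ t)) (dO := fun k t => dΨ k (φ t))
    (fun k t => by
      have e : (fun i j : Fin a ⊕ Fin b => Classical.propDecidable (i = j)) = instDecidableEqSum :=
        Subsingleton.elim _ _
      rw [e]
      exact hO k t)
    (hOm.comp hφ).aestronglyMeasurable (fun k => ((hdOm k).comp hφ).aestronglyMeasurable)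
    (B' := B') (fun t => hOB _) (fun k t => hdOB k _)
  rw [← integral_prod_sum] at key
  rw [← key]
  refine integral_congr_ae (Filter.Eventually.of_forall fun x => ?_)
  simp only []
  have e1 : φ (Sum.elim x.1 x.2) = x := rfl
  rw [e1]
  unfold gK wdS
  have e2 := cCt_spQ a b NUP1.l (fun s => dA (Fil.cv s η)) (fun s => dA (Fil.cv s η'))
  rw [e2, mul_comm]
  simp only [hpos]

/-! ### the functional -/

/-- derivatives of an insertion in the complex positions of the quanta -/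
abbrev DIns : Type :=
  (r : ℕ) → (Fin r → Xo) → (a b : ℕ) → Fin a ⊕ Fin b → (Fin a → ℝ) × (Fin b → ℝ) → ℂ

/-- fields on the curves -/
abbrev Flds : Type := (r : ℕ) → (Fin r → Xo) → Bool → ℝ → ℂ

/-- one family of variables for the two groups -/
def spl {a b : ℕ} (t : Fin a ⊕ Fin b → ℝ) : (Fin a → ℝ) × (Fin b → ℝ) :=
  (fun i => t (Sum.inl i), fun j => t (Sum.inr j))

/-- differentiable insertions -/
structure InsD (η' : Crs) (Ψ : Ins) (dΨ : DIns) : Prop where
  d : ∀ r O a b k (t : Fin a ⊕ Fin b → ℝ), HasDerivAt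
    (fun s => Ψ r O a b (spl (Function.update t k s)))
    ((1 + dA (Fil.cv (spQ a b k) (η' r O)) (t k)) * dΨ r O a b k (spl t)) (t k)
  m : ∀ r O a b, Measurable (Ψ r O a b)
  md : ∀ r O a b k, Measurable (dΨ r O a b k)
  bd : ∀ r O a b, ∃ B, (∀ x, ‖Ψ r O a b x‖ ≤ B) ∧ ∀ k x, ‖dΨ r O a b k x‖ ≤ B

/-- fields with bounded continuous derivative along the curves -/
structure FldD (X X1 : Flds) : Prop where
  d : ∀ r O s t, HasDerivAt (X r O s) (X1 r O s t) t
  c : ∀ r O s, Continuous (X1 r O s)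
  bd : ∀ r O, ∃ B, ∀ s t, ‖X r O s t‖ ≤ B ∧ ‖X1 r O s t‖ ≤ B

/-- the derivative of an insertion along the field -/
def DX (X : Flds) (dΨ : DIns) : Ins := fun r O a b x =>
  ∑ k, X r O (spQ a b k) (Sum.elim x.1 x.2 k) * dΨ r O a b k x

/-- divergence, force and pair kernel of the field -/
def WS (η η' : Crs) (X X1 : Flds) (L : (r : ℕ) → (Fin r → Xo) → Bool → ℂ → ℂ) : Ins :=
  fun r O a b x => wdS (η r O) (η' r O) (X r O) (X1 r O) (L r O) a b x

/-- **the Ward insertion** -/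
def Wd (η η' : Crs) (X X1 : Flds) (L : (r : ℕ) → (Fin r → Xo) → Bool → ℂ → ℂ) (Ψ : Ins)
    (dΨ : DIns) : Ins := fun r O a b x =>
  WS η η' X X1 L r O a b x * Ψ r O a b x + DX X dΨ r O a b x

variable {Z : Bool → Option O3 → ℂ → ℂ} {P : NUO.Par} {n n' : ℕ} {η η' : Crs}

/-- a functional all whose inner integrals vanish -/
theorem FF_zero {Ψ : Ins} (h : ∀ r (O : Fin r → Xo), chgO O true ≤ n → chgO O false ≤ n' →
    ∫ x, gK (gF Z P O) (η r O) (η' r O) (n - chgO O true) (n' - chgO O false) x *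
      Ψ r O (n - chgO O true) (n' - chgO O false) x = 0) : FF Z P n n' η η' Ψ = 0 := by
  unfold FF
  refine Finset.sum_eq_zero fun r _ => ?_
  have e : ∀ O : Fin r → Xo, trm Z P n n' η η' Ψ r O = 0 := by
    intro O
    unfold trm
    split_ifs with hc
    · rw [h r O hc.1 hc.2, mul_zero, mul_zero]
    · rfl
  simp only [e, integral_zero, mul_zero]

/-- log derivatives of the one body functions, bounded in the strip -/
structure LogD (Z : Bool → Option O3 → ℂ → ℂ) (P : NUO.Par) (δ : ℝ) (LZ : Bool → ℂ → ℂ)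
    (LP : (r : ℕ) → (Fin r → Xo) → Bool → ℂ → ℂ) : Prop where
  dZ : ∀ s (z : ℂ), z.re ∈ Ks δ → HasDerivAt (Z s none) (LZ s z * Z s none z) z
  mZ : ∀ s, Measurable (LZ s)
  bZ : ∃ B, ∀ s (z : ℂ), z.re ∈ Ks δ → ‖LZ s z‖ ≤ B
  dP : ∀ r (O : Fin r → Xo) s (z : ℂ), z.re ∈ Ks δ →
    HasDerivAt (potC P O s) (LP r O s z * potC P O s z) z
  mP : ∀ r (O : Fin r → Xo) s, Measurable (LP r O s)
  bP : ∀ r (O : Fin r → Xo), ∃ B, ∀ s (z : ℂ), z.re ∈ Ks δ → ‖LP r O s z‖ ≤ B

/-- the total log derivative -/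
def LT (LZ : Bool → ℂ → ℂ) (LP : (r : ℕ) → (Fin r → Xo) → Bool → ℂ → ℂ) :
    (r : ℕ) → (Fin r → Xo) → Bool → ℂ → ℂ := fun r O s z => LZ s z + LP r O s z

/-- **the Ward identity for the functional** -/
theorem ward_FF {δ κ : ℝ} {Q : ℤ} (hQ : QOk Z δ κ Q) (hP : GoodP P) (hδ0 : 0 ≤ δ)
    (hδ : δ ≤ 1 / 20) (hj : P.jL + δ < 3) (hc : ∀ r O, CrvR δ (η r O) (η' r O))
    (hn : (n : ℤ) - n' = Q) {LZ : Bool → ℂ → ℂ} {LP : (r : ℕ) → (Fin r → Xo) → Bool → ℂ → ℂ}
    (hL : LogD Z P δ LZ LP) {X X1 : Flds} (hX : FldD X X1) {Ψ : Ins} {dΨ : DIns}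
    (hΨ : InsD η' Ψ dΨ) : FF Z P n n' η η' (Wd η η' X X1 (LT LZ LP) Ψ dΨ) = 0 := by
  have hl := Bd.l_pos
  refine FF_zero fun r O h1 h2 => ?_
  have C := fun s => ((hc r O).cv hδ0 s).crv hδ0
  have e1 : (((sg true * Q : ℤ)) : ℝ) = Q := by simp [sg]
  have e2 : (((sg false * Q : ℤ)) : ℝ) = -(Q : ℝ) := by simp [sg]
  have hreg := reg_pot hP hδ hj O (hQ.m true) (hQ.m false) (hQ.d true) (hQ.d false)
    ((hQ.b true).rate (by rw [e1])) ((hQ.b false).rate (by rw [e2]; ring))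
    (a := n - chgO O true) (b := n' - chgO O false) (Q := Q) (κ := κ) (by omega)
  obtain ⟨B1, hB1⟩ := hL.bZ
  obtain ⟨B2, hB2⟩ := hL.bP r O
  obtain ⟨B3, hB3⟩ := hX.bd r O
  obtain ⟨B4, hB4, hB4'⟩ := hΨ.bd r O (n - chgO O true) (n' - chgO O false)
  have hm := fun s => NUO.pA_cv_mem (hc r O) hδ0 s
  have hG : ∀ s t, HasDerivAt (gF Z P O s) (LT LZ LP r O s (pA (Fil.cv s (η r O)) t) *
      gF Z P O s (pA (Fil.cv s (η r O)) t)) (pA (Fil.cv s (η r O)) t) := by
    intro s t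
    have h3 := (hL.dZ s _ (hm s t)).mul (hL.dP r O s _ (hm s t))
    have e : gF Z P O s = fun z => Z s none z * potC P O s z := by
      cases s <;> rfl
    rw [e]
    refine h3.congr_deriv ?_
    unfold LT
    ring
  exact ward_gK (κ := κ) hQ.kpos C (by nlinarith) hreg hG
    (fun s => (hL.mZ s).add (hL.mP r O s)) (B := max (B1 + B2) B3)
    (fun s t => (norm_add_le _ _).trans
      ((add_le_add (hB1 s _ (hm s t)) (hB2 s _ (hm s t))).trans (le_max_left _ _)))
    (hX.d r O) (hX.c r O) (fun s t => (hB3 s t).1.trans (le_max_right _ _))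
    (fun s t => (hB3 s t).2.trans (le_max_right _ _))
    (fun k t => hΨ.d r O _ _ k t) (hΨ.m r O _ _) (fun k => hΨ.md r O _ _ k) hB4 hB4'

/-! ### insertions -/

theorem InsD.const (η' : Crs) (c : ℂ) : InsD η' (fun _ _ _ _ _ => c) (fun _ _ _ _ _ _ => 0) where
  d r O a b k t := by
    rw [mul_zero]
    exact hasDerivAt_const _ _
  m _ _ _ _ := measurable_const
  md _ _ _ _ _ := measurable_const
  bd r O a b := ⟨‖c‖, fun _ => le_rfl, fun _ _ => by simp⟩

/-- the product of two insertions -/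
theorem InsD.mul {η' : Crs} {Ψ Φ : Ins} {dΨ dΦ : DIns} (h : InsD η' Ψ dΨ) (h' : InsD η' Φ dΦ) :
    InsD η' (fun r O a b x => Ψ r O a b x * Φ r O a b x)
      (fun r O a b k x => dΨ r O a b k x * Φ r O a b x + Ψ r O a b x * dΦ r O a b k x) where
  d r O a b k t := by
    have h1 := (h.d r O a b k t).mul (h'.d r O a b k t)
    refine h1.congr_deriv ?_
    simp only [Function.update_eq_self]
    ring
  m r O a b := (h.m r O a b).mul (h'.m r O a b)
  md r O a b k := ((h.md r O a b k).mul (h'.m r O a b)).add ((h.m r O a b).mul (h'.md r O a b k))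
  bd r O a b := by
    obtain ⟨B, h1, h2⟩ := h.bd r O a b
    obtain ⟨B', h3, h4⟩ := h'.bd r O a b
    have hB : 0 ≤ B := (norm_nonneg _).trans (h1 (0, 0))
    have hB' : 0 ≤ B' := (norm_nonneg _).trans (h3 (0, 0))
    refine ⟨B * B' + B * B', fun x => ?_, fun k x => ?_⟩
    · rw [norm_mul]
      have := mul_le_mul (h1 x) (h3 x) (norm_nonneg _) hB
      nlinarith [mul_nonneg hB hB']
    · refine (norm_add_le _ _).trans ?_
      rw [norm_mul, norm_mul]
      exact add_le_add (mul_le_mul (h2 k x) (h3 x) (norm_nonneg _) hB)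
        (mul_le_mul (h1 x) (h4 k x) (norm_nonneg _) hB)

/-- linear combination of two insertions -/
theorem InsD.add {η' : Crs} {Ψ Φ : Ins} {dΨ dΦ : DIns} (h : InsD η' Ψ dΨ) (h' : InsD η' Φ dΦ) :
    InsD η' (fun r O a b x => Ψ r O a b x + Φ r O a b x)
      (fun r O a b k x => dΨ r O a b k x + dΦ r O a b k x) where
  d r O a b k t := by
    refine ((h.d r O a b k t).add (h'.d r O a b k t)).congr_deriv ?_
    ring
  m r O a b := (h.m r O a b).add (h'.m r O a b)
  md r O a b k := (h.md r O a b k).add (h'.md r O a b k)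
  bd r O a b := by
    obtain ⟨B, h1, h2⟩ := h.bd r O a b
    obtain ⟨B', h3, h4⟩ := h'.bd r O a b
    exact ⟨B + B', fun x => (norm_add_le _ _).trans (add_le_add (h1 x) (h3 x)),
      fun k x => (norm_add_le _ _).trans (add_le_add (h2 k x) (h4 k x))⟩

/-- a function of the objects only -/
theorem InsD.obj (η' : Crs) (c : (r : ℕ) → (Fin r → Xo) → ℂ) :
    InsD η' (fun r O _ _ _ => c r O) (fun _ _ _ _ _ _ => 0) where
  d r O a b k t := by
    rw [mul_zero]
    exact hasDerivAt_const _ _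
  m _ _ _ _ := measurable_const
  md _ _ _ _ _ := measurable_const
  bd r O a b := ⟨‖c r O‖, fun _ => le_rfl, fun _ _ => by simp⟩

/-- sum over the quanta of a function on the curve -/
def Sm (f : Flds) : Ins := fun r O a b x => ∑ k, f r O (spQ a b k) (Sum.elim x.1 x.2 k)

/-- the derivatives of `Sm` -/
def dSm (f' : Flds) : DIns := fun r O a b k x => f' r O (spQ a b k) (Sum.elim x.1 x.2 k)

/-- functions on the curves with bounded derivative in the complex position -/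
structure FunD (η' : Crs) (f f' : Flds) : Prop where
  d : ∀ r O s t, HasDerivAt (f r O s) ((1 + dA (Fil.cv s (η' r O)) t) * f' r O s t) t
  md : ∀ r O s, Measurable (f' r O s)
  bd : ∀ r O, ∃ B, ∀ s t, ‖f r O s t‖ ≤ B ∧ ‖f' r O s t‖ ≤ B

theorem FunD.m {η' : Crs} {f f' : Flds} (h : FunD η' f f') (r : ℕ) (O : Fin r → Xo) (s : Bool) :
    Measurable (f r O s) :=
  (continuous_iff_continuousAt.2 fun t => (h.d r O s t).continuousAt).measurable

theorem elim_spl {a b : ℕ} (t : Fin a ⊕ Fin b → ℝ) (k : Fin a ⊕ Fin b) :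
    Sum.elim (spl t).1 (spl t).2 k = t k := by
  rcases k with k | k <;> rfl

theorem meas_elim {a b : ℕ} (k : Fin a ⊕ Fin b) :
    Measurable fun x : (Fin a → ℝ) × (Fin b → ℝ) => (Sum.elim x.1 x.2 k : ℝ) := by
  rcases k with k | k
  · exact (measurable_pi_apply k).comp measurable_fst
  · exact (measurable_pi_apply k).comp measurable_snd

theorem InsD.sm {η' : Crs} {f f' : Flds} (h : FunD η' f f') : InsD η' (Sm f) (dSm f') where
  d r O a b k t := by
    unfold Sm dSm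
    simp only [elim_spl]
    have h1 : ∀ i ∈ (Finset.univ : Finset (Fin a ⊕ Fin b)), HasDerivAt
        (fun s => f r O (spQ a b i) (Function.update t k s i))
        (if i = k then (1 + dA (Fil.cv (spQ a b k) (η' r O)) (t k)) *
          f' r O (spQ a b k) (t k) else 0) (t k) := by
      intro i _
      split_ifs with hik
      · subst hik
        simp only [Function.update_self]
        exact h.d r O _ _
      · simp only [Function.update_of_ne hik]
        exact hasDerivAt_const _ _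
    have h2 := HasDerivAt.fun_sum h1
    rw [Finset.sum_ite_eq' Finset.univ k, if_pos (Finset.mem_univ k)] at h2
    exact h2
  m r O a b := by
    unfold Sm
    exact Finset.measurable_fun_sum _ fun k _ => (h.m r O _).comp (meas_elim k)
  md r O a b k := (h.md r O _).comp (meas_elim k)
  bd r O a b := by
    obtain ⟨B, hB⟩ := h.bd r O
    have hB0 : 0 ≤ B := (norm_nonneg _).trans (hB true 0).1
    refine ⟨((a : ℝ) + b) * B + B, fun x => ?_, fun k x => ?_⟩
    · unfold Sm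
      refine (norm_sum_le _ _).trans ?_
      refine (Finset.sum_le_sum fun k _ => (hB _ _).1).trans ?_
      rw [Finset.sum_const, Finset.card_univ, Fintype.card_sum, Fintype.card_fin, Fintype.card_fin,
        nsmul_eq_mul]
      push_cast
      linarith
    · refine (hB _ _).2.trans ?_
      have : 0 ≤ ((a : ℝ) + b) * B := by positivity
      linarith

/-! ### statistics -/

/-- complex height of the curve -/
def zc (η : ℝ → ℝ) (t : ℝ) : ℂ := t + dA η t

theorem zc_re (η : ℝ → ℝ) (t : ℝ) : (zc η t).re = t := by unfold zc dA; simp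

theorem zc_im (η : ℝ → ℝ) (t : ℝ) : (zc η t).im = η t := by unfold zc dA; simp

theorem pA_zc (η : ℝ → ℝ) (t : ℝ) : pA η t = NUP1.l + I * zc η t := by
  rw [← pA_crv]
  unfold zc vl
  ring

/-- complex heights of the quanta -/
def zq (η : Crs) (r : ℕ) (O : Fin r → Xo) {a b : ℕ} (x : (Fin a → ℝ) × (Fin b → ℝ))
    (k : Fin a ⊕ Fin b) : ℂ := zc (Fil.cv (spQ a b k) (η r O)) (Sum.elim x.1 x.2 k)

/-- a function of the complex height on the curves -/
def XC (η : Crs) (X : Bool → ℂ → ℂ) : Flds := fun r O s t => X s (zc (Fil.cv s (η r O)) t)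

/-- its derivative along the curves -/
def X1C (η η' : Crs) (X : Bool → ℂ → ℂ) : Flds := fun r O s t =>
  (1 + dA (Fil.cv s (η' r O)) t) * deriv (X s) (zc (Fil.cv s (η r O)) t)

theorem hasDerivAt_zc {η η' : ℝ → ℝ} (h : ∀ t, HasDerivAt η (η' t) t) (t : ℝ) :
    HasDerivAt (zc η) (1 + dA η' t) t :=
  (Complex.ofRealCLM.hasDerivAt (x := t)).add ((h t).ofReal_comp.mul_const I)

section strip

variable {δ b1 : ℝ} {η η' : Crs} {X : Bool → ℂ → ℂ}

theorem zc_strip {η η' : ℝ → ℝ} (hc : CrvR δ η η') (hδ : δ ≤ 1 / 20) (t : ℝ) :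
    |(zc η t).im| ≤ NUP1.l / 20 := by
  have hl := Bd.l_pos
  rw [zc_im, abs_le]
  have h0 := hc.h0 t
  have h1 := hc.h1 t
  constructor
  · nlinarith
  · exact h1

theorem zc_strip_cv {η η' : ℝ → ℝ} (hc : CrvR δ η η') (hδ : δ ≤ 1 / 20) (s : Bool) (t : ℝ) :
    |(zc (Fil.cv s η) t).im| ≤ NUP1.l / 20 := by
  have h1 := zc_strip hc hδ t
  rw [zc_im] at h1 ⊢
  exact Fil.abs_cv_le_of h1

theorem XC_d (hc : ∀ r O, CrvR δ (η r O) (η' r O)) (hδ : δ ≤ 1 / 20) (hb : NUP1.l / 20 < b1)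
    (hX : PB.FldF b1 X) (r : ℕ) (O : Fin r → Xo) (s : Bool) (t : ℝ) :
    HasDerivAt (XC η X r O s) (X1C η η' X r O s t) t := by
  have hz : |(zc (Fil.cv s (η r O)) t).im| < b1 := (zc_strip_cv (hc r O) hδ s t).trans_lt hb
  have h1 := (hX.d s _ hz).hasDerivAt.scomp t
    (hasDerivAt_zc (fun t => Fil.hasDerivAt_cv s ((hc r O).hd t)) t)
  exact h1

theorem deriv_bd (hb : NUP1.l / 20 < b1) (hX : PB.FldF b1 X) :
    ∃ B : ℝ, 0 ≤ B ∧ ∀ s (z : ℂ), |z.im| ≤ NUP1.l / 20 → ‖X s z‖ ≤ B ∧ ‖deriv (X s) z‖ ≤ B := by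
  have hl := Bd.l_pos
  obtain ⟨B, hB, h1⟩ := hX.bd
  refine ⟨max B (B * Real.exp (0 * ((b1 - NUP1.l / 20) / 2)) / ((b1 - NUP1.l / 20) / 2)),
    le_max_of_le_left hB, fun s z hz => ⟨(h1 s z (hz.trans_lt hb)).trans (le_max_left _ _), ?_⟩⟩
  have h2 := PB.strip_deriv (f := X s) hb le_rfl hB (fun z hz => hX.d s z hz)
    (fun z hz => by rw [zero_mul, neg_zero, Real.exp_zero, mul_one]; exact h1 s z hz) hz
  rw [zero_mul (|z.re|), neg_zero, Real.exp_zero, mul_one] at h2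
  exact h2.trans (le_max_right _ _)

theorem cont_derivC (hc : ∀ r O, CrvR δ (η r O) (η' r O)) (hδ : δ ≤ 1 / 20)
    (hb : NUP1.l / 20 < b1) (hX : PB.FldF b1 X) (r : ℕ) (O : Fin r → Xo) (s : Bool) :
    Continuous fun t => deriv (X s) (zc (Fil.cv s (η r O)) t) := by
  have ho : IsOpen {w : ℂ | |w.im| < b1} := Pool.Agent.PB.strip_open b1
  have h1 : DifferentiableOn ℂ (X s) {w : ℂ | |w.im| < b1} :=
    fun z hz => (hX.d s z hz).differentiableWithinAt
  have h2 := (h1.deriv ho).continuousOn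
  refine h2.comp_continuous (continuous_iff_continuousAt.2 fun t =>
    (hasDerivAt_zc (fun t => Fil.hasDerivAt_cv s ((hc r O).hd t)) t).continuousAt) fun t => ?_
  exact (zc_strip_cv (hc r O) hδ s t).trans_lt hb

theorem funD_of (hc : ∀ r O, CrvR δ (η r O) (η' r O)) (hδ : δ ≤ 1 / 20)
    (hb : NUP1.l / 20 < b1) (hX : PB.FldF b1 X) :
    FunD η' (XC η X) (XC η fun s => deriv (X s)) where
  d := XC_d hc hδ hb hX
  md r O s := (cont_derivC hc hδ hb hX r O s).measurable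
  bd r O := by
    obtain ⟨B, -, h⟩ := deriv_bd hb hX
    exact ⟨B, fun s t => h s _ (zc_strip_cv (hc r O) hδ s t)⟩

theorem fldD_of (hc : ∀ r O, CrvR δ (η r O) (η' r O)) (hδ : δ ≤ 1 / 20)
    (hb : NUP1.l / 20 < b1) (hX : PB.FldF b1 X) : FldD (XC η X) (X1C η η' X) where
  d := XC_d hc hδ hb hX
  c r O s := by
    refine Continuous.mul (continuous_const.add ?_) (cont_derivC hc hδ hb hX r O s)
    unfold dA
    exact (continuous_ofReal.comp (Fil.continuous_cv s (hc r O).hc)).mul continuous_const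
  bd r O := by
    obtain ⟨B, hB, h⟩ := deriv_bd hb hX
    obtain ⟨B', hB'⟩ := (hc r O).hb
    have hB'0 : 0 ≤ B' := (abs_nonneg _).trans (hB' 0)
    refine ⟨B + (1 + B') * B, fun s t => ⟨?_, ?_⟩⟩
    · refine ((h s _ (zc_strip_cv (hc r O) hδ s t)).1).trans ?_
      have : 0 ≤ (1 + B') * B := by positivity
      linarith
    · unfold X1C
      rw [norm_mul]
      have h1 : ‖1 + dA (Fil.cv s (η' r O)) t‖ ≤ 1 + B' := by
        refine (norm_add_le _ _).trans ?_
        unfold dA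
        rw [norm_mul, norm_I, mul_one, Complex.norm_real, Real.norm_eq_abs, norm_one]
        have := Fil.abs_cv_le_of (a := s) (hB' t)
        linarith
      have h2 := (h s _ (zc_strip_cv (hc r O) hδ s t)).2
      have h3 := mul_le_mul h1 h2 (norm_nonneg _) (by linarith : (0 : ℝ) ≤ 1 + B')
      linarith

theorem J_ne (η' : ℝ → ℝ) (t : ℝ) : (1 : ℂ) + dA η' t ≠ 0 := by
  intro h
  have h2 : (1 + dA η' t).re = 1 := by unfold dA; simp
  rw [h] at h2
  simp at h2

/-- the kernel on the curve is the kernel at complex points -/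
theorem aF_aC (hc : ∀ r O, CrvR δ (η r O) (η' r O)) (hδ : δ ≤ 1 / 20)
    (hb : NUP1.l / 20 < b1) (hX : PB.FldF b1 X) (r : ℕ) (O : Fin r → Xo) (b c : Bool) (s u : ℝ) :
    PLC.aF2 (fun s => dA (Fil.cv s (η r O))) (fun s => dA (Fil.cv s (η' r O))) (XC η X r O)
      (X1C η η' X r O) b c s u =
      PB.aC X b c (zc (Fil.cv b (η r O)) s) (zc (Fil.cv c (η r O)) u) := by
  have hl := Bd.l_pos
  by_cases hbc : b = c
  · subst hbc
    by_cases hsu : s = u
    · subst hsu
      rw [PLC.aF2_diag, PB.aC_diag]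
      unfold X1C
      have := J_ne (Fil.cv b (η' r O)) s
      field_simp
    · have hD : ∀ x, HasDerivAt (dA (Fil.cv b (η r O))) (dA (Fil.cv b (η' r O)) x) x :=
        fun x => (Fil.hasDerivAt_cv b ((hc r O).hd x)).ofReal_comp.mul_const I
      have hcD : Continuous (dA (Fil.cv b (η' r O))) := by
        unfold dA
        exact (continuous_ofReal.comp (Fil.continuous_cv b (hc r O).hc)).mul continuous_const
      have hne : zc (Fil.cv b (η r O)) s ≠ zc (Fil.cv b (η r O)) u := by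
        intro h
        have := congrArg Complex.re h
        rw [zc_re, zc_re] at this
        exact hsu this
      have him : |(zc (Fil.cv b (η r O)) s - zc (Fil.cv b (η r O)) u).im| < NUP1.l := by
        rw [Complex.sub_im]
        have h1 := zc_strip_cv (hc r O) hδ b s
        have h2 := zc_strip_cv (hc r O) hδ b u
        have h3 := abs_sub (zc (Fil.cv b (η r O)) s).im (zc (Fil.cv b (η r O)) u).im
        linarith
      rw [PB.aC_ne X b b him hne]
      unfold PLC.aF2 PB.kb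
      rw [if_pos rfl, if_pos rfl, PBK.qw_eq hD hcD (XC_d hc hδ hb hX r O b)
        ((fldD_of hc hδ hb hX).c r O b) hsu]
      rfl
  · rw [PB.aC_off X hbc]
    unfold PLC.aF2
    rw [if_neg hbc, PBK.qg_eq]
    rfl

end strip

theorem tourn_er (ι : Type*) [Fintype ι] : PB.Tourn (er ι) :=
  ⟨(tour_er ι).irr, fun i j h => (tour_er ι).tot i j h⟩

/-- the linear statistic of a test function of the complex height, the sea on the real line -/
def Vst (η : Crs) (ρ : ℂ → ℂ) (g : Bool → ℂ → ℂ) : Ins := fun r O a b x =>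
  PB.NX.nuL PB.eR (spQ a b) (PB.rS2 ρ) g (zq η r O x)

/-- the quadratic statistic of a field -/
def Qst (η : Crs) (ρ : ℂ → ℂ) (X : Bool → ℂ → ℂ) : Ins := fun r O a b x =>
  PB.NX.nuQ PB.eR (spQ a b) (PB.rS2 ρ) (PB.aC X) (zq η r O x)

/-- sum over the quanta of a function of the objects and of the complex height -/
def Sst (η : Crs) (f : (r : ℕ) → (Fin r → Xo) → Bool → ℂ → ℂ) : Ins := fun r O a b x =>
  ∑ k, f r O (spQ a b k) (zq η r O x k)

/-- the force without the row force, as a function of the complex height -/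
def lamF (ρ : ℂ → ℂ) (L : (r : ℕ) → (Fin r → Xo) → Bool → ℂ → ℂ) :
    (r : ℕ) → (Fin r → Xo) → Bool → ℂ → ℂ := fun r O s z =>
  I * L r O s (NUP1.l + I * z) - PB.kp2 ρ s z

/-- **the algebra of the Ward identity** -/
theorem WS_eq {δ b1 : ℝ} {η η' : Crs} (hc : ∀ r O, CrvR δ (η r O) (η' r O)) (hδ : δ ≤ 1 / 20)
    (hb : NUP1.l / 20 < b1) (hb' : 2 * b1 ≤ NUP1.l) {ρ : ℂ → ℂ} (hρ : PB.SeaF b1 ρ)
    {X : Bool → ℂ → ℂ} (hX : PB.FldF b1 X)
    (L : (r : ℕ) → (Fin r → Xo) → Bool → ℂ → ℂ) (r : ℕ) (O : Fin r → Xo) (a b : ℕ)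
    (x : (Fin a → ℝ) × (Fin b → ℝ)) :
    WS η η' (XC η X) (X1C η η' X) L r O a b x =
      -Vst η ρ (PB.rsp (PB.mulF2 ρ X)) r O a b x + Qst η ρ X r O a b x +
      Sst η (fun r O s z => X s z * lamF ρ L r O s z) r O a b x := by
  classical
  have hl := Bd.l_pos
  have key := PB.alg_h2 (tourn_er (Fin a ⊕ Fin b)) hρ hX (by linarith) hb' (spQ a b)
    (lam := lamF ρ L r O) (zq η r O x)
    (fun k => (zc_strip_cv (hc r O) hδ _ _).trans_lt hb)
  unfold Vst Qst Sst
  rw [← key]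
  show wdS (η r O) (η' r O) (XC η X r O) (X1C η η' X r O) (L r O) a b x = _
  unfold wdS
  congr 1
  · refine Finset.sum_congr rfl fun k _ => ?_
    unfold X1C XC lamF zq
    rw [pA_zc]
    have := J_ne (Fil.cv (spQ a b k) (η' r O)) (Sum.elim x.1 x.2 k)
    field_simp
    ring
  · refine Finset.sum_congr rfl fun p _ => ?_
    exact aF_aC hc hδ hb hX r O _ _ _ _

/-- the statistic of a test function is a differentiable insertion -/
theorem InsD.vst {δ b1 : ℝ} {η η' : Crs} (hc : ∀ r O, CrvR δ (η r O) (η' r O)) (hδ : δ ≤ 1 / 20)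
    (hb : NUP1.l / 20 < b1) (ρ : ℂ → ℂ) {g : Bool → ℂ → ℂ} (hg : PB.FldF b1 g) :
    InsD η' (Vst η ρ g) (dSm (XC η fun s => deriv (g s))) := by
  have h1 := (InsD.sm (funD_of hc hδ hb hg)).add
    (InsD.obj η' fun _ _ => -∑ s, ∫ u, PB.rS2 ρ s u * g s (PB.eR u))
  have e1 : (fun (r : ℕ) (O : Fin r → Xo) (a b : ℕ) (x : (Fin a → ℝ) × (Fin b → ℝ)) =>
      Sm (XC η g) r O a b x + -∑ s, ∫ u, PB.rS2 ρ s u * g s (PB.eR u)) = Vst η ρ g := by
    funext r O a b x
    unfold Vst PB.NX.nuL Sm XC zq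
    rw [sub_eq_add_neg]
  have e2 : (fun (r : ℕ) (O : Fin r → Xo) (a b : ℕ) (k : Fin a ⊕ Fin b)
      (x : (Fin a → ℝ) × (Fin b → ℝ)) => dSm (XC η fun s => deriv (g s)) r O a b k x + 0) =
      dSm (XC η fun s => deriv (g s)) := by
    funext r O a b k x
    rw [add_zero]
  rw [e1, e2] at h1
  exact h1

/-- **the second Ward identity for the functional, general insertion** -/
theorem ward_V {δ κ b1 : ℝ} {Q : ℤ} (hQ : QOk Z δ κ Q) (hP : GoodP P) (hδ0 : 0 ≤ δ)
    (hδ : δ ≤ 1 / 20) (hj : P.jL + δ < 3) (hc : ∀ r O, CrvR δ (η r O) (η' r O))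
    (hn : (n : ℤ) - n' = Q) {LZ : Bool → ℂ → ℂ} {LP : (r : ℕ) → (Fin r → Xo) → Bool → ℂ → ℂ}
    (hL : LogD Z P δ LZ LP) (hb : NUP1.l / 20 < b1) (hb' : 2 * b1 ≤ NUP1.l) {ρ : ℂ → ℂ}
    (hρ : PB.SeaF b1 ρ) {X : Bool → ℂ → ℂ} (hX : PB.FldF b1 X) {Ψ : Ins} {dΨ : DIns}
    (hΨ : InsD η' Ψ dΨ) :
    FF Z P n n' η η' (fun r O a b x =>
      (-Vst η ρ (PB.rsp (PB.mulF2 ρ X)) r O a b x + Qst η ρ X r O a b x +
        Sst η (fun r O s z => X s z * lamF ρ (LT LZ LP) r O s z) r O a b x) * Ψ r O a b x +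
      DX (XC η X) dΨ r O a b x) = 0 := by
  rw [← ward_FF hQ hP hδ0 hδ hj hc hn hL (fldD_of hc hδ hb hX) hΨ]
  congr 1
  funext r O a b x
  unfold Wd
  rw [WS_eq hc hδ hb hb' hρ hX]

/-- the derivative of the statistic of `h` along the field is the sum of `X h'` -/
theorem DX_vst (η : Crs) (X h : Bool → ℂ → ℂ) (r : ℕ) (O : Fin r → Xo) (a b : ℕ)
    (x : (Fin a → ℝ) × (Fin b → ℝ)) :
    DX (XC η X) (dSm (XC η fun s => deriv (h s))) r O a b x =
      Sst η (fun _ _ s z => X s z * deriv (h s) z) r O a b x := rfl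

/-- a sum over the quanta is the mass plus the statistic -/
theorem Sst_eq (η : Crs) (ρ : ℂ → ℂ) (f : Bool → ℂ → ℂ) (r : ℕ) (O : Fin r → Xo) (a b : ℕ)
    (x : (Fin a → ℝ) × (Fin b → ℝ)) :
    Sst η (fun _ _ => f) r O a b x =
      (∑ s, ∫ u : ℝ, (Fil.b s : ℂ) * ρ u * f s u) + Vst η ρ f r O a b x := by
  unfold Vst PB.NX.nuL Sst PB.rS2 PB.eR
  ring

end PBF.PLX

end
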