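import Pool.Agent.PLX.Ns
import Pool.Agent.PLX.PB.WardFF

/-!
# The second Ward identity for the functional, the sea on a horizontal line (plan B, I2 and TR)

The same as `ward_V` of `PB/WardFF` with fields, sea and test functions given in the shifted complex
height `w = z - i y₀`: the curves of both species must satisfy `|cv s η - y₀| ≤ b₀ < b₁`,
`2 b₁ ≤ l` (`InS`; `InS.of` for `y₀ = 0`).

* `Vy`, `Qy`, `Sy`, `lamY`; `InsD.vy`; **`ward_Vy`**; `Sy_eq`, `DX_vy`.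
-/

set_option autoImplicit false
set_option linter.unusedSectionVars false

noncomputable section

open Complex MeasureTheory Finset
open scoped ENNReal

open PLX (Fil)

namespace PBF.PLX

open NUO NUP1 NUCR NUP1S NUP1S.Ab NUP1S.AbC NUGC NUGC.PLX

/-- shifted complex height of the curve -/
def zy (y0 : ℝ) (η : ℝ → ℝ) (t : ℝ) : ℂ := zc η t - I * y0

variable [Fil]

theorem zy_re (y0 : ℝ) (η : ℝ → ℝ) (t : ℝ) : (zy y0 η t).re = t := by
  unfold zy
  rw [Complex.sub_re, zc_re]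
  simp

theorem zy_im (y0 : ℝ) (η : ℝ → ℝ) (t : ℝ) : (zy y0 η t).im = η t - y0 := by
  unfold zy
  rw [Complex.sub_im, zc_im]
  simp

theorem pA_zy (y0 : ℝ) (η : ℝ → ℝ) (t : ℝ) : pA η t = NUP1.l + I * (zy y0 η t + I * y0) := by
  rw [pA_zc]
  unfold zy
  ring

/-- shifted complex heights of the quanta -/
def zqy (y0 : ℝ) (η : Crs) (r : ℕ) (O : Fin r → Xo) {a b : ℕ}
    (x : (Fin a → ℝ) × (Fin b → ℝ)) (k : Fin a ⊕ Fin b) : ℂ :=
  zy y0 (Fil.cv (spQ a b k) (η r O)) (Sum.elim x.1 x.2 k)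

/-- a function of the shifted height on the curves -/
def XCy (y0 : ℝ) (η : Crs) (X : Bool → ℂ → ℂ) : Flds := fun r O s t =>
  X s (zy y0 (Fil.cv s (η r O)) t)

/-- its derivative along the curves -/
def X1Cy (y0 : ℝ) (η η' : Crs) (X : Bool → ℂ → ℂ) : Flds := fun r O s t =>
  (1 + dA (Fil.cv s (η' r O)) t) * deriv (X s) (zy y0 (Fil.cv s (η r O)) t)

/-- the curves of both species are in the strip `|Im w| ≤ b₀` -/
def InS (y0 b0 : ℝ) (η : Crs) : Prop :=
  ∀ r (O : Fin r → Xo) (s : Bool) t, |Fil.cv s (η r O) t - y0| ≤ b0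

theorem InS.of {b0 : ℝ} {η : Crs} (h : ∀ r (O : Fin r → Xo) t, |η r O t| ≤ b0) :
    InS 0 b0 η := fun r O s t => by
  rw [sub_zero]
  exact Fil.abs_cv_le_of (h r O t)

section strip

variable {δ y0 b0 b1 : ℝ} {η η' : Crs} {X : Bool → ℂ → ℂ}

theorem hasDerivAt_zy {η η' : ℝ → ℝ} (h : ∀ t, HasDerivAt η (η' t) t) (t : ℝ) :
    HasDerivAt (zy y0 η) (1 + dA η' t) t := (hasDerivAt_zc h t).sub_const _

theorem zy_strip (hs : InS y0 b0 η) (r : ℕ) (O : Fin r → Xo) (s : Bool) (t : ℝ) :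
    |(zy y0 (Fil.cv s (η r O)) t).im| ≤ b0 := by
  rw [zy_im]
  exact hs r O s t

theorem XCy_d (hc : ∀ r O, CrvR δ (η r O) (η' r O)) (hs : InS y0 b0 η) (hb : b0 < b1)
    (hX : PB.FldF b1 X) (r : ℕ) (O : Fin r → Xo) (s : Bool) (t : ℝ) :
    HasDerivAt (XCy y0 η X r O s) (X1Cy y0 η η' X r O s t) t := by
  have hz : |(zy y0 (Fil.cv s (η r O)) t).im| < b1 := (zy_strip hs r O s t).trans_lt hb
  have h1 := (hX.d s _ hz).hasDerivAt.scomp t
    (hasDerivAt_zy (fun t => Fil.hasDerivAt_cv s ((hc r O).hd t)) t)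
  exact h1

theorem deriv_bdy (hb : b0 < b1) (hX : PB.FldF b1 X) :
    ∃ B : ℝ, 0 ≤ B ∧ ∀ s (z : ℂ), |z.im| ≤ b0 → ‖X s z‖ ≤ B ∧ ‖deriv (X s) z‖ ≤ B := by
  obtain ⟨B, hB, h1⟩ := hX.bd
  refine ⟨max B (B * Real.exp (0 * ((b1 - b0) / 2)) / ((b1 - b0) / 2)),
    le_max_of_le_left hB, fun s z hz => ⟨(h1 s z (hz.trans_lt hb)).trans (le_max_left _ _), ?_⟩⟩
  have h2 := PB.strip_deriv (f := X s) hb le_rfl hB (fun z hz => hX.d s z hz)
    (fun z hz => by rw [zero_mul, neg_zero, Real.exp_zero, mul_one]; exact h1 s z hz) hz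
  rw [zero_mul (|z.re|), neg_zero, Real.exp_zero, mul_one] at h2
  exact h2.trans (le_max_right _ _)

theorem cont_derivCy (hc : ∀ r O, CrvR δ (η r O) (η' r O)) (hs : InS y0 b0 η) (hb : b0 < b1)
    (hX : PB.FldF b1 X) (r : ℕ) (O : Fin r → Xo) (s : Bool) :
    Continuous fun t => deriv (X s) (zy y0 (Fil.cv s (η r O)) t) := by
  have ho : IsOpen {w : ℂ | |w.im| < b1} := Pool.Agent.PB.strip_open b1
  have h1 : DifferentiableOn ℂ (X s) {w : ℂ | |w.im| < b1} :=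
    fun z hz => (hX.d s z hz).differentiableWithinAt
  have h2 := (h1.deriv ho).continuousOn
  refine h2.comp_continuous (continuous_iff_continuousAt.2 fun t =>
    (hasDerivAt_zy (fun t => Fil.hasDerivAt_cv s ((hc r O).hd t)) t).continuousAt) fun t => ?_
  exact (zy_strip hs r O s t).trans_lt hb

theorem funDy_of (hc : ∀ r O, CrvR δ (η r O) (η' r O)) (hs : InS y0 b0 η) (hb : b0 < b1)
    (hX : PB.FldF b1 X) : FunD η' (XCy y0 η X) (XCy y0 η fun s => deriv (X s)) where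
  d := XCy_d hc hs hb hX
  md r O s := (cont_derivCy hc hs hb hX r O s).measurable
  bd r O := by
    obtain ⟨B, -, h⟩ := deriv_bdy hb hX
    exact ⟨B, fun s t => h s _ (zy_strip hs r O s t)⟩

theorem fldDy_of (hc : ∀ r O, CrvR δ (η r O) (η' r O)) (hs : InS y0 b0 η) (hb : b0 < b1)
    (hX : PB.FldF b1 X) : FldD (XCy y0 η X) (X1Cy y0 η η' X) where
  d := XCy_d hc hs hb hX
  c r O s := by
    refine Continuous.mul (continuous_const.add ?_) (cont_derivCy hc hs hb hX r O s)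
    unfold dA
    exact (continuous_ofReal.comp (Fil.continuous_cv s (hc r O).hc)).mul continuous_const
  bd r O := by
    obtain ⟨B, hB, h⟩ := deriv_bdy hb hX
    obtain ⟨B', hB'⟩ := (hc r O).hb
    have hB'0 : 0 ≤ B' := (abs_nonneg _).trans (hB' 0)
    refine ⟨B + (1 + B') * B, fun s t => ⟨?_, ?_⟩⟩
    · refine ((h s _ (zy_strip hs r O s t)).1).trans ?_
      have : 0 ≤ (1 + B') * B := by positivity
      linarith
    · unfold X1Cy
      rw [norm_mul]
      have h1 : ‖1 + dA (Fil.cv s (η' r O)) t‖ ≤ 1 + B' := by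
        refine (norm_add_le _ _).trans ?_
        unfold dA
        rw [norm_mul, norm_I, mul_one, Complex.norm_real, Real.norm_eq_abs, norm_one]
        have := Fil.abs_cv_le_of (a := s) (hB' t)
        linarith
      have h2 := (h s _ (zy_strip hs r O s t)).2
      have h3 := mul_le_mul h1 h2 (norm_nonneg _) (by linarith : (0 : ℝ) ≤ 1 + B')
      linarith

/-- the kernel on the curve is the kernel at complex points -/
theorem aF_aCy (hc : ∀ r O, CrvR δ (η r O) (η' r O)) (hs : InS y0 b0 η) (hb : b0 < b1)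
    (hb' : 2 * b1 ≤ NUP1.l) (hX : PB.FldF b1 X) (r : ℕ) (O : Fin r → Xo) (b c : Bool)
    (s u : ℝ) :
    PLC.aF2 (fun s => dA (Fil.cv s (η r O))) (fun s => dA (Fil.cv s (η' r O)))
      (XCy y0 η X r O) (X1Cy y0 η η' X r O) b c s u =
      PB.aC X b c (zy y0 (Fil.cv b (η r O)) s) (zy y0 (Fil.cv c (η r O)) u) := by
  by_cases hbc : b = c
  · subst hbc
    by_cases hsu : s = u
    · subst hsu
      rw [PLC.aF2_diag, PB.aC_diag]
      unfold X1Cy
      have := J_ne (Fil.cv b (η' r O)) s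
      field_simp
    · have hD : ∀ x, HasDerivAt (dA (Fil.cv b (η r O))) (dA (Fil.cv b (η' r O)) x) x :=
        fun x => (Fil.hasDerivAt_cv b ((hc r O).hd x)).ofReal_comp.mul_const I
      have hcD : Continuous (dA (Fil.cv b (η' r O))) := by
        unfold dA
        exact (continuous_ofReal.comp (Fil.continuous_cv b (hc r O).hc)).mul continuous_const
      have hne : zy y0 (Fil.cv b (η r O)) s ≠ zy y0 (Fil.cv b (η r O)) u := by
        intro h
        have := congrArg Complex.re h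
        rw [zy_re, zy_re] at this
        exact hsu this
      have him : |(zy y0 (Fil.cv b (η r O)) s - zy y0 (Fil.cv b (η r O)) u).im| < NUP1.l := by
        rw [Complex.sub_im]
        have h1 := zy_strip hs r O b s
        have h2 := zy_strip hs r O b u
        have h3 := abs_sub (zy y0 (Fil.cv b (η r O)) s).im (zy y0 (Fil.cv b (η r O)) u).im
        linarith
      rw [PB.aC_ne X b b him hne]
      unfold PLC.aF2 PB.kb
      rw [if_pos rfl, if_pos rfl, PBK.qw_eq hD hcD (XCy_d hc hs hb hX r O b)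
        ((fldDy_of hc hs hb hX).c r O b) hsu]
      have e : ((s : ℂ) + dA (Fil.cv b (η r O)) s) - (u + dA (Fil.cv b (η r O)) u) =
          zy y0 (Fil.cv b (η r O)) s - zy y0 (Fil.cv b (η r O)) u := by
        unfold zy zc
        ring
      rw [e]
      rfl
  · rw [PB.aC_off X hbc]
    unfold PLC.aF2
    rw [if_neg hbc, PBK.qg_eq]
    have e : ((s : ℂ) + dA (Fil.cv b (η r O)) s) - (u + dA (Fil.cv c (η r O)) u) =
        zy y0 (Fil.cv b (η r O)) s - zy y0 (Fil.cv c (η r O)) u := by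
      unfold zy zc
      ring
    rw [e]
    rfl

end strip

/-- the linear statistic of a test function of the shifted height, the sea on the line -/
def Vy (y0 : ℝ) (η : Crs) (ρ : ℂ → ℂ) (g : Bool → ℂ → ℂ) : Ins := fun r O a b x =>
  PB.NX.nuL PB.eR (spQ a b) (PB.rS2 ρ) g (zqy y0 η r O x)

/-- the quadratic statistic of a field -/
def Qy (y0 : ℝ) (η : Crs) (ρ : ℂ → ℂ) (X : Bool → ℂ → ℂ) : Ins := fun r O a b x =>
  PB.NX.nuQ PB.eR (spQ a b) (PB.rS2 ρ) (PB.aC X) (zqy y0 η r O x)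

/-- sum over the quanta of a function of the objects and of the shifted height -/
def Sy (y0 : ℝ) (η : Crs) (f : (r : ℕ) → (Fin r → Xo) → Bool → ℂ → ℂ) : Ins :=
  fun r O a b x => ∑ k, f r O (spQ a b k) (zqy y0 η r O x k)

/-- the force without the row force, as a function of the shifted height -/
def lamY (y0 : ℝ) (ρ : ℂ → ℂ) (L : (r : ℕ) → (Fin r → Xo) → Bool → ℂ → ℂ) :
    (r : ℕ) → (Fin r → Xo) → Bool → ℂ → ℂ := fun r O s w =>
  I * L r O s (NUP1.l + I * (w + I * y0)) - PB.kp2 ρ s w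

/-- **the algebra of the Ward identity** -/
theorem WSy_eq {δ y0 b0 b1 : ℝ} {η η' : Crs} (hc : ∀ r O, CrvR δ (η r O) (η' r O))
    (hs : InS y0 b0 η) (hb0 : 0 < b1) (hb : b0 < b1) (hb' : 2 * b1 ≤ NUP1.l) {ρ : ℂ → ℂ}
    (hρ : PB.SeaF b1 ρ) {X : Bool → ℂ → ℂ} (hX : PB.FldF b1 X)
    (L : (r : ℕ) → (Fin r → Xo) → Bool → ℂ → ℂ) (r : ℕ) (O : Fin r → Xo) (a b : ℕ)
    (x : (Fin a → ℝ) × (Fin b → ℝ)) :
    WS η η' (XCy y0 η X) (X1Cy y0 η η' X) L r O a b x =
      -Vy y0 η ρ (PB.rsp (PB.mulF2 ρ X)) r O a b x + Qy y0 η ρ X r O a b x +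
      Sy y0 η (fun r O s z => X s z * lamY y0 ρ L r O s z) r O a b x := by
  classical
  have key := PB.alg_h2 (tourn_er (Fin a ⊕ Fin b)) hρ hX hb0 hb' (spQ a b)
    (lam := lamY y0 ρ L r O) (zqy y0 η r O x)
    (fun k => (zy_strip hs r O _ _).trans_lt hb)
  unfold Vy Qy Sy
  rw [← key]
  show wdS (η r O) (η' r O) (XCy y0 η X r O) (X1Cy y0 η η' X r O) (L r O) a b x = _
  unfold wdS
  congr 1
  · refine Finset.sum_congr rfl fun k _ => ?_
    unfold X1Cy XCy lamY zqy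
    rw [pA_zy y0]
    have := J_ne (Fil.cv (spQ a b k) (η' r O)) (Sum.elim x.1 x.2 k)
    field_simp
    ring
  · refine Finset.sum_congr rfl fun p _ => ?_
    exact aF_aCy hc hs hb hb' hX r O _ _ _ _

/-- the statistic of a test function is a differentiable insertion -/
theorem InsD.vy {δ y0 b0 b1 : ℝ} {η η' : Crs} (hc : ∀ r O, CrvR δ (η r O) (η' r O))
    (hs : InS y0 b0 η) (hb : b0 < b1) (ρ : ℂ → ℂ) {g : Bool → ℂ → ℂ} (hg : PB.FldF b1 g) :
    InsD η' (Vy y0 η ρ g) (dSm (XCy y0 η fun s => deriv (g s))) := by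
  have h1 := (InsD.sm (funDy_of hc hs hb hg)).add
    (InsD.obj η' fun _ _ => -∑ s, ∫ u, PB.rS2 ρ s u * g s (PB.eR u))
  have e1 : (fun (r : ℕ) (O : Fin r → Xo) (a b : ℕ) (x : (Fin a → ℝ) × (Fin b → ℝ)) =>
      Sm (XCy y0 η g) r O a b x + -∑ s, ∫ u, PB.rS2 ρ s u * g s (PB.eR u)) = Vy y0 η ρ g := by
    funext r O a b x
    unfold Vy PB.NX.nuL Sm XCy zqy
    rw [sub_eq_add_neg]
  have e2 : (fun (r : ℕ) (O : Fin r → Xo) (a b : ℕ) (k : Fin a ⊕ Fin b)
      (x : (Fin a → ℝ) × (Fin b → ℝ)) => dSm (XCy y0 η fun s => deriv (g s)) r O a b k x + 0) =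
      dSm (XCy y0 η fun s => deriv (g s)) := by
    funext r O a b k x
    rw [add_zero]
  rw [e1, e2] at h1
  exact h1

variable {Z : Bool → Option O3 → ℂ → ℂ} {P : NUO.Par} {n n' : ℕ} {η η' : Crs}

/-- **the second Ward identity for the functional, general insertion, the sea on the line
`Im z = y₀`** -/
theorem ward_Vy {δ κ y0 b0 b1 : ℝ} {Q : ℤ} (hQ : QOk Z δ κ Q) (hP : GoodP P) (hδ0 : 0 ≤ δ)
    (hδ : δ ≤ 1 / 20) (hj : P.jL + δ < 3) (hc : ∀ r O, CrvR δ (η r O) (η' r O))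
    (hn : (n : ℤ) - n' = Q) {LZ : Bool → ℂ → ℂ} {LP : (r : ℕ) → (Fin r → Xo) → Bool → ℂ → ℂ}
    (hL : LogD Z P δ LZ LP) (hs : InS y0 b0 η) (hb0 : 0 < b1) (hb : b0 < b1)
    (hb' : 2 * b1 ≤ NUP1.l) {ρ : ℂ → ℂ}
    (hρ : PB.SeaF b1 ρ) {X : Bool → ℂ → ℂ} (hX : PB.FldF b1 X) {Ψ : Ins} {dΨ : DIns}
    (hΨ : InsD η' Ψ dΨ) :
    FF Z P n n' η η' (fun r O a b x =>
      (-Vy y0 η ρ (PB.rsp (PB.mulF2 ρ X)) r O a b x + Qy y0 η ρ X r O a b x +
        Sy y0 η (fun r O s z => X s z * lamY y0 ρ (LT LZ LP) r O s z) r O a b x) *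
        Ψ r O a b x + DX (XCy y0 η X) dΨ r O a b x) = 0 := by
  rw [← ward_FF hQ hP hδ0 hδ hj hc hn hL (fldDy_of hc hs hb hX) hΨ]
  congr 1
  funext r O a b x
  unfold Wd
  rw [WSy_eq hc hs hb0 hb hb' hρ hX]

/-- the derivative of the statistic of `h` along the field is the sum of `X h'` -/
theorem DX_vy (y0 : ℝ) (η : Crs) (X h : Bool → ℂ → ℂ) (r : ℕ) (O : Fin r → Xo) (a b : ℕ)
    (x : (Fin a → ℝ) × (Fin b → ℝ)) :
    DX (XCy y0 η X) (dSm (XCy y0 η fun s => deriv (h s))) r O a b x =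
      Sy y0 η (fun _ _ s z => X s z * deriv (h s) z) r O a b x := rfl

/-- a sum over the quanta is the mass plus the statistic -/
theorem Sy_eq (y0 : ℝ) (η : Crs) (ρ : ℂ → ℂ) (f : Bool → ℂ → ℂ) (r : ℕ) (O : Fin r → Xo)
    (a b : ℕ) (x : (Fin a → ℝ) × (Fin b → ℝ)) :
    Sy y0 η (fun _ _ => f) r O a b x =
      (∑ s, ∫ u : ℝ, (Fil.b s : ℂ) * ρ u * f s u) + Vy y0 η ρ f r O a b x := by
  unfold Vy PB.NX.nuL Sy PB.rS2 PB.eR
  ring

end PBF.PLX

end
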