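import Pool.Agent.PLX.Ns
import Pool.Agent.PLX.PB.WardFy
import Pool.Agent.PLX.PB.Conf

/-!
# The second Ward identity as an identity of the functional `F (mN N) (wN ..)` (plan B, I2 and TR)

* measurability of the statistics: `meas_strip`, `meas_aC`, `MIn.vy`, `MIn.sy`, `MIn.qy`;
* `F_zero`: all inner integrals vanish;
* `FibN`: the data of all fibres; **`ward_N`**: for a differentiable insertion
  `F[V Ψ] = F[(Q + S) Ψ] + F[D_X Ψ]` for the functional summed over the numbers of quanta.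
-/

set_option autoImplicit false
set_option linter.unusedSectionVars false

noncomputable section

open Complex MeasureTheory Finset
open scoped ENNReal

open PLX (Fil)

namespace PBF.PLX

open NUO NUP1 NUCR NUP1S NUP1S.Ab NUP1S.AbC NUGC NUGC.PLX PBFunc PBFunc.PLX

/-! ### measurability -/

section meas

variable {Y : Type*} [MeasurableSpace Y]

/-- a function which is continuous on an open set, at points of this set -/
theorem meas_strip {S : Set ℂ} (hS : IsOpen S) {g : ℂ → ℂ} (hg : ContinuousOn g S) {φ : Y → ℂ}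
    (hφ : Measurable φ) (h : ∀ y, φ y ∈ S) : Measurable fun y => g (φ y) := by
  classical
  have h1 : Measurable (S.piecewise g fun _ => 0) :=
    hg.measurable_piecewise continuousOn_const hS.measurableSet
  have e : (fun y => g (φ y)) = fun y => (S.piecewise g fun _ => 0) (φ y) := by
    funext y
    rw [Set.piecewise_eq_of_mem _ _ _ (h y)]
  rw [e]
  exact h1.comp hφ

variable {b1 : ℝ} {φ ψ : Y → ℂ}

theorem meas_an {g : ℂ → ℂ} (hg : ∀ z : ℂ, |z.im| < b1 → DifferentiableAt ℂ g z)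
    (hφ : Measurable φ) (h : ∀ y, |(φ y).im| < b1) : Measurable fun y => g (φ y) :=
  meas_strip (Pool.Agent.PB.strip_open b1)
    (fun z hz => (hg z hz).continuousAt.continuousWithinAt) hφ h

theorem meas_der {g : ℂ → ℂ} (hg : ∀ z : ℂ, |z.im| < b1 → DifferentiableAt ℂ g z)
    (hφ : Measurable φ) (h : ∀ y, |(φ y).im| < b1) : Measurable fun y => deriv g (φ y) := by
  have ho : IsOpen {w : ℂ | |w.im| < b1} := Pool.Agent.PB.strip_open b1
  have h1 : DifferentiableOn ℂ g {w : ℂ | |w.im| < b1} :=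
    fun z hz => (hg z hz).differentiableWithinAt
  exact meas_strip ho (h1.deriv ho).continuousOn hφ h

theorem meas_psw : Measurable PB.psw := by
  have h1 : Measurable PB.dsh := by
    have : DifferentiableOn ℂ PB.dsh Set.univ :=
      (Complex.differentiableOn_dslope Filter.univ_mem).2
        Complex.differentiable_sinh.differentiableOn
    exact (continuousOn_univ.1 this.continuousOn).measurable
  unfold PB.psw
  fun_prop

theorem meas_Kgc : Measurable PBK.Kgc := by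
  unfold PBK.Kgc
  fun_prop

theorem meas_aC {X : Bool → ℂ → ℂ} (hX : PB.FldF b1 X) (b c : Bool) (hφ : Measurable φ)
    (hψ : Measurable ψ) (h1 : ∀ y, |(φ y).im| < b1) (h2 : ∀ y, |(ψ y).im| < b1) :
    Measurable fun y => PB.aC X b c (φ y) (ψ y) := by
  classical
  unfold PB.aC
  split_ifs with hbc
  · refine Measurable.mul ?_ (meas_psw.comp (hφ.sub hψ))
    have e : (fun y => dslope (X b) (φ y) (ψ y)) = fun y => if ψ y = φ y then
        deriv (X b) (φ y) else (ψ y - φ y)⁻¹ * (X b (ψ y) - X b (φ y)) := by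
      funext y
      split_ifs with h
      · rw [h, dslope_same]
      · rw [dslope_of_ne _ h, slope_def_field, div_eq_inv_mul]
    rw [e]
    refine Measurable.ite (measurableSet_eq_fun hψ hφ) (meas_der (hX.d b) hφ h1) ?_
    exact (hψ.sub hφ).inv.mul ((meas_an (hX.d b) hψ h2).sub (meas_an (hX.d b) hφ h1))
  · exact ((meas_an (hX.d b) hφ h1).sub (meas_an (hX.d c) hψ h2)).mul
      (meas_Kgc.comp (hφ.sub hψ))

variable [Fil]

theorem meas_smr {X : Bool → ℂ → ℂ} (hX : PB.FldF b1 X) (h0 : 0 < b1) {ρ : ℂ → ℂ}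
    (hρ : PB.SeaF b1 ρ) (b : Bool) (hφ : Measurable φ) (h1 : ∀ y, |(φ y).im| < b1) :
    Measurable fun y => PB.NX.smr PB.eR (PB.rS2 ρ) (PB.aC X) b (φ y) := by
  unfold PB.NX.smr
  refine Finset.measurable_fun_sum _ fun c _ => ?_
  have hm : Measurable fun p : Y × ℝ => PB.aC X b c (φ p.1) (PB.eR p.2) * PB.rS2 ρ c p.2 := by
    have e1 : Measurable fun p : Y × ℝ => (PB.eR p.2 : ℂ) :=
      Complex.measurable_ofReal.comp measurable_snd
    refine (meas_aC hX b c (hφ.comp measurable_fst) e1 (fun p => h1 _) fun p => ?_).mul ?_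
    · simp [PB.eR, h0]
    · exact (meas_an hρ.d e1 fun p => by
        have : (PB.eR p.2).im = 0 := Complex.ofReal_im _
        rw [this, abs_zero]
        exact h0).const_mul _
  exact (hm.stronglyMeasurable.integral_prod_right').measurable

theorem meas_cV {f : ℂ → ℂ} (hf : ∀ z : ℂ, |z.im| < b1 → DifferentiableAt ℂ f z)
    (hφ : Measurable φ) (h1 : ∀ y, |(φ y).im| < b1) :
    Measurable fun y => PB.cV (deriv f) (φ y) := by
  unfold PB.cV
  have hm : Measurable fun p : Y × ℝ => deriv f (φ p.1 - p.2) * (NUMF.V p.2 : ℂ) := by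
    refine (meas_der hf ?_ fun p => ?_).mul
      (Complex.measurable_ofReal.comp (Pool.Agent.PB.V_meas.comp measurable_snd))
    · exact (hφ.comp measurable_fst).sub (Complex.measurable_ofReal.comp measurable_snd)
    · simpa using h1 p.1
  exact (hm.stronglyMeasurable.integral_prod_right').measurable

theorem meas_cG {f : ℂ → ℂ} (hf : ∀ z : ℂ, |z.im| < b1 → DifferentiableAt ℂ f z)
    (hφ : Measurable φ) (h1 : ∀ y, |(φ y).im| < b1) :
    Measurable fun y => PB.cG f (φ y) := by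
  unfold PB.cG
  have hm : Measurable fun p : Y × ℝ => f (φ p.1 - p.2) * (Pool.Agent.PB.Kg p.2 : ℂ) := by
    refine (meas_an hf ?_ fun p => ?_).mul (PB.Kg_meas.comp measurable_snd)
    · exact (hφ.comp measurable_fst).sub (Complex.measurable_ofReal.comp measurable_snd)
    · simpa using h1 p.1
  exact (hm.stronglyMeasurable.integral_prod_right').measurable

theorem meas_kp2 {f : ℂ → ℂ} (hf : ∀ z : ℂ, |z.im| < b1 → DifferentiableAt ℂ f z)
    (hφ : Measurable φ) (h1 : ∀ y, |(φ y).im| < b1) (s : Bool) :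
    Measurable fun y => PB.kp2 f s (φ y) := by
  unfold PB.kp2
  exact ((meas_cV hf hφ h1).const_mul _).add ((meas_cG hf hφ h1).const_mul _)

end meas

section MIns

variable [Fil]

variable {y0 b0 b1 : ℝ} {η η' : Crs}

theorem meas_zy (hm : MCr η η') (y0 : ℝ) (r : ℕ) (s : Bool) :
    Measurable fun p : (Fin r → Xo) × ℝ => zy y0 (Fil.cv s (η r p.1)) p.2 := by
  unfold zy zc dA
  have hv : Measurable fun p : (Fin r → Xo) × ℝ => Fil.cv s (η r p.1) p.2 :=
    Fil.measurable_cv_uncurry s (hm.m r)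
  exact ((Complex.measurable_ofReal.comp measurable_snd).add
    ((Complex.measurable_ofReal.comp hv).mul measurable_const)).sub measurable_const

theorem meas_zqy (hm : MCr η η') (y0 : ℝ) (r : ℕ) {a b : ℕ} (k : Fin a ⊕ Fin b) :
    Measurable fun p : (Fin r → Xo) × ((Fin a → ℝ) × (Fin b → ℝ)) => zqy y0 η r p.1 p.2 k :=
  (meas_zy hm y0 r (spQ a b k)).comp
    (measurable_fst.prodMk ((meas_elim k).comp measurable_snd))

/-- sums over the quanta -/
theorem MIn.sy {f : (r : ℕ) → (Fin r → Xo) → Bool → ℂ → ℂ}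
    (hf : ∀ r s, Measurable fun p : (Fin r → Xo) × ℝ =>
      f r p.1 s (zy y0 (Fil.cv s (η r p.1)) p.2)) :
    MIn (Sy y0 η f) := by
  intro r a b
  unfold Sy
  refine Finset.measurable_fun_sum _ fun k _ => ?_
  exact (hf r (spQ a b k)).comp (measurable_fst.prodMk ((meas_elim k).comp measurable_snd))

theorem MIn.neg' {Ψ : Ins} (h : MIn Ψ) : MIn fun r O a b x => -Ψ r O a b x :=
  fun r a b => (h r a b).neg

theorem MIn.add' {Ψ Φ : Ins} (h : MIn Ψ) (h' : MIn Φ) :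
    MIn fun r O a b x => Ψ r O a b x + Φ r O a b x := fun r a b => (h r a b).add (h' r a b)

theorem MIn.mul' {Ψ Φ : Ins} (h : MIn Ψ) (h' : MIn Φ) :
    MIn fun r O a b x => Ψ r O a b x * Φ r O a b x := fun r a b => (h r a b).mul (h' r a b)

/-- the linear statistic -/
theorem MIn.vy (hm : MCr η η') (hs : InS y0 b0 η) (hb : b0 < b1) (ρ : ℂ → ℂ)
    {g : Bool → ℂ → ℂ} (hg : ∀ s (z : ℂ), |z.im| < b1 → DifferentiableAt ℂ (g s) z) :
    MIn (Vy y0 η ρ g) := by
  intro r a b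
  unfold Vy PB.NX.nuL
  refine Measurable.sub (Finset.measurable_fun_sum _ fun k _ => ?_) measurable_const
  exact meas_an (hg _) (meas_zqy hm y0 r k) fun p => (zy_strip hs r p.1 _ _).trans_lt hb

/-- the quadratic statistic -/
theorem MIn.qy (hm : MCr η η') (hs : InS y0 b0 η) (h0 : 0 < b1) (hb : b0 < b1) {ρ : ℂ → ℂ}
    (hρ : PB.SeaF b1 ρ) {X : Bool → ℂ → ℂ} (hX : PB.FldF b1 X) : MIn (Qy y0 η ρ X) := by
  intro r a b
  have hz := fun k : Fin a ⊕ Fin b => meas_zqy hm y0 r k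
  have hz' := fun (k : Fin a ⊕ Fin b) (p : (Fin r → Xo) × ((Fin a → ℝ) × (Fin b → ℝ))) =>
    (zy_strip hs r p.1 (spQ a b k) (Sum.elim p.2.1 p.2.2 k)).trans_lt hb
  unfold Qy PB.NX.nuQ
  refine ((measurable_const.mul (Finset.measurable_fun_sum _ fun i _ =>
    Finset.measurable_fun_sum _ fun j _ => ?_)).sub
    (Finset.measurable_fun_sum _ fun i _ => ?_)).add measurable_const
  · exact meas_aC hX _ _ (hz i) (hz j) (hz' i) (hz' j)
  · exact meas_smr hX h0 hρ _ (hz i) (hz' i)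

/-- the derivative along a field -/
theorem MIn.dx {X : Bool → ℂ → ℂ} {dΨ : DIns} (hm : MCr η η') (hs : InS y0 b0 η)
    (hb : b0 < b1) (hX : PB.FldF b1 X)
    (hd : ∀ r a b (k : Fin a ⊕ Fin b), Measurable
      fun p : (Fin r → Xo) × ((Fin a → ℝ) × (Fin b → ℝ)) => dΨ r p.1 a b k p.2) :
    MIn (DX (XCy y0 η X) dΨ) := by
  intro r a b
  unfold DX
  refine Finset.measurable_fun_sum _ fun k _ => Measurable.mul ?_ (hd r a b k)
  exact meas_an (hX.d _) (meas_zqy hm y0 r k) fun p => (zy_strip hs r p.1 _ _).trans_lt hb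

/-- the force -/
theorem meas_lamY {LZ : Bool → ℂ → ℂ} {LP : (r : ℕ) → (Fin r → Xo) → Bool → ℂ → ℂ} {ρ : ℂ → ℂ}
    (hm : MCr η η') (hs : InS y0 b0 η) (hb : b0 < b1) (hρ : PB.SeaF b1 ρ)
    (mZ : ∀ s, Measurable (LZ s))
    (mP : ∀ r s, Measurable fun p : (Fin r → Xo) × ℂ => LP r p.1 s p.2) (r : ℕ) (s : Bool) :
    Measurable fun p : (Fin r → Xo) × ℝ =>
      lamY y0 ρ (LT LZ LP) r p.1 s (zy y0 (Fil.cv s (η r p.1)) p.2) := by
  unfold lamY LT
  have hz := meas_zy hm y0 r s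
  have hp : Measurable fun p : (Fin r → Xo) × ℝ =>
      ((NUP1.l : ℂ) + I * (zy y0 (Fil.cv s (η r p.1)) p.2 + I * y0)) :=
    measurable_const.add (measurable_const.mul (hz.add measurable_const))
  refine (measurable_const.mul (((mZ s).comp hp).add
    ((mP r s).comp (measurable_fst.prodMk hp)))).sub ?_
  exact meas_kp2 hρ.d hz (fun p => (zy_strip hs r p.1 _ _).trans_lt hb) s

theorem meas_fld {X : Bool → ℂ → ℂ} (hm : MCr η η') (hs : InS y0 b0 η) (hb : b0 < b1)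
    (hX : ∀ s (z : ℂ), |z.im| < b1 → DifferentiableAt ℂ (X s) z) (r : ℕ) (s : Bool) :
    Measurable fun p : (Fin r → Xo) × ℝ => X s (zy y0 (Fil.cv s (η r p.1)) p.2) :=
  meas_an (hX s) (meas_zy hm y0 r s) fun p => (zy_strip hs r p.1 _ _).trans_lt hb

end MIns

/-! ### the functional -/

section functional

variable [Fil]

variable {N : ℕ} {Z : ℕ → Bool → Option O3 → ℂ → ℂ} {P : ℕ → NUO.Par} {η η' : ℕ → Crs}
  {c : ℕ → ℂ}

/-- an insertion whose functionals all vanish -/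
theorem F_zero (h : ∀ n ≤ N, MC (Z n) (P n) (η n) (η' n)) {Ψ : ℕ → Ins}
    (hΨ : ∀ n ≤ N, MIn (Ψ n)) (hW : WI (mN N) (wN Z P N η η' c) (evN Ψ))
    (hz : ∀ n ≤ N, FF (Z n) (P n) n (n + dN N) (η n) (η' n) (Ψ n) = 0) :
    F (mN N) (wN Z P N η η' c) (evN Ψ) = 0 := by
  have hf : FAN Z P N η η' c Ψ < ∞ := by
    rw [FAN_eq h hΨ]
    have := hW.2
    unfold HasFiniteIntegral at this
    simpa only [enorm_mul] using this
  rw [← FFN_eq h hΨ hf]
  unfold FFN
  refine Finset.sum_eq_zero fun n hn => ?_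
  rw [hz n (by have := Finset.mem_range.1 hn; omega), mul_zero]

variable (N Z P η η') in
/-- the data of all fibres: weights, curves, log derivatives, the sea -/
structure FibN (δ y0 b0 b1 : ℝ) (κ : ℕ → ℝ) (LZ : ℕ → Bool → ℂ → ℂ)
    (LP : ℕ → (r : ℕ) → (Fin r → Xo) → Bool → ℂ → ℂ) (ρ : ℂ → ℂ) : Prop where
  hQ : ∀ n ≤ N, QOk (Z n) δ (κ n) (-(dN N : ℤ))
  hP : ∀ n ≤ N, GoodP (P n)
  hj : ∀ n ≤ N, (P n).jL + δ < 3
  hδ0 : 0 ≤ δ
  hδ1 : δ ≤ 1 / 20
  crv : ∀ n ≤ N, ∀ r O, CrvR δ (η n r O) (η' n r O)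
  hL : ∀ n ≤ N, LogD (Z n) (P n) δ (LZ n) (LP n)
  hs : ∀ n ≤ N, InS y0 b0 (η n)
  b1p : 0 < b1
  b01 : b0 < b1
  b1l : 2 * b1 ≤ NUP1.l
  sea : PB.SeaF b1 ρ
  mc : ∀ n ≤ N, MCr (η n) (η' n)
  mZ : ∀ n ≤ N, MC (Z n) (P n) (η n) (η' n)
  mP : ∀ n ≤ N, ∀ r s, Measurable fun p : (Fin r → Xo) × ℂ => LP n r p.1 s p.2

variable {δ y0 b0 b1 : ℝ} {κ : ℕ → ℝ} {LZ : ℕ → Bool → ℂ → ℂ}
  {LP : ℕ → (r : ℕ) → (Fin r → Xo) → Bool → ℂ → ℂ} {ρ : ℂ → ℂ}

/-- the remainder of the Ward identity of the field `X`: quadratic statistic and forces -/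
def RmY (y0 : ℝ) (η : Crs) (ρ : ℂ → ℂ) (X : Bool → ℂ → ℂ)
    (L : (r : ℕ) → (Fin r → Xo) → Bool → ℂ → ℂ) : Ins := fun r O a b x =>
  Qy y0 η ρ X r O a b x + Sy y0 η (fun r O s z => X s z * lamY y0 ρ L r O s z) r O a b x

theorem FibN.mRm (h : FibN N Z P η η' δ y0 b0 b1 κ LZ LP ρ) {X : Bool → ℂ → ℂ}
    (hX : PB.FldF b1 X) {n : ℕ} (hn : n ≤ N) :
    MIn (RmY y0 (η n) ρ X (LT (LZ n) (LP n))) := by
  refine (MIn.qy (h.mc n hn) (h.hs n hn) h.b1p h.b01 h.sea hX).add' (MIn.sy fun r s => ?_)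
  exact (meas_fld (h.mc n hn) (h.hs n hn) h.b01 hX.d r s).mul
    (meas_lamY (h.mc n hn) (h.hs n hn) h.b01 h.sea (h.hL n hn).mZ (h.mP n hn) r s)

/-- **the second Ward identity**, insertion `Ψ` -/
theorem ward_N (h : FibN N Z P η η' δ y0 b0 b1 κ LZ LP ρ) {X g : Bool → ℂ → ℂ}
    (hX : PB.FldF b1 X)
    (hg : ∀ s (z : ℂ), |z.im| < b1 → g s z = PB.rsp (PB.mulF2 ρ X) s z)
    (hgd : ∀ s (z : ℂ), |z.im| < b1 → DifferentiableAt ℂ (g s) z) {Ψ : ℕ → Ins} {dΨ : ℕ → DIns}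
    (hΨ : ∀ n ≤ N, InsD (η' n) (Ψ n) (dΨ n)) (mΨ : ∀ n ≤ N, MIn (Ψ n))
    (mdΨ : ∀ n ≤ N, ∀ r a b (k : Fin a ⊕ Fin b), Measurable
      fun p : (Fin r → Xo) × ((Fin a → ℝ) × (Fin b → ℝ)) => dΨ n r p.1 a b k p.2)
    (i1 : WI (mN N) (wN Z P N η η' c) fun ω => evN (fun n => Vy y0 (η n) ρ g) ω * evN Ψ ω)
    (i2 : WI (mN N) (wN Z P N η η' c)
      fun ω => evN (fun n => RmY y0 (η n) ρ X (LT (LZ n) (LP n))) ω * evN Ψ ω)
    (i3 : WI (mN N) (wN Z P N η η' c) (evN fun n => DX (XCy y0 (η n) X) (dΨ n))) :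
    F (mN N) (wN Z P N η η' c) (fun ω => evN (fun n => Vy y0 (η n) ρ g) ω * evN Ψ ω) =
      F (mN N) (wN Z P N η η' c)
        (fun ω => evN (fun n => RmY y0 (η n) ρ X (LT (LZ n) (LP n))) ω * evN Ψ ω) +
      F (mN N) (wN Z P N η η' c) (evN fun n => DX (XCy y0 (η n) X) (dΨ n)) := by
  set μ := mN N
  set w := wN Z P N η η' c
  set V : CfN N → ℂ := evN (fun n => Vy y0 (η n) ρ g)
  set R : CfN N → ℂ := evN (fun n => RmY y0 (η n) ρ X (LT (LZ n) (LP n)))
  set D : CfN N → ℂ := evN fun n => DX (XCy y0 (η n) X) (dΨ n)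
  have hVy : ∀ n ≤ N, Vy y0 (η n) ρ (PB.rsp (PB.mulF2 ρ X)) = Vy y0 (η n) ρ g := by
    intro n hn
    funext r O a b x
    unfold Vy PB.NX.nuL
    congr 1
    · refine Finset.sum_congr rfl fun k _ => ?_
      exact (hg _ _ ((zy_strip (h.hs n hn) r O _ _).trans_lt h.b01)).symm
    · refine Finset.sum_congr rfl fun s _ => integral_congr_ae (Filter.Eventually.of_forall
        fun u => ?_)
      simp only []
      rw [hg s (PB.eR u) (by simp [PB.eR, h.b1p])]
  have hI : WI μ w fun ω => -1 * (V ω * evN Ψ ω) + (R ω * evN Ψ ω + D ω) :=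
    (i1.smul (-1)).add (i2.add i3)
  have hz : F μ w (evN fun n => fun r O a b x => (-Vy y0 (η n) ρ g r O a b x +
      RmY y0 (η n) ρ X (LT (LZ n) (LP n)) r O a b x) * Ψ n r O a b x +
      DX (XCy y0 (η n) X) (dΨ n) r O a b x) = 0 := by
    refine F_zero h.mZ (fun n hn => ?_) ?_ fun n hn => ?_
    · refine MIn.add' (MIn.mul' (MIn.add' (MIn.neg' ?_) (h.mRm hX hn)) (mΨ n hn)) ?_
      · exact MIn.vy (h.mc n hn) (h.hs n hn) h.b01 ρ hgd
      · exact MIn.dx (h.mc n hn) (h.hs n hn) h.b01 hX (mdΨ n hn)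
    · refine hI.congr (Filter.Eventually.of_forall fun ω => ?_)
      simp only [V, R, D, evN, ev]
      ring
    · have key := ward_Vy (h.hQ n hn) (h.hP n hn) h.hδ0 h.hδ1 (h.hj n hn) (h.crv n hn)
        (n := n) (n' := n + dN N) (by push_cast; ring) (h.hL n hn) (h.hs n hn) h.b1p h.b01 h.b1l h.sea hX
        (hΨ n hn)
      rw [hVy n hn] at key
      rw [← key]
      congr 1
      funext r O a b x
      unfold RmY
      ring
  have e : F μ w (fun ω => -1 * (V ω * evN Ψ ω) + (R ω * evN Ψ ω + D ω)) = 0 := by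
    rw [← hz]
    congr 1
    funext ω
    simp only [V, R, D, evN, ev]
    ring
  rw [F_add (i1.smul (-1)) (i2.add i3), F_add i2 i3, F_smul] at e
  linear_combination -e

/-- the derivatives of the statistic of a test function are measurable -/
theorem meas_dvy {y0 b0 b1 : ℝ} {η η' : Crs} (hm : MCr η η') (hs : InS y0 b0 η) (hb : b0 < b1)
    {g : Bool → ℂ → ℂ} (hg : ∀ s (z : ℂ), |z.im| < b1 → DifferentiableAt ℂ (g s) z) (r a b : ℕ)
    (k : Fin a ⊕ Fin b) : Measurable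
      fun p : (Fin r → Xo) × ((Fin a → ℝ) × (Fin b → ℝ)) =>
        dSm (XCy y0 η fun s => deriv (g s)) r p.1 a b k p.2 :=
  meas_der (hg _) (meas_zqy hm y0 r k) fun p => (zy_strip hs r p.1 _ _).trans_lt hb

/-- **insertion `1`** -/
theorem ward_one (h : FibN N Z P η η' δ y0 b0 b1 κ LZ LP ρ) {X g : Bool → ℂ → ℂ}
    (hX : PB.FldF b1 X)
    (hg : ∀ s (z : ℂ), |z.im| < b1 → g s z = PB.rsp (PB.mulF2 ρ X) s z)
    (hgd : ∀ s (z : ℂ), |z.im| < b1 → DifferentiableAt ℂ (g s) z)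
    (i1 : WI (mN N) (wN Z P N η η' c) (evN fun n => Vy y0 (η n) ρ g))
    (i2 : WI (mN N) (wN Z P N η η' c)
      (evN fun n => RmY y0 (η n) ρ X (LT (LZ n) (LP n)))) :
    F (mN N) (wN Z P N η η' c) (evN fun n => Vy y0 (η n) ρ g) =
      F (mN N) (wN Z P N η η' c) (evN fun n => RmY y0 (η n) ρ X (LT (LZ n) (LP n))) := by
  have e1 : ∀ A : CfN N → ℂ, (fun ω => A ω * evN (fun _ _ _ _ _ _ => (1 : ℂ)) ω) = A := by
    intro A
    funext ω
    exact mul_one _
  have e2 : (evN fun n => DX (XCy y0 (η n) X) fun _ _ _ _ _ _ => (0 : ℂ)) =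
      fun _ : CfN N => (0 : ℂ) := by
    funext ω
    simp only [evN, ev, DX, mul_zero, Finset.sum_const_zero]
  have key := ward_N (c := c) h hX hg hgd (Ψ := fun _ _ _ _ _ _ => 1)
    (dΨ := fun _ _ _ _ _ _ _ => 0) (fun n _ => InsD.const _ 1) (fun n _ => MIn.one)
    (fun n _ r a b k => measurable_const) (by rw [e1]; exact i1) (by rw [e1]; exact i2)
    (by
      rw [e2]
      unfold WI
      simp only [mul_zero]
      exact integrable_zero _ _ _)
  rw [e1, e1, e2] at key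
  rw [key]
  unfold F
  simp

/-- **insertion `V h`** -/
theorem ward_vh (h : FibN N Z P η η' δ y0 b0 b1 κ LZ LP ρ) {X g f : Bool → ℂ → ℂ}
    (hX : PB.FldF b1 X)
    (hg : ∀ s (z : ℂ), |z.im| < b1 → g s z = PB.rsp (PB.mulF2 ρ X) s z)
    (hgd : ∀ s (z : ℂ), |z.im| < b1 → DifferentiableAt ℂ (g s) z) (hf : PB.FldF b1 f)
    (i1 : WI (mN N) (wN Z P N η η' c)
      fun ω => evN (fun n => Vy y0 (η n) ρ g) ω * evN (fun n => Vy y0 (η n) ρ f) ω)
    (i2 : WI (mN N) (wN Z P N η η' c)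
      fun ω => evN (fun n => RmY y0 (η n) ρ X (LT (LZ n) (LP n))) ω *
        evN (fun n => Vy y0 (η n) ρ f) ω)
    (i3 : WI (mN N) (wN Z P N η η' c)
      (evN fun n => Vy y0 (η n) ρ fun s z => X s z * deriv (f s) z))
    (i4 : WI (mN N) (wN Z P N η η' c) fun _ => 1) :
    F (mN N) (wN Z P N η η' c)
        (fun ω => evN (fun n => Vy y0 (η n) ρ g) ω * evN (fun n => Vy y0 (η n) ρ f) ω) =
      F (mN N) (wN Z P N η η' c)
        (fun ω => evN (fun n => RmY y0 (η n) ρ X (LT (LZ n) (LP n))) ω *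
          evN (fun n => Vy y0 (η n) ρ f) ω) +
      ((∑ s, ∫ u : ℝ, (Fil.b s : ℂ) * ρ u * (X s u * deriv (f s) u)) *
        F (mN N) (wN Z P N η η' c) (fun _ => 1) +
      F (mN N) (wN Z P N η η' c)
        (evN fun n => Vy y0 (η n) ρ fun s z => X s z * deriv (f s) z)) := by
  set C : ℂ := ∑ s, ∫ u : ℝ, (Fil.b s : ℂ) * ρ u * (X s u * deriv (f s) u) with hC
  have e2 : (evN fun n => DX (XCy y0 (η n) X) (dSm (XCy y0 (η n) fun s => deriv (f s)))) =
      fun ω : CfN N => C * 1 +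
        evN (fun n => Vy y0 (η n) ρ fun s z => X s z * deriv (f s) z) ω := by
    funext ω
    show DX (XCy y0 (η ω.1) X) (dSm (XCy y0 (η ω.1) fun s => deriv (f s))) ω.2.1.1 ω.2.2.1
      ω.2.1.2.1 ω.2.1.2.2 ω.2.2.2 = _
    rw [DX_vy, Sy_eq (ρ := ρ), mul_one]
    rfl
  have i5 : WI (mN N) (wN Z P N η η' c) fun ω : CfN N => C * 1 +
      evN (fun n => Vy y0 (η n) ρ fun s z => X s z * deriv (f s) z) ω := (i4.smul C).add i3
  have key := ward_N (c := c) h hX hg hgd (Ψ := fun n => Vy y0 (η n) ρ f)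
    (dΨ := fun n => dSm (XCy y0 (η n) fun s => deriv (f s)))
    (fun n hn => InsD.vy (h.crv n hn) (h.hs n hn) h.b01 ρ hf)
    (fun n hn => MIn.vy (h.mc n hn) (h.hs n hn) h.b01 ρ hf.d)
    (fun n hn r a b k => meas_dvy (h.mc n hn) (h.hs n hn) h.b01 hf.d r a b k) i1 i2
    (by rw [e2]; exact i5)
  rw [key, e2, F_add (i4.smul C) i3, F_smul]

end functional

end PBF.PLX

end
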