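import Pool.Agent.PLX.Ns
import Pool.Agent.PLX.PB.InsTwo
import Pool.Agent.PLX.PB.FNeq

/-!
# Plan B: the transfer of products of statistics at the data of the dislocated function

* `clZ_of`: the class `ClZ` from `OneC` and `DecZ`; `clZ_ZL`: the class functions `ZL` (charge `-Fil.xn m`);
* `insQ_of`: the data `InsQ` from `ParC`, curves `CurB ep`; `insQ_par0`: the landed curve;
* `ins_ZL`: products of statistics for `ZL`.
-/

set_option autoImplicit false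
set_option linter.unusedSectionVars false

noncomputable section

open Complex MeasureTheory Finset
open scoped ENNReal

open PLX (Fil)

namespace PBF.PLX

open NUO NUP1 NUCR NUP1S NUP1S.Ab NUP1S.AbC NUGC NUGC.PLX PBFunc PBFunc.PLX PBC PBC.PLX PBX PBX.PLX
open PBI (Stt tw F0)
open PBI.PLX (fl)

variable [Fil] {P : NUO.Par} {ep κ κ' x0 : ℝ} {Q : ℤ} {n n' : ℕ} {η η' : Crs}

/-- the class from the one body bounds and the decay -/
theorem clZ_of {Z : Stt} {B : OB} {E : Set ℝ} (h : OneC Z B P ep κ' x0 Q E)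
    (hd : DecZ Z P x0 κ Q) (hep0 : 0 ≤ ep) : ClZ Z P x0 κ κ' (ep / 4) Q := by
  have hl := Bd.l_pos
  exact ⟨h.meas, fun s u h1 h2 => h.dA s u h1 (h2.trans (by nlinarith)), hd, QOk.of_oneC h⟩

/-- **the class functions of the dislocated function** -/
theorem clZ_ZL {m : ℕ} {β : ℝ} (hP : ParC P) (hep0 : 0 < ep) (hep : ep ≤ 1 / 100) (hβ : 0 < β)
    (hβ' : β ≤ 4 / 3) {x : Fin m → ℂ} (hx : Rws x) {ex ex0 : List ℂ}
    (hex : ∀ w ∈ ex, |w.re| ≤ NUP1.l / 2) (hex0 : ∀ w ∈ ex0, |w.re| ≤ NUP1.l / 2) {z : ℂ}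
    (h1 : -(9 / 10 * NUP1.l) ≤ z.re) (h2 : z.re < 37 / 10 * NUP1.l) :
    ClZ (ZL β x ex ex0 z) P (3 / 5 * NUP1.l) (2 * β) (2 * β) (ep / 4) (-(Fil.xn m : ℤ)) := by
  have hl := Bd.l_pos
  refine clZ_of (oneC_ZL le_rfl (by linarith) hP hep0 hep hβ hβ' hx hex ex0 h1 h2) ?_ hep0.le
  have := decZ_ZL (β := β) hP hβ hβ' hx hex hex0 (z := z) (by linarith) h2
  push_cast
  exact this

/-- the data of the transfer -/
theorem insQ_of (hP : ParC P) (hρ : ∀ r, ∃ ρ0, 0 < ρ0 ∧ ∀ t, ρ0 ≤ P.rad r t) (hep0 : 0 < ep)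
    (hep : ep ≤ 1 / 100) (hκ : 0 < κ) (hn : (n : ℤ) - n' = Q) (hc : MCr η η')
    (hη : ∀ r ≤ n + n', ∀ O, CurB ep (η r O) (η' r O)) :
    InsQ P (3 / 5 * NUP1.l) κ κ' (ep / 4) Q n n' η η' := by
  have hl := Bd.l_pos
  have j2 := hP.j2
  exact ⟨hP.goodQ, by linarith, hP.rm, hρ, hκ, hn, by linarith, by linarith, by linarith, hc,
    fun r hr O => crvR_of hep0 hep (hη r hr O)⟩

/-- one curve for all configurations -/
theorem mcr_const {f f' : ℝ → ℝ} (hf : Measurable f) (hf' : Measurable f') :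
    MCr (fun _ _ => f) (fun _ _ => f') :=
  ⟨fun _ => hf.comp measurable_snd, fun _ => hf'.comp measurable_snd⟩

end PBF.PLX

end
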