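import Pool.Agent.PLX.Ns
import Pool.Agent.PLX.PB.RepQ
import Pool.Agent.PLX.PB.ChnO2
import Pool.Agent.PB.WaveE

/-!
# Plan B: the localised field and the step as observables (helper11)

`X` the field as a function of the position; `fX X b z` = field at the point of the kind `b` with head
`z`, `sX b z` the step there.

* `VC_sg`: the centred statistic of `sgK sX` is the step `SN`;
* `VQ_congr`: statistics of the quanta depend on the strip of the curves only;
* `adS_be`, `adS_sg`: `beK xp xm (fX X) sX` and `sgK sX` are admissible;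
* **`obs_u`**: the localised field is `Vm` of `beC` plus a pinned observable.
-/

set_option autoImplicit false
set_option linter.unusedSectionVars false
set_option linter.unusedVariables false
set_option maxHeartbeats 1000000

noncomputable section

open Complex MeasureTheory Finset
open scoped ENNReal Classical

open PLX (Fil)

namespace PBRep.PLX

open NUP1 hiding Kd
open NUO NUP1S NUP1S.Ab NUP1S.AbC PBF PBF.PLX PBFunc PBFunc.PLX PB
open PBI (Stt Kd F0 F0Ok nuI nuQI mnI InD PAll F0_rep nuI_eq)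
open PBI.PLX (fl)

variable [Fil] {Z : Stt} {P : NUO.Par} {x0 κ κ' δ : ℝ} {N : ℕ} {η η' : ℕ → Crs} {c : ℕ → ℂ}

/-- the field at the point of a kind -/
def fX (X : ℂ → ℂ) : Kd → ℂ → ℂ := fun b z => X (PBOb.pf b.2 z)

/-- the step at the point of a kind -/
def sX : Kd → ℂ → ℂ := fun b z => PBOb.sgU (PBOb.pf b.2 z)

theorem chK_none (s : Bool) : PBI.chK (s, none) = eM s := by
  unfold PBI.chK eM
  cases s <;> simp [sc, PBI.co, ob4, Bd.chg]

theorem pf_none (z : ℂ) : PBOb.pf none z = z := by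
  unfold PBOb.pf
  rw [PBOb.sh_none, ofReal_zero, add_zero]

theorem norm_chK_le (b : Kd) : ‖PBI.chK b‖ ≤ 2 := by
  unfold PBI.chK
  rw [norm_real, Real.norm_eq_abs]
  exact (PBOb.abs_sc _).2

/-- the two forms of the step -/
theorem sgC_tgh {z : ℂ} (hz : |z.im| ≤ Real.pi / 8) : NX.sgC z = PBV.tgh z := by
  have h1 := NX.exp_add_ne hz
  have h2 := Complex.exp_ne_zero (2 * z)
  have e1 : Complex.exp (4 * z) = Complex.exp (2 * z) * Complex.exp (2 * z) := by
    rw [← Complex.exp_add]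
    congr 1
    ring
  have e2 : Complex.exp (-(2 * z)) = (Complex.exp (2 * z))⁻¹ := Complex.exp_neg _
  unfold NX.sgC PBV.tgh
  rw [Complex.sinh, Complex.cosh, e2]
  rw [e1] at h1 ⊢
  set E := Complex.exp (2 * z) with hE
  have h3 : (E + E⁻¹) / 2 ≠ 0 := by
    have : (E + E⁻¹) / 2 = (E * E + 1) / (2 * E) := by field_simp
    rw [this]
    exact div_ne_zero h1 (mul_ne_zero two_ne_zero h2)
  have h5 : E ^ 2 + 1 ≠ 0 := by rwa [sq]
  rw [eq_div_iff h3, ← sq]
  field_simp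
  ring

/-- the mean of a charge weighted statistic -/
theorem mnI_ch {ρ : Kd → ℝ → ℂ} {ρ0 : ℝ → ℂ} (h : RhoK ρ ρ0) {g : Kd → ℂ → ℂ} {f : ℂ → ℂ}
    (hg : ∀ s z, g (s, none) z = eM s * f z) :
    mnI ρ g = (1 - Fil.b false) * ∫ u : ℝ, ρ0 u * f (vl l u) := by
  rw [PBOb.PLX.mnI_none h.o]
  simp only [h.q, hg]
  have e : ∀ s, ∫ u : ℝ, (Fil.b s : ℂ) * ρ0 u * (eM s * f (vl l u)) =
      Fil.b s * eM s * ∫ u : ℝ, ρ0 u * f (vl l u) := by
    intro s
    rw [← integral_const_mul]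
    refine integral_congr_ae (Filter.Eventually.of_forall fun u => ?_)
    simp only []
    ring
  rw [e, e]
  simp only [eM, Fil.b_true, ofReal_one, mul_one, if_true, Bool.false_eq_true, if_false]
  ring

theorem sgK_none (s : Bool) (z : ℂ) : PBI.sgK sX (s, none) z = eM s * PBOb.sgU z := by
  unfold PBI.sgK sX
  rw [chK_none]
  simp only [pf_none]

theorem beK_none (xp xm : ℂ) (X : ℂ → ℂ) (s : Bool) (z : ℂ) :
    PBI.beK xp xm (fX X) sX (s, none) z = eM s * NX.be xp xm (X z) (PBOb.sgU z) := by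
  unfold PBI.beK fX sX
  rw [chK_none]
  simp only [pf_none]

theorem sK_sgK : sK (PBI.sgK sX) = sgD := rfl

/-- **the step** -/
theorem VC_sg {ρ : Kd → ℝ → ℂ} {ρ0 : ℝ → ℂ} (h : RhoK ρ ρ0) (ω : CfN N) :
    VC ρ P η (PBI.sgK sX) ω = SN ρ0 P η ω := by
  rw [SN_sgU]
  unfold VC
  rw [mnI_ch h sgK_none, sK_sgK, Fil.b_true, ofReal_one]

/-- **statistics of the quanta depend on the strip of the curves only** -/
theorem VQ_congr (hT : TrN Z P x0 κ κ' δ N η η') {D D' : Stt}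
    (hD : ∀ s z, 19 / 20 * l ≤ z.re → z.re ≤ (1 + δ) * l → D s none z = D' s none z) :
    (VQ D η : CfN N → ℂ) = VQ D' η := by
  funext ω
  have hn : (ω.1 : ℕ) ≤ N := Nat.lt_succ_iff.1 ω.1.2
  have hc := (hT.ins ω.1 hn).hη ω.2.1.1 (Nat.lt_succ_iff.1 ω.2.1.1.2) ω.2.2.1
  have hδ := (hT.ins ω.1 hn).hδ0
  have key : ∀ (s : Bool) (t : ℝ), D s none (NUO.pA (Fil.cv s (η ω.1 ω.2.1.1 ω.2.2.1)) t) =
      D' s none (NUO.pA (Fil.cv s (η ω.1 ω.2.1.1 ω.2.2.1)) t) := by
    intro s t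
    obtain ⟨h1, h2⟩ := NUO.pA_mem (hc.cv hδ s) t
    exact hD s _ h1 h2
  rw [VQ_eq, VQ_eq]
  simp only [key]

/-! ### bounds -/

variable {X : ℂ → ℂ} {xp xm : ℂ} {M : ℝ}

theorem norm_beK_le (h : PBOb.FX X xp xm M) {b : Kd} {z : ℂ} (hz : z ∈ PBOb.Str b.2) :
    ‖PBI.beK xp xm (fX X) sX b z‖ ≤ 2 * (M + 2 * ‖xp - xm‖) * Real.exp (-4 * |z.im|) := by
  have h1 := (h.plt (PBOb.pf_mem hz)).be_le
  rw [PBOb.pf_im] at h1
  unfold PBI.beK fX sX
  rw [norm_mul, mul_assoc]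
  exact mul_le_mul (norm_chK_le b) h1 (norm_nonneg _) zero_le_two

theorem norm_sgK_le {b : Kd} {z : ℂ} (hz : z ∈ PBOb.Str b.2) : ‖PBI.sgK sX b z‖ ≤ 6 := by
  have hu := PBOb.pf_mem hz
  have h1 := NX.Plt.mk_sgC (xp := 0) (xm := 0) (M := 0) (x := 0) (z := -I * (PBOb.pf b.2 z - l))
    (PBOb.sgU_im (PBOb.Fst_sub_FS hu)) (fun _ => by simp) (fun _ => by simp)
  have h2 := h1.s_le
  unfold PBI.sgK sX PBOb.sgU
  rw [norm_mul]
  calc ‖PBI.chK b‖ * ‖NX.sgC (-I * (PBOb.pf b.2 z - l))‖ ≤ 2 * (1 + 2) :=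
        mul_le_mul (norm_chK_le b) h2 (norm_nonneg _) zero_le_two
    _ = 6 := by norm_num

theorem measurable_pf (k : Option O3) : Measurable (PBOb.pf k) := by
  unfold PBOb.pf
  fun_prop

theorem measurable_beK (hX : Measurable X) (b : Kd) :
    Measurable (PBI.beK xp xm (fX X) sX b) := by
  have h1 : Measurable fun z => X (PBOb.pf b.2 z) := hX.comp (measurable_pf b.2)
  have h2 : Measurable fun z => PBOb.sgU (PBOb.pf b.2 z) :=
    PBOb.measurable_sgU.comp (measurable_pf b.2)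
  unfold PBI.beK fX sX NX.be
  exact ((measurable_const.sub h1).add (h2.const_mul _)).const_mul _

theorem measurable_sgK (b : Kd) : Measurable (PBI.sgK sX b) := by
  have h2 : Measurable fun z => PBOb.sgU (PBOb.pf b.2 z) :=
    PBOb.measurable_sgU.comp (measurable_pf b.2)
  unfold PBI.sgK sX
  exact h2.const_mul _

theorem DQ_FS {s : Bool} {u : ℂ} (hu : u ∈ PBOb.DQ (s, none)) : u ∈ PBOb.FS := by
  have h1 := PBOb.pf_mem (PBOb.DQ_sub _ hu)
  rw [pf_none] at h1
  exact PBOb.Fst_sub_FS h1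

/-- **the localised field is admissible** -/
theorem adS_be (hP : PBOb.PLX.ParO P) (hx0 : 13 / 25 * l ≤ x0) (hδ : δ ≤ 1 / 20) (hX : Measurable X)
    (h : PBOb.FX X xp xm M) : AdS P x0 δ (sK (PBI.beK xp xm (fX X) sX)) := by
  refine ⟨2 * (M + 2 * ‖xp - xm‖), PBOb.PLX.adm_of hP hx0 hδ (fun b => measurable_beK hX b)
    (fun s u hu => ?_) fun b u hu => ?_⟩
  · have e : PBI.beK xp xm (fX X) sX (s, none) = fun z => eM s * NX.be xp xm (X z) (PBOb.sgU z) :=
      funext fun z => beK_none xp xm X s z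
    rw [e]
    have hF := DQ_FS hu
    have d1 : DifferentiableAt ℂ X u := h.dif.differentiableAt (PBOb.isOpen_FS.mem_nhds hF)
    have d2 := PBOb.sgU_diff hF
    unfold NX.be
    exact (((differentiableAt_const _).sub d1).add (d2.const_mul _)).const_mul _
  · have hM := h.M_nonneg
    refine (norm_beK_le h (PBOb.DQ_sub _ hu)).trans (mul_le_of_le_one_right (by positivity) ?_)
    rw [Real.exp_le_one_iff]
    nlinarith [abs_nonneg u.im]

/-- **the step is admissible** -/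
theorem adS_sg (hP : PBOb.PLX.ParO P) (hx0 : 13 / 25 * l ≤ x0) (hδ : δ ≤ 1 / 20) :
    AdS P x0 δ (sK (PBI.sgK sX)) := by
  refine ⟨6, PBOb.PLX.adm_of hP hx0 hδ (fun b => measurable_sgK b)
    (fun s u hu => ?_) fun b u hu => norm_sgK_le (PBOb.DQ_sub _ hu)⟩
  have e : PBI.sgK sX (s, none) = fun z => eM s * PBOb.sgU z := funext fun z => sgK_none s z
  rw [e]
  exact (PBOb.sgU_diff (DQ_FS hu)).const_mul _

/-! ### the observable -/

/-- the two forms of the localised field on the strip of the curves -/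
theorem be_beC {z : ℂ} (hz : z ∈ PBOb.FS) :
    NX.be xp xm (X z) (PBOb.sgU z) = PBV.beC (fun v => X (l + I * v)) xp xm (hgt z) := by
  have e1 : (l : ℂ) + I * hgt z = z := by
    unfold hgt
    linear_combination (-(z - l)) * I_mul_I
  have h1 := PBOb.sgU_im hz
  unfold NX.be PBV.beC PBOb.sgU
  rw [sgC_tgh h1]
  simp only [e1]
  rfl

/-- the part of the quanta -/
theorem VQ_be (hT : TrN Z P x0 κ κ' δ N η η') :
    (VQ (sK (PBI.beK xp xm (fX X) sX)) η : CfN N → ℂ) =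
      VQ (qD eM (PBV.beC (fun v => X (l + I * v)) xp xm)) η := by
  have hl := Bd.l_pos
  have hδ := (hT.ins 0 (Nat.zero_le _)).hδ
  refine VQ_congr hT fun s z h1 h2 => ?_
  show PBI.beK xp xm (fX X) sX (s, none) z = eM s * PBV.beC (fun v => X (l + I * v)) xp xm (hgt z)
  rw [beK_none, be_beC]
  exact ⟨by linarith, by nlinarith⟩

/-- **`VC` of the localised field** -/
theorem VC_be (hT : TrN Z P x0 κ κ' δ N η η') {ρ : Kd → ℝ → ℂ} {ρ0 : ℝ → ℂ} (hρ : RhoK ρ ρ0)
    (ω : CfN N) : VC ρ P η (PBI.beK xp xm (fX X) sX) ω =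
      Vm ρ0 η (PBV.beC (fun v => X (l + I * v)) xp xm) ω +
        VO (sK (PBI.beK xp xm (fX X) sX)) P ω := by
  have e : ∀ u : ℝ, NX.be xp xm (X (vl l u)) (PBOb.sgU (vl l u)) =
      PBV.beC (fun v => X (l + I * v)) xp xm u := by
    intro u
    have hl := Bd.l_pos
    have hF : vl l u ∈ PBOb.FS := by
      have e1 : (vl l u).re = l := by simp [vl]
      exact ⟨by rw [e1]; linarith, by rw [e1]; linarith⟩
    rw [be_beC hF, hgt_line]
  unfold VC Vm
  rw [mnI_ch hρ (beK_none xp xm X), VA_eq, VQ_be hT, Fil.b_true, ofReal_one]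
  simp only [e]
  ring

/-- **the localised field is `Vm` plus a pinned observable** -/
theorem obs_u (hT : TrN Z P x0 κ κ' δ N η η') (hP : PBOb.PLX.ParO P) (hx0 : 13 / 25 * l ≤ x0)
    {ρ : Kd → ℝ → ℂ} {ρ0 : ℝ → ℂ} (hρ : RhoK ρ ρ0) (hX : Measurable X) (h : PBOb.FX X xp xm M)
    {a Mu : ℝ} (ha0 : 0 ≤ a) (ha : a ≤ 2)
    (htc : PBE.TC (-(l / 10)) (9 / 20 * l) a Mu (PBV.beC (fun v => X (l + I * v)) xp xm))
    (hMu : 2 * (M + 2 * ‖xp - xm‖) ≤ Mu) :
    Obs (-(l / 10)) (9 / 20 * l) a (mN N) (Vm ρ0 η) (pinN a) 40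
      (VC ρ P η (PBI.beK xp xm (fX X) sX)) (PBV.beC (fun v => X (l + I * v)) xp xm) Mu where
  tc := htc
  m := Vm_meas (fun n hn => (hT.ins n hn).hc) (PBV.beC_measurable (hX.comp (by fun_prop)) xp xm)
  O := by
    have hM := h.M_nonneg
    have hi := hT.ins 0 (Nat.zero_le _)
    have hM0 : 0 ≤ Mu := le_trans (by positivity) hMu
    have e : (fun ω : CfN N => VC ρ P η (PBI.beK xp xm (fX X) sX) ω -
        Vm ρ0 η (PBV.beC (fun v => X (l + I * v)) xp xm) ω) =
        VO (sK (PBI.beK xp xm (fX X) sX)) P := by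
      funext ω
      rw [VC_be hT hρ]
      ring
    rw [e]
    refine PBOb.PLX.pinO_VO hi.hG hP hx0 hi.hP (fun b => measurable_beK hX b) hM0 ha0 ha
      fun b z hz => ?_
    refine (norm_beK_le h (PBOb.DQ_sub _ hz)).trans
      (mul_le_mul hMu (Real.exp_le_exp.2 ?_) (Real.exp_pos _).le hM0)
    nlinarith [abs_nonneg z.im]

end PBRep.PLX

end
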