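import Pool.Agent.PLX.Ns
import Pool.Agent.PLX.PB.RepI
import Pool.Agent.PLX.PB.InsInst
import Pool.Agent.PLX.PB.ParZ
import Pool.Agent.PLX.I1Q2
import Pool.Agent.PB.VInst
import Pool.Agent.PB.EMain
import Pool.Agent.PB.TRSum

/-!
# Plan B: the hypotheses of `repI` at the dislocated function (helper15)

* `DR`: the domain; `ln_row`: the lines, the density of the rows;
* `parP_par0`: the parameters;
* the mass of the rows is `m`, so the charge of the lines is `dN (2 m) = (q - 1) m`.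
-/

set_option autoImplicit false
set_option linter.unusedSectionVars false

noncomputable section

open Complex MeasureTheory Finset
open scoped ENNReal Classical

open PLX (Fil)

namespace PBRep.PLX

open NUP1 hiding Kd
open NUO NUP1S NUP1S.Ab NUP1S.AbC PBF PBF.PLX PBFunc PBFunc.PLX PB
open PBI (Stt Kd F0 F0Ok nuI nuQI mnI InD PAll F0_rep nuI_eq)
open PBI.PLX (fl)
open PBForce (xiR rhoR Rws0)

/-- the domain -/
def DR (b : Kd) : Set ℂ := {z | z ∈ PBOb.DQ b ∧ (b.2 = none → 11 / 20 * l < z.re ∧ z.re < 11 / 10 * l)}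

theorem dOk_DR : DOk DR := by
  have hl := Bd.l_pos
  refine ⟨fun b z hz => hz.1, fun s z hz => hz.2 rfl, fun s u => ⟨?_, fun _ => ?_⟩⟩
  · have e : (vl l u).re = l := by simp [vl]
    show PBOb.lo none + 1 / 50 * l ≤ (vl l u).re ∧ (vl l u).re ≤ PBOb.hi none - 1 / 50 * l
    rw [e]
    simp only [PBOb.lo, PBOb.hi]
    constructor <;> linarith
  · have e : (vl l u).re = l := by simp [vl]
    rw [e]
    constructor <;> linarith

theorem all_DR {P : NUO.Par} (hP : NURow.ParP P) {x0 : ℝ} (h0 : 11 / 20 * l < x0)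
    (h1 : x0 < 11 / 10 * l) (n n' : ℕ) {p p' : ℕ} (k : Fin p → O3) (k' : Fin p' → O3)
    (i : (Fin (nA n k) ⊕ Fin p) ⊕ (Fin (nA n' k') ⊕ Fin p')) (t : ℝ) :
    vl ((fl P).all x0 n n' k k' i) t ∈ DR (PBI.cl n n' k k' i) := by
  have hl := Bd.l_pos
  refine ⟨PBOb.PLX.all_DQ hP (by linarith) (by linarith) n n' k k' i t, fun hi => ?_⟩
  have e : ∀ y : ℝ, (vl y t).re = y := fun y => by simp [vl]
  rw [e]
  rcases i with (i | i) | (i | i)
  · exact ⟨h0, h1⟩
  · exact absurd hi (by simp [PBI.cl, PBI.ck, kA])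
  · exact ⟨h0, h1⟩
  · exact absurd hi (by simp [PBI.cl, PBI.ck, kA])

/-- the density of the rows is integrable on the line, its mass is the number of the rows -/
theorem rho_mass {m : ℕ} {x : Fin m → ℂ} (hx : Rws0 x) :
    (Integrable fun t : ℝ => rhoR x (vl l t)) ∧ ∫ t : ℝ, rhoR x (vl l t) = m := by
  have hl := Bd.l_pos
  have h1 : ∀ i, |(x i).re| < NUP1.l := fun i => by
    rw [hx.re i, abs_zero]
    exact hl
  have e : (fun t : ℝ => rhoR x (vl l t)) = fun t : ℝ => ∑ i, NUMF.Pc (t - PBQ1.hr (x i)) := by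
    funext t
    exact PBQ1.rhoR_line h1 t
  obtain ⟨p1, p2⟩ := Pool.Agent.PB.int_Pc (x := 0) (by rw [abs_zero]; exact Bd.l_pos)
  simp only [Complex.ofReal_zero, zero_mul, add_zero] at p1 p2
  have e2 : ∀ i, (fun t : ℝ => NUMF.Pc (t - PBQ1.hr (x i))) =
      fun t : ℝ => NUMF.Pc ((t - (x i).im : ℝ) : ℂ) := by
    intro i
    funext t
    congr 1
    unfold PBQ1.hr
    apply Complex.ext <;> simp [hx.re i, sub_eq_add_neg]
  have i2 : ∀ i, Integrable fun t : ℝ => NUMF.Pc (t - PBQ1.hr (x i)) := by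
    intro i
    rw [e2 i]
    exact p1.comp_sub_right _
  have e3 : ∫ t : ℝ, rhoR x (vl l t) = ∫ t : ℝ, ∑ i, NUMF.Pc (t - PBQ1.hr (x i)) :=
    congrArg (fun f : ℝ → ℂ => ∫ t, f t) e
  rw [e3, e]
  refine ⟨integrable_finsetSum _ fun i _ => i2 i, ?_⟩
  rw [integral_finsetSum _ fun i _ => i2 i]
  have e4 : ∀ i, ∫ t : ℝ, NUMF.Pc (t - PBQ1.hr (x i)) = 1 := by
    intro i
    rw [e2 i]
    have := integral_sub_right_eq_self (fun t : ℝ => NUMF.Pc (t : ℂ)) ((x i).im) (μ := volume)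
    rw [this, p2]
  simp [e4]

variable [Fil]

theorem rhoK_rows {m : ℕ} {x : Fin m → ℂ} (hx : Rws0 x) :
    RhoK (PBQ1.rhK2 x) fun t => rhoR x (vl l t) :=
  ⟨fun _ _ => rfl, fun s k u => PBQ1.rhK2_some x s k u, (rho_mass hx).1⟩

/-- **the lines and the density of the rows** -/
theorem ln_row {P : NUO.Par} (hP : NURow.ParP P) {x0 : ℝ} (h0 : 11 / 20 * l < x0)
    (h1 : x0 < 11 / 10 * l) {m N : ℕ} (hN : N = 2 * m) {x : Fin m → ℂ} (hx : Rws0 x) :
    Ln P x0 N DR (PBQ1.rhK2 x) fun t => rhoR x (vl l t) where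
  hP := PBOb.PLX.ParO.of hP
  hx := h0
  hD := dOk_DR
  hw := fun n _ _ _ k k' _ _ i t => all_DR hP h0 h1 n (n + dN N) k k' i t
  hρ := rhoK_rows hx
  ch := by
    rw [(rho_mass hx).2, hN, dN_two, ← Complex.ofReal_natCast (Fil.xn m), Fil.cast_xn]
    push_cast
    ring

theorem parP_par0 [NUSea.Sea] (k : ℕ) : NURow.ParP (NUSea.PLX.O.par0 k) := by
  have h := parZ_parC k
  refine ⟨rfl, le_rfl, h.d0, fun r => ?_⟩
  have h1 := h.e2 r
  have h2 := h.d0 r
  linarith

end PBRep.PLX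

end
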