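import Pool.Agent.PLX.Ns
import Pool.Agent.PLX.PB.ZPos

/-!
# Two fillings, (Z): the derivatives in the height of the legs (helper61)

Class functions `Zm Z0 (lgK z)`: `Z0` without legs, legs at `z = i τ`; normaliser `c τ` with
`c' = M c`, `M τ = (b true + b false) ∫ ρ dl (t - τ)` (`Fil.b s * ρ` = density of the species `s`).
`vP ρ g`: the test function `g` of the height at the quanta on the curves minus the mean
`(b true + b false) ∫ ρ g`; `obP g`: its part of the objects and their satellites.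

* `wC_Zm`, `WT_eq`: the legs as a factor of the weight;
* **`zpath`**: the structure `ZPath` of `ZAbs` on the configurations `CfN N`;
* **`leg_d1`, `leg_d2`**: first and second derivative of the functional, exact;
* **`leg_b1`, `leg_b2`**: `F[V h0] + f_τ` and `F[V h0 V h0] + F[V g2] - f_ττ` against the pinned
  functionals `pI`, `pI (1 + r + |V h0|)`.
-/

set_option autoImplicit false
set_option linter.unusedSectionVars false
set_option linter.unusedVariables false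

noncomputable section

open Complex MeasureTheory Finset Filter Topology
open scoped ENNReal

open PLX (Fil)

namespace PBLg.PLX

open NUO NUP1S NUP1S.AbC NUGC NUGC.PLX NUCR PBF PBF.PLX PBFunc PBFunc.PLX
open PBI (Stt)
open NUMF (l P)

/-! ### measurability -/

theorem measurable_lg1 (z : ℂ) : Measurable (lg1 z) := by
  unfold lg1
  fun_prop

theorem measurable_lgK (z : ℂ) (s : Bool) (k : Option O3) : Measurable (lgK z s k) := by
  have h1 := measurable_lg1 z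
  have h2 : Measurable fun u : ℂ => lg1 z (u - l) := h1.comp (measurable_id.sub_const _)
  rcases k with _ | _ | _ | _
  · exact h1
  · exact h1
  · exact h1.mul h2
  · exact h1.mul h2

theorem measurable_hgt : Measurable hgt := by
  unfold hgt
  fun_prop

theorem measurable_csS {g : ℂ → ℂ} (hg : Measurable g) (s : Bool) (k : Option O3) :
    Measurable (csS g s k) := by
  have h1 : Measurable fun u : ℂ => g (hgt u) := hg.comp measurable_hgt
  have h2 : Measurable fun u : ℂ => g (hgt (u - l)) := h1.comp (measurable_id.sub_const _)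
  rcases k with _ | _ | _ | _
  · exact h1
  · exact h1
  · exact h1.add h2
  · exact h1.add h2

theorem measurable_dl : Measurable dl := by
  have e : dl = fun z => Complex.sinh z / Complex.cosh z +
      I * (Complex.cos (l - I * z) / Complex.sin (l - I * z)) := by
    funext z
    unfold dl Complex.cot
    rw [Complex.tanh_eq_sinh_div_cosh]
  rw [e]
  fun_prop

theorem measurable_dl2 : Measurable dl2 := by
  unfold dl2
  fun_prop

theorem measurable_dls (τ : ℝ) : Measurable fun z : ℂ => dl (z - τ) :=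
  measurable_dl.comp (measurable_id.sub_const _)

theorem measurable_dls2 (τ : ℝ) : Measurable fun z : ℂ => dl2 (z - τ) :=
  measurable_dl2.comp (measurable_id.sub_const _)

/-! ### bounds at a constituent -/

theorem ap_lgK_bd : ∃ b B : ℝ, 0 < b ∧ b ≤ 1 ∧ 1 ≤ B ∧ ∀ (τ : ℝ) (c : Cst), PosOk c →
    b ≤ ‖ap (lgK (I * τ)) c‖ ∧ ‖ap (lgK (I * τ)) c‖ ≤ B := by
  obtain ⟨b, B, hb, hb1, hB, h⟩ := lg1_bd
  refine ⟨b ^ 2, B ^ 2, by positivity, pow_le_one₀ hb.le hb1, one_le_pow₀ hB, fun τ c hc => ?_⟩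
  have hB0 : 0 ≤ B := by linarith
  have q1 : b ^ 2 ≤ b := by nlinarith
  have q2 : B ≤ B ^ 2 := by nlinarith
  obtain ⟨⟨s, k⟩, u⟩ := c
  obtain ⟨h1, h2⟩ := hc
  obtain ⟨a1, a2⟩ := h τ u h1
  rcases k with _ | _ | _ | _
  · exact ⟨q1.trans a1, a2.trans q2⟩
  · exact ⟨q1.trans a1, a2.trans q2⟩
  · obtain ⟨a3, a4⟩ := h τ _ (h2 trivial)
    show b ^ 2 ≤ ‖lg1 (I * τ) u * lg1 (I * τ) (u - l)‖ ∧ ‖lg1 (I * τ) u * lg1 (I * τ) (u - l)‖ ≤ B ^ 2
    rw [norm_mul, pow_two, pow_two]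
    exact ⟨mul_le_mul a1 a3 hb.le (norm_nonneg _), mul_le_mul a2 a4 (norm_nonneg _) hB0⟩
  · obtain ⟨a3, a4⟩ := h τ _ (h2 trivial)
    show b ^ 2 ≤ ‖lg1 (I * τ) u * lg1 (I * τ) (u - l)‖ ∧ ‖lg1 (I * τ) u * lg1 (I * τ) (u - l)‖ ≤ B ^ 2
    rw [norm_mul, pow_two, pow_two]
    exact ⟨mul_le_mul a1 a3 hb.le (norm_nonneg _), mul_le_mul a2 a4 (norm_nonneg _) hB0⟩

theorem ap_csS_le {g : ℂ → ℂ} {τ K : ℝ} (hK : 0 ≤ K)
    (h : ∀ u, InR u → ‖g (hgt u)‖ ≤ K * Real.exp (-(2 * |u.im - τ|))) {c : Cst} (hc : PosOk c) :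
    ‖ap (csS g) c‖ ≤ 2 * K * Real.exp (-(2 * |c.2.im - τ|)) := by
  obtain ⟨⟨s, k⟩, u⟩ := c
  obtain ⟨h1, h2⟩ := hc
  have a1 := h u h1
  have hE := Real.exp_pos (-(2 * |u.im - τ|))
  have hp : 0 ≤ K * Real.exp (-(2 * |u.im - τ|)) := by positivity
  have im0 : (u - (l : ℂ)).im = u.im := by simp
  rcases k with _ | _ | _ | _
  · show ‖g (hgt u)‖ ≤ 2 * K * Real.exp (-(2 * |u.im - τ|))
    nlinarith
  · show ‖g (hgt u)‖ ≤ 2 * K * Real.exp (-(2 * |u.im - τ|))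
    nlinarith
  · have a3 := h _ (h2 trivial)
    simp only [im0] at a3
    show ‖g (hgt u) + g (hgt (u - l))‖ ≤ 2 * K * Real.exp (-(2 * |u.im - τ|))
    refine (norm_add_le _ _).trans ?_
    linarith
  · have a3 := h _ (h2 trivial)
    simp only [im0] at a3
    show ‖g (hgt u) + g (hgt (u - l))‖ ≤ 2 * K * Real.exp (-(2 * |u.im - τ|))
    refine (norm_add_le _ _).trans ?_
    linarith

/-- the satellites are near their object -/
theorem cst_im {jL e ρ : ℝ} (r1 : 0 < ρ) (r2 : ρ ≤ l / 16) (x : Xo) : ∀ c ∈ cst jL e ρ x,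
    |c.2.im - ht x| ≤ l / 16 := by
  have hl := NUMF.l_pos
  have hS : (posS e (ht x)).im = ht x := by
    unfold posS
    rw [vl_im']
  intro c hc
  unfold cst at hc
  rcases hk : kd x with _ | _ | _ | _ | _ <;> rw [hk] at hc <;>
    simp only [List.mem_cons, List.not_mem_nil, or_false] at hc
  · subst hc
    show |(posL jL (ht x)).im - ht x| ≤ l / 16
    unfold posL
    rw [vl_im', sub_self, abs_zero]
    positivity
  · subst hc
    show |(posT (ht x)).im - ht x| ≤ l / 16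
    unfold posT
    rw [vl_im', sub_self, abs_zero]
    positivity
  · subst hc
    show |(posS e (ht x)).im - ht x| ≤ l / 16
    rw [hS, sub_self, abs_zero]
    positivity
  · rcases hc with rfl | rfl
    · show |(posS e (ht x)).im - ht x| ≤ l / 16
      rw [hS, sub_self, abs_zero]
      positivity
    · show |(posV e ρ (ht x) (an x)).im - ht x| ≤ l / 16
      have e1 : (posV e ρ (ht x) (an x)).im = ht x + ρ * Real.sin (2 * Real.pi * an x) := by
        unfold posV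
        rw [Complex.add_im, Complex.add_im, hS]
        have e2 : ((ρ : ℂ) * Complex.exp (2 * Real.pi * (an x : ℂ) * I)).im =
            ρ * Real.sin (2 * Real.pi * an x) := by
          rw [Complex.im_ofReal_mul]
          congr 1
          have : (2 * Real.pi * (an x : ℂ) * I) = ((2 * Real.pi * an x : ℝ) : ℂ) * I := by
            push_cast
            ring
          rw [this, Complex.exp_ofReal_mul_I_im]
        rw [e2]
        simp
      rw [e1, add_sub_cancel_left, abs_mul, abs_of_pos r1]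
      have := Real.abs_sin_le_one (2 * Real.pi * an x)
      nlinarith
  · have h2 : (posS e (ht x) + 2 * (NUP1.l : ℂ)).im = ht x := by
      rw [Complex.add_im, hS]
      simp
    rcases hc with rfl | rfl | rfl
    · show |(posS e (ht x)).im - ht x| ≤ l / 16
      rw [hS, sub_self, abs_zero]
      positivity
    · show |(posS e (ht x) + 2 * (NUP1.l : ℂ)).im - ht x| ≤ l / 16
      rw [h2, sub_self, abs_zero]
      positivity
    · show |(posS e (ht x) + 2 * (NUP1.l : ℂ)).im - ht x| ≤ l / 16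
      rw [h2, sub_self, abs_zero]
      positivity

theorem ht_im (h τ y : ℝ) (h1 : |y - h| ≤ l / 16) :
    Real.exp (-(2 * |y - τ|)) ≤ Real.exp (2 * |τ| + l / 8) * Real.exp (-(2 * |h|)) := by
  rw [← Real.exp_add, Real.exp_le_exp]
  have h2 : |h| ≤ |y - τ| + |y - h| + |τ| := by
    calc |h| = |(y - τ) - (y - h) + τ| := by ring_nf
      _ ≤ |(y - τ) - (y - h)| + |τ| := abs_add_le _ _
      _ ≤ _ := by
        have := abs_sub (y - τ) (y - h)
        linarith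
  linarith

/-! ### the objects and the quanta on the curve -/

/-- the objects and their satellites -/
def obP (g : ℂ → ℂ) (Pm : NUO.Par) : Ins := fun _ O _ _ _ =>
  ∑ i, obSt (csS g) Pm.jL (ei Pm O i) (rr Pm O i) (O i)

/-- the pinned objects -/
def pI : Ins := fun _ O _ _ _ => ((∑ i, Real.exp (-(2 * |ht (O i)|)) : ℝ) : ℂ)

variable [Fil]

/-- the number of the species, weighted with the multiplicities -/
def bS : ℂ := (Fil.b true : ℂ) + Fil.b false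

/-- the quanta on the curves, centred -/
def vP (ρ : ℝ → ℂ) (g : ℂ → ℂ) (η : Crs) : Ins := fun r O _ _ x =>
  ((∑ i, g (hgt (NUO.pA (Fil.cv true (η r O)) (x.1 i)))) +
    ∑ j, g (hgt (NUO.pA (Fil.cv false (η r O)) (x.2 j)))) - bS * ∫ t : ℝ, ρ t * g t

theorem StF_split (ρ : ℝ → ℂ) (g : ℂ → ℂ) (Pm : NUO.Par) (η : Crs) {r a b : ℕ} (O : Fin r → Xo)
    (x : (Fin a → ℝ) × (Fin b → ℝ)) : StF (csS g) Pm η r O a b x - bS * ∫ t : ℝ, ρ t * g t =
      vP ρ g η r O a b x + obP g Pm r O a b x := by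
  rw [StF_eq]
  unfold vP obP
  simp only [csS]
  ring

theorem obP_le {Pm : NUO.Par} (hP : GoodP Pm) {g : ℂ → ℂ} {τ K : ℝ} (hK : 0 ≤ K)
    (h : ∀ u, InR u → ‖g (hgt u)‖ ≤ K * Real.exp (-(2 * |u.im - τ|))) {r a b : ℕ} (O : Fin r → Xo)
    (x : (Fin a → ℝ) × (Fin b → ℝ)) :
    ‖obP g Pm r O a b x‖ ≤ 6 * K * Real.exp (2 * |τ| + l / 8) * ‖pI r O a b x‖ := by
  have e0 : ‖pI r O a b x‖ = ∑ i, Real.exp (-(2 * |ht (O i)|)) := by
    unfold pI
    rw [norm_real, Real.norm_of_nonneg (Finset.sum_nonneg fun i _ => (Real.exp_pos _).le)]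
  rw [e0, Finset.mul_sum]
  unfold obP
  refine (norm_sum_le _ _).trans (Finset.sum_le_sum fun i _ => ?_)
  unfold obSt
  have hr := rr_mem hP O i
  have h1 : ∀ c ∈ cst Pm.jL (ei Pm O i) (rr Pm O i) (O i), ‖ap (csS g) c‖ ≤
      2 * K * (Real.exp (2 * |τ| + l / 8) * Real.exp (-(2 * |ht (O i)|))) := fun c hc => by
    refine (ap_csS_le hK h (posOk_ob hP O i c hc)).trans ?_
    exact mul_le_mul_of_nonneg_left (ht_im _ _ _ (cst_im hr.1 hr.2 _ c hc)) (by positivity)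
  refine (norm_sumL (by positivity) h1 (cst_length _ _ _ _)).trans (le_of_eq ?_)
  push_cast
  ring

theorem pI_le {r a b : ℕ} (O : Fin r → Xo) (x : (Fin a → ℝ) × (Fin b → ℝ)) :
    ‖pI r O a b x‖ ≤ r := by
  unfold pI
  rw [norm_real, Real.norm_of_nonneg (Finset.sum_nonneg fun i _ => (Real.exp_pos _).le)]
  calc ∑ i : Fin r, Real.exp (-(2 * |ht (O i)|)) ≤ ∑ _i : Fin r, (1 : ℝ) :=
        Finset.sum_le_sum fun i _ => Real.exp_le_one_iff.2 (by
          have := abs_nonneg (ht (O i))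
          linarith)
    _ = r := by simp

/-! ### the weight -/

section weight

variable {Z0 : Stt} {Pm : NUO.Par} {N : ℕ} {η η' : ℕ → Crs}

/-- a multiplicative insertion as a factor of the weight -/
theorem wC_Zm (Z g : Stt) (Pm : NUO.Par) (n n' : ℕ) (η η' : Crs) (c : Cf n n') :
    wC (Zm Z g) Pm n n' η η' c = wC Z Pm n n' η η' c * ev (Fa g Pm η) c := by
  unfold wC wP ev Fa
  split_ifs
  · rw [wK_mul, gK_mul]
    ring
  · rw [zero_mul]

/-- the hypotheses of this file -/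
structure LegH (Z0 : Stt) (Pm : NUO.Par) (N : ℕ) (η η' : ℕ → Crs) : Prop where
  P : GoodP Pm
  r : ∀ r, Measurable (Pm.rad r)
  Z : ∀ s k, Measurable (Z0 s k)
  c : ∀ n, MCr (η n) (η' n)
  b : ∀ n r O t, |η n r O t| ≤ l / 2
  f : ∀ n ≤ N, ∃ τ : ℝ,
    FA (Zm Z0 (lgK (I * τ))) Pm n (n + dN N) (η n) (η' n) (fun _ _ _ _ _ => 1) < ∞

/-- the weight without legs -/
def w0N (Z0 : Stt) (Pm : NUO.Par) (N : ℕ) (η η' : ℕ → Crs) : CfN N → ℂ :=
  wN (fun _ => Z0) (fun _ => Pm) N η η' fun _ => 1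

/-- the legs -/
def EN (Pm : NUO.Par) (N : ℕ) (η : ℕ → Crs) (τ : ℝ) : CfN N → ℂ :=
  evN fun n => Fa (lgK (I * τ)) Pm (η n)

/-- the statistic of all constituents -/
def AN (Pm : NUO.Par) (N : ℕ) (η : ℕ → Crs) (g : ℂ → ℂ) : CfN N → ℂ :=
  evN fun n => StF (csS g) Pm (η n)

/-- the weight with legs at `i τ` and normaliser `c τ` -/
def WT (Z0 : Stt) (Pm : NUO.Par) (N : ℕ) (η η' : ℕ → Crs) (c : ℝ → ℂ) (τ : ℝ) : CfN N → ℂ :=
  wN (fun _ => Zm Z0 (lgK (I * τ))) (fun _ => Pm) N η η' fun _ => c τ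

theorem WT_eq (Z0 : Stt) (Pm : NUO.Par) (N : ℕ) (η η' : ℕ → Crs) (c : ℝ → ℂ) (τ : ℝ) :
    WT Z0 Pm N η η' c τ = wt c (w0N Z0 Pm N η η') (EN Pm N η) τ := by
  funext x
  unfold WT wt w0N EN wN evN
  simp only [wC_Zm]
  ring

/-- the bound of the number of the constituents -/
def nC (N : ℕ) : ℕ := 8 * N + 4 * dN N

theorem len_le (Pm : NUO.Par) (η : ℕ → Crs) (x : CfN N) :
    (csA Pm (η x.1 x.2.1.1 x.2.2.1) x.2.2.1 x.2.2.2).length ≤ nC N := by
  have h1 := csA_length Pm (η x.1 x.2.1.1 x.2.2.1) x.2.2.1 x.2.2.2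
  have h2 := x.1.2
  have h3 := x.2.1.1.2
  have h4 := x.2.1.2.1.2
  have h5 := x.2.1.2.2.2
  unfold nC
  omega

theorem EN_eq (Pm : NUO.Par) (η : ℕ → Crs) (τ : ℝ) (x : CfN N) : EN Pm N η τ x =
    ((csA Pm (η x.1 x.2.1.1 x.2.2.1) x.2.2.1 x.2.2.2).map (ap (lgK (I * τ)))).prod :=
  Fa_eq _ _ _ _ _

theorem AN_eq (Pm : NUO.Par) (η : ℕ → Crs) (g : ℂ → ℂ) (x : CfN N) : AN Pm N η g x =
    ((csA Pm (η x.1 x.2.1.1 x.2.2.1) x.2.2.1 x.2.2.2).map (ap (csS g))).sum := rfl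

namespace LegH

variable (H : LegH Z0 Pm N η η')

include H

theorem ok (x : CfN N) :
    ∀ c ∈ csA Pm (η x.1 x.2.1.1 x.2.2.1) x.2.2.1 x.2.2.2, PosOk c :=
  posOk_csA H.P (fun t => H.b _ _ _ t) _ _

theorem mc (g : Stt) (hg : ∀ s k, Measurable (g s k)) (n : ℕ) :
    MC (Zm Z0 g) Pm (η n) (η' n) :=
  MC.of H.r (fun s k => (H.Z s k).mul (hg s k)) (H.c n)

theorem mc0 (n : ℕ) : MC Z0 Pm (η n) (η' n) := MC.of H.r H.Z (H.c n)

theorem mEN (τ : ℝ) : Measurable (EN Pm N η τ) :=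
  evN_meas fun n _ => MIn.Fa H.r (measurable_lgK _) (H.c n)

theorem mAN {g : ℂ → ℂ} (hg : Measurable g) : Measurable (AN Pm N η g) :=
  evN_meas fun n _ => MIn.StF H.r (measurable_csS hg) (H.c n)

/-- finiteness without legs -/
theorem f0 {n : ℕ} (hn : n ≤ N) :
    FA Z0 Pm n (n + dN N) (η n) (η' n) (fun _ _ _ _ _ => 1) < ∞ := by
  obtain ⟨b, B, hb, hb1, hB, h⟩ := ap_lgK_bd
  obtain ⟨τ, hf⟩ := H.f n hn
  rw [FA_eq (H.mc _ (measurable_lgK _) n) MIn.one] at hf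
  rw [FA_eq (H.mc0 n) MIn.one]
  have hbN : 0 < b ^ (nC N) := by positivity
  have key : ∀ c : Cf n (n + dN N), ‖wC Z0 Pm n (n + dN N) (η n) (η' n) c‖ₑ * ‖ev (n := n) (n' := n + dN N)
      (fun _ _ _ _ _ => (1 : ℂ)) c‖ₑ ≤ ENNReal.ofReal ((b ^ (nC N))⁻¹) *
        (‖wC (Zm Z0 (lgK (I * τ))) Pm n (n + dN N) (η n) (η' n) c‖ₑ * ‖ev (n := n) (n' := n + dN N)
          (fun _ _ _ _ _ => (1 : ℂ)) c‖ₑ) := by
    intro c
    have e1 : ev (n := n) (n' := n + dN N) (fun _ _ _ _ _ => (1 : ℂ)) c = 1 := rfl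
    rw [e1, enorm_one, mul_one, mul_one, wC_Zm, enorm_mul, mul_comm, mul_assoc]
    have h1 : b ^ (nC N) ≤ ‖ev (Fa (lgK (I * τ)) Pm (η n)) c‖ := by
      show b ^ (nC N) ≤ ‖Fa (lgK (I * τ)) Pm (η n) _ _ _ _ _‖
      rw [Fa_eq]
      refine norm_prodL_ge hb hb1 (fun d hd => (h τ d ?_).1) ?_
      · exact posOk_csA H.P (fun t => H.b _ _ _ t) _ _ d hd
      · have h1 := csA_length Pm (η n c.1.1 c.2.1) c.2.1 c.2.2
        have h3 := c.1.1.2
        have h4 := c.1.2.1.2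
        have h5 := c.1.2.2.2
        unfold nC
        omega
    have h2 : 1 ≤ ENNReal.ofReal ((b ^ (nC N))⁻¹) *
        ‖ev (Fa (lgK (I * τ)) Pm (η n)) c‖ₑ := by
      rw [← ofReal_norm, ← ENNReal.ofReal_mul (by positivity), ← ENNReal.ofReal_one]
      refine ENNReal.ofReal_le_ofReal ?_
      rw [inv_mul_eq_div, le_div_iff₀ hbN, one_mul]
      exact h1
    calc ‖wC Z0 Pm n (n + dN N) (η n) (η' n) c‖ₑ = 1 * ‖wC Z0 Pm n (n + dN N) (η n) (η' n) c‖ₑ := (one_mul _).symm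
      _ ≤ (ENNReal.ofReal ((b ^ (nC N))⁻¹) * ‖ev (Fa (lgK (I * τ)) Pm (η n)) c‖ₑ) *
          ‖wC Z0 Pm n (n + dN N) (η n) (η' n) c‖ₑ := mul_le_mul' h2 le_rfl
      _ = _ := by ring
  refine (lintegral_mono key).trans_lt ?_
  rw [lintegral_const_mul' _ _ ENNReal.ofReal_ne_top]
  exact ENNReal.mul_lt_top ENNReal.ofReal_lt_top hf

theorem int0 : Integrable (w0N Z0 Pm N η η') (mN N) := by
  have h1 : FAN (fun _ => Z0) (fun _ => Pm) N η η' (fun _ => 1) (fun _ _ _ _ _ _ => 1) < ∞ := by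
    unfold FAN
    rw [ENNReal.sum_lt_top]
    intro n hn
    rw [enorm_one, one_mul]
    exact H.f0 (by
      rw [Finset.mem_range] at hn
      omega)
  have h2 := WIN_of (c := fun _ => (1 : ℂ)) (Ψ := fun _ _ _ _ _ _ => (1 : ℂ))
    (fun n _ => H.mc0 n) (fun n _ => MIn.one) h1
  unfold PBFunc.WI at h2
  refine h2.congr (Eventually.of_forall fun x => ?_)
  show w0N Z0 Pm N η η' x * 1 = _
  rw [mul_one]

/-- **the path of the weights** -/
theorem zpath : ∃ B : ℝ, ZPath (mN N) (w0N Z0 Pm N η η') (EN Pm N η)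
    (fun τ => AN Pm N η fun z => dl (z - τ)) (fun τ => AN Pm N η fun z => dl2 (z - τ)) B := by
  obtain ⟨b, B, hb, hb1, hB, h⟩ := ap_lgK_bd
  obtain ⟨C, hC, hd⟩ := dls_bd
  have hC0 : 0 ≤ C := by linarith
  have hA : ∀ (g : ℂ → ℂ) (τ : ℝ), (∀ u, InR u → ‖g (hgt u)‖ ≤ C * Real.exp (-(2 * |u.im - τ|))) →
      ∀ x : CfN N, ‖AN Pm N η g x‖ ≤ nC N * (2 * C) := by
    intro g τ hg x
    rw [AN_eq]
    refine norm_sumL (by positivity) (fun c hc => (ap_csS_le hC0 hg (H.ok x c hc)).trans ?_)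
      (len_le Pm η x)
    have : Real.exp (-(2 * |c.2.im - τ|)) ≤ 1 := exp_le_one _
    nlinarith
  refine ⟨max (B ^ nC N) (nC N * (2 * C)), ⟨H.int0, fun τ => (H.mEN τ).aestronglyMeasurable,
    fun τ => (H.mAN (measurable_dls τ)).aestronglyMeasurable,
    fun τ => (H.mAN (measurable_dls2 τ)).aestronglyMeasurable, fun τ x => ?_,
    fun τ x => (hA _ τ (fun u hu => (hd τ u hu).1) x).trans (le_max_right _ _),
    fun τ x => (hA _ τ (fun u hu => (hd τ u hu).2) x).trans (le_max_right _ _), fun τ x => ?_,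
    fun τ x => ?_⟩⟩
  · rw [EN_eq]
    exact (norm_prodL hB (fun c hc => (h τ c (H.ok x c hc)).2) (len_le Pm η x)).trans
      (le_max_left _ _)
  · simp only [EN_eq, AN_eq]
    exact hasDerivAt_prodL fun c hc => hasDerivAt_lgK (H.ok x c hc)
  · simp only [AN_eq]
    exact hasDerivAt_sumL (g := fun τ : ℝ => csS fun z => dl (z - τ)) fun c hc =>
      hasDerivAt_csS (H.ok x c hc)

end LegH

end weight

/-! ### measurability of the insertions -/

section ins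

variable {Pm : NUO.Par} {η η' : Crs}

theorem MIn_obP (hP : ∀ r, Measurable (Pm.rad r)) {g : ℂ → ℂ} (hg : Measurable g) :
    MIn (obP g Pm) := fun r a b =>
  (Finset.measurable_fun_sum _ fun i _ => measurable_obSt hP (measurable_csS hg) i).comp
    measurable_fst

theorem MIn_vP (hP : ∀ r, Measurable (Pm.rad r)) (hc : MCr η η') (ρ : ℝ → ℂ) {g : ℂ → ℂ}
    (hg : Measurable g) : MIn (vP ρ g η) := by
  intro r a b
  have h1 := MIn.StF hP (measurable_csS hg) hc r a b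
  have h2 := MIn_obP hP hg r a b
  refine (congrArg Measurable (funext fun p => ?_)).mpr ((h1.sub_const (bS * ∫ t : ℝ, ρ t * g t)).sub h2)
  have := StF_split ρ g Pm η p.1 p.2
  show vP ρ g η r p.1 a b p.2 = StF (csS g) Pm η r p.1 a b p.2 - bS * (∫ t : ℝ, ρ t * g t) -
    obP g Pm r p.1 a b p.2
  rw [this]
  ring

theorem MIn_pI : MIn pI := by
  intro r a b
  unfold pI
  have h1 : Measurable fun p : (Fin r → Xo) × ((Fin a → ℝ) × (Fin b → ℝ)) =>
      ∑ i, Real.exp (-(2 * |ht (p.1 i)|)) := by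
    refine Finset.measurable_fun_sum _ fun i _ => ?_
    have h2 : Measurable fun p : (Fin r → Xo) × ((Fin a → ℝ) × (Fin b → ℝ)) => ht (p.1 i) := by
      have h3 : Measurable (ht : Xo → ℝ) := by
        unfold ht
        fun_prop
      exact h3.comp ((measurable_pi_apply i).comp measurable_fst)
    have h4 : Measurable fun y : ℝ => Real.exp (-(2 * |y|)) := by fun_prop
    exact h4.comp h2
  exact Complex.measurable_ofReal.comp h1

/-- pinned objects with the statistic of the quanta -/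
def pI2 (ρ : ℝ → ℂ) (g : ℂ → ℂ) (η : Crs) : Ins := fun r O a b x =>
  pI r O a b x * ((1 + r + ‖vP ρ g η r O a b x‖ : ℝ) : ℂ)

theorem MIn_pI2 (hP : ∀ r, Measurable (Pm.rad r)) (hc : MCr η η') (ρ : ℝ → ℂ) {g : ℂ → ℂ}
    (hg : Measurable g) : MIn (pI2 ρ g η) := fun r a b =>
  (MIn_pI r a b).mul (Complex.measurable_ofReal.comp
    (((MIn_vP hP hc ρ hg r a b).norm).const_add _))

end ins

/-! ### the derivatives -/

/-- the mean of the first derivative -/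
def Mn (ρ : ℝ → ℂ) (τ : ℝ) : ℂ := bS * ∫ t : ℝ, ρ t * dl (t - τ)

/-- the mean of the second derivative -/
def Mn2 (ρ : ℝ → ℂ) (τ : ℝ) : ℂ := bS * ∫ t : ℝ, ρ t * dl2 (t - τ)

section final

variable {Z0 : Stt} {Pm : NUO.Par} {N : ℕ} {η η' : ℕ → Crs} {ρ : ℝ → ℂ} {c : ℝ → ℂ}

/-- **the functional at height `τ`** -/
def T0 (Z0 : Stt) (Pm : NUO.Par) (N : ℕ) (η η' : ℕ → Crs) (c : ℝ → ℂ) (τ : ℝ) : ℂ :=
  F (mN N) (WT Z0 Pm N η η' c τ) fun _ => 1

/-- the first derivative -/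
def T1 (Z0 : Stt) (Pm : NUO.Par) (N : ℕ) (η η' : ℕ → Crs) (ρ : ℝ → ℂ) (c : ℝ → ℂ) (τ : ℝ) : ℂ :=
  -F (mN N) (WT Z0 Pm N η η' c τ) fun x => AN Pm N η (fun z => dl (z - τ)) x - Mn ρ τ

/-- the second derivative -/
def T2 (Z0 : Stt) (Pm : NUO.Par) (N : ℕ) (η η' : ℕ → Crs) (ρ : ℝ → ℂ) (c : ℝ → ℂ) (τ : ℝ) : ℂ :=
  F (mN N) (WT Z0 Pm N η η' c τ) fun x => (AN Pm N η (fun z => dl (z - τ)) x - Mn ρ τ) ^ 2 +
    (AN Pm N η (fun z => dl2 (z - τ)) x - Mn2 ρ τ)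

theorem AN_split (ρ : ℝ → ℂ) (g : ℂ → ℂ) (x : CfN N) :
    AN Pm N η g x - bS * ∫ t : ℝ, ρ t * g t =
      evN (fun n => vP ρ g (η n)) x + evN (fun _ => obP g Pm) x :=
  StF_split _ _ _ _ _ _

namespace LegH

variable (H : LegH Z0 Pm N η η')

include H

/-- **the functional as a sum over the number of quanta** -/
theorem T0_eq (τ : ℝ) : T0 Z0 Pm N η η' c τ = c τ * ∑ n ∈ range (N + 1),
    FF (Zm Z0 (lgK (I * τ))) Pm n (n + dN N) (η n) (η' n) (fun _ _ _ _ _ => 1) := by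
  obtain ⟨B, hB⟩ := H.zpath
  have h0 := hB.WI (c := c) (O := fun _ => (1 : ℂ)) (K := 1) aestronglyMeasurable_const
    (fun _ => by rw [norm_one]) τ
  rw [← WT_eq] at h0
  have hm : ∀ n ≤ N, MC (Zm Z0 (lgK (I * τ))) Pm (η n) (η' n) := fun n _ =>
    H.mc _ (measurable_lgK _) n
  have hf : FAN (fun _ => Zm Z0 (lgK (I * τ))) (fun _ => Pm) N η η' (fun _ => c τ)
      (fun _ _ _ _ _ _ => 1) < ∞ := by
    rw [FAN_eq hm fun n _ => MIn.one]
    have h1 := h0.2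
    unfold HasFiniteIntegral at h1
    simp only [enorm_mul] at h1
    exact h1
  have h2 := FFN_eq (c := fun _ => c τ) hm (fun n _ => MIn.one) hf
  refine h2.symm.trans ?_
  unfold FFN
  rw [Finset.mul_sum]

/-- **the first derivative** -/
theorem d1 {τ : ℝ} (hc : HasDerivAt c (Mn ρ τ * c τ) τ) :
    HasDerivAt (T0 Z0 Pm N η η' c) (T1 Z0 Pm N η η' ρ c τ) τ := by
  obtain ⟨B, hB⟩ := H.zpath
  have h := hB.f_deriv hc
  unfold T1
  have e : T0 Z0 Pm N η η' c = fun τ => F (mN N) (wt c (w0N Z0 Pm N η η') (EN Pm N η) τ)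
      (fun _ => 1) := by
    funext τ
    unfold T0
    rw [WT_eq]
  rw [e, WT_eq]
  exact h

/-- **the second derivative** -/
theorem d2 {τ : ℝ} (hc : HasDerivAt c (Mn ρ τ * c τ) τ) (hM : HasDerivAt (Mn ρ) (-(Mn2 ρ τ)) τ) :
    HasDerivAt (T1 Z0 Pm N η η' ρ c) (T2 Z0 Pm N η η' ρ c τ) τ := by
  obtain ⟨B, hB⟩ := H.zpath
  have h := hB.f_deriv2 hc hM
  unfold T2
  have e : T1 Z0 Pm N η η' ρ c = fun τ => -F (mN N) (wt c (w0N Z0 Pm N η η') (EN Pm N η) τ)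
      (fun x => AN Pm N η (fun z => dl (z - τ)) x - Mn ρ τ) := by
    funext τ
    unfold T1
    rw [WT_eq]
  rw [e, WT_eq]
  exact h

theorem vP_bdd {g : ℂ → ℂ} {C : ℝ} (hC : 0 ≤ C) (hg : ∀ u, InR u → ‖g (hgt u)‖ ≤ C) (x : CfN N) :
    ‖evN (fun n => vP ρ g (η n)) x‖ ≤ (2 * N + dN N) * C + ‖bS * ∫ t : ℝ, ρ t * g t‖ := by
  have h3 : (x.2.1.2.1 : ℕ) ≤ N := by
    have h2 := x.1.2
    have h4 := x.2.1.2.1.2
    omega
  have h5 : (x.2.1.2.2 : ℕ) ≤ N + dN N := by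
    have h2 := x.1.2
    have h4 := x.2.1.2.2.2
    omega
  have key : ∀ (s : Bool) {a K : ℕ} (ha : a ≤ K) (y : Fin a → ℝ),
      ‖∑ i, g (hgt (NUO.pA (Fil.cv s (η x.1 x.2.1.1 x.2.2.1)) (y i)))‖ ≤ K * C := by
    intro s a K ha y
    refine (norm_sum_le _ _).trans ?_
    calc ∑ i : Fin a, ‖g (hgt (NUO.pA (Fil.cv s (η x.1 x.2.1.1 x.2.2.1)) (y i)))‖ ≤ ∑ _i : Fin a, C :=
          Finset.sum_le_sum fun i _ => hg _ (InR_pA (fun t => Fil.abs_cv_le_of (H.b _ _ _ t)) _)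
      _ = a * C := by simp
      _ ≤ K * C := mul_le_mul_of_nonneg_right (by exact_mod_cast ha) hC
  show ‖((∑ i, g (hgt (NUO.pA (Fil.cv true (η x.1 x.2.1.1 x.2.2.1)) (x.2.2.2.1 i)))) +
    ∑ j, g (hgt (NUO.pA (Fil.cv false (η x.1 x.2.1.1 x.2.2.1)) (x.2.2.2.2 j)))) -
      bS * ∫ t : ℝ, ρ t * g t‖ ≤ _
  refine (norm_sub_le _ _).trans (add_le_add ((norm_add_le _ _).trans ?_) le_rfl)
  have h6 := key true h3 x.2.2.2.1
  have h7 := key false h5 x.2.2.2.2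
  push_cast at h7
  linarith

theorem obP_bdd {g : ℂ → ℂ} {τ K : ℝ} (hK : 0 ≤ K)
    (h : ∀ u, InR u → ‖g (hgt u)‖ ≤ K * Real.exp (-(2 * |u.im - τ|))) (x : CfN N) :
    ‖evN (fun _ => obP g Pm) x‖ ≤ 6 * K * Real.exp (2 * |τ| + l / 8) * (2 * N + dN N) := by
  have h1 := obP_le H.P hK h x.2.2.1 x.2.2.2
  have h2 : ‖pI x.2.1.1 x.2.2.1 x.2.1.2.1 x.2.1.2.2 x.2.2.2‖ ≤ 2 * N + dN N := by
    refine (pI_le _ _).trans ?_
    have h3 := x.1.2
    have h4 := x.2.1.1.2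
    have h5 : (x.2.1.1 : ℕ) ≤ 2 * N + dN N := by omega
    exact_mod_cast h5
  exact h1.trans (mul_le_mul_of_nonneg_left h2 (by positivity))

end LegH

/-- the constant of the bounds -/
theorem exists_const : ∃ C : ℝ, 1 ≤ C ∧ ∀ (τ : ℝ), |τ| ≤ 1 → ∀ (Pm : NUO.Par), GoodP Pm →
    (∀ u, InR u → ‖dl (hgt u - τ)‖ ≤ C * Real.exp (-(2 * |u.im - τ|)) ∧
      ‖dl2 (hgt u - τ)‖ ≤ C * Real.exp (-(2 * |u.im - τ|))) ∧
    ∀ {r a b : ℕ} (O : Fin r → Xo) (x : (Fin a → ℝ) × (Fin b → ℝ)),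
      ‖obP (fun z => dl (z - τ)) Pm r O a b x‖ ≤ C * ‖pI r O a b x‖ ∧
      ‖obP (fun z => dl2 (z - τ)) Pm r O a b x‖ ≤ C * ‖pI r O a b x‖ := by
  obtain ⟨C, hC, hd⟩ := dls_bd
  have hC0 : 0 ≤ C := by linarith
  have hl := NUMF.l_pos
  have hE : 1 ≤ Real.exp (2 + l / 8) := Real.one_le_exp (by linarith)
  refine ⟨6 * C * Real.exp (2 + l / 8), by nlinarith, fun τ hτ Pm hP => ⟨fun u hu => ?_,
    fun O x => ⟨?_, ?_⟩⟩⟩
  · have hp := Real.exp_pos (-(2 * |u.im - τ|))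
    have h1 : C ≤ 6 * C * Real.exp (2 + l / 8) := by nlinarith
    exact ⟨(hd τ u hu).1.trans (mul_le_mul_of_nonneg_right h1 hp.le),
      (hd τ u hu).2.trans (mul_le_mul_of_nonneg_right h1 hp.le)⟩
  all_goals
    have h2 : Real.exp (2 * |τ| + l / 8) ≤ Real.exp (2 + l / 8) :=
      Real.exp_le_exp.2 (by linarith)
  · refine (obP_le hP hC0 (fun u hu => (hd τ u hu).1) O x).trans ?_
    exact mul_le_mul_of_nonneg_right (mul_le_mul_of_nonneg_left h2 (by positivity)) (norm_nonneg _)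
  · refine (obP_le hP hC0 (fun u hu => (hd τ u hu).2) O x).trans ?_
    exact mul_le_mul_of_nonneg_right (mul_le_mul_of_nonneg_left h2 (by positivity)) (norm_nonneg _)

theorem enorm_combo {a b d : ℂ} {p q C : ℝ} (hp : 0 ≤ p) (hC : 1 ≤ C) (hb : ‖b‖ ≤ C * p)
    (hd : ‖d‖ ≤ C * p) (hq : p ≤ q) :
    2 * ‖a‖ₑ * ‖b‖ₑ + ‖b‖ₑ ^ 2 + ‖d‖ₑ ≤
      ENNReal.ofReal (2 * C ^ 2) * ENNReal.ofReal (p * (1 + q + ‖a‖)) := by
  have e : 2 * ‖a‖ₑ * ‖b‖ₑ + ‖b‖ₑ ^ 2 + ‖d‖ₑ =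
      ENNReal.ofReal (2 * ‖a‖ * ‖b‖ + ‖b‖ ^ 2 + ‖d‖) := by
    rw [ENNReal.ofReal_add (by positivity) (norm_nonneg _),
      ENNReal.ofReal_add (by positivity) (by positivity), ENNReal.ofReal_mul (by positivity),
      ENNReal.ofReal_mul (by norm_num), ENNReal.ofReal_pow (norm_nonneg _), ofReal_norm,
      ofReal_norm, ofReal_norm]
    simp
  rw [e, ← ENNReal.ofReal_mul (by positivity)]
  refine ENNReal.ofReal_le_ofReal ?_
  have ha := norm_nonneg a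
  have hbn := norm_nonneg b
  have hq0 : 0 ≤ q := hp.trans hq
  have c1 : C ≤ C ^ 2 := by nlinarith
  have h1 : 2 * ‖a‖ * ‖b‖ ≤ 2 * C ^ 2 * (p * ‖a‖) := by
    have : ‖a‖ * ‖b‖ ≤ ‖a‖ * (C ^ 2 * p) := by
      refine mul_le_mul_of_nonneg_left (hb.trans ?_) ha
      exact mul_le_mul_of_nonneg_right c1 hp
    nlinarith
  have h2 : ‖b‖ ^ 2 ≤ C ^ 2 * (p * q) := by
    have : ‖b‖ ^ 2 ≤ (C * p) ^ 2 := pow_le_pow_left₀ hbn hb 2
    have h3 : (C * p) ^ 2 ≤ C ^ 2 * (p * q) := by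
      rw [mul_pow, pow_two p]
      exact mul_le_mul_of_nonneg_left (mul_le_mul_of_nonneg_left hq hp) (by positivity)
    exact this.trans h3
  have h3 : ‖d‖ ≤ C ^ 2 * p := hd.trans (mul_le_mul_of_nonneg_right c1 hp)
  have h4 : 0 ≤ C ^ 2 * (p * q) := by positivity
  have h5 : 0 ≤ C ^ 2 * p := by positivity
  nlinarith

/-- **(Z)**: first derivative of the functional against the statistic of the quanta on the curve -/
theorem leg_b1 : ∃ C : ℝ, 1 ≤ C ∧ ∀ {Z0 : Stt} {Pm : NUO.Par} {N : ℕ} {η η' : ℕ → Crs}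
    (_ : LegH Z0 Pm N η η') (ρ : ℝ → ℂ) (c : ℝ → ℂ) {τ : ℝ}, |τ| ≤ 1 → ∀ {d : ℝ}, 0 ≤ d →
    FAN (fun _ => Zm Z0 (lgK (I * τ))) (fun _ => Pm) N η η' (fun _ => c τ) (fun _ => pI) ≤
      ENNReal.ofReal d →
    ‖F (mN N) (WT Z0 Pm N η η' c τ) (evN fun n => vP ρ (fun z => dl (z - τ)) (η n)) +
      T1 Z0 Pm N η η' ρ c τ‖ ≤ C * d := by
  obtain ⟨C, hC, hb⟩ := exists_const
  refine ⟨C, hC, fun {Z0 Pm N η η'} H ρ c {τ} hτ {d} hd hI => ?_⟩
  have hC0 : 0 ≤ C := by linarith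
  obtain ⟨hg, ho⟩ := hb τ hτ Pm H.P
  obtain ⟨B, hB⟩ := H.zpath
  set K : ℝ := max ((2 * N + dN N) * C + ‖bS * ∫ t : ℝ, ρ t * dl (t - τ)‖)
    (6 * C * Real.exp (2 * |τ| + l / 8) * (2 * N + dN N)) with hK
  have key := hB.bound1 (c := c) (M := Mn ρ) (τ := τ)
    (V := evN fun n => vP ρ (fun z => dl (z - τ)) (η n))
    (O := evN fun _ => obP (fun z => dl (z - τ)) Pm) (K := K) (d := C * d)
    (fun x => AN_split ρ (fun z => dl (z - τ)) x)
    (evN_meas fun n _ => MIn_vP H.r (H.c n) ρ (measurable_dls τ)).aestronglyMeasurable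
    (evN_meas fun n _ => MIn_obP H.r (measurable_dls τ)).aestronglyMeasurable
    (fun x => (H.vP_bdd hC0 (fun u hu => (hg u hu).1.trans
      (mul_le_of_le_one_right hC0 (exp_le_one _))) x).trans (le_max_left _ _))
    (fun x => (H.obP_bdd hC0 (fun u hu => (hg u hu).1) x).trans (le_max_right _ _))
    (by positivity) ?_
  · unfold T1
    rw [WT_eq]
    exact key
  · rw [← WT_eq]
    rw [FAN_eq (fun n _ => H.mc _ (measurable_lgK _) n) fun n _ => MIn_pI] at hI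
    calc ∫⁻ x, ‖WT Z0 Pm N η η' c τ x‖ₑ * ‖evN (fun _ => obP (fun z => dl (z - τ)) Pm) x‖ₑ ∂mN N
        ≤ ∫⁻ x, ENNReal.ofReal C * (‖WT Z0 Pm N η η' c τ x‖ₑ * ‖evN (fun _ => pI) x‖ₑ) ∂mN N := by
          refine lintegral_mono fun x => ?_
          have h1 : ‖evN (fun _ => obP (fun z => dl (z - τ)) Pm) x‖ₑ ≤
              ENNReal.ofReal C * ‖evN (fun _ => pI) x‖ₑ := by
            rw [← ofReal_norm, ← ofReal_norm, ← ENNReal.ofReal_mul hC0]
            exact ENNReal.ofReal_le_ofReal (ho x.2.2.1 x.2.2.2).1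
          refine (mul_le_mul' le_rfl h1).trans (le_of_eq ?_)
          ring
      _ = ENNReal.ofReal C * ∫⁻ x, ‖WT Z0 Pm N η η' c τ x‖ₑ * ‖evN (fun _ => pI) x‖ₑ ∂mN N :=
          lintegral_const_mul' _ _ ENNReal.ofReal_ne_top
      _ ≤ ENNReal.ofReal C * ENNReal.ofReal d := mul_le_mul' le_rfl hI
      _ = ENNReal.ofReal (C * d) := (ENNReal.ofReal_mul hC0).symm

/-- **(Z)**: second derivative of the functional -/
theorem leg_b2 : ∃ C : ℝ, 1 ≤ C ∧ ∀ {Z0 : Stt} {Pm : NUO.Par} {N : ℕ} {η η' : ℕ → Crs}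
    (_ : LegH Z0 Pm N η η') (ρ : ℝ → ℂ) (c : ℝ → ℂ) {τ : ℝ}, |τ| ≤ 1 → ∀ {d : ℝ}, 0 ≤ d →
    FAN (fun _ => Zm Z0 (lgK (I * τ))) (fun _ => Pm) N η η' (fun _ => c τ)
      (fun n => pI2 ρ (fun z => dl (z - τ)) (η n)) ≤ ENNReal.ofReal d →
    ‖F (mN N) (WT Z0 Pm N η η' c τ) (fun x =>
        evN (fun n => vP ρ (fun z => dl (z - τ)) (η n)) x *
          evN (fun n => vP ρ (fun z => dl (z - τ)) (η n)) x) +
      F (mN N) (WT Z0 Pm N η η' c τ) (evN fun n => vP ρ (fun z => dl2 (z - τ)) (η n)) -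
      T2 Z0 Pm N η η' ρ c τ‖ ≤ C * d := by
  obtain ⟨C, hC, hb⟩ := exists_const
  refine ⟨2 * C ^ 2, by nlinarith, fun {Z0 Pm N η η'} H ρ c {τ} hτ {d} hd hI => ?_⟩
  have hC0 : 0 ≤ C := by linarith
  obtain ⟨hg, ho⟩ := hb τ hτ Pm H.P
  obtain ⟨B, hB⟩ := H.zpath
  set K : ℝ := max (max ((2 * N + dN N) * C + ‖bS * ∫ t : ℝ, ρ t * dl (t - τ)‖)
    ((2 * N + dN N) * C + ‖bS * ∫ t : ℝ, ρ t * dl2 (t - τ)‖))
    (6 * C * Real.exp (2 * |τ| + l / 8) * (2 * N + dN N)) with hK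
  have key := hB.bound2 (c := c) (M := Mn ρ) (M2 := Mn2 ρ) (τ := τ)
    (V := evN fun n => vP ρ (fun z => dl (z - τ)) (η n))
    (O := evN fun _ => obP (fun z => dl (z - τ)) Pm)
    (V' := evN fun n => vP ρ (fun z => dl2 (z - τ)) (η n))
    (O' := evN fun _ => obP (fun z => dl2 (z - τ)) Pm) (K := K) (d := 2 * C ^ 2 * d)
    (fun x => AN_split ρ (fun z => dl (z - τ)) x)
    (fun x => AN_split ρ (fun z => dl2 (z - τ)) x)
    (evN_meas fun n _ => MIn_vP H.r (H.c n) ρ (measurable_dls τ)).aestronglyMeasurable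
    (evN_meas fun n _ => MIn_obP H.r (measurable_dls τ)).aestronglyMeasurable
    (evN_meas fun n _ => MIn_vP H.r (H.c n) ρ (measurable_dls2 τ)).aestronglyMeasurable
    (evN_meas fun n _ => MIn_obP H.r (measurable_dls2 τ)).aestronglyMeasurable
    (fun x => (H.vP_bdd hC0 (fun u hu => (hg u hu).1.trans
      (mul_le_of_le_one_right hC0 (exp_le_one _))) x).trans
        ((le_max_left _ _).trans (le_max_left _ _)))
    (fun x => (H.obP_bdd hC0 (fun u hu => (hg u hu).1) x).trans (le_max_right _ _))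
    (fun x => (H.vP_bdd hC0 (fun u hu => (hg u hu).2.trans
      (mul_le_of_le_one_right hC0 (exp_le_one _))) x).trans
        ((le_max_right _ _).trans (le_max_left _ _)))
    (fun x => (H.obP_bdd hC0 (fun u hu => (hg u hu).2) x).trans (le_max_right _ _))
    (by positivity) ?_
  · unfold T2
    rw [WT_eq]
    exact key
  · rw [← WT_eq]
    rw [FAN_eq (fun n _ => H.mc _ (measurable_lgK _) n)
      fun n _ => MIn_pI2 H.r (H.c n) ρ (measurable_dls τ)] at hI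
    have h1 : ∀ x : CfN N, ‖WT Z0 Pm N η η' c τ x‖ₑ *
        (2 * ‖evN (fun n => vP ρ (fun z => dl (z - τ)) (η n)) x‖ₑ *
          ‖evN (fun _ => obP (fun z => dl (z - τ)) Pm) x‖ₑ +
          ‖evN (fun _ => obP (fun z => dl (z - τ)) Pm) x‖ₑ ^ 2 +
          ‖evN (fun _ => obP (fun z => dl2 (z - τ)) Pm) x‖ₑ) ≤
        ENNReal.ofReal (2 * C ^ 2) * (‖WT Z0 Pm N η η' c τ x‖ₑ *
          ‖evN (fun n => pI2 ρ (fun z => dl (z - τ)) (η n)) x‖ₑ) := by
      intro x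
      have h2 := enorm_combo (a := evN (fun n => vP ρ (fun z => dl (z - τ)) (η n)) x)
        (norm_nonneg (evN (fun _ => pI) x)) hC (ho x.2.2.1 x.2.2.2).1 (ho x.2.2.1 x.2.2.2).2
        (pI_le x.2.2.1 x.2.2.2)
      have h3 : ‖evN (fun n => pI2 ρ (fun z => dl (z - τ)) (η n)) x‖ₑ =
          ENNReal.ofReal (‖evN (fun _ => pI) x‖ *
            (1 + x.2.1.1 + ‖evN (fun n => vP ρ (fun z => dl (z - τ)) (η n)) x‖)) := by
        have h4 : evN (fun n => pI2 ρ (fun z => dl (z - τ)) (η n)) x =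
            evN (fun _ => pI) x * ((1 + x.2.1.1 + ‖evN (fun n => vP ρ (fun z => dl (z - τ)) (η n)) x‖ :
              ℝ) : ℂ) := rfl
        rw [← ofReal_norm, h4, norm_mul, norm_real, Real.norm_of_nonneg (by positivity)]
      rw [h3]
      refine (mul_le_mul' le_rfl h2).trans (le_of_eq ?_)
      ring
    refine (lintegral_mono h1).trans ?_
    rw [lintegral_const_mul' _ _ ENNReal.ofReal_ne_top,
      ENNReal.ofReal_mul (p := 2 * C ^ 2) (by positivity)]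
    exact mul_le_mul' le_rfl hI

end final

end PBLg.PLX

end
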