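import Pool.Agent.PLX.Ns
import Pool.Agent.PLX.PB.ZLeg
import Pool.Agent.PLX.PfQ
import Pool.Agent.PLX.PB.StatN
import Pool.Agent.PB.EInst

/-!
# Two fillings, (Z): the prefactor as the normaliser (helper61)

The first half of `PB/ZLegL` (no parameters, no numbers of quanta): `q`-fold rows of the species Y,
prefactor `Pf z X (yq X)`.

* `lf_int`: `i lf (i τ - i h) = ∫ P (t - h) dl (t - τ)` (logarithmic derivative of a leg and a row);
* `Pf_neU`, `Pf_ne`, **`Pf_Mn`**: the prefactor as the normaliser `c`, `c' = M c`,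
  `M = Mn (rhS h) = (b true + b false) ∫ rhS h * dl (. - τ)`;
* `rhS h`: the density of the ONE-fold rows at the heights `h`;
* `Vp_vP`, `Vp_congr`, `h0T_dl`, `g2T_dl`: the statistics.
-/

set_option autoImplicit false
set_option linter.unusedSectionVars false
set_option linter.unusedVariables false

noncomputable section

open Complex MeasureTheory Finset Filter Topology
open scoped ENNReal

open PLX (Fil)

namespace PBLg.PLX

open NUO NUP1S NUP1S.AbC NUGC NUGC.PLX NUCR PBF PBF.PLX PBFunc PBFunc.PLX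
open PBI (Stt)
open NUMF (l P)
open Pool.Agent.PB (Pf Gl Lp Fp Nu LS)
open Pool.Agent.PLX (yq yqn Lf lf glQ)

/-! ### the prefactor -/

theorem Lf_QL (w : ℂ) : Lf w = QL w := rfl

/-- **the logarithmic derivative of a leg and a row is the mean** -/
theorem lf_int (h τ : ℝ) : I * lf (I * τ - h * I) = ∫ t : ℝ, (P (t - h) : ℂ) * dl (t - τ) := by
  have hl := NUMF.l_pos
  have hre : (I * (τ : ℂ) - h * I).re = 0 := by simp
  have hQ : QL (I * τ - h * I) ≠ 0 := QL_ne (by rw [hre, abs_zero]; positivity)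
  have d0 : HasDerivAt (fun τ : ℝ => I * (τ : ℂ) - h * I) I τ := by
    simpa using ((Complex.ofRealCLM.hasDerivAt (x := τ)).const_mul I).sub_const ((h : ℂ) * I)
  have d1 : HasDerivAt Lf (Lf (I * τ - h * I) * lf (I * τ - h * I)) (I * τ - h * I) :=
    Pool.Agent.PLX.Lf_HLD (by
      show -(2 * l) < _
      rw [hre]
      linarith) (by
      show _ < 5 * l
      rw [hre]
      linarith)
  have d2 := d1.comp_of_eq τ d0 rfl
  have d3 := hasDerivAt_QLI h τ
  have e : (Lf ∘ fun τ : ℝ => I * (τ : ℂ) - h * I) = fun τ : ℝ => QL (I * τ - h * I) := by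
    funext τ
    simp only [Function.comp]
    exact Lf_QL _
  rw [e] at d2
  have key := d2.unique d3
  rw [Lf_QL] at key
  have k2 : QL (I * τ - h * I) * (I * lf (I * τ - h * I)) = QL (I * τ - h * I) *
      (∫ t : ℝ, (P (t - h) : ℂ) * dl (t - τ)) := by
    have e2 : QL (I * τ - h * I) * (I * lf (I * τ - h * I)) =
        QL (I * τ - h * I) * lf (I * τ - h * I) * I := by ring
    rw [e2, key]
    ring
  exact mul_left_cancel₀ hQ k2

theorem Lp_ne {z w : ℂ} (h : |(z - w).re| < 2 * l) : Lp z w ≠ 0 := by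
  unfold Pool.Agent.PB.Lp
  exact mul_ne_zero (s2_ne h) (s3_ne h)

theorem Fp_ne {w : ℂ} (h : |w.re| < 2 * l) : Fp w ≠ 0 := by
  have hl := NUMF.l_pos
  obtain ⟨h1, h2⟩ := abs_lt.1 h
  have hl1 : NUP1.l = l := rfl
  unfold Pool.Agent.PB.Fp
  refine mul_ne_zero (mul_ne_zero (s2_ne h) (s3_ne h)) (mul_ne_zero (sin_strip ?_ ?_)
    (sin_strip ?_ ?_)) <;> rw [hl1] <;> simp <;> linarith

theorem Nu_ne {m : ℕ} {X : Fin m → ℂ} {z : ℂ} (hX : ∀ i, (X i).re = 0) (hz : z.re = 0) :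
    Nu z X ≠ 0 := by
  have hl := NUMF.l_pos
  have hl1 : NUP1.l = l := rfl
  have h0 : ∀ i j, (X i - X j).re = 0 := fun i j => by rw [sub_re, hX, hX, sub_zero]
  have h1 : ∀ i, (z - X i).re = 0 := fun i => by rw [sub_re, hX, hz, sub_zero]
  unfold Pool.Agent.PB.Nu
  refine mul_ne_zero (Finset.prod_ne_zero_iff.2 fun i _ => mul_ne_zero ?_ (Lp_ne ?_))
    (Pool.Agent.PB.P_ne fun i j => Fp_ne ?_)
  · rw [hl1]
    exact sin_strip (by simpa using hl) (by simp; linarith)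
  · rw [h1, abs_zero]
    positivity
  · rw [h0, abs_zero]
    positivity

/-- the prefactor does not vanish, any two groups of rows on the imaginary axis -/
theorem Pf_neU {m M : ℕ} {X : Fin m → ℂ} {Y : Fin M → ℂ} {z : ℂ} (hX : ∀ i, (X i).re = 0)
    (hY : ∀ i, (Y i).re = 0) (hz : z.re = 0) : Pf z X Y ≠ 0 := by
  have hl := NUMF.l_pos
  have hl1 : NUP1.l = l := rfl
  have nar : ∀ {k : ℕ} {X : Fin k → ℂ}, (∀ i, (X i).re = 0) → Pool.Agent.PB.Nar X := by
    intro k X hX i j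
    rw [sub_re, hX, hX, sub_zero, abs_zero, hl1]
    positivity
  have narz : ∀ {k : ℕ} {X : Fin k → ℂ}, (∀ i, (X i).re = 0) → Pool.Agent.PB.NarZ z X := by
    intro k X hX i
    rw [sub_re, hX, hz, sub_zero, abs_zero, hl1]
    positivity
  unfold Pool.Agent.PB.Pf
  refine div_ne_zero (mul_ne_zero (mul_ne_zero (pow_ne_zero _ (by norm_num)) ?_)
    (mul_ne_zero (Nu_ne hX hz) (Nu_ne hY hz))) (mul_ne_zero (mul_ne_zero (mul_ne_zero
      (Pool.Agent.PB.D1_ne (nar hX) (narz hX)) (Pool.Agent.PB.D1_ne (nar hY) (narz hY)))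
      (Pool.Agent.PB.D2_ne fun i j => ?_)) Pool.Agent.PB.rh0_ne)
  · rw [hl1]
    exact sin_strip (by simpa using hl) (by simp; linarith)
  · rw [sub_re, hX, hY, sub_zero, abs_zero, hl1]
    positivity

/-! ### the density -/

/-- the density of the one-fold rows at the heights `h` -/
def rhS {m : ℕ} (h : Fin m → ℝ) (t : ℝ) : ℂ := ∑ i, (P (t - h i) : ℂ)

theorem dls_cont (τ : ℝ) : Continuous fun t : ℝ => dl (t - τ) := by
  have hl := NUMF.l_pos
  have h := cont_dl (z := I * τ) (by simp; linarith) (by simp; linarith)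
  have e : (fun t : ℝ => dl (t - τ)) = fun t : ℝ => dl (t + I * (I * τ)) := by
    funext t
    congr 1
    linear_combination (-(τ : ℂ)) * I_mul_I
  rw [e]
  exact h

theorem dls2_cont (τ : ℝ) : Continuous fun t : ℝ => dl2 (t - τ) := by
  have hl := NUMF.l_pos
  have h := cont_dl2 (z := I * τ) (by simp; linarith) (by simp; linarith)
  have e : (fun t : ℝ => dl2 (t - τ)) = fun t : ℝ => dl2 (t + I * (I * τ)) := by
    funext t
    congr 1
    linear_combination (-(τ : ℂ)) * I_mul_I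
  rw [e]
  exact h

/-- bounds on the real line -/
theorem dls_real : ∃ C : ℝ, 0 ≤ C ∧ ∀ τ t : ℝ, ‖dl (t - τ)‖ ≤ C ∧ ‖dl2 (t - τ)‖ ≤ C := by
  have hl := NUMF.l_pos
  obtain ⟨C, hC, hb⟩ := dl_bd (y1 := 0) (y2 := 0) (by linarith) (by linarith)
  refine ⟨C, hC, fun τ t => ?_⟩
  obtain ⟨h1, h2⟩ := hb ((t : ℂ) - τ) (by simp) (by simp)
  exact ⟨h1.trans (mul_le_of_le_one_right hC (exp_le_one _)),
    h2.trans (mul_le_of_le_one_right hC (exp_le_one _))⟩

theorem Psh_int (h : ℝ) {f : ℝ → ℂ} {C : ℝ} (hf : Continuous f) (hC : ∀ t, ‖f t‖ ≤ C) :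
    Integrable fun t : ℝ => (P (t - h) : ℂ) * f t :=
  (NUMF.P_integrable.comp_sub_right h).ofReal.mul_bdd (c := C) hf.aestronglyMeasurable
    (Eventually.of_forall hC)

variable [Fil] {m : ℕ} {h : Fin m → ℝ}

theorem bS_eq : (bS : ℂ) = 1 + (Fil.q : ℂ) := by
  unfold bS
  rw [Fil.b_true, Fil.b_false]
  push_cast
  ring

theorem glQ_int (h τ : ℝ) :
    I * glQ Fil.q (I * τ - h * I) = bS * ∫ t : ℝ, (P (t - h) : ℂ) * dl (t - τ) := by
  rw [← lf_int, bS_eq]
  unfold Pool.Agent.PLX.glQ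
  ring

theorem Pf_ne {m : ℕ} {X : Fin m → ℂ} {z : ℂ} (hX : ∀ i, (X i).re = 0) (hz : z.re = 0) :
    Pf z X (yq X) ≠ 0 := Pf_neU hX (fun _ => hX _) hz

theorem Mn_rhS (h : Fin m → ℝ) (τ : ℝ) :
    Mn (rhS h) τ = ∑ i, bS * ∫ t : ℝ, (P (t - h i) : ℂ) * dl (t - τ) := by
  obtain ⟨C, hC, hb⟩ := dls_real
  unfold Mn rhS
  rw [← Finset.mul_sum]
  congr 1
  rw [← integral_finsetSum _ fun i _ => Psh_int (h i) (dls_cont τ) fun t => (hb τ t).1]
  refine integral_congr_ae (Eventually.of_forall fun t => ?_)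
  simp only []
  rw [Finset.sum_mul]

theorem Mn2_rhS (h : Fin m → ℝ) (τ : ℝ) :
    Mn2 (rhS h) τ = ∑ i, bS * ∫ t : ℝ, (P (t - h i) : ℂ) * dl2 (t - τ) := by
  obtain ⟨C, hC, hb⟩ := dls_real
  unfold Mn2 rhS
  rw [← Finset.mul_sum]
  congr 1
  rw [← integral_finsetSum _ fun i _ => Psh_int (h i) (dls2_cont τ) fun t => (hb τ t).2]
  refine integral_congr_ae (Eventually.of_forall fun t => ?_)
  simp only []
  rw [Finset.sum_mul]

theorem hasDerivAt_Mn (h : Fin m → ℝ) (τ : ℝ) : HasDerivAt (Mn (rhS h)) (-(Mn2 (rhS h) τ)) τ := by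
  have e : Mn (rhS h) = fun τ : ℝ => ∑ i, bS * ∫ t : ℝ, (P (t - h i) : ℂ) * dl (t - τ) :=
    funext (Mn_rhS h)
  rw [e, Mn2_rhS]
  refine (HasDerivAt.fun_sum fun i (_ : i ∈ Finset.univ) =>
    (hasDerivAt_mean (h i) τ).const_mul bS).congr_deriv ?_
  rw [← Finset.sum_neg_distrib]
  refine Finset.sum_congr rfl fun i _ => ?_
  ring

/-- **the prefactor is the normaliser** -/
theorem Pf_Mn {X : Fin m → ℂ} (hX : ∀ i, X i = I * h i) (τ : ℝ) :
    HasDerivAt (fun τ : ℝ => Pf (I * τ) X (yq X)) (Mn (rhS h) τ * Pf (I * τ) X (yq X)) τ := by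
  have hl := NUMF.l_pos
  have hl1 : NUP1.l = l := rfl
  have hz : (I * (τ : ℂ)).re = 0 := by simp
  have d0 : HasDerivAt (fun τ : ℝ => I * (τ : ℂ)) I τ := by
    simpa using (Complex.ofRealCLM.hasDerivAt (x := τ)).const_mul I
  have d1 : HasDerivAt (fun z => Pf z X (yq X))
      (Pf (I * τ) X (yq X) * ∑ i, glQ Fil.q (I * τ - X i)) (I * τ) :=
    Pool.Agent.PLX.PfQ_leg_D Fil.q (fun i => by
      rw [hX, hl1]
      simp
      positivity) (by
      constructor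
      · rw [hz, hl1]
        linarith
      · rw [hz, hl1]
        linarith)
  have d2 := d1.comp_of_eq τ d0 rfl
  refine d2.congr_deriv ?_
  rw [Mn_rhS]
  have e : ∀ i, bS * ∫ t : ℝ, (P (t - h i) : ℂ) * dl (t - τ) = I * glQ Fil.q (I * τ - X i) := fun i => by
    rw [← glQ_int, hX, mul_comm I (h i : ℂ)]
  rw [Finset.sum_congr rfl fun i _ => e i, ← Finset.mul_sum]
  ring

/-! ### the statistics -/

theorem hgt_PBF (u : ℂ) : PBF.PLX.hgt u = hgt u := by
  rw [hgt_eq]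
  unfold PBF.PLX.hgt
  rw [show (NUP1.l : ℂ) = l from rfl]
  ring

theorem Vp_vP {N : ℕ} (ρ : ℝ → ℂ) (η : ℕ → Crs) (g : ℂ → ℂ) :
    (Vp ρ η g : CfN N → ℂ) = evN fun n => vP ρ g (η n) := by
  funext x
  rw [Vp_eq]
  simp only [hgt_PBF]
  rfl

/-- the statistic depends on the test function in the strip only -/
theorem Vp_congr {N : ℕ} {ρ : ℝ → ℂ} {η : ℕ → Crs} (hη : ∀ n r O t, |η n r O t| ≤ l / 2)
    {g g' : ℂ → ℂ} (h : ∀ z : ℂ, -l < z.im → z.im < 4 * l → g z = g' z) :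
    (Vp ρ η g : CfN N → ℂ) = Vp ρ η g' := by
  have hl := NUMF.l_pos
  funext x
  rw [Vp_eq, Vp_eq]
  have e1 : ∀ (s : Bool) (t : ℝ), g (PBF.PLX.hgt (NUO.pA (Fil.cv s (η x.1 x.2.1.1 x.2.2.1)) t)) =
      g' (PBF.PLX.hgt (NUO.pA (Fil.cv s (η x.1 x.2.1.1 x.2.2.1)) t)) := fun s t => by
    have h0 : (PBF.PLX.hgt (NUO.pA (Fil.cv s (η x.1 x.2.1.1 x.2.2.1)) t)).im =
        Fil.cv s (η x.1 x.2.1.1 x.2.2.1) t := by
      rw [hgt_PBF, hgt_im, pA_re]
      ring
    obtain ⟨h1, h2⟩ := abs_le.1 (Fil.abs_cv_le_of (a := s) (hη x.1 x.2.1.1 x.2.2.1 t))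
    exact h _ (by rw [h0]; linarith) (by rw [h0]; linarith)
  have e2 : (fun u : ℝ => ρ u * g u) = fun u : ℝ => ρ u * g' u := by
    funext u
    rw [h u (by simpa using hl) (by simpa using hl)]
  rw [e2, Finset.sum_congr rfl fun i _ => e1 true _, Finset.sum_congr rfl fun i _ => e1 false _]

end PBLg.PLX

namespace PBLg.PLX

open NUO NUP1S NUP1S.AbC NUGC NUGC.PLX NUCR PBF PBF.PLX PBFunc PBFunc.PLX
open NUMF (l P)

theorem h0T_dl {τ : ℝ} {z : ℂ} (h1 : -l < z.im) (h2 : z.im < 4 * l) :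
    PBEI.h0T τ z = dl (z - τ) := by
  have e : (z - (τ : ℂ)).im = z.im := by simp
  unfold PBEI.h0T PBEI.h00
  rw [dl_eq (by rw [e]; exact h1) (by rw [e]; exact h2)]

theorem g2T_dl {τ : ℝ} {z : ℂ} (h1 : -l < z.im) (h2 : z.im < 4 * l) :
    PBEI.g2T τ z = dl2 (z - τ) := by
  have e : (z - (τ : ℂ)).im = z.im := by simp
  have hS : IsOpen {z : ℂ | -l < z.im ∧ z.im < 4 * l} :=
    (isOpen_lt continuous_const Complex.continuous_im).inter
      (isOpen_lt Complex.continuous_im continuous_const)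
  have e1 : PBEI.h0T τ =ᶠ[𝓝 z] fun z => dl (z - τ) := by
    filter_upwards [hS.mem_nhds ⟨h1, h2⟩] with w hw
    exact h0T_dl hw.1 hw.2
  unfold PBEI.g2T
  rw [e1.deriv_eq]
  have d := (hasDerivAt_dl (z := z - τ) (by rw [e]; exact h1) (by rw [e]; exact h2)).comp_of_eq z
    ((hasDerivAt_id z).sub_const (τ : ℂ)) rfl
  rw [mul_one] at d
  exact d.deriv

end PBLg.PLX

end
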