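import Pool.Agent.PLX.PB.HPot
import Pool.Agent.PLX.PB.DomL0

/-!
# PLAX: the one body factors of the dislocated function on the curve, rows at `0`

**`domL`**: the one body factor of the data `obX` (numbers `1`, `q` of rows) with rows `mu1 k x` and legs
at `z` on the curve of the species is
`2 cos l exp ((k+1) vq) (exp (Re DD) * |phi|) exp (Hleg 1 z x)`.
-/

set_option autoImplicit false
set_option linter.unusedSectionVars false

open PLX (Fil)

noncomputable section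

open Complex

namespace PBL.PLX

open NUMF (l l_pos)
open NUO (pA)
open PBX.PLX (rwC obX)
open PBX.PLX (thZ)
open Pool.Agent.PLX (rwq)

variable [Fil]

/-- **the one body factor of the dislocated function on the curve** -/
theorem domL {δ : ℝ} (hδ : 0 < δ) (hδ1 : δ ≤ l / 4) {η : ℝ → ℝ} (hη : ∀ t, |η t| ≤ δ / 2) {z x : ℂ}
    (h0 : -l + δ ≤ z.re) (h1 : z.re ≤ 4 * l - δ) (hx : |x.re| ≤ l - δ) (k : ℕ) (β : ℝ)
    (ex ex0 : Bool → List ℂ) (g : Fin 0 → NUSp.Grp) (a : Bool) (t : ℝ) :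
    (obX (2 * Real.cos NUP1.l) β (mu1 k x) ex ex0 fun _ u => thZ z u).R a (pA (Fil.cv a η) t) *
        ‖(obX (2 * Real.cos NUP1.l) β (mu1 k x) ex ex0 fun _ u => thZ z u).φ a
          (pA (Fil.cv a η) t)‖ =
      2 * Real.cos NUP1.l * (Real.exp (((k + 1 : ℕ) : ℝ) *
          vq a (NUAct.zt (NUKer.iD (Fil.cv a η)) t) +
          (NUSp.DD ((-(l / 2) : ℝ) : ℂ) ((l / 2 : ℝ) : ℂ) (List.ofFn g) a
            (NUAct.zt (NUKer.iD (Fil.cv a η)) t)).re + PBH.PLX.Hleg 1 z x η a t) *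
          ‖NUP1.phi β (List.ofFn (rwq (mu1 k x) a) ++ ex a) (pA (Fil.cv a η) t)‖) := by
  have hl := l_pos
  have hcv : ∀ t, |Fil.cv a η t| ≤ δ / 2 := fun t => Fil.abs_cv_le_of (hη t)
  have p1 := (PBH.PLX.thZ_pA hδ (by linarith) hcv h0 h1 t).1
  have p2 := (PBH.PLX.rwC_pA a hδ hcv hx t).1
  have p3 := (PBH.PLX.rwC_pA a hδ hcv (x := 0) (by simp; linarith) t).1
  have p4 := (PBH.PLX.ThN_pA hδ (by linarith) hcv t).1
  have hc := hcv t
  have hη1 : |Fil.cv a η t| < l := by linarith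
  have e0 := row0_pA a hη1
  have e4 := end0_pA a (η := Fil.cv a η) (t := t) (by linarith)
  have e3 : PBO.PLX.rwC a 0 (pA (Fil.cv a η) t) = rwC a 0 (pA (Fil.cv a η) t) := rfl
  have e2 : PBO.PLX.rwC a x (pA (Fil.cv a η) t) = rwC a x (pA (Fil.cv a η) t) := rfl
  have e1 : PBO.PLX.thZ z (pA (Fil.cv a η) t) = thZ z (pA (Fil.cv a η) t) := rfl
  have eH : Real.exp (PBH.PLX.Hleg 1 z x η a t) =
      thZ z (pA (Fil.cv a η) t) * rwC a x (pA (Fil.cv a η) t) / rwC a 0 (pA (Fil.cv a η) t) /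
      NUGC.PLX.ThN (pA (Fil.cv a η) t) := by
    unfold PBH.PLX.Hleg
    rw [one_mul, Real.exp_sub, Real.exp_sub, Real.exp_add, Real.exp_log p1, Real.exp_log p2,
      Real.exp_log p3, Real.exp_log p4, e1, e2, e3]
  have ev : Real.exp (((k + 1 : ℕ) : ℝ) * vq a (NUAct.zt (NUKer.iD (Fil.cv a η)) t)) =
      rwC a 0 (pA (Fil.cv a η) t) ^ (k + 1) := by
    rw [Real.exp_nat_mul, ← e0]
  have eg : List.ofFn g = [] := List.ofFn_zero
  rw [eg, Real.exp_add, Real.exp_add, eH, ev, e4]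
  show (2 * Real.cos NUP1.l * (∏ i, rwC a (mu1 k x i) (pA (Fil.cv a η) t)) *
    thZ z (pA (Fil.cv a η) t)) *
    ‖NUP1.phi β (List.ofFn (rwq (mu1 k x) a) ++ ex a) (pA (Fil.cv a η) t)‖ = _
  rw [prod_rwC]
  rw [e3] at p3
  have hc := p3.ne'
  have hd := p4.ne'
  obtain ⟨A, hA⟩ : ∃ A, A = rwC a 0 (pA (Fil.cv a η) t) := ⟨_, rfl⟩
  obtain ⟨T, hT⟩ : ∃ T, T = NUGC.PLX.ThN (pA (Fil.cv a η) t) := ⟨_, rfl⟩
  rw [← hA] at hc ⊢
  rw [← hT] at hd ⊢
  field_simp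
  ring

end PBL.PLX

end
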