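import Pool.Agent.PLX.Ns
import Pool.Agent.PLX.PotH.Crv
import Pool.Agent.PLX.NUSea.Par0
import Pool.Agent.PLX.NUSea.MFC
import Pool.Agent.PLX.NUGC.CurEx
import Pool.Agent.PLX.PB.FDef
import Pool.Agent.PLX.PB.DomL

/-!
# Plan B, two fillings: the dislocated function, definitions and the numbers of its current

Rows `mu1 k x` (`k + 1` rows of X, every row `q`-fold in Y), legs at `z`, parameters and curve of
`m = k + 1 + e` rows (`e = Ends.e`, the ends which count as rows).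

* `pL m`, `etL`, `etL'`, `crL`, `crL'`: parameters and curve;
* `obL k β x z`: one body data; `ZL`: class functions; `rws_mu1`, `two_cos`, `obL_nn`;
* **`cur_num`**: the exponents of the current; **`crvL`**: the curve is admissible;
* `HlegS`: the potential of the legs and of the missing rows; **`hokS`**: it is admissible up to a source;
* **`domS`**: the one body factor on the curve;
* `linS`: mean field value, energy and linear terms of the current.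
-/

set_option autoImplicit false
set_option linter.unusedSectionVars false

noncomputable section

open Complex MeasureTheory Finset
open PLX (Fil Ends)

namespace PBT.PLX

open NUO NUP1 NUP1S NUP1S.Ab NUP1S.AbC NUGC.PLX PBF.PLX
open NUGC (aC aC_le)
open PBX (Lg gP Rws)
open PBX.PLX (obX obX_nn)
open PBL.PLX (mu1 vq)
open Pool.Agent.PLX (XXU rwq)

section

variable [NUSea.Sea]

/-- the parameters -/
abbrev pL (m : ℕ) : Par := NUSea.PLX.O.par0 m

/-- the curve of the sea of the rows at `0` -/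
def etL (e1 J : ℝ) (m : ℕ) : ℝ → ℝ := etaC e1 J m m

/-- its derivative -/
def etL' (e1 J : ℝ) (m : ℕ) : ℝ → ℝ := etaC' e1 J m m

/-- the curve as a family -/
def crL (e1 J : ℝ) (m : ℕ) : Crs := fun _ _ => etL e1 J m

/-- its derivative -/
def crL' (e1 J : ℝ) (m : ℕ) : Crs := fun _ _ => etL' e1 J m

/-- the current of the curve -/
theorem mul_etL (e1 J : ℝ) {m : ℕ} (hm : 1 ≤ m) (t : ℝ) :
    (m : ℝ) * NUSea.P t * etL e1 J m t = hC e1 J m t :=
  mul_etaC (by exact_mod_cast hm) t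

/-- the exponents of the current: `-(1 - e1) Tb + 2 |Im z| + O(1)` -/
theorem cur_num {e1 : ℝ} (he : 0 < e1) (he1 : e1 ≤ 1 / 100) {J : ℝ} (hJ : 0 ≤ J) :
    ∃ C : ℝ, 0 ≤ C ∧ ∃ m0 : ℕ, 1 ≤ m0 ∧ ∀ m : ℕ, m0 ≤ m → 20 ≤ Tb (Real.log m) ∧
      (∀ t, |NUSea.PLX.hd m (etL e1 J m) (etL' e1 J m) t| ≤ 1) ∧
      ∀ y : ℝ, |y| ≤ 3 / 20 * Real.log m + 2 →
        NUCR.bil (NUSea.PLX.hd m (etL e1 J m) (etL' e1 J m)) (NUSea.PLX.hd m (etL e1 J m) (etL' e1 J m)) -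
          12 * NUMF.l * ((m : ℝ) * NUSea.P y * etL e1 J m y) ≤
            -((1 - e1) * Tb (Real.log m)) + 2 * |y| + C := by
  obtain ⟨C1, hC1, H1⟩ := bil_curC he
  obtain ⟨C2, hC2, H2⟩ := hC_lip he
  obtain ⟨C3, hC3, H3⟩ := hC_slope he
  have t1 := Real.tendsto_log_atTop.comp tendsto_natCast_atTop_atTop
  obtain ⟨m0, hm0⟩ := Filter.eventually_atTop.1
    ((t1.eventually_ge_atTop (160 / 3 : ℝ)).and (t1.eventually_ge_atTop (16 / 3 * (C3 * J))))
  refine ⟨C1 * (1 + J) ^ 2 + 12 * NUMF.l * (C2 * J), by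
    have := NUMF.l_pos
    positivity, max m0 1, le_max_right _ _, fun m hm => ?_⟩
  obtain ⟨a1, a2⟩ := hm0 m ((le_max_left _ _).trans hm)
  have a1' : (160 / 3 : ℝ) ≤ Real.log m := a1
  have a2' : 16 / 3 * (C3 * J) ≤ Real.log m := a2
  have hm1 : 1 ≤ m := (le_max_right _ _).trans hm
  have hmp : (0 : ℝ) < m := by exact_mod_cast hm1
  have hT : 20 ≤ Tb (Real.log m) := by
    unfold Tb
    linarith
  have hTb : Tb (Real.log m) = 3 / 8 * Real.log m := rfl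
  have hl := NUMF.l_pos
  refine ⟨hT, fun t => ?_, fun y hy => ?_⟩
  · unfold etL etL'
    rw [hd_curC hmp]
    have b1 := (H3 J hJ m he1 hT t)
    have b2 : C3 * J / Tb (Real.log m) ≤ 1 / 2 := by
      rw [div_le_iff₀ (by linarith), hTb]
      linarith
    linarith [aC_le]
  · have b1 := (H1 J hJ m he1 hT m hmp).2
    have b2 := H2 J hJ m he1 hT 0 y
    rw [mul_etL e1 J hm1]
    have b3 : hC e1 J m 0 - hC e1 J m y ≤ (aC + C2 * J / Tb (Real.log m)) * |y| := by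
      have := (le_abs_self _).trans b2
      rwa [zero_sub, abs_neg] at this
    have b4 : 12 * NUMF.l * (aC * |y|) = 2 * |y| := by
      unfold aC NUMF.l
      have := Real.pi_ne_zero
      field_simp
      ring
    have b5 : C2 * J / Tb (Real.log m) * |y| ≤ C2 * J := by
      rw [div_mul_eq_mul_div, div_le_iff₀ (by linarith)]
      refine mul_le_mul_of_nonneg_left ?_ (by positivity)
      rw [hTb]
      linarith
    have b6 : 12 * NUMF.l * (hC e1 J m 0 - hC e1 J m y) ≤ 2 * |y| + 12 * NUMF.l * (C2 * J) := by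
      calc 12 * NUMF.l * (hC e1 J m 0 - hC e1 J m y) ≤
          12 * NUMF.l * ((aC + C2 * J / Tb (Real.log m)) * |y|) :=
            mul_le_mul_of_nonneg_left b3 (by positivity)
        _ = 12 * NUMF.l * (aC * |y|) + 12 * NUMF.l * (C2 * J / Tb (Real.log m) * |y|) := by ring
        _ ≤ _ := by
            rw [b4]
            have := mul_le_mul_of_nonneg_left b5 (show 0 ≤ 12 * NUMF.l by positivity)
            linarith
    have e1' : 12 * (Real.pi / 8) = 12 * NUMF.l := rfl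
    rw [e1'] at b1
    have e2 : NUSea.PLX.hd (m : ℝ) (etL e1 J m) (etL' e1 J m) =
        NUSea.PLX.hd (m : ℝ) (etaC e1 J m m) (etaC' e1 J m m) := rfl
    rw [e2]
    linarith

/-- the slope of the current is at most one for large `m` -/
theorem slopeL {e1 : ℝ} (he : 0 < e1) (he1 : e1 ≤ 1 / 100) {J : ℝ} (hJ : 0 ≤ J) : ∃ m0 : ℕ,
    ∀ m ≥ m0, 20 ≤ Tb (Real.log m) → ∀ t t', |hC e1 J m t - hC e1 J m t'| ≤ |t - t'| := by
  obtain ⟨C, hC0, H⟩ := hC_lip he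
  have h1 := (Real.tendsto_log_atTop.comp tendsto_natCast_atTop_atTop).eventually_ge_atTop
    (16 / 3 * (C * J))
  obtain ⟨m0, hm0⟩ := Filter.eventually_atTop.1 h1
  refine ⟨m0, fun m hm hT t t' => (H J hJ m he1 hT t t').trans ?_⟩
  have a1 : 16 / 3 * (C * J) ≤ Real.log m := hm0 m hm
  have a2 : C * J / Tb (Real.log m) ≤ 1 / 2 := by
    rw [div_le_iff₀ (by linarith)]
    unfold Tb
    linarith
  have a3 := aC_le
  calc (aC + C * J / Tb (Real.log m)) * |t - t'| ≤ 1 * |t - t'| :=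
        mul_le_mul_of_nonneg_right (by linarith) (abs_nonneg _)
    _ = |t - t'| := one_mul _

/-- **the curve is admissible** -/
theorem crvL {e1 : ℝ} (he : 0 < e1) (he1 : e1 ≤ 1 / 100) {J : ℝ} (hJ : 0 ≤ J) :
    ∃ Cc : ℝ, 1 ≤ Cc ∧ ∃ m0 : ℕ, 1 ≤ m0 ∧ ∀ m ≥ m0,
      PotH.PLX.CrvP e1 Cc m (etL e1 J m) (etL' e1 J m) := by
  obtain ⟨C, hC1, m0, hm0, H⟩ := exists_curC he he1 hJ (x := 1 / 100) (by norm_num)
  obtain ⟨m1, H2⟩ := slopeL he he1 hJ
  refine ⟨C, hC1, max m0 m1, hm0.trans (le_max_left _ _), fun m hm => ?_⟩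
  obtain ⟨hT, H1⟩ := H m ((le_max_left _ _).trans hm)
  have H2 := H2 m ((le_max_right _ _).trans hm) hT
  have hm1 : 1 ≤ m := hm0.trans ((le_max_left _ _).trans hm)
  have hmp : (0 : ℝ) < m := by exact_mod_cast hm1
  have hmn : (0 : ℝ) ≤ m := hmp.le
  obtain ⟨ε, e, h1, h2, h3, h4⟩ := H1 m (by linarith)
  exact
    { cur := ⟨ε, e, h1, h2, h3, h4⟩
      d := fun t => etaC_hasDeriv e1 J m m t
      c := etaC'_cont e1 J m m
      nn := fun t => etaC_nonneg he1 hJ hT hmn t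
      lip := fun t t' => by
        have a1 : (m : ℝ) * NUSea.P t * etL e1 J m t = hC e1 J m t := mul_etaC hmp t
        have a2 : (m : ℝ) * NUSea.P t' * etL e1 J m t' = hC e1 J m t' := mul_etaC hmp t'
        rw [a1, a2]
        exact H2 t t' }

end

/-! ### rows and one body data -/

theorem two_cos : 0 ≤ 2 * Real.cos NUP1.l ∧ 2 * Real.cos NUP1.l ≤ 2 := by
  have h1 := Real.cos_le_one NUP1.l
  have h2 : 0 ≤ Real.cos NUP1.l := by
    refine Real.cos_nonneg_of_mem_Icc ⟨?_, ?_⟩ <;> unfold NUP1.l <;> linarith [Real.pi_pos]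
  constructor <;> linarith

theorem rws_mu1 (k : ℕ) {x : ℂ} (hx : |x.re| ≤ NUP1.l / 2) : Rws (mu1 k x) := by
  intro i
  have hl := NUP1.l_pos
  unfold PBL.PLX.mu1
  refine Fin.cases ?_ (fun j => ?_) i
  · simpa using hx
  · simp
    positivity

variable [Fil]

/-- one body data: rows `x, 0, …, 0`, legs at `z`, cutoff with the points `± i` -/
def obL (k : ℕ) (β : ℝ) (x z : ℂ) : OB :=
  obX (2 * Real.cos NUP1.l) β (mu1 k x) (fun _ => [I, -I]) (fun _ => [])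
    fun _ u => PBX.PLX.thZ z u

/-- the class functions -/
def ZL (c : Bool → ℂ) (k : ℕ) (β : ℝ) (x z : ℂ) : Bool → Option O3 → ℂ → ℂ := fun a =>
  XXU (c a) β (rwq (mu1 k x) a) (rwq (mu1 k x) !a) (gP β [I, -I]) (gP (4 / 3) []) (Lg z z)
    (fun w => Lg z z w * Lg z z (w - NUP1.l))

theorem obL_nn (k : ℕ) (β : ℝ) (x z : ℂ) : (obL k β x z).Nn :=
  obX_nn two_cos.1 β _ _ _ fun _ u => PBX.PLX.thZ_nonneg z u

/-! ### the potential of the missing rows -/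

variable [Ends]

section

variable [NUSea.Sea]

/-- legs at `z`, row `x`, ends `1`, and `e` one-fold rows at `0` missing -/
def HlegS (z x : ℂ) (η : ℝ → ℝ) (a : Bool) (t : ℝ) : ℝ :=
  PBH.PLX.Hleg 1 z x η a t - ((Ends.e : ℕ) : ℝ) * Real.log (PBO.rwC 0 (pA (Fil.cv a η) t))

/-- **admissibility** -/
theorem hokS {δ : ℝ} (hδ : 0 < δ) (hδ1 : δ ≤ NUMF.l / 2) (c1 : ℝ) :
    ∃ B0 N0 : ℝ, 0 ≤ B0 ∧ 0 ≤ N0 ∧ ∀ e1 : ℝ, 0 < e1 → ∃ m0 : ℕ, ∀ m : ℕ, m0 ≤ m →
      ∀ (Cc : ℝ) (η η1 : ℝ → ℝ), PotH.PLX.CrvP e1 Cc m η η1 → ∀ z x : ℂ,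
      -NUMF.l + δ ≤ z.re → z.re ≤ 4 * NUMF.l - δ → |x.re| ≤ NUMF.l - δ → |x.im| ≤ c1 →
      (∀ t, |η t| ≤ δ / 4) ∧ ∃ H' : Bool → ℝ → ℝ, ∀ th b : ℝ, 0 ≤ th →
        PotH.PLX.HSk B0 N0 th b (Real.log m ^ 3) (HlegS z x η) H' := by
  obtain ⟨B0, N0, hB0, hN0, H⟩ := PBH.PLX.hsk_legsS hδ hδ1 c1
  refine ⟨B0, N0, hB0, hN0, fun e1 he1 => ?_⟩
  obtain ⟨m0, H⟩ := H e1 he1
  refine ⟨m0, fun m hm Cc η η1 hη z x h0 h1 hx hc => ?_⟩
  have he : ((Ends.e : ℕ) : ℝ) ≤ 1 := by exact_mod_cast Ends.le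
  have he0 : (0 : ℝ) ≤ ((Ends.e : ℕ) : ℝ) := Nat.cast_nonneg _
  exact H m hm Cc η η1 hη 1 (Ends.e : ℕ) z x (by norm_num) (by rw [abs_of_nonneg he0]; linarith)
    h0 h1 hx hc

end

/-! ### the one body factor on the curve -/

attribute [local instance] NUSea.seaP

/-- the factor of a one-fold row at `0` on the curve -/
theorem log_row1 {η : ℝ → ℝ} {t : ℝ} (h : |η t| < NUMF.l) :
    Real.log (PBO.rwC 0 (pA η t)) = (NUSea.vs (NUAct.zt (NUKer.iD η) t)).re +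
      (NUSea.vx (NUAct.zt (NUKer.iD η) t)).re := by
  have him : (NUAct.zt (NUKer.iD η) t).im = η t := by
    unfold NUAct.zt NUKer.iD
    simp
  have hz : |(NUAct.zt (NUKer.iD η) t).im| < NUMF.l := by rw [him]; exact h
  have h1 := Pool.Agent.PLX.own_line hz
  have h2 := Pool.Agent.PLX.cross_line hz
  have e : pA η t = NUP1.l + I * (NUAct.zt (NUKer.iD η) t) := NUBR.line_pt (η t) t
  have e1 : PBO.rwC 0 (pA η t) = 1 / (‖Complex.sin (pA η t)‖ *
      ‖Complex.sin (pA η t - 2 * NUP1.l)‖) * ‖Complex.sin (pA η t + 3 * NUP1.l)‖ ^ 2 := by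
    unfold PBO.rwC
    rw [sub_zero]
    ring
  rw [NUSea.PLX.vs_seaP, NUSea.PLX.vx_seaP, e1, e, h1, h2, ← Real.exp_add, Real.log_exp]

/-- **the field of the effective numbers of rows** -/
theorem vb_ne (ho : Ends.o = 0) (k : ℕ) (a : Bool) (z : ℂ) :
    (NUSea.PLX.vb (fun a => ((Fil.ne a (k + 1 + Ends.e) : ℕ) : ℝ)) a z).re =
      ((k + 1 : ℕ) : ℝ) * vq a z +
        ((Ends.e : ℕ) : ℝ) * ((NUSea.vs z).re + (NUSea.vx z).re) := by
  have h : ∀ a : Bool, ((Fil.ne a (k + 1 + Ends.e) : ℕ) : ℝ) =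
      Fil.b a * ((k + 1 : ℕ) : ℝ) + ((Ends.e : ℕ) : ℝ) := by
    intro a
    rw [Fil.cast_ne a (by omega), ho]
    push_cast
    cases a <;> simp
  unfold NUSea.PLX.vb PBL.PLX.vq
  simp only
  rw [h a, h (!a), Complex.add_re, Complex.re_ofReal_mul, Complex.re_ofReal_mul]
  ring_nf

/-- **the one body factor on the curve** -/
theorem domS (ho : Ends.o = 0) {δ : ℝ} (hδ : 0 < δ) (hδ1 : δ ≤ NUMF.l / 4) {η : ℝ → ℝ}
    (hη : ∀ t, |η t| ≤ δ / 2) {z x : ℂ} (h0 : -NUMF.l + δ ≤ z.re) (h1 : z.re ≤ 4 * NUMF.l - δ)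
    (hx : |x.re| ≤ NUMF.l - δ) (k : ℕ) (β : ℝ) (ex ex0 : Bool → List ℂ)
    (g : Fin 0 → NUSp.Grp) (a : Bool) (t : ℝ) :
    (obX (2 * Real.cos NUP1.l) β (mu1 k x) ex ex0 fun _ u => PBX.PLX.thZ z u).R a
        (pA (Fil.cv a η) t) *
        ‖(obX (2 * Real.cos NUP1.l) β (mu1 k x) ex ex0 fun _ u => PBX.PLX.thZ z u).φ a
          (pA (Fil.cv a η) t)‖ =
      2 * Real.cos NUP1.l * (Real.exp
          ((NUSea.PLX.vb (fun a => ((Fil.ne a (k + 1 + Ends.e) : ℕ) : ℝ)) a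
            (NUAct.zt (NUKer.iD (Fil.cv a η)) t)).re +
          (NUSp.DD ((-(NUMF.l / 2) : ℝ) : ℂ) ((NUMF.l / 2 : ℝ) : ℂ) (List.ofFn g) a
            (NUAct.zt (NUKer.iD (Fil.cv a η)) t)).re + HlegS z x η a t) *
          ‖NUP1.phi β (List.ofFn (rwq (mu1 k x) a) ++ ex a) (pA (Fil.cv a η) t)‖) := by
  have hl := NUMF.l_pos
  rw [PBL.PLX.domL hδ hδ1 hη h0 h1 hx k β ex ex0 g a t, vb_ne ho]
  have hcv : |Fil.cv a η t| < NUMF.l := by
    have := Fil.abs_cv_le_of (a := a) (hη t)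
    linarith
  unfold HlegS
  rw [log_row1 hcv]
  congr 3
  ring

/-- **mean field value, energy and linear terms of the current**, `m` effective rows -/
def linS (e1 J : ℝ) (m : ℕ) (x z : ℂ) : ℝ :=
  NUSea.PLX.MF (PotH.PLX.sN m) + (NUCR.bil (NUSea.PLX.hd m (etL e1 J m) (etL' e1 J m))
    (NUSea.PLX.hd m (etL e1 J m) (etL' e1 J m)) -
      24 * NUMF.l * ((m : ℝ) * NUSea.P 0 * etL e1 J m 0) +
    ∑ a, ∫ t, PotH.PLX.sN m a * NUSea.P t * HlegS z x (etL e1 J m) a t)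

end PBT.PLX

end
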