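import Pool.Agent.PLX.Ns
import Pool.Agent.PLX.DZUcls
import Pool.Agent.PLX.PB.ClsFF
import Pool.Agent.PLX.PB.OneD
import Pool.Agent.PLX.NUSea.Par0

/-!
# PLAX: the one body functions of general rows as data of `PB/FDef` (helper45)

Rows `xr a : Fin (N a) → ℂ` of the species `a` (free sizes) and `q`-fold rows `(x | x^q)`:

* `qok_XU`, `qok_X` : regularity of the one body functions of the quanta in the strip, total charge
  `q + N true - N false`, for `q`-fold rows `q - Fil.xn m`;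
* `decZ_XU`, `decZ_X` : decay of the one body functions on their final lines;
* `parZ_low`: the radii of the circles of `par0 m` are bounded below.
-/

set_option autoImplicit false
set_option linter.unusedSectionVars false
set_option linter.unusedVariables false

noncomputable section

open Complex MeasureTheory Finset
open PLX (Fil)

namespace PBC.PLX

open NUO NUP1 NUCR NUP1S NUP1S.Ab NUP1S.AbC NUGC NUGC.PLX PBF PBF.PLX PBX PBX.PLX
open NURow (SpecQ Bdd.mono_set Bdd.cg K1 K2 DecOn_of)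
open _root_.Pool.Agent.PLX

variable {N : Bool → ℕ} {c : Bool → ℂ} {β Q : ℝ} {xr : ∀ a, Fin (N a) → ℂ}
  {g g0 s1 s2 : Bool → ℂ → ℂ} {P : NUO.Par}

/-- decay of the one body functions, rows of any numbers -/
theorem decZ_XU (hP : ParC P) (hβ : 0 < β) (hβ' : β ≤ 4 / 3) (hx : ∀ a, Rws (xr a))
    (hg : ∀ a, GOk β (g a)) (hg0 : ∀ a, GOk (4 / 3) (g0 a)) (h : ∀ a, SpecQ a Q (s1 a) (s2 a)) :
    DecZ (fun a => XXU (c a) β (xr a) (xr !a) (g a) (g0 a) (s1 a) (s2 a)) P (3 / 5 * NUP1.l)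
      (2 * β) (Q + N true - N false) :=
  decZ_XXU hP hβ hβ' hx hg hg0 h (by ring)

/-- regularity of the one body functions of the quanta, rows of any numbers -/
theorem qok_XU {δ : ℝ} (hδ : δ ≤ 1 / 20) (hβ : 0 < β) (hβ' : β ≤ 4 / 3) (hx : ∀ a, Rws (xr a))
    {ex ex0 : Bool → List ℂ} (hex : ∀ a, ∀ w ∈ ex a, |w.re| ≤ l / 2) {q : ℤ}
    (hm1 : ∀ a, Measurable (s1 a)) (hA : ∀ a, SpecAt (3 / 5 * NUP1.l) a q (s1 a)) :
    QOk (fun a => XXU (c a) β (xr a) (xr !a) (gP β (ex a)) (gP (4 / 3) (ex0 a)) (s1 a) (s2 a))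
      δ (2 * β) (q + N true - N false) := by
  have hl := Bd.l_pos
  have hsub : Ks δ ⊆ Set.Icc (3 / 5 * NUP1.l) (21 / 20 * NUP1.l) := fun y hy =>
    ⟨by linarith [hy.1], hy.2.trans (by nlinarith)⟩
  refine ⟨by linarith, fun a => ?_, fun a u hu => ?_, fun a => ?_⟩
  · exact ((measurable_RRU (c a) (xr a) (xr !a)).mul
      (measurable_ph β (xr a) (measurable_gP _ _))).mul (hm1 a)
  · have hu := hsub hu
    have h2 := diffAt_RRU (c a) (y := xr !a) PBX.PLX.NPr_A (hx a) hu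
    have h3 : DifferentiableAt ℂ (ph β (xr a) (gP β (ex a))) u := by
      have d1 := DifferentiableAt.fun_finsetProd (𝕜 := ℂ) (u := Finset.univ)
        (f := fun (i : Fin (N a)) s => psi β (s - xr a i)) (x := u) (fun i _ =>
          diffAt_psiw (PBX.PLX.NQr_A hβ hβ') (hx a i) hu)
      exact (d1.mul (diffAt_gP (PBX.PLX.NQr_A hβ hβ') (hex a) hu)).const_sub 1
    exact (h2.mul h3).mul ((hA a).df u hu)
  · have h2 := bdd_RRU (c a) (hx a) (hx !a) isCompact_Icc PBX.PLX.NPr_A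
    have h3 : Bdd (Set.Icc (3 / 5 * NUP1.l) (21 / 20 * NUP1.l)) (-(2 * β))
        (ph β (xr a) (gP β (ex a))) := by
      have hW : ∀ w ∈ List.ofFn (xr a) ++ ex a, |w.re| ≤ l / 2 := by
        intro w hw
        rcases List.mem_append.1 hw with h | h
        · obtain ⟨i, rfl⟩ := (List.mem_ofFn' _ _).1 h
          exact hx a i
        · exact hex a w h
      have h := (bdd_gP hβ (K := Set.Icc (3 / 5 * NUP1.l) (21 / 20 * NUP1.l)) isCompact_Icc
        (PBX.PLX.NQr_A hβ hβ') hW).1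
      refine Bdd.cg h fun z _ => ?_
      rw [ph_gP]
      rfl
    have h5 : Bdd (Set.Icc (3 / 5 * NUP1.l) (21 / 20 * NUP1.l))
        (-(2 * β + 2 * (sg a * (q + N true - N false) : ℤ)))
        (XXU (c a) β (xr a) (xr !a) (gP β (ex a)) (gP (4 / 3) (ex0 a)) (s1 a) (s2 a) none) := by
      refine ((h2.mul h3).mul (hA a).bd).rate ?_
      cases a <;> simp [sc, sg, Bd.chg] <;> ring
    exact Bdd.mono_set h5 hsub

/-! ### `q`-fold rows -/

variable [Fil] {m : ℕ} {x : Fin m → ℂ}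

/-- decay of the one body functions, rows `(x | x^q)` -/
theorem decZ_X (hP : ParC P) (hβ : 0 < β) (hβ' : β ≤ 4 / 3) (hx : Rws x)
    (hg : ∀ a, GOk β (g a)) (hg0 : ∀ a, GOk (4 / 3) (g0 a)) (h : ∀ a, SpecQ a Q (s1 a) (s2 a)) :
    DecZ (fun a => XXU (c a) β (rwq x a) (rwq x !a) (g a) (g0 a) (s1 a) (s2 a)) P
      (3 / 5 * NUP1.l) (2 * β) (Q - Fil.xn m) := by
  have h1 := decZ_XU (N := fun a => cond a m (Fil.q * m)) (xr := rwq x) (c := c) hP hβ hβ'
    (fun a => Rws_rwq hx a) hg hg0 h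
  have e : Q + ((cond true m (Fil.q * m) : ℕ) : ℝ) - ((cond false m (Fil.q * m) : ℕ) : ℝ) =
      Q - Fil.xn m := by
    show Q + (m : ℝ) - ((Fil.q * m : ℕ) : ℝ) = Q - Fil.xn m
    rw [← Fil.add_xn]
    push_cast
    ring
  rw [← e]
  exact h1

/-- regularity of the one body functions of the quanta, rows `(x | x^q)` -/
theorem qok_X {δ : ℝ} (hδ : δ ≤ 1 / 20) (hβ : 0 < β) (hβ' : β ≤ 4 / 3) (hx : Rws x)
    {ex ex0 : Bool → List ℂ} (hex : ∀ a, ∀ w ∈ ex a, |w.re| ≤ l / 2) {q : ℤ}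
    (hm1 : ∀ a, Measurable (s1 a)) (hA : ∀ a, SpecAt (3 / 5 * NUP1.l) a q (s1 a)) :
    QOk (fun a => XXU (c a) β (rwq x a) (rwq x !a) (gP β (ex a)) (gP (4 / 3) (ex0 a))
      (s1 a) (s2 a)) δ (2 * β) (q - Fil.xn m) := by
  have h1 := qok_XU (N := fun a => cond a m (Fil.q * m)) (xr := rwq x) (c := c) (s2 := s2)
    (ex0 := ex0) hδ hβ hβ' (fun a => Rws_rwq hx a) hex hm1 hA
  have e : q + ((cond true m (Fil.q * m) : ℕ) : ℤ) - ((cond false m (Fil.q * m) : ℕ) : ℤ) =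
      q - Fil.xn m := by
    show q + (m : ℤ) - ((Fil.q * m : ℕ) : ℤ) = q - Fil.xn m
    rw [← Fil.add_xn]
    push_cast
    ring
  rw [← e]
  exact h1

/-- the radii of the circles of `par0 m` are bounded below -/
theorem parZ_low [NUSea.Sea] (m r : ℕ) :
    ∃ ρ0, 0 < ρ0 ∧ ∀ t, ρ0 ≤ (NUSea.PLX.O.par0 m).rad r t := by
  obtain ⟨C, hC, h⟩ := NUSea.P_le
  have h1 := d0_pos r
  have h2 := l_pos0
  have h4 : 0 ≤ Real.log m := log_nn m
  refine ⟨min (min (NUP1.l * d0 r / (64 * (r + 1) * (1 + Real.log m)))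
    (d0 r / (224 * ((r : ℝ) + 1) ^ 2))) (1 / (1 + m * C)), ?_, fun t => ?_⟩
  · exact lt_min (lt_min (by positivity) (by positivity)) (by positivity)
  · rw [NUSea.PLX.O.par0_rad]
    unfold NUSea.PLX.O.rad0
    refine min_le_min le_rfl ?_
    have h5 := h t
    have h6 : Real.exp (-(8 / 3) * |t|) ≤ 1 := Real.exp_le_one_iff.2 (by
      have := abs_nonneg t
      linarith)
    have h7 : NUSea.P t ≤ C := h5.trans (mul_le_of_le_one_right hC.le h6)
    have h8 := NUSea.P_pos t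
    exact one_div_le_one_div_of_le (by positivity) (by gcongr)

end PBC.PLX

end
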