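import Pool.Agent.PLX.Ns
import Pool.Agent.PB.WardD
import Pool.Agent.PB.WardQ
import Pool.Agent.PLX.PB.ClsFF
import Pool.Agent.NURow.Fub

/-!
# Plan B: the cut term of the first Ward identity by Cauchy's estimate (helper69)

`Zep Z Zc ε = Z + ε Zc`. The functional of the straight lines is entire in `ε`; its derivative at
`ε = 0` (one factor `Z` replaced by `Zc`) is bounded by `sup_{|ε| = E} |F0 (Z + ε Zc)| / E`, and
`F0 (Z + ε Zc) = FF (Z + ε Zc)` for every `ε`.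

* `ZBdQ`: the bound of one body data on the lines, any charge `Q`;
* `ZOk`: the hypotheses of the class formula on one body data, charge `Q`; `ZOk.ep`: they are linear;
* `F0_FF`: `F0 = FF` (insertion `1`) on the final lines;
* `hasDerivAt_eps`, `F0D_cauchy`, `F0D_le_FF`, `F0D_le_FA`.
-/

set_option autoImplicit false
set_option linter.unusedSectionVars false

noncomputable section

open Complex MeasureTheory Finset
open scoped ENNReal Classical

open PLX (Fil)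

namespace PBI.PLX

open NUP1 NUP1S NUP1.Bd NURow PB

/-- the one body functions `Z + ε Zc` -/
def Zep (Z Zc : Stt) (ε : ℂ) : Stt := fun s k z => Z s k z + ε * Zc s k z

@[simp] theorem Zep_zero (Z Zc : Stt) : Zep Z Zc 0 = Z := by
  funext s k z
  simp [Zep]

theorem Zep_Zep (Z Zc : Stt) (ε δ : ℂ) : Zep (Zep Z Zc ε) Zc δ = Zep Z Zc (ε + δ) := by
  funext s k z
  simp only [Zep]
  ring

theorem measurable_Zep {Z Zc : Stt} (h : ∀ s k, Measurable (Z s k))
    (h' : ∀ s k, Measurable (Zc s k)) (ε : ℂ) (s : Bool) (k : Option O3) :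
    Measurable (Zep Z Zc ε s k) := (h s k).add ((h' s k).const_mul ε)

section one

variable {ι : Type} [Fintype ι]

/-- bound of one body data on the lines, total charge `-Q` of the family -/
def ZBdQ (c : ι → Bool × Option O3) (x : ι → ℝ) (κ Q D : ℝ) (Z : Stt) : Prop :=
  ∀ i, ∀ t : ℝ, ‖Z (c i).1 (c i).2 (vl (x i) t)‖ ≤
    D * Real.exp (-(κ * |t|) + 2 * Q * sc (co (c i)) * |t|)

theorem ZBdQ.dec {c : ι → Bool × Option O3} {x : ι → ℝ} {κ Q D : ℝ} {Z : Stt}
    (h : ZBdQ c x κ Q D Z) (i : ι) :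
    PB.DecQ κ (2 * Q * sc (co (c i))) {x i} (Z (c i).1 (c i).2) := by
  refine ⟨D, fun z hz => ?_⟩
  rw [Set.mem_singleton_iff] at hz
  have e : z = vl (x i) z.im := by
    rw [← hz]
    unfold vl
    rw [re_add_im]
  have := h i z.im
  rwa [← e] at this

/-- integrability of the integrand, any charge -/
theorem integrable_FgQ {c : ι → Bool × Option O3} {x : ι → ℝ} {Z : Stt} {κ Q D : ℝ} (hκ : 0 < κ)
    (hn : Q + ∑ i, sc (co (c i)) = 0) (hok : LnOk c x) (hm : ∀ s k, Measurable (Z s k))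
    (hZ : ZBdQ c x κ Q D Z) :
    Integrable (fun t : ι → ℝ => Fg (fun i => co (c i)) (fun i => Z (c i).1 (c i).2) (pos x t))
      (Measure.pi fun _ => volume) := by
  obtain ⟨C, hC, hb⟩ := PB.bd_Phi (o := fun i => co (c i)) (h := fun i => Z (c i).1 (c i).2) hn
    (fun i => hZ.dec i) hok
  refine Integrable.mono' ((integrable_prod_exp' (ι := ι) hκ).const_mul C)
    (measurable_Fg_pos (fun i => hm _ _) x).aestronglyMeasurable
    (Filter.Eventually.of_forall fun t => ?_)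
  rw [PB.Fg_eq_Phi]
  exact hb t

/-- integrability, any charge -/
theorem Iz_okQ {c : ι → Bool × Option O3} {x : ι → ℝ} {Z : Stt} {κ Q D : ℝ} (hκ : 0 < κ)
    (hn : Q + ∑ i, sc (co (c i)) = 0) (hok : LnOk c x) (hm : ∀ s k, Measurable (Z s k))
    (hZ : ZBdQ c x κ Q D Z) : IzOk c x Z fun _ _ _ _ => 1 := by
  unfold IzOk Fz
  simp only [one_mul]
  exact integrable_FgQ hκ hn hok hm hZ

theorem ZBdQ.ep {c : ι → Bool × Option O3} {x : ι → ℝ} {κ Q D D' : ℝ} {Z Zc : Stt}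
    (h : ZBdQ c x κ Q D Z) (h' : ZBdQ c x κ Q D' Zc) (ε : ℂ) :
    ZBdQ c x κ Q (D + ‖ε‖ * D') (Zep Z Zc ε) := by
  intro i t
  unfold Zep
  refine (norm_add_le _ _).trans ?_
  rw [norm_mul, add_mul, mul_assoc ‖ε‖]
  exact add_le_add (h i t) (mul_le_mul_of_nonneg_left (h' i t) (norm_nonneg _))

/-- **one word is differentiable in `ε`** -/
theorem hasDerivAt_ep {c : ι → Bool × Option O3} {x : ι → ℝ} {Z Zc : Stt}
    {κ Q D D' : ℝ} (hκ : 0 < κ) (hn : Q + ∑ i, sc (co (c i)) = 0) (hok : LnOk c x)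
    (hm : ∀ s k, Measurable (Z s k)) (hmc : ∀ s k, Measurable (Zc s k))
    (hZ : ZBdQ c x κ Q D Z) (hZc : ZBdQ c x κ Q D' Zc) :
    HasDerivAt (fun ε : ℂ => Iz c x (Zep Z Zc ε) fun _ _ _ _ => 1) (IzD c x Z Zc) 0 := by
  set o : ι → CO := fun i => co (c i) with ho
  set h : ℂ → ι → ℂ → ℂ := fun ε i => Zep Z Zc ε (c i).1 (c i).2 with hh
  set d : ι → ℂ → ℂ := fun i => Zc (c i).1 (c i).2 with hdd
  set D1 : ℝ := |D| + |D'| with hD1
  have hD1' : 0 ≤ D1 := by positivity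
  obtain ⟨C, hC, hg⟩ := gz_const o (fun a b => {x a - x b}) (fun a b => isCompact_singleton)
    (fun a b hab e he => by
      rw [Set.mem_singleton_iff] at he
      rw [he]
      exact hok a b hab)
  have hg' : ∀ t : ι → ℝ, ∀ a b, a ≠ b →
      ‖gz (o a) (o b) (pos x t a - pos x t b)‖ ≤
        C * Real.exp (rt (o a) (o b) * |(pos x t a - pos x t b).im|) := fun t a b hab =>
    hg a b hab _ (by simp)
  have hbe : ∀ ε ∈ Metric.ball (0 : ℂ) 1, ZBdQ c x κ Q D1 (Zep Z Zc ε) := by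
    intro ε hε i t
    have h1 := hZ.ep hZc ε i t
    refine h1.trans (mul_le_mul_of_nonneg_right ?_ (Real.exp_pos _).le)
    have h2 : ‖ε‖ ≤ 1 := by
      rw [Metric.mem_ball, dist_zero_right] at hε
      exact hε.le
    have h3 : ‖ε‖ * D' ≤ 1 * |D'| := mul_le_mul h2 (le_abs_self _) (by
      have h4 := (norm_nonneg _).trans (hZc i 0)
      by_contra hneg
      rw [not_le] at hneg
      have := mul_neg_of_neg_of_pos hneg (Real.exp_pos (-(κ * |(0 : ℝ)|) +
        2 * Q * sc (co (c i)) * |(0 : ℝ)|))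
      linarith) zero_le_one
    have := le_abs_self D
    rw [hD1]
    linarith
  have hbc : ZBdQ c x κ Q D1 Zc := by
    intro i t
    refine (hZc i t).trans (mul_le_mul_of_nonneg_right ?_ (Real.exp_pos _).le)
    have := le_abs_self D'
    have := abs_nonneg D
    linarith
  have hbd : ∀ ε ∈ Metric.ball (0 : ℂ) 1, ∀ i (t : ι → ℝ), ‖Fg o (updC i (h ε) d) (pos x t)‖ ≤
      D1 ^ Fintype.card ι * C ^ (Fintype.card ι * Fintype.card ι) *
        ∏ j, Real.exp (-(κ * |t j|)) := by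
    intro ε hε i t
    have := PB.gen_norm_leQ (o := o) hn (h := updC i (h ε) d) (z := pos x t)
      (f := fun a b => gz (o a) (o b) (pos x t a - pos x t b)) (D := D1) (κ := κ) hC
      (fun j => by
        rw [pos_im]
        unfold updC
        split_ifs with hj
        · exact hbc j (t j)
        · exact hbe ε hε j (t j)) (hg' t)
    unfold Fg
    simpa using this
  have h00 : (0 : ℂ) ∈ Metric.ball (0 : ℂ) 1 := Metric.mem_ball_self one_pos
  have hme : ∀ ε, AEStronglyMeasurable (fun t : ι → ℝ => Fg o (h ε) (pos x t))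
      (Measure.pi fun _ => volume) := fun ε =>
    (measurable_Fg_pos (fun i => measurable_Zep hm hmc ε _ _) x).aestronglyMeasurable
  have key := hasDerivAt_integral_of_dominated_loc_of_deriv_le
    (μ := Measure.pi fun _ : ι => (volume : Measure ℝ)) (𝕜 := ℂ)
    (F := fun ε t => Fg o (h ε) (pos x t))
    (F' := fun ε t => ∑ i, Fg o (updC i (h ε) d) (pos x t))
    (x₀ := 0) (s := Metric.ball 0 1)
    (bound := fun t => Fintype.card ι * (D1 ^ Fintype.card ι *
      C ^ (Fintype.card ι * Fintype.card ι) * ∏ j, Real.exp (-(κ * |t j|))))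
    (Metric.ball_mem_nhds _ one_pos) (Filter.Eventually.of_forall hme) ?_ ?_ ?_ ?_ ?_
  · have h2 := key.2
    refine (h2.congr_deriv ?_).congr_of_eventuallyEq (Filter.Eventually.of_forall fun η => ?_)
    · unfold IzD
      simp only [hh, hdd, ho, Zep_zero]
    · unfold Iz Fz
      simp only [one_mul, hh, ho]
  · exact integrable_FgQ hκ hn hok (fun s k => measurable_Zep hm hmc 0 s k) (hbe 0 h00)
  · refine Finset.aestronglyMeasurable_fun_sum _ fun i _ => ?_
    refine (measurable_Fg_pos (fun j => ?_) x).aestronglyMeasurable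
    unfold updC
    split_ifs
    · exact hmc _ _
    · exact measurable_Zep hm hmc 0 _ _
  · refine Filter.Eventually.of_forall fun t η hη => ?_
    refine (norm_sum_le _ _).trans ?_
    refine (Finset.sum_le_sum fun i _ => hbd η hη i t).trans (le_of_eq ?_)
    rw [Finset.sum_const, Finset.card_univ, nsmul_eq_mul]
  · exact ((integrable_prod_exp' (ι := ι) hκ).const_mul _).const_mul _
  · refine Filter.Eventually.of_forall fun t η hη => ?_
    have h1 := HasDerivAt.fun_finsetProd (u := (univ : Finset ι)) (x := η)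
      (f := fun i η => h η i (pos x t i)) (f' := fun i => d i (pos x t i))
      (fun i _ => by
        simp only [hh, hdd, Zep]
        simpa using ((hasDerivAt_id η).mul_const (Zc (c i).1 (c i).2 (pos x t i))).const_add
          (Z (c i).1 (c i).2 (pos x t i)))
    have h2 := h1.mul_const (PU fun a b => gz (o a) (o b) (pos x t a - pos x t b))
    refine h2.congr_deriv ?_
    rw [Finset.sum_mul]
    refine Finset.sum_congr rfl fun i _ => ?_
    rw [Fg_updC, smul_eq_mul]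

end one

/-! ## all words -/

variable {α : ℝ} {n n' : ℕ} {L : Lns} {Z Zc : Stt}

theorem sum_sc_clQ {n n' p p' : ℕ} {k : Fin p → O3} {k' : Fin p' → O3}
    (hk' : ∑ i, c3 (k' i) ≤ n') (hk : ∑ i, c3 (k i) ≤ n) :
    ((n' : ℝ) - n) + ∑ i, sc (co (cl n n' k k' i)) = 0 := by
  rw [sum_sc_cl hk' hk]
  ring

theorem F0_okQ {κ D : ℝ} (hκ : 0 < κ) (hok : AllW α n n' L fun c x => LnOk c x)
    (hm : ∀ s k, Measurable (Z s k))
    (hZ : AllW α n n' L fun c x => ZBdQ c x κ ((n' : ℝ) - n) D Z) :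
    F0Ok α n n' L Z fun _ _ _ _ => 1 := fun p p' k k' h1 h2 =>
  Iz_okQ hκ (sum_sc_clQ h1 h2) (hok p p' k k' h1 h2) hm (hZ p p' k k' h1 h2)

/-- **the functional of the straight lines is entire in `ε`** -/
theorem hasDerivAt_eps {κ D D' : ℝ} (hκ : 0 < κ) (hok : AllW α n n' L fun c x => LnOk c x)
    (hm : ∀ s k, Measurable (Z s k)) (hmc : ∀ s k, Measurable (Zc s k))
    (hZ : AllW α n n' L fun c x => ZBdQ c x κ ((n' : ℝ) - n) D Z)
    (hZc : AllW α n n' L fun c x => ZBdQ c x κ ((n' : ℝ) - n) D' Zc) (ε : ℂ) :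
    HasDerivAt (fun ε : ℂ => F0 α n n' L (Zep Z Zc ε) fun _ _ _ _ => 1)
      (F0D α n n' L (Zep Z Zc ε) Zc) ε := by
  have h0 : HasDerivAt (fun δ : ℂ => F0 α n n' L (Zep (Zep Z Zc ε) Zc δ) fun _ _ _ _ => 1)
      (F0D α n n' L (Zep Z Zc ε) Zc) 0 := by
    unfold F0 F0D
    exact hasDerivAt_Sw fun p p' k k' h1 h2 =>
      (hasDerivAt_ep hκ (sum_sc_clQ h1 h2) (hok p p' k k' h1 h2)
        (fun s k => measurable_Zep hm hmc ε s k) hmc ((hZ p p' k k' h1 h2).ep (hZc p p' k k' h1 h2) ε)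
        (hZc p p' k k' h1 h2)).const_mul _
  simp only [Zep_Zep] at h0
  have h1 : HasDerivAt (fun e : ℂ => e - ε) 1 ε := (hasDerivAt_id ε).sub_const ε
  have h2 : HasDerivAt (fun δ : ℂ => F0 α n n' L (Zep Z Zc (ε + δ)) fun _ _ _ _ => 1)
      (F0D α n n' L (Zep Z Zc ε) Zc) (ε - ε) := by rw [sub_self]; exact h0
  have h3 := HasDerivAt.comp (h := fun e : ℂ => e - ε)
    (h₂ := fun δ : ℂ => F0 α n n' L (Zep Z Zc (ε + δ)) fun _ _ _ _ => 1) ε h2 h1
  rw [mul_one] at h3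
  refine h3.congr_of_eventuallyEq (Filter.Eventually.of_forall fun e => ?_)
  simp only [Function.comp]
  congr 2
  ring

/-- **Cauchy's estimate** -/
theorem F0D_cauchy {κ D D' : ℝ} (hκ : 0 < κ) (hok : AllW α n n' L fun c x => LnOk c x)
    (hm : ∀ s k, Measurable (Z s k)) (hmc : ∀ s k, Measurable (Zc s k))
    (hZ : AllW α n n' L fun c x => ZBdQ c x κ ((n' : ℝ) - n) D Z)
    (hZc : AllW α n n' L fun c x => ZBdQ c x κ ((n' : ℝ) - n) D' Zc) {E B : ℝ} (hE : 0 < E)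
    (hB : ∀ ε : ℂ, ‖ε‖ = E → ‖F0 α n n' L (Zep Z Zc ε) fun _ _ _ _ => 1‖ ≤ B) :
    ‖F0D α n n' L Z Zc‖ ≤ B / E := by
  have h0 := hasDerivAt_eps hκ hok hm hmc hZ hZc
  have h1 := (h0 0).deriv
  rw [Zep_zero] at h1
  rw [← h1]
  have hd : Differentiable ℂ fun ε : ℂ => F0 α n n' L (Zep Z Zc ε) fun _ _ _ _ => 1 :=
    fun ε => (h0 ε).differentiableAt
  exact Complex.norm_deriv_le_of_forall_mem_sphere_norm_le hE hd.diffContOnCl
    fun ε hε => hB ε (by rwa [mem_sphere_zero_iff_norm] at hε)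

/-! ## the hypotheses of the class formula -/

/-- the hypotheses of the class formula on one body data, total charge `Q = n - n'` -/
structure ZOk (Z : Stt) (P : NUO.Par) (x0 κ κ' δ : ℝ) (Q : ℤ) : Prop where
  m : ∀ s k, Measurable (Z s k)
  d : ∀ s, ∀ u : ℂ, x0 ≤ u.re → u.re ≤ l → DifferentiableAt ℂ (Z s none) u
  dec : PBC.PLX.DecZ Z P x0 κ Q
  q : PBF.PLX.QOk Z δ κ' Q

theorem DecOn_ep {κ : ℝ} {K : Set ℝ} {f g : ℂ → ℂ} (hf : DecOn κ K f) (hg : DecOn κ K g) (ε : ℂ) :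
    DecOn κ K fun z => f z + ε * g z := by
  obtain ⟨D, hD⟩ := hf
  obtain ⟨D', hD'⟩ := hg
  refine ⟨D + ‖ε‖ * D', fun z hz => ?_⟩
  refine (norm_add_le _ _).trans ?_
  rw [norm_mul, add_mul, mul_assoc]
  exact add_le_add (hD z hz) (mul_le_mul_of_nonneg_left (hD' z hz) (norm_nonneg _))

/-- **the hypotheses are linear** -/
theorem ZOk.ep {P : NUO.Par} {x0 κ κ' δ : ℝ} {Q : ℤ} (h : ZOk Z P x0 κ κ' δ Q)
    (h' : ZOk Zc P x0 κ κ' δ Q) (ε : ℂ) : ZOk (Zep Z Zc ε) P x0 κ κ' δ Q where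
  m s k := measurable_Zep h.m h'.m ε s k
  d s u h1 h2 := (h.d s u h1 h2).add ((h'.d s u h1 h2).const_mul ε)
  dec := ⟨fun s => DecOn_ep (h.dec.A s) (h'.dec.A s) ε, fun s => DecOn_ep (h.dec.L s) (h'.dec.L s) ε,
    fun s => DecOn_ep (h.dec.T s) (h'.dec.T s) ε,
    fun s r i hi => DecOn_ep (h.dec.S s r i hi) (h'.dec.S s r i hi) ε⟩
  q := by
    refine ⟨h.q.kpos, fun s => measurable_Zep h.m h'.m ε s none,
      fun s u hu => (h.q.d s u hu).add ((h'.q.d s u hu).const_mul ε), fun s => ?_⟩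
    obtain ⟨C, hC, hb⟩ := h.q.b s
    obtain ⟨C', hC', hb'⟩ := h'.q.b s
    refine ⟨C + ‖ε‖ * C', by positivity, fun z hz => ?_⟩
    unfold Zep
    refine (norm_add_le _ _).trans ?_
    rw [norm_mul, add_mul, mul_assoc]
    exact add_le_add (hb z hz) (mul_le_mul_of_nonneg_left (hb' z hz) (norm_nonneg _))

/-- the final lines -/
def Lfin (P : NUO.Par) : Lns := ⟨lX P, lY P⟩

/-- the strips of the final lines -/
theorem strips_fin {P : NUO.Par} {x0 : ℝ} (h : GoodQ P x0) (r : ℕ) :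
    StripsQ x0 ((1 - P.jL) * l) ((1 - P.jL) * l) (-((1 + (P.e + P.d r)) * l)) (-((1 + P.e) * l))
      (-(1 / 2 * l)) (-(1 / 2 * l)) (-((1 + (P.e + P.d r)) * l)) (-(1 / 2 * l)) := by
  have hl := Bd.l_pos
  have h1 := h.j1
  have h2 := h.j2
  have h3 := h.e1
  have h4 := h.e2 r
  have h5 := h.d0 r
  have h6 := h.xp
  have h7 := h.xl r
  refine ⟨le_rfl, ?_, ?_, le_rfl, ?_, ?_, ?_, ?_, ?_, ?_, ?_, ?_⟩ <;> nlinarith

/-- **no poles on the final lines** -/
theorem lnOk_fin {P : NUO.Par} {x0 : ℝ} (h : GoodQ P x0) (n n' : ℕ) :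
    AllW x0 n n' (Lfin P) fun c x => LnOk c x := by
  have hl := Bd.l_pos
  intro p p' k k' _ _
  have hS := LOk_strips (strips_fin h (p + p'))
  have hO : ∀ i < p + p', ∀ q : O3, lnO P (p + p') i q ∈
      Set.Icc (lo4 x0 ((1 - P.jL) * l) (-((1 + (P.e + P.d (p + p'))) * l)) (-(1 / 2 * l)) (some q))
        (lo4 x0 ((1 - P.jL) * l) (-((1 + P.e) * l)) (-(1 / 2 * l)) (some q)) := by
    intro i hi q
    cases q
    · exact ⟨le_rfl, le_rfl⟩
    · have h5 := h.d0 (p + p')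
      have hr : (0 : ℝ) < ((p + p' : ℕ) : ℝ) := by
        exact_mod_cast (Nat.zero_le i).trans_lt hi
      have h6 : (i : ℝ) / ((p + p' : ℕ) : ℝ) ≤ 1 := by
        rw [div_le_one hr]
        exact_mod_cast hi.le
      have h7 : 0 ≤ (i : ℝ) / ((p + p' : ℕ) : ℝ) := by positivity
      have h8 := mul_le_mul_of_nonneg_left h6 h5.le
      have h9 := mul_nonneg h5.le h7
      constructor
      · show -((1 + (P.e + P.d (p + p'))) * l) ≤
          -((1 + (P.e + P.d (p + p') * ((i : ℝ) / ((p + p' : ℕ) : ℝ)))) * l)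
        nlinarith
      · show -((1 + (P.e + P.d (p + p') * ((i : ℝ) / ((p + p' : ℕ) : ℝ)))) * l) ≤
          -((1 + P.e) * l)
        nlinarith
    · exact ⟨le_rfl, le_rfl⟩
  have hx : ∀ a, (Lfin P).all x0 n n' k k' a ∈
      Set.Icc (lo4 x0 ((1 - P.jL) * l) (-((1 + (P.e + P.d (p + p'))) * l)) (-(1 / 2 * l))
          (cl n n' k k' a).2)
        (lo4 x0 ((1 - P.jL) * l) (-((1 + P.e) * l)) (-(1 / 2 * l)) (cl n n' k k' a).2) := by
    rintro ((a | a) | (a | a))
    · exact ⟨le_rfl, le_rfl⟩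
    · exact hO a (by omega) (k a)
    · exact ⟨le_rfl, le_rfl⟩
    · exact hO a (by omega) (k' a)
  intro a b _
  exact hS _ _ _ _ _ (hx a) _ (hx b)

/-- **uniform bound on the final lines** -/
theorem ZBd_fin {P : NUO.Par} {x0 κ : ℝ} {Q : ℤ} (hx0 : x0 ≤ l) (h : PBC.PLX.DecZ Z P x0 κ Q)
    {n n' : ℕ} (hn : (n : ℤ) - n' = Q) :
    ∃ D : ℝ, AllW x0 n n' (Lfin P) fun c x => ZBdQ c x κ ((n' : ℝ) - n) D Z := by
  have hnR : (Q : ℝ) = (n : ℝ) - n' := by rw [← hn]; push_cast; ring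
  have hA := h.A
  have hL := h.L
  have hT := h.T
  have hS := h.S
  have e0 : ∀ (o : CO) (t : ℝ), Real.exp (-((κ + 2 * (Q : ℝ) * sc o) * |t|)) =
      Real.exp (-(κ * |t|) + 2 * ((n' : ℝ) - n) * sc o * |t|) := fun o t => by
    rw [hnR]
    congr 1
    ring
  choose A hA using hA
  choose B hB using hL
  choose T hT using hT
  choose S hS using hS
  simp only [e0] at hA hB hT hS
  set SS : ℝ := ∑ s : Bool, ∑ r ∈ range (n + n' + 1), ∑ i ∈ range r,
    (if hi : i < r then |S s r i hi| else 0) with hSS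
  have hSle : ∀ s r i (hi : i < r), r ≤ n + n' → |S s r i hi| ≤ SS := by
    intro s r i hi hr
    have h1 : |S s r i hi| ≤ ∑ j ∈ range r, (if hj : j < r then |S s r j hj| else 0) := by
      have := Finset.single_le_sum (f := fun j => if hj : j < r then |S s r j hj| else 0)
        (fun j _ => by split_ifs <;> positivity) (Finset.mem_range.2 hi)
      simpa [hi] using this
    have h2 : ∑ j ∈ range r, (if hj : j < r then |S s r j hj| else 0) ≤
        ∑ r ∈ range (n + n' + 1), ∑ i ∈ range r, (if hi : i < r then |S s r i hi| else 0) :=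
      Finset.single_le_sum (f := fun r => ∑ i ∈ range r, (if hi : i < r then |S s r i hi| else 0))
        (fun r _ => Finset.sum_nonneg fun j _ => by split_ifs <;> positivity)
        (Finset.mem_range.2 (by omega))
    have h3 : ∑ r ∈ range (n + n' + 1), ∑ i ∈ range r, (if hi : i < r then |S s r i hi| else 0) ≤
        SS := by
      rw [hSS]
      exact Finset.single_le_sum (f := fun s => ∑ r ∈ range (n + n' + 1), ∑ i ∈ range r,
        (if hi : i < r then |S s r i hi| else 0))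
        (fun s _ => Finset.sum_nonneg fun r _ => Finset.sum_nonneg fun j _ => by
          split_ifs <;> positivity) (Finset.mem_univ s)
    exact h1.trans (h2.trans h3)
  have hSS0 : 0 ≤ SS := by
    rw [hSS]
    exact Finset.sum_nonneg fun s _ => Finset.sum_nonneg fun r _ => Finset.sum_nonneg fun j _ => by
      split_ifs <;> positivity
  set D : ℝ := (∑ s, |A s|) + (∑ s, |B s|) + (∑ s, |T s|) + SS with hD
  have hsA : ∀ s, |A s| ≤ D := fun s => by
    have := Finset.single_le_sum (f := fun s => |A s|) (fun _ _ => abs_nonneg _) (Finset.mem_univ s)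
    have h2 : 0 ≤ ∑ s, |B s| := Finset.sum_nonneg fun _ _ => abs_nonneg _
    have h3 : 0 ≤ ∑ s, |T s| := Finset.sum_nonneg fun _ _ => abs_nonneg _
    rw [hD]
    linarith
  have hsB : ∀ s, |B s| ≤ D := fun s => by
    have := Finset.single_le_sum (f := fun s => |B s|) (fun _ _ => abs_nonneg _) (Finset.mem_univ s)
    have h2 : 0 ≤ ∑ s, |A s| := Finset.sum_nonneg fun _ _ => abs_nonneg _
    have h3 : 0 ≤ ∑ s, |T s| := Finset.sum_nonneg fun _ _ => abs_nonneg _
    rw [hD]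
    linarith
  have hsT : ∀ s, |T s| ≤ D := fun s => by
    have := Finset.single_le_sum (f := fun s => |T s|) (fun _ _ => abs_nonneg _) (Finset.mem_univ s)
    have h2 : 0 ≤ ∑ s, |A s| := Finset.sum_nonneg fun _ _ => abs_nonneg _
    have h3 : 0 ≤ ∑ s, |B s| := Finset.sum_nonneg fun _ _ => abs_nonneg _
    rw [hD]
    linarith
  have hsS : ∀ s r i (hi : i < r), r ≤ n + n' → |S s r i hi| ≤ D := fun s r i hi hr => by
    have := hSle s r i hi hr
    have h1 : 0 ≤ ∑ s, |A s| := Finset.sum_nonneg fun _ _ => abs_nonneg _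
    have h2 : 0 ≤ ∑ s, |B s| := Finset.sum_nonneg fun _ _ => abs_nonneg _
    have h3 : 0 ≤ ∑ s, |T s| := Finset.sum_nonneg fun _ _ => abs_nonneg _
    rw [hD]
    linarith
  have vr : ∀ a t : ℝ, (vl a t).re = a := fun a t => by simp [vl]
  have vi : ∀ a t : ℝ, (vl a t).im = t := fun a t => by simp [vl]
  have hO : ∀ (r i : ℕ) (hi : i < r) (hr : r ≤ n + n') (s : Bool) (q : O3) (t : ℝ),
      ‖Z s (some q) (vl (lnO P r i q) t)‖ ≤
        D * Real.exp (-(κ * |t|) + 2 * ((n' : ℝ) - n) * sc (co (s, some q)) * |t|) := by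
    intro r i hi hr s q t
    cases q
    · have := hB s (vl ((1 - P.jL) * l) t) (by rw [vr]; rfl)
      rw [vi] at this
      refine this.trans (mul_le_mul_of_nonneg_right ((le_abs_self _).trans (hsB s))
        (Real.exp_pos _).le)
    · have := hS s r i hi (vl (lnO P r i .S) t) (by rw [vr]; rfl)
      rw [vi] at this
      refine this.trans (mul_le_mul_of_nonneg_right ((le_abs_self _).trans (hsS s r i hi hr))
        (Real.exp_pos _).le)
    · have := hT s (vl (-(1 / 2 * l)) t) (by rw [vr]; rfl)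
      rw [vi] at this
      refine this.trans (mul_le_mul_of_nonneg_right ((le_abs_self _).trans (hsT s))
        (Real.exp_pos _).le)
  refine ⟨D, fun p p' k k' h1 h2 => ?_⟩
  have hp : p ≤ n := by
    have h3 : ∀ i : Fin p, 1 ≤ c3 (k i) := fun i => by cases k i <;> decide
    calc p = ∑ _i : Fin p, 1 := by simp
      _ ≤ ∑ i, c3 (k i) := Finset.sum_le_sum fun i _ => h3 i
      _ ≤ n := h2
  have hp' : p' ≤ n' := by
    have h3 : ∀ i : Fin p', 1 ≤ c3 (k' i) := fun i => by cases k' i <;> decide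
    calc p' = ∑ _i : Fin p', 1 := by simp
      _ ≤ ∑ i, c3 (k' i) := Finset.sum_le_sum fun i _ => h3 i
      _ ≤ n' := h1
  rintro ((a | a) | (a | a)) t
  · have := hA true (vl x0 t) (by rw [vr]; exact ⟨le_rfl, hx0⟩)
    rw [vi] at this
    exact this.trans (mul_le_mul_of_nonneg_right ((le_abs_self _).trans (hsA true))
      (Real.exp_pos _).le)
  · exact hO (p + p') a (by omega) (by omega) true (k a) t
  · have := hA false (vl x0 t) (by rw [vr]; exact ⟨le_rfl, hx0⟩)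
    rw [vi] at this
    exact this.trans (mul_le_mul_of_nonneg_right ((le_abs_self _).trans (hsA false))
      (Real.exp_pos _).le)
  · exact hO (p + p') a (by omega) (by omega) false (k' a) t

/-! ## the functional of the straight lines and the functional on the curves -/

section FF

variable [Fil] {P : NUO.Par} {x0 κ κ' δ : ℝ} {Q : ℤ} {η η' : PBF.PLX.Crs}

/-- **`F0 = FF`** without insertion, final lines, charge `Q = n - n'` -/
theorem F0_FF (h : GoodQ P x0) (hx0 : x0 ≤ l) (hP : ∀ r, Measurable (P.rad r)) (hκ : 0 < κ)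
    (hρ : ∀ r, ∃ ρ0, 0 < ρ0 ∧ ∀ t, ρ0 ≤ P.rad r t) (hZ : ZOk Z P x0 κ κ' δ Q) (hn : (n : ℤ) - n' = Q)
    (hδ0 : 0 ≤ δ) (hδ : δ ≤ 1 / 20) (hj : P.jL + δ < 3)
    (hη : ∀ r ≤ n + n', ∀ᵐ O ∂(Measure.pi fun _ : Fin r => NUO.nu), NUO.CrvR δ (η r O) (η' r O)) :
    F0 x0 n n' (Lfin P) Z (fun _ _ _ _ => 1) = PBF.PLX.FF Z P n n' η η' (fun _ _ _ _ _ => 1) := by
  obtain ⟨D, hD⟩ := ZBd_fin hx0 hZ.dec hn
  rw [F0_one (F0_okQ hκ (lnOk_fin h n n') hZ.m hD)]
  exact PBC.PLX.FF_one h hx0 hP hZ.m hκ hρ hZ.d hZ.dec hn hZ.q hδ0 hδ hj hη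

/-- **the cut term is bounded by the functional at `|ε| = E`** -/
theorem F0D_le_FF (h : GoodQ P x0) (hx0 : x0 ≤ l) (hP : ∀ r, Measurable (P.rad r)) (hκ : 0 < κ)
    (hρ : ∀ r, ∃ ρ0, 0 < ρ0 ∧ ∀ t, ρ0 ≤ P.rad r t) (hZ : ZOk Z P x0 κ κ' δ Q)
    (hZc : ZOk Zc P x0 κ κ' δ Q) (hn : (n : ℤ) - n' = Q) (hδ0 : 0 ≤ δ) (hδ : δ ≤ 1 / 20) (hj : P.jL + δ < 3)
    (hη : ∀ r ≤ n + n', ∀ᵐ O ∂(Measure.pi fun _ : Fin r => NUO.nu), NUO.CrvR δ (η r O) (η' r O))
    {E B : ℝ} (hE : 0 < E)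
    (hB : ∀ ε : ℂ, ‖ε‖ = E → ‖PBF.PLX.FF (Zep Z Zc ε) P n n' η η' (fun _ _ _ _ _ => 1)‖ ≤ B) :
    ‖F0D x0 n n' (Lfin P) Z Zc‖ ≤ B / E := by
  obtain ⟨D, hD⟩ := ZBd_fin hx0 hZ.dec hn
  obtain ⟨D', hD'⟩ := ZBd_fin hx0 hZc.dec hn
  refine F0D_cauchy hκ (lnOk_fin h n n') hZ.m hZc.m hD hD' hE fun ε hε => ?_
  rw [F0_FF h hx0 hP hκ hρ (hZ.ep hZc ε) hn hδ0 hδ hj hη]
  exact hB ε hε

/-- the same with the functional of the moduli -/
theorem F0D_le_FA (h : GoodQ P x0) (hx0 : x0 ≤ l) (hP : ∀ r, Measurable (P.rad r)) (hκ : 0 < κ)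
    (hρ : ∀ r, ∃ ρ0, 0 < ρ0 ∧ ∀ t, ρ0 ≤ P.rad r t) (hZ : ZOk Z P x0 κ κ' δ Q)
    (hZc : ZOk Zc P x0 κ κ' δ Q) (hn : (n : ℤ) - n' = Q) (hδ0 : 0 ≤ δ) (hδ : δ ≤ 1 / 20) (hj : P.jL + δ < 3)
    (hη : ∀ r ≤ n + n', ∀ᵐ O ∂(Measure.pi fun _ : Fin r => NUO.nu), NUO.CrvR δ (η r O) (η' r O))
    {E B : ℝ} (hE : 0 < E) (hB0 : 0 ≤ B)
    (hB : ∀ ε : ℂ, ‖ε‖ = E → PBF.PLX.FA (Zep Z Zc ε) P n n' η η' (fun _ _ _ _ _ => 1) ≤
      ENNReal.ofReal B) :
    ‖F0D x0 n n' (Lfin P) Z Zc‖ ≤ B / E := by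
  refine F0D_le_FF h hx0 hP hκ hρ hZ hZc hn hδ0 hδ hj hη hE fun ε hε => ?_
  have h1 := (PBF.PLX.FF_le (Z := Zep Z Zc ε) (P := P) (n := n) (n' := n') (η := η) (η' := η')
    (fun _ _ _ _ _ => 1)).trans (hB ε hε)
  rw [← ofReal_norm] at h1
  exact (ENNReal.ofReal_le_ofReal_iff hB0).1 h1

end FF

end PBI.PLX

end
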