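import Pool.Agent.PLX.Ns
import Pool.Agent.PB.K11E

/-!
# K11 at rows `i η ^ q, 0 ^ n` (port PLX of the last part of K11E: the moved row `q`-fold)

* `cut0_le`, `cut0_deriv` : rows `row0 q n η = (i η) ^ q, 0 ^ n`, `ex = [I, -I]` (moving with velocities
  `v₁`, `v₂`).
-/

set_option autoImplicit false

noncomputable section

open Complex Finset

namespace PB.K11.PLX

open NUO NUP1 NUGC

/-- rows `(i η) ^ q, 0 ^ n` -/
def row0 (q n : ℕ) (η : ℂ) : List ℂ := List.replicate q (I * η) ++ List.replicate n 0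

lemma row0_re (q n : ℕ) (η : ℝ) : ∀ x ∈ row0 q n η, x.re = 0 := by
  intro x hx
  rcases List.mem_append.1 hx with h | h
  · rw [List.eq_of_mem_replicate h]
    simp
  · rw [List.eq_of_mem_replicate h]
    rfl

lemma sum_wt_row0 (q n : ℕ) (η : ℝ) (t : ℝ) :
    (n : ℝ) * Real.exp (-(8 / 3) * |t|) ≤ ((row0 q n η).map fun x => wt x t).sum := by
  unfold row0
  rw [List.map_append, List.sum_append, List.map_replicate, List.map_replicate, List.sum_replicate,
    List.sum_replicate, nsmul_eq_mul, nsmul_eq_mul]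
  have h0 : 0 ≤ (q : ℝ) * wt (I * (η : ℂ)) t := mul_nonneg (Nat.cast_nonneg q) (wt_nonneg _ t)
  have e : wt 0 t = Real.exp (-(8 / 3) * |t|) := by
    unfold wt
    simp
  rw [e]
  linarith

/-- the product of the row factors: `e^{-MF}` -/
theorem prod_row0 (q n : ℕ) (η t : ℝ) :
    ((row0 q n η).map fun x => ‖psi (4 / 3) (posT t - l - x)‖).prod =
      Real.exp (-(q * NUMF.Ag (1 / 2) (t - η))) * Real.exp (-(n * NUMF.Ag (1 / 2) t)) := by
  unfold row0
  rw [List.map_append, List.prod_append, List.map_replicate, List.map_replicate,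
    List.prod_replicate, List.prod_replicate]
  have e1 : ‖psi (4 / 3) (posT t - l - I * (η : ℂ))‖ = Real.exp (-NUMF.Ag (1 / 2) (t - η)) := by
    rw [← norm_psi_T_sub]
    congr 2
    unfold posT vl
    push_cast
    ring
  rw [e1, sub_zero, norm_psi_T_sub, ← Real.exp_nat_mul, ← Real.exp_nat_mul]
  congr 2 <;> ring

/-- **K11 at rows `(i η) ^ q, 0 ^ n`** -/
theorem cut0_le {κ β : ℝ} (hG : Good κ β) (hκ : 0 ≤ κ) (q n : ℕ) (η t : ℝ) :
    ‖cutL β (row0 q n η) [I, -I] (posT t)‖ ≤
      4 * (Real.exp (-(q * NUMF.Ag (1 / 2) (t - η))) * Real.exp (-(n * NUMF.Ag (1 / 2) t))) *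
        Real.exp (-(κ * (n * Real.exp (-(8 / 3) * |t|)))) := by
  have hl := l_pos
  have h := cutL_le hG hκ (V := row0 q n η) (ex := [I, -I])
    (fun x hx => by rw [row0_re q n η x hx, abs_zero]; positivity)
    (fun x hx => by
      have hx0 : x.re = 0 := by
        simp only [List.mem_cons, List.not_mem_nil, or_false] at hx
        rcases hx with h | h <;> rw [h] <;> simp
      rw [hx0, abs_zero]
      positivity) t
  rw [prod_row0] at h
  have hK := Real.exp_le_exp.2 (neg_le_neg (mul_le_mul_of_nonneg_left (sum_wt_row0 q n η t) hκ))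
  have h4 : 0 ≤ 4 * (Real.exp (-(q * NUMF.Ag (1 / 2) (t - η))) *
      Real.exp (-(n * NUMF.Ag (1 / 2) t))) := by
    positivity
  have h5 := mul_le_mul_of_nonneg_left hK h4
  linarith

/-- **derivative at rows `(i η) ^ q, 0 ^ n`**: the moved rows go to `i (η + s)`, the head to height
`t + ξ s`, the points `± i` move with any velocities -/
theorem cut0_deriv {κ β : ℝ} (hG : Good κ β) (hκ : 0 ≤ κ) (hκ1 : κ ≤ 1 / 100) (h0 : 0 < β)
    (h1 : β ≤ 4 / 3) (q n : ℕ) {η : ℝ} (hη : |η| ≤ 1) (t : ℝ) (ξ v₁ v₂ : ℂ) :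
    ∃ d : ℂ, HasDerivAt (fun s : ℝ => cutL β (row0 q n ((η + s : ℝ) : ℂ)) [I + s * v₁, -I + s * v₂]
        (posT t + I * (ξ * s))) d 0 ∧
      ‖d‖ ≤ 3440 * Real.exp 3 * ((n + q + 2) * ‖ξ‖ + q + ‖v₁‖ + ‖v₂‖) *
        Real.exp (-(2 * β) * |t|) *
        (Real.exp (-(q * NUMF.Ag (1 / 2) (t - η))) * Real.exp (-(n * NUMF.Ag (1 / 2) t))) *
        Real.exp (-(κ * (n * Real.exp (-(8 / 3) * |t|)))) := by
  have hl := l_pos
  classical
  -- paths of the points
  let V : ℝ → List ℂ := fun s => row0 q n ((η + s : ℝ) : ℂ)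
  let X : ℝ → List ℂ := fun s => [I + s * v₁, -I + s * v₂]
  -- index set: moved rows, rows at 0, the two points
  let ι := Fin q ⊕ Fin n ⊕ Fin 2
  let y : ι → ℝ → ℂ := Sum.elim (fun _ s => I * ((η + s : ℝ) : ℂ))
    (Sum.elim (fun _ _ => 0) (fun j s => if j = 0 then I + s * v₁ else -I + s * v₂))
  let v : ι → ℂ := Sum.elim (fun _ => I) (Sum.elim (fun _ => 0) (fun j => if j = 0 then v₁ else v₂))
  let R : Finset ι := Finset.univ.disjSum (Finset.univ.disjSum ∅)
  have hprI : ∀ (s : ℝ) (b : ℝ) (u : ℂ), prI b (fun i => y i s) u =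
      ((V s ++ X s).map fun x => psi b (u - x)).prod := by
    intro s b u
    show ∏ i : Fin q ⊕ Fin n ⊕ Fin 2, psi b (u - y i s) = _
    rw [Fintype.prod_sum_type, Fintype.prod_sum_type]
    simp only [y, Sum.elim_inl, Sum.elim_inr, Finset.prod_const,
      Finset.card_univ, Fintype.card_fin, Fin.prod_univ_two]
    simp [V, X, row0, List.map_replicate, List.prod_replicate, mul_assoc]
  have hprR : ∀ (s : ℝ) (u : ℂ), prR (fun i => y i s) R u =
      ((V s).map fun x => psi (4 / 3) (u - x)).prod := by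
    intro s u
    show ∏ i ∈ (Finset.univ.disjSum (Finset.univ.disjSum ∅) : Finset (Fin q ⊕ Fin n ⊕ Fin 2)),
      psi (4 / 3) (u - y i s) = _
    rw [Finset.prod_disjSum, Finset.prod_disjSum]
    simp [y, V, row0, List.map_replicate, List.prod_replicate]
  have hPV : PV (fun i => y i 0) R (posT t) = ((V 0).map fun x => ‖psi (4 / 3) (posT t - l - x)‖).prod := by
    show ∏ i ∈ (Finset.univ.disjSum (Finset.univ.disjSum ∅) : Finset (Fin q ⊕ Fin n ⊕ Fin 2)),
      ‖psi (4 / 3) (posT t - l - y i 0)‖ = _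
    rw [Finset.prod_disjSum, Finset.prod_disjSum]
    simp [y, V, row0, List.map_replicate, List.prod_replicate]
  have hSV : SV (fun i => y i 0) R t = ((V 0).map fun x => wt x t).sum := by
    show ∑ i ∈ (Finset.univ.disjSum (Finset.univ.disjSum ∅) : Finset (Fin q ⊕ Fin n ⊕ Fin 2)),
      wt (y i 0) t = _
    rw [Finset.sum_disjSum, Finset.sum_disjSum]
    simp [y, V, row0, List.map_replicate, List.sum_replicate]
  have hcut : ∀ s : ℝ, cutT β (fun i => y i s) R (posT t + I * (ξ * s)) =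
      cutL β (V s) (X s) (posT t + I * (ξ * s)) := by
    intro s
    unfold cutT cutL NUP1.phi
    rw [hprI, hprI, hprR]
  have hw : (fun s : ℝ => posT t + I * (ξ * s)) 0 = posT t := by simp
  have dw : HasDerivAt (fun s : ℝ => posT t + I * (ξ * s)) (I * ξ) 0 := by
    have := (((Complex.ofRealCLM.hasDerivAt (x := (0 : ℝ))).const_mul ξ).const_mul I).const_add (posT t)
    simpa using this
  have dlin : ∀ a b : ℂ, HasDerivAt (fun s : ℝ => a + s * b) b 0 := by
    intro a b
    have := ((Complex.ofRealCLM.hasDerivAt (x := (0 : ℝ))).mul_const b).const_add a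
    simpa using this
  have dy : ∀ i, HasDerivAt (y i) (v i) 0 := by
    rintro (i | i | j)
    · show HasDerivAt (fun s : ℝ => I * ((η + s : ℝ) : ℂ)) I 0
      have := dlin (I * η) I
      refine this.congr_of_eventuallyEq (Filter.Eventually.of_forall fun s => ?_)
      show I * ((η + s : ℝ) : ℂ) = I * η + s * I
      push_cast
      ring
    · show HasDerivAt (fun _ : ℝ => (0 : ℂ)) 0 0
      exact hasDerivAt_const _ _
    · show HasDerivAt (fun s : ℝ => if j = 0 then I + s * v₁ else -I + s * v₂) (if j = 0 then v₁ else v₂) 0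
      split_ifs
      · exact dlin _ _
      · exact dlin _ _
  have hre : ∀ i, (y i 0).re = 0 := by
    rintro (i | i | j)
    · show (I * ((η + 0 : ℝ) : ℂ)).re = 0
      simp
    · rfl
    · show (if j = 0 then I + ((0 : ℝ) : ℂ) * v₁ else -I + ((0 : ℝ) : ℂ) * v₂).re = 0
      split_ifs <;> simp
  obtain ⟨d, hd, hn⟩ := cutT_deriv hG hκ hκ1 h0 h1 R (y := y) (v := v)
    (w := fun s : ℝ => posT t + I * (ξ * s)) (s := 0) hw dy dw
    (fun i => by rw [hre i, abs_zero]; positivity) (fun i _ => by rw [hre i])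
  refine ⟨d, ?_, ?_⟩
  · have e : (fun r : ℝ => cutT β (fun i => y i r) R (posT t + I * (ξ * r))) =
        fun s : ℝ => cutL β (V s) (X s) (posT t + I * (ξ * s)) := funext hcut
    rw [e] at hd
    exact hd
  · refine hn.trans ?_
    rw [hPV, hSV]
    have hV0 : V 0 = row0 q n η := by
      show row0 q n ((η + 0 : ℝ) : ℂ) = _
      rw [add_zero]
    rw [hV0, prod_row0]
    -- the sum of the velocities
    have him : ∀ i, |(y i 0).im| ≤ 1 := by
      rintro (i | i | j)
      · show |(I * ((η + 0 : ℝ) : ℂ)).im| ≤ 1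
        simpa using hη
      · show |(0 : ℂ).im| ≤ 1
        simp
      · show |(if j = 0 then I + ((0 : ℝ) : ℂ) * v₁ else -I + ((0 : ℝ) : ℂ) * v₂).im| ≤ 1
        split_ifs <;> simp
    have hexp : ∀ i, Real.exp (-(2 * β) * |t - (y i 0).im|) ≤ Real.exp 3 * Real.exp (-(2 * β) * |t|) := by
      intro i
      rw [← Real.exp_add]
      refine Real.exp_le_exp.2 ?_
      have a1 : |t| ≤ |t - (y i 0).im| + 1 := by
        have := abs_add_le (t - (y i 0).im) (y i 0).im
        rw [sub_add_cancel] at this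
        linarith [him i]
      nlinarith
    have hsum : ∑ i, ‖I * ξ - v i‖ * Real.exp (-(2 * β) * |t - (y i 0).im|) ≤
        ((n + q + 2) * ‖ξ‖ + q + ‖v₁‖ + ‖v₂‖) * (Real.exp 3 * Real.exp (-(2 * β) * |t|)) := by
      calc _ ≤ ∑ i, (‖ξ‖ + ‖v i‖) * (Real.exp 3 * Real.exp (-(2 * β) * |t|)) := by
            refine Finset.sum_le_sum fun i _ => mul_le_mul ?_ (hexp i) (Real.exp_pos _).le (by positivity)
            refine (norm_sub_le _ _).trans ?_
            rw [norm_mul, Complex.norm_I, one_mul]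
        _ = (∑ i, (‖ξ‖ + ‖v i‖)) * (Real.exp 3 * Real.exp (-(2 * β) * |t|)) := by rw [Finset.sum_mul]
        _ = _ := by
            congr 1
            show ∑ i : Fin q ⊕ Fin n ⊕ Fin 2, (‖ξ‖ + ‖v i‖) = _
            rw [Fintype.sum_sum_type, Fintype.sum_sum_type]
            simp only [v, Sum.elim_inl, Sum.elim_inr]
            simp [Fin.sum_univ_two]
            ring
    have hE3 : 0 ≤ Real.exp (-(q * NUMF.Ag (1 / 2) (t - η))) *
      Real.exp (-(n * NUMF.Ag (1 / 2) t)) := by positivity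
    have hK := Real.exp_le_exp.2 (neg_le_neg (mul_le_mul_of_nonneg_left (sum_wt_row0 q n η t) hκ))
    calc _ ≤ 3440 * (((n + q + 2) * ‖ξ‖ + q + ‖v₁‖ + ‖v₂‖) *
          (Real.exp 3 * Real.exp (-(2 * β) * |t|))) *
          (Real.exp (-(q * NUMF.Ag (1 / 2) (t - η))) * Real.exp (-(n * NUMF.Ag (1 / 2) t)) *
            Real.exp (-(κ * (n * Real.exp (-(8 / 3) * |t|))))) := by
          refine mul_le_mul (mul_le_mul_of_nonneg_left hsum (by norm_num))
            (mul_le_mul_of_nonneg_left hK hE3) (mul_nonneg hE3 (Real.exp_pos _).le) (by positivity)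
      _ = _ := by ring

end PB.K11.PLX

end
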