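import Pool.Agent.PLX.PB.FarF
import Pool.Agent.PLX.PB.K11E
import Pool.Agent.PB.FarT

/-!
# Plan B, far end: the cut of `St` at all heights (port PLX of FarT)

Rows `(η I) ^ q, 0 ^ (q k)`, `cutT q b a x e w = phi_b (w) phi_b (w - l) - phi_{4/3} (w)` (extra points
only in `phi_b`), `DT = (∂_η + ξ ∂_t) cutT` at `w = posT t`:
* `far_T_form` : `‖DT‖ ≤ K e^{-6 b |t|} e^{-MF} e^{- κ a e^{-(8/3)|t|}}`, `a = q k`,
  `e^{-MF} = eMF q a η t = exp (- q Ag (1/2) (t - η)) exp (- a Ag (1/2) t)`;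
* `far_T_all` : `‖DT‖ ≤ K a ^ (- 9 b / 4) e^{-MF} min 1 (a e^{-(8/3)|t|})`.
-/

set_option autoImplicit false

open Complex Finset

noncomputable section

namespace PBFar.PLX

open NUP1 NURow PBForce NUO
open PB.K11 hiding row0 row0_re sum_wt_row0 prod_row0 cut0_le cut0_deriv
open PB.K11.PLX

/-- `e^{-MF}` of `St` -/
def eMF (q a : ℕ) (η t : ℝ) : ℝ :=
  Real.exp (-(q * NUMF.Ag (1 / 2) (t - η))) * Real.exp (-(a * NUMF.Ag (1 / 2) t))

theorem eMF_pos (q a : ℕ) (η t : ℝ) : 0 < eMF q a η t := by unfold eMF; positivity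

/-- the `q`-fold weight is the power of the simple one -/
theorem eMF_mul (q k : ℕ) (η t : ℝ) : eMF q (q * k) η t = PBFar.eMF k η t ^ q := by
  unfold eMF PBFar.eMF
  rw [← Real.exp_add, ← Real.exp_add, ← Real.exp_nat_mul]
  congr 1
  push_cast
  ring

theorem eMF_one (k : ℕ) (η t : ℝ) : eMF 1 k η t = PBFar.eMF k η t := by
  have := eMF_mul 1 k η t
  rwa [one_mul, pow_one] at this

theorem row0_eq (q a : ℕ) (η : ℝ) : row0 q a (η : ℂ) = R0 q a ((η : ℂ) * I) := by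
  unfold row0 R0
  rw [mul_comm]

theorem W0_eq (q a : ℕ) (η : ℝ) (e : Fin 2 → ℂ) :
    W0 q a ((η : ℂ) * I) e = row0 q a (η : ℂ) ++ [e 0, e 1] := by
  rw [row0_eq]
  rfl

/-- the three products -/
theorem prods {κ b : ℝ} (hG : Good κ b) (hκ : 0 ≤ κ) (q a : ℕ) (η t : ℝ) :
    ‖1 - NUP1.phi b (W0 q a ((η : ℂ) * I) wE) (posT t)‖ ≤
        eMF q a η t * Real.exp (-(κ * (a * Real.exp (-(8 / 3) * |t|)))) ∧
    ‖1 - NUP1.phi b (W0 q a ((η : ℂ) * I) wE) (posT t - l)‖ ≤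
        eMF q a η t * Real.exp (-(κ * (a * Real.exp (-(8 / 3) * |t|)))) ∧
    ‖1 - NUP1.phi (4 / 3) (R0 q a ((η : ℂ) * I)) (posT t)‖ ≤
        eMF q a η t * Real.exp (-(κ * (a * Real.exp (-(8 / 3) * |t|)))) := by
  classical
  have hl := l_pos
  set V := row0 q a (η : ℂ) with hV
  set ex : List ℂ := [I, -I] with hex
  have hVr : ∀ x ∈ V, |x.re| ≤ l / 2 := fun x hx => by
    rw [row0_re q a η x hx, abs_zero]; positivity
  set y := pts V ex with hy
  set R := rws V ex with hR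
  have hyr : ∀ i, |(y i).re| ≤ l / 2 := pts_mem (p := fun x => |x.re| ≤ l / 2) hVr ex_re
  have hPV : PV y R (posT t) = eMF q a η t := by
    rw [hy, hR, PV_list, hV, prod_row0]
    rfl
  have hSV : a * Real.exp (-(8 / 3) * |t|) ≤ SV y R t := by
    rw [hy, hR, SV_list, hV]
    exact sum_wt_row0 q a η t
  have hQ : PV y R (posT t) * Real.exp (-(κ * SV y R t)) ≤
      eMF q a η t * Real.exp (-(κ * (a * Real.exp (-(8 / 3) * |t|)))) := by
    rw [hPV]
    exact mul_le_mul_of_nonneg_left (Real.exp_le_exp.2 (neg_le_neg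
      (mul_le_mul_of_nonneg_left hSV hκ))) (eMF_pos q a η t).le
  have e1 : ∀ u, 1 - NUP1.phi b (W0 q a ((η : ℂ) * I) wE) u = prI b y u := by
    intro u
    rw [W0_eq, wE_list, ← hex, ← hV, hy, prI_list]
    unfold NUP1.phi
    rw [sub_sub_cancel]
  have e2 : ∀ u, 1 - NUP1.phi (4 / 3) (R0 q a ((η : ℂ) * I)) u = prR y R u := by
    intro u
    rw [← row0_eq, ← hV, hy, hR, prR_list]
    unfold NUP1.phi
    rw [sub_sub_cancel]
  refine ⟨?_, ?_, ?_⟩
  · rw [e1]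
    refine le_trans ?_ hQ
    rw [prI, norm_prod]
    exact prod_le_aux R (fun i => norm_nonneg _) (fun i => (hG (y i) t (hyr i)).2.2.2.2)
      fun i _ => (hG (y i) t (hyr i)).2.1
  · rw [e1]
    refine le_trans ?_ hQ
    rw [prI, norm_prod]
    exact prod_le_aux R (fun i => norm_nonneg _) (fun i => (hG (y i) t (hyr i)).2.2.2.1)
      fun i _ => (hG (y i) t (hyr i)).1
  · rw [e2]
    refine le_trans ?_ hQ
    rw [prR, norm_prod, PV, SV]
    have e : Real.exp (-(κ * ∑ i ∈ R, wt (y i) t)) = ∏ i ∈ R, Real.exp (-(κ * wt (y i) t)) := by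
      rw [← Real.exp_sum]
      congr 1
      rw [Finset.mul_sum, Finset.sum_neg_distrib]
    rw [e, ← Finset.prod_mul_distrib]
    exact Finset.prod_le_prod (fun i _ => norm_nonneg _) fun i _ => (hG (y i) t (hyr i)).2.2.1

/-- the derivative of K11 is `DT` -/
theorem DT_eq {b : ℝ} (h1 : 1 ≤ b) (h2 : b < 4 / 3) {κ : ℝ} (hG : Good κ b) (hκ : 0 ≤ κ)
    (hκ1 : κ ≤ 1 / 100) (q a : ℕ) {η : ℝ} (hη : |η| ≤ 1) (t : ℝ) (ξ : ℂ) (ξe : ℝ → ℂ) :
    ‖DT q b a ((η : ℂ) * I) I ξe ξ (posT t)‖ ≤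
      3440 * Real.exp 3 * ((a + q + 2) * ‖ξ‖ + q + ‖vI q b a ((η : ℂ) * I) I ξe 0‖ +
        ‖vI q b a ((η : ℂ) * I) I ξe 1‖) * Real.exp (-(2 * b) * |t|) * eMF q a η t *
        Real.exp (-(κ * (a * Real.exp (-(8 / 3) * |t|)))) := by
  obtain ⟨d, hd, hn⟩ := cut0_deriv hG hκ hκ1 (by linarith) h2.le q a hη t ξ
    (vI q b a ((η : ℂ) * I) I ξe 0) (vI q b a ((η : ℂ) * I) I ξe 1)
  obtain ⟨s1, s2, s3⟩ := posT_strip t
  set v := vI q b a ((η : ℂ) * I) I ξe with hv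
  have dlin : ∀ p q : ℂ, HasDerivAt (fun s : ℝ => p + s * q) q 0 := by
    intro p q
    have := ((Complex.ofRealCLM.hasDerivAt (x := (0 : ℝ))).mul_const q).const_add p
    simpa using this
  have hX : HasDerivAt (fun s : ℝ => ((η + s : ℝ) : ℂ) * I) I 0 := by
    have := dlin ((η : ℂ) * I) I
    refine this.congr_of_eventuallyEq (Filter.Eventually.of_forall fun s => ?_)
    show ((η + s : ℝ) : ℂ) * I = (η : ℂ) * I + s * I
    push_cast
    ring
  have he : ∀ i, HasDerivAt (fun s : ℝ => (![I + s * v 0, -I + s * v 1] : Fin 2 → ℂ) i) (v i) 0 := by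
    intro i
    fin_cases i
    · exact dlin _ _
    · exact dlin _ _
  have hu : HasDerivAt (fun s : ℝ => posT t + I * (ξ * s)) (I * ξ) 0 := by
    have := (((Complex.ofRealCLM.hasDerivAt (x := (0 : ℝ))).const_mul ξ).const_mul I).const_add (posT t)
    simpa using this
  have hu0 : posT t + I * (ξ * ((0 : ℝ) : ℂ)) = posT t := by simp
  have hT := hasDerivAt_T (hyp_b h1 h2) hyp_43 (q := q) (a := a) (x := (η : ℂ) * I) (v := I)
    (re_row η)
    (ξe := ξe) (X := fun s : ℝ => ((η + s : ℝ) : ℂ) * I)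
    (e := fun s : ℝ => ![I + s * v 0, -I + s * v 1])
    (u := fun s : ℝ => posT t + I * (ξ * s)) (ξ := ξ) (τ := 0) hX (by simp) he
    (by funext i; fin_cases i <;> simp [wE]) hu (by simp only [hu0]; exact s2)
    (by simp only [hu0]; exact s3) (by simp only [hu0]; exact s1)
  simp only [hu0] at hT
  have hfun : (fun s : ℝ => PBFar.PLX.cutT q b a (((η + s : ℝ) : ℂ) * I) ![I + s * v 0, -I + s * v 1]
      (posT t + I * (ξ * s))) = fun s : ℝ => cutL b (row0 q a ((η + s : ℝ) : ℂ))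
        [I + s * v 0, -I + s * v 1] (posT t + I * (ξ * s)) := by
    funext s
    unfold PBFar.PLX.cutT cutL
    rw [W0_eq, row0_eq]
    rfl
  rw [hfun] at hT
  rw [← hd.unique hT]
  unfold eMF
  refine hn.trans (le_of_eq ?_)
  ring

/-- **the cut of `St`, product form**, all heights -/
theorem far_T_form {b : ℝ} (h1 : 1 ≤ b) (h2 : b < 4 / 3) {κ : ℝ} (hG : Good κ b) (hκ : 0 ≤ κ)
    (hκ1 : κ ≤ 1 / 100) {q : ℕ} (hq : 1 ≤ q) {C0 : ℝ} (hC0 : 1 ≤ C0) :
    ∃ (K : ℝ) (N0 : ℕ), 0 < K ∧ ∀ k : ℕ, N0 ≤ k →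
    ∀ η : ℝ, |η| ≤ 1 → ∀ ξ : ℝ → ℂ, Fl k C0 ξ (xe k η) → ∀ t : ℝ,
      ‖DT q b (q * k) ((η : ℂ) * I) I (xe k η) (ξ t) (posT t)‖ ≤
        K * Real.exp (-(6 * b * |t|)) * eMF q (q * k) η t *
          Real.exp (-(κ * ((q * k : ℕ) * Real.exp (-(8 / 3) * |t|)))) := by
  have H := hyp_b h1 h2
  have H' := hyp_43
  have hq1 : (1 : ℝ) ≤ q := by exact_mod_cast hq
  have hqC : 1 ≤ (q : ℝ) * C0 := by (clear * - hq1 hC0; nlinarith)
  set Q : ℝ := ((q + 2 : ℕ) : ℝ) with hQ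
  have hQ0 : 0 ≤ Q := Nat.cast_nonneg _
  have hQ2 : Q = q + 2 := by rw [hQ]; push_cast; ring
  set K1 := CT b (q * C0) q * (11 * (2 + Q * Real.exp (4 * b)) +
    200 * Real.exp (12 * b) * Q * 3 + 800) with hK1
  set K2 := q * C0 * (11 * (2 + q * Real.exp (4 * (4 / 3))) +
    200 * Real.exp (12 * (4 / 3)) * q * 3 + 800) with hK2
  set K3 := 3440 * Real.exp 3 * (2 * (q + 3) * (q * C0) + q + CT b (q * C0) q + CT b (q * C0) q)
    with hK3
  have hCT : 0 ≤ CT b (q * C0) q := by unfold CT CR; positivity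
  have hCK := CK_pos H (q + 2)
  have p1 : 0 ≤ K1 := by rw [hK1]; positivity
  have p2 : 0 ≤ K2 := by rw [hK2]; positivity
  have p3 : 0 < K3 := by rw [hK3]; positivity
  refine ⟨2 * K1 * CK b (3 * l / 2) (q + 2) + K2 + K3 * Real.exp (18 * b),
    max 1 ⌈n0 b (3 * l / 2) (q + 2)⌉₊, by positivity, fun k hk η hη ξ hF0 t => ?_⟩
  have hk1 : 1 ≤ k := (le_max_left _ _).trans hk
  have ha1 : 1 ≤ q * k := Nat.mul_pos hq hk1
  have hkq : k ≤ q * k := Nat.le_mul_of_pos_left k hq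
  set a := q * k with ha
  have ha0 : (1 : ℝ) ≤ a := by exact_mod_cast ha1
  have han : n0 b (3 * l / 2) (q + 2) ≤ a := (Nat.le_ceil _).trans (by
    exact_mod_cast ((le_max_right _ _).trans hk).trans hkq)
  have hF := fl_mul hq hF0
  rw [← ha] at hF
  obtain ⟨s1, s2, s3⟩ := posT_strip t
  have i1 : (posT t).im = t := NUO.vl_im _ _
  have i2 : (posT t - l).im = t := by rw [sub_im, i1, ofReal_im, sub_zero]
  obtain ⟨q1, q2, q3⟩ := prods hG hκ q a η t
  set E := eMF q a η t * Real.exp (-(κ * (a * Real.exp (-(8 / 3) * |t|)))) with hE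
  have hE0 : 0 < E := mul_pos (eMF_pos _ _ _ _) (Real.exp_pos _)
  set x : ℂ := (η : ℂ) * I with hx
  have hxr := re_row η
  have hxi := im_row hη
  have hI : ‖(I : ℂ)‖ ≤ q * C0 := by rw [Complex.norm_I]; exact hqC
  have goal_eq : (2 * K1 * CK b (3 * l / 2) (q + 2) + K2 + K3 * Real.exp (18 * b)) *
      Real.exp (-(6 * b * |t|)) * eMF q a η t *
        Real.exp (-(κ * (a * Real.exp (-(8 / 3) * |t|)))) =
      (2 * K1 * CK b (3 * l / 2) (q + 2) + K2 + K3 * Real.exp (18 * b)) *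
        (Real.exp (-(6 * b * |t|)) * E) := by
    rw [hE]; ring
  rw [goal_eq]
  rcases le_total 3 |t| with ht | ht
  · -- far
    have a1 := far_W_prod (q := q) H ha1 hxr hxi hI hF s2 (by rw [i1]; exact ht)
    have a2 := far_W_prod (q := q) H ha1 hxr hxi hI hF s3 (by rw [i2]; exact ht)
    have a3 := far_R0_prod H' hq (by rw [← ha]; exact ha1) hη hC0 hF0 s1 (by rw [i1]; exact ht)
    rw [← ha] at a3
    rw [i1] at a1 a3
    rw [i2] at a2
    have b1 := phi_le H han hxr hxi s2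
    have b2 := phi_le H han hxr hxi s3
    have c1' : ‖NUP1.phi b (W0 q a x wE) (posT t)‖ ≤ CK b (3 * l / 2) (q + 2) :=
      b1.trans (mul_le_of_le_one_right hCK.le (min_le_left _ _))
    have c2' : ‖NUP1.phi b (W0 q a x wE) (posT t - l)‖ ≤ CK b (3 * l / 2) (q + 2) :=
      b2.trans (mul_le_of_le_one_right hCK.le (min_le_left _ _))
    set F := Real.exp (-(6 * b * |t|)) with hFF
    have hF0' : 0 < F := Real.exp_pos _
    have hF8 : Real.exp (-(8 * |t|)) ≤ F := by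
      rw [hFF]
      refine Real.exp_le_exp.2 ?_
      clear * - h2 ht
      nlinarith [abs_nonneg t]
    have d1 : ‖DW q b a x I (xe k η) (ξ t) (posT t)‖ ≤ K1 * F * E :=
      a1.trans (mul_le_mul_of_nonneg_left q1 (by positivity))
    have d2 : ‖DW q b a x I (xe k η) (ξ t) (posT t - l)‖ ≤ K1 * F * E :=
      a2.trans (mul_le_mul_of_nonneg_left q2 (by positivity))
    have d3 : ‖DR q (4 / 3) a x I (ξ t) (posT t)‖ ≤ K2 * F * E :=
      a3.trans (mul_le_mul (mul_le_mul_of_nonneg_left hF8 p2) q3 (norm_nonneg _) (by positivity))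
    unfold DT
    refine (norm_sub_le _ _).trans ((add_le_add (norm_add_le _ _) le_rfl).trans ?_)
    rw [norm_mul, norm_mul]
    have m1 := mul_le_mul d1 c2' (norm_nonneg _) (by positivity)
    have m2 := mul_le_mul c1' d2 (norm_nonneg _) hCK.le
    have m4 : 0 ≤ K3 * Real.exp (18 * b) * (F * E) := by positivity
    have e : (2 * K1 * CK b (3 * l / 2) (q + 2) + K2 + K3 * Real.exp (18 * b)) * (F * E) =
        K1 * F * E * CK b (3 * l / 2) (q + 2) + CK b (3 * l / 2) (q + 2) * (K1 * F * E) +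
          K2 * F * E + K3 * Real.exp (18 * b) * (F * E) := by ring
    rw [e]
    clear * - a x K1 F E K2 K3 Q d3 m1 m2 m4
    linarith
  · -- near
    have a1 := DT_eq h1 h2 hG hκ hκ1 q a hη t (ξ t) (xe k η)
    have a2 := norm_vI_le H han hxr hxi hI hF 0
    have a3 := norm_vI_le H han hxr hxi hI hF 1
    have a4 := hF.norm_le t
    have a5 : (a + q + 2) * ‖ξ t‖ ≤ 2 * (q + 3) * (q * C0) := by
      have h5 : (a + q + 2 : ℝ) * ‖ξ t‖ ≤ (a + q + 2) * (2 * (q * C0) / a) :=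
        mul_le_mul_of_nonneg_left a4 (by positivity)
      refine h5.trans ?_
      rw [← mul_div_assoc, div_le_iff₀ (by (clear * - a ha0; linarith))]
      have h6 : (a + q + 2 : ℝ) ≤ (q + 3) * a := by (clear * - a ha0; nlinarith)
      have h7 : 0 ≤ 2 * ((q : ℝ) * C0) := by positivity
      calc (a + q + 2 : ℝ) * (2 * (q * C0)) ≤ ((q + 3) * a) * (2 * (q * C0)) :=
            mul_le_mul_of_nonneg_right h6 h7
        _ = _ := by ring
    have a6 : Real.exp (-(2 * b) * |t|) ≤ Real.exp (18 * b) * Real.exp (-(6 * b * |t|)) := by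
      rw [← Real.exp_add]
      refine Real.exp_le_exp.2 ?_
      clear * - h1 ht
      nlinarith [abs_nonneg t]
    refine a1.trans ?_
    rw [mul_assoc _ (eMF q a η t), ← hE]
    have a7 : 3440 * Real.exp 3 * ((a + q + 2) * ‖ξ t‖ + q + ‖vI q b a x I (xe k η) 0‖ +
        ‖vI q b a x I (xe k η) 1‖) ≤ K3 := by
      rw [hK3]
      exact mul_le_mul_of_nonneg_left (by (clear * - a x a2 a3 a5; linarith)) (by positivity)
    have a8 := mul_le_mul (mul_le_mul a7 a6 (Real.exp_pos _).le p3.le) (le_refl E) hE0.le (by positivity)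
    refine a8.trans ?_
    have a9 : 0 ≤ (2 * K1 * CK b (3 * l / 2) (q + 2) + K2) * (Real.exp (-(6 * b * |t|)) * E) := by
      clear * - K1 K2 E Q hCT hq hCK hC0 hE0
      positivity
    clear * - K3 E K1 K2 Q a a9
    linarith

/-- **the cut of `St`**, all heights -/
theorem far_T_all {b : ℝ} (h1 : 1 ≤ b) (h2 : b < 4 / 3) {κ : ℝ} (hG : Good κ b) (hκ : 0 < κ)
    (hκ1 : κ ≤ 1 / 100) {q : ℕ} (hq : 1 ≤ q) {C0 : ℝ} (hC0 : 1 ≤ C0) :
    ∃ (K : ℝ) (N0 : ℕ), 0 < K ∧ ∀ k : ℕ, N0 ≤ k →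
    ∀ η : ℝ, |η| ≤ 1 → ∀ ξ : ℝ → ℂ, Fl k C0 ξ (xe k η) → ∀ t : ℝ,
      ‖DT q b (q * k) ((η : ℂ) * I) I (xe k η) (ξ t) (posT t)‖ ≤
        K * ((q * k : ℕ) : ℝ) ^ (-(9 / 4 * b)) * eMF q (q * k) η t *
          min 1 ((q * k : ℕ) * Real.exp (-(8 / 3) * |t|)) := by
  obtain ⟨K, N0, hK, H⟩ := far_T_form h1 h2 hG hκ.le hκ1 hq hC0
  refine ⟨K * (1 + 6 / κ ^ 3), max N0 1, by positivity, fun k hk η hη ξ hF t => ?_⟩
  have hk1 : 1 ≤ k := (le_max_right _ _).trans hk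
  have ha1' : 1 ≤ q * k := Nat.mul_pos hq hk1
  have H1 := H k ((le_max_left _ _).trans hk) η hη ξ hF t
  set a := q * k with ha
  have ha1 : (1 : ℝ) ≤ a := by exact_mod_cast ha1'
  have ha0 : (0 : ℝ) < a := by (clear * - a hκ hκ1 ha1; linarith)
  refine H1.trans ?_
  set y := (a : ℝ) * Real.exp (-(8 / 3) * |t|) with hy
  have hy0 : 0 < y := by rw [hy]; positivity
  have e1 : Real.exp (-(6 * b * |t|)) = (a : ℝ) ^ (-(9 / 4 * b)) * y ^ (9 / 4 * b) := by
    rw [hy, Real.mul_rpow ha0.le (Real.exp_pos _).le, ← mul_assoc, ← Real.rpow_add ha0,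
      neg_add_cancel, Real.rpow_zero, one_mul, ← Real.exp_mul]
    congr 1
    ring
  rw [e1]
  have e2 := rpow_exp_le (p := 9 / 4 * b) hκ (by (clear * - h1 hκ hκ1; linarith)) (by linarith) hy0.le
  have e3 : 0 ≤ K * (a : ℝ) ^ (-(9 / 4 * b)) * eMF q a η t :=
    mul_nonneg (mul_nonneg hK.le (Real.rpow_nonneg ha0.le _)) (eMF_pos _ _ _ _).le
  have e4 := mul_le_mul_of_nonneg_left e2 e3
  calc K * ((a : ℝ) ^ (-(9 / 4 * b)) * y ^ (9 / 4 * b)) * eMF q a η t * Real.exp (-(κ * y)) =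
      K * (a : ℝ) ^ (-(9 / 4 * b)) * eMF q a η t * (y ^ (9 / 4 * b) * Real.exp (-(κ * y))) := by ring
    _ ≤ _ := e4
    _ = _ := by ring

end PBFar.PLX

end
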