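import Pool.Agent.PLX.PB.ZcB
import Pool.Agent.PLX.PB.FarT
import Pool.Agent.PLX.YqL
import Pool.Agent.PB.ZcC

/-!
# Plan B: the moved cutoffs at the rows `η I, 0 ^ k`, the rows of species `a` `n a`-fold (port PLX of ZcC)

* `rwP_mu1`: the list of the rows of species `a` is `x ^ (n a), 0 ^ (n a * k)` up to order;
* `flX_xiR`: the field of the moved row is an `FlX`;
* **`cutH_R0`**: the moved cutoffs: `c = C / k ^ 3`, `St`: `K (n a k) ^ (- 9 b / 4) e^{-MF} min 1 ..`;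
* `MT_dec`, `MT_mf`, `ZcL`: the bounds of the moved cut of `St`, the cut term with legs at `z`.
-/

set_option autoImplicit false
set_option linter.unusedVariables false
set_option linter.unusedSectionVars false

noncomputable section

open Complex Set

namespace PBC.PLX

open NUP1 NUP1S.AbC NURow NUO NUGC NUGC.PLX PBX PBX.PLX
open NUP1S hiding R0
open PBFar hiding W0 phi_W0 phi_R0 phi_le phi_ge phi_le_R phi_ge_R vI DW DR hasDerivAt_W hasDerivAt_R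
  CW trW far_W far_W_prod trR far_R_prod far_R_tr norm_vI_le cutT DT hasDerivAt_T
  eMF eMF_pos prods DT_eq far_T_form far_T_all exact_rows far_R0 far_R0_prod Ep_row
open PBFar.PLX
open PBForce (xiR)
open PBL (mu1)
open _root_.PLX (Fil)
open _root_.Pool.Agent.PLX (XXU RRU TTU rwq rwq_true rwq_false Rws_rwq forall_rwq ofFn_rwq_cons)

/-! ## the field -/

theorem flX_xiR : ∃ C0 : ℝ, 1 ≤ C0 ∧ ∀ k : ℕ, 1 ≤ k → ∀ η : ℝ, |η| ≤ 1 →
    FlX k C0 (xiR (rwx k η) 0) (xe k η) := by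
  obtain ⟨C0, h1, H⟩ := PBC.flX_xiR
  exact ⟨C0, h1, fun k hk η hη => ⟨(H k hk η hη).me, (H k hk η hη).fl, (H k hk η hη).df⟩⟩

/-! ## the moved cutoffs of one species -/

theorem cutH_q {q : ℕ} (hq : 1 ≤ q) {ep : ℝ} (h0 : 0 < ep) (h1 : ep ≤ 1 / 100) {C0 : ℝ}
    (hC0 : 1 ≤ C0) :
    ∃ (Cc K : ℝ) (N0 : ℕ), 0 < Cc ∧ 0 < K ∧ ∀ k : ℕ, N0 ≤ k → ∀ η : ℝ, |η| ≤ 1 → ∀ X : ℂ → ℂ,
      FlX k C0 X (xe k η) →
      (∀ (u h : ℂ), |u.re + l / 2| ≤ (3 / 2 + ep / 4) * l → h.im = u.im → 1 / 2 * l ≤ h.re →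
        h.re ≤ 31 / 20 * l →
        ‖DW q (4 / 3 * (1 - ep)) (q * k) ((η : ℂ) * I) I (xe k η) (X h) u‖ ≤
          Cc / (k : ℝ) ^ 3 * ‖NUP1.phi (4 / 3 * (1 - ep)) (W0 q (q * k) ((η : ℂ) * I) PBFar.wE) u‖) ∧
      (∀ (u h : ℂ), |u.re + l / 2| ≤ l → h.im = u.im → 1 / 2 * l ≤ h.re → h.re ≤ 31 / 20 * l →
        ‖DR q (4 / 3) (q * k) ((η : ℂ) * I) I (X h) u‖ ≤
          Cc / (k : ℝ) ^ 3 * ‖NUP1.phi (4 / 3) (R0 q (q * k) ((η : ℂ) * I)) u‖) ∧
      (∀ (t : ℝ) (h : ℂ), h.im = t → 1 / 2 * l ≤ h.re → h.re ≤ 31 / 20 * l →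
        ‖DT q (4 / 3 * (1 - ep)) (q * k) ((η : ℂ) * I) I (xe k η) (X h) (posT t)‖ ≤
          K * ((q * k : ℕ) : ℝ) ^ (-(9 / 4 * (4 / 3 * (1 - ep)))) * eMF q (q * k) η t *
            min 1 ((q * k : ℕ) * Real.exp (-(8 / 3) * |t|))) := by
  have hl := Bd.l_pos
  have hH := PBC.hyp_ep h0 h1
  have hH' := hyp_43
  have hqr : (1 : ℝ) ≤ q := by exact_mod_cast hq
  have hqC : (1 : ℝ) ≤ q * C0 := by nlinarith
  obtain ⟨κ, hκ, hκ1, hG⟩ := PB.K11.exists_good h0 (by linarith)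
  obtain ⟨K, N1, hK, hT⟩ := far_T_all (b := 4 / 3 * (1 - ep)) (by linarith) (by linarith)
    (hG _ (by linarith) le_rfl) hκ hκ1 hq hC0
  set b := 4 / 3 * (1 - ep) with hb
  set s := (3 / 2 + ep / 4) * l with hs
  set Cc := max 1 (max (CW q b s (q * C0)) (CF (4 / 3) l (q * C0) q)) with hCc
  obtain ⟨N2, hN2⟩ := exists_nat_ge (n0 b s (q + 2))
  obtain ⟨N3, hN3⟩ := exists_nat_ge (n0 (4 / 3) l q)
  refine ⟨Cc, K, max (max N1 1) (max N2 N3), lt_of_lt_of_le one_pos (le_max_left _ _), hK,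
    fun k hk η hη X hF => ?_⟩
  simp only [max_le_iff] at hk
  obtain ⟨⟨k1, k2⟩, k3, k4⟩ := hk
  have hkq : k ≤ q * k := Nat.le_mul_of_pos_left k hq
  have hkq' : (k : ℝ) ≤ ((q * k : ℕ) : ℝ) := by exact_mod_cast hkq
  have kn1 : n0 b s (q + 2) ≤ ((q * k : ℕ) : ℝ) := by
    refine hN2.trans (le_trans ?_ hkq')
    exact_mod_cast k3
  have kn2 : n0 (4 / 3) l q ≤ ((q * k : ℕ) : ℝ) := by
    refine hN3.trans (le_trans ?_ hkq')
    exact_mod_cast k4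
  have hk0 : (0 : ℝ) < k := by exact_mod_cast k2
  have hkp : (0 : ℝ) < (k : ℝ) ^ 3 := by positivity
  have hkp' : (k : ℝ) ^ 3 ≤ ((q * k : ℕ) : ℝ) ^ 3 := pow_le_pow_left₀ hk0.le hkq' 3
  have hCc0 : 0 < Cc := lt_of_lt_of_le one_pos (le_max_left _ _)
  have cc : Cc / ((q * k : ℕ) : ℝ) ^ 3 ≤ Cc / (k : ℝ) ^ 3 :=
    div_le_div_of_nonneg_left hCc0.le hkp hkp'
  have hqk : (0 : ℝ) ≤ ((q * k : ℕ) : ℝ) ^ 3 := by positivity
  have c1 : CW q b s (q * C0) / ((q * k : ℕ) : ℝ) ^ 3 ≤ Cc / (k : ℝ) ^ 3 :=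
    (div_le_div_of_nonneg_right ((le_max_left _ _).trans (le_max_right _ _)) hqk).trans cc
  have c2 : CF (4 / 3) l (q * C0) q / ((q * k : ℕ) : ℝ) ^ 3 ≤ Cc / (k : ℝ) ^ 3 :=
    (div_le_div_of_nonneg_right ((le_max_right _ _).trans (le_max_right _ _)) hqk).trans cc
  have hv : ‖I‖ ≤ q * C0 := by rw [Complex.norm_I]; exact hqC
  have hvl : ∀ u : ℂ, vl u.re u.im = u := fun u => by
    unfold vl
    exact re_add_im u
  refine ⟨fun u h hu him r0 r1 => ?_, fun u h hu him r0 r1 => ?_, fun t h him r0 r1 => ?_⟩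
  · have key := far_W (q := q) hH kn1 (re_row η) (im_row hη) hv (fl_mul hq (hF.fl h.re r0 r1))
      (u := u) hu
    beta_reduce at key
    rw [← him, hvl] at key
    exact key.trans (mul_le_mul_of_nonneg_right c1 (norm_nonneg _))
  · have key := far_R0 hH' hq kn2 hη hC0 (hF.fl h.re r0 r1) (u := u) hu
    beta_reduce at key
    rw [← him, hvl] at key
    exact key.trans (mul_le_mul_of_nonneg_right c2 (norm_nonneg _))
  · have e : X h = (fun t => X (vl h.re t)) t := by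
      show X h = X (vl h.re t)
      have h2 := hvl h
      rw [him] at h2
      rw [h2]
    rw [e]
    exact hT k k1 η hη _ (hF.fl _ r0 r1) t

variable [Fil]

/-- **the rows of species `a`** -/
theorem rwP_mu1 (k : ℕ) (x : ℂ) : RwP (rwq (mu1 k x)) Fil.n (fun a => Fil.n a * k) x := fun a =>
  ofFn_rwq_cons k x 0 a

theorem rwP_rwx (k : ℕ) (η : ℝ) : RwP (rwq (rwx k η)) Fil.n (fun a => Fil.n a * k) ((η : ℂ) * I) :=
  fun a => ofFn_rwq_cons k ((η : ℂ) * I) 0 a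

/-- the bound of the moved cut of `St`, species `a` -/
def MT (K b : ℝ) (k : ℕ) (η : ℝ) (a : Bool) (t : ℝ) : ℝ :=
  K * ((Fil.n a * k : ℕ) : ℝ) ^ (-(9 / 4 * b)) * eMF (Fil.n a) (Fil.n a * k) η t *
    min 1 ((Fil.n a * k : ℕ) * Real.exp (-(8 / 3) * |t|))

theorem MT_nonneg {K : ℝ} (hK : 0 ≤ K) (b : ℝ) (k : ℕ) (η : ℝ) (a : Bool) (t : ℝ) :
    0 ≤ MT K b k η a t := by
  unfold MT
  have h1 := (eMF_pos (Fil.n a) (Fil.n a * k) η t).le
  have h2 : 0 ≤ min 1 (((Fil.n a * k : ℕ) : ℝ) * Real.exp (-(8 / 3) * |t|)) :=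
    le_min zero_le_one (by positivity)
  have h3 : 0 ≤ ((Fil.n a * k : ℕ) : ℝ) ^ (-(9 / 4 * b)) := Real.rpow_nonneg (Nat.cast_nonneg _) _
  positivity

/-- **the moved cutoffs** -/
theorem cutH_R0 {ep : ℝ} (h0 : 0 < ep) (h1 : ep ≤ 1 / 100) {C0 : ℝ} (hC0 : 1 ≤ C0) :
    ∃ (Cc K : ℝ) (N0 : ℕ), 0 < Cc ∧ 0 < K ∧ ∀ k : ℕ, N0 ≤ k → ∀ η : ℝ, |η| ≤ 1 → ∀ X : ℂ → ℂ,
      FlX k C0 X (xe k η) →
      CutH (4 / 3 * (1 - ep)) Fil.n (fun a => Fil.n a * k) ((η : ℂ) * I) I (xe k η) X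
        (Cc / (k : ℝ) ^ 3) (MT K (4 / 3 * (1 - ep)) k η) (ep / 4) := by
  have hl := Bd.l_pos
  have H := fun a : Bool => cutH_q (Fil.one_le_n a) h0 h1 hC0
  choose Cc K N0 hCc hK H using H
  have hCt := hCc true
  have hCf := hCc false
  have hKt := hK true
  have hKf := hK false
  refine ⟨Cc true + Cc false, K true + K false, max (max (N0 true) (N0 false)) 1, by positivity,
    by positivity, fun k hk η hη X hF => ?_⟩
  simp only [max_le_iff] at hk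
  obtain ⟨⟨kt, kf⟩, k1⟩ := hk
  have hN : ∀ a, N0 a ≤ k := fun a => by cases a <;> assumption
  have hC : ∀ a, Cc a ≤ Cc true + Cc false := fun a => by cases a <;> simp [hCt.le, hCf.le]
  have hKK : ∀ a, K a ≤ K true + K false := fun a => by cases a <;> simp [hKt.le, hKf.le]
  have hk0 : (0 : ℝ) < k := by exact_mod_cast k1
  have hCk : ∀ a, Cc a / (k : ℝ) ^ 3 ≤ (Cc true + Cc false) / (k : ℝ) ^ 3 := fun a =>
    div_le_div_of_nonneg_right (hC a) (by positivity)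
  have him2 : ∀ u : ℂ, (u + 2 * l).im = u.im := fun u => by simp
  have hre2 : ∀ u : ℂ, (u + 2 * l).re = u.re + 2 * l := fun u => by simp
  refine
    { c0 := by positivity
      M0 := fun a t => MT_nonneg (by positivity) _ _ _ _ _
      A := fun a u u0 u1 => ((H a k (hN a) η hη X hF).1 u u
        (by rw [abs_of_pos (by linarith)]; nlinarith) rfl u0 (u1.trans (by nlinarith))).trans
        (mul_le_mul_of_nonneg_right (hCk a) (norm_nonneg _))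
      L := fun a u u0 u1 => ((H a k (hN a) η hη X hF).1 u (u + 2 * l)
        (by rw [abs_le]; constructor <;> nlinarith) (him2 u)
        (by rw [hre2]; linarith) (by rw [hre2]; linarith)).trans
        (mul_le_mul_of_nonneg_right (hCk a) (norm_nonneg _))
      S := fun a u u0 u1 => ((H a k (hN a) η hη X hF).2.1 u (u + 2 * l)
        (by rw [abs_le]; constructor <;> linarith) (him2 u)
        (by rw [hre2]; linarith) (by rw [hre2]; linarith)).trans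
        (mul_le_mul_of_nonneg_right (hCk a) (norm_nonneg _))
      T := fun a t => ?_ }
  have r1 : (posT t).re = -(1 / 2 * l) := posT_re t
  refine ((H a k (hN a) η hη X hF).2.2 t (posT t + 2 * l) (by rw [him2, posT_im])
    (by rw [hre2, r1]; linarith) (by rw [hre2, r1]; linarith)).trans ?_
  unfold MT
  have e1 := (eMF_pos (Fil.n a) (Fil.n a * k) η t).le
  have e2 : 0 ≤ min 1 (((Fil.n a * k : ℕ) : ℝ) * Real.exp (-(8 / 3) * |t|)) :=
    le_min zero_le_one (by positivity)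
  have e3 : 0 ≤ ((Fil.n a * k : ℕ) : ℝ) ^ (-(9 / 4 * (4 / 3 * (1 - ep)))) :=
    Real.rpow_nonneg (Nat.cast_nonneg _) _
  have := hKK a
  gcongr

/-! ## the moved cut of `St` -/

theorem eMF_le_one (q a : ℕ) (η t : ℝ) : eMF q a η t ≤ 1 := by
  unfold eMF
  have h1 := PBC.Ag_half_nn (t - η)
  have h2 := PBC.Ag_half_nn t
  have h3 : (0 : ℝ) ≤ a * NUMF.Ag (1 / 2) t := mul_nonneg (Nat.cast_nonneg a) h2
  have h4 : (0 : ℝ) ≤ q * NUMF.Ag (1 / 2) (t - η) := mul_nonneg (Nat.cast_nonneg q) h1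
  have a1 : Real.exp (-(q * NUMF.Ag (1 / 2) (t - η))) ≤ 1 := Real.exp_le_one_iff.2 (by linarith)
  have a2 : Real.exp (-(a * NUMF.Ag (1 / 2) t)) ≤ 1 := Real.exp_le_one_iff.2 (by linarith)
  exact mul_le_one₀ a1 (Real.exp_pos _).le a2

/-- the moved cut of `St` decays -/
theorem MT_dec {K : ℝ} (hK : 0 ≤ K) {b : ℝ} (hb : b ≤ 4 / 3) (k : ℕ) (η : ℝ) (a : Bool) (t : ℝ) :
    MT K b k η a t ≤ K * ((Fil.n a * k : ℕ) : ℝ) ^ (-(9 / 4 * b)) * (Fil.n a * k : ℕ) *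
      Real.exp (-(2 * b * |t|)) := by
  have h3 : 0 ≤ ((Fil.n a * k : ℕ) : ℝ) ^ (-(9 / 4 * b)) := Real.rpow_nonneg (Nat.cast_nonneg _) _
  have h4 : Real.exp (-(8 / 3) * |t|) ≤ Real.exp (-(2 * b * |t|)) := Real.exp_le_exp.2 (by
    have := abs_nonneg t
    nlinarith)
  have h0 : (0 : ℝ) ≤ ((Fil.n a * k : ℕ) : ℝ) := Nat.cast_nonneg _
  unfold MT
  calc _ ≤ K * ((Fil.n a * k : ℕ) : ℝ) ^ (-(9 / 4 * b)) * 1 *
        (((Fil.n a * k : ℕ) : ℝ) * Real.exp (-(2 * b * |t|))) := by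
        have h5 := eMF_le_one (Fil.n a) (Fil.n a * k) η t
        have h6 : min 1 (((Fil.n a * k : ℕ) : ℝ) * Real.exp (-(8 / 3) * |t|)) ≤
            ((Fil.n a * k : ℕ) : ℝ) * Real.exp (-(2 * b * |t|)) :=
          (min_le_right _ _).trans (mul_le_mul_of_nonneg_left h4 h0)
        have h7 : 0 ≤ min 1 (((Fil.n a * k : ℕ) : ℝ) * Real.exp (-(8 / 3) * |t|)) :=
          le_min zero_le_one (by positivity)
        exact mul_le_mul (mul_le_mul_of_nonneg_left h5 (by positivity)) h6 h7 (by positivity)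
    _ = _ := by ring

/-- the moved cut of `St` against the mean field -/
theorem MT_mf {K : ℝ} (hK : 0 ≤ K) {b : ℝ} (hb : b ≤ 4 / 3) (k : ℕ) (η : ℝ) (a : Bool) (t : ℝ) :
    Real.exp (((Fil.n a * k : ℕ) : ℝ) * NUMF.Ag (1 / 2) t) * MT K b k η a t ≤
      K * ((Fil.n a * k : ℕ) : ℝ) ^ (-(9 / 4 * b)) * NUO.cut (Fil.n a * k + 1) b t := by
  have h3 : 0 ≤ ((Fil.n a * k : ℕ) : ℝ) ^ (-(9 / 4 * b)) := Real.rpow_nonneg (Nat.cast_nonneg _) _
  set A := Fil.n a * k with hA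
  have h1 : Real.exp (-(Fil.n a * NUMF.Ag (1 / 2) (t - η))) ≤ 1 :=
    Real.exp_le_one_iff.2 (by
      have := mul_nonneg (Nat.cast_nonneg (Fil.n a) : (0 : ℝ) ≤ _) (PBC.Ag_half_nn (t - η))
      linarith)
  have h2 : Real.exp (A * NUMF.Ag (1 / 2) t) * Real.exp (-(A * NUMF.Ag (1 / 2) t)) = 1 := by
    rw [← Real.exp_add, add_neg_cancel, Real.exp_zero]
  have h4 : Real.exp (-(8 / 3) * |t|) ≤ Real.exp (-(2 * b) * |t|) := Real.exp_le_exp.2 (by
    have := abs_nonneg t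
    nlinarith)
  have h6 : min 1 ((A : ℝ) * Real.exp (-(8 / 3) * |t|)) ≤ NUO.cut (A + 1) b t := by
    unfold NUO.cut
    refine min_le_min le_rfl ?_
    push_cast
    exact mul_le_mul (by linarith) h4 (Real.exp_pos _).le (by positivity)
  have h7 : 0 ≤ min 1 ((A : ℝ) * Real.exp (-(8 / 3) * |t|)) := le_min zero_le_one (by positivity)
  unfold MT eMF
  rw [← hA]
  calc _ = K * (A : ℝ) ^ (-(9 / 4 * b)) * (Real.exp (A * NUMF.Ag (1 / 2) t) *
        Real.exp (-(A * NUMF.Ag (1 / 2) t))) * (Real.exp (-(Fil.n a * NUMF.Ag (1 / 2) (t - η))) *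
          min 1 ((A : ℝ) * Real.exp (-(8 / 3) * |t|))) := by ring
    _ ≤ K * (A : ℝ) ^ (-(9 / 4 * b)) * 1 * (1 * NUO.cut (A + 1) b t) := by
        rw [h2]
        have := mul_le_mul h1 h6 h7 zero_le_one
        exact mul_le_mul_of_nonneg_left this (by positivity)
    _ = _ := by ring

/-- the cut term with legs at `z` -/
def ZcL (c : Bool → ℂ) (k : ℕ) (b : ℝ) (η : ℝ) (z : ℂ) (X : ℂ → ℂ) : Bool → Option O3 → ℂ → ℂ :=
  ZcF c (rwq (rwx k η)) Fil.n b (fun a => Fil.n a * k) ((η : ℂ) * I) I (xe k η) X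
    (fun _ => Lg z z) (fun _ w => Lg z z w * Lg z z (w - l))

end PBC.PLX

end
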