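import Pool.Agent.PLX.Ns
import Pool.Agent.PLX.PB.OwnLe0

/-!
# `CutB` for cutoffs over `0^m ++ W`, `W` any list of points on the imaginary axis

* `one_sub_gP`: the deficit of the cutoff over `0^m ++ W` on the strip `-2 l ≤ re ≤ l`;
* **`cutBW`**: `CutB r k` for the cutoffs over `0^r ++ W` (quanta), `0^r ++ W0` (strings), points with real
  part `0` and heights at most `R`, `r + 1 <= Q k`; `cutBI`: `W = [i, -i]`, `W0 = []`.
-/

set_option autoImplicit false
set_option linter.unusedSectionVars false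
set_option linter.unusedVariables false

open MeasureTheory Set Filter Topology

open PLX (Fil)

namespace PB0.PLX

open NUMF (l l_pos zj Ag)
open NUGC (cut cut_nonneg)

noncomputable section

/-- points on the imaginary axis of height at most `R` -/
def OnI (R : ℝ) (W : List ℂ) : Prop := ∀ w ∈ W, w.re = 0 ∧ |w.im| ≤ R

lemma strip_zj {v : ℝ} (hv : -2 ≤ v) (hv' : v ≤ 1) (τ : ℝ) {w : ℂ} (hw : w.re = 0) :
    |(zj v τ - w).re + NUP1.l / 2| ≤ 3 * NUP1.l / 2 := by
  have hl := l_pos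
  rw [Complex.sub_re, hw, sub_zero, zj_re, show (NUP1.l : ℝ) = l from rfl, abs_le]
  constructor <;> nlinarith

/-- the product over the list -/
theorem one_sub_gP {β R : ℝ} (h0 : 0 < β) (h1 : β ≤ 4 / 3) {v : ℝ} (hv : -2 ≤ v) (hv' : v ≤ 1)
    {W : List ℂ} (hW : OnI R W) (τ : ℝ) : ‖PBX.gP β W (zj v τ)‖ ≤ 1 ∧
      ‖1 - PBX.gP β W (zj v τ)‖ ≤ 8 * (W.length * Real.exp (2 * β * R)) *
        Real.exp (-(2 * β) * |τ|) := by
  induction W with
  | nil => simp [PBX.gP_nil]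
  | cons w W ih =>
    obtain ⟨i1, i2⟩ := ih fun x hx => hW x (List.mem_cons_of_mem _ hx)
    obtain ⟨w1, w2⟩ := hW w (by simp)
    have r1 := strip_zj hv hv' τ w1
    have a1 := NUGC.psi_le_one' h0 h1 r1
    have b1 := NUGC.one_sub_psi' h0 h1 r1
    rw [Complex.sub_im, zj_im] at b1
    have c1 : Real.exp (-(2 * β) * |τ - w.im|) ≤ Real.exp (2 * β * R) *
        Real.exp (-(2 * β) * |τ|) := by
      rw [← Real.exp_add]
      refine Real.exp_le_exp.2 ?_
      have h2 : |τ| ≤ |τ - w.im| + |w.im| := by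
        have := abs_add_le (τ - w.im) w.im
        rwa [sub_add_cancel] at this
      nlinarith
    rw [PBX.gP_cons]
    set a := NUP1.psi β (zj v τ - w) with ha
    set b := PBX.gP β W (zj v τ) with hb
    set E := Real.exp (-(2 * β) * |τ|) with hE
    set F := Real.exp (2 * β * R) with hF
    refine ⟨?_, ?_⟩
    · rw [norm_mul]
      exact mul_le_one₀ a1 (norm_nonneg _) i1
    · have e : 1 - a * b = (1 - a) + a * (1 - b) := by ring
      rw [e]
      refine (norm_add_le _ _).trans ?_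
      rw [norm_mul]
      have h3 : ‖a‖ * ‖1 - b‖ ≤ 1 * ‖1 - b‖ := mul_le_mul_of_nonneg_right a1 (norm_nonneg _)
      have h4 : ‖1 - a‖ ≤ 8 * (F * E) := b1.trans (by linarith)
      rw [List.length_cons]
      push_cast
      calc ‖1 - a‖ + ‖a‖ * ‖1 - b‖ ≤ 8 * (F * E) + 8 * (W.length * F) * E := by linarith
        _ = _ := by ring

/-- the cutoff over `0^m ++ W` -/
theorem phW_le {β R : ℝ} (h0 : 0 < β) (h1 : β ≤ 4 / 3) {v : ℝ} (hv : -2 ≤ v)
    (hv' : v ≤ 1) {W : List ℂ} (hW : OnI R W) (m : ℕ) (τ : ℝ) :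
    ‖ph0 β (PBX.gP β W) m (zj v τ)‖ ≤
      8 * min 1 ((m + W.length * Real.exp (2 * β * R)) * Real.exp (-(2 * β) * |τ|)) := by
  obtain ⟨i1, i2⟩ := one_sub_gP h0 h1 hv hv' hW τ
  have r1 := strip_zj hv hv' τ (w := 0) rfl
  rw [sub_zero] at r1
  have a1 := NUGC.psi_le_one' h0 h1 r1
  have b1 := NUGC.one_sub_psi' h0 h1 r1
  rw [zj_im] at b1
  have e : ph0 β (PBX.gP β W) m (zj v τ) = 1 - NUP1.psi β (zj v τ) ^ m * PBX.gP β W (zj v τ) := by
    unfold ph0 PBX.ph
    simp only [sub_zero, Finset.prod_const, Finset.card_univ, Fintype.card_fin]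
  rw [e]
  set a := NUP1.psi β (zj v τ) ^ m with ha
  set b := PBX.gP β W (zj v τ) with hb
  set E := Real.exp (-(2 * β) * |τ|) with hE
  have hE0 : 0 < E := Real.exp_pos _
  have ha1 : ‖a‖ ≤ 1 := by
    rw [ha, norm_pow]
    exact pow_le_one₀ (norm_nonneg _) a1
  have ha2 : ‖1 - a‖ ≤ m * (8 * E) :=
    (NUO.norm_one_sub_pow_le a1 m).trans (mul_le_mul_of_nonneg_left b1 (Nat.cast_nonneg m))
  have e2 : 1 - a * b = (1 - a) + a * (1 - b) := by ring
  have d1 : ‖1 - a * b‖ ≤ 8 * ((m + W.length * Real.exp (2 * β * R)) * E) := by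
    rw [e2]
    refine (norm_add_le _ _).trans ?_
    rw [norm_mul]
    have h3 : ‖a‖ * ‖1 - b‖ ≤ 1 * ‖1 - b‖ := mul_le_mul_of_nonneg_right ha1 (norm_nonneg _)
    calc ‖1 - a‖ + ‖a‖ * ‖1 - b‖ ≤ m * (8 * E) + 8 * (W.length * Real.exp (2 * β * R)) * E := by
          linarith
      _ = _ := by ring
  have d2 : ‖1 - a * b‖ ≤ 8 := by
    refine (norm_sub_le _ _).trans ?_
    rw [norm_one, norm_mul]
    have := mul_le_one₀ ha1 (norm_nonneg _) i1
    linarith
  rcases le_total 1 ((m + W.length * Real.exp (2 * β * R)) * E) with h | h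
  · rw [min_eq_left h, mul_one]
    exact d2
  · rw [min_eq_right h]
    exact d1

/-- the cutoff in terms of `log k`, real number of rows -/
lemma min_cutR {ep : ℝ} {k : ℕ} {n : ℝ} (hk : 0 < k) {A : ℝ} (hA : 1 ≤ A) (hn : n ≤ A * k) (τ : ℝ) :
    min 1 (n * Real.exp (-(8 / 3 * (1 - ep)) * |τ|)) ≤ A * cut (Real.log k) ep (-1) τ := by
  unfold NUGC.cut
  rw [if_neg (by norm_num)]
  have hk' : (0:ℝ) < k := by exact_mod_cast hk
  rw [show Real.log (k : ℝ) - 8 / 3 * (1 - ep) * |τ| = Real.log k +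
    -(8 / 3 * (1 - ep)) * |τ| by ring, Real.exp_add, Real.exp_log hk']
  set E := Real.exp (-(8 / 3 * (1 - ep)) * |τ|) with hE
  have hE0 : 0 < E := Real.exp_pos _
  rcases le_total 1 ((k : ℝ) * E) with h | h
  · rw [min_eq_left h, mul_one]
    exact (min_le_left _ _).trans hA
  · rw [min_eq_right h]
    refine (min_le_right _ _).trans ?_
    calc n * E ≤ A * k * E := mul_le_mul_of_nonneg_right hn hE0.le
      _ = _ := by ring

/-- the constant of `cutBW` -/
def cWA (R : ℝ) (W W0 : List ℂ) : ℝ :=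
  8 * (1 + (W.length + W0.length) * Real.exp (8 / 3 * |R|))

theorem one_le_cWA (R : ℝ) (W W0 : List ℂ) : 1 ≤ cWA R W W0 := by
  unfold cWA
  have h : (0 : ℝ) ≤ (W.length + W0.length) * Real.exp (8 / 3 * |R|) := by positivity
  linarith

/-- **`CutB` for the cutoffs over `0^r ++ W` (quanta), `0^r ++ W0` (strings)** -/
theorem cutBW {ep R : ℝ} (h0 : 0 ≤ ep) (h1 : ep < 1) {W W0 : List ℂ} (hW : OnI R W)
    (hW0 : OnI R W0) {r k : ℕ} (hk : 0 < k) {Q : ℝ} (hQ : 1 ≤ Q) (hr : (r : ℝ) + 1 ≤ Q * k) :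
    CutB r k ep (Q * cWA R W W0) (4 / 3 * (1 - ep)) (PBX.gP (4 / 3 * (1 - ep)) W)
      (PBX.gP (4 / 3) W0) := by
  have hβ : 0 < 4 / 3 * (1 - ep) := by linarith
  have hβ' : 4 / 3 * (1 - ep) ≤ 4 / 3 := by linarith
  have hm : (0 : ℝ) ≤ r := Nat.cast_nonneg r
  have hw : (0 : ℝ) ≤ W.length := Nat.cast_nonneg _
  have hw0 : (0 : ℝ) ≤ W0.length := Nat.cast_nonneg _
  have hR := abs_nonneg R
  have hRR := le_abs_self R
  set X := Real.exp (8 / 3 * |R|) with hX
  have hX0 : 0 < X := Real.exp_pos _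
  have hx1 : Real.exp (2 * (4 / 3 * (1 - ep)) * R) ≤ X := by
    refine Real.exp_le_exp.2 ?_
    nlinarith [mul_nonneg h0 hR]
  have hx2 : Real.exp (2 * (4 / 3 : ℝ) * R) ≤ X := by
    refine Real.exp_le_exp.2 ?_
    linarith
  set A0 := 1 + (W.length + W0.length) * X with hA0
  have hA1 : 1 ≤ A0 := by
    have : 0 ≤ (W.length + W0.length) * X := by positivity
    linarith
  have hQA : 1 ≤ Q * A0 := by nlinarith
  have hn : ∀ (L : ℝ) (Y : ℝ), 0 ≤ L → L ≤ W.length + W0.length → Y ≤ X →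
      r + L * Y ≤ Q * A0 * (k : ℝ) := by
    intro L Y hL hLL hY
    have h2 : L * Y ≤ (W.length + W0.length) * X := by
      rcases le_total 0 Y with h | h
      · exact mul_le_mul hLL hY h (by linarith)
      · have h3 : L * Y ≤ 0 := mul_nonpos_of_nonneg_of_nonpos hL h
        have h4 : 0 ≤ (W.length + W0.length) * X := by positivity
        linarith
    have h5 : (r : ℝ) ≤ A0 * r := by nlinarith
    have h6 : L * Y ≤ A0 := by linarith
    have h7 : A0 * ((r : ℝ) + 1) ≤ A0 * (Q * k) := mul_le_mul_of_nonneg_left hr (by linarith)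
    linarith
  have eA : Q * cWA R W W0 = 8 * (Q * A0) := by
    show Q * (8 * A0) = _
    ring
  refine ⟨fun τ => ?_, fun τ => ?_, fun τ => ?_⟩
  · refine (phW_le hβ hβ' (by norm_num) (by norm_num) hW r τ).trans ?_
    have h := min_cutR (ep := ep) (k := k) hk hQA (hn W.length _ hw (by linarith) hx1) τ
    rw [show -(2 * (4 / 3 * (1 - ep))) * |τ| = -(8 / 3 * (1 - ep)) * |τ| by ring, eA]
    linarith
  · refine (phW_le hβ hβ' (by norm_num) (by norm_num) hW r τ).trans ?_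
    have := min_le_left (1 : ℝ) ((r + W.length * Real.exp (2 * (4 / 3 * (1 - ep)) * R)) *
      Real.exp (-(2 * (4 / 3 * (1 - ep))) * |τ|))
    rw [eA]
    linarith
  · refine (phW_le (by norm_num) le_rfl (by norm_num) (by norm_num) hW0 r τ).trans ?_
    have h := min_cutR (ep := ep) (k := k) hk hQA (hn W0.length _ hw0 (by linarith) hx2) τ
    have h2 : min 1 ((r + W0.length * Real.exp (2 * (4 / 3 : ℝ) * R)) *
        Real.exp (-(2 * (4 / 3 : ℝ)) * |τ|)) ≤
        min 1 ((r + W0.length * Real.exp (2 * (4 / 3 : ℝ) * R)) *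
          Real.exp (-(8 / 3 * (1 - ep)) * |τ|)) := by
      refine min_le_min le_rfl (mul_le_mul_of_nonneg_left (Real.exp_le_exp.2 ?_) (by positivity))
      have := abs_nonneg τ
      nlinarith
    rw [eA]
    linarith

/-- **the cutoffs over `0^r ++ [i, -i]` (quanta) and `0^r` (strings)** -/
theorem cutBI {ep : ℝ} (h0 : 0 ≤ ep) (h1 : ep < 1) {r k : ℕ} (hk : 0 < k) {Q : ℝ} (hQ : 1 ≤ Q)
    (hr : (r : ℝ) + 1 ≤ Q * k) :
    CutB r k ep (Q * cWA 1 [Complex.I, -Complex.I] []) (4 / 3 * (1 - ep))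
      (PBX.gP (4 / 3 * (1 - ep)) [Complex.I, -Complex.I]) (PBX.gP (4 / 3) []) := by
  refine cutBW h0 h1 (fun w hw => ?_) (fun w hw => ?_) hk hQ hr
  · simp only [List.mem_cons, List.not_mem_nil, or_false] at hw
    rcases hw with rfl | rfl <;> simp
  · simp at hw

/-- rows of the species of the sea: `r a = cond a (k - 1) (q (k - 1))`, `Q = q` -/
theorem rows_le [Fil] {k : ℕ} (hk : 0 < k) (a : Bool) :
    ((cond a (k - 1) (Fil.q * (k - 1)) : ℕ) : ℝ) + 1 ≤ (Fil.q : ℝ) * k := by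
  have hq : 1 ≤ Fil.q := Fil.one_le_q (self := inferInstance)
  have h : cond a (k - 1) (Fil.q * (k - 1)) + 1 ≤ Fil.q * k := by
    obtain ⟨j, rfl⟩ : ∃ j, k = j + 1 := ⟨k - 1, by omega⟩
    rw [Nat.add_sub_cancel]
    cases a
    · show Fil.q * j + 1 ≤ Fil.q * (j + 1)
      rw [Nat.mul_succ]
      omega
    · show j + 1 ≤ Fil.q * (j + 1)
      exact Nat.le_mul_of_pos_left _ (by omega)
  exact_mod_cast h

end

end PB0.PLX
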