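import Pool.Agent.PLX.Ns
import Pool.Agent.PLX.NUGC.S4C
import Pool.Agent.PLX.NUGC.CurEx
import Pool.Agent.PLX.NUGC.AsmC
import Pool.Agent.NUO.Ranges

/-!
# Abstract geometry of the class level (kind free part of `PB/AsmR`)

* `Geo`: the geometry (`G.EM m`: exponent of the sea, `G.MF m a c w`: exponent of a group of species `a` in the
  sea; `m` = number of rows of species X, ends included); `phC`: phase of a class; `gnF`: the gain of a family;
* `T1R`: end of the window; `prefR`: prefactor.
-/

set_option autoImplicit false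

noncomputable section

open MeasureTheory Finset



namespace PBO.PLX

open NUGC NUGC.PLX
open NUO NUP1
open NUSea.PLX.H0 (Gd IG TG cstF)
open NUSp (kG spo qc)

/-- **a geometry**: one body data with `m` rows and cutoff exponent `β` (no groups), exponent of the
objects `one m ep e1 J O i`, bulk exponent, mean field exponent of a group of each species -/
structure Geo where
  /-- one body data without groups -/
  B : ℕ → ℝ → OB
  /-- exponent of an object -/
  one : ℕ → ℝ → ℝ → ℝ → (r : ℕ) → (Fin r → Xo) → Fin r → ℝ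
  /-- bulk exponent -/
  EM : ℕ → ℝ
  /-- mean field exponent of a group of species `a` -/
  MF : ℕ → Bool → NUSp.Cl → ℂ → ℝ

/-- phase of a class of spectators (both species) -/
def phC : NUSp.Cl → ℝ
  | .w => -(3 * NUMF.l)
  | .p => 5 * NUMF.l
  | .hs => 5 * NUMF.l
  | .hp => 13 * NUMF.l
  | .d => 2 * NUMF.l

/-- **the gain of the ends and of a family of groups** -/
def gnF (e1 J : ℝ) (m : ℕ) {n : ℕ} (g : Fin n → Gd) : ℝ :=
  12 * NUMF.l * hC e1 J m 0 + ∑ i, 2 * (phC (g i).c * hC e1 J m (g i).τ)

/-- end of the window: `E` is the excess of the composite groups -/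
def T1R (ep e1 : ℝ) (m : ℕ) {r : ℕ} (O : Fin r → Xo) (E : ℝ) : ℝ :=
  TW ep e1 m + max (excS (TW ep e1 m) O) E

/-- prefactor: mean field value, mean field values of the groups at their true heights, far factors -/
def prefR (G : Geo) (m : ℕ) {n : ℕ} (g : Fin n → Gd) (E x Cst : ℝ) : ℝ :=
  Cst * Real.exp (G.EM m) *
    Real.exp (∑ i, G.MF m (g i).σ (g i).c (g i).w) * Real.exp (37 / 20 * x + 12 / 5 * E)

theorem prefR_nonneg {G : Geo} {m : ℕ} {n : ℕ} {g : Fin n → Gd} {E x Cst : ℝ} (h : 0 ≤ Cst) :
    0 ≤ prefR G m g E x Cst := by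
  unfold prefR
  positivity

theorem spFR_nonneg {n : ℕ} (g : Fin n → Gd) (a : Bool) (u : ℂ) : 0 ≤ spF g a u := by
  unfold spF
  refine prod_nonneg fun i _ => ?_
  rw [← spM_get]
  exact spM_nonneg _ _ _

end PBO.PLX

end
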