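import Pool.Agent.PLX.Ns
import Pool.Agent.PLX.Fil
import Pool.Agent.PLX.PotH.SrcH
import Pool.Agent.PLX.IST.SrcRow
import Pool.Agent.PLX.NUGC.ThN
import Pool.Agent.PB.LC

/-!
# PLAX: the potentials of rows, legs and spectators are admissible (curves with small derivatives)

* `HS x ζ`, `HS' x ζ ζ1`: sum of atoms `k Re LC y1 y2 (t - c + i ζ t)`, curve `ζ a` of the species `a`;
* `NL y c ζ t = log |cosh (t - c + i (ζ t + y))|`; `NL_sub_le`, `NL'_sub_le`: two curves, the same centre;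
  `ST_ext`: the step `NL y c ζ - NL 0 0 ζ` is in the extension class;
* `RO w ζ`, `RX w ζ`: a row moved from `0` to `w`: logarithms of the factor of an own quantum, of a
  quantum of the other species; **`RW k w ζ a = k a RO + k (!a) RX`**: `k a` rows of the species `a` are
  moved; `RW_line`: on the line it is the potential of `rowν`, `rowτ`;
* **`hok_sm`**: `HOk` for sums of atoms; **`hsk_sm`**: `HSk` for sums of atoms and moved rows.
-/

set_option autoImplicit false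
set_option linter.unusedSectionVars false
set_option linter.unusedVariables false

open MeasureTheory Filter Topology Set Complex

namespace PBH.PLX

open NUMF (l l_pos)
open NUO (pA Tb)
open PotH.PLX (HOk HSk)
open NUSea.PLX.H0 (SrcOk srcP rowν rowτ srcP_rowP srcOk_row)
open NUSea (seaP)

noncomputable section

/-- an atom with its coefficient and centre -/
structure Atm where
  /-- coefficient -/
  k : ℝ
  /-- line of the numerator -/
  y1 : ℝ
  /-- line of the denominator -/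
  y2 : ℝ
  /-- centre -/
  c : ℝ

/-- the sum of atoms, the curve of the species `a` is `ζ a` -/
def HS {n : ℕ} (x : Bool → Fin n → Atm) (ζ : Bool → ℝ → ℝ) (a : Bool) (t : ℝ) : ℝ :=
  ∑ i, (x a i).k * AT (x a i).y1 (x a i).y2 (x a i).c (ζ a) t

/-- its derivative -/
def HS' {n : ℕ} (x : Bool → Fin n → Atm) (ζ ζ1 : Bool → ℝ → ℝ) (a : Bool) (t : ℝ) : ℝ :=
  ∑ i, (x a i).k * AT' (x a i).y1 (x a i).y2 (x a i).c (ζ a) (ζ1 a) t

/-- bounded atoms -/
def AtOk (K δ : ℝ) {n : ℕ} (x : Bool → Fin n → Atm) : Prop :=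
  ∀ a i, |(x a i).k| ≤ K ∧ |(x a i).y1| ≤ 4 * l - δ ∧ |(x a i).y2| ≤ 4 * l - δ

lemma sum_abs_le {n : ℕ} {f : Fin n → ℝ} {A : ℝ} (h : ∀ i, |f i| ≤ A) : |∑ i, f i| ≤ n * A := by
  refine (Finset.abs_sum_le_sum_abs _ _).trans ((Finset.sum_le_sum fun i _ => h i).trans ?_)
  simp

/-- a curve with small derivatives -/
structure Sm (ε : ℝ) (η η1 : ℝ → ℝ) : Prop where
  o : NUOC.O 4 1 η
  d : ∀ t, HasDerivAt η (η1 t) t
  c : Continuous η1
  le : ∀ t, |η t| ≤ ε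
  le1 : ∀ t, |η1 t| ≤ 1

/-- the line -/
lemma sm_zero {ε : ℝ} (h : 0 ≤ ε) : Sm ε (fun _ => 0) fun _ => 0 where
  o := NUOC.O.const 4 (by simp)
  d t := hasDerivAt_const t 0
  c := continuous_const
  le t := by rw [abs_zero]; exact h
  le1 t := by rw [abs_zero]; exact zero_le_one

/-- the curve of a species -/
theorem Sm.cv [PLX.Fil] {ε : ℝ} {η η1 : ℝ → ℝ} (h : Sm ε η η1) (a : Bool) :
    Sm ε (PLX.Fil.cv a η) (PLX.Fil.cv a η1) where
  o := by
    have h1 := h.o.smul (PLX.Fil.b a)⁻¹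
    have h2 : |(PLX.Fil.b a)⁻¹| ≤ 1 := by
      rw [abs_of_pos (PLX.Fil.inv_b_pos a)]
      exact PLX.Fil.inv_b_le a
    refine (h1.mono (by linarith)).congr fun t => ?_
    rw [PLX.Fil.cv_apply, div_eq_mul_inv, mul_comm]
  d t := PLX.Fil.hasDerivAt_cv a (h.d t)
  c := PLX.Fil.continuous_cv a h.c
  le t := PLX.Fil.abs_cv_le_of (h.le t)
  le1 t := PLX.Fil.abs_cv_le_of (h.le1 t)

/-! ### functions of bounded energy -/

/-- bounded, of bounded energy -/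
structure Dc (B N : ℝ) (f f' : ℝ → ℝ) : Prop where
  d : ∀ t, HasDerivAt f (f' t) t
  c : Continuous f'
  le : ∀ t, |f t| ≤ B
  en : ∀ T, 0 ≤ T → ∫ t in (-T)..T, (f t ^ 2 + f' t ^ 2) ≤ N

namespace Dc

variable {B N B' N' : ℝ} {f f' g g' : ℝ → ℝ}

lemma cont (h : Dc B N f f') : Continuous f :=
  continuous_iff_continuousAt.2 fun t => (h.d t).continuousAt

lemma int (h : Dc B N f f') (a b : ℝ) : IntervalIntegrable (fun t => f t ^ 2 + f' t ^ 2) volume a b :=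
  ((h.cont.pow 2).add (h.c.pow 2)).intervalIntegrable _ _

lemma B_nonneg (h : Dc B N f f') : 0 ≤ B := (abs_nonneg _).trans (h.le 0)

lemma N_nonneg (h : Dc B N f f') : 0 ≤ N := by
  have := h.en 0 le_rfl
  simpa using this

theorem add (h : Dc B N f f') (k : Dc B' N' g g') :
    Dc (B + B') (2 * N + 2 * N') (fun t => f t + g t) (fun t => f' t + g' t) where
  d t := (h.d t).add (k.d t)
  c := h.c.add k.c
  le t := (abs_add_le _ _).trans (add_le_add (h.le t) (k.le t))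
  en T hT := by
    calc ∫ t in (-T)..T, ((f t + g t) ^ 2 + (f' t + g' t) ^ 2) ≤
        ∫ t in (-T)..T, (2 * (f t ^ 2 + f' t ^ 2) + 2 * (g t ^ 2 + g' t ^ 2)) := by
          refine intervalIntegral.integral_mono_on (by linarith) ?_
            (((h.int _ _).const_mul 2).add ((k.int _ _).const_mul 2)) fun t _ => ?_
          · exact (((h.cont.add k.cont).pow 2).add ((h.c.add k.c).pow 2)).intervalIntegrable _ _
          · nlinarith [sq_nonneg (f t - g t), sq_nonneg (f' t - g' t)]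
      _ = 2 * (∫ t in (-T)..T, (f t ^ 2 + f' t ^ 2)) + 2 * ∫ t in (-T)..T, (g t ^ 2 + g' t ^ 2) := by
          rw [intervalIntegral.integral_add ((h.int _ _).const_mul 2) ((k.int _ _).const_mul 2),
            intervalIntegral.integral_const_mul, intervalIntegral.integral_const_mul]
      _ ≤ _ := by
          have := h.en T hT
          have := k.en T hT
          linarith

theorem smul {K x : ℝ} (h : Dc B N f f') (hx : |x| ≤ K) :
    Dc (K * B) (K ^ 2 * N) (fun t => x * f t) (fun t => x * f' t) where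
  d t := (h.d t).const_mul x
  c := continuous_const.mul h.c
  le t := by
    rw [abs_mul]
    exact mul_le_mul hx (h.le t) (abs_nonneg _) ((abs_nonneg _).trans hx)
  en T hT := by
    have e : (fun t => (x * f t) ^ 2 + (x * f' t) ^ 2) = fun t => x ^ 2 * (f t ^ 2 + f' t ^ 2) := by
      funext t
      ring
    rw [e, intervalIntegral.integral_const_mul]
    have h1 : x ^ 2 ≤ K ^ 2 := by
      rw [← sq_abs x]
      exact pow_le_pow_left₀ (abs_nonneg _) hx 2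
    exact mul_le_mul h1 (h.en T hT) (intervalIntegral.integral_nonneg (by linarith)
      fun t _ => by positivity) (sq_nonneg K)

theorem mono (h : Dc B N f f') (hB : B ≤ B') (hN : N ≤ N') : Dc B' N' f f' :=
  { h with
    le := fun t => (h.le t).trans hB
    en := fun T hT => (h.en T hT).trans hN }

theorem sum {n : ℕ} {f f' : Fin n → ℝ → ℝ} (h : ∀ i, Dc B N (f i) (f' i)) :
    Dc (n * B) (n ^ 2 * N) (fun t => ∑ i, f i t) (fun t => ∑ i, f' i t) where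
  d t := HasDerivAt.fun_sum fun i _ => (h i).d t
  c := continuous_finsetSum _ fun i _ => (h i).c
  le t := sum_abs_le fun i => (h i).le t
  en T hT := by
    have h1 : ∀ t, (∑ i, f i t) ^ 2 + (∑ i, f' i t) ^ 2 ≤ ∑ i, (n : ℝ) * (f i t ^ 2 + f' i t ^ 2) := by
      intro t
      have e1 := sq_sum_le_card_mul_sum_sq (s := (Finset.univ : Finset (Fin n))) (f := fun i => f i t)
      have e2 := sq_sum_le_card_mul_sum_sq (s := (Finset.univ : Finset (Fin n))) (f := fun i => f' i t)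
      rw [Finset.card_univ, Fintype.card_fin, Finset.mul_sum] at e1 e2
      refine (add_le_add e1 e2).trans (le_of_eq ?_)
      rw [← Finset.sum_add_distrib]
      exact Finset.sum_congr rfl fun i _ => by ring
    have i1 : ∀ i, IntervalIntegrable (fun t => (n : ℝ) * (f i t ^ 2 + f' i t ^ 2)) volume (-T) T :=
      fun i => ((h i).int _ _).const_mul _
    calc ∫ t in (-T)..T, ((∑ i, f i t) ^ 2 + (∑ i, f' i t) ^ 2) ≤
        ∫ t in (-T)..T, ∑ i, (n : ℝ) * (f i t ^ 2 + f' i t ^ 2) := by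
          refine intervalIntegral.integral_mono_on (by linarith) ?_ ?_ fun t _ => h1 t
          · exact (((continuous_finsetSum _ fun i _ => (h i).cont).pow 2).add
              ((continuous_finsetSum _ fun i _ => (h i).c).pow 2)).intervalIntegrable _ _
          · exact (continuous_finsetSum _ fun i _ => continuous_const.mul
              (((h i).cont.pow 2).add ((h i).c.pow 2))).intervalIntegrable _ _
      _ = ∑ i, ∫ t in (-T)..T, (n : ℝ) * (f i t ^ 2 + f' i t ^ 2) :=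
          intervalIntegral.integral_finsetSum fun i _ => i1 i
      _ ≤ ∑ _i : Fin n, (n : ℝ) * N := by
          refine Finset.sum_le_sum fun i _ => ?_
          rw [intervalIntegral.integral_const_mul]
          exact mul_le_mul_of_nonneg_left ((h i).en T hT) (Nat.cast_nonneg _)
      _ = _ := by
          rw [Finset.sum_const, Finset.card_univ, Fintype.card_fin, nsmul_eq_mul]
          ring

/-- exponential decay about `c` -/
theorem of_exp {A c : ℝ} (hA : 0 ≤ A) (hd : ∀ t, HasDerivAt f (f' t) t) (hc : Continuous f')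
    (h : ∀ t, |f t| ≤ A * Real.exp (-2 * |t - c|)) (h' : ∀ t, |f' t| ≤ A * Real.exp (-2 * |t - c|)) :
    Dc A (2 * (A ^ 2 * ∫ t : ℝ, Real.exp (-4 * |t|))) f f' where
  d := hd
  c := hc
  le t := (h t).trans (by
    have h1 : Real.exp (-2 * |t - c|) ≤ 1 := by
      refine Real.exp_le_one_iff.2 ?_
      have := abs_nonneg (t - c)
      linarith
    nlinarith)
  en T hT := by
    have hcf : Continuous f := continuous_iff_continuousAt.2 fun t => (hd t).continuousAt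
    have i1 : IntervalIntegrable (fun t => f t ^ 2) volume (-T) T :=
      (hcf.pow 2).intervalIntegrable _ _
    have i2 : IntervalIntegrable (fun t => f' t ^ 2) volume (-T) T :=
      (hc.pow 2).intervalIntegrable _ _
    rw [intervalIntegral.integral_add i1 i2]
    have e1 := en_le hA hcf h hT
    have e2 := en_le hA hc h' hT
    linarith

end Dc

/-! ### the logarithm of one `cosh` -/

/-- point of the strip -/
def pw (y c : ℝ) (η : ℝ → ℝ) (t : ℝ) : ℂ := ((t - c : ℝ) : ℂ) + η t * I + y * I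

/-- `log |cosh|` at the point -/
def NL (y c : ℝ) (ζ : ℝ → ℝ) (t : ℝ) : ℝ := Real.log ‖Complex.cosh (pw y c ζ t)‖

/-- its derivative -/
def NL' (y c : ℝ) (ζ ζ1 : ℝ → ℝ) (t : ℝ) : ℝ :=
  (Complex.sinh (pw y c ζ t) / Complex.cosh (pw y c ζ t) * (1 + ζ1 t * I)).re

lemma AT_NL (y1 y2 c : ℝ) (η : ℝ → ℝ) (t : ℝ) : AT y1 y2 c η t = NL y1 c η t - NL y2 c η t := by
  unfold AT LC NL pw
  rw [Complex.sub_re, Complex.log_re, Complex.log_re]

lemma AT'_NL (y1 y2 c : ℝ) (η η1 : ℝ → ℝ) (t : ℝ) :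
    AT' y1 y2 c η η1 t = NL' y1 c η η1 t - NL' y2 c η η1 t := by
  unfold AT' LC' NL' pw
  rw [sub_mul, Complex.sub_re]

lemma NL_line (c t : ℝ) : NL 0 c (fun _ => 0) t = Real.log (Real.cosh (t - c)) := by
  unfold NL pw
  rw [Complex.ofReal_zero, zero_mul, add_zero, add_zero, ← Complex.ofReal_cosh, Complex.norm_real,
    Real.norm_of_nonneg (Real.cosh_pos _).le]

variable {δ : ℝ}

lemma pw_im (y c : ℝ) (η : ℝ → ℝ) (t : ℝ) : (pw y c η t).im = η t + y := by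
  unfold pw
  simp

lemma pw_re (y c : ℝ) (η : ℝ → ℝ) (t : ℝ) : (pw y c η t).re = t - c := by
  unfold pw
  simp

lemma pw_norm {y c : ℝ} (hδ : 0 < δ) (hδ1 : δ ≤ 4 * l) (hy : |y| ≤ 4 * l - δ) {η : ℝ → ℝ}
    (hη : ∀ t, |η t| ≤ δ / 2) (t : ℝ) : 0 < ‖Complex.cosh (pw y c η t)‖ := by
  have h2 := norm_ge hδ hδ1 (w := pw y c η t) (by
    rw [pw_im]
    exact (abs_add_le _ _).trans (by linarith [hη t]))
  have := c0_pos hδ hδ1
  exact lt_of_lt_of_le (mul_pos this (Real.cosh_pos _)) h2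

lemma AT_log (y1 y2 c : ℝ) (η : ℝ → ℝ) (t : ℝ) : AT y1 y2 c η t =
    Real.log ‖Complex.cosh (pw y1 c η t)‖ - Real.log ‖Complex.cosh (pw y2 c η t)‖ := AT_NL y1 y2 c η t

lemma pw_deriv {y c : ℝ} {ζ ζ1 : ℝ → ℝ} (hd : ∀ t, HasDerivAt ζ (ζ1 t) t) (t : ℝ) :
    HasDerivAt (pw y c ζ) (1 + ζ1 t * I) t := by
  have e1 : HasDerivAt (fun t : ℝ => ((t - c : ℝ) : ℂ)) 1 t := by
    have := ((hasDerivAt_id t).sub_const c).ofReal_comp
    simpa using this
  have e2 : HasDerivAt (fun t : ℝ => ((ζ t : ℝ) : ℂ) * I) ((ζ1 t : ℂ) * I) t :=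
    (hd t).ofReal_comp.mul_const I
  exact (e1.add e2).add_const _

theorem NL_deriv (h0 : 0 < δ) {y c : ℝ} (hy : |y| ≤ 4 * l - δ) {ζ ζ1 : ℝ → ℝ}
    (hζ : ∀ t, |ζ t| ≤ δ / 2) (hd : ∀ t, HasDerivAt ζ (ζ1 t) t) (t : ℝ) :
    HasDerivAt (NL y c ζ) (NL' y c ζ ζ1 t) t := by
  have hs : Complex.cosh (pw y c ζ t) ∈ slitPlane := by
    have h := slit1 h0 (z := pw 0 c ζ t) (y := y) (by
      rw [pw_im, add_zero]
      exact (abs_add_le _ _).trans (by linarith [hζ t]))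
    have e : pw 0 c ζ t + y * I = pw y c ζ t := by
      unfold pw
      push_cast
      ring
    rwa [e] at h
  have h1 := (Complex.hasDerivAt_cosh (pw y c ζ t)).comp t (pw_deriv (y := y) (c := c) hd t)
  have h2 := Complex.reCLM.hasFDerivAt.comp_hasDerivAt t (h1.clog_real hs)
  have e1 : (Complex.reCLM ∘ fun t => Complex.log ((Complex.cosh ∘ pw y c ζ) t)) = NL y c ζ := by
    funext t
    show (Complex.log (Complex.cosh (pw y c ζ t))).re = _
    rw [Complex.log_re]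
    rfl
  rw [e1] at h2
  refine h2.congr_deriv ?_
  show (_ : ℂ).re = _
  unfold NL'
  congr 1
  show Complex.sinh (pw y c ζ t) * (1 + ζ1 t * I) / Complex.cosh (pw y c ζ t) = _
  ring

theorem NL'_cont (h0 : 0 < δ) {y c : ℝ} (hy : |y| ≤ 4 * l - δ) {ζ ζ1 : ℝ → ℝ}
    (hζ : ∀ t, |ζ t| ≤ δ / 2) (hc : Continuous ζ) (hc1 : Continuous ζ1) :
    Continuous (NL' y c ζ ζ1) := by
  have hδ1 : δ ≤ 4 * l := by
    have := (abs_nonneg _).trans hy
    linarith
  unfold NL'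
  have hp : Continuous (pw y c ζ) := by
    unfold pw
    fun_prop
  refine Complex.continuous_re.comp (Continuous.mul (Continuous.div ?_ ?_ fun t => ?_) (by fun_prop))
  · exact Complex.continuous_sinh.comp hp
  · exact Complex.continuous_cosh.comp hp
  · exact norm_pos_iff.1 (pw_norm h0 hδ1 hy hζ t)

/-- the same centre, two lines, two curves: the point of the second line -/
lemma pw_shift (y1 y2 c : ℝ) (ζ ζ2 : ℝ → ℝ) (t : ℝ) :
    pw y1 c ζ t = (((t - c : ℝ) : ℂ) + ζ t * I) + y1 * I ∧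
      pw y2 c ζ2 t = (((t - c : ℝ) : ℂ) + ζ t * I) + ((ζ2 t + y2 - ζ t : ℝ) : ℂ) * I := by
  refine ⟨rfl, ?_⟩
  unfold pw
  push_cast
  ring

lemma dm_shift {y1 y2 c : ℝ} (h1 : |y1| ≤ 4 * l - δ) (h2 : |y2| ≤ 4 * l - δ) {ζ ζ2 : ℝ → ℝ}
    (hζ : ∀ t, |ζ t| ≤ δ / 2) (hζ2 : ∀ t, |ζ2 t| ≤ δ / 2) (t : ℝ) :
    Dm δ y1 (ζ2 t + y2 - ζ t) (((t - c : ℝ) : ℂ) + ζ t * I) := by
  constructor
  · rw [im_pt]
    exact (abs_add_le _ _).trans (by linarith [hζ t])
  · rw [im_pt, show ζ t + (ζ2 t + y2 - ζ t) = ζ2 t + y2 by ring]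
    exact (abs_add_le _ _).trans (by linarith [hζ2 t])

/-- **two lines, two curves, the same centre** -/
theorem NL_sub_le (h0 : 0 < δ) (h01 : δ ≤ 4 * l) {y1 y2 c : ℝ} (h1 : |y1| ≤ 4 * l - δ)
    (h2 : |y2| ≤ 4 * l - δ) {ζ ζ2 : ℝ → ℝ} (hζ : ∀ t, |ζ t| ≤ δ / 2) (hζ2 : ∀ t, |ζ2 t| ≤ δ / 2)
    (t : ℝ) : |NL y1 c ζ t - NL y2 c ζ2 t| ≤ KL δ * Real.exp (-2 * |t - c|) := by
  have key := re_LC_le h0 h01 (dm_shift (c := c) h1 h2 hζ hζ2 t)
  rw [re_pt] at key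
  obtain ⟨e1, e2⟩ := pw_shift y1 y2 c ζ ζ2 t
  unfold NL
  rw [e1, e2]
  unfold LC at key
  rw [Complex.sub_re, Complex.log_re, Complex.log_re] at key
  exact key

/-- `tanh` is almost real -/
lemma im_th (h0 : 0 < δ) (h01 : δ ≤ 4 * l) {y c : ℝ} (h : |y| ≤ 4 * l - δ) {ζ : ℝ → ℝ}
    (hζ : ∀ t, |ζ t| ≤ δ / 2) (t : ℝ) :
    |(Complex.sinh (pw y c ζ t) / Complex.cosh (pw y c ζ t)).im| ≤ KL δ * Real.exp (-2 * |t - c|) := by
  have hy0 : |(0 : ℝ)| ≤ 4 * l - δ := by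
    rw [abs_zero]
    exact (abs_nonneg _).trans h
  have hz : ∀ t : ℝ, |(fun _ : ℝ => (0 : ℝ)) t| ≤ δ / 2 := fun t => by
    simp only [abs_zero]
    linarith
  have key := LC'_le h0 h01 (dm_shift (c := c) (y1 := y) (y2 := 0) h hy0 hζ hz t)
  rw [re_pt] at key
  obtain ⟨e1, e2⟩ := pw_shift y 0 c ζ (fun _ => 0) t
  unfold LC' at key
  rw [← e1, ← e2] at key
  have h3 : (Complex.sinh (pw 0 c (fun _ => 0) t) / Complex.cosh (pw 0 c (fun _ => 0) t)).im = 0 := by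
    unfold pw
    rw [Complex.ofReal_zero, zero_mul, add_zero, add_zero, ← Complex.ofReal_sinh,
      ← Complex.ofReal_cosh, ← Complex.ofReal_div, Complex.ofReal_im]
  have h4 := (Complex.abs_im_le_norm _).trans key
  rwa [Complex.sub_im, h3, sub_zero] at h4

theorem NL'_sub_le (h0 : 0 < δ) (h01 : δ ≤ 4 * l) {y1 y2 c : ℝ} (h1 : |y1| ≤ 4 * l - δ)
    (h2 : |y2| ≤ 4 * l - δ) {ζ ζ1 ζ2 ζ3 : ℝ → ℝ} (hζ : ∀ t, |ζ t| ≤ δ / 2)
    (hζ2 : ∀ t, |ζ2 t| ≤ δ / 2) (hζ1 : ∀ t, |ζ1 t| ≤ 1) (hζ3 : ∀ t, |ζ3 t| ≤ 1) (t : ℝ) :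
    |NL' y1 c ζ ζ1 t - NL' y2 c ζ2 ζ3 t| ≤ 3 * KL δ * Real.exp (-2 * |t - c|) := by
  have key := LC'_le h0 h01 (dm_shift (c := c) h1 h2 hζ hζ2 t)
  rw [re_pt] at key
  obtain ⟨e1, e2⟩ := pw_shift y1 y2 c ζ ζ2 t
  unfold LC' at key
  rw [← e1, ← e2] at key
  have k1 := im_th h0 h01 (c := c) h1 hζ t
  have k2 := im_th h0 h01 (c := c) h2 hζ2 t
  have key := (Complex.abs_re_le_norm _).trans key
  rw [Complex.sub_re] at key
  unfold NL'
  obtain ⟨T1, hT1⟩ : ∃ T1, T1 = Complex.sinh (pw y1 c ζ t) / Complex.cosh (pw y1 c ζ t) := ⟨_, rfl⟩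
  obtain ⟨T2, hT2⟩ : ∃ T2, T2 = Complex.sinh (pw y2 c ζ2 t) / Complex.cosh (pw y2 c ζ2 t) := ⟨_, rfl⟩
  rw [← hT1] at k1 key ⊢
  rw [← hT2] at k2 key ⊢
  obtain ⟨E, hE⟩ : ∃ E, E = KL δ * Real.exp (-2 * |t - c|) := ⟨_, rfl⟩
  rw [← hE] at k1 k2 key
  have e3 : (T1 * (1 + (ζ1 t : ℂ) * I)).re - (T2 * (1 + (ζ3 t : ℂ) * I)).re =
      (T1.re - T2.re) + (-(ζ1 t * T1.im) + ζ3 t * T2.im) := by
    simp only [Complex.mul_re, Complex.add_re, Complex.one_re, Complex.ofReal_re, Complex.I_re,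
      Complex.add_im, Complex.one_im, Complex.mul_im, Complex.ofReal_im, Complex.I_im]
    ring
  rw [e3]
  have hE0 : 0 ≤ E := (abs_nonneg _).trans k1
  have m1 : |ζ1 t * T1.im| ≤ E := by
    rw [abs_mul]
    exact (mul_le_mul (hζ1 t) k1 (abs_nonneg _) zero_le_one).trans_eq (one_mul _)
  have m2 : |ζ3 t * T2.im| ≤ E := by
    rw [abs_mul]
    exact (mul_le_mul (hζ3 t) k2 (abs_nonneg _) zero_le_one).trans_eq (one_mul _)
  have m3 : 3 * KL δ * Real.exp (-2 * |t - c|) = 3 * E := by rw [hE]; ring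
  rw [m3]
  refine (abs_add_le _ _).trans ?_
  have m4 := abs_add_le (-(ζ1 t * T1.im)) (ζ3 t * T2.im)
  rw [abs_neg] at m4
  linarith

/-- the energy constant of one atom -/
def EL (δ : ℝ) : ℝ := 2 * ((3 * KL δ) ^ 2 * ∫ t : ℝ, Real.exp (-4 * |t|))

lemma EL_nonneg (δ : ℝ) : 0 ≤ EL δ := by
  unfold EL
  have : 0 ≤ ∫ t : ℝ, Real.exp (-4 * |t|) := integral_nonneg fun t => (Real.exp_pos _).le
  positivity

/-- **two lines, two curves, the same centre: bounded energy** -/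
theorem NL_dc (h0 : 0 < δ) (h01 : δ ≤ 4 * l) {y1 y2 : ℝ} (c : ℝ) (h1 : |y1| ≤ 4 * l - δ)
    (h2 : |y2| ≤ 4 * l - δ) {ζ ζ1 ζ2 ζ3 : ℝ → ℝ} (hζ : Sm (δ / 4) ζ ζ1) (hζ2 : Sm (δ / 4) ζ2 ζ3) :
    Dc (3 * KL δ) (EL δ) (fun t => NL y1 c ζ t - NL y2 c ζ2 t)
      (fun t => NL' y1 c ζ ζ1 t - NL' y2 c ζ2 ζ3 t) := by
  have hK := KL_pos h0 h01
  have a1 : ∀ t, |ζ t| ≤ δ / 2 := fun t => (hζ.le t).trans (by linarith)
  have a2 : ∀ t, |ζ2 t| ≤ δ / 2 := fun t => (hζ2.le t).trans (by linarith)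
  have c1 : Continuous ζ := continuous_iff_continuousAt.2 fun t => (hζ.d t).continuousAt
  have c2 : Continuous ζ2 := continuous_iff_continuousAt.2 fun t => (hζ2.d t).continuousAt
  refine Dc.of_exp (c := c) (by positivity) (fun t => (NL_deriv h0 h1 a1 hζ.d t).sub
    (NL_deriv h0 h2 a2 hζ2.d t)) ((NL'_cont h0 h1 a1 c1 hζ.c).sub (NL'_cont h0 h2 a2 c2 hζ2.c))
    (fun t => ?_) (NL'_sub_le h0 h01 h1 h2 a1 a2 hζ.le1 hζ2.le1)
  refine (NL_sub_le h0 h01 h1 h2 a1 a2 t).trans ?_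
  refine mul_le_mul_of_nonneg_right ?_ (Real.exp_pos _).le
  linarith

lemma norm_cosh_le (w : ℂ) : ‖Complex.cosh w‖ ≤ Real.cosh w.re := by
  refine (sq_le_sq₀ (norm_nonneg _) (Real.cosh_pos _).le).1 ?_
  rw [norm_sq_eq, Real.cosh_sq]
  have := Real.cos_sq_le_one w.im
  linarith

lemma cosh_sub_le (x c : ℝ) : Real.cosh (x - c) ≤ Real.exp |c| * Real.cosh x := by
  rw [Real.cosh_eq, Real.cosh_eq]
  have h1 : Real.exp (x - c) ≤ Real.exp |c| * Real.exp x := by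
    rw [← Real.exp_add]
    refine Real.exp_le_exp.2 ?_
    have := neg_abs_le c
    linarith
  have h2 : Real.exp (-(x - c)) ≤ Real.exp |c| * Real.exp (-x) := by
    rw [← Real.exp_add]
    refine Real.exp_le_exp.2 ?_
    have := le_abs_self c
    linarith
  linarith

/-- **the step is in the extension class** -/
theorem ST_ext {δ : ℝ} (h0 : 0 < δ) (h01 : δ ≤ 1) (c1 : ℝ) : ∃ C : ℝ, 1 ≤ C ∧
    ∀ (y c b : ℝ) (ζ : ℝ → ℝ), |y| ≤ 4 * l - δ → |c| ≤ c1 → NUOC.O 4 1 ζ → (∀ x, |ζ x| ≤ δ / 4) →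
    NUR2.Ext 4 b C (fun t => NL y c ζ t - NL 0 0 ζ t) := by
  obtain ⟨C, hC, H⟩ := NUR2.ext_anal 4 (κ := δ / 2) (by positivity) (by linarith)
  have hpi := Real.pi_gt_three
  have h8 := l8
  have h04 : δ ≤ 4 * l := by linarith
  have hc := c0_pos h0 h04
  obtain ⟨M, hM⟩ : ∃ M : ℝ, M = |c1| + |Real.log (c0 δ)| + 2 * Real.pi := ⟨_, rfl⟩
  have hM0 : 0 ≤ M := by
    rw [hM]
    positivity
  refine ⟨C * M + 1, by nlinarith, fun y c b ζ hy hc1 hζ hζ2 => ?_⟩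
  have hy0 : ∀ z : ℂ, |z.im| < δ / 2 → |(z - c + y * I : ℂ).im| ≤ 4 * l - δ / 2 := by
    intro z hz
    have e : (z - c + y * I : ℂ).im = z.im + y := by simp
    rw [e]
    exact (abs_add_le _ _).trans (by linarith)
  have hz0 : ∀ z : ℂ, |z.im| < δ / 2 → |z.im| ≤ 4 * l - δ / 2 := by
    intro z hz
    linarith [(abs_nonneg _).trans hy]
  have hre : ∀ z : ℂ, (z - c + y * I : ℂ).re = z.re - c := by
    intro z
    simp
  have key := H (b := b) (A := M)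
    (F := fun z => Complex.log (Complex.cosh (z - c + y * I)) - Complex.log (Complex.cosh z))
    (η := ζ) hM0 ?_ ?_ hζ (fun x => by linarith [hζ2 x])
  · refine (key.mono (by linarith)).congr fun x _ => ?_
    rw [Complex.sub_re, Complex.log_re, Complex.log_re]
    unfold NL pw
    congr 4
    · push_cast
      ring
    · push_cast
      ring
  · intro z hz
    have s1 : Complex.cosh (z - c + y * I) ∈ slitPlane := by
      refine slit1 h0 (z := z - c) (y := y) ?_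
      have := hy0 z hz.2
      have e : (z - c + y * I : ℂ).im = (z - c : ℂ).im + y := by simp
      rwa [e] at this
    have s2 : Complex.cosh z ∈ slitPlane := by
      have := slit1 h0 (z := z) (y := 0) (by rw [add_zero]; exact hz0 z hz.2)
      rwa [Complex.ofReal_zero, zero_mul, add_zero] at this
    have d1 : DifferentiableAt ℂ (fun z : ℂ => Complex.cosh (z - c + y * I)) z := by fun_prop
    have d2 : DifferentiableAt ℂ (fun z : ℂ => Complex.cosh z) z := by fun_prop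
    exact ((d1.clog s1).sub (d2.clog s2)).differentiableWithinAt
  · intro z _ hz
    have n1 := norm_ge h0 h04 (hy0 z hz)
    have n2 := norm_ge h0 h04 (hz0 z hz)
    have m1 := norm_cosh_le (z - c + y * I)
    have m2 := norm_cosh_le z
    rw [hre] at n1 m1
    have p1 : 0 < ‖Complex.cosh (z - c + y * I)‖ := lt_of_lt_of_le (mul_pos hc (Real.cosh_pos _)) n1
    have p2 : 0 < ‖Complex.cosh z‖ := lt_of_lt_of_le (mul_pos hc (Real.cosh_pos _)) n2
    have q1 := Real.log_le_log p1 m1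
    have q2 := Real.log_le_log p2 m2
    have q3 := Real.log_le_log (mul_pos hc (Real.cosh_pos _)) n1
    have q4 := Real.log_le_log (mul_pos hc (Real.cosh_pos _)) n2
    rw [Real.log_mul hc.ne' (Real.cosh_pos _).ne'] at q3 q4
    have r1 := Real.log_le_log (Real.cosh_pos _) (cosh_sub_le z.re c)
    rw [Real.log_mul (Real.exp_pos _).ne' (Real.cosh_pos _).ne', Real.log_exp] at r1
    have r2 := Real.log_le_log (Real.cosh_pos _) (cosh_sub_le (z.re - c) (-c))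
    rw [Real.log_mul (Real.exp_pos _).ne' (Real.cosh_pos _).ne', Real.log_exp, sub_neg_eq_add,
      sub_add_cancel, abs_neg] at r2
    have hcc : |c| ≤ |c1| := hc1.trans (le_abs_self _)
    have hl1 := neg_abs_le (Real.log (c0 δ))
    have a3 : |(Complex.log (Complex.cosh (z - c + y * I)) - Complex.log (Complex.cosh z)).re| ≤
        |c1| + |Real.log (c0 δ)| := by
      rw [Complex.sub_re, Complex.log_re, Complex.log_re, abs_le]
      constructor <;> linarith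
    have a4 : |(Complex.log (Complex.cosh (z - c + y * I)) - Complex.log (Complex.cosh z)).im| ≤
        2 * Real.pi := by
      rw [Complex.sub_im, Complex.log_im, Complex.log_im]
      refine (abs_sub _ _).trans ?_
      have := Complex.abs_arg_le_pi (Complex.cosh (z - c + y * I))
      have := Complex.abs_arg_le_pi (Complex.cosh z)
      linarith
    refine (Complex.norm_le_abs_re_add_abs_im _).trans ?_
    rw [hM]
    linarith

/-! ### moved rows -/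

/-- a row moved from `0` to `w`: logarithm of the factor of a quantum of the same species -/
def RO (w : ℂ) (ζ : ℝ → ℝ) (t : ℝ) : ℝ :=
  NL (3 * l) 0 ζ t + NL (-(3 * l)) 0 ζ t - (NL (w.re + 3 * l) w.im ζ t + NL (w.re - 3 * l) w.im ζ t)

/-- a row moved from `0` to `w`: logarithm of the factor of a quantum of the other species -/
def RX (w : ℂ) (ζ : ℝ → ℝ) (t : ℝ) : ℝ := 2 * (NL w.re w.im ζ t - NL 0 0 ζ t)

/-- derivative of `RO` -/
def RO' (w : ℂ) (ζ ζ1 : ℝ → ℝ) (t : ℝ) : ℝ :=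
  NL' (3 * l) 0 ζ ζ1 t + NL' (-(3 * l)) 0 ζ ζ1 t -
    (NL' (w.re + 3 * l) w.im ζ ζ1 t + NL' (w.re - 3 * l) w.im ζ ζ1 t)

/-- derivative of `RX` -/
def RX' (w : ℂ) (ζ ζ1 : ℝ → ℝ) (t : ℝ) : ℝ := 2 * (NL' w.re w.im ζ ζ1 t - NL' 0 0 ζ ζ1 t)

/-- **`k a` rows of the species `a` moved from `0` to `w`** -/
def RW (k : Bool → ℝ) (w : ℂ) (ζ : Bool → ℝ → ℝ) (a : Bool) (t : ℝ) : ℝ :=
  k a * RO w (ζ a) t + k (!a) * RX w (ζ a) t

/-- its derivative -/
def RW' (k : Bool → ℝ) (w : ℂ) (ζ ζ1 : Bool → ℝ → ℝ) (a : Bool) (t : ℝ) : ℝ :=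
  k a * RO' w (ζ a) (ζ1 a) t + k (!a) * RX' w (ζ a) (ζ1 a) t

/-- **on the line: the potential of the source** -/
theorem RW_line (c : ℝ) (k : Bool → ℝ) (a : Bool) (t : ℝ) :
    RW k ((c : ℂ) * I) (fun _ _ => 0) a t = srcP (@rowν seaP c k) (@rowτ seaP c k) a t := by
  rw [srcP_rowP]
  have e1 : ((c : ℂ) * I).re = 0 := by simp
  have e2 : ((c : ℂ) * I).im = c := by simp
  have e3 := NL_line c t
  have e4 := NL_line 0 t
  rw [sub_zero] at e4
  simp only [AT_NL]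
  unfold RW RO RX
  rw [e1, e2, zero_add, zero_sub, ← e3, ← e4]
  ring

section rows

variable {c1 : ℝ} {w : ℂ} {ζ ζ1 : ℝ → ℝ}

lemma row_lines (_hδ : 0 < δ) (hw : |w.re| ≤ l - δ) : |(3 : ℝ) * l| ≤ 4 * l - δ ∧
    |-(3 * l)| ≤ 4 * l - δ ∧ |w.re + 3 * l| ≤ 4 * l - δ ∧ |w.re - 3 * l| ≤ 4 * l - δ ∧
    |w.re| ≤ 4 * l - δ ∧ |(0 : ℝ)| ≤ 4 * l - δ := by
  have hl := l_pos
  obtain ⟨x1, x2⟩ := abs_le.1 hw
  refine ⟨?_, ?_, ?_, ?_, ?_, ?_⟩ <;> rw [abs_le] <;> constructor <;> linarith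

lemma RO_deriv (hδ : 0 < δ) (hw : |w.re| ≤ l - δ) (hζ : Sm (δ / 4) ζ ζ1) (t : ℝ) :
    HasDerivAt (RO w ζ) (RO' w ζ ζ1 t) t := by
  obtain ⟨y1, y2, y3, y4, y5, y6⟩ := row_lines hδ hw
  have a1 : ∀ t, |ζ t| ≤ δ / 2 := fun t => (hζ.le t).trans (by linarith)
  exact ((NL_deriv hδ y1 a1 hζ.d t).add (NL_deriv hδ y2 a1 hζ.d t)).sub
    ((NL_deriv hδ y3 a1 hζ.d t).add (NL_deriv hδ y4 a1 hζ.d t))

lemma RX_deriv (hδ : 0 < δ) (hw : |w.re| ≤ l - δ) (hζ : Sm (δ / 4) ζ ζ1) (t : ℝ) :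
    HasDerivAt (RX w ζ) (RX' w ζ ζ1 t) t := by
  obtain ⟨y1, y2, y3, y4, y5, y6⟩ := row_lines hδ hw
  have a1 : ∀ t, |ζ t| ≤ δ / 2 := fun t => (hζ.le t).trans (by linarith)
  exact ((NL_deriv hδ y5 a1 hζ.d t).sub (NL_deriv hδ y6 a1 hζ.d t)).const_mul 2

lemma RO'_cont (hδ : 0 < δ) (hw : |w.re| ≤ l - δ) (hζ : Sm (δ / 4) ζ ζ1) :
    Continuous (RO' w ζ ζ1) := by
  obtain ⟨y1, y2, y3, y4, y5, y6⟩ := row_lines hδ hw
  have a1 : ∀ t, |ζ t| ≤ δ / 2 := fun t => (hζ.le t).trans (by linarith)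
  have c1 : Continuous ζ := continuous_iff_continuousAt.2 fun t => (hζ.d t).continuousAt
  exact ((NL'_cont hδ y1 a1 c1 hζ.c).add (NL'_cont hδ y2 a1 c1 hζ.c)).sub
    ((NL'_cont hδ y3 a1 c1 hζ.c).add (NL'_cont hδ y4 a1 c1 hζ.c))

lemma RX'_cont (hδ : 0 < δ) (hw : |w.re| ≤ l - δ) (hζ : Sm (δ / 4) ζ ζ1) :
    Continuous (RX' w ζ ζ1) := by
  obtain ⟨y1, y2, y3, y4, y5, y6⟩ := row_lines hδ hw
  have a1 : ∀ t, |ζ t| ≤ δ / 2 := fun t => (hζ.le t).trans (by linarith)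
  have c1 : Continuous ζ := continuous_iff_continuousAt.2 fun t => (hζ.d t).continuousAt
  exact continuous_const.mul ((NL'_cont hδ y5 a1 c1 hζ.c).sub (NL'_cont hδ y6 a1 c1 hζ.c))

/-- the real line part of the derivative -/
lemma sm0 (hδ : 0 < δ) : Sm (δ / 4) (fun _ => 0) fun _ => 0 := sm_zero (by linarith)

/-- **own quanta: curve minus line** -/
theorem RO_dc (hδ : 0 < δ) (hw : |w.re| ≤ l - δ) (hζ : Sm (δ / 4) ζ ζ1) :
    Dc (12 * KL δ) (16 * EL δ) (fun t => RO w ζ t - RO ((w.im : ℂ) * I) (fun _ => 0) t)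
      (fun t => RO' w ζ ζ1 t - RO' ((w.im : ℂ) * I) (fun _ => 0) (fun _ => 0) t) := by
  obtain ⟨y1, y2, y3, y4, y5, y6⟩ := row_lines hδ hw
  have hl := l_pos
  have h04 : δ ≤ 4 * l := by linarith [(abs_nonneg _).trans hw]
  have d1 := NL_dc hδ h04 0 y1 y1 hζ (sm0 hδ)
  have d2 := NL_dc hδ h04 0 y2 y2 hζ (sm0 hδ)
  have d3 := NL_dc hδ h04 w.im y1 y3 (sm0 hδ) hζ
  have d4 := NL_dc hδ h04 w.im y2 y4 (sm0 hδ) hζ
  have d := (d1.add d2).add (d3.add d4)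
  have e1 : ((w.im : ℂ) * I).re = 0 := by simp
  have e2 : ((w.im : ℂ) * I).im = w.im := by simp
  have E := EL_nonneg δ
  have hK := KL_pos hδ h04
  refine Eq.mp ?_ (d.mono (B' := 12 * KL δ) (N' := 16 * EL δ) (by linarith) (by linarith))
  congr 1
  · funext t
    unfold RO
    rw [e1, e2, zero_add, zero_sub]
    ring
  · funext t
    unfold RO'
    rw [e1, e2, zero_add, zero_sub]
    ring

/-- **quanta of the other species: curve minus line** -/
theorem RX_dc (hδ : 0 < δ) (hw : |w.re| ≤ l - δ) (hζ : Sm (δ / 4) ζ ζ1) :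
    Dc (12 * KL δ) (16 * EL δ) (fun t => RX w ζ t - RX ((w.im : ℂ) * I) (fun _ => 0) t)
      (fun t => RX' w ζ ζ1 t - RX' ((w.im : ℂ) * I) (fun _ => 0) (fun _ => 0) t) := by
  obtain ⟨y1, y2, y3, y4, y5, y6⟩ := row_lines hδ hw
  have hl := l_pos
  have h04 : δ ≤ 4 * l := by linarith [(abs_nonneg _).trans hw]
  have d1 := NL_dc hδ h04 w.im y5 y6 hζ (sm0 hδ)
  have d2 := NL_dc hδ h04 0 y6 y6 (sm0 hδ) hζ
  have d := (d1.add d2).smul (K := 2) (x := 2) (by rw [abs_of_pos (by norm_num)])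
  have e1 : ((w.im : ℂ) * I).re = 0 := by simp
  have e2 : ((w.im : ℂ) * I).im = w.im := by simp
  have E := EL_nonneg δ
  have hK := KL_pos hδ h04
  refine Eq.mp ?_ (d.mono (B' := 12 * KL δ) (N' := 16 * EL δ) (by linarith) (by linarith))
  congr 1
  · funext t
    unfold RX
    rw [e1, e2]
    ring
  · funext t
    unfold RX'
    rw [e1, e2]
    ring

end rows

/-! ### the class -/

/-- atoms on a curve: bounded energy -/
theorem AT_dc (h0 : 0 < δ) (h01 : δ ≤ 4 * l) {y1 y2 : ℝ} (c : ℝ) (h1 : |y1| ≤ 4 * l - δ)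
    (h2 : |y2| ≤ 4 * l - δ) {ζ ζ1 : ℝ → ℝ} (hζ : Sm (δ / 4) ζ ζ1) :
    Dc (3 * KL δ) (EL δ) (AT y1 y2 c ζ) (AT' y1 y2 c ζ ζ1) := by
  have h := NL_dc h0 h01 c h1 h2 hζ hζ
  refine Eq.mp ?_ h
  congr 1
  · funext t
    exact (AT_NL y1 y2 c ζ t).symm
  · funext t
    exact (AT'_NL y1 y2 c ζ ζ1 t).symm

/-- sums of atoms: bounded energy -/
theorem HS_dc {n : ℕ} {K : ℝ} (hK : 0 ≤ K) (h0 : 0 < δ) (h01 : δ ≤ 4 * l) {ζ ζ1 : Bool → ℝ → ℝ}
    (hζ : ∀ a, Sm (δ / 4) (ζ a) (ζ1 a)) {x : Bool → Fin n → Atm} (hx : AtOk K δ x) (a : Bool) :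
    Dc (n * (K * (3 * KL δ))) (n ^ 2 * (K ^ 2 * EL δ)) (HS x ζ a) (HS' x ζ ζ1 a) := by
  have hKL := KL_pos h0 h01
  have hE := EL_nonneg δ
  exact Dc.sum fun i =>
    (AT_dc h0 h01 _ (hx a i).2.1 (hx a i).2.2 (hζ a)).smul (hx a i).1

/-- **admissible potentials**, curve form -/
theorem hok_sm (n : ℕ) {K δ : ℝ} (hK : 0 ≤ K) (hδ : 0 < δ) (hδ1 : δ ≤ 1) :
    ∃ B0 N0 : ℝ, 0 ≤ B0 ∧ 0 ≤ N0 ∧ ∃ A0 : ℝ, 0 ≤ A0 ∧
      ∀ (ζ ζ1 : Bool → ℝ → ℝ), (∀ a, Sm (δ / 4) (ζ a) (ζ1 a)) →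
      ∀ x : Bool → Fin n → Atm, AtOk K δ x →
      ∀ th b A : ℝ, 0 ≤ th → A0 ≤ A → HOk B0 N0 th b A (HS x ζ) (HS' x ζ ζ1) := by
  have hpi := Real.pi_gt_three
  have h8 := l8
  have h01 : δ ≤ 4 * l := by linarith
  obtain ⟨C, hC, HC⟩ := AT_ext hδ hδ1
  have hKL := KL_pos hδ h01
  have hE := EL_nonneg δ
  refine ⟨n * (K * (3 * KL δ)), n ^ 2 * (K ^ 2 * EL δ), by positivity, by positivity, n * (K * C),
    by positivity, ?_⟩
  intro ζ ζ1 hζ x hx th b A hth hA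
  have h1 := fun a => HS_dc hK hδ h01 hζ hx a
  refine ⟨fun a => (h1 a).d, fun a => (h1 a).c, fun a => (h1 a).le, fun a T hT =>
    ((h1 a).en T hT).trans (by nlinarith [mul_nonneg hth hT]), fun a => ?_⟩
  have h2 := NUR2.Ext.sum (b := b) (j := 4) (Finset.univ : Finset (Fin n))
    (M := fun i => |(x a i).k| * C)
    (f := fun i t => (x a i).k * AT (x a i).y1 (x a i).y2 (x a i).c (ζ a) t)
    (fun i _ => (HC _ _ _ b (ζ a) (hx a i).2.1 (hx a i).2.2 (hζ a).o (hζ a).le).smul _)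
  refine NUR2.Ext.mono h2 (le_trans ?_ hA)
  calc ∑ i, |(x a i).k| * C ≤ ∑ _i : Fin n, K * C :=
        Finset.sum_le_sum fun i _ => mul_le_mul_of_nonneg_right (hx a i).1 (by linarith)
    _ = _ := by simp

/-- the extension class of the moved rows -/
theorem RW_ext {δ : ℝ} (hδ : 0 < δ) (hδ1 : δ ≤ 1) (c1 K : ℝ) (hK : 0 ≤ K) : ∃ C : ℝ, 0 ≤ C ∧
    ∀ (ζ : Bool → ℝ → ℝ), (∀ a, NUOC.O 4 1 (ζ a)) → (∀ a x, |ζ a x| ≤ δ / 4) →
    ∀ (k : Bool → ℝ) (w : ℂ), (∀ a, |k a| ≤ K) → |w.re| ≤ l - δ → |w.im| ≤ c1 → ∀ (b : ℝ) (a : Bool),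
    NUR2.Ext 4 b C (RW k w ζ a) := by
  obtain ⟨C, hC, H⟩ := ST_ext hδ hδ1 (|c1|)
  refine ⟨K * (4 * C) + K * (2 * C), by positivity, fun ζ ho hl k w hk hw hc b a => ?_⟩
  obtain ⟨y1, y2, y3, y4, y5, y6⟩ := row_lines hδ hw
  have h0 : |(0 : ℝ)| ≤ |c1| := by rw [abs_zero]; exact abs_nonneg _
  have hc' : |w.im| ≤ |c1| := hc.trans (le_abs_self _)
  have e1 := H (3 * l) 0 b (ζ a) y1 h0 (ho a) (hl a)
  have e2 := H (-(3 * l)) 0 b (ζ a) y2 h0 (ho a) (hl a)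
  have e3 := H (w.re + 3 * l) w.im b (ζ a) y3 hc' (ho a) (hl a)
  have e4 := H (w.re - 3 * l) w.im b (ζ a) y4 hc' (ho a) (hl a)
  have e5 := H w.re w.im b (ζ a) y5 hc' (ho a) (hl a)
  have f1 := ((e1.add e2).sub (e3.add e4)).smul (k a)
  have f2 := (e5.smul 2).smul (k (!a))
  have f3 := f1.add f2
  refine (f3.mono ?_).congr fun t _ => ?_
  · rw [abs_of_pos (by norm_num : (0 : ℝ) < 2)]
    have g1 := mul_le_mul_of_nonneg_right (hk a) (by linarith : 0 ≤ C + C + (C + C))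
    have g2 := mul_le_mul_of_nonneg_right (hk !a) (by linarith : 0 ≤ 2 * C)
    linarith
  · unfold RW RO RX
    ring

/-- **sums of atoms and moved rows are admissible up to a source** -/
theorem hsk_sm (n : ℕ) {K δ : ℝ} (hK : 0 ≤ K) (hδ : 0 < δ) (hδ1 : δ ≤ 1) (c1 : ℝ) :
    ∃ B0 N0 : ℝ, 0 ≤ B0 ∧ 0 ≤ N0 ∧ ∃ A0 : ℝ, 0 ≤ A0 ∧
      ∀ (ζ ζ1 : Bool → ℝ → ℝ), (∀ a, Sm (δ / 4) (ζ a) (ζ1 a)) →
      ∀ x : Bool → Fin n → Atm, AtOk K δ x →
      ∀ (k : Bool → ℝ) (w : ℂ), (∀ a, |k a| ≤ K) → |w.re| ≤ l - δ → |w.im| ≤ c1 →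
      ∀ th b A : ℝ, 0 ≤ th → A0 ≤ A →
      HSk B0 N0 th b A (fun a t => HS x ζ a t + RW k w ζ a t)
        (fun a t => HS' x ζ ζ1 a t + RW' k w ζ ζ1 a t) := by
  have hpi := Real.pi_gt_three
  have h8 := l8
  have h01 : δ ≤ 4 * l := by linarith
  obtain ⟨B1, N1, hB1, hN1, A1, hA1, H1⟩ := hok_sm n hK hδ hδ1
  obtain ⟨C2, hC2, H2⟩ := RW_ext hδ hδ1 c1 K hK
  obtain ⟨C3, hC3, H3⟩ := @srcOk_row seaP c1
  have hKL := KL_pos hδ h01
  have hE := EL_nonneg δ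
  obtain ⟨BR, hBR⟩ : ∃ BR : ℝ, BR = 2 * (K * (12 * KL δ)) := ⟨_, rfl⟩
  obtain ⟨NR, hNR⟩ : ∃ NR : ℝ, NR = 4 * (K ^ 2 * (16 * EL δ)) := ⟨_, rfl⟩
  have hBR0 : 0 ≤ BR := by rw [hBR]; positivity
  have hNR0 : 0 ≤ NR := by rw [hNR]; positivity
  refine ⟨n * (K * (3 * KL δ)) + BR + C3 * (2 * K), 2 * (n ^ 2 * (K ^ 2 * EL δ)) + 2 * NR,
    by positivity, by positivity, A1 + (C2 + C2), by positivity, ?_⟩
  intro ζ ζ1 hζ x hx k w hk hw hc th b A hth hA
  have hdc := fun a => HS_dc hK hδ h01 hζ hx a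
  have hd : ∀ a t, HasDerivAt (RW k w ζ a) (RW' k w ζ ζ1 a t) t := fun a t =>
    ((RO_deriv hδ hw (hζ a) t).const_mul (k a)).add ((RX_deriv hδ hw (hζ a) t).const_mul (k !a))
  have hcc : ∀ a, Continuous (RW' k w ζ ζ1 a) := fun a =>
    (continuous_const.mul (RO'_cont hδ hw (hζ a))).add (continuous_const.mul (RX'_cont hδ hw (hζ a)))
  have hE1 : ∀ a, NUR2.Ext 4 b A1 (HS x ζ a) := fun a =>
    (H1 ζ ζ1 hζ x hx 0 b A1 le_rfl le_rfl).ext a
  have hE2 : ∀ a, NUR2.Ext 4 b C2 (RW k w ζ a) := fun a =>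
    H2 ζ (fun a => (hζ a).o) (fun a => (hζ a).le) k w hk hw hc b a
  have hl := l_pos
  have hw0 : |((w.im : ℂ) * I).re| ≤ l - δ := by
    have : ((w.im : ℂ) * I).re = 0 := by simp
    rw [this, abs_zero]
    exact (abs_nonneg _).trans hw
  have hw1 : |((w.im : ℂ) * I).im| ≤ c1 := by
    have : ((w.im : ℂ) * I).im = w.im := by simp
    rw [this]
    exact hc
  have hE3 : ∀ a, NUR2.Ext 4 b C2 (RW k ((w.im : ℂ) * I) (fun _ _ => 0) a) := fun a =>
    H2 (fun _ _ => 0) (fun a => (sm0 hδ).o) (fun a => (sm0 hδ).le) k _ hk hw0 hw1 b a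
  have hRd : ∀ a, Dc BR NR (fun t => RW k w ζ a t - RW k ((w.im : ℂ) * I) (fun _ _ => 0) a t)
      (fun t => RW' k w ζ ζ1 a t - RW' k ((w.im : ℂ) * I) (fun _ _ => 0) (fun _ _ => 0) a t) := by
    intro a
    have d := ((RO_dc hδ hw (hζ a)).smul (hk a)).add ((RX_dc hδ hw (hζ a)).smul (hk !a))
    refine Eq.mp ?_ (d.mono (B' := BR) (N' := NR) (by rw [hBR]; linarith) (by rw [hNR]; linarith))
    congr 1
    · funext t
      unfold RW
      ring
    · funext t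
      unfold RW'
      ring
  refine ⟨fun a t => ((hdc a).d t).add (hd a t), fun a => (hdc a).c.add (hcc a),
    fun a => ((hE1 a).add (hE2 a)).mono (by linarith), @rowν seaP w.im k, @rowτ seaP w.im k,
    fun a t => HS' x ζ ζ1 a t +
      (RW' k w ζ ζ1 a t - RW' k ((w.im : ℂ) * I) (fun _ _ => 0) (fun _ _ => 0) a t), ?_, ?_⟩
  · refine (H3 w.im hc k).mono ?_
    have h1 : |k true| + |k false| ≤ 2 * K := by
      have := hk true
      have := hk false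
      linarith
    have h2 := mul_le_mul_of_nonneg_left h1 hC3
    have h3 : 0 ≤ n * (K * (3 * KL δ)) := by positivity
    linarith
  · have e : (fun a t => HS x ζ a t + RW k w ζ a t -
        srcP (@rowν seaP w.im k) (@rowτ seaP w.im k) a t) = fun a t => HS x ζ a t +
        (RW k w ζ a t - RW k ((w.im : ℂ) * I) (fun _ _ => 0) a t) := by
      funext a t
      rw [RW_line]
      ring
    rw [e]
    have hD := fun a => (hdc a).add (hRd a)
    have h3 : 0 ≤ C3 * (2 * K) := by positivity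
    exact ⟨fun a => (hD a).d, fun a => (hD a).c, fun a t => ((hD a).le t).trans (by linarith),
      fun a T hT => ((hD a).en T hT).trans (by nlinarith [mul_nonneg hth hT]),
      fun a => ((hE1 a).add ((hE2 a).sub (hE3 a))).mono (by linarith)⟩

end

end PBH.PLX
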