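import Pool.Agent.PLX.Ns
import Pool.Agent.PLX.PB.WardFF
import Pool.Agent.PB.ForceK
import Pool.Agent.PLX.NUGC.OneXH
import Pool.Agent.PLX.PB.ClsBd

/-!
# Plan B: log derivatives of the factor of the objects on a quantum, in closed form

* `lpp s b z`: log derivative in `z` of the pair factor of a quantum of species `s` at `z` with the
  constituent `b`, in 48's kernels: `i kO keX / keY kind (w - z)`;
* `LPo P r O s z = ∑ i, ∑ b ∈ cons P O i, lpp s b z`: `hasDerivAt_potC`, `LPo_le`, `measurable_LPo`;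
* `logD_of`: the structure `LogD` of 13's second Ward identity from the one body functions of the quanta.
-/

set_option autoImplicit false
set_option linter.unusedSectionVars false

noncomputable section

open Complex MeasureTheory Finset

namespace PBF.PLX

open NUO NUP1 NUCR NUP1S NUP1S.Ab NUP1S.AbC NUGC NUGC.PLX
open PBForce (keX keY kO Gen)
open NUP1.Bd (Ob qg)

/-! ### generic points -/

/-- sines at distance `c` from the zeros -/
theorem sin_re_ge {x c : ℝ} {n : ℤ} (hc : 0 ≤ c) (h1 : n * NUP1.l + c ≤ x)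
    (h2 : x ≤ (n + 1) * NUP1.l - c) (j : ℤ) : Real.sin c ≤ |Real.sin (x + j * NUP1.l)| := by
  have hl := Bd.l_pos
  have hpi : Real.pi = 8 * NUP1.l := by
    have := Bd.pi_eq
    linarith
  -- `x + j l = k π + y`, `c ≤ y ≤ π - c`
  set m : ℤ := n + j with hm
  set k : ℤ := m / 8 with hk
  set q : ℤ := m % 8 with hq
  have hmk : m = 8 * k + q := by omega
  have hq0 : 0 ≤ q := by omega
  have hq8 : q ≤ 7 := by omega
  have hmR : (m : ℝ) = 8 * k + q := by exact_mod_cast hmk
  have hmn : (m : ℝ) = n + j := by exact_mod_cast hm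
  set y : ℝ := x + j * NUP1.l - k * Real.pi with hy
  have e : x + j * NUP1.l = y + k * Real.pi := by rw [hy]; ring
  have y1 : q * NUP1.l + c ≤ y := by
    rw [hy, hpi]
    clear * - q k m h1 hc hmR hmn h2
    nlinarith
  have y2 : y ≤ (q + 1) * NUP1.l - c := by
    rw [hy, hpi]
    clear * - k q m h2 hc hmR hmn h1
    nlinarith
  have q0 : (0 : ℝ) ≤ q := by exact_mod_cast hq0
  have q7 : (q : ℝ) ≤ 7 := by exact_mod_cast hq8
  have y3 : c ≤ y := by (clear * - y q k y1 hc q0 h1 h2; nlinarith)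
  have y4 : y ≤ Real.pi - c := by
    rw [hpi]
    clear * - y q k y2 hc q7 h1 h2
    nlinarith
  have hcl : c ≤ Real.pi / 2 := by linarith
  rw [e, Real.sin_add_int_mul_pi, abs_mul]
  have hs : |((-1 : ℝ)) ^ k| = 1 := by
    rw [abs_zpow, abs_neg, abs_one, one_zpow]
  rw [hs, one_mul, abs_of_nonneg (Real.sin_nonneg_of_nonneg_of_le_pi (hc.trans y3)
    (by linarith))]
  rcases le_total y (Real.pi / 2) with h | h
  · exact Real.sin_le_sin_of_le_of_le_pi_div_two (by (clear * - hc hl hpi; linarith)) h y3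
  · rw [← Real.sin_pi_sub y]
    exact Real.sin_le_sin_of_le_of_le_pi_div_two (by linarith) (by linarith) (by linarith)

/-- points at distance `≥ c` from the lines `j l` -/
def Dst (c : ℝ) (x : ℝ) : Prop := ∃ n : ℤ, n * NUP1.l + c ≤ x ∧ x ≤ (n + 1) * NUP1.l - c

theorem re_add_int (z : ℂ) (j : ℤ) : (z + j * (NUP1.l : ℂ)).re = z.re + j * NUP1.l := by
  rw [add_re, show ((j : ℂ) * (NUP1.l : ℂ)) = (((j : ℝ) * NUP1.l : ℝ) : ℂ) by push_cast; ring,
    ofReal_re]

theorem Dst.gen {c : ℝ} (hc : 0 < c) (hc' : c ≤ 1) {z : ℂ} (h : Dst c z.re) : Gen z := by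
  obtain ⟨n, h1, h2⟩ := h
  intro j
  refine Bd.sin_ne_zero_of_re ?_
  show Real.sin (z + j * (NUP1.l : ℂ)).re ≠ 0
  rw [re_add_int]
  have h3 := sin_re_ge hc.le h1 h2 j
  have h4 : 0 < Real.sin c := Real.sin_pos_of_pos_of_lt_pi hc (by
    have := Real.pi_gt_three
    linarith)
  intro h0
  rw [h0, abs_zero] at h3
  linarith

/-- `|cot z| ≤ 1 / |sin Re z|` -/
theorem cot_le {w : ℂ} {δ : ℝ} (hδ : 0 < δ) (h : δ ≤ |Real.sin w.re|) : ‖Complex.cot w‖ ≤ 1 / δ := by
  have h1 := Bd.norm_sin_sq w
  have h2 := Bd.norm_cos_sq w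
  have h3 : δ ^ 2 ≤ Real.sin w.re ^ 2 := by
    rw [← sq_abs (Real.sin w.re)]
    exact pow_le_pow_left₀ hδ.le h 2
  have h4 := Real.sin_sq_add_cos_sq w.re
  have h5 := sq_nonneg (Real.sinh w.im)
  have hδ1 : δ ^ 2 ≤ 1 := by (clear * - h3 h4; nlinarith [sq_nonneg (Real.cos w.re)])
  have hs : 0 < ‖sin w‖ ^ 2 := by rw [h1]; (clear * - h3 hδ; nlinarith [sq_nonneg δ, pow_pos hδ 2])
  have hs' : 0 < ‖sin w‖ := by
    rcases (norm_nonneg (sin w)).lt_or_eq with h | h
    · exact h
    · rw [← h] at hs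
      norm_num at hs
  have h6 : (δ * ‖cos w‖) ^ 2 ≤ ‖sin w‖ ^ 2 := by
    rw [mul_pow, h1, h2]
    have h7 : δ ^ 2 * Real.sinh w.im ^ 2 ≤ Real.sinh w.im ^ 2 := by (clear * - h3 h4; nlinarith)
    have h8 : δ ^ 2 * Real.cos w.re ^ 2 ≤ δ ^ 2 := by
      clear * - h4 hδ
      nlinarith [sq_nonneg (Real.sin w.re), pow_pos hδ 2]
    clear * - h3 h7 h8
    nlinarith
  have h7 : δ * ‖cos w‖ ≤ ‖sin w‖ := abs_le_of_sq_le_sq' h6 hs'.le |>.2
  rw [Complex.cot, norm_div, div_le_div_iff₀ hs' hδ, one_mul, mul_comm]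
  exact h7

theorem tan_eq_cot (z : ℂ) : Complex.tan z = -Complex.cot (z + (4 : ℤ) * (NUP1.l : ℂ)) := by
  have e : (((4 : ℤ) : ℂ) * (NUP1.l : ℂ)) = Real.pi / 2 := by
    push_cast
    exact PBForce.l4c
  rw [e]
  unfold Complex.cot Complex.tan
  rw [Complex.cos_add_pi_div_two, Complex.sin_add_pi_div_two, neg_div, neg_neg]

theorem Dst.cot {c : ℝ} (hc : 0 < c) (hc' : c ≤ 1) {z : ℂ} (h : Dst c z.re) (j : ℤ) :
    ‖Complex.cot (z + j * (NUP1.l : ℂ))‖ ≤ 1 / Real.sin c := by
  obtain ⟨n, h1, h2⟩ := h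
  refine cot_le (Real.sin_pos_of_pos_of_lt_pi hc (by
    have := Real.pi_gt_three
    linarith)) ?_
  rw [re_add_int]
  exact sin_re_ge hc.le h1 h2 j

theorem Dst.keX {c : ℝ} (hc : 0 < c) (hc' : c ≤ 1) {z : ℂ} (h : Dst c z.re) :
    ‖keX z‖ ≤ 6 / Real.sin c := by
  have h0 := h.cot hc hc' 0
  have h1 := h.cot hc hc' 1
  have h1' := h.cot hc hc' (-1)
  have h2 := h.cot hc hc' 2
  have h2' := h.cot hc hc' (-2)
  push_cast at h0 h1 h1' h2 h2'
  rw [zero_mul, add_zero] at h0
  rw [one_mul] at h1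
  rw [show z + -1 * (NUP1.l : ℂ) = z - NUP1.l by ring] at h1'
  rw [show z + -2 * (NUP1.l : ℂ) = z - 2 * NUP1.l by ring] at h2'
  unfold PBForce.keX
  rw [norm_mul, norm_I, one_mul]
  change ‖2 * Complex.cot z + Complex.cot (z + 2 * (NUP1.l : ℂ)) + Complex.cot (z - 2 * (NUP1.l : ℂ))
    - Complex.cot (z + (NUP1.l : ℂ)) - Complex.cot (z - (NUP1.l : ℂ))‖ ≤ _
  have h3 : ‖2 * Complex.cot z‖ ≤ 2 * (1 / Real.sin c) := by
    rw [norm_mul, Complex.norm_ofNat]
    exact mul_le_mul_of_nonneg_left h0 (by norm_num)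
  calc _ ≤ ‖2 * Complex.cot z‖ + ‖Complex.cot (z + 2 * (NUP1.l : ℂ))‖ +
        ‖Complex.cot (z - 2 * (NUP1.l : ℂ))‖ + ‖Complex.cot (z + (NUP1.l : ℂ))‖ +
        ‖Complex.cot (z - (NUP1.l : ℂ))‖ :=
        (norm_sub_le _ _).trans (add_le_add ((norm_sub_le _ _).trans (add_le_add
          ((norm_add_le _ _).trans (add_le_add (norm_add_le _ _) le_rfl)) le_rfl)) le_rfl)
    _ ≤ 2 * (1 / Real.sin c) + 1 / Real.sin c + 1 / Real.sin c + 1 / Real.sin c +
        1 / Real.sin c := by (clear * - h1 h1' h2 h2' h3; linarith)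
    _ = _ := by ring

theorem Dst.keY {c : ℝ} (hc : 0 < c) (hc' : c ≤ 1) {z : ℂ} (h : Dst c z.re) :
    ‖keY z‖ ≤ 6 / Real.sin c := by
  have h0 := h.cot hc hc' 4
  have h3 := h.cot hc hc' 3
  have h3' := h.cot hc hc' (-3)
  rw [← norm_neg, ← tan_eq_cot] at h0
  push_cast at h3 h3'
  rw [show z + -3 * (NUP1.l : ℂ) = z - 3 * NUP1.l by ring] at h3'
  unfold PBForce.keY
  rw [norm_mul, norm_I, one_mul]
  change ‖-2 * Complex.tan z - 2 * Complex.cot (z + 3 * (NUP1.l : ℂ)) -
    2 * Complex.cot (z - 3 * (NUP1.l : ℂ))‖ ≤ _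
  have e1 : ‖-2 * Complex.tan z‖ ≤ 2 * (1 / Real.sin c) := by
    rw [norm_mul, norm_neg, Complex.norm_ofNat]
    exact mul_le_mul_of_nonneg_left h0 (by norm_num)
  have e2 : ‖2 * Complex.cot (z + 3 * (NUP1.l : ℂ))‖ ≤ 2 * (1 / Real.sin c) := by
    rw [norm_mul, Complex.norm_ofNat]
    exact mul_le_mul_of_nonneg_left h3 (by norm_num)
  have e3 : ‖2 * Complex.cot (z - 3 * (NUP1.l : ℂ))‖ ≤ 2 * (1 / Real.sin c) := by
    rw [norm_mul, Complex.norm_ofNat]
    exact mul_le_mul_of_nonneg_left h3' (by norm_num)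
  calc _ ≤ ‖-2 * Complex.tan z‖ + ‖2 * Complex.cot (z + 3 * (NUP1.l : ℂ))‖ +
        ‖2 * Complex.cot (z - 3 * (NUP1.l : ℂ))‖ :=
        (norm_sub_le _ _).trans (add_le_add (norm_sub_le _ _) le_rfl)
    _ ≤ 2 * (1 / Real.sin c) + 2 * (1 / Real.sin c) + 2 * (1 / Real.sin c) := by (clear * - e1 e2 e3; linarith)
    _ = _ := by ring

theorem Dst.sub {c x : ℝ} (h : Dst c x) : Dst c (x - NUP1.l) := by
  obtain ⟨n, h1, h2⟩ := h
  refine ⟨n - 1, ?_, ?_⟩ <;> push_cast <;> linarith

/-! ### one constituent -/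

/-- kind of a constituent -/
def obP (b : Part) : Ob := if b.2.1 then .S else .A

/-- kernel by species -/
def kSp (s : Bool) (b : Part) : ℂ → ℂ := if b.1 = s then PBForce.keX else PBForce.keY

/-- log derivative of the pair factor of a quantum of species `s` at `z` with the constituent `b` -/
def lpp (s : Bool) (b : Part) (z : ℂ) : ℂ := I * kO (kSp s b) (obP b) (b.2.2 - z)

theorem hasDerivAt_pp (s : Bool) (b : Part) {z : ℂ} (h : Gen (b.2.2 - z)) :
    HasDerivAt (fun z => pp (s, false, z) b) (lpp s b z * pp (s, false, z) b) z := by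
  obtain ⟨s', k, w⟩ := b
  have hc : HasDerivAt (fun z : ℂ => w - z) (-1) z := by
    simpa using (hasDerivAt_id z).const_sub w
  have hg : Gen (w - z) := h
  unfold lpp kSp obP
  by_cases hs : s' = s
  · subst hs
    simp only [if_true]
    cases k
    · have e : (fun z : ℂ => pp (s', false, z) (s', false, w)) = fun z => q (w - z) := by
        funext z
        show (if s' = s' then Kn.pz false false (z - w) else _) = _
        rw [if_pos rfl]
        show q (z - w) = _
        rw [← q_neg]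
        congr 1
        ring
      have e' : pp (s', false, z) (s', false, w) = q (w - z) := congrFun e z
      rw [e, e']
      refine ((PBForce.hasDerivAt_q hg).comp z hc).congr_deriv ?_
      simp only [Bool.false_eq_true, if_false, kO]
      ring
    · have e : (fun z : ℂ => pp (s', false, z) (s', true, w)) = fun z => q1 (-(w - z)) := by
        funext z
        show (if s' = s' then Kn.pz false true (z - w) else _) = _
        rw [if_pos rfl]
        show q1 (z - w) = _
        congr 1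
        ring
      have e' : pp (s', false, z) (s', true, w) = q1 (-(w - z)) := congrFun e z
      rw [e, e']
      refine ((PBForce.hasDerivAt_q1 hg).comp z hc).congr_deriv ?_
      simp only [if_true, kO]
      ring
  · simp only [if_neg hs]
    have hs' : ¬ s = s' := fun h => hs h.symm
    cases k
    · have e : (fun z : ℂ => pp (s, false, z) (s', false, w)) = fun z => qg (w - z) := by
        funext z
        show (if s = s' then _ else Kn.cz false false (z - w)) = _
        rw [if_neg hs']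
        show qg (z - w) = _
        rw [← Bd.qg_neg]
        congr 1
        ring
      have e' : pp (s, false, z) (s', false, w) = qg (w - z) := congrFun e z
      rw [e, e']
      refine ((PBForce.hasDerivAt_qg hg).comp z hc).congr_deriv ?_
      simp only [Bool.false_eq_true, if_false, kO]
      ring
    · have e : (fun z : ℂ => pp (s, false, z) (s', true, w)) =
          fun z => qg (w - z) * qg (w - z - NUP1.l) := by
        funext z
        show (if s = s' then _ else Kn.cz false true (z - w)) = _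
        rw [if_neg hs']
        show qg (z - w) * qg (z - w + NUP1.l) = _
        rw [← Bd.qg_neg (z - w), ← Bd.qg_neg (z - w + NUP1.l)]
        congr 2 <;> ring
      have e' : pp (s, false, z) (s', true, w) = qg (w - z) * qg (w - z - NUP1.l) := congrFun e z
      rw [e, e']
      have d1 := (PBForce.hasDerivAt_qg hg).comp z hc
      have hg' : Gen (w - z - (NUP1.l : ℂ)) := hg.sub
      have d2 := (PBForce.hasDerivAt_qg hg').comp z (hc.sub_const (NUP1.l : ℂ))
      refine (d1.mul d2).congr_deriv ?_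
      simp only [if_true, kO, Function.comp]
      ring

/-- uniform bound of a log derivative -/
theorem lpp_le {c : ℝ} (hc : 0 < c) (hc' : c ≤ 1) (s : Bool) (b : Part) {z : ℂ}
    (h : Dst c (b.2.2 - z).re) : ‖lpp s b z‖ ≤ 12 / Real.sin c := by
  have hs : 0 < Real.sin c := Real.sin_pos_of_pos_of_lt_pi hc (by
    have := Real.pi_gt_three
    linarith)
  have hK : ∀ y : ℂ, Dst c y.re → ‖kSp s b y‖ ≤ 6 / Real.sin c := by
    intro y hy
    unfold kSp
    split_ifs
    · exact hy.keX hc hc'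
    · exact hy.keY hc hc'
  have h1 := hK _ h
  have h2 : ‖kSp s b (b.2.2 - z - (NUP1.l : ℂ))‖ ≤ 6 / Real.sin c := by
    refine hK _ ?_
    rw [sub_re, ofReal_re]
    exact h.sub
  unfold lpp obP
  rw [norm_mul, norm_I, one_mul]
  split_ifs
  · change ‖kSp s b (b.2.2 - z) + kSp s b (b.2.2 - z - (NUP1.l : ℂ))‖ ≤ _
    calc _ ≤ 6 / Real.sin c + 6 / Real.sin c := (norm_add_le _ _).trans (add_le_add h1 h2)
      _ = _ := by ring
  · change ‖kSp s b (b.2.2 - z)‖ ≤ _
    refine h1.trans ?_
    gcongr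
    norm_num

/-! ### the constituents of the objects are at distance from the zeros and the poles -/

theorem dst_cons {P : NUO.Par} (hP : ParC P) {r : ℕ} (O : Fin r → Xo) (i : Fin r) {z : ℂ}
    {δ : ℝ} (hδ : δ ≤ 1 / 20) (hz : z.re ∈ Ks δ) :
    ∀ b ∈ cons P O i, Dst (NUP1.l / 40) (b.2.2 - z).re := by
  have hl := Bd.l_pos
  obtain ⟨e1, e2⟩ := ei_mem' hP.d0 O i
  have r0 : 0 ≤ rr P O i := (hP.r0 _ _).le
  have r1 : rr P O i ≤ NUP1.l * P.d r / (8 * (r + 1)) := hP.r1 _ _
  have hr1 : (1 : ℝ) ≤ r := by exact_mod_cast Nat.one_le_iff_ne_zero.2 i.pos.ne'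
  have hd := hP.d0 r
  have hd2 := hP.e2 r
  have he1 := hP.e1
  have hd3 : P.d r ≤ 8 / 45 := by (clear * - hd2 he1; linarith)
  have r2 : rr P O i ≤ NUP1.l / 90 := by
    refine r1.trans ?_
    rw [div_le_div_iff₀ (by positivity) (by norm_num)]
    clear * - hl hr1 hd2 he1
    nlinarith
  have ee : P.e ≤ ei P O i ∧ ei P O i ≤ 3 / 10 := ⟨e1, by (clear * - e2 hd hd2; linarith)⟩
  obtain ⟨z1, z2⟩ := hz
  have z2' : z.re ≤ 21 / 20 * NUP1.l := z2.trans (by (clear * - hδ hl; nlinarith))
  have j1 := hP.j1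
  have j2 := hP.j2
  have hS : Dst (NUP1.l / 40) (posS (ei P O i) (ht (O i)) - z).re := by
    have : (posS (ei P O i) (ht (O i)) - z).re = -((1 + ei P O i) * NUP1.l) - z.re := by
      unfold posS vl
      simp
    rw [this]
    refine ⟨-3, ?_, ?_⟩ <;> push_cast <;> (clear * - hl z2' e2 hd hd2 z1 e1 he1; nlinarith)
  have hV : ∀ x : ℝ, |x| ≤ NUP1.l / 90 →
      Dst (NUP1.l / 40) ((1 - ei P O i) * NUP1.l + x - z.re) := by
    intro x hx
    obtain ⟨x1, x2⟩ := abs_le.1 hx
    refine ⟨-1, ?_, ?_⟩ <;> push_cast <;> (clear * - hl z2' x1 e2 hd hd2 z1 x2 e1 he1; nlinarith)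
  intro b hb
  unfold NUO.cons parts at hb
  rcases hk : NUO.kd (O i) with _ | _ | _ | _ | _ <;> rw [hk] at hb <;>
    simp only [List.mem_cons, List.not_mem_nil, or_false] at hb
  · subst hb
    have : (posL P.jL (ht (O i)) - z).re = (1 - P.jL) * NUP1.l - z.re := by
      unfold posL vl
      simp
    show Dst _ (posL P.jL (ht (O i)) - z).re
    rw [this]
    refine ⟨-3, ?_, ?_⟩ <;> push_cast <;> (clear * - z2' hl hd hd2 he1 j2 z1 j1; nlinarith)
  · subst hb
    have : (posT (ht (O i)) - z).re = -(1 / 2 * NUP1.l) - z.re := by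
      unfold posT vl
      simp
    show Dst _ (posT (ht (O i)) - z).re
    rw [this]
    refine ⟨-2, ?_, ?_⟩ <;> push_cast <;> (clear * - hl z2' z1; nlinarith)
  · subst hb
    exact hS
  · rcases hb with hb | hb
    · subst hb
      exact hS
    · subst hb
      show Dst _ (posV (ei P O i) (rr P O i) (ht (O i)) (an (O i)) - z).re
      rw [sub_re, posV_re']
      refine hV _ ?_
      rw [abs_mul, abs_of_nonneg r0]
      calc rr P O i * |Real.cos (2 * Real.pi * an (O i))| ≤ rr P O i * 1 :=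
            mul_le_mul_of_nonneg_left (Real.abs_cos_le_one _) r0
        _ ≤ _ := by rw [mul_one]; exact r2
  · rcases hb with hb | hb
    · subst hb
      exact hS
    · have hb' : b = (!sp (O i), false, posS (ei P O i) (ht (O i)) + 2 * (NUP1.l : ℂ)) := by
        rcases hb with hb | hb <;> exact hb
      subst hb'
      show Dst _ (posS (ei P O i) (ht (O i)) + 2 * (NUP1.l : ℂ) - z).re
      have : (posS (ei P O i) (ht (O i)) + 2 * (NUP1.l : ℂ) - z).re =
          (1 - ei P O i) * NUP1.l + 0 - z.re := by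
        unfold posS vl
        simp
        ring
      rw [this]
      exact hV 0 (by rw [abs_zero]; positivity)

/-! ### the log derivative of the factor of the objects -/

/-- **log derivative of the factor of the objects on a quantum** -/
def LPo (P : NUO.Par) (r : ℕ) (O : Fin r → Xo) (s : Bool) (z : ℂ) : ℂ :=
  ∑ i, ((cons P O i).map fun b => lpp s b z).sum

theorem hasDerivAt_list (s : Bool) (A : List Part) {z : ℂ} (h : ∀ b ∈ A, Gen (b.2.2 - z)) :
    HasDerivAt (fun z => ppC [(s, false, z)] A)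
      ((A.map fun b => lpp s b z).sum * ppC [(s, false, z)] A) z := by
  induction A with
  | nil =>
    simp only [ppC_nil_right, List.map_nil, List.sum_nil, zero_mul]
    exact hasDerivAt_const _ _
  | cons a A ih =>
    have h1 := hasDerivAt_pp s a (h a (by simp))
    have h2 := ih fun b hb => h b (by simp [hb])
    have e : (fun z => ppC [(s, false, z)] (a :: A)) =
        fun z => pp (s, false, z) a * ppC [(s, false, z)] A := by
      funext z
      rw [ppC_single, ppC_single, List.map_cons, List.prod_cons]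
    have e' : ppC [(s, false, z)] (a :: A) = pp (s, false, z) a * ppC [(s, false, z)] A :=
      congrFun e z
    rw [e, e']
    refine (h1.mul h2).congr_deriv ?_
    rw [List.map_cons, List.sum_cons]
    ring

theorem hasDerivAt_potC {P : NUO.Par} (hP : ParC P) {r : ℕ} (O : Fin r → Xo) (s : Bool) {z : ℂ}
    {δ : ℝ} (hδ : δ ≤ 1 / 20) (hz : z.re ∈ Ks δ) :
    HasDerivAt (potC P O s) (LPo P r O s z * potC P O s z) z := by
  have hl := Bd.l_pos
  have hl1 : NUP1.l / 40 ≤ 1 := by
    have := PBC.PLX.l_small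
    clear * - hl this
    linarith
  have hi : ∀ i ∈ Finset.univ, HasDerivAt (fun z => ppC [(s, false, z)] (cons P O i))
      (((cons P O i).map fun b => lpp s b z).sum * ppC [(s, false, z)] (cons P O i)) z :=
    fun i _ => hasDerivAt_list s _ fun b hb =>
      (dst_cons hP O i hδ hz b hb).gen (by positivity) hl1
  have hd := HasDerivAt.fun_finsetProd hi
  refine hd.congr_deriv ?_
  unfold LPo potC potG
  rw [Finset.sum_mul]
  refine Finset.sum_congr rfl fun i hi' => ?_
  rw [smul_eq_mul, ← Finset.mul_prod_erase Finset.univ _ hi']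
  ring

/-- number of constituents -/
theorem length_cons_le (P : NUO.Par) {r : ℕ} (O : Fin r → Xo) (i : Fin r) :
    (cons P O i).length ≤ 3 := by
  unfold NUO.cons parts
  rcases NUO.kd (O i) with _ | _ | _ | _ | _ <;> simp

/-- absolute constant of the bound of a log derivative -/
def cLP : ℝ := 12 / Real.sin (NUP1.l / 40)

theorem cLP_nonneg : 0 ≤ cLP := by
  have hl := Bd.l_pos
  have hs : 0 < Real.sin (NUP1.l / 40) := Real.sin_pos_of_pos_of_lt_pi (by positivity) (by
    have := Real.pi_gt_three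
    have := PBC.PLX.l_small
    linarith)
  unfold cLP
  positivity

/-- **uniform bound**: an absolute constant per object -/
theorem LPo_le {P : NUO.Par} (hP : ParC P) {r : ℕ} (O : Fin r → Xo) (s : Bool) {z : ℂ}
    {δ : ℝ} (hδ : δ ≤ 1 / 20) (hz : z.re ∈ Ks δ) : ‖LPo P r O s z‖ ≤ 3 * cLP * r := by
  have hl := Bd.l_pos
  have hl1 : NUP1.l / 40 ≤ 1 := by
    have := PBC.PLX.l_small
    clear * - hl this
    linarith
  have hL : ∀ A : List Part, (∀ b ∈ A, Dst (NUP1.l / 40) (b.2.2 - z).re) →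
      ‖(A.map fun b => lpp s b z).sum‖ ≤ A.length * cLP := by
    intro A
    induction A with
    | nil => intro _; simp
    | cons a A ih =>
      intro h
      rw [List.map_cons, List.sum_cons, List.length_cons]
      have h1 := lpp_le (by positivity) hl1 s a (h a (by simp))
      have h2 := ih fun b hb => h b (by simp [hb])
      push_cast
      calc _ ≤ cLP + A.length * cLP := (norm_add_le _ _).trans (add_le_add h1 h2)
        _ = _ := by ring
  unfold LPo
  calc _ ≤ ∑ _i : Fin r, 3 * cLP := norm_sum_le_of_le _ fun i _ => by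
        refine (hL _ (dst_cons hP O i hδ hz)).trans ?_
        exact mul_le_mul_of_nonneg_right (by exact_mod_cast length_cons_le P O i) cLP_nonneg
    _ = _ := by
        rw [Finset.sum_const, Finset.card_univ, Fintype.card_fin, nsmul_eq_mul]
        ring

theorem measurable_keX : Measurable PBForce.keX := by
  unfold PBForce.keX Complex.cot
  fun_prop

theorem measurable_keY : Measurable PBForce.keY := by
  unfold PBForce.keY Complex.cot Complex.tan
  fun_prop

theorem measurable_lpp (s : Bool) (b : Part) : Measurable (lpp s b) := by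
  have hK : Measurable (kSp s b) := by
    unfold kSp
    split_ifs
    · exact measurable_keX
    · exact measurable_keY
  have h1 : Measurable fun z : ℂ => kSp s b (b.2.2 - z) := hK.comp (measurable_const.sub measurable_id)
  have h2 : Measurable fun z : ℂ => kSp s b (b.2.2 - z - (NUP1.l : ℂ)) :=
    hK.comp ((measurable_const.sub measurable_id).sub_const _)
  unfold lpp obP
  split_ifs
  · exact (h1.add h2).const_mul I
  · exact h1.const_mul I

theorem measurable_LPo (P : NUO.Par) (r : ℕ) (O : Fin r → Xo) (s : Bool) :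
    Measurable (LPo P r O s) := by
  unfold LPo
  refine Finset.measurable_sum _ fun i _ => ?_
  generalize cons P O i = A
  induction A with
  | nil => simp
  | cons a A ih =>
    simp only [List.map_cons, List.sum_cons]
    exact (measurable_lpp s a).add ih

/-- **`LogD` with the closed form of the objects**, from the one body functions of the quanta -/
theorem logD_of {Z : Bool → Option O3 → ℂ → ℂ} {P : NUO.Par} (hP : ParC P) {δ : ℝ}
    (hδ : δ ≤ 1 / 20) {LZ : Bool → ℂ → ℂ}
    (dZ : ∀ s (z : ℂ), z.re ∈ Ks δ → HasDerivAt (Z s none) (LZ s z * Z s none z) z)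
    (mZ : ∀ s, Measurable (LZ s)) (bZ : ∃ B, ∀ s (z : ℂ), z.re ∈ Ks δ → ‖LZ s z‖ ≤ B) :
    LogD Z P δ LZ (LPo P) where
  dZ := dZ
  mZ := mZ
  bZ := bZ
  dP _ O s _ hz := hasDerivAt_potC hP O s hδ hz
  mP r O s := measurable_LPo P r O s
  bP r O := ⟨3 * cLP * r, fun s _ hz => LPo_le hP O s hδ hz⟩

end PBF.PLX

end
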