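import Pool.Agent.PLX.Ns
import Pool.Agent.PLX.PB.WardCf
import Pool.Agent.PB.CovW

/-!
# The second Ward identity, pieces of the remainder (plan B, I2), both channels

Field `X s = β s / (b s (ρ + 1))`, `ρ` one fold, `g = rsp β`, `e = rsp (b X)`; force
`leg + cut + obF` (legs, cutoff, objects).
* `obF LP r O s z = I LP r O s (l + I z)`: the force of the objects;
* `Pp LP β`: the response of the objects to `β` (pins);
* `Qp η ρ X e leg cut LP`: `V e + Qy X + V (X leg) + V (X cut) + V (X obF) + ∑ b (∫ρ X cut - ∫X leg - ∫X obF)`;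
* **`pc_eq`**: `V e + RmY = ∑ ∫ β leg + (Qp + Pp)`; **`ward_pc`**: for every differentiable insertion
  `F[V g Ψ] = (∑ ∫ β leg) F[Ψ] + F[(Qp + Pp) Ψ] + F[D_X Ψ]`; `ward_pc_one`, `ward_pc_vh`;
* `FdW.mP`, `FdW.mQ`: measurability (moment bounds: `PBU.MBd` in `PB/UBN`).
-/

set_option autoImplicit false
set_option linter.unusedSectionVars false

noncomputable section

open Complex MeasureTheory Finset
open scoped ENNReal

open PLX (Fil)

namespace PBWP.PLX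

open NUO NUP1 NUCR NUP1S NUP1S.Ab NUP1S.AbC NUGC NUGC.PLX PBFunc PBFunc.PLX PBF PBF.PLX

/-- the force of the objects at the height `z` -/
def obF (LP : (r : ℕ) → (Fin r → Xo) → Bool → ℂ → ℂ) (r : ℕ) (O : Fin r → Xo) (s : Bool)
    (z : ℂ) : ℂ := I * LP r O s (NUP1.l + I * z)

/-- the response of the objects to `β` -/
def Pp (LP : (r : ℕ) → (Fin r → Xo) → Bool → ℂ → ℂ) (β : Bool → ℂ → ℂ) : Ins :=
  fun r O _ _ _ => ∑ s, ∫ t : ℝ, β s t * obF LP r O s t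

variable [Fil]

/-- the remainder without the response of the objects to `β` -/
def Qp (η : Crs) (ρ : ℂ → ℂ) (X e leg cut : Bool → ℂ → ℂ)
    (LP : (r : ℕ) → (Fin r → Xo) → Bool → ℂ → ℂ) : Ins := fun r O a b x =>
  Vy 0 η ρ e r O a b x + Qy 0 η ρ X r O a b x +
  Vy 0 η ρ (fun s z => X s z * leg s z) r O a b x +
  Vy 0 η ρ (fun s z => X s z * cut s z) r O a b x +
  Vy 0 η ρ (fun s z => X s z * obF LP r O s z) r O a b x +
  ((∑ s, ∫ t : ℝ, (Fil.b s : ℂ) * ρ t * (X s t * cut s t)) -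
    (∑ s, ∫ t : ℝ, (Fil.b s : ℂ) * X s t * leg s t) -
    ∑ s, ∫ t : ℝ, (Fil.b s : ℂ) * X s t * obF LP r O s t)

theorem sum_rho {ρ : ℂ → ℂ} {β X f : Bool → ℂ → ℂ}
    (hβ : ∀ s (t : ℝ), (Fil.b s : ℂ) * ρ t * X s t = β s t - (Fil.b s : ℂ) * X s t)
    (i1 : ∀ s, Integrable fun t : ℝ => β s t * f s t)
    (i2 : ∀ s, Integrable fun t : ℝ => X s t * f s t) :
    ∑ s, ∫ t : ℝ, (Fil.b s : ℂ) * ρ t * (X s t * f s t) =
      (∑ s, ∫ t : ℝ, β s t * f s t) - ∑ s, ∫ t : ℝ, (Fil.b s : ℂ) * X s t * f s t := by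
  rw [← Finset.sum_sub_distrib]
  refine Finset.sum_congr rfl fun s _ => ?_
  have i2' : Integrable fun t : ℝ => (Fil.b s : ℂ) * X s t * f s t := by
    refine ((i2 s).const_mul (Fil.b s : ℂ)).congr (Filter.Eventually.of_forall fun t => ?_)
    simp only []
    ring
  rw [← integral_sub (i1 s) i2']
  refine integral_congr_ae (Filter.Eventually.of_forall fun t => ?_)
  simp only []
  rw [← mul_assoc, hβ]
  ring

/-- **the remainder in pieces** -/
theorem pc_eq {η : Crs} {ρ : ℂ → ℂ} {β X e leg cut : Bool → ℂ → ℂ} {LZ : Bool → ℂ → ℂ}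
    {LP : (r : ℕ) → (Fin r → Xo) → Bool → ℂ → ℂ} {r a b : ℕ} {O : Fin r → Xo}
    {x : (Fin a → ℝ) × (Fin b → ℝ)}
    (hβ : ∀ s (t : ℝ), (Fil.b s : ℂ) * ρ t * X s t = β s t - (Fil.b s : ℂ) * X s t)
    (hl : ∀ k : Fin a ⊕ Fin b, I * LZ (spQ a b k) (NUP1.l + I * zqy 0 η r O x k) -
      PB.kp2 ρ (spQ a b k) (zqy 0 η r O x k) =
      leg (spQ a b k) (zqy 0 η r O x k) + cut (spQ a b k) (zqy 0 η r O x k))
    (i1 : ∀ s, Integrable fun t : ℝ => β s t * leg s t)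
    (i2 : ∀ s, Integrable fun t : ℝ => X s t * leg s t)
    (i3 : ∀ s, Integrable fun t : ℝ => β s t * obF LP r O s t)
    (i4 : ∀ s, Integrable fun t : ℝ => X s t * obF LP r O s t) :
    Vy 0 η ρ e r O a b x + RmY 0 η ρ X (PBF.PLX.LT LZ LP) r O a b x =
      (∑ s, ∫ t : ℝ, β s t * leg s t) +
        (Qp η ρ X e leg cut LP r O a b x + Pp LP β r O a b x) := by
  have e1 : Sy 0 η (fun r O s z => X s z * lamY 0 ρ (PBF.PLX.LT LZ LP) r O s z) r O a b x =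
      Sy 0 η (fun _ _ s z => X s z * leg s z) r O a b x +
      Sy 0 η (fun _ _ s z => X s z * cut s z) r O a b x +
      Sy 0 η (fun _ _ s z => X s z * obF LP r O s z) r O a b x := by
    unfold Sy
    rw [← Finset.sum_add_distrib, ← Finset.sum_add_distrib]
    refine Finset.sum_congr rfl fun k _ => ?_
    have h1 := hl k
    unfold lamY PBF.PLX.LT obF
    simp only [ofReal_zero, mul_zero, add_zero]
    linear_combination (X (spQ a b k) (zqy 0 η r O x k)) * h1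
  have e2 := sum_rho (f := leg) hβ i1 i2
  have e3 := sum_rho (f := obF LP r O) hβ i3 i4
  unfold RmY Qp Pp
  rw [e1, Sy_eq (ρ := ρ), Sy_eq (ρ := ρ), Sy_eq (ρ := ρ), e2, e3]
  ring

/-! ### measurability -/

section meas

variable {LP : (r : ℕ) → (Fin r → Xo) → Bool → ℂ → ℂ}

theorem meas_obF (mP : ∀ r s, Measurable fun p : (Fin r → Xo) × ℂ => LP r p.1 s p.2) (r : ℕ)
    (s : Bool) : Measurable fun p : (Fin r → Xo) × ℂ => obF LP r p.1 s p.2 := by
  unfold obF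
  exact measurable_const.mul ((mP r s).comp (measurable_fst.prodMk
    (measurable_const.add (measurable_const.mul measurable_snd))))

theorem mPp (mP : ∀ r s, Measurable fun p : (Fin r → Xo) × ℂ => LP r p.1 s p.2)
    {β : Bool → ℂ → ℂ} (hβ : ∀ s, Measurable fun t : ℝ => β s t) : MIn (Pp LP β) := by
  intro r a b
  unfold Pp
  refine Finset.measurable_fun_sum _ fun s _ => ?_
  have h1 : Measurable fun p : (Fin r → Xo) × ℝ => β s p.2 * obF LP r p.1 s p.2 :=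
    ((hβ s).comp measurable_snd).mul ((meas_obF mP r s).comp
      (measurable_fst.prodMk (Complex.measurable_ofReal.comp measurable_snd)))
  exact (h1.stronglyMeasurable.integral_prod_right').measurable.comp measurable_fst

end meas

/-! ### the identity of the functional -/

section ward

variable {N : ℕ} {Z : ℕ → Bool → Option O3 → ℂ → ℂ} {P : ℕ → NUO.Par} {η η' : ℕ → Crs}
  {c : ℕ → ℂ} {δ b0 b1 : ℝ} {κ : ℕ → ℝ} {LZ : ℕ → Bool → ℂ → ℂ}
  {LP : ℕ → (r : ℕ) → (Fin r → Xo) → Bool → ℂ → ℂ} {ρ : ℂ → ℂ}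
  {β X g e leg cut : Bool → ℂ → ℂ}

/-- **the data of a field**: `b X = β / (ρ + 1)`, `g = rsp β`, `e = rsp (b X)`, force `leg + cut`
on the curves -/
structure FdW (N : ℕ) (η : ℕ → Crs) (b1 : ℝ) (LZ : ℕ → Bool → ℂ → ℂ)
    (LP : ℕ → (r : ℕ) → (Fin r → Xo) → Bool → ℂ → ℂ) (ρ : ℂ → ℂ)
    (β X g e leg cut : Bool → ℂ → ℂ) : Prop where
  fX : PB.FldF b1 X
  rs : ∀ s (z : ℂ), |z.im| < b1 → g s z - e s z = PB.rsp (PB.mulF2 ρ X) s z
  gd : ∀ s (z : ℂ), |z.im| < b1 → DifferentiableAt ℂ (g s) z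
  ed : ∀ s (z : ℂ), |z.im| < b1 → DifferentiableAt ℂ (e s) z
  ig : ∀ s, Integrable fun t : ℝ => ρ t * g s t
  ie : ∀ s, Integrable fun t : ℝ => ρ t * e s t
  mβ : ∀ s, Measurable fun t : ℝ => β s t
  hβ : ∀ s (t : ℝ), (Fil.b s : ℂ) * ρ t * X s t = β s t - (Fil.b s : ℂ) * X s t
  hl : ∀ n ≤ N, ∀ r O s (t : ℝ), I * LZ n s (NUP1.l + I * zy 0 (Fil.cv s (η n r O)) t) -
    PB.kp2 ρ s (zy 0 (Fil.cv s (η n r O)) t) =
    leg s (zy 0 (Fil.cv s (η n r O)) t) + cut s (zy 0 (Fil.cv s (η n r O)) t)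
  i1 : ∀ s, Integrable fun t : ℝ => β s t * leg s t
  i2 : ∀ s, Integrable fun t : ℝ => X s t * leg s t
  i3 : ∀ n ≤ N, ∀ r O s, Integrable fun t : ℝ => β s t * obF (LP n) r O s t
  i4 : ∀ n ≤ N, ∀ r O s, Integrable fun t : ℝ => X s t * obF (LP n) r O s t

/-- the mean of a field -/
def mB (β leg : Bool → ℂ → ℂ) : ℂ := ∑ s, ∫ t : ℝ, β s t * leg s t

theorem FdW.eq (w : FdW N η b1 LZ LP ρ β X g e leg cut) {n : ℕ} (hn : n ≤ N) (r : ℕ)
    (O : Fin r → Xo) (a b : ℕ) (x : (Fin a → ℝ) × (Fin b → ℝ)) :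
    Vy 0 (η n) ρ e r O a b x + RmY 0 (η n) ρ X (PBF.PLX.LT (LZ n) (LP n)) r O a b x = mB β leg +
      (Qp (η n) ρ X e leg cut (LP n) r O a b x + Pp (LP n) β r O a b x) :=
  pc_eq w.hβ (fun _ => w.hl n hn r O _ _) w.i1 w.i2 (w.i3 n hn r O) (w.i4 n hn r O)

theorem FdW.evN_eq (w : FdW N η b1 LZ LP ρ β X g e leg cut) (ω : CfN N) :
    evN (fun n => Vy 0 (η n) ρ e) ω + evN (fun n => RmY 0 (η n) ρ X (PBF.PLX.LT (LZ n) (LP n))) ω =
      mB β leg + (evN (fun n => Qp (η n) ρ X e leg cut (LP n)) ω +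
        evN (fun n => Pp (LP n) β) ω) :=
  w.eq (by have := ω.1.2; omega) _ _ _ _ _

theorem FdW.vy_sub (w : FdW N η b1 LZ LP ρ β X g e leg cut) (η0 : Crs) (r : ℕ)
    (O : Fin r → Xo) (a b : ℕ) (x : (Fin a → ℝ) × (Fin b → ℝ)) :
    Vy 0 η0 ρ (fun s z => g s z - e s z) r O a b x =
      Vy 0 η0 ρ g r O a b x - Vy 0 η0 ρ e r O a b x := by
  unfold Vy PB.NX.nuL PB.rS2 PB.eR
  have h1 : ∑ s, ∫ u : ℝ, (Fil.b s : ℂ) * ρ u * (g s u - e s u) =
      (∑ s, ∫ u : ℝ, (Fil.b s : ℂ) * ρ u * g s u) -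
        ∑ s, ∫ u : ℝ, (Fil.b s : ℂ) * ρ u * e s u := by
    rw [← Finset.sum_sub_distrib]
    refine Finset.sum_congr rfl fun s _ => ?_
    have jg : Integrable fun u : ℝ => (Fil.b s : ℂ) * ρ u * g s u := by
      refine ((w.ig s).const_mul (Fil.b s : ℂ)).congr (Filter.Eventually.of_forall fun t => ?_)
      simp only []
      ring
    have je : Integrable fun u : ℝ => (Fil.b s : ℂ) * ρ u * e s u := by
      refine ((w.ie s).const_mul (Fil.b s : ℂ)).congr (Filter.Eventually.of_forall fun t => ?_)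
      simp only []
      ring
    rw [← integral_sub jg je]
    refine integral_congr_ae (Filter.Eventually.of_forall fun u => ?_)
    simp only []
    ring
  rw [h1, Finset.sum_sub_distrib]
  ring

theorem FdW.mP (h : FibN N Z P η η' δ 0 b0 b1 κ LZ LP ρ)
    (w : FdW N η b1 LZ LP ρ β X g e leg cut) {n : ℕ} (hn : n ≤ N) : MIn (Pp (LP n) β) :=
  mPp (h.mP n hn) w.mβ

theorem FdW.mQ (h : FibN N Z P η η' δ 0 b0 b1 κ LZ LP ρ)
    (w : FdW N η b1 LZ LP ρ β X g e leg cut) {n : ℕ} (hn : n ≤ N) :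
    MIn (Qp (η n) ρ X e leg cut (LP n)) := by
  have h1 := MIn.vy (h.mc n hn) (h.hs n hn) h.b01 ρ w.ed
  have h2 := h.mRm w.fX hn
  have h3 := w.mP h hn
  intro r a b
  have e1 : (fun p : (Fin r → Xo) × ((Fin a → ℝ) × (Fin b → ℝ)) =>
      Qp (η n) ρ X e leg cut (LP n) r p.1 a b p.2) = fun p =>
      Vy 0 (η n) ρ e r p.1 a b p.2 + RmY 0 (η n) ρ X (PBF.PLX.LT (LZ n) (LP n)) r p.1 a b p.2 -
        mB β leg - Pp (LP n) β r p.1 a b p.2 := by
    funext p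
    rw [w.eq hn]
    ring
  rw [e1]
  exact (((h1 r a b).add (h2 r a b)).sub measurable_const).sub (h3 r a b)

/-- **the second Ward identity in pieces** -/
theorem ward_pc (h : FibN N Z P η η' δ 0 b0 b1 κ LZ LP ρ)
    (w : FdW N η b1 LZ LP ρ β X g e leg cut) {Ψ : ℕ → Ins} {dΨ : ℕ → DIns}
    (hΨ : ∀ n ≤ N, PBF.PLX.InsD (η' n) (Ψ n) (dΨ n)) (mΨ : ∀ n ≤ N, MIn (Ψ n))
    (mdΨ : ∀ n ≤ N, ∀ r a b (k : Fin a ⊕ Fin b), Measurable
      fun p : (Fin r → Xo) × ((Fin a → ℝ) × (Fin b → ℝ)) => dΨ n r p.1 a b k p.2)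
    (j1 : WI (mN N) (wN Z P N η η' c) fun ω => evN (fun n => Vy 0 (η n) ρ g) ω * evN Ψ ω)
    (j2 : WI (mN N) (wN Z P N η η' c) fun ω => evN (fun n => Vy 0 (η n) ρ e) ω * evN Ψ ω)
    (j3 : WI (mN N) (wN Z P N η η' c) fun ω =>
      (evN (fun n => Qp (η n) ρ X e leg cut (LP n)) ω + evN (fun n => Pp (LP n) β) ω) *
        evN Ψ ω)
    (j4 : WI (mN N) (wN Z P N η η' c) (evN Ψ))
    (j5 : WI (mN N) (wN Z P N η η' c) (evN fun n => DX (XCy 0 (η n) X) (dΨ n))) :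
    F (mN N) (wN Z P N η η' c) (fun ω => evN (fun n => Vy 0 (η n) ρ g) ω * evN Ψ ω) =
      mB β leg * F (mN N) (wN Z P N η η' c) (evN Ψ) +
      F (mN N) (wN Z P N η η' c) (fun ω =>
        (evN (fun n => Qp (η n) ρ X e leg cut (LP n)) ω + evN (fun n => Pp (LP n) β) ω) *
          evN Ψ ω) +
      F (mN N) (wN Z P N η η' c) (evN fun n => DX (XCy 0 (η n) X) (dΨ n)) := by
  set μ := mN N
  set ww := wN Z P N η η' c
  have e1 : (fun ω : CfN N => evN (fun n => Vy 0 (η n) ρ fun s z => g s z - e s z) ω *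
      evN Ψ ω) = fun ω => evN (fun n => Vy 0 (η n) ρ g) ω * evN Ψ ω +
        -1 * (evN (fun n => Vy 0 (η n) ρ e) ω * evN Ψ ω) := by
    funext ω
    simp only [evN, ev]
    rw [w.vy_sub]
    ring
  have e2 : (fun ω : CfN N => evN (fun n => RmY 0 (η n) ρ X (PBF.PLX.LT (LZ n) (LP n))) ω *
      evN Ψ ω) = fun ω => mB β leg * evN Ψ ω +
        ((evN (fun n => Qp (η n) ρ X e leg cut (LP n)) ω + evN (fun n => Pp (LP n) β) ω) *
          evN Ψ ω + -1 * (evN (fun n => Vy 0 (η n) ρ e) ω * evN Ψ ω)) := by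
    funext ω
    have := w.evN_eq ω
    linear_combination (evN Ψ ω) * this
  have key := ward_N (c := c) h w.fX w.rs (fun s z hz => (w.gd s z hz).sub (w.ed s z hz)) hΨ mΨ
    mdΨ (by rw [e1]; exact j1.add (j2.smul (-1)))
    (by rw [e2]; exact (j4.smul _).add (j3.add (j2.smul (-1)))) j5
  rw [e1, e2, F_add j1 (j2.smul (-1)), F_add (j4.smul _) (j3.add (j2.smul (-1))),
    F_add j3 (j2.smul (-1)), F_smul, F_smul] at key
  linear_combination key

/-- **insertion `1`** -/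
theorem ward_pc_one (h : FibN N Z P η η' δ 0 b0 b1 κ LZ LP ρ)
    (w : FdW N η b1 LZ LP ρ β X g e leg cut)
    (j1 : WI (mN N) (wN Z P N η η' c) (evN fun n => Vy 0 (η n) ρ g))
    (j2 : WI (mN N) (wN Z P N η η' c) (evN fun n => Vy 0 (η n) ρ e))
    (j3 : WI (mN N) (wN Z P N η η' c) fun ω =>
      evN (fun n => Qp (η n) ρ X e leg cut (LP n)) ω + evN (fun n => Pp (LP n) β) ω)
    (j4 : WI (mN N) (wN Z P N η η' c) fun _ => 1) :
    F (mN N) (wN Z P N η η' c) (evN fun n => Vy 0 (η n) ρ g) =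
      mB β leg * F (mN N) (wN Z P N η η' c) (fun _ => 1) +
      F (mN N) (wN Z P N η η' c) (fun ω =>
        evN (fun n => Qp (η n) ρ X e leg cut (LP n)) ω + evN (fun n => Pp (LP n) β) ω) := by
  have e1 : ∀ A : CfN N → ℂ, (fun ω => A ω * evN (fun _ _ _ _ _ _ => (1 : ℂ)) ω) = A := by
    intro A
    funext ω
    exact mul_one _
  have e0 : (evN (fun _ _ _ _ _ _ => (1 : ℂ)) : CfN N → ℂ) = fun _ => 1 := rfl
  have e2 : (evN fun n => DX (XCy 0 (η n) X) fun _ _ _ _ _ _ => (0 : ℂ)) =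
      fun _ : CfN N => (0 : ℂ) := by
    funext ω
    simp only [evN, ev, DX, mul_zero, Finset.sum_const_zero]
  have key := ward_pc (c := c) h w (Ψ := fun _ _ _ _ _ _ => 1)
    (dΨ := fun _ _ _ _ _ _ _ => 0) (fun n _ => PBF.PLX.InsD.const _ 1) (fun n _ => MIn.one)
    (fun n _ r a b _ => measurable_const) (by rw [e1]; exact j1) (by rw [e1]; exact j2)
    (by rw [e1]; exact j3) (by rw [e0]; exact j4)
    (by
      rw [e2]
      unfold WI
      simp only [mul_zero]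
      exact integrable_zero _ _ _)
  rw [e1, e1, e0, e2] at key
  rw [key]
  unfold F
  simp

/-- **insertion `V f`** -/
theorem ward_pc_vh (h : FibN N Z P η η' δ 0 b0 b1 κ LZ LP ρ)
    (w : FdW N η b1 LZ LP ρ β X g e leg cut) {f : Bool → ℂ → ℂ} (hf : PB.FldF b1 f)
    (j1 : WI (mN N) (wN Z P N η η' c)
      fun ω => evN (fun n => Vy 0 (η n) ρ g) ω * evN (fun n => Vy 0 (η n) ρ f) ω)
    (j2 : WI (mN N) (wN Z P N η η' c)
      fun ω => evN (fun n => Vy 0 (η n) ρ e) ω * evN (fun n => Vy 0 (η n) ρ f) ω)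
    (j3 : WI (mN N) (wN Z P N η η' c) fun ω =>
      (evN (fun n => Qp (η n) ρ X e leg cut (LP n)) ω + evN (fun n => Pp (LP n) β) ω) *
        evN (fun n => Vy 0 (η n) ρ f) ω)
    (j4 : WI (mN N) (wN Z P N η η' c) (evN fun n => Vy 0 (η n) ρ f))
    (j5 : WI (mN N) (wN Z P N η η' c)
      (evN fun n => Vy 0 (η n) ρ fun s z => X s z * deriv (f s) z))
    (j6 : WI (mN N) (wN Z P N η η' c) fun _ => 1) :
    F (mN N) (wN Z P N η η' c)
        (fun ω => evN (fun n => Vy 0 (η n) ρ g) ω * evN (fun n => Vy 0 (η n) ρ f) ω) =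
      mB β leg * F (mN N) (wN Z P N η η' c) (evN fun n => Vy 0 (η n) ρ f) +
      F (mN N) (wN Z P N η η' c) (fun ω =>
        (evN (fun n => Qp (η n) ρ X e leg cut (LP n)) ω + evN (fun n => Pp (LP n) β) ω) *
          evN (fun n => Vy 0 (η n) ρ f) ω) +
      ((∑ s, ∫ u : ℝ, (Fil.b s : ℂ) * ρ u * (X s u * deriv (f s) u)) *
        F (mN N) (wN Z P N η η' c) (fun _ => 1) +
      F (mN N) (wN Z P N η η' c)
        (evN fun n => Vy 0 (η n) ρ fun s z => X s z * deriv (f s) z)) := by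
  set C : ℂ := ∑ s, ∫ u : ℝ, (Fil.b s : ℂ) * ρ u * (X s u * deriv (f s) u) with hC
  have e2 : (evN fun n => DX (XCy 0 (η n) X) (dSm (XCy 0 (η n) fun s => deriv (f s)))) =
      fun ω : CfN N => C * 1 +
        evN (fun n => Vy 0 (η n) ρ fun s z => X s z * deriv (f s) z) ω := by
    funext ω
    show DX (XCy 0 (η ω.1) X) (dSm (XCy 0 (η ω.1) fun s => deriv (f s))) ω.2.1.1 ω.2.2.1
      ω.2.1.2.1 ω.2.1.2.2 ω.2.2.2 = _
    rw [DX_vy, Sy_eq (ρ := ρ), mul_one]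
    rfl
  have j7 : WI (mN N) (wN Z P N η η' c) fun ω : CfN N => C * 1 +
      evN (fun n => Vy 0 (η n) ρ fun s z => X s z * deriv (f s) z) ω := (j6.smul C).add j5
  have key := ward_pc (c := c) h w (Ψ := fun n => Vy 0 (η n) ρ f)
    (dΨ := fun n => dSm (XCy 0 (η n) fun s => deriv (f s)))
    (fun n hn => PBF.PLX.InsD.vy (h.crv n hn) (h.hs n hn) h.b01 ρ hf)
    (fun n hn => MIn.vy (h.mc n hn) (h.hs n hn) h.b01 ρ hf.d)
    (fun n hn r a b k => meas_dvy (h.mc n hn) (h.hs n hn) h.b01 hf.d r a b k) j1 j2 j3 j4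
    (by rw [e2]; exact j7)
  rw [key, e2, F_add (j6.smul C) j5, F_smul]

end ward

end PBWP.PLX

end
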