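import Pool.Agent.PB.CovW
import Pool.Agent.PB.FldX
import Pool.Agent.PB.DictR
import Pool.Agent.PLX.IB

/-!
# Generic lemmas of the second Ward identity (both channels)

`M2.le'`, `M2.add0`, `L1.le'`, `L1.smul'`; test functions on the real line: `TC.dAt'`, `TC.contR`,
`TC.bdR`, `int_mul_bdd`, `int_rho`.
-/

set_option autoImplicit false
set_option linter.unusedSectionVars false

noncomputable section

open Complex MeasureTheory Finset Filter Topology
open scoped ENNReal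

namespace PBWP.PLX

open PBFunc

/-! ### moments -/

section gen

variable {Ω : Type*} [MeasurableSpace Ω] {μ : Measure Ω} {w A B : Ω → ℂ} {K a b : ℝ}

theorem M2.le' (h : M2 μ w K B b) (hAB : ∀ ω, ‖A ω‖ ≤ ‖B ω‖) : M2 μ w K A b :=
  (lintegral_mono fun ω => ENNReal.ofReal_le_ofReal (mul_le_mul_of_nonneg_left
    (pow_le_pow_left₀ (norm_nonneg _) (hAB ω) 2) (norm_nonneg _))).trans h

theorem L1.le' (h : L1 μ w B b) (hAB : ∀ ω, ‖A ω‖ ≤ ‖B ω‖) : L1 μ w A b :=
  (lintegral_mono fun ω => ENNReal.ofReal_le_ofReal (mul_le_mul_of_nonneg_left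
    (hAB ω) (norm_nonneg _))).trans h

theorem L1.smul' (h : L1 μ w A a) (c : ℂ) : L1 μ w (fun ω => c * A ω) (‖c‖ * a) := by
  unfold L1 at *
  have e : ∀ ω, ENNReal.ofReal (‖w ω‖ * ‖c * A ω‖) =
      ENNReal.ofReal ‖c‖ * ENNReal.ofReal (‖w ω‖ * ‖A ω‖) := by
    intro ω
    rw [← ENNReal.ofReal_mul (by positivity), norm_mul]
    congr 1
    ring
  simp only [e]
  rw [lintegral_const_mul' _ _ ENNReal.ofReal_ne_top, ENNReal.ofReal_mul (by positivity)]
  gcongr

theorem M2.add0 (ha : 0 ≤ a) (hb : 0 ≤ b) (hK : 0 ≤ K) (hw : AEStronglyMeasurable w μ)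
    (hA : AEStronglyMeasurable A μ) (h : M2 μ w K A a) (h' : M2 μ w K B b) :
    M2 μ w K (fun ω => A ω + B ω) (a + b) := by
  have key : ∀ e : ℝ, 0 < e → ∫⁻ ω, ENNReal.ofReal (‖w ω‖ * ‖A ω + B ω‖ ^ 2) ∂μ ≤
      ENNReal.ofReal (((a + e) + (b + e)) ^ 2 * K) := fun e he =>
    (h.mono ha (by linarith : a ≤ a + e) le_rfl hK).add (by linarith) (by linarith) hw hA
      (h'.mono hb (by linarith : b ≤ b + e) le_rfl hK)
  have ht : Tendsto (fun e : ℝ => ENNReal.ofReal (((a + e) + (b + e)) ^ 2 * K)) (𝓝[>] 0)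
      (𝓝 (ENNReal.ofReal ((a + b) ^ 2 * K))) := by
    have h1 : Continuous fun e : ℝ => ENNReal.ofReal (((a + e) + (b + e)) ^ 2 * K) :=
      ENNReal.continuous_ofReal.comp (by fun_prop)
    have h2 := (h1.tendsto 0).mono_left (nhdsWithin_le_nhds (s := Set.Ioi 0))
    simpa using h2
  refine ge_of_tendsto ht ?_
  filter_upwards [self_mem_nhdsWithin] with e he
  exact key e he

end gen

/-! ### test functions -/

section tc

open PBE

variable {b κ M : ℝ} {f : ℂ → ℂ}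

theorem TC.dAt' {y₁ y₂ a : ℝ} (h : TC y₁ y₂ a M f) (h1 : y₁ ≤ -b) (h2 : b ≤ y₂) {z : ℂ}
    (hz : |z.im| < b) : DifferentiableAt ℂ f z := by
  obtain ⟨h3, h4⟩ := abs_lt.1 hz
  exact h.an.differentiableAt ((Pool.Agent.PB.isOpen_Sp y₁ y₂).mem_nhds ⟨by linarith, by linarith⟩)

theorem TC.contR {y₁ y₂ a : ℝ} (h : TC y₁ y₂ a M f) (h1 : y₁ < 0) (h2 : 0 < y₂) :
    Continuous fun t : ℝ => f t := Pool.Agent.PB.TC_cont h h1 h2

end tc

section real

open PBE

/-- a function with exponential decay against a bounded function -/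
theorem int_mul_bdd {b κ M B : ℝ} {β f : ℂ → ℂ} (hβ : TC (-b) b κ M β) (hb : 0 < b)
    (hκ : 0 < κ) (hf : AEStronglyMeasurable (fun t : ℝ => f t) volume)
    (hB : ∀ t : ℝ, ‖f t‖ ≤ B) : Integrable fun t : ℝ => β t * f t :=
  (hβ.real hκ (by linarith) hb).1.mul_bdd (c := B) hf (Eventually.of_forall hB)

/-- the density against a bounded function -/
theorem int_rho {b1 B : ℝ} {ρ : ℂ → ℂ} (hρ : PB.SeaF b1 ρ) (hb : 0 < b1) {f : ℂ → ℂ}
    (hf : ∀ z : ℂ, |z.im| < b1 → DifferentiableAt ℂ f z) (hB : ∀ t : ℝ, ‖f t‖ ≤ B) :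
    Integrable fun t : ℝ => ρ t * f t := by
  obtain ⟨A, k, hA, hk, h1⟩ := hρ.bd
  have hr : ∀ t : ℝ, |((t : ℂ)).im| < b1 := fun t => by simpa using hb
  have c1 : Continuous fun t : ℝ => ρ t := continuous_iff_continuousAt.2 fun t =>
    (hρ.d _ (hr t)).continuousAt.comp Complex.continuous_ofReal.continuousAt
  have c2 : Continuous fun t : ℝ => f t := continuous_iff_continuousAt.2 fun t =>
    (hf _ (hr t)).continuousAt.comp Complex.continuous_ofReal.continuousAt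
  have hi : Integrable fun t : ℝ => ρ t := by
    refine ((PBE.int_exp_abs hk).1.const_mul A).mono' c1.aestronglyMeasurable
      (Eventually.of_forall fun t => ?_)
    simpa using h1 t (hr t)
  exact hi.mul_bdd (c := B) c2.aestronglyMeasurable (Eventually.of_forall hB)

theorem TC.bdR {y₁ y₂ a M : ℝ} {f : ℂ → ℂ} (h : TC y₁ y₂ a M f) (h1 : y₁ < 0) (h2 : 0 < y₂)
    (ha : 0 ≤ a) (t : ℝ) : ‖f t‖ ≤ M := by
  have hM := h.nonneg h1 h2
  refine (Pool.Agent.PB.TC_bd h h1 h2 t).trans (mul_le_of_le_one_right hM ?_)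
  rw [Real.exp_le_one_iff]
  have := mul_nonneg ha (abs_nonneg t)
  linarith

end real

end PBWP.PLX

end
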