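import Pool.Agent.PLX.Ns
import Pool.Agent.PLX.PB.LogP
import Pool.Agent.PLX.PB.ObResp
import Pool.Agent.PLX.PB.WPlus0
import Pool.Agent.PLX.PB.WPc

/-!
# The closed form of the force of the objects (plan B, I2)

* **`LPo_eq`**: the closed form `PBF.LPo` (helper39) is the force `PBOR.kP` (helper38), everywhere;
* **`meas_LPo2`**: joint measurability in the objects and the point;
* `obF_eq`, `obF_dAt`, `obF_le`: the force at the height `z`, `|Im z| ≤ l / 5`;
* **`Pp_eq`**: the response of the objects to `β` is `∑ i, kapO`; **`Pp_le_plus`**: in the plus channel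
  it is bounded by pins.
-/

set_option autoImplicit false
set_option linter.unusedSectionVars false

noncomputable section

open Complex MeasureTheory Finset Filter Topology

namespace PBWP.PLX

open NUO NUP1 NUCR NUP1S NUP1S.Ab NUP1S.AbC NUGC NUGC.PLX PBFunc PBFunc.PLX PBF PBF.PLX

/-! ### the closed form -/

theorem cot_neg' (z : ℂ) : cot (-z) = -cot z := by
  rw [cot_eq_cos_div_sin, cot_eq_cos_div_sin, cos_neg, sin_neg, div_neg]

theorem cot_sub4 (z : ℂ) : cot (z - 4 * NUP1.l) = -tan z := by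
  have h : (4 * NUP1.l : ℂ) = Real.pi / 2 := by unfold NUP1.l; push_cast; ring
  rw [h, cot_eq_cos_div_sin, tan_eq_sin_div_cos, cos_sub_pi_div_two, sin_sub_pi_div_two, div_neg]

theorem lpp_eq (s : Bool) (b : Part) (z : ℂ) : lpp s b z = PBOR.PLX.kpt s b z := by
  obtain ⟨s', k, p⟩ := b
  obtain ⟨w, hw⟩ : ∃ w : ℂ, w = p - z := ⟨_, rfl⟩
  have hz : z - p = -w := by rw [hw]; ring
  have hll : (NUMF.l : ℂ) = NUP1.l := rfl
  have h4 : cot (-w + 4 * NUP1.l) = tan w := by
    have := cot_sub4 w
    rw [show -w + 4 * (NUP1.l : ℂ) = -(w - 4 * NUP1.l) by ring, cot_neg', this, neg_neg]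
  have h5 : cot (-w + 5 * NUP1.l) = tan (w - NUP1.l) := by
    have := cot_sub4 (w - NUP1.l)
    rw [show -w + 5 * (NUP1.l : ℂ) = -((w - NUP1.l) - 4 * NUP1.l) by ring, cot_neg', this,
      neg_neg]
  have h4' : cot (w - NUP1.l - 3 * NUP1.l) = -tan w := by
    rw [show w - (NUP1.l : ℂ) - 3 * NUP1.l = w - 4 * NUP1.l by ring, cot_sub4]
  have n1 : cot (-w + 1 * NUP1.l) = -cot (w - NUP1.l) := by
    rw [← cot_neg']; congr 1; ring
  have n1' : cot (-w + -1 * NUP1.l) = -cot (w + NUP1.l) := by
    rw [← cot_neg']; congr 1; ring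
  have n2 : cot (-w + 2 * NUP1.l) = -cot (w - 2 * NUP1.l) := by
    rw [← cot_neg']; congr 1; ring
  have n2' : cot (-w + -2 * NUP1.l) = -cot (w + 2 * NUP1.l) := by
    rw [← cot_neg']; congr 1; ring
  have n3 : cot (-w + 3 * NUP1.l) = -cot (w - 3 * NUP1.l) := by
    rw [← cot_neg']; congr 1; ring
  have n3' : cot (-w + -3 * NUP1.l) = -cot (w + 3 * NUP1.l) := by
    rw [← cot_neg']; congr 1; ring
  have n0 : cot (-w + 0 * NUP1.l) = -cot w := by
    rw [← cot_neg']; congr 1; ring
  have s1 : cot (w - NUP1.l + 2 * NUP1.l) = cot (w + NUP1.l) := by congr 1; ring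
  have s2 : cot (w - NUP1.l - 2 * NUP1.l) = cot (w - 3 * NUP1.l) := by congr 1; ring
  have s3 : cot (w - NUP1.l + NUP1.l) = cot w := by congr 1; ring
  have s4 : cot (w - NUP1.l - NUP1.l) = cot (w - 2 * NUP1.l) := by congr 1; ring
  have s5 : cot (w - NUP1.l + 3 * NUP1.l) = cot (w + 2 * NUP1.l) := by congr 1; ring
  have hI : I * I = -1 := I_mul_I
  unfold lpp PBOR.PLX.kpt
  simp only
  rw [← hw, hz]
  by_cases h : s = s'
  · subst h
    cases k
    · simp only [kSp, obP, PBForce.kO, if_true, beq_self_eq_true, PBOR.PLX.kl, PBOR.PLX.KL, List.map_cons,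
        List.map_nil, List.sum_cons, List.sum_nil, PBForce.keX, Bool.false_eq_true, if_false, hll]
      push_cast
      rw [n0, n1, n1', n2, n2']
      linear_combination (2 * cot w + cot (w + 2 * NUP1.l) + cot (w - 2 * NUP1.l) -
        cot (w + NUP1.l) - cot (w - NUP1.l)) * hI
    · simp only [kSp, obP, PBForce.kO, if_true, beq_self_eq_true, PBOR.PLX.kl, PBOR.PLX.KL, List.map_cons,
        List.map_nil, List.sum_cons, List.sum_nil, PBForce.keX, hll]
      push_cast
      rw [n0, n1, n2', n3, s1, s2, s3, s4]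
      linear_combination (cot w + cot (w + 2 * NUP1.l) + cot (w - NUP1.l) +
        cot (w - 3 * NUP1.l)) * hI
  · have h' : ¬ s' = s := fun e => h e.symm
    have hb : (s == s') = false := by simpa using h
    cases k
    · simp only [kSp, obP, PBForce.kO, if_neg h', hb, PBOR.PLX.kl, PBOR.PLX.KL, List.map_cons,
        List.map_nil, List.sum_cons, List.sum_nil, PBForce.keY, Bool.false_eq_true, if_false, hll]
      push_cast
      rw [h4, n3, n3']
      linear_combination (-2 * tan w - 2 * cot (w + 3 * NUP1.l) - 2 * cot (w - 3 * NUP1.l)) * hI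
    · simp only [kSp, obP, PBForce.kO, if_true, if_neg h', hb, PBOR.PLX.kl, PBOR.PLX.KL, List.map_cons,
        List.map_nil, List.sum_cons, List.sum_nil, PBForce.keY, hll]
      push_cast
      rw [h4, h5, n3, n3', n2', h4', s5]
      linear_combination (-2 * cot (w + 3 * NUP1.l) - 2 * cot (w - 3 * NUP1.l) -
        2 * tan (w - NUP1.l) - 2 * cot (w + 2 * NUP1.l)) * hI

/-- **the two forms of the force of the objects agree** -/
theorem LPo_eq (P : NUO.Par) {r : ℕ} (O : Fin r → Xo) (s : Bool) (z : ℂ) :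
    LPo P r O s z = PBOR.PLX.kP P O s z := by
  unfold LPo PBOR.PLX.kP PBOR.PLX.kO PBOR.PLX.kls
  refine Finset.sum_congr rfl fun i _ => ?_
  congr 1
  exact List.map_congr_left fun b _ => lpp_eq s b z

/-! ### joint measurability -/

theorem meas_kSp (s : Bool) (b : Part) : Measurable (kSp s b) := by
  unfold kSp
  split_ifs
  · exact measurable_keX
  · exact measurable_keY

theorem meas_lpp {Y : Type*} [MeasurableSpace Y] (s u v : Bool) {f g : Y → ℂ}
    (hf : Measurable f) (hg : Measurable g) : Measurable fun y => lpp s (u, v, f y) (g y) := by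
  have hK : Measurable (if u = s then PBForce.keX else PBForce.keY) := by
    split_ifs
    · exact measurable_keX
    · exact measurable_keY
  have h1 : Measurable fun y => (if u = s then PBForce.keX else PBForce.keY) (f y - g y) :=
    hK.comp (hf.sub hg)
  have h2 : Measurable fun y =>
      (if u = s then PBForce.keX else PBForce.keY) (f y - g y - (NUP1.l : ℂ)) :=
    hK.comp ((hf.sub hg).sub_const _)
  unfold lpp obP kSp
  cases v
  · simp only [Bool.false_eq_true, if_false]
    exact h1.const_mul I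
  · simp only [if_true]
    exact (h1.add h2).const_mul I

/-- **joint measurability in the objects and the point** -/
theorem meas_LPo2 (P : NUO.Par) (r : ℕ) (hP : Measurable (P.rad r)) (s : Bool) :
    Measurable fun p : (Fin r → Xo) × ℂ => LPo P r p.1 s p.2 := by
  unfold LPo
  refine Finset.measurable_fun_sum _ fun i _ => ?_
  refine measurable_config fun K => ?_
  obtain ⟨L, hL, h⟩ := exists_evl_cons (Y := ℂ) P hP K i
  have key : ∀ L : List (Bool × Bool × ((Fin r → ℝ × ℝ) × ℂ → ℂ)), (∀ p ∈ L, Measurable p.2.2) →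
      Measurable fun p : (Fin r → ℝ × ℝ) × ℂ => ((evl L p).map fun b => lpp s b p.2).sum := by
    intro L
    induction L with
    | nil => intro _; exact measurable_const
    | cons b L ih =>
      intro hL
      exact (meas_lpp s b.1 b.2.1 (hL b List.mem_cons_self) measurable_snd).add
        (ih fun p hp => hL p (List.mem_cons_of_mem _ hp))
  refine (congrArg Measurable (funext fun p => ?_)).mpr (key L hL)
  simp only
  rw [← h]

/-! ### the force at the height `z` -/

section force

variable {P : NUO.Par} {r : ℕ} {O : Fin r → Xo}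

theorem obF_eq (P : NUO.Par) (O : Fin r → Xo) (s : Bool) (z : ℂ) :
    obF (LPo P) r O s z = I * PBOR.PLX.kP P O s (NUP1.l + I * z) := by
  unfold obF
  rw [LPo_eq]

theorem obF_dAt (h : PBOR.PLX.PO P O) (s : Bool) {z : ℂ} (hz : |z.im| ≤ NUP1.l / 5) :
    DifferentiableAt ℂ (obF (LPo P) r O s) z := by
  have e : obF (LPo P) r O s = fun z => I * PBOR.PLX.kP P O s (NUP1.l + I * z) :=
    funext fun z => obF_eq P O s z
  rw [e]
  exact (PBOR.PLX.kP_dAt h s hz).const_mul I

theorem obF_le (h : PBOR.PLX.PO P O) (s : Bool) {z : ℂ} (hz : |z.im| ≤ NUP1.l / 5) :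
    ‖obF (LPo P) r O s z‖ ≤ r * (PBOR.PLX.CO + 4) := by
  rw [obF_eq, norm_mul, norm_I, one_mul]
  exact PBOR.PLX.kP_lI_le h s hz

theorem obF_leR (h : PBOR.PLX.PO P O) (s : Bool) (t : ℝ) :
    ‖obF (LPo P) r O s t‖ ≤ r * (PBOR.PLX.CO + 4) := by
  refine obF_le h s ?_
  have := Bd.l_pos
  rw [ofReal_im, abs_zero]
  positivity

/-- the response of the objects -/
theorem Pp_eq (h : PBOR.PLX.PO P O) {β : Bool → ℂ → ℂ}
    (hβ : ∀ s, Integrable fun t : ℝ => β s t) (a b : ℕ) (x : (Fin a → ℝ) × (Fin b → ℝ)) :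
    Pp (LPo P) β r O a b x = ∑ i, PBOR.PLX.kapO P O i fun s t => β s t := by
  rw [← PBOR.PLX.sum_kapO h (β := fun s t => β s t) hβ]
  unfold Pp
  refine Finset.sum_congr rfl fun s _ => integral_congr_ae (Eventually.of_forall fun t => ?_)
  simp only
  rw [obF_eq]

/-- **in the plus channel the response of the objects is bounded by pins** -/
theorem Pp_le_plus (h : PBOR.PLX.PO P O) {b κ q M : ℝ} {β : ℂ → ℂ} (hβ : PBE.TC (-b) b κ M β)
    (hb : 0 < b) (hκ : 0 < κ) (hκ2 : κ < 2) (hq : q ≤ κ) (hM : 0 ≤ M) (a b' : ℕ)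
    (x : (Fin a → ℝ) × (Fin b' → ℝ)) :
    ‖Pp (LPo P) (fun _ => β) r O a b' x‖ ≤
      PBOR.PLX.CK κ * M * ∑ i : Fin r, Real.exp (-(q * |ht (O i)|)) := by
  have hi := (hβ.real hκ (by linarith) hb).1
  have hc := Pool.Agent.PB.TC_cont hβ (by linarith) hb
  rw [Pp_eq h (fun _ => hi), Finset.mul_sum]
  refine (norm_sum_le _ _).trans (Finset.sum_le_sum fun i _ => ?_)
  have h1 := PBOR.PLX.kapO_lim h hκ hκ2 hM (β := fun _ t => β t) (fun _ => hc.aestronglyMeasurable)
    (fun _ t => Pool.Agent.PB.TC_bd hβ (by linarith) hb t) i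
  have h2 : ∑ c : Bool, ((chg c (O i) : ℂ) - (chg (!c) (O i) : ℂ)) * ∫ t : ℝ, β t = 0 := by
    rw [Fintype.sum_bool]
    simp only [Bool.not_true, Bool.not_false]
    ring
  rw [h2, mul_zero, add_zero] at h1
  refine h1.trans ?_
  have h3 := PBOR.PLX.CK_nonneg hκ hκ2
  rw [mul_comm M]
  refine mul_le_mul_of_nonneg_left (Real.exp_le_exp.2 ?_) (mul_nonneg h3 hM)
  have := mul_le_mul_of_nonneg_right hq (abs_nonneg (ht (O i)))
  linarith

end force

end PBWP.PLX

end
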