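import Pool.Agent.PLX.Ns
import Pool.Agent.PLX.ForceX
import Pool.Agent.PLX.ExU
import Pool.Agent.PLX.Yq
import Pool.Agent.PLX.MFh2
import Pool.Agent.PLX.PB.WardFF
import Pool.Agent.PB.Num
import Pool.Agent.PB.ExMix3
import Pool.Agent.PB.EInst
import Pool.Agent.PB.MFh
import Pool.Agent.NUO.GasPot

/-!
# Plan B, I2: the logarithmic derivative of the one body function of the quanta

`u = l + i z`, `z` the complex height.  For the one body function of two sizes
`XXU c β x y (gP β W) g0 (Lg p p) s2 none` (own rows `x`, rows `y` of the other species):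

* rows: `rhoH x` the sea of the rows, `SeaF`; `cV_rhoH : cV (deriv (rhoH x)) z = ∑ rowD (i (z - hr (x i)))`;
* cutoff: `cutL β X = phi' / phi` for a list `X` of points; **`cut_main`**: `phi ≠ 0` and
  `‖cutL β X u‖ ≤ KL β s exp (- (κ0 / 2) ∑ exp (- 2 β |im (u - x)|))`;
* legs: `legL p`, `I_legL : i legL p (l + i z) = h00 (z - hr p)`;
* **`LZU`**, `hasDerivAt_XXU`, `LZU_meas`, `LZU_bd`, `I_LZU`: the general form;
* **`LZX a β x W p`** (rows `rwq x a`, `rwq x !a`), `LogD_XX`, **`I_LZX`**: the splitting, the force of the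
  seas is `kp2 (rhoH x) a`.
-/

set_option autoImplicit false
set_option linter.unusedSectionVars false

noncomputable section

open Complex MeasureTheory Set Filter Topology

open PLX (Fil)

namespace PBLZ.PLX

open NUP1 (psi phi Adm kap cl)

/-! ### the cutoff -/

section cut

variable {β s : ℝ} {z u : ℂ} {X : List ℂ}

/-- derivative of `psi` -/
theorem hasDerivAt_psi (h : Adm β s) (hz : |z.re + NUP1.l / 2| ≤ s) : HasDerivAt (psi β)
    (-(4 * β * Complex.cos (β * NUP1.l) * Complex.sin (2 * β * z + β * NUP1.l)) /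
      (Complex.cos (2 * β * z + β * NUP1.l) + Complex.cos (β * NUP1.l)) ^ 2) z := by
  have hd := NUP1.den_ne h hz
  have h1 : HasDerivAt (fun z : ℂ => 2 * β * z + β * NUP1.l) (2 * β) z := by
    simpa using ((hasDerivAt_id z).const_mul (2 * β : ℂ)).add_const (β * NUP1.l : ℂ)
  have h2 := h1.ccos
  have h3 := (h2.sub_const (Complex.cos (β * NUP1.l))).div
    (h2.add_const (Complex.cos (β * NUP1.l))) hd
  have e : psi β = fun z : ℂ => (Complex.cos (2 * β * z + β * NUP1.l) - Complex.cos (β * NUP1.l)) /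
      (Complex.cos (2 * β * z + β * NUP1.l) + Complex.cos (β * NUP1.l)) := rfl
  rw [e]
  refine h3.congr_deriv ?_
  congr 1
  ring

theorem norm_sin_le (w : ℂ) : ‖Complex.sin w‖ ≤ Real.cosh w.im := by
  have h1 := NUP1.norm_sin_sq w
  refine le_of_sq_le_sq ?_ (Real.cosh_pos _).le
  rw [h1, Real.cosh_sq]
  have := Real.sin_sq_le_one w.re
  linarith

/-- constant of `norm_deriv_psi` -/
def C0 (β s : ℝ) : ℝ := 8 * β / kap β s ^ 2

theorem C0_pos (h : Adm β s) : 0 < C0 β s := by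
  unfold C0
  have h1 := h.kap_pos
  have h2 := h.pos
  positivity

theorem norm_deriv_psi (h : Adm β s) (hz : |z.re + NUP1.l / 2| ≤ s) :
    ‖deriv (psi β) z‖ ≤ C0 β s * Real.exp (-(2 * β) * |z.im|) := by
  rw [(hasDerivAt_psi h hz).deriv]
  have hk := h.kap_pos
  have hβ := h.pos
  obtain ⟨c, hc⟩ : ∃ c : ℝ, c = Real.cosh (2 * β * z.im) := ⟨_, rfl⟩
  have hc0 : 0 < c := by rw [hc]; exact Real.cosh_pos _
  have h1 : ‖Complex.sin (2 * β * z + β * NUP1.l)‖ ≤ c := by
    have := norm_sin_le (2 * β * z + β * NUP1.l)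
    rwa [NUP1.im_arg, ← hc] at this
  have h2 : ‖Complex.cos ((β : ℂ) * NUP1.l)‖ ≤ 1 := by
    rw [← ofReal_mul, ← ofReal_cos, Complex.norm_real, Real.norm_eq_abs]
    exact Real.abs_cos_le_one _
  have h3 : kap β s * c ≤ ‖Complex.cos (2 * β * z + β * NUP1.l) + Complex.cos (β * NUP1.l)‖ := by
    have := (NUP1.den_re h hz).trans (Complex.re_le_norm _)
    rw [← hc] at this
    linarith [h.cl_pos]
  have h4 : ‖(4 : ℂ) * β‖ = 4 * β := by
    rw [norm_mul, Complex.norm_real, Real.norm_of_nonneg hβ.le]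
    simp
  have h5 : Real.exp |2 * β * z.im| / 2 ≤ c := by rw [hc]; exact NUP1.cosh_ge _
  rw [NUP1.abs_arg h] at h5
  rw [norm_div, norm_neg, norm_mul, norm_mul, norm_pow, h4]
  have h6 : 4 * β * ‖Complex.cos ((β : ℂ) * NUP1.l)‖ * ‖Complex.sin (2 * β * z + β * NUP1.l)‖ ≤
      4 * β * 1 * c := by
    refine mul_le_mul (mul_le_mul_of_nonneg_left h2 (by positivity)) h1 (norm_nonneg _)
      (by positivity)
  have h7 : (kap β s * c) ^ 2 ≤
      ‖Complex.cos (2 * β * z + β * NUP1.l) + Complex.cos (β * NUP1.l)‖ ^ 2 :=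
    pow_le_pow_left₀ (by positivity) h3 2
  refine (div_le_div₀ (by positivity) h6 (by positivity) h7).trans ?_
  have h8 : 4 * β * 1 * c / (kap β s * c) ^ 2 = 4 * β / kap β s ^ 2 * c⁻¹ := by
    field_simp
  rw [h8]
  have h9 : c⁻¹ ≤ 2 * Real.exp (-(2 * β) * |z.im|) := by
    rw [inv_le_comm₀ hc0 (by positivity)]
    rw [mul_inv, ← Real.exp_neg]
    rw [show -(-(2 * β) * |z.im|) = 2 * β * |z.im| by ring]
    clear * - h5
    linarith
  calc 4 * β / kap β s ^ 2 * c⁻¹ ≤ 4 * β / kap β s ^ 2 * (2 * Real.exp (-(2 * β) * |z.im|)) :=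
        mul_le_mul_of_nonneg_left h9 (by positivity)
    _ = _ := by unfold C0; ring

/-- constant of `norm_psi` -/
def κ0 (β s : ℝ) : ℝ := cl β * kap β s / 2

theorem κ0_pos (h : Adm β s) : 0 < κ0 β s := by
  unfold κ0
  have h1 := h.kap_pos
  have h2 := h.cl_pos
  positivity

/-- the weight of the points -/
def SX (β : ℝ) (X : List ℂ) (u : ℂ) : ℝ := (X.map fun x => Real.exp (-(2 * β) * |(u - x).im|)).sum

theorem SX_nonneg (β : ℝ) (X : List ℂ) (u : ℂ) : 0 ≤ SX β X u := by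
  unfold SX
  refine List.sum_nonneg fun a ha => ?_
  obtain ⟨x, -, rfl⟩ := List.mem_map.1 ha
  exact (Real.exp_pos _).le

theorem SX_cons (β : ℝ) (x : ℂ) (X : List ℂ) (u : ℂ) :
    SX β (x :: X) u = Real.exp (-(2 * β) * |(u - x).im|) + SX β X u := by
  unfold SX
  rw [List.map_cons, List.sum_cons]

theorem SX_pos (hX : X ≠ []) : 0 < SX β X u := by
  obtain ⟨x, Y, rfl⟩ := List.exists_cons_of_ne_nil hX
  rw [SX_cons]
  have := SX_nonneg β Y u
  have := Real.exp_pos (-(2 * β) * |(u - x).im|)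
  linarith

/-- the product of the factors -/
def PX (β : ℝ) (X : List ℂ) (u : ℂ) : ℂ := (X.map fun x => psi β (u - x)).prod

theorem norm_PX (h : Adm β s) (hu : ∀ x ∈ X, |(u - x).re + NUP1.l / 2| ≤ s) :
    ‖PX β X u‖ ≤ Real.exp (-(κ0 β s * SX β X u)) := NUP1.norm_prod_psi h hu

/-- **derivative of the product** -/
theorem deriv_PX (h : Adm β s) (hu : ∀ x ∈ X, |(u - x).re + NUP1.l / 2| ≤ s) :
    DifferentiableAt ℂ (PX β X) u ∧ ‖deriv (PX β X) u‖ ≤
      C0 β s * Real.exp (κ0 β s) * (SX β X u * Real.exp (-(κ0 β s * SX β X u))) := by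
  have hk := κ0_pos h
  have hC := C0_pos h
  induction X with
  | nil =>
    have e : PX β [] = fun _ => 1 := by
      funext v
      simp [PX]
    rw [e]
    refine ⟨differentiableAt_const _, ?_⟩
    rw [deriv_const, norm_zero]
    simp [SX]
  | cons x X ih =>
    obtain ⟨i1, i2⟩ := ih fun y hy => hu y (by simp [hy])
    have hx := hu x (by simp)
    have i3 := norm_PX h (X := X) (u := u) fun y hy => hu y (by simp [hy])
    have e : PX β (x :: X) = fun v => psi β (v - x) * PX β X v := by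
      funext v
      simp [PX]
    have d1 : HasDerivAt (fun v => psi β (v - x)) (deriv (psi β) (u - x)) u := by
      have h1 := (NUP1.differentiableAt_psi h hx).hasDerivAt
      have h2 := h1.comp u ((hasDerivAt_id u).sub_const x)
      rw [mul_one] at h2
      exact h2
    have d2 := d1.mul i1.hasDerivAt
    rw [e]
    refine ⟨d2.differentiableAt, ?_⟩
    have d3 : deriv (fun v => psi β (v - x) * PX β X v) u =
        deriv (psi β) (u - x) * PX β X u + psi β (u - x) * deriv (PX β X) u := d2.deriv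
    rw [d3, SX_cons]
    obtain ⟨a, ha⟩ : ∃ a : ℝ, a = Real.exp (-(2 * β) * |(u - x).im|) := ⟨_, rfl⟩
    obtain ⟨S, hS⟩ : ∃ S : ℝ, S = SX β X u := ⟨_, rfl⟩
    have ha0 : 0 < a := by rw [ha]; exact Real.exp_pos _
    have ha1 : a ≤ 1 := by
      rw [ha, Real.exp_le_one_iff]
      have := mul_nonneg h.pos.le (abs_nonneg (u - x).im)
      linarith
    have hS0 : 0 ≤ S := by rw [hS]; exact SX_nonneg _ _ _
    have b1 := norm_deriv_psi h hx
    have b2 := NUP1.norm_psi h hx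
    have b2' : ‖psi β (u - x)‖ ≤ Real.exp (-(κ0 β s * a)) := by
      rw [ha]; exact b2
    rw [← ha] at b1
    rw [← hS] at i2 i3
    rw [← ha, ← hS]
    refine (norm_add_le _ _).trans ?_
    rw [norm_mul, norm_mul]
    have t1 : ‖deriv (psi β) (u - x)‖ * ‖PX β X u‖ ≤ C0 β s * a * Real.exp (-(κ0 β s * S)) :=
      mul_le_mul b1 i3 (norm_nonneg _) (by positivity)
    have t2 : ‖psi β (u - x)‖ * ‖deriv (PX β X) u‖ ≤ Real.exp (-(κ0 β s * a)) *
        (C0 β s * Real.exp (κ0 β s) * (S * Real.exp (-(κ0 β s * S)))) :=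
      mul_le_mul b2' i2 (norm_nonneg _) (Real.exp_pos _).le
    have e1 : Real.exp (-(κ0 β s * S)) ≤ Real.exp (κ0 β s) * Real.exp (-(κ0 β s * (a + S))) := by
      rw [← Real.exp_add]
      refine Real.exp_le_exp.2 ?_
      clear * - hk ha1
      nlinarith
    have e2 : Real.exp (-(κ0 β s * a)) * Real.exp (-(κ0 β s * S)) =
        Real.exp (-(κ0 β s * (a + S))) := by
      rw [← Real.exp_add]
      congr 1
      ring
    calc _ ≤ C0 β s * a * Real.exp (-(κ0 β s * S)) + Real.exp (-(κ0 β s * a)) *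
          (C0 β s * Real.exp (κ0 β s) * (S * Real.exp (-(κ0 β s * S)))) := add_le_add t1 t2
      _ ≤ C0 β s * a * (Real.exp (κ0 β s) * Real.exp (-(κ0 β s * (a + S)))) +
          C0 β s * Real.exp (κ0 β s) * (S * (Real.exp (-(κ0 β s * a)) *
            Real.exp (-(κ0 β s * S)))) := by
          refine add_le_add (mul_le_mul_of_nonneg_left e1 (by positivity)) (le_of_eq (by ring))
      _ = _ := by
          rw [e2]
          ring

/-- logarithmic derivative of the cutoff -/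
def cutL (β : ℝ) (X : List ℂ) (u : ℂ) : ℂ := deriv (phi β X) u / phi β X u

/-- constant of `cut_main` -/
def KL (β s : ℝ) : ℝ := C0 β s * Real.exp (κ0 β s) / κ0 β s

theorem KL_pos (h : Adm β s) : 0 < KL β s := by
  unfold KL
  have := κ0_pos h
  have := C0_pos h
  positivity

theorem phi_PX (β : ℝ) (X : List ℂ) : phi β X = fun u => 1 - PX β X u := rfl

theorem x_exp {x : ℝ} (hx : 0 < x) : x * Real.exp (-x) ≤ Real.exp (-(x / 2)) * (1 - Real.exp (-x)) := by
  have h1 : x / 2 ≤ Real.sinh (x / 2) := Real.self_le_sinh_iff.2 (by linarith)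
  rw [Real.sinh_eq] at h1
  have h2 : x ≤ Real.exp (x / 2) - Real.exp (-(x / 2)) := by linarith
  have h3 := mul_le_mul_of_nonneg_right h2 (Real.exp_pos (-x)).le
  refine h3.trans (le_of_eq ?_)
  rw [sub_mul, mul_sub, mul_one, ← Real.exp_add, ← Real.exp_add]
  congr 2
  ring

/-- **the cutoff has no zeros in the strip and its logarithmic derivative is small in the bulk** -/
theorem cut_main (h : Adm β s) (hX : X ≠ []) (hu : ∀ x ∈ X, |(u - x).re + NUP1.l / 2| ≤ s) :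
    phi β X u ≠ 0 ∧ DifferentiableAt ℂ (phi β X) u ∧
      ‖cutL β X u‖ ≤ KL β s * Real.exp (-(κ0 β s * SX β X u / 2)) := by
  have hk := κ0_pos h
  have hC := C0_pos h
  have hS : 0 < SX β X u := SX_pos hX
  obtain ⟨d1, d2⟩ := deriv_PX h hu
  have n1 := norm_PX h hu
  obtain ⟨y, hy⟩ : ∃ y : ℝ, y = κ0 β s * SX β X u := ⟨_, rfl⟩
  have hy0 : 0 < y := by rw [hy]; positivity
  rw [← hy] at n1
  have he : Real.exp (-y) < 1 := by rw [Real.exp_lt_one_iff]; linarith
  have n2 : 1 - Real.exp (-y) ≤ ‖phi β X u‖ := by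
    rw [phi_PX]
    have h1 := norm_sub_norm_le (1 : ℂ) (PX β X u)
    rw [norm_one] at h1
    linarith
  have n3 : 0 < ‖phi β X u‖ := by linarith
  have hd : DifferentiableAt ℂ (phi β X) u := by
    rw [phi_PX]
    exact d1.const_sub 1
  refine ⟨norm_pos_iff.1 n3, hd, ?_⟩
  have e : deriv (phi β X) u = -deriv (PX β X) u := by
    rw [phi_PX]
    exact deriv_const_sub 1
  unfold cutL
  rw [e, norm_div, norm_neg, div_le_iff₀ n3]
  have h3 := x_exp hy0
  calc ‖deriv (PX β X) u‖ ≤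
        C0 β s * Real.exp (κ0 β s) * (SX β X u * Real.exp (-(κ0 β s * SX β X u))) := d2
    _ = KL β s * (y * Real.exp (-y)) := by
        rw [← hy]
        unfold KL
        rw [hy]
        field_simp
    _ ≤ KL β s * (Real.exp (-(y / 2)) * (1 - Real.exp (-y))) :=
        mul_le_mul_of_nonneg_left h3 (KL_pos h).le
    _ ≤ KL β s * (Real.exp (-(y / 2)) * ‖phi β X u‖) := by
        have := (KL_pos h).le
        clear * - n2 this
        gcongr
    _ = _ := by
        rw [hy]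
        ring

end cut

/-! ### the cutoff force as a function of the height -/

section cutI

variable {β s : ℝ} {X : List ℂ} {r h : ℝ}

/-- the force of the cutoff at the height `z` -/
def cutI (β : ℝ) (X : List ℂ) (z : ℂ) : ℂ := I * cutL β X (NUP1.l + I * z)

theorem u_re (z : ℂ) : ((NUP1.l : ℂ) + I * z).re = NUP1.l - z.im := by simp [sub_eq_add_neg]

theorem u_im (z : ℂ) : ((NUP1.l : ℂ) + I * z).im = z.re := by simp

theorem strip_h {z : ℂ} (hX : ∀ x ∈ X, |x.re| ≤ r) (h1 : -(s - 3 / 2 * NUP1.l - r) ≤ z.im)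
    (h2 : z.im ≤ 3 / 2 * NUP1.l + s - r) :
    ∀ x ∈ X, |((NUP1.l : ℂ) + I * z - x).re + NUP1.l / 2| ≤ s := by
  intro x hx
  obtain ⟨h3, h4⟩ := abs_le.1 (hX x hx)
  rw [sub_re, u_re, abs_le]
  constructor <;> (clear * - h2 h4 h1 h3; linarith)

theorem SX_ge {t : ℝ} (hβ : 0 ≤ β) (hh : ∀ x ∈ X, |x.im| ≤ h) {u : ℂ} (hu : u.im = t) :
    Real.exp (-(2 * β * h)) * (X.length * Real.exp (-(2 * β) * |t|)) ≤ SX β X u := by
  induction X with
  | nil => simp [SX]
  | cons x X ih =>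
    have h1 := ih fun y hy => hh y (by simp [hy])
    rw [SX_cons, List.length_cons]
    have h2 : Real.exp (-(2 * β * h)) * Real.exp (-(2 * β) * |t|) ≤
        Real.exp (-(2 * β) * |(u - x).im|) := by
      rw [← Real.exp_add]
      refine Real.exp_le_exp.2 ?_
      have h3 : |(u - x).im| ≤ |t| + |x.im| := by
        rw [sub_im, hu]
        exact abs_sub _ _
      have h4 := hh x (by simp)
      have h5 : 2 * β * |(u - x).im| ≤ 2 * β * (|t| + h) :=
        mul_le_mul_of_nonneg_left (by linarith) (by linarith)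
      linarith
    push_cast
    linarith

/-- **the force of the cutoff**, heights -/
theorem cutI_bd (hA : Adm β s) (hX0 : X ≠ []) (hX : ∀ x ∈ X, |x.re| ≤ r)
    (hh : ∀ x ∈ X, |x.im| ≤ h) {z : ℂ} (h1 : -(s - 3 / 2 * NUP1.l - r) ≤ z.im)
    (h2 : z.im ≤ 3 / 2 * NUP1.l + s - r) :
    ‖cutI β X z‖ ≤ KL β s * Real.exp (-(κ0 β s / 2 * Real.exp (-(2 * β * h)) *
      (X.length * Real.exp (-(2 * β) * |z.re|)))) := by
  have key := (cut_main hA hX0 (strip_h hX h1 h2)).2.2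
  unfold cutI
  rw [norm_mul, norm_I, one_mul]
  refine key.trans (mul_le_mul_of_nonneg_left (Real.exp_le_exp.2 ?_) (KL_pos hA).le)
  have h3 := SX_ge (β := β) (X := X) hA.pos.le hh (u_im z)
  have h4 := mul_le_mul_of_nonneg_left h3 (κ0_pos hA).le
  clear * - h4
  linarith

/-- the force of the cutoff is bounded by a constant -/
theorem cutI_bd' (hA : Adm β s) (hX0 : X ≠ []) (hX : ∀ x ∈ X, |x.re| ≤ r)
    {z : ℂ} (h1 : -(s - 3 / 2 * NUP1.l - r) ≤ z.im)
    (h2 : z.im ≤ 3 / 2 * NUP1.l + s - r) : ‖cutI β X z‖ ≤ KL β s := by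
  have key := (cut_main hA hX0 (strip_h hX h1 h2)).2.2
  unfold cutI
  rw [norm_mul, norm_I, one_mul]
  refine key.trans (mul_le_of_le_one_right (KL_pos hA).le (Real.exp_le_one_iff.2 ?_))
  have := mul_nonneg (κ0_pos hA).le (SX_nonneg β X (NUP1.l + I * z))
  linarith

theorem strip_open (a b : ℝ) : IsOpen {z : ℂ | a < z.im ∧ z.im < b} :=
  (isOpen_lt continuous_const continuous_im).inter (isOpen_lt continuous_im continuous_const)

/-- the force of the cutoff is analytic -/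
theorem cutI_diff (hA : Adm β s) (hX0 : X ≠ []) (hX : ∀ x ∈ X, |x.re| ≤ r) :
    DifferentiableOn ℂ (cutI β X) {z : ℂ | -(s - 3 / 2 * NUP1.l - r) < z.im ∧
      z.im < 3 / 2 * NUP1.l + s - r} := by
  have ho := strip_open (-(s - 3 / 2 * NUP1.l - r)) (3 / 2 * NUP1.l + s - r)
  have hd : DifferentiableOn ℂ (fun z => phi β X (NUP1.l + I * z))
      {z : ℂ | -(s - 3 / 2 * NUP1.l - r) < z.im ∧ z.im < 3 / 2 * NUP1.l + s - r} := by
    intro z hz
    have h1 := (cut_main hA hX0 (strip_h hX hz.1.le hz.2.le)).2.1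
    exact (h1.comp z (by fun_prop : DifferentiableAt ℂ (fun z : ℂ => (NUP1.l : ℂ) + I * z) z)).differentiableWithinAt
  have h2 := hd.deriv ho
  refine (h2.div hd fun z hz => (cut_main hA hX0 (strip_h hX hz.1.le hz.2.le)).1).congr
    fun z hz => ?_
  have h1 := (cut_main hA hX0 (strip_h hX hz.1.le hz.2.le)).2.1
  have h3 : HasDerivAt (fun z : ℂ => (NUP1.l : ℂ) + I * z) I z := by
    simpa using ((hasDerivAt_id z).const_mul I).const_add (NUP1.l : ℂ)
  have h4 := h1.hasDerivAt.comp z h3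
  have h5 : deriv (fun z => phi β X (NUP1.l + I * z)) z =
      deriv (phi β X) (NUP1.l + I * z) * I := h4.deriv
  simp only [Pi.div_apply]
  rw [h5]
  unfold cutI cutL
  ring

/-- `x ^ q e^{- k x} ≤ (q / k) ^ q` -/
theorem rpow_exp {x q k : ℝ} (hx : 0 ≤ x) (hq : 0 < q) (hk : 0 < k) :
    x ^ q * Real.exp (-(k * x)) ≤ (q / k) ^ q := by
  have h1 : k * x / q ≤ Real.exp (k * x / q) := by
    have := Real.add_one_le_exp (k * x / q)
    linarith
  have h2 : (k * x / q) ^ q ≤ Real.exp (k * x / q) ^ q :=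
    Real.rpow_le_rpow (by positivity) h1 hq.le
  have h3 : Real.exp (k * x / q) ^ q = Real.exp (k * x) := by
    rw [← Real.exp_mul]
    congr 1
    field_simp
  have h4 : x ^ q = (q / k) ^ q * (k * x / q) ^ q := by
    rw [← Real.mul_rpow (by positivity) (by positivity)]
    congr 1
    field_simp
  rw [h4, mul_assoc]
  refine mul_le_of_le_one_right (by positivity) ?_
  rw [Real.exp_neg, ← div_eq_mul_inv, div_le_one (Real.exp_pos _), ← h3]
  exact h2

/-- **exponential decay against the cutoff**: `e^{- a |t|} e^{- k m e^{- 2 β |t|}} ≤ C m^{- a / 2 β}` -/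
theorem cut_exp {a k m t : ℝ} (hβ : 0 < β) (ha : 0 < a) (hk : 0 < k) (hm : 0 < m) :
    Real.exp (-(a * |t|)) * Real.exp (-(k * (m * Real.exp (-(2 * β) * |t|)))) ≤
      (a / (2 * β) / k) ^ (a / (2 * β)) * m ^ (-(a / (2 * β))) := by
  have hE := Real.exp_pos (-(2 * β) * |t|)
  have h1 := rpow_exp (x := m * Real.exp (-(2 * β) * |t|)) (q := a / (2 * β)) (by positivity)
    (by positivity) hk
  have h2 : Real.exp (-(a * |t|)) =
      m ^ (-(a / (2 * β))) * (m * Real.exp (-(2 * β) * |t|)) ^ (a / (2 * β)) := by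
    rw [Real.mul_rpow hm.le hE.le, ← mul_assoc, ← Real.rpow_add hm, neg_add_cancel,
      Real.rpow_zero, one_mul, ← Real.exp_mul]
    congr 1
    field_simp
  rw [h2]
  calc m ^ (-(a / (2 * β))) * (m * Real.exp (-(2 * β) * |t|)) ^ (a / (2 * β)) *
        Real.exp (-(k * (m * Real.exp (-(2 * β) * |t|)))) =
      (m * Real.exp (-(2 * β) * |t|)) ^ (a / (2 * β)) *
        Real.exp (-(k * (m * Real.exp (-(2 * β) * |t|)))) * m ^ (-(a / (2 * β))) := by ring
    _ ≤ _ := mul_le_mul_of_nonneg_right h1 (by positivity)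

end cutI

/-! ### the sea of the rows at complex heights -/

section sea

open NUMF (Pc vc V)
open PB (SeaF cV)
open PBForce (pc rhoR rowD)
open PBQ1 (hr)

variable {m : ℕ}

/-- the sea of the rows `x` at the height `z` -/
def rhoH (x : Fin m → ℂ) (z : ℂ) : ℂ := ∑ i, Pc (z - hr (x i))

theorem rhoH_eq {x : Fin m → ℂ} {z : ℂ} (h : ∀ i, |(z - hr (x i)).im| < NUP1.l) :
    rhoR x (NUP1.l + I * z) = rhoH x z := by
  unfold rhoR rhoH
  refine Finset.sum_congr rfl fun i _ => ?_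
  have e : ((NUP1.l : ℂ) + I * z - NUMF.l - x i) = I * (z - hr (x i)) := by
    have e1 : ((NUMF.l : ℝ) : ℂ) = (NUP1.l : ℂ) := rfl
    rw [e1, mul_sub, PBQ1.I_hr]
    ring
  rw [← PBQ1.pc_Im (h i), ← e]
  rfl

theorem hasDerivAt_rhoH {x : Fin m → ℂ} {z : ℂ} (h : ∀ i, |(z - hr (x i)).im| < NUP1.l) :
    HasDerivAt (rhoH x) (∑ i, deriv Pc (z - hr (x i))) z := by
  unfold rhoH
  refine HasDerivAt.fun_sum fun i _ => ?_
  have h1 : HasDerivAt Pc (deriv Pc (z - hr (x i))) (z - hr (x i)) :=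
    (NUMF.Pc_diff (h i)).hasDerivAt
  have h2 := h1.comp z ((hasDerivAt_id z).sub_const (hr (x i)))
  rw [mul_one] at h2
  exact h2

theorem im_sub_real (z a : ℂ) (u : ℝ) : (z - u - a).im = (z - a).im := by simp

/-- **the force of the rows is the convolution of the sea with the potential** -/
theorem cV_rhoH {x : Fin m → ℂ} {z : ℂ} (h : ∀ i, |(z - hr (x i)).im| < NUP1.l) :
    cV (deriv (rhoH x)) z = ∑ i, rowD (I * (z - hr (x i))) := by
  unfold cV
  have e : ∀ u : ℝ, deriv (rhoH x) (z - u) * (V u : ℂ) =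
      ∑ i, deriv Pc (z - hr (x i) - u) * (V u : ℂ) := by
    intro u
    rw [(hasDerivAt_rhoH (x := x) (z := z - u) fun i => by
      rw [im_sub_real]; exact h i).deriv, Finset.sum_mul]
    refine Finset.sum_congr rfl fun i _ => ?_
    congr 2
    ring
  simp_rw [e]
  have hh : ∀ i, |(z - hr (x i)).im| < NUMF.l := h
  rw [integral_finsetSum _ fun i _ => (Pool.Agent.PB.hasDerivAt_convV (hh i)).2.1]
  refine Finset.sum_congr rfl fun i _ => ?_
  rw [PBQ1.rowD_I (h i), ← (Pool.Agent.PB.hasDerivAt_convV (hh i)).2.2.deriv]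
  refine Filter.EventuallyEq.deriv_eq ?_
  filter_upwards [(Pool.Agent.PB.strip_open NUMF.l).mem_nhds (hh i)] with w hw
  exact Pool.Agent.PB.conv_Vc hw

theorem im_lt {x : Fin m → ℂ} {r : ℝ} (hx : ∀ i, |(x i).re| ≤ r) {z : ℂ} {b : ℝ}
    (hz : |z.im| < b) (hb : b + r ≤ NUP1.l) (i : Fin m) : |(z - hr (x i)).im| < NUP1.l := by
  have e : (z - hr (x i)).im = z.im + (x i).re := by
    rw [sub_im, PBQ1.hr_im]
    ring
  rw [e]
  have h1 := abs_add_le z.im (x i).re
  have h2 := hx i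
  linarith

/-- **the sea of the rows is a sea** -/
theorem seaF_rhoH (hm : 0 < m) {x : Fin m → ℂ} {r : ℝ} (hx : ∀ i, |(x i).re| ≤ r) {b : ℝ}
    (hb : b + r < NUP1.l) : SeaF b (rhoH x) := by
  rcases lt_or_ge b 0 with hb0 | hb0
  · exact ⟨fun z hz => absurd (hz.trans hb0) (not_lt.2 (abs_nonneg _)),
      fun z hz => absurd (hz.trans hb0) (not_lt.2 (abs_nonneg _)),
      ⟨0, 1, le_rfl, one_pos, fun z hz => absurd (hz.trans hb0) (not_lt.2 (abs_nonneg _))⟩⟩
  refine ⟨fun z hz => (hasDerivAt_rhoH (im_lt hx hz hb.le)).differentiableAt, fun z hz => ?_, ?_⟩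
  · rw [← rhoH_eq (im_lt hx hz hb.le)]
    refine PBForce.rhoR_ne hm fun i => ?_
    have e : ((NUP1.l : ℂ) + I * z - NUP1.l - x i).re = -(z - hr (x i)).im := by
      rw [sub_im, PBQ1.hr_im]
      simp
      ring
    rw [e, abs_neg]
    exact im_lt hx hz hb.le i
  · have hr0 : 0 ≤ r := (abs_nonneg _).trans (hx ⟨0, hm⟩)
    obtain ⟨C, hC, hP⟩ := Pool.Agent.PB.Pc_bdd (b := b + r) (by linarith) hb
    refine ⟨∑ i, C * Real.exp (8 / 3 * |(hr (x i)).re|), 8 / 3,
      Finset.sum_nonneg fun i _ => by positivity, by norm_num, fun z hz => ?_⟩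
    unfold rhoH
    rw [Finset.sum_mul]
    refine (norm_sum_le _ _).trans (Finset.sum_le_sum fun i _ => ?_)
    have e : (z - hr (x i)).im = z.im + (x i).re := by
      rw [sub_im, PBQ1.hr_im]
      ring
    refine (hP _ ?_).1.trans ?_
    · rw [e]
      have h1 := abs_add_le z.im (x i).re
      have h2 := hx i
      linarith
    · rw [mul_assoc, ← Real.exp_add]
      refine mul_le_mul_of_nonneg_left (Real.exp_le_exp.2 ?_) hC
      have h3 := abs_sub_abs_le_abs_sub z.re (hr (x i)).re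
      rw [sub_re]
      clear * - h3
      linarith

end sea

/-! ### the legs -/

section legs

open PBQ1 (hr lamL fSd ct)

theorem Lg_Th (z : ℂ) : PBX.Lg z z = PBS.Th z := rfl

theorem I_legL {p z : ℂ} (h : |(z - hr p).im| < NUP1.l) :
    lamL p (NUP1.l + I * z) = PBEI.h00 (z - hr p) := by
  have hl := NUP1.Bd.l_pos
  have hpi : Real.pi = 8 * NUP1.l := PBQ1.pi8
  obtain ⟨w, hw⟩ : ∃ w : ℂ, w = z - hr p := ⟨_, rfl⟩
  have e1 : p + 2 * (NUP1.l : ℂ) - (NUP1.l + I * z) = NUP1.l - I * w := by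
    rw [hw, mul_sub, PBQ1.I_hr]
    ring
  rw [← hw] at h ⊢
  obtain ⟨h1, h2⟩ := abs_lt.1 h
  have hlM : NUMF.l = NUP1.l := rfl
  unfold lamL fSd ct PBEI.h00
  rw [hlM, e1]
  have e2 : ((NUP1.l : ℂ) - I * w + 3 * NUP1.l) = Real.pi / 2 - I * w := by
    have e3 : (Real.pi : ℂ) = 8 * NUP1.l := by
      rw [hpi]
      push_cast
      ring
    rw [e3]
    ring
  rw [e2, Complex.sin_pi_div_two_sub, Complex.cos_pi_div_two_sub]
  have e5 : Complex.cosh w = Complex.cos (I * w) := by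
    rw [mul_comm, Complex.cos_mul_I]
  rw [e5]
  have n1 : Complex.sin ((NUP1.l : ℂ) - I * w) ≠ 0 := by
    have e4 : ((NUP1.l : ℂ) - I * w).re = NUP1.l + w.im := by simp
    exact PBQ1.sin_ne_of_re (by rw [e4]; linarith) (by rw [e4, hpi]; linarith)
  have n2 : Complex.cos (I * w) ≠ 0 := by
    rw [← Complex.sin_pi_div_two_sub]
    have e4 : ((Real.pi : ℂ) / 2 - I * w).re = Real.pi / 2 + w.im := by simp
    exact PBQ1.sin_ne_of_re (by rw [e4, hpi]; (clear * - hl h1; linarith)) (by rw [e4, hpi]; (clear * - hl h2; linarith))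
  have key : Complex.cos (NUP1.l : ℂ) = Complex.cos (NUP1.l - I * w) * Complex.cos (I * w) -
      Complex.sin (NUP1.l - I * w) * Complex.sin (I * w) := by
    rw [← Complex.cos_add, sub_add_cancel]
  rw [key]
  field_simp

end legs

/-! ### the row factors of two sizes -/

section rowsU

open PBForce (rowS rowX RowOk)

/-- own part of the factor of a row at `0` -/
def rwO (v : ℂ) : ℂ := 1 / Complex.sin v * (1 / Complex.sin (v - 2 * NUP1.l))

/-- cross part of the factor of a row at `0` -/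
def rwK (v : ℂ) : ℂ := Complex.sin (v + 3 * NUP1.l) ^ 2

theorem negI_I (a : ℂ) : -I * (I * a) = a := by
  rw [← mul_assoc, neg_mul, I_mul_I, neg_neg, one_mul]

theorem hasDerivAt_rwO {v : ℂ} (h0 : Complex.sin v ≠ 0)
    (h2 : Complex.sin (v - 2 * NUP1.l) ≠ 0) :
    HasDerivAt rwO (rwO v * (-I * rowS (v - NUP1.l))) v := by
  have d0 : HasDerivAt (fun z : ℂ => Complex.sin z) (Complex.cos v) v := Complex.hasDerivAt_sin v
  have d2 : HasDerivAt (fun z : ℂ => Complex.sin (z - 2 * NUP1.l))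
      (Complex.cos (v - 2 * NUP1.l)) v := by
    have := (Complex.hasDerivAt_sin (v - 2 * NUP1.l)).comp v ((hasDerivAt_id v).sub_const _)
    rwa [mul_one] at this
  have d := (d0.inv h0).mul (d2.inv h2)
  have hf : rwO = fun z : ℂ => (Complex.sin z)⁻¹ * (Complex.sin (z - 2 * NUP1.l))⁻¹ := by
    funext z
    unfold rwO
    rw [one_div, one_div]
  rw [hf]
  refine d.congr_deriv ?_
  have hlM : (NUMF.l : ℝ) = NUP1.l := rfl
  unfold PBForce.rowS
  rw [negI_I, hlM, show v - (NUP1.l : ℂ) + NUP1.l = v by ring,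
    show v - (NUP1.l : ℂ) - NUP1.l = v - 2 * NUP1.l by ring]
  unfold Complex.cot
  simp only [Pi.mul_apply, Pi.inv_apply]
  clear d d0 d2 hf hlM
  generalize Complex.sin v = A at *
  generalize Complex.sin (v - 2 * NUP1.l) = B at *
  field_simp
  ring

theorem hasDerivAt_rwK {v : ℂ} (h3 : Complex.sin (v + 3 * NUP1.l) ≠ 0) :
    HasDerivAt rwK (rwK v * (-I * rowX (v - NUP1.l))) v := by
  have d3 : HasDerivAt (fun z : ℂ => Complex.sin (z + 3 * NUP1.l))
      (Complex.cos (v + 3 * NUP1.l)) v := by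
    have := (Complex.hasDerivAt_sin (v + 3 * NUP1.l)).comp v ((hasDerivAt_id v).add_const _)
    rwa [mul_one] at this
  have d := d3.pow 2
  have hf : rwK = fun z : ℂ => Complex.sin (z + 3 * NUP1.l) ^ 2 := rfl
  have hpi : (Real.pi : ℂ) = 8 * NUP1.l := by
    rw [show Real.pi = 8 * NUP1.l from PBQ1.pi8]
    push_cast
    rfl
  have e3 : v + 3 * (NUP1.l : ℂ) = v - NUP1.l + Real.pi / 2 := by
    rw [hpi]
    ring
  have ht : Complex.tan (v - NUP1.l) =
      -(Complex.cos (v + 3 * NUP1.l) / Complex.sin (v + 3 * NUP1.l)) := by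
    rw [e3, Complex.cos_add_pi_div_two, Complex.sin_add_pi_div_two, neg_div, neg_neg,
      Complex.tan_eq_sin_div_cos]
  rw [hf]
  refine d.congr_deriv ?_
  unfold PBForce.rowX
  rw [negI_I, ht]
  simp only []
  clear d d3 hf ht e3
  generalize Complex.sin (v + 3 * NUP1.l) = C at *
  field_simp
  ring

/-- **row factors of a quantum**, own rows `x`, rows `y` of the other species -/
def RRw (c : ℂ) {m M : ℕ} (x : Fin m → ℂ) (y : Fin M → ℂ) (u : ℂ) : ℂ :=
  c * (∏ i, rwO (u - x i)) * ∏ j, rwK (u - y j)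

theorem RRw_eq (c : ℂ) {m M : ℕ} (x : Fin m → ℂ) (y : Fin M → ℂ) (u : ℂ) :
    RRw c x y u = c * (∏ i, 1 / Complex.sin (u - x i)) *
      (∏ i, 1 / Complex.sin (u - x i - 2 * NUP1.l)) *
      ∏ j, Complex.sin (u - y j + 3 * NUP1.l) ^ 2 := by
  unfold RRw rwO rwK
  rw [Finset.prod_mul_distrib, ← mul_assoc]

theorem hasDerivAt_prodF {k : ℕ} (x : Fin k → ℂ) {f F : ℂ → ℂ} {u : ℂ}
    (h : ∀ i, HasDerivAt f (f (u - x i) * F (u - x i)) (u - x i)) :
    HasDerivAt (fun u => ∏ i, f (u - x i)) ((∏ i, f (u - x i)) * ∑ i, F (u - x i)) u := by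
  have hi : ∀ i ∈ Finset.univ, HasDerivAt (fun u : ℂ => f (u - x i))
      (f (u - x i) * F (u - x i)) u := by
    intro i _
    have := (h i).comp u ((hasDerivAt_id u).sub_const (x i))
    rwa [mul_one] at this
  refine (HasDerivAt.fun_finsetProd hi).congr_deriv ?_
  rw [Finset.mul_sum]
  refine Finset.sum_congr rfl fun i hi' => ?_
  rw [← Finset.mul_prod_erase Finset.univ (fun i => f (u - x i)) hi', smul_eq_mul]
  ring

/-- the factor of own and of other rows is regular -/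
theorem hasDerivAt_RRw (c : ℂ) {m M : ℕ} (x : Fin m → ℂ) (y : Fin M → ℂ) {u : ℂ}
    (h : ∀ i, RowOk (u - x i)) (h' : ∀ i, RowOk (u - y i)) :
    HasDerivAt (RRw c x y) (RRw c x y u *
      (-I * (∑ i, rowS (u - NUP1.l - x i) + ∑ j, rowX (u - NUP1.l - y j)))) u := by
  have d1 := hasDerivAt_prodF x (f := rwO) (F := fun v => -I * rowS (v - NUP1.l))
    fun i => hasDerivAt_rwO (h i).a (h i).b
  have d2 := hasDerivAt_prodF y (f := rwK) (F := fun v => -I * rowX (v - NUP1.l))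
    fun i => hasDerivAt_rwK (h' i).c
  have d3 := (d1.const_mul c).mul d2
  have e1 : ∀ i, u - x i - (NUP1.l : ℂ) = u - NUP1.l - x i := fun i => by ring
  have e2 : ∀ i, u - y i - (NUP1.l : ℂ) = u - NUP1.l - y i := fun i => by ring
  simp only [e1, e2, ← Finset.mul_sum] at d3
  refine d3.congr_deriv ?_
  unfold RRw
  ring

end rowsU

/-! ### the one body function of the quanta -/

section XX

open PBForce (rowS rowX)
open PBQ1 (hr lamL)
open NUO (Ks)

variable {m M : ℕ}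

/-- **the logarithmic derivative**, own rows `x`, rows `y` of the other species -/
def LZU (β : ℝ) (x : Fin m → ℂ) (y : Fin M → ℂ) (W : List ℂ) (p u : ℂ) : ℂ :=
  -I * (∑ i, rowS (u - NUP1.l - x i) + ∑ j, rowX (u - NUP1.l - y j)) +
    cutL β (List.ofFn x ++ W) u + -I * lamL p u

/-- hypotheses on rows (own `x`, other `y`), cutoff points and legs -/
structure LZOkU (β s δ r : ℝ) (x : Fin m → ℂ) (y : Fin M → ℂ) (W : List ℂ) (p : ℂ) : Prop where
  adm : Adm β s
  m0 : 0 < m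
  δ0 : 0 ≤ δ
  δ1 : δ ≤ 1 / 20
  r1 : r ≤ NUP1.l / 2
  s1 : 3 / 2 * NUP1.l + δ * NUP1.l + r ≤ s
  x : ∀ i, |(x i).re| ≤ r
  y : ∀ i, |(y i).re| ≤ r
  W : ∀ w ∈ W, |w.re| ≤ r
  p : |p.re| ≤ NUP1.l / 2

variable {β s δ r : ℝ} {x : Fin m → ℂ} {y : Fin M → ℂ} {W : List ℂ} {p : ℂ}

theorem LZOkU.pts (h : LZOkU β s δ r x y W p) : ∀ w ∈ List.ofFn x ++ W, |w.re| ≤ r := by
  intro w hw
  rcases List.mem_append.1 hw with h1 | h1
  · obtain ⟨i, rfl⟩ := (List.mem_ofFn' _ _).1 h1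
    exact h.x i
  · exact h.W w h1

theorem LZOkU.ne (h : LZOkU β s δ r x y W p) : List.ofFn x ++ W ≠ [] := by
  have := h.m0
  intro h0
  have h1 := congrArg List.length h0
  simp only [List.length_append, List.length_ofFn, List.length_nil] at h1
  omega

theorem LZOkU.strip (h : LZOkU β s δ r x y W p) {u : ℂ} (hu : u.re ∈ Ks δ) :
    ∀ w ∈ List.ofFn x ++ W, |(u - w).re + NUP1.l / 2| ≤ s := by
  intro w hw
  have hl := NUP1.Bd.l_pos
  obtain ⟨h1, h2⟩ := abs_le.1 (h.pts w hw)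
  obtain ⟨h3, h4⟩ := hu
  have h5 := h.s1
  have h6 := h.δ0
  have h7 : 0 ≤ δ * NUP1.l := mul_nonneg h6 hl.le
  rw [sub_re, abs_le]
  constructor <;> (clear * - hl h2 h3 h5 h7 h1 h4; nlinarith)

theorem LZOkU.re (h : LZOkU β s δ r x y W p) {u : ℂ} (hu : u.re ∈ Ks δ) :
    19 / 20 * NUP1.l ≤ u.re ∧ u.re ≤ 21 / 20 * NUP1.l := by
  obtain ⟨h3, h4⟩ := hu
  have hl := NUP1.Bd.l_pos
  have := h.δ1
  exact ⟨h3, h4.trans (by (clear * - hl this; nlinarith))⟩

theorem rowU {k : ℕ} {x : Fin k → ℂ} (hr : r ≤ NUP1.l / 2) (hx : ∀ i, |(x i).re| ≤ r) {u : ℂ}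
    (hu : 19 / 20 * NUP1.l ≤ u.re ∧ u.re ≤ 21 / 20 * NUP1.l) (i : Fin k) :
    9 / 20 * NUP1.l ≤ (u - x i).re ∧ (u - x i).re ≤ 31 / 20 * NUP1.l := by
  obtain ⟨h1, h2⟩ := hu
  obtain ⟨h3, h4⟩ := abs_le.1 ((hx i).trans hr)
  rw [sub_re]
  constructor <;> (clear * - h1 h4 h2 h3; linarith)

theorem LZOkU.leg (h : LZOkU β s δ r x y W p) {u : ℂ} (hu : u.re ∈ Ks δ) :
    9 / 20 * NUP1.l ≤ (p + 2 * NUP1.l - u).re ∧ (p + 2 * NUP1.l - u).re ≤ 31 / 20 * NUP1.l := by
  obtain ⟨h1, h2⟩ := h.re hu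
  obtain ⟨h3, h4⟩ := abs_le.1 h.p
  have e : (p + 2 * NUP1.l - u).re = p.re + 2 * NUP1.l - u.re := by simp
  rw [e]
  constructor <;> (clear * - h2 h3 h1 h4; linarith)

theorem rowOkU {v : ℂ} (h : 9 / 20 * NUP1.l ≤ v.re ∧ v.re ≤ 31 / 20 * NUP1.l) :
    PBForce.RowOk v := by
  have hl := NUP1.Bd.l_pos
  have hpi : Real.pi = 8 * NUP1.l := PBQ1.pi8
  obtain ⟨h1, h2⟩ := h
  refine ⟨PBQ1.sin_ne_of_re (by (clear * - hl h1; linarith)) (by rw [hpi]; linarith), ?_, ?_⟩
  · have e : (-(v - 2 * NUP1.l)).re = 2 * NUP1.l - v.re := by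
      simp
    have := PBQ1.sin_ne_of_re (z := -(v - 2 * NUP1.l)) (by rw [e]; (clear * - hl h2; linarith))
      (by rw [e, hpi]; linarith)
    rwa [Complex.sin_neg, neg_ne_zero] at this
  · have e : (v + 3 * NUP1.l).re = v.re + 3 * NUP1.l := by simp
    exact PBQ1.sin_ne_of_re (by rw [e]; linarith) (by rw [e, hpi]; linarith)

theorem LZOkU.legOk (h : LZOkU β s δ r x y W p) {u : ℂ} (hu : u.re ∈ Ks δ) :
    Complex.sin (p - u + 2 * NUP1.l) ≠ 0 ∧ Complex.sin (p - u - 3 * NUP1.l) ≠ 0 := by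
  have hl := NUP1.Bd.l_pos
  have hpi : Real.pi = 8 * NUP1.l := PBQ1.pi8
  obtain ⟨h1, h2⟩ := h.leg hu
  have e0 : (p + 2 * NUP1.l - u).re = (p - u).re + 2 * NUP1.l := by
    simp
    ring
  rw [e0] at h1 h2
  constructor
  · have e : (p - u + 2 * NUP1.l).re = (p - u).re + 2 * NUP1.l := by simp
    exact PBQ1.sin_ne_of_re (by rw [e]; linarith) (by rw [e, hpi]; (clear * - hl h2; linarith))
  · have e : (-(p - u - 3 * NUP1.l)).re = 3 * NUP1.l - (p - u).re := by
      simp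
    have := PBQ1.sin_ne_of_re (z := -(p - u - 3 * NUP1.l)) (by rw [e]; (clear * - hl h2; linarith))
      (by rw [e, hpi]; (clear * - hl h1; linarith))
    rwa [Complex.sin_neg, neg_ne_zero] at this

/-- **the one body function of the quanta: logarithmic derivative** -/
theorem hasDerivAt_U (h : LZOkU β s δ r x y W p) (c : ℂ) {u : ℂ}
    (hu : u.re ∈ Ks δ) : HasDerivAt
      (fun u => RRw c x y u * phi β (List.ofFn x ++ W) u * PBS.Th p u)
      (LZU β x y W p u * (RRw c x y u * phi β (List.ofFn x ++ W) u * PBS.Th p u)) u := by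
  have d1 := hasDerivAt_RRw c x y (u := u) (fun i => rowOkU (rowU h.r1 h.x (h.re hu) i))
    (fun i => rowOkU (rowU h.r1 h.y (h.re hu) i))
  obtain ⟨n2, d2, -⟩ := cut_main h.adm h.ne (h.strip hu)
  have d3 := PBQ1.hasDerivAt_Th (h.legOk hu).1 (h.legOk hu).2
  refine ((d1.mul d2.hasDerivAt).mul d3).congr_deriv ?_
  unfold LZU cutL
  simp only [Pi.mul_apply]
  field_simp

theorem meas_tan : Measurable Complex.tan := by
  have : Complex.tan = fun z => Complex.sin z / Complex.cos z := by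
    funext z
    exact Complex.tan_eq_sin_div_cos z
  rw [this]
  fun_prop

theorem meas_cot : Measurable Complex.cot := by
  have : Complex.cot = fun z => Complex.cos z / Complex.sin z := by
    funext z
    rfl
  rw [this]
  fun_prop

theorem rowS_meas : Measurable rowS := by
  unfold PBForce.rowS
  have h3 : Measurable fun z : ℂ => Complex.cot (z + NUP1.l) :=
    meas_cot.comp (measurable_id.add_const _)
  have h4 : Measurable fun z : ℂ => Complex.cot (z - NUP1.l) :=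
    meas_cot.comp (measurable_id.sub_const _)
  exact ((h3.neg).sub h4).const_mul I

theorem rowX_meas : Measurable rowX := by
  unfold PBForce.rowX
  exact (meas_tan.const_mul (-2)).const_mul I

theorem LZU_meas (β : ℝ) (x : Fin m → ℂ) (y : Fin M → ℂ) (W : List ℂ) (p : ℂ) :
    Measurable (LZU β x y W p) := by
  unfold LZU cutL
  have h1 : Measurable (phi β (List.ofFn x ++ W)) := by
    have : phi β (List.ofFn x ++ W) = PBX.ph β x (PBX.gP β W) := by
      funext u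
      rw [PBX.ph_gP]
    rw [this]
    exact PBX.measurable_ph β x (PBX.measurable_gP β W)
  have h2 : Measurable fun u : ℂ => ∑ i, rowS (u - NUP1.l - x i) :=
    Finset.measurable_fun_sum _ fun i _ => rowS_meas.comp ((measurable_id.sub_const _).sub_const _)
  have h2' : Measurable fun u : ℂ => ∑ i, rowX (u - NUP1.l - y i) :=
    Finset.measurable_fun_sum _ fun i _ => rowX_meas.comp ((measurable_id.sub_const _).sub_const _)
  have h3 : Measurable (lamL p) := by
    unfold PBQ1.lamL PBQ1.fSd PBQ1.ct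
    fun_prop
  exact (((h2.add h2').const_mul (-I)).add ((measurable_deriv _).div h1)).add (h3.const_mul (-I))

/-- bounds of the forces of a row -/
theorem row_bd : ∃ C : ℝ, 0 ≤ C ∧ ∀ v : ℂ, 9 / 20 * NUP1.l ≤ v.re → v.re ≤ 31 / 20 * NUP1.l →
    ‖rowS (v - NUP1.l)‖ ≤ C ∧ ‖rowX (v - NUP1.l)‖ ≤ C := by
  have hl := NUP1.Bd.l_pos
  have hpi : Real.pi = 8 * NUP1.l := PBQ1.pi8
  have hlM : NUMF.l = NUP1.l := rfl
  obtain ⟨C1, hC1, b1⟩ := PBQ1.ct_bound (a := 9 / 20 * NUP1.l) (b := 6 * NUP1.l) (by positivity)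
    (by rw [hlM]; linarith)
  refine ⟨2 * C1, by positivity, fun v h1 h2 => ?_⟩
  have c1 : Complex.cot (v - NUP1.l + NUP1.l) = PBQ1.ct v := by
    rw [sub_add_cancel]
    rfl
  have c2 : Complex.cot (v - NUP1.l - NUP1.l) = -PBQ1.ct (2 * NUP1.l - v) := by
    unfold Complex.cot PBQ1.ct
    rw [show v - (NUP1.l : ℂ) - NUP1.l = -(2 * NUP1.l - v) by ring, Complex.cos_neg,
      Complex.sin_neg, div_neg]
  have c3 : Complex.tan (v - NUP1.l) = -PBQ1.ct (v + 3 * NUP1.l) := by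
    have e3 : v + 3 * (NUP1.l : ℂ) = v - NUP1.l + Real.pi / 2 := by
      have : (Real.pi : ℂ) = 8 * NUP1.l := by
        rw [hpi]
        push_cast
        rfl
      rw [this]
      ring
    unfold PBQ1.ct
    rw [e3, Complex.cos_add_pi_div_two, Complex.sin_add_pi_div_two, neg_div, neg_neg,
      Complex.tan_eq_sin_div_cos]
  have r1 : (2 * NUP1.l - v : ℂ).re = 2 * NUP1.l - v.re := by simp
  have r2 : (v + 3 * NUP1.l : ℂ).re = v.re + 3 * NUP1.l := by simp
  have n1 := b1 v (by (clear * - h1; linarith)) (by linarith)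
  have n2 := b1 (2 * NUP1.l - v) (by rw [r1]; (clear * - h2; linarith)) (by rw [r1]; (clear * - hl h1; linarith))
  have n3 := b1 (v + 3 * NUP1.l) (by rw [r2]; (clear * - hl h1; linarith)) (by rw [r2]; linarith)
  constructor
  · unfold PBForce.rowS
    rw [hlM, c1, c2, norm_mul, norm_I, one_mul, sub_neg_eq_add]
    refine (norm_add_le _ _).trans ?_
    rw [norm_neg]
    linarith
  · unfold PBForce.rowX
    rw [c3, norm_mul, norm_I, one_mul, norm_mul, norm_neg, norm_neg, Complex.norm_ofNat]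
    linarith

/-- **bounded in the strip** -/
theorem LZU_bd (h : LZOkU β s δ r x y W p) :
    ∃ B : ℝ, ∀ u : ℂ, u.re ∈ Ks δ → ‖LZU β x y W p u‖ ≤ B := by
  have hl := NUP1.Bd.l_pos
  have hlM : NUMF.l = NUP1.l := rfl
  obtain ⟨C1, hC1, b1⟩ := row_bd
  obtain ⟨C2, hC2, b2⟩ := PBQ1.fSd_bound (a := 9 / 20 * NUP1.l) (b := 31 / 20 * NUP1.l)
    (by positivity) (by rw [hlM]; linarith)
  have key : ∀ {k : ℕ} (w : Fin k → ℂ) (F : ℂ → ℂ) (u : ℂ),
      (∀ i, ‖F (u - w i - NUP1.l)‖ ≤ C1) → ‖∑ i, F (u - NUP1.l - w i)‖ ≤ k * C1 := by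
    intro k w F u hF
    have hi : ∀ i ∈ Finset.univ, ‖F (u - NUP1.l - w i)‖ ≤ C1 := by
      intro i _
      have e : u - NUP1.l - w i = u - w i - NUP1.l := by ring
      rw [e]
      exact hF i
    refine (norm_sum_le _ _).trans ((Finset.sum_le_sum hi).trans (le_of_eq ?_))
    rw [Finset.sum_const, Finset.card_univ, Fintype.card_fin, nsmul_eq_mul]
  refine ⟨(m * C1 + M * C1) + KL β s + C2, fun u hu => ?_⟩
  unfold LZU
  refine (norm_add_le _ _).trans (add_le_add ((norm_add_le _ _).trans (add_le_add ?_ ?_)) ?_)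
  · rw [norm_mul, norm_neg, norm_I, one_mul]
    refine (norm_add_le _ _).trans (add_le_add ?_ ?_)
    · refine key x rowS u fun i => ?_
      obtain ⟨h1, h2⟩ := rowU h.r1 h.x (h.re hu) i
      exact (b1 _ h1 h2).1
    · refine key y rowX u fun i => ?_
      obtain ⟨h1, h2⟩ := rowU h.r1 h.y (h.re hu) i
      exact (b1 _ h1 h2).2
  · refine (cut_main h.adm h.ne (h.strip hu)).2.2.trans ?_
    refine mul_le_of_le_one_right (KL_pos h.adm).le (Real.exp_le_one_iff.2 ?_)
    have := mul_nonneg (κ0_pos h.adm).le (SX_nonneg β (List.ofFn x ++ W) u)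
    linarith
  · rw [norm_mul, norm_neg, norm_I, one_mul]
    unfold PBQ1.lamL
    rw [norm_mul, norm_I, one_mul]
    obtain ⟨h1, h2⟩ := h.leg hu
    exact b2 _ h1 h2

/-- **the splitting of the force** -/
theorem I_LZU (β : ℝ) (x : Fin m → ℂ) (y : Fin M → ℂ) (W : List ℂ) {z : ℂ}
    (h2 : |(z - hr p).im| < NUP1.l) :
    I * LZU β x y W p (NUP1.l + I * z) =
      (∑ i, rowS (I * (z - hr (x i))) + ∑ j, rowX (I * (z - hr (y j)))) +
      PBEI.h00 (z - hr p) + cutI β (List.ofFn x ++ W) z := by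
  rw [← I_legL h2]
  unfold LZU cutI
  have e : ∀ w : ℂ, (NUP1.l : ℂ) + I * z - NUP1.l - w = I * (z - hr w) := by
    intro w
    rw [mul_sub, PBQ1.I_hr]
    ring
  simp_rw [e]
  linear_combination (-((∑ i, rowS (I * (z - hr (x i))) + ∑ j, rowX (I * (z - hr (y j)))) +
    lamL p (NUP1.l + I * z))) * I_mul_I

/-- the standard data: rows and points on the imaginary axis, `β = (4 / 3) (1 - ep)`, `δ = ep / 4` -/
theorem lzOkU_std {ep : ℝ} (h0 : 0 < ep) (h1 : ep ≤ 1 / 100) (hm : 0 < m) (hx : ∀ i, (x i).re = 0)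
    (hy : ∀ i, (y i).re = 0) (hW : ∀ w ∈ W, w.re = 0) (hp : |p.re| ≤ NUP1.l / 2) :
    LZOkU (4 / 3 * (1 - ep)) (3 * NUP1.l / 2 + ep / 2) (ep / 4) 0 x y W p where
  adm := NUP1.adm h0 (by linarith) (by (clear * - h0; linarith)) le_rfl
  m0 := hm
  δ0 := by linarith
  δ1 := by linarith
  r1 := by have := NUP1.Bd.l_pos; linarith
  s1 := by
    have h2 : NUP1.l ≤ 1 := by
      unfold NUP1.l
      linarith [Real.pi_le_four]
    clear * - h0 h1 h2
    nlinarith
  x i := by rw [hx i, abs_zero]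
  y i := by rw [hy i, abs_zero]
  W w hw := by rw [hW w hw, abs_zero]
  p := hp

theorem ks_mono {δ δ' : ℝ} (h : δ ≤ δ') {t : ℝ} (ht : t ∈ Ks δ) : t ∈ Ks δ' :=
  ⟨ht.1, ht.2.trans (mul_le_mul_of_nonneg_right (by linarith) NUP1.Bd.l_pos.le)⟩

end XX

/-! ### the two species -/

section two

open NUMF (Pc vc V)
open Pool.Agent.PB (Kg)
open PBForce (rowS rowX rowD pc keY)
open PBQ1 (hr lamL)
open NUO (Ks)
open Pool.Agent.PLX (rwq XXU RRU)

/-- **the cross force of a row is minus the cross kernel against the sea of the row** -/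
theorem rowX_I {w : ℂ} (h : |w.im| < NUP1.l) : rowX (I * w) = -PB.cG Pc w := by
  have hl := NUP1.Bd.l_pos
  have hlM : NUMF.l = NUP1.l := rfl
  have h0 := PBForce.crossx_0 (z := (w.re : ℂ) * I) (x := (w.im : ℂ))
    (by rw [hlM]; simp [hl]) (by rw [Complex.ofReal_re, hlM]; exact h)
  unfold PBForce.frcXx at h0
  have e1 : (w.re : ℂ) * I - (w.im : ℂ) = I * w := by
    apply Complex.ext <;> simp
  rw [e1] at h0
  rw [eq_neg_of_add_eq_zero_left h0, PB.cG_ln]
  congr 1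
  refine integral_congr_ae ?_
  have hne : ∀ᵐ s : ℝ, s ≠ w.re := by
    rw [ae_iff]
    simp only [ne_eq, not_not, Set.ofPred_eq_eq_singleton, Real.volume_singleton]
  filter_upwards [hne] with s hs
  have e2 : (w.im : ℂ) - s * I = I * (-((s : ℂ) + w.im * I)) := by
    linear_combination (w.im : ℂ) * I_mul_I
  have e3 : (w.re : ℂ) * I - s * I = ((w.re - s : ℝ) : ℂ) * I := by
    push_cast
    ring
  rw [e2, PBQ1.pc_Im (by rw [hlM]; simpa using h), NUMF.Pc_neg, e3,
    PBQ1.keY_I (sub_ne_zero.2 (Ne.symm hs))]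

variable {m : ℕ}

/-- the cross kernel against the sea of the rows -/
theorem cG_rhoH {x : Fin m → ℂ} {z : ℂ} (h : ∀ i, |(z - hr (x i)).im| < NUP1.l) :
    PB.cG (rhoH x) z = -∑ i, rowX (I * (z - hr (x i))) := by
  have hi : ∀ i, Integrable fun u : ℝ => Pc (z - hr (x i) - u) * (Kg u : ℂ) := fun i =>
    PB.cG_ok (Pool.Agent.PB.int_Pc (h i)).1
  have e : ∀ u : ℝ, rhoH x (z - u) * (Kg u : ℂ) = ∑ i, Pc (z - hr (x i) - u) * (Kg u : ℂ) := by
    intro u
    unfold rhoH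
    rw [Finset.sum_mul]
    refine Finset.sum_congr rfl fun i _ => ?_
    rw [show z - u - hr (x i) = z - hr (x i) - u by ring]
  unfold PB.cG
  simp_rw [e]
  rw [integral_finsetSum _ fun i _ => hi i, ← Finset.sum_neg_distrib]
  refine Finset.sum_congr rfl fun i _ => ?_
  rw [rowX_I (h i), neg_neg]
  rfl

theorem rowD_eq (w : ℂ) : rowD w = rowS w + rowX w := by
  unfold PBForce.rowD PBForce.rowS PBForce.rowX
  ring

theorem RRw_RRU {M : ℕ} (c : ℂ) (x : Fin m → ℂ) (y : Fin M → ℂ) : RRw c x y = RRU c x y := by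
  funext u
  rw [RRw_eq]
  rfl

/-- the one body function of a quantum -/
theorem XXU_none {M : ℕ} (c : ℂ) (β : ℝ) (x : Fin m → ℂ) (y : Fin M → ℂ) (W : List ℂ)
    (g0 : ℂ → ℂ) (p : ℂ) (s2 : ℂ → ℂ) :
    XXU c β x y (PBX.gP β W) g0 (PBX.Lg p p) s2 none =
      fun u => RRw c x y u * phi β (List.ofFn x ++ W) u * PBS.Th p u := by
  funext v
  show RRU c x y v * PBX.ph β x (PBX.gP β W) v * PBX.Lg p p v = _
  rw [PBX.ph_gP, Lg_Th, RRw_RRU]

theorem hasDerivAt_XXU {M : ℕ} {β s δ r : ℝ} {x : Fin m → ℂ} {y : Fin M → ℂ} {W : List ℂ} {p : ℂ}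
    (h : LZOkU β s δ r x y W p) (c : ℂ) (g0 s2 : ℂ → ℂ) {u : ℂ} (hu : u.re ∈ Ks δ) :
    HasDerivAt (XXU c β x y (PBX.gP β W) g0 (PBX.Lg p p) s2 none)
      (LZU β x y W p u * XXU c β x y (PBX.gP β W) g0 (PBX.Lg p p) s2 none u) u := by
  rw [XXU_none]
  exact hasDerivAt_U h c hu

variable [Fil]

/-- **the logarithmic derivative** of the one body function of the species `a`, one-fold rows `x` -/
def LZX (a : Bool) (β : ℝ) (x : Fin m → ℂ) (W : List ℂ) (p u : ℂ) : ℂ :=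
  LZU β (rwq x a) (rwq x (!a)) W p u

theorem LZX_eq (a : Bool) (β : ℝ) (x : Fin m → ℂ) (W : List ℂ) (p u : ℂ) : LZX a β x W p u =
    -I * (∑ i, ((Fil.b a : ℂ) * rowS (u - NUP1.l - x i) +
      (Fil.b (!a) : ℂ) * rowX (u - NUP1.l - x i))) +
    cutL β (List.ofFn (rwq x a) ++ W) u + -I * lamL p u := by
  unfold LZX LZU
  rw [Pool.Agent.PLX.sum_rwq_complex (fun w => rowS (u - NUP1.l - w)) x a,
    Pool.Agent.PLX.sum_rwq_complex (fun w => rowX (u - NUP1.l - w)) x (!a),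
    Finset.sum_add_distrib, ← Finset.mul_sum, ← Finset.mul_sum]

/-- hypotheses on rows, cutoff points and legs -/
structure LZOk (β s δ r : ℝ) (x : Fin m → ℂ) (W : List ℂ) (p : ℂ) : Prop where
  adm : Adm β s
  m0 : 0 < m
  δ0 : 0 ≤ δ
  δ1 : δ ≤ 1 / 20
  r1 : r ≤ NUP1.l / 2
  s1 : 3 / 2 * NUP1.l + δ * NUP1.l + r ≤ s
  x : ∀ i, |(x i).re| ≤ r
  W : ∀ w ∈ W, |w.re| ≤ r
  p : |p.re| ≤ NUP1.l / 2

variable {β s δ r : ℝ} {x : Fin m → ℂ} {W : List ℂ} {p : ℂ}

theorem LZOk.toU (h : LZOk β s δ r x W p) (a : Bool) :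
    LZOkU β s δ r (rwq x a) (rwq x (!a)) W p where
  adm := h.adm
  m0 := by
    rw [Pool.Agent.PLX.cond_eq]
    exact Nat.mul_pos (Fil.n_pos a) h.m0
  δ0 := h.δ0
  δ1 := h.δ1
  r1 := h.r1
  s1 := h.s1
  x i := Pool.Agent.PLX.forall_rwq (P := fun w : ℂ => |w.re| ≤ r) h.x a i
  y i := Pool.Agent.PLX.forall_rwq (P := fun w : ℂ => |w.re| ≤ r) h.x (!a) i
  W := h.W
  p := h.p

theorem LZX_meas (a : Bool) (β : ℝ) (x : Fin m → ℂ) (W : List ℂ) (p : ℂ) :
    Measurable (LZX a β x W p) := LZU_meas β (rwq x a) (rwq x (!a)) W p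

/-- **bounded in the strip** -/
theorem LZX_bd (h : LZOk β s δ r x W p) :
    ∃ B : ℝ, ∀ a (u : ℂ), u.re ∈ Ks δ → ‖LZX a β x W p u‖ ≤ B := by
  obtain ⟨B1, h1⟩ := LZU_bd (h.toU true)
  obtain ⟨B2, h2⟩ := LZU_bd (h.toU false)
  refine ⟨max B1 B2, fun a u hu => ?_⟩
  cases a
  · exact (h2 u hu).trans (le_max_right _ _)
  · exact (h1 u hu).trans (le_max_left _ _)

theorem hasDerivAt_XX (h : LZOk β s δ r x W p) (a : Bool) (c : ℂ) (g0 s2 : ℂ → ℂ) {u : ℂ}
    (hu : u.re ∈ Ks δ) : HasDerivAt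
      (XXU c β (rwq x a) (rwq x (!a)) (PBX.gP β W) g0 (PBX.Lg p p) s2 none)
      (LZX a β x W p u *
        XXU c β (rwq x a) (rwq x (!a)) (PBX.gP β W) g0 (PBX.Lg p p) s2 none u) u :=
  hasDerivAt_XXU (h.toU a) c g0 s2 hu

/-- **the splitting of the force**: the force of the seas, the legs, the cutoff -/
theorem I_LZX (a : Bool) (β : ℝ) (W : List ℂ) {z : ℂ} (h1 : ∀ i, |(z - hr (x i)).im| < NUP1.l)
    (h2 : |(z - hr p).im| < NUP1.l) :
    I * LZX a β x W p (NUP1.l + I * z) = PB.kp2 (rhoH x) a z +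
      PBEI.h00 (z - hr p) + cutI β (List.ofFn (rwq x a) ++ W) z := by
  unfold LZX
  rw [I_LZU β (rwq x a) (rwq x (!a)) W h2,
    Pool.Agent.PLX.sum_rwq_complex (fun w => rowS (I * (z - hr w))) x a,
    Pool.Agent.PLX.sum_rwq_complex (fun w => rowX (I * (z - hr w))) x (!a)]
  unfold PB.kp2
  rw [cV_rhoH h1, cG_rhoH h1]
  simp only [rowD_eq, Finset.sum_add_distrib]
  ring

/-- the three statements of `LogD` on the one body functions -/
theorem LogD_XX (h : LZOk β s δ r x W p) (c : Bool → ℂ) (g0 s2 : Bool → ℂ → ℂ) {P : NUO.Par}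
    {LP : (r : ℕ) → (Fin r → NUO.Xo) → Bool → ℂ → ℂ}
    (dP : ∀ r (O : Fin r → NUO.Xo) s (z : ℂ), z.re ∈ Ks δ →
      HasDerivAt (NUP1S.Ab.potC P O s) (LP r O s z * NUP1S.Ab.potC P O s z) z)
    (mP : ∀ r (O : Fin r → NUO.Xo) s, Measurable (LP r O s))
    (bP : ∀ r (O : Fin r → NUO.Xo), ∃ B, ∀ s (z : ℂ), z.re ∈ Ks δ → ‖LP r O s z‖ ≤ B) :
    PBF.PLX.LogD (fun a => XXU (c a) β (rwq x a) (rwq x (!a)) (PBX.gP β W) (g0 a) (PBX.Lg p p)
      (s2 a)) P δ (fun a => LZX a β x W p) LP where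
  dZ a z hz := hasDerivAt_XX h a (c a) (g0 a) (s2 a) hz
  mZ a := LZX_meas a β x W p
  bZ := by
    obtain ⟨B, hB⟩ := LZX_bd h
    exact ⟨B, fun a z hz => hB a z hz⟩
  dP := dP
  mP := mP
  bP := bP

/-- the standard data: rows and points on the imaginary axis, `β = (4 / 3) (1 - ep)`, `δ = ep / 4` -/
theorem lzOk_std {ep : ℝ} (h0 : 0 < ep) (h1 : ep ≤ 1 / 100) (hm : 0 < m) (hx : ∀ i, (x i).re = 0)
    (hW : ∀ w ∈ W, w.re = 0) (hp : |p.re| ≤ NUP1.l / 2) :
    LZOk (4 / 3 * (1 - ep)) (3 * NUP1.l / 2 + ep / 2) (ep / 4) 0 x W p where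
  adm := NUP1.adm h0 (by linarith) (by linarith) le_rfl
  m0 := hm
  δ0 := by linarith
  δ1 := by linarith
  r1 := by have := NUP1.Bd.l_pos; linarith
  s1 := by
    have h2 : NUP1.l ≤ 1 := by
      unfold NUP1.l
      linarith [Real.pi_le_four]
    nlinarith
  x i := by rw [hx i, abs_zero]
  W w hw := by rw [hW w hw, abs_zero]
  p := hp

end two

end PBLZ.PLX

end
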