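import Pool.Agent.PLX.Ns
import Pool.Agent.PLX.PB.BCs
import Pool.Agent.PLX.PB.Conf
import Pool.Agent.PLX.PB.WardFy
import Pool.Agent.PB.CovW

/-!
# The interface of the Ward identities (helper70; the last section of `PB/UBN`, plain port)

`MBd`: moment bounds on the configuration space; `pinI`, `cnI`, `M2.rescale`, `M2.of_pos`, `L1.of_pos`.
-/

set_option autoImplicit false
set_option linter.unusedSectionVars false

noncomputable section

open Complex MeasureTheory Finset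
open scoped ENNReal
open PLX (Fil)

namespace PBU.PLX

open NUO NUP1 NUP1S NUP1S.Ab NUP1S.AbC NUGC NUGC.PLX PBF PBF.PLX PBFunc PBFunc.PLX

theorem M2.rescale {Ω : Type*} [MeasurableSpace Ω] {μ : Measure Ω} {w A : Ω → ℂ} {K a b : ℝ}
    (h : M2 μ w K A (b * a)) : M2 μ w (b ^ 2 * K) A a := by
  unfold M2 at h ⊢
  refine h.trans (le_of_eq ?_)
  congr 1
  ring

/-- sizes `0 ≤ M` from sizes `0 < M` -/
theorem M2.of_pos {Ω : Type*} [MeasurableSpace Ω] {μ : Measure Ω} {w A : Ω → ℂ} {K M : ℝ}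
    (h : ∀ M' > M, M2 μ w K A M') : M2 μ w K A M := by
  unfold M2 at h ⊢
  have h1 : Filter.Tendsto (fun x : ℝ => ENNReal.ofReal (x ^ 2 * K)) (nhdsWithin M (Set.Ioi M))
      (nhds (ENNReal.ofReal (M ^ 2 * K))) := by
    refine ENNReal.tendsto_ofReal (Filter.Tendsto.mono_left ?_ nhdsWithin_le_nhds)
    exact (Continuous.tendsto (by fun_prop) M)
  exact ge_of_tendsto h1 (Filter.eventually_of_mem self_mem_nhdsWithin fun x hx => h x hx)

theorem L1.of_pos {Ω : Type*} [MeasurableSpace Ω] {μ : Measure Ω} {w A : Ω → ℂ} {M d : ℝ}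
    (h : ∀ M' > M, L1 μ w A (M' * d)) : L1 μ w A (M * d) := by
  unfold L1 at h ⊢
  have h1 : Filter.Tendsto (fun x : ℝ => ENNReal.ofReal (x * d)) (nhdsWithin M (Set.Ioi M))
      (nhds (ENNReal.ofReal (M * d))) := by
    refine ENNReal.tendsto_ofReal (Filter.Tendsto.mono_left ?_ nhdsWithin_le_nhds)
    exact (Continuous.tendsto (by fun_prop) M)
  exact ge_of_tendsto h1 (Filter.eventually_of_mem self_mem_nhdsWithin fun x hx => h x hx)

/-- the sum of the weights of the pins -/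
def pinI (q : ℝ) : Ins := fun r O _ _ _ => ((∑ j : Fin r, Real.exp (-(q * |ht (O j)|)) : ℝ) : ℂ)

/-- the number of objects plus one -/
def cnI : Ins := fun r _ _ _ _ => (r : ℂ) + 1

theorem MIn.pinI (q : ℝ) : MIn (pinI q) := fun r a b => by
  unfold PBU.PLX.pinI
  have h : Measurable fun p : (Fin r → Xo) × ((Fin a → ℝ) × (Fin b → ℝ)) =>
      ∑ j : Fin r, Real.exp (-(q * |ht (p.1 j)|)) := by
    refine Finset.measurable_sum _ fun j _ => ?_
    have h1 : Measurable fun p : (Fin r → Xo) × ((Fin a → ℝ) × (Fin b → ℝ)) => ht (p.1 j) := by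
      exact measurable_fst.comp (measurable_snd.comp
        ((measurable_pi_apply (X := fun _ : Fin r => Xo) j).comp measurable_fst))
    exact (h1.abs.const_mul q).neg.exp
  exact Complex.measurable_ofReal.comp h

theorem MIn.cnI : MIn cnI := fun _ _ _ => measurable_const

variable [Fil]

/-- **moment bounds on the configuration space**: one statistic and the number of objects in `L²`
(constant `K`), pinned objects in `L¹` (constant `dp`); the test functions may depend on the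
objects -/
structure MBd (N : ℕ) (Z : ℕ → Bool → Option O3 → ℂ → ℂ) (P : ℕ → NUO.Par) (η η' : ℕ → Crs)
    (c : ℕ → ℂ) (ρ : ℂ → ℂ) (y₁ y₂ K q dp : ℝ) : Prop where
  one : M2 (mN N) (wN Z P N η η' c) K (evN fun _ => cnI) 1
  vy : ∀ (M : ℝ) (g : (r : ℕ) → (Fin r → Xo) → Bool → ℂ → ℂ), 0 ≤ M →
    (∀ r O s, BC y₁ y₂ M (g r O s)) →
    (∀ n ≤ N, MIn fun r O a b x => Vy 0 (η n) ρ (g r O) r O a b x) →
    M2 (mN N) (wN Z P N η η' c) K
      (evN fun n r O a b x => ((r : ℂ) + 1) * Vy 0 (η n) ρ (g r O) r O a b x) M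
  pin : L1 (mN N) (wN Z P N η η' c)
    (evN fun _ r O a b x => ((r : ℂ) + 1) * pinI q r O a b x) dp
  pinv : ∀ (M : ℝ) (g : (r : ℕ) → (Fin r → Xo) → Bool → ℂ → ℂ), 0 ≤ M →
    (∀ r O s, BC y₁ y₂ M (g r O s)) →
    (∀ n ≤ N, MIn fun r O a b x => Vy 0 (η n) ρ (g r O) r O a b x) →
    L1 (mN N) (wN Z P N η η' c)
      (evN fun n r O a b x =>
        (((r : ℂ) + 1) * pinI q r O a b x) * Vy 0 (η n) ρ (g r O) r O a b x) (M * dp)

theorem norm_cn (r : ℕ) : ‖(r : ℂ) + 1‖ = (r : ℝ) + 1 := by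
  have : (r : ℂ) + 1 = (((r : ℝ) + 1 : ℝ) : ℂ) := by push_cast; ring
  rw [this, Complex.norm_real, Real.norm_of_nonneg (by positivity)]

theorem norm_pinI (q : ℝ) (r : ℕ) (O : Fin r → Xo) (a b : ℕ) (x : (Fin a → ℝ) × (Fin b → ℝ)) :
    ‖pinI q r O a b x‖ = ∑ j : Fin r, Real.exp (-(q * |ht (O j)|)) := by
  unfold pinI
  rw [Complex.norm_real, Real.norm_of_nonneg (Finset.sum_nonneg fun j _ => (Real.exp_pos _).le)]

end PBU.PLX

end
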