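import Pool.Agent.PLX.Ns
import Pool.Agent.PLX.PB.UProps
import Pool.Agent.PLX.PB.Conf
import Pool.Agent.PB.CovW
import Pool.Agent.PLX.PB.WardCf
import Pool.Agent.PLX.PB.MBd

/-!
# Plan B: U1, U3, U4 on the configuration space (helper79)

50's `UB` (functional `FS`, statistics `nu1`, `nuE`, weights `OW`) in the notation of `PB/Conf`
(`mN`, `wN`, `evN`) and `PB/WardFy` (`Vy`), with 77's `L1`, `M2`.

* `wF F ep e1 J m i`: the weight of the family on `CfN (F.top m)`;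
* `lint_wF`: `∫ ‖w‖ ‖evN Ψ‖ ≤ FS φ` for `‖Ψ‖ ≤ φ`; `WI_wF`;
* `enorm_Vy_le`: `Vy 0` is the sum of two statistics `nu1`;
* **`UB.l1`**, **`UB.m2`**: first and second moments of everything that is at most
  `w(O) ∏_j ‖Vy (g_j)‖`;
* `OWs`: square weights; `OWs.one`, `OWs.pow`, `OWs.pin`;
* `MBd`, **`UB.mbd`**: the interface of the Ward identities (13, 38); `UB.m4` four statistics.
-/

set_option autoImplicit false
set_option linter.unusedSectionVars false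

noncomputable section

open Complex MeasureTheory Finset
open scoped ENNReal
open PLX (Fil)

namespace PBU.PLX

open NUO NUP1 NUP1S NUP1S.Ab NUP1S.AbC NUGC NUGC.PLX PBF PBF.PLX PBP PBP.PLX PBFunc PBFunc.PLX

variable [Fil] [NUSea.Sea] {ι : Type} {F : Fam ι} {ep e1 J : ℝ} {m : ℕ} {i : ι}

/-- **the weight of a family on the configuration space** -/
abbrev wF (F : Fam ι) (ep e1 J : ℝ) (m : ℕ) (i : ι) : CfN (F.top m) → ℂ :=
  wN (fun _ => F.Z ep m i) (fun _ => NUSea.PLX.O.par0 m) (F.top m) (fun _ => cr e1 J m)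
    (fun _ => cr' e1 J m) (fun _ => F.Pf m i)

/-- the sum of the moduli is the functional `FS` -/
theorem FAN_wF (Ψ : ℕ → Ins) :
    FAN (fun _ => F.Z ep m i) (fun _ => NUSea.PLX.O.par0 m) (F.top m) (fun _ => cr e1 J m)
      (fun _ => cr' e1 J m) (fun _ => F.Pf m i) Ψ =
    ∑ n ∈ range (F.top m + 1), ‖F.Pf m i‖ₑ * FE (F.Z ep m i) (NUSea.PLX.O.par0 m) n
      (n + dN (F.top m)) (cr e1 J m) (cr' e1 J m) fun r O a b x => ‖Ψ n r O a b x‖ₑ := by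
  unfold FAN
  refine Finset.sum_congr rfl fun n _ => ?_
  rw [← FA_eq_FE]

/-- **the integral on the configuration space** -/
theorem lint_wF (h : MC (F.Z ep m i) (NUSea.PLX.O.par0 m) (cr e1 J m) (cr' e1 J m)) {Ψ : ℕ → Ins}
    (hΨ : ∀ n ≤ F.top m, MIn (Ψ n)) {φ : InsE}
    (hφ : ∀ n ≤ F.top m, ∀ r O a b x, ‖Ψ n r O a b x‖ₑ ≤ φ r O a b x) :
    ∫⁻ x, ‖wF F ep e1 J m i x‖ₑ * ‖evN Ψ x‖ₑ ∂(mN (F.top m)) ≤
      FS F ep e1 J m i (fun _ => 1) φ := by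
  rw [← FAN_eq (fun n _ => h) hΨ, FAN_wF]
  unfold FS
  refine Finset.sum_le_sum fun n hn => ?_
  rw [one_mul]
  exact mul_le_mul' le_rfl (FE_mono fun r O a b x =>
    hφ n (by have := Finset.mem_range.1 hn; omega) r O a b x)

/-- integrability -/
theorem WI_wF (h : MC (F.Z ep m i) (NUSea.PLX.O.par0 m) (cr e1 J m) (cr' e1 J m)) {Ψ : ℕ → Ins}
    (hΨ : ∀ n ≤ F.top m, MIn (Ψ n)) {φ : InsE}
    (hφ : ∀ n ≤ F.top m, ∀ r O a b x, ‖Ψ n r O a b x‖ₑ ≤ φ r O a b x)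
    (hf : FS F ep e1 J m i (fun _ => 1) φ < ⊤) :
    WI (mN (F.top m)) (wF F ep e1 J m i) (evN Ψ) := by
  refine WIN_of (fun n _ => h) hΨ ?_
  rw [FAN_eq (fun n _ => h) hΨ]
  exact (lint_wF h hΨ hφ).trans_lt hf

/-! ### linear statistics -/

/-- **the linear statistic is the sum of the statistics of the two species** -/
theorem Vy_eq (ρ : ℂ → ℂ) (g : Bool → ℂ → ℂ) (r : ℕ) (O : Fin r → Xo) (a b : ℕ)
    (x : (Fin a → ℝ) × (Fin b → ℝ)) :
    Vy 0 (cr e1 J m) ρ g r O a b x = nu1 (fun t => ρ t) (etaC e1 J m m) true (g true) x +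
      nu1 (fun t => ρ t) (etaC e1 J m m) false (g false) x := by
  unfold Vy PB.NX.nuL nu1
  rw [Fintype.sum_sum_type, Fintype.sum_bool]
  simp only [if_true, if_false, Bool.false_eq_true]
  have e1 : ∀ k : Fin a ⊕ Fin b, zqy 0 (cr e1 J m) r O x k =
      hq (Fil.cv (spQ a b k) (etaC e1 J m m)) (Sum.elim x.1 x.2 k) := by
    intro k
    unfold zqy zy zc hq cr
    simp
  simp only [e1, Sum.elim_inl, Sum.elim_inr]
  have e2 : ∀ s, ∫ u : ℝ, PB.rS2 ρ s u * g s (PB.eR u) = Fil.b s * ∫ u : ℝ, ρ u * g s u := by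
    intro s
    rw [← integral_const_mul]
    refine integral_congr_ae (Filter.Eventually.of_forall fun u => ?_)
    simp only [PB.rS2, PB.eR]
    ring
  rw [e2, e2]
  have e3 : ∀ k : Fin a, spQ a b (Sum.inl k) = true := fun _ => rfl
  have e4 : ∀ k : Fin b, spQ a b (Sum.inr k) = false := fun _ => rfl
  simp only [e3, e4]
  ring

theorem enorm_Vy_le (ρ : ℂ → ℂ) (g : Bool → ℂ → ℂ) (r : ℕ) (O : Fin r → Xo) (a b : ℕ)
    (x : (Fin a → ℝ) × (Fin b → ℝ)) :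
    ‖Vy 0 (cr e1 J m) ρ g r O a b x‖ₑ ≤
      ‖nu1 (fun t => ρ t) (etaC e1 J m m) true (g true) x‖ₑ +
        ‖nu1 (fun t => ρ t) (etaC e1 J m m) false (g false) x‖ₑ := by
  rw [Vy_eq]
  exact enorm_add_le _ _

/-- the statistic of a test function of size `M`, against the normalised one -/
theorem enorm_Vy_nuE {M : ℝ} (hM : 0 < M) (ρ : ℂ → ℂ) (g : Bool → ℂ → ℂ) (r : ℕ)
    (O : Fin r → Xo) (a b : ℕ) (x : (Fin a → ℝ) × (Fin b → ℝ)) :
    ‖Vy 0 (cr e1 J m) ρ g r O a b x‖ₑ ≤ ENNReal.ofReal M *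
      nuE (fun t => ρ t) (etaC e1 J m m) (fun z => ((M : ℂ)⁻¹) * g true z)
        (fun z => ((M : ℂ)⁻¹) * g false z) x := by
  have hMc : ((M : ℝ) : ℂ) ≠ 0 := by exact_mod_cast hM.ne'
  have e : ∀ (s : Bool) (f : ℂ → ℂ), nu1 (fun t => ρ t) (etaC e1 J m m) s f x =
      (M : ℂ) * nu1 (fun t => ρ t) (etaC e1 J m m) s (fun z => ((M : ℂ)⁻¹) * f z) x := by
    intro s f
    rw [nu1_smul, ← mul_assoc, mul_inv_cancel₀ hMc, one_mul]
  have hn : ‖((M : ℝ) : ℂ)‖ₑ = ENNReal.ofReal M := by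
    rw [← ofReal_norm, Complex.norm_real, Real.norm_of_nonneg hM.le]
  refine (enorm_Vy_le ρ g r O a b x).trans ?_
  rw [e true, e false, enorm_mul, enorm_mul, hn, ← mul_add]
  refine mul_le_mul' le_rfl ?_
  unfold nuE
  rw [add_assoc]
  exact le_add_self

/-- the same for the statistic of `WardFF` -/
theorem Vst_eq (ρ : ℂ → ℂ) (g : Bool → ℂ → ℂ) (r : ℕ) (O : Fin r → Xo) (a b : ℕ)
    (x : (Fin a → ℝ) × (Fin b → ℝ)) :
    Vst (cr e1 J m) ρ g r O a b x = Vy 0 (cr e1 J m) ρ g r O a b x := by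
  unfold Vst Vy
  congr 1
  funext k
  unfold zq zqy zy
  simp

/-! ### products of statistics -/

theorem zero_BC (y₁ y₂ : ℝ) : BC y₁ y₂ 1 fun _ => 0 :=
  ⟨differentiableOn_const 0, fun _ _ => by simp⟩

/-- more factors make the product larger -/
theorem prod_nuE_le {q s : ℕ} (ρ : ℝ → ℂ) (η : ℝ → ℝ) (A A' : Fin q → ℂ → ℂ)
    (B B' : Fin s → ℂ → ℂ) {a b : ℕ} (x : (Fin a → ℝ) × (Fin b → ℝ)) :
    (∏ j, nuE ρ η (A j) (A' j) x) * (∏ j, nuE ρ η (B j) (B' j) x) =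
      ∏ j, nuE ρ η (Fin.append A B j) (Fin.append A' B' j) x := by
  rw [Fin.prod_univ_add]
  simp only [Fin.append_left, Fin.append_right]

theorem one_le_prod_nuE {q : ℕ} (ρ : ℝ → ℂ) (η : ℝ → ℝ) (A A' : Fin q → ℂ → ℂ) {a b : ℕ}
    (x : (Fin a → ℝ) × (Fin b → ℝ)) : 1 ≤ ∏ j, nuE ρ η (A j) (A' j) x :=
  Finset.one_le_prod' fun _ _ => one_le_nuE _ _ _ _ _

theorem BC_append {y₁ y₂ : ℝ} {q s : ℕ} {A : Fin q → ℂ → ℂ} {B : Fin s → ℂ → ℂ}
    (hA : ∀ j, BC y₁ y₂ 1 (A j)) (hB : ∀ j, BC y₁ y₂ 1 (B j)) (j : Fin (q + s)) :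
    BC y₁ y₂ 1 (Fin.append A B j) := by
  refine Fin.addCases (fun i => ?_) (fun i => ?_) j
  · rw [Fin.append_left]
    exact hA i
  · rw [Fin.append_right]
    exact hB i

/-- the test functions divided by their sizes -/
def nrm {q : ℕ} (M : Fin q → ℝ) (g : Fin q → Bool → ℂ → ℂ) (s : Bool) (j : Fin q) (z : ℂ) : ℂ :=
  ((M j : ℂ)⁻¹) * g j s z

theorem prod_Vy_le {q : ℕ} {M : Fin q → ℝ} (hM : ∀ j, 0 < M j) (ρ : ℂ → ℂ)
    (g : Fin q → Bool → ℂ → ℂ) (r : ℕ) (O : Fin r → Xo) (a b : ℕ)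
    (x : (Fin a → ℝ) × (Fin b → ℝ)) :
    ∏ j, ‖Vy 0 (cr e1 J m) ρ (g j) r O a b x‖ₑ ≤ ENNReal.ofReal (∏ j, M j) *
      ∏ j, nuE (fun t => ρ t) (etaC e1 J m m) (nrm M g true j) (nrm M g false j) x := by
  rw [ENNReal.ofReal_prod_of_nonneg fun j _ => (hM j).le, ← Finset.prod_mul_distrib]
  exact Finset.prod_le_prod' fun j _ => enorm_Vy_nuE (hM j) ρ (g j) r O a b x

variable {p : ℕ} {K ε : ℝ}

/-- **products of at most `p` statistics** -/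
theorem UB.fs (h : UB F ep e1 J p K ε) (C0 y₁ y₂ : ℝ) (h1 : y₁ < 0) (h2 : 0 < y₂) :
    ∃ m0 : ℕ, ∀ m ≥ m0, ∀ i : ι, F.ok m i → ∀ ρ : ℂ → ℂ, DN C0 m (fun t : ℝ => ρ t) →
    ∀ (q : ℕ), q ≤ p → ∀ M : Fin q → ℝ, (∀ j, 0 < M j) →
    ∀ g : (r : ℕ) → (Fin r → Xo) → Fin q → Bool → ℂ → ℂ,
      (∀ r O j s, BC y₁ y₂ (M j) (g r O j s)) →
    ∀ B : ℝ, 0 ≤ B → ∀ w : (r : ℕ) → (Fin r → Xo) → ℝ, OW e1 K B m w →
      FS F ep e1 J m i (fun _ => 1) (fun r O a b x => ENNReal.ofReal (w r O) *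
          ∏ j, ‖Vy 0 (cr e1 J m) ρ (g r O j) r O a b x‖ₑ) ≤
      ENNReal.ofReal (B * (∏ j, M j) * ((m : ℝ) ^ ε * F.bd m i)) := by
  obtain ⟨m0, h0⟩ := h C0 y₁ y₂ h1 h2
  refine ⟨m0, fun m hm i hi ρ hρ q hq M hM g hg B hB w hw => ?_⟩
  obtain ⟨s, rfl⟩ := Nat.exists_eq_add_of_le hq
  have hn : ∀ r O s' j, BC y₁ y₂ 1 (nrm M (g r O) s' j) := fun r O s' j =>
    (hg r O j s').normed (hM j)
  have key := h0 m hm i hi _ hρ B hB w hw
    (fun r O => Fin.append (nrm M (g r O) true) (fun (_ : Fin s) _ => 0))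
    (fun r O => Fin.append (nrm M (g r O) false) (fun (_ : Fin s) _ => 0))
    (fun r O j => ⟨BC_append (hn r O true) (fun _ => zero_BC _ _) j,
      BC_append (hn r O false) (fun _ => zero_BC _ _) j⟩)
  have hP : 0 ≤ ∏ j, M j := Finset.prod_nonneg fun j _ => (hM j).le
  refine (FS_mono (fun _ => le_rfl) fun r O a b x => ?_).trans
    ((FS_const_mul (c := ENNReal.ofReal (∏ j, M j)) ENNReal.ofReal_ne_top _).le.trans
      ((mul_le_mul' le_rfl key).trans ?_))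
  · rw [← prod_nuE_le]
    calc _ ≤ ENNReal.ofReal (w r O) * (ENNReal.ofReal (∏ j, M j) *
          ∏ j, nuE (fun t => ρ t) (etaC e1 J m m) (nrm M (g r O) true j)
            (nrm M (g r O) false j) x) := mul_le_mul' le_rfl (prod_Vy_le hM ρ (g r O) r O a b x)
      _ = ENNReal.ofReal (∏ j, M j) * (ENNReal.ofReal (w r O) *
          ((∏ j, nuE (fun t => ρ t) (etaC e1 J m m) (nrm M (g r O) true j)
            (nrm M (g r O) false j) x) * 1)) := by ring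
      _ ≤ _ := mul_le_mul' le_rfl (mul_le_mul' le_rfl (mul_le_mul' le_rfl
          (one_le_prod_nuE _ _ _ _ x)))
  · rw [← ENNReal.ofReal_mul hP]
    exact ENNReal.ofReal_le_ofReal (le_of_eq (by ring))

/-- **squares of products of at most `p / 2` statistics** -/
theorem UB.fs2 (h : UB F ep e1 J p K ε) (C0 y₁ y₂ : ℝ) (h1 : y₁ < 0) (h2 : 0 < y₂) :
    ∃ m0 : ℕ, ∀ m ≥ m0, ∀ i : ι, F.ok m i → ∀ ρ : ℂ → ℂ, DN C0 m (fun t : ℝ => ρ t) →
    ∀ (q : ℕ), 2 * q ≤ p → ∀ M : Fin q → ℝ, (∀ j, 0 < M j) →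
    ∀ g : (r : ℕ) → (Fin r → Xo) → Fin q → Bool → ℂ → ℂ,
      (∀ r O j s, BC y₁ y₂ (M j) (g r O j s)) →
    ∀ B : ℝ, 0 ≤ B → ∀ w : (r : ℕ) → (Fin r → Xo) → ℝ, OW e1 K (B ^ 2) m (fun r O => w r O ^ 2) →
      FS F ep e1 J m i (fun _ => 1) (fun r O a b x => ENNReal.ofReal (w r O ^ 2) *
          (∏ j, ‖Vy 0 (cr e1 J m) ρ (g r O j) r O a b x‖ₑ) ^ 2) ≤
      ENNReal.ofReal ((B * ∏ j, M j) ^ 2 * ((m : ℝ) ^ ε * F.bd m i)) := by
  obtain ⟨m0, h0⟩ := h C0 y₁ y₂ h1 h2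
  refine ⟨m0, fun m hm i hi ρ hρ q hq M hM g hg B hB w hw => ?_⟩
  obtain ⟨s, rfl⟩ : ∃ s, p = q + (q + s) := ⟨p - 2 * q, by omega⟩
  have hn : ∀ r O s' j, BC y₁ y₂ 1 (nrm M (g r O) s' j) := fun r O s' j =>
    (hg r O j s').normed (hM j)
  have key := h0 m hm i hi _ hρ (B ^ 2) (by positivity) _ hw
    (fun r O => Fin.append (nrm M (g r O) true)
      (Fin.append (nrm M (g r O) true) (fun (_ : Fin s) _ => 0)))
    (fun r O => Fin.append (nrm M (g r O) false)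
      (Fin.append (nrm M (g r O) false) (fun (_ : Fin s) _ => 0)))
    (fun r O j => ⟨BC_append (hn r O true) (BC_append (hn r O true) fun _ => zero_BC _ _) j,
      BC_append (hn r O false) (BC_append (hn r O false) fun _ => zero_BC _ _) j⟩)
  have hP : 0 ≤ ∏ j, M j := Finset.prod_nonneg fun j _ => (hM j).le
  refine (FS_mono (fun _ => le_rfl) fun r O a b x => ?_).trans
    ((FS_const_mul (c := ENNReal.ofReal ((∏ j, M j) ^ 2)) ENNReal.ofReal_ne_top _).le.trans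
      ((mul_le_mul' le_rfl key).trans ?_))
  · rw [← prod_nuE_le, ← prod_nuE_le]
    obtain ⟨N, hN⟩ : ∃ N, N = ∏ j, nuE (fun t => ρ t) (etaC e1 J m m) (nrm M (g r O) true j)
      (nrm M (g r O) false j) x := ⟨_, rfl⟩
    have h3 := prod_Vy_le (e1 := e1) (J := J) (m := m) hM ρ (g r O) r O a b x
    rw [← hN] at h3 ⊢
    calc _ ≤ ENNReal.ofReal (w r O ^ 2) * (ENNReal.ofReal (∏ j, M j) * N) ^ 2 :=
          mul_le_mul' le_rfl (pow_le_pow_left' h3 2)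
      _ = ENNReal.ofReal ((∏ j, M j) ^ 2) * (ENNReal.ofReal (w r O ^ 2) * (N * (N * 1))) := by
          rw [ENNReal.ofReal_pow hP]
          ring
      _ ≤ _ := mul_le_mul' le_rfl (mul_le_mul' le_rfl (mul_le_mul' le_rfl (mul_le_mul' le_rfl
          (one_le_prod_nuE _ _ _ _ x))))
  · rw [← ENNReal.ofReal_mul (by positivity)]
    exact ENNReal.ofReal_le_ofReal (le_of_eq (by ring))

/-- **first moments** of everything that is at most `w(O) ∏_j ‖Vy (g_j)‖` -/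
theorem UB.l1 (h : UB F ep e1 J p K ε) (C0 y₁ y₂ : ℝ) (h1 : y₁ < 0) (h2 : 0 < y₂) :
    ∃ m0 : ℕ, ∀ m ≥ m0, ∀ i : ι, F.ok m i →
    MC (F.Z ep m i) (NUSea.PLX.O.par0 m) (cr e1 J m) (cr' e1 J m) →
    ∀ ρ : ℂ → ℂ, DN C0 m (fun t : ℝ => ρ t) →
    ∀ (q : ℕ), q ≤ p → ∀ M : Fin q → ℝ, (∀ j, 0 < M j) →
    ∀ g : (r : ℕ) → (Fin r → Xo) → Fin q → Bool → ℂ → ℂ,
      (∀ r O j s, BC y₁ y₂ (M j) (g r O j s)) →
    ∀ B : ℝ, 0 ≤ B → ∀ w : (r : ℕ) → (Fin r → Xo) → ℝ, OW e1 K B m w →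
    ∀ Ψ : ℕ → Ins, (∀ n ≤ F.top m, MIn (Ψ n)) → (∀ n ≤ F.top m, ∀ r O a b x,
      ‖Ψ n r O a b x‖ ≤ w r O * ∏ j, ‖Vy 0 (cr e1 J m) ρ (g r O j) r O a b x‖) →
      L1 (mN (F.top m)) (wF F ep e1 J m i) (evN Ψ)
        (B * (∏ j, M j) * ((m : ℝ) ^ ε * F.bd m i)) := by
  obtain ⟨m0, h0⟩ := h.fs C0 y₁ y₂ h1 h2
  refine ⟨m0, fun m hm i hi hMC ρ hρ q hq M hM g hg B hB w hw Ψ hΨ hle => ?_⟩
  have key := h0 m hm i hi ρ hρ q hq M hM g hg B hB w hw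
  refine le_trans (le_of_eq ?_) ((lint_wF hMC hΨ fun n hn r O a b x => ?_).trans key)
  · refine lintegral_congr fun x => ?_
    rw [ENNReal.ofReal_mul (norm_nonneg _), ofReal_norm, ofReal_norm]
  · rw [← ofReal_norm]
    refine (ENNReal.ofReal_le_ofReal (hle n hn r O a b x)).trans (le_of_eq ?_)
    rw [ENNReal.ofReal_mul' (Finset.prod_nonneg fun j _ => norm_nonneg _),
      ENNReal.ofReal_prod_of_nonneg fun j _ => norm_nonneg _]
    simp only [ofReal_norm]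

/-- **second moments** of everything that is at most `w(O) ∏_j ‖Vy (g_j)‖` -/
theorem UB.m2 (h : UB F ep e1 J p K ε) (C0 y₁ y₂ : ℝ) (h1 : y₁ < 0) (h2 : 0 < y₂) :
    ∃ m0 : ℕ, ∀ m ≥ m0, ∀ i : ι, F.ok m i →
    MC (F.Z ep m i) (NUSea.PLX.O.par0 m) (cr e1 J m) (cr' e1 J m) →
    ∀ ρ : ℂ → ℂ, DN C0 m (fun t : ℝ => ρ t) →
    ∀ (q : ℕ), 2 * q ≤ p → ∀ M : Fin q → ℝ, (∀ j, 0 < M j) →
    ∀ g : (r : ℕ) → (Fin r → Xo) → Fin q → Bool → ℂ → ℂ,
      (∀ r O j s, BC y₁ y₂ (M j) (g r O j s)) →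
    ∀ B : ℝ, 0 ≤ B → ∀ w : (r : ℕ) → (Fin r → Xo) → ℝ, OW e1 K (B ^ 2) m (fun r O => w r O ^ 2) →
    ∀ Ψ : ℕ → Ins, (∀ n ≤ F.top m, MIn (Ψ n)) → (∀ n ≤ F.top m, ∀ r O a b x,
      ‖Ψ n r O a b x‖ ≤ w r O * ∏ j, ‖Vy 0 (cr e1 J m) ρ (g r O j) r O a b x‖) →
      M2 (mN (F.top m)) (wF F ep e1 J m i) ((m : ℝ) ^ ε * F.bd m i) (evN Ψ)
        (B * ∏ j, M j) := by
  obtain ⟨m0, h0⟩ := h.fs2 C0 y₁ y₂ h1 h2
  refine ⟨m0, fun m hm i hi hMC ρ hρ q hq M hM g hg B hB w hw Ψ hΨ hle => ?_⟩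
  have key := h0 m hm i hi ρ hρ q hq M hM g hg B hB w hw
  have hΨ2 : ∀ n ≤ F.top m, MIn fun r O a b x => Ψ n r O a b x * Ψ n r O a b x := fun n hn =>
    (hΨ n hn).mul' (hΨ n hn)
  refine le_trans (le_of_eq ?_) ((lint_wF (Ψ := fun n r O a b x => Ψ n r O a b x * Ψ n r O a b x)
    hMC hΨ2 fun n hn r O a b x => ?_).trans key)
  · refine lintegral_congr fun x => ?_
    rw [ENNReal.ofReal_mul (norm_nonneg _), ofReal_norm]
    congr 1
    show _ = ‖evN Ψ x * evN Ψ x‖ₑ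
    rw [enorm_mul, ← ofReal_norm, ← ENNReal.ofReal_mul (norm_nonneg _), ← pow_two]
  · have h3 : ‖Ψ n r O a b x‖ₑ ^ 2 ≤ ENNReal.ofReal (w r O ^ 2) *
        (∏ j, ‖Vy 0 (cr e1 J m) ρ (g r O j) r O a b x‖ₑ) ^ 2 := by
      have h4 := hle n hn r O a b x
      have h5 : 0 ≤ ∏ j, ‖Vy 0 (cr e1 J m) ρ (g r O j) r O a b x‖ :=
        Finset.prod_nonneg fun j _ => norm_nonneg _
      have h6 : ∏ j, ‖Vy 0 (cr e1 J m) ρ (g r O j) r O a b x‖ₑ =
          ENNReal.ofReal (∏ j, ‖Vy 0 (cr e1 J m) ρ (g r O j) r O a b x‖) := by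
        rw [ENNReal.ofReal_prod_of_nonneg fun j _ => norm_nonneg _]
        simp only [ofReal_norm]
      rw [h6, ← ENNReal.ofReal_pow h5, ← ENNReal.ofReal_mul (by positivity), ← mul_pow,
        ← ofReal_norm, ← ENNReal.ofReal_pow (norm_nonneg _)]
      exact ENNReal.ofReal_le_ofReal (pow_le_pow_left₀ (norm_nonneg _) h4 2)
    rw [enorm_mul, ← pow_two]
    exact h3


/-! ### equalities for one insertion -/

/-! ### square weights -/

/-- weights whose squares are admissible -/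
abbrev OWs (e1 K B : ℝ) (m : ℕ) (w : (r : ℕ) → (Fin r → Xo) → ℝ) : Prop :=
  OW e1 K (B ^ 2) m fun r O => w r O ^ 2

/-- a smaller weight, larger constants -/
theorem OWs.mono {K K' B B' : ℝ} {w w' : (r : ℕ) → (Fin r → Xo) → ℝ} (h : OWs e1 K B m w)
    (hw : ∀ r O, |w' r O| ≤ w r O) (hK : 0 ≤ K) (hKK : K ≤ K') (hB : 0 ≤ B) (hBB : B ≤ B') :
    OWs e1 K' B' m w' := fun r O => by
  have h1 := OW.mono h hK hKK (by positivity) (pow_le_pow_left₀ hB hBB 2) r O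
  refine le_trans ?_ h1
  show w' r O ^ 2 ≤ w r O ^ 2
  rw [← sq_abs (w' r O)]
  exact pow_le_pow_left₀ (abs_nonneg _) (hw r O) 2

/-- a power of the number of objects, exact constant -/
theorem OWs.pow_sqrt (a m : ℕ) : OWs e1 3 (Real.sqrt (3 * (2 * a).factorial)) m
    fun r _ => ((r : ℝ) + 1) ^ a := fun r O => by
  have h := OW.pow (e1 := e1) (2 * a) m r O
  show (((r : ℝ) + 1) ^ a) ^ 2 ≤ _
  rw [Real.sq_sqrt (by positivity), ← pow_mul, mul_comm a 2]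
  exact h

/-! ### the interface of the Ward identities -/

/-- **UB gives the interface** -/
theorem UB.mbd (h : UB F ep e1 J p K ε) (hp : 2 ≤ p) (hK : 6 ≤ K) {q : ℝ} (hq0 : 0 ≤ q)
    (hq : q ≤ 8 / 3) (C0 y₁ y₂ : ℝ) (h1 : y₁ < 0) (h2 : 0 < y₂) :
    ∃ m0 : ℕ, ∀ m ≥ m0, ∀ i : ι, F.ok m i →
    MC (F.Z ep m i) (NUSea.PLX.O.par0 m) (cr e1 J m) (cr' e1 J m) →
    ∀ ρ : ℂ → ℂ, DN C0 m (fun t : ℝ => ρ t) →
      MBd (F.top m) (fun _ => F.Z ep m i) (fun _ => NUSea.PLX.O.par0 m) (fun _ => cr e1 J m)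
        (fun _ => cr' e1 J m) (fun _ => F.Pf m i) ρ y₁ y₂ (6 * ((m : ℝ) ^ ε * F.bd m i)) q
        (3 * (m : ℝ) ^ (-(3 / 8 * q * (1 - 4 * e1))) * ((m : ℝ) ^ ε * F.bd m i)) := by
  obtain ⟨m1, hl1⟩ := h.l1 C0 y₁ y₂ h1 h2
  obtain ⟨m2, hm2⟩ := h.m2 C0 y₁ y₂ h1 h2
  refine ⟨max (max m1 m2) 1, fun m hm i hi hMC ρ hρ => ?_⟩
  have hm1 : m1 ≤ m := by omega
  have hm2' : m2 ≤ m := by omega
  have hm0 : (0 : ℝ) < m := by
    have : 0 < m := by omega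
    exact_mod_cast this
  have hs : Real.sqrt 6 ^ 2 = 6 := Real.sq_sqrt (by norm_num)
  have hw : OWs e1 K (Real.sqrt 6) m fun r _ => (r : ℝ) + 1 := by
    have := OWs.pow_sqrt (e1 := e1) 1 m
    have h6 : (3 * (2 * 1).factorial : ℝ) = 6 := by norm_num [Nat.factorial]
    rw [h6] at this
    refine OWs.mono this (fun r O => ?_) (by norm_num) (by linarith) (Real.sqrt_nonneg _) le_rfl
    rw [pow_one, abs_of_nonneg (by positivity)]
  have hw2 : OW e1 K (3 * (m : ℝ) ^ (-(3 / 8 * q * (1 - 4 * e1)))) m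
      fun r O => ((r : ℝ) + 1) * ∑ j, Real.exp (-(q * |ht (O j)|)) := by
    have h3 := OW.pin (e1 := e1) hq0 hq 1 m
    rw [pinB_rpow q e1 hm0] at h3
    have h4 : (3 * (Nat.factorial 1 : ℝ) * (m : ℝ) ^ (-(3 / 8 * q * (1 - 4 * e1)))) =
        3 * (m : ℝ) ^ (-(3 / 8 * q * (1 - 4 * e1))) := by norm_num
    rw [h4] at h3
    have h5 := h3.mono (K' := K) (by norm_num) hK (by positivity) le_rfl
    intro r O
    have h6 := h5 r O
    simpa using h6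
  have e0 : ∀ {f : Fin 0 → ℝ}, ∏ j, f j = 1 := fun {f} => by simp
  constructor
  · have h3 := hm2 m hm2' i hi hMC ρ hρ 0 (by omega) (fun _ => 1) (fun _ => one_pos)
      (fun _ _ j => j.elim0) (fun _ _ j => j.elim0) (Real.sqrt 6) (Real.sqrt_nonneg _)
      (fun r _ => (r : ℝ) + 1) hw (fun _ => cnI) (fun _ _ => MIn.cnI) (fun n _ r O a b x => by
        show ‖(r : ℂ) + 1‖ ≤ _
        rw [norm_cn]
        simp)
    rw [e0] at h3
    have h4 := M2.rescale h3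
    rwa [hs] at h4
  · intro M g hM hg hmeas
    refine M2.of_pos fun M' hM' => ?_
    have hM0 : 0 < M' := hM.trans_lt hM'
    have h3 := hm2 m hm2' i hi hMC ρ hρ 1 (by omega) (fun _ => M') (fun _ => hM0)
      (fun r O _ s => g r O s) (fun r O _ s => (hg r O s).mono hM'.le) (Real.sqrt 6)
      (Real.sqrt_nonneg _) (fun r _ => (r : ℝ) + 1) hw
      (fun n r O a b x => ((r : ℂ) + 1) * Vy 0 (cr e1 J m) ρ (g r O) r O a b x)
      (fun n hn => MIn.mul' MIn.cnI (hmeas n hn)) (fun n _ r O a b x => by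
        rw [norm_mul, norm_cn]
        simp)
    have h4 := M2.rescale (by simpa using h3)
    rwa [hs] at h4
  · have h3 := hl1 m hm1 i hi hMC ρ hρ 0 (by omega) (fun _ => 1) (fun _ => one_pos)
      (fun _ _ j => j.elim0) (fun _ _ j => j.elim0) _ (by positivity) _ hw2
      (fun _ r O a b x => ((r : ℂ) + 1) * pinI q r O a b x)
      (fun _ _ => MIn.mul' MIn.cnI (MIn.pinI q)) (fun n _ r O a b x => by
        rw [norm_mul, norm_cn, norm_pinI]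
        simp)
    rw [e0, mul_one] at h3
    exact h3
  · intro M g hM hg hmeas
    refine L1.of_pos fun M' hM' => ?_
    have hM0 : 0 < M' := hM.trans_lt hM'
    have h3 := hl1 m hm1 i hi hMC ρ hρ 1 (by omega) (fun _ => M') (fun _ => hM0)
      (fun r O _ s => g r O s) (fun r O _ s => (hg r O s).mono hM'.le) _ (by positivity) _ hw2
      (fun n r O a b x =>
        (((r : ℂ) + 1) * pinI q r O a b x) * Vy 0 (cr e1 J m) ρ (g r O) r O a b x)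
      (fun n hn => MIn.mul' (MIn.mul' MIn.cnI (MIn.pinI q)) (hmeas n hn)) (fun n _ r O a b x => by
        rw [norm_mul, norm_mul, norm_cn, norm_pinI]
        simp)
    refine h3.mono (le_of_eq ?_)
    simp only [Finset.univ_unique, Finset.prod_singleton]
    ring

end PBU.PLX

end
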