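import Pool.Agent.PLX.Ns
import Pool.Agent.PLX.PB.WPlus0
import Pool.Agent.PLX.PB.WPc
import Pool.Agent.PLX.PB.UBN

/-!
# Statistics and pins under the moment bounds `PBU.PLX.MBd`, two fillings (PLAX)

* `BC_of`; `M2_vy`, `M2_const`, `M2_one`, `L1_pin`, `L1_pinv` from the interface `PBU.PLX.MBd`.
-/

set_option autoImplicit false
set_option linter.unusedSectionVars false

noncomputable section

open Complex MeasureTheory Finset Filter Topology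
open scoped ENNReal
open PLX (Fil)

namespace PBWP.PLX

open NUO NUP1 NUCR NUP1S NUP1S.Ab NUP1S.AbC NUGC NUGC.PLX PBFunc PBFunc.PLX PBF PBF.PLX

/-! ### test functions -/

section tc

open PBE PBE.PLX

theorem BC_of {M : ℝ} {f : ℂ → ℂ} {y₁ y₂ Y₁ Y₂ a : ℝ} (h : TC y₁ y₂ a M f) (ha : 0 ≤ a) (hM : 0 ≤ M)
    (h1 : y₁ ≤ Y₁) (h2 : Y₂ ≤ y₂) : PBU.PLX.BC Y₁ Y₂ M f := by
  have h3 := PBU.PLX.BC.of_TC h ha hM
  have hs : PBE.Sp Y₁ Y₂ ⊆ PBE.Sp y₁ y₂ := fun z hz => ⟨lt_of_le_of_lt h1 hz.1, lt_of_lt_of_le hz.2 h2⟩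
  exact ⟨h3.an.mono hs, fun z hz => h3.bd z (hs hz)⟩

end tc

variable [Fil]

/-! ### statistics and pins -/

section stat

variable {N : ℕ} {Z : ℕ → Bool → Option O3 → ℂ → ℂ} {P : ℕ → NUO.Par} {η η' : ℕ → Crs}
  {c : ℕ → ℂ} {ρ : ℂ → ℂ} {Y₁ Y₂ b0 b' K q dp : ℝ}

theorem norm_cn0 (r : ℕ) : ‖(r : ℂ) + 1‖ = (r : ℝ) + 1 := by
  have : (r : ℂ) + 1 = (((r : ℝ) + 1 : ℝ) : ℂ) := by push_cast; ring
  rw [this, Complex.norm_real, Real.norm_of_nonneg (by positivity)]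

theorem norm_pin0 (q : ℝ) (r : ℕ) (O : Fin r → Xo) (a b : ℕ) (x : (Fin a → ℝ) × (Fin b → ℝ)) :
    ‖PBU.PLX.pinI q r O a b x‖ = ∑ j : Fin r, Real.exp (-(q * |ht (O j)|)) := by
  unfold PBU.PLX.pinI
  rw [Complex.norm_real, Real.norm_of_nonneg (Finset.sum_nonneg fun j _ => (Real.exp_pos _).le)]

/-- statistics of bounded test functions -/
theorem M2_vy (hM : PBU.PLX.MBd N Z P η η' c ρ Y₁ Y₂ K q dp) (mc : ∀ n ≤ N, MCr (η n) (η' n))
    (hs : ∀ n ≤ N, InS 0 b0 (η n)) (hb : b0 < b') {M : ℝ} (h0 : 0 ≤ M) {f : Bool → ℂ → ℂ}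
    (hf : ∀ s, PBU.PLX.BC Y₁ Y₂ M (f s))
    (hd : ∀ s (z : ℂ), |z.im| < b' → DifferentiableAt ℂ (f s) z) :
    M2 (mN N) (wN Z P N η η' c) K (evN fun n => Vy 0 (η n) ρ f) M := by
  have h1 := hM.vy M (fun _ _ => f) h0 (fun _ _ s => hf s)
    (fun n hn => MIn.vy (mc n hn) (hs n hn) hb ρ hd)
  refine M2.le' h1 fun ω => ?_
  simp only [evN, ev]
  rw [norm_mul, norm_cn0]
  exact le_mul_of_one_le_left (norm_nonneg _) (by linarith [Nat.cast_nonneg (α := ℝ) ω.2.1.1])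

/-- constants -/
theorem M2_const (hM : PBU.PLX.MBd N Z P η η' c ρ Y₁ Y₂ K q dp) (k : ℂ) :
    M2 (mN N) (wN Z P N η η' c) K (fun _ => k) ‖k‖ := by
  have h1 := hM.one.smul k
  rw [mul_one] at h1
  refine M2.le' h1 fun ω => ?_
  simp only [evN, ev, PBU.PLX.cnI]
  rw [norm_mul, norm_cn0]
  exact le_mul_of_one_le_right (norm_nonneg _) (by linarith [Nat.cast_nonneg (α := ℝ) ω.2.1.1])

theorem M2_one (hM : PBU.PLX.MBd N Z P η η' c ρ Y₁ Y₂ K q dp) :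
    M2 (mN N) (wN Z P N η η' c) K (fun _ => 1) 1 := by
  have := M2_const hM 1
  rwa [norm_one] at this

/-- an insertion below the pins -/
theorem L1_pin (hM : PBU.PLX.MBd N Z P η η' c ρ Y₁ Y₂ K q dp) {A : ℕ → Ins} {k : ℝ} (hk : 0 ≤ k)
    (hA : ∀ n r O a b x, ‖A n r O a b x‖ ≤ k * ∑ i : Fin r, Real.exp (-(q * |ht (O i)|))) :
    L1 (mN N) (wN Z P N η η' c) (evN A) (k * dp) := by
  have h1 := L1.smul' hM.pin (k : ℂ)
  rw [Complex.norm_real, Real.norm_of_nonneg hk] at h1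
  refine L1.le' h1 fun ω => ?_
  simp only [evN, ev]
  rw [norm_mul, norm_mul, norm_cn0, Complex.norm_real, Real.norm_of_nonneg hk, norm_pin0]
  refine (hA _ _ _ _ _ _).trans (mul_le_mul_of_nonneg_left ?_ hk)
  refine le_mul_of_one_le_left (Finset.sum_nonneg fun i _ => (Real.exp_pos _).le) ?_
  linarith [Nat.cast_nonneg (α := ℝ) ω.2.1.1]

/-- an insertion below the pins and a statistic -/
theorem L1_pinv (hM : PBU.PLX.MBd N Z P η η' c ρ Y₁ Y₂ K q dp) (mc : ∀ n ≤ N, MCr (η n) (η' n))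
    (hs : ∀ n ≤ N, InS 0 b0 (η n)) (hb : b0 < b') {M : ℝ} (h0 : 0 ≤ M) {f : Bool → ℂ → ℂ}
    (hf : ∀ s, PBU.PLX.BC Y₁ Y₂ M (f s))
    (hd : ∀ s (z : ℂ), |z.im| < b' → DifferentiableAt ℂ (f s) z)
    {A : ℕ → Ins} {k : ℝ} (hk : 0 ≤ k)
    (hA : ∀ n r O a b x, ‖A n r O a b x‖ ≤ k * ∑ i : Fin r, Real.exp (-(q * |ht (O i)|))) :
    L1 (mN N) (wN Z P N η η' c) (fun ω => evN A ω * evN (fun n => Vy 0 (η n) ρ f) ω)
      (k * (M * dp)) := by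
  have h1 := L1.smul' (hM.pinv M (fun _ _ => f) h0 (fun _ _ s => hf s)
    (fun n hn => MIn.vy (mc n hn) (hs n hn) hb ρ hd)) (k : ℂ)
  rw [Complex.norm_real, Real.norm_of_nonneg hk] at h1
  refine L1.le' h1 fun ω => ?_
  simp only [evN, ev]
  rw [norm_mul, norm_mul, norm_mul, norm_mul, norm_cn0, Complex.norm_real,
    Real.norm_of_nonneg hk, norm_pin0, ← mul_assoc]
  refine mul_le_mul_of_nonneg_right ?_ (norm_nonneg _)
  refine (hA _ _ _ _ _ _).trans (mul_le_mul_of_nonneg_left ?_ hk)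
  refine le_mul_of_one_le_left (Finset.sum_nonneg fun i _ => (Real.exp_pos _).le) ?_
  linarith [Nat.cast_nonneg (α := ℝ) ω.2.1.1]

end stat

end PBWP.PLX

end
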