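import Pool.Agent.PLX.Ns
import Pool.Agent.PLX.PotH.Env
import Pool.Agent.PLX.PotH.CutI
import Pool.Agent.PLX.PB.TopG0
import Pool.Agent.PLX.YqL

/-!
# Plan B, two fillings: the environment of the dislocated function

Rows `mu1 k x`, legs at `z`, `m = k + 1 + e` effective rows (`e = Ends.e`). No kinds of objects.

* `tilt_poly`: polynomials of the number of quanta are absorbed by the tilt;
* `cutX`: one admissible cutoff for the rows `x, 0, …, 0` with the points `± i`;
* **`envS`**: the environment `EnvH` of the dislocated function, `-(9/10) l ≤ Re z ≤ (37/10) l`, potential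
  `HlegS z x`.
-/

set_option autoImplicit false
set_option linter.unusedSectionVars false

noncomputable section

open Complex MeasureTheory Finset
open PLX (Fil Ends)

namespace PBT.PLX

open NUO NUP1 NUP1S NUP1S.Ab NUP1S.AbC NUGC.PLX
open PBL.PLX (mu1)
open PotH.PLX
open Pool.Agent.PLX (rwq)

/-! ### tilts and polynomials -/

/-- **a polynomial of the number of quanta changes the tilt** -/
theorem tilt_poly (p : ℕ) {d : ℝ} (hd : 0 < d) : ∃ C : ℝ, 0 ≤ C ∧ ∀ b' : ℝ, |b'| = d → ∀ m n : ℝ,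
    ∃ b'' : ℝ, |b''| ≤ 2 * d ∧
      Real.exp (b' * (m - n)) * (1 + |n - m|) ^ p ≤ C * Real.exp (b'' * (m - n)) := by
  obtain ⟨C, hC⟩ : ∃ C : ℝ, C = (d⁻¹) ^ p * (p.factorial * Real.exp d) := ⟨_, rfl⟩
  have hC0 : 0 ≤ C := by rw [hC]; positivity
  refine ⟨C, hC0, ?_⟩
  intro b' hb' m n
  have h1 : (1 + |n - m|) ^ p ≤ C * Real.exp (d * |n - m|) := by
    have h0 : 0 ≤ d * (1 + |n - m|) := by positivity
    have h2 := Real.pow_div_factorial_le_exp _ h0 p
    rw [div_le_iff₀ (by positivity), mul_pow] at h2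
    calc (1 + |n - m|) ^ p = (d⁻¹) ^ p * (d ^ p * (1 + |n - m|) ^ p) := by
          rw [← mul_assoc, ← mul_pow, inv_mul_cancel₀ hd.ne', one_pow, one_mul]
      _ ≤ (d⁻¹) ^ p * (Real.exp (d * (1 + |n - m|)) * p.factorial) :=
          mul_le_mul_of_nonneg_left h2 (by positivity)
      _ = C * Real.exp (d * |n - m|) := by
          rw [hC, mul_add, mul_one, Real.exp_add]
          ring
  rcases le_total 0 (b' * (m - n)) with h | h
  · refine ⟨2 * b', by rw [abs_mul, hb', abs_two], ?_⟩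
    have e : d * |n - m| = b' * (m - n) := by
      rw [← hb', abs_sub_comm, ← abs_mul, abs_of_nonneg h]
    rw [e] at h1
    calc Real.exp (b' * (m - n)) * (1 + |n - m|) ^ p ≤
        Real.exp (b' * (m - n)) * (C * Real.exp (b' * (m - n))) :=
          mul_le_mul_of_nonneg_left h1 (Real.exp_pos _).le
      _ = C * (Real.exp (b' * (m - n)) * Real.exp (b' * (m - n))) := by ring
      _ = C * Real.exp (2 * b' * (m - n)) := by
          rw [← Real.exp_add]
          congr 2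
          ring
  · refine ⟨0, by rw [abs_zero]; positivity, ?_⟩
    have e : d * |n - m| = -(b' * (m - n)) := by
      rw [← hb', abs_sub_comm, ← abs_mul, abs_of_nonpos h]
    rw [e] at h1
    calc Real.exp (b' * (m - n)) * (1 + |n - m|) ^ p ≤
        Real.exp (b' * (m - n)) * (C * Real.exp (-(b' * (m - n)))) :=
          mul_le_mul_of_nonneg_left h1 (Real.exp_pos _).le
      _ = C * Real.exp (0 * (m - n)) := by
          rw [← mul_assoc, mul_comm _ C, mul_assoc, ← Real.exp_add]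
          congr 2
          ring

/-- no groups -/
def g0 : Fin 0 → NUSea.PLX.H0.Gd := fun i => i.elim0

/-! ### the environment -/

attribute [local instance] NUSea.seaP

variable [Fil] [Ends]

/-- **the cutoff of the rows `x, 0, …, 0` with the points `± i` is admissible** -/
theorem cutX (ho : Ends.o = 0) {ep : ℝ} (hep : 0 < ep) (hep1 : ep ≤ 1 / 100) {e1 : ℝ} (he : 0 < e1)
    (he1 : e1 ≤ 1 / 100) (Cc : ℝ) : ∃ C0 : ℝ, 1 ≤ C0 ∧ ∃ m0 : ℕ, ∀ k : ℕ, m0 ≤ k →
    ∃ cr Bc Bc' : ℝ → ℝ, CutR ep C0 ((1 - e1) * Tb (Real.log (k + 1 + Ends.e : ℕ)))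
        (k + 1 + Ends.e) cr Bc Bc' ∧
      ∀ x : ℂ, |x.re| ≤ NUMF.l / 10 → |x.im| ≤ 2 → ∀ η η1 : ℝ → ℝ,
        CrvP e1 Cc (k + 1 + Ends.e) η η1 →
      ∀ (a : Bool) (t : ℝ), cfW ep (List.ofFn (rwq (mu1 k x) a) ++ [I, -I]) (Fil.cv a η) t ≤
        cr t := by
  obtain ⟨C0, hC0, m0, -, H⟩ := exists_cutR hep hep1 he he1 Cc (Fil.q + 3) (hh := 2) (by norm_num)
  refine ⟨C0, hC0, m0, fun k hk => ?_⟩
  obtain ⟨cr, Bc, Bc', hcut, H⟩ := H (k + 1 + Ends.e) (by omega)
  refine ⟨cr, Bc, Bc', hcut, fun x hx hx' η η1 hη a t => ?_⟩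
  have hl := NUMF.l_pos
  have hlN : NUP1.l = NUMF.l := rfl
  have hn1 := Fil.one_le_n a
  have hn2 := Fil.n_le a
  have hE := Ends.le
  refine H a (Fil.n a * k) (List.ofFn (rwq (mu1 k x) a) ++ [I, -I])
    (List.replicate (Fil.n a) x ++ [I, -I]) ?_ η η1 hη t
  have hne : Fil.ne a (k + 1 + Ends.e) = Fil.n a * (k + 1) + Ends.e := by
    unfold Fil.ne
    rw [Nat.add_sub_cancel, ho]
    cases a <;> rfl
  exact
    { perm := by
        refine (List.Perm.append_right _ (Pool.Agent.PLX.ofFn_rwq_cons k x 0 a)).trans ?_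
        rw [← List.append_assoc]
        exact List.Perm.append_right _ List.perm_append_comm
      len := by
        simp
        omega
      pt := fun y hy => by
        rcases List.mem_append.1 hy with hy | hy
        · rw [List.eq_of_mem_replicate hy, hlN]
          exact ⟨by linarith, hx'⟩
        simp only [List.mem_cons, List.not_mem_nil, or_false] at hy
        rcases hy with rfl | rfl
        · rw [Complex.I_re, Complex.I_im, abs_zero, abs_one, hlN]
          exact ⟨by positivity, by norm_num⟩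
        · rw [Complex.neg_re, Complex.neg_im, Complex.I_re, Complex.I_im, neg_zero, abs_zero,
            abs_neg, abs_one, hlN]
          exact ⟨by positivity, by norm_num⟩
      up := by
        rw [hne]
        nlinarith
      dn := by
        rw [hne]
        nlinarith }

/-- **the environment of the dislocated function** -/
theorem envS (ho : Ends.o = 0) : ∃ B0 N0 : ℝ, 0 ≤ B0 ∧ 0 ≤ N0 ∧ ∀ ep : ℝ, 0 < ep → ep ≤ 1 / 100 →
    ∀ e1 : ℝ, 0 < e1 → e1 ≤ 1 / 100 → ∀ J : ℝ, 0 ≤ J →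
    ∃ Cc C0 : ℝ, 1 ≤ Cc ∧ 1 ≤ C0 ∧ ∃ m0 : ℕ, ∀ k : ℕ, m0 ≤ k → ∀ x z : ℂ, |x.re| ≤ NUMF.l / 10 →
      |x.im| ≤ 2 → -(9 / 10 * NUMF.l) ≤ z.re → z.re ≤ 37 / 10 * NUMF.l → ∀ d : ℝ, 0 ≤ d →
      ∃ (cr Bc Bc' : ℝ → ℝ) (H' : Bool → ℝ → ℝ),
        EnvH ep e1 Cc C0 B0 N0 d (k + 1 + Ends.e) (etL e1 J (k + 1 + Ends.e))
          (etL' e1 J (k + 1 + Ends.e)) cr Bc Bc'
          (HlegS z x (etL e1 J (k + 1 + Ends.e))) H' (obL k (4 / 3 * (1 - ep)) x z) g0 := by
  have hl := NUMF.l_pos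
  obtain ⟨B0, N0, hB0, hN0, HK⟩ := hokS (δ := NUMF.l / 10) (by linarith) (by linarith) 2
  refine ⟨B0, N0, hB0, hN0, ?_⟩
  intro ep hep hep1 e1 he he1 J hJ
  obtain ⟨Cc, hCc, mc, -, Hc⟩ := crvL he he1 hJ
  obtain ⟨C0, hC0, mk, HC⟩ := cutX ho hep hep1 he he1 Cc
  obtain ⟨mh, HK⟩ := HK e1 he
  refine ⟨Cc, C0, hCc, hC0, max mc (max mk mh), ?_⟩
  intro k hk x z hx hx' z1 z2 d hd
  have k1 : mc ≤ k + 1 + Ends.e := by
    have := (le_max_left _ _).trans hk
    omega
  have k2 : mk ≤ k := ((le_max_left _ _).trans (le_max_right _ _)).trans hk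
  have k3 : mh ≤ k + 1 + Ends.e := by
    have := ((le_max_right _ _).trans (le_max_right _ _)).trans hk
    omega
  have hcr := Hc _ k1
  obtain ⟨cr, Bc, Bc', hcut, HC⟩ := HC k k2
  obtain ⟨x1, x2⟩ := abs_le.1 hx
  have y1 : -NUMF.l + NUMF.l / 10 ≤ z.re := by linarith
  have y2 : z.re ≤ 4 * NUMF.l - NUMF.l / 10 := by linarith
  have y3 : |x.re| ≤ NUMF.l - NUMF.l / 10 := by linarith
  obtain ⟨hη, H', hok⟩ := HK _ k3 Cc _ _ hcr z x y1 y2 y3 hx'
  refine ⟨cr, Bc, Bc', H', ?_⟩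
  exact
    { crv := hcr
      cut := hcut
      hok := hok d _ hd
      nn := obL_nn _ _ _ _
      dom := fun a t => by
        have h := domS ho (δ := NUMF.l / 10) (by linarith) (by linarith)
          (fun t => (hη t).trans (by linarith)) y1 y2 y3 k (4 / 3 * (1 - ep)) (fun _ => [I, -I])
          (fun _ => []) (fun i => (g0 i).G) a t
        refine (le_of_eq h).trans ?_
        refine mul_le_mul_of_nonneg_left ?_ two_cos.1
        exact mul_le_mul_of_nonneg_left (HC x hx hx' _ _ hcr a t) (Real.exp_pos _).le }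

end PBT.PLX

end
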