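import Pool.Agent.PLX.Ns
import Pool.Agent.PLX.PB.RepM
import Pool.Agent.PLX.PB.StatN
import Pool.Agent.PB.EInst

/-!
# Plan B, I1: the values of the product representations are integrable (helper2)

* `meas_VQ_s`, `meas_Vp_s`, `meas_Vm_s`: joint measurability of the statistics of a jointly measurable
  family of test functions; `jVp`, `jVm`: the same on `CfN N × T` with respect to `(mN N).prod σ`;
* `sup_int`: `q ↦ F[V (A q) V (B q)]` is integrable, second moments only of measurable statistics;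
* `i2_Vp`, `i2_Vm`: for `Vp`, `Vm` and any product representation; **`i2`, `i2'`**: the two channels.
-/

set_option autoImplicit false
set_option linter.unusedSectionVars false

noncomputable section

open Complex MeasureTheory Finset Filter
open scoped ENNReal

open PLX (Fil)

namespace PBRep.PLX

open PBFunc PBFunc.PLX PBE PBE.PLX PBF PBF.PLX NUGC NUGC.PLX
open NUO (Xo)

variable [Fil] {T : Type*} [MeasurableSpace T] {N : ℕ} {η η' : ℕ → Crs}

/-! ### joint measurability -/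

theorem meas_hgt : Measurable hgt := by
  unfold hgt
  fun_prop

/-- the one body functions of a jointly measurable family -/
theorem meas_qD {A : T → ℂ → ℂ} (hA : Measurable fun p : T × ℂ => A p.1 p.2) (ε : Bool → ℂ)
    (s : Bool) (k : Option NUP1S.O3) : Measurable fun p : T × ℂ => qD ε (A p.1) s k p.2 := by
  cases k with
  | none =>
    exact (hA.comp (measurable_fst.prodMk (meas_hgt.comp measurable_snd))).const_mul (ε s)
  | some o => exact measurable_const

theorem meas_VQ_s {A : T → ℂ → ℂ} (hA : Measurable fun p : T × ℂ => A p.1 p.2) (ε : Bool → ℂ)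
    (hc : ∀ n ≤ N, MCr (η n) (η' n)) :
    Measurable fun p : T × CfN N => VQ (qD ε (A p.1)) η p.2 :=
  evN_stQ_s (D := fun t => qD ε (A t)) (fun s k => meas_qD hA ε s k) hc

/-- the mean of a jointly measurable family -/
theorem meas_mean {A : T → ℂ → ℂ} (hA : Measurable fun p : T × ℂ => A p.1 p.2) {ρ : ℝ → ℂ}
    (hρ : AEStronglyMeasurable ρ volume) : Measurable fun t : T => ∫ u : ℝ, ρ u * A t u := by
  have h1 : Measurable fun p : T × ℝ => hρ.mk ρ p.2 * A p.1 p.2 := by
    refine (hρ.stronglyMeasurable_mk.measurable.comp measurable_snd).mul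
      (hA.comp (measurable_fst.prodMk (Complex.measurable_ofReal.comp measurable_snd)))
  have h2 := (h1.stronglyMeasurable.integral_prod_right' (ν := (volume : Measure ℝ))).measurable
  refine (congrArg Measurable (funext fun t => ?_)).mpr h2
  refine integral_congr_ae ?_
  filter_upwards [hρ.ae_eq_mk] with u hu
  rw [hu]

theorem meas_Vp_s {A : T → ℂ → ℂ} (hA : Measurable fun p : T × ℂ => A p.1 p.2) {ρ : ℝ → ℂ}
    (hρ : AEStronglyMeasurable ρ volume) (hc : ∀ n ≤ N, MCr (η n) (η' n)) :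
    Measurable fun p : T × CfN N => Vp ρ η (A p.1) p.2 := by
  unfold Vp
  exact (meas_VQ_s hA eP hc).sub (((meas_mean hA hρ).comp measurable_fst).const_mul _)

theorem meas_Vm_s {A : T → ℂ → ℂ} (hA : Measurable fun p : T × ℂ => A p.1 p.2) {ρ : ℝ → ℂ}
    (hρ : AEStronglyMeasurable ρ volume) (hc : ∀ n ≤ N, MCr (η n) (η' n)) :
    Measurable fun p : T × CfN N => Vm ρ η (A p.1) p.2 := by
  unfold Vm
  exact (meas_VQ_s hA eM hc).sub (((meas_mean hA hρ).comp measurable_fst).const_mul _)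

variable {σ : Measure T}

/-- joint measurability on `CfN N × T`, plus channel -/
theorem jVp {A : T → ℂ → ℂ} (hA : Measurable fun p : T × ℂ => A p.1 p.2) {ρ : ℝ → ℂ}
    (hρ : AEStronglyMeasurable ρ volume) (hc : ∀ n ≤ N, MCr (η n) (η' n)) :
    AEStronglyMeasurable (fun p : CfN N × T => Vp ρ η (A p.2) p.1) ((mN N).prod σ) := by
  have h := (meas_Vp_s (N := N) hA hρ hc).comp (measurable_swap (α := CfN N) (β := T))
  exact ((congrArg Measurable (funext fun p => rfl)).mpr h).aestronglyMeasurable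

/-- joint measurability on `CfN N × T`, minus channel -/
theorem jVm {A : T → ℂ → ℂ} (hA : Measurable fun p : T × ℂ => A p.1 p.2) {ρ : ℝ → ℂ}
    (hρ : AEStronglyMeasurable ρ volume) (hc : ∀ n ≤ N, MCr (η n) (η' n)) :
    AEStronglyMeasurable (fun p : CfN N × T => Vm ρ η (A p.2) p.1) ((mN N).prod σ) := by
  have h := (meas_Vm_s (N := N) hA hρ hc).comp (measurable_swap (α := CfN N) (β := T))
  exact ((congrArg Measurable (funext fun p => rfl)).mpr h).aestronglyMeasurable

theorem mVp {A : T → ℂ → ℂ} (hA : Measurable fun p : T × ℂ => A p.1 p.2) {ρ : ℝ → ℂ}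
    (hρ : AEStronglyMeasurable ρ volume) (hc : ∀ n ≤ N, MCr (η n) (η' n)) (t : T) :
    Measurable (Vp ρ η (A t) : CfN N → ℂ) := by
  have h := meas_Vp_s (N := N) hA hρ hc
  have h1 : Measurable fun ω : CfN N => ((t, ω) : T × CfN N) :=
    measurable_const.prodMk measurable_id
  refine (congrArg Measurable (funext fun ω => ?_)).mpr (h.comp h1)
  rfl

theorem mVm {A : T → ℂ → ℂ} (hA : Measurable fun p : T × ℂ => A p.1 p.2) {ρ : ℝ → ℂ}
    (hρ : AEStronglyMeasurable ρ volume) (hc : ∀ n ≤ N, MCr (η n) (η' n)) (t : T) :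
    Measurable (Vm ρ η (A t) : CfN N → ℂ) := by
  have h := meas_Vm_s (N := N) hA hρ hc
  have h1 : Measurable fun ω : CfN N => ((t, ω) : T × CfN N) :=
    measurable_const.prodMk measurable_id
  refine (congrArg Measurable (funext fun ω => ?_)).mpr (h.comp h1)
  rfl

/-! ### integrability in the parameter -/

section sup

variable {Ω : Type*} [MeasurableSpace Ω] {μ : Measure Ω} {y₁ y₂ a K : ℝ} {w : Ω → ℂ}
  {V : (ℂ → ℂ) → Ω → ℂ} {A B : T → ℂ → ℂ} {al be : T → ℝ}

/-- **Fubini**: joint integrability, the second moments are only needed for measurable statistics -/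
theorem sup_prod [SFinite μ] [SFinite σ] (hR : Rep y₁ y₂ a σ A B al be) (hy1 : y₁ < 0)
    (hy2 : 0 < y₂) (hw : AEStronglyMeasurable w μ) (hK : 0 ≤ K)
    (mA : ∀ q, AEStronglyMeasurable (V (A q)) μ) (mB : ∀ q, AEStronglyMeasurable (V (B q)) μ)
    (v2 : ∀ M h, TC y₁ y₂ a M h → AEStronglyMeasurable (V h) μ → M2 μ w K (V h) M)
    (jA : AEStronglyMeasurable (fun p : Ω × T => V (A p.2) p.1) (μ.prod σ))
    (jB : AEStronglyMeasurable (fun p : Ω × T => V (B p.2) p.1) (μ.prod σ)) :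
    Integrable (fun p : Ω × T => w p.1 * (V (A p.2) p.1 * V (B p.2) p.1)) (μ.prod σ) := by
  have jm : AEStronglyMeasurable (fun p : Ω × T => w p.1 * (V (A p.2) p.1 * V (B p.2) p.1))
      (μ.prod σ) := hw.comp_fst.mul (jA.mul jB)
  refine ⟨jm, ?_⟩
  unfold HasFiniteIntegral
  rw [lintegral_prod_symm _ jm.enorm]
  have key : ∀ s, ∫⁻ ω, ‖w ω * (V (A s) ω * V (B s) ω)‖ₑ ∂μ ≤
      ENNReal.ofReal (al s * be s * K) := by
    intro s
    have h := (v2 _ _ (hR.tA s) (mA s)).mul' ((hR.tA s).nonneg hy1 hy2)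
      ((hR.tB s).nonneg hy1 hy2) hK hw (mA s) (v2 _ _ (hR.tB s) (mB s))
    refine le_trans (le_of_eq ?_) h
    refine lintegral_congr fun ω => ?_
    rw [← ofReal_norm, norm_mul]
  refine lt_of_le_of_lt (lintegral_mono key) ?_
  have hi : Integrable (fun s => al s * be s * K) σ := hR.int.mul_const K
  exact hi.lintegral_lt_top

/-- **the values of a product representation are integrable** -/
theorem sup_int [SFinite μ] [SFinite σ] (hR : Rep y₁ y₂ a σ A B al be) (hy1 : y₁ < 0)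
    (hy2 : 0 < y₂) (hw : AEStronglyMeasurable w μ) (hK : 0 ≤ K)
    (mA : ∀ q, AEStronglyMeasurable (V (A q)) μ) (mB : ∀ q, AEStronglyMeasurable (V (B q)) μ)
    (v2 : ∀ M h, TC y₁ y₂ a M h → AEStronglyMeasurable (V h) μ → M2 μ w K (V h) M)
    (jA : AEStronglyMeasurable (fun p : Ω × T => V (A p.2) p.1) (μ.prod σ))
    (jB : AEStronglyMeasurable (fun p : Ω × T => V (B p.2) p.1) (μ.prod σ)) :
    Integrable (fun q => F μ w fun ω => V (A q) ω * V (B q) ω) σ :=
  (sup_prod hR hy1 hy2 hw hK mA mB v2 jA jB).integral_prod_right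

end sup

section inst

variable {y₁ y₂ a K : ℝ} {w : CfN N → ℂ} {A B : T → ℂ → ℂ} {al be : T → ℝ}

/-- plus channel, any product representation -/
theorem i2_Vp [SFinite σ] (hR : Rep y₁ y₂ a σ A B al be) (hy1 : y₁ < 0) (hy2 : 0 < y₂)
    (hA : Measurable fun p : T × ℂ => A p.1 p.2) (hB : Measurable fun p : T × ℂ => B p.1 p.2)
    {ρ : ℝ → ℂ} (hρ : AEStronglyMeasurable ρ volume) (hc : ∀ n ≤ N, MCr (η n) (η' n))
    (hw : AEStronglyMeasurable w (mN N)) (hK : 0 ≤ K)
    (v2 : ∀ M h, TC y₁ y₂ a M h → AEStronglyMeasurable (Vp ρ η h) (mN N) →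
      M2 (mN N) w K (Vp ρ η h) M) :
    Integrable (fun q => F (mN N) w fun ω => Vp ρ η (A q) ω * Vp ρ η (B q) ω) σ :=
  sup_int (V := Vp ρ η) hR hy1 hy2 hw hK (fun q => (mVp hA hρ hc q).aestronglyMeasurable)
    (fun q => (mVp hB hρ hc q).aestronglyMeasurable) v2 (jVp hA hρ hc) (jVp hB hρ hc)

/-- minus channel, any product representation -/
theorem i2_Vm [SFinite σ] (hR : Rep y₁ y₂ a σ A B al be) (hy1 : y₁ < 0) (hy2 : 0 < y₂)
    (hA : Measurable fun p : T × ℂ => A p.1 p.2) (hB : Measurable fun p : T × ℂ => B p.1 p.2)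
    {ρ : ℝ → ℂ} (hρ : AEStronglyMeasurable ρ volume) (hc : ∀ n ≤ N, MCr (η n) (η' n))
    (hw : AEStronglyMeasurable w (mN N)) (hK : 0 ≤ K)
    (v2 : ∀ M h, TC y₁ y₂ a M h → AEStronglyMeasurable (Vm ρ η h) (mN N) →
      M2 (mN N) w K (Vm ρ η h) M) :
    Integrable (fun q => F (mN N) w fun ω => Vm ρ η (A q) ω * Vm ρ η (B q) ω) σ :=
  sup_int (V := Vm ρ η) hR hy1 hy2 hw hK (fun q => (mVm hA hρ hc q).aestronglyMeasurable)
    (fun q => (mVm hB hρ hc q).aestronglyMeasurable) v2 (jVm hA hρ hc) (jVm hB hρ hc)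

end inst

/-! ### the two channels -/

section chan

open PBEI (Apl Ami Bch Apl_measurable Ami_measurable Bch_measurable)
open PBV (wm)

variable {m : ℕ} (x : Fin m → ℂ) (i0 : Fin m) {y₁ y₂ a K : ℝ} {w : CfN N → ℂ}
  {al be : Bool × ℝ → ℝ}

/-- **plus channel** -/
theorem i2 (hR : Rep y₁ y₂ a wm (Apl x i0) Bch al be) (hy1 : y₁ < 0) (hy2 : 0 < y₂)
    {ρ : ℝ → ℂ} (hρ : AEStronglyMeasurable ρ volume) (hc : ∀ n ≤ N, MCr (η n) (η' n))
    (hw : AEStronglyMeasurable w (mN N)) (hK : 0 ≤ K)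
    (v2 : ∀ M h, TC y₁ y₂ a M h → AEStronglyMeasurable (Vp ρ η h) (mN N) →
      M2 (mN N) w K (Vp ρ η h) M) :
    Integrable (fun q => F (mN N) w fun ω => Vp ρ η (Apl x i0 q) ω * Vp ρ η (Bch q) ω) wm :=
  i2_Vp hR hy1 hy2 (Apl_measurable x i0) Bch_measurable hρ hc hw hK v2

/-- **minus channel** -/
theorem i2' (hR : Rep y₁ y₂ a wm (Ami x i0) Bch al be) (hy1 : y₁ < 0) (hy2 : 0 < y₂)
    {ρ : ℝ → ℂ} (hρ : AEStronglyMeasurable ρ volume) (hc : ∀ n ≤ N, MCr (η n) (η' n))
    (hw : AEStronglyMeasurable w (mN N)) (hK : 0 ≤ K)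
    (v2 : ∀ M h, TC y₁ y₂ a M h → AEStronglyMeasurable (Vm ρ η h) (mN N) →
      M2 (mN N) w K (Vm ρ η h) M) :
    Integrable (fun q => F (mN N) w fun ω => Vm ρ η (Ami x i0 q) ω * Vm ρ η (Bch q) ω) wm :=
  i2_Vm hR hy1 hy2 (Ami_measurable x i0) Bch_measurable hρ hc hw hK v2

/-- joint measurability of the statistics of the first factors, plus channel -/
theorem jApl {ρ : ℝ → ℂ} (hρ : AEStronglyMeasurable ρ volume) (hc : ∀ n ≤ N, MCr (η n) (η' n)) :
    AEStronglyMeasurable (fun p : CfN N × (Bool × ℝ) => Vp ρ η (Apl x i0 p.2) p.1)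
      ((mN N).prod wm) := jVp (Apl_measurable x i0) hρ hc

/-- joint measurability of the statistics of the second factors, plus channel -/
theorem jBpl {ρ : ℝ → ℂ} (hρ : AEStronglyMeasurable ρ volume) (hc : ∀ n ≤ N, MCr (η n) (η' n)) :
    AEStronglyMeasurable (fun p : CfN N × (Bool × ℝ) => Vp ρ η (Bch p.2) p.1)
      ((mN N).prod wm) := jVp Bch_measurable hρ hc

/-- joint measurability of the statistics of the first factors, minus channel -/
theorem jAmi {ρ : ℝ → ℂ} (hρ : AEStronglyMeasurable ρ volume) (hc : ∀ n ≤ N, MCr (η n) (η' n)) :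
    AEStronglyMeasurable (fun p : CfN N × (Bool × ℝ) => Vm ρ η (Ami x i0 p.2) p.1)
      ((mN N).prod wm) := jVm (Ami_measurable x i0) hρ hc

/-- joint measurability of the statistics of the second factors, minus channel -/
theorem jBmi {ρ : ℝ → ℂ} (hρ : AEStronglyMeasurable ρ volume) (hc : ∀ n ≤ N, MCr (η n) (η' n)) :
    AEStronglyMeasurable (fun p : CfN N × (Bool × ℝ) => Vm ρ η (Bch p.2) p.1)
      ((mN N).prod wm) := jVm Bch_measurable hρ hc

end chan

end PBRep.PLX

end
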