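import Pool.Agent.PLX.Ns
import Pool.Agent.PLX.NUGC.DefC
import Pool.Agent.PLX.Fil
import Pool.Agent.PB.ObDef

/-!
# Plan B: factors of rows and legs on a quantum, every row of species Y is a `q`-fold row

* `rwO x u`, `rwX x u`: moduli of the factors of ONE row at `x ∈ ℂ` on a quantum at `u` of the own
  species and of the other species;
* `rwC a x u`: modulus of the factor of the row `x` of both species, with its multiplicities, on a
  quantum of species `a`: `rwC_eq : rwC a x u = rwO x u ^ n a * rwX x u ^ n (!a)`;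
* `thZ z u`: modulus of the factor of the two legs at `z`.
-/

set_option autoImplicit false

noncomputable section

open PLX (Fil)

namespace PBO.PLX

open NUO NUP1 NUCR NUGC NUGC.PLX

/-- own part of the modulus of the factor of one row -/
def rwO (x u : ℂ) : ℝ := (‖Complex.sin (u - x)‖ * ‖Complex.sin (u - x - 2 * l)‖)⁻¹

/-- cross part of the modulus of the factor of one row -/
def rwX (x u : ℂ) : ℝ := ‖Complex.sin (u - x + 3 * l)‖ ^ 2

/-- modulus of the factor of the two legs at `z` -/
def thZ (z u : ℂ) : ℝ := ‖Complex.sin (z - u - 3 * l)‖ / ‖Complex.sin (z - u + 2 * l)‖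

theorem rwO_nonneg (x u : ℂ) : 0 ≤ rwO x u := by unfold rwO; positivity

theorem rwX_nonneg (x u : ℂ) : 0 ≤ rwX x u := by unfold rwX; positivity

theorem thZ_nonneg (z u : ℂ) : 0 ≤ thZ z u := by unfold thZ; positivity

/-- one row in both species: the factor of the landed files -/
theorem rwO_mul_rwX (x u : ℂ) : rwO x u * rwX x u = PBO.rwC x u := by
  unfold rwO rwX PBO.rwC
  ring

theorem phi_perm {X Y : List ℂ} (h : X.Perm Y) (b : ℝ) : phi b X = phi b Y := by
  funext u
  unfold phi
  rw [(h.map fun x => psi b (u - x)).prod_eq]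

variable [Fil]

/-- **modulus of the factor of the row at `x` (both species, `Fil.n` - fold) on a quantum of species
`a` at `u`** -/
def rwC (a : Bool) (x u : ℂ) : ℝ :=
  ‖Complex.sin (u - x + 3 * l)‖ ^ (2 * Fil.n (!a)) /
    (‖Complex.sin (u - x)‖ * ‖Complex.sin (u - x - 2 * l)‖) ^ Fil.n a

theorem rwC_eq (a : Bool) (x u : ℂ) : rwC a x u = rwO x u ^ Fil.n a * rwX x u ^ Fil.n (!a) := by
  unfold rwC rwO rwX
  rw [inv_pow, ← pow_mul, div_eq_mul_inv, mul_comm]

theorem rwC_nonneg (a : Bool) (x u : ℂ) : 0 ≤ rwC a x u := by unfold rwC; positivity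

theorem prod_rwC_nonneg (a : Bool) (mu : List ℂ) (u : ℂ) :
    0 ≤ (mu.map fun x => rwC a x u).prod := by
  refine List.prod_nonneg fun b hb => ?_
  obtain ⟨x, -, rfl⟩ := List.mem_map.1 hb
  exact rwC_nonneg a x u

omit [Fil] in
/-- products of powers over a list -/
theorem prod_map_pow {α : Type*} (L : List α) (f : α → ℝ) (n : ℕ) :
    (L.map fun x => f x ^ n).prod = (L.map f).prod ^ n := by
  induction L with
  | nil => simp
  | cons x L ih => rw [List.map_cons, List.prod_cons, List.map_cons, List.prod_cons, ih, mul_pow]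

theorem prod_rwC (a : Bool) (mu : List ℂ) (u : ℂ) : (mu.map fun x => rwC a x u).prod =
    (mu.map fun x => rwO x u).prod ^ Fil.n a * (mu.map fun x => rwX x u).prod ^ Fil.n (!a) := by
  rw [← prod_map_pow, ← prod_map_pow, ← List.prod_map_mul]
  congr 1
  refine List.map_congr_left fun x _ => ?_
  exact rwC_eq a x u

end PBO.PLX

end
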