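import Pool.Agent.PLX.PB.HPotA
import Pool.Agent.PLX.PB.ObDef
import Pool.Agent.PLX.PotH.Crv
import Pool.Agent.PB.ObDef

/-!
# PLAX: the factors of rows, legs and ends on the curve

* `rwC_pA`, `rwC_pA_sub`, `thZ_pA`, `ThN_pA`, `rwC1_pA`: the factors on a curve are exponentials of atoms
  and moved rows;
* `Hleg κ z x η a t`: legs at `z`, row `x` of X and `q`-fold row `x` of Y in place of rows at `0`, ends
  removed `κ` times, species `a` on its curve `Fil.cv a η`; `Hleg_eq`;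
* **`hsk_legs_sm`**, **`hsk_legsS_sm`**: they are admissible up to a source;
* `sm_of`, **`hok`**, **`hsk_legs`**, **`hsk_legsS`**: the same for the curves `CrvP` of the chain.
-/

set_option autoImplicit false
set_option linter.unusedSectionVars false
set_option linter.unusedVariables false

open MeasureTheory Filter Topology Set Complex
open PLX (Fil)

namespace PBH.PLX

open NUMF (l l_pos)
open NUO (pA Tb)
open PotH.PLX (HOk HSk CrvP)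

noncomputable section

/-! ### the factors on the curve -/

lemma four_l : (4 : ℂ) * l = Real.pi / 2 := by
  unfold NUMF.l
  push_cast
  ring

lemma cosh_eq (w : ℂ) : Complex.cosh w = Complex.cos (w * I) := (Complex.cos_mul_I w).symm

lemma pA_eq (η : ℝ → ℝ) (t : ℝ) : pA η t = (l : ℂ) - η t + t * I := by
  unfold NUO.pA NUP1.vl
  rw [show NUP1.l = l from rfl]
  push_cast
  ring

/-- **the three sines of a row** -/
theorem sin_row (x : ℂ) (η : ℝ → ℝ) (t : ℝ) :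
    ‖Complex.sin (pA η t - x + 3 * l)‖ = ‖Complex.cosh (pw x.re x.im η t)‖ ∧
    ‖Complex.sin (pA η t - x)‖ = ‖Complex.cosh (pw (x.re + 3 * l) x.im η t)‖ ∧
    ‖Complex.sin (pA η t - x - 2 * l)‖ = ‖Complex.cosh (pw (x.re - 3 * l) x.im η t)‖ := by
  have hx : x = (x.re : ℂ) + x.im * I := (Complex.re_add_im x).symm
  have h4 := four_l
  have hI := Complex.I_mul_I
  refine ⟨?_, ?_, ?_⟩
  · rw [cosh_eq, ← Complex.sin_add_pi_div_two]
    congr 2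
    rw [pA_eq, pw, ← h4]
    conv_lhs => rw [hx]
    push_cast
    linear_combination (-(η t : ℂ) - x.re) * hI
  · rw [cosh_eq, ← Complex.cos_neg, ← Complex.sin_pi_div_two_sub]
    congr 2
    rw [pA_eq, pw, ← h4]
    conv_lhs => rw [hx]
    push_cast
    linear_combination (-(η t : ℂ) - x.re - 3 * l) * hI
  · rw [cosh_eq, ← norm_neg (Complex.sin _), ← Complex.sin_neg, ← Complex.cos_pi_div_two_sub]
    congr 2
    rw [pA_eq, pw, ← h4]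
    conv_lhs => rw [hx]
    push_cast
    linear_combination (-(η t : ℂ) - x.re + 3 * l) * hI

/-- **the two sines of a leg** -/
theorem sin_leg (z : ℂ) (η : ℝ → ℝ) (t : ℝ) :
    ‖Complex.sin (z - pA η t - 3 * l)‖ = ‖Complex.cosh (pw z.re z.im η t)‖ ∧
    ‖Complex.sin (z - pA η t + 2 * l)‖ = ‖Complex.cosh (pw (z.re - 3 * l) z.im η t)‖ := by
  have hz : z = (z.re : ℂ) + z.im * I := (Complex.re_add_im z).symm
  have h4 := four_l
  have hI := Complex.I_mul_I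
  refine ⟨?_, ?_⟩
  · rw [cosh_eq, ← norm_neg (Complex.sin _), ← Complex.sin_neg, ← Complex.sin_add_pi_div_two]
    congr 2
    rw [pA_eq, pw, ← h4]
    conv_lhs => rw [hz]
    push_cast
    linear_combination (-(η t : ℂ) - z.re) * hI
  · rw [cosh_eq, ← Complex.cos_pi_div_two_sub]
    congr 2
    rw [pA_eq, pw, ← h4]
    conv_lhs => rw [hz]
    push_cast
    linear_combination (-(η t : ℂ) - z.re + 3 * l) * hI

variable {δ : ℝ} {η : ℝ → ℝ}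

/-- the three moduli of a row are positive -/
lemma row_pos (hδ : 0 < δ) (hη : ∀ t, |η t| ≤ δ / 2) {x : ℂ} (hx : |x.re| ≤ l - δ) (t : ℝ) :
    0 < ‖Complex.sin (pA η t - x + 3 * l)‖ ∧ 0 < ‖Complex.sin (pA η t - x)‖ ∧
      0 < ‖Complex.sin (pA η t - x - 2 * l)‖ := by
  have hl := l_pos
  have h04 : δ ≤ 4 * l := by linarith [(abs_nonneg _).trans hx]
  obtain ⟨-, -, y3, y4, y5, -⟩ := row_lines hδ hx
  obtain ⟨s1, s2, s3⟩ := sin_row x η t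
  rw [s1, s2, s3]
  exact ⟨pw_norm hδ h04 y5 hη t, pw_norm hδ h04 y3 hη t, pw_norm hδ h04 y4 hη t⟩

/-- **leg factor on the curve** -/
theorem thZ_pA (hδ : 0 < δ) (hδ1 : δ ≤ l) (hη : ∀ t, |η t| ≤ δ / 2) {z : ℂ} (h0 : -l + δ ≤ z.re)
    (h1 : z.re ≤ 4 * l - δ) (t : ℝ) : 0 < PBO.PLX.thZ z (pA η t) ∧
      Real.log (PBO.PLX.thZ z (pA η t)) = AT z.re (z.re - 3 * l) z.im η t := by
  have hl := l_pos
  have p0 := pw_norm (c := z.im) hδ (by linarith) (y := z.re)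
    (by rw [abs_le]; constructor <;> linarith) hη t
  have p2 := pw_norm (c := z.im) hδ (by linarith) (y := z.re - 3 * l)
    (by rw [abs_le]; constructor <;> linarith) hη t
  obtain ⟨s1, s2⟩ := sin_leg z η t
  have e : PBO.PLX.thZ z (pA η t) = ‖Complex.cosh (pw z.re z.im η t)‖ /
      ‖Complex.cosh (pw (z.re - 3 * l) z.im η t)‖ := by
    rw [← s1, ← s2]
    rfl
  rw [e]
  exact ⟨by positivity, by rw [Real.log_div p0.ne' p2.ne', AT_log]⟩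

/-- **the factor of the ends on the curve** -/
theorem ThN_pA (hδ : 0 < δ) (hδ1 : δ ≤ l / 2) (hη : ∀ t, |η t| ≤ δ / 2) (t : ℝ) :
    0 < NUGC.PLX.ThN (pA η t) ∧ Real.log (NUGC.PLX.ThN (pA η t)) =
      1 / 2 * AT (7 / 2 * l) (-(7 / 2 * l)) 0 η t + 1 / 2 * AT (5 / 2 * l) (-(5 / 2 * l)) 0 η t := by
  have hl := l_pos
  have q : ∀ y : ℝ, |y| ≤ 7 / 2 * l → 0 < ‖Complex.cosh (pw y 0 η t)‖ := fun y hy =>
    pw_norm (c := 0) hδ (by linarith) (by linarith) hη t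
  have p1 := q (7 / 2 * l) (by rw [abs_of_pos (by linarith)])
  have p2 := q (-(7 / 2 * l)) (by rw [abs_neg, abs_of_pos (by linarith)])
  have p3 := q (5 / 2 * l) (by rw [abs_of_pos (by linarith)]; linarith)
  have p4 := q (-(5 / 2 * l)) (by rw [abs_neg, abs_of_pos (by linarith)]; linarith)
  have h4 := four_l
  have hI := Complex.I_mul_I
  have hl1 : (NUP1.l : ℂ) = (l : ℂ) := rfl
  have s1 : ‖Complex.sin (pA η t - NUP1.l / 2)‖ = ‖Complex.cosh (pw (7 / 2 * l) 0 η t)‖ := by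
    rw [cosh_eq, ← Complex.cos_neg, ← Complex.sin_pi_div_two_sub]
    congr 2
    rw [pA_eq, pw, ← h4, hl1]
    push_cast
    linear_combination (-(η t : ℂ) - 7 / 2 * l) * hI
  have s2 : ‖Complex.sin (pA η t + NUP1.l / 2)‖ = ‖Complex.cosh (pw (5 / 2 * l) 0 η t)‖ := by
    rw [cosh_eq, ← Complex.cos_neg, ← Complex.sin_pi_div_two_sub]
    congr 2
    rw [pA_eq, pw, ← h4, hl1]
    push_cast
    linear_combination (-(η t : ℂ) - 5 / 2 * l) * hI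
  have s3 : ‖Complex.sin (pA η t - 5 * NUP1.l / 2)‖ = ‖Complex.cosh (pw (-(5 / 2 * l)) 0 η t)‖ := by
    rw [cosh_eq, ← norm_neg (Complex.sin _), ← Complex.sin_neg, ← Complex.cos_pi_div_two_sub]
    congr 2
    rw [pA_eq, pw, ← h4, hl1]
    push_cast
    linear_combination (-(η t : ℂ) + 5 / 2 * l) * hI
  have s4 : ‖Complex.sin (pA η t - 3 * NUP1.l / 2)‖ = ‖Complex.cosh (pw (-(7 / 2 * l)) 0 η t)‖ := by
    rw [cosh_eq, ← norm_neg (Complex.sin _), ← Complex.sin_neg, ← Complex.cos_pi_div_two_sub]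
    congr 2
    rw [pA_eq, pw, ← h4, hl1]
    push_cast
    linear_combination (-(η t : ℂ) + 7 / 2 * l) * hI
  unfold NUGC.PLX.ThN
  rw [s1, s2, s3, s4]
  have hp : 0 < ‖Complex.cosh (pw (7 / 2 * l) 0 η t)‖ * ‖Complex.cosh (pw (5 / 2 * l) 0 η t)‖ /
      (‖Complex.cosh (pw (-(5 / 2 * l)) 0 η t)‖ * ‖Complex.cosh (pw (-(7 / 2 * l)) 0 η t)‖) := by
    positivity
  refine ⟨Real.rpow_pos_of_pos hp _, ?_⟩
  rw [Real.log_rpow hp, Real.log_div (by positivity) (by positivity), Real.log_mul p1.ne' p3.ne',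
    Real.log_mul p4.ne' p2.ne', AT_log, AT_log]
  ring

/-- **the factor of a one-fold row of both species on the curve** (the factor of the landed files) -/
theorem rwC1_pA (hδ : 0 < δ) (hη : ∀ t, |η t| ≤ δ / 2) {x : ℂ} (hx : |x.re| ≤ l - δ) (t : ℝ) :
    0 < PBO.rwC x (pA η t) ∧ Real.log (PBO.rwC x (pA η t)) =
      AT x.re (x.re + 3 * l) x.im η t + AT x.re (x.re - 3 * l) x.im η t := by
  obtain ⟨p0, p1, p2⟩ := row_pos hδ hη hx t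
  have e : PBO.rwC x (pA η t) = ‖Complex.sin (pA η t - x + 3 * l)‖ ^ 2 /
      (‖Complex.sin (pA η t - x)‖ * ‖Complex.sin (pA η t - x - 2 * l)‖) := rfl
  rw [e]
  refine ⟨by positivity, ?_⟩
  rw [Real.log_div (by positivity) (by positivity), Real.log_pow, Real.log_mul p1.ne' p2.ne']
  obtain ⟨s1, s2, s3⟩ := sin_row x η t
  rw [s1, s2, s3, AT_log, AT_log]
  push_cast
  ring

/-! ### rows `(x | x^q)` -/

variable [Fil]

/-- **row factor on the curve** -/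
theorem rwC_pA (a : Bool) (hδ : 0 < δ) (hη : ∀ t, |η t| ≤ δ / 2) {x : ℂ} (hx : |x.re| ≤ l - δ)
    (t : ℝ) : 0 < PBO.PLX.rwC a x (pA η t) ∧ Real.log (PBO.PLX.rwC a x (pA η t)) =
      2 * Fil.b (!a) * NL x.re x.im η t -
        Fil.b a * (NL (x.re + 3 * l) x.im η t + NL (x.re - 3 * l) x.im η t) := by
  obtain ⟨p0, p1, p2⟩ := row_pos hδ hη hx t
  have e : PBO.PLX.rwC a x (pA η t) = ‖Complex.sin (pA η t - x + 3 * l)‖ ^ (2 * Fil.n (!a)) /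
      (‖Complex.sin (pA η t - x)‖ * ‖Complex.sin (pA η t - x - 2 * l)‖) ^ Fil.n a := rfl
  rw [e]
  refine ⟨by positivity, ?_⟩
  rw [Real.log_div (by positivity) (by positivity), Real.log_pow, Real.log_pow,
    Real.log_mul p1.ne' p2.ne', Nat.cast_mul, Fil.cast_n, Fil.cast_n]
  obtain ⟨s1, s2, s3⟩ := sin_row x η t
  rw [s1, s2, s3]
  unfold NL
  push_cast
  ring

/-- **a moved row on the curve** -/
theorem rwC_pA_sub (a : Bool) (hδ : 0 < δ) (hη : ∀ t, |η t| ≤ δ / 2) {x : ℂ} (hx : |x.re| ≤ l - δ)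
    (t : ℝ) : Real.log (PBO.PLX.rwC a x (pA η t)) - Real.log (PBO.PLX.rwC a 0 (pA η t)) =
      Fil.b a * RO x η t + Fil.b (!a) * RX x η t := by
  have h1 := (rwC_pA a hδ hη hx t).2
  have h2 := (rwC_pA a hδ hη (x := 0) (by
    rw [Complex.zero_re, abs_zero]
    exact (abs_nonneg _).trans hx) t).2
  rw [Complex.zero_re, Complex.zero_im, zero_add, zero_sub] at h2
  rw [h1, h2]
  unfold RO RX
  ring

/-! ### the potential of the legs at `z` with one moved row `x`, rows at `0` -/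

/-- legs at `z`, row `x` of X and `q`-fold row `x` of Y in place of rows at `0`, ends removed `κ` times;
species `a` on the curve `cv a η` -/
def Hleg (κ : ℝ) (z x : ℂ) (η : ℝ → ℝ) (a : Bool) (t : ℝ) : ℝ :=
  Real.log (PBO.PLX.thZ z (pA (Fil.cv a η) t)) + Real.log (PBO.PLX.rwC a x (pA (Fil.cv a η) t)) -
    Real.log (PBO.PLX.rwC a 0 (pA (Fil.cv a η) t)) - κ * Real.log (NUGC.PLX.ThN (pA (Fil.cv a η) t))

/-- atoms of the legs, of the ends and of `e` one-fold rows of both species at `0` (removed) -/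
def aleg (e κ : ℝ) (z : ℂ) (_a : Bool) : Fin 5 → Atm := ![⟨1, z.re, z.re - 3 * l, z.im⟩,
  ⟨-(κ / 2), 7 / 2 * l, -(7 / 2 * l), 0⟩, ⟨-(κ / 2), 5 / 2 * l, -(5 / 2 * l), 0⟩,
  ⟨-e, 0, 3 * l, 0⟩, ⟨-e, 0, -(3 * l), 0⟩]

/-- **the potential with `e` one-fold rows of both species at `0` removed** -/
theorem HlegS_eq {κ e : ℝ} (hδ : 0 < δ) (hδ1 : δ ≤ l / 2) (hη : ∀ t, |η t| ≤ δ / 2) {z x : ℂ}
    (h0 : -l + δ ≤ z.re) (h1 : z.re ≤ 4 * l - δ) (hx : |x.re| ≤ l - δ) :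
    (fun a t => Hleg κ z x η a t - e * Real.log (PBO.rwC 0 (pA (Fil.cv a η) t))) =
      fun a t => HS (aleg e κ z) (fun a => Fil.cv a η) a t + RW Fil.b x (fun a => Fil.cv a η) a t := by
  have hl := l_pos
  funext a t
  have hη' : ∀ t, |Fil.cv a η t| ≤ δ / 2 := fun t => Fil.abs_cv_le_of (hη t)
  have e1 := (thZ_pA hδ (by linarith) hη' h0 h1 t).2
  have e2 := rwC_pA_sub a hδ hη' hx t
  have e3 := (rwC1_pA hδ hη' (x := 0) (by simp; linarith) t).2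
  have e4 := (ThN_pA hδ hδ1 hη' t).2
  rw [Complex.zero_re, Complex.zero_im, zero_add, zero_sub] at e3
  unfold Hleg HS aleg RW
  rw [e1, e3, e4]
  simp only [Fin.sum_univ_succ, Matrix.cons_val_zero, Matrix.cons_val_succ, Fin.sum_univ_zero,
    Matrix.cons_val_fin_one]
  linear_combination e2

theorem Hleg_eq {κ : ℝ} (hδ : 0 < δ) (hδ1 : δ ≤ l / 2) (hη : ∀ t, |η t| ≤ δ / 2) {z x : ℂ}
    (h0 : -l + δ ≤ z.re) (h1 : z.re ≤ 4 * l - δ) (hx : |x.re| ≤ l - δ) :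
    Hleg κ z x η = fun a t => HS (aleg 0 κ z) (fun a => Fil.cv a η) a t +
      RW Fil.b x (fun a => Fil.cv a η) a t := by
  rw [← HlegS_eq hδ hδ1 hη h0 h1 hx]
  funext a t
  rw [zero_mul, sub_zero]

lemma aleg_ok {κ e : ℝ} (hκ : |κ| ≤ 2) (he : |e| ≤ 2) (hδ : 0 < δ) (hδ1 : δ ≤ l / 2) {z : ℂ}
    (h0 : -l + δ ≤ z.re) (h1 : z.re ≤ 4 * l - δ) : AtOk 2 δ (aleg e κ z) := by
  have hl := l_pos
  obtain ⟨k1, k2⟩ := abs_le.1 hκ
  obtain ⟨k3, k4⟩ := abs_le.1 he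
  intro a i
  fin_cases i
  all_goals refine ⟨abs_le.2 ⟨?_, ?_⟩, abs_le.2 ⟨?_, ?_⟩, abs_le.2 ⟨?_, ?_⟩⟩
  all_goals simp [aleg]
  all_goals linarith

/-- the factors of the legs and of the moved row -/
theorem leg_facts {κ : ℝ} (hδ : 0 < δ) (hδ1 : δ ≤ l / 2) (hη : ∀ t, |η t| ≤ δ / 2) {z x : ℂ}
    (h0 : -l + δ ≤ z.re) (h1 : z.re ≤ 4 * l - δ) (hx : |x.re| ≤ l - δ) (a : Bool) (t : ℝ) :
    0 < PBO.PLX.thZ z (pA (Fil.cv a η) t) ∧ 0 < PBO.PLX.rwC a x (pA (Fil.cv a η) t) ∧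
      0 < PBO.PLX.rwC a 0 (pA (Fil.cv a η) t) ∧ 0 < NUGC.PLX.ThN (pA (Fil.cv a η) t) ∧
      PBO.PLX.thZ z (pA (Fil.cv a η) t) * PBO.PLX.rwC a x (pA (Fil.cv a η) t) =
        PBO.PLX.rwC a 0 (pA (Fil.cv a η) t) * NUGC.PLX.ThN (pA (Fil.cv a η) t) ^ κ *
          Real.exp (Hleg κ z x η a t) := by
  have hl := l_pos
  have hη' : ∀ t, |Fil.cv a η t| ≤ δ / 2 := fun t => Fil.abs_cv_le_of (hη t)
  have p1 := (thZ_pA hδ (by linarith) hη' h0 h1 t).1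
  have p2 := (rwC_pA a hδ hη' hx t).1
  have p3 := (rwC_pA a hδ hη' (x := 0) (by simp; linarith) t).1
  have p4 := (ThN_pA hδ hδ1 hη' t).1
  refine ⟨p1, p2, p3, p4, ?_⟩
  unfold Hleg
  rw [Real.exp_sub, Real.exp_sub, Real.exp_add, Real.exp_log p1, Real.exp_log p2,
    Real.exp_log p3, mul_comm κ, Real.exp_mul, Real.exp_log p4]
  have p5 := Real.rpow_pos_of_pos p4 κ
  field_simp

/-- **the legs, one moved row, `e` one-fold rows removed**, curves with small derivatives -/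
theorem hsk_legsS_sm {δ : ℝ} (hδ : 0 < δ) (hδ1 : δ ≤ l / 2) (c1 : ℝ) :
    ∃ B0 N0 : ℝ, 0 ≤ B0 ∧ 0 ≤ N0 ∧ ∃ A0 : ℝ, 0 ≤ A0 ∧ ∀ (η η1 : ℝ → ℝ), Sm (δ / 4) η η1 →
      ∀ (κ e : ℝ) (z x : ℂ), |κ| ≤ 2 → |e| ≤ 2 → -l + δ ≤ z.re → z.re ≤ 4 * l - δ →
      |x.re| ≤ l - δ → |x.im| ≤ c1 →
      ∃ H' : Bool → ℝ → ℝ, ∀ th b A : ℝ, 0 ≤ th → A0 ≤ A → HSk B0 N0 th b A
        (fun a t => Hleg κ z x η a t - e * Real.log (PBO.rwC 0 (pA (Fil.cv a η) t))) H' := by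
  have hl := l_pos
  have h8 := l8
  have hpi := Real.pi_lt_four
  have hq : (0 : ℝ) < (Fil.q : ℝ) := Fil.q_posr
  obtain ⟨B0, N0, hB0, hN0, A0, hA0, H⟩ := hsk_sm 5 (K := 2 + Fil.q) (δ := δ) (by linarith) hδ
    (by linarith) c1
  refine ⟨B0, N0, hB0, hN0, A0, hA0, fun η η1 hη κ e z x hκ he h0 h1 hx hc => ?_⟩
  have hη2 : ∀ t, |η t| ≤ δ / 2 := fun t => (hη.le t).trans (by linarith)
  refine ⟨fun a t => HS' (aleg e κ z) (fun a => Fil.cv a η) (fun a => Fil.cv a η1) a t +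
    RW' Fil.b x (fun a => Fil.cv a η) (fun a => Fil.cv a η1) a t, fun th b A hth hA => ?_⟩
  rw [HlegS_eq hδ hδ1 hη2 h0 h1 hx]
  have hA2 := aleg_ok hκ he hδ hδ1 h0 h1
  refine H _ _ (fun a => hη.cv a) _ (fun a i => ⟨(hA2 a i).1.trans (by linarith), (hA2 a i).2⟩) _ _
    (fun a => ?_) hx hc th b A hth hA
  rw [abs_of_pos (Fil.b_pos a)]
  have := Fil.b_le a
  linarith

/-- **the legs and one moved row**, curves with small derivatives -/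
theorem hsk_legs_sm {δ : ℝ} (hδ : 0 < δ) (hδ1 : δ ≤ l / 2) (c1 : ℝ) :
    ∃ B0 N0 : ℝ, 0 ≤ B0 ∧ 0 ≤ N0 ∧ ∃ A0 : ℝ, 0 ≤ A0 ∧ ∀ (η η1 : ℝ → ℝ), Sm (δ / 4) η η1 →
      ∀ (κ : ℝ) (z x : ℂ), |κ| ≤ 2 → -l + δ ≤ z.re → z.re ≤ 4 * l - δ →
      |x.re| ≤ l - δ → |x.im| ≤ c1 →
      ∃ H' : Bool → ℝ → ℝ, ∀ th b A : ℝ, 0 ≤ th → A0 ≤ A → HSk B0 N0 th b A (Hleg κ z x η) H' := by
  obtain ⟨B0, N0, hB0, hN0, A0, hA0, H⟩ := hsk_legsS_sm hδ hδ1 c1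
  refine ⟨B0, N0, hB0, hN0, A0, hA0, fun η η1 hη κ z x hκ h0 h1 hx hc => ?_⟩
  obtain ⟨H', h⟩ := H η η1 hη κ 0 z x hκ (by norm_num) h0 h1 hx hc
  refine ⟨H', fun th b A hth hA => ?_⟩
  have := h th b A hth hA
  simpa only [zero_mul, sub_zero] using this

/-! ### the curves of the chain -/

section

variable [NUSea.Sea]

omit [Fil] in
/-- curves of the chain are small -/
theorem sm_of {e1 Cc : ℝ} {m : ℕ} {η η1 : ℝ → ℝ} (h : CrvP e1 Cc m η η1) {ε : ℝ}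
    (hm : (m : ℝ) ^ (-(e1 / 2)) ≤ ε) : Sm ε η η1 := by
  obtain ⟨ε0, e, hC, h0, h1, h2⟩ := h.cur
  have hO : NUOC.O 4 1 η := by
    have a := (hC.oc.smul (-I)).re (a := 1) (fun t => by
      rw [norm_neg, Complex.norm_I, one_mul]
      linarith [hC.le t])
    refine a.congr fun t => ?_
    unfold NUKer.iD
    rw [show -I * ((η t : ℂ) * I) = (η t : ℂ) by
      rw [show -I * ((η t : ℂ) * I) = -(I * I) * η t by ring, Complex.I_mul_I]; ring,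
      Complex.ofReal_re]
  have hle : ∀ t, |η t| ≤ ε := by
    intro t
    have a := hC.oc.le t
    unfold NUKer.iD at a
    rw [norm_mul, Complex.norm_I, mul_one, Complex.norm_real, Real.norm_eq_abs] at a
    linarith [hC.le t]
  refine ⟨hO, h.d, h.c, hle, fun t => ?_⟩
  obtain ⟨-, f', hf, ho⟩ := hO
  have := (hf t).unique (h.d t)
  rw [← this]
  exact ho.le t

omit [Fil] in
lemma eventually_small {e1 ε A0 : ℝ} (he1 : 0 < e1) (hε : 0 < ε) : ∃ m0 : ℕ, ∀ m : ℕ, m0 ≤ m →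
    (m : ℝ) ^ (-(e1 / 2)) ≤ ε ∧ A0 ≤ Real.log m ^ 3 := by
  have t1 : Tendsto (fun m : ℕ => (m : ℝ) ^ (-(e1 / 2))) atTop (𝓝 0) :=
    (tendsto_rpow_neg_atTop (by linarith : 0 < e1 / 2)).comp tendsto_natCast_atTop_atTop
  have t2 : Tendsto (fun m : ℕ => Real.log m ^ 3) atTop atTop :=
    (tendsto_pow_atTop (by norm_num)).comp (Real.tendsto_log_atTop.comp tendsto_natCast_atTop_atTop)
  exact eventually_atTop.1 ((t1.eventually (ge_mem_nhds hε)).and (t2.eventually_ge_atTop A0))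

/-- **admissible potentials of the chain**: sums of atoms satisfy the hypotheses of the sharp bound -/
theorem hok (n : ℕ) {K δ : ℝ} (hK : 0 ≤ K) (hδ : 0 < δ) (hδ1 : δ ≤ 1) :
    ∃ B0 N0 : ℝ, 0 ≤ B0 ∧ 0 ≤ N0 ∧ ∀ e1 : ℝ, 0 < e1 → ∃ m0 : ℕ, ∀ m : ℕ, m0 ≤ m →
      ∀ (Cc : ℝ) (η η1 : ℝ → ℝ), CrvP e1 Cc m η η1 → ∀ x : Bool → Fin n → Atm, AtOk K δ x →
      ∀ th b : ℝ, 0 ≤ th → HOk B0 N0 th b (Real.log m ^ 3) (HS x fun a => Fil.cv a η)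
        (HS' x (fun a => Fil.cv a η) fun a => Fil.cv a η1) := by
  obtain ⟨B0, N0, hB0, hN0, A0, hA0, H⟩ := hok_sm n hK hδ hδ1
  refine ⟨B0, N0, hB0, hN0, fun e1 he1 => ?_⟩
  obtain ⟨m0, hm0⟩ := eventually_small (A0 := A0) he1 (by linarith : (0 : ℝ) < δ / 4)
  refine ⟨m0, fun m hm Cc η η1 hη x hx th b hth => ?_⟩
  obtain ⟨a1, a2⟩ := hm0 m hm
  exact H _ _ (fun a => (sm_of hη a1).cv a) x hx th b _ hth a2

/-- **the legs, one moved row, `e` one-fold rows of both species at `0` removed: admissible up to a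
source**: `-l + δ ≤ Re z ≤ 4 l - δ`, `|Re x| ≤ l - δ`, legs at any height, `|Im x| ≤ c1` -/
theorem hsk_legsS {δ : ℝ} (hδ : 0 < δ) (hδ1 : δ ≤ l / 2) (c1 : ℝ) :
    ∃ B0 N0 : ℝ, 0 ≤ B0 ∧ 0 ≤ N0 ∧ ∀ e1 : ℝ, 0 < e1 → ∃ m0 : ℕ, ∀ m : ℕ, m0 ≤ m →
      ∀ (Cc : ℝ) (η η1 : ℝ → ℝ), CrvP e1 Cc m η η1 → ∀ (κ e : ℝ) (z x : ℂ), |κ| ≤ 2 → |e| ≤ 2 →
      -l + δ ≤ z.re → z.re ≤ 4 * l - δ → |x.re| ≤ l - δ → |x.im| ≤ c1 →
      (∀ t, |η t| ≤ δ / 4) ∧ ∃ H' : Bool → ℝ → ℝ, ∀ th b : ℝ, 0 ≤ th →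
        HSk B0 N0 th b (Real.log m ^ 3)
          (fun a t => Hleg κ z x η a t - e * Real.log (PBO.rwC 0 (pA (Fil.cv a η) t))) H' := by
  obtain ⟨B0, N0, hB0, hN0, A0, hA0, H⟩ := hsk_legsS_sm hδ hδ1 c1
  refine ⟨B0, N0, hB0, hN0, fun e1 he1 => ?_⟩
  obtain ⟨m0, hm0⟩ := eventually_small (A0 := A0) he1 (by linarith : (0 : ℝ) < δ / 4)
  refine ⟨m0, fun m hm Cc η η1 hη κ e z x hκ he h0 h1 hx hc => ?_⟩
  obtain ⟨a1, a2⟩ := hm0 m hm
  have hS := sm_of hη a1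
  obtain ⟨H', h⟩ := H η η1 hS κ e z x hκ he h0 h1 hx hc
  exact ⟨hS.le, H', fun th b hth => h th b _ hth a2⟩

/-- **the legs and one moved row are admissible up to a source**: `-l + δ ≤ Re z ≤ 4 l - δ`,
`|Re x| ≤ l - δ`, legs at any height, `|Im x| ≤ c1` -/
theorem hsk_legs {δ : ℝ} (hδ : 0 < δ) (hδ1 : δ ≤ l / 2) (c1 : ℝ) :
    ∃ B0 N0 : ℝ, 0 ≤ B0 ∧ 0 ≤ N0 ∧ ∀ e1 : ℝ, 0 < e1 → ∃ m0 : ℕ, ∀ m : ℕ, m0 ≤ m →
      ∀ (Cc : ℝ) (η η1 : ℝ → ℝ), CrvP e1 Cc m η η1 → ∀ (κ : ℝ) (z x : ℂ), |κ| ≤ 2 →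
      -l + δ ≤ z.re → z.re ≤ 4 * l - δ → |x.re| ≤ l - δ → |x.im| ≤ c1 →
      (∀ a t, |η t| ≤ δ / 4 ∧ 0 < PBO.PLX.thZ z (pA (Fil.cv a η) t) ∧
        0 < PBO.PLX.rwC a x (pA (Fil.cv a η) t) ∧ 0 < PBO.PLX.rwC a 0 (pA (Fil.cv a η) t) ∧
        0 < NUGC.PLX.ThN (pA (Fil.cv a η) t) ∧
        PBO.PLX.thZ z (pA (Fil.cv a η) t) * PBO.PLX.rwC a x (pA (Fil.cv a η) t) =
          PBO.PLX.rwC a 0 (pA (Fil.cv a η) t) * NUGC.PLX.ThN (pA (Fil.cv a η) t) ^ κ *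
          Real.exp (Hleg κ z x η a t)) ∧
      ∃ H' : Bool → ℝ → ℝ, ∀ th b : ℝ, 0 ≤ th →
        HSk B0 N0 th b (Real.log m ^ 3) (Hleg κ z x η) H' := by
  obtain ⟨B0, N0, hB0, hN0, A0, hA0, H⟩ := hsk_legs_sm hδ hδ1 c1
  refine ⟨B0, N0, hB0, hN0, fun e1 he1 => ?_⟩
  obtain ⟨m0, hm0⟩ := eventually_small (A0 := A0) he1 (by linarith : (0 : ℝ) < δ / 4)
  refine ⟨m0, fun m hm Cc η η1 hη κ z x hκ h0 h1 hx hc => ?_⟩
  obtain ⟨a1, a2⟩ := hm0 m hm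
  have hS := sm_of hη a1
  have hη2 : ∀ t, |η t| ≤ δ / 2 := fun t => (hS.le t).trans (by linarith)
  obtain ⟨H', h⟩ := H η η1 hS κ z x hκ h0 h1 hx hc
  exact ⟨fun a t => ⟨hS.le t, leg_facts hδ hδ1 hη2 h0 h1 hx a t⟩, H', fun th b hth =>
    h th b _ hth a2⟩

end

end

end PBH.PLX
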