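import Pool.Agent.PLX.PB.KValA
import Pool.Agent.PLX.KDef
import Pool.Agent.PB.ValQ

/-!
# The value of a content: rows `EX ∪ 0^k`, `EY ∪ 0^k'`, legs at `z`

* `EMs_Q` : `EMs s = 1/2 (s₁² + s₂²) mEo 0 + s₁ s₂ mEx 0`;
* `lin EX EY a` : energy of the moved rows `EX`, `EY` against a row `0` of the group `a`;
* **`exists_Q2`** : `Q2 = EMs s + ∑ a, s a (lin a + lE z) + O((|EX| + |EY| + 1)²)`, `s` = numbers of all rows;
* `HE EX EY z ζ` : the potential of the moved rows and of the legs, **`exists_HE`** : its integral on the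
  curve;
* **`exists_KVal`** : `‖Pf‖ * exp (EMs s + ∑ a, ∫ s a P HE a) ≤ exp (C (D² + D h0))`, `D = |EX| + |EY| + 1`.
-/

set_option autoImplicit false
set_option linter.unusedSectionVars false
set_option linter.unusedVariables false

noncomputable section

open Complex MeasureTheory Set Filter Topology
open PLX (EMs)

namespace PBV.PLX

open NUMF (l l_pos)
open NUMFH (mE lE)
open PBR (rh)
open PBH.PLX (NL pw RO RX AT_NL Atm HS AtOk)
open PBH (AT)
open Pool.Agent.PB (Pf)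
open Pool.Agent.PLX (zr)

/-! ### the exponent of the sea -/

theorem mEx_zero : mEx 0 = PBVR.PLX.EX0 := by
  have hl := l_pos
  have hs := NUMFC.sq2_pos
  have x0 := H_mEx (w := 0) (by simp; linarith)
  simp only [Complex.zero_re, Complex.zero_im] at x0
  rw [NUMF.H_zero.1] at x0
  rw [PBVR.PLX.EX0_eq]
  have e1 : (2 + √2) / 3 = 4 / 3 * (1 + NUMF.r) / 2 := by
    unfold NUMF.r
    ring
  have e2 : 0 < 1 + NUMF.r := by
    unfold NUMF.r
    positivity
  have e3 : Real.log (4 / 3 * (1 + NUMF.r) / 2) =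
      Real.log (4 / 3) + Real.log (1 + NUMF.r) - Real.log 2 := by
    rw [Real.log_div (by positivity) (by norm_num), Real.log_mul (by norm_num) e2.ne']
  rw [e1, e3]
  clear * - x0
  linarith

theorem mE_zero : mE 0 = PBVR.PLX.EMF0 := NUMFH.int_P_v.symm

theorem EMs_Q (s : Bool → ℝ) : EMs s =
    1 / 2 * (s true ^ 2 + s false ^ 2) * mEo 0 + s true * s false * mEx 0 := by
  rw [_root_.PLX.EMs_cross, ← mE_zero, ← mEx_zero]
  unfold mEo
  ring

/-! ### bounds -/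

/-- the energies are bounded near the axis -/
theorem exists_en : ∃ C : ℝ, 1 ≤ C ∧ (∀ w : ℂ, |w.re| ≤ l → |w.im| ≤ 2 → |mEo w| ≤ C ∧ |mEx w| ≤ C) ∧
    ∀ w : ℂ, -l ≤ w.re → w.re ≤ 4 * l → |lE w| ≤ C := by
  have hl := l_pos
  obtain ⟨C1, h1, H1⟩ := NUMFH.exists_lE
  obtain ⟨C2, h2, H2⟩ := NUMFH.exists_mE
  obtain ⟨C3, h3, H3⟩ := NUMFH.log_rh_bd
  refine ⟨1 + C1 + C2 + 2 * (C3 + 2), by (clear * - h1 h2 h3; linarith), fun w hw hi => ?_, fun w h0 h4 =>
    (H1 w h0 h4).trans (by linarith)⟩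
  have e3 := H3 w (by linarith)
  have e2 := H2 w hw
  have ei := abs_nonneg w.im
  have hx : |mEx w| ≤ 2 * (C3 + 2) := by
    unfold mEx
    rw [abs_le] at e3 ⊢
    constructor <;> linarith [e3.1, e3.2]
  refine ⟨?_, by linarith⟩
  unfold mEo
  rw [abs_le] at hx e2 ⊢
  constructor <;> linarith [hx.1, hx.2, e2.1, e2.2]

/-! ### lists -/

lemma sum_get {α : Type*} (L : List α) (f : α → ℝ) : ∑ i, f (L.get i) = (L.map f).sum := by
  rw [← Fin.sum_univ_fun_getElem]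
  rfl

lemma sum_zr (E : List ℂ) (k : ℕ) (f : ℂ → ℝ) :
    ((E ++ zr k).map f).sum = (E.map f).sum + k * f 0 := by
  rw [List.map_append, List.sum_append]
  congr 1
  unfold Pool.Agent.PLX.zr
  rw [List.map_replicate, List.sum_replicate, nsmul_eq_mul]

lemma sum_map_add {α : Type*} (L : List α) (f g : α → ℝ) :
    (L.map fun x => f x + g x).sum = (L.map f).sum + (L.map g).sum := by
  induction L with
  | nil => simp
  | cons a L ih =>
    simp only [List.map_cons, List.sum_cons, ih]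
    ring

lemma sum_map_const {α : Type*} (L : List α) (c : ℝ) : (L.map fun _ => c).sum = L.length * c := by
  rw [List.map_const', List.sum_replicate, nsmul_eq_mul]

lemma sum_map_le {α : Type*} (L : List α) (f : α → ℝ) {c : ℝ} (h : ∀ x ∈ L, |f x| ≤ c) :
    |(L.map f).sum| ≤ L.length * c := by
  induction L with
  | nil => simp
  | cons a L ih =>
    rw [List.map_cons, List.sum_cons, List.length_cons]
    push_cast
    have h1 := h a (by simp)
    have h2 := ih fun x hx => h x (by simp [hx])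
    have h3 := abs_add_le (f a) (L.map f).sum
    linarith

/-- energy of the moved rows against a row `0` of the group `a` -/
def lin (EX EY : List ℂ) (a : Bool) : ℝ :=
  (((cond a EX EY).map fun x => mEo x - mEo 0).sum) + ((cond a EY EX).map fun y => mEx y - mEx 0).sum

/-- numbers of all rows -/
def nS (EX EY : List ℂ) (k k' : ℕ) (a : Bool) : ℝ :=
  cond a ((EX.length : ℝ) + k) ((EY.length : ℝ) + k')

/-- the double sum over a list with zeros -/
lemma dbl_zr {E F : List ℂ} {k k' : ℕ} (f : ℂ → ℝ) (hf : ∀ w, f (-w) = f w) :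
    (((E ++ zr k).map fun x => ((F ++ zr k').map fun y => f (x - y)).sum).sum) =
      (E.map fun x => (F.map fun y => f (x - y)).sum).sum + k' * (E.map f).sum + k * (F.map f).sum +
        k * k' * f 0 := by
  rw [sum_zr E k (fun x => ((F ++ zr k').map fun y => f (x - y)).sum)]
  have e1 : ∀ x, ((F ++ zr k').map fun y => f (x - y)).sum = (F.map fun y => f (x - y)).sum + k' * f x := by
    intro x
    rw [sum_zr F k' (fun y => f (x - y)), sub_zero]
  have e2 : (F.map fun y => f (0 - y)) = F.map f := by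
    refine List.map_congr_left fun y _ => ?_
    rw [zero_sub, hf]
  simp only [e1, e2]
  rw [sum_map_add, List.sum_map_mul_left]
  ring

/-- **the energy of a content** -/
theorem exists_Q2 : ∃ C : ℝ, 1 ≤ C ∧ ∀ (EX EY : List ℂ) (k k' : ℕ) (z : ℂ),
    (∀ x ∈ EX, |x.re| ≤ l / 2 ∧ |x.im| ≤ 1) → (∀ y ∈ EY, |y.re| ≤ l / 2 ∧ |y.im| ≤ 1) →
    -(l / 2) ≤ z.re → z.re ≤ 7 / 2 * l →
    |Q2 (EX ++ zr k).get (EY ++ zr k').get z - (EMs (nS EX EY k k') +
      ∑ a, nS EX EY k k' a * (lin EX EY a + lE z))| ≤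
      C * ((EX.length : ℝ) + EY.length + 1) ^ 2 := by
  obtain ⟨C, hC, H, HL⟩ := exists_en
  refine ⟨6 * C, by linarith, ?_⟩
  intro EX EY k k' z hX hY hz1 hz2
  have hl := l_pos
  obtain ⟨p, hp⟩ : ∃ p : ℝ, p = EX.length := ⟨_, rfl⟩
  obtain ⟨q, hq⟩ : ∃ q : ℝ, q = EY.length := ⟨_, rfl⟩
  have hp0 : 0 ≤ p := by rw [hp]; positivity
  have hq0 : 0 ≤ q := by rw [hq]; positivity
  have hsub : ∀ {x y : ℂ}, |x.re| ≤ l / 2 ∧ |x.im| ≤ 1 → |y.re| ≤ l / 2 ∧ |y.im| ≤ 1 →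
      |(x - y).re| ≤ l ∧ |(x - y).im| ≤ 2 := by
    intro x y hx hy
    rw [sub_re, sub_im]
    exact ⟨(abs_sub _ _).trans (by linarith [hx.1, hy.1]), (abs_sub _ _).trans (by linarith [hx.2, hy.2])⟩
  have h00 : |(0:ℂ).re| ≤ l ∧ |(0:ℂ).im| ≤ 2 := by
    simp only [Complex.zero_re, Complex.zero_im, abs_zero]
    exact ⟨hl.le, by norm_num⟩
  have hone : ∀ {x : ℂ}, |x.re| ≤ l / 2 ∧ |x.im| ≤ 1 → |x.re| ≤ l ∧ |x.im| ≤ 2 := fun h =>
    ⟨by linarith [h.1], by linarith [h.2]⟩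
  -- the sums
  have dO : ∀ (E : List ℂ) (k : ℕ), ∑ i, ∑ j, mEo ((E ++ zr k).get i - (E ++ zr k).get j) =
      (E.map fun x => (E.map fun y => mEo (x - y)).sum).sum + k * (E.map mEo).sum +
        k * (E.map mEo).sum + k * k * mEo 0 := by
    intro E k
    rw [← dbl_zr mEo mEo_neg, ← sum_get (E ++ zr k)]
    exact Finset.sum_congr rfl fun i _ => sum_get (E ++ zr k) fun y => mEo ((E ++ zr k).get i - y)
  have dX : ∑ i, ∑ j, mEx ((EX ++ zr k).get i - (EY ++ zr k').get j) =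
      (EX.map fun x => (EY.map fun y => mEx (x - y)).sum).sum + k' * (EX.map mEx).sum +
        k * (EY.map mEx).sum + k * k' * mEx 0 := by
    rw [← dbl_zr mEx mEx_neg, ← sum_get (EX ++ zr k)]
    exact Finset.sum_congr rfl fun i _ => sum_get (EY ++ zr k') fun y => mEx ((EX ++ zr k).get i - y)
  have dL : ∀ (E : List ℂ) (k : ℕ), ∑ i, lE (z - (E ++ zr k).get i) =
      (E.map fun x => lE (z - x)).sum + k * lE z := by
    intro E k
    rw [sum_get (E ++ zr k) (fun x => lE (z - x)), sum_zr E k (fun x => lE (z - x)), sub_zero]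
  -- bounds
  have bO : ∀ {E : List ℂ} (_ : ∀ x ∈ E, |x.re| ≤ l / 2 ∧ |x.im| ≤ 1),
      |(E.map mEo).sum| ≤ E.length * C := fun h => sum_map_le _ _ fun x hx =>
    (H x (hone (h x hx)).1 (hone (h x hx)).2).1
  have bX : ∀ {E : List ℂ} (_ : ∀ x ∈ E, |x.re| ≤ l / 2 ∧ |x.im| ≤ 1),
      |(E.map mEx).sum| ≤ E.length * C := fun h => sum_map_le _ _ fun x hx =>
    (H x (hone (h x hx)).1 (hone (h x hx)).2).2
  have bOO : ∀ {E : List ℂ} (_ : ∀ x ∈ E, |x.re| ≤ l / 2 ∧ |x.im| ≤ 1),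
      |(E.map fun x => (E.map fun y => mEo (x - y)).sum).sum| ≤ E.length * (E.length * C) := fun h =>
    sum_map_le _ _ fun x hx => sum_map_le _ _ fun y hy =>
      (H (x - y) (hsub (h x hx) (h y hy)).1 (hsub (h x hx) (h y hy)).2).1
  have bXY : |(EX.map fun x => (EY.map fun y => mEx (x - y)).sum).sum| ≤ EX.length * (EY.length * C) :=
    sum_map_le _ _ fun x hx => sum_map_le _ _ fun y hy =>
      (H (x - y) (hsub (hX x hx) (hY y hy)).1 (hsub (hX x hx) (hY y hy)).2).2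
  have bL : ∀ {E : List ℂ} (_ : ∀ x ∈ E, |x.re| ≤ l / 2 ∧ |x.im| ≤ 1),
      |(E.map fun x => lE (z - x)).sum| ≤ E.length * C := fun h => sum_map_le _ _ fun x hx => by
    obtain ⟨h3, h4⟩ := abs_le.1 (h x hx).1
    refine HL _ ?_ ?_ <;> rw [sub_re] <;> (clear * - hz1 h4 hz2 h3; linarith)
  have b0 := (H 0 h00.1 h00.2).1
  have b1 := (H 0 h00.1 h00.2).2
  have b2 := HL z (by linarith) (by linarith)
  have lO : ∀ E : List ℂ, (E.map fun x => mEo x - mEo 0).sum = (E.map mEo).sum - E.length * mEo 0 := by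
    intro E
    have := sum_map_add E (fun x => mEo x) fun _ => -mEo 0
    rw [sum_map_const] at this
    simp only [sub_eq_add_neg]
    rw [this]
    ring
  have lX : ∀ E : List ℂ, (E.map fun x => mEx x - mEx 0).sum = (E.map mEx).sum - E.length * mEx 0 := by
    intro E
    have := sum_map_add E (fun x => mEx x) fun _ => -mEx 0
    rw [sum_map_const] at this
    simp only [sub_eq_add_neg]
    rw [this]
    ring
  rw [EMs_Q, Fintype.sum_bool]
  unfold Q2 lin nS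
  simp only [cond_true, cond_false]
  rw [dO, dO, dX, dL, dL, lO, lO, lX, lX]
  have c1 := bO hX
  have c2 := bO hY
  have c3 := bX hX
  have c4 := bX hY
  have c5 := bOO hX
  have c6 := bOO hY
  have c8 := bL hX
  have c9 := bL hY
  rw [← hp] at c1 c3 c5 c8 bXY ⊢
  rw [← hq] at c2 c4 c6 c9 bXY ⊢
  obtain ⟨S1, hS1⟩ : ∃ S, S = (EX.map mEo).sum := ⟨_, rfl⟩
  obtain ⟨S2, hS2⟩ : ∃ S, S = (EY.map mEo).sum := ⟨_, rfl⟩
  obtain ⟨S3, hS3⟩ : ∃ S, S = (EX.map mEx).sum := ⟨_, rfl⟩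
  obtain ⟨S4, hS4⟩ : ∃ S, S = (EY.map mEx).sum := ⟨_, rfl⟩
  obtain ⟨S5, hS5⟩ : ∃ S, S = (EX.map fun x => (EX.map fun y => mEo (x - y)).sum).sum := ⟨_, rfl⟩
  obtain ⟨S6, hS6⟩ : ∃ S, S = (EY.map fun x => (EY.map fun y => mEo (x - y)).sum).sum := ⟨_, rfl⟩
  obtain ⟨S7, hS7⟩ : ∃ S, S = (EX.map fun x => (EY.map fun y => mEx (x - y)).sum).sum := ⟨_, rfl⟩
  obtain ⟨S8, hS8⟩ : ∃ S, S = (EX.map fun x => lE (z - x)).sum := ⟨_, rfl⟩
  obtain ⟨S9, hS9⟩ : ∃ S, S = (EY.map fun x => lE (z - x)).sum := ⟨_, rfl⟩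
  obtain ⟨o, ho⟩ : ∃ S, S = mEo 0 := ⟨_, rfl⟩
  obtain ⟨x, hx⟩ : ∃ S, S = mEx 0 := ⟨_, rfl⟩
  obtain ⟨L, hL⟩ : ∃ S, S = lE z := ⟨_, rfl⟩
  rw [← hS1] at c1 ⊢
  rw [← hS2] at c2 ⊢
  rw [← hS3] at c3 ⊢
  rw [← hS4] at c4 ⊢
  rw [← hS5] at c5 ⊢
  rw [← hS6] at c6 ⊢
  rw [← hS7] at bXY ⊢
  rw [← hS8] at c8 ⊢
  rw [← hS9] at c9 ⊢
  rw [← ho] at b0 ⊢
  rw [← hx] at b1 ⊢
  rw [← hL] at b2 ⊢
  have e : 1 / 2 * (S5 + k * S1 + k * S1 + k * k * o) + 1 / 2 * (S6 + k' * S2 + k' * S2 + k' * k' * o) +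
      (S7 + k' * S3 + k * S4 + k * k' * x) + (S8 + k * L) + (S9 + k' * L) -
      (1 / 2 * ((p + k) ^ 2 + (q + k') ^ 2) * o + (p + k) * (q + k') * x +
        ((p + k) * (S1 - p * o + (S4 - q * x) + L) + (q + k') * (S2 - q * o + (S3 - p * x) + L))) =
      1 / 2 * S5 + 1 / 2 * S6 + S7 + S8 + S9 + 1 / 2 * p ^ 2 * o + 1 / 2 * q ^ 2 * o + p * q * x -
        p * S1 - q * S2 - p * S4 - q * S3 - (p + q) * L := by ring
  rw [e]
  have d1 : |p * S1| ≤ p * (p * C) := by rw [abs_mul, abs_of_nonneg hp0]; (clear * - c1 hp0; gcongr)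
  have d2 : |q * S2| ≤ q * (q * C) := by rw [abs_mul, abs_of_nonneg hq0]; (clear * - c2 hq0; gcongr)
  have d3 : |p * S4| ≤ p * (q * C) := by rw [abs_mul, abs_of_nonneg hp0]; (clear * - hp0 c4; gcongr)
  have d4 : |q * S3| ≤ q * (p * C) := by rw [abs_mul, abs_of_nonneg hq0]; (clear * - hq0 c3; gcongr)
  have d5 : |1 / 2 * p ^ 2 * o| ≤ 1 / 2 * p ^ 2 * C := by
    rw [abs_mul, abs_of_nonneg (by (clear * -; positivity))]; (clear * - b0; gcongr)
  have d6 : |1 / 2 * q ^ 2 * o| ≤ 1 / 2 * q ^ 2 * C := by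
    rw [abs_mul, abs_of_nonneg (by (clear * -; positivity))]; (clear * - b0; gcongr)
  have d7 : |p * q * x| ≤ p * q * C := by rw [abs_mul, abs_of_nonneg (by (clear * - hp0 hq0; positivity))]; (clear * - hp0 hq0 b1; gcongr)
  have d8 : |(p + q) * L| ≤ (p + q) * C := by rw [abs_mul, abs_of_nonneg (by (clear * - hp0 hq0; positivity))]; (clear * - hp0 hq0 b2; gcongr)
  have dd : 6 * C * (p + q + 1) ^ 2 = C * (6 * p ^ 2 + 6 * q ^ 2 + 12 * (p * q) + 12 * p + 12 * q + 6) := by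
    ring
  rw [dd]
  have n1 : 0 ≤ C * p ^ 2 := by positivity
  have n2 : 0 ≤ C * q ^ 2 := by positivity
  have n3 : 0 ≤ C * (p * q) := by positivity
  have n4 : 0 ≤ C * p := by positivity
  have n5 : 0 ≤ C * q := by positivity
  rw [abs_le] at c5 c6 c8 c9 bXY d1 d2 d3 d4 d5 d6 d7 d8 ⊢
  constructor <;> (clear * - hC c5 c6 bXY c8 c9 d1 d2 d3 d4 d5 d6 d7 d8; linarith [c5.1, c5.2, c6.1, c6.2, c8.1, c8.2, c9.1, c9.2, bXY.1, bXY.2, d1.1, d1.2,
    d2.1, d2.2, d3.1, d3.2, d4.1, d4.2, d5.1, d5.2, d6.1, d6.2, d7.1, d7.2, d8.1, d8.2])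

/-! ### the potential on the curve -/

/-- the potential of the legs at `z` and of the moved rows -/
def HE (EX EY : List ℂ) (z : ℂ) (ζ : Bool → ℝ → ℝ) (a : Bool) (t : ℝ) : ℝ :=
  AT z.re (z.re - 3 * l) z.im (ζ a) t + ((cond a EX EY).map fun x => RO x (ζ a) t).sum +
    ((cond a EY EX).map fun y => RX y (ζ a) t).sum

/-- a list of potentials -/
lemma list_cur {s K : ℝ} {h0 : ℝ} {g : ℂ → ℝ → ℝ} {v : ℂ → ℝ} (E : List ℂ)
    (h : ∀ x ∈ E, Integrable (fun t => s * NUMF.P t * g x t) ∧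
      |(∫ t, s * NUMF.P t * g x t) - s * v x| ≤ K) :
    Integrable (fun t => s * NUMF.P t * (E.map fun x => g x t).sum) ∧
      |(∫ t, s * NUMF.P t * (E.map fun x => g x t).sum) - s * (E.map v).sum| ≤ E.length * K := by
  induction E with
  | nil => simp
  | cons x E ih =>
    obtain ⟨i1, e1⟩ := h x (by simp)
    obtain ⟨i2, e2⟩ := ih fun y hy => h y (by simp [hy])
    have e : (fun t => s * NUMF.P t * ((x :: E).map fun x => g x t).sum) = fun t =>
        s * NUMF.P t * g x t + s * NUMF.P t * (E.map fun x => g x t).sum := by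
      funext t
      rw [List.map_cons, List.sum_cons]
      ring
    rw [e]
    refine ⟨i1.add i2, ?_⟩
    rw [integral_add i1 i2, List.map_cons, List.sum_cons, List.length_cons]
    push_cast
    rw [abs_le] at e1 e2 ⊢
    constructor <;> (clear * - e1 e2; nlinarith [e1.1, e1.2, e2.1, e2.2])

/-- **the potential on the curve** -/
theorem exists_HE {δ : ℝ} (hδ : 0 < δ) (hδ1 : δ ≤ l / 2) : ∀ (EX EY : List ℂ) (z : ℂ),
    (∀ x ∈ EX, |x.re| ≤ l / 2) → (∀ y ∈ EY, |y.re| ≤ l / 2) → -l + δ ≤ z.re → z.re ≤ 4 * l - δ →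
    ∀ (a : Bool) (s h0 : ℝ) (ζ : Bool → ℝ → ℝ), 0 ≤ s → (∀ t, |ζ a t| ≤ δ / 2) → Continuous (ζ a) →
      (∀ t, |s * NUMF.P t * ζ a t| ≤ h0) →
      Integrable (fun t => s * NUMF.P t * HE EX EY z ζ a t) ∧
      |(∫ t, s * NUMF.P t * HE EX EY z ζ a t) - s * (lin EX EY a + lE z)| ≤
        4 * KN δ * ((EX.length : ℝ) + EY.length + 1) * h0 := by
  intro EX EY z hX hY hz1 hz2 a s h0 ζ hs hζ hc hh
  have hl := l_pos
  have hh0 : 0 ≤ h0 := (abs_nonneg _).trans (hh 0)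
  have hK := (KN_pos hδ (by linarith)).le
  obtain ⟨i1, e1⟩ := cur_leg hδ hδ1 hs hζ hc hh hz1 hz2
  have hE : ∀ x ∈ cond a EX EY, |x.re| ≤ l - δ := by
    cases a
    · exact fun x hx => (hY x hx).trans (by linarith)
    · exact fun x hx => (hX x hx).trans (by linarith)
  have hE' : ∀ x ∈ cond a EY EX, |x.re| ≤ l - δ := by
    cases a
    · exact fun x hx => (hX x hx).trans (by linarith)
    · exact fun x hx => (hY x hx).trans (by linarith)
  obtain ⟨i2, e2⟩ := list_cur (h0 := h0) (g := fun x => RO x (ζ a)) (v := fun x => mEo x - mEo 0)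
    (cond a EX EY) fun x hx => cur_RO hδ hδ1 hs hζ hc hh (hE x hx)
  obtain ⟨i3, e3⟩ := list_cur (h0 := h0) (g := fun x => RX x (ζ a)) (v := fun x => mEx x - mEx 0)
    (cond a EY EX) fun x hx => cur_RX hδ hδ1 hs hζ hc hh (hE' x hx)
  have e : (fun t => s * NUMF.P t * HE EX EY z ζ a t) = fun t =>
      s * NUMF.P t * AT z.re (z.re - 3 * l) z.im (ζ a) t +
      s * NUMF.P t * ((cond a EX EY).map fun x => RO x (ζ a) t).sum +
      s * NUMF.P t * ((cond a EY EX).map fun y => RX y (ζ a) t).sum := by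
    funext t
    unfold HE
    ring
  rw [e]
  refine ⟨(i1.add i2).add i3, ?_⟩
  have f1 := integral_add (i1.add i2) i3
  have f2 := integral_add i1 i2
  simp only [Pi.add_apply] at f1 f2
  rw [f1, f2]
  unfold lin
  have hlen : ((cond a EX EY).length : ℝ) + (cond a EY EX).length = (EX.length : ℝ) + EY.length := by
    cases a
    · exact add_comm _ _
    · rfl
  have hKh : 0 ≤ KN δ * h0 := mul_nonneg hK hh0
  have g1 : 4 * KN δ * ((EX.length : ℝ) + EY.length + 1) * h0 =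
      (cond a EX EY).length * (4 * (KN δ * h0)) + (cond a EY EX).length * (4 * (KN δ * h0)) +
        4 * (KN δ * h0) := by
    rw [← hlen]
    ring
  rw [g1]
  rw [abs_le] at e1 e2 e3 ⊢
  constructor <;> (clear * - e1 e2 e3; nlinarith [e1.1, e1.2, e2.1, e2.2, e3.1, e3.2])

/-- **the value of a content** -/
theorem exists_KVal {δ : ℝ} (hδ : 0 < δ) (hδ1 : δ ≤ l / 2) : ∃ C : ℝ, 1 ≤ C ∧
    ∀ (EX EY : List ℂ) (k k' : ℕ) (z : ℂ), (∀ x ∈ EX, |x.re| ≤ l / 2 ∧ |x.im| ≤ 1) →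
    (∀ y ∈ EY, |y.re| ≤ l / 2 ∧ |y.im| ≤ 1) → -(l / 2) ≤ z.re → z.re ≤ 7 / 2 * l →
    ∀ (h0 : ℝ) (ζ : Bool → ℝ → ℝ), (∀ a t, |ζ a t| ≤ δ / 2) → (∀ a, Continuous (ζ a)) →
      (∀ a t, |nS EX EY k k' a * NUMF.P t * ζ a t| ≤ h0) →
      (∀ a, Integrable (fun t => nS EX EY k k' a * NUMF.P t * HE EX EY z ζ a t)) ∧
      ‖Pf z (EX ++ zr k).get (EY ++ zr k').get‖ * Real.exp (EMs (nS EX EY k k') +
        ∑ a, ∫ t, nS EX EY k k' a * NUMF.P t * HE EX EY z ζ a t) ≤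
        Real.exp (C * (((EX.length : ℝ) + EY.length + 1) ^ 2 +
          ((EX.length : ℝ) + EY.length + 1) * h0)) := by
  obtain ⟨C, hC, H⟩ := exists_Q2
  have hl := l_pos
  have hK := (KN_pos hδ (by linarith)).le
  obtain ⟨c, hc⟩ : ∃ c : ℝ, c = Real.log (3 / 2 * ‖sin (NUP1.l : ℂ)‖ / ‖rh 0‖) := ⟨_, rfl⟩
  refine ⟨C + |c| + 8 * KN δ, by
    have := abs_nonneg c
    clear * - hC hK this
    linarith, ?_⟩
  intro EX EY k k' z hX hY hz1 hz2 h0 ζ hζ hcont hh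
  have hh0 : 0 ≤ h0 := (abs_nonneg _).trans (hh true 0)
  have hn : ∀ a, 0 ≤ nS EX EY k k' a := by
    intro a
    unfold nS
    cases a
    · show (0:ℝ) ≤ (EY.length : ℝ) + k'
      positivity
    · show (0:ℝ) ≤ (EX.length : ℝ) + k
      positivity
  have hE := fun a => exists_HE hδ hδ1 EX EY z (fun x hx => (hX x hx).1) (fun x hx => (hY x hx).1)
    (by (clear * - hδ1 hz1; linarith)) (by (clear * - hδ1 hz2; linarith)) a (nS EX EY k k' a) h0 ζ (hn a) (hζ a) (hcont a) (hh a)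
  refine ⟨fun a => (hE a).1, ?_⟩
  have hr : ∀ {E : List ℂ} {k : ℕ}, (∀ x ∈ E, |x.re| ≤ l / 2 ∧ |x.im| ≤ 1) →
      ∀ i, |((E ++ zr k).get i).re| ≤ l / 2 := by
    intro E k h i
    rcases List.mem_append.1 (List.get_mem (E ++ zr k) i) with h1 | h1
    · exact (h _ h1).1
    · rw [List.eq_of_mem_replicate h1, Complex.zero_re, abs_zero]
      positivity
  obtain ⟨hne, hv⟩ := log_Pf (z := z) (hr (k := k) hX) (hr (k := k') hY) hz1 hz2
  rw [← hc] at hv
  have hq := H EX EY k k' z hX hY hz1 hz2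
  rw [← Real.exp_log (norm_pos_iff.2 hne), ← Real.exp_add]
  refine Real.exp_le_exp.2 ?_
  rw [Fintype.sum_bool] at hq ⊢
  have g1 := (hE true).2
  have g2 := (hE false).2
  obtain ⟨D, hD⟩ : ∃ D : ℝ, D = (EX.length : ℝ) + EY.length + 1 := ⟨_, rfl⟩
  have hD1 : 1 ≤ D := by
    rw [hD]
    have : (0:ℝ) ≤ (EX.length : ℝ) + EY.length := by (clear * -; positivity)
    clear * -
    linarith
  rw [← hD] at g1 g2 hq ⊢
  have k1 : c ≤ |c| * D ^ 2 := by
    have h1 := le_abs_self c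
    have h2 := abs_nonneg c
    have h3 : 1 ≤ D ^ 2 := by (clear * - hD; nlinarith)
    clear * - h1 h2 h3
    nlinarith
  have k2 : 0 ≤ D * h0 := by positivity
  have k3 : 0 ≤ |c| * (D * h0) := by positivity
  have k4 : 0 ≤ C * (D * h0) := by positivity
  have k5 : 0 ≤ KN δ * D ^ 2 := by positivity
  have e5 : (C + |c| + 8 * KN δ) * (D ^ 2 + D * h0) = C * D ^ 2 + |c| * D ^ 2 + 8 * (KN δ * D ^ 2) +
      (C * (D * h0) + |c| * (D * h0) + 8 * KN δ * D * h0) := by ring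
  rw [e5]
  rw [abs_le] at g1 g2 hq
  clear * - hv hq g2 g1 k1 k3 k4 k5
  linarith [g1.1, g1.2, g2.1, g2.2, hq.1, hq.2]

end PBV.PLX

end
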