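import Pool.Agent.PLX.Ns
import Pool.Agent.NUGC.PrefMF
import Pool.Agent.NUSea.Inst
import Pool.Agent.NUP.MF.StrPsi

/-!
# The sea term of a word, own species and other species separately (sea `seaP`)

`∫ P(t) Re (wd L w t) dt = MW0 L w`, `MW0 L w = ∑ c (H ((3 - k + p) l) - log 2) / 2` over the word
`(k, c)`, `p = w.re / l`.  `MD0 k = H (y + 1) + H (y - 1) - H y - log 2`, `y = 3 - k + p`,
`MD0 k = dl0 y + 2 la (- k - 1)`, `dl0 = 0` for `|y| ≤ 3`, `= 2 Ag (y - 3)` for `3 ≤ y < 4`, even,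
period `8`.
`MFo c w`: sea term of a group of class `c` at `w` on the species of its half quantum; `MFx c w`: on
the other species.  `mfs s MFo MFx a c w = s a MFo c w + s (!a) MFx c w`: the sea term of the two seas
`s true P`, `s false P` on a group whose half quantum has the species `a`.
Values at the places of the half quanta: `MFo_W`, `MFx_W`, ..., every row factor is cancelled
by the sea of its own species.
-/

set_option autoImplicit false

open MeasureTheory Set Filter Topology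

namespace PB0.PLX

open NUO hiding Ph
open NUSp NUHM
open NUPref (re_bk la la_per)
open NUMF (Ag)

noncomputable section

/-- value of the sea term of one block -/
def HL0 (w : ℂ) (k : ℤ) : ℝ := (NUMF.H w.im ((3 - k + w.re / NUMF.l) * NUMF.l) - Real.log 2) / 2

theorem int_bk0 (w : ℂ) (k : ℤ) : Integrable (fun t : ℝ => NUMF.P t * (bk w k (t : ℂ)).re) ∧
    ∫ t : ℝ, NUMF.P t * (bk w k (t : ℂ)).re = HL0 w k := by
  have j1 := NUMF.Ph_integrable w.im ((3 - k + w.re / NUMF.l) * NUMF.l)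
  have j4 : Integrable fun s => NUMF.P s * Real.log 2 := NUMF.P_integrable.mul_const _
  have hae : (fun t : ℝ => NUMF.P t * (bk w k (t : ℂ)).re) =ᵐ[volume] fun t =>
      (1 / 2) * (NUMF.P t * NUMF.h (w.im - t) ((3 - k + w.re / NUMF.l) * NUMF.l) -
        NUMF.P t * Real.log 2) := by
    filter_upwards [NUMF.ae_ne w.im] with t ht
    rw [re_bk w k ht]
    ring
  refine ⟨((j1.sub j4).const_mul (1 / 2)).congr hae.symm, ?_⟩
  have b3 := integral_sub j1 j4
  have b6 : ∫ s, NUMF.P s * Real.log 2 = Real.log 2 := NUMF.integral_P_mul _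
  rw [integral_congr_ae hae, integral_const_mul, b3, b6]
  unfold HL0 NUMF.H
  ring

/-! ### words -/

/-- sea term of a word -/
def MW0 (L : List (ℤ × ℝ)) (w : ℂ) : ℝ := (L.map fun kc => kc.2 * HL0 w kc.1).sum

@[simp] lemma MW0_nil (w : ℂ) : MW0 [] w = 0 := rfl

@[simp] lemma MW0_cons (a : ℤ × ℝ) (L : List (ℤ × ℝ)) (w : ℂ) :
    MW0 (a :: L) w = a.2 * HL0 w a.1 + MW0 L w := by simp [MW0]

theorem int_wd0 (L : List (ℤ × ℝ)) (w : ℂ) :
    Integrable (fun t : ℝ => NUMF.P t * (wd L w (t : ℂ)).re) ∧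
    ∫ t : ℝ, NUMF.P t * (wd L w (t : ℂ)).re = MW0 L w := by
  induction L with
  | nil => simp
  | cons a L ih =>
    have hb := int_bk0 w a.1
    have e : (fun t : ℝ => NUMF.P t * (wd (a :: L) w (t : ℂ)).re) =
        fun t => a.2 * (NUMF.P t * (bk w a.1 (t : ℂ)).re) + NUMF.P t * (wd L w (t : ℂ)).re := by
      funext t
      rw [wd_cons, Complex.add_re, Complex.re_ofReal_mul]
      ring
    rw [e]
    refine ⟨(hb.1.const_mul a.2).add ih.1, ?_⟩
    rw [integral_add (hb.1.const_mul a.2) ih.1, integral_const_mul, hb.2, ih.2, MW0_cons]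

/-- **the sea term of a group** on the species of its half quantum -/
def MFo (c : Cl) (w : ℂ) : ℝ := MW0 (wX c) w

/-- **the sea term of a group** on the other species -/
def MFx (c : Cl) (w : ℂ) : ℝ := MW0 (wY c) w

/-- **the sea term** of a group of class `c` at `w`, half quantum of species `a`, sea numbers `s` -/
def mfs (s : Bool → ℝ) (Fo Fx : Cl → ℂ → ℝ) (a : Bool) (c : Cl) (w : ℂ) : ℝ :=
  s a * Fo c w + s (!a) * Fx c w

theorem int_gp0 (c : Cl) (s σ : Bool) (w : ℂ) :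
    Integrable (fun t : ℝ => NUMF.P t * (gp s (grp c σ w) (t : ℂ)).re) ∧
    ∫ t : ℝ, NUMF.P t * (gp s (grp c σ w) (t : ℂ)).re = MW0 (wc c (decide (s = σ))) w := by
  have e : (fun t : ℝ => NUMF.P t * (gp s (grp c σ w) (t : ℂ)).re) =
      fun t : ℝ => NUMF.P t * (wd (wc c (decide (s = σ))) w (t : ℂ)).re :=
    funext fun t => by rw [gp_grp]
  rw [e]
  exact int_wd0 _ w

/-- the sea term with sea numbers `s` -/
theorem sum_gp0 (s : Bool → ℝ) (c : Cl) (σ : Bool) (w : ℂ) :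
    s true * (∫ t : ℝ, NUMF.P t * (gp true (grp c σ w) (t : ℂ)).re) +
      s false * (∫ t : ℝ, NUMF.P t * (gp false (grp c σ w) (t : ℂ)).re) = mfs s MFo MFx σ c w := by
  rw [(int_gp0 c true σ w).2, (int_gp0 c false σ w).2]
  unfold mfs MFo MFx wc
  cases σ <;> simp [add_comm]

/-! ### the defect of the field equation -/

/-- `H (y + 1) + H (y - 1) - H y - h y`, height `t` -/
def dl0 (t y : ℝ) : ℝ := NUMF.H t ((y + 1) * NUMF.l) + NUMF.H t ((y - 1) * NUMF.l) -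
  NUMF.H t (y * NUMF.l) - NUMF.h t (y * NUMF.l)

theorem dl0_zero (t : ℝ) {y : ℝ} (h1 : |y| ≤ 3) : dl0 t y = 0 := by
  unfold dl0
  rw [NUMF.conv_unit t h1]
  ring

theorem dl0_out (t : ℝ) {y : ℝ} (h1 : 3 ≤ y) (h2 : y < 4) : dl0 t y = 2 * Ag (y - 3) t := by
  have h := NUMF.ext_unit t h1 h2
  have e : NUMF.H t ((y + 1) * NUMF.l) = NUMF.H t ((7 - y) * NUMF.l) := by
    rw [← NUMF.H_refl t (y + 1)]
    congr 2
    ring
  unfold dl0
  rw [e]
  exact h

theorem dl0_refl (t y : ℝ) : dl0 t (8 - y) = dl0 t y := by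
  have e1 : NUMF.H t ((8 - y + 1) * NUMF.l) = NUMF.H t ((y - 1) * NUMF.l) := by
    rw [← NUMF.H_refl t (y - 1)]
    congr 2
    ring
  have e2 : NUMF.H t ((8 - y - 1) * NUMF.l) = NUMF.H t ((y + 1) * NUMF.l) := by
    rw [← NUMF.H_refl t (y + 1)]
    congr 2
    ring
  unfold dl0
  rw [e1, e2, NUMF.H_refl, NUMF.h_refl]
  ring

theorem dl0_neg (t y : ℝ) : dl0 t (-y) = dl0 t y := by
  have e1 : NUMF.H t ((-y + 1) * NUMF.l) = NUMF.H t ((y - 1) * NUMF.l) := by
    rw [← NUMF.H_neg_right]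
    congr 1
    ring
  have e2 : NUMF.H t ((-y - 1) * NUMF.l) = NUMF.H t ((y + 1) * NUMF.l) := by
    rw [← NUMF.H_neg_right]
    congr 1
    ring
  have e3 : NUMF.H t (-y * NUMF.l) = NUMF.H t (y * NUMF.l) := by
    rw [← NUMF.H_neg_right]
    congr 1
    ring
  have e4 : NUMF.h t (-y * NUMF.l) = NUMF.h t (y * NUMF.l) := by
    rw [← NUMF.h_neg_right]
    congr 1
    ring
  unfold dl0
  rw [e1, e2, e3, e4]
  ring

/-! ### the combinations -/

lemma HL0_per (w : ℂ) (k : ℤ) : HL0 w (k - 8) = HL0 w k := by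
  unfold HL0
  rw [← NUMF.H_per w.im ((3 - k + w.re / NUMF.l) * NUMF.l)]
  congr 3
  push_cast
  ring

/-- `H (y + 1) + H (y - 1) - H y - log 2`, `y = 3 - k + p` -/
def MD0 (w : ℂ) (k : ℤ) : ℝ := 2 * (HL0 w (k - 1) + HL0 w (k + 1) - HL0 w k)

theorem MD0_eq (w : ℂ) (k : ℤ) : MD0 w k = dl0 w.im (3 - k + w.re / NUMF.l) +
    2 * la w (-k - 1) := by
  set p := w.re / NUMF.l with hp
  have e1 : HL0 w (k - 1) = (NUMF.H w.im ((3 - k + p + 1) * NUMF.l) - Real.log 2) / 2 := by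
    unfold HL0
    rw [← hp]
    congr 4
    push_cast
    ring
  have e2 : HL0 w (k + 1) = (NUMF.H w.im ((3 - k + p - 1) * NUMF.l) - Real.log 2) / 2 := by
    unfold HL0
    rw [← hp]
    congr 4
    push_cast
    ring
  have e3 : HL0 w k = (NUMF.H w.im ((3 - k + p) * NUMF.l) - Real.log 2) / 2 := rfl
  have e4 : la w (-k - 1) = (NUMF.h w.im ((3 - k + p) * NUMF.l) - Real.log 2) / 2 := by
    unfold la ls
    rw [← hp, ← NUMF.h_refl w.im (3 - k + p)]
    congr 3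
    ring
  unfold MD0 dl0
  rw [e1, e2, e3, e4]
  ring

/-- **the classes** -/
theorem MFo_w (w : ℂ) : MFo .w w = MD0 w (-1) / 2 := by
  unfold MFo MD0
  simp only [wX, MW0_cons, MW0_nil]
  norm_num
  ring

theorem MFx_w (w : ℂ) : MFx .w w = -MD0 w 4 / 2 := by
  have e : HL0 w 5 = HL0 w (-3) := by rw [← HL0_per w 5]; norm_num
  unfold MFx MD0
  simp only [wY, MW0_cons, MW0_nil]
  norm_num
  rw [e]
  ring

theorem MFo_p (w : ℂ) : MFo .p w = (MD0 w (-1) - 2 * MD0 w 1) / 2 := by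
  unfold MFo MD0
  simp only [wX, MW0_cons, MW0_nil]
  norm_num
  ring

theorem MFx_p (w : ℂ) : MFx .p w = MD0 w (-2) / 2 := by
  unfold MFx MD0
  simp only [wY, MW0_cons, MW0_nil]
  norm_num
  ring

theorem MFo_hs (w : ℂ) : MFo .hs w = (-MD0 w (-1) - 2 * MD0 w (-2)) / 2 := by
  unfold MFo MD0
  simp only [wX, MW0_cons, MW0_nil]
  norm_num
  ring

theorem MFx_hs (w : ℂ) : MFx .hs w = (MD0 w 1 + MD0 w 2 + MD0 w 3) / 2 := by
  unfold MFx MD0
  simp only [wY, MW0_cons, MW0_nil]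
  norm_num
  ring

theorem MFo_hp (w : ℂ) : MFo .hp w = (-2 * MD0 w (-2) + MD0 w 1) / 2 := by
  unfold MFo MD0
  simp only [wX, MW0_cons, MW0_nil]
  norm_num
  ring

theorem MFx_hp (w : ℂ) : MFx .hp w =
    (MD0 w 1 + MD0 w 2 + MD0 w 3 - 2 * MD0 w 4) / 2 := by
  have e : HL0 w 5 = HL0 w (-3) := by rw [← HL0_per w 5]; norm_num
  unfold MFx MD0
  simp only [wY, MW0_cons, MW0_nil]
  norm_num
  rw [e]
  ring

theorem MFo_d (w : ℂ) : MFo .d w = (MD0 w (-1) - MD0 w 1) / 2 := by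
  unfold MFo MD0
  simp only [wX, MW0_cons, MW0_nil]
  norm_num
  ring

theorem MFx_d (w : ℂ) : MFx .d w = 0 := by
  unfold MFx
  simp only [wY, MW0_nil]

/-! ### the values at the places of the half quanta -/

lemma la_sub8 (w : ℂ) (a : ℝ) : la w (a - 8) = la w a := by
  rw [← la_per w (a - 8), sub_add_cancel]

/-- `MD0` where the field equation holds -/
lemma MD0_in (w : ℂ) (k : ℤ) (h : |(3 - k + w.re / NUMF.l : ℝ)| ≤ 3) :
    MD0 w k = 2 * la w (-k - 1) := by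
  rw [MD0_eq, dl0_zero _ h, zero_add]

/-- the same through the reflection `y ↦ 8 - y` -/
lemma MD0_in' (w : ℂ) (k : ℤ) (h : |(5 + k - w.re / NUMF.l : ℝ)| ≤ 3) :
    MD0 w k = 2 * la w (-k - 1) := by
  rw [MD0_eq, ← dl0_refl, show (8 - (3 - k + w.re / NUMF.l) : ℝ) = 5 + k - w.re / NUMF.l by ring,
    dl0_zero _ h, zero_add]

theorem MFo_W {w : ℂ} (hw : w.re = 5 / 4 * NUMF.l) : MFo .w w = la w 0 := by
  have hl := NUMF.l_pos
  have hp : w.re / NUMF.l = 5 / 4 := by rw [hw]; field_simp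
  rw [MFo_w, MD0_in' w (-1) (by rw [hp]; norm_num [abs_le])]
  norm_num

theorem MFx_W {w : ℂ} (hw : w.re = 5 / 4 * NUMF.l) : MFx .w w = -la w 3 := by
  have hl := NUMF.l_pos
  have hp : w.re / NUMF.l = 5 / 4 := by rw [hw]; field_simp
  have e : la w (-(4:ℤ) - 1) = la w 3 := by
    rw [← la_sub8 w 3]
    norm_num
  rw [MFx_w, MD0_in w 4 (by rw [hp]; norm_num [abs_le]), e]
  ring

theorem MFo_F {w : ℂ} (hw : w.re = -(11 / 4) * NUMF.l) : MFo .w w = la w 0 := by
  have hl := NUMF.l_pos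
  have hp : w.re / NUMF.l = -(11 / 4) := by rw [hw]; field_simp
  rw [MFo_w, MD0_in w (-1) (by rw [hp]; norm_num [abs_le])]
  norm_num

theorem MFx_F {w : ℂ} (hw : w.re = -(11 / 4) * NUMF.l) :
    MFx .w w = -la w 3 - Ag (3 / 4) w.im := by
  have hl := NUMF.l_pos
  have hp : w.re / NUMF.l = -(11 / 4) := by rw [hw]; field_simp
  have e : la w (-(4:ℤ) - 1) = la w 3 := by
    rw [← la_sub8 w 3]
    norm_num
  have e2 : dl0 w.im (3 - (4:ℤ) + w.re / NUMF.l) = 2 * Ag (3 / 4) w.im := by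
    rw [hp, ← dl0_neg, dl0_out _ (by norm_num) (by norm_num)]
    norm_num
  rw [MFx_w, MD0_eq w 4, e2, e]
  ring

theorem MFo_P {w : ℂ} (hw : w.re = -(11 / 4) * NUMF.l) :
    MFo .p w = la w 0 - 2 * la w (-2) := by
  have hl := NUMF.l_pos
  have hp : w.re / NUMF.l = -(11 / 4) := by rw [hw]; field_simp
  rw [MFo_p, MD0_in w (-1) (by rw [hp]; norm_num [abs_le]),
    MD0_in w 1 (by rw [hp]; norm_num [abs_le])]
  norm_num
  ring

theorem MFx_P {w : ℂ} (hw : w.re = -(11 / 4) * NUMF.l) : MFx .p w = la w 1 := by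
  have hl := NUMF.l_pos
  have hp : w.re / NUMF.l = -(11 / 4) := by rw [hw]; field_simp
  rw [MFx_p, MD0_in w (-2) (by rw [hp]; norm_num [abs_le])]
  norm_num

theorem MFo_D {w : ℂ} (hw : w.re = -(11 / 4) * NUMF.l) :
    MFo .d w = la w 0 - la w (-2) := by
  have hl := NUMF.l_pos
  have hp : w.re / NUMF.l = -(11 / 4) := by rw [hw]; field_simp
  rw [MFo_d, MD0_in w (-1) (by rw [hp]; norm_num [abs_le]),
    MD0_in w 1 (by rw [hp]; norm_num [abs_le])]
  norm_num
  ring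

theorem MFo_Hs {w : ℂ} (hw : w.re = 5 / 8 * NUMF.l) : MFo .hs w =
    -la w 0 - 2 * la w 1 - Ag (3 / 8) w.im := by
  have hl := NUMF.l_pos
  have hp : w.re / NUMF.l = 5 / 8 := by rw [hw]; field_simp
  have e2 : dl0 w.im (3 - (-1:ℤ) + w.re / NUMF.l) = 2 * Ag (3 / 8) w.im := by
    rw [hp, ← dl0_refl, dl0_out _ (by norm_num) (by norm_num)]
    norm_num
  rw [MFo_hs, MD0_eq w (-1), e2, MD0_in' w (-2) (by rw [hp]; norm_num [abs_le])]
  norm_num
  ring

/-- the word of three sines of the other species -/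
theorem MD0_123 {w : ℂ} {p : ℝ} (hp : w.re / NUMF.l = p) (h1 : -2 ≤ p) (h2 : p ≤ 1) :
    MD0 w 1 + MD0 w 2 + MD0 w 3 = 2 * (la w (-2) + la w (-3) + la w 4) := by
  have e : la w (-(3:ℤ) - 1) = la w 4 := by
    rw [← la_sub8 w 4]
    norm_num
  rw [MD0_in w 1 (by rw [hp, abs_le]; constructor <;> push_cast <;> linarith),
    MD0_in w 2 (by rw [hp, abs_le]; constructor <;> push_cast <;> linarith),
    MD0_in w 3 (by rw [hp, abs_le]; constructor <;> push_cast <;> linarith), e]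
  norm_num
  ring

theorem MFx_Hs {w : ℂ} (hw : w.re = 5 / 8 * NUMF.l) : MFx .hs w =
    la w (-2) + la w (-3) + la w 4 := by
  have hl := NUMF.l_pos
  have hp : w.re / NUMF.l = 5 / 8 := by rw [hw]; field_simp
  rw [MFx_hs, MD0_123 hp (by norm_num) (by norm_num)]
  ring

theorem MFo_Hp {w : ℂ} (hw : w.re = 5 / 8 * NUMF.l) : MFo .hp w =
    la w (-2) - 2 * la w 1 := by
  have hl := NUMF.l_pos
  have hp : w.re / NUMF.l = 5 / 8 := by rw [hw]; field_simp
  rw [MFo_hp, MD0_in' w (-2) (by rw [hp]; norm_num [abs_le]),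
    MD0_in w 1 (by rw [hp]; norm_num [abs_le])]
  norm_num
  ring

theorem MFx_Hp {w : ℂ} (hw : w.re = 5 / 8 * NUMF.l) : MFx .hp w =
    la w (-2) + la w (-3) + la w 4 - 2 * la w 3 := by
  have hl := NUMF.l_pos
  have hp : w.re / NUMF.l = 5 / 8 := by rw [hw]; field_simp
  have e' : la w (-(4:ℤ) - 1) = la w 3 := by
    rw [← la_sub8 w 3]
    norm_num
  rw [MFx_hp, MD0_123 hp (by norm_num) (by norm_num),
    MD0_in w 4 (by rw [hp]; norm_num [abs_le]), e']
  ring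

theorem MFo_Hs' {w : ℂ} (hw : w.re = -(11 / 8) * NUMF.l) : MFo .hs w =
    -la w 0 - 2 * la w 1 - 2 * Ag (5 / 8) w.im := by
  have hl := NUMF.l_pos
  have hp : w.re / NUMF.l = -(11 / 8) := by rw [hw]; field_simp
  have e2 : dl0 w.im (3 - (-2:ℤ) + w.re / NUMF.l) = 2 * Ag (5 / 8) w.im := by
    rw [hp, dl0_out _ (by norm_num) (by norm_num)]
    norm_num
  rw [MFo_hs, MD0_in w (-1) (by rw [hp]; norm_num [abs_le]), MD0_eq w (-2), e2]
  norm_num
  ring

theorem MFx_Hs' {w : ℂ} (hw : w.re = -(11 / 8) * NUMF.l) : MFx .hs w =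
    la w (-2) + la w (-3) + la w 4 := by
  have hl := NUMF.l_pos
  have hp : w.re / NUMF.l = -(11 / 8) := by rw [hw]; field_simp
  rw [MFx_hs, MD0_123 hp (by norm_num) (by norm_num)]
  ring

theorem MFo_Hp' {w : ℂ} (hw : w.re = -(11 / 8) * NUMF.l) : MFo .hp w =
    la w (-2) - 2 * la w 1 - 2 * Ag (5 / 8) w.im := by
  have hl := NUMF.l_pos
  have hp : w.re / NUMF.l = -(11 / 8) := by rw [hw]; field_simp
  have e2 : dl0 w.im (3 - (-2:ℤ) + w.re / NUMF.l) = 2 * Ag (5 / 8) w.im := by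
    rw [hp, dl0_out _ (by norm_num) (by norm_num)]
    norm_num
  rw [MFo_hp, MD0_eq w (-2), e2, MD0_in w 1 (by rw [hp]; norm_num [abs_le])]
  norm_num
  ring

theorem MFx_Hp' {w : ℂ} (hw : w.re = -(11 / 8) * NUMF.l) : MFx .hp w =
    la w (-2) + la w (-3) + la w 4 - 2 * la w 3 := by
  have hl := NUMF.l_pos
  have hp : w.re / NUMF.l = -(11 / 8) := by rw [hw]; field_simp
  have e' : la w (-(4:ℤ) - 1) = la w 3 := by
    rw [← la_sub8 w 3]
    norm_num
  rw [MFx_hp, MD0_123 hp (by norm_num) (by norm_num),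
    MD0_in w 4 (by rw [hp]; norm_num [abs_le]), e']
  ring

end

end PB0.PLX
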