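import Pool.Agent.PLX.PB.KRow
import Pool.Agent.PLX.PB.KVal
import Pool.Agent.PLX.PB.OneD
import Pool.Agent.PLX.PB.MF0
import Pool.Agent.PLX.PotH.CutI
import Pool.Agent.PLX.RowLine

/-!
# PLAX: the geometry of an instance of (K), part A: potential and cutoff (helper91)

* `KI n`: an instance of (K): moved rows `E`, `k a` rows at `0`, legs at `z`, spectators over the groups `S`, given on the
  curve by the atoms `x`; `KI.W`: the rows of a species; `KI.B`: the one body data without groups;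
* `KOk n' K δ Sp m y`: the instance is admissible at the size `m` (`Fil.ne a m` rows of species `a`), `Sp` = what the
  objects ask of the spectators;
* `KI.em`: exponent of the sea, the rows, the legs and the atoms on the line;
* **`KI.pot`**: the potential on the admissible curves, `HSk`, exact domination, value `≤ em + CE * h0`, `h0` a bound of the
  current; **`KI.cut`**: one admissible cutoff for all instances.
-/

set_option autoImplicit false
set_option linter.unusedSectionVars false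

open MeasureTheory Filter Topology Set
open PLX (Fil Ends)

namespace PBK.PLX

open NUMF (l l_pos)
open NUO (pA Tb)
open NUGC.PLX (OB ThN)
open PotH.PLX (HOk HSk CrvP CutR cfW sN)
open PBO.PLX (rwO rwX thZ)
open PBX.PLX (obU)
open PBH (AT)
open PBH.PLX
open PBV.PLX (nS lin HE exists_HE KN cur_AT KN_pos int_AT)
open Pool.Agent.PLX (zr Ax)

noncomputable section

/-- **an instance of (K)** -/
structure KI (n : ℕ) where
  /-- moved rows -/
  E : Bool → List ℂ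
  /-- numbers of rows at `0` -/
  k : Bool → ℕ
  /-- legs -/
  z : ℂ
  /-- atoms -/
  x : Bool → Fin n → Atm
  /-- modulus of the spectators over the groups -/
  S : Bool → ℂ → ℝ

variable {n : ℕ}

/-- the rows of the species `a` -/
def KI.W (y : KI n) (a : Bool) : List ℂ := y.E a ++ zr (y.k a)

/-- the cutoff points -/
def exI : Bool → List ℂ := fun _ => [Complex.I, -Complex.I]

/-- **the one body data without groups** -/
def KI.B (y : KI n) (β : ℝ) : OB :=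
  obU (2 * Real.cos NUP1.l) β (fun a => (y.W a).get) exI exI fun a u => thZ y.z u * y.S a u

/-- the number of all rows of the species `a` -/
def KI.s (y : KI n) (a : Bool) : ℝ := nS (y.E true) (y.E false) (y.k true) (y.k false) a

/-- **the exponent on the line** -/
def KI.em (y : KI n) : ℝ := PLX.EMs y.s +
  ∑ a, y.s a * (lin (y.E true) (y.E false) a + NUMFH.lE y.z + ∫ t, NUMF.P t * HS y.x (fun _ _ => 0) a t)

/-- **admissible instances** of the size `m` -/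
structure KOk [Fil] [Ends] (n' : ℕ) (K δ : ℝ) (Sp : (Bool → ℂ → ℝ) → Prop) (m : ℕ) (y : KI n) : Prop where
  num : ∀ a, (y.E a).length + y.k a = Fil.ne a m
  len : (y.E true).length + (y.E false).length ≤ n'
  ax : ∀ a, ∀ w ∈ y.E a, Ax w
  z : Ax y.z
  atm : AtOk K δ y.x
  nn : ∀ a u, 0 ≤ y.S a u
  cur : ∀ ζ : ℝ → ℝ, (∀ t, |ζ t| ≤ δ / 2) → ∀ a t, y.S a (pA ζ t) = Real.exp (HS y.x (fun _ => ζ) a t)
  sp : Sp y.S

/-! ### atoms -/

/-- two families of atoms -/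
def app {n m : ℕ} (x : Bool → Fin n → Atm) (x' : Bool → Fin m → Atm) (a : Bool) : Fin (n + m) → Atm :=
  Fin.append (x a) (x' a)

lemma HS_app {n m : ℕ} (x : Bool → Fin n → Atm) (x' : Bool → Fin m → Atm) (ζ : Bool → ℝ → ℝ) (a : Bool) (t : ℝ) :
    HS (app x x') ζ a t = HS x ζ a t + HS x' ζ a t := by
  unfold HS app
  rw [Fin.sum_univ_add]
  simp only [Fin.append_left, Fin.append_right]

lemma AtOk.mono {K K' δ : ℝ} {x : Bool → Fin n → Atm} (h : AtOk K δ x) (hK : K ≤ K') : AtOk K' δ x :=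
  fun a i => ⟨(h a i).1.trans hK, (h a i).2⟩

lemma AtOk.app {m : ℕ} {K δ : ℝ} {x : Bool → Fin n → Atm} {x' : Bool → Fin m → Atm} (h : AtOk K δ x)
    (h' : AtOk K δ x') : AtOk K δ (app x x') := by
  intro a i
  refine Fin.addCases (fun j => ?_) (fun j => ?_) i
  · unfold PLX.app
    rw [Fin.append_left]
    exact h a j
  · unfold PLX.app
    rw [Fin.append_right]
    exact h' a j

/-- the atoms on the curve against the line -/
theorem cur_atoms {K δ : ℝ} (hK : 0 ≤ K) (hδ : 0 < δ) (hδ1 : δ ≤ l / 2) {x : Bool → Fin n → Atm}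
    (hx : AtOk K δ x) {s h0 : ℝ} (hs : 0 ≤ s) {ζ : Bool → ℝ → ℝ} (a : Bool) (hζ : ∀ t, |ζ a t| ≤ δ / 2)
    (hc : Continuous (ζ a)) (hh : ∀ t, |s * NUMF.P t * ζ a t| ≤ h0) :
    Integrable (fun t => s * NUMF.P t * HS x ζ a t) ∧
      |(∫ t, s * NUMF.P t * HS x ζ a t) - s * ∫ t, NUMF.P t * HS x (fun _ _ => 0) a t| ≤
        n * (2 * K * (KN δ * h0)) := by
  have hl := l_pos
  have hh0 : 0 ≤ h0 := (abs_nonneg _).trans (hh 0)
  have hKN := (KN_pos hδ (by linarith)).le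
  have key : ∀ i, Integrable (fun t => (x a i).k * (s * NUMF.P t * AT (x a i).y1 (x a i).y2 (x a i).c (ζ a) t)) ∧
      Integrable (fun t => (x a i).k * (NUMF.P t * AT (x a i).y1 (x a i).y2 (x a i).c (fun _ => 0) t)) ∧
      |(∫ t, (x a i).k * (s * NUMF.P t * AT (x a i).y1 (x a i).y2 (x a i).c (ζ a) t)) -
        s * ∫ t, (x a i).k * (NUMF.P t * AT (x a i).y1 (x a i).y2 (x a i).c (fun _ => 0) t)| ≤
          2 * K * (KN δ * h0) := by
    intro i
    obtain ⟨h1, h2, h3⟩ := hx a i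
    obtain ⟨i1, e1⟩ := cur_AT hδ hδ1 hs hζ hc hh h2 h3 (x a i).c
    obtain ⟨i2, e2⟩ := int_AT (lt_of_le_of_lt h2 (by linarith)) (lt_of_le_of_lt h3 (by linarith)) (x a i).c
    refine ⟨i1.const_mul _, i2.const_mul _, ?_⟩
    rw [integral_const_mul, integral_const_mul, e2,
      show (x a i).k * (∫ t, s * NUMF.P t * AT (x a i).y1 (x a i).y2 (x a i).c (ζ a) t) -
        s * ((x a i).k * ((NUMF.H (x a i).c (x a i).y1 - NUMF.H (x a i).c (x a i).y2) / 2)) =
        (x a i).k * ((∫ t, s * NUMF.P t * AT (x a i).y1 (x a i).y2 (x a i).c (ζ a) t) -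
        s * ((NUMF.H (x a i).c (x a i).y1 - NUMF.H (x a i).c (x a i).y2) / 2)) by ring, abs_mul]
    have h4 : 0 ≤ KN δ * h0 := by positivity
    calc _ ≤ K * (2 * (KN δ * h0)) := mul_le_mul h1 e1 (abs_nonneg _) hK
      _ = _ := by ring
  have e1 : (fun t => s * NUMF.P t * HS x ζ a t) = fun t =>
      ∑ i, (x a i).k * (s * NUMF.P t * AT (x a i).y1 (x a i).y2 (x a i).c (ζ a) t) := by
    funext t
    unfold HS
    rw [Finset.mul_sum]
    exact Finset.sum_congr rfl fun i _ => by ring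
  have e2 : (fun t => NUMF.P t * HS x (fun _ _ => 0) a t) = fun t =>
      ∑ i, (x a i).k * (NUMF.P t * AT (x a i).y1 (x a i).y2 (x a i).c (fun _ => 0) t) := by
    funext t
    unfold HS
    rw [Finset.mul_sum]
    exact Finset.sum_congr rfl fun i _ => by ring
  rw [e1, e2]
  refine ⟨integrable_finsetSum _ fun i _ => (key i).1, ?_⟩
  rw [integral_finsetSum _ fun i _ => (key i).1, integral_finsetSum _ fun i _ => (key i).2.1, Finset.mul_sum,
    ← Finset.sum_sub_distrib]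
  exact sum_abs_le fun i => (key i).2.2

/-- the ends on the curve -/
theorem cur_ThN {δ : ℝ} (hδ : 0 < δ) (hδ1 : δ ≤ l / 2) {s h0 : ℝ} (hs : 0 ≤ s) {ζ : ℝ → ℝ}
    (hζ : ∀ t, |ζ t| ≤ δ / 2) (hc : Continuous ζ) (hh : ∀ t, |s * NUMF.P t * ζ t| ≤ h0) :
    Integrable (fun t => s * NUMF.P t * Real.log (ThN (pA ζ t))) ∧
      |∫ t, s * NUMF.P t * Real.log (ThN (pA ζ t))| ≤ 2 * (KN δ * h0) := by
  have hl := l_pos
  obtain ⟨i1, e1⟩ := cur_AT hδ hδ1 hs hζ hc hh (y1 := 7 / 2 * l) (y2 := -(7 / 2 * l))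
    (by rw [abs_of_pos (by (clear * - hδ hδ1; linarith))]; (clear * - hδ1; linarith)) (by rw [abs_neg, abs_of_pos (by linarith)]; (clear * - hδ1; linarith)) 0
  obtain ⟨i2, e2⟩ := cur_AT hδ hδ1 hs hζ hc hh (y1 := 5 / 2 * l) (y2 := -(5 / 2 * l))
    (by rw [abs_of_pos (by (clear * - hδ hδ1; linarith))]; (clear * - hδ hδ1; linarith)) (by rw [abs_neg, abs_of_pos (by (clear * - hδ hδ1; linarith))]; (clear * - hδ hδ1; linarith)) 0
  have hH : ∀ y : ℝ, NUMF.H 0 (-y) = NUMF.H 0 y := fun y => by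
    unfold NUMF.H
    simp only [NUMF.h_neg_right]
  rw [hH, sub_self, zero_div, mul_zero, sub_zero] at e1 e2
  have e : (fun t => s * NUMF.P t * Real.log (ThN (pA ζ t))) = fun t =>
      1 / 2 * (s * NUMF.P t * AT (7 / 2 * l) (-(7 / 2 * l)) 0 ζ t) +
        1 / 2 * (s * NUMF.P t * AT (5 / 2 * l) (-(5 / 2 * l)) 0 ζ t) := by
    funext t
    rw [(ThN_pA hδ hδ1 hζ t).2]
    ring
  rw [e]
  refine ⟨(i1.const_mul _).add (i2.const_mul _), ?_⟩
  rw [integral_add (i1.const_mul _) (i2.const_mul _), integral_const_mul, integral_const_mul]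
  refine (abs_add_le _ _).trans ?_
  rw [abs_mul, abs_mul, abs_of_pos (by norm_num : (0 : ℝ) < 1 / 2)]
  clear * - e1 e2
  linarith

/-! ### the domination -/

lemma rwU_list (W W' : List ℂ) (u : ℂ) : PBX.PLX.rwU W.get W'.get u =
    (W.map fun x => rwO x u).prod * (W'.map fun x => rwX x u).prod := by
  have key : ∀ (W : List ℂ) (f : ℂ → ℝ), ∏ i, f (W.get i) = (W.map f).prod := by
    intro W f
    rw [← List.prod_ofFn]
    congr 1
    rw [List.ofFn_comp' W.get f, List.ofFn_get]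
  unfold PBX.PLX.rwU
  rw [key W (fun x => 1 / (‖Complex.sin (u - x)‖ * ‖Complex.sin (u - x - 2 * NUP1.l)‖)),
    key W' (fun y => ‖Complex.sin (u - y + 3 * NUP1.l)‖ ^ 2)]
  congr 2
  refine List.map_congr_left fun x _ => ?_
  unfold PBO.PLX.rwO
  rw [one_div]

lemma pA_zt (ζ : ℝ → ℝ) (t : ℝ) : pA ζ t = NUP1.l + Complex.I * NUAct.zt (NUKer.iD ζ) t := by
  rw [pA_eq]
  unfold NUAct.zt NUKer.iD
  have hI := Complex.I_mul_I
  have hl1 : (NUP1.l : ℂ) = (l : ℂ) := rfl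
  rw [hl1]
  linear_combination (-(ζ t : ℂ)) * hI

lemma rw0_pA {δ : ℝ} (hδ : 0 < δ) (hδ1 : δ ≤ l / 2) {ζ : ℝ → ℝ} (hζ : ∀ t, |ζ t| ≤ δ / 2) (t : ℝ) :
    rwO 0 (pA ζ t) = Real.exp (NUAct.vs (NUAct.zt (NUKer.iD ζ) t)).re ∧
      rwX 0 (pA ζ t) = Real.exp (NUAct.vx (NUAct.zt (NUKer.iD ζ) t)).re := by
  have hl := l_pos
  have him : |(NUAct.zt (NUKer.iD ζ) t).im| < NUMF.l := by
    have e : (NUAct.zt (NUKer.iD ζ) t).im = ζ t := by
      unfold NUAct.zt NUKer.iD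
      simp
    rw [e]
    linarith [hζ t]
  have h1 := Pool.Agent.PLX.own_line him
  have h2 := Pool.Agent.PLX.cross_line him
  constructor
  · rw [← h1]
    unfold PBO.PLX.rwO
    rw [sub_zero, pA_zt, one_div]
  · rw [← h2]
    unfold PBO.PLX.rwX
    rw [sub_zero, pA_zt]

attribute [local instance] NUSea.seaP

variable [Fil] [Ends] {n' : ℕ} {K δ : ℝ} {Sp : (Bool → ℂ → ℝ) → Prop} {m : ℕ} {y : KI n}

lemma KOk.s_eq (h : KOk n' K δ Sp m y) (a : Bool) : y.s a = sN m a := by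
  unfold KI.s nS sN
  rw [← h.num a]
  cases a <;> simp

/-- **the domination on the curve is an equality** -/
theorem KI.R_pA (hδ : 0 < δ) (hδ1 : δ ≤ l / 2) (h : KOk n' K δ Sp m y) (β : ℝ) {η : ℝ → ℝ}
    (hη : ∀ t, |η t| ≤ δ / 2) (a : Bool) (t : ℝ) :
    (y.B β).R a (pA (Fil.cv a η) t) = 2 * Real.cos NUP1.l *
      Real.exp (NUSea.PLX.vb (sN m) a (NUAct.zt (NUKer.iD (Fil.cv a η)) t)).re * ThN (pA (Fil.cv a η) t) *
        Real.exp (HS (app y.x (aleg 0 1 y.z)) (fun a => Fil.cv a η) a t + RL y.E (fun a => Fil.cv a η) a t) := by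
  have hl := l_pos
  have hη' : ∀ a t, |Fil.cv a η t| ≤ δ / 2 := fun a t => Fil.abs_cv_le_of (hη t)
  have hz0 : -l + δ ≤ y.z.re := by rw [h.z.1]; linarith
  have hz1 : y.z.re ≤ 4 * l - δ := by rw [h.z.1]; linarith
  have hE : ∀ a, ∀ w ∈ y.E a, |w.re| ≤ l - δ := fun a w hw => by
    rw [(h.ax a w hw).1, abs_zero]
    linarith
  obtain ⟨p1, p2⟩ := rw0_pA hδ hδ1 (hη' a) t
  obtain ⟨q1, q2⟩ := thZ_pA hδ (by linarith) (hη' a) hz0 hz1 t
  obtain ⟨r1, r2⟩ := ThN_pA hδ hδ1 (hη' a) t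
  have e0 : (y.B β).R a (pA (Fil.cv a η) t) = 2 * Real.cos NUP1.l * PBX.PLX.rwU (y.W a).get (y.W (!a)).get
      (pA (Fil.cv a η) t) * (thZ y.z (pA (Fil.cv a η) t) * y.S a (pA (Fil.cv a η) t)) := rfl
  have e1 := prod_rw_pow hδ hη' hE y.k a t
  have e2 : Real.exp (NUSea.PLX.vb (sN m) a (NUAct.zt (NUKer.iD (Fil.cv a η)) t)).re =
      rwO 0 (pA (Fil.cv a η) t) ^ (Fil.ne a m) * rwX 0 (pA (Fil.cv a η) t) ^ (Fil.ne (!a) m) := by
    rw [p1, p2, ← Real.exp_nat_mul, ← Real.exp_nat_mul, ← Real.exp_add]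
    congr 1
    unfold NUSea.PLX.vb sN
    simp
    rfl
  rw [e0, rwU_list]
  unfold KI.W
  have e3 : ((y.E a ++ zr (y.k a)).map fun x => rwO x (pA (Fil.cv a η) t)).prod *
      ((y.E (!a) ++ zr (y.k !a)).map fun x => rwX x (pA (Fil.cv a η) t)).prod =
      rwO 0 (pA (Fil.cv a η) t) ^ (Fil.ne a m) * rwX 0 (pA (Fil.cv a η) t) ^ (Fil.ne (!a) m) *
        Real.exp (RL y.E (fun a => Fil.cv a η) a t) := by
    rw [← h.num a, ← h.num (!a)]
    exact e1
  rw [e3, e2, h.cur _ (hη' a) a t, ← Real.exp_log q1, q2, HS_app, HS_aleg hδ hδ1 hη', one_mul,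
    Real.exp_add (_ + _), Real.exp_add, Real.exp_sub, Real.exp_log r1]
  have e4 : HS y.x (fun _ => Fil.cv a η) a t = HS y.x (fun a => Fil.cv a η) a t := rfl
  rw [e4]
  field_simp

lemma HE_RL (E : Bool → List ℂ) (z : ℂ) (ζ : Bool → ℝ → ℝ) (a : Bool) (t : ℝ) :
    HE (E true) (E false) z ζ a t = AT z.re (z.re - 3 * l) z.im (ζ a) t + RL E ζ a t := by
  unfold HE RL
  cases a <;> simp <;> ring

/-- the currents of the two species -/
lemma cur_sp {m : ℕ} (hm : 1 ≤ m) {η : ℝ → ℝ} {h0 : ℝ} (hh : ∀ t, |(m : ℝ) * NUSea.P t * η t| ≤ h0) (a : Bool)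
    (t : ℝ) : |sN m a * NUMF.P t * Fil.cv a η t| ≤ (2 + (Ends.o : ℕ)) * h0 := by
  have hP := NUMF.P_pos t
  have hmr : (1 : ℝ) ≤ m := by exact_mod_cast hm
  have h1 := Fil.abs_ne_mul_cv_sub_le a hm η t
  have h2 : |(m : ℝ) * NUMF.P t * η t| ≤ h0 := hh t
  have ho : (0 : ℝ) ≤ (Ends.o : ℕ) := Nat.cast_nonneg _
  have h3 : NUMF.P t * |η t| ≤ h0 := by
    rw [abs_mul, abs_of_pos (by positivity)] at h2
    have := mul_nonneg hP.le (abs_nonneg (η t))
    clear * - h2 hmr this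
    nlinarith
  have e : sN m a * NUMF.P t * Fil.cv a η t = NUMF.P t * (((Fil.ne a m : ℕ) : ℝ) * Fil.cv a η t - m * η t) +
      m * NUMF.P t * η t := by
    show ((Fil.ne a m : ℕ) : ℝ) * NUMF.P t * Fil.cv a η t = _
    ring
  rw [e]
  refine (abs_add_le _ _).trans ?_
  rw [abs_mul, abs_of_pos hP]
  have h4 := mul_le_mul_of_nonneg_left h1 hP.le
  have h5 : NUMF.P t * ((1 + (Ends.o : ℕ)) * |η t|) = (1 + (Ends.o : ℕ)) * (NUMF.P t * |η t|) := by ring
  have h6 := mul_le_mul_of_nonneg_left h3 (show (0 : ℝ) ≤ 1 + (Ends.o : ℕ) by linarith)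
  linarith

/-- **the potential of an instance on the admissible curves** -/
theorem exists_pot (n n' : ℕ) {K δ : ℝ} (hK : 0 ≤ K) (hδ : 0 < δ) (hδ1 : δ ≤ l / 2) :
    ∃ B0 N0 CE : ℝ, 0 ≤ B0 ∧ 0 ≤ N0 ∧ 0 ≤ CE ∧ ∀ e1 : ℝ, 0 < e1 → ∃ m0 : ℕ, ∀ m : ℕ, m0 ≤ m →
      ∀ (Cc : ℝ) (η η1 : ℝ → ℝ), CrvP e1 Cc m η η1 → ∀ h0 : ℝ, (∀ t, |(m : ℝ) * NUSea.P t * η t| ≤ h0) →
      ∀ (Sp : (Bool → ℂ → ℝ) → Prop) (y : KI n), KOk n' K δ Sp m y → ∃ H H' : Bool → ℝ → ℝ,
        (∀ th b : ℝ, 0 ≤ th → HSk B0 N0 th b (Real.log m ^ 3) H H') ∧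
        (∀ (β : ℝ) (a : Bool) (t : ℝ), (y.B β).R a (pA (Fil.cv a η) t) ≤ 2 * Real.cos NUP1.l *
          Real.exp (NUSea.PLX.vb (sN m) a (NUAct.zt (NUKer.iD (Fil.cv a η)) t)).re * ThN (pA (Fil.cv a η) t) *
            Real.exp (H a t)) ∧
        NUSea.PLX.MF (sN m) + ∑ a, ∫ t, sN m a * NUSea.P t * H a t ≤ y.em + CE * h0 := by
  have hl := l_pos
  have h8 : 8 * l = Real.pi := by unfold NUMF.l; ring
  have hpi := Real.pi_lt_four
  have hKN := (KN_pos hδ (by linarith)).le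
  obtain ⟨B0, N0, hB0, hN0, H⟩ := hsk_list (n + 5) n' (K := max K 2) (le_max_of_le_left hK) hδ (by (clear * - hδ1 h8 hpi; linarith)) 1
  refine ⟨B0, N0, 2 * ((4 * (n' + 1) + 2 * n * K + 2) * KN δ * (2 + (Ends.o : ℕ))), hB0, hN0, by (clear * - hK hKN; positivity),
    fun e1 he1 => ?_⟩
  obtain ⟨m0, hm0⟩ := H e1 he1
  refine ⟨max m0 1, fun m hm Cc η η1 hη h0 hh Sp y hy => ?_⟩
  have hm1 : 1 ≤ m := (le_max_right _ _).trans hm
  obtain ⟨hs, h⟩ := hm0 m ((le_max_left _ _).trans hm) Cc η η1 hη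
  have hηδ : ∀ t, |η t| ≤ δ / 2 := fun t => (hs t).trans (by (clear * - hδ; linarith))
  have hη' : ∀ a t, |Fil.cv a η t| ≤ δ / 2 := fun a t => Fil.abs_cv_le_of (hηδ t)
  have hz0 : -l + δ ≤ y.z.re := by rw [hy.z.1]; (clear * - hδ hδ1; linarith)
  have hz1 : y.z.re ≤ 4 * l - δ := by rw [hy.z.1]; (clear * - hδ hδ1; linarith)
  have hE : ∀ a, ∀ w ∈ y.E a, |w.re| ≤ l - δ ∧ |w.im| ≤ 1 := fun a w hw => by
    refine ⟨?_, (hy.ax a w hw).2⟩
    rw [(hy.ax a w hw).1, abs_zero]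
    clear * - hδ hδ1
    linarith
  have hx : AtOk (max K 2) δ (app y.x (aleg 0 1 y.z)) := AtOk.app (AtOk.mono hy.atm (le_max_left _ _))
    (AtOk.mono (aleg_ok (by norm_num) (by norm_num) hδ hδ1 hz0 hz1) (le_max_right _ _))
  obtain ⟨H', hH⟩ := h _ hx y.E hy.len hE
  refine ⟨_, H', fun th b hth => hH th b hth, fun β a t => (KI.R_pA hδ hδ1 hy β hηδ a t).le, ?_⟩
  -- the value
  have hh0 : 0 ≤ h0 := (abs_nonneg _).trans (hh 0)
  set h1 : ℝ := (2 + (Ends.o : ℕ)) * h0 with hh1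
  have hh10 : 0 ≤ h1 := by positivity
  have hlen : ((y.E true).length : ℝ) + (y.E false).length + 1 ≤ n' + 1 := by
    have := hy.len
    have h2 : (((y.E true).length + (y.E false).length : ℕ) : ℝ) ≤ n' := by exact_mod_cast this
    push_cast at h2
    clear * - h2
    linarith
  have key : ∀ a, ∫ t, sN m a * NUSea.P t * (HS (app y.x (aleg 0 1 y.z)) (fun a => Fil.cv a η) a t +
      RL y.E (fun a => Fil.cv a η) a t) ≤ y.s a * (lin (y.E true) (y.E false) a + NUMFH.lE y.z +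
        ∫ t, NUMF.P t * HS y.x (fun _ _ => 0) a t) + (4 * (n' + 1) + 2 * n * K + 2) * KN δ * h1 := by
    intro a
    have hcc : Continuous (Fil.cv a η) := Fil.continuous_cv a (continuous_iff_continuousAt.2 fun t =>
      (hη.d t).continuousAt)
    have hcu : ∀ t, |sN m a * NUMF.P t * Fil.cv a η t| ≤ h1 := fun t => cur_sp hm1 hh a t
    obtain ⟨i1, e1⟩ := exists_HE hδ hδ1 (y.E true) (y.E false) y.z
      (fun w hw => by rw [(hy.ax true w hw).1, abs_zero]; (clear * - hδ hδ1; linarith))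
      (fun w hw => by rw [(hy.ax false w hw).1, abs_zero]; linarith) hz0 hz1 a (sN m a) h1
      (fun a => Fil.cv a η) (PotH.PLX.sN_nonneg m a) (hη' a) hcc hcu
    obtain ⟨i2, e2⟩ := cur_atoms hK hδ hδ1 hy.atm (PotH.PLX.sN_nonneg m a) (ζ := fun a => Fil.cv a η) a (hη' a) hcc hcu
    obtain ⟨i3, e3⟩ := cur_ThN hδ hδ1 (PotH.PLX.sN_nonneg m a) (hη' a) hcc hcu
    have e : (fun t => sN m a * NUSea.P t * (HS (app y.x (aleg 0 1 y.z)) (fun a => Fil.cv a η) a t +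
        RL y.E (fun a => Fil.cv a η) a t)) = fun t =>
        (sN m a * NUMF.P t * HE (y.E true) (y.E false) y.z (fun a => Fil.cv a η) a t +
          sN m a * NUMF.P t * HS y.x (fun a => Fil.cv a η) a t) -
            sN m a * NUMF.P t * Real.log (ThN (pA (Fil.cv a η) t)) := by
      funext t
      rw [HS_app, HS_aleg hδ hδ1 hη', HE_RL]
      show sN m a * NUMF.P t * _ = _
      ring
    have es : (∫ t, (sN m a * NUMF.P t * HE (y.E true) (y.E false) y.z (fun a => Fil.cv a η) a t +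
          sN m a * NUMF.P t * HS y.x (fun a => Fil.cv a η) a t) -
            sN m a * NUMF.P t * Real.log (ThN (pA (Fil.cv a η) t))) =
        (∫ t, (sN m a * NUMF.P t * HE (y.E true) (y.E false) y.z (fun a => Fil.cv a η) a t +
          sN m a * NUMF.P t * HS y.x (fun a => Fil.cv a η) a t)) -
            ∫ t, sN m a * NUMF.P t * Real.log (ThN (pA (Fil.cv a η) t)) := integral_sub (i1.add i2) i3
    rw [e, es, integral_add i1 i2, hy.s_eq a]
    have e1' := (abs_le.1 e1).2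
    have e2' := (abs_le.1 e2).2
    have e3' := (abs_le.1 e3).1
    have e4 : 4 * KN δ * (((y.E true).length : ℝ) + (y.E false).length + 1) * h1 ≤ 4 * KN δ * (n' + 1) * h1 := by
      have : 0 ≤ 4 * KN δ := by positivity
      clear * - hh0 h1 hlen hKN
      gcongr
    clear * - h1 e1' e2' e3' e4
    nlinarith
  rw [show NUSea.PLX.MF (sN m) = PLX.EMs (sN m) from PLX.EMs_eq _]
  have e5 : y.s = sN m := funext fun a => hy.s_eq a
  have hsum : ∑ a, ∫ t, sN m a * NUSea.P t * (HS (app y.x (aleg 0 1 y.z)) (fun a => Fil.cv a η) a t +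
      RL y.E (fun a => Fil.cv a η) a t) ≤ ∑ a, (y.s a * (lin (y.E true) (y.E false) a + NUMFH.lE y.z +
        ∫ t, NUMF.P t * HS y.x (fun _ _ => 0) a t) + (4 * (n' + 1) + 2 * n * K + 2) * KN δ * h1) :=
    Finset.sum_le_sum fun a _ => key a
  rw [Finset.sum_add_distrib, Finset.sum_const, Finset.card_univ, Fintype.card_bool, nsmul_eq_mul] at hsum
  unfold KI.em
  rw [e5] at hsum ⊢
  push_cast at hsum
  rw [hh1] at hsum
  clear * - hsum
  nlinarith

/-- **one admissible cutoff for all instances** -/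
theorem exists_cut (n n' : ℕ) {ep e1 : ℝ} (hep : 0 < ep) (hep1 : ep ≤ 1 / 100) (he : 0 < e1) (he1 : e1 ≤ 1 / 100)
    (Cc : ℝ) : ∃ C0 : ℝ, 1 ≤ C0 ∧ ∃ m0 : ℕ, ∀ m ≥ m0, ∃ cr Bc Bc' : ℝ → ℝ,
      CutR ep C0 ((1 - e1) * Tb (Real.log m)) m cr Bc Bc' ∧
      ∀ (K δ : ℝ) (Sp : (Bool → ℂ → ℝ) → Prop) (y : KI n), KOk n' K δ Sp m y → ∀ η η1 : ℝ → ℝ,
        CrvP e1 Cc m η η1 → ∀ a t, ‖(y.B (4 / 3 * (1 - ep))).φ a (pA (Fil.cv a η) t)‖ ≤ cr t := by
  obtain ⟨C0, hC0, m0, -, H⟩ := PotH.PLX.exists_cutR hep hep1 he he1 Cc (n' + 2) (hh := 1) zero_le_one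
  refine ⟨C0, hC0, m0, fun m hm => ?_⟩
  obtain ⟨cr, Bc, Bc', h1, h2⟩ := H m hm
  refine ⟨cr, Bc, Bc', h1, fun K δ Sp y hy η η1 hη a t => ?_⟩
  have hla : (y.E a).length ≤ n' := by
    have := hy.len
    cases a <;> omega
  have hn := hy.num a
  have hW : PotH.RwI (n' + 2) 1 (Fil.ne a m) (y.k a) (y.W a ++ exI a) (y.E a ++ [Complex.I, -Complex.I]) :=
    PotH.PLX.RwI.axis (by
      unfold KI.W exI zr
      rw [List.append_assoc]) (hy.ax a) (by omega) (by omega) (by omega)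
  have h3 := h2 a (y.k a) (y.W a ++ exI a) _ hW η η1 hη t
  have e : (y.B (4 / 3 * (1 - ep))).φ a = NUP1.phi (4 / 3 * (1 - ep)) (List.ofFn (y.W a).get ++ exI a) := rfl
  rw [e, List.ofFn_get]
  exact h3

end

end PBK.PLX
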