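import Pool.Agent.PLX.Ns
import Pool.Agent.PLX.NUSea.H0.LinC
import Pool.Agent.PLX.NUSea.Sfin

/-!
# Plan B: the linear term of a potential on the curve, words without the condition `Away`

* `Fit δ L w`: the letters of the word are regular in `|Im ζ| < δ l`; `asy_wdF`, `diff_wdF`;
* **`exists_linH`**: for `Ψ = a ± i φ + O(κ e^{-2|Re z - τ|})`, `h = s P η` the current,
  `s ∫ P Re Ψ(ζ(t)) = s ∫ P Re Ψ(t) - 2 φ h(τ) + O(κ sup |h'|) + O((|a| + |φ| + κ) b M ε)`;
* `exists_linW`: finite sums of words.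
-/

set_option autoImplicit false
set_option linter.unusedSectionVars false

open MeasureTheory Set Filter Topology Complex

namespace PBV.PLX

open NUMF (l l_pos)
open NUKer NUAct
open NUSea (Sea)
open NUO (yw bk bk1 wz wz_re wz_im ll_pos)
open NUSp (wd wd1 wn wq wph ka Asy)

noncomputable section

/-! ### words -/

/-- the letters of the word are regular in `|Im ζ| < δ l` -/
def Fit (δ : ℝ) (L : List (ℤ × ℝ)) (w : ℂ) : Prop := ∀ kc ∈ L, |yw w kc.1| ≤ (4 - δ) * l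

variable {δ b : ℝ} {w : ℂ}

lemma four_l' : 4 * l = Real.pi / 2 := by unfold NUMF.l; ring

theorem asy_bkF (hb : b < δ * l) {k : ℤ} (h : |yw w k| ≤ (4 - δ) * l) :
    Asy b (ka δ b) 1 (-Real.log 2) (yw w k) w.im (bk w k) := by
  have h4 := four_l'
  obtain ⟨b', hb'⟩ : ∃ b' : ℝ, b' = Real.pi / 2 - (δ * l - b) := ⟨_, rfl⟩
  have hb1 : b' < Real.pi / 2 := by rw [hb']; linarith
  have hcos : Real.cos b' = Real.sin (δ * l - b) := by rw [hb', Real.cos_pi_div_two_sub]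
  have him : ∀ ζ : ℂ, |ζ.im| < b → |(wz w k ζ).im| ≤ b' := by
    intro ζ hζ
    rw [wz_im, hb']
    have h2 := abs_add_le ζ.im (yw w k)
    linarith
  refine ⟨fun ζ hζ hr => ?_, fun ζ hζ hr => ?_⟩
  · have h1 := NUSp.log_cosh_r hb1 (him ζ hζ) (by rw [wz_re]; linarith)
    rw [wz_re, hcos] at h1
    refine le_trans (le_of_eq ?_) h1
    congr 1
    unfold bk wz
    push_cast
    ring
  · have h1 := NUSp.log_cosh_l hb1 (him ζ hζ) (by rw [wz_re]; linarith)
    rw [wz_re, hcos] at h1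
    refine le_trans (le_of_eq ?_) h1
    congr 1
    unfold bk wz
    push_cast
    ring

theorem asy_wdF (hb : b < δ * l) {L : List (ℤ × ℝ)} (h : Fit δ L w) :
    Asy b (wn L * ka δ b) (wq L) (-(wq L * Real.log 2)) (wph L w) w.im (wd L w) := by
  have h1 := Asy.listSum L (κ := fun kc => |kc.2| * ka δ b) (c := fun kc => kc.2 * (1:ℝ))
    (a := fun kc => kc.2 * (-Real.log 2)) (φ := fun kc => kc.2 * yw w kc.1)
    (f := fun kc ζ => (kc.2 : ℂ) * bk w kc.1 ζ)
    (τ := w.im) fun kc hk => (asy_bkF hb (h kc hk)).smul kc.2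
  have e1 : (L.map fun kc => |kc.2| * ka δ b).sum = wn L * ka δ b := by
    unfold wn
    rw [List.sum_map_mul_right]
  have e2 : (L.map fun kc => kc.2 * (1:ℝ)).sum = wq L := by
    simp [wq]
  have e3 : (L.map fun kc => kc.2 * (-Real.log 2)).sum = -(wq L * Real.log 2) := by
    rw [List.sum_map_mul_right]
    unfold wq
    ring
  rw [e1, e2, e3] at h1
  exact h1

theorem diff_bkF {k : ℤ} (h : |yw w k| ≤ (4 - δ) * l) {ζ : ℂ} (hζ : |ζ.im| < δ * l) :
    DifferentiableAt ℂ (bk w k) ζ := by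
  have h4 := four_l'
  have h1 : |(wz w k ζ).im| < Real.pi / 2 := by
    rw [wz_im]
    have h2 := abs_add_le ζ.im (yw w k)
    linarith
  have h2 := (Complex.hasDerivAt_cosh (wz w k ζ)).clog (NUMF.cosh_slit h1)
  have h3 : HasDerivAt (wz w k) 1 ζ := by
    unfold wz
    exact ((hasDerivAt_id ζ).sub_const _).add_const _
  exact (h2.comp ζ h3).differentiableAt

theorem diff_wdF {L : List (ℤ × ℝ)} (h : Fit δ L w) {ζ : ℂ} (hζ : |ζ.im| < δ * l) :
    DifferentiableAt ℂ (wd L w) ζ := by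
  induction L with
  | nil =>
    have : wd [] w = fun _ => 0 := funext fun ζ => NUSp.wd_nil w ζ
    rw [this]
    exact differentiableAt_const _
  | cons a L ih =>
    have e : wd (a :: L) w = fun ζ => (a.2 : ℂ) * bk w a.1 ζ + wd L w ζ :=
      funext fun ζ => NUSp.wd_cons a L w ζ
    rw [e]
    exact ((diff_bkF (h a (by simp)) hζ).const_mul _).add (ih fun x hx => h x (by simp [hx]))

end

/-! ### the linear term -/

noncomputable section

variable [NUSea.Sea]

/-- **the linear term of a potential on the curve** -/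
theorem exists_linH : ∃ C : ℝ, 1 ≤ C ∧ ∀ {s ε M b : ℝ} {e η η1 : ℝ → ℝ}, 0 ≤ s → ε ≤ 1 / 20 →
    NUSea.PLX.Cur s ε M b e η → (∀ t, HasDerivAt η (η1 t) t) → 0 ≤ b →
    ∀ {B κ a φ τ A : ℝ} {Ψ : ℂ → ℂ}, ε < B → Asy B κ 0 a φ τ Ψ →
      (∀ z : ℂ, |z.im| < B → DifferentiableAt ℂ Ψ z) → (∀ t, |NUSea.PLX.hd s η η1 t| ≤ A) →
      Integrable (fun t => s * NUSea.P t * (Ψ (zt (iD η) t)).re) ∧
      Integrable (fun t : ℝ => s * NUSea.P t * (Ψ t).re) ∧
      |(∫ t, s * NUSea.P t * (Ψ (zt (iD η) t)).re) - (∫ t : ℝ, s * NUSea.P t * (Ψ t).re) +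
          2 * φ * (s * NUSea.P τ * η τ)| ≤
        κ * A + C * (|a| + |φ| + κ) * b * (M * ε) := by
  obtain ⟨C, hC, H⟩ := NUSea.PLX.H0.exists_lin
  refine ⟨C, hC, ?_⟩
  intro s ε M b e η η1 hs hε hcur h1 hb B κ a φ τ A Ψ hεB hΨ hdiff hA
  obtain ⟨i0, h0⟩ := H hs hε hcur h1 hb hεB hΨ hdiff hA
  have hε0 := hcur.ε0
  have hl := l_pos
  have hεl : ε < l / 2 := by
    unfold NUMF.l
    have := Real.pi_gt_three
    linarith
  have hη : ∀ t, |η t| ≤ ε := fun t => (NUSea.PLX.H0.lc_le hcur t).trans (hcur.le t)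
  have him : ∀ t, (zt (iD η) t).im = η t := fun t => by simp [NUAct.zt, iD]
  have hz : ∀ t, |(zt (iD η) t).im| < B := fun t => by rw [him]; exact (hη t).trans_lt hεB
  have hP := NUSea.PLX.path_of_cur_w hs hε le_rfl hcur h1
  obtain ⟨Cp, hCp, hPc⟩ := NUSea.Sea.bd 0 ε hε0 hεl
  have hN : ∀ z : ℂ, |z.im| ≤ ε → ‖Ψ z‖ ≤ |a| + |φ| + κ := fun z hz =>
    (NUSea.PLX.H0.asy_le hΨ (hz.trans_lt hεB)).2
  have hN0 : 0 ≤ |a| + |φ| + κ := (norm_nonneg _).trans (hN 0 (by simpa using hε0))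
  have hdec : Dec ε (Cp * (|a| + |φ| + κ)) (8 / 3) fun z => NUSea.Pc z * Ψ z := by
    refine ⟨fun z hz => ?_, fun z hz => ?_⟩
    · exact (NUSea.Sea.diff z (hz.trans_lt hεl)).mul (hdiff z (hz.trans_lt hεB))
    · have h2 := hPc z hz
      rw [iteratedDeriv_zero] at h2
      rw [norm_mul]
      have h3 : ‖NUSea.Pc z‖ * ‖Ψ z‖ ≤ (Cp * Real.exp (-(8 / 3) * |z.re|)) * (|a| + |φ| + κ) :=
        mul_le_mul h2 (hN z hz) (norm_nonneg _) (by positivity)
      linarith
  obtain ⟨p1, p2, p3⟩ := path_shift (by norm_num) hdec hP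
  -- the identity
  have e1 : ∀ t, ((s * NUSea.P t : ℝ) : ℂ) * Ψ (zt (iD η) t) =
      (s : ℂ) * (NUSea.Pc (zt (iD η) t) * Ψ (zt (iD η) t) * zd (iD η1) t) -
        NUSea.PLX.Bf s (iD η) (iD η1) t * Ψ (zt (iD η) t) := by
    intro t
    unfold NUSea.PLX.Bf
    ring
  have i1 : Integrable fun t => ((s * NUSea.P t : ℝ) : ℂ) * Ψ (zt (iD η) t) := by
    simp_rw [e1]
    exact (p1.const_mul _).sub i0
  have e2 : ∀ t : ℝ, ((s * NUSea.P t : ℝ) : ℂ) * Ψ t = (s : ℂ) * (NUSea.Pc t * Ψ t) := by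
    intro t
    rw [NUSea.Pc_ofReal]
    push_cast
    ring
  have i2 : Integrable fun t : ℝ => ((s * NUSea.P t : ℝ) : ℂ) * Ψ t := by
    simp_rw [e2]
    exact p2.const_mul _
  have e3 : (∫ t, ((s * NUSea.P t : ℝ) : ℂ) * Ψ (zt (iD η) t)) =
      (∫ t : ℝ, ((s * NUSea.P t : ℝ) : ℂ) * Ψ t) -
        ∫ t, NUSea.PLX.Bf s (iD η) (iD η1) t * Ψ (zt (iD η) t) := by
    simp_rw [e1, e2]
    rw [integral_sub (p1.const_mul _) i0, integral_const_mul, integral_const_mul, p3]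
  have j1 : Integrable fun t => s * NUSea.P t * (Ψ (zt (iD η) t)).re := by
    refine i1.re.congr (Eventually.of_forall fun t => ?_)
    simp only [RCLike.re_to_complex]
    rw [Complex.re_ofReal_mul]
  have j2 : Integrable fun t : ℝ => s * NUSea.P t * (Ψ t).re := by
    refine i2.re.congr (Eventually.of_forall fun t => ?_)
    simp only [RCLike.re_to_complex]
    rw [Complex.re_ofReal_mul]
  refine ⟨j1, j2, ?_⟩
  have r1 : (∫ t, ((s * NUSea.P t : ℝ) : ℂ) * Ψ (zt (iD η) t)).re =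
      ∫ t, s * NUSea.P t * (Ψ (zt (iD η) t)).re := by
    have := integral_re i1
    simp only [RCLike.re_to_complex] at this
    rw [← this]
    refine integral_congr_ae (Eventually.of_forall fun t => ?_)
    simp only
    rw [Complex.re_ofReal_mul]
  have r2 : (∫ t : ℝ, ((s * NUSea.P t : ℝ) : ℂ) * Ψ t).re =
      ∫ t : ℝ, s * NUSea.P t * (Ψ t).re := by
    have := integral_re i2
    simp only [RCLike.re_to_complex] at this
    rw [← this]
    refine integral_congr_ae (Eventually.of_forall fun t => ?_)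
    simp only
    rw [Complex.re_ofReal_mul]
  have e4 := congrArg Complex.re e3
  rw [Complex.sub_re, r1, r2] at e4
  rw [e4]
  refine le_trans (le_of_eq ?_) h0
  congr 1
  ring

end

end PBV.PLX
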