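import Pool.Agent.PB.ValE
import Pool.Agent.PB.MFrho3
import Pool.Agent.PLX.PfQ
import Pool.Agent.PLX.EM2

/-!
# The prefactor is the mean field value, exactly, any rows in the two groups

* `mEx w`, `mEo w` : energy of two rows of different groups and of two rows of one group, `mE = mEo + mEx`;
  `int_own`, `int_cross` : the integrals of the row factors on the line against the density `P`;
* `Q2 x y z` : energy of the rows `x` of the first, `y` of the second group and of the legs at `z`;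
* **`log_Pf`** : `log ‖Pf z x y‖ + Q2 x y z = log (3/2 ‖sin l‖ / ‖rh 0‖)`.
-/

set_option autoImplicit false
set_option linter.unusedSectionVars false
set_option linter.unusedVariables false

noncomputable section

open Complex MeasureTheory

namespace PBV.PLX

open NUP1.Grand (P)
open NUMFH (mE lE)
open PBR (rh rh_neg rh_ne_zero)
open Pool.Agent.PB
open Pool.Agent.PLX
open NUP1 (l lpos)

variable {m M : ℕ}

/-! ### the energies -/

/-- energy of two rows of different groups -/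
def mEx (w : ℂ) : ℝ := 2 * Real.log ‖rh w‖

/-- energy of two rows of one group -/
def mEo (w : ℂ) : ℝ := mE w - mEx w

theorem mEx_neg (w : ℂ) : mEx (-w) = mEx w := by
  unfold mEx
  rw [rh_neg]

theorem mEo_neg (w : ℂ) : mEo (-w) = mEo w := by
  unfold mEo
  rw [mEx_neg, NUMFH.mE_even]

theorem mE_add (w : ℂ) : mEo w + mEx w = mE w := by
  unfold mEo
  ring

/-- **two rows of one group** -/
theorem log_Sf {w : ℂ} (h : |w.re| ≤ l) : Sf w ≠ 0 ∧ Real.log ‖Sf w‖ = -mEo w := by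
  have hl := lpos
  have hll : NUMF.l = l := rfl
  have hr : rh w ≠ 0 := rh_ne_zero (by linarith)
  have hF := PBS.FF_ne (w := w) h
  have e : Sf w = PBS.FF w / rh w ^ 2 := by
    unfold Sf
    congr 1
    rw [PBS.FF_def]
    unfold Fp
    rw [add_comm (2 * (l : ℂ)) w, add_comm (3 * (l : ℂ)) w]
    ring
  have hm : mE w = 4 * Real.log ‖rh w‖ - Real.log ‖PBS.FF w‖ := by
    have h1 := PBS.exp_mE (w := w) h
    have h2 := congrArg Real.log h1
    rw [Real.log_exp, Real.log_div (pow_ne_zero _ (norm_ne_zero_iff.2 hr)) (norm_ne_zero_iff.2 hF),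
      Real.log_pow] at h2
    push_cast at h2
    exact h2
  rw [e]
  refine ⟨div_ne_zero hF (pow_ne_zero _ hr), ?_⟩
  rw [norm_div, norm_pow, Real.log_div (norm_ne_zero_iff.2 hF) (pow_ne_zero _ (norm_ne_zero_iff.2 hr)),
    Real.log_pow]
  unfold mEo mEx
  rw [hm]
  push_cast
  ring

/-- **a leg and a row** -/
theorem log_Lf {w : ℂ} (h0 : -l ≤ w.re) (h1 : w.re ≤ 4 * l) : Lf w ≠ 0 ∧ Real.log ‖Lf w‖ = -lE w := by
  have hl := lpos
  have hr : rh w ≠ 0 := rh_ne_zero (by rw [abs_lt]; constructor <;> linarith)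
  have hL := PBS.Lw_ne (w := w) h0 h1
  have e : Lf w = PBS.Lw .pos w / rh w ^ 2 := by
    unfold Lf
    congr 1
    show _ = sin (w + 3 * l) * sin (w + 2 * l)
    ring
  have hm : 2 * lE w = 4 * Real.log ‖rh w‖ - 2 * Real.log ‖PBS.Lw .pos w‖ := by
    have h3 := congrArg Real.log (PBS.exp_lE (w := w) h0 h1)
    rw [Real.log_exp, Real.log_div (pow_ne_zero _ (norm_ne_zero_iff.2 hr))
      (pow_ne_zero _ (norm_ne_zero_iff.2 hL)), Real.log_pow, Real.log_pow] at h3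
    push_cast at h3
    exact h3
  rw [e]
  refine ⟨div_ne_zero hL (pow_ne_zero _ hr), ?_⟩
  rw [norm_div, norm_pow, Real.log_div (norm_ne_zero_iff.2 hL) (pow_ne_zero _ (norm_ne_zero_iff.2 hr)),
    Real.log_pow]
  push_cast
  linarith

/-- the value at `0` -/
theorem mEo_zero : mEo 0 = -2 * Real.log (3 / 2 * ‖sin (l : ℂ)‖) := by
  have hl := lpos
  have hr0 : rh 0 ≠ 0 := rh_ne_zero (by rw [Complex.zero_re, abs_zero]; positivity)
  have h1 := (log_Sf (w := 0) (by rw [Complex.zero_re, abs_zero]; exact hl.le)).2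
  have h3 : Sf 0 = (3 / 2 * sin (l : ℂ)) ^ 2 := by
    have h4 : sin (3 * (l : ℂ)) * sin (2 * l) = 3 / 2 * sin (l : ℂ) * rh 0 := by
      rw [← PBS.rh03, ← PBS.rh3]
      ring
    have h5 : Fp 0 = (3 / 2 * sin (l : ℂ)) ^ 2 * rh 0 ^ 2 := by
      unfold Fp
      simp only [zero_add, sub_zero]
      calc _ = (sin (3 * (l : ℂ)) * sin (2 * l)) ^ 2 := by ring
        _ = _ := by rw [h4]; ring
    unfold Sf
    rw [h5, mul_div_assoc, div_self (pow_ne_zero _ hr0), mul_one]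
  rw [h3, norm_pow, norm_mul, norm_div, Complex.norm_ofNat, Complex.norm_ofNat, Real.log_pow] at h1
  push_cast at h1
  linarith

/-! ### sums over the pairs -/

/-- logarithm of a product over the pairs -/
theorem log_P (x : Fin m → ℂ) {g : ℂ → ℂ} (hg : ∀ w, g (-w) = g w) (h0 : g 0 ≠ 0)
    (hne : ∀ i j, g (x i - x j) ≠ 0) : (P fun i j => g (x i - x j)) ≠ 0 ∧
    2 * Real.log ‖P fun i j => g (x i - x j)‖ =
      ∑ i, ∑ j, Real.log ‖g (x i - x j)‖ - m * Real.log ‖g 0‖ := by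
  have h1 := congrArg norm (PBS.prod_both x hg)
  rw [norm_mul, norm_pow, norm_pow] at h1
  simp only [norm_prod] at h1
  have hp : 0 < ∏ i, ∏ j, ‖g (x i - x j)‖ := Finset.prod_pos fun i _ =>
    Finset.prod_pos fun j _ => norm_pos_iff.2 (hne i j)
  have hP : (P fun i j => g (x i - x j)) ≠ 0 := by
    intro h
    rw [h1, h] at hp
    simp at hp
  refine ⟨hP, ?_⟩
  have h2 := congrArg Real.log h1
  rw [Real.log_prod (fun i _ => (Finset.prod_pos fun j _ => norm_pos_iff.2 (hne i j)).ne'),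
    Real.log_mul (pow_ne_zero _ (norm_ne_zero_iff.2 h0)) (pow_ne_zero _ (norm_ne_zero_iff.2 hP)),
    Real.log_pow, Real.log_pow] at h2
  have h3 : ∀ i, Real.log (∏ j, ‖g (x i - x j)‖) = ∑ j, Real.log ‖g (x i - x j)‖ := fun i =>
    Real.log_prod fun j _ => (norm_pos_iff.2 (hne i j)).ne'
  rw [Finset.sum_congr rfl fun i _ => h3 i] at h2
  push_cast at h2
  linarith

/-- energy of the rows `x` of the first, `y` of the second group and of the legs at `z` -/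
def Q2 (x : Fin m → ℂ) (y : Fin M → ℂ) (z : ℂ) : ℝ :=
  1 / 2 * (∑ i, ∑ j, mEo (x i - x j)) + 1 / 2 * (∑ i, ∑ j, mEo (y i - y j)) +
    (∑ i, ∑ j, mEx (x i - y j)) + (∑ i, lE (z - x i)) + ∑ j, lE (z - y j)

/-- **the prefactor is the mean field value**, logarithms, legs at `-l ≤ Re (z - x i) ≤ 4 l` -/
theorem log_PfZ {x : Fin m → ℂ} {y : Fin M → ℂ} {z : ℂ} (hx : ∀ i, |(x i).re| ≤ l / 2)
    (hy : ∀ j, |(y j).re| ≤ l / 2) (hzx : ∀ i, -l ≤ (z - x i).re ∧ (z - x i).re ≤ 4 * l)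
    (hzy : ∀ j, -l ≤ (z - y j).re ∧ (z - y j).re ≤ 4 * l) :
    Pf z x y ≠ 0 ∧ Real.log ‖Pf z x y‖ + Q2 x y z = Real.log (3 / 2 * ‖sin (l : ℂ)‖ / ‖rh 0‖) := by
  have hl := lpos
  have hr0 : rh 0 ≠ 0 := rh_ne_zero (by rw [Complex.zero_re, abs_zero]; positivity)
  have hs : sin (l : ℂ) ≠ 0 := PBS.sin_ne_of_bd (by simp; exact hl) (by simp; linarith)
  have hd : ∀ {a b : ℂ}, |a.re| ≤ l / 2 → |b.re| ≤ l / 2 → |(a - b).re| ≤ l := fun h1 h2 => by
    rw [sub_re]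
    exact (abs_sub _ _).trans (by linarith)
  have S0 := (log_Sf (w := 0) (by rw [Complex.zero_re, abs_zero]; exact hl.le))
  obtain ⟨px, vx⟩ := log_P x Sf_neg S0.1 fun i j => (log_Sf (hd (hx i) (hx j))).1
  obtain ⟨py, vy⟩ := log_P y Sf_neg S0.1 fun i j => (log_Sf (hd (hy i) (hy j))).1
  rw [Finset.sum_congr rfl fun i _ => Finset.sum_congr rfl fun j _ => (log_Sf (hd (hx i) (hx j))).2,
    S0.2] at vx
  rw [Finset.sum_congr rfl fun i _ => Finset.sum_congr rfl fun j _ => (log_Sf (hd (hy i) (hy j))).2,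
    S0.2] at vy
  simp only [Finset.sum_neg_distrib] at vx vy
  have lx : (∏ i, Lf (z - x i)) ≠ 0 ∧ Real.log ‖∏ i, Lf (z - x i)‖ = -∑ i, lE (z - x i) := by
    refine ⟨Finset.prod_ne_zero_iff.2 fun i _ => (log_Lf (hzx i).1 (hzx i).2).1, ?_⟩
    rw [norm_prod, Real.log_prod fun i _ =>
      norm_ne_zero_iff.2 (log_Lf (hzx i).1 (hzx i).2).1, ← Finset.sum_neg_distrib]
    exact Finset.sum_congr rfl fun i _ => (log_Lf (hzx i).1 (hzx i).2).2
  have ly : (∏ i, Lf (z - y i)) ≠ 0 ∧ Real.log ‖∏ i, Lf (z - y i)‖ = -∑ i, lE (z - y i) := by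
    refine ⟨Finset.prod_ne_zero_iff.2 fun i _ => (log_Lf (hzy i).1 (hzy i).2).1, ?_⟩
    rw [norm_prod, Real.log_prod fun i _ =>
      norm_ne_zero_iff.2 (log_Lf (hzy i).1 (hzy i).2).1, ← Finset.sum_neg_distrib]
    exact Finset.sum_congr rfl fun i _ => (log_Lf (hzy i).1 (hzy i).2).2
  have rxy : ∀ i j, rh (x i - y j) ≠ 0 := fun i j => rh_ne_zero (by linarith [hd (hx i) (hy j)])
  have d2 : D2 x y ≠ 0 ∧ Real.log ‖D2 x y‖ = ∑ i, ∑ j, mEx (x i - y j) := by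
    unfold D2
    refine ⟨Finset.prod_ne_zero_iff.2 fun i _ => Finset.prod_ne_zero_iff.2 fun j _ =>
      pow_ne_zero _ (rxy i j), ?_⟩
    rw [norm_prod, Real.log_prod fun i _ => norm_ne_zero_iff.2
      (Finset.prod_ne_zero_iff.2 fun j _ => pow_ne_zero _ (rxy i j))]
    refine Finset.sum_congr rfl fun i _ => ?_
    rw [norm_prod, Real.log_prod fun j _ => norm_ne_zero_iff.2 (pow_ne_zero _ (rxy i j))]
    refine Finset.sum_congr rfl fun j _ => ?_
    rw [norm_pow, Real.log_pow]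
    unfold mEx
    push_cast
    rfl
  have h32 : (3 / 2 : ℂ) ≠ 0 := by norm_num
  have c1 : ((3 / 2 : ℂ) ^ (m + M + 1) * sin l ^ (m + M + 1) / rh 0) ≠ 0 :=
    div_ne_zero (mul_ne_zero (pow_ne_zero _ h32) (pow_ne_zero _ hs)) hr0
  have hn32 : ‖(3 / 2 : ℂ)‖ = 3 / 2 := by rw [norm_div, Complex.norm_ofNat, Complex.norm_ofNat]
  have hns : 0 < ‖sin (l : ℂ)‖ := norm_pos_iff.2 hs
  have hnr : 0 < ‖rh 0‖ := norm_pos_iff.2 hr0
  have c2 : Real.log ‖((3 / 2 : ℂ) ^ (m + M + 1) * sin l ^ (m + M + 1) / rh 0)‖ =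
      (m + M + 1) * Real.log (3 / 2 * ‖sin (l : ℂ)‖) - Real.log ‖rh 0‖ := by
    rw [norm_div, norm_mul, norm_pow, norm_pow, hn32, ← mul_pow, Real.log_div (by positivity)
      hnr.ne', Real.log_pow]
    push_cast
    ring
  have e := Pf_prod z x y
  have a1 := mul_ne_zero lx.1 ly.1
  have a2 := mul_ne_zero px py
  have hne : Pf z x y ≠ 0 := by
    rw [e]
    exact div_ne_zero (mul_ne_zero (mul_ne_zero c1 a1) a2) d2.1
  refine ⟨hne, ?_⟩
  have hz0 := mEo_zero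
  rw [e, norm_div, norm_mul, norm_mul, Real.log_div (mul_ne_zero (mul_ne_zero (norm_ne_zero_iff.2 c1)
    (norm_ne_zero_iff.2 a1)) (norm_ne_zero_iff.2 a2)) (norm_ne_zero_iff.2 d2.1),
    Real.log_mul (mul_ne_zero (norm_ne_zero_iff.2 c1) (norm_ne_zero_iff.2 a1)) (norm_ne_zero_iff.2 a2),
    Real.log_mul (norm_ne_zero_iff.2 c1) (norm_ne_zero_iff.2 a1), c2, norm_mul, norm_mul,
    Real.log_mul (norm_ne_zero_iff.2 lx.1) (norm_ne_zero_iff.2 ly.1),
    Real.log_mul (norm_ne_zero_iff.2 px) (norm_ne_zero_iff.2 py), lx.2, ly.2, d2.2,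
    Real.log_div (by positivity) hnr.ne']
  unfold Q2
  have vx' : Real.log ‖P fun i j => Sf (x i - x j)‖ =
      -(1 / 2) * ∑ i, ∑ j, mEo (x i - x j) - m * Real.log (3 / 2 * ‖sin (l : ℂ)‖) := by
    rw [hz0] at vx
    linarith
  have vy' : Real.log ‖P fun i j => Sf (y i - y j)‖ =
      -(1 / 2) * ∑ i, ∑ j, mEo (y i - y j) - M * Real.log (3 / 2 * ‖sin (l : ℂ)‖) := by
    rw [hz0] at vy
    linarith
  rw [vx', vy']
  ring

/-- **the prefactor is the mean field value**, logarithms -/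
theorem log_Pf {x : Fin m → ℂ} {y : Fin M → ℂ} {z : ℂ} (hx : ∀ i, |(x i).re| ≤ l / 2)
    (hy : ∀ j, |(y j).re| ≤ l / 2) (hz1 : -(l / 2) ≤ z.re) (hz2 : z.re ≤ 7 / 2 * l) :
    Pf z x y ≠ 0 ∧ Real.log ‖Pf z x y‖ + Q2 x y z = Real.log (3 / 2 * ‖sin (l : ℂ)‖ / ‖rh 0‖) := by
  have hl := lpos
  have hzd : ∀ {b : ℂ}, |b.re| ≤ l / 2 → -l ≤ (z - b).re ∧ (z - b).re ≤ 4 * l := fun h2 => by
    obtain ⟨h3, h4⟩ := abs_le.1 h2
    rw [sub_re]
    constructor <;> linarith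
  exact log_PfZ hx hy (fun i => hzd (hx i)) fun j => hzd (hy j)

/-- **the prefactor is the mean field value** -/
theorem norm_Pf {x : Fin m → ℂ} {y : Fin M → ℂ} {z : ℂ} (hx : ∀ i, |(x i).re| ≤ l / 2)
    (hy : ∀ j, |(y j).re| ≤ l / 2) (hz1 : -(l / 2) ≤ z.re) (hz2 : z.re ≤ 7 / 2 * l) :
    ‖Pf z x y‖ * Real.exp (Q2 x y z) = 3 / 2 * ‖sin (l : ℂ)‖ / ‖rh 0‖ := by
  have hl := lpos
  have hr0 : rh 0 ≠ 0 := rh_ne_zero (by rw [Complex.zero_re, abs_zero]; positivity)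
  have hs : sin (l : ℂ) ≠ 0 := PBS.sin_ne_of_bd (by simp; exact hl) (by simp; linarith)
  obtain ⟨h1, h2⟩ := log_Pf hx hy hz1 hz2
  have hp : 0 < 3 / 2 * ‖sin (l : ℂ)‖ / ‖rh 0‖ := by positivity
  rw [← Real.exp_log hp, ← h2, Real.exp_add, Real.exp_log (norm_pos_iff.2 h1)]

end PBV.PLX

end
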