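import Pool.Agent.PLX.Ns
import Pool.Agent.PLX.PB.LinW
import Pool.Agent.PLX.PB.ObDef
import Pool.Agent.PLX.PB.ValE2
import Pool.Agent.PLX.Fil
import Pool.Agent.PB.ObDef
import Pool.Agent.NUSea.Inst

/-!
# Plan B: rows and legs against the sea at rows `0`, on the curve

`exists_row`, `exists_leg` : the linear terms `s ∫ P log rwC x (ζ)` (one row in both groups), `s ∫ P log
thZ z (ζ)` on the curve `pA η`: `s mE x + O(1)`, `s lE z - 6 l h(Im z) + O(1)`, uniformly in
`|Re x| ≤ l / 2` resp. `- 9 l / 10 ≤ Re z ≤ 37 l / 10`, all heights (`h = s P η`).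

`exists_cross`, `exists_own` : one row in the other group, in the own group: `s mEx x - 4 (Re x) h(Im x)`,
`s mEo x + 4 (Re x) h(Im x)`; **`exists_rowq`** : the row of both groups with its multiplicities:
`s (b a mEo x + b (!a) mEx x) + 4 (b a - b (!a)) (Re x) h(Im x)`, all heights.
-/

set_option autoImplicit false
set_option linter.unusedSectionVars false

open MeasureTheory Set Filter Topology Complex
open PLX (Fil)

namespace PBV.PLX

open NUMF (l l_pos)
open NUKer NUAct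
open NUO (yw bk bk1 wz wz_re wz_im ll_pos red)
open NUSp (wd wd1 wn wq wph ka Asy)
open PBO (rwC)
open PBO.PLX (thZ rwO rwX)

noncomputable section

/-! ### the words -/

/-- word of a row -/
def Lr : List (ℤ × ℝ) := [(3, 2), (0, -1), (-2, -1)]

/-- word of the two legs -/
def Lz : List (ℤ × ℝ) := [(3, 1), (-2, -1)]

lemma red_id {y : ℝ} (h1 : -4 ≤ y) (h2 : y < 4) : red y = y := by
  unfold red
  have : round (y / 8) = 0 := by
    rw [round_eq]
    exact Int.floor_eq_iff.2 ⟨by push_cast; (clear * - h1; linarith), by push_cast; linarith⟩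
  rw [this]
  simp

lemma red_sub8 {y : ℝ} (h1 : 4 ≤ y) (h2 : y < 12) : red y = y - 8 := by
  unfold red
  have : round (y / 8) = 1 := by
    rw [round_eq]
    exact Int.floor_eq_iff.2 ⟨by push_cast; (clear * - h1; linarith), by push_cast; linarith⟩
  rw [this]
  simp

lemma yw_eq (w : ℂ) (k : ℤ) : yw w k = red ((3 - k : ℤ) + w.re / l) * l := by
  unfold yw
  rw [sub_neg_eq_add]

lemma yw_id {w : ℂ} {k : ℤ} (h1 : (-4 - (3 - k : ℤ) : ℝ) * l ≤ w.re) (h2 : w.re < (4 - (3 - k : ℤ) : ℝ) * l) :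
    yw w k = (3 - k : ℤ) * l + w.re := by
  have hl := l_pos
  rw [yw_eq, red_id]
  · field_simp
  · rw [← sub_le_iff_le_add', le_div_iff₀ hl]
    exact h1
  · rw [← lt_sub_iff_add_lt', div_lt_iff₀ hl]
    exact h2

lemma yw_sub8 {w : ℂ} {k : ℤ} (h1 : (4 - (3 - k : ℤ) : ℝ) * l ≤ w.re) (h2 : w.re < (12 - (3 - k : ℤ) : ℝ) * l) :
    yw w k = (3 - k : ℤ) * l + w.re - 8 * l := by
  have hl := l_pos
  rw [yw_eq, red_sub8]
  · field_simp
  · rw [← sub_le_iff_le_add', le_div_iff₀ hl]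
    exact h1
  · rw [← lt_sub_iff_add_lt', div_lt_iff₀ hl]
    exact h2

variable {x z : ℂ}

lemma yr (hx : |x.re| ≤ l / 2) : yw x 3 = x.re ∧ yw x 0 = 3 * l + x.re ∧ yw x (-2) = x.re - 3 * l := by
  have hl := l_pos
  obtain ⟨h1, h2⟩ := abs_le.1 hx
  refine ⟨?_, ?_, ?_⟩
  · rw [yw_id] <;> push_cast <;> (clear * - hl h1 h2; linarith)
  · rw [yw_id] <;> push_cast <;> linarith
  · rw [yw_sub8] <;> push_cast <;> (clear * - hl h1 h2; linarith)

lemma yz (h1 : -(9 / 10 * l) ≤ z.re) (h2 : z.re ≤ 37 / 10 * l) :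
    yw z 3 = z.re ∧ yw z (-2) = z.re - 3 * l := by
  have hl := l_pos
  refine ⟨?_, ?_⟩
  · rw [yw_id] <;> push_cast <;> (clear * - h1 hl h2; linarith)
  · rw [yw_sub8] <;> push_cast <;> linarith

lemma fit_r (hx : |x.re| ≤ l / 2) : Fit (1 / 10) Lr x := by
  have hl := l_pos
  obtain ⟨h3, h0, hm⟩ := yr hx
  obtain ⟨h1, h2⟩ := abs_le.1 hx
  intro kc hk
  simp only [Lr, List.mem_cons, List.not_mem_nil, or_false] at hk
  rcases hk with rfl | rfl | rfl
  · show |yw x 3| ≤ _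
    rw [h3, abs_le]; constructor <;> (clear * - hl h1 h2; linarith)
  · show |yw x 0| ≤ _
    rw [h0, abs_le]; constructor <;> (clear * - hl h1 h2; linarith)
  · show |yw x (-2)| ≤ _
    rw [hm, abs_le]; constructor <;> (clear * - hl h1 h2; linarith)

lemma fit_z (h1 : -(9 / 10 * l) ≤ z.re) (h2 : z.re ≤ 37 / 10 * l) : Fit (1 / 10) Lz z := by
  have hl := l_pos
  obtain ⟨h3, hm⟩ := yz h1 h2
  intro kc hk
  simp only [Lz, List.mem_cons, List.not_mem_nil, or_false] at hk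
  rcases hk with rfl | rfl
  · show |yw z 3| ≤ _
    rw [h3, abs_le]; constructor <;> (clear * - h1 hl h2; linarith)
  · show |yw z (-2)| ≤ _
    rw [hm, abs_le]; constructor <;> (clear * - h1 h2 hl; linarith)

lemma wph_r (hx : |x.re| ≤ l / 2) : wph Lr x = 0 := by
  obtain ⟨h3, h0, hm⟩ := yr hx
  simp only [Lr, NUSp.wph_cons, NUSp.wph_nil]
  rw [h3, h0, hm]
  ring

lemma wph_z (h1 : -(9 / 10 * l) ≤ z.re) (h2 : z.re ≤ 37 / 10 * l) : wph Lz z = 3 * l := by
  obtain ⟨h3, hm⟩ := yz h1 h2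
  simp only [Lz, NUSp.wph_cons, NUSp.wph_nil]
  rw [h3, hm]
  ring

lemma wq_r : wq Lr = 0 := by
  simp only [Lr, NUSp.wq_cons, NUSp.wq_nil]
  norm_num

lemma wq_z : wq Lz = 0 := by
  simp only [Lz, NUSp.wq_cons, NUSp.wq_nil]
  norm_num

/-! ### the moduli -/

lemma log_bk (w : ℂ) (k : ℤ) (ζ : ℂ) :
    (bk w k ζ).re = Real.log ‖sin ((l + I * ζ) - w + k * l)‖ := by
  rw [NUO.norm_sin_bk]
  unfold bk
  rw [Complex.log_re]

lemma sin_neF {δ : ℝ} {w : ℂ} {k : ℤ} (h : |yw w k| ≤ (4 - δ) * l) {ζ : ℂ} (hζ : |ζ.im| < δ * l) :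
    0 < ‖sin ((l + I * ζ) - w + k * l)‖ := by
  have h4 := four_l'
  rw [NUO.norm_sin_bk]
  refine norm_pos_iff.2 (NUMF.cosh_ne ?_)
  rw [wz_im]
  have h2 := abs_add_le ζ.im (yw w k)
  linarith

/-- the factor of a row is the word -/
lemma log_rwC (hx : |x.re| ≤ l / 2) {ζ : ℂ} (hζ : |ζ.im| < 1 / 10 * l) :
    Real.log (rwC x (l + I * ζ)) = (wd Lr x ζ).re := by
  have hF := fit_r hx
  have s3 := sin_neF (hF (3, 2) (by simp [Lr])) hζ
  have s0 := sin_neF (hF (0, -1) (by simp [Lr])) hζ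
  have s2 := sin_neF (hF (-2, -1) (by simp [Lr])) hζ
  simp only [Lr, NUSp.wd_cons, NUSp.wd_nil, Complex.add_re, Complex.re_ofReal_mul,
    Complex.zero_re, log_bk]
  unfold rwC
  have e3 : (l : ℂ) + I * ζ - x + 3 * NUP1.l = (l + I * ζ) - x + ((3 : ℤ) : ℂ) * l := by
    push_cast
    rfl
  have e0 : (l : ℂ) + I * ζ - x = (l + I * ζ) - x + ((0 : ℤ) : ℂ) * l := by push_cast; ring
  have e2 : (l : ℂ) + I * ζ - x - 2 * NUP1.l = (l + I * ζ) - x + ((-2 : ℤ) : ℂ) * l := by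
    push_cast
    have : (NUP1.l : ℂ) = (l : ℂ) := rfl
    rw [this]
    ring
  rw [e3, e2]
  conv_lhs =>
    rw [show ‖sin ((l : ℂ) + I * ζ - x)‖ = ‖sin ((l + I * ζ) - x + ((0 : ℤ) : ℂ) * l)‖ by rw [← e0]]
  rw [Real.log_div (by positivity) (mul_pos s0 s2).ne', Real.log_pow, Real.log_mul s0.ne' s2.ne']
  push_cast
  ring

/-- the factor of the legs is the word -/
lemma log_thZ (h1 : -(9 / 10 * l) ≤ z.re) (h2 : z.re ≤ 37 / 10 * l) {ζ : ℂ}
    (hζ : |ζ.im| < 1 / 10 * l) : Real.log (thZ z (l + I * ζ)) = (wd Lz z ζ).re := by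
  have hF := fit_z h1 h2
  have s3 := sin_neF (hF (3, 1) (by simp [Lz])) hζ
  have s2 := sin_neF (hF (-2, -1) (by simp [Lz])) hζ
  simp only [Lz, NUSp.wd_cons, NUSp.wd_nil, Complex.add_re, Complex.re_ofReal_mul,
    Complex.zero_re, log_bk]
  unfold thZ
  have hll : (NUP1.l : ℂ) = (l : ℂ) := rfl
  have e3 : z - ((l : ℂ) + I * ζ) - 3 * NUP1.l = -((l + I * ζ) - z + ((3 : ℤ) : ℂ) * l) := by
    push_cast
    rw [hll]
    ring
  have e2 : z - ((l : ℂ) + I * ζ) + 2 * NUP1.l = -((l + I * ζ) - z + ((-2 : ℤ) : ℂ) * l) := by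
    push_cast
    rw [hll]
    ring
  rw [e3, e2, Complex.sin_neg, norm_neg, Complex.sin_neg, norm_neg, Real.log_div s3.ne' s2.ne']
  ring

lemma pA_zt (η : ℝ → ℝ) (t : ℝ) : NUO.pA η t = l + I * zt (iD η) t := by
  have hll : (NUP1.l : ℂ) = (l : ℂ) := rfl
  unfold NUO.pA NUP1.vl NUAct.zt iD
  push_cast
  rw [hll]
  linear_combination (-(η t : ℂ)) * I_sq

/-! ### the curve -/

/-- constant of the strip -/
def Kc : ℝ := 4 * ka (1 / 10) (1 / 20 * l)

lemma ka_nonneg : 0 ≤ ka (1 / 10) (1 / 20 * l) := by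
  have hl := l_pos
  unfold ka
  have : 0 < Real.sin (1 / 10 * l - 1 / 20 * l) := by
    refine Real.sin_pos_of_pos_of_lt_pi (by (clear * - hl; linarith)) ?_
    have : l = Real.pi / 8 := rfl
    clear * - hl this
    linarith [Real.pi_pos]
  positivity

/-- **a neutral word on the curve** -/
theorem exists_word [NUSea.Sea] : ∃ C : ℝ, 1 ≤ C ∧ ∀ {s ε M b : ℝ} {e η η1 : ℝ → ℝ}, 0 ≤ s →
    ε ≤ 1 / 100 → NUSea.PLX.Cur s ε M b e η → (∀ t, HasDerivAt η (η1 t) t) → 0 ≤ b →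
    (∀ t, |NUSea.PLX.hd s η η1 t| ≤ 1) → ∀ (L : List (ℤ × ℝ)) (w : ℂ), Fit (1 / 10) L w → wq L = 0 →
      |wph L w| ≤ 8 → wn L ≤ 4 →
      Integrable (fun t => s * NUSea.P t * (wd L w (zt (iD η) t)).re) ∧
      Integrable (fun t : ℝ => s * NUSea.P t * (wd L w t).re) ∧
      |(∫ t, s * NUSea.P t * (wd L w (zt (iD η) t)).re) - (∫ t : ℝ, s * NUSea.P t * (wd L w t).re) +
          2 * wph L w * (s * NUSea.P w.im * η w.im)| ≤ C * (1 + b * (M * ε)) := by
  obtain ⟨C, hC, H⟩ := exists_linH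
  have hk := ka_nonneg
  refine ⟨Kc + C * (8 + Kc) + 1, by unfold Kc; (clear * - hC hk; nlinarith), ?_⟩
  intro s ε M b e η η1 hs hε hcur h1 hb hA L w hF hq hφ hn
  have hl := l_pos
  have hll : l = Real.pi / 8 := rfl
  have hp3 := Real.pi_gt_three
  have hB : ε < 1 / 20 * l := by (clear * - hε hl hll hp3; linarith)
  have h := H (κ := wn L * ka (1 / 10) (1 / 20 * l)) (a := -(wq L * Real.log 2)) (φ := wph L w)
    (τ := w.im) (A := 1) (Ψ := wd L w) (B := 1 / 20 * l) hs (hε.trans (by norm_num)) hcur h1 hb hB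
    (by
      have := asy_wdF (δ := 1 / 10) (b := 1 / 20 * l) (by (clear * - hl; linarith)) hF
      rwa [hq] at this ⊢) (fun ζ hζ => diff_wdF hF (hζ.trans (by linarith))) hA
  obtain ⟨i1, i2, h3⟩ := h
  refine ⟨i1, i2, h3.trans ?_⟩
  have hM0 := hcur.M0 hs
  have hε0 := hcur.ε0
  have hbM : 0 ≤ b * (M * ε) := by positivity
  have h4 : wn L * ka (1 / 10) (1 / 20 * l) ≤ Kc := by
    unfold Kc
    exact mul_le_mul_of_nonneg_right hn hk
  rw [hq, zero_mul, neg_zero, abs_zero, zero_add, mul_one]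
  have hKc : 0 ≤ Kc := by unfold Kc; positivity
  have h5 : C * (|wph L w| + wn L * ka (1 / 10) (1 / 20 * l)) * b * (M * ε) ≤
      C * (8 + Kc) * (b * (M * ε)) := by
    rw [mul_assoc _ b]
    refine mul_le_mul_of_nonneg_right ?_ hbM
    exact mul_le_mul_of_nonneg_left (by (clear * - hφ h4; linarith)) (by (clear * - hC; linarith))
  clear * - hC hbM h4 hKc h5
  nlinarith

/-! ### the sea at rows `0` -/

section P0

attribute [local instance] NUSea.seaP

theorem P_seaP : (NUSea.P : ℝ → ℝ) = NUMF.P := rfl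

theorem Pb0 : NUMFH.Pb 0 = NUMF.P := by
  funext t
  exact NUMFH.Pb_zero t

/-- **a row against the sea, on the curve** -/
theorem exists_row : ∃ C : ℝ, 1 ≤ C ∧ ∀ {s ε M b : ℝ} {e η η1 : ℝ → ℝ}, 0 ≤ s →
    ε ≤ 1 / 100 → NUSea.PLX.Cur s ε M b e η → (∀ t, HasDerivAt η (η1 t) t) → 0 ≤ b →
    (∀ t, |NUSea.PLX.hd s η η1 t| ≤ 1) → ∀ x : ℂ, |x.re| ≤ l / 2 →
      Integrable (fun t => s * NUMF.P t * Real.log (rwC x (NUO.pA η t))) ∧
      |(∫ t, s * NUMF.P t * Real.log (rwC x (NUO.pA η t))) - s * NUMFH.mE x| ≤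
        C * (1 + b * (M * ε)) := by
  obtain ⟨C, hC, H⟩ := exists_word
  refine ⟨C, hC, ?_⟩
  intro s ε M b e η η1 hs hε hcur h1 hb hA x hx
  have hl := l_pos
  have hll : l = Real.pi / 8 := rfl
  have hp3 := Real.pi_gt_three
  obtain ⟨i1, i2, h3⟩ := H hs hε hcur h1 hb hA Lr x (fit_r hx) wq_r (by
    rw [wph_r hx, abs_zero]; norm_num) (by
    simp only [Lr, NUSp.wn_cons, NUSp.wn_nil]; norm_num)
  rw [wph_r hx] at h3
  have him : ∀ t, (zt (iD η) t).im = η t := fun t => by simp [NUAct.zt, iD]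
  have hη : ∀ t, |η t| ≤ ε := fun t => (NUSea.PLX.H0.lc_le hcur t).trans (hcur.le t)
  have c1 : ∀ t, (wd Lr x (zt (iD η) t)).re = Real.log (rwC x (NUO.pA η t)) := fun t => by
    rw [pA_zt, log_rwC hx (by rw [him]; (clear * - hε hl hll hp3 hη; linarith [hη t]))]
  have c2 : ∀ t : ℝ, (wd Lr x t).re = Real.log (rwC x (l + I * t)) := fun t => by
    rw [log_rwC hx (by rw [Complex.ofReal_im, abs_zero]; positivity)]
  simp only [c1] at i1 h3
  simp only [c2] at h3
  refine ⟨i1, ?_⟩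
  have hv := (NUMFH.int_row (b := 0) le_rfl hl (x := x) (by linarith) (by linarith)).2
  have e : ∫ t : ℝ, s * NUSea.P t * Real.log (rwC x (l + I * t)) = s * NUMFH.mE x := by
    rw [show NUMFH.mE x = (NUMFH.mE (x - (0 : ℝ)) + NUMFH.mE (x + (0 : ℝ))) / 2 by
      rw [Complex.ofReal_zero, sub_zero, add_zero]; ring, ← hv, ← integral_const_mul]
    refine integral_congr_ae (Eventually.of_forall fun t => ?_)
    simp only
    rw [Pb0, P_seaP, mul_assoc]
    unfold rwC
    rw [mul_comm I (t : ℂ)]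
    rfl
  rw [e, mul_zero, zero_mul, add_zero] at h3
  exact h3

/-- **the legs against the sea, on the curve** -/
theorem exists_leg : ∃ C : ℝ, 1 ≤ C ∧ ∀ {s ε M b : ℝ} {e η η1 : ℝ → ℝ}, 0 ≤ s →
    ε ≤ 1 / 100 → NUSea.PLX.Cur s ε M b e η → (∀ t, HasDerivAt η (η1 t) t) → 0 ≤ b →
    (∀ t, |NUSea.PLX.hd s η η1 t| ≤ 1) → ∀ z : ℂ, -(9 / 10 * l) ≤ z.re → z.re ≤ 37 / 10 * l →
      Integrable (fun t => s * NUMF.P t * Real.log (thZ z (NUO.pA η t))) ∧
      |(∫ t, s * NUMF.P t * Real.log (thZ z (NUO.pA η t))) - s * NUMFH.lE z +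
          6 * l * (s * NUMF.P z.im * η z.im)| ≤ C * (1 + b * (M * ε)) := by
  obtain ⟨C, hC, H⟩ := exists_word
  refine ⟨C, hC, ?_⟩
  intro s ε M b e η η1 hs hε hcur h1 hb hA z hz1 hz2
  have hl := l_pos
  have hll : l = Real.pi / 8 := rfl
  have hp3 := Real.pi_gt_three
  have hp4 := Real.pi_le_four
  obtain ⟨i1, i2, h3⟩ := H hs hε hcur h1 hb hA Lz z (fit_z hz1 hz2) wq_z (by
    rw [wph_z hz1 hz2, abs_of_pos (by positivity)]; (clear * - hll hp4; linarith)) (by
    simp only [Lz, NUSp.wn_cons, NUSp.wn_nil]; norm_num)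
  rw [wph_z hz1 hz2] at h3
  have him : ∀ t, (zt (iD η) t).im = η t := fun t => by simp [NUAct.zt, iD]
  have hη : ∀ t, |η t| ≤ ε := fun t => (NUSea.PLX.H0.lc_le hcur t).trans (hcur.le t)
  have c1 : ∀ t, (wd Lz z (zt (iD η) t)).re = Real.log (thZ z (NUO.pA η t)) := fun t => by
    rw [pA_zt, log_thZ hz1 hz2 (by rw [him]; (clear * - hε hl hll hp3 hη; linarith [hη t]))]
  have c2 : ∀ t : ℝ, (wd Lz z t).re = Real.log (thZ z (l + I * t)) := fun t => by
    rw [log_thZ hz1 hz2 (by rw [Complex.ofReal_im, abs_zero]; positivity)]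
  simp only [c1] at i1 h3
  simp only [c2] at h3
  refine ⟨i1, ?_⟩
  have hv := (NUMFH.int_leg (b := 0) le_rfl hl (z := z) (by (clear * - hz1 hl; linarith)) (by (clear * - hz2 hl; linarith)) (by (clear * - hz1 hl; linarith))
    (by (clear * - hz2 hl; linarith))).2
  have e : ∫ t : ℝ, s * NUSea.P t * Real.log (thZ z (l + I * t)) = s * NUMFH.lE z := by
    rw [show NUMFH.lE z = (NUMFH.lE (z - (0 : ℝ)) + NUMFH.lE (z + (0 : ℝ))) / 2 by
      rw [Complex.ofReal_zero, sub_zero, add_zero]; ring, ← hv, ← integral_const_mul]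
    refine integral_congr_ae (Eventually.of_forall fun t => ?_)
    simp only
    rw [Pb0, P_seaP, mul_assoc]
    unfold thZ
    rw [mul_comm I (t : ℂ)]
    rfl
  rw [e] at h3
  rw [show 6 * l = 2 * (3 * l) by ring]
  exact h3

/-! ### the rows of one group -/

lemma thZ_same (z u : ℂ) : thZ z u = PBO.thZ z u := rfl

lemma row_split (x u : ℂ) : rwC x u = rwO x u * rwX x u := by
  unfold rwC rwO rwX
  rw [div_eq_mul_inv, mul_comm]

/-- word of the cross factor -/
def Lx : List (ℤ × ℝ) := [(3, 2)]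

lemma fit_x (hx : |x.re| ≤ l / 2) : Fit (1 / 10) Lx x := by
  have hl := l_pos
  obtain ⟨h3, h0, hm⟩ := yr hx
  obtain ⟨h1, h2⟩ := abs_le.1 hx
  intro kc hk
  simp only [Lx, List.mem_cons, List.not_mem_nil, or_false] at hk
  subst hk
  show |yw x 3| ≤ _
  rw [h3, abs_le]
  constructor <;> (clear * - hl h1 h2; linarith)

lemma log_rwX (hx : |x.re| ≤ l / 2) {ζ : ℂ} (hζ : |ζ.im| < 1 / 10 * l) :
    Real.log (rwX x (l + I * ζ)) = (wd Lx x ζ).re := by
  have hF := fit_x hx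
  have s3 := sin_neF (hF (3, 2) (by simp [Lx])) hζ
  simp only [Lx, NUSp.wd_cons, NUSp.wd_nil, Complex.add_re, Complex.re_ofReal_mul,
    Complex.zero_re, log_bk]
  unfold rwX
  have e3 : (l : ℂ) + I * ζ - x + 3 * NUP1.l = (l + I * ζ) - x + ((3 : ℤ) : ℂ) * l := by
    push_cast
    rfl
  rw [e3, Real.log_pow]
  push_cast
  ring

/-- the cross factor on the curve -/
lemma log_rwX_h {y : ℝ} (hx : |x.re + y| < 4 * l) (t : ℝ) :
    0 < rwX x (l + I * (t + y * I)) ∧
      Real.log (rwX x (l + I * (t + y * I))) = NUMF.h (x.im - t) (x.re + y) - Real.log 2 := by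
  have hl := l_pos
  obtain ⟨x1, x2⟩ := abs_lt.1 hx
  obtain ⟨w, hw⟩ : ∃ w : ℂ, w = t * I - y - x := ⟨_, rfl⟩
  have hre : w.re = -(x.re + y) := by rw [hw]; simp; ring
  have him : w.im = -(x.im - t) := by rw [hw]; simp
  have s4 : Complex.sin ((4 : ℝ) * l + w) ≠ 0 :=
    NUMF.sin_ne_of (by rw [NUMF.re3, hre]; linarith) (by rw [NUMF.re3, hre]; linarith)
  have l4 := NUMF.log_sin_shift w 4 0 (by norm_num) s4
  rw [hre, him, zero_mul, add_zero, NUMF.h_neg_left, NUMF.h_neg_right] at l4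
  have e4 : (l : ℂ) + I * (t + y * I) - x + 3 * NUP1.l = ((4 : ℝ) : ℂ) * l + w := by
    have hll : (NUP1.l : ℂ) = (l : ℂ) := rfl
    rw [hll, hw]
    push_cast
    linear_combination (y : ℂ) * I_sq
  unfold rwX
  rw [e4]
  refine ⟨pow_pos (norm_pos_iff.2 s4) 2, ?_⟩
  rw [Real.log_pow, l4]
  push_cast
  ring

lemma h_second (a : ℝ) {y : ℝ} (hy : |y| ≤ 1 / 2) : |NUMF.h a y - NUMF.h a 0| ≤ 2 * y ^ 2 := by
  obtain ⟨y1, y2⟩ := abs_le.1 hy
  have hc : 0 ≤ Real.cos (2 * y) := Real.cos_nonneg_of_mem_Icc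
    ⟨by (clear * - y1; linarith [Real.pi_gt_three]), by linarith [Real.pi_gt_three]⟩
  have hc1 := Real.cos_le_one (2 * y)
  have hc2 := Real.one_sub_sq_div_two_le_cos (x := 2 * y)
  have ha := Real.one_le_cosh (2 * a)
  unfold NUMF.h
  rw [mul_zero, Real.cos_zero]
  obtain ⟨A, hA⟩ : ∃ A, A = Real.cosh (2 * a) + Real.cos (2 * y) := ⟨_, rfl⟩
  obtain ⟨B, hB⟩ : ∃ B, B = Real.cosh (2 * a) + 1 := ⟨_, rfl⟩
  rw [← hA, ← hB]
  have hA1 : 1 ≤ A := by rw [hA]; (clear * - hc ha; linarith)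
  have hAB : A ≤ B := by rw [hA, hB]; linarith
  have h1 : Real.log A ≤ Real.log B := Real.log_le_log (by (clear * - hc ha hA; linarith)) hAB
  have h2 : Real.log B - Real.log A ≤ B / A - 1 := by
    rw [← Real.log_div (by (clear * - ha hB; linarith)) (by (clear * - hc ha hA; linarith))]
    exact Real.log_le_sub_one_of_pos (div_pos (by (clear * - ha hB; linarith)) (by (clear * - hc ha hA; linarith)))
  have h3 : B / A - 1 ≤ B - A := by
    have : B / A - 1 = (B - A) / A := by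
      field_simp
    rw [this]
    exact div_le_self (by (clear * - hc1 hA hB; linarith)) hA1
  rw [abs_of_nonpos (by linarith)]
  have h4 : B - A ≤ 2 * y ^ 2 := by
    rw [hA, hB]
    clear * - hc2
    nlinarith
  clear * - hc2 hA hB h2 h3
  linarith

lemma iD_zt (η : ℝ → ℝ) (t : ℝ) : zt (iD η) t = t + η t * I := by
  unfold NUAct.zt iD
  ring

/-- the value of the cross factor -/
lemma int_cross (hx : |x.re| ≤ l / 2) : Integrable (fun t : ℝ => NUMF.P t *
    (NUMF.h (x.im - t) x.re - Real.log 2)) ∧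
    ∫ t : ℝ, NUMF.P t * (NUMF.h (x.im - t) x.re - Real.log 2) = mEx x := by
  have hl := l_pos
  have i0 := NUMF.Ph_integrable x.im x.re
  have i1 := NUMF.P_integrable.mul_const (Real.log 2)
  have e : (fun t : ℝ => NUMF.P t * (NUMF.h (x.im - t) x.re - Real.log 2)) = fun t =>
      NUMF.P t * NUMF.h (x.im - t) x.re - NUMF.P t * Real.log 2 := by
    funext t
    ring
  rw [e]
  refine ⟨i0.sub i1, ?_⟩
  have h1 := NUMF.H_rh0 (z := x) (by linarith)
  unfold NUMF.H at h1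
  rw [integral_sub i0 i1, NUMF.integral_P_mul, h1]
  unfold mEx
  ring

/-- **a row of the other group against the sea, on the curve** -/
theorem exists_cross : ∃ C : ℝ, 1 ≤ C ∧ ∀ {s ε M b : ℝ} {e η η1 : ℝ → ℝ}, 0 ≤ s →
    ε ≤ 1 / 100 → NUSea.PLX.Cur s ε M b e η → (∀ t, HasDerivAt η (η1 t) t) → 0 ≤ b →
    (∀ t, |NUSea.PLX.hd s η η1 t| ≤ 1) → ∀ x : ℂ, |x.re| ≤ l / 2 →
      Integrable (fun t => s * NUMF.P t * Real.log (rwX x (NUO.pA η t))) ∧
      |(∫ t, s * NUMF.P t * Real.log (rwX x (NUO.pA η t))) - s * mEx x +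
          4 * x.re * (s * NUMF.P x.im * η x.im)| ≤ C * (1 + b * (M * ε)) := by
  obtain ⟨C, hC, H⟩ := exists_linH
  have hk := ka_nonneg
  refine ⟨Kc + C * (8 + Kc) + 5, by unfold Kc; (clear * - hC hk; nlinarith), ?_⟩
  intro s ε M b e η η1 hs hε hcur h1 hb hA x hx
  have hl := l_pos
  have hll : l = Real.pi / 8 := rfl
  have hp3 := Real.pi_gt_three
  have hp4 := Real.pi_le_four
  have hB : ε < 1 / 20 * l := by (clear * - hε hl hll hp3; linarith)
  have hM0 := hcur.M0 hs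
  have hε0 := hcur.ε0
  have hbM : 0 ≤ b * (M * ε) := by positivity
  obtain ⟨x', hx'⟩ : ∃ x' : ℂ, x' = x.im * I := ⟨_, rfl⟩
  have xr : x'.re = 0 := by rw [hx']; simp
  have xi : x'.im = x.im := by rw [hx']; simp
  have hx0 : |x'.re| ≤ l / 2 := by rw [xr, abs_zero]; positivity
  have hF := fit_x hx
  have hF' := fit_x hx0
  have n1 : wn Lx = 2 := by
    simp only [Lx, NUSp.wn_cons, NUSp.wn_nil]
    norm_num
  have p1 : wph Lx x = 2 * x.re := by
    simp only [Lx, NUSp.wph_cons, NUSp.wph_nil]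
    rw [(yr hx).1]
    ring
  have p2 : wph Lx x' = 0 := by
    simp only [Lx, NUSp.wph_cons, NUSp.wph_nil]
    rw [(yr hx0).1, xr]
    ring
  -- the difference of the words of the same height
  have hAsy : NUSp.Asy (1 / 20 * l) (4 * ka (1 / 10) (1 / 20 * l)) 0 0 (2 * x.re) x.im
      (fun z => wd Lx x z + ((-1 : ℝ) : ℂ) * wd Lx x' z) := by
    have a1 := asy_wdF (δ := 1 / 10) (b := 1 / 20 * l) (by linarith) hF
    have a2 := (asy_wdF (δ := 1 / 10) (b := 1 / 20 * l) (by linarith) hF').smul (-1)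
    rw [xi] at a2
    have a3 := a1.add a2
    rw [n1, p1, p2] at a3
    have e1 : (2 : ℝ) * ka (1 / 10) (1 / 20 * l) + |(-1 : ℝ)| * (2 * ka (1 / 10) (1 / 20 * l)) =
        4 * ka (1 / 10) (1 / 20 * l) := by
      rw [abs_neg, abs_one]
      ring
    have e2 : wq Lx + -1 * wq Lx = 0 := by ring
    have e3 : -(wq Lx * Real.log 2) + -1 * -(wq Lx * Real.log 2) = 0 := by ring
    have e4 : 2 * x.re + -1 * 0 = 2 * x.re := by ring
    rwa [e1, e2, e3, e4] at a3
  have hdiff : ∀ z : ℂ, |z.im| < 1 / 20 * l →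
      DifferentiableAt ℂ (fun z => wd Lx x z + ((-1 : ℝ) : ℂ) * wd Lx x' z) z := fun z hz =>
    (diff_wdF hF (hz.trans (by linarith))).add ((diff_wdF hF' (hz.trans (by linarith))).const_mul _)
  obtain ⟨i1, i2, h3⟩ := H hs (hε.trans (by norm_num)) hcur h1 hb hB hAsy hdiff hA
  have hη : ∀ t, |η t| ≤ ε := fun t => (NUSea.PLX.H0.lc_le hcur t).trans (hcur.le t)
  have him : ∀ t, (zt (iD η) t).im = η t := fun t => by simp [NUAct.zt, iD]
  have c1 : ∀ t, (wd Lx x (zt (iD η) t) + ((-1 : ℝ) : ℂ) * wd Lx x' (zt (iD η) t)).re =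
      Real.log (rwX x (NUO.pA η t)) - (NUMF.h (x.im - t) (η t) - Real.log 2) := fun t => by
    have b1 : |(zt (iD η) t).im| < 1 / 10 * l := by rw [him]; (clear * - hl hB hη; linarith [hη t])
    have q1 := log_rwX hx b1
    have q2 := log_rwX hx0 b1
    have q3 := (log_rwX_h (x := x') (y := η t) (by rw [xr, zero_add]; (clear * - hl hB hη; linarith [hη t])) t).2
    rw [← iD_zt, q2, xr, xi, zero_add] at q3
    rw [Complex.add_re, Complex.re_ofReal_mul, ← q1, q3, pA_zt]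
    ring
  have c2 : ∀ t : ℝ, (wd Lx x t + ((-1 : ℝ) : ℂ) * wd Lx x' t).re =
      (NUMF.h (x.im - t) x.re - Real.log 2) - (NUMF.h (x.im - t) 0 - Real.log 2) := fun t => by
    have b1 : |(t : ℂ).im| < 1 / 10 * l := by rw [Complex.ofReal_im, abs_zero]; positivity
    have q1 := log_rwX hx b1
    have q2 := log_rwX hx0 b1
    have q3 := (log_rwX_h (x := x') (y := 0) (by rw [xr, zero_add, abs_zero]; positivity) t).2
    have q4 := (log_rwX_h (x := x) (y := 0) (by rw [add_zero]; (clear * - hx hl; linarith)) t).2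
    rw [Complex.ofReal_zero, zero_mul, add_zero, q2, xr, xi, zero_add] at q3
    rw [Complex.ofReal_zero, zero_mul, add_zero, q1, add_zero] at q4
    rw [Complex.add_re, Complex.re_ofReal_mul, q3, q4]
    ring
  simp only [c1] at i1 h3
  simp only [c2] at i2 h3
  rw [P_seaP] at i1 i2 h3
  -- the value on the line
  obtain ⟨j1, v1⟩ := int_cross hx
  obtain ⟨j0, v0⟩ := int_cross hx0
  rw [xi, xr] at j0 v0
  have v2 : ∫ t : ℝ, s * NUMF.P t * ((NUMF.h (x.im - t) x.re - Real.log 2) -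
      (NUMF.h (x.im - t) 0 - Real.log 2)) = s * (mEx x - mEx x') := by
    rw [← v1, ← v0, ← integral_sub j1 j0, ← integral_const_mul]
    refine integral_congr_ae (Eventually.of_forall fun t => ?_)
    simp only
    ring
  rw [v2] at h3
  -- the second order part
  have hηc : Continuous η := continuous_iff_continuousAt.2 fun t => (h1 t).continuousAt
  have hPc : Continuous NUMF.P := by
    rw [← P_seaP]
    exact NUSea.P_cont
  have hpos : ∀ t, 0 < Real.cosh (2 * (x.im - t)) + Real.cos (2 * η t) := fun t => by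
    obtain ⟨y1, y2⟩ := abs_le.1 (hη t)
    have hc : 0 ≤ Real.cos (2 * η t) := Real.cos_nonneg_of_mem_Icc
      ⟨by (clear * - hl hll hB y1; linarith), by (clear * - hε hl hll hp3 y2; linarith)⟩
    have := Real.one_le_cosh (2 * (x.im - t))
    clear * - hc this
    linarith
  have hpos0 : ∀ t : ℝ, 0 < Real.cosh (2 * (x.im - t)) + Real.cos (2 * 0) := fun t => by
    rw [mul_zero, Real.cos_zero]
    have := Real.one_le_cosh (2 * (x.im - t))
    clear * - this
    linarith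
  obtain ⟨g, hg⟩ : ∃ g : ℝ → ℝ, g = fun t => s * NUMF.P t *
    (NUMF.h (x.im - t) (η t) - NUMF.h (x.im - t) 0) := ⟨_, rfl⟩
  have hgc : Continuous g := by
    rw [hg]
    refine (continuous_const.mul hPc).mul (Continuous.sub ?_ ?_)
    · unfold NUMF.h
      refine Continuous.log (by fun_prop) fun t => (hpos t).ne'
    · unfold NUMF.h
      refine Continuous.log (by fun_prop) fun t => (hpos0 t).ne'
  have hgb : ∀ t, ‖g t‖ ≤ (Set.Icc (-b) b).indicator (fun _ => 2 * (M * ε)) t := by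
    intro t
    have hP0 : 0 < NUMF.P t := by
      rw [← P_seaP]
      exact NUSea.P_pos t
    have he := NUSea.PLX.H0.lc_le hcur t
    have hle := hcur.le t
    have hms := hcur.mass t
    rw [P_seaP] at hms
    have h2 := h_second (x.im - t) (y := η t) ((hη t).trans (by (clear * - hε; linarith)))
    have h4 : ‖g t‖ ≤ 2 * ((s * NUMF.P t * e t) * e t) := by
      rw [hg]
      simp only
      rw [Real.norm_eq_abs, abs_mul, abs_of_nonneg (by (clear * - hs hP0; positivity) : 0 ≤ s * NUMF.P t)]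
      have h5 : η t ^ 2 ≤ e t ^ 2 := by
        rw [← sq_abs]
        exact pow_le_pow_left₀ (abs_nonneg _) he 2
      calc s * NUMF.P t * |NUMF.h (x.im - t) (η t) - NUMF.h (x.im - t) 0| ≤
          s * NUMF.P t * (2 * e t ^ 2) := by
            refine mul_le_mul_of_nonneg_left (h2.trans ?_) (by positivity)
            clear * - h5
            linarith
        _ = _ := by ring
    by_cases ht : t ∈ Set.Icc (-b) b
    · rw [Set.indicator_of_mem ht]
      refine h4.trans ?_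
      have h6 : (s * NUMF.P t * e t) * e t ≤ M * ε :=
        mul_le_mul hms hle (hcur.nonneg t) hM0
      clear * - h6
      linarith
    · rw [Set.indicator_of_notMem ht]
      have h7 : b < |t| := by
        by_contra h8
        exact ht (abs_le.1 (not_lt.1 h8))
      have h9 := hcur.supp t h7
      rw [h9, mul_zero, mul_zero] at h4
      exact h4
  have hind : Integrable ((Set.Icc (-b) b).indicator (fun _ : ℝ => 2 * (M * ε))) :=
    (integrableOn_const (by
      rw [Real.volume_Icc]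
      exact ENNReal.ofReal_ne_top)).integrable_indicator measurableSet_Icc
  have hgi : Integrable g := hind.mono' hgc.aestronglyMeasurable (Eventually.of_forall hgb)
  have hgv : |∫ t, g t| ≤ 4 * (b * (M * ε)) := by
    rw [← Real.norm_eq_abs]
    refine (norm_integral_le_of_norm_le hind (Eventually.of_forall hgb)).trans ?_
    rw [integral_indicator measurableSet_Icc, setIntegral_const, smul_eq_mul]
    have : (volume : Measure ℝ).real (Set.Icc (-b) b) = 2 * b := by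
      rw [Measure.real, Real.volume_Icc, ENNReal.toReal_ofReal (by (clear * - hb; linarith))]
      ring
    rw [this]
    clear * -
    linarith
  -- the sum
  have i0 : Integrable fun t : ℝ => s * (NUMF.P t * (NUMF.h (x.im - t) 0 - Real.log 2)) :=
    j0.const_mul s
  have esum : (fun t => s * NUMF.P t * Real.log (rwX x (NUO.pA η t))) = fun t =>
      (s * NUMF.P t * (Real.log (rwX x (NUO.pA η t)) - (NUMF.h (x.im - t) (η t) - Real.log 2)) +
        g t) + s * (NUMF.P t * (NUMF.h (x.im - t) 0 - Real.log 2)) := by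
    funext t
    rw [hg]
    ring
  refine ⟨by rw [esum]; exact (i1.add hgi).add i0, ?_⟩
  have f1 := integral_add (i1.add hgi) i0
  have f2 := integral_add i1 hgi
  simp only [Pi.add_apply] at f1 f2
  rw [esum, f1, f2, integral_const_mul, v0]
  have h4 : 4 * ka (1 / 10) (1 / 20 * l) ≤ Kc := by
    unfold Kc
    exact le_rfl
  have hKc : 0 ≤ Kc := by unfold Kc; positivity
  have h5 : C * (|(0 : ℝ)| + |2 * x.re| + 4 * ka (1 / 10) (1 / 20 * l)) * b * (M * ε) ≤
      C * (8 + Kc) * (b * (M * ε)) := by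
    rw [mul_assoc _ b]
    refine mul_le_mul_of_nonneg_right ?_ hbM
    refine mul_le_mul_of_nonneg_left ?_ (by (clear * - hC; linarith))
    rw [abs_zero, abs_mul, abs_of_pos (by norm_num : (0 : ℝ) < 2)]
    clear * - hx hll hp4 h4
    linarith
  obtain ⟨k1, k2⟩ := abs_le.1 h3
  obtain ⟨k3, k4⟩ := abs_le.1 hgv
  rw [abs_le]
  have h6 : Kc * 1 + C * (8 + Kc) * (b * (M * ε)) + 4 * (b * (M * ε)) ≤
      (Kc + C * (8 + Kc) + 5) * (1 + b * (M * ε)) := by
    have : 0 ≤ C * (8 + Kc) := by positivity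
    clear * - hC hk hbM h4 hl hll hp4
    nlinarith
  constructor <;> (clear * - h4 h5 k1 k3 h6 k2 k4; linarith)

/-- **a row of the own group against the sea, on the curve** -/
theorem exists_own : ∃ C : ℝ, 1 ≤ C ∧ ∀ {s ε M b : ℝ} {e η η1 : ℝ → ℝ}, 0 ≤ s →
    ε ≤ 1 / 100 → NUSea.PLX.Cur s ε M b e η → (∀ t, HasDerivAt η (η1 t) t) → 0 ≤ b →
    (∀ t, |NUSea.PLX.hd s η η1 t| ≤ 1) → ∀ x : ℂ, |x.re| ≤ l / 2 →
      Integrable (fun t => s * NUMF.P t * Real.log (rwO x (NUO.pA η t))) ∧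
      |(∫ t, s * NUMF.P t * Real.log (rwO x (NUO.pA η t))) - s * mEo x -
          4 * x.re * (s * NUMF.P x.im * η x.im)| ≤ C * (1 + b * (M * ε)) := by
  obtain ⟨C1, hC1, H1⟩ := exists_row
  obtain ⟨C2, hC2, H2⟩ := exists_cross
  refine ⟨C1 + C2, by linarith, ?_⟩
  intro s ε M b e η η1 hs hε hcur h1 hb hA x hx
  have hl := l_pos
  have hll : l = Real.pi / 8 := rfl
  have hp3 := Real.pi_gt_three
  obtain ⟨i1, a1⟩ := H1 hs hε hcur h1 hb hA x hx
  obtain ⟨i2, a2⟩ := H2 hs hε hcur h1 hb hA x hx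
  have hη : ∀ t, |η t| ≤ ε := fun t => (NUSea.PLX.H0.lc_le hcur t).trans (hcur.le t)
  have e : ∀ t, Real.log (rwO x (NUO.pA η t)) =
      Real.log (rwC x (NUO.pA η t)) - Real.log (rwX x (NUO.pA η t)) := fun t => by
    have p := (log_rwX_h (x := x) (y := η t) (by
      obtain ⟨x1, x2⟩ := abs_le.1 hx
      obtain ⟨y1, y2⟩ := abs_le.1 (hη t)
      rw [abs_lt]
      constructor <;> (clear * - hε hl hll hp3 x1 y1 x2 y2; linarith)) t).1
    rw [← iD_zt, ← pA_zt] at p
    have hF := fit_r hx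
    have him : |(zt (iD η) t).im| < 1 / 10 * l := by
      have : (zt (iD η) t).im = η t := by simp [NUAct.zt, iD]
      rw [this]
      linarith [hη t]
    have s0 := sin_neF (hF (0, -1) (by simp [Lr])) him
    have s2 := sin_neF (hF (-2, -1) (by simp [Lr])) him
    rw [← pA_zt] at s0 s2
    have q : 0 < rwO x (NUO.pA η t) := by
      unfold rwO
      have e0 : NUO.pA η t - x = NUO.pA η t - x + ((0 : ℤ) : ℂ) * l := by push_cast; ring
      have e2 : NUO.pA η t - x - 2 * NUP1.l = NUO.pA η t - x + ((-2 : ℤ) : ℂ) * l := by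
        push_cast
        have : (NUP1.l : ℂ) = (l : ℂ) := rfl
        rw [this]
        ring
      rw [e2]
      rw [← e0] at s0
      positivity
    rw [row_split, Real.log_mul q.ne' p.ne']
    ring
  have e1 : (fun t => s * NUMF.P t * Real.log (rwO x (NUO.pA η t))) = fun t =>
      s * NUMF.P t * Real.log (rwC x (NUO.pA η t)) - s * NUMF.P t * Real.log (rwX x (NUO.pA η t)) := by
    funext t
    rw [e t]
    ring
  refine ⟨by rw [e1]; exact i1.sub i2, ?_⟩
  rw [e1, integral_sub i1 i2]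
  have hE := mE_add x
  obtain ⟨k1, k2⟩ := abs_le.1 a1
  obtain ⟨k3, k4⟩ := abs_le.1 a2
  have hs' : s * NUMFH.mE x = s * mEo x + s * mEx x := by rw [← hE]; ring
  rw [abs_le]
  constructor <;> (clear * - k1 k4 hs' k2 k3; nlinarith)

section

variable [Fil]

/-- the factor of a row with its multiplicities, logarithms -/
lemma log_rwC_a {η : ℝ → ℝ} (hη : ∀ t, |η t| ≤ 1 / 100) {x : ℂ} (hx : |x.re| ≤ l / 2) (a : Bool)
    (t : ℝ) : Real.log (PBO.PLX.rwC a x (NUO.pA η t)) =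
      Fil.b a * Real.log (rwO x (NUO.pA η t)) + Fil.b (!a) * Real.log (rwX x (NUO.pA η t)) := by
  have hl := l_pos
  have hll : l = Real.pi / 8 := rfl
  have hp3 := Real.pi_gt_three
  have p := (log_rwX_h (x := x) (y := η t) (by
    obtain ⟨x1, x2⟩ := abs_le.1 hx
    obtain ⟨y1, y2⟩ := abs_le.1 (hη t)
    rw [abs_lt]
    constructor <;> (clear * - hl hll hp3 x1 y1 x2 y2; linarith)) t).1
  rw [← iD_zt, ← pA_zt] at p
  have hF := fit_r hx
  have him : |(zt (iD η) t).im| < 1 / 10 * l := by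
    have : (zt (iD η) t).im = η t := by simp [NUAct.zt, iD]
    rw [this]
    clear * - hl hll hp3 hη
    linarith [hη t]
  have s0 := sin_neF (hF (0, -1) (by simp [Lr])) him
  have s2 := sin_neF (hF (-2, -1) (by simp [Lr])) him
  rw [← pA_zt] at s0 s2
  have q : 0 < rwO x (NUO.pA η t) := by
    unfold rwO
    have e0 : NUO.pA η t - x = NUO.pA η t - x + ((0 : ℤ) : ℂ) * l := by push_cast; ring
    have e2 : NUO.pA η t - x - 2 * NUP1.l = NUO.pA η t - x + ((-2 : ℤ) : ℂ) * l := by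
      push_cast
      have : (NUP1.l : ℂ) = (l : ℂ) := rfl
      rw [this]
      ring
    rw [e2]
    rw [← e0] at s0
    positivity
  rw [PBO.PLX.rwC_eq, Real.log_mul (pow_pos q _).ne' (pow_pos p _).ne', Real.log_pow, Real.log_pow,
    Fil.cast_n, Fil.cast_n]

/-- **the row of both groups with its multiplicities against the sea of species `a`, on the curve** -/
theorem exists_rowq : ∃ C : ℝ, 1 ≤ C ∧ ∀ {s ε M b : ℝ} {e η η1 : ℝ → ℝ}, 0 ≤ s →
    ε ≤ 1 / 100 → NUSea.PLX.Cur s ε M b e η → (∀ t, HasDerivAt η (η1 t) t) → 0 ≤ b →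
    (∀ t, |NUSea.PLX.hd s η η1 t| ≤ 1) → ∀ (a : Bool) (x : ℂ), |x.re| ≤ l / 2 →
      Integrable (fun t => s * NUMF.P t * Real.log (PBO.PLX.rwC a x (NUO.pA η t))) ∧
      |(∫ t, s * NUMF.P t * Real.log (PBO.PLX.rwC a x (NUO.pA η t))) -
          (s * (Fil.b a * mEo x + Fil.b (!a) * mEx x) +
            4 * (Fil.b a - Fil.b (!a)) * x.re * (s * NUMF.P x.im * η x.im))| ≤
        C * (1 + b * (M * ε)) := by
  obtain ⟨C1, hC1, H1⟩ := exists_own
  obtain ⟨C2, hC2, H2⟩ := exists_cross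
  have hq : (1 : ℝ) ≤ (Fil.q : ℝ) := Fil.one_le_qr
  refine ⟨Fil.q * (C1 + C2), by nlinarith, ?_⟩
  intro s ε M b e η η1 hs hε hcur h1 hb hA a x hx
  obtain ⟨i1, a1⟩ := H1 hs hε hcur h1 hb hA x hx
  obtain ⟨i2, a2⟩ := H2 hs hε hcur h1 hb hA x hx
  have hη : ∀ t, |η t| ≤ 1 / 100 := fun t =>
    ((NUSea.PLX.H0.lc_le hcur t).trans (hcur.le t)).trans hε
  have e1 : (fun t => s * NUMF.P t * Real.log (PBO.PLX.rwC a x (NUO.pA η t))) = fun t =>
      Fil.b a * (s * NUMF.P t * Real.log (rwO x (NUO.pA η t))) +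
        Fil.b (!a) * (s * NUMF.P t * Real.log (rwX x (NUO.pA η t))) := by
    funext t
    rw [log_rwC_a hη hx]
    ring
  refine ⟨by rw [e1]; exact (i1.const_mul _).add (i2.const_mul _), ?_⟩
  rw [e1, integral_add (i1.const_mul _) (i2.const_mul _), integral_const_mul, integral_const_mul]
  have hM0 := hcur.M0 hs
  have hε0 := hcur.ε0
  have hN : 0 ≤ 1 + b * (M * ε) := by positivity
  have b1 := Fil.b_pos a
  have b2 := Fil.b_pos (!a)
  have b3 := Fil.b_le a
  have b4 := Fil.b_le (!a)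
  obtain ⟨A, hA'⟩ : ∃ A, A = ∫ t, s * NUMF.P t * Real.log (rwO x (NUO.pA η t)) := ⟨_, rfl⟩
  obtain ⟨B, hB'⟩ : ∃ B, B = ∫ t, s * NUMF.P t * Real.log (rwX x (NUO.pA η t)) := ⟨_, rfl⟩
  obtain ⟨h, hh⟩ : ∃ h, h = s * NUMF.P x.im * η x.im := ⟨_, rfl⟩
  rw [← hA', ← hh] at a1
  rw [← hB', ← hh] at a2
  rw [← hA', ← hB', ← hh]
  have e2 : Fil.b a * A + Fil.b (!a) * B - (s * (Fil.b a * mEo x + Fil.b (!a) * mEx x) +
      4 * (Fil.b a - Fil.b (!a)) * x.re * h) =
      Fil.b a * (A - s * mEo x - 4 * x.re * h) + Fil.b (!a) * (B - s * mEx x + 4 * x.re * h) := by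
    ring
  rw [e2]
  refine (abs_add_le _ _).trans ?_
  rw [abs_mul, abs_mul, abs_of_pos b1, abs_of_pos b2]
  have c1 := mul_le_mul b3 a1 (abs_nonneg _) (by linarith)
  have c2 := mul_le_mul b4 a2 (abs_nonneg _) (by linarith)
  calc _ ≤ (Fil.q : ℝ) * (C1 * (1 + b * (M * ε))) + Fil.q * (C2 * (1 + b * (M * ε))) := add_le_add c1 c2
    _ = _ := by ring

end

end P0

end

end PBV.PLX
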