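import Pool.Agent.PLX.Ns
import Pool.Agent.PLX.PB.ValC
import Pool.Agent.PLX.NUGC.ThN
import Pool.Agent.PLX.NUSea.Bridge

/-!
# Plan B: the ends `ThN` against the sea at rows `0`, on the curve

`exists_th`: `s ∫ P log ThN (pA η t) = - 12 l h(0) + O(1)`, `h = s P η`.
-/

set_option autoImplicit false
set_option linter.unusedSectionVars false

open MeasureTheory Set Filter Topology Complex

namespace PBV.PLX

open NUMF (l l_pos)
open NUKer NUAct
open NUO (yw bk bk1 wz wz_re wz_im ll_pos red)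
open NUSp (wd wd1 wn wq wph ka Asy)
open NUGC.PLX (ThN)

noncomputable section

/-- word of the ends -/
def Lt : List (ℤ × ℝ) := [(0, 1 / 2), (1, 1 / 2), (-2, -1 / 2), (-1, -1 / 2)]

/-- base point of the word of the ends -/
def wt : ℂ := ((l / 2 : ℝ) : ℂ)

lemma wt_re : wt.re = l / 2 := Complex.ofReal_re _

lemma wt_im : wt.im = 0 := Complex.ofReal_im _

lemma yt : yw wt 0 = 7 / 2 * l ∧ yw wt 1 = 5 / 2 * l ∧ yw wt (-2) = -(5 / 2 * l) ∧
    yw wt (-1) = -(7 / 2 * l) := by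
  have hl := l_pos
  refine ⟨?_, ?_, ?_, ?_⟩
  · rw [yw_id] <;> rw [wt_re] <;> push_cast <;> linarith
  · rw [yw_id] <;> rw [wt_re] <;> push_cast <;> linarith
  · rw [yw_sub8] <;> rw [wt_re] <;> push_cast <;> linarith
  · rw [yw_sub8] <;> rw [wt_re] <;> push_cast <;> linarith

lemma fit_t : Fit (1 / 10) Lt wt := by
  have hl := l_pos
  obtain ⟨h0, h1, h2, h3⟩ := yt
  intro kc hk
  simp only [Lt, List.mem_cons, List.not_mem_nil, or_false] at hk
  rcases hk with rfl | rfl | rfl | rfl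
  · show |yw wt 0| ≤ _
    rw [h0, abs_le]; constructor <;> linarith
  · show |yw wt 1| ≤ _
    rw [h1, abs_le]; constructor <;> linarith
  · show |yw wt (-2)| ≤ _
    rw [h2, abs_le]; constructor <;> linarith
  · show |yw wt (-1)| ≤ _
    rw [h3, abs_le]; constructor <;> linarith

lemma wph_t : wph Lt wt = 6 * l := by
  obtain ⟨h0, h1, h2, h3⟩ := yt
  simp only [Lt, NUSp.wph_cons, NUSp.wph_nil]
  rw [h0, h1, h2, h3]
  ring

lemma wq_t : wq Lt = 0 := by
  simp only [Lt, NUSp.wq_cons, NUSp.wq_nil]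
  norm_num

/-- on the line the ends have modulus one -/
lemma re_t (t : ℝ) : (wd Lt wt t).re = 0 := by
  obtain ⟨h0, h1, h2, h3⟩ := yt
  have key : ∀ k k' : ℤ, yw wt k' = -yw wt k → (bk wt k' (t : ℂ)).re = (bk wt k (t : ℂ)).re := by
    intro k k' h
    unfold bk
    rw [Complex.log_re, Complex.log_re]
    have e : wz wt k' (t : ℂ) = (starRingEnd ℂ) (wz wt k (t : ℂ)) := by
      apply Complex.ext
      · rw [Complex.conj_re, wz_re, wz_re]
      · rw [Complex.conj_im, wz_im, wz_im, h, Complex.ofReal_im]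
        ring
    rw [e, Complex.cosh_conj, RCLike.norm_conj]
  have k1 := key 0 (-1) (by rw [h0, h3])
  have k2 := key 1 (-2) (by rw [h1, h2])
  simp only [Lt, NUSp.wd_cons, NUSp.wd_nil, Complex.add_re, Complex.re_ofReal_mul,
    Complex.zero_re]
  rw [k1, k2]
  ring

/-- the factor of the ends is the word -/
lemma log_ThN {ζ : ℂ} (hζ : |ζ.im| < 1 / 10 * l) :
    Real.log (ThN (l + I * ζ)) = (wd Lt wt ζ).re := by
  have hF := fit_t
  have s0 := sin_neF (hF (0, 1 / 2) (by simp [Lt])) hζ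
  have s1 := sin_neF (hF (1, 1 / 2) (by simp [Lt])) hζ
  have s2 := sin_neF (hF (-2, -1 / 2) (by simp [Lt])) hζ
  have s3 := sin_neF (hF (-1, -1 / 2) (by simp [Lt])) hζ
  simp only [Lt, NUSp.wd_cons, NUSp.wd_nil, Complex.add_re, Complex.re_ofReal_mul,
    Complex.zero_re, log_bk]
  have hll : (NUP1.l : ℂ) = (l : ℂ) := rfl
  have e0 : (l : ℂ) + I * ζ - NUP1.l / 2 = (l + I * ζ) - wt + ((0 : ℤ) : ℂ) * l := by
    unfold wt
    push_cast
    rw [hll]
    ring
  have e1 : (l : ℂ) + I * ζ + NUP1.l / 2 = (l + I * ζ) - wt + ((1 : ℤ) : ℂ) * l := by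
    unfold wt
    push_cast
    rw [hll]
    ring
  have e2 : (l : ℂ) + I * ζ - 5 * NUP1.l / 2 = (l + I * ζ) - wt + ((-2 : ℤ) : ℂ) * l := by
    unfold wt
    push_cast
    rw [hll]
    ring
  have e3 : (l : ℂ) + I * ζ - 3 * NUP1.l / 2 = (l + I * ζ) - wt + ((-1 : ℤ) : ℂ) * l := by
    unfold wt
    push_cast
    rw [hll]
    ring
  unfold ThN
  rw [e0, e1, e2, e3, Real.log_rpow (div_pos (mul_pos s0 s1) (mul_pos s2 s3)),
    Real.log_div (mul_pos s0 s1).ne' (mul_pos s2 s3).ne', Real.log_mul s0.ne' s1.ne',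
    Real.log_mul s2.ne' s3.ne']
  ring

section P0

attribute [local instance] NUSea.seaP

/-- **the ends against the sea, on the curve** -/
theorem exists_th : ∃ C : ℝ, 1 ≤ C ∧ ∀ {s ε M b : ℝ} {e η η1 : ℝ → ℝ}, 0 ≤ s →
    ε ≤ 1 / 100 → NUSea.PLX.Cur s ε M b e η → (∀ t, HasDerivAt η (η1 t) t) → 0 ≤ b →
    (∀ t, |NUSea.PLX.hd s η η1 t| ≤ 1) →
      Integrable (fun t => s * NUMF.P t * Real.log (ThN (NUO.pA η t))) ∧
      |(∫ t, s * NUMF.P t * Real.log (ThN (NUO.pA η t))) +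
          12 * l * (s * NUMF.P 0 * η 0)| ≤ C * (1 + b * (M * ε)) := by
  obtain ⟨C, hC, H⟩ := exists_word
  refine ⟨C, hC, ?_⟩
  intro s ε M b e η η1 hs hε hcur h1 hb hA
  have hl := l_pos
  have hll : l = Real.pi / 8 := rfl
  have hp3 := Real.pi_gt_three
  have hp4 := Real.pi_le_four
  obtain ⟨i1, i2, h3⟩ := H hs hε hcur h1 hb hA Lt wt fit_t wq_t (by
    rw [wph_t, abs_of_pos (by positivity)]; linarith) (by
    simp only [Lt, NUSp.wn_cons, NUSp.wn_nil]; norm_num [abs_of_pos, abs_of_neg])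
  rw [wph_t, wt_im] at h3
  have him : ∀ t, (zt (iD η) t).im = η t := fun t => by simp [NUAct.zt, iD]
  have hη : ∀ t, |η t| ≤ ε := fun t => (NUSea.PLX.H0.lc_le hcur t).trans (hcur.le t)
  have c1 : ∀ t, (wd Lt wt (zt (iD η) t)).re = Real.log (ThN (NUO.pA η t)) := fun t => by
    rw [pA_zt, log_ThN (by rw [him]; linarith [hη t])]
  simp only [c1] at i1 h3
  simp only [re_t, mul_zero, integral_zero, sub_zero] at h3
  refine ⟨i1, ?_⟩
  rw [show 12 * l = 2 * (6 * l) by ring]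
  exact h3

end P0

end

end PBV.PLX
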