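import Pool.Agent.PLX.Ns
import Pool.Agent.PLX.PB.ValT
import Pool.Agent.PLX.PB.HPot

/-!
# Plan B: the potential of class D against the sea at rows `0`

`PBH.PLX.Hleg κ z x η a t = log thZ z + log rwC a x - log rwC a 0 - κ log ThN` on the curve `cv a η` of
species `a`: the one body factor of the doubly dislocated function (one row moved to `x`, with its
multiplicities) relative to the rows `0` and the ends `ThN` (`κ = 1`) or no ends (`κ = 0`).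

* `LamH a z x = lE z + b a (mEo x - mEo 0) + b (!a) (mEx x - mEx 0)`: its value on the line;
* `exists_HD`: `∫ s P Hleg = s LamH - 6 l h(Im z) + 12 κ l h(0) + 4 (b a - b (!a)) (Re x) h(Im x) + O(1)`,
  `h = s P cv a η`;
* `exists_HDc`: the same for the admissible curves `PotH.CrvP` with a current of slope at most one;
* **`exists_HDq`**, **`exists_HDs`**: the sum over the species, weights `b a m` resp. `sN m a`: the linear
  terms of the row cancel.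
-/

set_option autoImplicit false
set_option linter.unusedSectionVars false

open MeasureTheory Set Filter Topology Complex
open PLX (Fil Ends)

namespace PBV.PLX

open NUMF (l l_pos)
open NUKer NUAct
open NUGC.PLX (ThN)
open PBO.PLX (rwC thZ)
open PBH.PLX (Hleg)

noncomputable section

/-- powers of the logarithm against `m ^ (- e1 / 2)` -/
lemma log_sq_le {e1 : ℝ} (h1 : 0 < e1) {m : ℕ} (hm : 1 ≤ m) :
    Real.log m ^ 2 * (m : ℝ) ^ (-(e1 / 2)) ≤ 16 / e1 ^ 2 := by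
  have hm0 : (0 : ℝ) < m := by exact_mod_cast hm
  have hm1 : (1 : ℝ) ≤ m := by exact_mod_cast hm
  have h2 := Real.log_le_rpow_div (x := (m : ℝ)) hm0.le (ε := e1 / 4) (by (clear * - h1; linarith))
  have h3 := Real.log_nonneg hm1
  have h4 : Real.log m ^ 2 ≤ ((m : ℝ) ^ (e1 / 4) / (e1 / 4)) ^ 2 := pow_le_pow_left₀ h3 h2 2
  have h5 : ((m : ℝ) ^ (e1 / 4)) ^ 2 * (m : ℝ) ^ (-(e1 / 2)) = 1 := by
    rw [← Real.rpow_natCast, ← Real.rpow_mul hm0.le, ← Real.rpow_add hm0,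
      show e1 / 4 * ((2 : ℕ) : ℝ) + -(e1 / 2) = 0 by push_cast; ring, Real.rpow_zero]
  have h6 : 0 ≤ (m : ℝ) ^ (-(e1 / 2)) := by positivity
  calc Real.log m ^ 2 * (m : ℝ) ^ (-(e1 / 2))
      ≤ ((m : ℝ) ^ (e1 / 4) / (e1 / 4)) ^ 2 * (m : ℝ) ^ (-(e1 / 2)) :=
        mul_le_mul_of_nonneg_right h4 h6
    _ = (((m : ℝ) ^ (e1 / 4)) ^ 2 * (m : ℝ) ^ (-(e1 / 2))) * (16 / e1 ^ 2) := by
        field_simp
        ring
    _ = 16 / e1 ^ 2 := by rw [h5, one_mul]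

/-- the error of the linear terms on admissible curves -/
lemma crv_err {e1 Cc ε : ℝ} (he : 0 < e1) (he1 : e1 ≤ 1) (hCc : 0 ≤ Cc) {m : ℕ} (hm : 1 ≤ m)
    (h0 : 0 ≤ ε) (hε : ε ≤ (m : ℝ) ^ (-(e1 / 2))) : 0 ≤ (1 - e1) * NUO.Tb (Real.log m) ∧
      1 + (1 - e1) * NUO.Tb (Real.log m) * (Cc * Real.log m * ε) ≤ 1 + Cc * (16 / e1 ^ 2) := by
  have hm1 : (1 : ℝ) ≤ m := by exact_mod_cast hm
  have hL0 := Real.log_nonneg hm1
  have hTb : NUO.Tb (Real.log m) = 3 / 8 * Real.log m := rfl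
  refine ⟨?_, ?_⟩
  · rw [hTb]
    have : 0 ≤ 1 - e1 := by (clear * - he1; linarith)
    positivity
  have h3 := log_sq_le he hm
  have h4 : (1 - e1) * NUO.Tb (Real.log m) ≤ Real.log m := by
    rw [hTb]
    clear * - hL0 he
    nlinarith
  have h5 : (1 - e1) * NUO.Tb (Real.log m) * (Cc * Real.log m * ε) ≤
      Real.log m * (Cc * Real.log m * (m : ℝ) ^ (-(e1 / 2))) := by
    refine mul_le_mul h4 (mul_le_mul_of_nonneg_left hε (by positivity)) (by positivity) hL0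
  have h6 : Real.log m * (Cc * Real.log m * (m : ℝ) ^ (-(e1 / 2))) =
      Cc * (Real.log m ^ 2 * (m : ℝ) ^ (-(e1 / 2))) := by ring
  have h7 : Cc * (Real.log m ^ 2 * (m : ℝ) ^ (-(e1 / 2))) ≤ Cc * (16 / e1 ^ 2) :=
    mul_le_mul_of_nonneg_left h3 hCc
  clear * - h5 h7
  linarith

variable [Fil]

/-- **the value of the legs at `z` and of the moved row `x`**, species `a` -/
def LamH (a : Bool) (z x : ℂ) : ℝ :=
  NUMFH.lE z + Fil.b a * (mEo x - mEo 0) + Fil.b (!a) * (mEx x - mEx 0)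

section P0

attribute [local instance] NUSea.seaP

/-- the curve of a species, weight `s` -/
lemma cur_cv {s ε M b : ℝ} {e η η1 : ℝ → ℝ} (hs : 0 < s) (h : NUSea.PLX.Cur s ε M b e η)
    (h1 : ∀ t, HasDerivAt η (η1 t) t) (hA : ∀ t, |NUSea.PLX.hd s η η1 t| ≤ 1) (a : Bool) :
    NUSea.PLX.Cur s ε M b e (Fil.cv a η) ∧
      (∀ t, HasDerivAt (Fil.cv a η) (Fil.cv a η1 t) t) ∧
      ∀ t, |NUSea.PLX.hd s (Fil.cv a η) (Fil.cv a η1) t| ≤ 1 := by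
  refine ⟨?_, fun t => Fil.hasDerivAt_cv a (h1 t), fun t => ?_⟩
  · have h2 := h.cv hs a hs.le
    rwa [div_self hs.ne', one_mul] at h2
  · have d1 := NUSea.PLX.hasDerivAt_hd s h1 t
    have d2 := NUSea.PLX.hasDerivAt_hd s (η := Fil.cv a η) (η1 := Fil.cv a η1)
      (fun t => Fil.hasDerivAt_cv a (h1 t)) t
    have e1 : (fun t => s * NUSea.P t * Fil.cv a η t) = fun t =>
        (Fil.b a)⁻¹ * (s * NUSea.P t * η t) := by
      funext t
      rw [Fil.cv_apply]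
      ring
    rw [e1] at d2
    rw [d2.unique (d1.const_mul _), abs_mul, abs_of_pos (Fil.inv_b_pos a)]
    have := mul_le_mul (Fil.inv_b_le a) (hA t) (abs_nonneg _) zero_le_one
    clear * - this
    linarith

/-- **the potential of class D against the sea, on the curve** -/
theorem exists_HD : ∃ C : ℝ, 1 ≤ C ∧ ∀ {s ε M b : ℝ} {e η η1 : ℝ → ℝ}, 0 < s →
    ε ≤ 1 / 100 → NUSea.PLX.Cur s ε M b e η → (∀ t, HasDerivAt η (η1 t) t) → 0 ≤ b →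
    (∀ t, |NUSea.PLX.hd s η η1 t| ≤ 1) → ∀ (κ : ℝ) (z x : ℂ), |κ| ≤ 2 → -(9 / 10 * l) ≤ z.re →
      z.re ≤ 37 / 10 * l → |x.re| ≤ l / 2 → ∀ a : Bool,
      Integrable (fun t => s * NUMF.P t * Hleg κ z x η a t) ∧
      |(∫ t, s * NUMF.P t * Hleg κ z x η a t) - (s * LamH a z x -
          6 * l * (s * NUMF.P z.im * Fil.cv a η z.im) +
          12 * κ * l * (s * NUMF.P 0 * Fil.cv a η 0) +
          4 * (Fil.b a - Fil.b (!a)) * x.re * (s * NUMF.P x.im * Fil.cv a η x.im))| ≤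
        C * (1 + b * (M * ε)) := by
  obtain ⟨C1, hC1, H1⟩ := exists_rowq
  obtain ⟨C2, hC2, H2⟩ := exists_leg
  obtain ⟨C3, hC3, H3⟩ := exists_th
  refine ⟨2 * C1 + C2 + 2 * C3, by (clear * - hC1 hC2 hC3; linarith), ?_⟩
  intro s ε M b e η η1 hs0 hε hcur0 h10 hb hA0 κ z x hκ hz1 hz2 hx a
  have hs := hs0.le
  have hl := l_pos
  obtain ⟨hcur, h1, hA⟩ := cur_cv hs0 hcur0 h10 hA0 a
  obtain ⟨i1, a1⟩ := H1 hs hε hcur h1 hb hA a x hx
  obtain ⟨i0, a0⟩ := H1 hs hε hcur h1 hb hA a 0 (by rw [Complex.zero_re, abs_zero]; positivity)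
  obtain ⟨i2, a2⟩ := H2 hs hε hcur h1 hb hA z hz1 hz2
  obtain ⟨i3, a3⟩ := H3 hs hε hcur h1 hb hA
  rw [Complex.zero_re, mul_zero, zero_mul, add_zero] at a0
  have e1 : (fun t => s * NUMF.P t * Hleg κ z x η a t) = fun t =>
      s * NUMF.P t * Real.log (thZ z (NUO.pA (Fil.cv a η) t)) +
        s * NUMF.P t * Real.log (rwC a x (NUO.pA (Fil.cv a η) t)) -
        s * NUMF.P t * Real.log (rwC a 0 (NUO.pA (Fil.cv a η) t)) -
          κ * (s * NUMF.P t * Real.log (ThN (NUO.pA (Fil.cv a η) t))) := by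
    funext t
    unfold PBH.PLX.Hleg
    ring
  rw [e1]
  have i3' := i3.const_mul κ
  refine ⟨((i2.add i1).sub i0).sub i3', ?_⟩
  have f1 := integral_sub ((i2.add i1).sub i0) i3'
  have f2 := integral_sub (i2.add i1) i0
  have f3 := integral_add i2 i1
  simp only [Pi.add_apply, Pi.sub_apply] at f1 f2 f3
  rw [f1, f2, f3, integral_const_mul]
  have hM0 := hcur.M0 hs
  have hε0 := hcur.ε0
  have hN : 0 ≤ 1 + b * (M * ε) := by (clear * - hb hM0 hε0; positivity)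
  have a3' : |κ * ((∫ t, s * NUMF.P t * Real.log (ThN (NUO.pA (Fil.cv a η) t))) +
      12 * l * (s * NUMF.P 0 * Fil.cv a η 0))| ≤ 2 * (C3 * (1 + b * (M * ε))) := by
    rw [abs_mul]
    exact mul_le_mul hκ a3 (abs_nonneg _) (by norm_num)
  unfold LamH
  obtain ⟨I1, hI1⟩ : ∃ I1, I1 = ∫ t, s * NUMF.P t * Real.log (rwC a x (NUO.pA (Fil.cv a η) t)) :=
    ⟨_, rfl⟩
  obtain ⟨I0, hI0⟩ : ∃ I0, I0 = ∫ t, s * NUMF.P t * Real.log (rwC a 0 (NUO.pA (Fil.cv a η) t)) :=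
    ⟨_, rfl⟩
  obtain ⟨I2, hI2⟩ : ∃ I2, I2 = ∫ t, s * NUMF.P t * Real.log (thZ z (NUO.pA (Fil.cv a η) t)) :=
    ⟨_, rfl⟩
  obtain ⟨I3, hI3⟩ : ∃ I3, I3 = ∫ t, s * NUMF.P t * Real.log (ThN (NUO.pA (Fil.cv a η) t)) :=
    ⟨_, rfl⟩
  obtain ⟨hx', hhx⟩ : ∃ hx', hx' = s * NUMF.P x.im * Fil.cv a η x.im := ⟨_, rfl⟩
  obtain ⟨hz', hhz⟩ : ∃ hz', hz' = s * NUMF.P z.im * Fil.cv a η z.im := ⟨_, rfl⟩
  obtain ⟨h0', hh0⟩ : ∃ h0', h0' = s * NUMF.P 0 * Fil.cv a η 0 := ⟨_, rfl⟩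
  obtain ⟨D, hD⟩ : ∃ D, D = 1 + b * (M * ε) := ⟨_, rfl⟩
  rw [← hI1, ← hhx, ← hD] at a1
  rw [← hI0, ← hD] at a0
  rw [← hI2, ← hhz, ← hD] at a2
  rw [← hI3, ← hh0, ← hD] at a3'
  rw [← hI1, ← hI0, ← hI2, ← hI3, ← hhx, ← hhz, ← hh0, ← hD]
  have key : I2 + I1 - I0 - κ * I3 - (s * (NUMFH.lE z + Fil.b a * (mEo x - mEo 0) +
      Fil.b (!a) * (mEx x - mEx 0)) - 6 * l * hz' + 12 * κ * l * h0' +
      4 * (Fil.b a - Fil.b (!a)) * x.re * hx') =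
      (I1 - (s * (Fil.b a * mEo x + Fil.b (!a) * mEx x) +
        4 * (Fil.b a - Fil.b (!a)) * x.re * hx')) -
      (I0 - s * (Fil.b a * mEo 0 + Fil.b (!a) * mEx 0)) + (I2 - s * NUMFH.lE z + 6 * l * hz') -
      κ * (I3 + 12 * l * h0') := by ring
  rw [key]
  rw [abs_le] at a0 a1 a2 a3' ⊢
  constructor <;> (clear * - a3' a2 a0 a1; linarith [a0.1, a0.2, a1.1, a1.2, a2.1, a2.2, a3'.1, a3'.2])

/-- **the same for the admissible curves** -/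
theorem exists_HDc {e1 Cc : ℝ} (he : 0 < e1) (he1 : e1 ≤ 1) (hCc : 0 ≤ Cc) : ∃ C : ℝ, 1 ≤ C ∧
    ∀ (m : ℕ) (η η1 : ℝ → ℝ), 1 ≤ m → PotH.PLX.CrvP e1 Cc m η η1 →
    (∀ t, |NUSea.PLX.hd m η η1 t| ≤ 1) → ∀ (κ : ℝ) (z x : ℂ), |κ| ≤ 2 → -(9 / 10 * l) ≤ z.re →
      z.re ≤ 37 / 10 * l → |x.re| ≤ l / 2 → ∀ a : Bool,
      Integrable (fun t => (m : ℝ) * NUMF.P t * Hleg κ z x η a t) ∧
      |(∫ t, (m : ℝ) * NUMF.P t * Hleg κ z x η a t) -
        (m * LamH a z x - 6 * l * (m * NUMF.P z.im * Fil.cv a η z.im) +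
          12 * κ * l * (m * NUMF.P 0 * Fil.cv a η 0) +
          4 * (Fil.b a - Fil.b (!a)) * x.re * (m * NUMF.P x.im * Fil.cv a η x.im))| ≤ C := by
  obtain ⟨C, hC, H⟩ := exists_HD
  refine ⟨C * (1 + Cc * (16 / e1 ^ 2)), ?_, ?_⟩
  · have : 0 ≤ Cc * (16 / e1 ^ 2) := by positivity
    clear * - hC this
    nlinarith
  intro m η η1 hm hcv hA κ z x hκ hz1 hz2 hx a
  obtain ⟨ε, e, hcur, hε0, hε1, hε⟩ := hcv.cur
  have hm0 : (0 : ℝ) < m := by exact_mod_cast hm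
  obtain ⟨hb, h2⟩ := crv_err he he1 hCc hm hε0 hε1
  obtain ⟨i1, a1⟩ := H hm0 hε hcur hcv.d hb hA κ z x hκ hz1 hz2 hx a
  exact ⟨i1, a1.trans (mul_le_mul_of_nonneg_left h2 (by (clear * - hC; linarith)))⟩

/-- **both species**, weights `w a`, `|w a / b a - m| ≤ K` -/
theorem exists_HDw {e1 Cc : ℝ} (he : 0 < e1) (he1 : e1 ≤ 1) (hCc : 0 ≤ Cc) {K : ℝ} (hK : 0 ≤ K) :
    ∃ C : ℝ, 1 ≤ C ∧ ∀ (m : ℕ) (η η1 : ℝ → ℝ), 1 ≤ m → PotH.PLX.CrvP e1 Cc m η η1 →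
    (∀ t, |NUSea.PLX.hd m η η1 t| ≤ 1) → ∀ w : Bool → ℝ, (∀ a, 0 ≤ w a) →
    (∀ a, |w a / Fil.b a - m| ≤ K) → ∀ (κ : ℝ) (z x : ℂ), |κ| ≤ 2 → -(9 / 10 * l) ≤ z.re →
      z.re ≤ 37 / 10 * l → |x.re| ≤ l / 2 →
      (∀ a, Integrable fun t => w a * NUMF.P t * Hleg κ z x η a t) ∧
      |(∑ a, ∫ t, w a * NUMF.P t * Hleg κ z x η a t) -
        ((∑ a, w a * LamH a z x) - 12 * l * (m * NUMF.P z.im * η z.im) +
          24 * κ * l * (m * NUMF.P 0 * η 0))| ≤ C := by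
  obtain ⟨C, hC, H⟩ := exists_HDc he he1 hCc
  obtain ⟨Cp, hCp, HP⟩ := NUSea.P_le
  have hl := l_pos
  have hll : l = Real.pi / 8 := rfl
  have hpi := Real.pi_le_four
  have hq := Fil.one_le_qr
  obtain ⟨R, hR⟩ : ∃ R : ℝ, R = (Fil.q : ℝ) * (1 + K) := ⟨_, rfl⟩
  have hR1 : 1 ≤ R := by rw [hR]; (clear * - hq hK; nlinarith)
  refine ⟨2 * (R * C) + 100 * (Fil.q : ℝ) * (K * Cp), ?_, ?_⟩
  · have : 0 ≤ 100 * (Fil.q : ℝ) * (K * Cp) := by positivity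
    clear * - hC hR1 this
    nlinarith
  intro m η η1 hm hcv hA w hw0 hw κ z x hκ hz1 hz2 hx
  have hm0 : (0 : ℝ) < m := by exact_mod_cast hm
  have hm1 : (1 : ℝ) ≤ m := by exact_mod_cast hm
  -- the ratio
  have hr : ∀ a, 0 ≤ w a / m ∧ w a / m ≤ R := by
    intro a
    have hb := Fil.b_pos a
    have hb' := Fil.b_le a
    refine ⟨div_nonneg (hw0 a) hm0.le, ?_⟩
    have h1 := (abs_le.1 (hw a)).2
    have h2 : w a / Fil.b a ≤ m + K := by linarith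
    rw [div_le_iff₀ hb] at h2
    rw [div_le_iff₀ hm0, hR]
    have h3 : (m + K) * Fil.b a ≤ (m * (1 + K)) * Fil.q :=
      mul_le_mul (by (clear * - hK hm1; nlinarith)) hb' hb.le (by positivity)
    linarith
  have key : ∀ a, Integrable (fun t => w a * NUMF.P t * Hleg κ z x η a t) ∧
      |(∫ t, w a * NUMF.P t * Hleg κ z x η a t) -
        (w a * LamH a z x - 6 * l * (w a * NUMF.P z.im * Fil.cv a η z.im) +
          12 * κ * l * (w a * NUMF.P 0 * Fil.cv a η 0) +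
          4 * (Fil.b a - Fil.b (!a)) * x.re * (w a * NUMF.P x.im * Fil.cv a η x.im))| ≤ R * C := by
    intro a
    obtain ⟨i1, a1⟩ := H m η η1 hm hcv hA κ z x hκ hz1 hz2 hx a
    obtain ⟨r0, r1⟩ := hr a
    have e1 : (fun t => w a * NUMF.P t * Hleg κ z x η a t) = fun t =>
        (w a / m) * ((m : ℝ) * NUMF.P t * Hleg κ z x η a t) := by
      funext t
      field_simp
    refine ⟨by rw [e1]; exact i1.const_mul _, ?_⟩
    rw [e1, integral_const_mul]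
    have e2 : w a / m * (∫ t, (m : ℝ) * NUMF.P t * Hleg κ z x η a t) -
        (w a * LamH a z x - 6 * l * (w a * NUMF.P z.im * Fil.cv a η z.im) +
          12 * κ * l * (w a * NUMF.P 0 * Fil.cv a η 0) +
          4 * (Fil.b a - Fil.b (!a)) * x.re * (w a * NUMF.P x.im * Fil.cv a η x.im)) =
        w a / m * ((∫ t, (m : ℝ) * NUMF.P t * Hleg κ z x η a t) -
        (m * LamH a z x - 6 * l * (m * NUMF.P z.im * Fil.cv a η z.im) +
          12 * κ * l * (m * NUMF.P 0 * Fil.cv a η 0) +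
          4 * (Fil.b a - Fil.b (!a)) * x.re * (m * NUMF.P x.im * Fil.cv a η x.im))) := by
      field_simp
    rw [e2, abs_mul, abs_of_nonneg r0]
    exact mul_le_mul r1 a1 (abs_nonneg _) (by (clear * - hl hll hpi hR1; linarith))
  refine ⟨fun a => (key a).1, ?_⟩
  -- the currents
  have hP : ∀ t, 0 < NUMF.P t ∧ NUMF.P t ≤ Cp := by
    intro t
    have h1 : NUMF.P t ≤ Cp * Real.exp (-(8 / 3) * |t|) := HP t
    have h2 : Real.exp (-(8 / 3) * |t|) ≤ 1 := Real.exp_le_one_iff.2 (by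
      have := abs_nonneg t
      linarith)
    have h3 : 0 < NUMF.P t := NUSea.P_pos t
    exact ⟨h3, h1.trans (by (clear * - hCp h2; nlinarith))⟩
  have hc : ∀ a t, |w a * NUMF.P t * Fil.cv a η t - m * NUMF.P t * η t| ≤ K * Cp / 100 := by
    intro a t
    obtain ⟨p0, p1⟩ := hP t
    have hη := hcv.le t
    have e1 : w a * NUMF.P t * Fil.cv a η t - m * NUMF.P t * η t =
        (w a / Fil.b a - m) * (NUMF.P t * η t) := by
      rw [Fil.cv_apply]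
      ring
    rw [e1, abs_mul, abs_mul, abs_of_pos p0]
    have h2 : NUMF.P t * |η t| ≤ Cp * (1 / 100) := mul_le_mul p1 hη (abs_nonneg _) hCp.le
    have h3 := mul_le_mul (hw a) h2 (by positivity) hK
    clear * - h3
    linarith
  rw [Fintype.sum_bool, Fintype.sum_bool]
  obtain ⟨-, k1⟩ := key true
  obtain ⟨-, k2⟩ := key false
  have z1 := hc true z.im
  have z2 := hc false z.im
  have o1 := hc true 0
  have o2 := hc false 0
  have x1 := hc true x.im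
  have x2 := hc false x.im
  obtain ⟨I1, hI1⟩ : ∃ I1, I1 = ∫ t, w true * NUMF.P t * Hleg κ z x η true t := ⟨_, rfl⟩
  obtain ⟨I2, hI2⟩ : ∃ I2, I2 = ∫ t, w false * NUMF.P t * Hleg κ z x η false t := ⟨_, rfl⟩
  obtain ⟨Z1, hZ1⟩ : ∃ Z1, Z1 = w true * NUMF.P z.im * Fil.cv true η z.im := ⟨_, rfl⟩
  obtain ⟨Z2, hZ2⟩ : ∃ Z2, Z2 = w false * NUMF.P z.im * Fil.cv false η z.im := ⟨_, rfl⟩
  obtain ⟨O1, hO1⟩ : ∃ O1, O1 = w true * NUMF.P 0 * Fil.cv true η 0 := ⟨_, rfl⟩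
  obtain ⟨O2, hO2⟩ : ∃ O2, O2 = w false * NUMF.P 0 * Fil.cv false η 0 := ⟨_, rfl⟩
  obtain ⟨X1, hX1⟩ : ∃ X1, X1 = w true * NUMF.P x.im * Fil.cv true η x.im := ⟨_, rfl⟩
  obtain ⟨X2, hX2⟩ : ∃ X2, X2 = w false * NUMF.P x.im * Fil.cv false η x.im := ⟨_, rfl⟩
  obtain ⟨Z, hZ⟩ : ∃ Z, Z = m * NUMF.P z.im * η z.im := ⟨_, rfl⟩
  obtain ⟨O, hO⟩ : ∃ O, O = m * NUMF.P 0 * η 0 := ⟨_, rfl⟩
  obtain ⟨X, hX⟩ : ∃ X, X = m * NUMF.P x.im * η x.im := ⟨_, rfl⟩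
  rw [← hI1, ← hZ1, ← hO1, ← hX1] at k1
  rw [← hI2, ← hZ2, ← hO2, ← hX2] at k2
  rw [← hZ1, ← hZ] at z1
  rw [← hZ2, ← hZ] at z2
  rw [← hO1, ← hO] at o1
  rw [← hO2, ← hO] at o2
  rw [← hX1, ← hX] at x1
  rw [← hX2, ← hX] at x2
  rw [← hI1, ← hI2, ← hZ, ← hO]
  obtain ⟨δ, hδ⟩ : ∃ δ, δ = K * Cp / 100 := ⟨_, rfl⟩
  have hδ0 : 0 ≤ δ := by rw [hδ]; positivity
  rw [← hδ] at z1 z2 o1 o2 x1 x2
  have hbb : Fil.b (!false) = Fil.b true := rfl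
  have hbb' : Fil.b (!true) = Fil.b false := rfl
  rw [hbb'] at k1
  rw [hbb] at k2
  have e : I1 + I2 - (w true * LamH true z x + w false * LamH false z x - 12 * l * Z +
      24 * κ * l * O) =
      (I1 - (w true * LamH true z x - 6 * l * Z1 + 12 * κ * l * O1 +
        4 * (Fil.b true - Fil.b false) * x.re * X1)) +
      (I2 - (w false * LamH false z x - 6 * l * Z2 + 12 * κ * l * O2 +
        4 * (Fil.b false - Fil.b true) * x.re * X2)) +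
      (-(6 * l) * ((Z1 - Z) + (Z2 - Z)) + 12 * l * (κ * ((O1 - O) + (O2 - O))) +
        4 * ((Fil.b true - Fil.b false) * x.re) * ((X1 - X) - (X2 - X))) := by ring
  rw [e]
  have t1 : |-(6 * l) * ((Z1 - Z) + (Z2 - Z))| ≤ 6 * l * (2 * δ) := by
    rw [abs_mul, abs_neg, abs_of_pos (by positivity : 0 < 6 * l)]
    refine mul_le_mul_of_nonneg_left ((abs_add_le _ _).trans (by (clear * - z2 z1; linarith))) (by positivity)
  have t2 : |12 * l * (κ * ((O1 - O) + (O2 - O)))| ≤ 12 * l * (2 * (2 * δ)) := by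
    rw [abs_mul, abs_of_pos (by positivity : 0 < 12 * l), abs_mul]
    refine mul_le_mul_of_nonneg_left ?_ (by positivity)
    exact mul_le_mul hκ ((abs_add_le _ _).trans (by (clear * - o2 o1; linarith))) (abs_nonneg _) (by norm_num)
  have t3 : |4 * ((Fil.b true - Fil.b false) * x.re) * ((X1 - X) - (X2 - X))| ≤
      4 * (Fil.q * (l / 2)) * (2 * δ) := by
    rw [abs_mul, abs_mul, abs_of_pos (by norm_num : (0 : ℝ) < 4), abs_mul]
    have h1 : |Fil.b true - Fil.b false| ≤ Fil.q := by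
      rw [Fil.b_true, Fil.b_false, abs_le]
      constructor <;> (clear * - hl hll hpi hq; linarith)
    have h2 := mul_le_mul h1 hx (abs_nonneg _) (by (clear * - hl hll hpi hq; linarith))
    have h3 : |X1 - X - (X2 - X)| ≤ 2 * δ := (abs_sub _ _).trans (by (clear * - x2 x1; linarith))
    exact mul_le_mul (mul_le_mul_of_nonneg_left h2 (by norm_num)) h3 (abs_nonneg _) (by positivity)
  have hfin : 6 * l * (2 * δ) + 12 * l * (2 * (2 * δ)) + 4 * (Fil.q * (l / 2)) * (2 * δ) ≤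
      100 * (Fil.q : ℝ) * (K * Cp) := by
    have h1 : l ≤ 1 / 2 := by (clear * - hll hpi; linarith)
    have h2 : 0 ≤ K * Cp := by positivity
    have h3 : l * δ ≤ 1 / 2 * δ := mul_le_mul_of_nonneg_right h1 hδ0
    have h4 : (Fil.q : ℝ) * (l * δ) ≤ Fil.q * (1 / 2 * δ) :=
      mul_le_mul_of_nonneg_left h3 (by (clear * - hl hll hpi hq; linarith))
    have h5 : δ ≤ Fil.q * δ := le_mul_of_one_le_left hδ0 hq
    have h6 : (Fil.q : ℝ) * δ = Fil.q * (K * Cp) / 100 := by rw [hδ]; ring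
    have h7 : 0 ≤ (Fil.q : ℝ) * (K * Cp) := by positivity
    clear * - hδ0 h3 h4 h5 h6
    nlinarith
  rw [abs_le] at k1 k2 t1 t2 t3 ⊢
  constructor <;> (clear * - k1 k2 t1 t2 t3 hfin; linarith [k1.1, k1.2, k2.1, k2.2, t1.1, t1.2, t2.1, t2.2, t3.1, t3.2])

/-- **both species, the weights `b a m`** -/
theorem exists_HDq {e1 Cc : ℝ} (he : 0 < e1) (he1 : e1 ≤ 1) (hCc : 0 ≤ Cc) :
    ∃ C : ℝ, 1 ≤ C ∧ ∀ (m : ℕ) (η η1 : ℝ → ℝ), 1 ≤ m → PotH.PLX.CrvP e1 Cc m η η1 →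
    (∀ t, |NUSea.PLX.hd m η η1 t| ≤ 1) → ∀ (κ : ℝ) (z x : ℂ), |κ| ≤ 2 → -(9 / 10 * l) ≤ z.re →
      z.re ≤ 37 / 10 * l → |x.re| ≤ l / 2 →
      (∀ a, Integrable fun t => (Fil.b a * m) * NUMF.P t * Hleg κ z x η a t) ∧
      |(∑ a, ∫ t, (Fil.b a * m) * NUMF.P t * Hleg κ z x η a t) -
        ((∑ a, Fil.b a * m * LamH a z x) - 12 * l * (m * NUMF.P z.im * η z.im) +
          24 * κ * l * (m * NUMF.P 0 * η 0))| ≤ C := by
  obtain ⟨C, hC, H⟩ := exists_HDw he he1 hCc (le_refl (0 : ℝ))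
  refine ⟨C, hC, fun m η η1 hm hcv hA κ z x hκ hz1 hz2 hx => ?_⟩
  exact H m η η1 hm hcv hA (fun a => Fil.b a * m)
    (fun a => mul_nonneg (Fil.b_nonneg a) (Nat.cast_nonneg m)) (fun a => by
      rw [mul_div_cancel_left₀ _ (Fil.b_ne a), sub_self, abs_zero]) κ z x hκ hz1 hz2 hx

/-- **both species, the numbers `sN m a` of rows** -/
theorem exists_HDs [Ends] {e1 Cc : ℝ} (he : 0 < e1) (he1 : e1 ≤ 1) (hCc : 0 ≤ Cc) :
    ∃ C : ℝ, 1 ≤ C ∧ ∀ (m : ℕ) (η η1 : ℝ → ℝ), 1 ≤ m → PotH.PLX.CrvP e1 Cc m η η1 →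
    (∀ t, |NUSea.PLX.hd m η η1 t| ≤ 1) → ∀ (κ : ℝ) (z x : ℂ), |κ| ≤ 2 → -(9 / 10 * l) ≤ z.re →
      z.re ≤ 37 / 10 * l → |x.re| ≤ l / 2 →
      (∀ a, Integrable fun t => PotH.PLX.sN m a * NUMF.P t * Hleg κ z x η a t) ∧
      |(∑ a, ∫ t, PotH.PLX.sN m a * NUMF.P t * Hleg κ z x η a t) -
        ((∑ a, PotH.PLX.sN m a * LamH a z x) - 12 * l * (m * NUMF.P z.im * η z.im) +
          24 * κ * l * (m * NUMF.P 0 * η 0))| ≤ C := by
  obtain ⟨C, hC, H⟩ := exists_HDw he he1 hCc (Nat.cast_nonneg (α := ℝ) Fil.qo)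
  refine ⟨C, hC, fun m η η1 hm hcv hA κ z x hκ hz1 hz2 hx => ?_⟩
  exact H m η η1 hm hcv hA (PotH.PLX.sN m) (PotH.PLX.sN_nonneg m) (fun a => by
    have h := PotH.PLX.sN_div hm a
    rwa [PotH.PLX.sN_true hm] at h) κ z x hκ hz1 hz2 hx

end P0

end

end PBV.PLX
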