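import Pool.Agent.PLX.Ns
import Pool.Agent.PLX.PB.WardCf
import Pool.Agent.PLX.PB.LPoK
import Pool.Agent.PLX.PB.LogZ
import Pool.Agent.PLX.PB.UProps

/-!
# Plan B: the data of all fibres at the dislocated function (helper90)

* `logD_ZL`: `LogD` of the one body functions `ZL` (rows on the imaginary axis) and of the objects;
* `fibN_ZL`: `PBF.FibN` for `ZL` with arbitrary rows on the imaginary axis and legs at `z`, on the
  fixed curve `cr e1 J M`; `N` with `dN N = xn m` (`N = 2 m`);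
* **`fibN_fx`**: the instance at `fx j` (rows `mu1 j (I s)`, legs `I t`), `N = 2 (j + 1)`.
-/

set_option autoImplicit false
set_option linter.unusedSectionVars false

noncomputable section

open Complex MeasureTheory Finset
open PLX (Fil)

namespace PBFX.PLX

open NUP1 NUO NUP1S NUP1S.Ab NUGC NUGC.PLX PBF PBF.PLX PBLZ PBLZ.PLX

section cur

theorem QOk.mono {Z : Bool → Option O3 → ℂ → ℂ} {δ κ κ' : ℝ} {Q : ℤ} (h : QOk Z δ κ Q)
    (h0 : 0 < κ') (h1 : κ' ≤ κ) : QOk Z δ κ' Q where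
  kpos := h0
  m := h.m
  d := h.d
  b s := by
    obtain ⟨C, hC, hb⟩ := h.b s
    refine ⟨C, hC, fun z hz => (hb z hz).trans (mul_le_mul_of_nonneg_left ?_ hC)⟩
    refine Real.exp_le_exp.2 (mul_le_mul_of_nonneg_right ?_ (abs_nonneg _))
    linarith

theorem re_pm : ∀ w ∈ ([I, -I] : List ℂ), w.re = 0 := by
  intro w hw
  simp only [List.mem_cons, List.not_mem_nil, or_false] at hw
  rcases hw with rfl | rfl <;> simp

theorem mu1_re (j : ℕ) (s : ℝ) (i : Fin (j + 1)) : (PBL.PLX.mu1 j (I * s) i).re = 0 := by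
  refine Fin.cases ?_ (fun k => ?_) i
  · simp [PBL.PLX.mu1]
  · simp [PBL.PLX.mu1]

theorem mcr_cr' [NUSea.Sea] (e1 J : ℝ) (M : ℕ) : MCr (PBU.PLX.cr e1 J M) (PBU.PLX.cr' e1 J M) := by
  constructor
  · intro r
    exact (etaC_contDiff e1 J M M 0).continuous.measurable.comp measurable_snd
  · intro r
    exact (etaC'_cont e1 J M M).measurable.comp measurable_snd

end cur

variable [Fil]

/-- **`LogD` of the dislocated function** -/
theorem logD_ZL {ep : ℝ} (h0 : 0 < ep) (h1 : ep ≤ 1 / 100) {m : ℕ} (hm : 0 < m) {x : Fin m → ℂ}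
    (hx : ∀ i, (x i).re = 0) {W : List ℂ} (hW : ∀ w ∈ W, w.re = 0) (W0 : List ℂ) {p : ℂ}
    (hp : |p.re| ≤ l / 2) {P : NUO.Par} (hP : NUGC.PLX.ParC P) :
    LogD (PBX.PLX.ZL (4 / 3 * (1 - ep)) x W W0 p) P (ep / 4)
      (fun u => LZX u (4 / 3 * (1 - ep)) x W p) (LPo P) := by
  have h : LogD (fun a => Pool.Agent.PLX.XXU (Leg.cc (cond a m (Fil.q * m))) (4 / 3 * (1 - ep))
      (Pool.Agent.PLX.rwq x a) (Pool.Agent.PLX.rwq x (!a))
      (PBX.gP (4 / 3 * (1 - ep)) W) (PBX.gP (4 / 3) W0) (PBX.Lg p p)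
      (fun w => PBX.Lg p p w * PBX.Lg p p (w - l))) P (ep / 4)
      (fun u => LZX u (4 / 3 * (1 - ep)) x W p) (LPo P) :=
    LogD_XX (lzOk_std h0 h1 hm hx hW hp) (fun a => Leg.cc (cond a m (Fil.q * m)))
      (fun _ => PBX.gP (4 / 3) W0)
      (fun _ w => PBX.Lg p p w * PBX.Lg p p (w - l))
      (fun r O s z hz => PBF.PLX.hasDerivAt_potC hP O s (by linarith) hz)
      (fun r O s => measurable_LPo P r O s)
      (fun r O => ⟨3 * cLP * r, fun s z hz => LPo_le hP O s (by linarith) hz⟩)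
  exact h

variable [NUSea.Sea]

/-- **the data of all fibres**: rows on the imaginary axis, legs `z`, any sea `ρ` -/
theorem fibN_ZL {ep e1 J : ℝ} (hep0 : 0 < ep) (hep : ep ≤ 1 / 100) (he : 0 < e1)
    (he1 : e1 ≤ 1 / 100) (hJ : 0 ≤ J) :
    ∃ m0 : ℕ, ∀ M ≥ m0, ∀ (m : ℕ) (x : Fin m → ℂ), 0 < m → (∀ i, (x i).re = 0) →
      ∀ W : List ℂ, (∀ w ∈ W, w.re = 0) → ∀ (W0 : List ℂ) (z : ℂ), |z.re| ≤ l / 2 →
      ∀ (ρ : ℂ → ℂ) (b0 b1 : ℝ), ep * l / 4 ≤ b0 → b0 < b1 → 2 * b1 ≤ l → PB.SeaF b1 ρ →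
      ∀ κ : ℕ → ℝ, (∀ n, 0 < κ n) → (∀ n, κ n ≤ 2 * (4 / 3 * (1 - ep))) →
      ∀ N : ℕ, dN N = Fil.xn m → FibN N (fun _ => PBX.PLX.ZL (4 / 3 * (1 - ep)) x W W0 z)
        (fun _ => NUSea.PLX.O.par0 M) (fun _ => PBU.PLX.cr e1 J M) (fun _ => PBU.PLX.cr' e1 J M)
        (ep / 4) 0 b0 b1 κ (fun _ u => LZX u (4 / 3 * (1 - ep)) x W z)
        (fun _ => LPo (NUSea.PLX.O.par0 M)) ρ := by
  have hl := Bd.l_pos
  obtain ⟨m0, -, H⟩ := curOKC he he1 hJ hep0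
  refine ⟨m0, fun M hM m x hm hx W hW W0 z hz ρ b0 b1 hb0 hb01 hb1l hρ κ hκ0 hκ N hN => ?_⟩
  have hC := H M hM M (by have : (0:ℝ) ≤ M := Nat.cast_nonneg M; linarith)
  have hP : NUGC.PLX.ParC (NUSea.PLX.O.par0 M) := PBX.PLX.ParC_par0 M
  have hrw : PBX.Rws x := by
    intro i
    rw [hx i, abs_zero]
    positivity
  have hex : ∀ w ∈ W, |w.re| ≤ l / 2 := by
    intro w hw
    rw [hW w hw, abs_zero]
    positivity
  have hz' := abs_le.1 hz
  have hone := PBX.PLX.oneC_ZL (ep := ep) (β := 4 / 3 * (1 - ep)) (x0 := 19 / 20 * l) (by linarith)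
    le_rfl hP hep0 hep (by linarith) (by linarith) hrw hex W0 (z := z) (by linarith) (by linarith)
  have hq := QOk.of_oneC hone
  have hmc := mcr_cr' e1 J M
  exact {
    hQ := fun n _ => by
      rw [hN]
      exact QOk.mono hq (hκ0 n) (hκ n)
    hP := fun n _ => hP.goodP
    hj := fun n _ => by
      show (9 / 4 : ℝ) + ep / 4 < 3
      linarith
    hδ0 := by linarith
    hδ1 := by linarith
    crv := fun n _ r O => crvR_of hep0 hep hC
    hL := fun n _ => logD_ZL hep0 hep hm hx hW W0 hz hP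
    hs := fun n _ => InS.of fun r O t => (hC.h1 t).trans hb0
    b1p := lt_of_le_of_lt (by positivity) (lt_of_le_of_lt hb0 hb01)
    b01 := hb01
    b1l := hb1l
    sea := hρ
    mc := fun n _ => hmc
    mZ := fun n _ => MC.of hP.rm (fun s k => PBX.PLX.measurable_ZL _ _ _ _ _ s k) hmc
    mP := fun n _ r s => PBWP.PLX.meas_LPo2 (NUSea.PLX.O.par0 M) r (hP.rm r) s }

/-- **the data of all fibres of `fx j`**: rows `I s, 0, .., 0`, legs `I t`, on the curve of order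
`j + 1`, any sea `ρ` -/
theorem fibN_fx {ep e1 J : ℝ} (hep0 : 0 < ep) (hep : ep ≤ 1 / 100) (he : 0 < e1)
    (he1 : e1 ≤ 1 / 100) (hJ : 0 ≤ J) :
    ∃ j0 : ℕ, ∀ j ≥ j0, ∀ (s t : ℝ) (ρ : ℂ → ℂ) (b0 b1 : ℝ), ep * l / 4 ≤ b0 → b0 < b1 →
      2 * b1 ≤ l → PB.SeaF b1 ρ →
      ∀ κ : ℕ → ℝ, (∀ n, 0 < κ n) → (∀ n, κ n ≤ 2 * (4 / 3 * (1 - ep))) →
      FibN (2 * (j + 1))
        (fun _ => PBX.PLX.ZL (4 / 3 * (1 - ep)) (PBL.PLX.mu1 j (I * s)) [I, -I] [] (I * t))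
        (fun _ => NUSea.PLX.O.par0 (j + 1)) (fun _ => PBU.PLX.cr e1 J (j + 1))
        (fun _ => PBU.PLX.cr' e1 J (j + 1)) (ep / 4) 0 b0 b1 κ
        (fun _ u => LZX u (4 / 3 * (1 - ep)) (PBL.PLX.mu1 j (I * s)) [I, -I] (I * t))
        (fun _ => LPo (NUSea.PLX.O.par0 (j + 1))) ρ := by
  have hl := Bd.l_pos
  obtain ⟨m0, H⟩ := fibN_ZL hep0 hep he he1 hJ
  refine ⟨m0, fun j hj s t ρ b0 b1 hb0 hb01 hb1l hρ κ hκ0 hκ => ?_⟩
  refine H (j + 1) (by omega) (j + 1) (PBL.PLX.mu1 j (I * s)) (by omega) (mu1_re j s) [I, -I] re_pm []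
    (I * t) ?_ ρ b0 b1 hb0 hb01 hb1l hρ κ hκ0 hκ (2 * (j + 1)) (dN_two _)
  simp
  positivity

end PBFX.PLX

end
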