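import Pool.Agent.PLX.Ns
import Pool.Agent.PLX.PB.ObResp
import Pool.Agent.PLX.PB.StatN
import Pool.Agent.PLX.PB.WardFy

/-!
# Plan B: the step statistic and the objects (minus channel), two fillings

Port of `PB/ObStep`: `ρ` = density of a one-fold row; the statistics `Vm`, `Vp`, `SN` of the quanta are
centred at the rows of the two species (`Fil.b s * ρ`).

* `sgC_lim`, `sgU_near`: the analytic step against the sign;
* **`obT_lim`**: the step statistic of an object `x` is `(chg true x - chg false x) sgn (ht x)` up to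
  `16 e^{4 l/100} e^{-4 |ht x|}`; `stO_sg_le`: `‖stO sgD‖ ≤ CS r`;
* **`stepO`**: `stO sgD + ∑ i, kapO β` is pinned if `∫ β true = 1/4 = -∫ β false`;
  **`kapO_pin`**: `∑ i, kapO β` is pinned if `∫ β b = 0`;
* `Vm_evN`, `Vp_evN`, `stA_sg`, `SN_eq`: the statistics `Vm`, `Vp`, `SN` of `StatN` in terms of `Vy`;
  `InsD.sn`: `InsD` of `SN`; `fldF_sg`, `fldF_TC`.
-/

set_option autoImplicit false
set_option linter.unusedSectionVars false

noncomputable section

open Complex MeasureTheory Finset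
open scoped ENNReal
open PLX (Fil)

namespace PBOR.PLX

open NUP1 NUO NUP1S NUP1S.Ab PBF PBF.PLX PBOb PBOb.PLX PB.NX
open PBI (Stt Kd)

/-! ### the analytic step against the sign -/

theorem sgC_lim {z : ℂ} (hz : |z.im| ≤ Real.pi / 8) :
    ‖sgC z - (sgn z.re : ℂ)‖ ≤ 2 * Real.exp (-(4 * |z.re|)) := by
  have e : -(4 * |z.re|) = -4 * |z.re| := by ring
  rw [e]
  unfold sgn
  split_ifs with h
  · have h1 := norm_one_sub_sgC hz h
    rw [← norm_neg] at h1
    have e2 : sgC z - ((1 : ℝ) : ℂ) = -(1 - sgC z) := by push_cast; ring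
    rw [e2]
    exact h1
  · have h1 := norm_one_add_sgC hz (le_of_lt (not_le.1 h))
    have e2 : sgC z - ((-1 : ℝ) : ℂ) = 1 + sgC z := by push_cast; ring
    rw [e2]
    exact h1

theorem sgC_le {z : ℂ} (hz : |z.im| ≤ Real.pi / 8) : ‖sgC z‖ ≤ 3 := by
  have h1 := sgC_lim hz
  have h2 : ‖((sgn z.re : ℝ) : ℂ)‖ = 1 := by
    rw [Complex.norm_real, Real.norm_eq_abs, abs_sgn]
  have h3 : 2 * Real.exp (-(4 * |z.re|)) ≤ 2 := by
    have : Real.exp (-(4 * |z.re|)) ≤ 1 := Real.exp_le_one_iff.2 (by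
      have := abs_nonneg z.re; linarith)
    linarith
  have h4 := norm_le_norm_add_norm_sub' (sgC z) ((sgn z.re : ℝ) : ℂ)
  linarith

/-- a constituent near the height `b` -/
theorem sgU_near {u : ℂ} {b d : ℝ} (hu : |l - u.re| ≤ l) (h : |u.im - b| ≤ d) :
    ‖sgU u - (sgn b : ℂ)‖ ≤ 4 * Real.exp (4 * d) * Real.exp (-(4 * |b|)) := by
  have ha : (-I * (u - l)).re = u.im ∧ (-I * (u - l)).im = l - u.re := sgU_arg u
  have h1 := sgC_lim (z := -I * (u - l)) (by
    rw [ha.2]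
    have : Real.pi / 8 = l := rfl
    rw [this]
    exact hu)
  rw [ha.1] at h1
  have h2 : Real.exp (-(4 * |u.im|)) ≤ Real.exp (4 * d) * Real.exp (-(4 * |b|)) := by
    rw [← Real.exp_add, Real.exp_le_exp]
    have := abs_sub_abs_le_abs_sub b u.im
    rw [abs_sub_comm] at this
    linarith
  have h3 : |sgn u.im - sgn b| ≤ 2 * (Real.exp (4 * d) * Real.exp (-(4 * |b|))) := by
    by_cases hc : |b| ≤ d
    · have h4 : |sgn u.im - sgn b| ≤ 2 := by
        have := abs_sgn u.im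
        have := abs_sgn b
        have := abs_sub (sgn u.im) (sgn b)
        linarith
      have h5 : 1 ≤ Real.exp (4 * d) * Real.exp (-(4 * |b|)) := by
        rw [← Real.exp_add]
        exact Real.one_le_exp (by linarith)
      linarith
    · rw [not_le] at hc
      have h0 : sgn u.im = sgn b := by
        obtain ⟨h4, h5⟩ := abs_le.1 h
        unfold sgn
        rcases lt_abs.1 hc with h6 | h6
        · rw [if_pos (by linarith), if_pos (by linarith [abs_nonneg (u.im - b)])]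
        · rw [if_neg (by linarith), if_neg (by linarith [abs_nonneg (u.im - b)])]
      rw [h0, sub_self, abs_zero]
      positivity
  have e : sgU u - (sgn b : ℂ) = (sgC (-I * (u - l)) - (sgn u.im : ℂ)) +
      ((sgn u.im - sgn b : ℝ) : ℂ) := by
    unfold sgU
    push_cast
    ring
  rw [e]
  refine (norm_add_le _ _).trans ?_
  rw [Complex.norm_real, Real.norm_eq_abs]
  linarith

/-! ### the step statistic of an object -/

theorem qb_none (s : Bool) : qb (s, none) = eM s := by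
  cases s <;> simp [qb, PBI.co, sc, ob4, Bd.chg, eM]

theorem qb_L (s : Bool) : qb (s, some .L) = eM s := by
  cases s <;> simp [qb, PBI.co, sc, ob4, ob3, Bd.chg, eM]

theorem qb_T (s : Bool) : qb (s, some .T) = 2 * eM s := by
  cases s <;> simp [qb, PBI.co, sc, ob4, ob3, Bd.chg, eM]

theorem qb_S (s : Bool) : qb (s, some .S) = 2 * eM s := by
  cases s <;> simp [qb, PBI.co, sc, ob4, ob3, Bd.chg, eM]

theorem norm_eM (s : Bool) : ‖eM s‖ = 1 := by cases s <;> simp [eM]

theorem sgD_near {s : Bool} {k : Option O3} {u : ℂ} {b d : ℝ}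
    (hu : |l - (u.re + sh k)| ≤ l) (h : |u.im - b| ≤ d) :
    ‖sgD s k u - qb (s, k) * (sgn b : ℂ)‖ ≤
      ‖qb (s, k)‖ * (4 * Real.exp (4 * d) * Real.exp (-(4 * |b|))) := by
  unfold sgD
  rw [← mul_sub, norm_mul]
  refine mul_le_mul_of_nonneg_left (sgU_near ?_ ?_) (norm_nonneg _)
  · rw [pf_re]
    exact hu
  · rw [pf_im]
    exact h

theorem abs_le_l {x : ℝ} (h1 : 0 ≤ x) (h2 : x ≤ 2 * l) : |l - x| ≤ l := by
  rw [abs_le]
  constructor <;> linarith

section one

variable {e ρ : ℝ} (he : 1 / 4 ≤ e) (he' : e ≤ 3 / 10) (hρ : 0 ≤ ρ) (hρ' : ρ ≤ l / 100)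
include he he' hρ hρ'

/-- **the step statistic of an object** -/
theorem obT_lim (x : Xo) :
    ‖obT sgD (9 / 4) e ρ x - ((chg true x : ℂ) - (chg false x : ℂ)) * (sgn (ht x) : ℂ)‖ ≤
      16 * Real.exp (4 * (l / 100)) * Real.exp (-(4 * |ht x|)) := by
  have hl := Bd.l_pos
  have hp := parts_ok he he' hρ hρ' x
  obtain ⟨⟨sx, k⟩, t, a⟩ := x
  set E := 4 * Real.exp (4 * (l / 100)) * Real.exp (-(4 * |t|)) with hE
  have hE0 : 0 < E := by positivity
  have hS : ∀ s, ‖sgD s (some .S) (posS e t) - qb (s, some .S) * (sgn t : ℂ)‖ ≤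
      ‖qb (s, some O3.S)‖ * E := by
    intro s
    refine sgD_near ?_ ?_
    · have h1 : (posS e t).re = -((1 + e) * l) := vl_re _ _
      rw [h1, sh_some]
      exact abs_le_l (by (clear * - hl he' hρ hρ'; nlinarith)) (by (clear * - hl he hρ hρ'; nlinarith))
    · have h1 : (posS e t).im = t := vl_im _ _
      rw [h1, sub_self, abs_zero]
      positivity
  have hV : ∀ s, ∀ u : ℂ, OkPos (s, false, u) → 0 ≤ u.re → |u.im - t| ≤ l / 100 →
      ‖sgD s none u - qb (s, none) * (sgn t : ℂ)‖ ≤ ‖qb (s, none)‖ * E := by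
    intro s u h1 h0 h2
    refine sgD_near ?_ h2
    rw [sh_none, add_zero]
    refine abs_le_l h0 ?_
    rcases h1 with ⟨-, h1 | h1⟩ | ⟨h1, -⟩
    · simp only at h1; linarith
    · simp only at h1; (clear * - hl h1; linarith [h1.2])
    · simp at h1
  have q1 : ∀ s, ‖qb (s, none)‖ = 1 := by
    intro s; rw [qb_none, norm_eM]
  have q2 : ∀ s, ‖qb (s, some O3.L)‖ = 1 := by
    intro s; rw [qb_L, norm_eM]
  have q3 : ∀ s, ‖qb (s, some O3.T)‖ = 2 := by
    intro s; rw [qb_T, norm_mul, norm_eM]; simp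
  have q4 : ∀ s, ‖qb (s, some O3.S)‖ = 2 := by
    intro s; rw [qb_S, norm_mul, norm_eM]; simp
  have e16 : 16 * Real.exp (4 * (l / 100)) * Real.exp (-(4 * |t|)) = 4 * E := by
    rw [hE]; ring
  simp only [ht]
  rw [e16]
  cases k
  · -- L
    have h1 : ‖sgD sx (some .L) (posL (9 / 4) t) - qb (sx, some .L) * (sgn t : ℂ)‖ ≤
        ‖qb (sx, some O3.L)‖ * E := by
      refine sgD_near ?_ ?_
      · have h1 : (posL (9 / 4) t).re = (1 - 9 / 4) * l := vl_re _ _
        rw [h1, sh_some]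
        exact abs_le_l (by (clear * - hl; nlinarith)) (by (clear * - hl; nlinarith))
      · have h1 : (posL (9 / 4) t).im = t := vl_im _ _
        rw [h1, sub_self, abs_zero]
        positivity
    rw [q2] at h1
    have e2 : obT sgD (9 / 4) e ρ ((sx, Kind.L), t, a) -
        ((chg true ((sx, Kind.L), t, a) : ℂ) - (chg false ((sx, Kind.L), t, a) : ℂ)) *
          (sgn t : ℂ) = sgD sx (some .L) (posL (9 / 4) t) - qb (sx, some .L) * (sgn t : ℂ) := by
      rw [qb_L]
      cases sx <;> simp [obT, chg, eM]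
    rw [e2]
    linarith
  · -- St
    have h1 : ‖sgD sx (some .T) (posT t) - qb (sx, some .T) * (sgn t : ℂ)‖ ≤
        ‖qb (sx, some O3.T)‖ * E := by
      refine sgD_near ?_ ?_
      · have h1 : (posT t).re = -(1 / 2 * l) := vl_re _ _
        rw [h1, sh_some]
        exact abs_le_l (by (clear * - hl; nlinarith)) (by (clear * - hl; nlinarith))
      · have h1 : (posT t).im = t := vl_im _ _
        rw [h1, sub_self, abs_zero]
        positivity
    rw [q3] at h1
    have e2 : obT sgD (9 / 4) e ρ ((sx, Kind.St), t, a) -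
        ((chg true ((sx, Kind.St), t, a) : ℂ) - (chg false ((sx, Kind.St), t, a) : ℂ)) *
          (sgn t : ℂ) = sgD sx (some .T) (posT t) - qb (sx, some .T) * (sgn t : ℂ) := by
      rw [qb_T]
      cases sx <;> simp [obT, chg, eM]
    rw [e2]
    linarith
  · -- S
    have h1 := hS sx
    rw [q4] at h1
    have e2 : obT sgD (9 / 4) e ρ ((sx, Kind.S), t, a) -
        ((chg true ((sx, Kind.S), t, a) : ℂ) - (chg false ((sx, Kind.S), t, a) : ℂ)) *
          (sgn t : ℂ) = sgD sx (some .S) (posS e t) - qb (sx, some .S) * (sgn t : ℂ) := by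
      rw [qb_S]
      cases sx <;> simp [obT, chg, eM]
    rw [e2]
    clear * - E hE0 h1
    linarith
  · -- Sv
    have h1 := hS sx
    rw [q4] at h1
    have hp' := hp (!sx, false, posV e ρ t a) (by simp [parts])
    have h0 : 0 ≤ (posV e ρ t a).re := by
      rcases hp'.1 with ⟨-, h3 | h3⟩ | ⟨h3, -⟩
      · simp only at h3
        have hn : ‖(ρ : ℂ) * Complex.exp (2 * Real.pi * a * I)‖ ≤ l / 100 := by
          rw [norm_mul, Complex.norm_real, Real.norm_eq_abs, abs_of_nonneg hρ]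
          have : (2 * Real.pi * a * I : ℂ) = ((2 * Real.pi * a : ℝ) : ℂ) * I := by
            push_cast; ring
          rw [this, Complex.norm_exp_ofReal_mul_I, mul_one]
          exact hρ'
        have h4 := (abs_le.1 ((Complex.abs_re_le_norm _).trans hn)).1
        have e1 : (posV e ρ t a).re = -((1 + e) * l) + 2 * l +
            ((ρ : ℂ) * Complex.exp (2 * Real.pi * a * I)).re := by
          have hr : (posS e t).re = -((1 + e) * l) := vl_re _ _
          unfold posV; rw [add_re, add_re, hr]; simp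
        rw [e1]
        clear * - hl h3 h4 e1 he' hρ hρ'
        nlinarith
      · simp only at h3; (clear * - hl h3; linarith [h3.1])
      · simp at h3
    have h2 := hV (!sx) (posV e ρ t a) hp'.1 h0 hp'.2
    rw [q1] at h2
    have e2 : obT sgD (9 / 4) e ρ ((sx, Kind.Sv), t, a) -
        ((chg true ((sx, Kind.Sv), t, a) : ℂ) - (chg false ((sx, Kind.Sv), t, a) : ℂ)) *
          (sgn t : ℂ) = (sgD sx (some .S) (posS e t) - qb (sx, some .S) * (sgn t : ℂ)) +
          (sgD (!sx) none (posV e ρ t a) - qb (!sx, none) * (sgn t : ℂ)) := by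
      rw [qb_S, qb_none]
      have eo : obT sgD (9 / 4) e ρ ((sx, Kind.Sv), t, a) = sgD sx (some .S) (posS e t) +
          sgD (!sx) none (posV e ρ t a) := rfl
      rw [eo]
      cases sx <;> simp only [chg, eM, Bool.not_true, Bool.not_false, if_true,
        Bool.false_eq_true, if_false, reduceCtorEq] <;> push_cast <;> ring
    rw [e2]
    refine (norm_add_le _ _).trans ?_
    clear * - E hE0 h1 h2
    linarith
  · -- Svv
    have h1 := hS sx
    rw [q4] at h1
    have hp' := hp (!sx, false, posS e t + 2 * l) (by simp [parts])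
    have hr : (posS e t + 2 * l).re = -((1 + e) * l) + 2 * l := by
      have hr : (posS e t).re = -((1 + e) * l) := vl_re _ _
      rw [add_re, hr]; simp
    have h2 := hV (!sx) (posS e t + 2 * l) hp'.1 (by rw [hr]; (clear * - hl he' hρ hρ'; nlinarith)) hp'.2
    rw [q1] at h2
    have e2 : obT sgD (9 / 4) e ρ ((sx, Kind.Svv), t, a) -
        ((chg true ((sx, Kind.Svv), t, a) : ℂ) - (chg false ((sx, Kind.Svv), t, a) : ℂ)) *
          (sgn t : ℂ) = (sgD sx (some .S) (posS e t) - qb (sx, some .S) * (sgn t : ℂ)) +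
          2 * (sgD (!sx) none (posS e t + 2 * l) - qb (!sx, none) * (sgn t : ℂ)) := by
      rw [qb_S, qb_none]
      have eo : obT sgD (9 / 4) e ρ ((sx, Kind.Svv), t, a) = sgD sx (some .S) (posS e t) +
          2 * sgD (!sx) none (posS e t + 2 * l) := rfl
      rw [eo]
      cases sx <;> simp only [chg, eM, Bool.not_true, Bool.not_false, if_true,
        Bool.false_eq_true, if_false, reduceCtorEq] <;> push_cast <;> ring
    rw [e2]
    refine (norm_add_le _ _).trans ?_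
    rw [norm_mul, Complex.norm_ofNat]
    clear * - E h1 h2
    linarith

end one

/-! ### the objects of a configuration -/

variable {r : ℕ}

/-- constant of the step statistic of an object -/
def CS : ℝ := 2 + 16 * Real.exp (4 * (l / 100))

theorem CS_pos : 0 < CS := by unfold CS; positivity

theorem chg_diffR (x : Xo) : ‖((chg true x : ℂ) - (chg false x : ℂ)) * (sgn (ht x) : ℂ)‖ ≤ 2 := by
  have h := chg_diff true x
  rw [norm_mul, Complex.norm_real, Real.norm_eq_abs, abs_sgn, mul_one]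
  exact h

theorem obT_le {e ρ : ℝ} (he : 1 / 4 ≤ e) (he' : e ≤ 3 / 10) (hρ : 0 ≤ ρ) (hρ' : ρ ≤ l / 100)
    (x : Xo) : ‖obT sgD (9 / 4) e ρ x‖ ≤ CS := by
  have h1 := obT_lim he he' hρ hρ' x
  have h2 := chg_diffR x
  have h3 := norm_le_norm_add_norm_sub' (obT sgD (9 / 4) e ρ x)
    (((chg true x : ℂ) - (chg false x : ℂ)) * (sgn (ht x) : ℂ))
  have h4 : 16 * Real.exp (4 * (l / 100)) * Real.exp (-(4 * |ht x|)) ≤
      16 * Real.exp (4 * (l / 100)) * 1 :=
    mul_le_mul_of_nonneg_left (Real.exp_le_one_iff.2 (by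
      have := abs_nonneg (ht x); (clear * - this; linarith))) (by positivity)
  unfold CS
  clear * - h1 h2 h3 h4
  linarith

theorem stO_sg_le {P : Par} {O : Fin r → Xo} (h : PO P O) : ‖stO sgD P O‖ ≤ CS * r := by
  unfold stO
  refine (norm_sum_le _ _).trans ?_
  rw [h.jL]
  refine (Finset.sum_le_card_nsmul _ _ _ fun i _ =>
    obT_le (h.e1 i) (h.e2 i) (h.r1 i) (h.r2 i) (O i)).trans ?_
  rw [Finset.card_univ, Fintype.card_fin, nsmul_eq_mul, mul_comm]

/-- sum of the pins -/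
def pinR (a : ℝ) (O : Fin r → Xo) : ℝ := ∑ i, Real.exp (-(a * |ht (O i)|))

theorem pinR_nonneg (a : ℝ) (O : Fin r → Xo) : 0 ≤ pinR a O :=
  Finset.sum_nonneg fun _ _ => (Real.exp_pos _).le

theorem pinR_mono {a b : ℝ} (h : a ≤ b) (O : Fin r → Xo) : pinR b O ≤ pinR a O :=
  Finset.sum_le_sum fun i _ => Real.exp_le_exp.2 (by
    have := mul_le_mul_of_nonneg_right h (abs_nonneg (ht (O i)))
    linarith)

/-- **the response of the objects to a field without mass** -/
theorem kapO_pin {P : Par} {O : Fin r → Xo} (h : PO P O) {a M : ℝ} (ha : 0 < a) (ha2 : a < 2)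
    (hM : 0 ≤ M) {β : Bool → ℝ → ℂ} (hm : ∀ b, AEStronglyMeasurable (β b))
    (hβ : ∀ b t, ‖β b t‖ ≤ M * Real.exp (-(a * |t|)))
    (h0 : ∀ x : Xo, ∑ b, ((chg b x : ℂ) - (chg (!b) x : ℂ)) * ∫ t : ℝ, β b t = 0) :
    ‖∑ i, kapO P O i β‖ ≤ M * CK a * pinR a O := by
  unfold pinR
  rw [Finset.mul_sum]
  refine (norm_sum_le _ _).trans (Finset.sum_le_sum fun i _ => ?_)
  have h1 := kapO_lim h ha ha2 hM hm hβ i
  rw [h0, mul_zero, add_zero] at h1
  exact h1

/-- **the step: the statistic of the objects and the response cancel** -/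
theorem stepO {P : Par} {O : Fin r → Xo} (h : PO P O) {a M : ℝ} (ha : 0 < a) (ha2 : a < 2)
    (hM : 0 ≤ M) {β : Bool → ℝ → ℂ} (hm : ∀ b, AEStronglyMeasurable (β b))
    (hβ : ∀ b t, ‖β b t‖ ≤ M * Real.exp (-(a * |t|)))
    (h0 : ∀ b, ∫ t : ℝ, β b t = eM b * (1 / 4)) :
    ‖stO sgD P O + ∑ i, kapO P O i β‖ ≤ (CS + M * CK a) * pinR a O := by
  unfold stO pinR
  rw [← Finset.sum_add_distrib, Finset.mul_sum]
  refine (norm_sum_le _ _).trans (Finset.sum_le_sum fun i _ => ?_)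
  have h1 := kapO_lim h ha ha2 hM hm hβ i
  have h2 := obT_lim (h.e1 i) (h.e2 i) (h.r1 i) (h.r2 i) (O i)
  rw [h.jL]
  have e1 : 2 * (sgn (ht (O i)) : ℂ) * ∑ b, ((chg b (O i) : ℂ) - (chg (!b) (O i) : ℂ)) *
      ∫ t : ℝ, β b t = ((chg true (O i) : ℂ) - (chg false (O i) : ℂ)) *
        (sgn (ht (O i)) : ℂ) := by
    rw [Fintype.sum_bool, h0, h0]
    simp only [eM, Bool.not_true, Bool.not_false, if_true, Bool.false_eq_true, if_false]
    ring
  rw [e1] at h1
  have e2 : obT sgD (9 / 4) (ei P O i) (rr P O i) (O i) + kapO P O i β =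
      (obT sgD (9 / 4) (ei P O i) (rr P O i) (O i) -
        ((chg true (O i) : ℂ) - (chg false (O i) : ℂ)) * (sgn (ht (O i)) : ℂ)) +
      (kapO P O i β + ((chg true (O i) : ℂ) - (chg false (O i) : ℂ)) *
        (sgn (ht (O i)) : ℂ)) := by ring
  rw [e2]
  refine (norm_add_le _ _).trans ?_
  have h3 : Real.exp (-(4 * |ht (O i)|)) ≤ Real.exp (-(a * |ht (O i)|)) :=
    Real.exp_le_exp.2 (by
      have := mul_le_mul_of_nonneg_right (by (clear * - ha2; linarith) : a ≤ 4) (abs_nonneg (ht (O i)))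
      linarith)
  have h4 : 16 * Real.exp (4 * (l / 100)) * Real.exp (-(4 * |ht (O i)|)) ≤
      CS * Real.exp (-(a * |ht (O i)|)) := by
    refine mul_le_mul ?_ h3 (Real.exp_pos _).le CS_pos.le
    unfold CS
    linarith
  linarith

end PBOR.PLX

namespace PBF.PLX

open NUO NUP1 NUP1S NUP1S.Ab NUP1S.AbC NUGC NUGC.PLX NUCR PBOb PBOb.PLX
open PBI (Stt Kd)

/-! ### the statistics `Vm`, `Vp`, `SN` in terms of `Vy` -/

section stat

variable [Fil]

theorem hgt_pA (η : ℝ → ℝ) (t : ℝ) : hgt (NUO.pA η t) = zy 0 η t := by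
  have e : NUO.pA η t = NUP1.l + I * (zy 0 η t + I * ((0 : ℝ) : ℂ)) := pA_zy 0 η t
  rw [e]
  unfold hgt
  push_cast
  linear_combination (-(zy 0 η t)) * I_mul_I

theorem sum_zqy (η : Crs) (r : ℕ) (O : Fin r → Xo) {a b : ℕ} (x : (Fin a → ℝ) × (Fin b → ℝ))
    (g : Bool → ℂ → ℂ) : ∑ k, g (spQ a b k) (zqy 0 η r O x k) =
    ∑ i, g true (hgt (NUO.pA (Fil.cv true (η r O)) (x.1 i))) +
      ∑ j, g false (hgt (NUO.pA (Fil.cv false (η r O)) (x.2 j))) := by
  rw [Fintype.sum_sum_type]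
  simp only [zqy, Sum.elim_inl, Sum.elim_inr, hgt_pA, spQ]

/-- the sea of the rows: the species `s` has the density `Fil.b s * ρ` -/
theorem mean_rS2 (ρ : ℂ → ℂ) (ε : Bool → ℂ) (g : ℂ → ℂ) :
    ∑ s, ∫ u : ℝ, PB.rS2 ρ s u * (ε s * g (PB.eR u)) =
      ((Fil.b true : ℂ) * ε true + (Fil.b false : ℂ) * ε false) * ∫ u : ℝ, ρ u * g u := by
  have e : ∀ s : Bool, ∫ u : ℝ, PB.rS2 ρ s u * (ε s * g (PB.eR u)) =
      (Fil.b s : ℂ) * ε s * ∫ u : ℝ, ρ u * g u := by
    intro s
    rw [← integral_const_mul]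
    refine integral_congr_ae (Filter.Eventually.of_forall fun u => ?_)
    simp only [PB.rS2, PB.eR]
    ring
  rw [Fintype.sum_bool, e, e]
  ring

/-- the statistics of `StatN` -/
theorem stQ_qD (η : Crs) (ε : Bool → ℂ) (g : ℂ → ℂ) (ρ : ℂ → ℂ) (r : ℕ) (O : Fin r → Xo)
    (a b : ℕ) (x : (Fin a → ℝ) × (Fin b → ℝ)) :
    stQ (qD ε g) (η r O) a b x = Vy 0 η ρ (fun s z => ε s * g z) r O a b x +
      ((Fil.b true : ℂ) * ε true + (Fil.b false : ℂ) * ε false) * ∫ u : ℝ, ρ u * g u := by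
  rw [← mean_rS2 ρ ε g]
  unfold Vy PB.NX.nuL
  rw [sum_zqy η r O x (fun s z => ε s * g z)]
  unfold stQ qD
  simp only []
  ring

variable {N : ℕ}

/-- minus channel -/
theorem Vm_evN (ρ : ℂ → ℂ) (η : ℕ → Crs) (g : ℂ → ℂ) :
    (Vm (fun u => ρ u) η g : CfN N → ℂ) = evN fun n => Vy 0 (η n) ρ fun s z => eM s * g z := by
  funext ω
  have e : (Fil.b true : ℂ) * eM true + (Fil.b false : ℂ) * eM false =
      (Fil.b true : ℂ) - Fil.b false := by
    simp only [eM, if_true, Bool.false_eq_true, if_false]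
    ring
  show stQ (qD eM g) _ _ _ _ - _ = Vy 0 (η ω.1) ρ (fun s z => eM s * g z) _ _ _ _ _
  rw [stQ_qD (η ω.1) eM g ρ, e, add_sub_cancel_right]

/-- plus channel -/
theorem Vp_evN (ρ : ℂ → ℂ) (η : ℕ → Crs) (g : ℂ → ℂ) :
    (Vp (fun u => ρ u) η g : CfN N → ℂ) = evN fun n => Vy 0 (η n) ρ fun _ z => g z := by
  funext ω
  have e : (Fil.b true : ℂ) * eP true + (Fil.b false : ℂ) * eP false =
      (Fil.b true : ℂ) + Fil.b false := by
    simp only [eP, mul_one]
  have e2 : (fun s z => eP s * g z) = fun (_ : Bool) z => g z := by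
    funext s z
    simp only [eP, one_mul]
  show stQ (qD eP g) _ _ _ _ - _ = Vy 0 (η ω.1) ρ (fun _ z => g z) _ _ _ _ _
  rw [stQ_qD (η ω.1) eP g ρ, e, e2, add_sub_cancel_right]

/-- the step statistic of one configuration -/
theorem stA_sg (P : NUO.Par) (η : Crs) (ρ : ℂ → ℂ) (r : ℕ) (O : Fin r → Xo)
    (a b : ℕ) (x : (Fin a → ℝ) × (Fin b → ℝ)) :
    stA sgD P η r O a b x =
      Vy 0 η ρ (fun s z => eM s * PB.NX.sgC z) r O a b x + stO sgD P O +
        ((Fil.b true : ℂ) - Fil.b false) * ∫ u : ℝ, ρ u * PB.NX.sgC u := by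
  unfold stA
  have e : stQ sgD (η r O) a b x = stQ (qD eM PB.NX.sgC) (η r O) a b x := by
    unfold stQ
    simp only [sgD_nn, qD]
  rw [e, stQ_qD η eM _ ρ]
  simp only [eM, if_true, Bool.false_eq_true, if_false]
  ring

/-- the centred step statistic of one configuration -/
theorem stA_sg' (P : NUO.Par) (η : Crs) (ρ : ℂ → ℂ) (r : ℕ) (O : Fin r → Xo)
    (a b : ℕ) (x : (Fin a → ℝ) × (Fin b → ℝ)) :
    stA sgD P η r O a b x - ((Fil.b true : ℂ) - Fil.b false) * ∫ u : ℝ, ρ u * PB.NX.sgC u =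
      Vy 0 η ρ (fun s z => eM s * PB.NX.sgC z) r O a b x + stO sgD P O := by
  rw [stA_sg P η ρ]
  ring

/-- **the step** -/
theorem SN_eq (ρ : ℝ → ℂ) (P : NUO.Par) (η : ℕ → Crs) (ω : CfN N) :
    SN ρ P η ω = Vm ρ η PB.NX.sgC ω + VO sgD P ω := SN_Vm ρ P η ω

/-- the step as an insertion -/
theorem SN_evN (ρ : ℂ → ℂ) (P : NUO.Par) (η : ℕ → Crs) :
    (SN (fun u => ρ u) P η : CfN N → ℂ) = evN fun n r O a b x =>
      stA sgD P (η n) r O a b x -
        ((Fil.b true : ℂ) - Fil.b false) * ∫ u : ℝ, ρ u * PB.NX.sgC u := rfl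

end stat

/-! ### insertions -/

theorem fldF_sg {b1 : ℝ} (hb : b1 ≤ NUP1.l) : PB.FldF b1 fun s z => eM s * PB.NX.sgC z where
  d b z hz := (PB.NX.differentiableAt_sgC (z := z) (by
    have : Real.pi / 8 = NUP1.l := rfl
    rw [this]; linarith)).const_mul _
  bd := ⟨3, by norm_num, fun b z hz => by
    have h1 := PBOR.PLX.sgC_le (z := z) (by
      have : Real.pi / 8 = NUP1.l := rfl
      rw [this]; linarith)
    have h2 : ‖eM b‖ = 1 := by cases b <;> simp [eM]
    rw [norm_mul, h2, one_mul]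
    exact h1⟩

theorem TC_dAt {y₁ y₂ a M : ℝ} {g : ℂ → ℂ} (hg : PBE.TC y₁ y₂ a M g) {b1 : ℝ} (h1 : y₁ ≤ -b1)
    (h2 : b1 ≤ y₂) {z : ℂ} (hz : |z.im| < b1) : DifferentiableAt ℂ g z := by
  have h3 := abs_lt.1 hz
  have ho : IsOpen (PBE.Sp y₁ y₂) :=
    (isOpen_lt continuous_const Complex.continuous_im).inter
      (isOpen_lt Complex.continuous_im continuous_const)
  exact hg.an.differentiableAt (ho.mem_nhds ⟨by linarith, by linarith⟩)

theorem fldF_TC {y₁ y₂ a M : ℝ} {g : ℂ → ℂ} (hg : PBE.TC y₁ y₂ a M g) {b1 : ℝ} (h1 : y₁ ≤ -b1)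
    (h2 : b1 ≤ y₂) (ha : 0 ≤ a) (hM : 0 ≤ M) (ε : Bool → ℂ) (hε : ∀ s, ‖ε s‖ ≤ 1) :
    PB.FldF b1 fun s z => ε s * g z where
  d b z hz := (TC_dAt hg h1 h2 hz).const_mul _
  bd := ⟨M, hM, fun b z hz => by
    have h3 := abs_lt.1 hz
    have h4 := hg.bd z ⟨by linarith, by linarith⟩
    have h5 : M * Real.exp (-(a * |z.re|)) ≤ M * 1 :=
      mul_le_mul_of_nonneg_left (Real.exp_le_one_iff.2 (by
        have := mul_nonneg ha (abs_nonneg z.re)
        linarith)) hM
    rw [norm_mul]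
    have h6 := mul_le_mul (hε b) (h4.trans h5) (norm_nonneg _) zero_le_one
    linarith⟩

section ins

variable [Fil]

/-- the step is a differentiable insertion -/
theorem InsD.sn {δ b0 b1 : ℝ} {η η' : Crs} (hc : ∀ r O, CrvR δ (η r O) (η' r O))
    (hs : InS 0 b0 η) (hb : b0 < b1) (hb1 : b1 ≤ NUP1.l) (P : NUO.Par) :
    InsD η' (stA sgD P η)
      (dSm (XCy 0 η fun s => deriv fun z => eM s * PB.NX.sgC z)) := by
  have h1 := (InsD.vy hc hs hb (fun _ => 0) (fldF_sg hb1)).add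
    (InsD.obj η' fun r O => stO sgD P O)
  have e1 : (fun (r : ℕ) (O : Fin r → Xo) (a b : ℕ) (x : (Fin a → ℝ) × (Fin b → ℝ)) =>
      Vy 0 η (fun _ => 0) (fun s z => eM s * PB.NX.sgC z) r O a b x + stO sgD P O) =
      stA sgD P η := by
    funext r O a b x
    rw [stA_sg P η fun _ => 0]
    simp
  have e2 : (fun (r : ℕ) (O : Fin r → Xo) (a b : ℕ) (k : Fin a ⊕ Fin b)
      (x : (Fin a → ℝ) × (Fin b → ℝ)) =>
      dSm (XCy 0 η fun s => deriv fun z => eM s * PB.NX.sgC z) r O a b k x + 0) =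
      dSm (XCy 0 η fun s => deriv fun z => eM s * PB.NX.sgC z) := by
    funext r O a b k x
    rw [add_zero]
  rw [e1, e2] at h1
  exact h1

/-- the centred step is a differentiable insertion -/
theorem InsD.sn' {δ b0 b1 : ℝ} {η η' : Crs} (hc : ∀ r O, CrvR δ (η r O) (η' r O))
    (hs : InS 0 b0 η) (hb : b0 < b1) (hb1 : b1 ≤ NUP1.l) (P : NUO.Par) (ρ : ℂ → ℂ) :
    InsD η' (fun r O a b x => stA sgD P η r O a b x -
        ((Fil.b true : ℂ) - Fil.b false) * ∫ u : ℝ, ρ u * PB.NX.sgC u)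
      (dSm (XCy 0 η fun s => deriv fun z => eM s * PB.NX.sgC z)) := by
  have h1 := (InsD.vy hc hs hb ρ (fldF_sg hb1)).add
    (InsD.obj η' fun r O => stO sgD P O)
  have e1 : (fun (r : ℕ) (O : Fin r → Xo) (a b : ℕ) (x : (Fin a → ℝ) × (Fin b → ℝ)) =>
      Vy 0 η ρ (fun s z => eM s * PB.NX.sgC z) r O a b x + stO sgD P O) =
      fun r O a b x => stA sgD P η r O a b x -
        ((Fil.b true : ℂ) - Fil.b false) * ∫ u : ℝ, ρ u * PB.NX.sgC u := by
    funext r O a b x
    rw [stA_sg' P η ρ]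
  have e2 : (fun (r : ℕ) (O : Fin r → Xo) (a b : ℕ) (k : Fin a ⊕ Fin b)
      (x : (Fin a → ℝ) × (Fin b → ℝ)) =>
      dSm (XCy 0 η fun s => deriv fun z => eM s * PB.NX.sgC z) r O a b k x + 0) =
      dSm (XCy 0 η fun s => deriv fun z => eM s * PB.NX.sgC z) := by
    funext r O a b k x
    rw [add_zero]
  rw [e1, e2] at h1
  exact h1

end ins

end PBF.PLX

end
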