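import Pool.Agent.PLX.Ns
import Pool.Agent.PB.EMain
import Pool.Agent.PLX.PB.WPlusS
import Pool.Agent.PLX.PB.RepQ
import Pool.Agent.PLX.PB.ObStep
import Pool.Agent.PLX.PB.RepJ

/-!
# Plan B: the data of level two, generic part, two fillings (PLAX)

* `M2_rescale`;
* **`levD_of`**: `PBEM.LevD` from the moments `PBU.MBd` and the second Ward identities.
-/

set_option autoImplicit false
set_option linter.unusedSectionVars false

noncomputable section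

open Complex MeasureTheory Filter Topology Set
open scoped ENNReal
open PLX (Fil)

namespace PBLX.PLX

open NUO NUP1S NUP1S.Ab NUP1S.AbC NUGC NUGC.PLX PBF PBF.PLX PBFunc PBFunc.PLX PBRep PBRep.PLX PBWP PBWP.PLX
open NUP1 hiding Kd
open PBE (TC mass WPl WMi)

section mono

variable {Ω : Type*} [MeasurableSpace Ω] {μ : Measure Ω} {w : Ω → ℂ}
  {K : ℝ}

theorem M2_rescale {A : Ω → ℂ} {b c : ℝ} (h : M2 μ w K A (b * c)) : M2 μ w (b ^ 2 * K) A c := by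
  unfold M2 at h ⊢
  refine h.trans (le_of_eq ?_)
  congr 1
  ring

end mono

/-! ### the data -/

section data

variable [Fil] {N : ℕ} {Z : ℕ → Bool → Option O3 → ℂ → ℂ} {P0 : NUO.Par} {η η' : ℕ → Crs}
  {c : ℕ → ℂ} {ρ : ℂ → ℂ} {Y₁ Y₂ b0 b' K q dp : ℝ}

/-- the constant of the step -/
def KS : ℝ := (3 + PBOR.PLX.CS) ^ 2

theorem one_le_KS : 1 ≤ KS := by
  have := PBOR.PLX.CS_pos
  unfold KS
  nlinarith

theorem BC_sg (h1 : -NUP1.l ≤ Y₁) (h2 : Y₂ ≤ NUP1.l) : PBU.PLX.BC Y₁ Y₂ 3 PB.NX.sgC := by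
  have hpi : Real.pi / 8 = NUP1.l := rfl
  have hz : ∀ z ∈ PBE.Sp Y₁ Y₂, |z.im| < NUP1.l := fun z hz =>
    abs_lt.2 ⟨lt_of_le_of_lt h1 hz.1, lt_of_lt_of_le hz.2 h2⟩
  refine ⟨fun z h => ?_, fun z h => ?_⟩
  · exact (PB.NX.differentiableAt_sgC (z := z) (by
      rw [hpi]; exact (hz z h).le)).differentiableWithinAt
  · exact PBOR.PLX.sgC_le (by rw [hpi]; exact (hz z h).le)

theorem BC_eM {M : ℝ} {g : ℂ → ℂ} (h : PBU.PLX.BC Y₁ Y₂ M g) (s : Bool) :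
    PBU.PLX.BC Y₁ Y₂ M fun z => eM s * g z := by
  refine ⟨h.an.const_mul _, fun z hz => ?_⟩
  rw [norm_mul, PBOR.PLX.norm_eM, one_mul]
  exact h.bd z hz

/-- the fibres, measurability part -/
structure Bas (N : ℕ) (Z : ℕ → Bool → Option O3 → ℂ → ℂ) (P0 : NUO.Par) (η η' : ℕ → Crs)
    (b0 b' : ℝ) : Prop where
  mc : ∀ n ≤ N, MCr (η n) (η' n)
  hs : ∀ n ≤ N, InS 0 b0 (η n)
  hb : b0 < b'
  hbl : b' ≤ NUP1.l
  mZ : ∀ n ≤ N, MC (Z n) P0 (η n) (η' n)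
  po : ∀ r (O : Fin r → Xo), PBOR.PLX.PO P0 O
  rad : ∀ r, Measurable (P0.rad r)

variable (hB : Bas N Z P0 η η' b0 b')

include hB

theorem Bas.w : AEStronglyMeasurable (wN Z (fun _ => P0) N η η' c) (mN N) :=
  (wN_meas hB.mZ).aestronglyMeasurable

theorem Bas.vy (ρ : ℂ → ℂ) {g : Bool → ℂ → ℂ}
    (hg : ∀ s (z : ℂ), |z.im| < b' → DifferentiableAt ℂ (g s) z) :
    AEStronglyMeasurable (evN fun n => Vy 0 (η n) ρ g) (mN N) :=
  (evN_meas fun n hn => MIn.vy (hB.mc n hn) (hB.hs n hn) hB.hb ρ hg).aestronglyMeasurable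

theorem Bas.msV {g : ℂ → ℂ} (hg : ∀ z : ℂ, |z.im| < b' → DifferentiableAt ℂ g z) :
    AEStronglyMeasurable (Vp (fun u => ρ u) η g : CfN N → ℂ) (mN N) := by
  rw [Vp_evN]
  exact hB.vy ρ fun _ => hg

theorem Bas.msVm {g : ℂ → ℂ} (hg : ∀ z : ℂ, |z.im| < b' → DifferentiableAt ℂ g z) :
    AEStronglyMeasurable (Vm (fun u => ρ u) η g : CfN N → ℂ) (mN N) := by
  rw [Vm_evN]
  exact hB.vy _ fun s z hz => (hg z hz).const_mul _

theorem Bas.dsg (z : ℂ) (hz : |z.im| < b') : DifferentiableAt ℂ PB.NX.sgC z :=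
  PB.NX.differentiableAt_sgC (z := z) (by
    have : Real.pi / 8 = NUP1.l := rfl
    rw [this]; exact (hz.trans_le hB.hbl).le)

theorem Bas.msO : AEStronglyMeasurable (VO sgD P0 : CfN N → ℂ) (mN N) := by
  have hD : ∀ s k, Measurable (sgD s k) := by
    intro s k
    have h1 : Measurable fun z : ℂ => PBOb.pf k z := measurable_id.add_const _
    exact (PBOb.measurable_sgU.comp h1).const_mul _
  exact (evN_meas fun n hn => MIn_stO (P := P0) hB.rad hD).aestronglyMeasurable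

theorem Bas.msS : AEStronglyMeasurable (SN (fun u => ρ u) P0 η : CfN N → ℂ) (mN N) := by
  have e : (SN (fun u => ρ u) P0 η : CfN N → ℂ) =
      fun ω => Vm (fun u => ρ u) η PB.NX.sgC ω + VO sgD P0 ω := funext fun ω =>
    SN_Vm _ P0 η ω
  rw [e]
  exact (hB.msVm hB.dsg).add hB.msO

variable (hM : PBU.PLX.MBd N Z (fun _ => P0) η η' c ρ Y₁ Y₂ K q dp)

include hM

theorem Bas.m2V {M : ℝ} (hM0 : 0 ≤ M) {g : ℂ → ℂ}
    (hg : ∀ z : ℂ, |z.im| < b' → DifferentiableAt ℂ g z) (hb : PBU.PLX.BC Y₁ Y₂ M g) :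
    M2 (mN N) (wN Z (fun _ => P0) N η η' c) K (Vp (fun u => ρ u) η g) M := by
  rw [Vp_evN]
  exact M2_vy hM hB.mc hB.hs hB.hb hM0 (fun _ => hb) fun _ => hg

theorem Bas.m2Vm {M : ℝ} (hM0 : 0 ≤ M) {g : ℂ → ℂ}
    (hg : ∀ z : ℂ, |z.im| < b' → DifferentiableAt ℂ g z) (hb : PBU.PLX.BC Y₁ Y₂ M g) :
    M2 (mN N) (wN Z (fun _ => P0) N η η' c) K (Vm (fun u => ρ u) η g) M := by
  rw [Vm_evN]
  exact M2_vy hM hB.mc hB.hs hB.hb hM0 (fun s => BC_eM hb s) fun s z hz => (hg z hz).const_mul _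

theorem Bas.m2O : M2 (mN N) (wN Z (fun _ => P0) N η η' c) K (VO sgD P0) PBOR.PLX.CS := by
  have h1 := hM.one.smul (PBOR.PLX.CS : ℂ)
  have hc := PBOR.PLX.CS_pos
  rw [Complex.norm_real, Real.norm_of_nonneg hc.le, mul_one] at h1
  refine M2.le' h1 fun ω => ?_
  simp only [evN, ev, PBU.PLX.cnI]
  rw [norm_mul, norm_cn0, Complex.norm_real, Real.norm_of_nonneg hc.le]
  refine (PBOR.PLX.stO_sg_le (hB.po _ ω.2.2.1)).trans (mul_le_mul_of_nonneg_left ?_ hc.le)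
  linarith

theorem Bas.m2S (hK : 0 ≤ K) (h1 : -NUP1.l ≤ Y₁) (h2 : Y₂ ≤ NUP1.l) :
    M2 (mN N) (wN Z (fun _ => P0) N η η' c) (KS * K) (SN (fun u => ρ u) P0 η) 1 := by
  have e : (SN (fun u => ρ u) P0 η : CfN N → ℂ) =
      fun ω => Vm (fun u => ρ u) η PB.NX.sgC ω + VO sgD P0 ω := funext fun ω =>
    SN_Vm _ P0 η ω
  rw [e]
  refine M2_rescale ?_
  rw [mul_one]
  exact M2.add0 (by norm_num) PBOR.PLX.CS_pos.le hK hB.w (hB.msVm hB.dsg)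
    (hB.m2Vm hM (by norm_num) hB.dsg (BC_sg h1 h2)) (hB.m2O hM)

/-- **the data of level two** -/
theorem levD_of {y₁ y₂ a th dp' : ℝ} {K' : ℝ} {mf : ℝ → ℂ} {s' : ℝ → ℂ} {T : Type*}
    [MeasurableSpace T] {σ : Measure T} {ap am bc : T → ℂ → ℂ} (ha : 0 < a) (h1 : y₁ < 0)
    (h2 : 0 < y₂) (hY1 : y₁ ≤ Y₁) (hY2 : Y₂ ≤ y₂) (hY1' : -NUP1.l ≤ Y₁) (hY2' : Y₂ ≤ NUP1.l)
    (hb1 : y₁ ≤ -b') (hb2 : b' ≤ y₂) (hK : 0 ≤ K) (hK' : KS * K ≤ K') (hth : 0 ≤ th)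
    (hdp : 0 ≤ dp') (hρ : AEStronglyMeasurable (fun u : ℝ => ρ u) volume)
    {Bρ : ℝ} (hρB : ∀ u : ℝ, ‖ρ u‖ ≤ Bρ)
    (hwp : ∀ M g, TC y₁ y₂ a M g → mass g = 0 → ∃ (D : (ℂ → ℂ) → CfN N → ℂ) (Q P : CfN N → ℂ),
      WPl y₁ y₂ a (mN N) (wN Z (fun _ => P0) N η η' c) K' th dp' M (Vp (fun u => ρ u) η) g
        (Pool.Agent.PB.mV mf g) (Pool.Agent.PB.CV g) D Q P)
    (hwm : ∀ M g, TC y₁ y₂ a M g → ∃ (D : (ℂ → ℂ) → CfN N → ℂ) (Ds Q P : CfN N → ℂ),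
      WMi y₁ y₂ a (mN N) (wN Z (fun _ => P0) N η η' c) K' th dp' M (Vm (fun u => ρ u) η)
        (SN (fun u => ρ u) P0 η) (Vm (fun u => ρ u) η g)
        (Pool.Agent.PB.CmV g) (Pool.Agent.PB.CsV s' g) D Ds Q P)
    (hws : ∃ (C : (ℂ → ℂ) → ℂ) (D : (ℂ → ℂ) → CfN N → ℂ) (Ds Q P : CfN N → ℂ),
      WMi y₁ y₂ a (mN N) (wN Z (fun _ => P0) N η η' c) K' th dp' 1 (Vm (fun u => ρ u) η)
        (SN (fun u => ρ u) P0 η) (SN (fun u => ρ u) P0 η) C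
        (Pool.Agent.PB.CssV s') D Ds Q P)
    (hap : Measurable fun p : T × ℂ => ap p.1 p.2) (ham : Measurable fun p : T × ℂ => am p.1 p.2)
    (hbc : Measurable fun p : T × ℂ => bc p.1 p.2) :
    PBEM.LevD y₁ y₂ a (mN N) (wN Z (fun _ => P0) N η η' c) (Vp (fun u => ρ u) η)
      (Vm (fun u => ρ u) η) (SN (fun u => ρ u) P0 η)
      K' th dp' mf s' σ ap am bc := by
  have hKS := one_le_KS
  have hKK : K ≤ K' := by nlinarith
  have hBC : ∀ M h, TC y₁ y₂ a M h → PBU.PLX.BC Y₁ Y₂ M h := fun M h hh =>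
    BC_of hh ha.le (hh.nonneg h1 h2) hY1 hY2
  have hd : ∀ M h, TC y₁ y₂ a M h → ∀ z : ℂ, |z.im| < b' → DifferentiableAt ℂ h z :=
    fun M h hh z hz => TC.dAt' hh hb1 hb2 hz
  exact
  { hw := hB.w
    K0 := hK.trans hKK
    th0 := hth
    dp0 := hdp
    one := (M2_one hM).mono zero_le_one le_rfl hKK hK
    lin := Vp_lin η ha h1 h2 hρ hρB
    msV := fun M h hh => hB.msV (hd M h hh)
    v2 := fun M h hh => (hB.m2V hM (hh.nonneg h1 h2) (hd M h hh) (hBC M h hh)).mono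
      (hh.nonneg h1 h2) le_rfl hKK hK
    msVm := fun M h hh => hB.msVm (hd M h hh)
    v2m := fun M h hh => (hB.m2Vm hM (hh.nonneg h1 h2) (hd M h hh) (hBC M h hh)).mono
      (hh.nonneg h1 h2) le_rfl hKK hK
    msS := hB.msS
    s2 := (hB.m2S hM hK hY1' hY2').mono zero_le_one le_rfl hK' (by positivity)
    wp := hwp
    wm := hwm
    ws := hws
    jA := PBRep.PLX.jVp hap hρ hB.mc
    jB := PBRep.PLX.jVp hbc hρ hB.mc
    jA' := PBRep.PLX.jVm ham hρ hB.mc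
    jB' := PBRep.PLX.jVm hbc hρ hB.mc }

end data

end PBLX.PLX

end
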