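import Pool.Agent.PLX.Ns
import Pool.Agent.PLX.PB.UBN
import Pool.Agent.PLX.PB.QMomC
import Pool.Agent.PB.VInst
import Pool.Agent.PLX.PB.LogZ
import Pool.Agent.PLX.NUSea.Bridge
import Pool.Agent.PB.FldX

/-!
# The family of the second Ward identity, two fillings (PLAX)

Rows `rowS j s` (one row at `i s`, `j` rows at `0`), legs at `i t`, `m = j + 1`.

* `ZF`, `rhS`, `eC`, `eC'`, `cF`: one body functions, density, curves, prefactor; `wS` the weight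
  (`wS_eq`: it is the weight of helper79's family `famL`);
* `dn_rows`: the density of the rows is admissible; `seaL_rhS`, `seaF_rhS`;
* `Kj`, `dj`: sizes of the moments, independent of `s`, `t`;
* **`MomS`** (class), `mbdS`, `mom4S`: the moments of the family, all `s`, `t` in `[0, 1]`, large
  `j`;
* `SmallP a0 ep e1 J`: the conditions on the parameters.
-/

set_option autoImplicit false
set_option linter.unusedSectionVars false

noncomputable section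

open Complex MeasureTheory Filter Topology Set
open scoped ENNReal
open PLX (Fil)

namespace PBLX.PLX

open NUO NUP1S NUP1S.Ab NUP1S.AbC NUGC NUGC.PLX PBF PBF.PLX PBFunc PBFunc.PLX PBU PBU.PLX
open NUP1 hiding Kd
open PBEI (rowS rowS_zero rowS_ne rowS_ok)
open PBQ1 (hr)

attribute [local instance] NUSea.seaP

variable [Fil]

/-- the one body functions -/
abbrev ZF (ep : ℝ) (j : ℕ) (s t : ℝ) : Bool → Option O3 → ℂ → ℂ :=
  PBX.PLX.ZL (4 / 3 * (1 - ep)) (rowS j s) [I, -I] [] (I * t)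

/-- the density of the rows -/
abbrev rhS (j : ℕ) (s : ℝ) : ℂ → ℂ := fun z => PBForce.rhoR (rowS j s) (NUP1.l + I * z)

/-- the curves -/
abbrev eC (e1 J : ℝ) (j : ℕ) : ℕ → Crs := fun _ => cr e1 J (j + 1)

/-- their slopes -/
abbrev eC' (e1 J : ℝ) (j : ℕ) : ℕ → Crs := fun _ => cr' e1 J (j + 1)

/-- the prefactor -/
abbrev cF (j : ℕ) (s t : ℝ) : ℕ → ℂ := fun _ => Pool.Agent.PB.Pf (I * t) (rowS j s) (_root_.Pool.Agent.PLX.yq (rowS j s))

/-- the parameters of the objects -/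
abbrev pS (j : ℕ) : ℕ → NUO.Par := fun _ => NUSea.PLX.O.par0 (j + 1)

/-- **the weight of the family** -/
abbrev wS (ep e1 J : ℝ) (j : ℕ) (s t : ℝ) : CfN (2 * (j + 1)) → ℂ :=
  wN (fun _ => ZF ep j s t) (pS j) (2 * (j + 1)) (eC e1 J j) (eC' e1 J j) (cF j s t)

theorem wS_eq (ep e1 J : ℝ) (j : ℕ) (s t : ℝ) :
    wS ep e1 J j s t = wF famL ep e1 J (j + 1) (I * s, I * t) := rfl

/-- the conditions on the parameters -/
structure SmallP (a0 ep e1 J : ℝ) : Prop where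
  ep0 : 0 < ep
  ep1 : ep ≤ 1 / 100
  e0 : 0 < e1
  e1' : e1 ≤ 1 / 100
  J0 : 0 ≤ J
  sm : Real.exp (-(2 * Real.pi * J)) + 3 * e1 + 3 * ep ≤ a0

theorem SmallP.mono {a0 a1 ep e1 J : ℝ} (h : SmallP a0 ep e1 J) (ha : a0 ≤ a1) :
    SmallP a1 ep e1 J := ⟨h.ep0, h.ep1, h.e0, h.e1', h.J0, h.sm.trans ha⟩

/-! ### the density -/

theorem hr_rowS_zero (j : ℕ) (s : ℝ) : hr (rowS j s 0) = s := by
  rw [rowS_zero]
  unfold PBQ1.hr
  linear_combination (-(s : ℂ)) * I_mul_I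

theorem hr_rowS_succ (j : ℕ) (s : ℝ) (i : Fin j) : hr (rowS j s i.succ) = 0 := by
  rw [rowS_ne j s (Fin.succ_ne_zero i)]
  unfold PBQ1.hr
  ring

theorem im_rowS {b : ℝ} (j : ℕ) (s : ℝ) {z : ℂ} (hz : |z.im| < b) (i : Fin (j + 1)) :
    |(z - hr (rowS j s i)).im| < b := by
  refine Fin.cases ?_ (fun i => ?_) i
  · rw [hr_rowS_zero, sub_im, ofReal_im, sub_zero]
    exact hz
  · rw [hr_rowS_succ, sub_zero]
    exact hz

/-- the density is the one of `LogZ` -/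
theorem rhS_eq (j : ℕ) (s : ℝ) {z : ℂ} (hz : |z.im| < NUP1.l) :
    rhS j s z = PBLZ.PLX.rhoH (rowS j s) z := PBLZ.PLX.rhoH_eq (im_rowS j s hz)

theorem rhS_real (j : ℕ) (s t : ℝ) :
    rhS j s t = ((NUMF.P (t - s) + j * NUMF.P t : ℝ) : ℂ) := by
  rw [rhS_eq j s (by simpa using NUP1.Bd.l_pos)]
  unfold PBLZ.PLX.rhoH
  rw [Fin.sum_univ_succ, hr_rowS_zero]
  simp only [hr_rowS_succ, sub_zero, Finset.sum_const, Finset.card_univ, Fintype.card_fin,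
    nsmul_eq_mul]
  rw [← ofReal_sub, NUMF.Pc_ofReal, NUMF.Pc_ofReal]
  push_cast
  rfl

theorem rhS_integrable (j : ℕ) (s : ℝ) : Integrable fun t : ℝ => rhS j s t := by
  have hP : Integrable NUMF.P := NUMF.P_integrable
  have h1 : Integrable fun t : ℝ => NUMF.P (t - s) + j * NUMF.P t :=
    (hP.comp_sub_right s).add (hP.const_mul _)
  refine (h1.ofReal (𝕜 := ℂ)).congr (Eventually.of_forall fun t => ?_)
  exact (rhS_real j s t).symm

/-- **the density of the rows is admissible** -/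
theorem dn_rows : ∃ C0 : ℝ, 0 ≤ C0 ∧ ∀ (j : ℕ) (s : ℝ), DN C0 (j + 1) fun t : ℝ => rhS j s t := by
  have hP : Integrable NUMF.P := NUMF.P_integrable
  refine ⟨(∫ t, |NUMF.P t|) + ∫ t, |NUMF.P t|, add_nonneg
    (integral_nonneg fun _ => abs_nonneg _) (integral_nonneg fun _ => abs_nonneg _),
    fun j s => ⟨rhS_integrable j s, ?_⟩⟩
  have e1 : ∫ t, |NUMF.P (t - s)| = ∫ t, |NUMF.P t| :=
    integral_sub_right_eq_self (fun t => |NUMF.P t|) s
  have hP' : Integrable fun t => |NUMF.P (t - s)| := (hP.comp_sub_right s).abs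
  have e2 : ∫ t, (|NUMF.P (t - s)| + |NUMF.P t|) = (∫ t, |NUMF.P t|) + ∫ t, |NUMF.P t| := by
    rw [integral_add hP' hP.abs, e1]
  rw [← e2]
  refine integral_mono_of_nonneg (Eventually.of_forall fun _ => norm_nonneg _)
    (hP'.add hP.abs) (Eventually.of_forall fun t => ?_)
  have e3 : rhS j s t - (((j + 1 : ℕ) : ℝ) : ℂ) * ((NUSea.P t : ℝ) : ℂ) =
      ((NUMF.P (t - s) - NUMF.P t : ℝ) : ℂ) := by
    rw [rhS_real, show NUSea.P t = NUMF.P t from rfl]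
    push_cast
    ring
  simp only []
  rw [e3, Complex.norm_real, Real.norm_eq_abs]
  exact abs_sub _ _

/-- the lower bound of the density, one constant -/
theorem seaL_rhS {b : ℝ} (hb0 : 0 ≤ b) (hb : b < NUP1.l) : ∃ c0 : ℝ, 0 < c0 ∧
    ∀ (j : ℕ) (s : ℝ), |s| ≤ 1 → PBE.SeaL b c0 ((j + 1 : ℕ) : ℝ) (rhS j s) ∧
      PB.SeaF b (rhS j s) := by
  obtain ⟨c0, h0, h⟩ := PBE.seaL_rows hb0 hb
  exact ⟨c0, h0, fun j s hs => h (j + 1) (rowS j s) (Nat.succ_pos j) (rowS_ok j hs)⟩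

/-! ### the moments -/

/-- the constant of the second moments -/
def Kj (ε : ℝ) (j : ℕ) : ℝ := 6 * (((j : ℝ) + 1) ^ ε * Real.exp 2)

/-- the size of the pins -/
def dj (ε e1 q : ℝ) (j : ℕ) : ℝ :=
  3 * ((j : ℝ) + 1) ^ (-(3 / 8 * q * (1 - 4 * e1))) * (((j : ℝ) + 1) ^ ε * Real.exp 2)

theorem Kj_pos (ε : ℝ) (j : ℕ) : 0 < Kj ε j := by unfold Kj; positivity

theorem dj_pos (ε e1 q : ℝ) (j : ℕ) : 0 < dj ε e1 q j := by unfold dj; positivity

theorem MBd.mono {N : ℕ} {Z : ℕ → Bool → Option O3 → ℂ → ℂ} {P : ℕ → NUO.Par} {η η' : ℕ → Crs}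
    {c : ℕ → ℂ} {ρ : ℂ → ℂ} {y₁ y₂ K K' q dp dp' : ℝ} (h : MBd N Z P η η' c ρ y₁ y₂ K q dp)
    (hK0 : 0 ≤ K) (hK : K ≤ K') (hd : dp ≤ dp') : MBd N Z P η η' c ρ y₁ y₂ K' q dp' where
  one := M2.mono h.one zero_le_one le_rfl hK hK0
  vy M g hM hg hm := M2.mono (h.vy M g hM hg hm) hM le_rfl hK hK0
  pin := L1.mono h.pin hd
  pinv M g hM hg hm := L1.mono (h.pinv M g hM hg hm) (mul_le_mul_of_nonneg_left hd hM)

/-- the index is admissible -/
theorem ok_famL (j : ℕ) {s t : ℝ} (hs : s ∈ Icc (0 : ℝ) 1) (ht : t ∈ Icc (0 : ℝ) 1) :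
    famL.ok (j + 1) (I * s, I * t) := by
  have hl := NUP1.Bd.l_pos
  have hlog : 0 ≤ Real.log ((j + 1 : ℕ) : ℝ) := Real.log_natCast_nonneg _
  refine ⟨?_, ?_, ?_, ?_, ?_⟩
  · simp only [mul_re, I_re, ofReal_re, I_im, ofReal_im]
    rw [zero_mul, mul_zero, sub_zero, abs_zero]
    positivity
  · simp only [mul_im, I_re, ofReal_re, I_im, ofReal_im]
    rw [zero_mul, one_mul, zero_add, abs_of_nonneg hs.1]
    linarith [hs.2]
  · simp only [mul_re, I_re, ofReal_re, I_im, ofReal_im]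
    linarith
  · simp only [mul_re, I_re, ofReal_re, I_im, ofReal_im]
    linarith
  · simp only [mul_im, I_re, ofReal_re, I_im, ofReal_im]
    rw [zero_mul, one_mul, zero_add, abs_of_nonneg ht.1]
    linarith [ht.2]

/-- the density is measurable on the real line -/
theorem rhS_meas (j : ℕ) {s : ℝ} (hs : |s| ≤ 1) : Measurable fun u : ℝ => rhS j s u := by
  have hl := NUP1.Bd.l_pos
  obtain ⟨c0, -, h⟩ := seaL_rhS (b := NUP1.l / 2) (by positivity) (by linarith)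
  have hF := (h j s hs).2
  have hc : Continuous fun u : ℝ => rhS j s u := continuous_iff_continuousAt.2 fun u =>
    (hF.d _ (by simpa using hl)).continuousAt.comp Complex.continuous_ofReal.continuousAt
  exact hc.measurable

/-- **the moments of the family**: second moments, pins and products of four statistics. This is the
only input of the levels which comes from the representation; the instance is in `LevH` -/
class MomS : Prop where
  /-- second moments and pins -/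
  mbd : ∀ {q ε : ℝ}, 0 ≤ q → q ≤ 8 / 3 → 0 < ε →
    ∃ a0 : ℝ, 0 < a0 ∧ ∀ ep e1 J : ℝ, SmallP a0 ep e1 J → ∀ y₁ y₂ : ℝ, y₁ < 0 → 0 < y₂ →
    ∀ᶠ j : ℕ in atTop, ∀ s ∈ Icc (0 : ℝ) 1, ∀ t ∈ Icc (0 : ℝ) 1,
      MBd (2 * (j + 1)) (fun _ => ZF ep j s t) (pS j) (eC e1 J j) (eC' e1 J j) (cF j s t)
        (rhS j s) y₁ y₂ (Kj ε j) q (dj ε e1 q j)
  /-- products of four statistics -/
  mom4 : ∀ {ε : ℝ}, 0 < ε →
    ∃ a0 : ℝ, 0 < a0 ∧ ∀ ep e1 J : ℝ, SmallP a0 ep e1 J → ∀ y₁ y₂ : ℝ, y₁ < 0 → 0 < y₂ →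
    ∀ᶠ j : ℕ in atTop, ∀ s ∈ Icc (0 : ℝ) 1, ∀ t ∈ Icc (0 : ℝ) 1,
      PBQM.PLX.Mom4 (mN (2 * (j + 1))) (wS ep e1 J j s t)
        (PBQM.PLX.VN (2 * (j + 1)) (eC e1 J j) (rhS j s)) y₁ y₂ (Kj ε j)

/-- **the moments of the family** -/
theorem mbdS [MomS] {q ε : ℝ} (hq0 : 0 ≤ q) (hq : q ≤ 8 / 3) (hε : 0 < ε) :
    ∃ a0 : ℝ, 0 < a0 ∧ ∀ ep e1 J : ℝ, SmallP a0 ep e1 J → ∀ y₁ y₂ : ℝ, y₁ < 0 → 0 < y₂ →
    ∀ᶠ j : ℕ in atTop, ∀ s ∈ Icc (0 : ℝ) 1, ∀ t ∈ Icc (0 : ℝ) 1,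
      MBd (2 * (j + 1)) (fun _ => ZF ep j s t) (pS j) (eC e1 J j) (eC' e1 J j) (cF j s t)
        (rhS j s) y₁ y₂ (Kj ε j) q (dj ε e1 q j) := MomS.mbd hq0 hq hε

/-- **products of four statistics at the family** -/
theorem mom4S [MomS] {ε : ℝ} (hε : 0 < ε) :
    ∃ a0 : ℝ, 0 < a0 ∧ ∀ ep e1 J : ℝ, SmallP a0 ep e1 J → ∀ y₁ y₂ : ℝ, y₁ < 0 → 0 < y₂ →
    ∀ᶠ j : ℕ in atTop, ∀ s ∈ Icc (0 : ℝ) 1, ∀ t ∈ Icc (0 : ℝ) 1,
      PBQM.PLX.Mom4 (mN (2 * (j + 1))) (wS ep e1 J j s t)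
        (PBQM.PLX.VN (2 * (j + 1)) (eC e1 J j) (rhS j s)) y₁ y₂ (Kj ε j) := MomS.mom4 hε

end PBLX.PLX

end
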