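import Pool.Agent.PLX.Ns
import Pool.Agent.PLX.PB.LevH0
import Pool.Agent.PLX.PB.LevG
import Pool.Agent.PLX.PB.FibX

/-!
# Plan B: the data of level two at the family (helper91)

* `bas_fx`: measurability of the fibres of the family;
* `rho0_eq`: the density in the form `rhoR x (vl l u)`;
* `sz_th`, `sz_dp`: sizes;
* **`levX`**: `PBEM.LevD` at the family for large `j`, all `s`, `t` in `[0, 1]`, from the second Ward
  identities (helper13's LevP, helper38's LevN).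
-/

set_option autoImplicit false
set_option linter.unusedSectionVars false

noncomputable section

open Complex MeasureTheory Filter Topology Set
open scoped ENNReal

open PLX (Fil)

namespace PBLX.PLX

open NUO NUP1S NUP1S.Ab NUP1S.AbC NUGC NUGC.PLX PBF PBF.PLX PBFunc PBFunc.PLX PBU PBU.PLX PBWP PBWP.PLX
open NUP1 hiding Kd
open PBEI (rowS rowS_zero rowS_ne rowS_ok)
open PBE (TC mass)

attribute [local instance] NUSea.seaP

variable [Fil]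

/-! ### sizes -/

theorem pow_le_c {α c : ℝ} (hc : 0 ≤ c) (h : α ≤ -c) {j : ℕ} (hj : 1 ≤ j) :
    ((j : ℝ) + 1) ^ α ≤ (j : ℝ) ^ (-c) := by
  have h1 : (1 : ℝ) ≤ j := by exact_mod_cast hj
  calc ((j : ℝ) + 1) ^ α ≤ ((j : ℝ) + 1) ^ (-c) :=
        Real.rpow_le_rpow_of_exponent_le (by linarith) h
    _ ≤ (j : ℝ) ^ (-c) := Real.rpow_le_rpow_of_nonpos (by linarith) (by linarith) (by linarith)

/-- **the size of the quadratic remainder** -/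
theorem sz_th {ε A C d c : ℝ} (hA : 0 ≤ A) (hC : 0 ≤ C) (hc : 0 ≤ c) (h : ε - d ≤ -c) {j : ℕ}
    (hj : 1 ≤ j) : 2 * (A * Kj ε j) * (C * ((j : ℝ) + 1) ^ (-d)) ≤
      (12 * A * Real.exp 2 * C) * (j : ℝ) ^ (-c) := by
  have hp : (0 : ℝ) < (j : ℝ) + 1 := by positivity
  have e : 2 * (A * Kj ε j) * (C * ((j : ℝ) + 1) ^ (-d)) =
      (12 * A * Real.exp 2 * C) * ((j : ℝ) + 1) ^ (ε - d) := by
    unfold Kj
    rw [sub_eq_add_neg, Real.rpow_add hp]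
    ring
  rw [e]
  exact mul_le_mul_of_nonneg_left (pow_le_c hc h hj) (by positivity)

/-- **the size of the pins** -/
theorem sz_dp {ε e1 q C c : ℝ} (hC : 0 ≤ C) (hc : 0 ≤ c)
    (h : ε - 3 / 8 * q * (1 - 4 * e1) ≤ -c) {j : ℕ} (hj : 1 ≤ j) :
    C * dj ε e1 q j ≤ (3 * Real.exp 2 * C) * (j : ℝ) ^ (-c) := by
  have hp : (0 : ℝ) < (j : ℝ) + 1 := by positivity
  have e : C * dj ε e1 q j =
      (3 * Real.exp 2 * C) * ((j : ℝ) + 1) ^ (ε - 3 / 8 * q * (1 - 4 * e1)) := by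
    have e2 : ((j : ℝ) + 1) ^ (-(3 / 8 * q * (1 - 4 * e1))) * ((j : ℝ) + 1) ^ ε =
        ((j : ℝ) + 1) ^ (ε - 3 / 8 * q * (1 - 4 * e1)) := by
      rw [← Real.rpow_add hp]
      congr 1
      ring
    rw [← e2]
    unfold dj
    ring
  rw [e]
  exact mul_le_mul_of_nonneg_left (pow_le_c hc h hj) (by positivity)

/-! ### the density and the fibres -/

theorem rhS_bd (j : ℕ) {s : ℝ} (hs : |s| ≤ 1) : ∃ B : ℝ, ∀ u : ℝ, ‖rhS j s u‖ ≤ B := by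
  have hl := NUP1.Bd.l_pos
  obtain ⟨c0, -, h⟩ := seaL_rhS (b := NUP1.l / 2) (by positivity) (by linarith)
  obtain ⟨A, k, hA, hk, h1⟩ := (h j s hs).2.bd
  refine ⟨A, fun u => (h1 u (by rw [ofReal_im, abs_zero]; positivity)).trans ?_⟩
  refine mul_le_of_le_one_right hA (Real.exp_le_one_iff.2 ?_)
  have := mul_nonneg hk.le (abs_nonneg (u : ℂ).re)
  linarith

/-- the density in the form of the first Ward identity -/
theorem rho0_eq (j : ℕ) (s : ℝ) :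
    (fun u : ℝ => rhS j s u) = fun u : ℝ => PBForce.rhoR (rowS j s) (vl NUP1.l u) := by
  funext u
  show PBForce.rhoR (rowS j s) (NUP1.l + I * u) = PBForce.rhoR (rowS j s) (vl NUP1.l u)
  congr 1
  unfold vl
  ring

/-- **the fibres of the family** -/
theorem bas_fx {a0 ep e1 J : ℝ} (hp : SmallP a0 ep e1 J) {b' : ℝ} (hb : NUP1.l / 20 < b')
    (hb' : b' ≤ 9 / 100 * NUP1.l) : ∀ᶠ j : ℕ in atTop, ∀ s ∈ Icc (0 : ℝ) 1, ∀ t ∈ Icc (0 : ℝ) 1,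
      Bas (2 * (j + 1)) (fun _ => ZF ep j s t) (NUSea.PLX.O.par0 (j + 1)) (eC e1 J j) (eC' e1 J j)
        (NUP1.l / 20) b' := by
  have hl := NUP1.Bd.l_pos
  obtain ⟨j0, H⟩ := PBFX.PLX.fibN_fx hp.ep0 hp.ep1 hp.e0 hp.e1' hp.J0
  obtain ⟨c0, -, hs0⟩ := seaL_rhS (b := b') (by linarith) (by linarith)
  filter_upwards [eventually_ge_atTop j0] with j hj s hs t ht
  have hF := H j hj s t (rhS j s) (NUP1.l / 20) b' (by nlinarith [hp.ep1]) hb (by linarith)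
    (hs0 j s (abs_le.2 ⟨by linarith [hs.1], hs.2⟩)).2 (fun _ => 1) (fun _ => one_pos)
    (fun _ => by linarith [hp.ep1])
  exact
  { mc := hF.mc
    hs := hF.hs
    hb := hb
    hbl := by linarith
    mZ := hF.mZ
    po := fun r O => PBOR.PLX.PO_par0 (j + 1) O
    rad := (PBX.PLX.ParC_par0 (j + 1)).rm }

/-! ### the assembly -/

open PBE (WPl WMi)
open PBEI (y1 y2 Apl Ami Bch)
open PBV (wm)

/-- the density of the first Ward identity -/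
abbrev rh0 (j : ℕ) (s : ℝ) : ℝ → ℂ := fun u => PBForce.rhoR (rowS j s) (vl NUP1.l u)

/-- the identities of neutral test functions, plus channel -/
def WpS (a : ℝ) (mf : ℝ → ℝ → ℂ) (K th dp : ℕ → ℝ) (ep e1 J : ℝ) : Prop :=
  ∀ᶠ j : ℕ in atTop, ∀ s ∈ Icc (0 : ℝ) 1, ∀ t ∈ Icc (0 : ℝ) 1, ∀ M g, TC y1 y2 a M g →
    mass g = 0 → ∃ (D : (ℂ → ℂ) → CfN (2 * (j + 1)) → ℂ) (Q P : CfN (2 * (j + 1)) → ℂ),
      WPl y1 y2 a (mN (2 * (j + 1))) (wS ep e1 J j s t) (K j) (th j) (dp j) M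
        (fun h => evN fun n => Vy 0 (eC e1 J j n) (rhS j s) fun _ => h) g
        (Pool.Agent.PB.mV (mf t) g) (Pool.Agent.PB.CV g) D Q P

/-- the identities of test functions, minus channel -/
def WmS (a : ℝ) (K th dp : ℕ → ℝ) (ep e1 J : ℝ) : Prop :=
  ∀ᶠ j : ℕ in atTop, ∀ s ∈ Icc (0 : ℝ) 1, ∀ t ∈ Icc (0 : ℝ) 1,
    (∀ M g, TC y1 y2 a M g →
      ∃ (D : (ℂ → ℂ) → CfN (2 * (j + 1)) → ℂ) (Ds Q P : CfN (2 * (j + 1)) → ℂ),
      WMi y1 y2 a (mN (2 * (j + 1))) (wS ep e1 J j s t) (K j) (th j) (dp j) M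
        (Vm (fun u : ℝ => rhS j s u) (eC e1 J j))
        (SN (fun u : ℝ => rhS j s u) (NUSea.PLX.O.par0 (j + 1)) (eC e1 J j))
        (Vm (fun u : ℝ => rhS j s u) (eC e1 J j) g)
        (Pool.Agent.PB.CmV g) (Pool.Agent.PB.CsV PBEI.sg' g) D Ds Q P) ∧
    ∃ (C : (ℂ → ℂ) → ℂ) (D : (ℂ → ℂ) → CfN (2 * (j + 1)) → ℂ)
      (Ds Q P : CfN (2 * (j + 1)) → ℂ),
      WMi y1 y2 a (mN (2 * (j + 1))) (wS ep e1 J j s t) (K j) (th j) (dp j) 1
        (Vm (fun u : ℝ => rhS j s u) (eC e1 J j))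
        (SN (fun u : ℝ => rhS j s u) (NUSea.PLX.O.par0 (j + 1)) (eC e1 J j))
        (SN (fun u : ℝ => rhS j s u) (NUSea.PLX.O.par0 (j + 1)) (eC e1 J j)) C
        (Pool.Agent.PB.CssV PBEI.sg') D Ds Q P

theorem Vp_rh0 {N : ℕ} (η : ℕ → Crs) (j : ℕ) (s : ℝ) :
    (Vp (rh0 j s) η : (ℂ → ℂ) → CfN N → ℂ) = fun h => evN fun n => Vy 0 (η n) (rhS j s) fun _ => h := by
  funext h
  rw [show rh0 j s = fun u : ℝ => rhS j s u from (rho0_eq j s).symm, Vp_evN]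

/-- **the data of level two at the family** -/
theorem levX {a0 ep e1 J a ε q A : ℝ} (hp : SmallP a0 ep e1 J) (ha : 0 < a) {mf : ℝ → ℝ → ℂ}
    {th dp : ℕ → ℝ} (hA : KS ≤ A) (hth : ∀ j, 0 ≤ th j) (hdp : ∀ j, 0 ≤ dp j)
    (hM : ∀ᶠ j : ℕ in atTop, ∀ s ∈ Icc (0 : ℝ) 1, ∀ t ∈ Icc (0 : ℝ) 1,
      MBd (2 * (j + 1)) (fun _ => ZF ep j s t) (pS j) (eC e1 J j) (eC' e1 J j) (cF j s t)
        (rhS j s) (-(ep / 4)) (9 / 100 * NUP1.l) (Kj ε j) q (dj ε e1 q j))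
    (hwp : WpS a mf (fun j => A * Kj ε j) th dp ep e1 J)
    (hwm : WmS a (fun j => A * Kj ε j) th dp ep e1 J) :
    ∀ᶠ j : ℕ in atTop, ∀ s ∈ Icc (0 : ℝ) 1, ∀ t ∈ Icc (0 : ℝ) 1,
      PBEM.LevD y1 y2 a (mN (2 * (j + 1))) (wS ep e1 J j s t) (Vp (rh0 j s) (eC e1 J j))
        (Vm (rh0 j s) (eC e1 J j)) (SN (rh0 j s) (NUSea.PLX.O.par0 (j + 1)) (eC e1 J j))
        (A * Kj ε j) (th j) (dp j) (mf t)
        PBEI.sg' wm (Apl (rowS j s) 0) (Ami (rowS j s) 0) Bch := by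
  have hl := NUP1.Bd.l_pos
  have hlM : NUMF.l = NUP1.l := rfl
  have hl1 : NUP1.l ≤ 1 := by
    unfold NUP1.l
    linarith [Real.pi_le_four]
  have hl3 : 3 / 8 ≤ NUP1.l := by
    unfold NUP1.l
    linarith [Real.pi_gt_three]
  have he := hp.ep0
  have he' := hp.ep1
  filter_upwards [hM, hwp, hwm, bas_fx hp (b' := 9 / 100 * NUP1.l) (by linarith) le_rfl] with j h1 h2
    h3 h4 s hs t ht
  have hs1 : |s| ≤ 1 := abs_le.2 ⟨by linarith [hs.1], hs.2⟩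
  obtain ⟨B, hB⟩ := rhS_bd j hs1
  obtain ⟨hm, hm'⟩ := h3 s hs t ht
  have e0 : rh0 j s = fun u : ℝ => rhS j s u := (rho0_eq j s).symm
  have e1' : (Vp (fun u : ℝ => rhS j s u) (eC e1 J j) : (ℂ → ℂ) → CfN (2 * (j + 1)) → ℂ) =
      fun h => evN fun n => Vy 0 (eC e1 J j n) (rhS j s) fun _ => h := funext fun h => Vp_evN _ _ _
  have key := levD_of (h4 s hs t ht) (h1 s hs t ht) (y₁ := y1) (y₂ := y2) (a := a) (th := th j)
    (dp' := dp j) (K' := A * Kj ε j) (mf := mf t) (s' := PBEI.sg') (σ := wm)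
    (ap := Apl (rowS j s) 0) (am := Ami (rowS j s) 0) (bc := Bch) (Bρ := B) ha PBEM.y1_neg
    PBEM.y2_pos (by unfold PBEI.y1; rw [hlM]; linarith) (by unfold PBEI.y2; rw [hlM]; linarith)
    (by linarith) (by linarith) (by unfold PBEI.y1; rw [hlM]; linarith)
    (by unfold PBEI.y2; rw [hlM]; linarith) (Kj_pos ε j).le
    (mul_le_mul_of_nonneg_right hA (Kj_pos ε j).le) (hth j) (hdp j)
    (rhS_meas j hs1).aestronglyMeasurable hB
    (by rw [e1']; exact h2 s hs t ht) hm hm'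
    (PBEI.Apl_measurable _ _) (PBEI.Ami_measurable _ _)
    PBEI.Bch_measurable
  rw [e0]
  exact key

end PBLX.PLX

end
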