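import Pool.Agent.PLX.Ns
import Pool.Agent.PLX.PB.LevX

/-!
# Plan B: the data of level two at the family, final form (helper91)

`LevW Q`: the identities `Q K th dp` hold for large sizes.
* **`levF`**: `PBEM.LevD` (rate `19/10`) for large `j`, all `s`, `t` in `[0, 1]`, with the sizes that
  `PBEM.E2_of` needs (any `c ≤ 13/20`).
-/

set_option autoImplicit false
set_option linter.unusedSectionVars false

noncomputable section

open Complex MeasureTheory Filter Topology Set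
open scoped ENNReal

open PLX (Fil)

namespace PBLX.PLX

open NUO NUP1S NUP1S.Ab NUP1S.AbC NUGC NUGC.PLX PBF PBF.PLX PBFunc PBFunc.PLX PBU PBU.PLX PBWP PBWP.PLX
open NUP1 hiding Kd
open PBEI (rowS y1 y2 Apl Ami Bch)
open PBV (wm)

attribute [local instance] NUSea.seaP

variable [Fil]

/-- the statement for large sizes -/
def LevW (Q : (ℕ → ℝ) → (ℕ → ℝ) → (ℕ → ℝ) → ℝ → ℝ → ℝ → Prop) : Prop :=
  ∃ a0 : ℝ, 0 < a0 ∧ ∀ ep e1 J : ℝ, SmallP a0 ep e1 J → ∃ C : ℝ, 0 ≤ C ∧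
    ∀ K th dp : ℕ → ℝ, (∀ j, C * Kj (1 / 100) j ≤ K j) →
      (∀ j : ℕ, C * ((j : ℝ) + 1) ^ (-(141 / 200 : ℝ)) ≤ th j) →
      (∀ j, C * dj (1 / 100) e1 (189 / 100) j ≤ dp j) → Q K th dp ep e1 J

/-- **level two, final form** -/
theorem levF [MomS] {mf : ℝ → ℝ → ℂ} (h1 : LevW (WpS (19 / 10) mf)) (h2 : LevW (WmS (19 / 10))) :
    ∃ a0 : ℝ, 0 < a0 ∧ ∀ ep e1 J : ℝ, SmallP a0 ep e1 J →
      ∃ (K th dp : ℕ → ℝ) (C : ℝ), 0 ≤ C ∧
        (∀ᶠ j : ℕ in atTop, ∀ s ∈ Icc (0 : ℝ) 1, ∀ t ∈ Icc (0 : ℝ) 1,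
          PBEM.LevD y1 y2 (19 / 10) (mN (2 * (j + 1))) (wS ep e1 J j s t)
            (Vp (rh0 j s) (eC e1 J j)) (Vm (rh0 j s) (eC e1 J j))
            (SN (rh0 j s) (NUSea.PLX.O.par0 (j + 1)) (eC e1 J j)) (K j) (th j) (dp j) (mf t) PBEI.sg' wm (Apl (rowS j s) 0) (Ami (rowS j s) 0) Bch) ∧
        ∀ c : ℝ, 0 ≤ c → c ≤ 13 / 20 → ∀ j : ℕ, 1 ≤ j →
          2 * K j * th j ≤ C * (j : ℝ) ^ (-c) ∧ dp j ≤ C * (j : ℝ) ^ (-c) := by
  obtain ⟨a1, ha1, H1⟩ := h1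
  obtain ⟨a2, ha2, H2⟩ := h2
  obtain ⟨a3, ha3, H3⟩ := mbdS (q := 189 / 100) (ε := 1 / 100) (by norm_num) (by norm_num)
    (by norm_num)
  refine ⟨min a1 (min a2 a3), lt_min ha1 (lt_min ha2 ha3), fun ep e1 J hp => ?_⟩
  obtain ⟨C1, hC1, G1⟩ := H1 ep e1 J (hp.mono (min_le_left _ _))
  obtain ⟨C2, hC2, G2⟩ := H2 ep e1 J (hp.mono ((min_le_right _ _).trans (min_le_left _ _)))
  have hl := NUP1.Bd.l_pos
  have G3 := H3 ep e1 J (hp.mono ((min_le_right _ _).trans (min_le_right _ _))) (-(ep / 4))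
    (9 / 100 * NUP1.l) (by linarith [hp.ep0]) (by positivity)
  obtain ⟨A, hA⟩ : ∃ A : ℝ, A = KS + C1 + C2 := ⟨_, rfl⟩
  have hKS := one_le_KS
  have hAK : KS ≤ A := by rw [hA]; linarith
  have hA1 : C1 ≤ A := by rw [hA]; linarith
  have hA2 : C2 ≤ A := by rw [hA]; linarith
  have hA0 : 0 ≤ A := by linarith
  have hp0 : ∀ j : ℕ, (0 : ℝ) ≤ ((j : ℝ) + 1) ^ (-(141 / 200 : ℝ)) := fun j => by positivity
  have k1 := G1 (fun j => A * Kj (1 / 100) j) (fun j => A * ((j : ℝ) + 1) ^ (-(141 / 200 : ℝ)))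
    (fun j => A * dj (1 / 100) e1 (189 / 100) j)
    (fun j => mul_le_mul_of_nonneg_right hA1 (Kj_pos _ j).le)
    (fun j => mul_le_mul_of_nonneg_right hA1 (hp0 j))
    (fun j => mul_le_mul_of_nonneg_right hA1 (dj_pos _ _ _ j).le)
  have k2 := G2 (fun j => A * Kj (1 / 100) j) (fun j => A * ((j : ℝ) + 1) ^ (-(141 / 200 : ℝ)))
    (fun j => A * dj (1 / 100) e1 (189 / 100) j)
    (fun j => mul_le_mul_of_nonneg_right hA2 (Kj_pos _ j).le)
    (fun j => mul_le_mul_of_nonneg_right hA2 (hp0 j))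
    (fun j => mul_le_mul_of_nonneg_right hA2 (dj_pos _ _ _ j).le)
  refine ⟨fun j => A * Kj (1 / 100) j, fun j => A * ((j : ℝ) + 1) ^ (-(141 / 200 : ℝ)),
    fun j => A * dj (1 / 100) e1 (189 / 100) j, 12 * A * Real.exp 2 * A + 3 * Real.exp 2 * A,
    by positivity, ?_, fun c hc hc' j hj => ⟨?_, ?_⟩⟩
  · exact levX hp (by norm_num) hAK (fun j => mul_nonneg hA0 (hp0 j))
      (fun j => mul_nonneg hA0 (dj_pos _ _ _ j).le) G3 k1 k2
  · refine (sz_th (d := 141 / 200) hA0 hA0 hc (by linarith) hj).trans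
      (mul_le_mul_of_nonneg_right ?_ (by positivity))
    have : 0 ≤ 3 * Real.exp 2 * A := by positivity
    linarith
  · refine (sz_dp hA0 hc ?_ hj).trans (mul_le_mul_of_nonneg_right ?_ (by positivity))
    · have := hp.e1'
      have := hp.e0
      nlinarith
    · have : 0 ≤ 12 * A * Real.exp 2 * A := by positivity
      linarith

end PBLX.PLX

end
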