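import Pool.Agent.PLX.Ns
import Pool.Agent.PLX.PB.LPoK
import Pool.Agent.PLX.PB.LogZ
import Pool.Agent.PB.VInst2

/-!
# Instances at the family of the dislocated function, both channels (plan B, I2)

* `cV_deriv_congr`, `cG_congr`, `kp2_congr`; `hr_I`; `hr_rowS`: the heights of the rows
  `(I s, 0, .., 0)` are real;
* **`hl_fam`**: the force on the species `u` without the row force, at every height of the strip
  `|Im z| < l`, for the density `rhoR (rowS j s) (l + I z)` of the one-fold rows;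
* `hl_fibN`: the same on the curves of `FibN`, in the form of `PBWP.wplus`, `PBWM.wm_of`;
* `h0T_fam`: the leg is analytic and bounded; `LPo_line`, `obF_line`.
-/

set_option autoImplicit false
set_option linter.unusedSectionVars false

noncomputable section

open Complex MeasureTheory Finset Filter Topology

open PLX (Fil)

namespace PBWP.PLX

open NUO NUP1 NUCR NUP1S NUP1S.Ab NUP1S.AbC NUGC NUGC.PLX PBFunc PBFunc.PLX PBF PBF.PLX

/-- the convolution of the derivative only depends on the function in the strip -/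
theorem cV_deriv_congr {f g : ℂ → ℂ} {b : ℝ} (h : ∀ z : ℂ, |z.im| < b → f z = g z) {z : ℂ}
    (hz : |z.im| < b) : PB.cV (deriv f) z = PB.cV (deriv g) z := by
  have ho : IsOpen {w : ℂ | |w.im| < b} := Pool.Agent.PB.strip_open b
  unfold PB.cV
  refine integral_congr_ae (Eventually.of_forall fun u => ?_)
  simp only
  have h1 : z - (u : ℂ) ∈ {w : ℂ | |w.im| < b} := by
    show |(z - (u : ℂ)).im| < b
    simpa using hz
  have h2 : f =ᶠ[𝓝 (z - (u : ℂ))] g := by
    filter_upwards [ho.mem_nhds h1] with w hw using h w hw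
  rw [h2.deriv_eq]

/-- the convolution with the cross kernel only depends on the function in the strip -/
theorem cG_congr {f g : ℂ → ℂ} {b : ℝ} (h : ∀ z : ℂ, |z.im| < b → f z = g z) {z : ℂ}
    (hz : |z.im| < b) : PB.cG f z = PB.cG g z := by
  unfold PB.cG
  refine integral_congr_ae (Eventually.of_forall fun u => ?_)
  simp only
  rw [h (z - (u : ℂ)) (by simpa using hz)]

theorem hr_I (t : ℝ) : PBQ1.hr (I * t) = t := by
  unfold PBQ1.hr
  linear_combination (-(t : ℂ)) * I_mul_I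

theorem hr_rowS (j : ℕ) (s : ℝ) (i : Fin (j + 1)) : (PBQ1.hr (PBEI.rowS j s i)).im = 0 := by
  by_cases h : i = 0
  · rw [h, PBEI.rowS_zero, hr_I, ofReal_im]
  · rw [PBEI.rowS_ne j s h]
    unfold PBQ1.hr
    simp

open _root_.Pool.Agent.PLX (rwq)

variable [Fil]

/-- the row force only depends on the density in the strip -/
theorem kp2_congr {f g : ℂ → ℂ} {b : ℝ} (h : ∀ z : ℂ, |z.im| < b → f z = g z) (u : Bool) {z : ℂ}
    (hz : |z.im| < b) : PB.kp2 f u z = PB.kp2 g u z := by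
  unfold PB.kp2
  rw [cV_deriv_congr h hz, cG_congr h hz]

/-- **the force without the row force** -/
theorem hl_fam (β : ℝ) (W : List ℂ) (u : Bool) (j : ℕ) (s t : ℝ) {z : ℂ} (hz : |z.im| < NUP1.l) :
    I * PBLZ.PLX.LZX u β (PBEI.rowS j s) W (I * t) (NUP1.l + I * z) -
      PB.kp2 (fun z => PBForce.rhoR (PBEI.rowS j s) (NUP1.l + I * z)) u z =
      PBEI.h0T t z + PBLZ.PLX.cutI β (List.ofFn (rwq (PBEI.rowS j s) u) ++ W) z := by
  have h1 : ∀ w : ℂ, |w.im| < NUP1.l → ∀ i, |(w - PBQ1.hr (PBEI.rowS j s i)).im| < NUP1.l := by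
    intro w hw i
    rw [sub_im, hr_rowS, sub_zero]
    exact hw
  have e : PB.kp2 (fun z => PBForce.rhoR (PBEI.rowS j s) (NUP1.l + I * z)) u z =
      PB.kp2 (PBLZ.PLX.rhoH (PBEI.rowS j s)) u z :=
    kp2_congr (b := NUP1.l) (fun w hw => PBLZ.PLX.rhoH_eq (h1 w hw)) u hz
  rw [e, PBLZ.PLX.I_LZX u β W (h1 z hz) (by rw [hr_I]; simpa using hz), hr_I]
  unfold PBEI.h0T
  ring

/-- **the force on the curves**, in the form of `wplus` and `wm_of` -/
theorem hl_fibN {N : ℕ} {Z : ℕ → Bool → Option O3 → ℂ → ℂ} {P : ℕ → NUO.Par} {η η' : ℕ → Crs}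
    {δ b0 b1 : ℝ} {κ : ℕ → ℝ} {LP : ℕ → (r : ℕ) → (Fin r → Xo) → Bool → ℂ → ℂ} {β : ℝ}
    {W : List ℂ} {j : ℕ} {s t : ℝ} {ρ : ℂ → ℂ}
    (h : FibN N Z P η η' δ 0 b0 b1 κ (fun _ u => PBLZ.PLX.LZX u β (PBEI.rowS j s) W (I * t)) LP ρ)
    (hρ : ρ = fun z => PBForce.rhoR (PBEI.rowS j s) (NUP1.l + I * z)) (n : ℕ) (hn : n ≤ N)
    (r : ℕ) (O : Fin r → Xo) (u : Bool) (y : ℝ) :
    I * PBLZ.PLX.LZX u β (PBEI.rowS j s) W (I * t) (NUP1.l + I * zy 0 (Fil.cv u (η n r O)) y) -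
      PB.kp2 ρ u (zy 0 (Fil.cv u (η n r O)) y) =
      PBEI.h0T t (zy 0 (Fil.cv u (η n r O)) y) +
        (fun u : Bool => PBLZ.PLX.cutI β (List.ofFn (rwq (PBEI.rowS j s) u) ++ W)) u
          (zy 0 (Fil.cv u (η n r O)) y) := by
  subst hρ
  refine hl_fam β W u j s t ?_
  have h1 := zy_strip (h.hs n hn) r O u y
  have h2 := h.b01
  have h3 := h.b1l
  have h4 := h.b1p
  linarith

/-- **the leg is analytic and bounded** -/
theorem h0T_fam {b : ℝ} (hb : b ≤ 2 / 5 * NUP1.l) (t : ℝ) :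
    (∀ z : ℂ, |z.im| < b → DifferentiableAt ℂ (PBEI.h0T t) z) ∧
    ∀ z : ℂ, |z.im| < b → ‖PBEI.h0T t z‖ ≤ PBEI.cL := by
  have h := PBEI.h0_TC le_rfl (by norm_num : (0 : ℝ) ≤ 2) t
  have hl := Bd.l_pos
  have e : (NUMF.l : ℝ) = NUP1.l := rfl
  constructor
  · intro z hz
    obtain ⟨h1, h2⟩ := abs_lt.1 hz
    exact h.an.differentiableAt ((Pool.Agent.PB.isOpen_Sp _ _).mem_nhds
      ⟨by rw [e]; linarith, by rw [e]; linarith⟩)
  · intro z hz
    obtain ⟨h1, h2⟩ := abs_lt.1 hz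
    have h3 := h.bd z ⟨by rw [e]; linarith, by rw [e]; linarith⟩
    simpa using h3

/-- the closed form is the force, in the form of `wm_of` -/
theorem LPo_line (P : NUO.Par) (r : ℕ) (O : Fin r → Xo) (s : Bool) (t : ℝ) :
    LPo P r O s (NUP1.l + I * t) = PBOR.PLX.kP P O s (NUP1.l + I * t) := LPo_eq P O s _

/-- in the form of `wplus` -/
theorem obF_line [NUSea.Sea] (m : ℕ) (r : ℕ) (O : Fin r → Xo) (s : Bool) :
    ∃ B : ℝ, ∀ t : ℝ, ‖obF (LPo (NUSea.PLX.O.par0 m)) r O s t‖ ≤ B :=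
  ⟨_, fun t => obF_leR (PBOR.PLX.PO_par0 m O) s t⟩

end PBWP.PLX

end
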