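import Pool.Agent.PLX.PB.TRsDb
import Pool.Agent.PLX.PB.FNeq
import Pool.Agent.PLX.PB.Reg0

/-!
# Plan B, (TR), s-path: the ratio `regular spectators / legs`, rows `(0 | 0^q)`

Half quanta at `w`, `w'` (`Re = 5 l / 4`), legs at `zz w w' = l - (w + w') / 2`.

* `ZW`, `ZLw`: one body functions of the regular and of the dislocated function, species X: `m` own rows and
  `q m` rows of the other group, species Y: `q m` own rows and `m` rows of the other group;
* **`ZW_eq`**: `ZW b k u = sgk k * ZLw b k u * exp (DT b k u)`, `sgk = (-1) ^ quanta`, on the lines.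
-/

set_option autoImplicit false
set_option linter.unusedSectionVars false
set_option linter.unusedVariables false

noncomputable section

open Complex Finset
open PLX (Fil)

namespace PBTs.PLX

open NUP1 (l vl)
open NUP1S (O3)
open NUP1.Leg (Ck Dk thE)
open NURow (CC DD)
open PBX (Lg thS ph)
open PBT3 (zz)
open PBTD (DelQ KA)
open Pool.Agent.PLX (RU XXU R0)

variable [Fil]

/-- one body functions of the regular function, both half quanta, rows and ends `0` -/
def ZW (m : ℕ) (β : ℝ) (ex ex0 : List ℂ) (w w' : ℂ) : Bool → Option O3 → ℂ → ℂ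
  | true => (R0 m β ex ex0).Xs (fun u => Ck (w - u) * Dk (w' - u))
      (fun u => CC (w - u) * DD (w' - u))
  | false => (R0 m β ex ex0).Ys (fun u => Dk (w - u) * Ck (w' - u))
      (fun u => DD (w - u) * CC (w' - u))

/-- one body functions of the dislocated function, rows `0`, legs at `zz w w'` -/
def ZLw (m : ℕ) (β : ℝ) (ex ex0 : List ℂ) (w w' : ℂ) : Bool → Option O3 → ℂ → ℂ :=
  PBX.PLX.ZL β (fun _ : Fin m => (0 : ℂ)) ex ex0 (zz w w')

theorem ZLw_comm (m : ℕ) (β : ℝ) (ex ex0 : List ℂ) (w w' : ℂ) (b : Bool) :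
    ZLw m β ex ex0 w' w b = ZLw m β ex ex0 w w' b := by
  unfold ZLw
  rw [PBTD.zz_comm w' w]

section

variable {w w' u : ℂ} (hw : w.re = 5 / 4 * l) (hw' : w'.re = 5 / 4 * l)
include hw hw'

/-- **regular = legs times the exponential of the logarithms** -/
theorem ZW_eq (m : ℕ) (β : ℝ) (ex ex0 : List ℂ) (b : Bool) {k : Option O3} (hu : At k u) :
    ZW m β ex ex0 w w' b k u = sgk k * ZLw m β ex ex0 w w' b k u * exp (DT w w' b k u) := by
  cases b
  · rw [← ZLw_comm m β ex ex0 w w' false]
    have h := XXU_ratio hw' hw (NUP1.Leg.cc (Fil.q * m)) β (fun _ : Fin (Fil.q * m) => (0 : ℂ))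
      (fun _ : Fin m => (0 : ℂ)) (PBX.gP β ex) (PBX.gP (4 / 3) ex0) hu
    refine Eq.trans ?_ h
    have e1 : (fun u => Dk (w - u) * Ck (w' - u)) = fun u => Ck (w' - u) * Dk (w - u) := by
      funext v
      ring
    have e2 : (fun u => DD (w - u) * CC (w' - u)) = fun u => CC (w' - u) * DD (w - u) := by
      funext v
      ring
    show (R0 m β ex ex0).Ys (fun u => Dk (w - u) * Ck (w' - u))
      (fun u => DD (w - u) * CC (w' - u)) k u = _
    rw [e1, e2]
    rfl
  · exact XXU_ratio hw hw' (NUP1.Leg.cc m) β (fun _ : Fin m => (0 : ℂ))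
      (fun _ : Fin (Fil.q * m) => (0 : ℂ)) (PBX.gP β ex) (PBX.gP (4 / 3) ex0) hu

end

end PBTs.PLX

end
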