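import Pool.Agent.PLX.Ns
import Pool.Agent.PLX.PB.TRsB
import Pool.Agent.PLX.PB.WardCf

/-!
# Plan B, (TR), s-path: the mean statement

The weights `expZ Z D s`, the Ward field `X` with `rsp (ρ X) = D - E`, the forces `lg` (legs and cutoff
together), `s D1` (path) and `ko` (objects).

* `fMH` : the force times the field; `WM` : the Ward insertion with `Ψ = 1`; `ERR` : the error;
* `MeanH` : the hypotheses for one class; **`MeanH.point`** (M1): `A - (κ0 + s q + p) = ERR - WM`;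
* `MeanH.ward` : `FF WM = 0`; **`MeanH.FF_mean`** (M2);
* **`mean_N`** (M3): the mean statement on `mN N`, the input of `nF_err`.
-/

set_option autoImplicit false
set_option linter.unusedSectionVars false

noncomputable section

open Complex MeasureTheory Finset
open scoped ENNReal
open PLX (Fil)

namespace PBF.PLX

open NUO NUP1 NUCR NUP1S NUP1S.Ab NUP1S.AbC NUGC NUGC.PLX PBFunc PBFunc.PLX

variable [Fil]

/-- the field times the forces -/
def fMH (s : ℂ) (X D1 lg : Bool → ℂ → ℂ) (ko : (r : ℕ) → (Fin r → Xo) → Bool → ℂ → ℂ) :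
    (r : ℕ) → (Fin r → Xo) → Bool → ℂ → ℂ := fun r O b z =>
  X b z * (lg b z + s * (I * D1 b (NUP1.l + I * z)) + ko r O b z)

/-- the Ward insertion with `Ψ = 1` -/
def WM (η : Crs) (ρ : ℂ → ℂ) (X : Bool → ℂ → ℂ)
    (L : (r : ℕ) → (Fin r → Xo) → Bool → ℂ → ℂ) : Ins := fun r O a b x =>
  -Vst η ρ (PB.rsp (PB.mulF2 ρ X)) r O a b x + Qst η ρ X r O a b x +
    Sst η (fun r O s z => X s z * lamF ρ L r O s z) r O a b x

/-- **the error insertion** -/
def ERR (D : Bool → Option O3 → ℂ → ℂ) (P : NUO.Par) (η : Crs) (s p q : ℂ) (ρ : ℂ → ℂ)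
    (X D1 E lg : Bool → ℂ → ℂ) (ko : (r : ℕ) → (Fin r → Xo) → Bool → ℂ → ℂ) : Ins :=
  fun r O a b x =>
    (stO D P O + ∑ b, (∫ t : ℝ, Fil.b b * ρ t * fMH s X D1 lg ko r O b t) - s * q - p) +
      Vst η ρ (fun b z => E b z + fMH s X D1 lg ko r O b z) r O a b x + Qst η ρ X r O a b x

/-- the mean of the statistic of the quanta -/
def kap (D : Bool → Option O3 → ℂ → ℂ) (ρ : ℂ → ℂ) : ℂ :=
  ∑ b, ∫ t : ℝ, Fil.b b * ρ t * D b none (NUP1.l + I * t)

/-- **the data of one class**: `Q` = number of quanta X minus number of quanta Y -/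
structure MeanH (Z D : Bool → Option O3 → ℂ → ℂ) (P : NUO.Par) (η η' : Crs) (Q : ℤ)
    (s : ℂ) (δ κ b1 : ℝ) (ρ : ℂ → ℂ) (X LZ D1 E lg : Bool → ℂ → ℂ)
    (LP ko : (r : ℕ) → (Fin r → Xo) → Bool → ℂ → ℂ) : Prop where
  hQ : QOk (expZ Z D s) δ κ Q
  hP : GoodP P
  h0 : 0 ≤ δ
  h1 : δ ≤ 1 / 20
  hj : P.jL + δ < 3
  crv : ∀ r O, CrvR δ (η r O) (η' r O)
  hL : LogD (expZ Z D s) P δ (fun b z => LZ b z + s * D1 b z) LP
  b0 : NUP1.l / 20 < b1
  bl : 2 * b1 ≤ NUP1.l
  sea : PB.SeaF b1 ρ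
  fld : PB.FldF b1 X
  eR : ∀ b (z : ℂ), |z.im| < b1 →
    PB.rsp (PB.mulF2 ρ X) b z = D b none (NUP1.l + I * z) - E b z
  eL : ∀ b (z : ℂ), |z.im| < b1 → I * LZ b (NUP1.l + I * z) - PB.kp2 ρ b z = lg b z
  eP : ∀ r O b (z : ℂ), |z.im| < b1 → I * LP r O b (NUP1.l + I * z) = ko r O b z
  iE : ∀ b, Integrable fun t : ℝ => ρ t * E b t
  mP : ∀ r b, Measurable fun y : (Fin r → Xo) × ℂ => LP r y.1 b y.2

section one

variable {Z D : Bool → Option O3 → ℂ → ℂ} {P : NUO.Par} {η η' : Crs} {Q : ℤ} {s : ℂ} {δ κ b1 : ℝ}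
  {ρ : ℂ → ℂ} {X LZ D1 E lg : Bool → ℂ → ℂ} {LP ko : (r : ℕ) → (Fin r → Xo) → Bool → ℂ → ℂ}

theorem int_b (b : Bool) {ρ : ℂ → ℂ} {f : ℂ → ℂ} (h : Integrable fun t : ℝ => ρ t * f t) :
    Integrable fun t : ℝ => (Fil.b b : ℂ) * ρ t * f t := by
  refine (h.const_mul (Fil.b b : ℂ)).congr (Filter.Eventually.of_forall fun t => ?_)
  simp only []
  ring

/-- integrability on the line -/
theorem int_line2 (hρ : PB.SeaF b1 ρ) (hX : PB.FldF b1 X) (h0 : 0 < b1) (b : Bool) :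
    (Integrable fun s : ℝ => ρ s) ∧
    (Integrable fun s : ℝ => ρ s * (X b s * PB.kp2 ρ b s)) ∧
    (Integrable fun s : ℝ => ρ s * PB.cV (deriv (PB.mulF2 ρ X b)) s) ∧
    (Integrable fun s : ℝ =>
      ρ s * PB.cG (fun w => PB.mulF2 ρ X b w - PB.mulF2 ρ X (!b) w) s) := by
  have hL := PB.int_line hρ hX h0
  have iρ : Integrable fun s : ℝ => ρ s := by
    obtain ⟨B, D⟩ := PB.xi_dat0 hρ hX h0 true
    exact D.i0
  have iX : ∀ b, Integrable fun s : ℝ => PB.mulF ρ X b s := fun b => by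
    obtain ⟨B, D⟩ := PB.xi_dat0 hρ hX h0 b
    exact D.i1
  have j1 : ∀ b, Integrable fun s : ℝ => ρ s * PB.cG (PB.mulF ρ X b) s := fun b =>
    (PB.int_cG iρ (iX b)).congr (Filter.Eventually.of_forall fun t => by simp only [PB.cG_real])
  have j2 : ∀ b, Integrable fun s : ℝ => PB.mulF ρ X b s * PB.cG ρ s := fun b =>
    (PB.int_cG (iX b) iρ).congr (Filter.Eventually.of_forall fun t => by simp only [PB.cG_real])
  have hre : ∀ (b : Bool) (s : ℝ), Integrable fun u : ℝ =>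
      PB.mulF ρ X b (u + ((s : ℂ)).im * Complex.I) := by
    intro b s
    simpa using iX b
  refine ⟨iρ, ?_, ?_, ?_⟩
  · refine (((hL b).1.const_mul (Fil.b b : ℂ)).add
      ((j2 b).const_mul ((Fil.b b : ℂ) - (Fil.b (!b) : ℂ)))).congr
      (Filter.Eventually.of_forall fun t => ?_)
    simp only [Pi.add_apply]
    unfold PB.kp2 PB.mulF
    ring
  · refine ((hL b).2.1.const_mul (Fil.b b : ℂ)).congr (Filter.Eventually.of_forall fun t => ?_)
    simp only [PB.mulF2_eq]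
    rw [PB.deriv_smul', PB.cV_smul]
    ring
  · refine (((j1 b).const_mul (Fil.b b : ℂ)).sub ((j1 (!b)).const_mul (Fil.b (!b) : ℂ))).congr
      (Filter.Eventually.of_forall fun t => ?_)
    simp only [Pi.sub_apply, PB.mulF2_eq]
    rw [PB.cG_sub ((hre b t).const_mul _) ((hre (!b) t).const_mul _), PB.cG_smul, PB.cG_smul]
    ring

/-- the linear statistic of a sum -/
theorem Vst_add (η : Crs) (ρ : ℂ → ℂ) {f g : Bool → ℂ → ℂ}
    (hf : ∀ b, Integrable fun t : ℝ => ρ t * f b t) (hg : ∀ b, Integrable fun t : ℝ => ρ t * g b t)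
    (r : ℕ) (O : Fin r → Xo) (a b : ℕ) (x : (Fin a → ℝ) × (Fin b → ℝ)) :
    Vst η ρ (fun b z => f b z + g b z) r O a b x = Vst η ρ f r O a b x + Vst η ρ g r O a b x := by
  unfold Vst PB.NX.nuL PB.rS2 PB.eR
  have e : ∀ c, ∫ u : ℝ, (Fil.b c : ℂ) * ρ u * (f c u + g c u) =
      (∫ u : ℝ, (Fil.b c : ℂ) * ρ u * f c u) + ∫ u : ℝ, (Fil.b c : ℂ) * ρ u * g c u := by
    intro c
    rw [← integral_add (int_b c (hf c)) (int_b c (hg c))]
    refine integral_congr_ae (Filter.Eventually.of_forall fun u => ?_)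
    simp only []
    ring
  simp only [e, Finset.sum_add_distrib]
  ring

/-- the linear statistic of a difference -/
theorem Vst_sub (η : Crs) (ρ : ℂ → ℂ) {f g : Bool → ℂ → ℂ}
    (hf : ∀ b, Integrable fun t : ℝ => ρ t * f b t) (hg : ∀ b, Integrable fun t : ℝ => ρ t * g b t)
    (r : ℕ) (O : Fin r → Xo) (a b : ℕ) (x : (Fin a → ℝ) × (Fin b → ℝ)) :
    Vst η ρ (fun b z => f b z - g b z) r O a b x = Vst η ρ f r O a b x - Vst η ρ g r O a b x := by
  unfold Vst PB.NX.nuL PB.rS2 PB.eR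
  have e : ∀ c, ∫ u : ℝ, (Fil.b c : ℂ) * ρ u * (f c u - g c u) =
      (∫ u : ℝ, (Fil.b c : ℂ) * ρ u * f c u) - ∫ u : ℝ, (Fil.b c : ℂ) * ρ u * g c u := by
    intro c
    rw [← integral_sub (int_b c (hf c)) (int_b c (hg c))]
    refine integral_congr_ae (Filter.Eventually.of_forall fun u => ?_)
    simp only []
    ring
  simp only [e, Finset.sum_sub_distrib]
  ring

/-- the linear statistic only depends on the strip -/
theorem Vst_congr {η η' : Crs} (hc : ∀ r O, CrvR δ (η r O) (η' r O)) (hδ : δ ≤ 1 / 20)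
    (hb : NUP1.l / 20 < b1) (ρ : ℂ → ℂ) {f g : Bool → ℂ → ℂ}
    (h : ∀ b (z : ℂ), |z.im| < b1 → f b z = g b z) (r : ℕ) (O : Fin r → Xo) (a b : ℕ)
    (x : (Fin a → ℝ) × (Fin b → ℝ)) : Vst η ρ f r O a b x = Vst η ρ g r O a b x := by
  have hl := Bd.l_pos
  unfold Vst PB.NX.nuL
  congr 1
  · refine Finset.sum_congr rfl fun k _ => ?_
    exact h _ _ ((zc_strip_cv (hc r O) hδ _ _).trans_lt hb)
  · refine Finset.sum_congr rfl fun c _ => integral_congr_ae (Filter.Eventually.of_forall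
      fun u => ?_)
    simp only []
    rw [h c (PB.eR u) (by
      unfold PB.eR
      rw [Complex.ofReal_im, abs_zero]
      linarith)]

/-- the statistic of the quanta as a sum over the complex heights -/
theorem stQ_Sst (D : Bool → Option O3 → ℂ → ℂ) (η : Crs) (r : ℕ) (O : Fin r → Xo) (a b : ℕ)
    (x : (Fin a → ℝ) × (Fin b → ℝ)) :
    stQ D (η r O) a b x = Sst η (fun _ _ b z => D b none (NUP1.l + I * z)) r O a b x := by
  unfold stQ Sst zq
  simp only [← pA_zc]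
  rw [Fintype.sum_sum_type]
  rfl

namespace MeanH

variable (h : MeanH Z D P η η' Q s δ κ b1 ρ X LZ D1 E lg LP ko)
include h

/-- the force -/
theorem lam (r : ℕ) (O : Fin r → Xo) (b : Bool) (z : ℂ) (hz : |z.im| < b1) :
    X b z * lamF ρ (LT (fun b z => LZ b z + s * D1 b z) LP) r O b z =
      fMH s X D1 lg ko r O b z := by
  unfold lamF LT fMH
  rw [← h.eL b z hz, ← h.eP r O b z hz]
  ring

theorem b1_pos : 0 < b1 := by
  have hl := Bd.l_pos
  have := h.b0
  linarith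

/-- integrability of the statistic of `D` -/
theorem iD (b : Bool) : Integrable fun t : ℝ => ρ t * D b none (NUP1.l + I * t) := by
  have hL := int_line2 h.sea h.fld h.b1_pos b
  have h1 : Integrable fun t : ℝ => ρ t * PB.cV (deriv (PB.mulF2 ρ X b)) t +
      ρ t * PB.cG (fun w => PB.mulF2 ρ X b w - PB.mulF2 ρ X (!b) w) t := hL.2.2.1.add hL.2.2.2
  refine (((h.iE b).sub h1)).congr (Filter.Eventually.of_forall fun t => ?_)
  have e := h.eR b (t : ℂ) (PB.real_im t h.b1_pos)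
  have e2 : D b none (NUP1.l + I * t) = E b t + PB.rsp (PB.mulF2 ρ X) b t := by
    rw [e]
    ring
  simp only [Pi.sub_apply]
  rw [e2]
  unfold PB.rsp
  ring

/-- integrability of the forces -/
theorem iF (r : ℕ) (O : Fin r → Xo) (b : Bool) :
    Integrable fun t : ℝ => ρ t * fMH s X D1 lg ko r O b t := by
  have hl := Bd.l_pos
  have h0 := h.h0
  have hL := int_line2 h.sea h.fld h.b1_pos b
  obtain ⟨B1, hB1⟩ := h.hL.bZ
  obtain ⟨B2, hB2⟩ := h.hL.bP r O
  obtain ⟨B3, hB3, hB3'⟩ := h.fld.bd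
  have hre : ∀ t : ℝ, ((NUP1.l : ℂ) + I * t).re ∈ Ks δ := fun t => by
    have e : ((NUP1.l : ℂ) + I * t).re = NUP1.l := by simp
    rw [e]
    constructor
    · linarith
    · nlinarith
  have iρ : Integrable fun t : ℝ => ρ t := by
    obtain ⟨A, c, hA, hc, h1⟩ := h.sea.bd
    refine PB.int_ln (A := A) hc ?_ fun t => ?_
    · have : Continuous fun t : ℝ => ρ t := by
        have h2 := PB.cont_ln (y := 0) (by rw [abs_zero]; exact h.b1_pos) h.sea.d
        simpa using h2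
      exact this.aestronglyMeasurable
    · have := h1 (t : ℂ) (PB.real_im t h.b1_pos)
      rwa [Complex.ofReal_re] at this
  have cX : Continuous fun t : ℝ => X b t := by
    have h2 := PB.cont_ln (y := 0) (by rw [abs_zero]; exact h.b1_pos) (h.fld.d b)
    simpa using h2
  have ml : Measurable fun t : ℝ => ((NUP1.l : ℂ) + I * t) := by fun_prop
  have mL : Measurable fun t : ℝ => LZ b (NUP1.l + I * t) + s * D1 b (NUP1.l + I * t) +
      LP r O b (NUP1.l + I * t) := ((h.hL.mZ b).comp ml).add ((h.hL.mP r O b).comp ml)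
  have i1 : Integrable fun t : ℝ => (X b t * (I * (LZ b (NUP1.l + I * t) +
      s * D1 b (NUP1.l + I * t) + LP r O b (NUP1.l + I * t)))) * ρ t := by
    refine iρ.bdd_mul (c := B3 * (B1 + B2))
      (cX.measurable.mul (mL.const_mul I)).aestronglyMeasurable
      (Filter.Eventually.of_forall fun t => ?_)
    rw [norm_mul, norm_mul, norm_I, one_mul]
    refine mul_le_mul (hB3' b _ (PB.real_im t h.b1_pos)) ?_ (norm_nonneg _) hB3
    exact (norm_add_le _ _).trans (add_le_add (hB1 b _ (hre t)) (hB2 b _ (hre t)))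
  refine (i1.sub hL.2.1).congr (Filter.Eventually.of_forall fun t => ?_)
  have e := h.lam r O b (t : ℂ) (PB.real_im t h.b1_pos)
  simp only [Pi.sub_apply]
  rw [← e]
  unfold lamF LT
  ring

/-- **(M1)** the pointwise identity -/
theorem point (p q : ℂ) (r : ℕ) (O : Fin r → Xo) (a b : ℕ) (x : (Fin a → ℝ) × (Fin b → ℝ)) :
    stA D P η r O a b x - (kap D ρ + s * q + p) =
      ERR D P η s p q ρ X D1 E lg ko r O a b x -
        WM η ρ X (LT (fun b z => LZ b z + s * D1 b z) LP) r O a b x := by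
  have e1 : stQ D (η r O) a b x = kap D ρ +
      Vst η ρ (fun b z => D b none (NUP1.l + I * z)) r O a b x := by
    rw [stQ_Sst]
    exact Sst_eq η ρ (fun b z => D b none (NUP1.l + I * z)) r O a b x
  have e2 : Vst η ρ (PB.rsp (PB.mulF2 ρ X)) r O a b x =
      Vst η ρ (fun b z => D b none (NUP1.l + I * z)) r O a b x - Vst η ρ E r O a b x := by
    rw [← Vst_sub η ρ h.iD h.iE]
    exact Vst_congr h.crv h.h1 h.b0 ρ h.eR r O a b x
  have e3 : Sst η (fun r O s' z => X s' z * lamF ρ (LT (fun b z => LZ b z + s * D1 b z) LP) r O s' z)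
      r O a b x = (∑ b, ∫ t : ℝ, (Fil.b b : ℂ) * ρ t * fMH s X D1 lg ko r O b t) +
        Vst η ρ (fMH s X D1 lg ko r O) r O a b x := by
    rw [← Sst_eq η ρ (fMH s X D1 lg ko r O) r O a b x]
    unfold Sst
    refine Finset.sum_congr rfl fun k _ => ?_
    exact h.lam r O _ _ ((zc_strip_cv (h.crv r O) h.h1 _ _).trans_lt h.b0)
  have e4 : Vst η ρ (fun b z => E b z + fMH s X D1 lg ko r O b z) r O a b x =
      Vst η ρ E r O a b x + Vst η ρ (fMH s X D1 lg ko r O) r O a b x :=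
    Vst_add η ρ h.iE (h.iF r O) r O a b x
  unfold stA ERR WM
  rw [e1, e2, e3, e4]
  ring

/-- the Ward identity of this class -/
theorem ward {n n' : ℕ} (hn : (n : ℤ) - n' = Q) : FF (expZ Z D s) P n n' η η'
    (WM η ρ X (LT (fun b z => LZ b z + s * D1 b z) LP)) = 0 := by
  have key := ward_V (n := n) (n' := n') h.hQ h.hP h.h0 h.h1 h.hj h.crv hn h.hL h.b0 h.bl
    h.sea h.fld (InsD.const η' 1)
  rw [← key]
  congr 1
  funext r O a b x
  unfold WM DX
  simp

end MeanH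

/-! ### measurability -/

section meas

variable {Y : Type*} [MeasurableSpace Y]

theorem meas_rsp {β : Bool → ℂ → ℂ} (hβ : ∀ b (z : ℂ), |z.im| < b1 → DifferentiableAt ℂ (β b) z)
    (b : Bool) {φ : Y → ℂ} (hφ : Measurable φ) (h1 : ∀ y, |(φ y).im| < b1) :
    Measurable fun y => PB.rsp β b (φ y) := by
  unfold PB.rsp
  refine ((meas_cV (hβ b) hφ h1).add ?_).neg
  unfold PB.cG
  have hm : Measurable fun p : Y × ℝ =>
      (β b (φ p.1 - p.2) - β (!b) (φ p.1 - p.2)) * (Pool.Agent.PB.Kg p.2 : ℂ) := by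
    have e1 : Measurable fun p : Y × ℝ => φ p.1 - (p.2 : ℂ) :=
      (hφ.comp measurable_fst).sub (Complex.measurable_ofReal.comp measurable_snd)
    have e2 : ∀ p : Y × ℝ, |(φ p.1 - (p.2 : ℂ)).im| < b1 := fun p => by simpa using h1 p.1
    refine Measurable.mul ?_ (PB.Kg_meas.comp measurable_snd)
    exact (meas_an (hβ b) e1 e2).sub (meas_an (hβ (!b)) e1 e2)
  exact (hm.stronglyMeasurable.integral_prod_right').measurable

theorem meas_zc (hm : MCr η η') (r : ℕ) (s : Bool) :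
    Measurable fun p : (Fin r → Xo) × ℝ => zc (Fil.cv s (η r p.1)) p.2 := by
  unfold zc dA
  exact (Complex.measurable_ofReal.comp measurable_snd).add
    ((Complex.measurable_ofReal.comp (Fil.measurable_cv_uncurry s (hm.m r))).mul measurable_const)

theorem meas_zq (hm : MCr η η') (r : ℕ) {a b : ℕ} (k : Fin a ⊕ Fin b) :
    Measurable fun p : (Fin r → Xo) × ((Fin a → ℝ) × (Fin b → ℝ)) => zq η r p.1 p.2 k :=
  (meas_zc hm r (spQ a b k)).comp (measurable_fst.prodMk ((meas_elim k).comp measurable_snd))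

theorem MeanH.mW (h : MeanH Z D P η η' Q s δ κ b1 ρ X LZ D1 E lg LP ko) (hm : MCr η η') :
    MIn (WM η ρ X (LT (fun b z => LZ b z + s * D1 b z) LP)) := by
  intro r a b
  have hz := fun k : Fin a ⊕ Fin b => meas_zq hm r k
  have hz' := fun (k : Fin a ⊕ Fin b) (p : (Fin r → Xo) × ((Fin a → ℝ) × (Fin b → ℝ))) =>
    (zc_strip_cv (h.crv r p.1) h.h1 (spQ a b k) (Sum.elim p.2.1 p.2.2 k)).trans_lt h.b0
  unfold WM Vst Qst Sst PB.NX.nuL PB.NX.nuQ
  refine (((Measurable.sub (Finset.measurable_fun_sum _ fun k _ => ?_) measurable_const).neg).add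
    (((measurable_const.mul (Finset.measurable_fun_sum _ fun i _ =>
    Finset.measurable_fun_sum _ fun j _ => ?_)).sub
    (Finset.measurable_fun_sum _ fun i _ => ?_)).add measurable_const)).add
    (Finset.measurable_fun_sum _ fun k _ => Measurable.mul ?_ ?_)
  · exact meas_rsp (PB.mulF2_d h.sea h.fld) _ (hz k) (hz' k)
  · exact meas_aC h.fld _ _ (hz i) (hz j) (hz' i) (hz' j)
  · exact meas_smr h.fld h.b1_pos h.sea _ (hz i) (hz' i)
  · exact meas_an (h.fld.d _) (hz k) (hz' k)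
  · unfold lamF LT
    have hp : Measurable fun p : (Fin r → Xo) × ((Fin a → ℝ) × (Fin b → ℝ)) =>
        ((NUP1.l : ℂ) + I * zq η r p.1 p.2 k) := measurable_const.add (measurable_const.mul (hz k))
    refine (measurable_const.mul (((h.hL.mZ _).comp hp).add
      ((h.mP r _).comp (measurable_fst.prodMk hp)))).sub ?_
    exact meas_kp2 h.sea.d (hz k) (hz' k) _

theorem MeanH.mE (h : MeanH Z D P η η' Q s δ κ b1 ρ X LZ D1 E lg LP ko) (hm : MCr η η')
    (hA : MIn (stA D P η)) (p q : ℂ) : MIn (ERR D P η s p q ρ X D1 E lg ko) := by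
  have e : ERR D P η s p q ρ X D1 E lg ko = fun r O a b x => (stA D P η r O a b x -
      (kap D ρ + s * q + p)) + WM η ρ X (LT (fun b z => LZ b z + s * D1 b z) LP) r O a b x := by
    funext r O a b x
    rw [h.point p q]
    ring
  rw [e]
  intro r a b
  exact ((hA r a b).sub measurable_const).add (h.mW hm r a b)

end meas

end one

/-! ### the sum over the number of quanta -/

section N

variable {Z D : ℕ → Bool → Option O3 → ℂ → ℂ} {P : ℕ → NUO.Par} {N : ℕ} {η η' : ℕ → Crs}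
  {c : ℕ → ℂ} {B : ℝ} {s : ℂ} {δ κ b1 : ℕ → ℝ} {ρ : ℕ → ℂ → ℂ} {X LZ D1 E lg : ℕ → Bool → ℂ → ℂ}
  {LP ko : ℕ → (r : ℕ) → (Fin r → Xo) → Bool → ℂ → ℂ}

/-- **(M3) the mean statement** on `mN N` (input of `nF_err`) -/
theorem mean_N (h : PathD Z D P N η η' B) (hI : WI (mN N) (wN Z P N η η' c) (fun _ => 1))
    (hM : ∀ n ≤ N, MeanH (Z n) (D n) (P n) (η n) (η' n) (-(dN N : ℤ)) s (δ n) (κ n) (b1 n) (ρ n) (X n) (LZ n)
      (D1 n) (E n) (lg n) (LP n) (ko n)) {κ0 : ℂ} (hκ : ∀ n ≤ N, kap (D n) (ρ n) = κ0) (p q : ℂ)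
    {ι : Type*} (J : Finset ι) {Y : ι → CfN N → ℝ≥0∞} (hY : ∀ j ∈ J, Measurable (Y j))
    (hE : ∀ x, ‖evN (fun n => ERR (D n) (P n) (η n) s p q (ρ n) (X n) (D1 n) (E n) (lg n) (ko n))
      x‖ₑ ≤ ∑ j ∈ J, Y j x) :
    ENNReal.ofReal ‖F (mN N) (wN (expN Z D s) P N η η' c) (evN (stN D P η)) -
      (κ0 + s * q + p) * F (mN N) (wN (expN Z D s) P N η η' c) (fun _ => 1)‖ ≤
      ∑ j ∈ J, ∫⁻ x, ‖wN (expN Z D s) P N η η' c x‖ₑ * Y j x ∂(mN N) := by
  set w := wN (expN Z D s) P N η η' c with hw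
  have mw : Measurable w := wN_meas (h.mc s)
  set Er : ℕ → Ins := fun n => ERR (D n) (P n) (η n) s p q (ρ n) (X n) (D1 n) (E n) (lg n) (ko n)
    with hEr
  set W : ℕ → Ins := fun n =>
    WM (η n) (ρ n) (X n) (LT (fun b z => LZ n b z + s * D1 n b z) (LP n)) with hWd
  have mE : ∀ n ≤ N, MIn (Er n) := fun n hn => (hM n hn).mE (h.hc n hn) (h.mst n hn) p q
  have mW : ∀ n ≤ N, MIn (W n) := fun n hn => (hM n hn).mW (h.hc n hn)
  have hs : ∑ j ∈ J, ∫⁻ x, ‖w x‖ₑ * Y j x ∂(mN N) = ∫⁻ x, ∑ j ∈ J, ‖w x‖ₑ * Y j x ∂(mN N) :=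
    (lintegral_finsetSum' _ fun j hj => (mw.enorm.mul (hY j hj)).aemeasurable).symm
  have hle : ∫⁻ x, ‖w x‖ₑ * ‖evN Er x‖ₑ ∂(mN N) ≤ ∑ j ∈ J, ∫⁻ x, ‖w x‖ₑ * Y j x ∂(mN N) := by
    rw [hs]
    refine lintegral_mono fun x => ?_
    rw [← Finset.mul_sum]
    exact mul_le_mul' le_rfl (hE x)
  rcases eq_or_ne (∑ j ∈ J, ∫⁻ x, ‖w x‖ₑ * Y j x ∂(mN N)) ∞ with htop | htop
  · rw [htop]
    exact le_top
  have wE : WI (mN N) w (evN Er) := by
    refine ⟨(mw.mul (evN_meas mE)).aestronglyMeasurable, ?_⟩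
    unfold HasFiniteIntegral
    simp only [enorm_mul]
    exact hle.trans_lt (lt_top_iff_ne_top.2 htop)
  have w1 : WI (mN N) w (fun _ => 1) := h.wi hI s
  have wA : WI (mN N) w (evN (stN D P η)) := by
    have h1 := h.wi (h.wiA hI) s
    simp only [mul_one] at h1
    exact h1
  have wS : WI (mN N) w (fun x => evN (stN D P η) x + (-(κ0 + s * q + p)) * 1) :=
    wA.add (w1.smul _)
  have eW : (evN W : CfN N → ℂ) = fun x => evN Er x +
      (-1) * (evN (stN D P η) x + (-(κ0 + s * q + p)) * 1) := by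
    funext x
    obtain ⟨⟨n, hn⟩, x⟩ := x
    have hn' : n ≤ N := by omega
    have := (hM n hn').point p q x.1.1 x.2.1 x.1.2.1 x.1.2.2 x.2.2
    rw [hκ n hn'] at this
    simp only [evN, ev, W, Er, stN]
    linear_combination this
  have wW : WI (mN N) w (evN W) := by
    rw [eW]
    exact wE.add (wS.smul (-1))
  have k1 : F (mN N) w (evN W) = 0 := F_zero (h.mc s) mW wW fun n hn =>
    (hM n hn).ward (by push_cast; ring)
  rw [eW, F_add wE (wS.smul (-1)), F_smul, F_add wA (w1.smul _), F_smul] at k1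
  have k2 : F (mN N) w (evN (stN D P η)) - (κ0 + s * q + p) * F (mN N) w (fun _ => 1) =
      F (mN N) w (evN Er) := by
    linear_combination -k1
  rw [k2, ofReal_norm]
  refine le_trans ?_ hle
  unfold F
  refine (enorm_integral_le_lintegral_enorm _).trans (le_of_eq ?_)
  simp only [enorm_mul]

end N

end PBF.PLX

end
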