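import Pool.Agent.PLX.Ns
import Pool.Agent.PLX.PB.TRsB
import Pool.Agent.PLX.PB.CutEps
import Pool.Agent.PLX.PB.WardFF

/-!
# Plan B, (TR), s-path: regularity of the family `Z e^{s D}`

`DOk D D1 δ B`: the logarithms `D s none` of the quanta are analytic and bounded by `B` in the strip
`Ks δ`, with the derivative `D1`.
* `QOk.expZ`, `LogD.expZ`, `DecZ.expZ`, `ZOk.expZ`, `OneC.expZ`: the hypotheses of the class formula, of
  the curves, of the second Ward identity, of the bounds for `expZ Z D s` from those of `Z`;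
* `FA_expZ_le`: `FA (expZ Z D s) Ψ ≤ e^{|s| C} FA Z Ψ` for a bounded statistic, `FA_expZ_lt`.
-/

set_option autoImplicit false
set_option linter.unusedSectionVars false

noncomputable section

open Complex MeasureTheory Finset
open scoped ENNReal

namespace PBF.PLX

open NUO NUP1 NUCR NUP1S NUP1S.Ab NUP1S.AbC NUGC NUGC.PLX

variable {Z D : Bool → Option O3 → ℂ → ℂ} {P : NUO.Par} {δ κ κ' x0 : ℝ} {Q : ℤ}

theorem norm_exp_mul_le (s : ℂ) {d : ℂ} {B : ℝ} (h : ‖d‖ ≤ B) :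
    ‖Complex.exp (s * d)‖ ≤ Real.exp (‖s‖ * B) := by
  rw [norm_exp]
  refine Real.exp_le_exp.2 ((re_le_norm _).trans ?_)
  rw [norm_mul]
  exact mul_le_mul_of_nonneg_left h (norm_nonneg _)

theorem bdd_exp {K : Set ℝ} {r : ℝ} {f g : ℂ → ℂ} (hf : Bdd K r f) {B : ℝ}
    (hg : ∀ z : ℂ, z.re ∈ K → ‖g z‖ ≤ B) (s : ℂ) :
    Bdd K r fun z => f z * Complex.exp (s * g z) := by
  obtain ⟨C, hC, h⟩ := hf
  refine ⟨C * Real.exp (‖s‖ * B), by positivity, fun z hz => ?_⟩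
  rw [norm_mul]
  calc _ ≤ (C * Real.exp (r * |z.im|)) * Real.exp (‖s‖ * B) :=
        mul_le_mul (h z hz) (norm_exp_mul_le s (hg z hz)) (norm_nonneg _)
          ((norm_nonneg _).trans (h z hz))
    _ = _ := by ring

/-- the logarithms of the quanta are analytic and bounded in the strip -/
structure DOk (D : Bool → Option O3 → ℂ → ℂ) (D1 : Bool → ℂ → ℂ) (δ B : ℝ) : Prop where
  m : ∀ s, Measurable (D s none)
  m1 : ∀ s, Measurable (D1 s)
  d : ∀ s (u : ℂ), u.re ∈ Ks δ → HasDerivAt (D s none) (D1 s u) u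
  b : ∀ s (u : ℂ), u.re ∈ Ks δ → ‖D s none u‖ ≤ B
  b1 : ∀ s (u : ℂ), u.re ∈ Ks δ → ‖D1 s u‖ ≤ B

theorem QOk.expZ' (h : QOk Z δ κ Q) (hm : ∀ s, Measurable (D s none))
    (hd : ∀ s (u : ℂ), u.re ∈ Ks δ → DifferentiableAt ℂ (D s none) u) {B : ℝ}
    (hB : ∀ s (u : ℂ), u.re ∈ Ks δ → ‖D s none u‖ ≤ B) (t : ℂ) : QOk (expZ Z D t) δ κ Q where
  kpos := h.kpos
  m s := (h.m s).mul (Complex.measurable_exp.comp ((hm s).const_mul t))
  d s u hu := (h.d s u hu).mul ((hd s u hu).const_mul t).cexp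
  b s := bdd_exp (h.b s) (hB s) t

theorem QOk.expZ (h : QOk Z δ κ Q) {D1 : Bool → ℂ → ℂ} {B : ℝ} (hD : DOk D D1 δ B) (t : ℂ) :
    QOk (expZ Z D t) δ κ Q :=
  h.expZ' hD.m (fun s u hu => (hD.d s u hu).differentiableAt) hD.b t

/-- **log derivatives of the family** -/
theorem LogD.expZ {LZ : Bool → ℂ → ℂ} {LP : (r : ℕ) → (Fin r → Xo) → Bool → ℂ → ℂ}
    (h : LogD Z P δ LZ LP) {D1 : Bool → ℂ → ℂ} {B : ℝ} (hD : DOk D D1 δ B) (t : ℂ) :
    LogD (expZ Z D t) P δ (fun s z => LZ s z + t * D1 s z) LP where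
  dZ s z hz := by
    have h1 := (h.dZ s z hz).mul (((hD.d s z hz).const_mul t).cexp)
    refine h1.congr_deriv ?_
    unfold PBF.PLX.expZ
    ring
  mZ s := (h.mZ s).add ((hD.m1 s).const_mul t)
  bZ := by
    obtain ⟨A, hA⟩ := h.bZ
    refine ⟨A + ‖t‖ * B, fun s z hz => (norm_add_le _ _).trans (add_le_add (hA s z hz) ?_)⟩
    rw [norm_mul]
    exact mul_le_mul_of_nonneg_left (hD.b1 s z hz) (norm_nonneg _)
  dP := h.dP
  mP := h.mP
  bP := h.bP

/-! ### one body data -/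

/-! ### the functional with moduli -/

variable {n n' : ℕ} {η η' : Crs} {r : ℕ}

end PBF.PLX

end
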