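import Pool.Agent.PLX.Fil
import Pool.Agent.PLX.TRRat2
import Pool.Agent.PLX.TRPh2
import Pool.Agent.PB.TRFin

/-!
# (TR) along a ray, top level: the transfer from the literal inputs

`k - 1` rows `0` in the first group, `q (k - 1)` rows `0` in the second group, ends `0`, `NL k` rows.

`S k τ` = the sum over `n` of the functionals of the class W W at the heights `τ`; `KK S k τ` = the integrand of the
regular function over the bulk term; `Rk S k τ` = the same with the prefactor of the dislocated function over the mean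
field.

* `KK_eq`: `KK S k τ = u0 * (k1T τ * Rk S k τ)` (from `PLX/TRRat2`);
* **`trP_of`**: class decomposition (H1), bound on the window (H2), s-path (H3), function side `FunO2`
  give the transfer, the limit depends on the parity of `k`.
-/

set_option autoImplicit false

noncomputable section

open Complex MeasureTheory Set Filter Topology

open PLX (Fil)

namespace PBTRF.PLX

open NUP1 (l)
open NUP1.Leg (kap Dk Bp)
open PBR (rh)
open Pool.Agent.PB (Pf)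
open PBT3 (wt zt gF k1T)
open PBTR (mT sT zT nearS)
open PBTRF (u0 u0_ne zt_zT)
open Pool.Agent.PLX (EX kfX bulkN ratio2_wt FunO2)

variable [Fil]

/-- number of the rows of the regular function -/
def NL (k : ℕ) : ℕ := (k - 1) + Fil.q * (k - 1) + 2

/-- prefactor of the regular function over the bulk term, `k - 1` and `q (k - 1)` rows -/
def nr (k : ℕ) : ℂ := (2 : ℂ) ^ (NL k * (NL k - 1)) *
  (sin l * (Bp 0 0 (fun _ : Fin (k - 1) => (0 : ℂ)) * Bp 0 0 (fun _ : Fin (Fil.q * (k - 1)) => (0 : ℂ)))) /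
    bulkN (NL k)

/-- the kernels of the two half quanta -/
def kfW (k : ℕ) (τ : ℝ × ℝ) : ℂ := kfX (k - 1) (Fil.q * (k - 1)) (wt τ.1) * kfX (Fil.q * (k - 1)) (k - 1) (wt τ.2) *
  Dk (wt τ.1 - wt τ.2)

/-- the integrand of the regular function, class W W -/
def KK (S : ℕ → ℝ × ℝ → ℂ) (k : ℕ) (τ : ℝ × ℝ) : ℂ :=
  nr k * (2 * Real.pi : ℂ)⁻¹ ^ 2 * kfW k τ * S k τ

/-- the prefactor of the dislocated function -/
def Pk (k : ℕ) (z : ℂ) : ℂ := Pf z (fun _ : Fin (k - 1) => (0 : ℂ)) (fun _ : Fin (Fil.q * (k - 1)) => (0 : ℂ))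

/-- the inverse of the exponential of the mean field -/
def EMk (k : ℕ) (τ : ℝ × ℝ) : ℂ := (EX (zt τ) (wt τ.1) (wt τ.2))⁻¹ ^ (k - 1) *
  (EX (zt τ) (wt τ.2) (wt τ.1))⁻¹ ^ (Fil.q * (k - 1))

/-- the class W W with the prefactor of the dislocated function over the mean field -/
def Rk (S : ℕ → ℝ × ℝ → ℂ) (k : ℕ) (τ : ℝ × ℝ) : ℂ := Pk k (zt τ) * EMk k τ * S k τ

theorem KK_eq (S : ℕ → ℝ × ℝ → ℂ) (k : ℕ) (τ : ℝ × ℝ) :
    KK S k τ = u0 * (k1T τ * Rk S k τ) := by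
  have h := ratio2_wt τ (k - 1) (Fil.q * (k - 1))
  have hK : nr k * kfW k τ = 3 / 2 / rh 0 * k1T τ * (Pk k (zt τ) * EMk k τ) := by
    unfold nr kfW Pk EMk NL
    rw [h]
    ring
  unfold KK Rk u0
  linear_combination ((2 * Real.pi : ℂ)⁻¹ ^ 2 * S k τ) * hK

/-- **(TR) along a ray** -/
theorem trP_of {S : ℕ → ℝ × ℝ → ℂ} {f : ℕ → ℂ → ℂ} {g : ℕ → ℂ} {Y : ℕ → ℂ} {c c1 c0 d : ℝ} {u : ℕ → ℂ}
    {V : ℕ → Set (ℝ × ℝ)} (hF : FunO2 c f g) (hc : 0 < c)
    (hu : ∀ᶠ k : ℕ in atTop, ‖u k‖ = 1) (hd : 0 < d) (hd' : d ≤ 1 / 20) (hc0 : 0 < c0)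
    (hc1 : 0 < c1) (hVm : ∀ k, MeasurableSet (V k))
    (hVS : ∀ᶠ k : ℕ in atTop, nearS (3 / 8 + d) k ⊆ V k)
    (hm : ∀ᶠ k : ℕ in atTop, AEStronglyMeasurable (KK S k) (volume.restrict (V k)))
    (H1 : ∀ᶠ k : ℕ in atTop, ‖Y k - u k * ∫ τ in V k, KK S k τ‖ ≤ (k : ℝ) ^ (-c0))
    (H2 : ∀ᶠ k : ℕ in atTop, ∀ τ ∈ V k, ‖KK S k τ‖ ≤ (k : ℝ) ^ (d / 9) * Real.exp (-(mT τ)))
    (H3 : ∀ᶠ k : ℕ in atTop, ∀ τ ∈ nearS (3 / 8 + d) k,
      ‖k1T τ‖ * ‖Rk S k τ - Complex.exp (gF τ) * f (k - 1) (zt τ)‖ ≤ (k : ℝ) ^ (-c1)) :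
    ∃ (G : ℕ → ℂ) (c' C : ℝ) (κ : ℂ) (u' : ℕ → ℂ), 0 < c' ∧ (∀ᶠ k : ℕ in atTop, ‖u' k‖ = 1) ∧
      (∀ᶠ j : ℕ in atTop, ‖g j - G (j % 2)‖ ≤ C * (j : ℝ) ^ (-c)) ∧
        ∀ᶠ k : ℕ in atTop, ‖Y k - u' k * (κ * G ((k - 1) % 2))‖ ≤ C * (k : ℝ) ^ (-c') := by
  have hl := PBR.l_pos'
  obtain ⟨A, hA, H4⟩ := PBT3.k1_exp_le
  have hb : 0 < ‖u0‖ := norm_pos_iff.2 u0_ne
  have habs : ∀ᶠ k : ℕ in atTop, ‖u0‖⁻¹ * (k : ℝ) ^ (d / 9) ≤ (k : ℝ) ^ (d / 8) := by
    have h3 : Tendsto (fun k : ℕ => (k : ℝ) ^ (d / 8 - d / 9)) atTop atTop :=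
      (tendsto_rpow_atTop (by linarith)).comp tendsto_natCast_atTop_atTop
    filter_upwards [h3.eventually_ge_atTop ‖u0‖⁻¹, eventually_ge_atTop 1] with k q1 hk
    have hk0 : (0 : ℝ) < k := by exact_mod_cast hk
    have e1 : (k : ℝ) ^ (d / 8) = (k : ℝ) ^ (d / 8 - d / 9) * (k : ℝ) ^ (d / 9) := by
      rw [← Real.rpow_add hk0]
      congr 1
      ring
    rw [e1]
    exact mul_le_mul_of_nonneg_right q1 (Real.rpow_nonneg hk0.le _)
  refine PBTR.PLX.tr_fun2 (f := f) (g := g) (x0 := -(l / 4)) (c := c)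
    (c1 := c1) (c0 := c0) (d := d) (A := A) (b := ‖u0‖) (Y := Y)
    (u := fun k => u k * u0) (R := Rk S) (k1 := k1T) (E := fun τ => Complex.exp (gF τ)) (W := V)
    hF hc (by
      rw [abs_neg, abs_of_pos (by positivity), PBV.aL_eq]
      linarith) hb (by
      filter_upwards [hu] with k hk
      rw [norm_mul, hk, one_mul]) hd hd' hc0 hc1 hVm hVS (by
      filter_upwards [hm] with k h5
      have e : (fun τ => k1T τ * Rk S k τ) = fun τ => u0⁻¹ * KK S k τ := by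
        funext τ
        rw [KK_eq S, ← mul_assoc, inv_mul_cancel₀ u0_ne, one_mul]
      rw [e]
      exact h5.const_mul _)
    (PBT3.continuous_k1T.mul PBT3.continuous_exp_gF).aestronglyMeasurable (by
      filter_upwards [H1] with k h5
      have e : u k * ∫ τ in V k, KK S k τ = u k * u0 * ∫ τ in V k, k1T τ * Rk S k τ := by
        have e2 : ∀ τ, KK S k τ = u0 * (k1T τ * Rk S k τ) := fun τ => KK_eq S k τ
        simp only [e2]
        rw [integral_const_mul, mul_assoc]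
      rw [← e]
      exact h5) (by
      filter_upwards [H2, habs] with k h5 h6 τ hτ
      have h8 := h5 τ hτ
      rw [KK_eq S, norm_mul] at h8
      have h9 : ‖k1T τ * Rk S k τ‖ ≤ ‖u0‖⁻¹ * ((k : ℝ) ^ (d / 9) * Real.exp (-(mT τ))) := by
        rw [inv_mul_eq_div, le_div_iff₀ hb]
        linarith
      refine h9.trans ?_
      rw [← mul_assoc]
      exact mul_le_mul_of_nonneg_right h6 (Real.exp_pos _).le) (by
      filter_upwards [H3] with k h5 τ hτ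
      rw [← zt_zT]
      exact h5 τ hτ) H4

end PBTRF.PLX

end
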