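import Pool.Agent.PLX.PB.TRsDa
import Pool.Agent.PB.TrG7

/-!
# Plan B, (TR), s-path: the logarithms of the path on the line `Re u = l`

* `DT_Dl`: `DT w w' b none (l + i t) = Dl w w' b t` (part of `PB/TRsD2` without the functionals).
-/

set_option autoImplicit false
set_option linter.unusedSectionVars false
set_option linter.unusedVariables false

noncomputable section

open Complex MeasureTheory Finset

namespace PBTs.PLX

open NUP1 NUP1.Bd
open PBT3 (zz)
open PBTD (DelQ DelB DelB' sb KA)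

/-! ### the logarithm on the line `Re u = l` -/

theorem DelQ_Ds (w w' t : ℂ) : DelQ w w' (zz w w') (NUP1.l + I * t) = PBT3.Ds w w' t := by
  have hcs := PBT3.cos_sin
  have e0 : Complex.cos (0 + I * t) = Complex.sin (3 * NUP1.l + (NUP1.l + I * t)) := by
    rw [zero_add, ← PBT3.sin_four_add]
    congr 1
    show 4 * (NUP1.l : ℂ) + I * t = _
    ring
  have e1 : Complex.cos (-w' + I * t) = Complex.sin (3 * NUP1.l - w' + (NUP1.l + I * t)) := by
    rw [← PBT3.sin_four_add]
    congr 1
    show 4 * (NUP1.l : ℂ) + (-w' + I * t) = _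
    ring
  have e : ∀ (x y : ℂ), x + y = 4 * NUP1.l → Complex.cos x = Complex.sin y := by
    intro x y h
    rw [hcs]
    congr 1
    show 4 * (NUP1.l : ℂ) - x = y
    rw [← h]
    ring
  rw [PBT3.Ds_eq]
  show DelQ w w' (zz w w') (NUP1.l + I * t) =
    -2 * Complex.log (Complex.cos (3 * NUP1.l + I * t)) + 2 * Complex.log (Complex.cos (0 + I * t)) +
      Complex.log (Complex.cos (3 * NUP1.l - zz w w' + I * t)) -
      Complex.log (Complex.cos (-zz w w' + I * t)) +
      Complex.log (Complex.cos (5 * NUP1.l - w + I * t)) +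
      Complex.log (Complex.cos (3 * NUP1.l - w + I * t)) -
      Complex.log (Complex.cos (4 * NUP1.l - w + I * t)) +
      Complex.log (Complex.cos (NUP1.l - w' + I * t)) -
      Complex.log (Complex.cos (2 * NUP1.l - w' + I * t)) -
      Complex.log (Complex.cos (-w' + I * t))
  rw [e0, e1, e (3 * NUP1.l + I * t) (2 * NUP1.l - (NUP1.l + I * t)) (by ring),
    e (3 * NUP1.l - zz w w' + I * t) (zz w w' + 2 * NUP1.l - (NUP1.l + I * t)) (by ring),
    e (-zz w w' + I * t) (zz w w' + 5 * NUP1.l - (NUP1.l + I * t)) (by ring),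
    e (5 * NUP1.l - w + I * t) (w - (NUP1.l + I * t)) (by ring),
    e (3 * NUP1.l - w + I * t) (w + 2 * NUP1.l - (NUP1.l + I * t)) (by ring),
    e (4 * NUP1.l - w + I * t) (w + NUP1.l - (NUP1.l + I * t)) (by ring),
    e (NUP1.l - w' + I * t) (w' + 4 * NUP1.l - (NUP1.l + I * t)) (by ring),
    e (2 * NUP1.l - w' + I * t) (3 * NUP1.l + w' - (NUP1.l + I * t)) (by ring)]
  unfold PBTD.DelQ PBTD.thL PBTD.DzL Pool.Agent.PB.LSn
  rw [lN]
  ring

/-- **the logarithm of a quantum is the function `Dl` of PB/TrG7** -/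
theorem DT_Dl (w w' : ℂ) (b : Bool) (t : ℂ) :
    DT w w' b none (NUP1.l + I * t) = PBT3.Dl w w' b t := by
  cases b
  · have h : PBT3.Dl w w' false t = PBT3.Ds w' w t := by simp [PBT3.Dl]
    rw [h]
    exact DelQ_Ds w' w t
  · have h : PBT3.Dl w w' true t = PBT3.Ds w w' t := by simp [PBT3.Dl]
    rw [h]
    exact DelQ_Ds w w' t

end PBTs.PLX

end
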