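import Pool.Agent.PLX.PB.TRsD2b
import Pool.Agent.PLX.PB.TRsDl
import Pool.Agent.PLX.PB.BsR

/-!
# Plan B, (TR), s-path: regular functional = functional of the family at `s = 1`

* `FF_congrZ` (TRsD2a): the functionals depend on the one body functions at the quanta on the curve
  and at the objects only; `FF_sgn`: signs `(-1) ^ quanta`;
* `FF_WL` (TRsD2b): `FF (ZW ..) P n (n + Fil.xn k) = (-1) ^ Fil.xn k * FF (expZ (ZLw ..) (DT w w') 1) P n (n + Fil.xn k)`;
* **`ZW_RZW`**: `ZW m β ex ex0 w w' = RZW (R0 m β ex ex0) w w'`;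
* `DT_Dl` (TRsDl): `DT w w' b none (l + i t) = Dl w w' b t`.
-/

set_option autoImplicit false
set_option linter.unusedSectionVars false
set_option linter.unusedVariables false

noncomputable section

open Complex MeasureTheory Finset
open scoped ENNReal
open PLX (Fil)

namespace PBTs.PLX

open NUO NUP1 NUCR NUP1S NUP1S.Ab NUP1S.AbC NUGC NUGC.PLX PBF PBF.PLX

variable [Fil]

/-- **the class functions of PLX/PB/BsR** -/
theorem ZW_RZW (m : ℕ) (β : ℝ) (ex ex0 : List ℂ) (w w' : ℂ) :
    PBR.PLX.RZW (_root_.Pool.Agent.PLX.R0 m β ex ex0) w w' = ZW m β ex ex0 w w' := by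
  funext b
  cases b
  · exact (_root_.Pool.Agent.PLX.ryWW (_root_.Pool.Agent.PLX.R0 m β ex ex0) w w').symm
  · exact (_root_.Pool.Agent.PLX.rxWW (_root_.Pool.Agent.PLX.R0 m β ex ex0) w w').symm

end PBTs.PLX

end
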