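import Pool.Agent.PLX.PB.TRsD3b
import Pool.Agent.PLX.PB.TRsQ

/-!
# Plan B, (TR), s-path: the logarithms of the quanta are analytic and bounded in the strip

* `DT_le`, `obT_le`: PLX/PB/TRsD3a; `DT_PathD`: PLX/PB/TRsD3b;
* **`DT_DOk`**: `DOk (DT w w') (DelB' w w' (zz w w')) δ (C (1 + M))`, `δ ≤ 1/5`.
-/

set_option autoImplicit false
set_option linter.unusedSectionVars false
set_option linter.unusedVariables false

noncomputable section

open Complex MeasureTheory Finset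
open scoped ENNReal

namespace PBTs.PLX

open NUO NUP1 NUCR NUP1S NUP1S.Ab NUP1S.AbC NUGC NUGC.PLX PBF PBF.PLX
open PBT3 (zz)
open PBTD (DelQ DelB DelQ' DelB' sb KA ct)

/-- **the logarithms of the quanta are analytic and bounded in the strip** -/
theorem DT_DOk : ∃ C : ℝ, 0 ≤ C ∧ ∀ (w w' : ℂ) (M : ℝ), w.re = 5 / 4 * NUP1.l →
    w'.re = 5 / 4 * NUP1.l → |w.im| ≤ M → |w'.im| ≤ M → ∀ δ : ℝ, δ ≤ 1 / 5 →
      DOk (DT w w') (DelB' w w' (zz w w')) δ (C * (1 + M)) := by
  obtain ⟨C, hC, h⟩ := DelB_all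
  refine ⟨C, hC, ?_⟩
  intro w w' M hw hw' iw iw' δ hδ
  have hM : 0 ≤ M := (abs_nonneg _).trans iw
  have H := fun b u (hu : u.re ∈ Ks δ) =>
    h w w' M hw hw' iw iw' b u (KA_none hw hw' (Ks_At hδ hu))
  refine ⟨fun s => measurable_DT w w' s none, measurable_DelB' w w' _, ?_, ?_, ?_⟩
  · intro s u hu
    rw [DT_none]
    exact (H s u hu).1
  · intro s u hu
    rw [DT_none]
    exact (H s u hu).2.2.1
  · intro s u hu
    exact (H s u hu).2.1.trans (by nlinarith)

end PBTs.PLX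

end
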