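import Pool.Agent.PLX.Ns
import Pool.Agent.PLX.PB.TRFin
import Pool.Agent.PLX.PB.TRsV
import Pool.Agent.PLX.PB.TRsD2
import Pool.Agent.PLX.PB.TRsD3
import Pool.Agent.PLX.PB.ParZ
import Pool.Agent.PLX.NUGC.MasterC

/-!
# (TR) along a ray, top level: the two ends of the `s`-path

`nFv` of `PB/TRsV` (normalised functional on the path):

* `SW ep e1 J k τ`: the class W W of the regular function at the heights `τ`, summed over the numbers of
  quanta (`k - 1` rows at `0`, `q`-fold in the second group, ends `0`, parameters and curve of `k`, cutoff points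
  `± i`), with the sign `(-1) ^ Fil.xn (k - 1)`;
* `pathD_v`: data of the path;
* **`nFv_zero`**: `nFv ep e1 J k τ 0 = f0Q q (k - 1) (zt τ)`;
* **`nFv_one`**: `nFv ep e1 J k τ 1 = Rk (SW ep e1 J) k τ`;
* **`h3_of`**: (H3) of `trP_of` from the estimate of `nFv` between the two ends.
-/

set_option autoImplicit false
set_option linter.unusedSectionVars false

noncomputable section

open Complex MeasureTheory Set Filter Topology

open PLX (Fil)

namespace PBTRF.PLX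

open NUP1 (l)
open NUGC.PLX (beC etaC etaC')
open NUP1S (O3)
open NUCR (CurB)
open PBFunc (WI F)
open PBF.PLX (FF FFN FAN expZ expN wN mN evN nF nF' PathD CfN)
open PBX.PLX (ZL)
open PBR.PLX (RZW)
open Pool.Agent.PB (Pf)
open Pool.Agent.PLX (R0 f0Q EX)
open PBT3 (wt zt pF gF k1T)
open PBTR (nearS)
open PBU.PLX (cr cr')
open PBTV.PLX (Zv Dv Pv κv nFv wa wb nk rv okv)

attribute [local instance] NUSea.seaP

variable [Fil]

/-- the class W W, summed over the numbers of quanta -/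
def SW (ep e1 J : ℝ) (k : ℕ) (τ : ℝ × ℝ) : ℂ :=
  (-1) ^ Fil.xn (k - 1) * ∑ n ∈ Finset.range (2 * (k - 1) + 1),
    FF (RZW (R0 (k - 1) (beC ep) [I, -I] []) (wt τ.1) (wt τ.2)) (NUSea.PLX.O.par0 k) n (n + Fil.xn (k - 1))
      (cr e1 J k) (cr' e1 J k) (fun _ _ _ _ _ => 1)

/-- data of the path -/
def PD (ep e1 J : ℝ) (k : ℕ) (τ : ℝ × ℝ) (B : ℝ) : Prop :=
  PathD (fun _ => Zv ep k τ) (fun _ => Dv τ) (fun _ => NUSea.PLX.O.par0 k) (2 * (k - 1))
    (fun _ => cr e1 J k) (fun _ => cr' e1 J k) B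

/-- integrability at the left end -/
def PI (ep e1 J : ℝ) (k : ℕ) (τ : ℝ × ℝ) : Prop :=
  WI (mN (2 * (k - 1))) (wN (fun _ => Zv ep k τ) (fun _ => NUSea.PLX.O.par0 k) (2 * (k - 1))
    (fun _ => cr e1 J k) (fun _ => cr' e1 J k) (fun _ => Pv k τ)) (fun _ => 1)

/-- the curve is measurable -/
theorem mCr_cr (e1 J : ℝ) (k : ℕ) : PBF.PLX.MCr (cr e1 J k) (cr' e1 J k) :=
  ⟨fun r => PBF.PLX.curZ_meas e1 J k k r, fun r => PBF.PLX.curZ_meas' e1 J k k r⟩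

/-- **data of the path** -/
theorem pathD_v {e1 J : ℝ} (he1 : 0 < e1) (he1' : e1 ≤ 1 / 100) (hJ : 0 ≤ J) (ep : ℝ) :
    ∃ k0 : ℕ, ∀ k ≥ k0, ∀ τ : ℝ × ℝ, ∃ B, PD ep e1 J k τ B := by
  have hl := PBR.l_pos'
  obtain ⟨C, hC, H⟩ := PBTs.PLX.DT_PathD
  obtain ⟨m0, hm0, hcur⟩ := PBF.PLX.curZ_crs he1 he1' hJ (ep := 1 / 5) (by norm_num)
  refine ⟨m0, fun k hk τ => ⟨C * (1 + max |τ.1| |τ.2|), ?_⟩⟩
  refine H (wa τ) (wb τ) _ (PBT3.wt_re _) (PBT3.wt_re _) ?_ ?_ _ _ _ _ _ ?_ ?_ ?_ ?_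
  · show |(wt τ.1).im| ≤ _
    rw [PBT3.wt_im]
    exact le_max_left _ _
  · show |(wt τ.2).im| ≤ _
    rw [PBT3.wt_im]
    exact le_max_right _ _
  · exact fun n _ s q => PBX.PLX.measurable_ZL _ _ _ _ _ s q
  · exact fun n _ => PBX.PLX.ParC_par0 k
  · exact fun n _ => mCr_cr e1 J k
  · intro n _ r O t
    have h := (hcur k hk r O).h1 t
    refine h.trans ?_
    linarith

section ends

variable {ep e1 J : ℝ} {k : ℕ} {τ : ℝ × ℝ} {B : ℝ}

/-- the functional on the path as the sum over the numbers of quanta -/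
theorem nFv_eq (h : PD ep e1 J k τ B) (hI : PI ep e1 J k τ) (s : ℝ) :
    nFv ep e1 J k τ s = Complex.exp (-(s * κv k τ)) * (Pv k τ *
      ∑ n ∈ Finset.range (2 * (k - 1) + 1), FF (expZ (Zv ep k τ) (Dv τ) s) (NUSea.PLX.O.par0 k) n
        (n + Fil.xn (k - 1)) (cr e1 J k) (cr' e1 J k) (fun _ _ _ _ _ => 1)) := by
  have hm := PathD.mc h (s : ℂ)
  have hW := PathD.wi h hI (s : ℂ)
  have hΨ : ∀ n ≤ 2 * (k - 1), PBF.PLX.MIn ((fun _ _ _ _ _ _ => (1 : ℂ) : ℕ → PBF.PLX.Ins) n) :=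
    fun n _ r a b => measurable_const
  have h4 : (evN (fun _ _ _ _ _ _ => (1 : ℂ)) : CfN (2 * (k - 1)) → ℂ) = fun _ => 1 := rfl
  have hf : FAN (expN (fun _ => Zv ep k τ) (fun _ => Dv τ) s) (fun _ => NUSea.PLX.O.par0 k)
      (2 * (k - 1)) (fun _ => cr e1 J k) (fun _ => cr' e1 J k) (fun _ => Pv k τ)
      (fun _ _ _ _ _ _ => 1) < ⊤ := by
    rw [PBF.PLX.FAN_eq hm hΨ, h4]
    have h2 := hW.2
    unfold HasFiniteIntegral at h2
    simpa only [enorm_mul] using h2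
  have h3 := PBF.PLX.FFN_eq hm hΨ hf
  rw [h4] at h3
  unfold nFv nF
  rw [one_mul, ← h3]
  unfold FFN
  rw [← Finset.mul_sum, PBF.PLX.dN_two]
  rfl

/-- the legs are in the domain -/
theorem zt_mem (τ : ℝ × ℝ) : -(9 / 10 * l) < (zt τ).re ∧ (zt τ).re < 7 / 10 * l := by
  have hl := PBR.l_pos'
  rw [PBT3.zt_re]
  constructor <;> linarith

/-- **left end** -/
theorem nFv_zero (h : PD ep e1 J k τ B) (hI : PI ep e1 J k τ) (hep0 : 0 < ep)
    (hep : ep ≤ 1 / 100) (hcur : CurB ep (etaC e1 J k k) (etaC' e1 J k k)) :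
    nFv ep e1 J k τ 0 = f0Q Fil.q (k - 1) (zt τ) := by
  have hl := PBR.l_pos'
  obtain ⟨z1, z2⟩ := zt_mem τ
  rw [nFv_eq h hI 0, ofReal_zero, PBF.PLX.expZ_zero, zero_mul, neg_zero, Complex.exp_zero, one_mul]
  unfold Pv Zv f0Q
  refine (PBX.PLX.fN_FF (ep := ep) (P := NUSea.PLX.O.par0 k) (PBX.PLX.ParC_par0 k) (PBX.PLX.rad_low k) hep0 hep
    (by linarith) (by linarith) (Pool.Agent.PB.Rws_zero (k - 1)) (ex := [I, -I]) (ex0 := [])
    (fun w hw => ?_) (fun w hw => ?_) z1.le (by linarith) (η := fun _ => cr e1 J k)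
    (η' := fun _ => cr' e1 J k) fun n _ r _ => Filter.Eventually.of_forall fun _ => hcur).symm
  · have : w.re = 0 := by
      simp only [List.mem_cons, List.not_mem_nil, or_false] at hw
      rcases hw with rfl | rfl <;> simp
    rw [this, abs_zero]
    positivity
  · simp at hw

/-- the exponential of the mean -/
theorem exp_κv (k : ℕ) (τ : ℝ × ℝ) : exp (-κv k τ) = EMk k τ := by
  have hl := PBR.l_pos'
  have hG : PBT3.G5 (wa τ) (wb τ) := ⟨PBT3.wt_re _, PBT3.wt_re _⟩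
  have hz := PBT3.zt_re τ
  have hw := PBT3.wt_re τ.1
  have hw' := PBT3.wt_re τ.2
  have hD : ∀ (a : Bool) (s : ℝ), Dv τ a none (l + I * s) = PBT3.Dl (wa τ) (wb τ) a s :=
    fun a s => PBTs.PLX.DT_Dl (wa τ) (wb τ) a s
  have key := Pool.Agent.PLX.mean_pow2 (z := zt τ) (w := wt τ.1) (w' := wt τ.2)
    (D := fun a u => Dv τ a none u) (by rw [hz]; show -l < _; linarith)
    (by rw [hz]; show _ < 4 * l; linarith) (by rw [hw]; show l < _; linarith)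
    (by rw [hw]; show _ < 4 * l; linarith) (by rw [hw']; show l < _; linarith)
    (by rw [hw']; show _ < 4 * l; linarith)
    (fun s => (hD true s).trans (Pool.Agent.PLX.Dl_true_GX (wa τ) (wb τ) s))
    (fun s => (hD false s).trans (Pool.Agent.PLX.Dl_false_GX (wa τ) (wb τ) s))
    (fun a => Fil.n a * (k - 1))
  unfold EMk
  rw [Fil.n_true, Fil.n_false, one_mul] at key
  rw [← key]
  congr 2
  unfold κv PBF.PLX.kap
  refine Finset.sum_congr rfl fun b _ => ?_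
  refine integral_congr_ae (Eventually.of_forall fun t => ?_)
  show (Fil.b b : ℂ) * ((nk k : ℂ) * NUMF.Pc t) * _ = _
  rw [NUMF.Pc_ofReal, ← Fil.cast_n]
  unfold nk
  push_cast
  simp only [mul_assoc]
  rfl

/-- **right end** -/
theorem nFv_one (h : PD ep e1 J k τ B) (hI : PI ep e1 J k τ) (hep : ep ≤ 1 / 100)
    (hcur : CurB ep (etaC e1 J k k) (etaC' e1 J k k)) :
    nFv ep e1 J k τ 1 = Rk (SW ep e1 J) k τ := by
  have hl := PBR.l_pos'
  rw [nFv_eq h hI 1, ofReal_one, one_mul, exp_κv]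
  have e2 : SW ep e1 J k τ = ∑ n ∈ Finset.range (2 * (k - 1) + 1),
      FF (expZ (Zv ep k τ) (Dv τ) 1) (NUSea.PLX.O.par0 k) n (n + Fil.xn (k - 1)) (cr e1 J k) (cr' e1 J k)
        (fun _ _ _ _ _ => 1) := by
    unfold SW
    rw [Finset.mul_sum]
    refine Finset.sum_congr rfl fun n _ => ?_
    have h2 := PBTs.PLX.FF_WL (PBT3.wt_re τ.1) (PBT3.wt_re τ.2) (PBX.PLX.ParC_par0 k) (n := n) (k - 1) (beC ep)
      [I, -I] [] (k - 1) (η := cr e1 J k) (η' := cr' e1 J k)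
      (fun r _ => Filter.Eventually.of_forall fun _ t => by
        have h := hcur.h1 t
        refine h.trans ?_
        nlinarith) (fun _ _ _ _ _ => 1)
    rw [PBTs.PLX.ZW_RZW, h2, ← mul_assoc, ← mul_pow, neg_one_mul, neg_neg, one_pow, one_mul]
    rfl
  unfold Rk
  rw [e2]
  show EMk k τ * (Pv k τ * _) = Pk k (zt τ) * EMk k τ * _
  have e3 : Pv k τ = Pk k (zt τ) := rfl
  rw [e3]
  ring

end ends

/-- **(H3)** from the estimate of `nFv` between the two ends -/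
theorem h3_of {ep e1 J c1 : ℝ} (hep0 : 0 < ep) (hep : ep ≤ 1 / 100) (he1 : 0 < e1)
    (he1' : e1 ≤ 1 / 100) (hJ : 0 ≤ J)
    (hI : ∀ᶠ k : ℕ in atTop, ∀ τ : ℝ × ℝ, okv k τ → PI ep e1 J k τ)
    (hE : ∀ᶠ k : ℕ in atTop, ∀ τ : ℝ × ℝ, okv k τ →
      ‖k1T τ‖ * ‖nFv ep e1 J k τ 1 - Complex.exp (gF τ) * nFv ep e1 J k τ 0‖ ≤ (k : ℝ) ^ (-c1)) :
    ∀ᶠ k : ℕ in atTop, ∀ τ ∈ nearS (3 / 8 + 1 / 20) k,
      ‖k1T τ‖ * ‖Rk (SW ep e1 J) k τ - Complex.exp (gF τ) * f0Q Fil.q (k - 1) (zt τ)‖ ≤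
        (k : ℝ) ^ (-c1) := by
  obtain ⟨m0, hm0, hcur⟩ := PBF.PLX.curZ_crs he1 he1' hJ hep0
  obtain ⟨m1, hP⟩ := pathD_v he1 he1' hJ ep
  filter_upwards [hI, hE, eventually_ge_atTop m0, eventually_ge_atTop m1] with k g1 g2 g3 g4 τ hτ
  have hok : okv k τ := by
    have h : PBTR.mT τ ≤ (3 / 8 + 1 / 20) * Real.log k := hτ
    show 2 * |τ.1| + 2 * |τ.2| + |τ.1 - τ.2| / 2 ≤ 17 / 40 * Real.log k
    have h2 : (3 / 8 + 1 / 20 : ℝ) * Real.log k = 17 / 40 * Real.log k := by ring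
    rw [h2] at h
    exact h
  obtain ⟨B, hB⟩ := hP k g4 τ
  have hc : CurB ep (etaC e1 J k k) (etaC' e1 J k k) := hcur k g3 0 (fun i => i.elim0)
  rw [← nFv_one hB (g1 τ hok) hep hc, ← nFv_zero hB (g1 τ hok) hep0 hep hc]
  exact g2 τ hok

end PBTRF.PLX

end
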