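import Pool.Agent.PLX.Rg3
import Pool.Agent.PB.IntWW

/-!
# The regular function in sizes `(m, M)`: integrability of the class `W W`

* `cls_intQ`: a class with both half quanta on lines without poles has an integrable integrand, charge `Q`;
* `RU.Ok.int_WW`: the final class `W W` of general rows, numbers `n`, `n'` with `n + M = n' + m`.
-/

set_option autoImplicit false
set_option linter.unusedSectionVars false
set_option linter.unusedVariables false

noncomputable section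

open Complex MeasureTheory Finset
open scoped ENNReal

namespace Pool.Agent.PLX

open NUP1 NUP1S NUP1.Bd NURow PBX

/-- **integrability of a class** with both half quanta on fixed lines, charge `Q` -/
theorem cls_intQ {lo hi : Option O3 → ℝ} {κ Q cw cw' α : ℝ} {X Y : Option O3 → ℂ → ℂ}
    {lnX : ∀ p p' : ℕ, (Fin p → O3) → (Fin p' → O3) → Fin p → ℝ}
    {lnY : ∀ p p' : ℕ, (Fin p → O3) → (Fin p' → O3) → Fin p' → ℝ}
    (hκ : 0 < κ) (hok : OkS lo hi) (hlo : lo none ≤ α) (hhi : α ≤ hi none)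
    (hF : FmD lo hi κ Q (XB X Y)) {c : CD} (v : FxH lo hi (κ + 2 * Q * cw) cw c.a c.S c.K)
    (v' : FxH lo hi (κ + 2 * Q * cw') cw' c.b c.S' c.K') (hgm : Measurable c.gw)
    (hg : Bdd {c.a - c.b} (2 * (cw * cw')) c.gw) {n n' : ℕ}
    (hQ : c.dX ≤ n → c.dY ≤ n' →
      cw + cw' + (((n - c.dX : ℕ) : ℝ) - ((n' - c.dY : ℕ) : ℝ)) = Q)
    (hl : LnA lo hi lnX lnY) : Integrable (ig c X Y α n n' lnX lnY) := by
  by_cases h : c.dX ≤ n ∧ c.dY ≤ n'
  · obtain ⟨fX, fY⟩ := toXQ hF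
    have hL : LOk fun k => Set.Icc (lo k) (hi k) := hok
    have i1 : Integrable (JJ X Y c.S c.S' c.gw c.K c.K' α (n - c.dX) (n' - c.dY) lnX lnY c.a c.b)
        (volume.prod volume) :=
      integrable_JJ hL hκ (hQ h.1 h.2) fX fY (toHQ v) (toHQ v') hgm hg ⟨hlo, hhi⟩
        (fun p p' k k' i => hl.hX p p' k k' i) (fun p p' k k' i => hl.hY p p' k k' i)
    rw [← Measure.volume_eq_prod] at i1
    refine i1.congr (Filter.Eventually.of_forall fun y => ?_)
    unfold ig CD.Z CD.pre JJ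
    rw [if_pos h]
  · have e : ig c X Y α n n' lnX lnY = fun _ => 0 := by
      funext y
      unfold ig CD.Z
      rw [if_neg h, mul_zero]
    rw [e]
    exact integrable_zero _ _ _

variable {m M : ℕ} {D : RU m M}

/-- **integrability of the class `W W`** -/
theorem RU.Ok.int_WW (H : D.Ok) (hβ : 1 / 2 ≤ D.β) {n n' : ℕ} (hn : n + M = n' + m)
    {P : NUO.Par} (hP : ParP P) :
    Integrable (ig (D.cF .W .W) D.X D.Y (3 / 5 * l) n n' (lX P) (lY P)) := by
  have hQ : (n : ℝ) - n' = (m : ℝ) - M := by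
    have := num0 hn
    linarith
  have m1 := mvQ_SF (κ := 1 + ((m : ℝ) - M)) D.measurable_KF H.PB_KF_A (by linarith)
  have m2 := mvQ_SF (κ := 1 - ((m : ℝ) - M)) D.measurable_KF' H.PB_KF'_A (by linarith)
  have v1 := fxH_cast (κ' := 1 + 2 * ((m : ℝ) - M) * (1 / 2)) (m1.fx (Or.inr rfl)) (by ring)
  have v2 := fxH_cast (κ' := 1 + 2 * ((m : ℝ) - M) * (-(1 / 2))) ((m2.fx (Or.inr rfl)).flip) (by ring)
  have hg : Bdd {(5 / 4 * l - 5 / 4 * l : ℝ)} (2 * (1 / 2 * (-(1 / 2)))) (gT .W .W) := by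
    refine Bdd.mono' gw_X.1.1 ?_
    intro d hd
    rw [Set.mem_singleton_iff] at hd
    have := Bd.l_pos
    rw [hd]
    exact ⟨by linarith, by linarith⟩
  exact cls_intQ (c := D.cF .W .W) (κ := 1) (cw := 1 / 2) (cw' := -(1 / 2)) one_pos okS_P le_rfl
    le_rfl (H.fmD (by linarith)) v1 v2 (measurable_gT .W .W) hg (fun _ _ => by
      show (1 / 2 : ℝ) + -(1 / 2) + (((n - 0 : ℕ) : ℝ) - ((n' - 0 : ℕ) : ℝ)) = (m : ℝ) - M
      rw [Nat.sub_zero, Nat.sub_zero]
      linarith) (lnA_P hP)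

end Pool.Agent.PLX

end
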