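import Pool.Agent.PLX.Ns
import Pool.Agent.PLX.NUGC.ClsR4

/-!
# The regular function as the sum of its classes (plan B, U5, block R7)

* `RG`: one body functions `X`, `Y` and kernels of a regular function (any rows, any ends);
  `RG.cl`, `RG.cl1`: the 16 + 2 final classes; `RG.pre`, `RG.Z`, `RG.v` (`pre1`, `Z1`, `v1`): prefactor,
  integrand, value; `RG.tot`: the signed sum of the values = the sum of the eleven integrals;
* `RG.split`, `RG.split_le`: everything but the class `W, W`.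

Port PLX: `n` quanta X, `n + e` quanta Y.
-/

set_option autoImplicit false
set_option linter.unusedSectionVars false

noncomputable section

open Complex MeasureTheory Finset Filter
open scoped ENNReal

namespace PBR.PLX

open NUO NUP1 NUCR NUP1S NURow NUGC NUGC.PLX

/-- one body functions and kernels of a regular function -/
structure RG where
  X : Option O3 → ℂ → ℂ
  Y : Option O3 → ℂ → ℂ
  kF : ℂ → ℂ
  kP : ℂ → ℂ
  kF' : ℂ → ℂ
  kP' : ℂ → ℂ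
  kD : ℂ → ℂ
  kD' : ℂ → ℂ
  /-- number of the additional quanta Y -/
  e : ℕ

namespace RG

variable (G : RG) (P : NUO.Par)

/-- **the 16 final classes** -/
def cl (t t' : HT) : CD := cF G.X G.Y G.kF G.kP G.kF' G.kP' t t'

/-- **the two classes with one line**: `true`: D1, `false`: D1' -/
def cl1 (o : Bool) : CD1 := if o then cD G.kD else cD' G.kD'

/-- prefactor of a class at the heights `y` of the half quanta -/
def pre (t t' : HT) (y : ℝ × ℝ) : ℂ := (G.cl t t').pre (vl (htL t) y.1) (vl (htL t') y.2)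

/-- integrand of a class with `n` quanta X, `n + e` quanta Y at the heights `y` of the half quanta -/
def Z (t t' : HT) (n : ℕ) (y : ℝ × ℝ) : ℂ :=
  (G.cl t t').Z G.X G.Y (3 / 5 * l) n (n + G.e) (lX P) (lY P) (vl (htL t) y.1) (vl (htL t') y.2)

/-- value of a class -/
def v (t t' : HT) (n : ℕ) : ℂ := (G.cl t t').val G.X G.Y (3 / 5 * l) n (n + G.e) (lX P) (lY P)

/-- prefactor of a class with one line -/
def pre1 (o : Bool) (y : ℝ) : ℂ := (G.cl1 o).K (vl (-(11 / 4) * l) y)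

/-- integrand of a class with one line -/
def Z1 (o : Bool) (n : ℕ) (y : ℝ) : ℂ :=
  (G.cl1 o).Z G.X G.Y (3 / 5 * l) n (n + G.e) (lX P) (lY P) (vl (-(11 / 4) * l) y)

/-- value of a class with one line -/
def v1 (o : Bool) (n : ℕ) : ℂ := (G.cl1 o).val G.X G.Y (3 / 5 * l) n (n + G.e) (lX P) (lY P)

/-- **the signed sum of the values of the final classes** -/
def tot (n : ℕ) : ℂ :=
  (2 * (Real.pi : ℂ))⁻¹ ^ 2 * (∑ t : HT, ∑ t' : HT, t.sg * t'.sg * G.v P t t' n) -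
    sin l / sin (2 * l) * ((2 * (Real.pi : ℂ))⁻¹ * (G.v1 P true n + G.v1 P false n))

theorem cl_a (t t' : HT) : (G.cl t t').a = htL t := cF_a _ _ _ _ _ _ _ _

theorem cl_b (t t' : HT) : (G.cl t t').b = htL t' := cF_b _ _ _ _ _ _ _ _

theorem cl1_a (o : Bool) : (G.cl1 o).a = -(11 / 4) * l := by
  cases o <;> rfl

theorem v_eq (t t' : HT) (n : ℕ) : G.v P t t' n = ∫ y : ℝ × ℝ, G.pre t t' y * G.Z P t t' n y := by
  unfold v CD.val
  rw [cl_a, cl_b]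
  rfl

theorem v1_eq (o : Bool) (n : ℕ) : G.v1 P o n = ∫ y : ℝ, G.pre1 o y * G.Z1 P o n y := by
  unfold v1 CD1.val
  rw [cl1_a]
  rfl

/-- the class `W, W` -/
theorem pre_WW (y : ℝ × ℝ) : G.pre .W .W y = G.kF (vl (5 / 4 * l) y.1) * G.kF' (vl (5 / 4 * l) y.2) *
    Leg.Dk (vl (5 / 4 * l) y.1 - vl (5 / 4 * l) y.2) := rfl

theorem Z_WW (n : ℕ) (y : ℝ × ℝ) : G.Z P .W .W n y =
    ZobjQ (XS true G.X SF (fl SF) (vl (5 / 4 * l) y.1) (vl (5 / 4 * l) y.2))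
      (XS false G.Y SF (fl SF) (vl (5 / 4 * l) y.1) (vl (5 / 4 * l) y.2))
      (3 / 5 * l) n (n + G.e) (lX P) (lY P) := by
  have e1 : (G.cl .W .W).dX = 0 := rfl
  have e2 : (G.cl .W .W).dY = 0 := rfl
  unfold Z CD.Z
  rw [e1, e2, if_pos ⟨Nat.zero_le _, Nat.zero_le _⟩, Nat.sub_zero]
  rfl

theorem norm_2pi : ‖(2 * (Real.pi : ℂ))⁻¹‖ = (2 * Real.pi)⁻¹ := by
  rw [norm_inv, norm_mul, Complex.norm_real, Real.norm_eq_abs, abs_of_pos Real.pi_pos]
  norm_num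

theorem norm_sg (t : HT) : ‖t.sg‖ = 1 := by
  cases t <;> simp [HT.sg]

/-- the pairs of types except `W, W` -/
def oth : Finset (HT × HT) := (univ : Finset (HT × HT)).erase (.W, .W)

theorem mem_oth {p : HT × HT} : p ∈ oth ↔ p ≠ (.W, .W) := by
  unfold oth
  simp

theorem card_oth : oth.card = 15 := rfl

/-- **Everything but the class `W, W`.** -/
theorem split (N : ℕ) :
    ‖∑ n ∈ range (N + 1), G.tot P n -
        (2 * (Real.pi : ℂ))⁻¹ ^ 2 * ∑ n ∈ range (N + 1), G.v P .W .W n‖ ≤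
      (2 * Real.pi)⁻¹ ^ 2 * (∑ p ∈ oth, ∑ n ∈ range (N + 1), ‖G.v P p.1 p.2 n‖) +
        ‖sin (l : ℂ) / sin (2 * l)‖ * ((2 * Real.pi)⁻¹ *
          ∑ o : Bool, ∑ n ∈ range (N + 1), ‖G.v1 P o n‖) := by
  have hone : ∀ n, G.tot P n - (2 * (Real.pi : ℂ))⁻¹ ^ 2 * G.v P .W .W n =
      (2 * (Real.pi : ℂ))⁻¹ ^ 2 * (∑ p ∈ oth, p.1.sg * p.2.sg * G.v P p.1 p.2 n) -
        sin l / sin (2 * l) * ((2 * (Real.pi : ℂ))⁻¹ * (G.v1 P true n + G.v1 P false n)) := by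
    intro n
    have h1 : (∑ t : HT, ∑ t' : HT, t.sg * t'.sg * G.v P t t' n) =
        G.v P .W .W n + ∑ p ∈ oth, p.1.sg * p.2.sg * G.v P p.1 p.2 n := by
      rw [← Fintype.sum_prod_type' (f := fun t t' => t.sg * t'.sg * G.v P t t' n)]
      have h2 := Finset.add_sum_erase (univ : Finset (HT × HT))
        (fun p => p.1.sg * p.2.sg * G.v P p.1 p.2 n) (Finset.mem_univ (HT.W, HT.W))
      rw [← h2]
      simp [HT.sg, oth]
    unfold tot
    rw [h1]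
    ring
  rw [Finset.mul_sum, ← Finset.sum_sub_distrib]
  have hbd : ∀ n, ‖G.tot P n - (2 * (Real.pi : ℂ))⁻¹ ^ 2 * G.v P .W .W n‖ ≤
      (2 * Real.pi)⁻¹ ^ 2 * (∑ p ∈ oth, ‖G.v P p.1 p.2 n‖) +
        ‖sin (l : ℂ) / sin (2 * l)‖ * ((2 * Real.pi)⁻¹ * ∑ o : Bool, ‖G.v1 P o n‖) := by
    intro n
    rw [hone n]
    refine (norm_sub_le _ _).trans (add_le_add ?_ ?_)
    · rw [norm_mul, norm_pow, norm_2pi]
      refine mul_le_mul_of_nonneg_left ?_ (by positivity)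
      refine (norm_sum_le _ _).trans (sum_le_sum fun p _ => le_of_eq ?_)
      rw [norm_mul, norm_mul, norm_sg, norm_sg, one_mul, one_mul]
    · rw [norm_mul, norm_mul, norm_2pi]
      refine mul_le_mul_of_nonneg_left (mul_le_mul_of_nonneg_left ?_ (by positivity))
        (by positivity)
      rw [Fintype.sum_bool]
      exact norm_add_le _ _
  calc ‖∑ n ∈ range (N + 1), (G.tot P n - (2 * (Real.pi : ℂ))⁻¹ ^ 2 * G.v P .W .W n)‖
      ≤ ∑ n ∈ range (N + 1), ‖G.tot P n - (2 * (Real.pi : ℂ))⁻¹ ^ 2 * G.v P .W .W n‖ :=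
        norm_sum_le _ _
    _ ≤ ∑ n ∈ range (N + 1), ((2 * Real.pi)⁻¹ ^ 2 * (∑ p ∈ oth, ‖G.v P p.1 p.2 n‖) +
        ‖sin (l : ℂ) / sin (2 * l)‖ * ((2 * Real.pi)⁻¹ * ∑ o : Bool, ‖G.v1 P o n‖)) :=
        sum_le_sum fun n _ => hbd n
    _ = _ := by
        rw [sum_add_distrib, ← mul_sum, ← mul_sum, ← mul_sum, sum_comm]
        congr 3
        exact sum_comm

/-- constant of the sum over the classes -/
def KA : ℝ := 15 * ((2 * Real.pi)⁻¹) ^ 2 + 2 * ‖sin (l : ℂ) / sin (2 * l)‖ * (2 * Real.pi)⁻¹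

theorem KA_nonneg : 0 ≤ KA := by unfold KA; positivity

/-- **Everything but the class `W, W`**, from a common bound. -/
theorem split_le {N : ℕ} {B : ℝ}
    (h : ∀ t t' : HT, (t, t') ≠ (.W, .W) → ∑ n ∈ range (N + 1), ‖G.v P t t' n‖ ≤ B)
    (h1 : ∀ o : Bool, ∑ n ∈ range (N + 1), ‖G.v1 P o n‖ ≤ B) :
    ‖∑ n ∈ range (N + 1), G.tot P n -
        (2 * (Real.pi : ℂ))⁻¹ ^ 2 * ∑ n ∈ range (N + 1), G.v P .W .W n‖ ≤ KA * B := by
  refine (G.split P N).trans ?_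
  have e1 : ∑ p ∈ oth, ∑ n ∈ range (N + 1), ‖G.v P p.1 p.2 n‖ ≤ 15 * B := by
    calc ∑ p ∈ oth, ∑ n ∈ range (N + 1), ‖G.v P p.1 p.2 n‖ ≤ ∑ _p ∈ oth, B :=
          sum_le_sum fun p hp => h p.1 p.2 (mem_oth.1 hp)
      _ = 15 * B := by rw [sum_const, card_oth, nsmul_eq_mul]; norm_num
  have e2 : ∑ o : Bool, ∑ n ∈ range (N + 1), ‖G.v1 P o n‖ ≤ 2 * B := by
    rw [Fintype.sum_bool]
    linarith [h1 true, h1 false]
  calc (2 * Real.pi)⁻¹ ^ 2 * (∑ p ∈ oth, ∑ n ∈ range (N + 1), ‖G.v P p.1 p.2 n‖) +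
        ‖sin (l : ℂ) / sin (2 * l)‖ * ((2 * Real.pi)⁻¹ *
          ∑ o : Bool, ∑ n ∈ range (N + 1), ‖G.v1 P o n‖)
      ≤ (2 * Real.pi)⁻¹ ^ 2 * (15 * B) +
        ‖sin (l : ℂ) / sin (2 * l)‖ * ((2 * Real.pi)⁻¹ * (2 * B)) := by
        gcongr
    _ = KA * B := by unfold KA; ring

end RG

end PBR.PLX

end
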