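import Pool.Agent.PLX.Ns
import Pool.Agent.PB.MomQ
import Pool.Agent.PLX.R2.SqS

/-!
# PLAX: the positive gas of a configuration with all its statistics, two densities

`ρ : Bool → ℝ → ℝ` : the density of the species.

* `modeM_of_sq`, `lin_of_sq`, `quad_of_sq` : moments of the statistics of a weight with `SqW2`;
* `GasM g R ρ U c Λ τ` : mass at most `U` on the window, tail at most `U e^{-τ}`, exponential squares of all
  modes with constant `c` and total at most `U e^Λ`;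
* `GasM.lin`, `GasM.quad`, `GasM.mono`, `GasM.smul`, `GasM.weak`, `GasM.total`.
-/

set_option autoImplicit false
set_option linter.unusedSectionVars false

open MeasureTheory Set Filter Topology
open scoped ENNReal

namespace PBQ.PLX

open NUKer NUR2 NUDi PBQ

noncomputable section

variable {p n : ℕ}

/-- **all moments of the modes**: weight with exponential squares `SqW2` on the window, mass `U` -/
theorem modeM_of_sq {R c K Λ : ℝ} {ρ σ : ℝ → ℝ} {g : Cfg p n → ℝ≥0∞} (hg : Measurable g)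
    (hc : 0 < c) (hΛ : 0 ≤ Λ) {B U : ℝ≥0∞} (h : SqW2 g R ρ σ B c K)
    (h0 : ∫⁻ x in Bx R, g x ≤ U)
    (hB : B * ENNReal.ofReal (Real.exp K) ≤ U * ENNReal.ofReal (Real.exp Λ)) :
    ModeM (mWin R g) R ρ (clX (p := p) (n := n) R) U (2 * (Λ + 1) / c) ∧
    ModeM (mWin R g) R σ (clY (p := p) (n := n) R) U (2 * (Λ + 1) / c) := by
  have hm0 : mWin R g Set.univ ≤ U := by
    refine le_trans (le_of_eq ?_) h0
    have h1 := lint_win (R := R) hg (F := fun _ => 1) measurable_const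
    rw [lintegral_one] at h1
    rw [h1]
    simp only [mul_one]
  have go : ∀ (m : ℕ) (r : ℝ → ℝ) (s : Cfg p n → Fin m → ℝ) (y : Cfg p n → Fin m → ℝ), Measurable s →
      (∀ x ∈ Bx (p := p) (n := n) R, s x = y x) → ∀ (f : ℝ → ℝ), Continuous f → ∀ (a : ℝ) (k : ℕ),
      ∫⁻ x in Bx R, g x * ENNReal.ofReal (Real.exp (c / (1 + |a|) * (nu R r (y x) f) ^ 2)) ≤
        B * ENNReal.ofReal (Real.exp K) →
      ∫⁻ x, ENNReal.ofReal (((nu R r (s x) f) ^ 2) ^ k) ∂(mWin R g) ≤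
        U * ENNReal.ofReal ((k.factorial : ℝ) * (2 * (Λ + 1) / c * (1 + |a|)) ^ k) := by
    intro m r s y hs hsy f hf a k hh
    have ha : 0 < 1 + |a| := by positivity
    have h1 := mom_sq (μ := mWin R g) (F := fun x => nu R r (s x) f) (U := U) (c := c / (1 + |a|))
      (Λ := Λ) (by positivity) hΛ hm0 (by
        rw [lint_win hg ((measurable_nu hs hf).pow_const 2 |>.const_mul _ |>.exp.ennreal_ofReal)]
        refine le_trans (le_of_eq ?_) (hh.trans hB)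
        refine setLIntegral_congr_fun (measurableSet_Bx R) fun x hx => ?_
        rw [hsy x hx]) k
    have e : 2 * (Λ + 1) / (c / (1 + |a|)) = 2 * (Λ + 1) / c * (1 + |a|) := by field_simp
    rwa [e] at h1
  exact ⟨⟨fun a k => go p _ _ (fun x => x.1) (clX_meas R) (fun x hx => clX_eq hx) _ (by fun_prop) a k
      (h.cosX a), fun a k => go p _ _ (fun x => x.1) (clX_meas R) (fun x hx => clX_eq hx) _
      (by fun_prop) a k (h.sinX a)⟩,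
    ⟨fun a k => go n _ _ (fun x => x.2) (clY_meas R) (fun x hx => clY_eq hx) _ (by fun_prop) a k
      (h.cosY a), fun a k => go n _ _ (fun x => x.2) (clY_meas R) (fun x hx => clY_eq hx) _
      (by fun_prop) a k (h.sinY a)⟩⟩

/-- **all quadratic statistics** of a weight with `SqW2` on the window -/
theorem quad_of_sq {R c K Λ Λk : ℝ} {ρ σ : ℝ → ℝ} {g : Cfg p n → ℝ≥0∞} (hg : Measurable g)
    (hR : 0 ≤ R) (hρ : Continuous ρ) (hσ : Continuous σ) (hc : 0 < c) (hΛ : 0 ≤ Λ) {B U : ℝ≥0∞}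
    (hU : U ≠ ∞) (h : SqW2 g R ρ σ B c K) (h0 : ∫⁻ x in Bx R, g x ≤ U)
    (hB : B * ENNReal.ofReal (Real.exp K) ≤ U * ENNReal.ofReal (Real.exp Λ)) {κ : ℝ → ℝ → ℝ}
    (hK : KC R Λk (fun t t' => (κ t t' : ℂ))) {k : ℕ} (hk : k ≠ 0) :
    (∫⁻ x in Bx R, g x * ENNReal.ofReal (|nu2 R ρ ρ x.1 x.1 κ| ^ k) ≤
      U * ENNReal.ofReal ((k.factorial : ℝ) * (4 * (Λ + 1) / c * Λk) ^ k)) ∧
    (∫⁻ x in Bx R, g x * ENNReal.ofReal (|nu2 R ρ σ x.1 x.2 κ| ^ k) ≤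
      U * ENNReal.ofReal ((k.factorial : ℝ) * (4 * (Λ + 1) / c * Λk) ^ k)) ∧
    (∫⁻ x in Bx R, g x * ENNReal.ofReal (|nu2 R σ ρ x.2 x.1 κ| ^ k) ≤
      U * ENNReal.ofReal ((k.factorial : ℝ) * (4 * (Λ + 1) / c * Λk) ^ k)) ∧
    (∫⁻ x in Bx R, g x * ENNReal.ofReal (|nu2 R σ σ x.2 x.2 κ| ^ k) ≤
      U * ENNReal.ofReal ((k.factorial : ℝ) * (4 * (Λ + 1) / c * Λk) ^ k)) := by
  obtain ⟨hX, hY⟩ := modeM_of_sq hg hc hΛ h h0 hB
  have e : 4 * (Λ + 1) / c * Λk = 2 * (2 * (Λ + 1) / c) * Λk := by ring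
  have hv : 0 < 2 * (Λ + 1) / c := by positivity
  rw [e]
  exact ⟨nu2_win hg (clX_meas R) (clX_meas R) hR (clX_le hR) (clX_le hR) (fun x hx => clX_eq hx)
      (fun x hx => clX_eq hx) hρ hρ hK hU hv hX hX hk,
    nu2_win hg (clX_meas R) (clY_meas R) hR (clX_le hR) (clY_le hR) (fun x hx => clX_eq hx)
      (fun x hx => clY_eq hx) hρ hσ hK hU hv hX hY hk,
    nu2_win hg (clY_meas R) (clX_meas R) hR (clY_le hR) (clX_le hR) (fun x hx => clY_eq hx)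
      (fun x hx => clX_eq hx) hσ hρ hK hU hv hY hX hk,
    nu2_win hg (clY_meas R) (clY_meas R) hR (clY_le hR) (clY_le hR) (fun x hx => clY_eq hx)
      (fun x hx => clY_eq hx) hσ hσ hK hU hv hY hY hk⟩

/-- **all linear statistics** of a weight with `SqW2` on the window -/
theorem lin_of_sq {R c K Λ Λf : ℝ} {ρ σ : ℝ → ℝ} {g : Cfg p n → ℝ≥0∞} (hg : Measurable g)
    (hR : 0 ≤ R) (hρ : Continuous ρ) (hσ : Continuous σ) (hc : 0 < c) (hc1 : c ≤ 2) (hΛ : 0 ≤ Λ)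
    {B U : ℝ≥0∞} (hU : U ≠ ∞) (h : SqW2 g R ρ σ B c K) (h0 : ∫⁻ x in Bx R, g x ≤ U)
    (hB : B * ENNReal.ofReal (Real.exp K) ≤ U * ENNReal.ofReal (Real.exp Λ)) {f : ℝ → ℝ}
    (hf : Continuous f) (hK : KC1 R Λf (fun t => (f t : ℂ))) {k : ℕ} (hk : k ≠ 0) :
    (∫⁻ x in Bx R, g x * ENNReal.ofReal (|nu R ρ x.1 f| ^ (2 * k)) ≤
      U * ENNReal.ofReal ((k.factorial : ℝ) * (8 * (Λ + 1) / c * Λf ^ 2) ^ k)) ∧
    (∫⁻ x in Bx R, g x * ENNReal.ofReal (|nu R σ x.2 f| ^ (2 * k)) ≤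
      U * ENNReal.ofReal ((k.factorial : ℝ) * (8 * (Λ + 1) / c * Λf ^ 2) ^ k)) := by
  obtain ⟨hX, hY⟩ := modeM_of_sq hg hc hΛ h h0 hB
  have e : 8 * (Λ + 1) / c * Λf ^ 2 = 4 * (2 * (Λ + 1) / c) * Λf ^ 2 := by ring
  have hv : 1 ≤ 2 * (Λ + 1) / c := by
    rw [le_div_iff₀ hc]
    linarith
  rw [e]
  exact ⟨nu_win hg (clX_meas R) hR (clX_le hR) (fun x hx => clX_eq hx) hρ hf hK hU hv hX hk,
    nu_win hg (clY_meas R) hR (clY_le hR) (fun x hx => clY_eq hx) hσ hf hK hU hv hY hk⟩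

end

end PBQ.PLX

namespace PBM.PLX

open NUKer NUR2 NUDi PBQ PBQ.PLX

noncomputable section

/-- positive gas: mass and exponential squares on the window, mass outside; `ρ a` the density of the
species `a` -/
structure GasM {p n : ℕ} (g : Cfg p n → ℝ≥0∞) (R : ℝ) (ρ : Bool → ℝ → ℝ) (U : ℝ≥0∞) (c Λ τ : ℝ) :
    Prop where
  meas : Measurable g
  R0 : 0 ≤ R
  ρc : ∀ a, Continuous (ρ a)
  c0 : 0 < c
  c2 : c ≤ 2
  Λ0 : 0 ≤ Λ
  Ut : U ≠ ∞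
  mass : ∫⁻ x in Bx R, g x ≤ U
  tail : ∫⁻ x in (Bx R)ᶜ, g x ≤ U * ENNReal.ofReal (Real.exp (-τ))
  sq : ∃ (B : ℝ≥0∞) (K : ℝ), SqW2 g R (ρ true) (ρ false) B c K ∧
    B * ENNReal.ofReal (Real.exp K) ≤ U * ENNReal.ofReal (Real.exp Λ)

namespace GasM

variable {p n : ℕ} {g : Cfg p n → ℝ≥0∞} {R : ℝ} {ρ : Bool → ℝ → ℝ} {U : ℝ≥0∞} {c Λ τ : ℝ}

/-- quadratic statistics -/
theorem quad (h : GasM g R ρ U c Λ τ) {Λk : ℝ} {κ : ℝ → ℝ → ℝ}
    (hK : KC R Λk (fun t t' => (κ t t' : ℂ))) {k : ℕ} (hk : k ≠ 0) :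
    (∫⁻ x in Bx R, g x * ENNReal.ofReal (|nu2 R (ρ true) (ρ true) x.1 x.1 κ| ^ k) ≤
      U * ENNReal.ofReal ((k.factorial : ℝ) * (4 * (Λ + 1) / c * Λk) ^ k)) ∧
    (∫⁻ x in Bx R, g x * ENNReal.ofReal (|nu2 R (ρ true) (ρ false) x.1 x.2 κ| ^ k) ≤
      U * ENNReal.ofReal ((k.factorial : ℝ) * (4 * (Λ + 1) / c * Λk) ^ k)) ∧
    (∫⁻ x in Bx R, g x * ENNReal.ofReal (|nu2 R (ρ false) (ρ true) x.2 x.1 κ| ^ k) ≤
      U * ENNReal.ofReal ((k.factorial : ℝ) * (4 * (Λ + 1) / c * Λk) ^ k)) ∧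
    (∫⁻ x in Bx R, g x * ENNReal.ofReal (|nu2 R (ρ false) (ρ false) x.2 x.2 κ| ^ k) ≤
      U * ENNReal.ofReal ((k.factorial : ℝ) * (4 * (Λ + 1) / c * Λk) ^ k)) := by
  obtain ⟨B, K, h1, h2⟩ := h.sq
  exact quad_of_sq h.meas h.R0 (h.ρc true) (h.ρc false) h.c0 h.Λ0 h.Ut h1 h.mass h2 hK hk

/-- linear statistics -/
theorem lin (h : GasM g R ρ U c Λ τ) {Λf : ℝ} {f : ℝ → ℝ} (hf : Continuous f)
    (hK : KC1 R Λf (fun t => (f t : ℂ))) {k : ℕ} (hk : k ≠ 0) :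
    (∫⁻ x in Bx R, g x * ENNReal.ofReal (|nu R (ρ true) x.1 f| ^ (2 * k)) ≤
      U * ENNReal.ofReal ((k.factorial : ℝ) * (8 * (Λ + 1) / c * Λf ^ 2) ^ k)) ∧
    (∫⁻ x in Bx R, g x * ENNReal.ofReal (|nu R (ρ false) x.2 f| ^ (2 * k)) ≤
      U * ENNReal.ofReal ((k.factorial : ℝ) * (8 * (Λ + 1) / c * Λf ^ 2) ^ k)) := by
  obtain ⟨B, K, h1, h2⟩ := h.sq
  exact lin_of_sq h.meas h.R0 (h.ρc true) (h.ρc false) h.c0 h.c2 h.Λ0 h.Ut h1 h.mass h2 hf hK hk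

/-- a smaller weight, a larger mass -/
theorem mono (h : GasM g R ρ U c Λ τ) {g' : Cfg p n → ℝ≥0∞} (hm : Measurable g')
    (hg : ∀ x, g' x ≤ g x) {U' : ℝ≥0∞} (hU : U ≤ U') (hU' : U' ≠ ∞) : GasM g' R ρ U' c Λ τ where
  meas := hm
  R0 := h.R0
  ρc := h.ρc
  c0 := h.c0
  c2 := h.c2
  Λ0 := h.Λ0
  Ut := hU'
  mass := (lintegral_mono fun x => hg x).trans (h.mass.trans hU)
  tail := (lintegral_mono fun x => hg x).trans (h.tail.trans (by gcongr))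
  sq := by
    obtain ⟨B, K, h1, h2⟩ := h.sq
    exact ⟨B, K, h1.mono (fun x _ => hg x) le_rfl, h2.trans (by gcongr)⟩

/-- multiplication by a constant -/
theorem smul (h : GasM g R ρ U c Λ τ) {w : ℝ≥0∞} (hw : w ≠ ∞) :
    GasM (fun x => w * g x) R ρ (w * U) c Λ τ where
  meas := h.meas.const_mul w
  R0 := h.R0
  ρc := h.ρc
  c0 := h.c0
  c2 := h.c2
  Λ0 := h.Λ0
  Ut := ENNReal.mul_ne_top hw h.Ut
  mass := by
    rw [lintegral_const_mul _ h.meas]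
    gcongr
    exact h.mass
  tail := by
    rw [lintegral_const_mul _ h.meas, mul_assoc]
    gcongr
    exact h.tail
  sq := by
    obtain ⟨B, K, h1, h2⟩ := h.sq
    exact ⟨w * B, K, h1.smul hw, by rw [mul_assoc, mul_assoc]; gcongr⟩

/-- weaker constants -/
theorem weak (h : GasM g R ρ U c Λ τ) {c' Λ' τ' : ℝ} (hc : 0 < c') (hc' : c' ≤ c) (hΛ : Λ ≤ Λ')
    (hτ : τ' ≤ τ) : GasM g R ρ U c' Λ' τ' where
  meas := h.meas
  R0 := h.R0
  ρc := h.ρc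
  c0 := hc
  c2 := hc'.trans h.c2
  Λ0 := h.Λ0.trans hΛ
  Ut := h.Ut
  mass := h.mass
  tail := h.tail.trans (by gcongr)
  sq := by
    obtain ⟨B, K, h1, h2⟩ := h.sq
    exact ⟨B, K, h1.monoC hc' le_rfl, h2.trans (by gcongr)⟩

/-- the total mass -/
theorem total (h : GasM g R ρ U c Λ τ) (hτ : 0 ≤ τ) : ∫⁻ x, g x ≤ 2 * U := by
  rw [← lintegral_add_compl g (measurableSet_Bx R), two_mul]
  refine add_le_add h.mass (h.tail.trans ?_)
  have h1 : ENNReal.ofReal (Real.exp (-τ)) ≤ 1 := by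
    rw [← ENNReal.ofReal_one]
    exact ENNReal.ofReal_le_ofReal (Real.exp_le_one_iff.2 (by linarith))
  calc U * ENNReal.ofReal (Real.exp (-τ)) ≤ U * 1 := by gcongr
    _ = U := mul_one U

end GasM

end

end PBM.PLX
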