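import Pool.Agent.PLX.Ns
import Pool.Agent.PLX.PB.GasM

/-!
# Plan B: admissible statistics of the positive gas, two densities (PLAX)

The gas of a configuration has `PBM.PLX.GasM g R ρ U c Λ τ`, `ρ : Bool → ℝ → ℝ` the density of the species.
Here: what is needed of a statistic.

* `St R ρ c Λ τ p n a b X`: a real statistic, `|X| ≤ b`, moments `∫ g |X|^(2k) ≤ (k a)^(2k) U`;
  instances `St.linX`, `St.linY`, `St.const`, `St.smul`, `St.neg`, `St.mono`;
* `StatOK R ρ c Λ τ p n A D Ψ`: an insertion `Ψ ≥ 0`, `Ψ ≤ A`, `∫ g Ψ ≤ D U`;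
  **`StatOK.prod`**: products of statistics; `StatOK.mono`, `StatOK.add`, `StatOK.sum`, `StatOK.smul`,
  `StatOK.one`;
* `stat_gas`: the use of it.
-/

set_option autoImplicit false
set_option linter.unusedSectionVars false

open MeasureTheory Set Filter Topology
open scoped ENNReal

namespace PBZ.PLX

open NUKer NUR2 NUDi PBM PBM.PLX

noncomputable section

variable {R : ℝ} {ρ : Bool → ℝ → ℝ} {c Λ τ : ℝ} {p n : ℕ}

/-! ### bounds everywhere -/

theorem abs_nu_le' {ι : Type*} [Fintype ι] {s : ι → ℝ} {ρ : ℝ → ℝ} (hR : 0 ≤ R) (hρ : Continuous ρ)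
    {f : ℝ → ℝ} {C : ℝ} (hC : ∀ t, |f t| ≤ C) : |nu R ρ s f| ≤ tv ι R ρ * C := by
  unfold nu tv
  have h1 : |∑ i, f (s i)| ≤ (Fintype.card ι : ℝ) * C := by
    refine (Finset.abs_sum_le_sum_abs _ _).trans ?_
    calc ∑ i, |f (s i)| ≤ ∑ _i : ι, C := Finset.sum_le_sum fun i _ => hC _
      _ = _ := by simp
  have h2 : |∫ t in (-R)..R, f t * ρ t| ≤ (∫ t in (-R)..R, |ρ t|) * C := by
    have h3 : ‖∫ t in (-R)..R, f t * ρ t‖ ≤ ∫ t in (-R)..R, |ρ t| * C := by
      apply intervalIntegral.norm_integral_le_of_norm_le (by linarith)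
      · refine ae_of_all _ fun t _ => ?_
        rw [norm_mul, mul_comm, Real.norm_eq_abs, Real.norm_eq_abs]
        exact mul_le_mul_of_nonneg_left (hC t) (abs_nonneg _)
      · exact (by fun_prop : Continuous fun t => |ρ t| * C).intervalIntegrable _ _
    rwa [intervalIntegral.integral_mul_const] at h3
  calc |∑ i, f (s i) - ∫ t in (-R)..R, f t * ρ t| ≤ |∑ i, f (s i)| +
        |∫ t in (-R)..R, f t * ρ t| := abs_sub _ _
    _ ≤ _ := by rw [add_mul]; exact add_le_add h1 h2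

theorem tv_nonneg {ι : Type*} [Fintype ι] {ρ : ℝ → ℝ} (hR : 0 ≤ R) : 0 ≤ tv ι R ρ := by
  unfold tv
  have : 0 ≤ ∫ t in (-R)..R, |ρ t| :=
    intervalIntegral.integral_nonneg (by linarith) fun t _ => abs_nonneg _
  positivity

/-! ### real statistics -/

/-- **a real statistic**: bound `b`, moments with the constant `a` -/
structure St (R : ℝ) (ρ : Bool → ℝ → ℝ) (c Λ τ : ℝ) (p n : ℕ) (a b : ℝ) (X : Cfg p n → ℝ) : Prop where
  meas : Measurable X
  a0 : 0 < a
  b0 : 0 ≤ b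
  bd : ∀ x, |X x| ≤ b
  mom : ∀ (g : Cfg p n → ℝ≥0∞) (U : ℝ≥0∞), GasM g R ρ U c Λ τ → ∀ k : ℕ, k ≠ 0 →
    ∫⁻ x in Bx R, g x * ENNReal.ofReal (|X x| ^ (2 * k)) ≤
      U * ENNReal.ofReal ((k * a) ^ (2 * k))

namespace St

variable {a b : ℝ} {X : Cfg p n → ℝ}

theorem mono (h : St R ρ c Λ τ p n a b X) {a' b' : ℝ} (ha : a ≤ a') (hb : b ≤ b') :
    St R ρ c Λ τ p n a' b' X where
  meas := h.meas
  a0 := h.a0.trans_le ha
  b0 := h.b0.trans hb
  bd x := (h.bd x).trans hb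
  mom g U hg k hk := by
    refine (h.mom g U hg k hk).trans ?_
    have := h.a0
    gcongr

theorem smul (h : St R ρ c Λ τ p n a b X) {t : ℝ} (ht : t ≠ 0) :
    St R ρ c Λ τ p n (|t| * a) (|t| * b) (fun x => t * X x) where
  meas := h.meas.const_mul t
  a0 := mul_pos (abs_pos.2 ht) h.a0
  b0 := mul_nonneg (abs_nonneg _) h.b0
  bd x := by
    rw [abs_mul]
    exact mul_le_mul_of_nonneg_left (h.bd x) (abs_nonneg _)
  mom g U hg k hk := by
    have h1 := h.mom g U hg k hk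
    have ht2 : 0 ≤ |t| ^ (2 * k) := by positivity
    have e1 : ∀ x, g x * ENNReal.ofReal (|t * X x| ^ (2 * k)) =
        ENNReal.ofReal (|t| ^ (2 * k)) * (g x * ENNReal.ofReal (|X x| ^ (2 * k))) := by
      intro x
      rw [abs_mul, mul_pow, ENNReal.ofReal_mul ht2]
      ring
    simp_rw [e1]
    rw [lintegral_const_mul' _ _ ENNReal.ofReal_ne_top]
    calc ENNReal.ofReal (|t| ^ (2 * k)) * ∫⁻ x in Bx R, g x * ENNReal.ofReal (|X x| ^ (2 * k)) ≤
        ENNReal.ofReal (|t| ^ (2 * k)) * (U * ENNReal.ofReal ((k * a) ^ (2 * k))) := by gcongr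
      _ = U * (ENNReal.ofReal (|t| ^ (2 * k)) * ENNReal.ofReal ((k * a) ^ (2 * k))) := by ring
      _ = _ := by
        rw [← ENNReal.ofReal_mul ht2, ← mul_pow]
        congr 3
        ring

theorem neg (h : St R ρ c Λ τ p n a b X) : St R ρ c Λ τ p n a b (fun x => -X x) where
  meas := h.meas.neg
  a0 := h.a0
  b0 := h.b0
  bd x := by rw [abs_neg]; exact h.bd x
  mom g U hg k hk := by simpa only [abs_neg] using h.mom g U hg k hk

/-- a constant -/
theorem const {t : ℝ} (ht : 0 < t) : St R ρ c Λ τ p n t t (fun _ => t) where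
  meas := measurable_const
  a0 := ht
  b0 := ht.le
  bd _ := by rw [abs_of_pos ht]
  mom g U hg k hk := by
    rw [lintegral_mul_const' _ _ ENNReal.ofReal_ne_top, abs_of_pos ht]
    refine mul_le_mul' hg.mass (ENNReal.ofReal_le_ofReal ?_)
    refine pow_le_pow_left₀ ht.le ?_ _
    have : (1 : ℝ) ≤ k := by exact_mod_cast Nat.one_le_iff_ne_zero.2 hk
    nlinarith

end St

/-- factorials -/
lemma fact_le_pow (k : ℕ) : (k.factorial : ℝ) ≤ (k : ℝ) ^ k := by
  exact_mod_cast Nat.factorial_le_pow k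

section inst

variable (hR : 0 ≤ R) (hρ : ∀ a, Continuous (ρ a)) (hc : 0 < c) (hΛ : 0 ≤ Λ)

/-- the moment constant of a linear statistic -/
def aLin (c Λ Λf : ℝ) : ℝ := Real.sqrt (8 * (Λ + 1) / c) * Λf

include hc hΛ in
theorem aLin_pos {Λf : ℝ} (h : 0 < Λf) : 0 < aLin c Λ Λf := by
  unfold aLin
  have : 0 < 8 * (Λ + 1) / c := by positivity
  positivity

include hc hΛ in
theorem lin_num {Λf : ℝ} {k : ℕ} (hk : k ≠ 0) :
    (k.factorial : ℝ) * (8 * (Λ + 1) / c * Λf ^ 2) ^ k ≤ (k * aLin c Λ Λf) ^ (2 * k) := by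
  have h0 : 0 ≤ 8 * (Λ + 1) / c := by positivity
  have hk1 : (1 : ℝ) ≤ k := by exact_mod_cast Nat.one_le_iff_ne_zero.2 hk
  have e : (k * aLin c Λ Λf) ^ (2 * k) = ((k : ℝ) ^ 2 * (8 * (Λ + 1) / c * Λf ^ 2)) ^ k := by
    unfold aLin
    rw [pow_mul]
    congr 1
    rw [mul_pow, mul_pow, Real.sq_sqrt h0]
  rw [e, mul_pow ((k : ℝ) ^ 2)]
  refine mul_le_mul_of_nonneg_right ((fact_le_pow k).trans ?_) (by positivity)
  exact pow_le_pow_left₀ (by positivity) (by nlinarith) _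

include hR hρ hc hΛ in
/-- linear statistic of the quanta X -/
theorem St.linX {f : ℝ → ℝ} (hf : Continuous f) {Λf F : ℝ} (hΛf : 0 < Λf)
    (hK : KC1 R Λf (fun t => (f t : ℂ))) (hF : ∀ t, |f t| ≤ F) :
    St R ρ c Λ τ p n (aLin c Λ Λf) (tv (Fin p) R (ρ true) * F) (fun x => nu R (ρ true) x.1 f) where
  meas := measurable_nu measurable_fst hf
  a0 := aLin_pos hc hΛ hΛf
  b0 := mul_nonneg (tv_nonneg hR) ((abs_nonneg _).trans (hF 0))
  bd x := abs_nu_le' hR (hρ true) hF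
  mom g U hg k hk := by
    refine ((hg.lin hf hK hk).1).trans ?_
    gcongr
    exact lin_num hc hΛ hk

include hR hρ hc hΛ in
/-- linear statistic of the quanta Y -/
theorem St.linY {f : ℝ → ℝ} (hf : Continuous f) {Λf F : ℝ} (hΛf : 0 < Λf)
    (hK : KC1 R Λf (fun t => (f t : ℂ))) (hF : ∀ t, |f t| ≤ F) :
    St R ρ c Λ τ p n (aLin c Λ Λf) (tv (Fin n) R (ρ false) * F) (fun x => nu R (ρ false) x.2 f) where
  meas := measurable_nu measurable_snd hf
  a0 := aLin_pos hc hΛ hΛf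
  b0 := mul_nonneg (tv_nonneg hR) ((abs_nonneg _).trans (hF 0))
  bd x := abs_nu_le' hR (hρ false) hF
  mom g U hg k hk := by
    refine ((hg.lin hf hK hk).2).trans ?_
    gcongr
    exact lin_num hc hΛ hk

end inst

/-! ### insertions -/

/-- **an admissible insertion**: bound `A`, price `D` -/
structure StatOK (R : ℝ) (ρ : Bool → ℝ → ℝ) (c Λ τ : ℝ) (p n : ℕ) (A D : ℝ) (Ψ : Cfg p n → ℝ≥0∞) :
    Prop where
  meas : Measurable Ψ
  A0 : 0 ≤ A
  D0 : 0 ≤ D
  poly : ∀ x, Ψ x ≤ ENNReal.ofReal A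
  gas : ∀ (g : Cfg p n → ℝ≥0∞) (U : ℝ≥0∞), GasM g R ρ U c Λ τ →
    ∫⁻ x, g x * Ψ x ≤ ENNReal.ofReal D * U

namespace StatOK

variable {A D : ℝ} {Ψ : Cfg p n → ℝ≥0∞}

theorem mono (h : StatOK R ρ c Λ τ p n A D Ψ) {A' D' : ℝ} (hA : A ≤ A') (hD : D ≤ D')
    {Ψ' : Cfg p n → ℝ≥0∞} (hm : Measurable Ψ') (hΨ : ∀ x, Ψ' x ≤ Ψ x) :
    StatOK R ρ c Λ τ p n A' D' Ψ' where
  meas := hm
  A0 := h.A0.trans hA
  D0 := h.D0.trans hD
  poly x := (hΨ x).trans ((h.poly x).trans (ENNReal.ofReal_le_ofReal hA))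
  gas g U hg := (lintegral_mono fun x => mul_le_mul_right (hΨ x) _).trans
    ((h.gas g U hg).trans (mul_le_mul_left (ENNReal.ofReal_le_ofReal hD) _))

theorem one (hτ : 0 ≤ τ) : StatOK R ρ c Λ τ p n 1 2 (fun _ => 1) where
  meas := measurable_const
  A0 := zero_le_one
  D0 := by norm_num
  poly _ := by rw [ENNReal.ofReal_one]
  gas g U hg := by
    simp only [mul_one]
    refine (hg.total hτ).trans (le_of_eq ?_)
    norm_num

theorem smul (h : StatOK R ρ c Λ τ p n A D Ψ) {t : ℝ} (ht : 0 ≤ t) :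
    StatOK R ρ c Λ τ p n (t * A) (t * D) (fun x => ENNReal.ofReal t * Ψ x) where
  meas := h.meas.const_mul _
  A0 := mul_nonneg ht h.A0
  D0 := mul_nonneg ht h.D0
  poly x := by
    rw [ENNReal.ofReal_mul ht]
    exact mul_le_mul_right (h.poly x) _
  gas g U hg := by
    have e : ∀ x, g x * (ENNReal.ofReal t * Ψ x) = ENNReal.ofReal t * (g x * Ψ x) := fun x => by
      ring
    simp_rw [e]
    rw [lintegral_const_mul' _ _ ENNReal.ofReal_ne_top, ENNReal.ofReal_mul ht, mul_assoc]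
    exact mul_le_mul_right (h.gas g U hg) _

theorem add (h : StatOK R ρ c Λ τ p n A D Ψ) {A' D' : ℝ} {Ψ' : Cfg p n → ℝ≥0∞}
    (h' : StatOK R ρ c Λ τ p n A' D' Ψ') :
    StatOK R ρ c Λ τ p n (A + A') (D + D') (fun x => Ψ x + Ψ' x) where
  meas := h.meas.add h'.meas
  A0 := add_nonneg h.A0 h'.A0
  D0 := add_nonneg h.D0 h'.D0
  poly x := by
    rw [ENNReal.ofReal_add h.A0 h'.A0]
    exact add_le_add (h.poly x) (h'.poly x)
  gas g U hg := by
    simp_rw [mul_add]
    have hm : Measurable fun x => g x * Ψ x := hg.meas.mul h.meas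
    rw [lintegral_add_left hm, ENNReal.ofReal_add h.D0 h'.D0, add_mul]
    exact add_le_add (h.gas g U hg) (h'.gas g U hg)

end StatOK

/-- `∏ y_i ≤ (1/j) ∑ (1 + y_i^(2j))` -/
lemma prod_le_mean {ι : Type*} [Fintype ι] [Nonempty ι] (y : ι → ℝ) (hy : ∀ i, 0 ≤ y i) :
    ∏ i, y i ≤ (Fintype.card ι : ℝ)⁻¹ * ∑ i, (1 + y i ^ (2 * Fintype.card ι)) := by
  have hc0 : (0 : ℝ) < Fintype.card ι := by exact_mod_cast Fintype.card_pos
  have h2 : ∏ i, y i ≤ (Fintype.card ι : ℝ)⁻¹ * ∑ i, y i ^ Fintype.card ι := by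
    have h3 := Real.geom_mean_le_arith_mean_weighted (Finset.univ : Finset ι)
      (fun _ => (Fintype.card ι : ℝ)⁻¹) (fun i => y i ^ Fintype.card ι)
      (fun i _ => by positivity) (by
        rw [Finset.sum_const, Finset.card_univ, nsmul_eq_mul, mul_inv_cancel₀ hc0.ne'])
      (fun i _ => pow_nonneg (hy i) _)
    have e1 : ∀ i, (y i ^ Fintype.card ι) ^ ((Fintype.card ι : ℝ)⁻¹) = y i := fun i =>
      Real.pow_rpow_inv_natCast (hy i) (Fintype.card_ne_zero)
    simp_rw [e1] at h3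
    rwa [← Finset.mul_sum] at h3
  refine h2.trans ?_
  refine mul_le_mul_of_nonneg_left (Finset.sum_le_sum fun i _ => ?_) (by positivity)
  rw [mul_comm 2, pow_mul]
  nlinarith [sq_nonneg (y i ^ Fintype.card ι - 1), pow_nonneg (hy i) (Fintype.card ι)]

/-- **products of statistics are admissible insertions** -/
theorem StatOK.prod {ι : Type*} [Fintype ι] [Nonempty ι] {a b : ι → ℝ}
    {X : ι → Cfg p n → ℝ} (h : ∀ i, St R ρ c Λ τ p n (a i) (b i) (X i)) :
    StatOK R ρ c Λ τ p n (∏ i, b i)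
      (2 * ∏ i, (Fintype.card ι * a i) + (∏ i, b i) * Real.exp (-τ))
      (fun x => ENNReal.ofReal (∏ i, |X i x|)) := by
  obtain ⟨j, hj⟩ : ∃ j, j = Fintype.card ι := ⟨_, rfl⟩
  have hj0 : j ≠ 0 := by rw [hj]; exact Fintype.card_ne_zero
  have hjp : (0 : ℝ) < j := by exact_mod_cast Nat.pos_of_ne_zero hj0
  have hA : ∀ i, 0 < (j : ℝ) * a i := fun i => mul_pos hjp (h i).a0
  have hPA : 0 < ∏ i, ((j : ℝ) * a i) := Finset.prod_pos fun i _ => hA i
  have hPb : 0 ≤ ∏ i, b i := Finset.prod_nonneg fun i _ => (h i).b0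
  have hbd : ∀ x, ∏ i, |X i x| ≤ ∏ i, b i := fun x =>
    Finset.prod_le_prod (fun i _ => abs_nonneg _) fun i _ => (h i).bd x
  have hmX : ∀ i, Measurable fun x => ENNReal.ofReal (|X i x| ^ (2 * j)) := fun i =>
    ((h i).meas.abs.pow_const _).ennreal_ofReal
  refine
    { meas := (Finset.measurable_fun_prod _ fun i _ => (h i).meas.abs).ennreal_ofReal
      A0 := hPb
      D0 := by rw [← hj]; positivity
      poly := fun x => ENNReal.ofReal_le_ofReal (hbd x)
      gas := fun g U hg => ?_ }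
  rw [← hj]
  have hm : Measurable fun x : Cfg p n => ENNReal.ofReal (∏ i, |X i x|) :=
    (Finset.measurable_fun_prod _ fun i _ => (h i).meas.abs).ennreal_ofReal
  -- pointwise
  have hpt : ∀ x, g x * ENNReal.ofReal (∏ i, |X i x|) ≤
      ENNReal.ofReal ((∏ i, ((j : ℝ) * a i)) * (j : ℝ)⁻¹) *
        ∑ i, (g x + ENNReal.ofReal (((j : ℝ) * a i) ^ (2 * j))⁻¹ *
          (g x * ENNReal.ofReal (|X i x| ^ (2 * j)))) := by
    intro x
    have h1 := prod_le_mean (fun i => |X i x| / (j * a i)) fun i =>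
      div_nonneg (abs_nonneg _) (hA i).le
    rw [← hj, Finset.prod_div_distrib, div_le_iff₀ hPA] at h1
    have h2 : ∏ i, |X i x| ≤ (∏ i, ((j : ℝ) * a i)) * (j : ℝ)⁻¹ *
        ∑ i, (1 + (((j : ℝ) * a i) ^ (2 * j))⁻¹ * |X i x| ^ (2 * j)) := by
      refine h1.trans (le_of_eq ?_)
      have e1 : ∀ i, (|X i x| / (j * a i)) ^ (2 * j) =
          (((j : ℝ) * a i) ^ (2 * j))⁻¹ * |X i x| ^ (2 * j) := fun i => by
        rw [div_pow]
        ring
      simp_rw [e1]
      ring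
    have hk0 : 0 ≤ (∏ i, ((j : ℝ) * a i)) * (j : ℝ)⁻¹ := by positivity
    calc g x * ENNReal.ofReal (∏ i, |X i x|) ≤
        g x * ENNReal.ofReal ((∏ i, ((j : ℝ) * a i)) * (j : ℝ)⁻¹ *
        ∑ i, (1 + (((j : ℝ) * a i) ^ (2 * j))⁻¹ * |X i x| ^ (2 * j))) :=
          mul_le_mul_right (ENNReal.ofReal_le_ofReal h2) _
      _ = _ := by
        rw [ENNReal.ofReal_mul hk0, ENNReal.ofReal_sum_of_nonneg fun i _ => by
          have := (hA i).le
          positivity, ← mul_assoc, mul_comm (g x), mul_assoc, Finset.mul_sum]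
        congr 1
        refine Finset.sum_congr rfl fun i _ => ?_
        rw [ENNReal.ofReal_add zero_le_one (by have := (hA i).le; positivity), ENNReal.ofReal_one,
          ENNReal.ofReal_mul (by have := (hA i).le; positivity)]
        ring
  -- on the window
  have hwin : ∫⁻ x in Bx R, g x * ENNReal.ofReal (∏ i, |X i x|) ≤
      ENNReal.ofReal (2 * ∏ i, ((j : ℝ) * a i)) * U := by
    calc ∫⁻ x in Bx R, g x * ENNReal.ofReal (∏ i, |X i x|) ≤
        ∫⁻ x in Bx R, ENNReal.ofReal ((∏ i, ((j : ℝ) * a i)) * (j : ℝ)⁻¹) *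
        ∑ i, (g x + ENNReal.ofReal (((j : ℝ) * a i) ^ (2 * j))⁻¹ *
          (g x * ENNReal.ofReal (|X i x| ^ (2 * j)))) := lintegral_mono fun x => hpt x
      _ = ENNReal.ofReal ((∏ i, ((j : ℝ) * a i)) * (j : ℝ)⁻¹) *
        ∑ i, ((∫⁻ x in Bx R, g x) + ENNReal.ofReal (((j : ℝ) * a i) ^ (2 * j))⁻¹ *
          ∫⁻ x in Bx R, g x * ENNReal.ofReal (|X i x| ^ (2 * j))) := by
          rw [lintegral_const_mul' _ _ ENNReal.ofReal_ne_top]
          congr 1
          have h3 := lintegral_finsetSum (μ := volume.restrict (Bx (p := p) (n := n) R))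
            (Finset.univ : Finset ι) (f := fun i (x : Cfg p n) => g x +
              ENNReal.ofReal (((j : ℝ) * a i) ^ (2 * j))⁻¹ *
                (g x * ENNReal.ofReal (|X i x| ^ (2 * j)))) fun i _ =>
              hg.meas.add ((hg.meas.mul (hmX i)).const_mul _)
          rw [h3]
          refine Finset.sum_congr rfl fun i _ => ?_
          rw [lintegral_add_left hg.meas, lintegral_const_mul' _ _ ENNReal.ofReal_ne_top]
      _ ≤ ENNReal.ofReal ((∏ i, ((j : ℝ) * a i)) * (j : ℝ)⁻¹) * ∑ _i : ι, (U + U) := by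
          refine mul_le_mul_right (Finset.sum_le_sum fun i _ => add_le_add hg.mass ?_) _
          have h4 := (h i).mom g U hg j hj0
          have hp0 : 0 < ((j : ℝ) * a i) ^ (2 * j) := pow_pos (hA i) _
          calc ENNReal.ofReal (((j : ℝ) * a i) ^ (2 * j))⁻¹ *
                ∫⁻ x in Bx R, g x * ENNReal.ofReal (|X i x| ^ (2 * j)) ≤
              ENNReal.ofReal (((j : ℝ) * a i) ^ (2 * j))⁻¹ *
                (U * ENNReal.ofReal ((j * a i) ^ (2 * j))) := mul_le_mul_right h4 _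
            _ = (ENNReal.ofReal (((j : ℝ) * a i) ^ (2 * j))⁻¹ *
                ENNReal.ofReal ((j * a i) ^ (2 * j))) * U := by ring
            _ = U := by
              rw [← ENNReal.ofReal_mul (inv_nonneg.2 hp0.le), inv_mul_cancel₀ hp0.ne',
                ENNReal.ofReal_one, one_mul]
      _ = ENNReal.ofReal (2 * ∏ i, ((j : ℝ) * a i)) * U := by
          rw [Finset.sum_const, Finset.card_univ, ← hj, nsmul_eq_mul, ← two_mul, ← mul_assoc,
            ← mul_assoc, ← ENNReal.ofReal_natCast, ← ENNReal.ofReal_mul (by positivity),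
            show (2 : ℝ≥0∞) = ENNReal.ofReal 2 by norm_num, ← ENNReal.ofReal_mul (by positivity)]
          congr 2
          field_simp
  -- outside
  have hout : ∫⁻ x in (Bx R)ᶜ, g x * ENNReal.ofReal (∏ i, |X i x|) ≤
      ENNReal.ofReal ((∏ i, b i) * Real.exp (-τ)) * U := by
    calc ∫⁻ x in (Bx R)ᶜ, g x * ENNReal.ofReal (∏ i, |X i x|) ≤
        ∫⁻ x in (Bx R)ᶜ, g x * ENNReal.ofReal (∏ i, b i) :=
          lintegral_mono fun x => mul_le_mul_right (ENNReal.ofReal_le_ofReal (hbd x)) _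
      _ = (∫⁻ x in (Bx R)ᶜ, g x) * ENNReal.ofReal (∏ i, b i) :=
          lintegral_mul_const' _ _ ENNReal.ofReal_ne_top
      _ ≤ (U * ENNReal.ofReal (Real.exp (-τ))) * ENNReal.ofReal (∏ i, b i) :=
          mul_le_mul_left hg.tail _
      _ = _ := by rw [ENNReal.ofReal_mul hPb]; ring
  rw [← lintegral_add_compl _ (measurableSet_Bx R), ENNReal.ofReal_add (by positivity)
    (by positivity), add_mul]
  exact add_le_add hwin hout

end

end PBZ.PLX
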