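import Pool.Agent.PLX.Ns
import Pool.Agent.PLX.EM2
import Pool.Agent.PLX.TRRat2
import Pool.Agent.PLX.PB.Own0
import Pool.Agent.PLX.NUGC.DirLe

/-!
# The class `W W` at rows `0`, ends `0`: kernels, normaliser, exponent of the sea

`k` effective rows in the first group (`k - 1` rows and one end), `q (k - 1) + 1` in the second one.

* `EM2 k`: exponent of the sea; `mTR`: exponent of the majorant;
* `kR k y`: the kernels of the class; `nrR k`: the normaliser (prefactor over bulk term);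
* **`norm_nrR : ‖nrR k‖ exp (EM2 k) = (sin l)⁻¹`**; `kfX_eq`; `dk_le`: the direct factor.
-/

set_option autoImplicit false
set_option linter.unusedSectionVars false

noncomputable section

open Complex

open PLX (Fil)

namespace PLX

/-- **exponent of the sea**, `k` effective rows in the first group, `q (k - 1) + 1` in the second one -/
def EM2 [Fil] (k : ℕ) : ℝ := EMs fun a => ((Fil.n a * (k - 1) + 1 : ℕ) : ℝ)

end PLX

namespace PBI.PLX

open NUGC NUGC.PLX
open NUO NUP1 NURow NUP1.Leg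
open Pool.Agent.PLX (kfX bulkN)

theorem norm_bulkN (N : ℕ) : ‖bulkN N‖ = (2 / 3 * (2 + √2)) ^ (N * (N - 1)) * (2 / 3) ^ N := by
  unfold bulkN
  have h2 : (0 : ℝ) ≤ √2 := Real.sqrt_nonneg 2
  have e : 2 * PBR.rh 0 = ((2 / 3 * (2 + √2) : ℝ) : ℂ) := by
    rw [PBR.rh_zero]
    unfold PBR.r2
    push_cast
    ring
  have e2 : (2 / 3 : ℂ) = ((2 / 3 : ℝ) : ℂ) := by push_cast; rfl
  rw [norm_mul, norm_pow, norm_pow, e, e2, Complex.norm_real, Complex.norm_real,
    Real.norm_of_nonneg (by positivity), Real.norm_of_nonneg (by positivity)]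

/-- **the normaliser against the exponent of the sea**, rows `0`, ends `0`, sizes `(m, M)` -/
theorem norm_pre2 (m M : ℕ) (s : Bool → ℝ) (h1 : s true = m + 1) (h2 : s false = M + 1) :
    ‖(2 : ℂ) ^ ((m + M + 2) * (m + M + 2 - 1)) *
      (Complex.sin l * (Bp 0 0 (fun _ : Fin m => (0 : ℂ)) * Bp 0 0 (fun _ : Fin M => (0 : ℂ)))) /
        bulkN (m + M + 2)‖ * Real.exp (_root_.PLX.EMs s) = (Real.sin l)⁻¹ := by
  have h := PBVR.PLX.AM0_match' m M (m + M + 2) rfl s h1 h2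
  rw [_root_.PLX.EMs_eq] at h
  have hb : 0 < (2 / 3 * (2 + √2)) ^ ((m + M + 2) * (m + M + 2 - 1)) *
      (2 / 3 : ℝ) ^ (m + M + 2) := by positivity
  rw [norm_div, norm_mul, norm_pow, Complex.norm_ofNat, norm_bulkN, div_mul_eq_mul_div,
    div_eq_iff hb.ne']
  exact h

theorem kfX_eq (m M : ℕ) (w : ℂ) : kfX m M w = PB0.PLX.KF0 m M w := by
  unfold kfX PB0.PLX.KF0 NUP1.N.pr1 NUP1.N.prc NUP1.N.rA NUP1.N.rB
  simp only [sub_zero, Finset.prod_const, Finset.card_univ, Fintype.card_fin]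
  rw [one_div, inv_pow]
  ring

/-- the exponent of the majorant of the class `W W` -/
def mTR (y : ℝ × ℝ) : ℝ := 2 * |y.1| + 2 * |y.2| + |y.1 - y.2| / 2

section fil

variable [Fil]

/-- the kernels of the class `W W`: rows `0`, `k - 1` of them in the first group, `q (k - 1)` in the
second one -/
def kR (k : ℕ) (y : ℝ × ℝ) : ℂ :=
  kfX (k - 1) (Fil.q * (k - 1)) (vl (5 / 4 * l) y.1) *
    kfX (Fil.q * (k - 1)) (k - 1) (vl (5 / 4 * l) y.2) *
      Dk (vl (5 / 4 * l) y.1 - vl (5 / 4 * l) y.2)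

/-- the normaliser -/
def nrR (k : ℕ) : ℂ :=
  (2 : ℂ) ^ ((k - 1 + Fil.q * (k - 1) + 2) * (k - 1 + Fil.q * (k - 1) + 2 - 1)) *
    (Complex.sin l * (Bp 0 0 (fun _ : Fin (k - 1) => (0 : ℂ)) *
      Bp 0 0 (fun _ : Fin (Fil.q * (k - 1)) => (0 : ℂ)))) / bulkN (k - 1 + Fil.q * (k - 1) + 2)

theorem norm_nrR (k : ℕ) : ‖nrR k‖ * Real.exp (_root_.PLX.EM2 k) = (Real.sin l)⁻¹ := by
  unfold nrR _root_.PLX.EM2
  refine norm_pre2 _ _ _ ?_ ?_
  · rw [Fil.n_true]
    push_cast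
    ring
  · rw [Fil.n_false]
    push_cast
    ring

end fil

/-- the direct factor -/
theorem dk_le : ∃ C : ℝ, 0 ≤ C ∧ ∀ τ τ' : ℝ,
    ‖Dk (vl (5 / 4 * l) τ - vl (5 / 4 * l) τ')‖ ≤ C * Real.exp (-|τ - τ'|) := by
  obtain ⟨C, hC, h⟩ := dirLe
  refine ⟨C, hC, fun τ τ' => ?_⟩
  have key := h 0 0 .W .W false false (by simp) (by simp) τ τ'
  have e : NUGC.PLX.gO 0 0 .W .W false false (vl (htL .W) τ) (vl (htL .W) τ') =
      ‖Dk (vl (htL .W) τ - vl (htL .W) τ')‖ := by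
    unfold NUGC.PLX.gO
    simp only [Bool.false_eq_true, if_false, Bool.and_false, mul_one]
    rfl
  rw [e] at key
  have e2 : -((qh .W false * qh .W false + 1) / 2) * |τ - τ'| = -|τ - τ'| := by
    have : qh .W false = 1 := by simp [qh, clh, NUSp.qc]
    rw [this]
    ring
  rw [e2] at key
  exact key

end PBI.PLX

end
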