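import Pool.Agent.PLX.PB.TRsDa
import Pool.Agent.PLX.ExU
import Pool.Agent.PLX.NUGC.OneXH
import Pool.Agent.PB.Reg1

/-!
# Plan B, (TR), s-path: the ratio `regular spectators / legs` for arbitrary rows of both groups

* **`XXU_ratio`**: `XXU` with the spectators of two half quanta and ends at `0` is `sgk k` times `XXU` with the
  legs at `zz w w'` times `exp (DX w w' k u)`, own rows `xo`, rows `xc` of the other group arbitrary;
* `OPar.of`: the parameters of the objects.
-/

set_option autoImplicit false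
set_option linter.unusedSectionVars false
set_option linter.unusedVariables false

noncomputable section

open Complex Finset

namespace PBTs.PLX

open NUP1 (l vl)
open NUP1S (O3)
open NUP1.Leg (Ck Dk thE)
open NURow (CC DD)
open PBX (Lg thS ph)
open PBT3 (zz)
open PBTD (DelQ KA)
open Pool.Agent.PLX (RRU TTU XXU)

section ratio

variable {w w' u : ℂ} (hw : w.re = 5 / 4 * l) (hw' : w'.re = 5 / 4 * l)
include hw hw'

/-- **regular = legs times the exponential of the logarithms**, arbitrary rows -/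
theorem XXU_ratio {m M : ℕ} (c : ℂ) (β : ℝ) (xo : Fin m → ℂ) (xc : Fin M → ℂ) (g g0 : ℂ → ℂ)
    {k : Option O3} (hu : At k u) :
    XXU c β xo xc g g0 (fun u => thE 0 0 0 0 u * (Ck (w - u) * Dk (w' - u)))
        (fun u => thS 0 0 0 0 u * (CC (w - u) * DD (w' - u))) k u =
      sgk k * XXU c β xo xc g g0 (Lg (zz w w') (zz w w'))
        (fun u => Lg (zz w w') (zz w w') u * Lg (zz w w') (zz w w') (u - l)) k u *
          exp (DX w w' k u) := by
  rcases k with _ | k
  · show RRU c xo xc u * ph β xo g u * (thE 0 0 0 0 u * (Ck (w - u) * Dk (w' - u))) =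
      -1 * (RRU c xo xc u * ph β xo g u * Lg _ _ u) * exp (DelQ w w' (zz w w') u)
    rw [alg_Q hw hw' (KA_none hw hw' hu)]
    ring
  · cases k
    · show RRU c xo xc u * ph β xo g u * (thE 0 0 0 0 u * (Ck (w - u) * Dk (w' - u))) =
        -1 * (RRU c xo xc u * ph β xo g u * Lg _ _ u) * exp (DelQ w w' (zz w w') u)
      rw [alg_Q hw hw' (KA_L hw hw' hu)]
      ring
    · show RRU c xo xc u * RRU c xo xc (u - l) * ph (4 / 3) xo g0 u *
          (thS 0 0 0 0 u * (CC (w - u) * DD (w' - u))) =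
        1 * (RRU c xo xc u * RRU c xo xc (u - l) * ph (4 / 3) xo g0 u *
          (Lg _ _ u * Lg _ _ (u - l))) *
          exp (plog (aS w w') (bS w w') (sg1 u.im * (2 * (I * (w - w')))) u)
      rw [alg_S' hw hw' (Or.inr hu) (sg1 u.im * (2 * (I * (w - w'))))]
      ring
    · show TTU c β (4 / 3) xo xc g g0 u * (thS 0 0 0 0 u * (CC (w - u) * DD (w' - u))) =
        1 * (TTU c β (4 / 3) xo xc g g0 u * (Lg _ _ u * Lg _ _ (u - l))) *
          exp (plog (aS w w') (bS w w') (sg1 u.im * (2 * (I * (w - w')))) u)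
      rw [alg_S' hw hw' (Or.inl hu) (sg1 u.im * (2 * (I * (w - w'))))]
      ring

end ratio

open NUO

theorem OPar.of {P : NUO.Par} (hP : NUGC.PLX.ParC P) {r : ℕ} (O : Fin r → Xo) (i : Fin r) :
    OPar P.jL (ei P O i) (rr P O i) := by
  have hl := lp
  obtain ⟨g1, g2⟩ := NUGC.PLX.ei_mem' hP.d0 O i
  have g3 := hP.e1
  have g4 := hP.e2 r
  have g5 := hP.d0 r
  refine ⟨hP.j1, hP.j2, by linarith, by linarith, (hP.r0 _ _).le, (hP.r1 _ _).trans ?_⟩
  have hr : (0 : ℝ) ≤ r := Nat.cast_nonneg r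
  rw [div_le_iff₀ (by positivity)]
  have h6 : P.d r ≤ 8 / 45 := by linarith
  have h7 : 0 ≤ l * P.d r := by positivity
  have h8 : l * P.d r ≤ l * (8 / 45) := mul_le_mul_of_nonneg_left h6 hl.le
  have h9 : 0 ≤ l * r := by positivity
  show NUP1.l * P.d r ≤ NUP1.l / 10 * (8 * (r + 1))
  nlinarith

end PBTs.PLX

end
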