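import Pool.Agent.PLX.Ns
import Pool.Agent.PLX.PB.TRsXD
import Pool.Agent.PB.TrG7
import Pool.Agent.PLX.PB.TRsD2
import Pool.Agent.PLX.PB.LogP
import Pool.Agent.PLX.PB.LogZ

/-!
# Plan B, (TR), s-path: the forces on the line, general lemmas for (G1), (G2)

`n = k - 1`, `q = k ^ (-10)`, `X = fldT n q (be w w')`.

* `LPo_eq`: the two closed forms of the log derivative of the objects agree;
* `LX m`: the points of the cutoff of `m` rows at `0`; `LX_rwq`: the rows `(x | x^q)` at `0`, `LX (Fil.n a * m)`;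
* `h00_fac`, `cut_fac`, `cut_mass`, `D1_fac`, `X_fac`: legs, cutoff, path, field.
-/

set_option autoImplicit false
set_option linter.unusedSectionVars false

noncomputable section

open Complex MeasureTheory Set Filter
open PLX (Fil)

namespace PBTs.PLX

open NUO NUP1 NUP1S NUP1S.Ab PBT3

variable [Fil]

variable {r : ℕ} {w w' : ℂ}

/-! ### the objects -/

theorem SP_ne {L : List (ℤ × ℤ)} {z : ℂ} (h : PBOR.PLX.OkL L z) : PBOR.PLX.SP L z ≠ 0 := by
  induction L with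
  | nil => simp [PBOR.PLX.SP]
  | cons p L ih =>
    have e : PBOR.PLX.SP (p :: L) z = Complex.sin (z + p.2 * l) ^ p.1 * PBOR.PLX.SP L z := by
      simp [PBOR.PLX.SP]
    rw [e]
    exact mul_ne_zero (zpow_ne_zero _ (h p List.mem_cons_self))
      (ih fun q hq => h q (List.mem_cons_of_mem _ hq))

theorem pp_ne (s : Bool) (p : Part) {z : ℂ} (h : PBOR.PLX.OkK s p z) : pp (s, false, z) p ≠ 0 := by
  obtain ⟨c, hc, he⟩ := PBOR.PLX.pp_SP s p
  rw [he z]
  exact mul_ne_zero hc (SP_ne h)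

theorem ppC_ne (s : Bool) (B : List Part) {z : ℂ} (h : ∀ p ∈ B, PBOR.PLX.OkK s p z) :
    ppC [(s, false, z)] B ≠ 0 := by
  rw [ppC_single]
  induction B with
  | nil => simp
  | cons p B ih =>
    rw [List.map_cons, List.prod_cons]
    exact mul_ne_zero (pp_ne s p (h p List.mem_cons_self))
      (ih fun q hq => h q (List.mem_cons_of_mem _ hq))

theorem potC_ne {P : NUO.Par} {O : Fin r → Xo} (hP : PBOR.PLX.PO P O) (s : Bool) {z : ℂ}
    (hz : PBOR.PLX.InQ z) : potC P O s z ≠ 0 := by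
  have e : potC P O s z = ∏ i, ppC [(s, false, z)] (cons P O i) := rfl
  rw [e]
  exact Finset.prod_ne_zero_iff.2 fun i _ =>
    ppC_ne s _ fun p hp => PBOR.PLX.okK (PBOR.PLX.cons_ok hP i p hp).1 hz

/-- the two closed forms agree -/
theorem LPo_eq {P : NUO.Par} (hPc : NUGC.PLX.ParC P) {O : Fin r → Xo} (hP : PBOR.PLX.PO P O) (s : Bool)
    {z : ℂ} (hz : PBOR.PLX.InQ z) (hz' : z.re ∈ Ks (1 / 20)) :
    PBF.PLX.LPo P r O s z = PBOR.PLX.kP P O s z := by
  have h1 := PBF.PLX.hasDerivAt_potC hPc O s le_rfl hz'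
  have h2 := PBOR.PLX.hasDerivAt_potC hP s hz
  exact mul_right_cancel₀ (potC_ne hP s hz) (h1.unique h2)

/-- the place of a quantum in the strip `|Im z| < l / 20` -/
theorem u_Ks {z : ℂ} (hz : |z.im| < l / 20) : ((l : ℂ) + I * z).re ∈ Ks (1 / 20) ∧
    PBOR.PLX.InQ (l + I * z) := by
  have hl := Bd.l_pos
  obtain ⟨h1, h2⟩ := abs_lt.1 hz
  have e : ((l : ℂ) + I * z).re = l - z.im := by simp [sub_eq_add_neg]
  unfold PBOR.PLX.InQ
  rw [e]
  refine ⟨⟨by linarith, by linarith⟩, by linarith, by linarith⟩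

/-! ### the legs -/

theorem hr_im (z p : ℂ) : (z - PBQ1.hr p).im = z.im + p.re := by
  simp [PBQ1.hr]

theorem h00_fac : ∃ C : ℝ, 0 ≤ C ∧ ∀ w w' : ℂ, G5 w w' → ∀ z : ℂ, |z.im| < l / 20 →
    DifferentiableAt ℂ (fun z => PBEI.h00 (z - PBQ1.hr (zz w w'))) z ∧
      ‖PBEI.h00 (z - PBQ1.hr (zz w w'))‖ ≤ C := by
  have hl := Bd.l_pos
  have hT := PBEI.h00_TC (a := 0) (by norm_num)
  refine ⟨8 / Real.sin (3 / 5 * l), ?_, fun w w' h z hz => ?_⟩
  · have h1 : 0 < Real.sin (3 / 5 * l) := Real.sin_pos_of_pos_of_lt_pi (by positivity) (by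
      have : Real.pi = 8 * l := by unfold NUP1.l; ring
      linarith)
    positivity
  · have hzz : (zz w w').re = -(l / 4) := zz_re h.h h.h'
    obtain ⟨h1, h2⟩ := abs_lt.1 hz
    have hm : z - PBQ1.hr (zz w w') ∈ PBE.Sp (-(2 / 5 * l)) l := by
      show _ ∧ _
      rw [hr_im, hzz]
      constructor <;> linarith
    have ho : IsOpen (PBE.Sp (-(2 / 5 * l)) l) :=
      (isOpen_lt continuous_const continuous_im).inter (isOpen_lt continuous_im continuous_const)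
    refine ⟨?_, ?_⟩
    · have h3 : DifferentiableAt ℂ PBEI.h00 (z - PBQ1.hr (zz w w')) :=
        (hT.an _ hm).differentiableAt (ho.mem_nhds hm)
      exact DifferentiableAt.comp (g := PBEI.h00) z h3
        (by fun_prop : DifferentiableAt ℂ (fun z : ℂ => z - PBQ1.hr (zz w w')) z)
    · have h3 := hT.bd _ hm
      rwa [zero_mul, neg_zero, Real.exp_zero, mul_one] at h3

/-! ### the cutoff -/

/-- the points of the cutoff of `m` rows at `0` and the extras `[I, -I]` -/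
def LX (m : ℕ) : List ℂ := List.ofFn (fun _ : Fin m => (0 : ℂ)) ++ [I, -I]

theorem LX_ne (m : ℕ) : LX m ≠ [] := by simp [LX]

theorem LX_re (m : ℕ) : ∀ x ∈ LX m, |x.re| ≤ 0 := by
  intro x hx
  unfold LX at hx
  rw [List.mem_append] at hx
  rcases hx with h | h
  · rw [List.mem_ofFn] at h
    obtain ⟨i, rfl⟩ := h
    simp
  · simp only [List.mem_cons, List.not_mem_nil, or_false] at h
    rcases h with rfl | rfl <;> simp

theorem LX_im (m : ℕ) : ∀ x ∈ LX m, |x.im| ≤ 1 := by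
  intro x hx
  unfold LX at hx
  rw [List.mem_append] at hx
  rcases hx with h | h
  · rw [List.mem_ofFn] at h
    obtain ⟨i, rfl⟩ := h
    simp
  · simp only [List.mem_cons, List.not_mem_nil, or_false] at h
    rcases h with rfl | rfl <;> simp

theorem LX_len (m : ℕ) : ((LX m).length : ℝ) = m + 2 := by
  simp [LX]

/-- the points of the cutoff of a species, rows at `0` -/
theorem LX_rwq (m : ℕ) (a : Bool) :
    List.ofFn (_root_.Pool.Agent.PLX.rwq (fun _ : Fin m => (0 : ℂ)) a) ++ [I, -I] = LX (Fil.n a * m) := by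
  unfold LX
  rw [_root_.Pool.Agent.PLX.rwq_const, List.ofFn_const, List.ofFn_const,
    _root_.Pool.Agent.PLX.cond_eq]

section cut

variable {ep : ℝ}

theorem adm_ep (h0 : 0 < ep) (h1 : ep ≤ 1 / 100) :
    Adm (4 / 3 * (1 - ep)) (3 * NUP1.l / 2 + ep / 2) := NUP1.adm h0 (by linarith) (by linarith) le_rfl

/-- the force of the cutoff: analytic and bounded -/
theorem cut_fac (h0 : 0 < ep) (h1 : ep ≤ 1 / 100) (m : ℕ) {z : ℂ} (hz : |z.im| < ep / 2) :
    DifferentiableAt ℂ (PBLZ.PLX.cutI (4 / 3 * (1 - ep)) (LX m)) z ∧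
      ‖PBLZ.PLX.cutI (4 / 3 * (1 - ep)) (LX m) z‖ ≤
        PBLZ.PLX.KL (4 / 3 * (1 - ep)) (3 * NUP1.l / 2 + ep / 2) := by
  have hl := Bd.l_pos
  have hA := adm_ep h0 h1
  obtain ⟨h2, h3⟩ := abs_lt.1 hz
  refine ⟨?_, PBLZ.PLX.cutI_bd' hA (LX_ne m) (LX_re m) (by linarith) (by linarith)⟩
  have hd := PBLZ.PLX.cutI_diff hA (LX_ne m) (LX_re m)
  have hm : z ∈ {z : ℂ | -(3 * NUP1.l / 2 + ep / 2 - 3 / 2 * NUP1.l - 0) < z.im ∧
      z.im < 3 / 2 * NUP1.l + (3 * NUP1.l / 2 + ep / 2) - 0} := by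
    constructor <;> linarith
  exact (hd z hm).differentiableAt ((PBLZ.PLX.strip_open _ _).mem_nhds hm)

/-- the mass of the cutoff against the decay of the field -/
theorem cut_mass (h0 : 0 < ep) (h1 : ep ≤ 1 / 100) : ∃ C : ℝ, 0 ≤ C ∧ ∀ m : ℕ,
    Integrable (fun t : ℝ => Real.exp (-(8 / 3 * |t|)) *
      ‖PBLZ.PLX.cutI (4 / 3 * (1 - ep)) (LX m) t‖) ∧
    ∫ t : ℝ, Real.exp (-(8 / 3 * |t|)) * ‖PBLZ.PLX.cutI (4 / 3 * (1 - ep)) (LX m) t‖ ≤
      C / (m + 2) := by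
  have hl := Bd.l_pos
  have hA := adm_ep h0 h1
  obtain ⟨β, hβ⟩ : ∃ β, β = 4 / 3 * (1 - ep) := ⟨_, rfl⟩
  obtain ⟨s, hs⟩ : ∃ s, s = 3 * NUP1.l / 2 + ep / 2 := ⟨_, rfl⟩
  have hb0 : 0 < β := by rw [hβ]; linarith
  rw [← hβ, ← hs] at hA
  have hK := PBLZ.PLX.KL_pos hA
  obtain ⟨κ, hκ⟩ : ∃ κ, κ = PBLZ.PLX.κ0 β s / 2 * Real.exp (-(2 * β * 1)) := ⟨_, rfl⟩
  have hκ0 : 0 < κ := by
    have := PBLZ.PLX.κ0_pos hA
    rw [hκ]
    positivity
  have hi : Integrable fun t : ℝ => Real.exp (-(8 / 3 * ep) * |t|) := by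
    have := (PBE.int_exp_abs (a := 8 / 3 * ep) (by positivity)).1
    simpa only [neg_mul] using this
  refine ⟨PBLZ.PLX.KL β s / κ * ∫ t : ℝ, Real.exp (-(8 / 3 * ep) * |t|), ?_, fun m => ?_⟩
  · have : 0 ≤ ∫ t : ℝ, Real.exp (-(8 / 3 * ep) * |t|) :=
      integral_nonneg fun t => (Real.exp_pos _).le
    positivity
  · rw [← hβ]
    have hk : ∀ t : ℝ, Real.exp (-(8 / 3 * |t|)) * ‖PBLZ.PLX.cutI β (LX m) t‖ ≤
        PBLZ.PLX.KL β s / κ / (m + 2) * Real.exp (-(8 / 3 * ep) * |t|) := by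
      intro t
      have c1 := PBLZ.PLX.cutI_bd hA (LX_ne m) (LX_re m) (LX_im m) (z := (t : ℂ)) (by
        rw [Complex.ofReal_im, hs]
        linarith) (by
        rw [Complex.ofReal_im, hs]
        linarith)
      rw [Complex.ofReal_re, LX_len, ← hκ] at c1
      have c2 := PBLZ.PLX.cut_exp (a := 2 * β) (k := κ) (m := (m : ℝ) + 2) (t := t) hb0 (by positivity)
        hκ0 (by positivity)
      have e1 : 2 * β / (2 * β) = 1 := div_self (by positivity)
      rw [e1, Real.rpow_one, Real.rpow_neg_one] at c2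
      have e2 : Real.exp (-(8 / 3 * |t|)) =
          Real.exp (-(8 / 3 * ep) * |t|) * Real.exp (-(2 * β * |t|)) := by
        rw [← Real.exp_add, hβ]
        congr 1
        ring
      have e3 := Real.exp_pos (-(8 / 3 * ep) * |t|)
      have e4 := Real.exp_pos (-(2 * β * |t|))
      calc Real.exp (-(8 / 3 * |t|)) * ‖PBLZ.PLX.cutI β (LX m) t‖
          ≤ Real.exp (-(8 / 3 * |t|)) * (PBLZ.PLX.KL β s *
              Real.exp (-(κ * (((m : ℝ) + 2) * Real.exp (-(2 * β) * |t|))))) :=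
            mul_le_mul_of_nonneg_left c1 (Real.exp_pos _).le
        _ = PBLZ.PLX.KL β s * Real.exp (-(8 / 3 * ep) * |t|) * (Real.exp (-(2 * β * |t|)) *
              Real.exp (-(κ * (((m : ℝ) + 2) * Real.exp (-(2 * β) * |t|))))) := by
            rw [e2]
            ring
        _ ≤ PBLZ.PLX.KL β s * Real.exp (-(8 / 3 * ep) * |t|) * (1 / κ * ((m : ℝ) + 2)⁻¹) :=
            mul_le_mul_of_nonneg_left c2 (by positivity)
        _ = _ := by
            have e5 : (m : ℝ) + 2 ≠ 0 := by positivity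
            field_simp
    have hcont : Continuous fun t : ℝ => PBLZ.PLX.cutI β (LX m) t := by
      refine continuous_iff_continuousAt.2 fun t => ?_
      have h2 := (cut_fac h0 h1 m (z := (t : ℂ)) (by
        rw [Complex.ofReal_im, abs_zero]
        positivity)).1.continuousAt
      rw [← hβ] at h2
      exact ContinuousAt.comp (f := fun t : ℝ => (t : ℂ)) h2 Complex.continuous_ofReal.continuousAt
    have hi2 : Integrable fun t : ℝ => Real.exp (-(8 / 3 * |t|)) * ‖PBLZ.PLX.cutI β (LX m) t‖ := by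
      refine (hi.const_mul (PBLZ.PLX.KL β s / κ / (m + 2))).mono' ?_ (Eventually.of_forall fun t => ?_)
      · exact (Continuous.mul (by fun_prop) hcont.norm).aestronglyMeasurable
      · rw [Real.norm_of_nonneg (by positivity)]
        exact hk t
    refine ⟨hi2, ?_⟩
    refine (integral_mono hi2 (hi.const_mul _) hk).trans (le_of_eq ?_)
    rw [integral_const_mul]
    ring

end cut

/-! ### the path -/

theorem D1_fac : ∃ C : ℝ, 0 ≤ C ∧ ∀ w w' : ℂ, G5 w w' → ∀ (b : Bool) (z : ℂ), |z.im| < l / 20 →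
    I * PBTD.DelB' w w' (zz w w') b (l + I * z) = deriv (Dl w w' b) z ∧
    ‖PBTD.DelB' w w' (zz w w') b (l + I * z)‖ ≤ C := by
  obtain ⟨C, hC, H⟩ := DelB_all
  refine ⟨C, hC, fun w w' h b z hz => ?_⟩
  have hl := Bd.l_pos
  have hu : ((l : ℂ) + I * z).re ∈ PBTD.KA := by
    obtain ⟨⟨h1, h2⟩, -⟩ := u_Ks hz
    have eN : NUMF.l = l := rfl
    unfold PBTD.KA
    rw [eN]
    exact ⟨by linarith, by linarith⟩
  obtain ⟨h1, h2, -, -⟩ := H w w' (MM w w') h.h h.h' (le_max_left _ _) (le_max_right _ _) b _ hu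
  refine ⟨?_, h2⟩
  have h3 : HasDerivAt (fun z : ℂ => (l : ℂ) + I * z) I z := by
    simpa using ((hasDerivAt_id z).const_mul I).const_add (l : ℂ)
  have h4 := h1.comp z h3
  have e : (PBTD.DelB w w' (zz w w') b ∘ fun z : ℂ => (l : ℂ) + I * z) = Dl w w' b := by
    funext t
    show PBTD.DelB w w' (zz w w') b (l + I * t) = Dl w w' b t
    rw [← DT_none]
    exact DT_Dl w w' b t
  rw [e] at h4
  rw [h4.deriv]
  ring

theorem Dl_deriv_diff (h : G5 w w') (b : Bool) {z : ℂ} (hz : |z.im| < l / 20) :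
    DifferentiableAt ℂ (deriv (Dl w w' b)) z := by
  have hl := Bd.l_pos
  obtain ⟨h1, h2⟩ := abs_lt.1 hz
  have hd : DifferentiableOn ℂ (Dl w w' b) PBT3.St := fun t ht =>
    (Dl_hd h b ht).differentiableAt.differentiableWithinAt
  have hm : z ∈ PBT3.St := by
    have e : NUMF.l = l := rfl
    constructor
    · rw [e]; linarith
    · rw [e]; linarith
  exact ((hd.analyticOnNhd PBT3.St_open).deriv z hm).differentiableAt

/-! ### the field -/

theorem be_st5 : ∃ C : ℝ, 1 ≤ C ∧ ∀ w w' : ℂ, G5 w w' → ∀ (b : Bool) (z : ℂ), |z.im| < l / 5 →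
    DifferentiableAt ℂ (be w w' b) z ∧
    ‖be w w' b z‖ ≤ C * Real.exp (8 / 3 * MM w w') * Real.exp (-(8 / 3 * |z.re|)) := by
  have hl : 0 < NUMF.l := Bd.l_pos
  refine ⟨max (Cst (-(l / 5)) (l / 5)) 1, le_max_right _ _, fun w w' h b z hz => ?_⟩
  obtain ⟨h1, h2⟩ := abs_lt.1 hz
  have e : NUMF.l = l := rfl
  have hm : z ∈ PBT3.St := by
    constructor
    · rw [e]; linarith
    · rw [e]; linarith
  refine ⟨(be_hd h b hm).differentiableAt, ?_⟩
  have h3 := be_le h b (y1 := -(l / 5)) (y2 := l / 5) (by rw [e]; linarith) (by rw [e]; linarith)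
    h1.le h2.le
  rw [exp_split, ← mul_assoc] at h3
  refine h3.trans ?_
  have h4 := le_max_left (Cst (-(l / 5)) (l / 5)) 1
  have h5 := Real.exp_pos (8 / 3 * MM w w')
  have h6 := Real.exp_pos (-(8 / 3 * |z.re|))
  gcongr

theorem nq_le {k : ℕ} (hk : 2 ≤ k) :
    ((k - 1 : ℕ) : ℝ) / ((k : ℝ) ^ 10)⁻¹ ≤ Real.exp (8 / 3 * (33 / 8 * Real.log k)) := by
  have hk0 : (0 : ℝ) < k := by
    have : 0 < k := by omega
    exact_mod_cast this
  have e1 : Real.exp (8 / 3 * (33 / 8 * Real.log k)) = (k : ℝ) ^ 11 := by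
    have e2 : 8 / 3 * (33 / 8 * Real.log k) = Real.log k * ((11 : ℕ) : ℝ) := by
      push_cast
      ring
    rw [e2, Real.exp_mul, Real.exp_log hk0, Real.rpow_natCast]
  rw [e1, div_inv_eq_mul, pow_succ (k : ℝ) 10, mul_comm]
  have h1 : ((k - 1 : ℕ) : ℝ) ≤ k := by exact_mod_cast Nat.sub_le k 1
  exact mul_le_mul_of_nonneg_left h1 (by positivity)

/-- **the field** -/
theorem X_fac : ∃ C : ℝ, 1 ≤ C ∧ ∀ k : ℕ, 2 ≤ k → ∀ w w' : ℂ, G5 w w' → ∀ (b : Bool) (z : ℂ),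
    |z.im| < l / 5 →
    DifferentiableAt ℂ (fldT ((k - 1 : ℕ) : ℝ) ((k : ℝ) ^ 10)⁻¹ (be w w') b) z ∧
    ‖fldT ((k - 1 : ℕ) : ℝ) ((k : ℝ) ^ 10)⁻¹ (be w w') b z‖ ≤
      C * (Real.exp (8 / 3 * MM w w') / k) * mn (33 / 8 * Real.log k) z.re := by
  have hl : 0 < NUMF.l := Bd.l_pos
  have e : NUMF.l = l := rfl
  obtain ⟨C1, hC1, H1⟩ := be_st5
  obtain ⟨C2, hC2, H2⟩ := fld_min (b1 := l / 5) (by rw [← e]; positivity) (by rw [e]; linarith)
  refine ⟨2 * C2 * C1, by nlinarith, fun k hk w w' h b z hz => ?_⟩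
  have hk0 : (0 : ℝ) < k := by
    have : 0 < k := by omega
    exact_mod_cast this
  have hk1 : (1 : ℝ) ≤ k := by exact_mod_cast (by omega : 1 ≤ k)
  have hn : (0 : ℝ) < ((k - 1 : ℕ) : ℝ) := by
    have : 0 < k - 1 := by omega
    exact_mod_cast this
  have hn2 : (k : ℝ) ≤ 2 * ((k - 1 : ℕ) : ℝ) := by
    have : k ≤ 2 * (k - 1) := by omega
    exact_mod_cast this
  have hq : (0 : ℝ) < ((k : ℝ) ^ 10)⁻¹ := by positivity
  have hB : 0 ≤ C1 * Real.exp (8 / 3 * MM w w') := by positivity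
  refine ⟨fldT_d (b1 := l / 5) (by rw [← e]; positivity) (by rw [e]; linarith) hn.le hq
    (fun b z hz => (H1 w w' h b z hz).1) b z hz, ?_⟩
  have h2 := H2 ((k - 1 : ℕ) : ℝ) ((k : ℝ) ^ 10)⁻¹ (33 / 8 * Real.log k)
    (C1 * Real.exp (8 / 3 * MM w w')) hn hq (by
      have := Real.log_nonneg hk1
      positivity) (nq_le hk) hB (be w w') (fun b z hz => (H1 w w' h b z hz).2) b z hz
  refine h2.trans (mul_le_mul_of_nonneg_right ?_ (mn_nonneg _ _))
  have h3 : C1 * Real.exp (8 / 3 * MM w w') / ((k - 1 : ℕ) : ℝ) ≤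
      2 * C1 * (Real.exp (8 / 3 * MM w w') / k) := by
    rw [mul_div_assoc', div_le_div_iff₀ hn hk0]
    have h4 := Real.exp_pos (8 / 3 * MM w w')
    have h5 : 0 < C1 := by linarith
    calc C1 * Real.exp (8 / 3 * MM w w') * k
        ≤ C1 * Real.exp (8 / 3 * MM w w') * (2 * ((k - 1 : ℕ) : ℝ)) :=
          mul_le_mul_of_nonneg_left hn2 hB
      _ = _ := by ring
  calc C2 * (C1 * Real.exp (8 / 3 * MM w w') / ((k - 1 : ℕ) : ℝ))
      ≤ C2 * (2 * C1 * (Real.exp (8 / 3 * MM w w') / k)) :=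
        mul_le_mul_of_nonneg_left h3 (by linarith)
    _ = _ := by ring

end PBTs.PLX
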