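import Pool.Agent.PLX.Ns
import Pool.Agent.PLX.PB.TRsV
import Pool.Agent.PLX.PB.TRsG0
import Pool.Agent.PLX.PB.TRsGE
import Pool.Agent.PB.TRsH

/-!
# Plan B, (TR), s-path: the error of the mean statement, pointwise (G1), (G2)

Literal data of `PB/TRsV`.

* `Fv`: the force `lg + s (i D1) + ko`; `Fv_fac`: analytic, `≤ C (r + 1)` on `|Im z| < ep / 8`;
* **`G2`**: `E + X F` in the class `BC`;
* **`G1`**: `stO + ∑ b ∫ ρ X F - s q - p` is at most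
  `C (1 + M)² e^{2 M} ∑ i, e^{-2 |ht (O i)|} + C Sz (1 + log k) (r + 1)`.
-/

set_option autoImplicit false
set_option linter.unusedSectionVars false

noncomputable section

open Complex MeasureTheory Set Filter
open PLX (Fil)

namespace PBTV.PLX.GG

open NUO NUP1 NUP1S NUP1S.Ab NUGC NUGC.PLX PBU PBU.PLX PBTs PBTs.PLX
open PBF.PLX (fMH LPo stO expZ)

variable [Fil] [NUSea.Sea] {r : ℕ}

theorem zz_v (τ : ℝ × ℝ) : PBT3.zz (wa τ) (wb τ) = PBT3.zt τ := rfl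

theorem g5v (τ : ℝ × ℝ) : PBT3.G5 (wa τ) (wb τ) := PBTs.g5_wt τ

theorem MM_v (τ : ℝ × ℝ) : PBT3.MM (wa τ) (wb τ) = Mv τ := by
  unfold PBT3.MM wa wb Mv
  rw [PBT3.wt_im, PBT3.wt_im]

/-- the force -/
def Fv (ep : ℝ) (k : ℕ) (τ : ℝ × ℝ) (s : ℝ) (r : ℕ) (O : Fin r → Xo) (b : Bool) (z : ℂ) : ℂ :=
  lgv ep k τ b z + s * (I * D1v τ b (NUP1.l + I * z)) + kov k r O b z

theorem fMH_Fv (ep : ℝ) (k : ℕ) (τ : ℝ × ℝ) (s : ℝ) (r : ℕ) (O : Fin r → Xo) (b : Bool) (z : ℂ) :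
    fMH s (Xv k τ) (D1v τ) (lgv ep k τ) (kov k) r O b z =
      Xv k τ b z * Fv ep k τ s r O b z := rfl

theorem ep_l {ep : ℝ} (h1 : ep ≤ 1 / 100) : ep / 8 < NUP1.l / 20 := by
  have := Real.pi_gt_three
  unfold NUP1.l
  clear * - h1 this
  linarith

/-- the force of the objects -/
theorem kov_fac (k : ℕ) (O : Fin r → Xo) (b : Bool) {z : ℂ} (hz : |z.im| < NUP1.l / 20) :
    kov k r O b z = I * PBOR.PLX.kP (NUSea.PLX.O.par0 k) O b (NUP1.l + I * z) ∧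
    DifferentiableAt ℂ (kov k r O b) z ∧ ‖kov k r O b z‖ ≤ r * (PBOR.PLX.CO + 4) := by
  have hl := Bd.l_pos
  have hP := PBOR.PLX.PO_par0 k O
  have e : ∀ y : ℂ, |y.im| < NUP1.l / 20 →
      kov k r O b y = I * PBOR.PLX.kP (NUSea.PLX.O.par0 k) O b (NUP1.l + I * y) := by
    intro y hy
    obtain ⟨h1, h2⟩ := u_Ks hy
    unfold kov LPv
    rw [LPo_eq (PBX.PLX.ParC_par0 k) hP b h2 h1]
  obtain ⟨h1, h2⟩ := u_Ks hz
  refine ⟨e z hz, ?_, ?_⟩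
  · have h3 : HasDerivAt (fun w : ℂ => (NUP1.l : ℂ) + I * w) I z := by
      simpa using ((hasDerivAt_id z).const_mul I).const_add (NUP1.l : ℂ)
    have h4 := ((PBOR.PLX.hasDerivAt_kP hP b h2).comp z h3).differentiableAt
    refine (h4.const_mul I).congr_of_eventuallyEq ?_
    exact (ev_strip hz).mono fun y hy => e y hy
  · rw [e z hz, norm_mul, norm_I, one_mul]
    exact PBOR.PLX.kP_le hP b h2

/-- the parts of the force -/
theorem parts_fac {ep : ℝ} (h0 : 0 < ep) (h1 : ep ≤ 1 / 100) : ∃ C : ℝ, 1 ≤ C ∧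
    ∀ (k : ℕ) (τ : ℝ × ℝ) (b : Bool) (z : ℂ), |z.im| < ep / 8 →
    (DifferentiableAt ℂ (fun z => PBEI.h00 (z - PBQ1.hr (PBT3.zt τ))) z ∧
      ‖PBEI.h00 (z - PBQ1.hr (PBT3.zt τ))‖ ≤ C) ∧
    (DifferentiableAt ℂ (PBLZ.PLX.cutI (4 / 3 * (1 - ep)) (LX (Fil.n b * (k - 1)))) z ∧
      ‖PBLZ.PLX.cutI (4 / 3 * (1 - ep)) (LX (Fil.n b * (k - 1))) z‖ ≤ C) ∧
    (I * D1v τ b (NUP1.l + I * z) = deriv (PBT3.Dl (wa τ) (wb τ) b) z ∧
      DifferentiableAt ℂ (fun z => I * D1v τ b (NUP1.l + I * z)) z ∧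
      ‖I * D1v τ b (NUP1.l + I * z)‖ ≤ C) := by
  have hl := Bd.l_pos
  have hep := ep_l h1
  obtain ⟨C1, hC1, H1⟩ := h00_fac
  obtain ⟨C3, hC3, H3⟩ := D1_fac
  have hK := PBLZ.PLX.KL_pos (adm_ep h0 h1)
  obtain ⟨C2, hC2⟩ : ∃ C2, C2 = PBLZ.PLX.KL (4 / 3 * (1 - ep)) (3 * NUP1.l / 2 + ep / 2) := ⟨_, rfl⟩
  rw [← hC2] at hK
  refine ⟨C1 + C2 + C3 + 1, by (clear * - hC1 hC3 hK; linarith), fun k τ b z hz => ?_⟩
  have hz' : |z.im| < NUP1.l / 20 := hz.trans hep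
  have a1 := H1 (wa τ) (wb τ) (g5v τ) z hz'
  have a2 := cut_fac h0 h1 (Fil.n b * (k - 1)) (z := z) (by (clear * - h0 hz; linarith))
  have a3 := H3 (wa τ) (wb τ) (g5v τ) b z hz'
  rw [← hC2] at a2
  refine ⟨⟨a1.1, a1.2.trans (by (clear * - h0 h1 hC3 hK; linarith))⟩, ⟨a2.1, a2.2.trans (by (clear * - h0 h1 hC1 hC3; linarith))⟩, a3.1, ?_, ?_⟩
  · refine (Dl_deriv_diff (g5v τ) b hz').congr_of_eventuallyEq ?_
    exact (ev_strip hz').mono fun y hy => (H3 (wa τ) (wb τ) (g5v τ) b y hy).1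
  · rw [norm_mul, norm_I, one_mul]
    exact a3.2.trans (by (clear * - h0 h1 hC1 hK; linarith))

theorem lgv_eq (ep : ℝ) (k : ℕ) (τ : ℝ × ℝ) (b : Bool) (z : ℂ) : lgv ep k τ b z =
    PBEI.h00 (z - PBQ1.hr (PBT3.zt τ)) +
      PBLZ.PLX.cutI (4 / 3 * (1 - ep)) (LX (Fil.n b * (k - 1))) z := by
  unfold lgv
  rw [LX_rwq]

theorem Fv_eq (ep : ℝ) (k : ℕ) (τ : ℝ × ℝ) (s : ℝ) (r : ℕ) (O : Fin r → Xo) (b : Bool) (z : ℂ) :
    Fv ep k τ s r O b z = PBEI.h00 (z - PBQ1.hr (PBT3.zt τ)) +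
      PBLZ.PLX.cutI (4 / 3 * (1 - ep)) (LX (Fil.n b * (k - 1))) z +
      s * (I * D1v τ b (NUP1.l + I * z)) + kov k r O b z := by
  unfold Fv
  rw [lgv_eq]

/-- the field times the density is the landed one -/
theorem mulF2_v (k : ℕ) (τ : ℝ × ℝ) : PB.mulF2 (rv k) (Xv k τ) =
    PB.mulF (PBTs.seaT (nk k)) (PBTs.fldT (nk k) (qk k) (PBT3.be (wa τ) (wb τ))) := by
  funext b z
  have hb := Fil.b_ne_c b
  unfold PB.mulF2 PB.mulF Xv rv
  field_simp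

theorem Ev_eq (k : ℕ) (τ : ℝ × ℝ) (b : Bool) : Ev k τ b = fun z =>
    Dv τ b none (NUP1.l + I * z) - PB.rsp (PB.mulF (PBTs.seaT (nk k))
      (PBTs.fldT (nk k) (qk k) (PBT3.be (wa τ) (wb τ)))) b z := by
  funext z
  unfold Ev
  rw [mulF2_v]

/-- **the force**: analytic and bounded -/
theorem Fv_fac {ep : ℝ} (h0 : 0 < ep) (h1 : ep ≤ 1 / 100) : ∃ C : ℝ, 1 ≤ C ∧
    ∀ (k : ℕ) (τ : ℝ × ℝ) (s : ℝ), s ∈ Icc (0 : ℝ) 1 → ∀ (r : ℕ) (O : Fin r → Xo) (b : Bool) (z : ℂ),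
    |z.im| < ep / 8 → DifferentiableAt ℂ (Fv ep k τ s r O b) z ∧
      ‖Fv ep k τ s r O b z‖ ≤ C * (r + 1) := by
  have hl := Bd.l_pos
  have hep := ep_l h1
  obtain ⟨C, hC, H⟩ := parts_fac h0 h1
  have hCO := PBOR.PLX.CO_pos
  refine ⟨3 * C + (PBOR.PLX.CO + 4), by (clear * - h0 h1 hC hCO; linarith), fun k τ s hs r O b z hz => ?_⟩
  have hz' : |z.im| < NUP1.l / 20 := hz.trans hep
  obtain ⟨⟨d1, b1⟩, ⟨d2, b2⟩, -, d3, b3⟩ := H k τ b z hz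
  obtain ⟨-, d4, b4⟩ := kov_fac k O b hz'
  constructor
  · have e : Fv ep k τ s r O b = fun z => PBEI.h00 (z - PBQ1.hr (PBT3.zt τ)) +
        PBLZ.PLX.cutI (4 / 3 * (1 - ep)) (LX (Fil.n b * (k - 1))) z +
        s * (I * D1v τ b (NUP1.l + I * z)) + kov k r O b z := funext fun z => Fv_eq ..
    rw [e]
    exact ((d1.add d2).add (d3.const_mul (s : ℂ))).add d4
  · have hs' : ‖(s : ℂ) * (I * D1v τ b (NUP1.l + I * z))‖ ≤ C := by
      rw [norm_mul, norm_real, Real.norm_of_nonneg hs.1]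
      calc s * ‖I * D1v τ b (NUP1.l + I * z)‖ ≤ 1 * C :=
            mul_le_mul hs.2 b3 (norm_nonneg _) zero_le_one
        _ = C := one_mul _
    have hr : (0 : ℝ) ≤ r := Nat.cast_nonneg r
    unfold Fv
    rw [lgv_eq]
    have n1 := norm_add_le (PBEI.h00 (z - PBQ1.hr (PBT3.zt τ)) +
      PBLZ.PLX.cutI (4 / 3 * (1 - ep)) (LX (Fil.n b * (k - 1))) z + s * (I * D1v τ b (NUP1.l + I * z)))
      (kov k r O b z)
    have n2 := norm_add_le (PBEI.h00 (z - PBQ1.hr (PBT3.zt τ)) +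
      PBLZ.PLX.cutI (4 / 3 * (1 - ep)) (LX (Fil.n b * (k - 1))) z) (s * (I * D1v τ b (NUP1.l + I * z)))
    have n3 := norm_add_le (PBEI.h00 (z - PBQ1.hr (PBT3.zt τ)))
      (PBLZ.PLX.cutI (4 / 3 * (1 - ep)) (LX (Fil.n b * (k - 1))) z)
    clear * - h0 h1 hCO b1 b2 b4 hs' n1 n2 n3 hC
    nlinarith

theorem Szv_nonneg (k : ℕ) (τ : ℝ × ℝ) : 0 ≤ Szv k τ := by
  unfold Szv
  positivity

/-- the field times the filling -/
def X0 (k : ℕ) (τ : ℝ × ℝ) : Bool → ℂ → ℂ := PBTs.fldT (nk k) (qk k) (PBT3.be (wa τ) (wb τ))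

theorem X0_fac : ∃ C : ℝ, 1 ≤ C ∧ ∀ k : ℕ, 2 ≤ k → ∀ (τ : ℝ × ℝ) (b : Bool) (z : ℂ),
    |z.im| < NUP1.l / 5 → DifferentiableAt ℂ (X0 k τ b) z ∧
    ‖X0 k τ b z‖ ≤ C * Szv k τ * mn (33 / 8 * Real.log k) z.re := by
  obtain ⟨C, hC, H⟩ := X_fac
  refine ⟨C, hC, fun k hk τ b z hz => ?_⟩
  have h := H k hk (wa τ) (wb τ) (g5v τ) b z hz
  rw [MM_v] at h
  exact h

theorem norm_binv_le (b : Bool) : ‖((Fil.b b : ℂ))⁻¹‖ ≤ 1 := by
  rw [norm_inv, norm_real, Real.norm_of_nonneg (Fil.b_pos b).le]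
  exact inv_le_one_of_one_le₀ (Fil.one_le b)

/-- the field -/
theorem Xv_fac : ∃ C : ℝ, 1 ≤ C ∧ ∀ k : ℕ, 2 ≤ k → ∀ (τ : ℝ × ℝ) (b : Bool) (z : ℂ),
    |z.im| < NUP1.l / 5 → DifferentiableAt ℂ (Xv k τ b) z ∧
    ‖Xv k τ b z‖ ≤ C * Szv k τ * mn (33 / 8 * Real.log k) z.re := by
  obtain ⟨C, hC, H⟩ := X0_fac
  refine ⟨C, hC, fun k hk τ b z hz => ?_⟩
  have h := H k hk τ b z hz
  refine ⟨h.1.const_mul _, ?_⟩
  have e : Xv k τ b z = (Fil.b b : ℂ)⁻¹ * X0 k τ b z := rfl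
  rw [e, norm_mul]
  exact (mul_le_of_le_one_left (norm_nonneg _) (norm_binv_le b)).trans h.2

/-- **(G2)**: the test function of the error -/
theorem G2 {ep : ℝ} (h0 : 0 < ep) (h1 : ep ≤ 1 / 100) : ∃ C : ℝ, 1 ≤ C ∧ ∃ k0 : ℕ,
    ∀ k : ℕ, k0 ≤ k → ∀ (τ : ℝ × ℝ) (s : ℝ), s ∈ Icc (0 : ℝ) 1 → ∀ (r : ℕ) (O : Fin r → Xo)
    (b : Bool), BC (-(ep / 8)) (ep / 8) (C * Szv k τ * (1 + Real.log k) * (r + 1))
      (fun z => Ev k τ b z + fMH s (Xv k τ) (D1v τ) (lgv ep k τ) (kov k) r O b z) := by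
  have hl := Bd.l_pos
  have hep := ep_l h1
  obtain ⟨C1, hC1, k1, H1⟩ := E_bd
  obtain ⟨C2, hC2, H2⟩ := Fv_fac h0 h1
  obtain ⟨C3, hC3, H3⟩ := Xv_fac
  refine ⟨C1 + C2 * C3, by (clear * - h1 hC1 hC2 hC3 h0; nlinarith), max k1 2, fun k hk τ s hs r O b => ?_⟩
  have hk1 : k1 ≤ k := (le_max_left _ _).trans hk
  have hk2 : 2 ≤ k := (le_max_right _ _).trans hk
  have hlog : 0 ≤ Real.log k := Real.log_nonneg (by exact_mod_cast (by omega : 1 ≤ k))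
  have hS := Szv_nonneg k τ
  have hr : (0 : ℝ) ≤ r := Nat.cast_nonneg r
  obtain ⟨e1, e2⟩ := H1 k hk1 (wa τ) (wb τ) (g5v τ) b
  rw [MM_v] at e2
  have hin : ∀ z ∈ PBE.Sp (-(ep / 8)) (ep / 8), |z.im| < ep / 8 := fun z hz => abs_lt.2 hz
  refine ⟨fun z hz => ?_, fun z hz => ?_⟩
  · have hz1 := hin z hz
    have d1 : DifferentiableAt ℂ (Ev k τ b) z := by
      rw [Ev_eq]
      exact e1 z (by
        show |z.im| < NUP1.l / 10
        clear * - h0 hep hz1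
        linarith)
    have d2 := (H3 k hk2 τ b z (by (clear * - h0 hep hz1; linarith))).1
    have d3 := (H2 k τ s hs r O b z hz1).1
    exact (d1.add (d2.mul d3)).differentiableWithinAt
  · have hz1 := hin z hz
    have b1 : ‖Ev k τ b z‖ ≤ C1 * Szv k τ * (1 + Real.log k) := by
      rw [Ev_eq]
      exact e2 z (by
        show |z.im| < NUP1.l / 10
        clear * - h0 hep hz1
        linarith)
    have b2 := (H3 k hk2 τ b z (by (clear * - h0 hep hz1; linarith))).2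
    have b3 := (H2 k τ s hs r O b z hz1).2
    have b4 : ‖Xv k τ b z‖ ≤ C3 * Szv k τ :=
      b2.trans (mul_le_of_le_one_right (by positivity) (mn_le_one _ _))
    rw [fMH_Fv]
    refine (norm_add_le _ _).trans ?_
    rw [norm_mul]
    have b5 : ‖Xv k τ b z‖ * ‖Fv ep k τ s r O b z‖ ≤ C3 * Szv k τ * (C2 * (r + 1)) :=
      mul_le_mul b4 b3 (norm_nonneg _) (by positivity)
    have p1 : C1 * Szv k τ * (1 + Real.log k) ≤ C1 * Szv k τ * (1 + Real.log k) * (r + 1) :=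
      le_mul_of_one_le_right (by (clear * - hC1 hS; positivity)) (by (clear * -; linarith))
    have p2 : C3 * Szv k τ * (C2 * (r + 1)) ≤ C2 * C3 * Szv k τ * (1 + Real.log k) * (r + 1) := by
      have p3 : 0 ≤ C2 * C3 * Szv k τ * (r + 1) := by (clear * - hC2 hC3 hS; positivity)
      clear * - p3 hlog
      nlinarith [mul_nonneg p3 hlog]
    calc _ ≤ C1 * Szv k τ * (1 + Real.log k) * (r + 1) +
          C2 * C3 * Szv k τ * (1 + Real.log k) * (r + 1) := by (clear * - b1 b5 p1 p2; linarith)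
      _ = _ := by ring

/-- continuity on the line -/
theorem cont_line {f : ℂ → ℂ} {c : ℝ} (hc : 0 < c) (h : ∀ z : ℂ, |z.im| < c → DifferentiableAt ℂ f z) :
    Continuous fun t : ℝ => f t := by
  refine continuous_iff_continuousAt.2 fun t => ?_
  have h1 := (h (t : ℂ) (by rw [ofReal_im, abs_zero]; exact hc)).continuousAt
  exact ContinuousAt.comp (f := fun t : ℝ => (t : ℂ)) h1 Complex.continuous_ofReal.continuousAt

/-- **(G1)**: the constant of the error -/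
theorem G1 {ep : ℝ} (h0 : 0 < ep) (h1 : ep ≤ 1 / 100) : ∃ C : ℝ, 1 ≤ C ∧ ∃ k0 : ℕ,
    ∀ k : ℕ, k0 ≤ k → ∀ (τ : ℝ × ℝ) (s : ℝ), s ∈ Icc (0 : ℝ) 1 → ∀ (r : ℕ) (O : Fin r → Xo),
    ‖stO (Dv τ) (NUSea.PLX.O.par0 k) O +
        ∑ b, (∫ t : ℝ, Fil.b b * rv k t * fMH s (Xv k τ) (D1v τ) (lgv ep k τ) (kov k) r O b t) -
        s * PBT3.qI (wa τ) (wb τ) - PBT3.pI (wa τ) (wb τ)‖ ≤
      C * (1 + Mv τ) ^ 2 * Real.exp (2 * Mv τ) * ∑ i, Real.exp (-(2 * |ht (O i)|)) +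
        C * Szv k τ * (1 + Real.log k) * (r + 1) := by
  have hl := Bd.l_pos
  have hep := ep_l h1
  have hep0 : 0 < ep / 8 := by positivity
  obtain ⟨C1, hC1, H1⟩ := resp_DT
  obtain ⟨C2, hC2, H2⟩ := Fv_fac h0 h1
  obtain ⟨C3, hC3, H3⟩ := X0_fac
  obtain ⟨C4, hC4, H4⟩ := cut_mass h0 h1
  obtain ⟨C5, hC5, H5⟩ := parts_fac h0 h1
  obtain ⟨C6, hC6, H6⟩ := be_st5
  have hCO := PBOR.PLX.CO_pos
  refine ⟨C1 + 2 * C6 * C4 + 60 * C3 * C2, by
    have : 0 ≤ 2 * C6 * C4 := by positivity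
    clear * - h1 hC1 hC2 hC3 this h0
    nlinarith, 2, fun k hk τ s hs r O => ?_⟩
  have hk0 : (0 : ℝ) < k := by
    have : 0 < k := by omega
    exact_mod_cast this
  have hlog : 0 ≤ Real.log k := Real.log_nonneg (by exact_mod_cast (by omega : 1 ≤ k))
  have hS := Szv_nonneg k τ
  have hM0 : 0 ≤ Mv τ := (abs_nonneg _).trans (le_max_left _ _)
  have hr : (0 : ℝ) ≤ r := Nat.cast_nonneg r
  have hG := g5v τ
  have hg := hG.geo
  have hP := PBOR.PLX.PO_par0 k O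
  have hn : 0 ≤ nk k := Nat.cast_nonneg _
  have hq : 0 < qk k := by
    unfold qk
    positivity
  have hq1 : qk k ≤ 1 := by
    unfold qk
    refine inv_le_one_of_one_le₀ (one_le_pow₀ ?_)
    exact_mod_cast (by omega : 1 ≤ k)
  -- the functions on the line
  have re0 : ∀ t : ℝ, |((t : ℂ)).im| < ep / 8 := fun t => by
    rw [ofReal_im, abs_zero]
    exact hep0
  have re1 : ∀ t : ℝ, |((t : ℂ)).im| < NUP1.l / 20 := fun t => (re0 t).trans hep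
  have re2 : ∀ t : ℝ, |((t : ℂ)).im| < NUP1.l / 5 := fun t => (re1 t).trans (by (clear * - h0 hep; linarith))
  have ib : ∀ b, Integrable fun t : ℝ => PBT3.be (wa τ) (wb τ) b t := fun b => PBT3.be_int hg b
  have jb : ∀ (b : Bool) (a : ℂ → ℂ) (K : ℝ), (∀ z : ℂ, |z.im| < ep / 8 → DifferentiableAt ℂ a z) →
      (∀ t : ℝ, ‖a t‖ ≤ K) → Integrable fun t : ℝ => PBT3.be (wa τ) (wb τ) b t * a t := by
    intro b a K ha hK
    exact (ib b).mul_bdd (c := K) (cont_line hep0 ha).aestronglyMeasurable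
      (Eventually.of_forall hK)
  -- the field on the line
  obtain ⟨L, hL⟩ : ∃ L, L = 33 / 8 * Real.log k := ⟨_, rfl⟩
  have hL0 : 0 ≤ L := by rw [hL]; (clear * -; positivity)
  have hmn : Integrable (fun t : ℝ => mn L t) ∧ ∫ t : ℝ, mn L t ≤ 2 * Real.exp 1 * (1 + L) := by
    have h1 := int_mn hL0 0
    have e : (fun u : ℝ => mn L (0 - u)) = fun u : ℝ => mn L u := by
      funext u
      unfold mn
      rw [zero_sub, abs_neg]
    rwa [e] at h1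
  have hXb : ∀ b (t : ℝ), ‖X0 k τ b t‖ ≤ C3 * Szv k τ * mn L t := by
    intro b t
    have h := (H3 k hk τ b t (re2 t)).2
    rw [ofReal_re, ← hL] at h
    exact h
  have hXc : ∀ b, Continuous fun t : ℝ => X0 k τ b t := fun b =>
    cont_line (c := NUP1.l / 5) (by positivity) fun z hz => (H3 k hk τ b z hz).1
  have hXi : ∀ b, Integrable fun t : ℝ => X0 k τ b t := fun b =>
    (hmn.1.const_mul (C3 * Szv k τ)).mono' (hXc b).aestronglyMeasurable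
      (Eventually.of_forall (hXb b))
  have hFc : ∀ b, Continuous fun t : ℝ => Fv ep k τ s r O b t := fun b =>
    cont_line hep0 fun z hz => (H2 k τ s hs r O b z hz).1
  have hFb : ∀ b (t : ℝ), ‖Fv ep k τ s r O b t‖ ≤ C2 * (r + 1) := fun b t =>
    (H2 k τ s hs r O b t (re0 t)).2
  -- the splitting
  have split : ∀ b, ∫ t : ℝ, Fil.b b * rv k t * fMH s (Xv k τ) (D1v τ) (lgv ep k τ) (kov k) r O b t =
      (∫ t : ℝ, PBT3.be (wa τ) (wb τ) b t * PBEI.h00 (t - PBQ1.hr (PBT3.zt τ))) +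
      (∫ t : ℝ, PBT3.be (wa τ) (wb τ) b t * PBLZ.PLX.cutI (4 / 3 * (1 - ep)) (LX (Fil.n b * (k - 1))) t) +
      s * (∫ t : ℝ, PBT3.be (wa τ) (wb τ) b t * deriv (PBT3.Dl (wa τ) (wb τ) b) t) +
      (∫ t : ℝ, PBT3.be (wa τ) (wb τ) b t *
        (I * PBOR.PLX.kP (NUSea.PLX.O.par0 k) O b (NUP1.l + I * t))) -
      qk k * ∫ t : ℝ, X0 k τ b t * Fv ep k τ s r O b t := by
    intro b
    have i1 := jb b (fun z => PBEI.h00 (z - PBQ1.hr (PBT3.zt τ))) C5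
      (fun z hz => (H5 k τ b z hz).1.1) fun t => (H5 k τ b t (re0 t)).1.2
    have i2 := jb b (PBLZ.PLX.cutI (4 / 3 * (1 - ep)) (LX (Fil.n b * (k - 1)))) C5
      (fun z hz => (H5 k τ b z hz).2.1.1) fun t => (H5 k τ b t (re0 t)).2.1.2
    have i3 := jb b (fun z => I * D1v τ b (NUP1.l + I * z)) C5
      (fun z hz => (H5 k τ b z hz).2.2.2.1) fun t => (H5 k τ b t (re0 t)).2.2.2.2
    have i4 := jb b (kov k r O b) (r * (PBOR.PLX.CO + 4))
      (fun z hz => (kov_fac k O b (hz.trans hep)).2.1) fun t => (kov_fac k O b (re1 t)).2.2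
    have i5 : Integrable fun t : ℝ => X0 k τ b t * Fv ep k τ s r O b t :=
      (hXi b).mul_bdd (hFc b).aestronglyMeasurable (Eventually.of_forall (hFb b))
    have e1 : ∀ t : ℝ, Fil.b b * rv k t * fMH s (Xv k τ) (D1v τ) (lgv ep k τ) (kov k) r O b t =
        (PBT3.be (wa τ) (wb τ) b t * PBEI.h00 (t - PBQ1.hr (PBT3.zt τ)) +
        PBT3.be (wa τ) (wb τ) b t * PBLZ.PLX.cutI (4 / 3 * (1 - ep)) (LX (Fil.n b * (k - 1))) t +
        s * (PBT3.be (wa τ) (wb τ) b t * (I * D1v τ b (NUP1.l + I * t))) +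
        PBT3.be (wa τ) (wb τ) b t * kov k r O b t) -
        qk k * (X0 k τ b t * Fv ep k τ s r O b t) := by
      intro t
      have h1 := mulF_T (b1 := NUP1.l / 5) (by positivity) (by
        show NUP1.l / 5 < NUP1.l
        clear * - h0 hep
        linarith) hn hq (PBT3.be (wa τ) (wb τ)) b (re2 t)
      have h2 : Fil.b b * rv k t * Xv k τ b t =
          PBT3.be (wa τ) (wb τ) b t - qk k * X0 k τ b t := by
        have hb := Fil.b_ne_c b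
        unfold PB.mulF at h1
        unfold rv Xv X0
        rw [← h1]
        field_simp
      rw [fMH_Fv, ← mul_assoc, h2, sub_mul]
      have h3 : Fv ep k τ s r O b t = PBEI.h00 (t - PBQ1.hr (PBT3.zt τ)) +
        PBLZ.PLX.cutI (4 / 3 * (1 - ep)) (LX (Fil.n b * (k - 1))) t +
        s * (I * D1v τ b (NUP1.l + I * t)) + kov k r O b t := Fv_eq ..
      rw [mul_assoc (qk k : ℂ)]
      congr 1
      rw [h3]
      ring
    simp only [e1]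
    have j1 := i1.add i2
    have j2 := j1.add (i3.const_mul (s : ℂ))
    have j3 := j2.add i4
    have s1 := integral_sub j3 (i5.const_mul (qk k : ℂ))
    have s2 := integral_add j2 i4
    have s3 := integral_add j1 (i3.const_mul (s : ℂ))
    have s4 := integral_add i1 i2
    simp only [Pi.add_apply] at s1 s2 s3 s4
    rw [s1, s2, s3, s4, integral_const_mul, integral_const_mul]
    have e3 : ∫ t : ℝ, PBT3.be (wa τ) (wb τ) b t * (I * D1v τ b (NUP1.l + I * t)) =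
        ∫ t : ℝ, PBT3.be (wa τ) (wb τ) b t * deriv (PBT3.Dl (wa τ) (wb τ) b) t := by
      refine integral_congr_ae (Eventually.of_forall fun t => ?_)
      simp only
      rw [(H5 k τ b t (re0 t)).2.2.1]
    have e4 : ∫ t : ℝ, PBT3.be (wa τ) (wb τ) b t * kov k r O b t =
        ∫ t : ℝ, PBT3.be (wa τ) (wb τ) b t *
          (I * PBOR.PLX.kP (NUSea.PLX.O.par0 k) O b (NUP1.l + I * t)) := by
      refine integral_congr_ae (Eventually.of_forall fun t => ?_)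
      simp only
      rw [(kov_fac k O b (re1 t)).1]
    rw [e3, e4]
  -- legs
  have eP : PBT3.pI (wa τ) (wb τ) =
      ∑ b, ∫ t : ℝ, PBT3.be (wa τ) (wb τ) b t * PBEI.h00 (t - PBQ1.hr (PBT3.zt τ)) := by
    rw [PBT3.pI_leg hG]
    refine Finset.sum_congr rfl fun b _ => ?_
    refine integral_congr_ae (Eventually.of_forall fun t => ?_)
    simp only [PBEI.h00, PBQ1.hr, zz_v, sub_neg_eq_add]
  have eQ := PBT3.qI_Dl hG
  -- the cutoff
  have hcut : ∀ b, ‖∫ t : ℝ, PBT3.be (wa τ) (wb τ) b t *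
      PBLZ.PLX.cutI (4 / 3 * (1 - ep)) (LX (Fil.n b * (k - 1))) t‖ ≤ C6 * C4 * Szv k τ := by
    intro b
    obtain ⟨c1, c2⟩ := H4 (Fil.n b * (k - 1))
    have hb : ∀ t : ℝ, ‖PBT3.be (wa τ) (wb τ) b t *
        PBLZ.PLX.cutI (4 / 3 * (1 - ep)) (LX (Fil.n b * (k - 1))) t‖ ≤ C6 * Real.exp (8 / 3 * Mv τ) *
        (Real.exp (-(8 / 3 * |t|)) * ‖PBLZ.PLX.cutI (4 / 3 * (1 - ep)) (LX (Fil.n b * (k - 1))) t‖) := by
      intro t
      have h := (H6 (wa τ) (wb τ) hG b t (re2 t)).2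
      rw [ofReal_re, MM_v] at h
      rw [norm_mul, ← mul_assoc]
      exact mul_le_mul_of_nonneg_right h (norm_nonneg _)
    refine (norm_integral_le_of_norm_le (c1.const_mul _) (Eventually.of_forall hb)).trans ?_
    rw [integral_const_mul]
    have hE := Real.exp_pos (8 / 3 * Mv τ)
    have hk' : (k : ℝ) ≤ ((Fil.n b * (k - 1) : ℕ) : ℝ) + 2 := by
      have h5 : k - 1 ≤ Fil.n b * (k - 1) := Nat.le_mul_of_pos_left _ (Fil.n_pos b)
      have : k ≤ Fil.n b * (k - 1) + 2 := by omega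
      exact_mod_cast this
    have c3 : C4 / (((Fil.n b * (k - 1) : ℕ) : ℝ) + 2) ≤ C4 / k :=
      div_le_div_of_nonneg_left hC4 hk0 hk'
    calc C6 * Real.exp (8 / 3 * Mv τ) * ∫ t : ℝ, (Real.exp (-(8 / 3 * |t|)) *
          ‖PBLZ.PLX.cutI (4 / 3 * (1 - ep)) (LX (Fil.n b * (k - 1))) t‖)
        ≤ C6 * Real.exp (8 / 3 * Mv τ) * (C4 / k) :=
          mul_le_mul_of_nonneg_left (c2.trans c3) (by positivity)
      _ = C6 * C4 * Szv k τ := by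
          unfold Szv
          ring
  -- the regularisation
  have hreg : ∀ b, ‖∫ t : ℝ, X0 k τ b t * Fv ep k τ s r O b t‖ ≤
      30 * C3 * C2 * Szv k τ * (1 + Real.log k) * (r + 1) := by
    intro b
    have hb : ∀ t : ℝ, ‖X0 k τ b t * Fv ep k τ s r O b t‖ ≤
        C3 * Szv k τ * (C2 * (r + 1)) * mn L t := by
      intro t
      rw [norm_mul]
      have h := mul_le_mul (hXb b t) (hFb b t) (norm_nonneg _)
        (mul_nonneg (by positivity) (mn_nonneg L t))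
      calc _ ≤ C3 * Szv k τ * mn L t * (C2 * (r + 1)) := h
        _ = _ := by ring
    refine (norm_integral_le_of_norm_le (hmn.1.const_mul _) (Eventually.of_forall hb)).trans ?_
    rw [integral_const_mul]
    have he : Real.exp 1 ≤ 3 := by
      have := Real.exp_one_lt_d9
      linarith
    have h2 : ∫ t : ℝ, mn L t ≤ 30 * (1 + Real.log k) := by
      refine hmn.2.trans ?_
      rw [hL]
      clear * - h1 hlog he h0
      nlinarith
    have hA : 0 ≤ C3 * Szv k τ * (C2 * (r + 1)) := by (clear * - hC3 hS hC2; positivity)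
    calc C3 * Szv k τ * (C2 * (r + 1)) * ∫ t : ℝ, mn L t
        ≤ C3 * Szv k τ * (C2 * (r + 1)) * (30 * (1 + Real.log k)) :=
          mul_le_mul_of_nonneg_left h2 hA
      _ = _ := by ring
  -- the objects
  have hobj := H1 (wa τ) (wb τ) hG r (NUSea.PLX.O.par0 k) O hP
  rw [MM_v] at hobj
  have hpin := sum_min_pin (Mv τ) O
  simp only [split]
  rw [eP, eQ]
  obtain ⟨A1, hA1⟩ : ∃ A : Bool → ℂ, A = fun b => ∫ t : ℝ, PBT3.be (wa τ) (wb τ) b t *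
    PBEI.h00 (t - PBQ1.hr (PBT3.zt τ)) := ⟨_, rfl⟩
  obtain ⟨A2, hA2⟩ : ∃ A : Bool → ℂ, A = fun b => ∫ t : ℝ, PBT3.be (wa τ) (wb τ) b t *
    PBLZ.PLX.cutI (4 / 3 * (1 - ep)) (LX (Fil.n b * (k - 1))) t := ⟨_, rfl⟩
  obtain ⟨A3, hA3⟩ : ∃ A : Bool → ℂ, A = fun b => ∫ t : ℝ, PBT3.be (wa τ) (wb τ) b t *
    deriv (PBT3.Dl (wa τ) (wb τ) b) t := ⟨_, rfl⟩
  obtain ⟨A4, hA4⟩ : ∃ A : Bool → ℂ, A = fun b => ∫ t : ℝ, PBT3.be (wa τ) (wb τ) b t *
    (I * PBOR.PLX.kP (NUSea.PLX.O.par0 k) O b (NUP1.l + I * t)) := ⟨_, rfl⟩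
  obtain ⟨A5, hA5⟩ : ∃ A : Bool → ℂ, A = fun b => ∫ t : ℝ, X0 k τ b t * Fv ep k τ s r O b t :=
    ⟨_, rfl⟩
  have hcut' : ∀ b, ‖A2 b‖ ≤ C6 * C4 * Szv k τ := fun b => by rw [hA2]; exact hcut b
  have hreg' : ∀ b, ‖A5 b‖ ≤ 30 * C3 * C2 * Szv k τ * (1 + Real.log k) * (r + 1) := fun b => by
    rw [hA5]; exact hreg b
  have hobj' : ‖(∑ b, A4 b) + stO (Dv τ) (NUSea.PLX.O.par0 k) O‖ ≤ C1 * (1 + Mv τ) ^ 2 *
      ∑ i, min 1 (Real.exp (2 * (Mv τ - |ht (O i)|))) := by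
    rw [hA4]
    exact hobj
  have e : stO (Dv τ) (NUSea.PLX.O.par0 k) O + ∑ b, (A1 b + A2 b + s * A3 b + A4 b - qk k * A5 b) -
      s * ∑ b, A3 b - ∑ b, A1 b =
      ((∑ b, A4 b) + stO (Dv τ) (NUSea.PLX.O.par0 k) O) + (A2 true + A2 false) -
        qk k * (A5 true + A5 false) := by
    simp only [Fintype.sum_bool]
    ring
  have e' : stO (Dv τ) (NUSea.PLX.O.par0 k) O + ∑ b, ((∫ t : ℝ, PBT3.be (wa τ) (wb τ) b t *
      PBEI.h00 (t - PBQ1.hr (PBT3.zt τ))) +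
      (∫ t : ℝ, PBT3.be (wa τ) (wb τ) b t * PBLZ.PLX.cutI (4 / 3 * (1 - ep)) (LX (Fil.n b * (k - 1))) t) +
      s * (∫ t : ℝ, PBT3.be (wa τ) (wb τ) b t * deriv (PBT3.Dl (wa τ) (wb τ) b) t) +
      (∫ t : ℝ, PBT3.be (wa τ) (wb τ) b t *
        (I * PBOR.PLX.kP (NUSea.PLX.O.par0 k) O b (NUP1.l + I * t))) -
      qk k * ∫ t : ℝ, X0 k τ b t * Fv ep k τ s r O b t) -
      s * (∑ b, ∫ t : ℝ, PBT3.be (wa τ) (wb τ) b t * deriv (PBT3.Dl (wa τ) (wb τ) b) t) -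
      (∑ b, ∫ t : ℝ, PBT3.be (wa τ) (wb τ) b t * PBEI.h00 (t - PBQ1.hr (PBT3.zt τ))) =
      stO (Dv τ) (NUSea.PLX.O.par0 k) O + ∑ b, (A1 b + A2 b + s * A3 b + A4 b - qk k * A5 b) -
      s * ∑ b, A3 b - ∑ b, A1 b := by
    rw [hA1, hA2, hA3, hA4, hA5]
  rw [e', e]
  have n1 := norm_sub_le (((∑ b, A4 b) + stO (Dv τ) (NUSea.PLX.O.par0 k) O) + (A2 true + A2 false))
    (qk k * (A5 true + A5 false))
  have n2 := norm_add_le ((∑ b, A4 b) + stO (Dv τ) (NUSea.PLX.O.par0 k) O) (A2 true + A2 false)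
  have n3 := norm_add_le (A2 true) (A2 false)
  have n4 := norm_add_le (A5 true) (A5 false)
  have n5 : ‖(qk k : ℂ) * (A5 true + A5 false)‖ ≤ ‖A5 true + A5 false‖ := by
    rw [norm_mul, norm_real, Real.norm_of_nonneg hq.le]
    exact mul_le_of_le_one_left (norm_nonneg _) hq1
  have m1 := hcut' true
  have m2 := hcut' false
  have m3 := hreg' true
  have m4 := hreg' false
  obtain ⟨pn, hpn'⟩ : ∃ pn, pn = ∑ i, Real.exp (-(2 * |ht (O i)|)) := ⟨_, rfl⟩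
  have hpn0 : 0 ≤ pn := by
    rw [hpn']
    exact Finset.sum_nonneg fun i _ => (Real.exp_pos _).le
  rw [← hpn'] at hpin ⊢
  have hE := Real.exp_pos (2 * Mv τ)
  have m5 : C1 * (1 + Mv τ) ^ 2 * ∑ i, min 1 (Real.exp (2 * (Mv τ - |ht (O i)|))) ≤
      C1 * (1 + Mv τ) ^ 2 * Real.exp (2 * Mv τ) * pn := by
    rw [mul_assoc _ (Real.exp _)]
    exact mul_le_mul_of_nonneg_left hpin (by positivity)
  have m6 : C6 * C4 * Szv k τ ≤ C6 * C4 * Szv k τ * (1 + Real.log k) * (r + 1) := by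
    have p1 : 0 ≤ C6 * C4 * Szv k τ := by (clear * - hC6 hC4 hS; positivity)
    rw [mul_assoc (C6 * C4 * Szv k τ)]
    refine le_mul_of_one_le_right p1 ?_
    clear * - hlog
    nlinarith
  have m7 : C1 * (1 + Mv τ) ^ 2 * Real.exp (2 * Mv τ) * pn ≤
      (C1 + 2 * C6 * C4 + 60 * C3 * C2) * (1 + Mv τ) ^ 2 * Real.exp (2 * Mv τ) * pn := by
    have p1 : C1 ≤ C1 + 2 * C6 * C4 + 60 * C3 * C2 := by
      have q1 : 0 ≤ 2 * C6 * C4 := by positivity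
      have q2 : 0 ≤ 60 * C3 * C2 := by positivity
      clear * - q1 q2
      linarith
    clear * - p1 hM0 hpn0
    gcongr
  have m8 : 0 ≤ C1 * Szv k τ * (1 + Real.log k) * (r + 1) := by (clear * - hC1 hS; positivity)
  clear * - hobj' n1 n2 n3 n4 n5 m1 m2 m3 m4 m5 m6 m7 m8
  nlinarith

end PBTV.PLX.GG

namespace PBTV.PLX

open GG
open NUO NUP1 NUP1S NUP1S.Ab NUGC NUGC.PLX PBU PBU.PLX PBTs PBTs.PLX
open PBF.PLX (fMH LPo stO expZ)

variable [Fil] [NUSea.Sea]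

/-- **(G1) and (G2) together**, the hypothesis of the last layer -/
theorem G12 {ep : ℝ} (h0 : 0 < ep) (h1 : ep ≤ 1 / 100) : ∃ C : ℝ, 1 ≤ C ∧ ∃ k0 : ℕ,
    ∀ k : ℕ, k0 ≤ k → ∀ (τ : ℝ × ℝ) (s : ℝ), 0 ≤ s → s ≤ 1 →
    (∀ (r : ℕ) (O : Fin r → Xo), ‖stO (Dv τ) (NUSea.PLX.O.par0 k) O +
        ∑ b, (∫ t : ℝ, Fil.b b * rv k t * fMH s (Xv k τ) (D1v τ) (lgv ep k τ) (kov k) r O b t) -
        s * PBT3.qI (wa τ) (wb τ) - PBT3.pI (wa τ) (wb τ)‖ ≤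
      C * (1 + Mv τ) ^ 2 * Real.exp (2 * Mv τ) * ∑ i, Real.exp (-(2 * |ht (O i)|)) +
        C * Szv k τ * (1 + Real.log k) * (r + 1)) ∧
    (∀ (r : ℕ) (O : Fin r → Xo) (b : Bool),
      BC (-(ep / 8)) (ep / 8) (C * Szv k τ * (1 + Real.log k) * (r + 1))
      (fun z => Ev k τ b z + fMH s (Xv k τ) (D1v τ) (lgv ep k τ) (kov k) r O b z)) := by
  obtain ⟨C1, hC1, k1, H1⟩ := G1 h0 h1
  obtain ⟨C2, hC2, k2, H2⟩ := G2 h0 h1
  refine ⟨max C1 C2, hC1.trans (le_max_left _ _), max (max k1 k2) 1,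
    fun k hk τ s hs0 hs1 => ⟨fun r O => ?_, fun r O b => ?_⟩⟩
  · have hk1 : k1 ≤ k := (le_max_left _ _).trans ((le_max_left _ _).trans hk)
    have hk3 : 1 ≤ k := (le_max_right _ _).trans hk
    have hlog : 0 ≤ Real.log k := Real.log_nonneg (by exact_mod_cast hk3)
    have hS := Szv_nonneg k τ
    have hM0 : 0 ≤ Mv τ := (abs_nonneg _).trans (le_max_left _ _)
    have hpn0 : 0 ≤ ∑ i, Real.exp (-(2 * |ht (O i)|)) :=
      Finset.sum_nonneg fun i _ => (Real.exp_pos _).le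
    refine (H1 k hk1 τ s ⟨hs0, hs1⟩ r O).trans ?_
    have hC := le_max_left C1 C2
    clear * - hC hM0 hS
    gcongr
  · have hk2 : k2 ≤ k := (le_max_right _ _).trans ((le_max_left _ _).trans hk)
    have hk3 : 1 ≤ k := (le_max_right _ _).trans hk
    have hlog : 0 ≤ Real.log k := Real.log_nonneg (by exact_mod_cast hk3)
    have hS := Szv_nonneg k τ
    refine (H2 k hk2 τ s ⟨hs0, hs1⟩ r O b).mono ?_
    have hC := le_max_right C1 C2
    clear * - hC hS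
    gcongr

end PBTV.PLX
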