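import Pool.Agent.PLX.Ns
import Pool.Agent.PLX.QRep2
import Pool.Agent.PLX.PB.UBN
import Pool.Agent.PLX.PB.RepM
import Pool.Agent.PLX.PB.TRsM
import Pool.Agent.PLX.PB.ParZ

/-!
# The quadratic statistic of a field under the functionals with moduli, two fillings (PLAX)

* `MIs_Vst`: the linear statistics are jointly measurable in a parameter of the test function;
* `enorm_Qst_le`: `|Qst X| ≤ |V (-2 ε X)| |V (ε tgh)| + ∫ |V (QA q)| |V (QB q)|`;
* `UB.quad`: `∫ |w| |Qst X| ≤ C S (1 + L) m^ε bd` for every field `XBd b1 S L X`.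
-/

set_option autoImplicit false
set_option linter.unusedSectionVars false

noncomputable section

open Complex MeasureTheory Finset
open scoped ENNReal
open PLX (Fil)

namespace PBU.PLX

open NUO NUP1 NUP1S NUP1S.Ab NUP1S.AbC NUGC NUGC.PLX PBFunc PBFunc.PLX PBF PBF.PLX PBP PBP.PLX

variable [Fil]

/-- the linear statistics with a parameter -/
theorem MIs_Vst {T : Type*} [MeasurableSpace T] {η η' : Crs} (hc : MCr η η') {ρ : ℂ → ℂ}
    (hρ : Measurable fun u : ℝ => ρ u) {g : T → Bool → ℂ → ℂ}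
    (hg : ∀ b, Measurable fun p : T × ℂ => g p.1 b p.2) :
    MIs fun (t : T) r O a b x => Vst η ρ (g t) r O a b x := by
  intro r a b
  unfold Vst PB.NX.nuL
  refine Measurable.sub (Finset.measurable_sum _ fun k _ => ?_) (Finset.measurable_sum _ fun s _ => ?_)
  · exact (hg (spQ a b k)).comp (measurable_fst.prodMk ((meas_zq hc r k).comp measurable_snd))
  · have h1 : Measurable fun p : T × ℝ => PB.rS2 ρ s p.2 * g p.1 s (PB.eR p.2) := by
      unfold PB.rS2 PB.eR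
      exact ((hρ.comp measurable_snd).const_mul _).mul ((hg s).comp (measurable_fst.prodMk
        (Complex.measurable_ofReal.comp measurable_snd)))
    have h2 := (h1.stronglyMeasurable.integral_prod_right' (ν := (volume : Measure ℝ))).measurable
    exact h2.comp measurable_fst

theorem MIn_Vst {η η' : Crs} (hc : MCr η η') {ρ : ℂ → ℂ}
    (hρ : Measurable fun u : ℝ => ρ u) {g : Bool → ℂ → ℂ} (hg : ∀ b, Measurable (g b)) :
    MIn (Vst η ρ g) :=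
  (MIs_Vst (T := Unit) (g := fun _ => g) hc hρ (fun b => (hg b).comp measurable_snd)).at ()

/-- **the quadratic statistic pointwise** -/
theorem enorm_Qst_le {η : Crs} {y0 y1 b1 S L : ℝ} (h : PB.YOk y0 y1 b1) (hS : 0 ≤ S) (hL : 0 ≤ L)
    {X : Bool → ℂ → ℂ} (hX : PB.XBd b1 S L X) {ρ : ℂ → ℂ} (hρ : Integrable fun u : ℝ => ρ u)
    (hρm : Measurable fun u : ℝ => ρ u) (hη : ∀ r O t, |η r O t| ≤ y0) (r : ℕ) (O : Fin r → Xo)
    (a b : ℕ) (x : (Fin a → ℝ) × (Fin b → ℝ)) :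
    ‖Qst η ρ X r O a b x‖ₑ ≤ ‖Vst η ρ (PB.fX X) r O a b x‖ₑ * ‖Vst η ρ PB.gT2 r O a b x‖ₑ +
      ∫⁻ q, ‖Vst η ρ (PB.QA X y1 q) r O a b x‖ₑ * ‖Vst η ρ (PB.QB y1 q) r O a b x‖ₑ ∂PB.qm := by
  unfold Qst Vst
  exact PB.enorm_nuQ_field2 h hS hL hX (ρ := PB.rS2 ρ) (fun s => hρ.const_mul _)
    (fun s => hρm.const_mul _) (spQ a b) (z := zq η r O x) (fun k => by
    unfold zq
    rw [zc_im]
    exact Fil.abs_cv_le_of (hη r O _))

variable [NUSea.Sea]

/-- the fixed curve is measurable -/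
theorem mcr_cr' (e1 J : ℝ) (m : ℕ) : MCr (cr e1 J m) (cr' e1 J m) where
  m r := PBF.PLX.curZ_meas e1 J m m r
  m' r := PBF.PLX.curZ_meas' e1 J m m r

variable {ι : Type} {F : Fam ι} {ep e1 J : ℝ} {m : ℕ} {i : ι} {p : ℕ} {K ε : ℝ}

theorem L1_enorm {Ω : Type*} [MeasurableSpace Ω] {μ : Measure Ω} {w A : Ω → ℂ} {a : ℝ}
    (h : L1 μ w A a) : ∫⁻ x, ‖w x‖ₑ * ‖A x‖ₑ ∂μ ≤ ENNReal.ofReal a := by
  refine le_trans (le_of_eq ?_) h
  refine lintegral_congr fun x => ?_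
  rw [ENNReal.ofReal_mul (norm_nonneg _), ofReal_norm, ofReal_norm]

/-- products of two statistics -/
theorem UB.two (h : UB F ep e1 J p K ε) (hp : 2 ≤ p) (hK : 1 ≤ K) (C0 y₁ y₂ : ℝ) (h1 : y₁ < 0)
    (h2 : 0 < y₂) :
    ∃ m0 : ℕ, ∀ m ≥ m0, ∀ i : ι, F.ok m i →
    MC (F.Z ep m i) (NUSea.PLX.O.par0 m) (cr e1 J m) (cr' e1 J m) →
    ∀ ρ : ℂ → ℂ, DN C0 m (fun t : ℝ => ρ t) → Measurable (fun u : ℝ => ρ u) →
    ∀ (M M' : ℝ), 0 < M → 0 < M' → ∀ g g' : Bool → ℂ → ℂ, (∀ b, Measurable (g b)) →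
    (∀ b, Measurable (g' b)) → (∀ s, BC y₁ y₂ M (g s)) → (∀ s, BC y₁ y₂ M' (g' s)) →
      ∫⁻ x, ‖wF F ep e1 J m i x‖ₑ * (‖evN (fun _ => Vst (cr e1 J m) ρ g) x‖ₑ *
        ‖evN (fun _ => Vst (cr e1 J m) ρ g') x‖ₑ) ∂(mN (F.top m)) ≤
      ENNReal.ofReal (M * M' * ((m : ℝ) ^ ε * F.bd m i)) := by
  obtain ⟨m0, h0⟩ := UB.l1 h C0 y₁ y₂ h1 h2
  refine ⟨m0, fun m hm i hi hMC ρ hρ hρm M M' hM hM' g g' mg mg' hg hg' => ?_⟩
  have h3 := h0 m hm i hi hMC ρ hρ 2 hp ![M, M'] (by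
      intro j
      fin_cases j
      · exact hM
      · exact hM')
    (fun _ _ j => (![g, g'] : Fin 2 → Bool → ℂ → ℂ) j) (by
      intro r O j s
      fin_cases j
      · exact hg s
      · exact hg' s)
    1 zero_le_one (fun _ _ => 1) (OW.one hK m)
    (fun _ r O a b x => Vst (cr e1 J m) ρ g r O a b x * Vst (cr e1 J m) ρ g' r O a b x)
    (fun n _ => by
      have a1 := MIn_Vst (mcr_cr' e1 J m) hρm mg
      have a2 := MIn_Vst (mcr_cr' e1 J m) hρm mg'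
      exact fun r a b => (a1 r a b).mul (a2 r a b))
    (fun n _ r O a b x => by
      rw [one_mul, Fin.prod_univ_two, norm_mul, Vst_eq, Vst_eq]
      exact le_rfl)
  have h4 := L1_enorm h3
  rw [Fin.prod_univ_two, one_mul] at h4
  refine le_trans (le_of_eq ?_) h4
  refine lintegral_congr fun x => ?_
  rw [← enorm_mul]
  rfl

theorem BC_fX {y0 y1 b1 S L : ℝ} (h : PB.YOk y0 y1 b1) (hS : 0 ≤ S) {X : Bool → ℂ → ℂ}
    (hX : PB.XBd b1 S L X) (b : Bool) : BC (-y0) y0 (2 * S) (PB.fX X b) where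
  an z hz := by
    have h1 : |z.im| < b1 := (abs_lt.2 ⟨hz.1, hz.2⟩).trans (h.h01.trans h.h1)
    unfold PB.fX
    exact ((hX.d b z h1).const_mul _).differentiableWithinAt
  bd z hz := by
    have h1 : |z.im| < b1 := (abs_lt.2 ⟨hz.1, hz.2⟩).trans (h.h01.trans h.h1)
    have h2 := hX.bd b z h1
    have h3 := mul_le_of_le_one_right hS (PB.WL_le_one L z.re)
    unfold PB.fX
    rw [norm_mul, norm_mul, norm_neg, PB.norm_eps]
    have h4 : ‖(2 : ℂ)‖ = 2 := by simp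
    rw [h4]
    linarith

theorem BC_gT2 {y0 : ℝ} (h : y0 ≤ NUMF.l) (b : Bool) :
    BC (-y0) y0 (1 + 2 / NUMF.r) (PB.gT2 b) where
  an z hz := by
    have h1 : |z.im| ≤ NUMF.l := (abs_lt.2 ⟨hz.1, hz.2⟩).le.trans h
    unfold PB.gT2
    exact ((PBV.tgh_diff h1).const_mul _).differentiableWithinAt
  bd z hz := by
    have h1 : |z.im| ≤ NUMF.l := (abs_lt.2 ⟨hz.1, hz.2⟩).le.trans h
    unfold PB.gT2
    rw [norm_mul, PB.norm_eps, one_mul]
    exact PB.norm_tgh_le h1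

/-- **the quadratic term** -/
theorem UB.quad (h : UB F ep e1 J p K ε) (hp : 2 ≤ p) (hK : 1 ≤ K) (C0 : ℝ) {y0 y1 b1 : ℝ}
    (hY : PB.YOk y0 y1 b1) (hy0 : 0 < y0) :
    ∃ C : ℝ, 0 < C ∧ ∃ m0 : ℕ, ∀ m ≥ m0, ∀ i : ι, F.ok m i →
    MC (F.Z ep m i) (NUSea.PLX.O.par0 m) (cr e1 J m) (cr' e1 J m) →
    (∀ t, |etaC e1 J m m t| ≤ y0) → 0 ≤ F.bd m i →
    ∀ ρ : ℂ → ℂ, DN C0 m (fun t : ℝ => ρ t) → Measurable (fun u : ℝ => ρ u) →
    ∀ (S L : ℝ) (X : Bool → ℂ → ℂ), 0 < S → 0 ≤ L → PB.XBd b1 S L X →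
      ∫⁻ x, ‖wF F ep e1 J m i x‖ₑ * ‖evN (fun _ => Qst (cr e1 J m) ρ X) x‖ₑ ∂(mN (F.top m)) ≤
      ENNReal.ofReal (C * S * (1 + L) * ((m : ℝ) ^ ε * F.bd m i)) := by
  obtain ⟨C1, hC1, hA⟩ := PB.QA_le hY
  obtain ⟨m0, h0⟩ := UB.two h hp hK C0 (-y0) y0 (by linarith) hy0
  have hr := NUMF.r_pos
  set cB := PBV.cE 1 (y1 - y0) with hcB
  have hθ : 0 < y1 - y0 := by linarith [hY.h01]
  have hcB0 : 0 < cB := by
    refine PBV.cE_pos one_pos hθ ?_
    have := hY.pi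
    have := hY.h0
    linarith
  set g1 := 1 + 2 / NUMF.r with hg1
  have hg10 : 0 < g1 := by positivity
  refine ⟨2 * g1 + 32 * (C1 + 1) * cB, by positivity, m0,
    fun m hm i hi hMC hη hbd ρ hρ hρm S L X hS hL hX => ?_⟩
  set T := (m : ℝ) ^ ε * F.bd m i with hT
  have hT0 : 0 ≤ T := mul_nonneg (Real.rpow_nonneg (Nat.cast_nonneg m) _) hbd
  have hmc := mcr_cr' e1 J m
  have hl : y0 ≤ NUMF.l := by
    have h1 := hY.h01
    have h2 := hY.h1
    have h3 := hY.hl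
    have h4 := hY.h0
    linarith
  have hXm := hX.m
  have mf : ∀ b, Measurable (PB.fX X b) := fun b => by
    unfold PB.fX
    exact (hXm b).const_mul _
  have mg : ∀ b, Measurable (PB.gT2 b) := fun b => by
    unfold PB.gT2
    exact PBV.tgh_measurable.const_mul _
  have mw : Measurable (wF F ep e1 J m i) := wN_meas fun _ _ => hMC
  -- the superposition
  have mA : Measurable fun p : PB.QI4 × CfN (F.top m) =>
      evN (fun _ => Vst (cr e1 J m) ρ (PB.QA X y1 p.1)) p.2 :=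
    evN_meas_s (Ψ := fun q _ => Vst (cr e1 J m) ρ (PB.QA X y1 q)) fun _ _ =>
      MIs_Vst hmc hρm fun b => PB.QA_measurable hXm y1 b
  have mB : Measurable fun p : PB.QI4 × CfN (F.top m) =>
      evN (fun _ => Vst (cr e1 J m) ρ (PB.QB y1 p.1)) p.2 :=
    evN_meas_s (Ψ := fun q _ => Vst (cr e1 J m) ρ (PB.QB y1 q)) fun _ _ =>
      MIs_Vst hmc hρm fun b => PB.QB_measurable y1 b
  have key : ∀ x : CfN (F.top m), ‖evN (fun _ => Qst (cr e1 J m) ρ X) x‖ₑ ≤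
      ‖evN (fun _ => Vst (cr e1 J m) ρ (PB.fX X)) x‖ₑ * ‖evN (fun _ => Vst (cr e1 J m) ρ PB.gT2) x‖ₑ +
      ∫⁻ q, ‖evN (fun _ => Vst (cr e1 J m) ρ (PB.QA X y1 q)) x‖ₑ *
        ‖evN (fun _ => Vst (cr e1 J m) ρ (PB.QB y1 q)) x‖ₑ ∂PB.qm := fun x =>
    enorm_Qst_le hY hS.le hL hX hρ.1 hρm (fun _ _ t => hη t) _ _ _ _ _
  have t1 := h0 m hm i hi hMC ρ hρ hρm (2 * S) g1 (by positivity) hg10 (PB.fX X) PB.gT2 mf mg
    (fun s => BC_fX hY hS.le hX s) (fun s => BC_gT2 hl s)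
  have t2 : ∀ q : PB.QI4, ∫⁻ x, ‖wF F ep e1 J m i x‖ₑ *
      (‖evN (fun _ => Vst (cr e1 J m) ρ (PB.QA X y1 q)) x‖ₑ *
        ‖evN (fun _ => Vst (cr e1 J m) ρ (PB.QB y1 q)) x‖ₑ) ∂(mN (F.top m)) ≤
      ENNReal.ofReal ((C1 + 1) * S * cB * T) * ENNReal.ofReal (PB.WL L q.2.2) := by
    intro q
    have hW := PB.WL_pos L q.2.2
    have mQA : ∀ b, Measurable (PB.QA X y1 q b) := fun b =>
      (PB.QA_measurable hXm y1 b).comp (measurable_const.prodMk measurable_id)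
    have mQB : ∀ b, Measurable (PB.QB y1 q b) := fun b =>
      (PB.QB_measurable y1 b).comp (measurable_const.prodMk measurable_id)
    refine (h0 m hm i hi hMC ρ hρ hρm ((C1 + 1) * S * PB.WL L q.2.2) cB (by positivity) hcB0
      (PB.QA X y1 q) (PB.QB y1 q) mQA mQB (fun s => ?_) (fun s => ?_)).trans (le_of_eq ?_)
    · refine ⟨fun z hz => ?_, fun z hz => ?_⟩
      · have h1 : |z.im| < b1 := (abs_lt.2 ⟨hz.1, hz.2⟩).trans (hY.h01.trans hY.h1)
        exact (PB.QA_diff hY hS.le hX q s h1).differentiableWithinAt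
      · have h1 : |z.im| ≤ y1 := (abs_lt.2 ⟨hz.1, hz.2⟩).le.trans hY.h01.le
        refine (hA S L X hS.le hX q s z h1).trans ?_
        unfold PB.qa
        have : C1 ≤ C1 + 1 := by linarith
        clear * - this hS hW
        gcongr
    · refine ⟨(PB.QB_diff hY q s).mono fun z hz => ?_, fun z hz => ?_⟩
      · exact ⟨by linarith [hz.1, hY.h01], by linarith [hz.2, hY.h01]⟩
      · exact PB.QB_le hY q s (abs_lt.2 ⟨hz.1, hz.2⟩).le
    · rw [← ENNReal.ofReal_mul (by (clear * - cB T hC1 hS hcB0 hbd; positivity))]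
      congr 1
      ring
  have hWi := PB.WL_int hL
  have t0 : ∫⁻ s : ℝ, ENNReal.ofReal (PB.WL L s) = ENNReal.ofReal (2 * L + 4) := by
    rw [← ofReal_integral_eq_lintegral_ofReal hWi.1
        (Filter.Eventually.of_forall fun x => (PB.WL_pos L x).le), hWi.2]
  have t3 : ∫⁻ q : PB.QI4, ENNReal.ofReal (PB.WL L q.2.2) ∂PB.qm =
      8 * ENNReal.ofReal (2 * L + 4) := by
    rw [PB.lintegral_qm]
    have e1 : ∫⁻ q : Bool × ℝ, ENNReal.ofReal (PB.WL L q.2) ∂PBV.wm =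
        2 * ENNReal.ofReal (2 * L + 4) := by
      rw [PB.lintegral_wm, t0]
      exact (two_mul _).symm
    simp only [e1]
    rw [Finset.sum_const, Finset.card_univ, Fintype.card_prod, Fintype.card_bool, nsmul_eq_mul,
      ← mul_assoc]
    norm_num
  calc ∫⁻ x, ‖wF F ep e1 J m i x‖ₑ * ‖evN (fun _ => Qst (cr e1 J m) ρ X) x‖ₑ ∂(mN (F.top m))
      ≤ ∫⁻ x, (‖wF F ep e1 J m i x‖ₑ * (‖evN (fun _ => Vst (cr e1 J m) ρ (PB.fX X)) x‖ₑ *
          ‖evN (fun _ => Vst (cr e1 J m) ρ PB.gT2) x‖ₑ) +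
        ∫⁻ q, ‖wF F ep e1 J m i x‖ₑ * (‖evN (fun _ => Vst (cr e1 J m) ρ (PB.QA X y1 q)) x‖ₑ *
        ‖evN (fun _ => Vst (cr e1 J m) ρ (PB.QB y1 q)) x‖ₑ) ∂PB.qm) ∂(mN (F.top m)) := by
        refine lintegral_mono fun x => ?_
        rw [lintegral_const_mul']
        · rw [← mul_add]
          exact mul_le_mul' le_rfl (key x)
        · exact enorm_ne_top
    _ = ∫⁻ x, ‖wF F ep e1 J m i x‖ₑ * (‖evN (fun _ => Vst (cr e1 J m) ρ (PB.fX X)) x‖ₑ *
          ‖evN (fun _ => Vst (cr e1 J m) ρ PB.gT2) x‖ₑ) ∂(mN (F.top m)) +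
        ∫⁻ x, ∫⁻ q, ‖wF F ep e1 J m i x‖ₑ *
          (‖evN (fun _ => Vst (cr e1 J m) ρ (PB.QA X y1 q)) x‖ₑ *
          ‖evN (fun _ => Vst (cr e1 J m) ρ (PB.QB y1 q)) x‖ₑ) ∂PB.qm ∂(mN (F.top m)) := by
        refine lintegral_add_left (mw.enorm.mul ?_) _
        exact (evN_meas fun _ _ => MIn_Vst hmc hρm mf).enorm.mul
          (evN_meas fun _ _ => MIn_Vst hmc hρm mg).enorm
    _ ≤ ENNReal.ofReal (2 * S * g1 * T) + ENNReal.ofReal ((C1 + 1) * S * cB * T) *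
          (8 * ENNReal.ofReal (2 * L + 4)) := by
        refine add_le_add t1 ?_
        rw [lintegral_lintegral_swap]
        · calc ∫⁻ q, ∫⁻ x, ‖wF F ep e1 J m i x‖ₑ *
                (‖evN (fun _ => Vst (cr e1 J m) ρ (PB.QA X y1 q)) x‖ₑ *
                ‖evN (fun _ => Vst (cr e1 J m) ρ (PB.QB y1 q)) x‖ₑ) ∂(mN (F.top m)) ∂PB.qm
              ≤ ∫⁻ q, ENNReal.ofReal ((C1 + 1) * S * cB * T) * ENNReal.ofReal (PB.WL L q.2.2) ∂PB.qm :=
                lintegral_mono t2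
            _ = _ := by
                rw [lintegral_const_mul' _ _ ENNReal.ofReal_ne_top, t3]
        · refine Measurable.aemeasurable ?_
          have mA' := (mA.comp (measurable_snd.prodMk measurable_fst :
            Measurable fun p : CfN (F.top m) × PB.QI4 => (p.2, p.1))).enorm
          have mB' := (mB.comp (measurable_snd.prodMk measurable_fst :
            Measurable fun p : CfN (F.top m) × PB.QI4 => (p.2, p.1))).enorm
          exact (mw.comp measurable_fst).enorm.mul (mA'.mul mB')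
    _ ≤ ENNReal.ofReal ((2 * g1 + 32 * (C1 + 1) * cB) * S * (1 + L) * T) := by
        have e8 : (8 : ℝ≥0∞) = ENNReal.ofReal 8 := by norm_num
        rw [e8, ← ENNReal.ofReal_mul (by norm_num), ← ENNReal.ofReal_mul (by (clear * - cB T hC1 hS hcB0 hbd; positivity)),
          ← ENNReal.ofReal_add (by positivity) (by (clear * - cB T hC1 hS hcB0 hbd hL; positivity))]
        refine ENNReal.ofReal_le_ofReal ?_
        have h1 : 0 ≤ 2 * g1 * S * T * L := by (clear * - g1 T hr hS hbd hL; positivity)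
        have h2 : 0 ≤ (C1 + 1) * S * cB * T * L := by (clear * - cB T hC1 hS hcB0 hbd hL; positivity)
        clear * - g1 T cB h1 h2
        nlinarith

end PBU.PLX

end
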