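import Pool.Agent.PLX.Ns
import Pool.Agent.PLX.PB.TRsV
import Pool.Agent.PLX.PB.TRsGE
import Pool.Agent.PLX.PB.TRsD3
import Pool.Agent.PLX.PB.InsInst
import Pool.Agent.PLX.PB.LPoK
import Pool.Agent.PLX.PB.QRepU

/-!
# Plan B, (TR): the hypotheses of the mean statement on the literal data (helper39)

For the literal data of `PB/TRsV` (helper55):

* `clZ_v`: the class of the family `Zv`; `dok_v`: the logarithms; `logD_v`: the log derivative;
* `sea_v`, `fld_v`: density and field; `eL_v`: the splitting of the force;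
* **`mean_v`**: `MeanH`, every `τ`, every complex `s`, for `k` large;
* **`path_v`**: `PathD` with the bound `C (1 + Mv τ)`, one constant `C`;
* **`wi_v`**: integrability of the family `famV` from `UB famV`.
-/

set_option autoImplicit false
set_option linter.unusedSectionVars false

noncomputable section

open Complex MeasureTheory Finset
open scoped ENNReal
open PLX (Fil)

namespace PBTV.PLX

open NUO NUP1 NUP1S NUP1S.Ab NUP1S.AbC NUGC NUGC.PLX PBF PBF.PLX PBU PBU.PLX PBFunc PBFunc.PLX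

variable [Fil] [NUSea.Sea]

theorem wa_re (τ : ℝ × ℝ) : (wa τ).re = 5 / 4 * NUP1.l := PBT3.wt_re _

theorem wb_re (τ : ℝ × ℝ) : (wb τ).re = 5 / 4 * NUP1.l := PBT3.wt_re _

theorem g5_v (τ : ℝ × ℝ) : PBT3.G5 (wa τ) (wb τ) := ⟨wa_re τ, wb_re τ⟩

theorem wa_im (τ : ℝ × ℝ) : |(wa τ).im| ≤ Mv τ := by
  unfold wa Mv
  rw [PBT3.wt_im]
  exact le_max_left _ _

theorem wb_im (τ : ℝ × ℝ) : |(wb τ).im| ≤ Mv τ := by
  unfold wb Mv
  rw [PBT3.wt_im]
  exact le_max_right _ _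

theorem zt_re' (τ : ℝ × ℝ) : (PBT3.zt τ).re = -(NUP1.l / 4) := PBT3.zt_re τ

theorem rws_v (m : ℕ) : PBX.Rws fun _ : Fin m => (0 : ℂ) := fun i => by
  have hl := Bd.l_pos
  rw [zero_re, abs_zero]
  positivity

theorem cutP_v (w : ℂ) (hw : w ∈ [I, -I]) : w.re = 0 := by
  rw [List.mem_cons, List.mem_singleton] at hw
  rcases hw with rfl | rfl
  · exact I_re
  · rw [neg_re, I_re, neg_zero]

variable {ep : ℝ}

/-- **the class of the family** -/
theorem clZ_v (hep : 0 < ep) (hep1 : ep ≤ 1 / 100) (k : ℕ) (τ : ℝ × ℝ) :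
    ClZ (Zv ep k τ) (NUSea.PLX.O.par0 k) (3 / 5 * NUP1.l) (2 * (4 / 3 * (1 - ep)))
      (2 * (4 / 3 * (1 - ep))) (ep / 4) (-(Fil.xn (k - 1) : ℤ)) := by
  have hl := Bd.l_pos
  refine clZ_ZL (parZ_parC k) hep hep1 (by linarith) (by linarith) (rws_v _) (fun w hw => ?_)
    (fun w hw => absurd hw List.not_mem_nil) ?_ ?_
  · rw [cutP_v w hw, abs_zero]
    positivity
  · rw [zt_re']
    linarith
  · rw [zt_re']
    linarith

/-- the logarithms of the ratio -/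
theorem dok_v : ∃ C : ℝ, 0 ≤ C ∧ ∀ (τ : ℝ × ℝ) (δ : ℝ), δ ≤ 1 / 5 →
    DOk (Dv τ) (D1v τ) δ (C * (1 + Mv τ)) := by
  obtain ⟨C, hC, h⟩ := PBTs.PLX.DT_DOk
  exact ⟨C, hC, fun τ δ hδ => h (wa τ) (wb τ) (Mv τ) (wa_re τ) (wb_re τ) (wa_im τ) (wb_im τ) δ hδ⟩

theorem lzok_v (hep : 0 < ep) (hep1 : ep ≤ 1 / 100) {k : ℕ} (hk : 2 ≤ k) (τ : ℝ × ℝ) :
    PBLZ.PLX.LZOk (4 / 3 * (1 - ep)) (3 * NUP1.l / 2 + ep / 2) (ep / 4) 0
      (fun _ : Fin (k - 1) => (0 : ℂ)) [I, -I] (PBT3.zt τ) := by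
  have hl := Bd.l_pos
  refine PBLZ.PLX.lzOk_std hep hep1 (by omega) (fun _ => zero_re) (fun w hw => cutP_v w hw) ?_
  rw [zt_re', abs_neg, abs_of_nonneg (by linarith)]
  linarith

/-- **the logarithmic derivative of the family** -/
theorem logD_v (hep : 0 < ep) (hep1 : ep ≤ 1 / 100) {k : ℕ} (hk : 2 ≤ k) (τ : ℝ × ℝ) :
    LogD (Zv ep k τ) (NUSea.PLX.O.par0 k) (ep / 4) (LZv ep k τ) (LPv k) := by
  have h := lzok_v hep hep1 hk τ
  refine logD_of (parZ_parC k) (by linarith) (fun b z hz => ?_) (fun b => ?_) ?_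
  · exact PBLZ.PLX.hasDerivAt_XX h b (Leg.cc (cond b (k - 1) (Fil.q * (k - 1)))) (PBX.gP (4 / 3) [])
      (fun w => PBX.Lg (PBT3.zt τ) (PBT3.zt τ) w * PBX.Lg (PBT3.zt τ) (PBT3.zt τ) (w - NUP1.l)) hz
  · exact PBLZ.PLX.LZX_meas _ _ _ _ _
  · obtain ⟨B, hB⟩ := PBLZ.PLX.LZX_bd h
    exact ⟨B, fun b z hz => hB b z hz⟩

theorem nk_pos {k : ℕ} (hk : 2 ≤ k) : 0 < nk k := by
  unfold nk
  have : 0 < k - 1 := by omega
  exact_mod_cast this

theorem qk_pos {k : ℕ} (hk : 2 ≤ k) : 0 < qk k := by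
  unfold qk
  have : (0 : ℝ) < k := by
    have : 0 < k := by omega
    exact_mod_cast this
  positivity

/-- the density -/
theorem sea_v {k : ℕ} (hk : 2 ≤ k) : PB.SeaF (NUP1.l / 5) (rv k) := by
  have hl := Bd.l_pos
  exact PBTs.seaF_T (by linarith) (by
    show NUP1.l / 5 < NUP1.l
    linarith) (nk_pos hk)

/-- the field -/
theorem fld_v0 {k : ℕ} (hk : 2 ≤ k) (τ : ℝ × ℝ) :
    PB.FldF (NUP1.l / 5) (PBTs.fldT (nk k) (qk k) (PBT3.be (wa τ) (wb τ))) := by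
  have hl : 0 < NUMF.l := NUMF.l_pos
  have h := g5_v τ
  have hC := PBT3.Cst_nonneg (y1 := -(NUMF.l / 5)) (y2 := NUMF.l / 5) (by linarith) (by linarith)
    (by linarith)
  refine PBTs.fldF_T (B := PBT3.Cst (-(NUMF.l / 5)) (NUMF.l / 5) *
    Real.exp (8 / 3 * PBT3.MM (wa τ) (wb τ))) (by
    show 0 < NUMF.l / 5
    linarith) (by
    show NUMF.l / 5 < NUMF.l
    linarith) (nk_pos hk).le (qk_pos hk) (by positivity) (PBTs.PLX.be_diff h) fun b z hz => ?_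
  refine (PBTs.PLX.be_strip h b z hz).trans (mul_le_of_le_one_right (by positivity) ?_)
  rw [Real.exp_le_one_iff]
  have := abs_nonneg z.re
  linarith

/-- the field over the multiplicity -/
theorem fldF_inv {b1 : ℝ} {X : Bool → ℂ → ℂ} (h : PB.FldF b1 X) :
    PB.FldF b1 fun b z => ((Fil.b b : ℝ) : ℂ)⁻¹ * X b z where
  d b z hz := (h.d b z hz).const_mul _
  bd := by
    obtain ⟨B, hB, hb⟩ := h.bd
    refine ⟨B, hB, fun b z hz => ?_⟩
    rw [norm_mul, norm_inv, Complex.norm_real, Real.norm_of_nonneg (Fil.b_nonneg b)]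
    have h1 := Fil.inv_b_le b
    have h2 := (Fil.inv_b_pos b).le
    calc (Fil.b b)⁻¹ * ‖X b z‖ ≤ 1 * B := mul_le_mul h1 (hb b z hz) (norm_nonneg _) zero_le_one
      _ = B := one_mul B

/-- the field -/
theorem fld_v {k : ℕ} (hk : 2 ≤ k) (τ : ℝ × ℝ) : PB.FldF (NUP1.l / 5) (Xv k τ) :=
  fldF_inv (fld_v0 hk τ)

/-- density times field -/
theorem mulF2_v (k : ℕ) (τ : ℝ × ℝ) : PB.mulF2 (rv k) (Xv k τ) =
    PB.mulF (rv k) (PBTs.fldT (nk k) (qk k) (PBT3.be (wa τ) (wb τ))) := by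
  funext b z
  have h := Fil.b_ne_c b
  unfold PB.mulF2 PB.mulF Xv
  field_simp

/-- the rows of the density -/
theorem rhoH_v (k : ℕ) : PBLZ.PLX.rhoH (fun _ : Fin (k - 1) => (0 : ℂ)) = rv k := by
  funext z
  unfold PBLZ.PLX.rhoH rv PBTs.seaT nk PBQ1.hr
  simp

/-- **the splitting of the force** -/
theorem eL_v (ep : ℝ) (k : ℕ) (τ : ℝ × ℝ) (b : Bool) {z : ℂ} (hz : |z.im| < NUP1.l / 5) :
    I * LZv ep k τ b (NUP1.l + I * z) - PB.kp2 (rv k) b z = lgv ep k τ b z := by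
  have hl := Bd.l_pos
  obtain ⟨z1, z2⟩ := abs_lt.1 hz
  have h1 : ∀ i : Fin (k - 1), |(z - PBQ1.hr ((fun _ : Fin (k - 1) => (0 : ℂ)) i)).im| < NUP1.l := by
    intro i
    have e : (z - PBQ1.hr (0 : ℂ)).im = z.im := by simp [PBQ1.hr]
    show |(z - PBQ1.hr (0 : ℂ)).im| < NUP1.l
    rw [e]
    linarith
  have h2 : |(z - PBQ1.hr (PBT3.zt τ)).im| < NUP1.l := by
    rw [sub_im, PBQ1.hr_im, zt_re', abs_lt]
    constructor <;> linarith
  have key := PBLZ.PLX.I_LZX b (x := fun _ : Fin (k - 1) => (0 : ℂ)) (p := PBT3.zt τ)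
    (4 / 3 * (1 - ep)) [I, -I] h1 h2
  unfold LZv lgv
  rw [key, rhoH_v]
  ring

/-- the response of the regularised field is integrable against the density -/
theorem iE_v {k : ℕ} (hk : 2 ≤ k) (τ : ℝ × ℝ) (b : Bool) :
    Integrable fun t : ℝ => rv k t * Ev k τ b t := by
  have hl := Bd.l_pos
  have hL := int_line2 (sea_v hk) (fld_v hk τ) (by linarith) b
  have h1 : Integrable fun t : ℝ => rv k t * PB.cV (deriv (PB.mulF2 (rv k) (Xv k τ) b)) t +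
      rv k t * PB.cG (fun w => PB.mulF2 (rv k) (Xv k τ) b w - PB.mulF2 (rv k) (Xv k τ) (!b) w) t :=
    hL.2.2.1.add hL.2.2.2
  obtain ⟨C, -, h⟩ := PBTs.PLX.DT_le
  have H := fun s : ℝ => h (wa τ) (wb τ) (Mv τ) (wa_re τ) (wb_re τ) (wa_im τ) (wb_im τ) b none
    (NUP1.l + I * s) (by
      show 3 / 5 * NUP1.l ≤ _ ∧ _ ≤ 6 / 5 * NUP1.l
      simp
      constructor <;> linarith)
  have hm : Measurable fun s : ℝ => PBTs.PLX.DT (wa τ) (wb τ) b none (NUP1.l + I * s) :=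
    (PBTs.PLX.measurable_DT (wa τ) (wb τ) b none).comp (by fun_prop)
  have h2 : Integrable fun s : ℝ => (NUMF.P s : ℂ) * PBTs.PLX.DT (wa τ) (wb τ) b none (NUP1.l + I * s) :=
    NUMF.P_integrable.ofReal.mul_bdd hm.aestronglyMeasurable (Filter.Eventually.of_forall H)
  refine ((h2.const_mul ((nk k : ℝ) : ℂ)).add h1).congr (Filter.Eventually.of_forall fun t => ?_)
  simp only [Pi.add_apply]
  unfold Ev PB.rsp Dv
  have e : rv k (t : ℂ) = nk k * (NUMF.P t : ℂ) := by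
    unfold rv PBTs.seaT
    rw [NUMF.Pc_ofReal]
  rw [e]
  ring

variable {e1 J : ℝ}

/-- **the hypotheses of the mean statement** -/
theorem mean_v (hep : 0 < ep) (hep1 : ep ≤ 1 / 100) (he : 0 < e1) (he1 : e1 ≤ 1 / 100)
    (hJ : 0 ≤ J) : ∃ k0 : ℕ, 2 ≤ k0 ∧ ∀ k ≥ k0, ∀ (τ : ℝ × ℝ) (s : ℂ),
      MeanH (Zv ep k τ) (Dv τ) (NUSea.PLX.O.par0 k) (cr e1 J k) (cr' e1 J k)
        (-(dN (2 * (k - 1)) : ℤ)) s (ep / 4)
        (2 * (4 / 3 * (1 - ep))) (NUP1.l / 5) (rv k) (Xv k τ) (LZv ep k τ) (D1v τ) (Ev k τ)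
        (lgv ep k τ) (LPv k) (kov k) := by
  have hl := Bd.l_pos
  obtain ⟨m0, -, hc⟩ := curZ_crs he he1 hJ hep
  obtain ⟨C, hC, hD⟩ := dok_v
  refine ⟨max m0 2, le_max_right _ _, fun k hk τ s => ?_⟩
  have k0 : m0 ≤ k := (le_max_left _ _).trans hk
  have k2 : 2 ≤ k := (le_max_right _ _).trans hk
  have hDk := hD τ (ep / 4) (by linarith)
  exact {
    hQ := by
      rw [dN_two]
      exact (clZ_v hep hep1 k τ).q.expZ hDk s
    hP := (parZ_parC k).goodQ.toGoodP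
    h0 := by linarith
    h1 := by linarith
    hj := by
      have := (parZ_parC k).j2
      linarith
    crv := fun r O => crvR_of hep hep1 (hc k k0 r O)
    hL := (logD_v hep hep1 k2 τ).expZ hDk s
    b0 := by linarith
    bl := by linarith
    sea := sea_v k2
    fld := fld_v k2 τ
    eR := fun b z _ => by
      unfold Ev
      ring
    eL := fun b z hz => eL_v ep k τ b hz
    eP := fun r O b z _ => rfl
    iE := fun b => iE_v k2 τ b
    mP := fun r b => PBWP.PLX.meas_LPo2 _ r ((parZ_parC k).rm r) b }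

/-- **the data of the path** -/
theorem path_v : ∃ C : ℝ, 0 ≤ C ∧ ∀ ep e1 J : ℝ, 0 < ep → ep ≤ 1 / 100 → 0 < e1 → e1 ≤ 1 / 100 →
    0 ≤ J → ∃ k0 : ℕ, ∀ k ≥ k0, ∀ τ : ℝ × ℝ,
      PathD (fun _ => Zv ep k τ) (fun _ => Dv τ) (fun _ => NUSea.PLX.O.par0 k) (2 * (k - 1))
        (fun _ => cr e1 J k) (fun _ => cr' e1 J k) (C * (1 + Mv τ)) := by
  have hl := Bd.l_pos
  obtain ⟨C, hC, h⟩ := PBTs.PLX.DT_PathD
  refine ⟨C, hC, fun ep e1 J hep hep1 he he1 hJ => ?_⟩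
  obtain ⟨m0, -, hc⟩ := curZ_crs he he1 hJ hep
  refine ⟨m0, fun k hk τ => ?_⟩
  refine h (wa τ) (wb τ) (Mv τ) (wa_re τ) (wb_re τ) (wa_im τ) (wb_im τ) _ _ _ _ _
    (fun n _ s j => PBX.PLX.measurable_ZL _ _ _ _ _ s j) (fun n _ => parZ_parC k)
    (fun n _ => mcr_cr' e1 J k) fun n _ r O t => ?_
  have h1 := (hc k hk r O).h1 t
  show |etaC e1 J k k t| ≤ NUP1.l / 5
  refine h1.trans ?_
  nlinarith

end PBTV.PLX

end
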