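import Pool.Agent.PLX.PB.TRFin
import Pool.Agent.PLX.PB.TopN
import Pool.Agent.PLX.PB.Reg0
import Pool.Agent.PLX.PB.OwnLe0
import Pool.Agent.PB.OwnLe0
import Pool.Agent.PLX.FilN

/-!
# The regular function at rows `0 | 0^q`: normaliser and kernels in the names of (TR)

* `kfa k a w`: the kernel of a half quantum of species `a`; `kR_kfa`;
* `nrR_eq : nrR k = PBTRF.PLX.nr k`, `kR_eq : kR k y = PBTRF.PLX.kfW k y`, `EM2_eq`;
* `kfa_le`: the own kernel with the sea term (against `PB0.PLX.MFk`).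
-/

set_option autoImplicit false
set_option linter.unusedSectionVars false

noncomputable section

open Complex MeasureTheory Finset

open PLX (Fil)

namespace PBI.PLX

open NUP1 (l)
open NUP1.Leg (Dk Bp)
open NUP1 (vl)
open NUGC.PLX (htL)
open NUSea (seaP)
open Pool.Agent.PLX (kfX bulkN)
open PB0.PLX (MFo MFx mfs MFk)

variable [Fil]

/-- the kernel of a half quantum of species `a`, `k` effective rows `0` -/
def kfa (k : ℕ) (a : Bool) (w : ℂ) : ℂ := kfX (Fil.n a * (k - 1)) (Fil.n (!a) * (k - 1)) w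

theorem kR_kfa (k : ℕ) (y : ℝ × ℝ) : kR k y =
    kfa k true (vl (5 / 4 * l) y.1) * kfa k false (vl (5 / 4 * l) y.2) *
      Dk (vl (5 / 4 * l) y.1 - vl (5 / 4 * l) y.2) := by
  unfold kR kfa
  simp only [Bool.not_true, Bool.not_false, Fil.n_true, Fil.n_false, one_mul]

theorem nrR_eq (k : ℕ) : nrR k = PBTRF.PLX.nr k := rfl

theorem wt_vl (τ : ℝ) : PBT3.wt τ = vl (5 / 4 * l) τ := by
  unfold PBT3.wt NUP1.vl
  ring

theorem kR_eq (k : ℕ) (y : ℝ × ℝ) : kR k y = PBTRF.PLX.kfW k y := by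
  unfold kR PBTRF.PLX.kfW
  rw [wt_vl, wt_vl]

theorem EM2_eq (k : ℕ) : _root_.PLX.EM2 k = _root_.PLX.EMs fun a => (Fil.nn a k : ℝ) := rfl

theorem kfa_KF0 (k : ℕ) (a : Bool) (w : ℂ) :
    kfa k a w = PB0.PLX.KF0 (Fil.n a * (k - 1)) (Fil.n (!a) * (k - 1)) w := kfX_eq _ _ w

/-- the own kernel with the sea term -/
theorem kfa_le : ∃ C : ℝ, 0 ≤ C ∧ ∀ (k : ℕ) (a : Bool) (τ : ℝ),
    ‖kfa k a (vl (5 / 4 * l) τ)‖ *
        Real.exp (MFk k a .w (vl (5 / 4 * l) τ)) ≤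
      C * Real.exp (-|τ|) := by
  have l1 := PB0.gz_lin PB0.gz_W (-2) (a := -(3 / 4)) (by norm_num)
  obtain ⟨C1, h1, b1⟩ := ((l1.smul (-1)).congr (g := fun t => -NUHM.ls (-(3 / 4)) t) (c' := -1)
    (fun t => by ring) (by norm_num)).exp_le
  have hs := NUPn.sin2l_pos
  refine ⟨Real.sin (2 * NUMF.l) * C1, by positivity, fun k a τ => ?_⟩
  have h := PB0.PLX.own_W (Fil.n a * (k - 1)) (Fil.n (!a) * (k - 1)) τ
  have e : vl (5 / 4 * l) τ = NUMF.zj (5 / 4) τ := rfl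
  have e2 : MFk k a .w (NUMF.zj (5 / 4) τ) =
      PB0.PLX.sea2 (Fil.n a * (k - 1)) (Fil.n (!a) * (k - 1)) .w (NUMF.zj (5 / 4) τ) := by
    unfold PB0.PLX.MFk PB0.PLX.mfs PB0.PLX.sea2 PB0.PLX.e2 Fil.nn
    push_cast
    ring
  rw [kfa_KF0, e, e2, h, mul_assoc]
  refine mul_le_mul_of_nonneg_left ?_ hs.le
  have := b1 τ
  rwa [neg_one_mul] at this

end PBI.PLX

end
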