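import Pool.Agent.PLX.Ns
import Pool.Agent.PLX.PB.ValH
import Pool.Agent.PLX.PB.ValE2
import Pool.Agent.PLX.EM2
import Pool.Agent.PLX.Yq
import Pool.Agent.PB.LErh

/-!
# Plan B: the value of class D (rows `x, 0, .., 0` in both groups, Y rows `q`-fold, legs at `z`)

`‖Pf z mu (yq mu)‖`, `mu = mu0 n x`: the normaliser in front of the sum over the quanta of the doubly
dislocated function.

* `log_Pf_val`: `log ‖Pf‖ + EMs (b a (n + 1)) + ∑ₐ b a (n + 1) LamH a z x` in closed form;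
* `nrm_MF_le`, `nrm_MF`: `‖Pf‖ * exp (EMs (b a (n + 1)) + ∑ₐ b a (n + 1) LamH a z x)` is bounded from
  above for all heights of `x`, from below for `|Im x| ≤ Y`;
* **`exists_valD`**: for the sea at rows `0`, every admissible curve, `h = m P η`, every `κ`:
  `‖Pf‖ * exp (MF (b a m) + ∑ₐ ∫ b a m P Hleg κ) ≤ C exp (- 12 l h(Im z) + 24 κ l h(0))`, `m = n + 1`,
  uniformly in `m`, the heights of `z` and `x`, `- 9 l / 10 ≤ Re z ≤ 37 l / 10`.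
-/

set_option autoImplicit false
set_option linter.unusedSectionVars false

open MeasureTheory Set Filter Topology Complex
open PLX (Fil Ends EMs)

namespace PBV.PLX

open NUMF (l l_pos)
open NUMFH (mE lE)
open PBH.PLX (Hleg)
open PBVR.PLX (EMF0 EX0)
open Pool.Agent.PLX (yq)

noncomputable section

/-- rows `x, 0, .., 0` -/
def mu0 (n : ℕ) (x : ℂ) : Fin (n + 1) → ℂ := Fin.cons x fun _ => 0

theorem mu0_zero (n : ℕ) : mu0 n 0 = fun _ => 0 := by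
  funext i
  refine Fin.cases ?_ (fun j => ?_) i <;> simp [mu0]

theorem mu0_re {n : ℕ} {x : ℂ} (hx : |x.re| ≤ l / 2) (i : Fin (n + 1)) : |(mu0 n x i).re| ≤ l / 2 := by
  have hl := l_pos
  unfold mu0
  refine Fin.cases ?_ (fun j => ?_) i
  · simpa using hx
  · simp only [Fin.cons_succ, Complex.zero_re, abs_zero]
    positivity

theorem mu0_z {n : ℕ} {x z : ℂ} {P : ℂ → Prop} (h0 : P z) (h1 : P (z - x)) (i : Fin (n + 1)) :
    P (z - mu0 n x i) := by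
  unfold mu0
  refine Fin.cases ?_ (fun j => ?_) i
  · simpa using h1
  · simpa using h0

/-- sum over the pairs of rows -/
theorem sum_mu0 (n : ℕ) (x : ℂ) {f : ℂ → ℝ} (hf : ∀ w, f (-w) = f w) :
    ∑ i, ∑ j, f (mu0 n x i - mu0 n x j) = ((n : ℝ) ^ 2 + 1) * f 0 + 2 * n * f x := by
  have h0 : mu0 n x 0 = x := rfl
  have hs : ∀ i : Fin n, mu0 n x i.succ = 0 := fun i => rfl
  rw [Fin.sum_univ_succ]
  simp only [Fin.sum_univ_succ, h0, hs, sub_self, sub_zero, zero_sub, hf, Finset.sum_const,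
    Finset.card_univ, Fintype.card_fin, nsmul_eq_mul]
  ring

theorem sum_mu0_leg (n : ℕ) (x z : ℂ) (f : ℂ → ℝ) :
    ∑ i, f (z - mu0 n x i) = f (z - x) + n * f z := by
  have h0 : mu0 n x 0 = x := rfl
  have hs : ∀ i : Fin n, mu0 n x i.succ = 0 := fun i => rfl
  rw [Fin.sum_univ_succ]
  simp only [h0, hs, sub_zero, Finset.sum_const, Finset.card_univ, Fintype.card_fin, nsmul_eq_mul]

theorem EMF0_val : EMF0 = mEo 0 + mEx 0 := by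
  unfold EMF0
  rw [NUMFH.int_P_v, ← mE_add]

theorem EX0_val : EX0 = mEx 0 := by
  have hl := l_pos
  obtain ⟨i0, h0⟩ := int_cross (x := 0) (by rw [Complex.zero_re, abs_zero]; positivity)
  rw [← h0]
  unfold EX0
  refine integral_congr_ae (Eventually.of_forall fun t => ?_)
  simp only
  have e2 : (NUAct.vx (t : ℂ)) = ((NUMF.h t 0 - Real.log 2 : ℝ) : ℂ) := by
    unfold NUAct.vx
    rw [NUAct.Ly_ofReal (by rw [abs_zero]; exact Real.pi_div_two_pos)]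
    push_cast
    rfl
  rw [e2, Complex.ofReal_re, Complex.zero_im, Complex.zero_re, zero_sub, NUMF.h_neg_left]

variable [Fil]

/-- **the normaliser and the linearised mean field value**, exactly -/
theorem log_Pf_val (n : ℕ) {x z : ℂ} (hx : |x.re| ≤ l / 2) (z1 : -l ≤ z.re) (z2 : z.re ≤ 4 * l)
    (z3 : -l ≤ (z - x).re) (z4 : (z - x).re ≤ 4 * l) :
    Pool.Agent.PB.Pf z (mu0 n x) (yq (mu0 n x)) ≠ 0 ∧
    Real.log ‖Pool.Agent.PB.Pf z (mu0 n x) (yq (mu0 n x))‖ +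
      (EMs (fun a => Fil.b a * ((n + 1 : ℕ) : ℝ)) +
        ∑ a, Fil.b a * ((n + 1 : ℕ) : ℝ) * LamH a z x) =
    Real.log (3 / 2 * ‖sin (NUP1.l : ℂ)‖ / ‖PBR.rh 0‖) +
      ((1 + (Fil.q : ℝ) ^ 2) * (mE x - mE 0) - ((Fil.q : ℝ) - 1) ^ 2 * (mEx x - mEx 0) +
        (1 + Fil.q) * (lE z - lE (z - x))) := by
  have hl := l_pos
  have hll : NUP1.l = l := rfl
  have hz : ∀ i, -NUP1.l ≤ (z - mu0 n x i).re ∧ (z - mu0 n x i).re ≤ 4 * NUP1.l := fun i =>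
    ⟨mu0_z (P := fun w => -l ≤ w.re) z1 z3 i, mu0_z (P := fun w => w.re ≤ 4 * l) z2 z4 i⟩
  obtain ⟨h1, h2⟩ := log_PfZ (x := mu0 n x) (y := yq (mu0 n x)) (z := z) (fun i => mu0_re hx i)
    (fun j => mu0_re hx (Fin.modNat j)) hz fun j => hz (Fin.modNat j)
  refine ⟨h1, ?_⟩
  rw [← h2]
  have s1 := sum_mu0 n x mEo_neg
  have s2 := sum_mu0 n x mEx_neg
  have s3 := sum_mu0_leg n x z lE
  have y1 : ∑ i, ∑ j, mEo (yq (mu0 n x) i - yq (mu0 n x) j) =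
      Fil.q * (Fil.q * (((n : ℝ) ^ 2 + 1) * mEo 0 + 2 * n * mEo x)) := by
    rw [← s1]
    have e1 : ∀ i, ∑ j, mEo (yq (mu0 n x) i - yq (mu0 n x) j) =
        Fil.q * ∑ j, mEo (yq (mu0 n x) i - mu0 n x j) := fun i =>
      Pool.Agent.PLX.sum_yqn_real _ (fun w => mEo (yq (mu0 n x) i - w)) _
    simp only [e1]
    rw [← Finset.mul_sum]
    congr 1
    exact Pool.Agent.PLX.sum_yqn_real _ (fun w => ∑ j, mEo (w - mu0 n x j)) _
  have y2 : ∑ i, ∑ j, mEx (mu0 n x i - yq (mu0 n x) j) =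
      Fil.q * (((n : ℝ) ^ 2 + 1) * mEx 0 + 2 * n * mEx x) := by
    rw [← s2]
    have e1 : ∀ i, ∑ j, mEx (mu0 n x i - yq (mu0 n x) j) =
        Fil.q * ∑ j, mEx (mu0 n x i - mu0 n x j) := fun i =>
      Pool.Agent.PLX.sum_yqn_real _ (fun w => mEx (mu0 n x i - w)) _
    simp only [e1]
    rw [← Finset.mul_sum]
  have y3 : ∑ j, lE (z - yq (mu0 n x) j) = Fil.q * (lE (z - x) + n * lE z) := by
    rw [← s3]
    exact Pool.Agent.PLX.sum_yqn_real _ (fun w => lE (z - w)) _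
  unfold Q2
  rw [s1, s3, y1, y2, y3]
  have hm1 := mE_add x
  have hm2 := mE_add 0
  rw [Fintype.sum_bool]
  unfold EMs LamH
  rw [EMF0_val, EX0_val, ← hm1, ← hm2]
  simp only [Fil.b_true, Fil.b_false, Bool.not_true, Bool.not_false]
  push_cast
  ring

/-- **the normaliser against the linearised mean field value**, upper bound at all heights -/
theorem nrm_MF_le : ∃ C : ℝ, 1 ≤ C ∧ ∀ (n : ℕ) (x z : ℂ), |x.re| ≤ l / 2 → -l ≤ z.re →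
    z.re ≤ 4 * l → -l ≤ (z - x).re → (z - x).re ≤ 4 * l →
    ‖Pool.Agent.PB.Pf z (mu0 n x) (yq (mu0 n x))‖ *
      Real.exp (EMs (fun a => Fil.b a * ((n + 1 : ℕ) : ℝ)) +
        ∑ a, Fil.b a * ((n + 1 : ℕ) : ℝ) * LamH a z x) ≤ C := by
  obtain ⟨C1, hC1, H1⟩ := NUMFH.exists_lE
  obtain ⟨C2, hC2, H2⟩ := NUMFH.exists_mE
  obtain ⟨C3, hC3, H3⟩ := NUMFH.log_rh_bd
  have hl := l_pos
  have hq := Fil.one_le_qr
  obtain ⟨c0, hc0⟩ : ∃ c0 : ℝ, c0 = Real.log (3 / 2 * ‖sin (NUP1.l : ℂ)‖ / ‖PBR.rh 0‖) := ⟨_, rfl⟩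
  obtain ⟨B, hB⟩ : ∃ B : ℝ, B = (1 + (Fil.q : ℝ) ^ 2) * (2 * C2) +
    ((Fil.q : ℝ) - 1) ^ 2 * (4 * C3) + (1 + Fil.q) * (2 * C1) := ⟨_, rfl⟩
  have hB0 : 0 ≤ B := by rw [hB]; positivity
  refine ⟨Real.exp (|c0| + B), Real.one_le_exp (by positivity), ?_⟩
  intro n x z hx z1 z2 z3 z4
  obtain ⟨hne, hv⟩ := log_Pf_val n hx z1 z2 z3 z4
  obtain ⟨A, hA⟩ : ∃ A : ℝ, A = EMs (fun a => Fil.b a * ((n + 1 : ℕ) : ℝ)) +
    ∑ a, Fil.b a * ((n + 1 : ℕ) : ℝ) * LamH a z x := ⟨_, rfl⟩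
  rw [← hA, ← hc0] at hv
  rw [← hA]
  have hp := norm_pos_iff.2 hne
  rw [← Real.exp_log hp, ← Real.exp_add, hv]
  refine Real.exp_le_exp.2 ?_
  have a1 := H1 z z1 z2
  have a2 := H1 (z - x) z3 z4
  have a3 := H2 x (by linarith)
  have a4 := H2 0 (by rw [Complex.zero_re, abs_zero]; exact hl.le)
  have a5 := H3 x (by linarith)
  have a6 := H3 0 (by rw [Complex.zero_re, abs_zero]; positivity)
  rw [Complex.zero_im, abs_zero, sub_zero] at a6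
  have b1 : mE x - mE 0 ≤ 2 * C2 := by linarith [(abs_le.1 a3).2, (abs_le.1 a4).1]
  have b2 : -(4 * C3) ≤ mEx x - mEx 0 := by
    unfold mEx
    linarith [(abs_le.1 a5).1, (abs_le.1 a6).2, abs_nonneg x.im]
  have b3 : lE z - lE (z - x) ≤ 2 * C1 := by linarith [(abs_le.1 a1).2, (abs_le.1 a2).1]
  have c1 := mul_le_mul_of_nonneg_left b1 (by positivity : 0 ≤ 1 + (Fil.q : ℝ) ^ 2)
  have c2 := mul_le_mul_of_nonneg_left b2 (by positivity : 0 ≤ ((Fil.q : ℝ) - 1) ^ 2)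
  have c3 := mul_le_mul_of_nonneg_left b3 (by positivity : 0 ≤ 1 + (Fil.q : ℝ))
  have c4 := le_abs_self c0
  rw [hB]
  linarith

/-- **the normaliser against the linearised mean field value**, both sides -/
theorem nrm_MF (Y : ℝ) : ∃ C : ℝ, 1 ≤ C ∧ ∀ (n : ℕ) (x z : ℂ), |x.re| ≤ l / 2 → |x.im| ≤ Y →
    -l ≤ z.re → z.re ≤ 4 * l → -l ≤ (z - x).re → (z - x).re ≤ 4 * l →
    ‖Pool.Agent.PB.Pf z (mu0 n x) (yq (mu0 n x))‖ *
      Real.exp (EMs (fun a => Fil.b a * ((n + 1 : ℕ) : ℝ)) +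
        ∑ a, Fil.b a * ((n + 1 : ℕ) : ℝ) * LamH a z x) ≤ C ∧
    C⁻¹ ≤ ‖Pool.Agent.PB.Pf z (mu0 n x) (yq (mu0 n x))‖ *
      Real.exp (EMs (fun a => Fil.b a * ((n + 1 : ℕ) : ℝ)) +
        ∑ a, Fil.b a * ((n + 1 : ℕ) : ℝ) * LamH a z x) := by
  obtain ⟨C0, hC0, H0⟩ := nrm_MF_le
  obtain ⟨C1, hC1, H1⟩ := NUMFH.exists_lE
  obtain ⟨C2, hC2, H2⟩ := NUMFH.exists_mE
  obtain ⟨C3, hC3, H3⟩ := NUMFH.log_rh_bd
  have hl := l_pos
  have hq := Fil.one_le_qr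
  obtain ⟨c0, hc0⟩ : ∃ c0 : ℝ, c0 = Real.log (3 / 2 * ‖sin (NUP1.l : ℂ)‖ / ‖PBR.rh 0‖) := ⟨_, rfl⟩
  obtain ⟨B, hB⟩ : ∃ B : ℝ, B = (1 + (Fil.q : ℝ) ^ 2) * (2 * C2) +
    ((Fil.q : ℝ) - 1) ^ 2 * (4 * C3 + 2 * |Y|) + (1 + Fil.q) * (2 * C1) := ⟨_, rfl⟩
  have hB0 : 0 ≤ B := by rw [hB]; positivity
  have hE1 := Real.one_le_exp (show 0 ≤ |c0| + B by positivity)
  refine ⟨C0 + Real.exp (|c0| + B), by linarith, ?_⟩
  intro n x z hx hY z1 z2 z3 z4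
  refine ⟨(H0 n x z hx z1 z2 z3 z4).trans (by linarith), ?_⟩
  obtain ⟨hne, hv⟩ := log_Pf_val n hx z1 z2 z3 z4
  obtain ⟨A, hA⟩ : ∃ A : ℝ, A = EMs (fun a => Fil.b a * ((n + 1 : ℕ) : ℝ)) +
    ∑ a, Fil.b a * ((n + 1 : ℕ) : ℝ) * LamH a z x := ⟨_, rfl⟩
  rw [← hA, ← hc0] at hv
  rw [← hA]
  have hp := norm_pos_iff.2 hne
  rw [← Real.exp_log hp, ← Real.exp_add, hv]
  have h1 : (C0 + Real.exp (|c0| + B))⁻¹ ≤ (Real.exp (|c0| + B))⁻¹ :=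
    inv_anti₀ (Real.exp_pos _) (by linarith)
  refine h1.trans ?_
  rw [← Real.exp_neg]
  refine Real.exp_le_exp.2 ?_
  have a1 := H1 z z1 z2
  have a2 := H1 (z - x) z3 z4
  have a3 := H2 x (by linarith)
  have a4 := H2 0 (by rw [Complex.zero_re, abs_zero]; exact hl.le)
  have a5 := H3 x (by linarith)
  have a6 := H3 0 (by rw [Complex.zero_re, abs_zero]; positivity)
  rw [Complex.zero_im, abs_zero, sub_zero] at a6
  have b1 : -(2 * C2) ≤ mE x - mE 0 := by linarith [(abs_le.1 a3).1, (abs_le.1 a4).2]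
  have b2 : mEx x - mEx 0 ≤ 4 * C3 + 2 * |Y| := by
    unfold mEx
    linarith [(abs_le.1 a5).2, (abs_le.1 a6).1, hY.trans (le_abs_self Y)]
  have b3 : -(2 * C1) ≤ lE z - lE (z - x) := by linarith [(abs_le.1 a1).1, (abs_le.1 a2).2]
  have c1 := mul_le_mul_of_nonneg_left b1 (by positivity : 0 ≤ 1 + (Fil.q : ℝ) ^ 2)
  have c2 := mul_le_mul_of_nonneg_left b2 (by positivity : 0 ≤ ((Fil.q : ℝ) - 1) ^ 2)
  have c3 := mul_le_mul_of_nonneg_left b3 (by positivity : 0 ≤ 1 + (Fil.q : ℝ))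
  have c4 := neg_abs_le c0
  rw [hB]
  linarith

section P0

attribute [local instance] NUSea.seaP

/-- **the value of class D**, every admissible curve -/
theorem exists_valD {e1 Cc : ℝ} (he : 0 < e1) (he1 : e1 ≤ 1) (hCc : 0 ≤ Cc) : ∃ C : ℝ, 1 ≤ C ∧
    ∀ (n : ℕ) (η η1 : ℝ → ℝ), PotH.PLX.CrvP e1 Cc (n + 1) η η1 →
    (∀ t, |NUSea.PLX.hd ((n + 1 : ℕ) : ℝ) η η1 t| ≤ 1) → ∀ (κ : ℝ) (z x : ℂ), |κ| ≤ 2 →
      -(9 / 10 * l) ≤ z.re → z.re ≤ 37 / 10 * l → |x.re| ≤ l / 2 → -l ≤ (z - x).re →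
      (z - x).re ≤ 4 * l →
      ‖Pool.Agent.PB.Pf z (mu0 n x) (yq (mu0 n x))‖ *
        Real.exp (NUSea.PLX.MF (fun a => Fil.b a * ((n + 1 : ℕ) : ℝ)) +
        ∑ a : Bool, ∫ t, (Fil.b a * ((n + 1 : ℕ) : ℝ)) * NUSea.P t * Hleg κ z x η a t) ≤
      C * Real.exp (-(12 * l * (((n + 1 : ℕ) : ℝ) * NUSea.P z.im * η z.im)) +
        24 * κ * l * (((n + 1 : ℕ) : ℝ) * NUSea.P 0 * η 0)) := by
  obtain ⟨C1, hC1, H1⟩ := nrm_MF_le
  obtain ⟨C2, hC2, H2⟩ := exists_HDq he he1 hCc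
  refine ⟨C1 * Real.exp C2, ?_, ?_⟩
  · have h1 := Real.one_le_exp (show 0 ≤ C2 by linarith)
    nlinarith
  intro n η η1 hcv hA κ z x hκ z1 z2 hx z3 z4
  have hl := l_pos
  have a1 := H1 n x z hx (by linarith) (by linarith) z3 z4
  have b1 := (H2 (n + 1) η η1 (by omega) hcv hA κ z x hκ z1 z2 hx).2
  rw [PLX.EMs_eq]
  have e0 : (NUSea.P : ℝ → ℝ) = NUMF.P := rfl
  rw [e0]
  obtain ⟨A, hA'⟩ : ∃ A, A = ∑ a, Fil.b a * ((n + 1 : ℕ) : ℝ) * LamH a z x := ⟨_, rfl⟩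
  obtain ⟨S, hS⟩ : ∃ S, S = ∑ a : Bool, ∫ t, (Fil.b a * ((n + 1 : ℕ) : ℝ)) * NUMF.P t *
    Hleg κ z x η a t := ⟨_, rfl⟩
  obtain ⟨E, hE⟩ : ∃ E, E = EMs (fun a => Fil.b a * ((n + 1 : ℕ) : ℝ)) := ⟨_, rfl⟩
  obtain ⟨N, hN⟩ : ∃ N, N = ‖Pool.Agent.PB.Pf z (mu0 n x) (yq (mu0 n x))‖ := ⟨_, rfl⟩
  obtain ⟨V, hV⟩ : ∃ V, V = -(12 * l * (((n + 1 : ℕ) : ℝ) * NUMF.P z.im * η z.im)) +
    24 * κ * l * (((n + 1 : ℕ) : ℝ) * NUMF.P 0 * η 0) := ⟨_, rfl⟩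
  have hN0 : 0 ≤ N := by rw [hN]; exact norm_nonneg _
  rw [← hA', ← hE, ← hN] at a1
  rw [← hA', ← hS] at b1
  rw [← hE, ← hS, ← hN, ← hV]
  have h3 : E + S ≤ (E + A) + (C2 + V) := by
    have c1 := (abs_le.1 b1).2
    rw [hV]
    linarith
  calc N * Real.exp (E + S) ≤ N * Real.exp ((E + A) + (C2 + V)) :=
        mul_le_mul_of_nonneg_left (Real.exp_le_exp.2 h3) hN0
    _ = (N * Real.exp (E + A)) * Real.exp C2 * Real.exp V := by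
        rw [Real.exp_add, Real.exp_add C2]
        ring
    _ ≤ _ := by
        refine mul_le_mul_of_nonneg_right ?_ (Real.exp_pos _).le
        exact mul_le_mul_of_nonneg_right a1 (Real.exp_pos _).le

end P0

end

end PBV.PLX
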