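import Pool.Agent.PLX.Ns
import Pool.Agent.PLX.PB.TopG0
import Pool.Agent.PLX.PB.ValD

/-!
# Plan B, two fillings: the value of the dislocated function

**`valS`**: `‖Pf z (mu1 k x) (yq (mu1 k x))‖ exp (linS) ≤ C m ^ (-(3/8)(1 - e1)) exp (2 |Im z|)`,
`m = k + 1 + e` effective rows.
-/

set_option autoImplicit false
set_option linter.unusedSectionVars false

noncomputable section

open Complex MeasureTheory Finset
open PLX (Fil Ends EMs)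

namespace PBT.PLX

open NUO
open PBL.PLX (mu1)
open PBV.PLX (LamH mEo mEx)
open Pool.Agent.PLX (yq)
open PotH.PLX (sN)

attribute [local instance] NUSea.seaP

variable [Fil] [Ends]

/-- `e` one-fold rows at `0` against the seas of both species -/
theorem exists_rowe {e1 Cc : ℝ} (he : 0 < e1) (he1 : e1 ≤ 1) (hCc : 0 ≤ Cc) : ∃ C : ℝ, 1 ≤ C ∧
    ∀ (m : ℕ) (η η1 : ℝ → ℝ), 1 ≤ m → PotH.PLX.CrvP e1 Cc m η η1 →
    (∀ t, |NUSea.PLX.hd m η η1 t| ≤ 1) → ∀ a : Bool,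
      Integrable (fun t => sN m a * NUMF.P t * Real.log (PBO.rwC 0 (pA (Fil.cv a η) t))) ∧
      |(∫ t, sN m a * NUMF.P t * Real.log (PBO.rwC 0 (pA (Fil.cv a η) t))) -
        sN m a * NUMFH.mE 0| ≤ C := by
  obtain ⟨C, hC, H⟩ := PBV.PLX.exists_row
  have hl := NUMF.l_pos
  have hqo := Fil.one_le_qor
  refine ⟨(Fil.qo : ℕ) * (C * (1 + Cc * (16 / e1 ^ 2))), ?_, ?_⟩
  · have h1 : 0 ≤ Cc * (16 / e1 ^ 2) := by positivity
    have h2 : 1 ≤ C * (1 + Cc * (16 / e1 ^ 2)) := by nlinarith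
    nlinarith
  intro m η η1 hm hcv hA a
  obtain ⟨ε, e, hcur0, hε0, hε1, hε⟩ := hcv.cur
  have hm0 : (0 : ℝ) < m := by exact_mod_cast hm
  obtain ⟨hb, h2⟩ := PBV.PLX.crv_err he he1 hCc hm hε0 hε1
  obtain ⟨hcur, h1, hA'⟩ := PBV.PLX.cur_cv hm0 hcur0 hcv.d hA a
  obtain ⟨i1, a1⟩ := H hm0.le hε hcur h1 hb hA' 0
    (by rw [Complex.zero_re, abs_zero]; positivity)
  have a2 := a1.trans (mul_le_mul_of_nonneg_left h2 (by linarith : 0 ≤ C))
  have r0 : 0 ≤ sN m a / m := div_nonneg (PotH.PLX.sN_nonneg m a) hm0.le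
  have r1 : sN m a / m ≤ (Fil.qo : ℕ) := by
    rw [div_le_iff₀ hm0]
    exact PotH.PLX.sN_le hm a
  have e1' : (fun t => sN m a * NUMF.P t * Real.log (PBO.rwC 0 (pA (Fil.cv a η) t))) = fun t =>
      (sN m a / m) * ((m : ℝ) * NUMF.P t * Real.log (PBO.rwC 0 (pA (Fil.cv a η) t))) := by
    funext t
    field_simp
  refine ⟨by rw [e1']; exact i1.const_mul _, ?_⟩
  rw [e1', integral_const_mul]
  have e2 : sN m a / m * (∫ t, (m : ℝ) * NUMF.P t * Real.log (PBO.rwC 0 (pA (Fil.cv a η) t))) -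
      sN m a * NUMFH.mE 0 = sN m a / m *
        ((∫ t, (m : ℝ) * NUMF.P t * Real.log (PBO.rwC 0 (pA (Fil.cv a η) t))) -
          m * NUMFH.mE 0) := by
    field_simp
  rw [e2, abs_mul, abs_of_nonneg r0]
  exact mul_le_mul r1 a2 (abs_nonneg _) (by linarith)

/-- the value of the legs and of the row, both species -/
theorem LamH_sum (z x : ℂ) : ∑ a, LamH a z x =
    2 * NUMFH.lE z + (1 + Fil.q) * (NUMFH.mE x - NUMFH.mE 0) := by
  rw [Fintype.sum_bool, ← PBV.PLX.mE_add x, ← PBV.PLX.mE_add 0]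
  unfold PBV.PLX.LamH
  simp only [Fil.b_true, Fil.b_false, Bool.not_true, Bool.not_false]
  ring

/-- the mean field value of the effective numbers -/
theorem EMs_sN (ho : Ends.o = 0) (k : ℕ) : EMs (sN (k + 1 + Ends.e)) =
    EMs (fun a => Fil.b a * ((k + 1 : ℕ) : ℝ)) +
      ((Ends.e : ℕ) * ((k + 1 : ℕ) : ℝ) * (1 + Fil.q) + ((Ends.e : ℕ) : ℝ) ^ 2) * NUMFH.mE 0 := by
  have h : ∀ a : Bool, sN (k + 1 + Ends.e) a = Fil.b a * ((k + 1 : ℕ) : ℝ) + ((Ends.e : ℕ) : ℝ) := by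
    intro a
    unfold PotH.PLX.sN
    rw [Fil.cast_ne a (by omega), ho]
    push_cast
    cases a <;> simp
  unfold EMs
  simp only
  rw [h true, h false, PBV.PLX.EMF0_val, PBV.PLX.mE_add, Fil.b_true, Fil.b_false]
  ring

/-- arithmetic of the value -/
lemma val_arithS {N e q E B S S0 Λ R hz h0 bl y T C1 C2 C3 C4 CN w wL : ℝ} (e0 : 0 ≤ e)
    (e1 : e ≤ 1) (hE : |E| ≤ C1) (hw : w = (1 + q) * N + 2 * e)
    (hS : |S - (wL - 12 * NUMF.l * hz + 24 * 1 * NUMF.l * h0)| ≤ C2)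
    (hwL : wL = B + e * Λ) (hR : |R - w * E| ≤ C3) (hΛ : |Λ| ≤ C4)
    (hb : bl - 12 * NUMF.l * hz ≤ -T + 2 * y + CN) :
    (S0 + (e * N * (1 + q) + e ^ 2) * E) + (bl - 24 * NUMF.l * h0 + (S - e * R)) ≤
      (S0 + B) + ((C1 + C2 + C3 + C4 + CN) + (-T + 2 * y)) := by
  obtain ⟨sa, sb⟩ := abs_le.1 hS
  obtain ⟨ra, rb⟩ := abs_le.1 hR
  obtain ⟨la, lb⟩ := abs_le.1 hΛ
  obtain ⟨ea, eb⟩ := abs_le.1 hE
  have hC3 : 0 ≤ C3 := (abs_nonneg _).trans hR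
  have hC4 : 0 ≤ C4 := (abs_nonneg _).trans hΛ
  have hC1 : 0 ≤ C1 := (abs_nonneg _).trans hE
  have k1 : -(e * (R - w * E)) ≤ C3 := by nlinarith
  have k2 : e * Λ ≤ C4 := by nlinarith
  have k3 : -(e ^ 2 * E) ≤ C1 := by
    have h1 : e ^ 2 ≤ 1 := by nlinarith
    have h2 : 0 ≤ e ^ 2 := by positivity
    nlinarith
  have k4 : (e * N * (1 + q) + e ^ 2) * E - e * (w * E) = -(e ^ 2 * E) := by rw [hw]; ring
  nlinarith

/-- **the value**: `‖Pf‖ exp (linS) ≤ C m ^ (-(3/8)(1 - e1)) exp (2 |Im z|)`, `m = k + 1 + e` -/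
theorem valS (ho : Ends.o = 0) {e1 : ℝ} (he : 0 < e1) (he1 : e1 ≤ 1 / 100) {J : ℝ} (hJ : 0 ≤ J) :
    ∃ C : ℝ, 0 ≤ C ∧ ∃ m0 : ℕ, ∀ k : ℕ, m0 ≤ k → ∀ x z : ℂ,
      |x.re| ≤ NUMF.l / 10 → -(9 / 10 * NUMF.l) ≤ z.re → z.re ≤ 37 / 10 * NUMF.l →
      |z.im| ≤ 3 / 20 * Real.log (k + 1 + Ends.e : ℕ) + 2 →
      ‖Pool.Agent.PB.Pf z (mu1 k x) (yq (mu1 k x))‖ * Real.exp (linS e1 J (k + 1 + Ends.e) x z) ≤
        C * Real.exp (-((1 - e1) * Tb (Real.log (k + 1 + Ends.e : ℕ))) + 2 * |z.im|) := by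
  obtain ⟨Cc, hCc, mc, -, Hc⟩ := crvL he he1 hJ
  obtain ⟨C0, hC0, H0⟩ := PBV.PLX.nrm_MF_le
  obtain ⟨C2, hC2, H2⟩ := PBV.PLX.exists_HDs he (by linarith : e1 ≤ 1) (by linarith : 0 ≤ Cc)
  obtain ⟨C3, hC3, H3⟩ := exists_rowe he (by linarith : e1 ≤ 1) (by linarith : 0 ≤ Cc)
  obtain ⟨C5, hC5, H5⟩ := NUMFH.exists_lE
  obtain ⟨C6, hC6, H6⟩ := NUMFH.exists_mE
  obtain ⟨CN, hCN, mn, hmn1, HN⟩ := cur_num he he1 hJ
  have hl := NUMF.l_pos
  have hq := Fil.one_le_qr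
  have he0 : (0 : ℝ) ≤ ((Ends.e : ℕ) : ℝ) := Nat.cast_nonneg _
  have he1' : ((Ends.e : ℕ) : ℝ) ≤ 1 := by exact_mod_cast Ends.le
  obtain ⟨C4, hC4⟩ : ∃ C4 : ℝ, C4 = 2 * C5 + (1 + Fil.q) * (2 * C6) := ⟨_, rfl⟩
  obtain ⟨CT, hCT⟩ : ∃ CT, CT = C6 + C2 + 2 * C3 + C4 + CN := ⟨_, rfl⟩
  refine ⟨C0 * Real.exp CT, by positivity, max mc mn, fun k hk x z hx z1 z2 z3 => ?_⟩
  obtain ⟨m, hm⟩ : ∃ m : ℕ, m = k + 1 + Ends.e := ⟨_, rfl⟩
  have k1 : mc ≤ m := by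
    have := (le_max_left _ _).trans hk
    omega
  have k2 : mn ≤ m := by
    have := (le_max_right _ _).trans hk
    omega
  have hEM := EMs_sN ho k
  rw [← hm] at z3 hEM ⊢
  obtain ⟨hT, hd1, hb⟩ := HN m k2
  obtain ⟨x1, x2⟩ := abs_le.1 hx
  have hm1 : 1 ≤ m := by omega
  have key := H0 k x z (by linarith) (by linarith) (by linarith)
    (by rw [Complex.sub_re]; linarith) (by rw [Complex.sub_re]; linarith)
  have hmu : PBV.PLX.mu0 k x = mu1 k x := rfl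
  rw [hmu] at key
  have hb' := hb z.im z3
  have hcv := Hc m k1
  obtain ⟨i1, b1⟩ := H2 m _ _ hm1 hcv hd1 1 z x (by norm_num) z1 z2 (by linarith)
  have i3 := fun a => (H3 m _ _ hm1 hcv hd1 a).1
  have b3 := fun a => (H3 m _ _ hm1 hcv hd1 a).2
  have a5 := H5 z (by linarith) (by linarith)
  have a6 := H6 x (by linarith)
  have a7 := H6 0 (by rw [Complex.zero_re, abs_zero]; exact hl.le)
  have hΛ : |∑ a, LamH a z x| ≤ C4 := by
    rw [LamH_sum, hC4]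
    refine (abs_add_le _ _).trans (add_le_add ?_ ?_)
    · rw [abs_mul, abs_two]
      linarith
    · rw [abs_mul, abs_of_pos (by linarith : (0 : ℝ) < 1 + Fil.q)]
      refine mul_le_mul_of_nonneg_left ((abs_sub _ _).trans (by linarith)) (by linarith)
  have hP : (NUSea.P : ℝ → ℝ) = NUMF.P := rfl
  have hint : ∀ a : Bool, ∫ t, sN m a * NUSea.P t * HlegS z x (etL e1 J m) a t =
      (∫ t, sN m a * NUMF.P t * PBH.PLX.Hleg 1 z x (etL e1 J m) a t) -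
        ((Ends.e : ℕ) : ℝ) *
          ∫ t, sN m a * NUMF.P t * Real.log (PBO.rwC 0 (pA (Fil.cv a (etL e1 J m)) t)) := by
    intro a
    rw [← integral_const_mul, ← integral_sub (i1 a) ((i3 a).const_mul _)]
    refine integral_congr_ae (Filter.Eventually.of_forall fun t => ?_)
    simp only
    unfold HlegS
    rw [hP]
    ring
  have hsum : ∑ a, ∫ t, sN m a * NUSea.P t * HlegS z x (etL e1 J m) a t =
      (∑ a, ∫ t, sN m a * NUMF.P t * PBH.PLX.Hleg 1 z x (etL e1 J m) a t) -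
        ((Ends.e : ℕ) : ℝ) *
          ∑ a, ∫ t, sN m a * NUMF.P t * Real.log (PBO.rwC 0 (pA (Fil.cv a (etL e1 J m)) t)) := by
    rw [Finset.mul_sum, ← Finset.sum_sub_distrib]
    exact Finset.sum_congr rfl fun a _ => hint a
  have hR : |(∑ a, ∫ t, sN m a * NUMF.P t *
      Real.log (PBO.rwC 0 (pA (Fil.cv a (etL e1 J m)) t))) -
        (sN m true + sN m false) * NUMFH.mE 0| ≤ 2 * C3 := by
    have t1 := b3 true
    have t2 := b3 false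
    rw [Fintype.sum_bool, add_mul]
    rw [abs_le] at t1 t2 ⊢
    constructor <;> linarith [t1.1, t1.2, t2.1, t2.2]
  have hs : ∀ a : Bool, sN m a = Fil.b a * ((k + 1 : ℕ) : ℝ) + ((Ends.e : ℕ) : ℝ) := by
    intro a
    unfold PotH.PLX.sN
    rw [hm, Fil.cast_ne a (by omega), ho]
    push_cast
    cases a <;> simp
  have hw : sN m true + sN m false = (1 + Fil.q) * ((k + 1 : ℕ) : ℝ) + 2 * ((Ends.e : ℕ) : ℝ) := by
    rw [hs true, hs false, Fil.b_true, Fil.b_false]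
    ring
  have hwL : ∑ a, sN m a * LamH a z x = (∑ a, Fil.b a * ((k + 1 : ℕ) : ℝ) * LamH a z x) +
      ((Ends.e : ℕ) : ℝ) * ∑ a, LamH a z x := by
    rw [Finset.mul_sum, ← Finset.sum_add_distrib]
    refine Finset.sum_congr rfl fun a _ => ?_
    rw [hs a]
    ring
  have hL : linS e1 J m x z ≤ (EMs (fun a => Fil.b a * ((k + 1 : ℕ) : ℝ)) +
      ∑ a, Fil.b a * ((k + 1 : ℕ) : ℝ) * LamH a z x) +
      (CT + (-((1 - e1) * Tb (Real.log m)) + 2 * |z.im|)) := by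
    unfold linS
    rw [hsum, PLX.EMs_eq, hEM, hCT]
    exact val_arithS he0 he1' a7 hw b1 hwL hR hΛ hb'
  obtain ⟨N0, hN0⟩ : ∃ N0, N0 = ‖Pool.Agent.PB.Pf z (mu1 k x) (yq (mu1 k x))‖ := ⟨_, rfl⟩
  have hN00 : 0 ≤ N0 := by rw [hN0]; exact norm_nonneg _
  rw [← hN0] at key ⊢
  obtain ⟨A, hA⟩ : ∃ A, A = EMs (fun a => Fil.b a * ((k + 1 : ℕ) : ℝ)) +
      ∑ a, Fil.b a * ((k + 1 : ℕ) : ℝ) * LamH a z x := ⟨_, rfl⟩
  rw [← hA] at key hL
  calc N0 * Real.exp (linS e1 J m x z) ≤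
      N0 * Real.exp (A + (CT + (-((1 - e1) * Tb (Real.log m)) + 2 * |z.im|))) :=
        mul_le_mul_of_nonneg_left (Real.exp_le_exp.2 hL) hN00
    _ = N0 * Real.exp A * (Real.exp CT *
        Real.exp (-((1 - e1) * Tb (Real.log m)) + 2 * |z.im|)) := by
        rw [Real.exp_add, Real.exp_add CT]
        ring
    _ ≤ C0 * (Real.exp CT * Real.exp (-((1 - e1) * Tb (Real.log m)) + 2 * |z.im|)) :=
        mul_le_mul_of_nonneg_right key (by positivity)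
    _ = _ := by ring

end PBT.PLX

end
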