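import Pool.Agent.PLX.PB.Far3
import Pool.Agent.PLX.ExU
import Pool.Agent.PLX.ForceK2
import Pool.Agent.PLX.Yq
import Pool.Agent.PB.ZFamA

/-!
# The leg functions at rows `i θ`, `0 ^ a` with moving cutoff points, two fillings (port PLX of ZFamA)

Complex parameter `θ`; rows of species `s`: `rwq (rwx a θ) s` (every row `n s`-fold); cutoff
`W0 (n s) (n s * a) (i θ) (vx θ)` with the extra points `vx = (I + (θ - η0) v s 0, - I + (θ - η0) v s 1)`,
velocities `v s` of the species.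

* `ZX`: the one body functions of the four kinds (`XXU`), `ZP`: their product form
  row factor × cutoff × leg; **`ZX_eq`**: equality on the strips `KO`;
* **`diff_ZP`**: joint analyticity in `(θ, u)`; **`ub_ZP`**: uniform bounds (with the charge).
-/

set_option autoImplicit false
set_option linter.unusedSectionVars false
set_option linter.unusedVariables false

noncomputable section

open Complex MeasureTheory Filter Topology
open PLX (Fil)

namespace PBZF.PLX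

open NUP1 NUP1.Bd NURow
open NUP1S hiding R0
open PBX (XX ph gP Lg ph_gP gP_nil)
open PBFar (wE)
open PBFar.PLX (W0 R0 cutT)
open PBForce (rowB RRB rwB)
open Pool.Agent.PLX (XXU RRU TTU TTU_eq yqn yq rwq prod_rwq prod_ofFn_rwq cast_cond forall_rwq ub_RRU)

/-! ## powers -/

/-- the row factor of species `s` with multiplicities is the one of the lists -/
theorem RRU_rwq [Fil] (c : ℂ) {m : ℕ} (x : Fin m → ℂ) (s : Bool) (u : ℂ) :
    RRU c (rwq x s) (rwq x (!s)) u = RRB c (Fil.n s) (Fil.n (!s)) x u := by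
  unfold RRU RRB
  rw [prod_rwq (fun w : ℂ => 1 / sin (u - w)) x s, prod_rwq (fun w : ℂ => 1 / sin (u - w - 2 * l)) x s,
    prod_rwq (fun w : ℂ => sin (u - w + 3 * l) ^ 2) x (!s)]
  have e : ∀ i, rwB (Fil.n s) (Fil.n (!s)) (u - x i) = (1 / sin (u - x i)) ^ Fil.n s *
      (1 / sin (u - x i - 2 * l)) ^ Fil.n s * (sin (u - x i + 3 * l) ^ 2) ^ Fil.n (!s) := by
    intro i
    unfold rwB PBForce.rwS PBForce.rwG
    rw [mul_pow]
  simp_rw [e, Finset.prod_mul_distrib, Finset.prod_pow]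
  ring

theorem phi_rwq [Fil] (β : ℝ) {m : ℕ} (x : Fin m → ℂ) (ex : List ℂ) (s : Bool) (u : ℂ) :
    NUP1.phi β (List.ofFn (rwq x s) ++ ex) u =
      1 - ((List.ofFn x).map fun w => psi β (u - w)).prod ^ Fil.n s *
        (ex.map fun w => psi β (u - w)).prod := by
  unfold NUP1.phi
  rw [List.map_append, List.prod_append, prod_ofFn_rwq]

theorem phi_W0' (b : ℝ) (q a : ℕ) (x : ℂ) (e : Fin 2 → ℂ) (u : ℂ) :
    NUP1.phi b (W0 q a x e) u =
      1 - psi b (u - x) ^ q * psi b (u - 0) ^ a * (psi b (u - e 0) * psi b (u - e 1)) := by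
  unfold NUP1.phi W0 R0
  simp only [List.map_append, List.prod_append, List.map_cons, List.prod_cons, List.map_replicate,
    List.prod_replicate, List.map_nil, List.prod_nil, mul_one]

theorem phi_R0' (b : ℝ) (q a : ℕ) (x u : ℂ) :
    NUP1.phi b (R0 q a x) u = 1 - psi b (u - x) ^ q * psi b (u - 0) ^ a := by
  unfold NUP1.phi R0
  simp only [List.map_append, List.prod_append, List.map_replicate, List.prod_replicate]

variable [Fil]

/-! ## names -/

/-- the one body functions -/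
def ZX (c : Bool → ℂ) (b : ℝ) (a : ℕ) (z0 : ℂ) (η0 : ℝ) (v : Bool → Fin 2 → ℂ) (θ : ℂ) (s : Bool)
    (k : Option O3) (u : ℂ) : ℂ :=
  XXU (c s) b (rwq (rwx a θ) s) (rwq (rwx a θ) (!s)) (gP b [vx η0 (v s) θ 0, vx η0 (v s) θ 1])
    (fun _ => 1) (Lg z0 z0) (fun w => Lg z0 z0 w * Lg z0 z0 (w - l)) k u

/-- the cutoff of a kind -/
def cutZ (s : Bool) (b : ℝ) (a : ℕ) (x : ℂ) (e : Fin 2 → ℂ) : Option O3 → ℂ → ℂ
  | some .S, u => NUP1.phi (4 / 3) (R0 (Fil.n s) (Fil.n s * a) x) u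
  | some .T, u => cutT (Fil.n s) b (Fil.n s * a) x e u
  | _, u => NUP1.phi b (W0 (Fil.n s) (Fil.n s * a) x e) u

/-- the product form -/
def ZP (c : Bool → ℂ) (b : ℝ) (a : ℕ) (z0 : ℂ) (η0 : ℝ) (v : Bool → Fin 2 → ℂ) (θ : ℂ) (s : Bool)
    (k : Option O3) (u : ℂ) : ℂ :=
  rowB (c s) (Fil.n s) (Fil.n (!s)) (rwx a θ) (ob4 k) u * cutZ s b a (θ * I) (vx η0 (v s) θ) k u *
    one (Lg z0 z0) (ob4 k) u

/-! ## equality -/

theorem ph_W0 (s : Bool) (b : ℝ) (a : ℕ) (θ : ℂ) (e : Fin 2 → ℂ) (u : ℂ) :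
    ph b (rwq (rwx a θ) s) (gP b [e 0, e 1]) u =
      NUP1.phi b (W0 (Fil.n s) (Fil.n s * a) (θ * I) e) u := by
  rw [ph_gP, phi_rwq, ofFn_rwx, phi_W0']
  simp only [List.map_cons, List.prod_cons, List.map_replicate, List.prod_replicate, List.map_nil,
    List.prod_nil, mul_one]
  rw [mul_pow, ← pow_mul, mul_comm a]

theorem ph_R0 (s : Bool) (b : ℝ) (a : ℕ) (θ u : ℂ) :
    ph b (rwq (rwx a θ) s) (fun _ => 1) u = NUP1.phi b (R0 (Fil.n s) (Fil.n s * a) (θ * I)) u := by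
  have h := ph_gP b (rwq (rwx a θ) s) [] u
  rw [phi_rwq, ofFn_rwx] at h
  rw [phi_R0']
  have e : ph b (rwq (rwx a θ) s) (gP b []) u = ph b (rwq (rwx a θ) s) (fun _ => 1) u := rfl
  rw [← e, h]
  simp only [List.map_cons, List.prod_cons, List.map_replicate, List.prod_replicate, List.map_nil,
    List.prod_nil, mul_one]
  rw [mul_pow, ← pow_mul, mul_comm a]

/-- admissible parameter: the moving row and the points near the imaginary axis -/
def Th (η0 : ℝ) (v : Bool → Fin 2 → ℂ) (θ : ℂ) : Prop := ∀ s, PBZF.Th η0 (v s) θ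

theorem Th.x {η0 : ℝ} {v : Bool → Fin 2 → ℂ} {θ : ℂ} (h : Th η0 v θ) : |(θ * I).re| ≤ l / 100 :=
  (h true).x

theorem rwq_re {a : ℕ} {θ : ℂ} (h : |(θ * I).re| ≤ l / 100) (s : Bool)
    (i : Fin (cond s (a + 1) (Fil.q * (a + 1)))) : |(rwq (rwx a θ) s i).re| ≤ l / 100 :=
  forall_rwq (P := fun w : ℂ => |w.re| ≤ l / 100) (rwx_re h) s i

variable {c : Bool → ℂ} {b : ℝ} {a : ℕ} {z0 : ℂ} {η0 : ℝ} {v : Bool → Fin 2 → ℂ} {θ : ℂ}

/-- **the product form** -/
theorem ZX_eq (hb : 0 < b) (hb' : b ≤ 4 / 3) (hθ : |(θ * I).re| ≤ l / 100) (s : Bool)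
    {k : Option O3} {u : ℂ} (hu : u.re ∈ KO k) :
    ZX c b a z0 η0 v θ s k u = ZP c b a z0 η0 v θ s k u := by
  have hl := Bd.l_pos
  have e1 := ph_W0 s b a θ (vx η0 (v s) θ)
  have e2 := ph_R0 s (4 / 3) a θ
  have e3 := RRU_rwq (c s) (rwx a θ) s
  unfold ZX ZP
  rcases k with _ | (_ | _ | _)
  · show RRU (c s) (rwq (rwx a θ) s) (rwq (rwx a θ) (!s)) u * ph b (rwq (rwx a θ) s) _ u *
      Lg z0 z0 u = _
    rw [e1, e3]
    rfl
  · show RRU (c s) (rwq (rwx a θ) s) (rwq (rwx a θ) (!s)) u * ph b (rwq (rwx a θ) s) _ u *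
      Lg z0 z0 u = _
    rw [e1, e3]
    rfl
  · show RRU (c s) (rwq (rwx a θ) s) (rwq (rwx a θ) (!s)) u *
      RRU (c s) (rwq (rwx a θ) s) (rwq (rwx a θ) (!s)) (u - l) *
      ph (4 / 3) (rwq (rwx a θ) s) _ u * (Lg z0 z0 u * Lg z0 z0 (u - l)) = _
    rw [e2, e3, e3]
    rfl
  · show TTU (c s) b (4 / 3) (rwq (rwx a θ) s) (rwq (rwx a θ) (!s)) _ _ u *
      (Lg z0 z0 u * Lg z0 z0 (u - l)) = _
    have hre : ∀ i, -(l) < (u - rwq (rwx a θ) s i).re ∧ (u - rwq (rwx a θ) s i).re < 0 := by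
      intro i
      obtain ⟨h1, h2⟩ := hu
      obtain ⟨h3, h4⟩ := abs_le.1 (rwq_re (a := a) hθ s i)
      rw [sub_re]
      constructor <;> linarith
    rw [TTU_eq (fun i => NQ_strip hb hb' (by linarith [(hre i).1]) (by linarith [(hre i).2]))
      (fun i => NQ_strip (by norm_num) le_rfl (by linarith [(hre i).1]) (by linarith [(hre i).2]))
      (fun i hi => by
        exfalso
        obtain ⟨h3, h4⟩ := abs_le.1 (rwq_re (a := a) hθ s i)
        linarith)
      (fun i hi => by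
        exfalso
        obtain ⟨h3, h4⟩ := abs_le.1 (rwq_re (a := a) hθ s i)
        linarith), e1, e1, e2, e3, e3]
    rfl

/-! ## joint analyticity -/

section diff

variable {E : Type*} [NormedAddCommGroup E] [NormedSpace ℂ E] {e0 : E}

theorem dRRB (c : ℂ) (α γ : ℕ) {m : ℕ} {x : E → Fin m → ℂ} {u : E → ℂ}
    (hx : ∀ i, DifferentiableAt ℂ (fun s => x s i) e0) (hu : DifferentiableAt ℂ u e0)
    (h : ∀ i, NP (u e0 - x e0 i).re) :
    DifferentiableAt ℂ (fun s => RRB c α γ (x s) (u s)) e0 := by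
  unfold RRB
  refine (dProd (f := fun (i : Fin m) s => rwB α γ (u s - x s i)) fun i => ?_).const_mul c
  have h0 : sin (u e0 - x e0 i) ≠ 0 := Bd.sin_ne_zero_of_re (h i).1
  have h0' : sin (u e0 - x e0 i - 2 * l) ≠ 0 := Bd.sin_ne_zero_of_re (by
    have := (h i).2
    simpa using this)
  have h1 : DifferentiableAt ℂ (fun s => u s - x s i) e0 := hu.sub (hx i)
  have h2 : DifferentiableAt ℂ (fun s => u s - x s i - 2 * l) e0 := h1.sub_const _
  have h3 : DifferentiableAt ℂ (fun s => u s - x s i + 3 * l) e0 := h1.add_const _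
  exact (((dInv h1.csin h0).mul (dInv h2.csin h0')).pow α).mul ((h3.csin.pow 2).pow γ)

theorem dphiW {β : ℝ} (q a : ℕ) {x u : E → ℂ} {e : E → Fin 2 → ℂ} (hx : DifferentiableAt ℂ x e0)
    (hu : DifferentiableAt ℂ u e0) (he : ∀ i, DifferentiableAt ℂ (fun s => e s i) e0)
    (h1 : NQ β (u e0 - x e0).re) (h2 : NQ β (u e0 - 0).re) (h3 : ∀ i, NQ β (u e0 - e e0 i).re) :
    DifferentiableAt ℂ (fun s => NUP1.phi β (W0 q a (x s) (e s)) (u s)) e0 := by
  simp_rw [phi_W0']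
  exact ((((dpsi (hu.sub hx) h1).pow q).mul ((dpsi (hu.sub_const 0) h2).pow a)).mul
    ((dpsi (hu.sub (he 0)) (h3 0)).mul (dpsi (hu.sub (he 1)) (h3 1)))).const_sub 1

theorem dphiR {β : ℝ} (q a : ℕ) {x u : E → ℂ} (hx : DifferentiableAt ℂ x e0)
    (hu : DifferentiableAt ℂ u e0) (h1 : NQ β (u e0 - x e0).re) (h2 : NQ β (u e0 - 0).re) :
    DifferentiableAt ℂ (fun s => NUP1.phi β (R0 q a (x s)) (u s)) e0 := by
  simp_rw [phi_R0']
  exact (((dpsi (hu.sub hx) h1).pow q).mul ((dpsi (hu.sub_const 0) h2).pow a)).const_sub 1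

end diff

/-- **joint analyticity** -/
theorem diff_ZP (hb : 0 < b) (hb' : b ≤ 4 / 3) (hz : Lz z0) (hθ : Th η0 v θ) (s : Bool)
    {k : Option O3} {u : ℂ} (hu : u.re ∈ KO k) :
    DifferentiableAt ℂ (fun p : ℂ × ℂ => ZP c b a z0 η0 v p.1 s k p.2) (θ, u) := by
  have hl := Bd.l_pos
  have hx : DifferentiableAt ℂ (fun p : ℂ × ℂ => p.1 * I) (θ, u) := by fun_prop
  have h2 : DifferentiableAt ℂ (fun p : ℂ × ℂ => p.2) (θ, u) := differentiableAt_snd
  have h2' : DifferentiableAt ℂ (fun p : ℂ × ℂ => p.2 - (l : ℂ)) (θ, u) := h2.sub_const _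
  have q0 : |(0 : ℝ)| ≤ l / 100 := by rw [abs_zero]; positivity
  have hv : ∀ i, |(vx η0 (v s) θ i).re| ≤ l / 100 := by
    intro i
    fin_cases i
    · exact (hθ s).v0
    · exact (hθ s).v1
  set α := Fil.n s
  set γ := Fil.n (!s)
  have dR : DifferentiableAt ℂ (fun p : ℂ × ℂ => RRB (c s) α γ (rwx a p.1) p.2) (θ, u) :=
    dRRB (c s) α γ (fun i => d_rwx a i _) h2 (fun i => by
      rw [sub_re]
      exact KO_NP hu (rwx_re hθ.x i))
  have dR' : ∀ k' : O3, k = some k' → k' ≠ .L →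
      DifferentiableAt ℂ (fun p : ℂ × ℂ => RRB (c s) α γ (rwx a p.1) (p.2 - l)) (θ, u) := by
    intro k' hk hk'
    subst hk
    refine dRRB (c s) α γ (fun i => d_rwx a i _) h2' (fun i => ?_)
    rw [sub_re, re_sub_l]
    exact KO_NP' hk' hu (rwx_re hθ.x i)
  have dW : DifferentiableAt ℂ (fun p : ℂ × ℂ =>
      NUP1.phi b (W0 α (α * a) (p.1 * I) (vx η0 (v s) p.1)) p.2) (θ, u) := by
    refine dphiW α (α * a) hx h2 (fun i => d_vx η0 (v s) i _) ?_ ?_ fun i => ?_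
    · rw [sub_re]
      exact KO_NQ hb hb' hu hθ.x
    · rw [sub_re, zero_re]
      exact KO_NQ hb hb' hu q0
    · rw [sub_re]
      exact KO_NQ hb hb' hu (hv i)
  have dL : DifferentiableAt ℂ (fun p : ℂ × ℂ => Lg z0 z0 p.2) (θ, u) := dLg h2 (KO_Lg hz hu)
  have dL' : ∀ k' : O3, k = some k' → k' ≠ .L →
      DifferentiableAt ℂ (fun p : ℂ × ℂ => Lg z0 z0 (p.2 - l)) (θ, u) := by
    intro k' hk hk'
    subst hk
    refine dLg h2' ?_
    rw [re_sub_l]
    exact KO_Lg' hz hk' hu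
  rcases k with _ | (_ | _ | _)
  · exact (dR.mul dW).mul dL
  · exact (dR.mul dW).mul dL
  · have d4 : DifferentiableAt ℂ (fun p : ℂ × ℂ =>
        NUP1.phi (4 / 3) (R0 α (α * a) (p.1 * I)) p.2) (θ, u) := by
      refine dphiR α (α * a) hx h2 ?_ ?_
      · rw [sub_re]
        exact KO_NQ (by norm_num) le_rfl hu hθ.x
      · rw [sub_re, zero_re]
        exact KO_NQ (by norm_num) le_rfl hu q0
    exact ((dR.mul (dR' .S rfl (by decide))).mul d4).mul (dL.mul (dL' .S rfl (by decide)))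
  · have d4 : DifferentiableAt ℂ (fun p : ℂ × ℂ =>
        NUP1.phi (4 / 3) (R0 α (α * a) (p.1 * I)) p.2) (θ, u) := by
      refine dphiR α (α * a) hx h2 ?_ ?_
      · rw [sub_re]
        exact KO_NQ (by norm_num) le_rfl hu hθ.x
      · rw [sub_re, zero_re]
        exact KO_NQ (by norm_num) le_rfl hu q0
    have dW' : DifferentiableAt ℂ (fun p : ℂ × ℂ =>
        NUP1.phi b (W0 α (α * a) (p.1 * I) (vx η0 (v s) p.1)) (p.2 - l)) (θ, u) := by
      refine dphiW α (α * a) hx h2' (fun i => d_vx η0 (v s) i _) ?_ ?_ fun i => ?_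
      · rw [sub_re, re_sub_l]
        exact KO_NQ' hb hb' hu hθ.x
      · rw [sub_re, re_sub_l, zero_re]
        exact KO_NQ' hb hb' hu q0
      · rw [sub_re, re_sub_l]
        exact KO_NQ' hb hb' hu (hv i)
    exact ((dR.mul (dR' .T rfl (by decide))).mul ((dW.mul dW').sub d4)).mul
      (dL.mul (dL' .T rfl (by decide)))

/-! ## uniform bounds -/

section ub

variable {Θ : Type*} {S : Set Θ} {K : Set ℝ} {r ρ κ : ℝ}

theorem ub_W {β : ℝ} (hβ : 0 < β) (q a : ℕ) {x : Θ → ℂ} {e : Θ → Fin 2 → ℂ} (hx : InBox S r ρ x)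
    (h0 : InBox S r ρ fun _ => 0) (he : ∀ i, InBox S r ρ fun θ => e θ i) (hK : IsCompact K)
    (h : NQr β r K) : UB S K (-(2 * β)) fun θ z => NUP1.phi β (W0 q a (x θ) (e θ)) z := by
  have a1 := ub_osp (ub_one_sub_psi hβ hx hK h) (ub_psi hβ hx hK h) q
  have b1 := ((ub_psi hβ hx hK h).pow q).rate (s' := 0) (mul_zero _)
  have a2 := ub_one_sub_psi hβ h0 hK h
  have b2 := ub_psi hβ h0 hK h
  have a3 := ub_one_sub_psi hβ (he 0) hK h
  have b3 := ub_psi hβ (he 0) hK h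
  have a4 := ub_one_sub_psi hβ (he 1) hK h
  have b5 := (b1.mul ((b2.pow a).rate (mul_zero _))).rate (zero_add 0)
  exact (ub_osm (ub_osm a1 b1 (ub_osp a2 b2 a)) b5 (ub_osm a3 b3 a4)).congr fun θ _ z _ => by
    rw [phi_W0']

theorem ub_R {β : ℝ} (hβ : 0 < β) (q a : ℕ) {x : Θ → ℂ} (hx : InBox S r ρ x)
    (h0 : InBox S r ρ fun _ => 0) (hK : IsCompact K)
    (h : NQr β r K) : UB S K (-(2 * β)) fun θ z => NUP1.phi β (R0 q a (x θ)) z := by
  have a1 := ub_osp (ub_one_sub_psi hβ hx hK h) (ub_psi hβ hx hK h) q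
  have b1 := ((ub_psi hβ hx hK h).pow q).rate (s' := 0) (mul_zero _)
  have a2 := ub_one_sub_psi hβ h0 hK h
  have b2 := ub_psi hβ h0 hK h
  exact (ub_osm a1 b1 (ub_osp a2 b2 a)).congr fun θ _ z _ => by
    rw [phi_R0']

/-- charge of a quantum of species `s`: the excess of the rows of the other species -/
theorem row_excess (s : Bool) (m : ℕ) :
    2 * (((cond (!s) m (Fil.q * m) : ℕ) : ℝ) - ((cond s m (Fil.q * m) : ℕ) : ℝ)) =
      2 * (Fil.xn m : ℝ) * sc (s, .A) := by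
  rw [cast_cond, cast_cond, Fil.cast_xn]
  cases s <;> simp [sc, chg] <;> ring

theorem ub_RRB (c : ℂ) (s : Bool) {m : ℕ} {x : Θ → Fin m → ℂ} (hx : ∀ i, InBox S r ρ fun θ => x θ i)
    (hK : IsCompact K) (h : NPr r K) :
    UB S K (2 * (Fil.xn m : ℝ) * sc (s, .A)) fun θ u => RRB c (Fil.n s) (Fil.n (!s)) (x θ) u := by
  have hb : ∀ t : Bool, ∀ i, InBox S r ρ fun θ => rwq (x θ) t i := by
    intro t i
    cases t
    · exact hx _
    · exact hx i
  exact ((ub_RRU c (hb s) (hb (!s)) hK h).rate (row_excess s m)).congr fun θ _ z _ => by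
    rw [RRU_rwq]

end ub

/-- the radius of the parameter -/
def rad (v : Bool → Fin 2 → ℂ) : ℝ := min (PBZF.rad (v true)) (PBZF.rad (v false))

theorem rad_pos (v : Bool → Fin 2 → ℂ) : 0 < rad v := lt_min (PBZF.rad_pos _) (PBZF.rad_pos _)

theorem rad_le_s (v : Bool → Fin 2 → ℂ) (s : Bool) : rad v ≤ PBZF.rad (v s) := by
  cases s
  · exact min_le_right _ _
  · exact min_le_left _ _

/-- the parameters -/
def SB (η0 : ℝ) (v : Bool → Fin 2 → ℂ) : Set ℂ := Metric.closedBall (η0 : ℂ) (rad v)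

theorem SB_sub {θ : ℂ} (h : θ ∈ SB η0 v) (s : Bool) : θ ∈ PBZF.SB η0 (v s) :=
  Metric.closedBall_subset_closedBall (rad_le_s v s) h

theorem SB_box {θ : ℂ} (h : θ ∈ SB η0 v) : Th η0 v θ ∧ |(θ * I).im| ≤ |η0| + 2 ∧
    ∀ s i, |(vx η0 (v s) θ i).im| ≤ |η0| + 2 :=
  ⟨fun s => (PBZF.SB_box (SB_sub h s)).1, (PBZF.SB_box (SB_sub h true)).2.1,
    fun s => (PBZF.SB_box (SB_sub h s)).2.2⟩

/-- **uniform bounds of the product form** -/
theorem ub_ZP (hb : 0 < b) (hb' : b ≤ 4 / 3) (hz : Lz z0) (s : Bool) (k : Option O3) :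
    UB (SB η0 v) (KO k) (-(2 * b) + 2 * (Fil.xn (a + 1) : ℝ) * sc (s, ob4 k))
      fun θ u => ZP c b a z0 η0 v θ s k u := by
  have hl := Bd.l_pos
  have hK := KO_compact k
  have bx : InBox (SB η0 v) (l / 100) (|η0| + 2) fun θ => θ * I := fun θ hθ =>
    ⟨(SB_box hθ).1.x, (SB_box hθ).2.1⟩
  have b0 : InBox (SB η0 v) (l / 100) (|η0| + 2) fun _ => (0 : ℂ) := fun θ hθ => by
    rw [zero_re, zero_im, abs_zero]
    have := abs_nonneg η0
    constructor <;> positivity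
  have be : ∀ i, InBox (SB η0 v) (l / 100) (|η0| + 2) fun θ => vx η0 (v s) θ i := fun i θ hθ => by
    refine ⟨?_, (SB_box hθ).2.2 s i⟩
    fin_cases i
    · exact ((SB_box hθ).1 s).v0
    · exact ((SB_box hθ).1 s).v1
  have br : ∀ i, InBox (SB η0 v) (l / 100) (|η0| + 2) fun θ => rwx a θ i := fun i => by
    refine Fin.cases ?_ (fun j => ?_) i
    · exact bx
    · exact b0
  have nP : NPr (l / 100) (KO k) := fun d hd e he => KO_NP hd he
  have nQ : ∀ β : ℝ, 0 < β → β ≤ 4 / 3 → NQr β (l / 100) (KO k) := fun β h1 h2 d hd e he =>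
    KO_NQ h1 h2 hd he
  have uR := ub_RRB (c s) s br hK nP
  have uW := ub_W hb (Fil.n s) (Fil.n s * a) bx b0 be hK (nQ b hb hb')
  have u4 := ub_R (β := 4 / 3) (by norm_num) (Fil.n s) (Fil.n s * a) bx b0 hK
    (nQ (4 / 3) (by norm_num) le_rfl)
  have uL : UB (SB η0 v) (KO k) 0 fun (_ : ℂ) z => Lg z0 z0 z := ub_Lg hK fun d hd => KO_Lg hz hd
  have hK2 : IsCompact K' := isCompact_Icc
  have sub' : ∀ k' : O3, k' ≠ .L → ∀ r ∈ KO (some k'), r - l ∈ K' := by
    intro k' hk' r hr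
    cases k'
    · exact absurd rfl hk'
    all_goals
      obtain ⟨h1, h2⟩ := hr
      unfold K'
      constructor <;> linarith
  have nP' : NPr (l / 100) K' := NPr_neg fun d hd => by
    obtain ⟨h1, h2⟩ := hd
    constructor <;> linarith
  have uR' := ub_RRB (c s) s br hK2 nP'
  have nQ' : NQr b (l / 100) K' := NQr_strip hb hb' fun d hd => by
    obtain ⟨h1, h2⟩ := hd
    constructor <;> linarith
  have uW' := ub_W hb (Fil.n s) (Fil.n s * a) bx b0 be hK2 nQ'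
  have uL' : UB (SB η0 v) K' 0 fun (_ : ℂ) z => Lg z0 z0 z := ub_Lg hK2 fun d hd => by
    obtain ⟨h1, h2⟩ := hd
    obtain ⟨z1, z2⟩ := hz
    have h8 : 8 * l = Real.pi := by unfold l; ring
    exact (Real.sin_pos_of_pos_of_lt_pi (by linarith) (by linarith)).ne'
  have scS : sc (s, .S) = 2 * sc (s, .A) := Pool.Agent.PLX.sc_S s
  have scL : sc (s, .L) = sc (s, .A) := by cases s <;> simp [sc, chg]
  rcases k with _ | (_ | _ | _)
  · exact (((uR.mul uW).mul uL).rate (by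
      show _ = -(2 * b) + 2 * (Fil.xn (a + 1) : ℝ) * sc (s, .A)
      ring)).congr fun θ _ z _ => rfl
  · exact (((uR.mul uW).mul uL).rate (by
      show _ = -(2 * b) + 2 * (Fil.xn (a + 1) : ℝ) * sc (s, .L)
      rw [scL]
      ring)).congr fun θ _ z _ => rfl
  · have h1 := uR.mul (uR'.shift_l (sub' .S (by decide)))
    have h2 := uL.mul (uL'.shift_l (sub' .S (by decide)))
    exact (((h1.mul u4).mul h2).mono_rate (by
      show _ ≤ -(2 * b) + 2 * (Fil.xn (a + 1) : ℝ) * sc (s, .S)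
      rw [scS]
      linarith)).congr fun θ _ z _ => rfl
  · have h1 := uR.mul (uR'.shift_l (sub' .T (by decide)))
    have h2 := uL.mul (uL'.shift_l (sub' .T (by decide)))
    have h3 := uW.mul (uW'.shift_l (sub' .T (by decide)))
    have h4 := (h3.mono_rate (s' := -(2 * b)) (by linarith)).sub
      (u4.mono_rate (s' := -(2 * b)) (by linarith))
    exact (((h1.mul h4).mul h2).rate (by
      show _ = -(2 * b) + 2 * (Fil.xn (a + 1) : ℝ) * sc (s, .S)
      rw [scS]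
      ring)).congr fun θ _ z _ => rfl

end PBZF.PLX

end
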