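import Pool.Agent.PLX.PB.ZcB
import Pool.Agent.PLX.PB.ZFamA
import Pool.Agent.PLX.PB.CutZ
import Pool.Agent.PB.ObZ

/-!
# Plan B: the cut term at the rows `x ^ q, 0 ^ A`: the hypotheses of the cut estimate (port PLX of ZcB2)

* `norm_RRU_T`: the row factors on the lines of `St`, charge `- xn m`;
* **`zcOk_X`**: `ZcOk` for the one body functions and the cut term from `CutH`.
-/

set_option autoImplicit false
set_option linter.unusedVariables false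
set_option linter.unusedSectionVars false

noncomputable section

open Complex Set

namespace PBC.PLX

open NUP1 NUP1S.AbC NURow NUO NUGC NUGC.PLX PBX PBX.PLX
open NUP1S hiding R0
open PBFar hiding W0 phi_W0 phi_R0 phi_le phi_ge phi_le_R phi_ge_R vI DW DR hasDerivAt_W hasDerivAt_R
  CW trW far_W far_W_prod trR far_R_prod far_R_tr norm_vI_le cutT DT hasDerivAt_T
open PBFar.PLX
open _root_.PLX (Fil)
open PBI.PLX (ZcOk)
open _root_.Pool.Agent.PLX (XXU RRU TTU rwq)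


variable [Fil] {m : ℕ} {x : Fin m → ℂ} {c : Bool → ℂ}

/-- the row factors near the lines of `St` -/
theorem norm_RRU_T (c : Bool → ℂ) {h0 : ℝ} (hx : ∀ i, PBO.PtZ h0 (x i)) :
    ∃ D : ℝ, 0 ≤ D ∧ ∀ (a : Bool) (u : ℂ), -(3 / 2 * l) ≤ u.re → u.re ≤ -(1 / 2 * l) →
      ‖RRU (c a) (rwq x a) (rwq x !a) u‖ ≤
        D * Real.exp (2 * (Fil.xn m : ℝ) * sc (a, .A) * |u.im|) := by
  have hl := Bd.l_pos
  have hK : IsCompact (Set.Icc (-(3 / 2 * l)) (-(1 / 2 * l))) := isCompact_Icc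
  have hN : NPr (l / 5) (Set.Icc (-(3 / 2 * l)) (-(1 / 2 * l))) := NPr_neg fun d hd => by
    obtain ⟨h1, h2⟩ := hd
    constructor <;> linarith
  have H := fun a : Bool => PBZF.PLX.ub_RRB (Θ := Unit) (S := Set.univ) (r := l / 5) (ρ := h0)
    (c a) a (x := fun _ => x) (fun i θ _ => hx i) hK hN
  obtain ⟨D1, hD1, H1⟩ := H true
  obtain ⟨D2, hD2, H2⟩ := H false
  refine ⟨D1 + D2, by positivity, fun a u u1 u2 => ?_⟩
  rw [PBZF.PLX.RRU_rwq]
  cases a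
  · refine (H2 () (Set.mem_univ _) u ⟨u1, u2⟩).trans ?_
    exact mul_le_mul_of_nonneg_right (by linarith) (Real.exp_pos _).le
  · refine (H1 () (Set.mem_univ _) u ⟨u1, u2⟩).trans ?_
    exact mul_le_mul_of_nonneg_right (by linarith) (Real.exp_pos _).le

/-- the cut term of `St` decays -/
theorem zc_T_dec {qa nz : Bool → ℕ} {b : ℝ} {x0 v : ℂ} {ξe : ℝ → ℂ} {X : ℂ → ℂ} {cc δ : ℝ}
    {M : Bool → ℝ → ℝ} {s1 s2 : Bool → ℂ → ℂ} {h0 : ℝ} (hx : ∀ i, PBO.PtZ h0 (x i))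
    {S2 : ℝ} (hS2 : ∀ a t, ‖s2 a (posT t)‖ ≤ S2) {D0 κ : ℝ}
    (hM : ∀ a t, M a t ≤ D0 * Real.exp (-(κ * |t|))) (h : CutH b qa nz x0 v ξe X cc M δ) :
    ∃ D : ℝ, ∀ (a : Bool) (t : ℝ), ‖ZcF c (rwq x) qa b nz x0 v ξe X s1 s2 a (some .T) (posT t)‖ ≤
      D * Real.exp (-((κ + 2 * (-(Fil.xn m : ℝ)) * sc (a, .S)) * |t|)) := by
  have hl := Bd.l_pos
  obtain ⟨D1, hD1, H⟩ := norm_RRU_T c hx
  have hS0 : 0 ≤ S2 := (norm_nonneg _).trans (hS2 true 0)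
  have hD0 : 0 ≤ D0 := by
    have := (h.M0 true 0).trans (hM true 0)
    simpa using this
  refine ⟨D1 * D1 * S2 * D0, fun a t => ?_⟩
  have r1 : (posT t).re = -(1 / 2 * l) := posT_re t
  have r2 : (posT t - l).re = -(3 / 2 * l) := by
    rw [sub_re, r1, ofReal_re]
    ring
  have i2 : (posT t - l).im = t := by rw [sub_im, posT_im, ofReal_im, sub_zero]
  have a1 := H a (posT t) (by rw [r1]; linarith) (by rw [r1])
  have a2 := H a (posT t - l) (by rw [r2]) (by rw [r2]; linarith)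
  rw [posT_im] at a1
  rw [i2] at a2
  show ‖RRU (c a) (rwq x a) (rwq x !a) (posT t) * RRU (c a) (rwq x a) (rwq x !a) (posT t - l) *
    DT (qa a) b (nz a) x0 v ξe (X (posT t + 2 * l)) (posT t) * s2 a (posT t)‖ ≤ _
  rw [norm_mul, norm_mul, norm_mul]
  have hT := (h.T a t).trans (hM a t)
  have hs := hS2 a t
  have scS : sc (a, .S) = 2 * sc (a, .A) := Pool.Agent.PLX.sc_S a
  have ee : Real.exp (2 * (Fil.xn m : ℝ) * sc (a, .A) * |t|) *
      Real.exp (2 * (Fil.xn m : ℝ) * sc (a, .A) * |t|) * Real.exp (-(κ * |t|)) =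
      Real.exp (-((κ + 2 * (-(Fil.xn m : ℝ)) * sc (a, .S)) * |t|)) := by
    rw [← Real.exp_add, ← Real.exp_add, scS]
    congr 1
    ring
  calc _ ≤ (D1 * Real.exp (2 * (Fil.xn m : ℝ) * sc (a, .A) * |t|)) *
        (D1 * Real.exp (2 * (Fil.xn m : ℝ) * sc (a, .A) * |t|)) *
        (D0 * Real.exp (-(κ * |t|))) * S2 := by
        gcongr
    _ = D1 * D1 * S2 * D0 * (Real.exp (2 * (Fil.xn m : ℝ) * sc (a, .A) * |t|) *
      Real.exp (2 * (Fil.xn m : ℝ) * sc (a, .A) * |t|) * Real.exp (-(κ * |t|))) := by ring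
    _ = _ := by rw [ee]

/-- **the hypotheses of the cut estimate** -/
theorem zcOk_X {P : NUO.Par} {qa nz : Bool → ℕ} {k : ℕ} {b : ℝ} {x0 v : ℂ} {ξe : ℝ → ℂ} {X : ℂ → ℂ}
    {cc δ : ℝ} {M : Bool → ℝ → ℝ} {s1 s2 : Bool → ℂ → ℂ} {h0 s : ℝ} (hP : ParC P)
    (hj : P.jL ≤ 5 / 2) (hδ : δ ≤ 1 / 20) (hH : Hyp b s) (hs : (3 / 2 + δ) * l ≤ s)
    (hr : Rws x) (hx : ∀ i, PBO.PtZ h0 (x i)) (hx0 : |x0.re| ≤ l / 2)
    (hy : RwP (rwq x) qa nz x0) {C0 : ℝ} (hF : FlX k C0 X ξe)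
    (hm1 : ∀ a, Measurable (s1 a)) (hm2 : ∀ a, Measurable (s2 a))
    (hd : ∀ a (u : ℂ), 3 / 5 * l ≤ u.re → u.re ≤ (1 + δ) * l → DifferentiableAt ℂ (s1 a) u)
    {S2 : ℝ} (hS2 : ∀ a t, ‖s2 a (posT t)‖ ≤ S2) {D0 κ : ℝ}
    (hM : ∀ a t, M a t ≤ D0 * Real.exp (-(κ * |t|))) (h : CutH b qa nz x0 v ξe X cc M δ) :
    ∃ D, ZcOk (XXF c b (rwq x) s1 s2) (ZcF c (rwq x) qa b nz x0 v ξe X s1 s2) P (3 / 5 * l) κ δ cc D
      (-(Fil.xn m : ℤ)) := by
  have hl := Bd.l_pos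
  obtain ⟨D, hD⟩ := zc_T_dec (c := c) hx hS2 hM h
  refine ⟨D, fun a o => zc_meas hF.me hm1 hm2 a o, fun a u u1 u2 => ?_, fun a u u1 u2 => ?_,
    fun a u hu => ?_, fun a r i hi u hu => ?_, fun a t => ?_⟩
  · exact zc_diff hH hF (fun a => _root_.Pool.Agent.PLX.Rws_rwq hr a) hx0 a u1
      (u2.trans (by nlinarith)) (by nlinarith) (hd a u u1 u2)
  · exact zc_A hy h a (by linarith) u2
  · have j1 := hP.j1
    exact zc_L hy h a (by rw [hu]; nlinarith) (by rw [hu]; nlinarith)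
  · have hi' : (i : ℝ) / r ≤ 1 := by
      have hr : (0 : ℝ) < r := by exact_mod_cast (Nat.zero_le i).trans_lt hi
      rw [div_le_one hr]
      exact_mod_cast hi.le
    have hi0 : (0 : ℝ) ≤ (i : ℝ) / r := by positivity
    have e1 := hP.e1
    have e2 := hP.e2 r
    have d0 := hP.d0 r
    have hre : u.re = -((1 + (P.e + P.d r * ((i : ℝ) / r))) * l) := hu
    have k1 : P.d r * ((i : ℝ) / r) ≤ P.d r := by nlinarith
    have k2 : 0 ≤ P.d r * ((i : ℝ) / r) := by positivity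
    exact zc_S hy h a (by rw [hre]; nlinarith) (by rw [hre]; nlinarith)
  · have := hD a t
    push_cast
    exact this

end PBC.PLX

end
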