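import Pool.Agent.PLX.PB.BCs
import Pool.Agent.NUAct.OCw
import Pool.Agent.NUKer.Cut

/-!
# PLAX: bounded analytic functions on a curve are in `KC1`

`KC1_curve`: for `g` analytic and bounded by `M` on the strip `y₁ < Im z < y₂` and a displacement `D` with
three small derivatives (`OC 3`), the function `t ↦ g (t + D t)` belongs to `KC1 A (K A³ M / r³)`,
`r = min (-y₁) y₂ / 5`.
-/

set_option autoImplicit false

open Complex MeasureTheory Finset NUKer
open scoped ENNReal

namespace PBU.PLX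

variable {y₁ y₂ M r : ℝ} {g : ℂ → ℂ}

theorem Sp_isOpen (y₁ y₂ : ℝ) : IsOpen (PBE.Sp y₁ y₂) :=
  (isOpen_lt continuous_const Complex.continuous_im).inter
    (isOpen_lt Complex.continuous_im continuous_const)

theorem BC.deriv (h : BC y₁ y₂ M g) (hr : 0 < r) : BC (y₁ + r) (y₂ - r) (M / r) (deriv g) where
  an := (h.an.deriv (Sp_isOpen _ _)).mono fun z hz => ⟨by linarith [hz.1], by linarith [hz.2]⟩
  bd z hz := by
    have hsub : Metric.closedBall z r ⊆ PBE.Sp y₁ y₂ := by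
      intro w hw
      rw [Metric.mem_closedBall, dist_eq] at hw
      have h1 := (Complex.abs_im_le_norm (w - z)).trans hw
      rw [sub_im, abs_le] at h1
      exact ⟨by linarith [hz.1, h1.1], by linarith [hz.2, h1.2]⟩
    refine Complex.norm_deriv_le_of_forall_mem_sphere_norm_le hr ?_ fun w hw =>
      h.bd w (hsub (Metric.sphere_subset_closedBall hw))
    refine DifferentiableOn.diffContOnCl ?_
    rw [closure_ball z hr.ne']
    exact h.an.mono hsub

theorem BC.hasDeriv (h : BC y₁ y₂ M g) {z : ℂ} (hz : z ∈ PBE.Sp y₁ y₂) :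
    HasDerivAt g (_root_.deriv g z) z :=
  ((h.an z hz).differentiableAt ((Sp_isOpen _ _).mem_nhds hz)).hasDerivAt

/-- **functions on a curve** -/
theorem exists_KC1_curve : ∃ K : ℝ, 0 < K ∧ ∀ (A : ℝ), 1 ≤ A → ∀ {y₁ y₂ M r ε : ℝ} {g : ℂ → ℂ}
    {e : ℝ → ℝ} {D : ℝ → ℂ}, BC y₁ y₂ M g → 0 < r → r ≤ 1 → y₁ ≤ -(5 * r) → 5 * r ≤ y₂ →
    NUAct.OC 3 e D → (∀ t, e t ≤ ε) → ε ≤ r →
    KC1 A (K * A ^ 3 * (M / r ^ 3)) (fun t => g (t + D t)) ∧
      Continuous (fun t : ℝ => g (t + D t)) ∧ (∀ t : ℝ, ‖g (t + D t)‖ ≤ M) := by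
  obtain ⟨K, hK0, hK⟩ := exists_KC1
  refine ⟨K * 15, by positivity, ?_⟩
  intro A hA y₁ y₂ M r ε g e D hg hr hr1 hy1 hy2 hD he hε
  obtain ⟨d0, D1, hD1, d1, D2, hD2, d2, D3, hD3, c3, d3⟩ := hD
  have hb : ∀ t, e t ≤ r := fun t => (he t).trans hε
  have b0 : ∀ t, ‖D t‖ ≤ r := fun t => (d0 t).trans (hb t)
  have b1 : ∀ t, ‖D1 t‖ ≤ 1 := fun t => (d1 t).trans ((hb t).trans hr1)
  have b2 : ∀ t, ‖D2 t‖ ≤ 1 := fun t => (d2 t).trans ((hb t).trans hr1)
  have b3 : ∀ t, ‖D3 t‖ ≤ 1 := fun t => (d3 t).trans ((hb t).trans hr1)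
  have g1 := hg.deriv hr
  have g2 := g1.deriv hr
  have g3 := g2.deriv hr
  have hin : ∀ t : ℝ, (t + D t : ℂ) ∈ PBE.Sp (y₁ + r + r + r) (y₂ - r - r - r) := by
    intro t
    have h1 := (Complex.abs_im_le_norm (D t)).trans (b0 t)
    rw [abs_le] at h1
    have e1 : (t + D t : ℂ).im = (D t).im := by simp
    constructor
    · rw [e1]; linarith [h1.1]
    · rw [e1]; linarith [h1.2]
  have hin2 : ∀ t : ℝ, (t + D t : ℂ) ∈ PBE.Sp (y₁ + r + r) (y₂ - r - r) := fun t =>
    ⟨by linarith [(hin t).1], by linarith [(hin t).2]⟩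
  have hin1 : ∀ t : ℝ, (t + D t : ℂ) ∈ PBE.Sp (y₁ + r) (y₂ - r) := fun t =>
    ⟨by linarith [(hin t).1], by linarith [(hin t).2]⟩
  have hin0 : ∀ t : ℝ, (t + D t : ℂ) ∈ PBE.Sp y₁ y₂ := fun t =>
    ⟨by linarith [(hin t).1], by linarith [(hin t).2]⟩
  have hM : 0 ≤ M := (norm_nonneg _).trans (hg.bd _ (hin0 0))
  have hz : ∀ t : ℝ, HasDerivAt (fun t : ℝ => (t + D t : ℂ)) (1 + D1 t) t := fun t =>
    (hasDerivAt_id t).ofReal_comp.add (hD1 t)
  have hz1 : ∀ t : ℝ, HasDerivAt (fun t : ℝ => 1 + D1 t) (D2 t) t := fun t => (hD2 t).const_add 1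
  have f0 : ∀ t : ℝ, HasDerivAt (fun t : ℝ => g (t + D t)) (deriv g (t + D t) * (1 + D1 t)) t :=
    fun t => (hg.hasDeriv (hin0 t)).comp_of_eq t (hz t) rfl
  have f1 : ∀ t : ℝ, HasDerivAt (fun t : ℝ => deriv g (t + D t)) (deriv (deriv g) (t + D t) * (1 + D1 t)) t :=
    fun t => (g1.hasDeriv (hin1 t)).comp_of_eq t (hz t) rfl
  have f2 : ∀ t : ℝ, HasDerivAt (fun t : ℝ => deriv (deriv g) (t + D t))
      (deriv (deriv (deriv g)) (t + D t) * (1 + D1 t)) t :=
    fun t => (g2.hasDeriv (hin2 t)).comp_of_eq t (hz t) rfl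
  have f3 : Continuous fun t : ℝ => deriv (deriv (deriv g)) (t + D t) := by
    refine continuous_iff_continuousAt.2 fun t => ?_
    exact ContinuousAt.comp_of_eq (g3.hasDeriv (hin t)).continuousAt (hz t).continuousAt rfl
  have q1 : ∀ t : ℝ, ‖deriv g (t + D t)‖ ≤ M / r := fun t => g1.bd _ (hin1 t)
  have q2 : ∀ t : ℝ, ‖deriv (deriv g) (t + D t)‖ ≤ M / r / r := fun t => g2.bd _ (hin2 t)
  have q3 : ∀ t : ℝ, ‖deriv (deriv (deriv g)) (t + D t)‖ ≤ M / r / r / r := fun t => g3.bd _ (hin t)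
  have w1 : ∀ t, ‖1 + D1 t‖ ≤ 2 := fun t => by
    refine (norm_add_le _ _).trans ?_
    rw [norm_one]
    linarith [b1 t]
  have r1 : M / r ≤ M / r ^ 3 := by
    gcongr
    calc r ^ 3 ≤ r ^ 1 := pow_le_pow_of_le_one hr.le hr1 (by norm_num)
      _ = r := pow_one r
  have r2 : M / r / r ≤ M / r ^ 3 := by
    rw [div_div]
    gcongr
    calc r ^ 3 ≤ r ^ 2 := pow_le_pow_of_le_one hr.le hr1 (by norm_num)
      _ = r * r := pow_two r
  have r3 : M / r / r / r = M / r ^ 3 := by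
    rw [div_div, div_div]
    congr 1
    ring
  have r0 : M ≤ M / r ^ 3 := by
    rw [le_div_iff₀ (by positivity)]
    have : r ^ 3 ≤ 1 := pow_le_one₀ hr.le hr1
    nlinarith
  have hM3 : 0 ≤ M / r ^ 3 := by positivity
  have hgc : Continuous (fun t : ℝ => g (t + D t)) :=
    continuous_iff_continuousAt.2 fun t => (f0 t).continuousAt
  refine ⟨?_, hgc, fun t => hg.bd _ (hin0 t)⟩
  have h := hK A hA (fun t : ℝ => g (t + D t)) (fun t => deriv g (t + D t) * (1 + D1 t))
    (fun t => deriv (deriv g) (t + D t) * (1 + D1 t) * (1 + D1 t) + deriv g (t + D t) * D2 t)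
    (fun t => (deriv (deriv (deriv g)) (t + D t) * (1 + D1 t) * (1 + D1 t) +
      deriv (deriv g) (t + D t) * D2 t) * (1 + D1 t) +
      deriv (deriv g) (t + D t) * (1 + D1 t) * D2 t +
      (deriv (deriv g) (t + D t) * (1 + D1 t) * D2 t + deriv g (t + D t) * D3 t))
    (fun t => f0 t)
    (fun t => (f1 t).mul (hz1 t))
    (fun t => ((((f2 t).mul (hz1 t)).mul (hz1 t))).add ((f1 t).mul (hD3 t)))
    (by
      have k1 : Continuous fun t : ℝ => deriv g (t + D t) :=
        continuous_iff_continuousAt.2 fun t => (f1 t).continuousAt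
      have k2 : Continuous fun t : ℝ => deriv (deriv g) (t + D t) :=
        continuous_iff_continuousAt.2 fun t => (f2 t).continuousAt
      have k3 : Continuous D1 := continuous_iff_continuousAt.2 fun t => (hD2 t).continuousAt
      have k4 : Continuous D2 := continuous_iff_continuousAt.2 fun t => (hD3 t).continuousAt
      fun_prop)
    (15 * (M / r ^ 3)) ?_ ?_ ?_ ?_
  · refine h.mono (le_of_eq ?_)
    ring
  · intro t _
    exact (hg.bd _ (hin0 t)).trans (by linarith)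
  · intro t _
    rw [norm_mul]
    calc ‖deriv g (t + D t)‖ * ‖1 + D1 t‖ ≤ (M / r ^ 3) * 2 := by
          gcongr
          · exact (q1 t).trans r1
          · exact w1 t
      _ ≤ _ := by linarith
  · intro t _
    refine (norm_add_le _ _).trans ?_
    rw [norm_mul, norm_mul, norm_mul]
    calc ‖deriv (deriv g) (t + D t)‖ * ‖1 + D1 t‖ * ‖1 + D1 t‖ + ‖deriv g (t + D t)‖ * ‖D2 t‖ ≤
        (M / r ^ 3) * 2 * 2 + (M / r ^ 3) * 1 := by
          gcongr
          · exact (q2 t).trans r2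
          · exact w1 t
          · exact w1 t
          · exact (q1 t).trans r1
          · exact b2 t
      _ ≤ _ := by linarith
  · intro t _
    refine (norm_add_le _ _).trans ((add_le_add (norm_add_le _ _) (norm_add_le _ _)).trans ?_)
    simp only [norm_mul]
    have s1 : ‖deriv (deriv (deriv g)) (t + D t) * (1 + D1 t) * (1 + D1 t) +
        deriv (deriv g) (t + D t) * D2 t‖ ≤ (M / r ^ 3) * 2 * 2 + (M / r ^ 3) * 1 := by
      refine (norm_add_le _ _).trans ?_
      rw [norm_mul, norm_mul, norm_mul]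
      gcongr
      · exact (q3 t).trans r3.le
      · exact w1 t
      · exact w1 t
      · exact (q2 t).trans r2
      · exact b2 t
    calc _ ≤ ((M / r ^ 3) * 2 * 2 + (M / r ^ 3) * 1) * 2 + (M / r ^ 3) * 2 * 1 +
        ((M / r ^ 3) * 2 * 1 + (M / r ^ 3) * 1) := by
          gcongr
          · exact w1 t
          · exact (q2 t).trans r2
          · exact w1 t
          · exact b2 t
          · exact (q2 t).trans r2
          · exact w1 t
          · exact b2 t
          · exact (q1 t).trans r1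
          · exact b3 t
      _ ≤ _ := by linarith

end PBU.PLX
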