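import Pool.Agent.PLX.Ns
import Pool.Agent.PLX.PB.GasM

/-!
# Plan B, (U3): the density of a positive gas on the whole line (PLAX)

* `Rho R ρ N δ`: a nonnegative integrable continuous density (of one species), mass at most `N`, mass
  outside the window at most `δ`;
* `Rho.smul`: the multiples of a density.
-/

set_option autoImplicit false

open MeasureTheory Set Filter Topology
open scoped ENNReal

namespace PBM.PLX

open NUKer NUR2 NUDi PBQ PBQ.PLX

noncomputable section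

/-- the density of the gas and its tail -/
structure Rho (R : ℝ) (ρ : ℝ → ℝ) (N δ : ℝ) : Prop where
  i : Integrable ρ
  nn : ∀ t, 0 ≤ ρ t
  c : Continuous ρ
  N : ∫ t, ρ t ≤ N
  δ : ∫ t in (Set.Ioc (-R) R)ᶜ, ρ t ≤ δ

lemma Rho.δ0 {R : ℝ} {ρ : ℝ → ℝ} {N δ : ℝ} (h : Rho R ρ N δ) : 0 ≤ δ :=
  le_trans (integral_nonneg fun t => h.nn t) h.δ

lemma Rho.N0 {R : ℝ} {ρ : ℝ → ℝ} {N δ : ℝ} (h : Rho R ρ N δ) : 0 ≤ N :=
  le_trans (integral_nonneg fun t => h.nn t) h.N

lemma Rho.smul {R : ℝ} {ρ : ℝ → ℝ} {N δ : ℝ} (h : Rho R ρ N δ) {c : ℝ} (hc : 0 ≤ c) :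
    Rho R (fun t => c * ρ t) (c * N) (c * δ) where
  i := h.i.const_mul c
  nn t := mul_nonneg hc (h.nn t)
  c := continuous_const.mul h.c
  N := by
    rw [integral_const_mul]
    exact mul_le_mul_of_nonneg_left h.N hc
  δ := by
    rw [integral_const_mul]
    exact mul_le_mul_of_nonneg_left h.δ hc

lemma Rho.mono {R : ℝ} {ρ : ℝ → ℝ} {N N' δ δ' : ℝ} (h : Rho R ρ N δ) (hN : N ≤ N') (hδ : δ ≤ δ') :
    Rho R ρ N' δ' := ⟨h.i, h.nn, h.c, h.N.trans hN, h.δ.trans hδ⟩

lemma add_pow_le_two {a b : ℝ} (ha : 0 ≤ a) (hb : 0 ≤ b) (k : ℕ) :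
    (a + b) ^ k ≤ 2 ^ k * (a ^ k + b ^ k) := by
  rcases le_total a b with h | h
  · calc (a + b) ^ k ≤ (2 * b) ^ k := pow_le_pow_left₀ (by positivity) (by linarith) k
      _ = 2 ^ k * b ^ k := by ring
      _ ≤ _ := by
        have : 0 ≤ a ^ k := by positivity
        gcongr
        linarith
  · calc (a + b) ^ k ≤ (2 * a) ^ k := pow_le_pow_left₀ (by positivity) (by linarith) k
      _ = 2 ^ k * a ^ k := by ring
      _ ≤ _ := by
        have : 0 ≤ b ^ k := by positivity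
        gcongr
        linarith

end

end PBM.PLX
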