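import Pool.Agent.PLX.Ns
import Pool.Agent.PLX.PB.UBN
import Pool.Agent.PLX.PB.StatU
import Pool.Agent.PLX.PB.QMomC
import Pool.Agent.PLX.PB.ParZ

/-!
# Plan B: products of four linear statistics, two fillings (PLAX)

* `exists_strip`: the fixed curve lies in every strip around the real line for large `m`;
* **`UB.mom4`**: 77's `Mom4` for every family with the bounds `UB` (`4 ≤ p`).
-/

set_option autoImplicit false
set_option linter.unusedSectionVars false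

noncomputable section

open Complex MeasureTheory Finset
open scoped ENNReal
open PLX (Fil)

namespace PBU.PLX

open NUO NUP1 NUP1S NUP1S.Ab NUP1S.AbC NUGC NUGC.PLX PBF PBF.PLX PBP PBP.PLX PBFunc PBFunc.PLX
open PBQM.PLX (Mom4 BB VN)

variable [NUSea.Sea]

/-- **the fixed curve lies in every strip around the real line** -/
theorem exists_strip {e1 J : ℝ} (he : 0 < e1) (he1 : e1 ≤ 1 / 100) (hJ : 0 ≤ J) {r : ℝ}
    (hr : 0 < r) : ∃ m0 : ℕ, ∀ m ≥ m0, ∀ t, |etaC e1 J m m t| ≤ r := by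
  obtain ⟨C1, hC1, m1, hm1, H1⟩ := exists_curC he he1 hJ hr
  refine ⟨m1, fun m hm t => ?_⟩
  obtain ⟨hT, H1⟩ := H1 m hm
  obtain ⟨ε, e, hcur, hε0, -, hεr⟩ := H1 m (by
    have : (0 : ℝ) ≤ m := Nat.cast_nonneg m
    linarith)
  obtain ⟨d0, -⟩ := hcur.oc
  have h1 := d0 t
  have h2 : ‖NUKer.iD (etaC e1 J m m) t‖ = |etaC e1 J m m t| := by
    unfold NUKer.iD
    rw [norm_mul, norm_I, mul_one, norm_real, Real.norm_eq_abs]
  rw [h2] at h1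
  exact h1.trans ((hcur.le t).trans hεr)

variable [Fil]

/-- a statistic only sees the test function on a strip that contains the curve -/
theorem Vy_congr {y₁ y₂ : ℝ} (h1 : y₁ < 0) (h2 : 0 < y₂) {η : Crs} {ρ : ℂ → ℂ}
    {g g' : Bool → ℂ → ℂ} (hg : ∀ s, ∀ z ∈ PBE.Sp y₁ y₂, g s z = g' s z)
    (hη : ∀ r (O : Fin r → Xo) t, y₁ < η r O t ∧ η r O t < y₂) (r : ℕ) (O : Fin r → Xo) (a b : ℕ)
    (x : (Fin a → ℝ) × (Fin b → ℝ)) : Vy 0 η ρ g r O a b x = Vy 0 η ρ g' r O a b x := by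
  unfold Vy PB.NX.nuL
  congr 1
  · refine Finset.sum_congr rfl fun k _ => hg _ _ ?_
    unfold zqy
    have h3 := hη r O (Sum.elim x.1 x.2 k)
    have hcv : ∀ s : Bool, y₁ < Fil.cv s (η r O) (Sum.elim x.1 x.2 k) ∧
        Fil.cv s (η r O) (Sum.elim x.1 x.2 k) < y₂ := by
      intro s
      have hb := Fil.b_pos s
      have hb1 := Fil.one_le s
      rw [Fil.cv_apply]
      constructor
      · rw [lt_div_iff₀ hb]
        nlinarith [h3.1]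
      · rw [div_lt_iff₀ hb]
        nlinarith [h3.2]
    constructor
    · rw [zy_im, sub_zero]; exact (hcv _).1
    · rw [zy_im, sub_zero]; exact (hcv _).2
  · refine Finset.sum_congr rfl fun s _ => ?_
    congr 1
    funext u
    rw [hg s]
    constructor
    · simpa [PB.eR] using h1
    · simpa [PB.eR] using h2

/-- the test function cut off outside the strip -/
def ctS (y₁ y₂ : ℝ) (g : Bool → ℂ → ℂ) (s : Bool) : ℂ → ℂ := (PBE.Sp y₁ y₂).indicator (g s)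

theorem isOpen_Sp (y₁ y₂ : ℝ) : IsOpen (PBE.Sp y₁ y₂) :=
  (isOpen_lt continuous_const Complex.continuous_im).inter
    (isOpen_lt Complex.continuous_im continuous_const)

theorem ctS_eq {y₁ y₂ : ℝ} (g : Bool → ℂ → ℂ) (s : Bool) {z : ℂ} (hz : z ∈ PBE.Sp y₁ y₂) :
    ctS y₁ y₂ g s z = g s z := Set.indicator_of_mem hz _

theorem ctS_BC {y₁ y₂ M : ℝ} {g : Bool → ℂ → ℂ} {s : Bool} (hg : BC y₁ y₂ M (g s)) :
    BC y₁ y₂ M (ctS y₁ y₂ g s) where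
  an := hg.an.congr fun _ hz => ctS_eq g s hz
  bd z hz := by
    rw [ctS_eq g s hz]
    exact hg.bd z hz

theorem ctS_meas {y₁ y₂ M : ℝ} {g : Bool → ℂ → ℂ} {s : Bool} (hg : BC y₁ y₂ M (g s)) :
    Measurable (ctS y₁ y₂ g s) := by
  classical
  unfold ctS
  rw [← Set.piecewise_eq_indicator]
  exact hg.an.continuousOn.measurable_piecewise continuousOn_const (isOpen_Sp y₁ y₂).measurableSet

theorem MIn_vy {η η' : Crs} (hm : MCr η η') {ρ : ℂ → ℂ} (hρ : Measurable fun u : ℝ => ρ u)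
    {g : Bool → ℂ → ℂ} (hg : ∀ s, Measurable (g s)) : MIn (Vy 0 η ρ g) :=
  PM.at (S := Unit) (Ψ := fun _ => Vy 0 η ρ g)
    (PBQM.PLX.pm_vy (T := Unit) (G := fun _ => g) hm 0 hρ fun s => (hg s).comp measurable_snd) ()

theorem MIn.prod {q : ℕ} {Ψ : Fin q → Ins} (h : ∀ j, MIn (Ψ j)) :
    MIn fun r O a b x => ∏ j, Ψ j r O a b x := fun r a b =>
  Finset.measurable_fun_prod _ fun j _ => h j r a b

variable {ι : Type} {F : Fam ι} {ep e1 J : ℝ} {p : ℕ} {K ε : ℝ}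

/-- **products of `q ≤ p` linear statistics**, no measurability of the test functions -/
theorem UB.momq (h : UB F ep e1 J p K ε) {q : ℕ} (hq : q ≤ p) (hK : 1 ≤ K) (he : 0 < e1)
    (he1 : e1 ≤ 1 / 100) (hJ : 0 ≤ J) (C0 y₁ y₂ : ℝ) (h1 : y₁ < 0) (h2 : 0 < y₂) :
    ∃ m0 : ℕ, ∀ m ≥ m0, ∀ i : ι, F.ok m i →
    MC (F.Z ep m i) (NUSea.PLX.O.par0 m) (cr e1 J m) (cr' e1 J m) →
    ∀ ρ : ℂ → ℂ, (Measurable fun u : ℝ => ρ u) → DN C0 m (fun t : ℝ => ρ t) →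
    ∀ (M : Fin q → ℝ) (g : Fin q → Bool → ℂ → ℂ), (∀ j, 0 ≤ M j) →
      (∀ j s, BC y₁ y₂ (M j) (g j s)) →
      ∫⁻ ω, ‖wF F ep e1 J m i ω‖ₑ * ∏ j, ‖VN (F.top m) (fun _ => cr e1 J m) ρ (g j) ω‖ₑ
        ∂(mN (F.top m)) ≤ ENNReal.ofReal ((∏ j, M j) * ((m : ℝ) ^ ε * F.bd m i)) := by
  obtain ⟨m1, hl1⟩ := h.l1 C0 y₁ y₂ h1 h2
  obtain ⟨m2, hs⟩ := exists_strip (J := J) he he1 hJ (r := min (-y₁ / 2) (y₂ / 2))
    (lt_min (by linarith) (by linarith))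
  refine ⟨max m1 m2, fun m hm i hi hMC ρ hρm hρ M g hM hg => ?_⟩
  have k1 : m1 ≤ m := by omega
  have k2 : m2 ≤ m := by omega
  have hη : ∀ r (O : Fin r → Xo) t, y₁ < cr e1 J m r O t ∧ cr e1 J m r O t < y₂ := by
    intro r O t
    have h3 := hs m k2 t
    have h4 := abs_le.1 h3
    have h5 := min_le_left (-y₁ / 2) (y₂ / 2)
    have h6 := min_le_right (-y₁ / 2) (y₂ / 2)
    constructor
    · show y₁ < etaC e1 J m m t
      linarith
    · show etaC e1 J m m t < y₂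
      linarith
  have hmeas : ∀ j, MIn (Vy 0 (cr e1 J m) ρ (ctS y₁ y₂ (g j))) := fun j =>
    MIn_vy (η' := cr' e1 J m) ⟨fun r => PBF.PLX.curZ_meas e1 J m m r, fun r => PBF.PLX.curZ_meas' e1 J m m r⟩
      hρm fun s => ctS_meas (hg j s)
  have e0 : ∀ ω : CfN (F.top m), ∏ j, ‖VN (F.top m) (fun _ => cr e1 J m) ρ (g j) ω‖ₑ =
      ‖evN (fun _ r O a b x => ∏ j, Vy 0 (cr e1 J m) ρ (ctS y₁ y₂ (g j)) r O a b x) ω‖ₑ := by
    intro ω
    have hV : ∀ j, VN (F.top m) (fun _ => cr e1 J m) ρ (g j) ω =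
        Vy 0 (cr e1 J m) ρ (ctS y₁ y₂ (g j)) ω.2.1.1 ω.2.2.1 ω.2.1.2.1 ω.2.1.2.2 ω.2.2.2 :=
      fun j => Vy_congr h1 h2 (fun s z hz => (ctS_eq (g j) s hz).symm) hη _ _ _ _ _
    simp only [hV]
    show _ = ‖∏ j, Vy 0 (cr e1 J m) ρ (ctS y₁ y₂ (g j)) ω.2.1.1 ω.2.2.1 ω.2.1.2.1 ω.2.1.2.2
      ω.2.2.2‖ₑ
    rw [← ofReal_norm, norm_prod, ENNReal.ofReal_prod_of_nonneg fun j _ => norm_nonneg _]
    simp only [ofReal_norm]
  simp only [e0]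
  have key : ∀ δ : ℝ, 0 < δ →
      ∫⁻ ω, ‖wF F ep e1 J m i ω‖ₑ *
        ‖evN (fun _ r O a b x => ∏ j, Vy 0 (cr e1 J m) ρ (ctS y₁ y₂ (g j)) r O a b x) ω‖ₑ
        ∂(mN (F.top m)) ≤ ENNReal.ofReal ((∏ j, (M j + δ)) * ((m : ℝ) ^ ε * F.bd m i)) := by
    intro δ hδ
    have h3 := hl1 m k1 i hi hMC ρ hρ q hq (fun j => M j + δ)
      (fun j => add_pos_of_nonneg_of_pos (hM j) hδ)
      (fun _ _ j s => ctS y₁ y₂ (g j) s)
      (fun _ _ j s => (ctS_BC (hg j s)).mono (by linarith)) 1 zero_le_one (fun _ _ => 1)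
      (OW.one hK m) (fun _ r O a b x => ∏ j, Vy 0 (cr e1 J m) ρ (ctS y₁ y₂ (g j)) r O a b x)
      (fun _ _ => MIn.prod hmeas) (fun n _ r O a b x => by
        rw [one_mul, norm_prod])
    unfold L1 at h3
    rw [one_mul] at h3
    refine le_trans (le_of_eq ?_) h3
    refine lintegral_congr fun ω => ?_
    rw [ENNReal.ofReal_mul (norm_nonneg _), ofReal_norm, ofReal_norm]
  have ht : Filter.Tendsto (fun δ : ℝ => ENNReal.ofReal ((∏ j, (M j + δ)) *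
      ((m : ℝ) ^ ε * F.bd m i))) (nhdsWithin 0 (Set.Ioi 0))
      (nhds (ENNReal.ofReal ((∏ j, (M j + 0)) * ((m : ℝ) ^ ε * F.bd m i)))) := by
    refine ENNReal.tendsto_ofReal (Filter.Tendsto.mono_left ?_ nhdsWithin_le_nhds)
    exact Continuous.tendsto (by fun_prop) 0
  simp only [add_zero] at ht
  exact ge_of_tendsto ht (Filter.eventually_of_mem self_mem_nhdsWithin fun δ hδ => key δ hδ)

/-- **77's `Mom4`** -/
theorem UB.mom4 (h : UB F ep e1 J p K ε) (hp : 4 ≤ p) (hK : 1 ≤ K) (he : 0 < e1)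
    (he1 : e1 ≤ 1 / 100) (hJ : 0 ≤ J) (C0 y₁ y₂ : ℝ) (h1 : y₁ < 0) (h2 : 0 < y₂) :
    ∃ m0 : ℕ, ∀ m ≥ m0, ∀ i : ι, F.ok m i →
    MC (F.Z ep m i) (NUSea.PLX.O.par0 m) (cr e1 J m) (cr' e1 J m) →
    ∀ ρ : ℂ → ℂ, (Measurable fun u : ℝ => ρ u) → DN C0 m (fun t : ℝ => ρ t) →
      Mom4 (mN (F.top m)) (wF F ep e1 J m i) (VN (F.top m) (fun _ => cr e1 J m) ρ) y₁ y₂
        ((m : ℝ) ^ ε * F.bd m i) := by
  obtain ⟨m0, h0⟩ := h.momq hp hK he he1 hJ C0 y₁ y₂ h1 h2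
  exact ⟨m0, fun m hm i hi hMC ρ hρm hρ M g hM hg =>
    h0 m hm i hi hMC ρ hρm hρ M g hM fun j s => ⟨(hg j s).1, (hg j s).2⟩⟩

end PBU.PLX

end
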