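import Pool.Agent.PLX.PB.WardD
import Pool.Agent.PB.I1E

/-!
# Two fillings: the first Ward identity on the straight lines, exact form (helper70)

As `PB/I1E`, numbers `n`, `n'` of quanta of the two species, any total charge (inside `ZBd`).

**`I1E`**: `d/dη F0[1] = F0[C0 + nuQ a + ∑ Ξ lam] + F0D(Zc)`.
-/

set_option autoImplicit false
set_option linter.unusedSectionVars false
set_option linter.unusedVariables false

noncomputable section

open Complex MeasureTheory Finset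
open scoped Classical

namespace PBI.PLX

open NUP1 NUP1S NUP1.Bd NURow PB

/-- hypotheses of the exact identity: the family of one body functions -/
structure ZFam (α : ℝ) (n n' : ℕ) (L : Lns) (κ D r η0 : ℝ) (Z Zd : ℝ → Stt) (Z' : Stt) : Prop where
  hκ : 0 < κ
  hr : 0 < r
  hD : 0 ≤ D
  hok : AllW α n n' L fun c x => LnOk c x
  hm : ∀ η s k, Measurable (Z η s k)
  hmd : ∀ η s k, Measurable (Zd η s k)
  hm' : ∀ s k, Measurable (Z' s k)
  hZ : ∀ η ∈ Metric.ball η0 r, AllW α n n' L fun c x => ZBd c x κ D (Z η)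
  hZd : ∀ η ∈ Metric.ball η0 r, AllW α n n' L fun c x => ZBd c x κ D (Zd η)
  hZ' : AllW α n n' L fun c x => ZBd c x κ D Z'
  hd : ∀ η ∈ Metric.ball η0 r, AllW α n n' L fun c x => ∀ i, ∀ t : ℝ, HasDerivAt
      (fun η => Z η (c i).1 (c i).2 (vl (x i) t)) (Zd η (c i).1 (c i).2 (vl (x i) t)) η
  hd' : AllW α n n' L fun c x => ∀ i, ∀ t : ℝ, HasDerivAt (Z η0 (c i).1 (c i).2)
      (Z' (c i).1 (c i).2 (vl (x i) t)) (vl (x i) t)

/-- hypotheses of the exact identity: field, kernel, sea, forces -/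
structure FFam (α : ℝ) (n n' : ℕ) (L : Lns) (B : ℝ) (Ξ Ξ' : Kd → ℂ → ℂ) (a : Kd → Kd → ℂ → ℂ → ℂ)
    (ρ : Kd → ℝ → ℂ) (κr r1 lam : Kd → ℂ → ℂ) : Prop where
  hB : 0 ≤ B
  hΞ : AllW α n n' L fun c x => FdOk c x B Ξ Ξ'
  hmΞ : ∀ b, Measurable (Ξ b)
  hmΞ' : ∀ b, Measurable (Ξ' b)
  ha : AllW α n n' L fun c x => ∀ i j, ∀ s t : ℝ, i ≠ j → s ≠ t →
      a (c i) (c j) (vl (x i) s) (vl (x j) t) =
      (Ξ (c i) (vl (x i) s) - Ξ (c j) (vl (x j) t)) *
        (I * lz (co (c i)) (co (c j)) (vl (x i) s - vl (x j) t))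
  has : ∀ b c z w, a b c z w = a c b w z
  had : AllW α n n' L fun c x => ∀ i, ∀ t : ℝ,
      a (c i) (c i) (vl (x i) t) (vl (x i) t) = 2 * (I * Ξ' (c i) (vl (x i) t))
  hI1 : ∀ b, Integrable fun s => ρ b s * (Ξ b (vl l s) * κr b (vl l s))
  hI2 : ∀ b, Integrable fun s => ρ b s * NX.smr (vl l) ρ a b (vl l s)
  hE : ∑ b, (∫ s, ρ b s * (Ξ b (vl l s) * κr b (vl l s))) + (1 / 2) * NX.dbl (vl l) ρ a = 0
  hC : ∀ b s, ρ b s * NX.Cv (vl l) ρ Ξ κr r1 a b (vl l s) = 0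
  hCv : AllW α n n' L fun c x => ∀ i, ∀ t : ℝ, NX.Cv (vl l) ρ Ξ κr r1 a (c i) (vl (x i) t) = 0
  mκ : ∀ b, Measurable (κr b)
  mr : ∀ b, Measurable (r1 b)
  ml : ∀ b, Measurable (lam b)
  bd : AllW α n n' L fun c x => ∀ i, ∀ t : ℝ, ‖r1 (c i) (vl (x i) t) +
      Ξ (c i) (vl (x i) t) * (κr (c i) (vl (x i) t) + lam (c i) (vl (x i) t))‖ ≤ B

variable {α : ℝ} {n n' : ℕ} {L : Lns} {κ D B r η0 : ℝ} {Z Zd : ℝ → Stt} {Z' : Stt}
  {Ξ Ξ' : Kd → ℂ → ℂ} {a : Kd → Kd → ℂ → ℂ → ℂ} {ρ : Kd → ℝ → ℂ} {κr r1 lam : Kd → ℂ → ℂ}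

/-- **the pointwise identity on the lines of a word** -/
theorem I1_point (hF : FFam α n n' L B Ξ Ξ' a ρ κr r1 lam) {p p' : ℕ} (k : Fin p → O3)
    (k' : Fin p' → O3) (h1 : ∑ i, c3 (k' i) ≤ n') (h2 : ∑ i, c3 (k i) ≤ n)
    (t : (Fin (nA n k) ⊕ Fin p) ⊕ (Fin (nA n' k') ⊕ Fin p') → ℝ) :
    St (fun s k z => r1 (s, k) z + Ξ (s, k) z * (κr (s, k) z + lam (s, k) z)) _ (cl n n' k k')
      (pos (L.all α n n' k k') t) +
    (St (fun s k z => I * Ξ' (s, k) z) _ (cl n n' k k') (pos (L.all α n n' k k') t) +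
      w2 a _ (cl n n' k k') (pos (L.all α n n' k k') t)) =
    C0 ρ r1 + NX.nuQ (vl l) (cl n n' k k') ρ a (pos (L.all α n n' k k') t) +
      St (fun s k z => Ξ (s, k) z * lam (s, k) z) _ (cl n n' k k')
        (pos (L.all α n n' k k') t) := by
  have key := NX.normI1 (r := er _) ⟨(tour_er _).irr, (tour_er _).tot⟩ (vl l) (cl n n' k k')
    (ρ := ρ) (ξ := Ξ) (dξ := fun b z => I * Ξ' b z) (κr := κr) (r1 := r1)
    (lam := fun i z => lam (cl n n' k k' i) z) (a := a) hF.has hF.hI1 hF.hI2 hF.hE hF.hC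
    (pos (L.all α n n' k k') t)
  have e1 : ∑ i, NX.Cv (vl l) ρ Ξ κr r1 a (cl n n' k k' i) (pos (L.all α n n' k k') t i) = 0 :=
    Finset.sum_eq_zero fun i _ => hF.hCv p p' k k' h1 h2 i (t i)
  have e2 : ∑ i, (I * Ξ' (cl n n' k k' i) (pos (L.all α n n' k k') t i) - (1 / 2) *
      a (cl n n' k k' i) (cl n n' k k' i) (pos (L.all α n n' k k') t i)
        (pos (L.all α n n' k k') t i)) = 0 := by
    refine Finset.sum_eq_zero fun i _ => ?_
    have := hF.had p p' k k' h1 h2 i (t i)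
    rw [show pos (L.all α n n' k k') t i = vl (L.all α n n' k k' i) (t i) from rfl, this]
    ring
  rw [e1, e2] at key
  simp only [St, w2, C0, Prod.mk.eta]
  have e3 : ∀ (f g h : (Fin (nA n k) ⊕ Fin p) ⊕ (Fin (nA n' k') ⊕ Fin p') → ℂ),
      ∑ i, (f i + (g i + h i)) = ∑ i, (f i + h i) + ∑ i, g i := by
    intro f g h
    rw [← Finset.sum_add_distrib]
    exact Finset.sum_congr rfl fun i _ => by ring
  rw [e3] at key
  rw [← add_assoc, key]
  ring

/-- **The first Ward identity on the straight lines.** -/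
theorem I1E (hZ : ZFam α n n' L κ D r η0 Z Zd Z') (hF : FFam α n n' L B Ξ Ξ' a ρ κr r1 lam) :
    HasDerivAt (fun η => F0 α n n' L (Z η) fun _ _ _ _ => 1)
      (F0 α n n' L (Z η0) (fun ι _ c z => C0 ρ r1 + NX.nuQ (vl l) c ρ a z +
          St (fun s k z => Ξ (s, k) z * lam (s, k) z) ι c z) +
        F0D α n n' L (Z η0) (Zcut (Z η0) (Zd η0) Z' Ξ κr r1 lam)) η0 := by
  have h0 : η0 ∈ Metric.ball η0 r := Metric.mem_ball_self hZ.hr
  have hder := F0D_deriv hZ.hκ hZ.hr hZ.hok hZ.hm (hZ.hmd η0) hZ.hZ hZ.hZd hZ.hd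
  refine hder.congr_deriv ?_
  have hward := F0D_ward hZ.hκ hZ.hok (hZ.hm η0) hZ.hm' (hZ.hZ η0 h0) hZ.hZ' hZ.hd' hF.hΞ hF.hmΞ
    hF.hmΞ' (a := a) hF.ha
  -- bounds
  have hB := hF.hB
  have hD := hZ.hD
  set φ : Stt := fun s k z => r1 (s, k) z + Ξ (s, k) z * (κr (s, k) z + lam (s, k) z) with hφ
  set M := D + B * D + B * D with hM
  have hDM : D ≤ M := by
    have : 0 ≤ B * D := mul_nonneg hB hD
    linarith
  have hBDM : B * D ≤ M := by
    have : 0 ≤ B * D := mul_nonneg hB hD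
    linarith
  have mφ : ∀ s k, Measurable (φ s k) := fun s k =>
    (hF.mr (s, k)).add ((hF.hmΞ (s, k)).mul ((hF.mκ (s, k)).add (hF.ml (s, k))))
  have b1 : AllW α n n' L fun c x => ZBd c x κ M (Zd η0) := fun p p' k k' h1 h2 =>
    ((hZ.hZd η0 h0) p p' k k' h1 h2).mono hDM
  have b2 : AllW α n n' L fun c x => ZBd c x κ M (fun s k z => I * Ξ (s, k) z * Z' s k z) := by
    intro p p' k k' h1 h2 i t
    rw [norm_mul, norm_mul, norm_I, one_mul]
    have e1 := (hF.hΞ p p' k k' h1 h2).b i t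
    have e2 := hZ.hZ' p p' k k' h1 h2 i t
    calc _ ≤ B * (D * Real.exp (-((κ + 2 * (∑ j, sc (co (cl n n' k k' j))) * sc (co (cl n n' k k' i))) * |t|))) :=
          mul_le_mul (by simpa using e1) e2 (norm_nonneg _) hB
      _ = (B * D) * Real.exp (-((κ + 2 * (∑ j, sc (co (cl n n' k k' j))) * sc (co (cl n n' k k' i))) * |t|)) := by ring
      _ ≤ _ := mul_le_mul_of_nonneg_right hBDM (Real.exp_pos _).le
  have b3 : AllW α n n' L fun c x => ZBd c x κ M (fun s k z => φ s k z * Z η0 s k z) := by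
    intro p p' k k' h1 h2 i t
    rw [norm_mul]
    have e1 := hF.bd p p' k k' h1 h2 i t
    have e2 := hZ.hZ η0 h0 p p' k k' h1 h2 i t
    calc _ ≤ B * (D * Real.exp (-((κ + 2 * (∑ j, sc (co (cl n n' k k' j))) * sc (co (cl n n' k k' i))) * |t|))) :=
          mul_le_mul e1 e2 (norm_nonneg _) hB
      _ = (B * D) * Real.exp (-((κ + 2 * (∑ j, sc (co (cl n n' k k' j))) * sc (co (cl n n' k k' i))) * |t|)) := by ring
      _ ≤ _ := mul_le_mul_of_nonneg_right hBDM (Real.exp_pos _).le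
  have hm1 := hZ.hmd η0
  have hm2 : ∀ s k, Measurable (fun z => I * Ξ (s, k) z * Z' s k z) := fun s k =>
    ((hF.hmΞ (s, k)).const_mul I).mul (hZ.hm' s k)
  have hm3 : ∀ s k, Measurable (fun z => φ s k z * Z η0 s k z) := fun s k =>
    (mφ s k).mul (hZ.hm η0 s k)
  have hmc : ∀ s k, Measurable (Zcut (Z η0) (Zd η0) Z' Ξ κr r1 lam s k) := fun s k =>
    ((hm1 s k).add (hm2 s k)).sub (hm3 s k)
  have b4 : AllW α n n' L fun c x => ZBd c x κ (M + M + M) (Zcut (Z η0) (Zd η0) Z' Ξ κr r1 lam) := by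
    intro p p' k k' h1 h2 i t
    have e1 := b1 p p' k k' h1 h2 i t
    have e2 := b2 p p' k k' h1 h2 i t
    have e3 := b3 p p' k k' h1 h2 i t
    unfold Zcut
    refine (norm_sub_le _ _).trans ?_
    refine (add_le_add ((norm_add_le _ _).trans (add_le_add e1 e2)) e3).trans (le_of_eq ?_)
    ring
  have hM0 : 0 ≤ M := hD.trans hDM
  have up : ∀ {W : Stt}, (AllW α n n' L fun c x => ZBd c x κ M W) →
      AllW α n n' L fun c x => ZBd c x κ (M + M + M) W := fun h p p' k k' h1 h2 =>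
    (h p p' k k' h1 h2).mono (by linarith)
  -- the two ways to add
  have s1 := F0D_add hZ.hκ hZ.hok (hZ.hm η0) hm1 hm2 (hZ.hZ η0 h0) b1 b2
  have s2 := F0D_add hZ.hκ hZ.hok (hZ.hm η0) hmc hm3 (hZ.hZ η0 h0) b4 (up b3)
  have s3 : F0D α n n' L (Z η0) (fun s k z => Zd η0 s k z + I * Ξ (s, k) z * Z' s k z) =
      F0D α n n' L (Z η0) (fun s k z => Zcut (Z η0) (Zd η0) Z' Ξ κr r1 lam s k z +
        φ s k z * Z η0 s k z) := by
    refine F0D_congr fun p p' k k' h1 h2 i t => ?_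
    unfold Zcut
    simp only [hφ]
    ring
  have s4 : F0D α n n' L (Z η0) (fun s k z => φ s k z * Z η0 s k z) = F0 α n n' L (Z η0) (St φ) :=
    F0D_mul fun p p' k k' h1 h2 i t => rfl
  -- the functional of the pointwise identity
  have ok1 : F0Ok α n n' L (Z η0) (St φ) := by
    have h := F0_ok hZ.hκ hZ.hok (hZ.hm η0) (hZ.hZ η0 h0)
    have hS : SOk α n n' L φ := ⟨B, hB, fun p p' k k' h1 h2 => ⟨mφ, hF.bd p p' k k' h1 h2⟩⟩
    intro p p' k k' h1 h2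
    have := (h.mul_St hS) p p' k k' h1 h2
    simpa only [one_mul] using this
  have ok2 : F0Ok α n n' L (Z η0)
      (fun ι _ c z => St (fun s k z => I * Ξ' (s, k) z) ι c z + w2 a ι c z) :=
    fun p p' k k' h1 h2 => IzOk_ward hZ.hκ (hZ.hok p p' k k' h1 h2) (hZ.hm η0) (hZ.hZ η0 h0 p p' k k' h1 h2) (hF.hΞ p p' k k' h1 h2)
      hF.hmΞ hF.hmΞ' (hF.ha p p' k k' h1 h2)
  have s5 := F0_add ok1 ok2
  have s6 : F0 α n n' L (Z η0) (fun ι _ c z => St φ ι c z +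
      (St (fun s k z => I * Ξ' (s, k) z) ι c z + w2 a ι c z)) =
      F0 α n n' L (Z η0) (fun ι _ c z => C0 ρ r1 + NX.nuQ (vl l) c ρ a z +
          St (fun s k z => Ξ (s, k) z * lam (s, k) z) ι c z) := by
    unfold F0
    refine Sw_congr fun p p' k k' h1 h2 => ?_
    congr 1
    unfold Iz
    refine integral_congr_ae (Filter.Eventually.of_forall fun t => ?_)
    simp only []
    rw [← I1_point hF k k' h1 h2 t]
  rw [← s6, s5, ← s4]
  linear_combination s2 - s1 + s3 - hward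

end PBI.PLX

end
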