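import Pool.Agent.PLX.Ns
import Pool.Agent.PLX.PB.I1E
import Pool.Agent.PLX.I1Q2
import Pool.Agent.PLX.FBd2
import Pool.Agent.PLX.PB.F0Ln
import Pool.Agent.PB.FieldR

/-!
# Two fillings: the instance `FFam` of the first Ward identity

As `PB/FFam0`, rows `x` on the imaginary axis, `|Im x i| ≤ 1`, the rows of species `a` are
`Fil.n a`-fold; legs `|Re z| ≤ l / 2`; parameters `ParP`; any numbers `n`, `n'` of quanta.

* `DF`: the lines of the words and the line of the sea; `kerH`: the kernel `aK (xiR x i0)`;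
* **`ffam`**: `FFam`.
-/

set_option autoImplicit false
set_option linter.unusedSectionVars false
set_option linter.unusedVariables false

noncomputable section

open Complex MeasureTheory Finset Filter
open scoped Classical
open PLX (Fil)

namespace PBI.PLX

open NUP1 hiding Kd
open NUP1S NUP1.Bd NURow PB PBQ1 PBForce

variable {m : ℕ}

/-- the point of the field -/
theorem pf_fp (b : Kd) (z : ℂ) : PBOb.pf b.2 z = fp b z := by
  obtain ⟨s, k⟩ := b
  cases k with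
  | none =>
    show z + ((PBOb.sh none : ℝ) : ℂ) = z
    rw [PBOb.sh_none, ofReal_zero, add_zero]
  | some k =>
    show z + ((PBOb.sh (some k) : ℝ) : ℂ) = z + 2 * (NUMF.l : ℂ)
    rw [PBOb.sh_some, ofReal_mul, ofReal_ofNat]
    rfl

/-- the lines of the words and the line of the sea -/
def DF (b : Kd) : Set ℂ :=
  {z | (b.2 = none ∧ z.re = NUMF.l) ∨ (NURow.loP b.2 ≤ z.re ∧ z.re ≤ NURow.hiP b.2)}

theorem DF_adm (b : Kd) (z : ℂ) (hz : z ∈ DF b) : Adm b z := by
  have hl := Bd.l_pos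
  have hll : NUP1.l = NUMF.l := rfl
  rcases hz with ⟨h1, h2⟩ | ⟨h1, h2⟩
  · exact Or.inl ⟨h1, h2⟩
  · refine Or.inr ?_
    obtain ⟨s, k⟩ := b
    rcases k with _ | (_ | _ | _)
    · change 3 / 5 * NUP1.l ≤ z.re at h1
      change z.re ≤ 3 / 5 * NUP1.l at h2
      exact ⟨_, HeadOk.A (by linarith) (by linarith)⟩
    · change -(5 / 4) * NUP1.l ≤ z.re at h1
      change z.re ≤ -(5 / 4) * NUP1.l at h2
      exact ⟨_, HeadOk.L (by linarith) (by linarith)⟩
    · change -(11 / 8) * NUP1.l ≤ z.re at h1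
      change z.re ≤ -(5 / 4) * NUP1.l at h2
      exact ⟨_, HeadOk.S (by linarith) (by linarith)⟩
    · change -(1 / 2) * NUP1.l ≤ z.re at h1
      change z.re ≤ -(1 / 2) * NUP1.l at h2
      exact ⟨_, HeadOk.T (by linarith) (by linarith)⟩

theorem DF_Str (b : Kd) (z : ℂ) (hz : z ∈ DF b) : z ∈ PBOb.Str b.2 := by
  have hl := Bd.l_pos
  have hll : NUP1.l = NUMF.l := rfl
  obtain ⟨s, k⟩ := b
  rcases hz with ⟨h1, h2⟩ | h
  · simp only at h1
    subst h1
    show PBOb.lo none ≤ z.re ∧ z.re ≤ PBOb.hi none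
    rw [h2, ← hll]
    simp only [PBOb.lo, PBOb.hi]
    constructor <;> linarith
  · have e : z = vl z.re z.im := by
      unfold vl
      exact (Complex.re_add_im z).symm
    rw [e]
    exact PBOb.mem_Str_P h z.im

theorem kerH (x : Fin m → ℂ) (i0 : Fin m) : KerH x i0 DF
    (fun b z => I * deriv (xiR x i0) (fp b z)) (PBOb.aK (xiR x i0)) where
  eq b c z z' _ _ h := by
    rw [PBOb.aK_eq _ _ _ h, pf_fp, pf_fp]
    rfl
  symm b c z z' _ _ := PBOb.aK_symm _ b c z z'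
  diag b z _ := by
    rw [PBOb.aK_self, pf_fp]
  line s t := Or.inl ⟨rfl, by simp [vl]; rfl⟩
  adm b z hz := DF_adm b z hz

/-- the lines of the words -/
theorem all_DF {P : NUO.Par} (hP : NURow.ParP P) (n n' : ℕ) {p p' : ℕ} (k : Fin p → O3)
    (k' : Fin p' → O3) (i : (Fin (nA n k) ⊕ Fin p) ⊕ (Fin (nA n' k') ⊕ Fin p')) (t : ℝ) :
    vl ((fl P).all (3 / 5 * NUP1.l) n n' k k' i) t ∈ DF (PBI.cl n n' k k' i) := by
  have hl := Bd.l_pos
  have hre : ∀ y : ℝ, (vl y t).re = y := fun y => by simp [vl]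
  have key : ∀ (s : Bool) (k : O3) (x : ℝ), x ∈ Set.Icc (NURow.loP (some k)) (NURow.hiP (some k)) →
      vl x t ∈ DF (s, some k) := by
    rintro s k x ⟨a, b⟩
    refine Or.inr ?_
    rw [hre]
    exact ⟨a, b⟩
  have hA : ∀ s : Bool, vl (3 / 5 * NUP1.l) t ∈ DF (s, none) := by
    intro s
    refine Or.inr ?_
    rw [hre]
    exact ⟨le_rfl, le_rfl⟩
  rcases i with (i | i) | (i | i)
  · exact hA true
  · exact key true (k i) _ ((NURow.lnA_P hP).hX p p' k k' i)
  · exact hA false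
  · exact key false (k' i) _ ((NURow.lnA_P hP).hY p p' k k' i)

/-- the field at the points of the kinds -/
theorem fp_re {b : Kd} {z : ℂ} (hz : z ∈ PBOb.Str b.2) : |(fp b z - NUMF.l).re| ≤ 3 / 5 * NUMF.l := by
  have hl := Bd.l_pos
  have hll : NUP1.l = NUMF.l := rfl
  have h := PBOb.pf_mem hz
  rw [pf_fp] at h
  obtain ⟨h1, h2⟩ := h
  have e : (fp b z - NUMF.l).re = (fp b z).re - NUMF.l := by
    rw [sub_re, ofReal_re]
  rw [e, abs_le, ← hll]
  constructor <;> linarith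

variable [Fil]

theorem measurable_krK2 (x : Fin m → ℂ) (b : K4) : Measurable (krK2 x b) := measurable_krA _ _ _ x

theorem measurable_r1K2 (x : Fin m → ℂ) (i0 : Fin m) (b : K4) : Measurable (r1K2 x i0 b) :=
  measurable_r1A _ _ _ x i0

/-- the total multiplicity -/
theorem norm_mult (s : Bool) : ‖((Fil.b s : ℝ) : ℂ)‖ + ‖((Fil.b (!s) : ℝ) : ℂ)‖ ≤ 2 * (Fil.q : ℝ) := by
  rw [Complex.norm_real, Complex.norm_real, Real.norm_of_nonneg (Fil.b_nonneg _),
    Real.norm_of_nonneg (Fil.b_nonneg _)]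
  linarith [Fil.b_le s, Fil.b_le (!s)]

/-- **the instance** -/
theorem ffam {P : NUO.Par} (hP : NURow.ParP P) {x : Fin m → ℂ} (hx : Rws0 x) (i0 : Fin m) {z : ℂ}
    (hz : |z.re| ≤ NUMF.l / 2) (n n' : ℕ) : ∃ B, FFam (3 / 5 * NUP1.l) n n' (fl P) B (xiK x i0)
      (fun b w => deriv (xiR x i0) (fp b w)) (PBOb.aK (xiR x i0)) (rhK2 x) (krK2 x) (r1K2 x i0)
      (lamK z) := by
  have hl := Bd.l_pos
  have hll : NUP1.l = NUMF.l := rfl
  have hx0 : ∀ i, (x i).re = 0 := fun i => hx.re i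
  have H := kerH x i0
  obtain ⟨C1, hC1, h1⟩ := xiR_le (b := 3 / 5 * NUMF.l) (by rw [← hll]; positivity)
    (by rw [← hll]; linarith)
  obtain ⟨C2, hC2, h2⟩ := xiR_deriv (b := 3 / 5 * NUMF.l) (by rw [← hll]; positivity)
    (by rw [← hll]; linarith)
  obtain ⟨C3', hC3', h3'⟩ := krA_bd
  set C3 : ℝ := 2 * (Fil.q : ℝ) * C3' with hC3e
  have hq0 : (0 : ℝ) ≤ 2 * (Fil.q : ℝ) := by positivity
  have hC3 : 0 ≤ C3 := mul_nonneg hq0 hC3'
  have h3 : ∀ (b : K4) (w : ℂ), w ∈ PBOb.Str b.2 → ‖krK2 x b w‖ ≤ m * C3 ∧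
      ‖r1K2 x i0 b w‖ ≤ C3 := by
    intro b w hw
    obtain ⟨r1, r2⟩ := h3' (Fil.b b.1 : ℝ) (Fil.b (!b.1) : ℝ) m x hx0 b.2 w hw
    have r3 := mul_le_mul_of_nonneg_right (norm_mult b.1) hC3'
    exact ⟨r1.trans (mul_le_mul_of_nonneg_left r3 (Nat.cast_nonneg _)), (r2 i0).trans r3⟩
  obtain ⟨C4, hC4, h4⟩ := leg_bd
  have hm : (0 : ℝ) < m := by exact_mod_cast i0.pos
  have b1 : ∀ (b : Kd) (w : ℂ), w ∈ PBOb.Str b.2 → ‖xiK x i0 b w‖ ≤ C1 / m := fun b w hw =>
    h1 m x i0 hx _ (fp_re hw)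
  have b2 : ∀ (b : Kd) (w : ℂ), w ∈ PBOb.Str b.2 → ‖deriv (xiR x i0) (fp b w)‖ ≤ C2 / m := by
    intro b w hw
    refine (h2 m x i0 hx _ (fp_re hw)).trans ?_
    refine mul_le_of_le_one_right (by positivity) ?_
    exact Real.exp_le_one_iff.2 (by have := abs_nonneg (fp b w).im; linarith)
  refine ⟨C1 / m + C2 / m + (C3 + C1 / m * (m * C3 + C4)), ?_⟩
  have n1 : 0 ≤ C1 / m := by positivity
  have n2 : 0 ≤ C2 / m := by positivity
  have n3 : 0 ≤ C1 / m * (m * C3 + C4) := by positivity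
  have hS : ∀ {p p' : ℕ} (k : Fin p → O3) (k' : Fin p' → O3)
      (i : (Fin (nA n k) ⊕ Fin p) ⊕ (Fin (nA n' k') ⊕ Fin p')) (t : ℝ),
      vl ((fl P).all (3 / 5 * NUP1.l) n n' k k' i) t ∈ PBOb.Str (PBI.cl n n' k k' i).2 :=
    fun k k' i t => DF_Str _ _ (all_DF hP n n' k k' i t)
  refine
    { hB := by positivity
      hΞ := fun p p' k k' _ _ => ⟨fun i t => ?_, fun i t => ?_, fun i t => ?_⟩
      hmΞ := fun b => measurable_xiK x i0 b
      hmΞ' := fun b => ?_
      ha := fun p p' k k' _ _ i j s t _ hst => ?_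
      has := fun b c z w => PBOb.aK_symm _ b c z w
      had := fun p p' k k' _ _ i t => ?_
      hI1 := hI12 i0 hx0
      hI2 := hI22 H hx0
      hE := hE2 H hx0
      hC := fun b s => ?_
      hCv := fun p p' k k' _ _ i t => ?_
      mκ := measurable_krK2 x
      mr := measurable_r1K2 x i0
      ml := measurable_lamK z
      bd := fun p p' k k' _ _ i t => ?_ }
  · have hd : DifferentiableAt ℂ (xiR x i0) (fp (cl n n' k k' i) (vl ((fl P).all (3 / 5 * NUP1.l) n n' k k' i) t)) :=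
      xiR_diff0 hx i0 (lt_of_le_of_lt (fp_re (hS k k' i t)) (by rw [← hll]; linarith))
    have hf : HasDerivAt (fp (cl n n' k k' i)) 1 (vl ((fl P).all (3 / 5 * NUP1.l) n n' k k' i) t) := by
      rcases cl n n' k k' i with ⟨s, _ | o⟩
      · exact hasDerivAt_id _
      · exact (hasDerivAt_id _).add_const _
    have := hd.hasDerivAt.comp _ hf
    rw [mul_one] at this
    exact this
  · exact (b1 _ _ (hS k k' i t)).trans (by linarith)
  · exact (b2 _ _ (hS k k' i t)).trans (by linarith)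
  · refine (measurable_deriv _).comp ?_
    obtain ⟨s, _ | o⟩ := b
    · exact measurable_id
    · exact measurable_id.add_const _
  · have him : (vl ((fl P).all (3 / 5 * NUP1.l) n n' k k' i) s).im ≠
        (vl ((fl P).all (3 / 5 * NUP1.l) n n' k k' j) t).im := by
      simpa [vl] using hst
    rw [PBOb.aK_eq _ _ _ him, pf_fp, pf_fp]
    rfl
  · rw [PBOb.aK_self, pf_fp]
  · obtain ⟨σ, _ | o⟩ := b
    · rw [(conv_K2 H hx0 (H.line σ s)).2, mul_zero]
    · rw [rhK2_some, zero_mul]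
  · exact (conv_K2 H hx0 (all_DF hP n n' k k' i t)).2
  · have hs := hS k k' i t
    obtain ⟨r1, r2⟩ := h3 _ _ hs
    have r4 := h4 z hz _ _ hs
    have r5 := b1 _ _ hs
    refine (norm_add_le _ _).trans ?_
    rw [norm_mul]
    have r6 : ‖krK2 x (cl n n' k k' i) (vl ((fl P).all (3 / 5 * NUP1.l) n n' k k' i) t) +
        lamK z (cl n n' k k' i) (vl ((fl P).all (3 / 5 * NUP1.l) n n' k k' i) t)‖ ≤ m * C3 + C4 :=
      (norm_add_le _ _).trans (add_le_add r1 r4)
    have r7 := mul_le_mul r5 r6 (norm_nonneg _) n1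
    linarith

end PBI.PLX

end
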