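import Pool.Agent.PLX.PB.I1E
import Pool.Agent.PB.I1A

/-!
# Two fillings: the first Ward identity of the normalised state sum, exact form (helper70)

As `PB/I1A`: `f η = Pf η * ∑ i ∈ S, F0 (Z η) (u i) (v i) [1]`, one family of one body functions, sum over a finite family of
pairs of numbers of quanta of the two species.
**`I1A`**: `f' = Pf * ∑ i ∈ S, (F0 [nuQ a + nuL (Ξ lam)] + F0D Zc)`.
-/

set_option autoImplicit false
set_option linter.unusedSectionVars false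
set_option linter.unusedVariables false

noncomputable section

open Complex MeasureTheory Finset
open scoped Classical

namespace PBI.PLX

open NUP1 NUP1S NUP1.Bd NURow PB

variable {α : ℝ} {n n' : ℕ} {L : Lns} {κ D B r η0 : ℝ} {Z Zd : ℝ → Stt} {Z' : Stt}
  {Ξ Ξ' : Kd → ℂ → ℂ} {a : Kd → Kd → ℂ → ℂ → ℂ} {ρ : Kd → ℝ → ℂ} {κr r1 lam : Kd → ℂ → ℂ}

/-- a constant is an admissible insertion -/
theorem F0Ok.const (h : F0Ok α n n' L (Z η0) fun _ _ _ _ => 1) (c : ℂ) :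
    F0Ok α n n' L (Z η0) fun _ _ _ _ => c := by
  have := h.smul c
  simpa only [mul_one] using this

/-- the insertion of the first Ward identity is admissible -/
theorem I1_ok (hZ : ZFam α n n' L κ D r η0 Z Zd Z') (hF : FFam α n n' L B Ξ Ξ' a ρ κr r1 lam) :
    F0Ok α n n' L (Z η0) (fun ι _ c z => C0 ρ r1 + NX.nuQ (vl l) c ρ a z +
      St (fun s k z => Ξ (s, k) z * lam (s, k) z) ι c z) := by
  have h0 : η0 ∈ Metric.ball η0 r := Metric.mem_ball_self hZ.hr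
  have hB := hF.hB
  set φ : Stt := fun s k z => r1 (s, k) z + Ξ (s, k) z * (κr (s, k) z + lam (s, k) z) with hφ
  have mφ : ∀ s k, Measurable (φ s k) := fun s k =>
    (hF.mr (s, k)).add ((hF.hmΞ (s, k)).mul ((hF.mκ (s, k)).add (hF.ml (s, k))))
  have ok1 : F0Ok α n n' L (Z η0) (St φ) := by
    have h := F0_ok hZ.hκ hZ.hok (hZ.hm η0) (hZ.hZ η0 h0)
    have hS : SOk α n n' L φ := ⟨B, hB, fun p p' k k' h1 h2 => ⟨mφ, hF.bd p p' k k' h1 h2⟩⟩
    intro p p' k k' h1 h2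
    have := (h.mul_St hS) p p' k k' h1 h2
    simpa only [one_mul] using this
  have ok2 : F0Ok α n n' L (Z η0)
      (fun ι _ c z => St (fun s k z => I * Ξ' (s, k) z) ι c z + w2 a ι c z) :=
    fun p p' k k' h1 h2 => IzOk_ward hZ.hκ (hZ.hok p p' k k' h1 h2) (hZ.hm η0) (hZ.hZ η0 h0 p p' k k' h1 h2) (hF.hΞ p p' k k' h1 h2)
      hF.hmΞ hF.hmΞ' (hF.ha p p' k k' h1 h2)
  have ok3 := ok1.add ok2
  intro p p' k k' h1 h2
  have h3 := ok3 p p' k k' h1 h2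
  unfold IzOk at h3 ⊢
  refine h3.congr (Filter.Eventually.of_forall fun t => ?_)
  have := I1_point hF k k' h1 h2 t
  simp only []
  rw [← this]

/-- the centred insertion is admissible -/
theorem nuW_ok (hZ : ZFam α n n' L κ D r η0 Z Zd Z') (hF : FFam α n n' L B Ξ Ξ' a ρ κr r1 lam) :
    F0Ok α n n' L (Z η0) (nuW ρ a Ξ lam) := by
  have h0 : η0 ∈ Metric.ball η0 r := Metric.mem_ball_self hZ.hr
  have hone := F0_ok hZ.hκ hZ.hok (hZ.hm η0) (hZ.hZ η0 h0)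
  have h := (I1_ok hZ hF).add (hone.smul (-(C0 ρ r1 + C1 ρ Ξ lam)))
  intro p p' k k' h1 h2
  have h3 := h p p' k k' h1 h2
  unfold IzOk at h3 ⊢
  refine h3.congr (Filter.Eventually.of_forall fun t => ?_)
  simp only []
  rw [nuW_eq]
  ring

theorem F0_nuW (hZ : ZFam α n n' L κ D r η0 Z Zd Z') (hF : FFam α n n' L B Ξ Ξ' a ρ κr r1 lam) :
    F0 α n n' L (Z η0) (fun ι _ c z => C0 ρ r1 + NX.nuQ (vl l) c ρ a z +
      St (fun s k z => Ξ (s, k) z * lam (s, k) z) ι c z) =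
    F0 α n n' L (Z η0) (nuW ρ a Ξ lam) +
      (C0 ρ r1 + C1 ρ Ξ lam) * F0 α n n' L (Z η0) fun _ _ _ _ => 1 := by
  have h0 : η0 ∈ Metric.ball η0 r := Metric.mem_ball_self hZ.hr
  have hone := F0_ok hZ.hκ hZ.hok (hZ.hm η0) (hZ.hZ η0 h0)
  rw [← F0_smul, ← F0_add (nuW_ok hZ hF) (hone.smul (C0 ρ r1 + C1 ρ Ξ lam))]
  congr 1
  funext ι _ c z
  exact nuW_eq ι c z

/-- **The first Ward identity of the normalised state sum**, any finite family of pairs `(u i, v i)` of numbers of quanta. -/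
theorem I1A {σ : Type*} {S : Finset σ} {u v : σ → ℕ} {Pf : ℝ → ℂ} {Pf' : ℂ}
    (hZ : ∀ n ∈ S, ZFam α (u n) (v n) L κ D r η0 Z Zd Z') (hF : ∀ n ∈ S, FFam α (u n) (v n) L B Ξ Ξ' a ρ κr r1 lam)
    (hP : HasDerivAt Pf Pf' η0) (hN : Pf' + Pf η0 * (C0 ρ r1 + C1 ρ Ξ lam) = 0) :
    HasDerivAt (fun η => Pf η * ∑ n ∈ S, F0 α (u n) (v n) L (Z η) fun _ _ _ _ => 1)
      (Pf η0 * ∑ n ∈ S, (F0 α (u n) (v n) L (Z η0) (nuW ρ a Ξ lam) +
        F0D α (u n) (v n) L (Z η0) (Zcut (Z η0) (Zd η0) Z' Ξ κr r1 lam))) η0 := by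
  have h := hP.mul (HasDerivAt.fun_sum fun n hn => I1E (hZ n hn) (hF n hn))
  refine h.congr_deriv ?_
  have e : ∑ n ∈ S, (F0 α (u n) (v n) L (Z η0) (fun ι _ c z => C0 ρ r1 + NX.nuQ (vl l) c ρ a z +
      St (fun s k z => Ξ (s, k) z * lam (s, k) z) ι c z) +
      F0D α (u n) (v n) L (Z η0) (Zcut (Z η0) (Zd η0) Z' Ξ κr r1 lam)) =
      ∑ n ∈ S, (F0 α (u n) (v n) L (Z η0) (nuW ρ a Ξ lam) +
        F0D α (u n) (v n) L (Z η0) (Zcut (Z η0) (Zd η0) Z' Ξ κr r1 lam)) +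
      (C0 ρ r1 + C1 ρ Ξ lam) * ∑ n ∈ S, F0 α (u n) (v n) L (Z η0) fun _ _ _ _ => 1 := by
    rw [Finset.mul_sum, ← Finset.sum_add_distrib]
    refine Finset.sum_congr rfl fun n hn => ?_
    rw [F0_nuW (hZ n hn) (hF n hn)]
    ring
  rw [e]
  linear_combination (∑ n ∈ S, F0 α (u n) (v n) L (Z η0) fun _ _ _ _ => 1) * hN

end PBI.PLX

end
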