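import Pool.Agent.PLX.PB.Far3
import Pool.Agent.PLX.ExU
import Pool.Agent.PLX.Yq

/-!
# Plan B: the cut term of the first Ward identity, product forms (port PLX of ZcD)

`ZcX c y z q b a x v ξe X s1 s2`: own rows `y`, rows of the other group `z`, cutoff of the list
`x ^ q, 0 ^ a` and the points `± i` (velocity of `x`: `v`, field at the far ends `ξe`), field `X` at the
heads (`u` for the quanta, `u + 2 l` for objects), spectators `s1` (one factor), `s2` (two factors).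
-/

set_option autoImplicit false
set_option linter.unusedVariables false

noncomputable section

open Complex

namespace PBC.PLX

open NUP1 NUP1S NURow
open PBFar.PLX (DW DR DT)
open Pool.Agent.PLX (RRU)

variable {m M : ℕ}

/-- **the cut term in product form** -/
def ZcX (c : ℂ) (y : Fin m → ℂ) (z : Fin M → ℂ) (q : ℕ) (b : ℝ) (a : ℕ) (x v : ℂ) (ξe : ℝ → ℂ)
    (X s1 s2 : ℂ → ℂ) : Option O3 → ℂ → ℂ
  | none, u => RRU c y z u * DW q b a x v ξe (X u) u * s1 u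
  | some .L, u => RRU c y z u * DW q b a x v ξe (X (u + 2 * l)) u * s1 u
  | some .S, w => RRU c y z w * RRU c y z (w - l) * DR q (4 / 3) a x v (X (w + 2 * l)) w * s2 w
  | some .T, w => RRU c y z w * RRU c y z (w - l) * DT q b a x v ξe (X (w + 2 * l)) w * s2 w

theorem ZcX_none (c : ℂ) (y : Fin m → ℂ) (z : Fin M → ℂ) (q : ℕ) (b : ℝ) (a : ℕ) (x v : ℂ)
    (ξe : ℝ → ℂ) (X s1 s2 : ℂ → ℂ) (u : ℂ) :
    ZcX c y z q b a x v ξe X s1 s2 none u = RRU c y z u * DW q b a x v ξe (X u) u * s1 u := rfl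

theorem ZcX_L (c : ℂ) (y : Fin m → ℂ) (z : Fin M → ℂ) (q : ℕ) (b : ℝ) (a : ℕ) (x v : ℂ)
    (ξe : ℝ → ℂ) (X s1 s2 : ℂ → ℂ) (u : ℂ) : ZcX c y z q b a x v ξe X s1 s2 (some .L) u =
      RRU c y z u * DW q b a x v ξe (X (u + 2 * l)) u * s1 u := rfl

theorem ZcX_S (c : ℂ) (y : Fin m → ℂ) (z : Fin M → ℂ) (q : ℕ) (b : ℝ) (a : ℕ) (x v : ℂ)
    (ξe : ℝ → ℂ) (X s1 s2 : ℂ → ℂ) (w : ℂ) : ZcX c y z q b a x v ξe X s1 s2 (some .S) w =
      RRU c y z w * RRU c y z (w - l) * DR q (4 / 3) a x v (X (w + 2 * l)) w * s2 w := rfl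

theorem ZcX_T (c : ℂ) (y : Fin m → ℂ) (z : Fin M → ℂ) (q : ℕ) (b : ℝ) (a : ℕ) (x v : ℂ)
    (ξe : ℝ → ℂ) (X s1 s2 : ℂ → ℂ) (w : ℂ) : ZcX c y z q b a x v ξe X s1 s2 (some .T) w =
      RRU c y z w * RRU c y z (w - l) * DT q b a x v ξe (X (w + 2 * l)) w * s2 w := rfl

end PBC.PLX

end
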