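import Pool.Agent.PLX.Ns
import Pool.Agent.PLX.PB.ZFamA
import Pool.Agent.PLX.PB.I1E
import Pool.Agent.PLX.PB.ZcD
import Pool.Agent.PLX.NUGC.OneXH
import Pool.Agent.PB.ZFamR

/-!
# The leg functions at rows `i η`, `0 ^ a` with moving cutoff points: `ZFam`, two fillings (port PLX)

Every row of species Y is a `q`-fold row; velocities `v s` of the two extra points of species `s`.

* `ZR` : the family (real parameter), `ZdR` : derivative in `η`, `ZpR` : derivative in the position;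
* `rte b a s k`: the rate `-(2 b) + 2 xn (a + 1) sc (s, ob4 k)`;
* **`exists_zfam`** : `ZFam` on all admissible lines, `n' = n + xn (a + 1)`, constant independent of the
  lines; **`zcut_eq`** : `Zcut` is `ZcX` (row factor × derivative of the cutoff along the path × leg)
  on the inner strips.
-/

set_option autoImplicit false
set_option linter.unusedSectionVars false
set_option linter.unusedVariables false

noncomputable section

open Complex MeasureTheory Filter Topology Finset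
open PLX (Fil)

namespace PBZF.PLX

open NUP1 NUP1.Bd NURow PB
open NUP1S hiding R0
open PBX (ph gP Lg)
open PBFar (cutT)
open PBForce (rowB krA r1A RRB)
open PBI PBI.PLX
open Pool.Agent.PLX (XXU rwq)

variable [Fil] {c : Bool → ℂ} {b : ℝ} {a : ℕ} {z0 : ℂ} {η0 : ℝ} {v : Bool → Fin 2 → ℂ}

/-- the family of the one body functions -/
def ZR (c : Bool → ℂ) (b : ℝ) (a : ℕ) (z0 : ℂ) (η0 : ℝ) (v : Bool → Fin 2 → ℂ) (η : ℝ) : Stt :=
  fun s k u => ZX c b a z0 η0 v (η : ℂ) s k u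

open scoped Classical in
/-- derivative in the height of the row -/
def ZdR (c : Bool → ℂ) (b : ℝ) (a : ℕ) (z0 : ℂ) (η0 : ℝ) (v : Bool → Fin 2 → ℂ) (η : ℝ) : Stt :=
  fun s k u => if η ∈ Metric.ball η0 (rad v / 2) ∧ u.re ∈ KO k then
    deriv (fun θ : ℂ => ZP c b a z0 η0 v θ s k u) (η : ℂ) else 0

open scoped Classical in
/-- derivative in the position -/
def ZpR (c : Bool → ℂ) (b : ℝ) (a : ℕ) (z0 : ℂ) (η0 : ℝ) (v : Bool → Fin 2 → ℂ) : Stt :=
  fun s k u => if u.re ∈ KI k then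
    deriv (fun u : ℂ => ZP c b a z0 η0 v (η0 : ℂ) s k u) u else 0

/-! ## the parameter -/

theorem mem_SB {η : ℝ} (h : η ∈ Metric.ball η0 (rad v / 2)) {θ : ℂ}
    (hθ : ‖θ - η‖ ≤ rad v / 2) : θ ∈ SB η0 v := by
  rw [Metric.mem_ball, Real.dist_eq] at h
  rw [SB, mem_closedBall_iff_norm]
  have e : ‖((η : ℂ) - η0)‖ = |η - η0| := by
    rw [← ofReal_sub, Complex.norm_real, Real.norm_eq_abs]
  have := norm_add_le (θ - η) ((η : ℂ) - η0)
  rw [sub_add_sub_cancel, e] at this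
  linarith

theorem mem_SB' {η : ℝ} (h : η ∈ Metric.ball η0 (rad v / 2)) : (η : ℂ) ∈ SB η0 v := by
  have := rad_pos v
  exact mem_SB h (by rw [sub_self, norm_zero]; positivity)

theorem mem_SB0 : (η0 : ℂ) ∈ SB η0 v := by
  have := rad_pos v
  exact mem_SB' (Metric.mem_ball_self (by positivity))

theorem ZR_eq (hb : 0 < b) (hb' : b ≤ 4 / 3) (η : ℝ) (s : Bool) {k : Option O3} {u : ℂ}
    (hu : u.re ∈ KO k) : ZR c b a z0 η0 v η s k u = ZP c b a z0 η0 v (η : ℂ) s k u :=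
  ZX_eq hb hb' (real_Th η) s hu

/-! ## the derivatives -/

/-- the section in `θ` -/
theorem diff_th (hb : 0 < b) (hb' : b ≤ 4 / 3) (hz : Lz z0) {θ : ℂ} (hθ : θ ∈ SB η0 v) (s : Bool)
    {k : Option O3} {u : ℂ} (hu : u.re ∈ KO k) :
    DifferentiableAt ℂ (fun θ : ℂ => ZP c b a z0 η0 v θ s k u) θ := by
  have h := diff_ZP (c := c) (a := a) hb hb' hz (SB_box hθ).1 s hu
  exact DifferentiableAt.comp (f := fun θ : ℂ => (θ, u)) θ h (by fun_prop)

/-- the section in `u` -/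
theorem diff_u (hb : 0 < b) (hb' : b ≤ 4 / 3) (hz : Lz z0) {θ : ℂ} (hθ : θ ∈ SB η0 v) (s : Bool)
    {k : Option O3} {u : ℂ} (hu : u.re ∈ KO k) :
    DifferentiableAt ℂ (fun u : ℂ => ZP c b a z0 η0 v θ s k u) u := by
  have h := diff_ZP (c := c) (a := a) hb hb' hz (SB_box hθ).1 s hu
  exact DifferentiableAt.comp (f := fun u : ℂ => (θ, u)) u h (by fun_prop)

theorem hasDeriv_eta (hb : 0 < b) (hb' : b ≤ 4 / 3) (hz : Lz z0) {η : ℝ}
    (h : η ∈ Metric.ball η0 (rad v / 2)) (s : Bool) {k : Option O3} {u : ℂ} (hu : u.re ∈ KO k) :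
    HasDerivAt (fun η : ℝ => ZR c b a z0 η0 v η s k u) (ZdR c b a z0 η0 v η s k u) η := by
  have h1 := (diff_th (c := c) (a := a) hb hb' hz (mem_SB' h) s hu).hasDerivAt.comp_ofReal
  have e : (fun η : ℝ => ZR c b a z0 η0 v η s k u) =
      fun η : ℝ => ZP c b a z0 η0 v (η : ℂ) s k u := funext fun η => ZR_eq hb hb' η s hu
  rw [e]
  unfold ZdR
  rw [if_pos ⟨h, hu⟩]
  exact h1

theorem hasDeriv_pos (hb : 0 < b) (hb' : b ≤ 4 / 3) (hz : Lz z0) (s : Bool) {k : Option O3}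
    {u : ℂ} (hu : u.re ∈ KI k) :
    HasDerivAt (ZR c b a z0 η0 v η0 s k) (ZpR c b a z0 η0 v s k u) u := by
  have h1 := (diff_u (c := c) (a := a) hb hb' hz (mem_SB0 (η0 := η0) (v := v)) s (KI_sub hu)).hasDerivAt
  unfold ZpR
  rw [if_pos hu]
  refine h1.congr_of_eventuallyEq ?_
  filter_upwards [KI_nhd hu] with w hw
  exact ZR_eq hb hb' η0 s hw

/-! ## measurability -/

theorem meas_ZR (η : ℝ) (s : Bool) (k : Option O3) : Measurable (ZR c b a z0 η0 v η s k) := by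
  unfold ZR ZX
  exact Pool.Agent.PLX.measurable_XXU (PBX.measurable_gP _ _) measurable_const (PBX.Lg_meas _ _)
    ((PBX.Lg_meas _ _).mul ((PBX.Lg_meas _ _).comp (measurable_id.sub_const _))) k

theorem meas_ZpR (s : Bool) (k : Option O3) : Measurable (ZpR c b a z0 η0 v s k) := by
  unfold ZpR
  exact Measurable.ite (meas_KI k) (measurable_deriv _) measurable_const

theorem meas_ZdR (hb : 0 < b) (hb' : b ≤ 4 / 3) (hz : Lz z0) (η : ℝ) (s : Bool)
    (k : Option O3) : Measurable (ZdR c b a z0 η0 v η s k) := by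
  classical
  by_cases h : η ∈ Metric.ball η0 (rad v / 2)
  · set F : ℕ → ℂ → ℂ := fun j u => if u.re ∈ KO k then
      ((j : ℝ) + 1 : ℝ) • (ZR c b a z0 η0 v (η + ((j : ℝ) + 1)⁻¹) s k u -
        ZR c b a z0 η0 v η s k u) else 0 with hF
    have hm : ∀ j, Measurable (F j) := fun j =>
      Measurable.ite (meas_KO k) ((((meas_ZR (η + ((j : ℝ) + 1)⁻¹) s k).sub
        (meas_ZR η s k)).const_smul ((j : ℝ) + 1 : ℝ))) measurable_const
    refine measurable_of_tendsto_metrizable hm ?_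
    rw [tendsto_pi_nhds]
    intro u
    by_cases hu : u.re ∈ KO k
    · have hd := hasDeriv_eta (c := c) (a := a) hb hb' hz h s hu
      have h2 := hd.tendsto_slope_zero
      have h3 : Tendsto (fun j : ℕ => ((j : ℝ) + 1)⁻¹) atTop (𝓝[≠] 0) := by
        refine tendsto_nhdsWithin_iff.2 ⟨?_, Eventually.of_forall fun j => ?_⟩
        · have := tendsto_one_div_add_atTop_nhds_zero_nat (𝕜 := ℝ)
          simpa only [one_div] using this
        · have : (0 : ℝ) < (j : ℝ) + 1 := by positivity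
          exact inv_ne_zero this.ne'
      have h4 := h2.comp h3
      refine h4.congr fun j => ?_
      simp only [Function.comp_apply, hF, if_pos hu, inv_inv]
    · have e1 : ZdR c b a z0 η0 v η s k u = 0 := by
        unfold ZdR
        rw [if_neg fun hc => hu hc.2]
      rw [e1]
      refine tendsto_const_nhds.congr fun j => ?_
      simp only [hF, if_neg hu]
  · have : ZdR c b a z0 η0 v η s k = fun _ => 0 := by
      funext u
      unfold ZdR
      rw [if_neg fun hc => h hc.1]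
    rw [this]
    exact measurable_const

/-! ## bounds -/

/-- the rate of a kind, with the charge of the rows -/
def rte (b : ℝ) (a : ℕ) (s : Bool) (k : Option O3) : ℝ :=
  -(2 * b) + 2 * (Fil.xn (a + 1) : ℝ) * sc (s, ob4 k)

/-- one constant for all kinds and species -/
theorem exists_bd (c : Bool → ℂ) (a : ℕ) (η0 : ℝ) (v : Bool → Fin 2 → ℂ) (hb : 0 < b) (hb' : b ≤ 4 / 3)
    (hz : Lz z0) : ∃ C : ℝ, 0 ≤ C ∧ ∀ θ ∈ SB η0 v,
    ∀ (s : Bool) (k : Option O3) (u : ℂ), u.re ∈ KO k →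
    ‖ZP c b a z0 η0 v θ s k u‖ ≤ C * Real.exp (rte b a s k * |u.im|) := by
  have h : ∀ p : Bool × Option O3, ∃ C : ℝ, 0 ≤ C ∧ ∀ θ ∈ SB η0 v, ∀ u : ℂ, u.re ∈ KO p.2 →
      ‖ZP c b a z0 η0 v θ p.1 p.2 u‖ ≤ C * Real.exp (rte b a p.1 p.2 * |u.im|) := fun p =>
    ub_ZP (c := c) (a := a) hb hb' hz p.1 p.2
  choose C hC H using h
  refine ⟨∑ p, C p, Finset.sum_nonneg fun p _ => hC p, fun θ hθ s k u hu => ?_⟩
  exact (H (s, k) θ hθ u hu).trans (mul_le_mul_of_nonneg_right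
    (Finset.single_le_sum (f := C) (fun p _ => hC p) (Finset.mem_univ (s, k))) (Real.exp_pos _).le)

/-- bound of the product form -/
def BdP (c : Bool → ℂ) (b : ℝ) (a : ℕ) (z0 : ℂ) (η0 : ℝ) (v : Bool → Fin 2 → ℂ) (C : ℝ) : Prop :=
  ∀ θ ∈ SB η0 v, ∀ (s : Bool) (k : Option O3) (u : ℂ), u.re ∈ KO k →
    ‖ZP c b a z0 η0 v θ s k u‖ ≤ C * Real.exp (rte b a s k * |u.im|)

theorem bd_ZR (hb : 0 < b) (hb' : b ≤ 4 / 3) {C : ℝ} (h : BdP c b a z0 η0 v C) {η : ℝ}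
    (hη : η ∈ Metric.ball η0 (rad v / 2)) (s : Bool) {k : Option O3} {u : ℂ} (hu : u.re ∈ KO k) :
    ‖ZR c b a z0 η0 v η s k u‖ ≤ C * Real.exp (rte b a s k * |u.im|) := by
  rw [ZR_eq hb hb' η s hu]
  exact h _ (mem_SB' hη) s k u hu

theorem bd_ZdR (hb : 0 < b) (hb' : b ≤ 4 / 3) (hz : Lz z0) {C : ℝ} (h : BdP c b a z0 η0 v C) {η : ℝ}
    (hη : η ∈ Metric.ball η0 (rad v / 2)) (s : Bool) {k : Option O3} {u : ℂ} (hu : u.re ∈ KO k) :
    ‖ZdR c b a z0 η0 v η s k u‖ ≤ 2 / rad v * C * Real.exp (rte b a s k * |u.im|) := by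
  have hr := rad_pos v
  have hr2 : 0 < rad v / 2 := by positivity
  unfold ZdR
  rw [if_pos ⟨hη, hu⟩]
  have hin : ∀ θ ∈ Metric.closedBall (η : ℂ) (rad v / 2), θ ∈ SB η0 v := fun θ hθ =>
    mem_SB hη (by rwa [mem_closedBall_iff_norm] at hθ)
  have hd : DiffContOnCl ℂ (fun θ : ℂ => ZP c b a z0 η0 v θ s k u)
      (Metric.ball (η : ℂ) (rad v / 2)) := by
    refine DifferentiableOn.diffContOnCl ?_
    rw [closure_ball _ hr2.ne']
    exact fun θ hθ => (diff_th hb hb' hz (hin θ hθ) s hu).differentiableWithinAt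
  have := Complex.norm_deriv_le_of_forall_mem_sphere_norm_le hr2 hd
    (C := C * Real.exp (rte b a s k * |u.im|)) fun θ hθ =>
      h θ (hin θ (Metric.sphere_subset_closedBall hθ)) s k u hu
  refine this.trans (le_of_eq ?_)
  field_simp

theorem bd_ZpR (hb : 0 < b) (hb' : b ≤ 4 / 3) (hz : Lz z0) {C : ℝ} (hC : 0 ≤ C)
    (h : BdP c b a z0 η0 v C) (s : Bool) {k : Option O3} {u : ℂ} (hu : u.re ∈ KI k) :
    ‖ZpR c b a z0 η0 v s k u‖ ≤
      20 / l * Real.exp (|rte b a s k| * (l / 20)) * C * Real.exp (rte b a s k * |u.im|) := by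
  have hl := Bd.l_pos
  have hr2 : 0 < l / 20 := by positivity
  unfold ZpR
  rw [if_pos hu]
  have hin : ∀ w ∈ Metric.closedBall u (l / 20), w.re ∈ KO k := fun w hw => by
    rw [mem_closedBall_iff_norm] at hw
    refine KI_ball hu ?_
    rw [← sub_re]
    exact (abs_re_le_norm _).trans hw
  have hd : DiffContOnCl ℂ (fun u : ℂ => ZP c b a z0 η0 v (η0 : ℂ) s k u)
      (Metric.ball u (l / 20)) := by
    refine DifferentiableOn.diffContOnCl ?_
    rw [closure_ball _ hr2.ne']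
    exact fun w hw => (diff_u hb hb' hz (mem_SB0 (η0 := η0) (v := v)) s
      (hin w hw)).differentiableWithinAt
  have := Complex.norm_deriv_le_of_forall_mem_sphere_norm_le hr2 hd
    (C := C * (Real.exp (|rte b a s k| * (l / 20)) * Real.exp (rte b a s k * |u.im|)))
    fun w hw => by
      refine (h η0 mem_SB0 s k w (hin w (Metric.sphere_subset_closedBall hw))).trans ?_
      refine mul_le_mul_of_nonneg_left ?_ hC
      rw [← Real.exp_add]
      refine Real.exp_le_exp.2 ?_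
      have h1 : |w.im - u.im| ≤ l / 20 := by
        rw [← sub_im]
        rw [mem_sphere_iff_norm] at hw
        exact (abs_im_le_norm _).trans hw.le
      have h2 : |(|w.im| - |u.im|)| ≤ l / 20 := (abs_abs_sub_abs_le_abs_sub _ _).trans h1
      have h3 : rte b a s k * (|w.im| - |u.im|) ≤ |rte b a s k| * (l / 20) :=
        (le_abs_self _).trans (by
          rw [abs_mul]
          exact mul_le_mul_of_nonneg_left h2 (abs_nonneg _))
      nlinarith
  refine this.trans (le_of_eq ?_)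
  field_simp

/-! ## the words -/

/-- the rate of a quantum of a word is the one of `ZBd` -/
theorem rte_word {n n' : ℕ} (hn : n' = n + Fil.xn (a + 1)) {p p' : ℕ} {k : Fin p → O3}
    {k' : Fin p' → O3} (h1 : ∑ i, c3 (k' i) ≤ n') (h2 : ∑ i, c3 (k i) ≤ n) (b t : ℝ)
    (i : (Fin (nA n k) ⊕ Fin p) ⊕ (Fin (nA n' k') ⊕ Fin p')) :
    rte b a (cl n n' k k' i).1 (cl n n' k k' i).2 * t =
      -((2 * b + 2 * (∑ j, sc (PBI.co (cl n n' k k' j))) * sc (PBI.co (cl n n' k k' i))) * t) := by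
  rw [sum_sc_cl h1 h2]
  unfold rte
  have e : PBI.co (cl n n' k k' i) = ((cl n n' k k' i).1, ob4 (cl n n' k k' i).2) := rfl
  have hQ : ((n' : ℕ) : ℝ) = n + (Fil.xn (a + 1) : ℝ) := by rw [hn]; push_cast; ring
  rw [e, hQ]
  ring

/-- **`ZFam`**, the constant does not depend on the lines and the number of quanta -/
theorem exists_zfam (c : Bool → ℂ) (a : ℕ) (η0 : ℝ) (v : Bool → Fin 2 → ℂ) (hb : 0 < b)
    (hb' : b ≤ 4 / 3) (hz : Lz z0) : ∃ D : ℝ, 0 ≤ D ∧ ∀ (α : ℝ) (n n' : ℕ) (L : PBI.Lns),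
    n' = n + Fil.xn (a + 1) → 3 / 5 * l ≤ α → α < 7 / 10 * l → LnH L.X L.Y →
    ZFam α n n' L (2 * b) D (rad v / 2) η0 (ZR c b a z0 η0 v) (ZdR c b a z0 η0 v)
      (ZpR c b a z0 η0 v) := by
  have hl := Bd.l_pos
  have hr := rad_pos v
  obtain ⟨C, hC, h⟩ := exists_bd c a η0 v hb hb' hz
  set K : ℝ := ∑ p : Bool × Option O3, Real.exp (|rte b a p.1 p.2| * (l / 20)) with hK
  have hK0 : 0 ≤ K := Finset.sum_nonneg fun p _ => (Real.exp_pos _).le
  have hKle : ∀ s k, Real.exp (|rte b a s k| * (l / 20)) ≤ K := fun s k =>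
    Finset.single_le_sum (f := fun p : Bool × Option O3 => Real.exp (|rte b a p.1 p.2| * (l / 20)))
      (fun p _ => (Real.exp_pos _).le) (Finset.mem_univ (s, k))
  set D : ℝ := C + 2 / rad v * C + 20 / l * K * C with hD
  have d1 : 0 ≤ 2 / rad v * C := by positivity
  have d2 : 0 ≤ 20 / l * K * C := by positivity
  refine ⟨D, by positivity, fun α n n' L hn hα hα' hL => ?_⟩
  have up : ∀ {x y : ℝ} {w : ℂ}, ‖w‖ ≤ x * Real.exp y → x ≤ D → ‖w‖ ≤ D * Real.exp y :=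
    fun h1 h2 => h1.trans (mul_le_mul_of_nonneg_right h2 (Real.exp_pos _).le)
  have hK := fun {p p' : ℕ} (k : Fin p → O3) (k' : Fin p' → O3) =>
    all_KI hα (by linarith) hL n n' k k'
  refine
    { hκ := by positivity
      hr := by positivity
      hD := by positivity
      hok := all_ok hα hα' hL n n'
      hm := fun η s k => meas_ZR η s k
      hmd := fun η s k => meas_ZdR hb hb' hz η s k
      hm' := fun s k => meas_ZpR s k
      hZ := ?_
      hZd := ?_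
      hZ' := ?_
      hd := ?_
      hd' := ?_ }
  · intro η hη p p' k k' h1 h2 i t
    have hi := KI_sub (hK k k' i)
    rw [show L.all α n n' k k' i = (vl (L.all α n n' k k' i) t).re from (re_vl _ _).symm] at hi
    have := bd_ZR (c := c) (a := a) hb hb' h hη (cl n n' k k' i).1 hi
    rw [im_vl, rte_word hn h1 h2] at this
    exact up this (by linarith)
  · intro η hη p p' k k' h1 h2 i t
    have hi := KI_sub (hK k k' i)
    rw [show L.all α n n' k k' i = (vl (L.all α n n' k k' i) t).re from (re_vl _ _).symm] at hi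
    have := bd_ZdR (c := c) (a := a) hb hb' hz h hη (cl n n' k k' i).1 hi
    rw [im_vl, rte_word hn h1 h2] at this
    exact up this (by linarith)
  · intro p p' k k' h1 h2 i t
    have hi := hK k k' i
    rw [show L.all α n n' k k' i = (vl (L.all α n n' k k' i) t).re from (re_vl _ _).symm] at hi
    have := bd_ZpR (c := c) (a := a) hb hb' hz hC h (cl n n' k k' i).1 hi
    rw [im_vl, rte_word hn h1 h2] at this
    refine up this ?_
    have h3 : 20 / l * Real.exp (|rte b a (cl n n' k k' i).1 (cl n n' k k' i).2| * (l / 20)) * C ≤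
        20 / l * K * C :=
      mul_le_mul_of_nonneg_right (mul_le_mul_of_nonneg_left (hKle _ _) (by positivity)) hC
    linarith
  · intro η hη p p' k k' h1 h2 i t
    have hi := KI_sub (hK k k' i)
    rw [show L.all α n n' k k' i = (vl (L.all α n n' k k' i) t).re from (re_vl _ _).symm] at hi
    exact hasDeriv_eta hb hb' hz hη (cl n n' k k' i).1 hi
  · intro p p' k k' h1 h2 i t
    have hi := hK k k' i
    rw [show L.all α n n' k k' i = (vl (L.all α n n' k k' i) t).re from (re_vl _ _).symm] at hi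
    exact hasDeriv_pos hb hb' hz (cl n n' k k' i).1 hi

/-! ## row factor -/

theorem diff_rowB (c : ℂ) (α γ : ℕ) {k : Option O3} {θ u : ℂ} (hθ : |(θ * I).re| ≤ l / 100)
    (hu : u.re ∈ KO k) :
    DifferentiableAt ℂ (fun p : ℂ × ℂ => rowB c α γ (rwx a p.1) (ob4 k) p.2) (θ, u) := by
  have h2 : DifferentiableAt ℂ (fun p : ℂ × ℂ => p.2) (θ, u) := differentiableAt_snd
  have h2' : DifferentiableAt ℂ (fun p : ℂ × ℂ => p.2 - (l : ℂ)) (θ, u) := h2.sub_const _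
  have dR : DifferentiableAt ℂ (fun p : ℂ × ℂ => RRB c α γ (rwx a p.1) p.2) (θ, u) :=
    dRRB c α γ (fun i => d_rwx a i _) h2 (fun i => by
      rw [sub_re]
      exact KO_NP hu (rwx_re hθ i))
  have dR' : ∀ k' : O3, k = some k' → k' ≠ .L →
      DifferentiableAt ℂ (fun p : ℂ × ℂ => RRB c α γ (rwx a p.1) (p.2 - l)) (θ, u) := by
    intro k' hk hk'
    subst hk
    refine dRRB c α γ (fun i => d_rwx a i _) h2' (fun i => ?_)
    rw [sub_re, re_sub_l]
    exact KO_NP' hk' hu (rwx_re hθ i)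
  rcases k with _ | (_ | _ | _)
  · exact dR
  · exact dR
  · exact dR.mul (dR' .S rfl (by decide))
  · exact dR.mul (dR' .T rfl (by decide))

/-- the row factor along the path -/
theorem path_rowB (c : ℂ) (α γ : ℕ) (η0 : ℝ) {k : Option O3} {u : ℂ} (ξ : ℂ) (hu : u.re ∈ KO k) :
    HasDerivAt (fun τ : ℝ => rowB c α γ (rwx a ((η0 : ℂ) + τ)) (ob4 k) (u + I * ξ * τ))
      (rowB c α γ (rwx a (η0 : ℂ)) (ob4 k) u * (r1A α γ (ob4 k) (rwx a (η0 : ℂ)) 0 u +
        ξ * krA α γ (ob4 k) (rwx a (η0 : ℂ)) u)) 0 := by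
  have hd := diff_rowB (a := a) c α γ (real_Th η0) hu
  have hB := PBForce.hasDerivAt_rowB c α γ (rwx a (η0 : ℂ)) (ob4 k)
    (fun i => (KO_rowOk hu a η0 i).1) (fun hk i => (KO_rowOk hu a η0 i).2 hk)
  have hA0 := PBForce.hasDerivAt_rowB_row c α γ (rwx a (η0 : ℂ)) 0 (ob4 k)
    (KO_rowOk hu a η0 0).1 (fun hk => (KO_rowOk hu a η0 0).2 hk)
  have hA1 : HasDerivAt (fun θ : ℂ => rowB c α γ (rwx a θ) (ob4 k) u)
      (deriv (fun θ : ℂ => rowB c α γ (rwx a θ) (ob4 k) u) η0) η0 :=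
    (DifferentiableAt.comp (f := fun θ : ℂ => (θ, u)) (η0 : ℂ) hd (by fun_prop)).hasDerivAt
  have hup : ∀ η : ℝ, Function.update (rwx a (η0 : ℂ)) 0 (rwx a (η0 : ℂ) 0 + η * I) =
      rwx a ((η0 : ℂ) + η) := by
    intro η
    funext i
    refine Fin.cases ?_ (fun j => ?_) i
    · rw [Function.update_self]
      show (η0 : ℂ) * I + η * I = ((η0 : ℂ) + η) * I
      ring
    · rw [Function.update_of_ne (Fin.succ_ne_zero j)]
      rfl
  simp_rw [hup] at hA0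
  have hA2 : HasDerivAt (fun η : ℝ => rowB c α γ (rwx a ((η0 : ℂ) + η)) (ob4 k) u)
      (deriv (fun θ : ℂ => rowB c α γ (rwx a θ) (ob4 k) u) η0) 0 := by
    have e3 : HasDerivAt (fun τ : ℂ => (η0 : ℂ) + τ) (1 : ℂ) ((0 : ℝ) : ℂ) := by
      simpa using (hasDerivAt_id ((0 : ℝ) : ℂ)).const_add (η0 : ℂ)
    have hA1' : HasDerivAt (fun θ : ℂ => rowB c α γ (rwx a θ) (ob4 k) u)
        (deriv (fun θ : ℂ => rowB c α γ (rwx a θ) (ob4 k) u) η0) ((η0 : ℂ) + ((0 : ℝ) : ℂ)) := by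
      rw [ofReal_zero, add_zero]
      exact hA1
    exact ((hA1'.comp ((0 : ℝ) : ℂ) e3).comp_ofReal).congr_deriv (mul_one _)
  have hAeq := hA0.unique hA2
  rw [← hAeq] at hA1
  have := path_deriv (ξ := ξ) hd hA1 hB
  refine this.congr_deriv ?_
  linear_combination (-ξ * rowB c α γ (rwx a (η0 : ℂ)) (ob4 k) u *
    krA α γ (ob4 k) (rwx a (η0 : ℂ)) u) * I_mul_I

/-! ## the cutoff -/

/-- the velocities of the extra points of the species -/
def vE (b : ℝ) (a : ℕ) (η0 : ℝ) (ξe : ℝ → ℂ) (s : Bool) : Fin 2 → ℂ :=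
  PBFar.PLX.vI (Fil.n s) b (Fil.n s * a) ((η0 : ℂ) * I) I ξe

/-- derivative of the cutoff of a kind along the path -/
def DcutZ (s : Bool) (b : ℝ) (a : ℕ) (η0 : ℝ) (ξe : ℝ → ℂ) (ξ : ℂ) : Option O3 → ℂ → ℂ
  | some .S, u => PBFar.PLX.DR (Fil.n s) (4 / 3) (Fil.n s * a) (η0 * I) I ξ u
  | some .T, u => PBFar.PLX.DT (Fil.n s) b (Fil.n s * a) (η0 * I) I ξe ξ u
  | _, u => PBFar.PLX.DW (Fil.n s) b (Fil.n s * a) (η0 * I) I ξe ξ u

theorem path_cut (hb1 : 1 ≤ b) (hb' : b ≤ 4 / 3) (η0 : ℝ) (ξe : ℝ → ℂ) (s : Bool) {k : Option O3}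
    {u : ℂ} (ξ : ℂ) (hu : u.re ∈ KI k) :
    HasDerivAt (fun τ : ℝ => cutZ s b a (((η0 : ℂ) + τ) * I)
        (vx η0 (vE b a η0 ξe s) ((η0 : ℂ) + τ)) k (u + I * ξ * τ))
      (DcutZ s b a η0 ξe ξ k u) 0 := by
  have hl := Bd.l_pos
  have H := hyp75 hb1 hb'
  have H' := hyp75 (b := 4 / 3) (by norm_num) le_rfl
  set v := vE b a η0 ξe s with hv
  have x0 : |((η0 : ℂ) * I).re| ≤ l / 2 := by
    rw [show ((η0 : ℂ) * I).re = 0 by simp, abs_zero]
    positivity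
  have hid : HasDerivAt (fun τ : ℝ => ((τ : ℝ) : ℂ)) 1 0 := by
    simpa using (hasDerivAt_id ((0 : ℝ) : ℂ)).comp_ofReal
  have hX : HasDerivAt (fun τ : ℝ => ((η0 : ℂ) + τ) * I) I 0 := by
    simpa using (hid.const_add (η0 : ℂ)).mul_const I
  have hX0 : (fun τ : ℝ => ((η0 : ℂ) + τ) * I) 0 = (η0 : ℂ) * I := by simp
  have he : ∀ i, HasDerivAt (fun τ : ℝ => vx η0 v ((η0 : ℂ) + τ) i) (v i) 0 := by
    intro i
    fin_cases i
    · show HasDerivAt (fun τ : ℝ => I + ((η0 : ℂ) + τ - η0) * v 0) (v 0) 0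
      simpa using (((hid.const_add (η0 : ℂ)).sub_const (η0 : ℂ)).mul_const (v 0)).const_add I
    · show HasDerivAt (fun τ : ℝ => -I + ((η0 : ℂ) + τ - η0) * v 1) (v 1) 0
      simpa using (((hid.const_add (η0 : ℂ)).sub_const (η0 : ℂ)).mul_const (v 1)).const_add (-I)
  have he0 : (fun τ : ℝ => vx η0 v ((η0 : ℂ) + τ)) 0 = PBFar.wE := by
    show vx η0 v ((η0 : ℂ) + ((0 : ℝ) : ℂ)) = PBFar.wE
    rw [ofReal_zero, add_zero]
    exact vx_at η0 v
  have hU : HasDerivAt (fun τ : ℝ => u + I * ξ * τ) (I * ξ) 0 := by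
    simpa using (hid.const_mul (I * ξ)).const_add u
  have hU0 : u + I * ξ * ((0 : ℝ) : ℂ) = u := by simp
  have s1 : |(u + I * ξ * ((0 : ℝ) : ℂ)).re + l / 2| ≤ 7 / 5 * l := by
    rw [hU0, abs_le]
    rcases k with _ | (_ | _ | _)
    all_goals
      obtain ⟨h1, h2⟩ := hu
      constructor <;> linarith
  rcases k with _ | (_ | _ | _)
  · have := PBFar.PLX.hasDerivAt_W H x0 hX hX0 he he0 hU s1
    rw [hU0] at this
    exact this
  · have := PBFar.PLX.hasDerivAt_W H x0 hX hX0 he he0 hU s1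
    rw [hU0] at this
    exact this
  · have := PBFar.PLX.hasDerivAt_R H' (q := Fil.n s) (a := Fil.n s * a) x0 hX hX0 hU s1
    rw [hU0] at this
    exact this
  · have s2 : |(u + I * ξ * ((0 : ℝ) : ℂ) - (l : ℂ)).re + l / 2| ≤ 7 / 5 * l := by
      rw [hU0, re_sub_l, abs_le]
      obtain ⟨h1, h2⟩ := hu
      constructor <;> linarith
    have := PBFar.PLX.hasDerivAt_T H H' x0 hX hX0 he he0 hU s1 s2 s1
    rw [hU0] at this
    exact this

/-! ## the cut term -/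

/-- **what the first Ward identity leaves**: row factor × derivative of the cutoff × legs -/
theorem zcut_eq0 (c : Bool → ℂ) (hb1 : 1 ≤ b) (hb' : b ≤ 4 / 3) (hz : Lz z0) (η0 : ℝ) (ξe : ℝ → ℂ)
    {Ξ κr r1 lam : PBI.Kd → ℂ → ℂ} (s : Bool) {k : Option O3} {u : ℂ} (hu : u.re ∈ KI k)
    (hκ : κr (s, k) u = krA (Fil.b s) (Fil.b (!s)) (ob4 k) (rwx a (η0 : ℂ)) u)
    (hr : r1 (s, k) u = r1A (Fil.b s) (Fil.b (!s)) (ob4 k) (rwx a (η0 : ℂ)) 0 u)
    (hlam : lam (s, k) u = lamK z0 k u) :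
    Zcut (ZR c b a z0 η0 (vE b a η0 ξe) η0) (ZdR c b a z0 η0 (vE b a η0 ξe) η0)
      (ZpR c b a z0 η0 (vE b a η0 ξe)) Ξ κr r1 lam s k u =
    rowB (c s) (Fil.n s) (Fil.n (!s)) (rwx a (η0 : ℂ)) (ob4 k) u * DcutZ s b a η0 ξe (Ξ (s, k) u) k u *
      one (Lg z0 z0) (ob4 k) u := by
  have hb : 0 < b := by linarith
  set v := vE b a η0 ξe with hv
  set ξ := Ξ (s, k) u with hξ
  have hr0 := rad_pos v
  have huO := KI_sub hu
  have h0 : η0 ∈ Metric.ball η0 (rad v / 2) := Metric.mem_ball_self (by positivity)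
  -- the total derivative
  have hG := diff_ZP (c := c) (a := a) (θ := (η0 : ℂ)) hb hb' hz
    (SB_box (mem_SB0 (η0 := η0) (v := v))).1 s huO
  have hA := (diff_th (c := c) (a := a) hb hb' hz (mem_SB0 (η0 := η0) (v := v)) s huO).hasDerivAt
  have hB := (diff_u (c := c) (a := a) hb hb' hz (mem_SB0 (η0 := η0) (v := v)) s huO).hasDerivAt
  have p0 := path_deriv (ξ := ξ) hG hA hB
  -- the product
  have p1 := path_rowB (a := a) (c s) (Fil.n s) (Fil.n (!s)) η0 ξ huO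
  have p2 := path_cut (a := a) hb1 hb' η0 ξe s ξ hu
  have p3 := path_leg hz ξ huO
  have p4 := (p1.mul p2).mul p3
  have key := p0.unique p4
  have ez : ((η0 : ℂ) + ((0 : ℝ) : ℂ)) = η0 := by rw [ofReal_zero, add_zero]
  have eu : (u + I * ξ * ((0 : ℝ) : ℂ)) = u := by rw [ofReal_zero, mul_zero, add_zero]
  simp only [Pi.mul_apply, ez, eu, ← hv] at key
  have n1 : ((Fil.b s : ℝ) : ℂ) = ((Fil.n s : ℕ) : ℂ) := by
    rw [← Fil.cast_n, ofReal_natCast]
  have n2 : ((Fil.b (!s) : ℝ) : ℂ) = ((Fil.n (!s) : ℕ) : ℂ) := by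
    rw [← Fil.cast_n, ofReal_natCast]
  unfold Zcut
  rw [hκ, hr, hlam, ← hξ, ZR_eq hb hb' η0 s huO, n1, n2]
  have e1 : ZdR c b a z0 η0 v η0 s k u = deriv (fun θ : ℂ => ZP c b a z0 η0 v θ s k u) (η0 : ℂ) := by
    unfold ZdR
    rw [if_pos ⟨h0, huO⟩]
  have e2 : ZpR c b a z0 η0 v s k u = deriv (fun u : ℂ => ZP c b a z0 η0 v (η0 : ℂ) s k u) u := by
    unfold ZpR
    rw [if_pos hu]
  rw [e1, e2, key]
  unfold ZP
  ring

/-- **`Zcut` is `ZcX`** on the inner strips -/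
theorem zcut_eq (c : Bool → ℂ) (hb1 : 1 ≤ b) (hb' : b ≤ 4 / 3) (hz : Lz z0) (η0 : ℝ) (ξe : ℝ → ℂ)
    {X : ℂ → ℂ} {Ξ κr r1 lam : PBI.Kd → ℂ → ℂ} (s : Bool) {k : Option O3} {u : ℂ} (hu : u.re ∈ KI k)
    (hX : Ξ (s, none) u = X u) (hX' : ∀ o : O3, Ξ (s, some o) u = X (u + 2 * l))
    (hκ : κr (s, k) u = krA (Fil.b s) (Fil.b (!s)) (ob4 k) (rwx a (η0 : ℂ)) u)
    (hr : r1 (s, k) u = r1A (Fil.b s) (Fil.b (!s)) (ob4 k) (rwx a (η0 : ℂ)) 0 u)
    (hlam : lam (s, k) u = lamK z0 k u) :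
    Zcut (ZR c b a z0 η0 (vE b a η0 ξe) η0) (ZdR c b a z0 η0 (vE b a η0 ξe) η0)
      (ZpR c b a z0 η0 (vE b a η0 ξe)) Ξ κr r1 lam s k u =
    PBC.PLX.ZcX (c s) (rwq (rwx a (η0 : ℂ)) s) (rwq (rwx a (η0 : ℂ)) (!s)) (Fil.n s) b (Fil.n s * a)
      ((η0 : ℂ) * I) I ξe X (Lg z0 z0) (fun w => Lg z0 z0 w * Lg z0 z0 (w - l)) k u := by
  rw [zcut_eq0 c hb1 hb' hz η0 ξe s hu hκ hr hlam]
  have e3 := RRU_rwq (c s) (rwx a (η0 : ℂ)) s
  rcases k with _ | (_ | _ | _)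
  · rw [hX, PBC.PLX.ZcX_none, e3]
    rfl
  · rw [hX' .L, PBC.PLX.ZcX_L, e3]
    rfl
  · rw [hX' .S, PBC.PLX.ZcX_S, e3, e3]
    rfl
  · rw [hX' .T, PBC.PLX.ZcX_T, e3, e3]
    rfl

/-! ## final forms -/

/-- the literal one body functions -/
theorem ZR_lit (c : ℂ) (b : ℝ) (a : ℕ) (z0 : ℂ) (η0 : ℝ) (v : Bool → Fin 2 → ℂ) (η : ℝ) :
    ZR (fun _ => c) b a z0 η0 v η = fun s k u =>
      XXU c b (rwq (Fin.cons ((η : ℂ) * I) fun _ => 0 : Fin (a + 1) → ℂ) s)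
        (rwq (Fin.cons ((η : ℂ) * I) fun _ => 0 : Fin (a + 1) → ℂ) (!s))
        (gP b [vx η0 (v s) (η : ℂ) 0, vx η0 (v s) (η : ℂ) 1]) (gP (4 / 3) []) (Lg z0 z0)
        (fun w => Lg z0 z0 w * Lg z0 z0 (w - l)) k u := rfl

/-- **`ZFam` on the final lines**, one constant for all parameters `P` and all `n` -/
theorem exists_zfam_P (c : Bool → ℂ) (a : ℕ) (η0 : ℝ) (v : Bool → Fin 2 → ℂ) (hb : 0 < b)
    (hb' : b ≤ 4 / 3) (hz : Lz z0) : ∃ D : ℝ, 0 ≤ D ∧ ∀ P : NUO.Par, NUGC.PLX.ParC P → ∀ n n' : ℕ,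
    n' = n + Fil.xn (a + 1) →
    ZFam (3 / 5 * l) n n' ⟨NUP1S.lX P, NUP1S.lY P⟩ (2 * b) D (rad v / 2) η0 (ZR c b a z0 η0 v)
      (ZdR c b a z0 η0 v) (ZpR c b a z0 η0 v) := by
  have hl := Bd.l_pos
  obtain ⟨D, hD, h⟩ := exists_zfam c a η0 v hb hb' hz
  refine ⟨D, hD, fun P hP n n' hn => ?_⟩
  exact h _ n n' _ hn le_rfl (by linarith) (LnH_P hP.goodP hP.j1 hP.j2 fun r => by
    have h1 := hP.e2 r
    have h2 := hP.d0 r
    linarith)

/-- **the cut term on the lines of all words** -/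
theorem zcut_all (c : Bool → ℂ) (hb1 : 1 ≤ b) (hb' : b ≤ 4 / 3) (hz : Lz z0) (η0 : ℝ)
    (ξe : ℝ → ℂ) {X : ℂ → ℂ} {Ξ κr r1 lam : PBI.Kd → ℂ → ℂ}
    (hX : ∀ s u, Ξ (s, none) u = X u) (hX' : ∀ (s : Bool) (o : O3) u, Ξ (s, some o) u = X (u + 2 * l))
    (hκ : ∀ s k u, κr (s, k) u = krA (Fil.b s) (Fil.b (!s)) (ob4 k) (rwx a (η0 : ℂ)) u)
    (hr : ∀ s k u, r1 (s, k) u = r1A (Fil.b s) (Fil.b (!s)) (ob4 k) (rwx a (η0 : ℂ)) 0 u)
    (hlam : ∀ s k u, lam (s, k) u = lamK z0 k u)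
    {α : ℝ} (hα : 3 / 5 * l ≤ α) (hα' : α ≤ 9 / 10 * l) {L : PBI.Lns} (hL : LnH L.X L.Y) (n n' : ℕ) :
    AllW α n n' L fun c' x => ∀ i, ∀ t : ℝ,
      Zcut (ZR c b a z0 η0 (vE b a η0 ξe) η0) (ZdR c b a z0 η0 (vE b a η0 ξe) η0)
        (ZpR c b a z0 η0 (vE b a η0 ξe)) Ξ κr r1 lam (c' i).1 (c' i).2 (vl (x i) t) =
      PBC.PLX.ZcX (c (c' i).1) (rwq (rwx a (η0 : ℂ)) (c' i).1) (rwq (rwx a (η0 : ℂ)) (!(c' i).1))
        (Fil.n (c' i).1) b (Fil.n (c' i).1 * a) ((η0 : ℂ) * I) I ξe X (Lg z0 z0)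
        (fun w => Lg z0 z0 w * Lg z0 z0 (w - l)) (c' i).2 (vl (x i) t) := by
  intro p p' k k' h1 h2 i t
  have hi := all_KI hα hα' hL n n' k k' i
  rw [show L.all α n n' k k' i = (vl (L.all α n n' k k' i) t).re from (re_vl _ _).symm] at hi
  exact zcut_eq c hb1 hb' hz η0 ξe (cl n n' k k' i).1 hi (hX _ _) (fun o => hX' _ o _) (hκ _ _ _)
    (hr _ _ _) (hlam _ _ _)

end PBZF.PLX

end
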