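import Pool.Agent.PLX.Ns
import Pool.Agent.PLX.PB.FNeq
import Pool.Agent.PLX.PB.F0Ln
import Pool.Agent.PLX.PB.I1A
import Pool.Agent.PLX.PB.ZFamR

/-!
# Two fillings: the first Ward identity of the dislocated function, one moved row

Rows `rwx a η = (i η, 0, .., 0)` (`a + 1` rows; `q`-fold in the species Y), cutoff points of the species
`s`: its rows and `vx (v s) 0`, `vx (v s) 1` (quanta), its rows (strings), legs at `z`; `ZR` of
`PLX/PB/ZFamR`; `n` quanta X and `n + xn (a + 1)` quanta Y.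

* `cR a`: the constants of the species;
* `ZR_XXU`: `ZR` is the family of the class functions;
* `F0_DZ`: the functional `F0 .. [1]` of the straight lines is the state sum `SQt`;
* `fx_F0`: `fxQ q a (i η) z = Pf * ∑ n, F0 (ZR η) n (n + xn (a + 1)) [1]`;
* `fx_I1`: the first Ward identity of `fxQ`, from `FFam` and the normaliser `Num`.
-/

set_option autoImplicit false
set_option linter.unusedSectionVars false

noncomputable section

open Complex MeasureTheory Filter Topology Finset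

open PLX (Fil)

namespace PBZF.PLX

open NUP1 NUP1S NUP1.Bd NURow PB
open PBX (XX ph gP Lg Rws)
open PBI PBI.PLX
open Pool.Agent.PB (Pf xr)
open Pool.Agent.PLX (XXU DZU yq rwq SQt fxQ)

variable {P : NUO.Par} {b : ℝ} {a : ℕ} {z0 : ℂ} {η0 : ℝ} {v : Bool → Fin 2 → ℂ}

theorem Rws_rwx (a : ℕ) (η : ℝ) : Rws (rwx a (η : ℂ)) := fun i => by
  rw [rwx_re0, abs_zero]
  have := Bd.l_pos
  linarith

/-- the extra points of the cutoff are in the strip for `η` near `η0` -/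
theorem vx_ev1 (η0 : ℝ) (v : Fin 2 → ℂ) :
    ∀ᶠ η : ℝ in 𝓝 η0, ∀ i, |(vx η0 v (η : ℂ) i).re| ≤ l / 2 := by
  have hl := Bd.l_pos
  have h : ∀ i, ∀ᶠ η : ℝ in 𝓝 η0, |(vx η0 v (η : ℂ) i).re| ≤ l / 2 := by
    intro i
    have hc : Continuous fun η : ℝ => |(vx η0 v (η : ℂ) i).re| := by
      have : Continuous fun η : ℝ => vx η0 v (η : ℂ) i := by
        unfold vx
        refine Fin.cases ?_ (fun j => ?_) i
        · simp only [Matrix.cons_val_zero]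
          fun_prop
        · have hj : j = 0 := Subsingleton.elim _ _
          subst hj
          simp only [Matrix.cons_val_succ, Matrix.cons_val_zero]
          fun_prop
      exact (Complex.continuous_re.comp this).abs
    have h0 : |(vx η0 v (η0 : ℂ) i).re| < l / 2 := by
      have : (vx η0 v (η0 : ℂ) i).re = 0 := by
        unfold vx
        refine Fin.cases ?_ (fun j => ?_) i
        · simp
        · have hj : j = 0 := Subsingleton.elim _ _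
          subst hj
          simp
      rw [this, abs_zero]
      linarith
    filter_upwards [hc.continuousAt.eventually_lt continuousAt_const h0] with η hη
    exact hη.le
  exact Filter.eventually_all.2 h

theorem vx_ev (η0 : ℝ) (v : Bool → Fin 2 → ℂ) :
    ∀ᶠ η : ℝ in 𝓝 η0, ∀ s i, |(vx η0 (v s) (η : ℂ) i).re| ≤ l / 2 :=
  Filter.eventually_all.2 fun s => vx_ev1 η0 (v s)

theorem ex_vx {η : ℝ} {v : Fin 2 → ℂ} (h : ∀ i, |(vx η0 v (η : ℂ) i).re| ≤ l / 2) :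
    ∀ w ∈ [vx η0 v (η : ℂ) 0, vx η0 v (η : ℂ) 1], |w.re| ≤ l / 2 := by
  intro w hw
  simp only [List.mem_cons, List.not_mem_nil, or_false] at hw
  rcases hw with rfl | rfl
  · exact h 0
  · exact h 1

variable [Fil]

/-- the constants of the species: the number of its rows -/
def cR (a : ℕ) : Bool → ℂ := fun s => Leg.cc (cond s (a + 1) (Fil.q * (a + 1)))

/-- the family is the family of the class functions -/
theorem ZR_XXU (c : Bool → ℂ) (b : ℝ) (a : ℕ) (z0 : ℂ) (η0 : ℝ) (v : Bool → Fin 2 → ℂ) (η : ℝ) :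
    ZR c b a z0 η0 v η = fun s => XXU (c s) b (rwq (rwx a (η : ℂ)) s) (rwq (rwx a (η : ℂ)) (!s))
      (gP b [vx η0 (v s) (η : ℂ) 0, vx η0 (v s) (η : ℂ) 1]) (gP (4 / 3) []) (Lg z0 z0)
      (fun w => Lg z0 z0 w * Lg z0 z0 (w - l)) := rfl

/-- **the functional of the straight lines is the state sum** -/
theorem F0_DZ (hP : NUGC.PLX.ParC P) (hb : 0 < b) (hb' : b ≤ 4 / 3) (hz : Lz z0) {η : ℝ}
    (hv : ∀ s i, |(vx η0 (v s) (η : ℂ) i).re| ≤ l / 2) (n : ℕ) :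
    F0 (3 / 5 * l) n (n + Fil.xn (a + 1)) (fl P) (ZR (cR a) b a z0 η0 v η) (fun _ _ _ _ => 1) =
      SQt Fil.q z0 (rwx a (η : ℂ)) n := by
  have hl := Bd.l_pos
  obtain ⟨z1, z2⟩ := hz
  have hx := Rws_rwx a η
  have hex := fun s => ex_vx (hv s)
  have hex0 : ∀ s : Bool, ∀ w ∈ ([] : List ℂ), |w.re| ≤ l / 2 := fun s w hw => by simp at hw
  have hg := fun s => PBX.GOk.gP hb hb' (hex s)
  have hg0 := fun s => PBX.GOk.gP (β := 4 / 3) (by norm_num) le_rfl (hex0 s)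
  have L : LnH (lX P) (lY P) := LnH_P hP.goodP hP.j1 hP.j2 fun r => by
    have h3 := hP.e2 r
    have h4 := hP.d0 r
    linarith
  have hxn : (((n + Fil.xn (a + 1) : ℕ) : ℝ)) + ((a + 1 : ℕ) : ℝ) =
      (n : ℝ) + ((Fil.q * (a + 1) : ℕ) : ℝ) + 0 := by
    rw [← Fil.add_xn]
    push_cast
    ring
  have s1 : Pool.Agent.PLX.SpU 0 (Lg z0 z0) :=
    Pool.Agent.PLX.SpU.of_SpA (PBX.Lg_SpA (by linarith) (by linarith))
  have e := Pool.Agent.PLX.DZU_cls (c := Leg.cc (a + 1)) (c' := Leg.cc (Fil.q * (a + 1)))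
    (s := Lg z0 z0) (t := Lg z0 z0) (q := 0) hb hb' hx (Pool.Agent.PLX.Rws_yq hx)
    (g := gP b [vx η0 (v true) (η : ℂ) 0, vx η0 (v true) (η : ℂ) 1])
    (g' := gP b [vx η0 (v false) (η : ℂ) 0, vx η0 (v false) (η : ℂ) 1]) (g0 := gP (4 / 3) [])
    (g0' := gP (4 / 3) []) (s2 := fun w => Lg z0 z0 w * Lg z0 z0 (w - l))
    (t2 := fun w => Lg z0 z0 w * Lg z0 z0 (w - l)) (hg true) (hg false) (hg0 true) (hg0 false)
    s1 (by simpa using s1)
    (by simpa using PBX.Lg_SpecQ true (by linarith) (by linarith))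
    (by simpa using PBX.Lg_SpecQ false (by linarith) (by linarith)) hxn (lX P) (lY P) L.hX L.hY
  have e0 : SQt Fil.q z0 (rwx a (η : ℂ)) n = DZU (Leg.cc (a + 1)) (Leg.cc (Fil.q * (a + 1)))
      (Lg z0 z0) (Lg z0 z0) (rwx a (η : ℂ)) (yq (rwx a (η : ℂ))) n (n + Fil.xn (a + 1)) := rfl
  rw [e0, e, ZR_XXU]
  refine F0_ZobjQ (Q := -(Fil.xn (a + 1) : ℤ)) hP.goodQ (by linarith) (by linarith : (0 : ℝ) < 2 * b)
    (fun s k => ?_) ?_ (by push_cast; ring)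
  · exact Pool.Agent.PLX.measurable_XXU (PBX.measurable_gP _ _) (PBX.measurable_gP _ _)
      (PBX.Lg_meas z0 z0)
      ((PBX.Lg_meas z0 z0).mul ((PBX.Lg_meas z0 z0).comp (measurable_id.sub_const _))) k
  · have h := PBX.PLX.decZ_XX (P := P) hP (c := cR a) (Q := 0) hb hb' hx
      (g := fun s => gP b [vx η0 (v s) (η : ℂ) 0, vx η0 (v s) (η : ℂ) 1])
      (g0 := fun _ => gP (4 / 3) []) (s1 := fun _ => Lg z0 z0)
      (s2 := fun _ w => Lg z0 z0 w * Lg z0 z0 (w - l)) hg hg0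
      fun s => PBX.Lg_SpecQ s (by linarith) (by linarith)
    have e1 : ((-(Fil.xn (a + 1) : ℤ) : ℤ) : ℝ) = 0 - (Fil.xn (a + 1) : ℝ) := by
      push_cast
      ring
    rw [e1]
    exact h

/-- **the function at one moved row is the functional of the straight lines** -/
theorem fx_F0 (hP : NUGC.PLX.ParC P) (hb : 0 < b) (hb' : b ≤ 4 / 3) (hz : Lz z0) {η : ℝ}
    (hv : ∀ s i, |(vx η0 (v s) (η : ℂ) i).re| ≤ l / 2) :
    fxQ Fil.q a ((η : ℂ) * I) z0 = Pf z0 (rwx a (η : ℂ)) (yq (rwx a (η : ℂ))) *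
      ∑ n ∈ range (2 * (a + 1) + 1),
        F0 (3 / 5 * l) n (n + Fil.xn (a + 1)) (fl P) (ZR (cR a) b a z0 η0 v η)
          (fun _ _ _ _ => 1) := by
  have hl := Bd.l_pos
  have hz' := hz
  obtain ⟨z1, z2⟩ := hz'
  have h := Pool.Agent.PLX.fQ_eq (q := Fil.q) Fil.one_le_q (mu := rwx a (η : ℂ))
    (Pool.Agent.PB.Rws.rwo (Rws_rwx a η)) (z := z0) ⟨by linarith, by linarith⟩
  refine Eq.trans (b := Pool.Agent.PLX.fQ Fil.q (rwx a (η : ℂ)) z0) rfl (h.trans ?_)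
  unfold Pool.Agent.PLX.SQ
  congr 1
  refine Finset.sum_congr rfl fun n _ => ?_
  rw [F0_DZ hP hb hb' hz hv n]

/-! ### the first Ward identity -/

omit [Fil] in
theorem FdOk.mono {ι : Type} [Fintype ι] {c : ι → Bool × Option O3} {x : ι → ℝ} {B B' : ℝ}
    {Ξ Ξ' : Bool × Option O3 → ℂ → ℂ} (h : FdOk c x B Ξ Ξ') (hB : B ≤ B') : FdOk c x B' Ξ Ξ' where
  d := h.d
  b i t := (h.b i t).trans hB
  b' i t := (h.b' i t).trans hB

omit [Fil] in
theorem FFam.mono {α : ℝ} {n n' : ℕ} {L : PBI.Lns} {B B' : ℝ} {Ξ Ξ' : PBI.Kd → ℂ → ℂ}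
    {A : PBI.Kd → PBI.Kd → ℂ → ℂ → ℂ} {ρ : PBI.Kd → ℝ → ℂ} {κr r1 lam : PBI.Kd → ℂ → ℂ}
    (h : FFam α n n' L B Ξ Ξ' A ρ κr r1 lam) (hB : B ≤ B') : FFam α n n' L B' Ξ Ξ' A ρ κr r1 lam where
  hB := h.hB.trans hB
  hΞ p p' k k' h1 h2 := FdOk.mono (h.hΞ p p' k k' h1 h2) hB
  hmΞ := h.hmΞ
  hmΞ' := h.hmΞ'
  ha := h.ha
  has := h.has
  had := h.had
  hI1 := h.hI1
  hI2 := h.hI2
  hE := h.hE
  hC := h.hC
  hCv := h.hCv
  mκ := h.mκ
  mr := h.mr
  ml := h.ml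
  bd p p' k k' h1 h2 i t := (h.bd p p' k k' h1 h2 i t).trans hB

omit [Fil] in
/-- one constant for finitely many numbers of quanta -/
theorem FFam.unif {α : ℝ} {S : Finset ℕ} {e : ℕ} {L : PBI.Lns} {Ξ Ξ' : PBI.Kd → ℂ → ℂ}
    {A : PBI.Kd → PBI.Kd → ℂ → ℂ → ℂ} {ρ : PBI.Kd → ℝ → ℂ} {κr r1 lam : PBI.Kd → ℂ → ℂ}
    (h : ∀ n ∈ S, ∃ B, FFam α n (n + e) L B Ξ Ξ' A ρ κr r1 lam) :
    ∃ B, ∀ n ∈ S, FFam α n (n + e) L B Ξ Ξ' A ρ κr r1 lam := by
  choose! f hf using h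
  refine ⟨∑ m ∈ S, |f m|, fun n hn => FFam.mono (hf n hn) ?_⟩
  exact (le_abs_self _).trans (Finset.single_le_sum (f := fun m => |f m|)
    (fun m _ => abs_nonneg _) hn)

/-- **The first Ward identity of the function at one moved row.** -/
theorem fx_I1 (hP : NUGC.PLX.ParC P) (hb : 0 < b) (hb' : b ≤ 4 / 3) (hz : Lz z0)
    {Ξ Ξ' : PBI.Kd → ℂ → ℂ} {A : PBI.Kd → PBI.Kd → ℂ → ℂ → ℂ} {ρ : PBI.Kd → ℝ → ℂ} {κr r1 lam : PBI.Kd → ℂ → ℂ}
    (hF : ∀ n ∈ range (2 * (a + 1) + 1), ∃ B,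
      FFam (3 / 5 * l) n (n + Fil.xn (a + 1)) (fl P) B Ξ Ξ' A ρ κr r1 lam) {Pf' : ℂ}
    (hPf : HasDerivAt (fun η : ℝ => Pf z0 (rwx a (η : ℂ)) (yq (rwx a (η : ℂ)))) Pf' η0)
    (hN : Pf' + Pf z0 (rwx a (η0 : ℂ)) (yq (rwx a (η0 : ℂ))) * (C0 ρ r1 + C1 ρ Ξ lam) = 0) :
    HasDerivAt (fun η : ℝ => fxQ Fil.q a ((η : ℂ) * I) z0)
      (Pf z0 (rwx a (η0 : ℂ)) (yq (rwx a (η0 : ℂ))) * ∑ n ∈ range (2 * (a + 1) + 1),
        (F0 (3 / 5 * l) n (n + Fil.xn (a + 1)) (fl P) (ZR (cR a) b a z0 η0 v η0)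
            (nuW ρ A Ξ lam) +
          F0D (3 / 5 * l) n (n + Fil.xn (a + 1)) (fl P) (ZR (cR a) b a z0 η0 v η0)
            (Zcut (ZR (cR a) b a z0 η0 v η0) (ZdR (cR a) b a z0 η0 v η0)
              (ZpR (cR a) b a z0 η0 v) Ξ κr r1 lam))) η0 := by
  obtain ⟨D, hD, hZ⟩ := exists_zfam_P (cR a) a η0 v hb hb' hz
  obtain ⟨B, hF⟩ := FFam.unif hF
  have key := PBI.PLX.I1A (S := range (2 * (a + 1) + 1)) (u := fun n => n)
    (v := fun n => n + Fil.xn (a + 1))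
    (Pf := fun η : ℝ => Pf z0 (rwx a (η : ℂ)) (yq (rwx a (η : ℂ))))
    (fun n _ => hZ P hP n _ rfl) hF hPf hN
  refine key.congr_of_eventuallyEq ?_
  filter_upwards [vx_ev η0 v] with η hη
  exact fx_F0 hP hb hb' hz hη

end PBZF.PLX

end
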