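import Pool.Agent.PLX.Ns
import Pool.Agent.PLX.PB.ZRow
import Pool.Agent.PLX.PB.RepT
import Pool.Agent.PLX.Num2

/-!
# Two fillings: the first Ward identity of the dislocated function, assembly (port of PB/I1)

Rows `i s, 0^k` in the first group, the same rows, every one `q`-fold, in the second; legs at `z0`;
`m = k + 1`.

* **`fx_D`**: `∂_s fxQ q k (i s) z0 = F0N (Pf) (nuQI aK + nuI (Ξ λ)) + cut`;
* **`hD_one`**: 72's hypothesis `hD` from the total insertion and the cut.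
-/

set_option autoImplicit false
set_option linter.unusedSectionVars false
set_option linter.unusedVariables false

noncomputable section

open Complex MeasureTheory Finset
open scoped Classical
open PLX (Fil)

namespace PBI.PLX

open NUP1 hiding Kd
open NUP1S NUP1.Bd NURow PB PBQ1 PBForce
open PBX (Lg)
open PBZF (Lz rwx)
open PBZF.PLX (ZR ZdR ZpR fx_I1)
open PBRep.PLX (F0N)
open Pool.Agent.PB (Pf)
open _root_.Pool.Agent.PLX (fxQ yq)

/-- the rows as a path: the derivative -/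
theorem rwx_deriv (k : ℕ) (s : ℝ) (i : Fin (k + 1)) :
    HasDerivAt (fun η : ℝ => PBZF.rwx k (η : ℂ) i) (vv 0 i) s := by
  unfold PBZF.rwx vv
  refine Fin.cases ?_ (fun j => ?_) i
  · simp only [Fin.cons_zero, if_true]
    have h1 : HasDerivAt (fun η : ℝ => (η : ℂ)) 1 s := Complex.ofRealCLM.hasDerivAt
    simpa using h1.mul_const I
  · simp only [Fin.cons_succ]
    rw [if_neg (Fin.succ_ne_zero j)]
    exact hasDerivAt_const _ _

theorem rwx_re (k : ℕ) (s : ℝ) (i : Fin (k + 1)) : (PBZF.rwx k (s : ℂ) i).re = 0 := by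
  unfold PBZF.rwx
  refine Fin.cases ?_ (fun j => ?_) i
  · simp
  · simp

/-- the linear insertion -/
def glK (z0 : ℂ) {m : ℕ} (x : Fin m → ℂ) (i0 : Fin m) : Kd → ℂ → ℂ := fun b z =>
  xiK x i0 b z * lamK z0 b z

variable [Fil] {k : ℕ} {s b : ℝ} {z0 : ℂ} {P : NUO.Par} {v : Bool → Fin 2 → ℂ}

/-- the constants of the one body functions of the two species -/
def ccq (m : ℕ) : Bool → ℂ := fun s => Leg.cc (cond s m (Fil.q * m))

/-- **the exact derivative** -/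
theorem fx_D (hP : NUGC.PLX.ParC P) (hb : 0 < b) (hb' : b ≤ 4 / 3) (hz : Lz z0)
    (hF : ∀ n ∈ range (2 * (k + 1) + 1), ∃ B, FFam (3 / 5 * l) n (n + Fil.xn (k + 1)) (fl P) B
      (xiK (PBZF.rwx k s) 0) (fun b w => deriv (xiR (PBZF.rwx k s) 0) (fp b w))
      (PBOb.aK (xiR (PBZF.rwx k s) 0)) (rhK2 (PBZF.rwx k s)) (krK2 (PBZF.rwx k s))
      (r1K2 (PBZF.rwx k s) 0) (lamK z0)) :
    HasDerivAt (fun η : ℝ => fxQ Fil.q k ((η : ℂ) * I) z0)
      (F0N (ZR (ccq (k + 1)) b k z0 s v s) P (3 / 5 * l) (2 * (k + 1))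
          (fun _ => Pf z0 (PBZF.rwx k s) (yq (PBZF.rwx k s)))
          (fun ι _ c z => nuQI (rhK2 (PBZF.rwx k s)) (PBOb.aK (xiR (PBZF.rwx k s) 0)) ι c z +
            nuI (rhK2 (PBZF.rwx k s)) (glK z0 (PBZF.rwx k s) 0) ι c z) +
        Pf z0 (PBZF.rwx k s) (yq (PBZF.rwx k s)) * ∑ n ∈ range (2 * (k + 1) + 1),
          F0D (3 / 5 * l) n (n + Fil.xn (k + 1)) (fl P) (ZR (ccq (k + 1)) b k z0 s v s)
            (Zcut (ZR (ccq (k + 1)) b k z0 s v s)
              (ZdR (ccq (k + 1)) b k z0 s v s)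
              (ZpR (ccq (k + 1)) b k z0 s v)
              (xiK (PBZF.rwx k s) 0) (krK2 (PBZF.rwx k s)) (r1K2 (PBZF.rwx k s) 0) (lamK z0))) s := by
  have hl := Bd.l_pos
  have hnum := Num2 (m := k + 1) (y := fun η : ℝ => PBZF.rwx k (η : ℂ)) (t := s) (z := z0) 0
    (rwx_deriv k s) (rwx_re k s)
    (by
      have h1 := hz.1
      have e : NUMF.l = NUP1.l := rfl
      rw [e]
      linarith)
    (by
      have h1 := hz.2
      have e : NUMF.l = NUP1.l := rfl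
      rw [e]
      linarith)
  have hN : -(Pf z0 (PBZF.rwx k s) (yq (PBZF.rwx k s)) *
      (C02 (PBZF.rwx k s) 0 + C1v2 z0 (PBZF.rwx k s) 0)) +
      Pf z0 (PBZF.rwx k s) (yq (PBZF.rwx k s)) *
        (PBI.C0 (rhK2 (PBZF.rwx k s)) (r1K2 (PBZF.rwx k s) 0) +
          C1 (rhK2 (PBZF.rwx k s)) (xiK (PBZF.rwx k s) 0) (lamK z0)) = 0 := by
    have e1 : PBI.C0 (rhK2 (PBZF.rwx k s)) (r1K2 (PBZF.rwx k s) 0) = C02 (PBZF.rwx k s) 0 := rfl
    have e2 : C1 (rhK2 (PBZF.rwx k s)) (xiK (PBZF.rwx k s) 0) (lamK z0) =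
      C1v2 z0 (PBZF.rwx k s) 0 := rfl
    rw [e1, e2]
    ring
  have key := fx_I1 (a := k) (v := v) hP hb hb' hz hF hnum hN
  refine key.congr_deriv ?_
  rw [Finset.sum_add_distrib, mul_add]
  congr 1
  unfold F0N
  rw [Finset.mul_sum, PBF.PLX.dN_two]
  rfl

/-- **72's `hD`** for one value of the rows and the legs -/
theorem hD_one {m A B X : ℂ} {f : ℝ → ℂ} {d1 d2 : ℝ} (h : HasDerivAt f (A + B) s)
    (hA : ‖m * A - X‖ ≤ d1) (hB : ‖B‖ ≤ d2) :
    ∃ D : ℂ, HasDerivAt f D s ∧ ‖m * D - X‖ ≤ d1 + ‖m‖ * d2 := by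
  refine ⟨A + B, h, ?_⟩
  have e : m * (A + B) - X = (m * A - X) + m * B := by ring
  rw [e]
  refine (norm_add_le _ _).trans (add_le_add hA ?_)
  rw [norm_mul]
  exact mul_le_mul_of_nonneg_left hB (norm_nonneg _)

end PBI.PLX

end
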