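import Pool.Agent.PLX.Ns
import Pool.Agent.PLX.PB.I1
import Pool.Agent.PLX.PB.FFam0
import Pool.Agent.PLX.PB.TopG0
import Pool.Agent.PLX.PB.ZFamR
import Pool.Agent.PLX.PB.ParZ
import Pool.Agent.PB.FarF
import Pool.Agent.PB.VInst

/-!
# Two fillings: 72's hypothesis `hD` of `E2_of`, from the total insertion (port of PB/I1F)

No kinds of objects in this file: the bound of the cut is the hypothesis `CutAllP`.

Rows `i s, 0^j` (`PBEI.rowS j s`), every one `q`-fold in the second group, legs at `i t`,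
`b = 4 (1 - ep) / 3`, `P = par0 (j + 1)`.

* `rwx_rowS`: the rows; `insT j s t`: the insertion `nuQI aK + nuI (Ξ λ)`; `F0T ep j s t`: its value
  `F0N` with the coefficients `Pf`; `ffamH`: the instance of `FFam`;
* `CutAllP`: the bound of the cut term of the first Ward identity;
* **`hD_of`**: `‖(j + 1) F0T - main‖ ≤ δa j` for large `j` gives `hD` with
  `δ0 j = δa j + e^2 (j + 1)^(-1 + d)`.
-/

set_option autoImplicit false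
set_option linter.unusedSectionVars false
set_option linter.unusedVariables false

noncomputable section

attribute [local instance] NUSea.seaP

open Complex MeasureTheory Finset Filter
open scoped Classical
open PLX (Fil)

namespace PBI.PLX

open NUP1 hiding Kd
open NUP1S NUP1.Bd NURow PB PBQ1 PBForce
open PBX (Lg)
open PBZF (Lz rwx)
open PBZF.PLX (ZR ZdR ZpR vE)
open PBRep.PLX (F0N)
open PBT.PLX (pL)
open Pool.Agent.PB (Pf)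
open _root_.Pool.Agent.PLX (fxQ yq)

theorem rwx_rowS (j : ℕ) (s : ℝ) : PBZF.rwx j (s : ℂ) = PBEI.rowS j s := by
  unfold PBZF.rwx PBEI.rowS
  rw [mul_comm]

theorem norm_ccL (m : ℕ) : ‖Leg.cc m‖ = 2 * Real.cos NUP1.l := by
  have hl := Bd.l_pos
  have hl2 : NUP1.l < Real.pi / 2 := by
    unfold NUP1.l
    linarith [Real.pi_pos]
  have hs : Complex.sin (NUP1.l : ℂ) ≠ 0 := by
    rw [← Complex.ofReal_sin]
    exact Complex.ofReal_ne_zero.2 (Real.sin_pos_of_pos_of_lt_pi hl (by linarith [Real.pi_pos])).ne'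
  have hc : 0 < Real.cos NUP1.l := Real.cos_pos_of_mem_Ioo ⟨by linarith [Real.pi_pos], hl2⟩
  have e : Complex.sin (2 * (NUP1.l : ℂ)) / Complex.sin NUP1.l = ((2 * Real.cos NUP1.l : ℝ) : ℂ) := by
    rw [Complex.sin_two_mul]
    push_cast
    field_simp
  unfold Leg.cc
  rw [norm_mul, norm_pow, norm_neg, norm_one, one_pow, one_mul, e, Complex.norm_real,
    Real.norm_of_nonneg (by positivity)]

variable [Fil]

/-- the total insertion -/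
def insT (j : ℕ) (s t : ℝ) : Ins := fun ι _ c z =>
  nuQI (rhK2 (PBEI.rowS j s)) (PBOb.aK (xiR (PBEI.rowS j s) 0)) ι c z +
    nuI (rhK2 (PBEI.rowS j s)) (glK (I * t) (PBEI.rowS j s) 0) ι c z

/-- its value, sum over the number of quanta, coefficients `Pf` -/
def F0T (ep : ℝ) (j : ℕ) (s t : ℝ) : ℂ :=
  F0N (PBT.PLX.ZL (ccq (j + 1)) j (4 / 3 * (1 - ep)) (I * s) (I * t)) (pL (j + 1))
    (3 / 5 * NUP1.l) (2 * (j + 1)) (fun _ => Pf (I * t) (PBEI.rowS j s) (yq (PBEI.rowS j s)))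
    (insT j s t)

theorem norm_ccq (m : ℕ) (s : Bool) : ‖ccq m s‖ = 2 * Real.cos NUP1.l := norm_ccL _

/-- **FFam at the rows `i s, 0^j`** -/
theorem ffamH (j : ℕ) (s t : ℝ) (n n' : ℕ) (hs : |s| ≤ 1) (ht : |t| ≤ 1) : ∃ B,
    FFam (3 / 5 * NUP1.l) n n' (fl (pL (j + 1))) B (xiK (PBEI.rowS j s) 0)
      (fun b w => deriv (xiR (PBEI.rowS j s) 0) (fp b w)) (PBOb.aK (xiR (PBEI.rowS j s) 0))
      (rhK2 (PBEI.rowS j s)) (krK2 (PBEI.rowS j s)) (r1K2 (PBEI.rowS j s) 0) (lamK (I * t)) := by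
  refine ffam (P := pL (j + 1)) ?_ (PBEI.rowS_ok j hs) 0 ?_ n n'
  · have hC : NUGC.PLX.ParC (pL (j + 1)) := PBF.PLX.parZ_parC (j + 1)
    exact ⟨rfl, le_rfl, hC.d0, fun r => by
      have h1 := hC.e2 r
      have h2 := hC.d0 r
      linarith⟩
  · rw [show (I * (t : ℂ)).re = 0 by simp, abs_zero]
    exact (half_pos NUMF.l_pos).le

/-- the class functions of the path are those of the dislocated function -/
theorem ZR_ZL (cc : Bool → ℂ) (b : ℝ) (k : ℕ) (z : ℂ) (η0 : ℝ) (v : Bool → Fin 2 → ℂ) :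
    ZR cc b k z η0 v η0 = PBT.PLX.ZL cc k b ((η0 : ℂ) * I) z := by
  have h0 : ∀ s, PBZF.vx η0 (v s) (η0 : ℂ) 0 = I := fun s => by rw [PBZF.vx_at]; rfl
  have h1 : ∀ s, PBZF.vx η0 (v s) (η0 : ℂ) 1 = -I := fun s => by rw [PBZF.vx_at]; rfl
  rw [PBZF.PLX.ZR_XXU]
  simp only [h0, h1]
  rfl

/-- the bound of the cut term of the first Ward identity -/
def CutAllP : Prop := ∀ d : ℝ, 0 < d → ∃ a0 : ℝ, 0 < a0 ∧
    ∀ ep : ℝ, 0 < ep → ep ≤ 1 / 100 → ∀ e1 : ℝ, 0 < e1 → e1 ≤ 1 / 100 → ∀ J : ℝ, 0 ≤ J →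
    Real.exp (-(2 * Real.pi * J)) + 3 * e1 + 3 * ep ≤ a0 → ∃ m0 : ℕ, ∀ k : ℕ, m0 ≤ k →
    ∀ η0 : ℝ, |η0| ≤ 1 → ∀ z : ℂ, Lz z → |z.im| ≤ 3 / 20 * Real.log (k + 1 : ℕ) + 2 →
    ∀ cc : Bool → ℂ, (∀ a, ‖cc a‖ = 2 * Real.cos NUP1.l) →
    ∀ v : Bool → Fin 2 → ℂ, v = vE (4 / 3 * (1 - ep)) k η0 (PBFar.xe k η0) →
    ‖Pool.Agent.PB.Pf z (PBZF.rwx k (η0 : ℂ)) (yq (PBZF.rwx k (η0 : ℂ))) *
      ∑ n ∈ range (2 * (k + 1) + 1), F0D (3 / 5 * NUP1.l) n (n + Fil.xn (k + 1)) (fl (pL (k + 1)))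
        (ZR cc (4 / 3 * (1 - ep)) k z η0 v η0)
        (Zcut (ZR cc (4 / 3 * (1 - ep)) k z η0 v η0) (ZdR cc (4 / 3 * (1 - ep)) k z η0 v η0)
          (ZpR cc (4 / 3 * (1 - ep)) k z η0 v) (PBQ1.xiK (PBZF.rwx k (η0 : ℂ)) 0)
          (PBQ1.krK2 (PBZF.rwx k (η0 : ℂ))) (PBQ1.r1K2 (PBZF.rwx k (η0 : ℂ)) 0) (PBQ1.lamK z))‖ ≤
      ((k + 1 : ℕ) : ℝ) ^ (-2 + d) * Real.exp (2 * |z.im|)

/-- **`hD` for large `j`** -/
theorem hD_of (hcut : CutAllP) {d : ℝ} (hd : 0 < d) : ∃ a0 : ℝ, 0 < a0 ∧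
    ∀ ep : ℝ, 0 < ep → ep ≤ 1 / 100 → ∀ e1 : ℝ, 0 < e1 → e1 ≤ 1 / 100 → ∀ J : ℝ, 0 ≤ J →
    Real.exp (-(2 * Real.pi * J)) + 3 * e1 + 3 * ep ≤ a0 →
    ∀ {main : ℕ → ℝ → ℝ → ℂ} {δa : ℕ → ℝ},
    (∀ᶠ j : ℕ in atTop, ∀ s ∈ Set.Icc (0 : ℝ) 1, ∀ t ∈ Set.Icc (0 : ℝ) 1,
      ‖((j + 1 : ℝ) : ℂ) * F0T ep j s t - main j s t‖ ≤ δa j) →
    ∀ᶠ j : ℕ in atTop, ∀ s ∈ Set.Icc (0 : ℝ) 1, ∀ t ∈ Set.Icc (0 : ℝ) 1, ∃ D : ℂ,
      HasDerivAt (fun s : ℝ => fxQ Fil.q j (I * s) (I * t)) D s ∧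
      ‖((j + 1 : ℝ) : ℂ) * D - main j s t‖ ≤
        δa j + Real.exp 2 * ((j + 1 : ℕ) : ℝ) ^ (-1 + d) := by
  obtain ⟨a0, ha0, HT⟩ := hcut d hd
  refine ⟨a0, ha0, fun ep hep hep1 e1 he he1 J hJ hsm main δa hmain => ?_⟩
  obtain ⟨m0, HT⟩ := HT ep hep hep1 e1 he he1 J hJ hsm
  filter_upwards [hmain, eventually_ge_atTop m0] with j h1 hj s hs t ht
  have hl := Bd.l_pos
  have hs1 : |s| ≤ 1 := abs_le.2 ⟨by linarith [hs.1], hs.2⟩
  have ht1 : |t| ≤ 1 := abs_le.2 ⟨by linarith [ht.1], ht.2⟩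
  have hre : (I * (t : ℂ)).re = 0 := by simp
  have him : (I * (t : ℂ)).im = t := by simp
  have hz : Lz (I * (t : ℂ)) := by
    constructor <;> rw [hre] <;> linarith
  have hP : NUGC.PLX.ParC (pL (j + 1)) := PBF.PLX.parZ_parC (j + 1)
  set v : Bool → Fin 2 → ℂ := vE (4 / 3 * (1 - ep)) j s (PBFar.xe j s) with hv
  have hb : (0 : ℝ) < 4 / 3 * (1 - ep) := by linarith
  have hb' : 4 / 3 * (1 - ep) ≤ 4 / 3 := by linarith
  have key := fx_D (k := j) (s := s) (b := 4 / 3 * (1 - ep)) (z0 := I * t) (v := v) hP hb hb' hz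
    (fun n _ => by
      have := ffamH j s t n (n + Fil.xn (j + 1)) hs1 ht1
      rw [← rwx_rowS] at this
      exact this)
  have hlog : 0 ≤ Real.log ((j + 1 : ℕ) : ℝ) := Real.log_nonneg (by
    have : (1 : ℝ) ≤ ((j + 1 : ℕ) : ℝ) := by exact_mod_cast Nat.succ_le_succ (Nat.zero_le j)
    exact this)
  have hc := HT j hj s hs1 (I * t) hz (by rw [him]; linarith [ht1]) (ccq (j + 1))
    (norm_ccq (j + 1)) v hv
  have efx : (fun s : ℝ => fxQ Fil.q j (I * s) (I * t)) =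
      fun η : ℝ => fxQ Fil.q j ((η : ℂ) * I) (I * t) := by
    funext η
    rw [mul_comm]
  rw [efx]
  have eA : F0T ep j s t = F0N (ZR (ccq (j + 1)) (4 / 3 * (1 - ep)) j (I * t) s v s)
      (pL (j + 1)) (3 / 5 * NUP1.l) (2 * (j + 1))
      (fun _ => Pf (I * t) (PBZF.rwx j s) (yq (PBZF.rwx j s)))
      (fun ι _ c z => nuQI (rhK2 (PBZF.rwx j s)) (PBOb.aK (xiR (PBZF.rwx j s) 0)) ι c z +
        nuI (rhK2 (PBZF.rwx j s)) (glK (I * t) (PBZF.rwx j s) 0) ι c z) := by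
    unfold F0T insT
    rw [rwx_rowS, ZR_ZL, mul_comm (s : ℂ) I]
  have h2 := h1 s hs t ht
  rw [eA] at h2
  have hcn := hD_one key h2 hc
  obtain ⟨D, hD, hb2⟩ := hcn
  refine ⟨D, hD, hb2.trans ?_⟩
  have hj0 : (0 : ℝ) < ((j + 1 : ℕ) : ℝ) := by positivity
  have en : ‖(((j : ℝ) + 1 : ℝ) : ℂ)‖ = ((j + 1 : ℕ) : ℝ) := by
    rw [Complex.norm_real, Real.norm_of_nonneg (by positivity)]
    push_cast
    ring
  have e2 : Real.exp (2 * |(I * (t : ℂ)).im|) ≤ Real.exp 2 := by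
    rw [him]
    exact Real.exp_le_exp.2 (by linarith)
  have e3 : ((j + 1 : ℕ) : ℝ) * ((j + 1 : ℕ) : ℝ) ^ (-2 + d) = ((j + 1 : ℕ) : ℝ) ^ (-1 + d) := by
    have h := Real.rpow_add hj0 1 (-2 + d)
    rw [Real.rpow_one] at h
    rw [← h]
    congr 1
    ring
  rw [en]
  have hp : 0 ≤ ((j + 1 : ℕ) : ℝ) ^ (-2 + d) := Real.rpow_nonneg hj0.le _
  calc δa j + ((j + 1 : ℕ) : ℝ) * (((j + 1 : ℕ) : ℝ) ^ (-2 + d) * Real.exp (2 * |(I * (t : ℂ)).im|))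
      ≤ δa j + ((j + 1 : ℕ) : ℝ) * (((j + 1 : ℕ) : ℝ) ^ (-2 + d) * Real.exp 2) := by gcongr
    _ = δa j + Real.exp 2 * (((j + 1 : ℕ) : ℝ) * ((j + 1 : ℕ) : ℝ) ^ (-2 + d)) := by ring
    _ = _ := by rw [e3]

end PBI.PLX

end
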