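import Pool.Agent.PLX.PB.HPot
import Pool.Agent.PLX.PotH.SrcAdd

/-!
# PLAX: contents of the chain (K): lists of moved rows

`E : Bool → List ℂ`: the moved rows of the two groups (in place of rows at `0`).

* `RL E ζ a t`: the potential of the moved rows on the quanta of species `a`;
* **`hsk_list_sm`**, **`hsk_list`**: atoms and moved rows are admissible up to a source;
* `rwO_pA`, `rwX_pA`: the factors of one row on the curve; **`prod_rw`**, **`prod_rw_pow`**: the product of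
  the factors of the moved rows (and of rows at `0`) is the factor of rows at `0` times `exp RL`;
* `HS_aleg`: legs at `z`, ends removed `κ` times, as atoms; **`hsk_ct`**: a content with legs.
-/

set_option autoImplicit false
set_option linter.unusedSectionVars false
set_option linter.unusedVariables false

open MeasureTheory Filter Topology Set Complex
open PLX (Fil)

namespace PBH.PLX

open NUMF (l l_pos)
open NUO (pA)
open PotH.PLX (HOk HSk CrvP)
open PBO.PLX (rwO rwX)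

noncomputable section

/-- **the potential of the moved rows** `E` on the quanta of species `a` -/
def RL (E : Bool → List ℂ) (ζ : Bool → ℝ → ℝ) (a : Bool) (t : ℝ) : ℝ :=
  ((E a).map fun x => RO x (ζ a) t).sum + ((E !a).map fun x => RX x (ζ a) t).sum

lemma RL_nil (ζ : Bool → ℝ → ℝ) (a : Bool) (t : ℝ) : RL (fun _ => []) ζ a t = 0 := by
  unfold RL
  simp

/-- the weights of one row of the group `c` -/
def kr (c a : Bool) : ℝ := if a = c then 1 else 0

lemma abs_kr (c a : Bool) : |kr c a| ≤ 1 := by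
  unfold kr
  split_ifs <;> simp

/-- one more row of the group `c` -/
def Ecs (E : Bool → List ℂ) (c : Bool) (x : ℂ) (a : Bool) : List ℂ := if a = c then x :: E a else E a

lemma RL_cons (E : Bool → List ℂ) (c : Bool) (x : ℂ) (ζ : Bool → ℝ → ℝ) (a : Bool) (t : ℝ) :
    RL (Ecs E c x) ζ a t = RL E ζ a t + RW (kr c) x ζ a t := by
  unfold RL RW Ecs kr
  cases a <;> cases c <;> simp <;> ring

/-- **atoms and moved rows are admissible up to a source**, curves with small derivatives -/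
theorem hsk_list_sm (n n' : ℕ) {K δ : ℝ} (hK : 0 ≤ K) (hδ : 0 < δ) (hδ1 : δ ≤ 1) (c1 : ℝ) :
    ∃ B0 N0 : ℝ, 0 ≤ B0 ∧ 0 ≤ N0 ∧ ∃ A0 : ℝ, 0 ≤ A0 ∧
      ∀ (ζ ζ1 : Bool → ℝ → ℝ), (∀ a, Sm (δ / 4) (ζ a) (ζ1 a)) →
      ∀ x : Bool → Fin n → Atm, AtOk K δ x →
      ∀ E : Bool → List ℂ, (E true).length + (E false).length ≤ n' →
      (∀ a, ∀ w ∈ E a, |w.re| ≤ l - δ ∧ |w.im| ≤ c1) →
      ∃ H' : Bool → ℝ → ℝ, ∀ th b A : ℝ, 0 ≤ th → A0 ≤ A →
        HSk B0 N0 th b A (fun a t => HS x ζ a t + RL E ζ a t) H' := by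
  obtain ⟨B1, N1, hB1, hN1, A1, hA1, H1⟩ := hok_sm n hK hδ hδ1
  obtain ⟨B2, N2, hB2, hN2, A2, hA2, H2⟩ := hsk_sm 0 (K := 1) zero_le_one hδ hδ1 c1
  refine ⟨B1 + n' * B2, 4 ^ n' * (N1 + N2), by positivity, by positivity, A1 + n' * A2, by positivity, ?_⟩
  intro ζ ζ1 hζ x hx
  have key : ∀ k : ℕ, ∀ E : Bool → List ℂ, (E true).length + (E false).length = k →
      (∀ a, ∀ w ∈ E a, |w.re| ≤ l - δ ∧ |w.im| ≤ c1) →
      ∃ H' : Bool → ℝ → ℝ, ∀ b : ℝ,
        HSk (B1 + k * B2) (4 ^ k * (N1 + N2)) 0 b (A1 + k * A2) (fun a t => HS x ζ a t + RL E ζ a t) H' := by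
    intro k
    induction k with
    | zero =>
      intro E hE _
      have h1 : E = fun _ => [] := by
        funext a
        cases a
        · exact List.length_eq_zero_iff.1 (by omega)
        · exact List.length_eq_zero_iff.1 (by omega)
      refine ⟨HS' x ζ ζ1, fun b => ?_⟩
      have h2 := (H1 ζ ζ1 hζ x hx 0 b A1 le_rfl le_rfl).hsk
      have e : (fun a t => HS x ζ a t + RL E ζ a t) = HS x ζ := by
        funext a t
        rw [h1, RL_nil, add_zero]
      rw [e, Nat.cast_zero, zero_mul, zero_mul, add_zero, add_zero, pow_zero, one_mul]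
      exact h2.mono_B le_rfl (by linarith)
    | succ k ih =>
      intro E hE hb
      obtain ⟨c, y, F, hF, hEF⟩ : ∃ (c : Bool) (y : ℂ) (F : Bool → List ℂ),
          (F true).length + (F false).length = k ∧ E = Ecs F c y := by
        rcases h1 : E true with _ | ⟨y, L⟩
        · rcases h2 : E false with _ | ⟨y, L⟩
          · rw [h1, h2] at hE
            simp at hE
          · refine ⟨false, y, fun a => cond a [] L, ?_, ?_⟩
            · rw [h1, h2] at hE
              simp at hE ⊢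
              omega
            · funext a
              cases a <;> simp [Ecs, h1, h2]
        · refine ⟨true, y, fun a => cond a L (E false), ?_, ?_⟩
          · rw [h1] at hE
            simp at hE ⊢
            omega
          · funext a
            cases a <;> simp [Ecs, h1]
      subst hEF
      obtain ⟨G', hG⟩ := ih F hF fun a w hw => hb a w (by
        unfold Ecs
        split_ifs
        · exact List.mem_cons_of_mem _ hw
        · exact hw)
      have hy := hb c y (by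
        unfold Ecs
        rw [if_pos rfl]
        exact List.mem_cons_self)
      refine ⟨fun a t => G' a t + (HS' (fun _ => Fin.elim0) ζ ζ1 a t + RW' (kr c) y ζ ζ1 a t), fun b => ?_⟩
      have h3 := H2 ζ ζ1 hζ (fun _ => Fin.elim0) (fun _ i => i.elim0) (kr c) y (abs_kr c) hy.1 hy.2 0 b A2
        le_rfl le_rfl
      have h4 := (hG b).add h3
      have e : (fun a t => HS x ζ a t + RL (Ecs F c y) ζ a t) = fun a t => HS x ζ a t + RL F ζ a t +
          (HS (fun _ => Fin.elim0) ζ a t + RW (kr c) y ζ a t) := by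
        funext a t
        have e0 : HS (fun _ => Fin.elim0) ζ a t = 0 := by
          unfold HS
          simp
        rw [RL_cons, e0]
        ring
      rw [e]
      have hp : (1 : ℝ) ≤ 4 ^ k := one_le_pow₀ (by norm_num)
      have h5 : 2 * (4 ^ k * (N1 + N2)) + 2 * N2 ≤ 4 ^ (k + 1) * (N1 + N2) := by
        rw [pow_succ]
        nlinarith [mul_nonneg (sub_nonneg.2 hp) (add_nonneg hN1 hN2)]
      have h6 := (h4.mono_B (B0' := B1 + (k + 1 : ℕ) * B2) (N0' := 4 ^ (k + 1) * (N1 + N2))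
        (by push_cast; linarith) h5).mono_A (A' := A1 + (k + 1 : ℕ) * A2) (by push_cast; linarith)
      exact h6.mono_th (by norm_num)
  intro E hE hb
  obtain ⟨H', h⟩ := key _ E rfl hb
  refine ⟨H', fun th b A hth hA => ?_⟩
  obtain ⟨k, hk⟩ : ∃ k : ℕ, k = (E true).length + (E false).length := ⟨_, rfl⟩
  have hkn : (k : ℝ) ≤ n' := by exact_mod_cast hk ▸ hE
  have h1 := h b
  rw [← hk] at h1 hE
  have h2 := mul_le_mul_of_nonneg_right hkn hB2
  have h3 := mul_le_mul_of_nonneg_right hkn hA2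
  have h4 : (4 : ℝ) ^ k ≤ 4 ^ n' := pow_le_pow_right₀ (by norm_num) hE
  have h5 := mul_le_mul_of_nonneg_right h4 (add_nonneg hN1 hN2)
  exact ((h1.mono_B (by linarith) h5).mono_A (by linarith)).mono_th hth

/-! ### the factors of the moved rows on the curve -/

variable {δ : ℝ} {η : ℝ → ℝ}

/-- **one row, own factor** -/
theorem rwO_pA (hδ : 0 < δ) (hη : ∀ t, |η t| ≤ δ / 2) {x : ℂ} (hx : |x.re| ≤ l - δ) (t : ℝ) :
    0 < rwO x (pA η t) ∧ 0 < rwO 0 (pA η t) ∧ rwO x (pA η t) = rwO 0 (pA η t) * Real.exp (RO x η t) := by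
  have hl := l_pos
  have h0 : |(0 : ℂ).re| ≤ l - δ := by
    rw [Complex.zero_re, abs_zero]
    exact (abs_nonneg _).trans hx
  have key : ∀ {y : ℂ}, |y.re| ≤ l - δ → 0 < rwO y (pA η t) ∧
      Real.log (rwO y (pA η t)) = -(NL (y.re + 3 * l) y.im η t + NL (y.re - 3 * l) y.im η t) := by
    intro y hy
    obtain ⟨-, p1, p2⟩ := row_pos hδ hη hy t
    obtain ⟨-, s2, s3⟩ := sin_row y η t
    have e : rwO y (pA η t) = (‖Complex.sin (pA η t - y)‖ * ‖Complex.sin (pA η t - y - 2 * l)‖)⁻¹ := rfl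
    rw [e]
    refine ⟨by positivity, ?_⟩
    rw [Real.log_inv, Real.log_mul p1.ne' p2.ne', s2, s3]
    rfl
  obtain ⟨a1, a2⟩ := key hx
  obtain ⟨b1, b2⟩ := key h0
  refine ⟨a1, b1, ?_⟩
  rw [Complex.zero_re, Complex.zero_im, zero_add, zero_sub] at b2
  rw [← Real.exp_log a1, ← Real.exp_log b1, ← Real.exp_add, a2, b2]
  congr 1
  unfold RO
  ring

/-- **one row, cross factor** -/
theorem rwX_pA (hδ : 0 < δ) (hη : ∀ t, |η t| ≤ δ / 2) {x : ℂ} (hx : |x.re| ≤ l - δ) (t : ℝ) :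
    0 < rwX x (pA η t) ∧ 0 < rwX 0 (pA η t) ∧ rwX x (pA η t) = rwX 0 (pA η t) * Real.exp (RX x η t) := by
  have hl := l_pos
  have h0 : |(0 : ℂ).re| ≤ l - δ := by
    rw [Complex.zero_re, abs_zero]
    exact (abs_nonneg _).trans hx
  have key : ∀ {y : ℂ}, |y.re| ≤ l - δ → 0 < rwX y (pA η t) ∧
      Real.log (rwX y (pA η t)) = 2 * NL y.re y.im η t := by
    intro y hy
    obtain ⟨p0, -, -⟩ := row_pos hδ hη hy t
    obtain ⟨s1, -, -⟩ := sin_row y η t
    have e : rwX y (pA η t) = ‖Complex.sin (pA η t - y + 3 * l)‖ ^ 2 := rfl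
    rw [e]
    refine ⟨by positivity, ?_⟩
    rw [Real.log_pow, s1]
    push_cast
    rfl
  obtain ⟨a1, a2⟩ := key hx
  obtain ⟨b1, b2⟩ := key h0
  refine ⟨a1, b1, ?_⟩
  rw [Complex.zero_re, Complex.zero_im] at b2
  rw [← Real.exp_log a1, ← Real.exp_log b1, ← Real.exp_add, a2, b2]
  congr 1
  unfold RX
  ring

lemma prod_exp_list (L : List ℂ) (f g : ℂ → ℝ) (c : ℝ) (h : ∀ x ∈ L, f x = c * Real.exp (g x)) :
    (L.map f).prod = c ^ L.length * Real.exp (L.map g).sum := by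
  induction L with
  | nil => simp
  | cons x L ih =>
    rw [List.map_cons, List.prod_cons, List.map_cons, List.sum_cons, Real.exp_add, List.length_cons,
      ih fun y hy => h y (by simp [hy]), h x (by simp)]
    ring

/-- **the product of the factors of the moved rows on the curve** -/
theorem prod_rw (hδ : 0 < δ) {ζ : Bool → ℝ → ℝ} (hζ : ∀ a t, |ζ a t| ≤ δ / 2) {E : Bool → List ℂ}
    (hE : ∀ a, ∀ w ∈ E a, |w.re| ≤ l - δ) (a : Bool) (t : ℝ) :
    ((E a).map fun x => rwO x (pA (ζ a) t)).prod * ((E !a).map fun x => rwX x (pA (ζ a) t)).prod =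
      rwO 0 (pA (ζ a) t) ^ (E a).length * rwX 0 (pA (ζ a) t) ^ (E !a).length *
        Real.exp (RL E ζ a t) := by
  rw [prod_exp_list (E a) _ (fun x => RO x (ζ a) t) (rwO 0 (pA (ζ a) t)) fun x hx =>
      (rwO_pA hδ (hζ a) (hE a x hx) t).2.2,
    prod_exp_list (E !a) _ (fun x => RX x (ζ a) t) (rwX 0 (pA (ζ a) t)) fun x hx =>
      (rwX_pA hδ (hζ a) (hE (!a) x hx) t).2.2]
  unfold RL
  rw [Real.exp_add]
  ring

/-- **the rows of a content**: moved rows `E`, `k a` rows at `0` -/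
theorem prod_rw_pow (hδ : 0 < δ) {ζ : Bool → ℝ → ℝ} (hζ : ∀ a t, |ζ a t| ≤ δ / 2) {E : Bool → List ℂ}
    (hE : ∀ a, ∀ w ∈ E a, |w.re| ≤ l - δ) (k : Bool → ℕ) (a : Bool) (t : ℝ) :
    ((E a ++ List.replicate (k a) 0).map fun x => rwO x (pA (ζ a) t)).prod *
      ((E (!a) ++ List.replicate (k !a) 0).map fun x => rwX x (pA (ζ a) t)).prod =
      rwO 0 (pA (ζ a) t) ^ ((E a).length + k a) * rwX 0 (pA (ζ a) t) ^ ((E !a).length + k !a) *
        Real.exp (RL E ζ a t) := by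
  rw [List.map_append, List.prod_append, List.map_append, List.prod_append, List.map_replicate,
    List.prod_replicate, List.map_replicate, List.prod_replicate]
  have h := prod_rw hδ hζ hE a t
  calc _ = (((E a).map fun x => rwO x (pA (ζ a) t)).prod *
        ((E !a).map fun x => rwX x (pA (ζ a) t)).prod) *
        (rwO 0 (pA (ζ a) t) ^ k a * rwX 0 (pA (ζ a) t) ^ k !a) := by ring
    _ = _ := by
      rw [h, pow_add, pow_add]
      ring

/-! ### contents with legs, the curves of the chain -/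

lemma HS_aleg (hδ : 0 < δ) (hδ1 : δ ≤ l / 2) {ζ : Bool → ℝ → ℝ} (hζ : ∀ a t, |ζ a t| ≤ δ / 2) (κ : ℝ)
    (z : ℂ) (a : Bool) (t : ℝ) : HS (aleg 0 κ z) ζ a t =
      AT z.re (z.re - 3 * l) z.im (ζ a) t - κ * Real.log (NUGC.PLX.ThN (pA (ζ a) t)) := by
  rw [(ThN_pA hδ hδ1 (hζ a) t).2]
  unfold HS aleg
  simp only [Fin.sum_univ_succ, Matrix.cons_val_zero, Matrix.cons_val_succ, Fin.sum_univ_zero,
    Matrix.cons_val_fin_one]
  ring

variable [Fil]

section

variable [NUSea.Sea]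

/-- **atoms and moved rows are admissible up to a source**, the curves of the chain -/
theorem hsk_list (n n' : ℕ) {K δ : ℝ} (hK : 0 ≤ K) (hδ : 0 < δ) (hδ1 : δ ≤ 1) (c1 : ℝ) :
    ∃ B0 N0 : ℝ, 0 ≤ B0 ∧ 0 ≤ N0 ∧ ∀ e1 : ℝ, 0 < e1 → ∃ m0 : ℕ, ∀ m : ℕ, m0 ≤ m →
      ∀ (Cc : ℝ) (η η1 : ℝ → ℝ), CrvP e1 Cc m η η1 → (∀ t, |η t| ≤ δ / 4) ∧
      ∀ x : Bool → Fin n → Atm, AtOk K δ x →
      ∀ E : Bool → List ℂ, (E true).length + (E false).length ≤ n' →
      (∀ a, ∀ w ∈ E a, |w.re| ≤ l - δ ∧ |w.im| ≤ c1) →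
      ∃ H' : Bool → ℝ → ℝ, ∀ th b : ℝ, 0 ≤ th → HSk B0 N0 th b (Real.log m ^ 3)
        (fun a t => HS x (fun a => Fil.cv a η) a t + RL E (fun a => Fil.cv a η) a t) H' := by
  obtain ⟨B0, N0, hB0, hN0, A0, hA0, H⟩ := hsk_list_sm n n' hK hδ hδ1 c1
  refine ⟨B0, N0, hB0, hN0, fun e1 he1 => ?_⟩
  obtain ⟨m0, hm0⟩ := eventually_small (A0 := A0) he1 (by linarith : (0 : ℝ) < δ / 4)
  refine ⟨m0, fun m hm Cc η η1 hη => ?_⟩
  obtain ⟨a1, a2⟩ := hm0 m hm
  have hS := sm_of hη a1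
  refine ⟨hS.le, fun x hx E hE hb => ?_⟩
  obtain ⟨H', h⟩ := H _ _ (fun a => hS.cv a) x hx E hE hb
  exact ⟨H', fun th b hth => h th b _ hth a2⟩

/-- **a content with legs at `z`**, ends removed `κ` times: admissible up to a source -/
theorem hsk_ct (n' : ℕ) {δ : ℝ} (hδ : 0 < δ) (hδ1 : δ ≤ l / 2) (c1 : ℝ) :
    ∃ B0 N0 : ℝ, 0 ≤ B0 ∧ 0 ≤ N0 ∧ ∀ e1 : ℝ, 0 < e1 → ∃ m0 : ℕ, ∀ m : ℕ, m0 ≤ m →
      ∀ (Cc : ℝ) (η η1 : ℝ → ℝ), CrvP e1 Cc m η η1 → (∀ t, |η t| ≤ δ / 4) ∧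
      ∀ (κ : ℝ) (z : ℂ) (E : Bool → List ℂ), |κ| ≤ 2 → -l + δ ≤ z.re → z.re ≤ 4 * l - δ →
      (E true).length + (E false).length ≤ n' →
      (∀ a, ∀ w ∈ E a, |w.re| ≤ l - δ ∧ |w.im| ≤ c1) →
      ∃ H' : Bool → ℝ → ℝ, ∀ th b : ℝ, 0 ≤ th → HSk B0 N0 th b (Real.log m ^ 3)
        (fun a t => AT z.re (z.re - 3 * l) z.im (Fil.cv a η) t -
          κ * Real.log (NUGC.PLX.ThN (pA (Fil.cv a η) t)) + RL E (fun a => Fil.cv a η) a t) H' := by
  have hl := l_pos
  have h8 := l8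
  have hpi := Real.pi_lt_four
  obtain ⟨B0, N0, hB0, hN0, H⟩ := hsk_list 5 n' (K := 2) (by norm_num) hδ (by linarith) c1
  refine ⟨B0, N0, hB0, hN0, fun e1 he1 => ?_⟩
  obtain ⟨m0, hm0⟩ := H e1 he1
  refine ⟨m0, fun m hm Cc η η1 hη => ?_⟩
  obtain ⟨hs, h⟩ := hm0 m hm Cc η η1 hη
  refine ⟨hs, fun κ z E hκ h0 h1 hE hb => ?_⟩
  obtain ⟨H', h2⟩ := h (aleg 0 κ z) (aleg_ok hκ (by norm_num) hδ hδ1 h0 h1) E hE hb
  refine ⟨H', fun th b hth => ?_⟩
  have h3 := h2 th b hth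
  have hη2 : ∀ a t, |Fil.cv a η t| ≤ δ / 2 := fun a t =>
    Fil.abs_cv_le_of ((hs t).trans (by linarith))
  have e : (fun a t => HS (aleg 0 κ z) (fun a => Fil.cv a η) a t + RL E (fun a => Fil.cv a η) a t) =
      fun a t => AT z.re (z.re - 3 * l) z.im (Fil.cv a η) t -
        κ * Real.log (NUGC.PLX.ThN (pA (Fil.cv a η) t)) + RL E (fun a => Fil.cv a η) a t := by
    funext a t
    rw [HS_aleg hδ hδ1 hη2]
  rw [e] at h3
  exact h3

end

end

end PBH.PLX
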