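import Pool.Agent.PLX.Ns
import Pool.Agent.PB.Far3

/-!
# Plan B, far end: rows `x ^ q, 0 ^ a` and the moving points `I`, `-I` (port PLX of the last part of Far3:
the moved row `q`-fold)
-/

set_option autoImplicit false
set_option linter.unusedSectionVars false

open Complex Finset

noncomputable section

namespace PBFar.PLX

open NUP1 NURow

/-! ### rows at `0` -/

/-- the rows: `q` rows at `x`, `a` rows at `0` -/
def R0 (q a : ℕ) (x : ℂ) : List ℂ := List.replicate q x ++ List.replicate a 0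

/-- the list of the cutoff: `q` rows at `x`, `a` rows at `0`, the extra points -/
def W0 (q a : ℕ) (x : ℂ) (e : Fin 2 → ℂ) : List ℂ := R0 q a x ++ [e 0, e 1]

theorem phi_W0 (b : ℝ) (q a : ℕ) (x : ℂ) (e : Fin 2 → ℂ) (u : ℂ) :
    NUP1.phi b (W0 q a x e) u = phiW b 0 a (Sum.elim (fun _ : Fin q => x) e) u := by
  unfold NUP1.phi phiW Bk prd W0 R0
  rw [List.map_append, List.prod_append, List.map_append, List.prod_append, List.map_replicate,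
    List.map_replicate, List.prod_replicate, List.prod_replicate, Fintype.prod_sum_type,
    Fin.prod_univ_two]
  simp only [List.map_cons, List.map_nil, List.prod_cons, List.prod_nil, Sum.elim_inl, Sum.elim_inr,
    sub_zero, pow_zero, mul_one, one_mul, Finset.prod_const, Finset.card_univ, Fintype.card_fin]
  ring

/-- rows only -/
theorem phi_R0 (b : ℝ) (q a : ℕ) (x : ℂ) (u : ℂ) :
    NUP1.phi b (R0 q a x) u = phiW b 0 a (fun _ : Fin q => x) u := by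
  unfold NUP1.phi phiW Bk prd R0
  rw [List.map_append, List.prod_append, List.map_replicate, List.map_replicate,
    List.prod_replicate, List.prod_replicate]
  simp only [sub_zero, pow_zero, one_mul, Finset.prod_const, Finset.card_univ, Fintype.card_fin]
  ring

/-- the points -/
theorem pts_q (q : ℕ) {x : ℂ} (hx : |x.re| ≤ l / 2) (hx' : |x.im| ≤ 2) : Pts (fun _ : Fin q => x) :=
  ⟨fun _ => hx, fun _ => hx'⟩

theorem card_q (q : ℕ) : Fintype.card (Fin q ⊕ Fin 2) = q + 2 := by simp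

/-- **upper bound of the cutoff**, rows `x ^ q, 0 ^ a` and `± I` -/
theorem phi_le {b s : ℝ} (h : Hyp b s) {q a : ℕ} (ha : n0 b s (q + 2) ≤ a) {x u : ℂ}
    (hx : |x.re| ≤ l / 2) (hx' : |x.im| ≤ 2) (hu : |u.re + l / 2| ≤ s) :
    ‖NUP1.phi b (W0 q a x wE) u‖ ≤ CK b s (q + 2) * min 1 (a * Real.exp (-(2 * b * |u.im|))) := by
  obtain ⟨h1, h2⟩ := n0_spec h ha
  have := phiW_le h hu (pts_q q hx hx').ext (M := 0) (a := a) h1 (by rw [card_q]; exact h2)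
  rw [phi_W0]
  unfold yy at this
  rw [card_q] at this
  simpa using this

/-- **lower bound of the cutoff**, rows `x ^ q, 0 ^ a` and `± I` -/
theorem phi_ge {b s : ℝ} (h : Hyp b s) {q a : ℕ} (ha : n0 b s (q + 2) ≤ a) {x u : ℂ}
    (hx : |x.re| ≤ l / 2) (hx' : |x.im| ≤ 2) (hu : |u.re + l / 2| ≤ s) :
    min 1 (c1 b s / 2) / 2 * min 1 (a * Real.exp (-(2 * b * |u.im|))) ≤
      ‖NUP1.phi b (W0 q a x wE) u‖ := by
  obtain ⟨h1, h2⟩ := n0_spec h ha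
  have := phiW_ge_min h hu (pts_q q hx hx').ext (M := 0) (a := a) (by rw [card_q]; exact h2)
  rw [phi_W0]
  unfold yy at this
  simpa using this

/-- rows only -/
theorem phi_le_R {b s : ℝ} (h : Hyp b s) {q a : ℕ} (ha : n0 b s q ≤ a) {x u : ℂ}
    (hx : |x.re| ≤ l / 2) (hx' : |x.im| ≤ 2) (hu : |u.re + l / 2| ≤ s) :
    ‖NUP1.phi b (R0 q a x) u‖ ≤ CK b s q * min 1 (a * Real.exp (-(2 * b * |u.im|))) := by
  obtain ⟨h1, h2⟩ := n0_spec h ha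
  have := phiW_le h hu (pts_q q hx hx') (M := 0) (a := a) h1 (by rw [Fintype.card_fin]; exact h2)
  rw [phi_R0]
  unfold yy at this
  rw [Fintype.card_fin] at this
  simpa using this

/-- rows only -/
theorem phi_ge_R {b s : ℝ} (h : Hyp b s) {q a : ℕ} (ha : n0 b s q ≤ a) {x u : ℂ}
    (hx : |x.re| ≤ l / 2) (hx' : |x.im| ≤ 2) (hu : |u.re + l / 2| ≤ s) :
    min 1 (c1 b s / 2) / 2 * min 1 (a * Real.exp (-(2 * b * |u.im|))) ≤
      ‖NUP1.phi b (R0 q a x) u‖ := by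
  obtain ⟨h1, h2⟩ := n0_spec h ha
  have := phiW_ge_min h hu (pts_q q hx hx') (M := 0) (a := a) (by rw [Fintype.card_fin]; exact h2)
  rw [phi_R0]
  unfold yy at this
  simpa using this

/-- velocities of `± I` for the rows at `x` with velocity `v` and the limits `ξe` of the field -/
def vI (q : ℕ) (b : ℝ) (a : ℕ) (x v : ℂ) (ξe : ℝ → ℂ) : Fin 2 → ℂ :=
  vE b 0 a (fun _ : Fin q => x) (fun _ => v) ξe

/-- `(∂_η + ξ ∂_t) phi_b` for the moving list `W0 q a x (± I)`, at `u` -/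
def DW (q : ℕ) (b : ℝ) (a : ℕ) (x v : ℂ) (ξe : ℝ → ℂ) (ξ u : ℂ) : ℂ :=
  Dph b 0 a (Sum.elim (fun _ : Fin q => x) wE) (Sum.elim (fun _ => v) (vI q b a x v ξe)) ξ u

/-- `(∂_η + ξ ∂_t) phi_b` for the rows only, at `u` -/
def DR (q : ℕ) (b : ℝ) (a : ℕ) (x v ξ u : ℂ) : ℂ :=
  Dph b 0 a (fun _ : Fin q => x) (fun _ => v) ξ u

/-- derivative along a path, moving list with the extra points -/
theorem hasDerivAt_W {b s : ℝ} (h : Hyp b s) {q a : ℕ} {x v : ℂ} (hx : |x.re| ≤ l / 2)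
    {ξe : ℝ → ℂ} {X : ℝ → ℂ} {e : ℝ → Fin 2 → ℂ} {u : ℝ → ℂ} {ξ : ℂ} {τ : ℝ}
    (hX : HasDerivAt X v τ) (hXτ : X τ = x)
    (he : ∀ i, HasDerivAt (fun τ => e τ i) (vI q b a x v ξe i) τ) (heτ : e τ = wE)
    (hu : HasDerivAt u (I * ξ) τ) (hs : |(u τ).re + l / 2| ≤ s) :
    HasDerivAt (fun τ => NUP1.phi b (W0 q a (X τ) (e τ)) (u τ)) (DW q b a x v ξe ξ (u τ)) τ := by
  have hl := l_pos
  have h1 := hasDerivAt_phiW h (M := 0) (a := a)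
    (w := fun τ => Sum.elim (fun _ : Fin q => X τ) (e τ))
    (v := Sum.elim (fun _ => v) (vI q b a x v ξe)) (u := u) (ξ := ξ) (τ := τ) (by
      rintro (i | i)
      · exact hX
      · exact he i) hu hs (by
      rintro (i | i)
      · simp only [Sum.elim_inl]; rw [hXτ]; exact hx
      · simp only [Sum.elim_inr]; rw [heτ]
        fin_cases i <;> simp [wE] <;> positivity)
  have e1 : (fun τ => NUP1.phi b (W0 q a (X τ) (e τ)) (u τ)) =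
      fun τ => phiW b 0 a (Sum.elim (fun _ : Fin q => X τ) (e τ)) (u τ) := by
    funext τ
    exact phi_W0 b q a (X τ) (e τ) (u τ)
  rw [e1]
  unfold DW
  rw [← heτ, ← hXτ]
  rw [← hXτ] at h1
  exact h1

/-- derivative along a path, rows only -/
theorem hasDerivAt_R {b s : ℝ} (h : Hyp b s) {q a : ℕ} {x v : ℂ} (hx : |x.re| ≤ l / 2)
    {X : ℝ → ℂ} {u : ℝ → ℂ} {ξ : ℂ} {τ : ℝ} (hX : HasDerivAt X v τ) (hXτ : X τ = x)
    (hu : HasDerivAt u (I * ξ) τ) (hs : |(u τ).re + l / 2| ≤ s) :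
    HasDerivAt (fun τ => NUP1.phi b (R0 q a (X τ)) (u τ)) (DR q b a x v ξ (u τ)) τ := by
  have h1 := hasDerivAt_phiW h (M := 0) (a := a) (w := fun τ => (fun _ : Fin q => X τ))
    (v := fun _ => v) (u := u) (ξ := ξ) (τ := τ) (fun _ => hX) hu hs
    (fun _ => by rw [hXτ]; exact hx)
  have e1 : (fun τ => NUP1.phi b (R0 q a (X τ)) (u τ)) =
      fun τ => phiW b 0 a (fun _ : Fin q => X τ) (u τ) := by
    funext τ
    exact phi_R0 b q a (X τ) (u τ)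
  rw [e1]
  unfold DR
  rw [← hXτ]
  exact h1

/-- constant of `far_W` -/
def CW (q : ℕ) (b s C0 : ℝ) : ℝ := CF b s (CT b C0 q) (q + 2)

theorem trW {b s : ℝ} (h : Hyp b s) {q a : ℕ} (ha : 1 ≤ 0 + a) {x v : ℂ} (hx : |x.re| ≤ l / 2)
    (hx' : |x.im| ≤ 2) {C0 : ℝ} (hv : ‖v‖ ≤ C0) {ξ ξe : ℝ → ℂ} (hF : Fl a C0 ξ ξe) :
    Tr b 0 a (Sum.elim (fun _ : Fin q => x) wE) (Sum.elim (fun _ => v) (vI q b a x v ξe)) ξ ξe
      (CT b C0 q) 0 := by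
  have := tr_ext h.b1 ha (pts_q q hx hx') (v := fun _ : Fin q => v) (fun _ => hv)
    (ξ := ξ) (ξe := ξe) (C0 := C0) (by simpa using hF.lim) (by simpa using hF.dec)
  rw [Fintype.card_fin] at this
  exact this

/-- **(FAR)**: `|(∂_η + ξ ∂_t) phi| ≤ C a ^ (-3) |phi|` for the moving list `W0 q a x (± I)` -/
theorem far_W {b s : ℝ} (h : Hyp b s) {q a : ℕ} (ha : n0 b s (q + 2) ≤ a) {x v : ℂ}
    (hx : |x.re| ≤ l / 2)
    (hx' : |x.im| ≤ 2) {C0 : ℝ} (hv : ‖v‖ ≤ C0) {ξ ξe : ℝ → ℂ} (hF : Fl a C0 ξ ξe) {u : ℂ}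
    (hu : |u.re + l / 2| ≤ s) :
    ‖DW q b a x v ξe (ξ u.im) u‖ ≤ CW q b s C0 / (a : ℝ) ^ 3 * ‖NUP1.phi b (W0 q a x wE) u‖ := by
  obtain ⟨h1, h2⟩ := n0_spec h ha
  have := FAR h hu h1 (trW (q := q) h h1 hx hx' hv hF) (by rw [card_q]; exact h2)
  rw [card_q] at this
  rw [phi_W0]
  unfold DW CW
  simpa using this

/-- far part in terms of the product `1 - phi` -/
theorem far_W_prod {b s : ℝ} (h : Hyp b s) {q a : ℕ} (ha : 1 ≤ a) {x v : ℂ} (hx : |x.re| ≤ l / 2)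
    (hx' : |x.im| ≤ 2) {C0 : ℝ} (hv : ‖v‖ ≤ C0) {ξ ξe : ℝ → ℂ} (hF : Fl a C0 ξ ξe) {u : ℂ}
    (hu : |u.re + l / 2| ≤ s) (ht : 3 ≤ |u.im|) :
    ‖DW q b a x v ξe (ξ u.im) u‖ ≤
      (CT b C0 q * (11 * (2 + ((q + 2 : ℕ) : ℝ) * Real.exp (4 * b)) +
        200 * Real.exp (12 * b) * ((q + 2 : ℕ) : ℝ) * 3 + 800)) *
        Real.exp (-(6 * b * |u.im|)) * ‖1 - NUP1.phi b (W0 q a x wE) u‖ := by
  have h1 : 1 ≤ 0 + a := by rwa [zero_add]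
  obtain ⟨σ, hσ, hσu⟩ : ∃ σ : ℝ, (σ = 1 ∨ σ = -1) ∧ σ * u.im = |u.im| := by
    rcases le_total 0 u.im with h0 | h0
    · exact ⟨1, Or.inl rfl, by rw [one_mul, abs_of_nonneg h0]⟩
    · exact ⟨-1, Or.inr rfl, by rw [abs_of_nonpos h0]; ring⟩
  have := Dph_far h hu hσ (by rw [hσu]; exact ht) h1 (trW (q := q) h h1 hx hx' hv hF)
  rw [hσu, card_q] at this
  rw [phi_W0]
  unfold DW
  unfold phiW
  rw [sub_sub_cancel]
  refine this.trans (le_of_eq ?_)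
  rw [mul_zero, zero_mul, add_zero]

theorem trR {b : ℝ} {q a : ℕ} {x v : ℂ} (hx : |x.re| ≤ l / 2)
    (hx' : |x.im| ≤ 2) {C0 δ : ℝ} (hv : ‖v‖ ≤ C0) {ξ ξe : ℝ → ℂ} (hF : Fl a C0 ξ ξe)
    (hδ : ∀ σ : ℝ, (σ = 1 ∨ σ = -1) →
      ‖q * (v * Ep σ b x) - I * ξe σ * (a + q * Ep σ b x)‖ ≤ δ) :
    Tr b 0 a (fun _ : Fin q => x) (fun _ => v) ξ ξe C0 δ :=
  ⟨pts_q q hx hx', fun _ => hv, fun σ hσ => by
    have := hδ σ hσ
    simpa using this,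
    fun σ hσ => by simpa using hF.lim σ hσ, fun σ hσ t ht => by simpa using hF.dec σ hσ t ht⟩

/-- rows only, far part in terms of the product `1 - phi`; `δ` = error of the transport condition -/
theorem far_R_prod {b s : ℝ} (h : Hyp b s) {q a : ℕ} (ha : 1 ≤ a) {x v : ℂ} (hx : |x.re| ≤ l / 2)
    (hx' : |x.im| ≤ 2) {C0 δ : ℝ} (hv : ‖v‖ ≤ C0) {ξ ξe : ℝ → ℂ} (hF : Fl a C0 ξ ξe)
    (hδ : ∀ σ : ℝ, (σ = 1 ∨ σ = -1) →
      ‖q * (v * Ep σ b x) - I * ξe σ * (a + q * Ep σ b x)‖ ≤ δ) {u : ℂ}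
    (hu : |u.re + l / 2| ≤ s) (ht : 3 ≤ |u.im|) :
    ‖DR q b a x v (ξ u.im) u‖ ≤
      ((C0 * (11 * (2 + q * Real.exp (4 * b)) + 200 * Real.exp (12 * b) * q * 3 + 800)) *
        Real.exp (-(6 * b * |u.im|)) + 11 * δ * Real.exp (-(2 * b * |u.im|))) *
        ‖1 - NUP1.phi b (R0 q a x) u‖ := by
  have h1 : 1 ≤ 0 + a := by rwa [zero_add]
  obtain ⟨σ, hσ, hσu⟩ : ∃ σ : ℝ, (σ = 1 ∨ σ = -1) ∧ σ * u.im = |u.im| := by
    rcases le_total 0 u.im with h0 | h0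
    · exact ⟨1, Or.inl rfl, by rw [one_mul, abs_of_nonneg h0]⟩
    · exact ⟨-1, Or.inr rfl, by rw [abs_of_nonpos h0]; ring⟩
  have := Dph_far h hu hσ (by rw [hσu]; exact ht) h1 (trR (b := b) (q := q) hx hx' hv hF hδ)
  rw [hσu, Fintype.card_fin] at this
  rw [phi_R0]
  unfold DR
  unfold phiW
  rw [sub_sub_cancel]
  exact this

/-- rows only, error `δ` of the transport condition -/
theorem far_R_tr {b s : ℝ} (h : Hyp b s) {q a : ℕ} (ha : n0 b s q ≤ a) {x v : ℂ} (hx : |x.re| ≤ l / 2)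
    (hx' : |x.im| ≤ 2) {C0 δ : ℝ} (hv : ‖v‖ ≤ C0) {ξ ξe : ℝ → ℂ} (hF : Fl a C0 ξ ξe)
    (hδ : ∀ σ : ℝ, (σ = 1 ∨ σ = -1) →
      ‖q * (v * Ep σ b x) - I * ξe σ * (a + q * Ep σ b x)‖ ≤ δ) {u : ℂ}
    (hu : |u.re + l / 2| ≤ s) :
    ‖DR q b a x v (ξ u.im) u‖ ≤ (CF b s C0 q / (a : ℝ) ^ 3 + 22 / c1 b s * δ / a) *
      ‖NUP1.phi b (R0 q a x) u‖ := by
  obtain ⟨h1, h2⟩ := n0_spec h ha
  have := FAR h hu h1 (trR (q := q) hx hx' hv hF hδ) (by rw [Fintype.card_fin]; exact h2)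
  rw [Fintype.card_fin] at this
  rw [phi_R0]
  unfold DR
  simpa using this

theorem norm_vI_le {b s : ℝ} (h : Hyp b s) {q a : ℕ} (ha : n0 b s (q + 2) ≤ a) {x v : ℂ}
    (hx : |x.re| ≤ l / 2) (hx' : |x.im| ≤ 2) {C0 : ℝ} (hv : ‖v‖ ≤ C0) {ξ ξe : ℝ → ℂ}
    (hF : Fl a C0 ξ ξe) (i : Fin 2) : ‖vI q b a x v ξe i‖ ≤ CT b C0 q := by
  simpa using (trW (q := q) h (n0_spec h ha).1 hx hx' hv hF).vel (Sum.inr i)

/-- the cut of `St`: `phi_b (w) phi_b (w - l) - phi_{4/3} (w)` -/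
def cutT (q : ℕ) (b : ℝ) (a : ℕ) (x : ℂ) (e : Fin 2 → ℂ) (w : ℂ) : ℂ :=
  NUP1.phi b (W0 q a x e) w * NUP1.phi b (W0 q a x e) (w - l) - NUP1.phi (4 / 3) (R0 q a x) w

/-- `(∂_η + ξ ∂_t)` of the cut of `St` -/
def DT (q : ℕ) (b : ℝ) (a : ℕ) (x v : ℂ) (ξe : ℝ → ℂ) (ξ w : ℂ) : ℂ :=
  DW q b a x v ξe ξ w * NUP1.phi b (W0 q a x wE) (w - l) +
    NUP1.phi b (W0 q a x wE) w * DW q b a x v ξe ξ (w - l) - DR q (4 / 3) a x v ξ w

theorem hasDerivAt_T {b s s' : ℝ} (h : Hyp b s) (h' : Hyp (4 / 3) s') {q a : ℕ} {x v : ℂ}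
    (hx : |x.re| ≤ l / 2) {ξe : ℝ → ℂ} {X : ℝ → ℂ} {e : ℝ → Fin 2 → ℂ} {u : ℝ → ℂ} {ξ : ℂ} {τ : ℝ}
    (hX : HasDerivAt X v τ) (hXτ : X τ = x)
    (he : ∀ i, HasDerivAt (fun τ => e τ i) (vI q b a x v ξe i) τ) (heτ : e τ = wE)
    (hu : HasDerivAt u (I * ξ) τ) (hs : |(u τ).re + l / 2| ≤ s) (hs1 : |(u τ - l).re + l / 2| ≤ s)
    (hs' : |(u τ).re + l / 2| ≤ s') :
    HasDerivAt (fun τ => cutT q b a (X τ) (e τ) (u τ)) (DT q b a x v ξe ξ (u τ)) τ := by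
  have h1 := hasDerivAt_W h hx hX hXτ he heτ hu hs
  have h2 := hasDerivAt_W h hx hX hXτ he heτ (hu.sub_const (l : ℂ)) hs1
  have h3 := hasDerivAt_R h' (q := q) (a := a) hx hX hXτ hu hs'
  unfold cutT DT
  refine ((h1.mul h2).sub h3).congr_deriv ?_
  rw [hXτ, heτ]

/-! ### one-fold: the landed objects -/

theorem R0_one (a : ℕ) (x : ℂ) : R0 1 a x = x :: List.replicate a 0 := rfl

theorem W0_one (a : ℕ) (x : ℂ) (e : Fin 2 → ℂ) : W0 1 a x e = PBFar.W0 a x e := rfl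

theorem vI_one (b : ℝ) (a : ℕ) (x v : ℂ) (ξe : ℝ → ℂ) : vI 1 b a x v ξe = PBFar.vI b a x v ξe := rfl

theorem DW_one (b : ℝ) (a : ℕ) (x v : ℂ) (ξe : ℝ → ℂ) (ξ u : ℂ) :
    DW 1 b a x v ξe ξ u = PBFar.DW b a x v ξe ξ u := rfl

theorem DR_one (b : ℝ) (a : ℕ) (x v ξ u : ℂ) : DR 1 b a x v ξ u = PBFar.DR b a x v ξ u := rfl

theorem DT_one (b : ℝ) (a : ℕ) (x v : ℂ) (ξe : ℝ → ℂ) (ξ w : ℂ) :
    DT 1 b a x v ξe ξ w = PBFar.DT b a x v ξe ξ w := rfl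

end PBFar.PLX

end
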