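import Pool.Agent.PLX.PB.Far3
import Pool.Agent.PB.FarF

/-!
# Plan B, far end: the field of the moved rows, rows `0` (port PLX of FarF)

Rows `(η I) ^ q, 0 ^ (q k)`, the field is the one of the rows `η I, 0 ^ k` (limits `xe k η`):
* `fl_mul` : the field seen from the `q`-fold list;
* `exact_rows` : the transport condition of the rows is exact for `b = 4 / 3`;
* `far_R0` : hence `|(∂_η + ξ ∂_t) phi_{4/3}| ≤ C a ^ (-3) |phi_{4/3}|`, rows only.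
-/

set_option autoImplicit false

open Complex Finset

noncomputable section

namespace PBFar.PLX

open NUP1 NURow PBForce

/-- the field seen from the `q`-fold list -/
theorem fl_mul {q k : ℕ} (hq : 1 ≤ q) {C0 : ℝ} {ξ ξe : ℝ → ℂ} (h : Fl k C0 ξ ξe) :
    Fl (q * k) (q * C0) ξ ξe := by
  have hq0 : (q : ℝ) ≠ 0 := by
    have : (1 : ℝ) ≤ q := by exact_mod_cast hq
    linarith
  have e : (q : ℝ) * C0 / ((q * k : ℕ) : ℝ) = C0 / k := by
    push_cast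
    rw [mul_div_mul_left _ _ hq0]
  refine ⟨fun σ hσ => ?_, fun σ hσ t ht => ?_⟩
  · rw [e]
    exact h.lim σ hσ
  · rw [e]
    exact h.dec σ hσ t ht

theorem Ep_row (η σ : ℝ) : Ep σ (4 / 3) ((η : ℂ) * I) = ((Real.exp (8 / 3 * (σ * η)) : ℝ) : ℂ) :=
  PBFar.Ep_row η σ

/-- **the transport condition of the rows is exact**, `b = 4 / 3` -/
theorem exact_rows (q k : ℕ) (η σ : ℝ) : q * (I * Ep σ (4 / 3) ((η : ℂ) * I)) -
    I * xe k η σ * (((q * k : ℕ) : ℂ) + q * Ep σ (4 / 3) ((η : ℂ) * I)) = 0 := by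
  have h := PBFar.exact_rows k η σ
  push_cast
  linear_combination (q : ℂ) * h

/-- **far end of the rows' cutoff `phi_{4/3}`** -/
theorem far_R0 {s : ℝ} (h : Hyp (4 / 3) s) {q k : ℕ} (hq : 1 ≤ q)
    (ha : n0 (4 / 3) s q ≤ ((q * k : ℕ) : ℝ)) {η : ℝ} (hη : |η| ≤ 1)
    {C0 : ℝ} (hC0 : 1 ≤ C0) {ξ : ℝ → ℂ} (hF : Fl k C0 ξ (xe k η)) {u : ℂ}
    (hu : |u.re + l / 2| ≤ s) :
    ‖DR q (4 / 3) (q * k) ((η : ℂ) * I) I (ξ u.im) u‖ ≤
      CF (4 / 3) s (q * C0) q / ((q * k : ℕ) : ℝ) ^ 3 *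
      ‖NUP1.phi (4 / 3) (R0 q (q * k) ((η : ℂ) * I)) u‖ := by
  have hq1 : (1 : ℝ) ≤ q := by exact_mod_cast hq
  have := far_R_tr h ha (re_row η) (im_row hη) (v := I) (by rw [Complex.norm_I]; nlinarith)
    (fl_mul hq hF) (δ := 0) (fun σ _ => by rw [exact_rows, norm_zero]) hu
  simpa using this

/-- the same with the product kept, `|t| ≥ 3` -/
theorem far_R0_prod {s : ℝ} (h : Hyp (4 / 3) s) {q k : ℕ} (hq : 1 ≤ q) (ha : 1 ≤ q * k) {η : ℝ}
    (hη : |η| ≤ 1)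
    {C0 : ℝ} (hC0 : 1 ≤ C0) {ξ : ℝ → ℂ} (hF : Fl k C0 ξ (xe k η)) {u : ℂ} (hu : |u.re + l / 2| ≤ s)
    (ht : 3 ≤ |u.im|) :
    ‖DR q (4 / 3) (q * k) ((η : ℂ) * I) I (ξ u.im) u‖ ≤
      (q * C0 * (11 * (2 + q * Real.exp (4 * (4 / 3))) +
        200 * Real.exp (12 * (4 / 3)) * q * 3 + 800)) *
        Real.exp (-(8 * |u.im|)) *
        ‖1 - NUP1.phi (4 / 3) (R0 q (q * k) ((η : ℂ) * I)) u‖ := by
  have hq1 : (1 : ℝ) ≤ q := by exact_mod_cast hq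
  have := far_R_prod h ha (re_row η) (im_row hη) (v := I) (by rw [Complex.norm_I]; nlinarith)
    (fl_mul hq hF) (δ := 0) (fun σ _ => by rw [exact_rows, norm_zero]) hu ht
  rw [show 6 * (4 / 3 : ℝ) = 8 by norm_num, mul_zero, zero_mul, add_zero] at this
  exact this

end PBFar.PLX

end
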