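import Pool.Agent.PLX.Ns
import Pool.Agent.PLX.PB.WPlusS
import Pool.Agent.PLX.PB.WPc
import Pool.Agent.PLX.IB

/-!
# Second moment of the remainder without the quadratic statistic (plan B, I2), both channels

`Qp = V e + Qy X + V (X leg) + V (X cut) + V (X obF) + ∫b ρ X cut - ∫b X leg - ∫b X obF`,
`X = ib X₀`: the constant terms are the ones of `X₀`.
* `mVob`: measurability of `V (X obF)`;
* **`qpr_M2`**: the second moment of `Qp - Qy`.
-/

set_option autoImplicit false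
set_option linter.unusedSectionVars false

noncomputable section

open Complex MeasureTheory Finset Filter Topology

open PLX (Fil)

namespace PBWP.PLX

open NUO NUP1 NUCR NUP1S NUP1S.Ab NUP1S.AbC NUGC NUGC.PLX PBFunc PBFunc.PLX PBF PBF.PLX
open PBE.PLX (ib b_ib)

variable [Fil]

variable {N : ℕ} {Z : ℕ → Bool → Option O3 → ℂ → ℂ} {P : ℕ → NUO.Par} {η η' : ℕ → Crs}
  {c : ℕ → ℂ} {ρ : ℂ → ℂ} {Y₁ Y₂ K q dp b b1 b0 b'' : ℝ}
  {LP : (r : ℕ) → (Fin r → Xo) → Bool → ℂ → ℂ}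

/-- **measurability of the statistic of an object dependent test function** -/
theorem mVob {η η' : Crs} {y0 : ℝ} (hm : MCr η η') (hs : InS y0 b0 η) (hb : b0 < b'')
    (hb1 : 0 < b'') (hρ : PB.SeaF b1 ρ) (hb1' : b'' ≤ b1)
    (mP : ∀ r s, Measurable fun p : (Fin r → Xo) × ℂ => LP r p.1 s p.2) {X : Bool → ℂ → ℂ}
    (hX : ∀ s (z : ℂ), |z.im| < b'' → DifferentiableAt ℂ (X s) z) :
    MIn fun r O a b x => Vy y0 η ρ (fun s z => X s z * obF LP r O s z) r O a b x := by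
  have h1 : MIn (Sy y0 η fun r O s z => X s z * obF LP r O s z) := by
    refine MIn.sy fun r s => ?_
    refine (meas_fld hm hs hb hX r s).mul ?_
    exact (meas_obF mP r s).comp (measurable_fst.prodMk (meas_zy hm y0 r s))
  have h2 : MIn fun (r : ℕ) (O : Fin r → Xo) (_ _ : ℕ) _ =>
      ∑ s, ∫ u : ℝ, ((Fil.b s : ℝ) : ℂ) * ρ u * (X s u * obF LP r O s u) := by
    have e : (fun (r : ℕ) (O : Fin r → Xo) (a b : ℕ) (_ : (Fin a → ℝ) × (Fin b → ℝ)) =>
        ∑ s, ∫ u : ℝ, ((Fil.b s : ℝ) : ℂ) * ρ u * (X s u * obF LP r O s u)) =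
        Pp LP fun s z => ((Fil.b s : ℝ) : ℂ) * ρ z * X s z := by
      funext r O a b x
      unfold Pp
      refine Finset.sum_congr rfl fun s _ => integral_congr_ae (Eventually.of_forall fun u => ?_)
      simp only
      ring
    rw [e]
    refine mPp mP fun s => ?_
    have hc : Continuous fun t : ℝ => ((Fil.b s : ℝ) : ℂ) * ρ t * X s t :=
      continuous_iff_continuousAt.2 fun t => by
      have h3 := (hρ.d (t : ℂ) (by simpa using hb1.trans_le hb1')).continuousAt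
      have h4 := (hX s (t : ℂ) (by simpa using hb1)).continuousAt
      exact ((h3.const_mul _).mul h4).comp Complex.continuous_ofReal.continuousAt
    exact hc.measurable
  intro r a b
  have e : (fun p : (Fin r → Xo) × ((Fin a → ℝ) × (Fin b → ℝ)) =>
      Vy y0 η ρ (fun s z => X s z * obF LP r p.1 s z) r p.1 a b p.2) = fun p =>
      Sy y0 η (fun r O s z => X s z * obF LP r O s z) r p.1 a b p.2 -
        ∑ s, ∫ u : ℝ, ((Fil.b s : ℝ) : ℂ) * ρ u * (X s u * obF LP r p.1 s u) := by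
    funext p
    have h3 := Sy_eq y0 η ρ (fun s z => X s z * obF LP r p.1 s z) r p.1 a b p.2
    have h4 : Sy y0 η (fun r O s z => X s z * obF LP r O s z) r p.1 a b p.2 =
        Sy y0 η (fun _ _ => fun s z => X s z * obF LP r p.1 s z) r p.1 a b p.2 := rfl
    rw [h4, h3]
    ring
  rw [e]
  exact (h1 r a b).sub (h2 r a b)

/-- the constant terms of the field `ib X` -/
def cQp (ρ : ℂ → ℂ) (X leg cut : Bool → ℂ → ℂ)
    (LP : (r : ℕ) → (Fin r → Xo) → Bool → ℂ → ℂ) : Ins := fun r O _ _ _ =>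
  (∑ s, ∫ t : ℝ, ρ t * (X s t * cut s t)) - (∑ s, ∫ t : ℝ, X s t * leg s t) -
    ∑ s, ∫ t : ℝ, X s t * obF LP r O s t

/-- the constant terms of `Qp` for the field `ib X` -/
theorem cQp_ib {ρ : ℂ → ℂ} {X leg cut : Bool → ℂ → ℂ}
    {LP : (r : ℕ) → (Fin r → Xo) → Bool → ℂ → ℂ} (r : ℕ) (O : Fin r → Xo) :
    (∑ s, ∫ t : ℝ, ((Fil.b s : ℝ) : ℂ) * ρ t * (ib X s t * cut s t)) -
      (∑ s, ∫ t : ℝ, ((Fil.b s : ℝ) : ℂ) * ib X s t * leg s t) -
      ∑ s, ∫ t : ℝ, ((Fil.b s : ℝ) : ℂ) * ib X s t * obF LP r O s t =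
    (∑ s, ∫ t : ℝ, ρ t * (X s t * cut s t)) - (∑ s, ∫ t : ℝ, X s t * leg s t) -
      ∑ s, ∫ t : ℝ, X s t * obF LP r O s t := by
  congr 1
  · congr 1
    · refine Finset.sum_congr rfl fun s _ => integral_congr_ae (Eventually.of_forall fun t => ?_)
      simp only
      linear_combination (ρ t * cut s t) * b_ib X s t
    · refine Finset.sum_congr rfl fun s _ => integral_congr_ae (Eventually.of_forall fun t => ?_)
      simp only [b_ib]
  · refine Finset.sum_congr rfl fun s _ => integral_congr_ae (Eventually.of_forall fun t => ?_)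
    simp only [b_ib]

/-- **the second moment of `Qp - Qy`** -/
theorem qpr_M2 (hM : PBU.PLX.MBd N Z P η η' c ρ Y₁ Y₂ K q dp) (hK : 0 ≤ K)
    (hmZ : ∀ n ≤ N, MC (Z n) (P n) (η n) (η' n)) (mc : ∀ n ≤ N, MCr (η n) (η' n))
    (hs : ∀ n ≤ N, InS 0 b0 (η n)) (hb : b0 < b'') (hb'' : 0 < b'') (hρ : PB.SeaF b1 ρ)
    (hb1 : b'' ≤ b1) (hb2 : b'' ≤ b) (hY1 : -b ≤ Y₁) (hY2 : Y₂ ≤ b)
    (mP : ∀ r s, Measurable fun p : (Fin r → Xo) × ℂ => LP r p.1 s p.2) {X e leg cut : Bool → ℂ → ℂ}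
    {κ₁ T Te Ml Mc Co Tc : ℝ} (hκ1 : 0 < κ₁) (hT : 0 ≤ T) (hTe : 0 ≤ Te) (hMl : 0 ≤ Ml)
    (hMc : 0 ≤ Mc) (hCo : 0 ≤ Co) (hTc : 0 ≤ Tc)
    (hX : ∀ s, PBE.TC (-b) b κ₁ T (X s)) (he : ∀ s, PBU.PLX.BC Y₁ Y₂ Te (e s))
    (hed : ∀ s (z : ℂ), |z.im| < b'' → DifferentiableAt ℂ (e s) z)
    (hld : ∀ s (z : ℂ), |z.im| < b → DifferentiableAt ℂ (leg s) z)
    (hlb : ∀ s (z : ℂ), |z.im| < b → ‖leg s z‖ ≤ Ml)
    (hcd : ∀ s (z : ℂ), |z.im| < b'' → DifferentiableAt ℂ (cut s) z)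
    (hcb : ∀ s, PBU.PLX.BC Y₁ Y₂ Mc (cut s))
    (hod : ∀ r O s (z : ℂ), |z.im| < b → DifferentiableAt ℂ (obF LP r O s) z)
    (hob : ∀ r O s (z : ℂ), |z.im| < b → ‖obF LP r O s z‖ ≤ r * Co)
    (hrc : ‖∑ s, ∫ t : ℝ, ρ t * (X s t * cut s t)‖ ≤ Tc) :
    M2 (mN N) (wN Z P N η η' c) K
      (evN fun n r O a b x => Qp (η n) ρ (ib X) e leg cut LP r O a b x -
        Qy 0 (η n) ρ (ib X) r O a b x)
      (Te + T * Ml + T * Mc + T * Co +
        (Tc + 2 * (T * (2 / κ₁) * Ml) + 2 * (T * (2 / κ₁) * Co))) := by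
  have hb0' : 0 < b := hb''.trans_le hb2
  obtain ⟨W, hW⟩ : ∃ W : Bool → ℂ → ℂ, W = ib X := ⟨_, rfl⟩
  rw [← hW]
  have hWX : ∀ s, PBE.TC (-b) b κ₁ T (W s) := fun s => by
    rw [hW]
    exact PBE.PLX.TC.ib s (hX s)
  have hXd : ∀ s (z : ℂ), |z.im| < b → DifferentiableAt ℂ (W s) z := fun s z hz =>
    (hWX s).an.differentiableAt ((Pool.Agent.PB.isOpen_Sp _ _).mem_nhds (abs_lt.1 hz))
  have hXb : ∀ s, PBU.PLX.BC Y₁ Y₂ T (W s) := fun s => BC_of (hWX s) hκ1.le hT hY1 hY2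
  have hsub : ∀ z, z ∈ PBE.Sp Y₁ Y₂ → |z.im| < b := fun z hz =>
    abs_lt.2 ⟨lt_of_le_of_lt hY1 hz.1, lt_of_lt_of_le hz.2 hY2⟩
  have hw : AEStronglyMeasurable (wN Z P N η η' c) (mN N) := (wN_meas hmZ).aestronglyMeasurable
  have mV : ∀ {f : Bool → ℂ → ℂ}, (∀ s (z : ℂ), |z.im| < b'' → DifferentiableAt ℂ (f s) z) →
      AEStronglyMeasurable (evN fun n => Vy 0 (η n) ρ f) (mN N) := fun hd =>
    (evN_meas fun n hn => MIn.vy (mc n hn) (hs n hn) hb ρ hd).aestronglyMeasurable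
  -- the pieces
  have p1 := M2_vy hM mc hs hb hTe he hed
  have dl : ∀ s (z : ℂ), |z.im| < b'' → DifferentiableAt ℂ (fun z => W s z * leg s z) z :=
    fun s z hz => (hXd s z (hz.trans_le hb2)).mul (hld s z (hz.trans_le hb2))
  have p2 := M2_vy hM mc hs hb (M := T * Ml) (by positivity) (f := fun s z => W s z * leg s z)
    (fun s => ⟨(hXb s).an.mul fun z hz =>
      (hld s z (hsub z hz)).differentiableWithinAt, fun z hz => by
        rw [norm_mul]
        exact mul_le_mul ((hXb s).bd z hz) (hlb s z (hsub z hz)) (norm_nonneg _) hT⟩) dl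
  have dc : ∀ s (z : ℂ), |z.im| < b'' → DifferentiableAt ℂ (fun z => W s z * cut s z) z :=
    fun s z hz => (hXd s z (hz.trans_le hb2)).mul (hcd s z hz)
  have p3 := M2_vy hM mc hs hb (M := T * Mc) (by positivity) (f := fun s z => W s z * cut s z)
    (fun s => ⟨(hXb s).an.mul (hcb s).an, fun z hz => by
        rw [norm_mul]
        exact mul_le_mul ((hXb s).bd z hz) ((hcb s).bd z hz) (norm_nonneg _) hT⟩) dc
  have mO : ∀ n ≤ N, MIn fun r O a b x =>
      Vy 0 (η n) ρ (fun s z => W s z * obF LP r O s z) r O a b x := fun n hn =>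
    mVob (mc n hn) (hs n hn) hb hb'' hρ hb1 mP fun s z hz => hXd s z (hz.trans_le hb2)
  have hVs : ∀ n (r : ℕ) (O : Fin r → Xo) (a b : ℕ) (x : (Fin a → ℝ) × (Fin b → ℝ)),
      Vy 0 (η n) ρ (fun s z => ((r : ℂ) + 1)⁻¹ * (W s z * obF LP r O s z)) r O a b x =
        ((r : ℂ) + 1)⁻¹ * Vy 0 (η n) ρ (fun s z => W s z * obF LP r O s z) r O a b x := by
    intro n r O a b x
    unfold Vy PB.NX.nuL
    rw [mul_sub, Finset.mul_sum, Finset.mul_sum]
    congr 1
    refine Finset.sum_congr rfl fun s _ => ?_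
    rw [← integral_const_mul]
    refine integral_congr_ae (Eventually.of_forall fun u => ?_)
    simp only
    ring
  have hr1 : ∀ r : ℕ, (r : ℂ) + 1 ≠ 0 := fun r => by
    have := norm_cn0 r
    intro h
    rw [h, norm_zero] at this
    have := Nat.cast_nonneg (α := ℝ) r
    linarith
  have p4 : M2 (mN N) (wN Z P N η η' c) K (evN fun n r O a b x =>
      Vy 0 (η n) ρ (fun s z => W s z * obF LP r O s z) r O a b x) (T * Co) := by
    have h1 := hM.vy (T * Co) (fun r O s z => ((r : ℂ) + 1)⁻¹ * (W s z * obF LP r O s z))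
      (by positivity) (fun r O s => ⟨((hXb s).an.mul fun z hz =>
        (hod r O s z (hsub z hz)).differentiableWithinAt).const_mul _, fun z hz => by
          rw [norm_mul, norm_mul, norm_inv, norm_cn0]
          have h2 := (hXb s).bd z hz
          have h3 := hob r O s z (hsub z hz)
          have h4 : 0 ≤ (r : ℝ) := Nat.cast_nonneg r
          rw [inv_mul_le_iff₀ (by positivity)]
          calc ‖W s z‖ * ‖obF LP r O s z‖ ≤ T * (r * Co) := mul_le_mul h2 h3 (norm_nonneg _) hT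
            _ ≤ ((r : ℝ) + 1) * (T * Co) := by nlinarith [mul_nonneg hT hCo]⟩)
      (fun n hn => by
        intro r a b
        have e : (fun p : (Fin r → Xo) × ((Fin a → ℝ) × (Fin b → ℝ)) =>
            Vy 0 (η n) ρ (fun s z => ((r : ℂ) + 1)⁻¹ * (W s z * obF LP r p.1 s z)) r p.1 a b
              p.2) = fun p => ((r : ℂ) + 1)⁻¹ *
            Vy 0 (η n) ρ (fun s z => W s z * obF LP r p.1 s z) r p.1 a b p.2 := by
          funext p
          exact hVs n r p.1 a b p.2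
        rw [e]
        exact (mO n hn r a b).const_mul _)
    refine M2.congr h1 fun ω => ?_
    simp only [evN, ev]
    rw [hVs, ← mul_assoc, mul_inv_cancel₀ (hr1 _), one_mul]
  have intX : ∀ s {f : ℂ → ℂ} {B : ℝ}, (∀ t : ℝ, ‖f t‖ ≤ B) →
      ‖∫ t : ℝ, X s t * f t‖ ≤ T * (2 / κ₁) * B := fun s {f B} hf => by
    have := PBE.int_XD_le (hX s) hb0' hκ1 hT 0 (f := fun t : ℝ => f t) hf
    simpa using this
  have hre : ∀ t : ℝ, |((t : ℂ)).im| < b := fun t => by simpa using hb0'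
  have p5 : M2 (mN N) (wN Z P N η η' c) K (evN fun _ => cQp ρ X leg cut LP)
      (Tc + 2 * (T * (2 / κ₁) * Ml) + 2 * (T * (2 / κ₁) * Co)) := by
    set Ct := Tc + 2 * (T * (2 / κ₁) * Ml) + 2 * (T * (2 / κ₁) * Co) with hCt
    have hCt0 : 0 ≤ Ct := by positivity
    have h1 := hM.one.smul (Ct : ℂ)
    rw [mul_one, Complex.norm_real, Real.norm_of_nonneg hCt0] at h1
    refine M2.le' h1 fun ω => ?_
    simp only [evN, ev, PBU.PLX.cnI, cQp]
    rw [norm_mul, norm_cn0, Complex.norm_real, Real.norm_of_nonneg hCt0]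
    have h4 : 0 ≤ ((ω.2.1.1 : ℕ) : ℝ) := Nat.cast_nonneg _
    have h5 : ‖∑ s, ∫ t : ℝ, X s t * leg s t‖ ≤ 2 * (T * (2 / κ₁) * Ml) := by
      rw [Fintype.sum_bool]
      refine (norm_add_le _ _).trans ?_
      have h6 := intX true (f := leg true) (fun t => hlb true t (hre t))
      have h7 := intX false (f := leg false) (fun t => hlb false t (hre t))
      linarith
    have h6 : ‖∑ s, ∫ t : ℝ, X s t * obF LP ω.2.1.1 ω.2.2.1 s t‖ ≤
        2 * (T * (2 / κ₁) * (((ω.2.1.1 : ℕ) : ℝ) * Co)) := by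
      rw [Fintype.sum_bool]
      refine (norm_add_le _ _).trans ?_
      have h7 := intX true (f := obF LP ω.2.1.1 ω.2.2.1 true)
        (fun t => hob _ _ true t (hre t))
      have h8 := intX false (f := obF LP ω.2.1.1 ω.2.2.1 false)
        (fun t => hob _ _ false t (hre t))
      linarith
    refine (norm_sub_le _ _).trans ((add_le_add (norm_sub_le _ _) h6).trans ?_)
    have h9 : 0 ≤ T * (2 / κ₁) * Ml := by positivity
    have h10 : 0 ≤ T * (2 / κ₁) * Co := by positivity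
    have h11 : 0 ≤ Tc * ((ω.2.1.1 : ℕ) : ℝ) := by positivity
    have h12 : 0 ≤ T * (2 / κ₁) * Ml * ((ω.2.1.1 : ℕ) : ℝ) := by positivity
    rw [hCt]
    nlinarith [h5, hrc]
  have mVo : AEStronglyMeasurable (evN fun n r O a b x =>
      Vy 0 (η n) ρ (fun s z => W s z * obF LP r O s z) r O a b x) (mN N) :=
    (evN_meas mO).aestronglyMeasurable
  have q1 := PBWP.PLX.M2.add0 hTe (by positivity) hK hw (mV hed) p1 p2
  have q2 := PBWP.PLX.M2.add0 (by positivity) (by positivity) hK hw ((mV hed).add (mV dl)) q1 p3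
  have q3 := PBWP.PLX.M2.add0 (by positivity) (by positivity) hK hw
    (((mV hed).add (mV dl)).add (mV dc)) q2 p4
  have q4 := PBWP.PLX.M2.add0 (by positivity) (by positivity) hK hw
    ((((mV hed).add (mV dl)).add (mV dc)).add mVo) q3 p5
  refine q4.congr fun ω => ?_
  have ec := cQp_ib (ρ := ρ) (X := X) (leg := leg) (cut := cut) (LP := LP) ω.2.1.1 ω.2.2.1
  rw [← hW] at ec
  simp only [evN, ev, Qp, cQp, Pi.add_apply] at ec ⊢
  rw [← ec]
  ring

end PBWP.PLX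

end
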