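import Pool.Agent.PLX.PB.WMin0
import Pool.Agent.PLX.PB.TRsB
import Pool.Agent.PLX.PB.WMinA

/-!
# Plan B: the minus channel of level two (`LevD.wm`, `LevD.ws`), two fillings

* `wm_core`: one field; **`wm_of`**: `PBE.WMi` of every test function and of the step.
-/

set_option autoImplicit false
set_option linter.unusedSectionVars false

noncomputable section

open Complex MeasureTheory Finset
open scoped ENNReal
open PLX (Fil)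

namespace PBWM.PLX

open NUO NUP1 NUCR NUP1S NUP1S.Ab NUP1S.AbC NUGC NUGC.PLX PBFunc PBFunc.PLX PBF PBF.PLX PBWP PBWP.PLX PBOR PBOR.PLX
open Pool.Agent.PB (CmV CsV CssV)
open PBE (TC SeaL XS thX sg2 mass bS)
open PBE.PLX (ib b_ib norm_ib_le)
open PBU.PLX (BC MBd)

variable [Fil]

variable {N : ℕ} {Z : ℕ → Bool → Option O3 → ℂ → ℂ} {P : NUO.Par} {η η' : ℕ → Crs}
  {c : ℕ → ℂ} {δ b0 b1 : ℝ} {kk : ℕ → ℝ} {LZ : ℕ → Bool → ℂ → ℂ}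
  {LP : (r : ℕ) → (Fin r → Xo) → Bool → ℂ → ℂ} {ρ : ℂ → ℂ} {K q dp : ℝ}

/-! ### the derivative term -/

section dterm

variable {b c0 Nr κ κ₁ B D : ℝ} {β0 k : ℂ → ℂ}

/-- **second moment of the derivative term** -/
theorem m2_D (h : FibN N Z (fun _ => P) η η' δ 0 b0 b1 kk LZ (fun _ => LP) ρ)
    (Bd : MBd N Z (fun _ => P) η η' c ρ (-b1) b1 K q dp) (hK : 0 ≤ K)
    (hsea : SeaL b c0 Nr ρ) (hb1 : b1 ≤ b) (hβ : TC (-b) b κ B β0)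
    (hB : 0 ≤ B) (hκ1 : 0 < κ₁) (h1 : κ₁ ≤ κ) (h2 : κ - κ₁ ≤ 8 / 3) (hD : 0 ≤ D)
    (hk : ∀ z : ℂ, |z.im| < b → DifferentiableAt ℂ (deriv k) z ∧ ‖deriv k z‖ ≤ D) :
    M2 (mN N) (wN Z (fun _ => P) N η η' c) K
      (Dh η ρ (ib (sg2 (XS ρ 0 β0))) k (-(2 * ∫ t : ℝ, β0 t * deriv k t)))
      ((1 + 4 / κ₁) * (thX c0 Nr (κ - κ₁) 0 * B) * D) := by
  have hb : 0 < b := h.b1p.trans_le hb1
  have mw : AEStronglyMeasurable (wN Z (fun _ => P) N η η' c) (mN N) :=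
    (wN_meas h.mZ).aestronglyMeasurable
  have tX := PBE.XS_TC hsea hβ hB h1 h2 0
  have hT : 0 ≤ thX c0 Nr (κ - κ₁) 0 * B := mul_nonneg (PBE.thX_nonneg hsea.Np) hB
  have hbc : ∀ s, BC (-b1) b1 (thX c0 Nr (κ - κ₁) 0 * B * D)
      fun z => ib (sg2 (XS ρ 0 β0)) s z * (eM s * deriv k z) := by
    intro s
    have e : (fun z => ib (sg2 (XS ρ 0 β0)) s z * (eM s * deriv k z)) =
        fun z => -((Fil.b s : ℝ) : ℂ)⁻¹ * (XS ρ 0 β0 z * deriv k z) := by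
      funext z
      have h3 := eM_sg2 (XS ρ 0 β0) s z (deriv k z)
      unfold PBE.PLX.ib
      linear_combination (((Fil.b s : ℝ) : ℂ)⁻¹) * h3
    rw [e]
    refine bc_mul (fun z hz => ?_) (fun z hz => ?_)
      (by rw [norm_neg]; exact PBE.PLX.norm_inv_b_le s)
    · have hz' := abs_lt.1 (hz.trans_le hb1)
      exact (tX.dAt hz').mul (hk z (hz.trans_le hb1)).1
    · rw [norm_mul]
      exact mul_le_mul (bd_TC tX hκ1.le hT le_rfl le_rfl (hz.trans_le hb1))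
        (hk z (hz.trans_le hb1)).2 (norm_nonneg _) hT
  have a1 := m2_V h Bd (mul_nonneg hT hD) hbc
  have m1 : AEStronglyMeasurable (evN fun n => Vy 0 (η n) ρ
      fun s z => ib (sg2 (XS ρ 0 β0)) s z * (eM s * deriv k z) : CfN N → ℂ) (mN N) :=
    (evN_meas (mVy h hbc)).aestronglyMeasurable
  have a2 := m2_c (m2_one Bd) ((∑ s, ∫ u : ℝ, (Fil.b s : ℂ) * ρ u * (ib (sg2 (XS ρ 0 β0)) s u *
    (eM s * deriv k u))) - -(2 * ∫ t : ℝ, β0 t * deriv k t))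
  have a3 := a2.mono (norm_nonneg _) (dh_const hsea hb hβ hB hκ1 h1 h2 hk) le_rfl hK
  have a4 := m2_add (mul_nonneg hT hD) (by positivity) hK mw m1 a1 a3
  have e : thX c0 Nr (κ - κ₁) 0 * B * D + 4 / κ₁ * (thX c0 Nr (κ - κ₁) 0 * B) * D =
      (1 + 4 / κ₁) * (thX c0 Nr (κ - κ₁) 0 * B) * D := by ring
  rw [e] at a4
  exact a4

end dterm

/-! ### the identity of one field -/

theorem mbd_strip {P' : ℕ → NUO.Par} {Y₁ Y₂ b1 : ℝ} (h : MBd N Z P' η η' c ρ Y₁ Y₂ K q dp)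
    (h1 : -b1 ≤ Y₁) (h2 : Y₂ ≤ b1) : MBd N Z P' η η' c ρ (-b1) b1 K q dp where
  one := h.one
  vy M g hM hg mg := h.vy M g hM (fun r O s =>
    ⟨(hg r O s).an.mono fun _ hz => ⟨lt_of_le_of_lt h1 hz.1, lt_of_lt_of_le hz.2 h2⟩,
      fun z hz => (hg r O s).bd z ⟨lt_of_le_of_lt h1 hz.1, lt_of_lt_of_le hz.2 h2⟩⟩) mg
  pin := h.pin
  pinv M g hM hg mg := h.pinv M g hM (fun r O s =>
    ⟨(hg r O s).an.mono fun _ hz => ⟨lt_of_le_of_lt h1 hz.1, lt_of_lt_of_le hz.2 h2⟩,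
      fun z hz => (hg r O s).bd z ⟨lt_of_le_of_lt h1 hz.1, lt_of_lt_of_le hz.2 h2⟩⟩) mg

theorem pinR_le (hq : 0 ≤ q) {r : ℕ} (O : Fin r → Xo) : pinR q O ≤ r := by
  unfold pinR
  refine (Finset.sum_le_card_nsmul _ _ 1 fun i _ => Real.exp_le_one_iff.2 ?_).trans (le_of_eq ?_)
  · have := mul_nonneg hq (abs_nonneg (ht (O i)))
    linarith
  · rw [Finset.card_univ, Fintype.card_fin, nsmul_eq_mul, mul_one]

section one

variable {y₁ y₂ a b b' c0 Nr κ κ₁ κ₂ M C1 CA CQ G r0 Ds : ℝ} {β0 g0 e0 h0 : ℂ → ℂ}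
  {cut : Bool → ℂ → ℂ}

/-- **one field** -/
theorem wm_core (h : FibN N Z (fun _ => P) η η' δ 0 b0 b1 kk LZ (fun _ => LP) ρ)
    (Bd : MBd N Z (fun _ => P) η η' c ρ (-b1) b1 K q dp) (hK : 0 ≤ K) (hdp : 0 ≤ dp)
    (hq0 : 0 ≤ q) (hPO : ∀ (r : ℕ) (O : Fin r → Xo), PO P O) (hLP : OkLP P LP)
    (hrad : ∀ r, Measurable (P.rad r)) (hsea : SeaL b c0 Nr ρ)
    (hb1 : b1 ≤ b') (hbb : b' ≤ b) (hbl : b ≤ NUP1.l) (ha : 0 ≤ a) (hr : 0 < r0)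
    (hr1 : y₁ + r0 ≤ -b) (hr2 : b ≤ y₂ - r0) (hM : 0 ≤ M) (hC1 : 0 ≤ C1)
    (hβ : TC (-b) b κ (C1 * M) β0) (hκ1 : 0 < κ₁) (hκ2 : 0 ≤ κ₂) (h1 : κ₁ ≤ κ)
    (h2 : κ - κ₁ ≤ 8 / 3)
    (te : TC (-b') b' κ₂ (thX c0 Nr (κ - κ₁) 0 * (C1 * M)) e0)
    (re : ∀ z : ℂ, |z.im| < b' → ∀ t : Bool,
      PB.rsp (PB.mulF ρ (sg2 (XS ρ 0 β0))) t z =
        sg2 (fun w => g0 w - e0 w - 4 * mass (XS ρ 0 β0) * PBV.tgh w) t z)
    (gd : ∀ z : ℂ, |z.im| < b1 → DifferentiableAt ℂ g0 z)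
    (gb : ∀ z : ℂ, |z.im| < b1 → ‖g0 z‖ ≤ G) (hG : 0 ≤ G)
    (hd0 : ∀ z : ℂ, |z.im| < b1 → DifferentiableAt ℂ h0 z) {M0 : ℝ}
    (hb0 : ∀ z : ℂ, |z.im| < b1 → ‖h0 z‖ ≤ M0)
    (hl : ∀ n ≤ N, ∀ r O s (t : ℝ), I * LZ n s (NUP1.l + I * zy 0 (Fil.cv s (η n r O)) t) -
      PB.kp2 ρ s (zy 0 (Fil.cv s (η n r O)) t) =
      h0 (zy 0 (Fil.cv s (η n r O)) t) + cut s (zy 0 (Fil.cv s (η n r O)) t))
    (hCQ : 0 ≤ CQ) (hQ : M2 (mN N) (wN Z (fun _ => P) N η η' c) K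
      (evN fun n => Qp (η n) ρ (ib (sg2 (XS ρ 0 β0))) (eX e0 (mass (XS ρ 0 β0))) (fun _ => h0) cut LP)
      (CQ * (thX c0 Nr (κ - κ₁) 0 * (C1 * M))))
    {yo : (r : ℕ) → (Fin r → Xo) → ℂ} (myo : MIn fun r O _ _ _ => yo r O)
    (hyo : ∀ (r : ℕ) (O : Fin r → Xo), ‖yo r O‖ ≤ PBOR.PLX.CS * r) (hCA : 0 ≤ CA)
    (hpy : ∀ (r : ℕ) (O : Fin r → Xo) (a b : ℕ) (x : (Fin a → ℝ) × (Fin b → ℝ)),
      ‖Pp LP (sg2 β0) r O a b x + yo r O‖ ≤ CA * M * pinR q O)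
    (hDs : 0 ≤ Ds) (hds : ∀ z : ℂ, |z.im| < b → DifferentiableAt ℂ (deriv PB.NX.sgC) z ∧
      ‖deriv PB.NX.sgC z‖ ≤ Ds) :
    ∃ (D : (ℂ → ℂ) → CfN N → ℂ) (Dt Q P' : CfN N → ℂ),
      PBE.WMi y₁ y₂ a (mN N) (wN Z (fun _ => P) N η η' c) ((3 + PBOR.PLX.CS) ^ 2 * K)
        (thX c0 Nr (κ - κ₁) 0 * (C1 * (CQ + (1 + 4 / κ₁) * (Real.exp (a * r0) / r0 + Ds))))
        (CA * (3 + PBOR.PLX.CS) * dp) M (Vm (fun u => ρ u) η) (SN (fun u => ρ u) P η)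
        (fun ω => -(evN (fun n => Vy 0 (η n) ρ (sg2 g0)) ω +
          evN (fun _ r O _ _ _ => yo r O) ω))
        (fun k => 2 * ∫ t : ℝ, β0 t * deriv k t) (2 * ∫ t : ℝ, β0 t * deriv PB.NX.sgC t)
        D Dt Q P' := by
  have hb1p := h.b1p
  have hb1b : b1 ≤ b := hb1.trans hbb
  have hbp : 0 < b := hb1p.trans_le hb1b
  have hb1l : b1 ≤ NUP1.l := hb1b.trans hbl
  have hpl : Real.pi / 8 = NUP1.l := rfl
  have hCS := PBOR.PLX.CS_pos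
  have hth : 0 ≤ thX c0 Nr (κ - κ₁) 0 := PBE.thX_nonneg hsea.Np
  obtain ⟨th, eth⟩ : ∃ th : ℝ, th = thX c0 Nr (κ - κ₁) 0 := ⟨_, rfl⟩
  obtain ⟨E, hE⟩ : ∃ E : ℝ, E = Real.exp (a * r0) / r0 := ⟨_, rfl⟩
  have hE0 : 0 ≤ E := by rw [hE]; positivity
  have hB : 0 ≤ C1 * M := mul_nonneg hC1 hM
  have w := wm_fdw h hPO hLP hsea hb1 hbb hb1l hβ hB hκ1 hκ2 h1 h2 te re gd gb hd0 hb0 hl
  have hy1 : y₁ ≤ -b1 := by linarith
  have hy2 : b1 ≤ y₂ := by linarith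
  have hy1' : y₁ < 0 := by linarith
  have hy2' : 0 < y₂ := by linarith
  set μ := mN N with hμ
  set ww := wN Z (fun _ => P) N η η' c with hww
  have mw : AEStronglyMeasurable ww μ := (wN_meas h.mZ).aestronglyMeasurable
  obtain ⟨L, hL⟩ : ∃ L : ℝ, L = 3 + PBOR.PLX.CS := ⟨_, rfl⟩
  have hL3 : 3 ≤ L := by rw [hL]; linarith
  rw [← hL, ← hE, ← eth]
  rw [← eth] at te hth hQ
  have hK' : 0 ≤ L ^ 2 * K := by positivity
  have hKK : K ≤ L ^ 2 * K := by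
    have : 1 ≤ L ^ 2 := by (clear * - hCS hL; nlinarith)
    clear * - hK this
    nlinarith
  have lift : ∀ {A : CfN N → ℂ} {α β : ℝ}, M2 μ ww K A α → 0 ≤ α → α ≤ β →
      M2 μ ww (L ^ 2 * K) A β := fun hA h0 hle => hA.mono h0 hle hKK hK
  have hk0 : 0 < 1 + 4 / κ₁ := by positivity
  obtain ⟨T, eT⟩ : ∃ T : ℝ, T = th * (C1 * (CQ + (1 + 4 / κ₁) * (E + Ds))) := ⟨_, rfl⟩
  have hT : 0 ≤ T := by rw [eT]; (clear * - hth hC1 hCQ hκ1 hE0 hDs; positivity)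
  rw [← eT]
  -- the statistics
  have sd : ∀ z : ℂ, |z.im| < b1 → DifferentiableAt ℂ PB.NX.sgC z := fun z hz =>
    PB.NX.differentiableAt_sgC (by rw [hpl]; linarith)
  have sb : ∀ z : ℂ, |z.im| < b1 → ‖PB.NX.sgC z‖ ≤ 3 := fun z hz =>
    sgC_le (by rw [hpl]; linarith)
  have one := m2_one Bd
  have g2 := m2_V h Bd hG (bc_sg2 gd gb)
  have hV : ∀ M' k, TC y₁ y₂ a M' k → ∀ s, BC (-b1) b1 M' fun z => eM s * k z :=
    fun M' k hk => bc_eM (fun z hz => TC_dAt hk hy1 hy2 hz)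
      fun z hz => bd_TC hk ha (hk.nonneg hy1' hy2') hy1 hy2 hz
  have v2m : ∀ M' k, TC y₁ y₂ a M' k → M2 μ ww K (Vm (fun u => ρ u) η k) M' := fun M' k hk => by
    rw [Vm_evN ρ]
    exact m2_V h Bd (hk.nonneg hy1' hy2') (hV M' k hk)
  have ed : ∀ z : ℂ, |z.im| < b1 → DifferentiableAt ℂ
      (fun z => e0 z + 4 * mass (XS ρ 0 β0) * PBV.tgh z) z := fun z hz =>
    (te.dAt (abs_lt.1 (hz.trans_le hb1))).add ((tgh_dAt hb1p hb1l hz).const_mul _)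
  have eb : ∀ z : ℂ, |z.im| < b1 → ‖e0 z + 4 * mass (XS ρ 0 β0) * PBV.tgh z‖ ≤
      th * (C1 * M) + ‖4 * mass (XS ρ 0 β0)‖ * 3 := fun z hz => by
    refine (norm_add_le _ _).trans (add_le_add (bd_TC te hκ2 (mul_nonneg hth hB) le_rfl le_rfl
      (hz.trans_le hb1)) ?_)
    rw [norm_mul]
    exact mul_le_mul_of_nonneg_left (tgh_le hb1l hz) (norm_nonneg _)
  have he0 : 0 ≤ th * (C1 * M) + ‖4 * mass (XS ρ 0 β0)‖ * 3 := by (clear * - hth hC1 hM; positivity)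
  have e2 := m2_V h Bd he0 (bc_sg2 ed eb)
  -- the objects
  obtain ⟨YO, hYO⟩ : ∃ YO : CfN N → ℂ, YO = evN fun _ r O _ _ _ => yo r O := ⟨_, rfl⟩
  have mYO : AEStronglyMeasurable YO μ := by
    rw [hYO]
    exact (evN_meas fun n _ => myo).aestronglyMeasurable
  have bYO : ∀ ω : CfN N, ‖YO ω‖ ≤ PBOR.PLX.CS * (ω.2.1.1 : ℕ) := fun ω => by
    rw [hYO]
    exact hyo ω.2.1.1 ω.2.2.1
  have y4 := m2_r Bd hCS.le bYO
  have bP : ∀ ω : CfN N, ‖evN (fun _ => Pp LP (sg2 β0)) ω + YO ω‖ ≤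
      CA * M * pinR q ω.2.2.1 := fun ω => by
    rw [hYO]
    exact hpy ω.2.1.1 ω.2.2.1 ω.2.1.2.1 ω.2.1.2.2 ω.2.2.2
  have hCM : 0 ≤ CA * M := mul_nonneg hCA hM
  have p3 : M2 μ ww K (evN fun _ => Pp LP (sg2 β0)) (CA * M + PBOR.PLX.CS) := by
    refine m2_r Bd (by positivity) fun ω => ?_
    have e : evN (fun _ => Pp LP (sg2 β0)) ω =
        (evN (fun _ => Pp LP (sg2 β0)) ω + YO ω) - YO ω := by ring
    rw [e]
    have a1 := bP ω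
    have a2 := bYO ω
    have a3 := mul_le_mul_of_nonneg_left (pinR_le hq0 ω.2.2.1) hCM
    refine (norm_sub_le _ _).trans ?_
    linarith
  -- the step
  have mVO : AEStronglyMeasurable (VO sgD P : CfN N → ℂ) μ :=
    (evN_meas fun n _ => MIn_stO hrad mS_sgD).aestronglyMeasurable
  have bVO : ∀ ω : CfN N, ‖VO sgD P ω‖ ≤ PBOR.PLX.CS * (ω.2.1.1 : ℕ) := fun ω =>
    stO_sg_le (hPO _ _)
  have bcS := bc_eM sd sb
  have mVs : AEStronglyMeasurable (evN fun n => Vy 0 (η n) ρ fun s z => eM s * PB.NX.sgC z :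
      CfN N → ℂ) μ := (evN_meas (mVy h bcS)).aestronglyMeasurable
  have eS : (SN (fun u => ρ u) P η : CfN N → ℂ) = fun ω =>
      evN (fun n => Vy 0 (η n) ρ fun s z => eM s * PB.NX.sgC z) ω + VO sgD P ω := by
    funext ω
    rw [SN_eq, Vm_evN ρ]
  have s2 : M2 μ ww (L ^ 2 * K) (SN (fun u => ρ u) P η) 1 := by
    refine PBU.PLX.M2.rescale ?_
    rw [eS, mul_one, hL]
    exact m2_add (by norm_num) hCS.le hK mw mVs (m2_V h Bd (by norm_num) bcS) (m2_r Bd hCS.le bVO)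
  -- the derivative terms
  have d2 : ∀ M' k, TC y₁ y₂ a M' k → M2 μ ww (L ^ 2 * K)
      (Dh η ρ (ib (sg2 (XS ρ 0 β0))) k (-(2 * ∫ t : ℝ, β0 t * deriv k t))) (M * M' * T) := by
    intro M' k hk
    have hM' := hk.nonneg hy1' hy2'
    have a1 := m2_D h Bd hK hsea hb1b hβ hB hκ1 h1 h2 (D := M' * E) (by (clear * - hM' hE0; positivity))
      (fun z hz => by rw [hE]; exact dk_TC hk ha hM' hr hr1 hr2 hz)
    rw [← eth] at a1
    refine lift a1 (by (clear * - hκ1 hth hC1 hM hM' hE0; positivity)) ?_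
    rw [eT]
    have a2 : 0 ≤ th * C1 * M * M' * (CQ + (1 + 4 / κ₁) * Ds) := by (clear * - hth hC1 hM hM' hCQ hκ1 hDs; positivity)
    linarith
  have ds2 : M2 μ ww (L ^ 2 * K) (Dh η ρ (ib (sg2 (XS ρ 0 β0))) PB.NX.sgC
      (-(2 * ∫ t : ℝ, β0 t * deriv PB.NX.sgC t))) (M * T) := by
    have a1 := m2_D h Bd hK hsea hb1b hβ hB hκ1 h1 h2 hDs hds
    rw [← eth] at a1
    refine lift a1 (by (clear * - hκ1 hth hC1 hM hDs; positivity)) ?_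
    rw [eT]
    have a2 : 0 ≤ th * C1 * M * (CQ + (1 + 4 / κ₁) * E) := by (clear * - hth hC1 hM hCQ hκ1 hE0; positivity)
    linarith
  have q2 : M2 μ ww (L ^ 2 * K) (evN fun n => Qp (η n) ρ (ib (sg2 (XS ρ 0 β0)))
      (eX e0 (mass (XS ρ 0 β0))) (fun _ => h0) cut LP) (M * T) := by
    refine lift hQ (by (clear * - hCQ hth hC1 hM; positivity)) ?_
    rw [eT]
    have a2 : 0 ≤ th * C1 * M * ((1 + 4 / κ₁) * (E + Ds)) := by (clear * - hth hC1 hM hκ1 hE0 hDs; positivity)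
    linarith
  -- the pinned terms
  have p2 : ∀ M' k, TC y₁ y₂ a M' k → L1 μ ww (fun ω =>
      (evN (fun _ => Pp LP (sg2 β0)) ω + YO ω) * Vm (fun u => ρ u) η k ω) (M * M' * (CA * L * dp)) := by
    intro M' k hk
    have hM' := hk.nonneg hy1' hy2'
    rw [Vm_evN ρ]
    refine (l1_pV h Bd hM' (hV M' k hk) hCM bP).mono ?_
    have a2 : 0 ≤ CA * M * (M' * dp) * (L - 1) := by
      have : 0 ≤ L - 1 := by linarith
      clear * - hCA hM hM' hdp this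
      positivity
    linarith
  have ps : L1 μ ww (fun ω => (evN (fun _ => Pp LP (sg2 β0)) ω + YO ω) * SN (fun u => ρ u) P η ω)
      (M * (CA * L * dp)) := by
    have a1 := l1_pV h Bd (by norm_num : (0:ℝ) ≤ 3) bcS hCM bP
    have a2 := l1_pO Bd hCM hCS.le bP bVO
    have mA : AEStronglyMeasurable (fun ω => evN (fun _ => Pp LP (sg2 β0)) ω + YO ω) μ :=
      ((evN_meas fun n hn => w.mP h hn).aestronglyMeasurable).add mYO
    have a3 := a1.add (by (clear * - hCA hM hdp; positivity)) (by (clear * - hCA hM hCS hdp; positivity)) (mA.mul mVs) mw a2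
    have e : (fun ω => (evN (fun _ => Pp LP (sg2 β0)) ω + YO ω) * SN (fun u => ρ u) P η ω) = fun ω =>
        (evN (fun _ => Pp LP (sg2 β0)) ω + YO ω) *
          evN (fun n => Vy 0 (η n) ρ fun s z => eM s * PB.NX.sgC z) ω +
        (evN (fun _ => Pp LP (sg2 β0)) ω + YO ω) * VO sgD P ω := by
      rw [eS]
      funext ω
      ring
    rw [e]
    refine a3.mono (le_of_eq ?_)
    rw [hL]
    ring
  have key := wmi_gen (y₁ := y₁) (y₂ := y₂) (a := a) (M := M) (θ := T)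
    (δp := CA * L * dp) h w (mB_zero β0 h0) hy1 hy2 hb1l ha hrad (YO := YO) mYO hK' hG he0
    (by positivity : 0 ≤ CA * M + PBOR.PLX.CS) hCS.le hM hT (lift one zero_le_one le_rfl)
    (lift g2 hG le_rfl) (lift e2 he0 le_rfl) q2 (lift p3 (by positivity) le_rfl)
    (lift y4 hCS.le le_rfl) (fun M' k hk => lift (v2m M' k hk) (hk.nonneg hy1' hy2') le_rfl)
    s2 (C := fun k => -(2 * ∫ t : ℝ, β0 t * deriv k t)) d2 ds2 p2 ps
  refine ⟨_, _, _, _, PBE.PLX.WMi.congr (PBE.PLX.WMi.neg key) ?_ ?_ ?_⟩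
  · rw [hYO]
  · intro M' k _
    exact neg_neg _
  · exact neg_neg _

end one

/-! ### all test functions and the step -/

theorem vy_neg (η0 : Crs) (ρ f : ℂ → ℂ) (r : ℕ) (O : Fin r → Xo) (a b : ℕ)
    (x : (Fin a → ℝ) × (Fin b → ℝ)) : Vy 0 η0 ρ (sg2 f) r O a b x =
    -Vy 0 η0 ρ (fun s z => eM s * f z) r O a b x := by
  have e : ∀ s : Bool, (∫ u : ℝ, (Fil.b s : ℂ) * ρ u * sg2 f s u) =
      -∫ u : ℝ, (Fil.b s : ℂ) * ρ u * (eM s * f u) := by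
    intro s
    rw [← integral_neg]
    refine integral_congr_ae (Filter.Eventually.of_forall fun u => ?_)
    simp only [sg2_eq]
    ring
  unfold Vy PB.NX.nuL PB.rS2 PB.eR
  simp only [e]
  simp only [sg2_eq, neg_mul, Finset.sum_neg_distrib]
  ring

theorem dsg_real (t : ℝ) : deriv PB.NX.sgC (t : ℂ) = PBEI.sg' t := by
  have hp := Real.pi_pos
  have hl2 : NUMF.l = NUP1.l := rfl
  have hl0 := Bd.l_pos
  rw [deriv_sgC (by rw [ofReal_im, abs_zero]; positivity)]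
  have h1 := (PBE.tgh_TC hl0 (by rw [hl2]; linarith : NUP1.l < 2 * NUMF.l)).2 (t : ℂ)
    (by rw [ofReal_im, abs_zero]; exact hl0)
  rw [h1.deriv]
  rfl

/-- the response of the objects, `0` for the test functions -/
theorem MIn_zero : MIn fun _ _ _ _ _ => (0 : ℂ) := fun _ _ _ => measurable_const

/-- **level two, minus channel**: every test function and the step -/
theorem wm_of {y₁ y₂ a κ κ₁ κ₂ b b' q CQ : ℝ} (ha : 1 / 2 ≤ a) (ha2 : a < 8 / 3)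
    (hκ2 : 0 ≤ κ₂) (hκ12 : κ₂ < κ₁) (hκ1 : κ₁ ≤ κ) (hκ : κ < a) (hκh : 1 / 2 ≤ κ)
    (hκu : κ < 2) (hb' : 0 < b') (hb : b' < b) (hb1 : y₁ < -b) (hb2 : b < y₂)
    (hbl : b < NUP1.l) (hq0 : 0 ≤ q) (hq : q ≤ κ) (hCQ : 0 ≤ CQ) :
    ∃ C : ℝ, 1 ≤ C ∧ ∀ {N : ℕ} {Z : ℕ → Bool → Option O3 → ℂ → ℂ} {P : NUO.Par}
      {η η' : ℕ → Crs} {c : ℕ → ℂ} {δ b0 b1 Y₁ Y₂ : ℝ} {kk : ℕ → ℝ} {LZ : ℕ → Bool → ℂ → ℂ}
      {LP : (r : ℕ) → (Fin r → Xo) → Bool → ℂ → ℂ} {ρ : ℂ → ℂ} {c0 Nr : ℝ} {h0 : ℂ → ℂ}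
      {cut : Bool → ℂ → ℂ} {M0 K dp : ℝ}
      (_ : FibN N Z (fun _ => P) η η' δ 0 b0 b1 kk LZ (fun _ => LP) ρ) (_ : b1 ≤ b')
      (_ : SeaL b c0 Nr ρ) (_ : ∀ (r : ℕ) (O : Fin r → Xo), PO P O) (_ : OkLP P LP)
      (_ : ∀ r, Measurable (P.rad r)) (_ : ∀ z : ℂ, |z.im| < b1 → DifferentiableAt ℂ h0 z)
      (_ : ∀ z : ℂ, |z.im| < b1 → ‖h0 z‖ ≤ M0)
      (_ : ∀ n ≤ N, ∀ r O s (t : ℝ), I * LZ n s (NUP1.l + I * zy 0 (Fil.cv s (η n r O)) t) -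
        PB.kp2 ρ s (zy 0 (Fil.cv s (η n r O)) t) =
        h0 (zy 0 (Fil.cv s (η n r O)) t) + cut s (zy 0 (Fil.cv s (η n r O)) t))
      (_ : ∀ M β e, 0 ≤ M → TC (-b) b κ M β →
        TC (-b') b' κ₂ (thX c0 Nr (κ - κ₁) 0 * M) e →
        M2 (mN N) (wN Z (fun _ => P) N η η' c) K (evN fun n => Qp (η n) ρ (ib (sg2 (XS ρ 0 β)))
          (sg2 fun z => e z + 4 * mass (XS ρ 0 β) * PBV.tgh z) (fun _ => h0) cut LP)
          (CQ * (thX c0 Nr (κ - κ₁) 0 * M)))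
      (_ : 0 ≤ K) (_ : 0 ≤ dp) (_ : MBd N Z (fun _ => P) η η' c ρ Y₁ Y₂ K q dp)
      (_ : -b1 ≤ Y₁) (_ : Y₂ ≤ b1) (K' θ' δ' : ℝ) (_ : C * K ≤ K')
      (_ : C * thX c0 Nr (κ - κ₁) 0 ≤ θ') (_ : C * dp ≤ δ'),
      (∀ M g, TC y₁ y₂ a M g → ∃ (D : (ℂ → ℂ) → CfN N → ℂ) (Dt Q P' : CfN N → ℂ),
        PBE.WMi y₁ y₂ a (mN N) (wN Z (fun _ => P) N η η' c) K' θ' δ' M (Vm (fun u => ρ u) η) (SN (fun u => ρ u) P η)
          (Vm (fun u => ρ u) η g) (CmV g) (CsV PBEI.sg' g) D Dt Q P') ∧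
      ∃ (C' : (ℂ → ℂ) → ℂ) (D : (ℂ → ℂ) → CfN N → ℂ) (Dt Q P' : CfN N → ℂ),
        PBE.WMi y₁ y₂ a (mN N) (wN Z (fun _ => P) N η η' c) K' θ' δ' 1 (Vm (fun u => ρ u) η) (SN (fun u => ρ u) P η)
          (SN (fun u => ρ u) P η) C' (CssV PBEI.sg') D Dt Q P' := by
  have hl2 : NUMF.l = NUP1.l := rfl
  have hpl : Real.pi / 8 = NUP1.l := rfl
  have hl0 := Bd.l_pos
  have hCS := PBOR.PLX.CS_pos
  have hb0 : 0 < b := hb'.trans hb
  have h1 : y₁ < 0 := by linarith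
  have h2 : 0 < y₂ := by linarith
  have ha0 : 0 ≤ a := by linarith
  have hκ10 : 0 < κ₁ := by linarith
  have hκ0 : 0 < κ := by linarith
  have hCK := CK_nonneg hκ0 hκu
  have hb3 : b < 2 * NUMF.l := by rw [hl2]; linarith
  obtain ⟨C1, hC1, H1⟩ := PBE.fldx_minus (y₁ := y₁) (y₂ := y₂) ha2 hκ2 hκ12 hκ1 hκ
    (by linarith : κ₁ < 2) hb' hb hb1 hb2 hb3
  obtain ⟨C2, hC2, tS, H2⟩ := PBE.fldx_step hκ2 hκ12 hκ1 (by linarith : κ < 8 / 3)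
    (by linarith : κ₁ < 2) hb' hb hb3
  obtain ⟨Ds, hDs, hds⟩ := dk_step hb0 hbl
  obtain ⟨r0, hr0⟩ : ∃ r0 : ℝ, r0 = min (-b - y₁) (y₂ - b) := ⟨_, rfl⟩
  have hr : 0 < r0 := by
    rw [hr0]
    exact lt_min (by linarith) (by linarith)
  have hr1 : y₁ + r0 ≤ -b := by
    have := min_le_left (-b - y₁) (y₂ - b)
    linarith
  have hr2 : b ≤ y₂ - r0 := by
    have := min_le_right (-b - y₁) (y₂ - b)
    linarith
  obtain ⟨L, hL⟩ : ∃ L : ℝ, L = 3 + PBOR.PLX.CS := ⟨_, rfl⟩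
  have hL3 : 3 ≤ L := by rw [hL]; linarith
  obtain ⟨E, hE⟩ : ∃ E : ℝ, E = CQ + (1 + 4 / κ₁) * (Real.exp (a * r0) / r0 + Ds) := ⟨_, rfl⟩
  have hE0 : 0 ≤ E := by rw [hE]; positivity
  obtain ⟨A1, hA1⟩ : ∃ A1 : ℝ, A1 = C1 * CK κ := ⟨_, rfl⟩
  obtain ⟨A2, hA2⟩ : ∃ A2 : ℝ, A2 = PBOR.PLX.CS + C2 * CK κ := ⟨_, rfl⟩
  have hA10 : 0 ≤ A1 := by rw [hA1]; positivity
  have hA20 : 0 ≤ A2 := by rw [hA2]; positivity
  refine ⟨L ^ 2 + (C1 + C2) * E + (A1 + A2) * L, ?_, ?_⟩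
  · have : 0 ≤ (C1 + C2) * E + (A1 + A2) * L := by positivity
    clear * - hCS hL this
    nlinarith
  intro N Z P η η' c δ b0 b1 Y₁ Y₂ kk LZ LP ρ c0 Nr h0 cut M0 K dp hF hb1' hsea hPO hLP hrad hd0
    hb0' hl hQ hK hdp hMB hY1 hY2 K' θ' δ' hK' hθ' hδ'
  have Bd := mbd_strip hMB hY1 hY2
  have hb1p := hF.b1p
  have hth : 0 ≤ thX c0 Nr (κ - κ₁) 0 := PBE.thX_nonneg hsea.Np
  have z1 : 0 ≤ C1 * E := by positivity
  have z2 : 0 ≤ C2 * E := by positivity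
  have z3 : 0 ≤ A1 * L := by positivity
  have z4 : 0 ≤ A2 * L := by positivity
  have kK : L ^ 2 * K ≤ K' := by
    refine le_trans (mul_le_mul_of_nonneg_right ?_ hK) hK'
    linarith
  have kt : ∀ Cj : ℝ, Cj * E ≤ (C1 + C2) * E →
      thX c0 Nr (κ - κ₁) 0 * (Cj * E) ≤ θ' := fun Cj hj => by
    refine le_trans ?_ hθ'
    rw [mul_comm]
    refine mul_le_mul_of_nonneg_right ?_ hth
    have : 0 ≤ L ^ 2 := by positivity
    linarith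
  have kd : ∀ Aj : ℝ, Aj * L ≤ (A1 + A2) * L → Aj * L * dp ≤ δ' := fun Aj hj => by
    refine le_trans (mul_le_mul_of_nonneg_right ?_ hdp) hδ'
    have : 0 ≤ L ^ 2 := by positivity
    linarith
  refine ⟨fun M g hg => ?_, ?_⟩
  · have hM : 0 ≤ M := hg.nonneg h1 h2
    obtain ⟨β, tβ, rβ, HX⟩ := H1 M g hg
    obtain ⟨-, -, -, e, te, re⟩ := HX c0 Nr ρ hsea 0
    simp only [ofReal_zero, sub_zero] at re
    have hm0 : mass β = 0 := mass_zero tβ hκ0 hκu hb0 hb3 hg (by linarith) h1 h2 rβ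
    have hpy : ∀ (r : ℕ) (O : Fin r → Xo) (a b : ℕ) (x : (Fin a → ℝ) × (Fin b → ℝ)),
        ‖Pp LP (sg2 β) r O a b x + 0‖ ≤ A1 * M * pinR q O := fun r O a b x => by
      rw [add_zero]
      refine (Pp_min hPO hLP tβ hκ0 hκu hb0 hm0 hq r O a b x).trans (le_of_eq ?_)
      rw [hA1]
      ring
    obtain ⟨D, Dt, Q, P', key⟩ := wm_core (yo := fun _ _ => 0) hF Bd hK hdp hq0 hPO hLP hrad
      hsea hb1' hb.le hbl.le ha0 hr hr1 hr2 hM hC1 tβ hκ10 hκ2 hκ1 (by linarith) te re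
      (fun z hz => TC_dAt hg (by linarith) (by linarith) hz)
      (fun z hz => bd_TC hg ha0 hM (by linarith) (by linarith) hz) hM hd0 hb0' hl hCQ
      (hQ _ β e (mul_nonneg hC1 hM) tβ te) MIn_zero (fun r O => by
        rw [norm_zero]; positivity) hA10 hpy hDs hds
    refine ⟨D, Dt, Q, P', ?_⟩
    rw [← hL, ← hE] at key
    have key2 := wmi_mono key h1 h2 hM (by positivity) kK (by positivity) (kt C1 (by (clear * - z2; linarith)))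
      (kd A1 (by linarith))
    refine PBE.PLX.WMi.congr key2 ?_ ?_ ?_
    · funext ω
      rw [Vm_evN ρ]
      show -(Vy 0 (η ω.1) ρ (sg2 g) _ _ _ _ _ + 0) = _
      rw [vy_neg, add_zero, neg_neg]
      rfl
    · intro M' k hk
      exact (Pool.Agent.PB.dictR_Cm tβ hκh hb0 hg hk ha hb0 hb1 hb2
        (fun t => rβ (t : ℂ) (by rw [ofReal_im, abs_zero]; exact hb0) false)).2
    · have h5 := Pool.Agent.PB.dictR_Cs tβ hκh hb0 hg ha hb0 hb1 hb2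
        (fun t => rβ (t : ℂ) (by rw [ofReal_im, abs_zero]; exact hb0) false) PBEI.lim_sg.int'
      simp only [dsg_real]
      exact h5
  · obtain ⟨-, -, -, e, te, re⟩ := H2 c0 Nr ρ hsea 0
    simp only [ofReal_zero, sub_zero] at re
    have tS' : TC (-b) b κ (C2 * 1) bS := by rwa [mul_one]
    have te' : TC (-b') b' κ₂ (thX c0 Nr (κ - κ₁) 0 * (C2 * 1)) e := by rwa [mul_one]
    have re' : ∀ z : ℂ, |z.im| < b' → ∀ t : Bool,
        PB.rsp (PB.mulF ρ (sg2 (XS ρ 0 bS))) t z =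
          sg2 (fun w => PB.NX.sgC w - e w - 4 * mass (XS ρ 0 bS) * PBV.tgh w) t z := by
      intro z hz t
      have h6 := re z hz t
      have h7 := tgh_eq (z := z) (by rw [hpl]; linarith)
      rw [sg2_eq] at h6 ⊢
      simp only [h7] at h6 ⊢
      exact h6
    have hpy : ∀ (r : ℕ) (O : Fin r → Xo) (a b : ℕ) (x : (Fin a → ℝ) × (Fin b → ℝ)),
        ‖Pp LP (sg2 bS) r O a b x + -stO sgD P O‖ ≤ A2 * 1 * pinR q O := fun r O a b x => by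
      rw [mul_one, hA2]
      exact Pp_step hPO hLP tS hκ0 hκu hb0 hq r O a b x
    obtain ⟨D, Dt, Q, P', key⟩ := wm_core (yo := fun _ O => -stO sgD P O) hF Bd hK hdp hq0 hPO
      hLP hrad hsea hb1' hb.le hbl.le ha0 hr hr1 hr2 zero_le_one hC2 tS' hκ10 hκ2 hκ1
      (by linarith) te' re' (fun z hz => PB.NX.differentiableAt_sgC (by rw [hpl]; linarith))
      (fun z hz => sgC_le (by rw [hpl]; linarith)) (by norm_num) hd0 hb0' hl hCQ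
      (hQ _ bS e (mul_nonneg hC2 zero_le_one) tS' te')
      (fun r a b => (MIn_stO hrad mS_sgD r a b).neg) (fun r O => by
        rw [norm_neg]; exact stO_sg_le (hPO r O)) hA20 hpy hDs hds
    refine ⟨fun k => 2 * ∫ t : ℝ, bS t * deriv k t, D, Dt, Q, P', ?_⟩
    rw [← hL, ← hE] at key
    have key2 := wmi_mono key h1 h2 zero_le_one (by positivity) kK (by positivity)
      (kt C2 (by linarith)) (kd A2 (by linarith))
    refine PBE.PLX.WMi.congr key2 ?_ (fun _ _ _ => rfl) ?_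
    · funext ω
      rw [SN_eq, Vm_evN ρ]
      show -(Vy 0 (η ω.1) ρ (sg2 PB.NX.sgC) _ _ _ _ _ + -stO sgD P _) = _
      rw [vy_neg, neg_add, neg_neg, neg_neg]
      rfl
    · simp only [dsg_real]
      exact PBE.bS_Css

end PBWM.PLX

end
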