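import Pool.Agent.PLX.Ns
import Pool.Agent.PLX.PB.QpR
import Pool.Agent.PLX.PB.QyF
import Pool.Agent.PLX.PB.CutFam
import Pool.Agent.PLX.PB.LevH0
import Pool.Agent.PLX.PB.LevI
import Pool.Agent.PLX.PB.FibX
import Pool.Agent.PLX.PB.WMin

/-!
# Second moment of the remainder at the family of the dislocated function (plan B, I2)

`bb = 19/200 l`, `bb' = 9/100 l`, `κ = 189/100`, `κ₁ = 1/100`, `κ₂ = 1/200`:
* `fib_S`: the fibres, heights `b0 = ep l / 4`, any strip `b1 ≤ l / 2`;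
* **`hQ_gen`**: `M2` of `Qp` for all fields and test functions;
* **`hQ_plus`**, **`hQ_minus`**: the hypotheses `hQ` of `PBWP.wplus` and `PBWM.wm_of` at the family.
-/

set_option autoImplicit false
set_option linter.unusedSectionVars false

noncomputable section

open Complex MeasureTheory Finset Filter Topology

open PLX (Fil)

namespace PBWP.PLX

open NUO NUP1 NUCR NUP1S NUP1S.Ab NUP1S.AbC NUGC NUGC.PLX PBFunc PBFunc.PLX PBF PBF.PLX PBE PBE.PLX PBLX PBLX.PLX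
open PBEI (y1 y2 rowS h0T mfL cL)

attribute [local instance] NUSea.seaP

/-- half width of the strip of the fields -/
def bb : ℝ := 19 / 200 * NUP1.l
/-- half width of the strip of the statistics -/
def bb' : ℝ := 9 / 100 * NUP1.l

theorem bb_pos : 0 < bb := by
  have := Bd.l_pos
  unfold bb
  positivity

theorem bb'_pos : 0 < bb' := by
  have := Bd.l_pos
  unfold bb'
  positivity

theorem bb'_lt : bb' < bb := by
  have := Bd.l_pos
  unfold bb bb'
  linarith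

variable [Fil]

/-- size of the quotient at the family -/
abbrev thS (c0 : ℝ) (j : ℕ) : ℝ := thX c0 ((j + 1 : ℕ) : ℝ) (189 / 100 - 1 / 100) 0

/-- the fibres -/
theorem fib_S {ep e1 J : ℝ} (h0 : 0 < ep) (h1 : ep ≤ 1 / 100) (h2 : 0 < e1) (h3 : e1 ≤ 1 / 100)
    (h4 : 0 ≤ J) {b1 : ℝ} (hb : ep * NUP1.l / 4 < b1) (hb1 : 2 * b1 ≤ NUP1.l) :
    ∀ᶠ j : ℕ in atTop, ∀ s ∈ Set.Icc (0 : ℝ) 1, ∀ t : ℝ,
      FibN (2 * (j + 1)) (fun _ => ZF ep j s t) (pS j) (eC e1 J j) (eC' e1 J j) (ep / 4) 0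
        (ep * NUP1.l / 4) b1 (fun _ => 2 * (4 / 3 * (1 - ep)))
        (fun _ u => PBLZ.PLX.LZX u (4 / 3 * (1 - ep)) (rowS j s) [I, -I] (I * t))
        (fun _ => LPo (NUSea.PLX.O.par0 (j + 1))) (rhS j s) := by
  have hl := Bd.l_pos
  have hb0 : 0 < b1 := lt_of_le_of_lt (by positivity) hb
  obtain ⟨j0, H⟩ := PBFX.PLX.fibN_fx h0 h1 h2 h3 h4
  obtain ⟨c0, -, hc⟩ := seaL_rhS (b := b1) hb0.le (by linarith)
  filter_upwards [eventually_ge_atTop j0] with j hj s hs t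
  have hsea := (hc j s (abs_le.2 ⟨by linarith [hs.1], hs.2⟩)).2
  exact H j hj s t (rhS j s) (ep * NUP1.l / 4) b1 le_rfl hb hb1 hsea _ (fun _ => by linarith)
    (fun _ => le_rfl)

/-- **second moment of the remainder at the family**, all fields -/
theorem hQ_gen [MomS] {ε : ℝ} (hε : 0 < ε) :
    ∃ a0 : ℝ, 0 < a0 ∧ ∀ ep e1 J : ℝ, SmallP a0 ep e1 J → ∃ CQ : ℝ, 0 ≤ CQ ∧
      ∀ᶠ j : ℕ in atTop, ∀ s ∈ Set.Icc (0 : ℝ) 1, ∀ t ∈ Set.Icc (0 : ℝ) 1,
        ∀ (T Te Tc : ℝ) (X e : Bool → ℂ → ℂ), 0 ≤ Te → 0 ≤ Tc →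
          (∀ u, TC (-bb) bb (1 / 100) T (X u)) → (∀ u, PBU.PLX.BC (-(ep / 4)) bb' Te (e u)) →
          (∀ u (z : ℂ), |z.im| < ep / 4 → DifferentiableAt ℂ (e u) z) →
          ‖∑ u, ∫ x : ℝ, rhS j s x * (X u x * cutJ ep u j s x)‖ ≤ Tc →
          M2 (mN (2 * (j + 1))) (wS ep e1 J j s t) (Kj ε j)
            (evN fun n => Qp (eC e1 J j n) (rhS j s) (ib X) e (fun _ => h0T t)
              (fun u => cutJ ep u j s) (LPo (NUSea.PLX.O.par0 (j + 1)))) (CQ * (T + Te + Tc)) := by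
  have hl := Bd.l_pos
  have hl1 : NUP1.l < 1 := by
    unfold NUP1.l
    linarith [Real.pi_lt_d2]
  have hl2 : 1 / 4 < NUP1.l := by
    unfold NUP1.l
    linarith [Real.pi_gt_three]
  obtain ⟨a1, ha1, H1⟩ := mbdS (q := 0) le_rfl (by norm_num) hε
  obtain ⟨a2, ha2, H2⟩ := mom4S hε
  refine ⟨min a1 a2, lt_min ha1 ha2, fun ep e1 J hp => ?_⟩
  have hep0 := hp.ep0
  have hep1 := hp.ep1
  obtain ⟨Cq, hCq, HQ⟩ := qy_fib (b := bb) (κ₁ := 1 / 100) (y₁ := -(ep / 4)) (y₂ := bb')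
    (by unfold bb; linarith) (by norm_num) (by norm_num) (by unfold bb; linarith)
    (by linarith) bb'_pos bb'_lt
  have hK := KJ_pos hep0 hep1
  obtain ⟨c0, -, hc⟩ := seaL_rhS (b := bb) bb_pos.le (by unfold bb; linarith)
  obtain ⟨Co, hCo⟩ : ∃ Co : ℝ, Co = PBOR.PLX.CO + 4 := ⟨_, rfl⟩
  have hCo0 : 0 ≤ Co := by
    have := PBOR.PLX.CO_pos
    rw [hCo]; linarith
  have hcL : 0 ≤ cL := (norm_nonneg _).trans
    ((h0T_fam le_rfl 0).2 0 (by rw [zero_im, abs_zero]; positivity))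
  obtain ⟨A, hA⟩ : ∃ A : ℝ, A = Cq + cL + KJ ep + Co + 400 * cL + 400 * Co := ⟨_, rfl⟩
  have hA0 : 0 ≤ A := by rw [hA]; positivity
  refine ⟨1 + A, by positivity, ?_⟩
  have hb0 : ep * NUP1.l / 4 < ep / 4 := by nlinarith
  have hb1 : ep / 4 < bb := by unfold bb; linarith
  filter_upwards [H1 ep e1 J (hp.mono (min_le_left _ _)) (-(ep / 4)) bb' (by linarith) bb'_pos,
    H2 ep e1 J (hp.mono (min_le_right _ _)) (-(ep / 4)) bb' (by linarith) bb'_pos,
    fib_S hep0 hep1 hp.e0 hp.e1' hp.J0 (hb0.trans hb1) (by unfold bb; linarith)]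
    with j h1 h2 h3 s hs t ht T Te Tc X e hTe hTc hX he hed hrc
  have hM := h1 s hs t ht
  have hF := h3 s hs t
  have hT : 0 ≤ T := (hX true).nonneg (by linarith [bb_pos]) bb_pos
  have hKj := (Kj_pos ε j).le
  have hsea := (hc j s (abs_le.2 ⟨by linarith [hs.1], hs.2⟩)).2
  have hleg := h0T_fam (b := bb) (by unfold bb; linarith) t
  have key := qpr_M2 (b0 := ep * NUP1.l / 4) (b'' := ep / 4) (b1 := bb) (b := bb)
    (κ₁ := 1 / 100) (T := T) (Te := Te) (Ml := cL) (Mc := KJ ep) (Co := Co) (Tc := Tc) hM hKj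
    hF.mZ hF.mc hF.hs hb0 (by linarith) hsea hb1.le hb1.le (by linarith) bb'_lt.le
    (hF.mP 0 (Nat.zero_le _)) (X := X) (e := e) (leg := fun _ => h0T t)
    (cut := fun u => cutJ ep u j s) (by norm_num) hT hTe hcL hK.le hCo0 hTc hX he hed
    (fun _ => hleg.1) (fun _ => hleg.2)
    (fun u z hz => cutJ_an hep0 hep1 u j s (by have := (abs_lt.1 hz).1; linarith)
      (by have := (abs_lt.1 hz).2; linarith))
    (fun u => ⟨fun z hz => (cutJ_an hep0 hep1 u j s (by have := hz.1; linarith)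
      (by have := hz.2; unfold bb' at this; linarith)).differentiableWithinAt,
      fun z hz => cutJ_le hep0 hep1 u j s (by have := hz.1; linarith)
        (by have := hz.2; unfold bb' at this; linarith)⟩)
    (fun r O u z hz => obF_dAt (PBOR.PLX.PO_par0 (j + 1) O) u
      (by unfold bb at hz; linarith))
    (fun r O u z hz => by
      rw [hCo]
      exact obF_le (PBOR.PLX.PO_par0 (j + 1) O) u (by unfold bb at hz; linarith)) hrc
  have kq := HQ (c := cF j s t) hF (by linarith) (by unfold bb'; linarith) hKj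
    (h2 s hs t ht) (fun u => TC.ib u (hX u))
  have hXF : PB.FldF bb X := ⟨fun u z hz => (hX u).an.differentiableAt
    ((Pool.Agent.PB.isOpen_Sp _ _).mem_nhds (abs_lt.1 hz)), T, hT, fun u z hz => by
      exact ((BC_of (hX u) (by norm_num) hT le_rfl le_rfl)).bd z (abs_lt.1 hz)⟩
  have mQ : AEStronglyMeasurable (evN fun n => Qy 0 (eC e1 J j n) (rhS j s) (ib X))
      (mN (2 * (j + 1))) := (evN_meas fun n hn =>
    MIn.qy (hF.mc n hn) (hF.hs n hn) hF.b1p hF.b01 hF.sea (FldF.ib hXF)).aestronglyMeasurable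
  have hw : AEStronglyMeasurable (wS ep e1 J j s t) (mN (2 * (j + 1))) :=
    (wN_meas hF.mZ).aestronglyMeasurable
  have k2 := PBWP.PLX.M2.add0 (mul_nonneg hCq hT) (by positivity) hKj hw mQ kq key
  have k3 := k2.congr (B := evN fun n => Qp (eC e1 J j n) (rhS j s) (ib X) e (fun _ => h0T t)
      (fun u => cutJ ep u j s) (LPo (NUSea.PLX.O.par0 (j + 1)))) fun ω => by
    simp only [evN, ev]
    ring
  refine k3.mono (by positivity) ?_ le_rfl hKj
  rw [hA]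
  have e1 : 0 ≤ Cq * Te := by positivity
  have e2 : 0 ≤ Cq * Tc := by positivity
  have e3 : 0 ≤ cL * Te := by positivity
  have e4 : 0 ≤ cL * Tc := by positivity
  have e5 : 0 ≤ KJ ep * Te := by positivity
  have e6 : 0 ≤ KJ ep * Tc := by positivity
  have e7 : 0 ≤ Co * Te := by positivity
  have e8 : 0 ≤ Co * Tc := by positivity
  nlinarith

/-- **the hypothesis `hQ` of `wplus` at the family** -/
theorem hQ_plus [MomS] {ε : ℝ} (hε : 0 < ε) {c0 : ℝ}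
    (hc : ∀ (j : ℕ) (s : ℝ), |s| ≤ 1 → SeaL bb c0 ((j + 1 : ℕ) : ℝ) (rhS j s)) :
    ∃ a0 : ℝ, 0 < a0 ∧ ∀ ep e1 J : ℝ, SmallP a0 ep e1 J → ∃ CQ : ℝ, 0 ≤ CQ ∧
      ∀ᶠ j : ℕ in atTop, ∀ s ∈ Set.Icc (0 : ℝ) 1, ∀ t ∈ Set.Icc (0 : ℝ) 1,
        ∀ (M : ℝ) (β e : ℂ → ℂ), 0 ≤ M → TC (-bb) bb (189 / 100) M β →
          TC (-bb') bb' (1 / 200) (thS c0 j * M) e →
          M2 (mN (2 * (j + 1))) (wS ep e1 J j s t) (Kj ε j)
            (evN fun n => Qp (eC e1 J j n) (rhS j s) (ib fun _ => XS (rhS j s) 0 β) (fun _ => e)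
              (fun _ => h0T t) (fun u => cutJ ep u j s) (LPo (NUSea.PLX.O.par0 (j + 1))))
            (CQ * (thS c0 j * M)) := by
  have hl := Bd.l_pos
  have hl2 : 1 / 4 < NUP1.l := by
    unfold NUP1.l
    linarith [Real.pi_gt_three]
  obtain ⟨a0, ha0, H⟩ := hQ_gen hε
  refine ⟨a0, ha0, fun ep e1 J hp => ?_⟩
  have hep0 := hp.ep0
  have hep1 := hp.ep1
  obtain ⟨CQ, hCQ, H1⟩ := H ep e1 J hp
  obtain ⟨Cr, hCr, H2⟩ := rho_cutJ hep0 hep1 (b := bb) (c0 := c0) (κ := 189 / 100)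
    (κ₁ := 1 / 100) bb_pos (by norm_num) (by norm_num) (by norm_num)
  refine ⟨CQ * (2 + 2 * Cr), by positivity, ?_⟩
  filter_upwards [H1] with j h1 s hs t ht M β e hM hβ he
  have hs1 : |s| ≤ 1 := abs_le.2 ⟨by linarith [hs.1], hs.2⟩
  have hρ := hc j s hs1
  have hth : 0 ≤ thS c0 j := thX_nonneg hρ.Np
  have tX := XS_TC hρ hβ hM (κ₁ := 1 / 100) (by norm_num) (by norm_num) 0
  have hTe : 0 ≤ thS c0 j * M := mul_nonneg hth hM
  obtain ⟨th, hth'⟩ : ∃ th : ℝ, th = thS c0 j * M := ⟨_, rfl⟩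
  have hrc : ∀ u, ‖∫ x : ℝ, rhS j s x * (XS (rhS j s) 0 β x * cutJ ep u j s x)‖ ≤ Cr * th :=
    fun u => (H2 u j s hs1 (rhS j s) hρ M β hβ).trans (le_of_eq (by rw [hth']))
  have k := h1 s hs t ht (thS c0 j * M) (thS c0 j * M) (2 * (Cr * (thS c0 j * M)))
    (fun _ => XS (rhS j s) 0 β) (fun _ => e) hTe (by positivity) (fun _ => tX)
    (fun _ => BC_of he (by norm_num) hTe (by unfold bb'; linarith) le_rfl)
    (fun _ z hz => TC.dAt' he le_rfl le_rfl (hz.trans (by unfold bb'; linarith)))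
    (by
      rw [Fintype.sum_bool, ← hth']
      refine (norm_add_le _ _).trans ?_
      have e1 := hrc true
      have e2 := hrc false
      linarith)
  refine k.mono (by positivity) (le_of_eq ?_) le_rfl (Kj_pos ε j).le
  ring

/-- **the hypothesis `hQ` of `PBWM.wm_of` at the family** -/
theorem hQ_minus [MomS] {ε : ℝ} (hε : 0 < ε) {c0 : ℝ}
    (hc : ∀ (j : ℕ) (s : ℝ), |s| ≤ 1 → SeaL bb c0 ((j + 1 : ℕ) : ℝ) (rhS j s)) :
    ∃ a0 : ℝ, 0 < a0 ∧ ∀ ep e1 J : ℝ, SmallP a0 ep e1 J → ∃ CQ : ℝ, 0 ≤ CQ ∧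
      ∀ᶠ j : ℕ in atTop, ∀ s ∈ Set.Icc (0 : ℝ) 1, ∀ t ∈ Set.Icc (0 : ℝ) 1,
        ∀ (M : ℝ) (β e : ℂ → ℂ), 0 ≤ M → TC (-bb) bb (189 / 100) M β →
          TC (-bb') bb' (1 / 200) (thS c0 j * M) e →
          M2 (mN (2 * (j + 1))) (wS ep e1 J j s t) (Kj ε j)
            (evN fun n => Qp (eC e1 J j n) (rhS j s) (ib (sg2 (XS (rhS j s) 0 β)))
              (sg2 fun z => e z + 4 * mass (XS (rhS j s) 0 β) * PBV.tgh z)
              (fun _ => h0T t) (fun u => cutJ ep u j s) (LPo (NUSea.PLX.O.par0 (j + 1))))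
            (CQ * (thS c0 j * M)) := by
  have hl := Bd.l_pos
  have hl2 : 1 / 4 < NUP1.l := by
    unfold NUP1.l
    linarith [Real.pi_gt_three]
  obtain ⟨a0, ha0, H⟩ := hQ_gen hε
  refine ⟨a0, ha0, fun ep e1 J hp => ?_⟩
  have hep0 := hp.ep0
  have hep1 := hp.ep1
  obtain ⟨CQ, hCQ, H1⟩ := H ep e1 J hp
  obtain ⟨Cr, hCr, H2⟩ := rho_cutJ hep0 hep1 (b := bb) (c0 := c0) (κ := 189 / 100)
    (κ₁ := 1 / 100) bb_pos (by norm_num) (by norm_num) (by norm_num)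
  refine ⟨CQ * (2402 + 2 * Cr), by positivity, ?_⟩
  filter_upwards [H1] with j h1 s hs t ht M β e hM hβ he
  have hs1 : |s| ≤ 1 := abs_le.2 ⟨by linarith [hs.1], hs.2⟩
  have hρ := hc j s hs1
  have hth : 0 ≤ thS c0 j := thX_nonneg hρ.Np
  have tX := XS_TC hρ hβ hM (κ₁ := 1 / 100) (by norm_num) (by norm_num) 0
  have hTe : 0 ≤ thS c0 j * M := mul_nonneg hth hM
  have hm : ‖mass (XS (rhS j s) 0 β)‖ ≤ thS c0 j * M * 200 := by
    have := PBE.int_XD_le tX bb_pos (by norm_num) hTe 0 (f := fun _ => 1) (B := 1)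
      (fun _ => by simp)
    unfold mass
    simp only [ofReal_zero, sub_zero, mul_one] at this
    refine this.trans (le_of_eq ?_)
    ring
  have hed : ∀ z : ℂ, |z.im| < bb' → DifferentiableAt ℂ
      (fun z => e z + 4 * mass (XS (rhS j s) 0 β) * PBV.tgh z) z := fun z hz =>
    (TC.dAt' he le_rfl le_rfl hz).add
      ((PBWM.PLX.tgh_dAt bb'_pos (by unfold bb'; linarith) hz).const_mul _)
  have heb : ∀ z : ℂ, |z.im| < bb' → ‖e z + 4 * mass (XS (rhS j s) 0 β) * PBV.tgh z‖ ≤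
      thS c0 j * M * 2401 := fun z hz => by
    have h2 := (BC_of he (by norm_num) hTe le_rfl le_rfl).bd z (abs_lt.1 hz)
    have h3 := PBWM.PLX.tgh_le (by unfold bb'; linarith) hz
    refine (norm_add_le _ _).trans ?_
    rw [norm_mul, norm_mul]
    have h4 : ‖(4 : ℂ)‖ = 4 := by norm_num
    rw [h4]
    have h5 : 4 * ‖mass (XS (rhS j s) 0 β)‖ * ‖PBV.tgh z‖ ≤ 4 * (thS c0 j * M * 200) * 3 :=
      mul_le_mul (by linarith) h3 (norm_nonneg _) (by positivity)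
    linarith
  have hsub : ∀ z ∈ PBE.Sp (-(ep / 4)) bb', |z.im| < bb' := fun z hz =>
    abs_lt.2 ⟨by have h5 := hz.1; unfold bb'; linarith, hz.2⟩
  obtain ⟨th, hth'⟩ : ∃ th : ℝ, th = thS c0 j * M := ⟨_, rfl⟩
  have hrc : ∀ u, ‖∫ x : ℝ, rhS j s x * (sg2 (XS (rhS j s) 0 β) u x * cutJ ep u j s x)‖ ≤
      Cr * th := fun u => by
    have e1 : ∫ x : ℝ, rhS j s x * (sg2 (XS (rhS j s) 0 β) u x * cutJ ep u j s x) =
        (if u then (-1 : ℂ) else 1) *
          ∫ x : ℝ, rhS j s x * (XS (rhS j s) 0 β x * cutJ ep u j s x) := by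
      rw [← integral_const_mul]
      refine integral_congr_ae (Eventually.of_forall fun x => ?_)
      cases u <;> simp [sg2]
    have e2 : ‖(if u then (-1 : ℂ) else 1)‖ = 1 := by cases u <;> simp
    rw [e1, norm_mul, e2, one_mul, hth']
    exact H2 u j s hs1 (rhS j s) hρ M β hβ
  have k := h1 s hs t ht (thS c0 j * M) (thS c0 j * M * 2401) (2 * (Cr * (thS c0 j * M)))
    (sg2 (XS (rhS j s) 0 β)) (sg2 fun z => e z + 4 * mass (XS (rhS j s) 0 β) * PBV.tgh z)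
    (by positivity) (by positivity) (fun u => PBE.TC.sg2 tX u)
    (fun u => ⟨fun z hz => by
      rw [PBWM.PLX.sg2_fun]
      exact ((hed z (hsub z hz)).const_mul _).differentiableWithinAt, fun z hz => by
      rw [PBWM.PLX.norm_sg2]
      exact heb z (hsub z hz)⟩)
    (fun u z hz => by
      rw [PBWM.PLX.sg2_fun]
      exact (hed z (hz.trans (by unfold bb'; linarith))).const_mul _)
    (by
      rw [Fintype.sum_bool, ← hth']
      refine (norm_add_le _ _).trans ?_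
      have e1 := hrc true
      have e2 := hrc false
      linarith)
  refine k.mono (by positivity) (le_of_eq ?_) le_rfl (Kj_pos ε j).le
  ring

end PBWP.PLX

end
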