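import Pool.Agent.PLX.PB.KGeoA
import Pool.Agent.PLX.PotH.CrvI

/-!
# PLAX: the geometry of an instance of (K), part B: the curves `etaC`, admissible selections (helper91)

* **`pot_etaC`**, **`cut_etaC`**: the potential and the cutoff of all admissible instances on the curve `etaC`;
* `KI.dft n m`: the instance without moved rows, spectators and atoms, legs at `0`; it is admissible at the size `m`;
  **`KI.fix`**: the instance, replaced by `KI.dft n m` if it is not admissible at the size `m`; `KI.fix_ok`, `KI.fix_eq`.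
-/

set_option autoImplicit false
set_option linter.unusedSectionVars false

open MeasureTheory Filter Topology Set
open PLX (Fil Ends)

namespace PBK.PLX

open NUMF (l l_pos)
open NUO (pA Tb)
open NUGC.PLX (OB ThN hC etaC etaC')
open PotH.PLX (HOk HSk CrvP CutR sN)
open PBO.PLX (rwO rwX thZ)
open PBH (AT)
open PBH.PLX
open Pool.Agent.PLX (zr Ax)

noncomputable section

attribute [local instance] NUSea.seaP

variable [Fil] [Ends] {n n' : ℕ} {K δ : ℝ} {Sp : (Bool → ℂ → ℝ) → Prop} {m : ℕ} {y : KI n}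

/-! ### the curves `etaC` -/

/-- the current of the curve `etaC` -/
lemma cur_le {e1 J : ℝ} (he : 0 < e1) (he1 : e1 ≤ 1 / 100) (hJ : 0 ≤ J) {m : ℕ} (hm : 1 ≤ m)
    (hT : 20 ≤ Tb (Real.log m)) (t : ℝ) : |(m : ℝ) * NUSea.P t * etaC e1 J m m t| ≤ Real.log m + J := by
  rw [NUGC.PLX.mul_etaC (by exact_mod_cast hm) t, abs_of_nonneg (NUGC.PLX.hC_nonneg he1 hJ hT t)]
  have h1 := NUGC.PLX.hC_le he he1 hJ hT t
  have h2 : Tb (Real.log m) = 3 / 8 * Real.log m := rfl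
  rw [h2] at h1 hT
  linarith

/-- **the potential of all admissible instances on the curve `etaC`** -/
theorem pot_etaC (n n' : ℕ) {K δ : ℝ} (hK : 0 ≤ K) (hδ : 0 < δ) (hδ1 : δ ≤ l / 2) :
    ∃ B0 N0 CE : ℝ, 0 ≤ B0 ∧ 0 ≤ N0 ∧ 0 ≤ CE ∧ ∀ e1 : ℝ, 0 < e1 → e1 ≤ 1 / 100 → ∀ J : ℝ, 0 ≤ J →
      ∃ m0 : ℕ, ∀ m ≥ m0, ∀ (Sp : (Bool → ℂ → ℝ) → Prop) (y : KI n), KOk n' K δ Sp m y →
      ∃ H H' : Bool → ℝ → ℝ,
        (∀ d : ℝ, 0 ≤ d → HSk B0 N0 d ((1 - e1) * Tb (Real.log m)) (Real.log m ^ 3) H H') ∧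
        (∀ β a t, (y.B β).R a (pA (Fil.cv a (etaC e1 J m m)) t) ≤ 2 * Real.cos NUP1.l *
          Real.exp (NUSea.PLX.vb (sN m) a (NUAct.zt (NUKer.iD (Fil.cv a (etaC e1 J m m))) t)).re *
            ThN (pA (Fil.cv a (etaC e1 J m m)) t) * Real.exp (H a t)) ∧
        NUSea.PLX.MF (sN m) + ∑ a, ∫ t, sN m a * NUSea.P t * H a t ≤ y.em + CE * Real.log m + CE * J := by
  obtain ⟨B0, N0, CE, hB0, hN0, hCE, H⟩ := exists_pot n n' hK hδ hδ1
  refine ⟨B0, N0, CE, hB0, hN0, hCE, fun e1 he he1 J hJ => ?_⟩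
  obtain ⟨m1, H⟩ := H e1 he
  obtain ⟨Cc, hCc, m2, hm2, hc⟩ := PotH.PLX.exists_crvC (J := J) he he1 hJ
  refine ⟨max m1 m2, fun m hm Sp y hy => ?_⟩
  have k1 : m1 ≤ m := (le_max_left _ _).trans hm
  have k2 : m2 ≤ m := (le_max_right _ _).trans hm
  obtain ⟨hT, hcrv⟩ := hc m k2
  obtain ⟨HH, HH', a1, a2, a3⟩ := H m k1 Cc _ _ hcrv _ (cur_le he he1 hJ (hm2.trans k2) hT) Sp y hy
  exact ⟨HH, HH', fun d hd => a1 d _ hd, a2, by linarith⟩

/-- **the cutoff of all admissible instances on the curve `etaC`** -/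
theorem cut_etaC (n n' : ℕ) {ep e1 : ℝ} (hep : 0 < ep) (hep1 : ep ≤ 1 / 100) (he : 0 < e1) (he1 : e1 ≤ 1 / 100)
    {J : ℝ} (hJ : 0 ≤ J) : ∃ C0 : ℝ, 1 ≤ C0 ∧ ∃ m0 : ℕ, ∀ m ≥ m0, ∃ cr Bc Bc' : ℝ → ℝ,
      CutR ep C0 ((1 - e1) * Tb (Real.log m)) m cr Bc Bc' ∧
      ∀ (K δ : ℝ) (Sp : (Bool → ℂ → ℝ) → Prop) (y : KI n), KOk n' K δ Sp m y →
        ∀ a t, ‖(y.B (4 / 3 * (1 - ep))).φ a (pA (Fil.cv a (etaC e1 J m m)) t)‖ ≤ cr t := by
  obtain ⟨Cc, hCc, m2, hm2, hc⟩ := PotH.PLX.exists_crvC (J := J) he he1 hJ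
  obtain ⟨C0, hC0, m1, H⟩ := exists_cut n n' hep hep1 he he1 Cc
  refine ⟨C0, hC0, max m1 m2, fun m hm => ?_⟩
  obtain ⟨cr, Bc, Bc', h1, h2⟩ := H m ((le_max_left _ _).trans hm)
  exact ⟨cr, Bc, Bc', h1, fun K δ Sp y hy => h2 K δ Sp y hy _ _ (hc m ((le_max_right _ _).trans hm)).2⟩

/-! ### admissible selections -/

/-- **the instance without moved rows, spectators and atoms**, legs at `0` -/
def KI.dft (n m : ℕ) : KI n := ⟨fun _ => [], fun a => Fil.ne a m, 0, fun _ _ => ⟨0, 0, 0, 0⟩, fun _ _ => 1⟩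

theorem KOk.dft (hK : 0 ≤ K) (hδ : δ ≤ 4 * l) (h1 : Sp fun _ _ => 1) (m : ℕ) :
    KOk n' K δ Sp m (KI.dft n m) where
  num a := by simp [KI.dft]
  len := by simp [KI.dft]
  ax a w hw := by simp [KI.dft] at hw
  z := by constructor <;> simp [KI.dft]
  atm a i := by
    simp only [KI.dft, abs_zero]
    exact ⟨hK, by linarith, by linarith⟩
  nn a u := zero_le_one
  cur ζ hζ a t := by
    unfold HS KI.dft
    simp
  sp := h1

/-- **the instance used at the size `m`** -/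
def KI.fix (n' : ℕ) (K δ : ℝ) (Sp : (Bool → ℂ → ℝ) → Prop) (m : ℕ) (y : KI n) : KI n := by
  classical exact if KOk n' K δ Sp m y then y else KI.dft n m

theorem KI.fix_eq (h : KOk n' K δ Sp m y) : KI.fix n' K δ Sp m y = y := by
  unfold KI.fix
  rw [if_pos h]

theorem KI.fix_ok (hK : 0 ≤ K) (hδ : δ ≤ 4 * l) (h1 : Sp fun _ _ => 1) (m : ℕ) (y : KI n) :
    KOk n' K δ Sp m (KI.fix n' K δ Sp m y) := by
  unfold KI.fix
  split_ifs with h
  · exact h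
  · exact KOk.dft hK hδ h1 m

instance : Nonempty (KI n) := ⟨KI.dft n 0⟩

end

end PBK.PLX
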