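import Pool.Agent.PLX.PB.KValR
import Pool.Agent.PLX.PB.MF0
import Pool.Agent.PLX.NUGC.RedC
import Pool.Agent.PLX.FarK4

/-!
# The masses of the groups and of the spectators of one far row on the line

* `log_spF0`, **`int_spF`** : `∫ P log (spF g a (l + i t)) = ∑ i, MW0 (word of (g i) on a) (g i).w`;
* **`sum_spF`** : the sum over the species is the sea term `∑ i, mfs s MFo MFx (g i).σ (g i).c (g i).w`;
* `int_Wo`, `int_Vo` : `∫ P log ‖Wo e (l + i t - x0)‖ = MO P (kk e) x0`, the same for `Vo`, `MC`;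
* **`mass_S`** : if `‖S a‖ = spF g a * exp (HS x 0 a)` on the line, the masses of `S` are those of the atoms
  and of the groups;
* **`mass_far`** : for `S σ = Wo e (u - x0)`, `S (!σ) = Vo e (u - x0)`;
* `neg_W`, `neg_V` : the factors of `JU z x y w` are the ones of `e = -`, `x0 = w + 3 l`.
-/

set_option autoImplicit false
set_option linter.unusedSectionVars false
set_option linter.unusedVariables false

noncomputable section

open Complex MeasureTheory Set Filter Topology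

namespace PBV.PLX

open NUMF (l l_pos)
open NUO (pA)
open NUSea.PLX.H0 (Gd)
open NUGC.PLX (spF)
open PB0.PLX (MW0 MFo MFx mfs)
open PBH.PLX (Atm HS AtOk)
open _root_.RX (Wo Vo)
open FarMF (own crs MO MC vv kk)

/-- the line -/
lemma pA0 (t : ℝ) : pA (fun _ => 0) t = (l : ℂ) + I * t := by
  unfold NUO.pA NUP1.vl
  rw [show NUP1.l = l from rfl]
  push_cast
  ring

/-- **the factor of the groups on the line** -/
theorem log_spF0 {n : ℕ} (g : Fin n → Gd) (a : Bool) (t : ℝ) :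
    0 < spF g a (pA (fun _ => 0) t) ∧
      Real.log (spF g a (pA (fun _ => 0) t)) = ∑ i, (NUSp.gp a (g i).G (t : ℂ)).re := by
  have hl := l_pos
  have e : spF g a (pA (fun _ => 0) t) = Real.exp (∑ i, (NUSp.gp a (g i).G (t : ℂ)).re) := by
    unfold NUGC.PLX.spF
    rw [Real.exp_sum]
    refine Finset.prod_congr rfl fun i _ => ?_
    rw [NUGC.PLX.spL_lsG, pA0]
    have := NUGC.PLX.exp_grp (g i).c (g i).rt (g i).σ (g i).τ a (ζ := (t : ℂ)) (by
      rw [ofReal_im, abs_zero]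
      positivity)
    exact this.symm
  rw [e]
  exact ⟨Real.exp_pos _, Real.log_exp _⟩

/-- **the mass of the groups** -/
theorem int_spF {n : ℕ} (g : Fin n → Gd) (a : Bool) :
    Integrable (fun t => NUMF.P t * Real.log (spF g a (pA (fun _ => 0) t))) ∧
      ∫ t, NUMF.P t * Real.log (spF g a (pA (fun _ => 0) t)) =
        ∑ i, MW0 (NUSp.wc (g i).c (decide (a = (g i).σ))) (g i).w := by
  have h := fun i => PB0.PLX.int_gp0 (g i).c a (g i).σ (g i).w
  have e : (fun t => NUMF.P t * Real.log (spF g a (pA (fun _ => 0) t))) = fun t =>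
      ∑ i, NUMF.P t * (NUSp.gp a (NUSp.grp (g i).c (g i).σ (g i).w) (t : ℂ)).re := by
    funext t
    rw [(log_spF0 g a t).2, Finset.mul_sum]
    rfl
  rw [e]
  refine ⟨integrable_finsetSum _ fun i _ => (h i).1, ?_⟩
  rw [integral_finsetSum _ fun i _ => (h i).1]
  exact Finset.sum_congr rfl fun i _ => (h i).2

/-- **the mass of the groups, both species** -/
theorem sum_spF {n : ℕ} (g : Fin n → Gd) (s : Bool → ℝ) :
    ∑ a, s a * ∫ t, NUMF.P t * Real.log (spF g a (pA (fun _ => 0) t)) =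
      ∑ i, mfs s MFo MFx (g i).σ (g i).c (g i).w := by
  have h : ∀ a, s a * ∫ t, NUMF.P t * Real.log (spF g a (pA (fun _ => 0) t)) =
      ∑ i, s a * MW0 (NUSp.wc (g i).c (decide (a = (g i).σ))) (g i).w := by
    intro a
    rw [(int_spF g a).2, Finset.mul_sum]
  rw [Fintype.sum_bool, h true, h false, ← Finset.sum_add_distrib]
  refine Finset.sum_congr rfl fun i _ => ?_
  rw [← PB0.PLX.sum_gp0 s (g i).c (g i).σ (g i).w, (PB0.PLX.int_gp0 (g i).c true (g i).σ (g i).w).2,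
    (PB0.PLX.int_gp0 (g i).c false (g i).σ (g i).w).2]

/-- **the masses of spectators which are groups and atoms** -/
theorem mass_S {n k : ℕ} {δ K : ℝ} (hδ : 0 < δ) {x : Bool → Fin k → Atm} (hx : AtOk K δ x) (g : Fin n → Gd)
    (S : Bool → ℂ → ℂ) (hS : ∀ a t, ‖S a (pA (fun _ => 0) t)‖ = spF g a (pA (fun _ => 0) t) *
      Real.exp (HS x (fun _ _ => 0) a t)) (s : Bool → ℝ) :
    ∑ a, s a * ∫ t, NUMF.P t * Real.log ‖S a (pA (fun _ => 0) t)‖ =
      (∑ a, s a * mHS x a) + ∑ i, mfs s MFo MFx (g i).σ (g i).c (g i).w := by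
  have h : ∀ a, ∫ t, NUMF.P t * Real.log ‖S a (pA (fun _ => 0) t)‖ =
      mHS x a + ∫ t, NUMF.P t * Real.log (spF g a (pA (fun _ => 0) t)) := by
    intro a
    obtain ⟨i1, e1⟩ := int_HS hδ hx a
    obtain ⟨i2, -⟩ := int_spF g a
    rw [← e1, ← integral_add i1 i2]
    refine integral_congr_ae (Eventually.of_forall fun t => ?_)
    show NUMF.P t * Real.log ‖S a (pA (fun _ => 0) t)‖ = NUMF.P t * HS x (fun _ _ => 0) a t +
      NUMF.P t * Real.log (spF g a (pA (fun _ => 0) t))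
    rw [hS a t, Real.log_mul (log_spF0 g a t).1.ne' (Real.exp_pos _).ne', Real.log_exp]
    ring
  rw [← sum_spF g s, ← Finset.sum_add_distrib]
  refine Finset.sum_congr rfl fun a _ => ?_
  rw [h a]
  ring

/-! ### one far row -/

lemma own_W (e : SignType) (v : ℂ) : own (kk e) v = ‖Wo e v‖ := by
  cases e
  · show ‖sin v‖ * ‖sin (v + 2 * l)‖ / (‖sin (v - l)‖ * ‖sin (v + l)‖) =
      ‖sin v * sin (v + 2 * l) / (sin (v - l) * sin (v + l))‖
    rw [norm_div, norm_mul, norm_mul]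
  · show ‖sin (v + l)‖ * ‖sin (v + 3 * l)‖ = ‖-(sin (v + l) * sin (v + 3 * l))‖
    rw [norm_neg, norm_mul]
  · show 1 / (‖sin v‖ * ‖sin (v - 2 * l)‖) = ‖-1 / (sin v * sin (v - 2 * l))‖
    rw [norm_div, norm_neg, norm_one, norm_mul]

lemma crs_V (e : SignType) (v : ℂ) : crs (kk e) v = ‖Vo e v‖ := by
  cases e
  · show ‖cos v‖ ^ 2 / ‖sin (v - 3 * l)‖ ^ 2 = ‖cos v ^ 2 / sin (v - 3 * l) ^ 2‖
    rw [norm_div, norm_pow, norm_pow]
  · show 1 / ‖sin (v - 2 * l)‖ ^ 2 = ‖1 / sin (v - 2 * l) ^ 2‖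
    rw [norm_div, norm_one, norm_pow]
  · show ‖sin (v + 3 * l)‖ ^ 2 = ‖sin (v + 3 * l) ^ 2‖
    rw [norm_pow]

lemma vv_pA (x0 : ℂ) (t : ℝ) : vv x0 t = pA (fun _ => 0) t - x0 := by
  rw [pA0]
  unfold FarMF.vv
  ring

theorem int_Wo (e : SignType) (x0 : ℂ) :
    ∫ t, NUMF.P t * Real.log ‖Wo e (pA (fun _ => 0) t - x0)‖ = MO NUMF.P (kk e) x0 := by
  unfold FarMF.MO
  refine integral_congr_ae (Eventually.of_forall fun t => ?_)
  show NUMF.P t * Real.log ‖Wo e (pA (fun _ => 0) t - x0)‖ = NUMF.P t * Real.log (own (kk e) (vv x0 t))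
  rw [own_W, vv_pA]

theorem int_Vo (e : SignType) (x0 : ℂ) :
    ∫ t, NUMF.P t * Real.log ‖Vo e (pA (fun _ => 0) t - x0)‖ = MC NUMF.P (kk e) x0 := by
  unfold FarMF.MC
  refine integral_congr_ae (Eventually.of_forall fun t => ?_)
  show NUMF.P t * Real.log ‖Vo e (pA (fun _ => 0) t - x0)‖ = NUMF.P t * Real.log (crs (kk e) (vv x0 t))
  rw [crs_V, vv_pA]

/-- the spectators of one far row of the species `σ` -/
def Sfar (e : SignType) (x0 : ℂ) (σ a : Bool) (u : ℂ) : ℂ := if a = σ then Wo e (u - x0) else Vo e (u - x0)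

/-- **the masses of one far row** -/
theorem mass_far {n k : ℕ} {δ K : ℝ} (hδ : 0 < δ) {x : Bool → Fin k → Atm} (hx : AtOk K δ x)
    (g : Fin n → Gd) (e : SignType) (x0 : ℂ) (σ : Bool)
    (hS : ∀ a t, ‖Sfar e x0 σ a (pA (fun _ => 0) t)‖ = spF g a (pA (fun _ => 0) t) *
      Real.exp (HS x (fun _ _ => 0) a t)) (s : Bool → ℝ) :
    (∑ a, s a * mHS x a) + ∑ i, mfs s MFo MFx (g i).σ (g i).c (g i).w =
      s σ * MO NUMF.P (kk e) x0 + s (!σ) * MC NUMF.P (kk e) x0 := by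
  rw [← mass_S hδ hx g _ hS s, ← int_Wo, ← int_Vo, Fintype.sum_bool]
  unfold Sfar
  cases σ <;> simp [add_comm]

/-! ### the removed row -/

lemma sin_8l (v : ℂ) : Complex.sin (v - 5 * l) = -Complex.sin (v + 3 * l) := by
  have h : (8 : ℂ) * l = Real.pi := by
    unfold NUMF.l
    push_cast
    ring
  rw [show v + 3 * (l : ℂ) = v - 5 * l + 8 * l by ring, h, Complex.sin_add_pi, neg_neg]

/-- the factors of `JU z x y w` are those of the state `-` of the far row `w + 3 l` -/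
theorem neg_W (w u : ℂ) : ‖Wo .neg (u - (w + 3 * l))‖ = ‖sin (u - w) * sin (u - w - 2 * l)‖ := by
  show ‖-(sin (u - (w + 3 * l) + l) * sin (u - (w + 3 * l) + 3 * l))‖ = _
  rw [norm_neg, mul_comm]
  congr 3 <;> ring

theorem neg_V (w u : ℂ) : ‖Vo .neg (u - (w + 3 * l))‖ = ‖1 / sin (u - w + 3 * l) ^ 2‖ := by
  show ‖1 / sin (u - (w + 3 * l) - 2 * l) ^ 2‖ = _
  rw [show u - (w + 3 * (l : ℂ)) - 2 * l = u - w - 5 * l by ring, sin_8l, neg_sq]

end PBV.PLX

end
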