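import Pool.Agent.PLX.PB.ValE2
import Pool.Agent.PLX.PB.HPotA

/-!
# The potentials of rows, legs and atoms against the density of rows at `0`

* `int_NL`, `int_AT`, **`int_RO`**, **`int_RX`** : the integrals against `NUMF.P` on the line;
* **`NL_lip`** : `|NL y c ζ t - NL y c 0 t| ≤ K |ζ t| exp (-2 |t - c|)`;
* **`cur_NL`**, `cur_AT`, `cur_RO`, `cur_RX` : with `|s P ζ| ≤ h0` the integral on the curve is the one on
  the line up to `K h0`.
-/

set_option autoImplicit false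
set_option linter.unusedSectionVars false
set_option linter.unusedVariables false

noncomputable section

open Complex MeasureTheory Set Filter Topology

namespace PBV.PLX

open NUMF (l l_pos)
open NUMFH (mE lE)
open PBR (rh)
open PBH.PLX (NL pw RO RX AT_NL Atm HS AtOk)
open PBH (AT)

/-! ### on the line -/

lemma NL_h (y c : ℝ) (ζ : ℝ → ℝ) (t : ℝ) (hy : |ζ t + y| < 4 * l) :
    NL y c ζ t = (NUMF.h (t - c) (ζ t + y) - Real.log 2) / 2 := by
  have h4 : 4 * l = Real.pi / 2 := by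
    unfold NUMF.l
    ring
  obtain ⟨y1, y2⟩ := abs_lt.1 hy
  have hc : 0 < Real.cosh (2 * (t - c)) + Real.cos (2 * (ζ t + y)) := by
    have h1 := Real.one_le_cosh (2 * (t - c))
    have h2 : -1 < Real.cos (2 * (ζ t + y)) := by
      rw [← Real.cos_pi, ← Real.cos_abs (2 * (ζ t + y))]
      refine Real.cos_lt_cos_of_nonneg_of_le_pi (abs_nonneg _) le_rfl ?_
      rw [abs_mul, abs_two]
      clear * - hy h4 y1 y2
      linarith [abs_lt.2 ⟨y1, y2⟩]
    linarith
  have e1 : ‖Complex.cosh (pw y c ζ t)‖ ^ 2 =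
      (Real.cosh (2 * (t - c)) + Real.cos (2 * (ζ t + y))) / 2 := by
    have e2 : pw y c ζ t = ((t - c : ℝ) : ℂ) + ((ζ t + y : ℝ) : ℂ) * I := by
      unfold pw
      push_cast
      ring
    rw [e2, Complex.cosh_add, Complex.cosh_mul_I, Complex.sinh_mul_I, ← Complex.ofReal_cosh,
      ← Complex.ofReal_sinh, ← Complex.ofReal_cos, ← Complex.ofReal_sin, ← Complex.normSq_eq_norm_sq,
      ← mul_assoc, ← Complex.ofReal_mul, ← Complex.ofReal_mul, Complex.normSq_add_mul_I]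
    have h5 := Real.cosh_sq (t - c)
    have h6 := Real.sin_sq_add_cos_sq (ζ t + y)
    rw [Real.cosh_two_mul, Real.cos_two_mul]
    clear * - h5 h6
    nlinarith [h5, h6]
  have hn : 0 < ‖Complex.cosh (pw y c ζ t)‖ := by
    have h7 : 0 < ‖Complex.cosh (pw y c ζ t)‖ ^ 2 := by
      rw [e1]
      clear * - hc
      linarith
    refine lt_of_le_of_ne (norm_nonneg _) fun h => ?_
    rw [← h] at h7
    simp at h7
  have h8 := congrArg Real.log e1
  rw [Real.log_pow, Real.log_div hc.ne' two_ne_zero] at h8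
  unfold NL NUMF.h
  push_cast at h8
  clear * - h8
  linarith

lemma P_nonneg (t : ℝ) : 0 ≤ NUMF.P t := (NUMF.P_pos t).le

/-- one logarithm -/
theorem int_NL {y : ℝ} (hy : |y| < 4 * l) (c : ℝ) :
    Integrable (fun t => NUMF.P t * NL y c (fun _ => 0) t) ∧
      ∫ t, NUMF.P t * NL y c (fun _ => 0) t = (NUMF.H c y - Real.log 2) / 2 := by
  have e : (fun t => NUMF.P t * NL y c (fun _ => 0) t) =
      fun t => (NUMF.P t * NUMF.h (c - t) y - NUMF.P t * Real.log 2) / 2 := by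
    funext t
    rw [NL_h y c (fun _ => 0) t (by rwa [zero_add]), zero_add, ← NUMF.h_neg_left, neg_sub]
    ring
  have i1 := NUMF.Ph_integrable c y
  have i2 := NUMF.P_integrable.mul_const (Real.log 2)
  rw [e]
  refine ⟨(i1.sub i2).div_const 2, ?_⟩
  rw [integral_div, integral_sub i1 i2, NUMF.integral_P_mul]
  rfl

/-- one atom -/
theorem int_AT {y1 y2 : ℝ} (h1 : |y1| < 4 * l) (h2 : |y2| < 4 * l) (c : ℝ) :
    Integrable (fun t => NUMF.P t * AT y1 y2 c (fun _ => 0) t) ∧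
      ∫ t, NUMF.P t * AT y1 y2 c (fun _ => 0) t = (NUMF.H c y1 - NUMF.H c y2) / 2 := by
  obtain ⟨i1, e1⟩ := int_NL h1 c
  obtain ⟨i2, e2⟩ := int_NL h2 c
  have e : (fun t => NUMF.P t * AT y1 y2 c (fun _ => 0) t) = fun t =>
      NUMF.P t * NL y1 c (fun _ => 0) t - NUMF.P t * NL y2 c (fun _ => 0) t := by
    funext t
    rw [AT_NL]
    ring
  rw [e]
  refine ⟨i1.sub i2, ?_⟩
  rw [integral_sub i1 i2, e1, e2]
  ring

/-- a leg at `z` -/
theorem int_leg0 {z : ℂ} (h0 : -l < z.re) (h1 : z.re < 4 * l) :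
    Integrable (fun t => NUMF.P t * AT z.re (z.re - 3 * l) z.im (fun _ => 0) t) ∧
      ∫ t, NUMF.P t * AT z.re (z.re - 3 * l) z.im (fun _ => 0) t = lE z := by
  have hl := l_pos
  exact int_AT (by rw [abs_lt]; constructor <;> linarith) (by rw [abs_lt]; constructor <;> linarith) _

lemma H_mEx {w : ℂ} (hw : |w.re| ≤ 4 * l) : NUMF.H w.im w.re = mEx w + Real.log 2 :=
  NUMF.H_rhz hw

/-- **a row of the own species moved from `0` to `w`** -/
theorem int_RO {w : ℂ} (hw : |w.re| < l) :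
    Integrable (fun t => NUMF.P t * RO w (fun _ => 0) t) ∧
      ∫ t, NUMF.P t * RO w (fun _ => 0) t = mEo w - mEo 0 := by
  have hl := l_pos
  obtain ⟨w1, w2⟩ := abs_lt.1 hw
  obtain ⟨i1, e1⟩ := int_NL (y := 3 * l) (by rw [abs_of_pos (by linarith)]; linarith) 0
  obtain ⟨i2, e2⟩ := int_NL (y := -(3 * l)) (by rw [abs_neg, abs_of_pos (by linarith)]; linarith) 0
  obtain ⟨i3, e3⟩ := int_NL (y := w.re + 3 * l) (by rw [abs_lt]; constructor <;> linarith) w.im
  obtain ⟨i4, e4⟩ := int_NL (y := w.re - 3 * l) (by rw [abs_lt]; constructor <;> linarith) w.im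
  have e : (fun t => NUMF.P t * RO w (fun _ => 0) t) = fun t =>
      (NUMF.P t * NL (3 * l) 0 (fun _ => 0) t + NUMF.P t * NL (-(3 * l)) 0 (fun _ => 0) t) -
      (NUMF.P t * NL (w.re + 3 * l) w.im (fun _ => 0) t +
        NUMF.P t * NL (w.re - 3 * l) w.im (fun _ => 0) t) := by
    funext t
    unfold RO
    ring
  rw [e]
  refine ⟨(i1.add i2).sub (i3.add i4), ?_⟩
  have f1 := integral_sub (i1.add i2) (i3.add i4)
  have f2 := integral_add i1 i2
  have f3 := integral_add i3 i4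
  simp only [Pi.add_apply] at f1 f2 f3
  rw [f1, f2, f3, e1, e2, e3, e4]
  have r1 := NUMF.en_row (z := w) hw.le
  have r0 := NUMF.en_row (z := 0) (by simpa using hl.le)
  have x1 := H_mEx (w := w) (by (clear * - hw hl w1 w2; linarith [abs_lt.2 ⟨w1, w2⟩]))
  have x0 := H_mEx (w := 0) (by simp; (clear * - hl; linarith))
  have m1 : NUMF.H w.im w.re - (NUMF.H w.im (w.re + 3 * l) + NUMF.H w.im (w.re - 3 * l)) / 2 = mE w := r1
  have m0 : NUMF.H 0 0 - (NUMF.H 0 (3 * l) + NUMF.H 0 (-(3 * l))) / 2 = mE 0 := by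
    simp only [Complex.zero_re, Complex.zero_im, zero_add, zero_sub] at r0
    exact r0
  simp only [Complex.zero_re, Complex.zero_im] at x0
  unfold mEo
  clear * - x1 x0 m1 m0
  linarith

/-- **a row of the other species moved from `0` to `w`** -/
theorem int_RX {w : ℂ} (hw : |w.re| < 4 * l) :
    Integrable (fun t => NUMF.P t * RX w (fun _ => 0) t) ∧
      ∫ t, NUMF.P t * RX w (fun _ => 0) t = mEx w - mEx 0 := by
  have hl := l_pos
  obtain ⟨i1, e1⟩ := int_NL (y := w.re) hw w.im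
  obtain ⟨i2, e2⟩ := int_NL (y := 0) (by rw [abs_zero]; linarith) 0
  have e : (fun t => NUMF.P t * RX w (fun _ => 0) t) = fun t =>
      2 * (NUMF.P t * NL w.re w.im (fun _ => 0) t - NUMF.P t * NL 0 0 (fun _ => 0) t) := by
    funext t
    unfold RX
    ring
  rw [e]
  refine ⟨(i1.sub i2).const_mul 2, ?_⟩
  rw [integral_const_mul, integral_sub i1 i2, e1, e2]
  have x1 := H_mEx (w := w) hw.le
  have x0 := H_mEx (w := 0) (by simp; linarith)
  simp only [Complex.zero_re, Complex.zero_im] at x0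
  clear * - x1 x0
  linarith

/-! ### on the curve -/

/-- constant of the Lipschitz bound -/
def KN (δ : ℝ) : ℝ := 2 / (1 - Real.cos δ)

lemma cos_lt_one {δ : ℝ} (h0 : 0 < δ) (h1 : δ ≤ 4 * l) : Real.cos δ < 1 := by
  have h4 : 4 * l = Real.pi / 2 := by
    unfold NUMF.l
    ring
  rw [← Real.cos_zero]
  exact Real.cos_lt_cos_of_nonneg_of_le_pi le_rfl (by linarith [Real.pi_pos]) h0

lemma KN_pos {δ : ℝ} (h0 : 0 < δ) (h1 : δ ≤ 4 * l) : 0 < KN δ := by
  have := cos_lt_one h0 h1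
  unfold KN
  exact div_pos two_pos (by linarith)

/-- **the dependence on the curve** -/
theorem h_lip {δ x v w : ℝ} (h0 : 0 < δ) (h1 : δ ≤ 4 * l) (hv : |v| ≤ 4 * l - δ / 2)
    (hw : |w| ≤ 4 * l - δ / 2) :
    |NUMF.h x v - NUMF.h x w| ≤ 2 * (KN δ * Real.exp (-2 * |x|)) * |v - w| := by
  have h4 : 4 * l = Real.pi / 2 := by
    unfold NUMF.l
    ring
  have hc1 := cos_lt_one h0 h1
  have hlow : ∀ u : ℝ, |u| ≤ 4 * l - δ / 2 →
      (1 - Real.cos δ) * Real.cosh (2 * x) ≤ Real.cosh (2 * x) + Real.cos (2 * u) := by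
    intro u hu
    have h2 := Real.one_le_cosh (2 * x)
    have h3 : -Real.cos δ ≤ Real.cos (2 * u) := by
      rw [← Real.cos_pi_sub, ← Real.cos_abs (2 * u)]
      refine Real.cos_le_cos_of_nonneg_of_le_pi (abs_nonneg _) (by linarith) ?_
      rw [abs_mul, abs_two]
      clear * - h4 hu
      linarith
    have h5 : -1 ≤ -Real.cos δ := by linarith
    have h6 : 0 ≤ Real.cos δ := Real.cos_nonneg_of_mem_Icc ⟨by (clear * - h0 h1 h4; linarith), by (clear * - h1 h4; linarith)⟩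
    clear * - h3 h2 h6
    nlinarith
  have hch := Real.cosh_pos (2 * x)
  have hd : ∀ u ∈ Icc (-(4 * l - δ / 2)) (4 * l - δ / 2),
      HasDerivWithinAt (fun u => NUMF.h x u) ((-Real.sin (2 * u) * 2) /
        (Real.cosh (2 * x) + Real.cos (2 * u))) (Icc (-(4 * l - δ / 2)) (4 * l - δ / 2)) u := by
    intro u hu
    have h2 := hlow u (abs_le.2 ⟨by (clear * - hu; linarith [hu.1]), hu.2⟩)
    have h3 : 0 < Real.cosh (2 * x) + Real.cos (2 * u) := by
      have : 0 < (1 - Real.cos δ) * Real.cosh (2 * x) := mul_pos (by linarith) hch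
      linarith
    have h5 : HasDerivAt (fun u : ℝ => Real.cosh (2 * x) + Real.cos (2 * u))
        (-Real.sin (2 * u) * 2) u := by
      have h6 : HasDerivAt (fun u : ℝ => 2 * u) 2 u := by
        simpa using (hasDerivAt_id u).const_mul (2 : ℝ)
      exact (h6.cos).const_add _
    exact (h5.log h3.ne').hasDerivWithinAt
  have hb : ∀ u ∈ Icc (-(4 * l - δ / 2)) (4 * l - δ / 2), ‖(-Real.sin (2 * u) * 2) /
      (Real.cosh (2 * x) + Real.cos (2 * u))‖ ≤ 2 * (KN δ * Real.exp (-2 * |x|)) := by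
    intro u hu
    have h2 := hlow u (abs_le.2 ⟨by (clear * - hu; linarith [hu.1]), hu.2⟩)
    have hp : 0 < (1 - Real.cos δ) * Real.cosh (2 * x) := mul_pos (by linarith) hch
    have h3 : 0 < Real.cosh (2 * x) + Real.cos (2 * u) := by (clear * - h2 hp; linarith)
    rw [norm_div, norm_mul, norm_neg, Real.norm_eq_abs, Real.norm_eq_abs, abs_two, Real.norm_eq_abs,
      abs_of_pos h3]
    have h5 := Real.abs_sin_le_one (2 * u)
    have h6 : |Real.sin (2 * u)| * 2 / (Real.cosh (2 * x) + Real.cos (2 * u)) ≤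
        2 / ((1 - Real.cos δ) * Real.cosh (2 * x)) := by
      refine div_le_div₀ (by norm_num) (by (clear * - h5; linarith)) hp h2
    refine h6.trans ?_
    have h7 : Real.exp (2 * |x|) / 2 ≤ Real.cosh (2 * x) := by
      rw [← Real.cosh_abs, abs_mul, abs_two, Real.cosh_eq]
      have := Real.exp_pos (-(2 * |x|))
      clear * - this
      linarith
    have h8 : 1 / Real.cosh (2 * x) ≤ 2 * Real.exp (-2 * |x|) := by
      rw [div_le_iff₀ hch]
      have h9 : Real.exp (-2 * |x|) * Real.exp (2 * |x|) = 1 := by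
        rw [← Real.exp_add]
        simp
      have h10 := Real.exp_pos (-2 * |x|)
      clear * - h9 h7 h10
      nlinarith
    have h11 : 0 < 1 - Real.cos δ := by (clear * - hc1; linarith)
    unfold KN
    calc 2 / ((1 - Real.cos δ) * Real.cosh (2 * x)) = 2 / (1 - Real.cos δ) * (1 / Real.cosh (2 * x)) := by
          field_simp
      _ ≤ 2 / (1 - Real.cos δ) * (2 * Real.exp (-2 * |x|)) := by (clear * - h8 hc1; gcongr)
      _ = _ := by ring
  have key := (convex_Icc (-(4 * l - δ / 2)) (4 * l - δ / 2)).norm_image_sub_le_of_norm_hasDerivWithin_le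
    (f := fun u => NUMF.h x u) hd hb (x := w) (y := v) ⟨by (clear * - hw; linarith [(abs_le.1 hw).1]), (abs_le.1 hw).2⟩
    ⟨by (clear * - hv; linarith [(abs_le.1 hv).1]), (abs_le.1 hv).2⟩
  rwa [Real.norm_eq_abs, Real.norm_eq_abs] at key

/-- **one logarithm, dependence on the curve** -/
theorem NL_lip {δ y c : ℝ} (h0 : 0 < δ) (h1 : δ ≤ 4 * l) (hy : |y| ≤ 4 * l - δ) {ζ : ℝ → ℝ}
    (hζ : ∀ t, |ζ t| ≤ δ / 2) (t : ℝ) :
    |NL y c ζ t - NL y c (fun _ => 0) t| ≤ KN δ * |ζ t| * Real.exp (-2 * |t - c|) := by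
  have a1 : |ζ t + y| ≤ 4 * l - δ / 2 := by
    have := abs_add_le (ζ t) y
    linarith [hζ t]
  have a2 : |0 + y| ≤ 4 * l - δ / 2 := by
    rw [zero_add]
    linarith
  rw [NL_h y c ζ t (by linarith), NL_h y c (fun _ => 0) t (by
    show |0 + y| < 4 * l
    linarith)]
  have key := h_lip (x := t - c) h0 h1 a1 a2
  rw [show ζ t + y - (0 + y) = ζ t by ring] at key
  have e : (NUMF.h (t - c) (ζ t + y) - Real.log 2) / 2 - (NUMF.h (t - c) (0 + y) - Real.log 2) / 2 =
      (NUMF.h (t - c) (ζ t + y) - NUMF.h (t - c) (0 + y)) / 2 := by ring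
  rw [e, abs_div, abs_two, div_le_iff₀ two_pos]
  refine key.trans (le_of_eq ?_)
  ring

/-- `F` integrable on the line: the integral on the curve -/
theorem cur_gen {s h0 K c : ℝ} (hs : 0 ≤ s) {ζ F F0 : ℝ → ℝ} (hF : Continuous F)
    (hF0 : Integrable fun t => NUMF.P t * F0 t) (hK : 0 ≤ K)
    (hd : ∀ t, |F t - F0 t| ≤ K * |ζ t| * Real.exp (-2 * |t - c|)) (hF0c : Continuous F0)
    (hh : ∀ t, |s * NUMF.P t * ζ t| ≤ h0) :
    Integrable (fun t => s * NUMF.P t * F t) ∧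
      |(∫ t, s * NUMF.P t * F t) - s * ∫ t, NUMF.P t * F0 t| ≤ K * h0 := by
  obtain ⟨ie, ee⟩ := NUDispW.int_exp_abs (c := 2) (by norm_num) c
  have ie' : Integrable fun t : ℝ => K * h0 * Real.exp (-2 * |t - c|) := by
    refine (ie.const_mul (K * h0)).congr (Eventually.of_forall fun t => ?_)
    simp only [neg_mul]
  have hb : ∀ t, ‖s * NUMF.P t * (F t - F0 t)‖ ≤ K * h0 * Real.exp (-2 * |t - c|) := by
    intro t
    have hp := P_nonneg t
    have h1 : 0 ≤ s * NUMF.P t := mul_nonneg hs hp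
    have h2 := hh t
    rw [abs_mul, abs_of_nonneg h1] at h2
    rw [norm_mul, Real.norm_eq_abs, Real.norm_eq_abs, abs_of_nonneg h1]
    calc s * NUMF.P t * |F t - F0 t| ≤ s * NUMF.P t * (K * |ζ t| * Real.exp (-2 * |t - c|)) :=
          mul_le_mul_of_nonneg_left (hd t) h1
      _ = K * (s * NUMF.P t * |ζ t|) * Real.exp (-2 * |t - c|) := by ring
      _ ≤ K * h0 * Real.exp (-2 * |t - c|) := by (clear * - h2 hK; gcongr)
  have i1 : Integrable fun t => s * NUMF.P t * (F t - F0 t) := by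
    refine ie'.mono' ?_ (Eventually.of_forall hb)
    exact (((continuous_const.mul NUMF.P_cont).mul (hF.sub hF0c))).aestronglyMeasurable
  have i2 : Integrable fun t => s * (NUMF.P t * F0 t) := hF0.const_mul s
  have e : (fun t => s * NUMF.P t * F t) = fun t => s * NUMF.P t * (F t - F0 t) + s * (NUMF.P t * F0 t) := by
    funext t
    ring
  rw [e]
  refine ⟨i1.add i2, ?_⟩
  rw [integral_add i1 i2, integral_const_mul, add_sub_cancel_right, ← Real.norm_eq_abs]
  refine (norm_integral_le_of_norm_le ie' (Eventually.of_forall hb)).trans (le_of_eq ?_)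
  rw [integral_const_mul]
  have e3 : ∫ t : ℝ, Real.exp (-2 * |t - c|) = 1 := by
    rw [show (fun t : ℝ => Real.exp (-2 * |t - c|)) = fun t => Real.exp (-(2 * |t - c|)) by
      funext t; rw [neg_mul], ee]
    norm_num
  rw [e3, mul_one]

lemma NL_cont' {δ y c : ℝ} (h0 : 0 < δ) (h1 : δ ≤ 4 * l) (hy : |y| ≤ 4 * l - δ) {ζ : ℝ → ℝ}
    (hζ : ∀ t, |ζ t| ≤ δ / 2) (hc : Continuous ζ) : Continuous (NL y c ζ) := by
  have e : NL y c ζ = fun t => (NUMF.h (t - c) (ζ t + y) - Real.log 2) / 2 := by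
    funext t
    refine NL_h y c ζ t ?_
    have := abs_add_le (ζ t) y
    linarith [hζ t]
  rw [e]
  have h4 : 4 * l = Real.pi / 2 := by
    unfold NUMF.l
    ring
  have hne : ∀ t, Real.cosh (2 * (t - c)) + Real.cos (2 * (ζ t + y)) ≠ 0 := by
    intro t
    have h2 := Real.one_le_cosh (2 * (t - c))
    have h3 : -1 < Real.cos (2 * (ζ t + y)) := by
      rw [← Real.cos_pi, ← Real.cos_abs (2 * (ζ t + y))]
      refine Real.cos_lt_cos_of_nonneg_of_le_pi (abs_nonneg _) le_rfl ?_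
      rw [abs_mul, abs_two]
      have := abs_add_le (ζ t) y
      clear * - h0 hy h4 this hζ
      linarith [hζ t]
    linarith
  unfold NUMF.h
  refine Continuous.div_const (Continuous.sub (Continuous.log ?_ hne) continuous_const) 2
  exact (Real.continuous_cosh.comp (by fun_prop)).add (Real.continuous_cos.comp (by fun_prop))

section

variable {δ s h0 : ℝ} {ζ : ℝ → ℝ} (hδ : 0 < δ) (hδ1 : δ ≤ l / 2) (hs : 0 ≤ s)
  (hζ : ∀ t, |ζ t| ≤ δ / 2) (hc : Continuous ζ) (hh : ∀ t, |s * NUMF.P t * ζ t| ≤ h0)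
include hδ hδ1 hs hζ hc hh

/-- **one logarithm on the curve** -/
theorem cur_NL {y : ℝ} (hy : |y| ≤ 4 * l - δ) (c : ℝ) :
    Integrable (fun t => s * NUMF.P t * NL y c ζ t) ∧
      |(∫ t, s * NUMF.P t * NL y c ζ t) - s * ((NUMF.H c y - Real.log 2) / 2)| ≤ KN δ * h0 := by
  have hl := l_pos
  obtain ⟨i1, e1⟩ := int_NL (y := y) (by linarith) c
  have key := cur_gen (K := KN δ) (c := c) hs (NL_cont' hδ (by (clear * - hδ hδ1; linarith)) hy hζ hc) i1
    (KN_pos hδ (by linarith)).le (NL_lip hδ (by linarith) hy hζ)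
    (NL_cont' hδ (by linarith) hy (fun t => by rw [abs_zero]; linarith) continuous_const) hh
  rwa [e1] at key

/-- **an atom on the curve** -/
theorem cur_AT {y1 y2 : ℝ} (h1 : |y1| ≤ 4 * l - δ) (h2 : |y2| ≤ 4 * l - δ) (c : ℝ) :
    Integrable (fun t => s * NUMF.P t * AT y1 y2 c ζ t) ∧
      |(∫ t, s * NUMF.P t * AT y1 y2 c ζ t) - s * ((NUMF.H c y1 - NUMF.H c y2) / 2)| ≤
        2 * (KN δ * h0) := by
  obtain ⟨i1, e1⟩ := cur_NL hδ hδ1 hs hζ hc hh h1 c
  obtain ⟨i2, e2⟩ := cur_NL hδ hδ1 hs hζ hc hh h2 c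
  have e : (fun t => s * NUMF.P t * AT y1 y2 c ζ t) = fun t =>
      s * NUMF.P t * NL y1 c ζ t - s * NUMF.P t * NL y2 c ζ t := by
    funext t
    rw [AT_NL]
    ring
  rw [e]
  refine ⟨i1.sub i2, ?_⟩
  rw [integral_sub i1 i2]
  rw [abs_le] at e1 e2 ⊢
  constructor <;> (clear * - e1 e2; linarith [e1.1, e1.2, e2.1, e2.2])

/-- **the legs on the curve** -/
theorem cur_leg {z : ℂ} (h1 : -l + δ ≤ z.re) (h2 : z.re ≤ 4 * l - δ) :
    Integrable (fun t => s * NUMF.P t * AT z.re (z.re - 3 * l) z.im ζ t) ∧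
      |(∫ t, s * NUMF.P t * AT z.re (z.re - 3 * l) z.im ζ t) - s * lE z| ≤ 2 * (KN δ * h0) := by
  have hl := l_pos
  exact cur_AT hδ hδ1 hs hζ hc hh (by rw [abs_le]; constructor <;> (clear * - hδ hδ1 h1 h2; linarith))
    (by rw [abs_le]; constructor <;> (clear * - h1 hδ hδ1 h2; linarith)) _

/-- **a moved row of the own species on the curve** -/
theorem cur_RO {w : ℂ} (hw : |w.re| ≤ l - δ) :
    Integrable (fun t => s * NUMF.P t * RO w ζ t) ∧
      |(∫ t, s * NUMF.P t * RO w ζ t) - s * (mEo w - mEo 0)| ≤ 4 * (KN δ * h0) := by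
  have hl := l_pos
  obtain ⟨w1, w2⟩ := abs_le.1 hw
  obtain ⟨i1, e1⟩ := cur_NL hδ hδ1 hs hζ hc hh (y := 3 * l) (by
    rw [abs_of_pos (by (clear * - hδ hδ1; linarith))]; linarith) 0
  obtain ⟨i2, e2⟩ := cur_NL hδ hδ1 hs hζ hc hh (y := -(3 * l)) (by
    rw [abs_neg, abs_of_pos (by (clear * - hδ hδ1; linarith))]; linarith) 0
  obtain ⟨i3, e3⟩ := cur_NL hδ hδ1 hs hζ hc hh (y := w.re + 3 * l) (by
    rw [abs_le]; constructor <;> (clear * - hδ hδ1 w1 w2; linarith)) w.im
  obtain ⟨i4, e4⟩ := cur_NL hδ hδ1 hs hζ hc hh (y := w.re - 3 * l) (by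
    rw [abs_le]; constructor <;> (clear * - w1 hδ hδ1 w2; linarith)) w.im
  have e : (fun t => s * NUMF.P t * RO w ζ t) = fun t =>
      (s * NUMF.P t * NL (3 * l) 0 ζ t + s * NUMF.P t * NL (-(3 * l)) 0 ζ t) -
      (s * NUMF.P t * NL (w.re + 3 * l) w.im ζ t + s * NUMF.P t * NL (w.re - 3 * l) w.im ζ t) := by
    funext t
    unfold RO
    ring
  rw [e]
  refine ⟨(i1.add i2).sub (i3.add i4), ?_⟩
  have f1 := integral_sub (i1.add i2) (i3.add i4)
  have f2 := integral_add i1 i2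
  have f3 := integral_add i3 i4
  simp only [Pi.add_apply] at f1 f2 f3
  rw [f1, f2, f3]
  have g := (int_RO (w := w) (by (clear * - hδ hw; linarith))).2
  have g' : mEo w - mEo 0 = ((NUMF.H 0 (3 * l) - Real.log 2) / 2 + (NUMF.H 0 (-(3 * l)) - Real.log 2) / 2) -
      ((NUMF.H w.im (w.re + 3 * l) - Real.log 2) / 2 + (NUMF.H w.im (w.re - 3 * l) - Real.log 2) / 2) := by
    have r1 := NUMF.en_row (z := w) (by (clear * - hδ hw; linarith))
    have r0 := NUMF.en_row (z := 0) (by simpa using hl.le)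
    have x1 := H_mEx (w := w) (by (clear * - hδ hδ1 hw; linarith))
    have x0 := H_mEx (w := 0) (by simp; (clear * - hδ hδ1; linarith))
    have m1 : NUMF.H w.im w.re - (NUMF.H w.im (w.re + 3 * l) + NUMF.H w.im (w.re - 3 * l)) / 2 = mE w := r1
    have m0 : NUMF.H 0 0 - (NUMF.H 0 (3 * l) + NUMF.H 0 (-(3 * l))) / 2 = mE 0 := by
      simp only [Complex.zero_re, Complex.zero_im, zero_add, zero_sub] at r0
      exact r0
    simp only [Complex.zero_re, Complex.zero_im] at x0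
    unfold mEo
    clear * - x1 x0 m1 m0
    linarith
  rw [g']
  rw [abs_le] at e1 e2 e3 e4 ⊢
  constructor <;> (clear * - e1 e2 e3 e4; nlinarith [e1.1, e1.2, e2.1, e2.2, e3.1, e3.2, e4.1, e4.2])

/-- **a moved row of the other species on the curve** -/
theorem cur_RX {w : ℂ} (hw : |w.re| ≤ l - δ) :
    Integrable (fun t => s * NUMF.P t * RX w ζ t) ∧
      |(∫ t, s * NUMF.P t * RX w ζ t) - s * (mEx w - mEx 0)| ≤ 4 * (KN δ * h0) := by
  have hl := l_pos
  obtain ⟨w1, w2⟩ := abs_le.1 hw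
  obtain ⟨i1, e1⟩ := cur_NL hδ hδ1 hs hζ hc hh (y := w.re) (by (clear * - hδ hδ1 hw; linarith)) w.im
  obtain ⟨i2, e2⟩ := cur_NL hδ hδ1 hs hζ hc hh (y := 0) (by rw [abs_zero]; (clear * - hδ hδ1; linarith)) 0
  have e : (fun t => s * NUMF.P t * RX w ζ t) = fun t =>
      2 * (s * NUMF.P t * NL w.re w.im ζ t - s * NUMF.P t * NL 0 0 ζ t) := by
    funext t
    unfold RX
    ring
  rw [e]
  refine ⟨(i1.sub i2).const_mul 2, ?_⟩
  rw [integral_const_mul, integral_sub i1 i2]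
  have x1 := H_mEx (w := w) (by (clear * - hδ hδ1 hw; linarith))
  have x0 := H_mEx (w := 0) (by simp; (clear * - hδ hδ1; linarith))
  simp only [Complex.zero_re, Complex.zero_im] at x0
  rw [x1] at e1
  rw [x0] at e2
  rw [abs_le] at e1 e2 ⊢
  constructor <;> (clear * - e1 e2; nlinarith [e1.1, e1.2, e2.1, e2.2])

end

end PBV.PLX

end
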