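import Pool.Agent.PLX.Ns
import Pool.Agent.PLX.PB.LevN
import Pool.Agent.PLX.PB.LevF

/-!
# Plan B: level two at the family, minus channel, in the form of `PBLX.levF`
-/

noncomputable section

open PLX (Fil)

namespace PBLX.PLX

variable [Fil]

/-- **the minus channel**, the hypothesis `h2` of `levF` -/
theorem levW_wm [MomS] : LevW (WmS (19 / 10)) := by
  obtain ⟨a0, ha0, H⟩ := levN
  refine ⟨a0, ha0, fun ep e1 J hp => ?_⟩
  obtain ⟨C, hC, h⟩ := H ep e1 J hp
  exact ⟨C, zero_le_one.trans hC, h⟩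

end PBLX.PLX

end
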