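import Pool.Agent.PLX.Ns
import Pool.Agent.PLX.PB.LevP
import Pool.Agent.PLX.PB.LevF

/-!
# Level two, plus channel, at the family, final form (plan B, I2)

* **`levW_wp`**: the plus half of the hypotheses of `PBLX.levF`.
-/

set_option autoImplicit false

noncomputable section

open Complex MeasureTheory Filter Topology

open PLX (Fil)

namespace PBWP.PLX

open PBE PBE.PLX PBLX PBLX.PLX
open PBEI (mfL)

variable [Fil]

/-- **the identities of neutral test functions, plus channel, large sizes** -/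
theorem levW_wp [MomS] : LevW (WpS (19 / 10) mfL) := by
  have hl := NUP1.Bd.l_pos
  obtain ⟨a0, ha0, H⟩ := levP (ε := 1 / 100) (by norm_num)
  refine ⟨a0, ha0, fun ep e1 J hp => ?_⟩
  obtain ⟨C, hC, h1⟩ := H ep e1 J hp
  refine ⟨C + 1, by linarith, fun K th dp hK hth hdp => ?_⟩
  filter_upwards [h1] with j h2 s hs t ht M g hg hmg
  obtain ⟨D, Q, P, h3⟩ := h2 s hs t ht M g hg hmg
  have hy1 : PBEI.y1 = -(NUP1.l / 10) := rfl
  have hy2 : PBEI.y2 = 9 / 20 * NUP1.l := rfl
  have hM0 : 0 ≤ M := hg.nonneg (by rw [hy1]; linarith) (by rw [hy2]; linarith)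
  have hKj := Kj_pos (1 / 100) j
  have hdj := dj_pos (1 / 100) e1 (189 / 100) j
  have hpw : (0 : ℝ) ≤ ((j : ℝ) + 1) ^ (-(3 / 8 * (189 / 100 - 1 / 100) : ℝ)) := by positivity
  have e : (-(3 / 8 * (189 / 100 - 1 / 100) : ℝ)) = -(141 / 200) := by norm_num
  refine ⟨D, Q, P, WPl.mono' h3 (by rw [hy1]; linarith) (by rw [hy2]; linarith) hM0 hKj.le ?_
    (mul_nonneg hC hpw) ?_ ?_⟩
  · refine le_trans ?_ (hK j)
    exact le_mul_of_one_le_left hKj.le (by linarith)
  · refine le_trans ?_ (hth j)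
    rw [e]
    exact mul_le_mul_of_nonneg_right (by linarith) (by positivity)
  · refine le_trans ?_ (hdp j)
    exact mul_le_mul_of_nonneg_right (by linarith) hdj.le

end PBWP.PLX

end
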