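import Pool.Agent.PLX.Ns
import Pool.Agent.NUSea.HMF2
import Pool.Agent.NUGC.PsiT

/-!
# The cloud of one quantum in the sea of the rows `± l / 2` is bounded

`Hh_gap`: the potentials `Hh t y` of the cloud at two positions `y` differ by at most `cG`, from
monotonicity and the four convolution identities `dl t 0 = dl t 1 = dl t 2 = dl t 3 = 0`;
`Ag_bdd`: the gain is bounded by `cA`.
-/

set_option autoImplicit false

open MeasureTheory Set Filter Topology

noncomputable section

namespace PBO.PLX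

open NUHM
open NUMF (l l_pos h lq lqg)
open NUSea (Ph)

theorem h_le_zero (x y : ℝ) : x ≠ 0 → h x y ≤ h x 0 := by
  intro hx
  have h1 : 1 < Real.cosh (2 * x) := Real.one_lt_cosh.2 (mul_ne_zero two_ne_zero hx)
  unfold NUMF.h
  refine Real.log_le_log ?_ ?_
  · linarith [Real.neg_one_le_cos (2 * y)]
  · rw [mul_zero, Real.cos_zero]
    linarith [Real.cos_le_one (2 * y)]

theorem h_four_le (x y : ℝ) : x ≠ 0 → h x (4 * l) ≤ h x y := by
  intro hx
  have h1 : 1 < Real.cosh (2 * x) := Real.one_lt_cosh.2 (mul_ne_zero two_ne_zero hx)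
  have e : Real.cos (2 * (4 * l)) = -1 := by
    rw [show 2 * (4 * l) = Real.pi by rw [← l8]; ring, Real.cos_pi]
  unfold NUMF.h
  refine Real.log_le_log ?_ ?_
  · rw [e]
    linarith
  · rw [e]
    linarith [Real.neg_one_le_cos (2 * y)]

theorem Hh_le (t y : ℝ) : Hh t y ≤ Hh t 0 := by
  unfold Hh
  refine integral_mono_ae (Hh_int t y) (Hh_int t 0) ?_
  filter_upwards [NUMF.ae_ne t] with s hs
  exact mul_le_mul_of_nonneg_left (h_le_zero _ _ hs) (Ph_pos s).le

theorem le_Hh (t y : ℝ) : Hh t (4 * l) ≤ Hh t y := by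
  unfold Hh
  refine integral_mono_ae (Hh_int t (4 * l)) (Hh_int t y) ?_
  filter_upwards [NUMF.ae_ne t] with s hs
  exact mul_le_mul_of_nonneg_left (h_four_le _ _ hs) (Ph_pos s).le

/-- constant of `Hh_gap` -/
def cG : ℝ := 5 * (Real.log 2 - Real.log (1 - Real.cos l))

theorem h_up (t y : ℝ) : h t y ≤ Real.log (Real.cosh (2 * t)) + Real.log 2 := by
  have hc := Real.one_le_cosh (2 * t)
  rcases eq_or_ne t 0 with rfl | ht
  · unfold NUMF.h
    rw [mul_zero, Real.cosh_zero, Real.log_one, zero_add]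
    rcases eq_or_lt_of_le (show 0 ≤ 1 + Real.cos (2 * y) by linarith [Real.neg_one_le_cos (2 * y)])
      with h0 | h0
    · rw [← h0, Real.log_zero]
      exact Real.log_nonneg (by norm_num)
    · exact Real.log_le_log h0 (by linarith [Real.cos_le_one (2 * y)])
  · refine (h_le_zero t y ht).trans ?_
    unfold NUMF.h
    rw [mul_zero, Real.cos_zero, ← Real.log_mul (by positivity) (by norm_num)]
    exact Real.log_le_log (by positivity) (by linarith)

theorem h_dn (t : ℝ) {y : ℝ} (h1 : 0 ≤ y) (h2 : y ≤ 7 / 2) :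
    Real.log (Real.cosh (2 * t)) + Real.log (1 - Real.cos l) ≤ h t (y * l) := by
  have hl := l_pos
  have hpi := l8
  have hc := Real.one_le_cosh (2 * t)
  have hcl : Real.cos l < 1 := by
    rw [← Real.cos_zero]
    exact Real.cos_lt_cos_of_nonneg_of_le_pi le_rfl (by linarith) hl
  have hcl0 : 0 ≤ Real.cos l := Real.cos_nonneg_of_mem_Icc ⟨by linarith, by linarith⟩
  have hcy : -Real.cos l ≤ Real.cos (2 * (y * l)) := by
    rw [← Real.cos_pi_sub]
    refine Real.cos_le_cos_of_nonneg_of_le_pi (by positivity) (by linarith) ?_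
    nlinarith
  unfold NUMF.h
  rw [← Real.log_mul (by positivity) (by linarith)]
  refine Real.log_le_log (mul_pos (by positivity) (by linarith)) ?_
  nlinarith

theorem hh_up (t y : ℝ) : hh t y ≤ Real.log (Real.cosh (2 * t)) + Real.log 2 := by
  unfold hh
  have h1 := h_up t ((y + 1 / 2) * l)
  have h2 := h_up t ((y - 1 / 2) * l)
  linarith

theorem hh_dn (t : ℝ) {y : ℝ} (h1 : 1 / 2 ≤ y) (h2 : y ≤ 3) :
    Real.log (Real.cosh (2 * t)) + Real.log (1 - Real.cos l) ≤ hh t y := by
  unfold hh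
  have h3 := h_dn t (y := y + 1 / 2) (by linarith) (by linarith)
  have h4 := h_dn t (y := y - 1 / 2) (by linarith) (by linarith)
  linarith

/-- **the potentials of the cloud at two positions differ by a constant** -/
theorem Hh_gap (t : ℝ) : Hh t 0 - Hh t (4 * l) ≤ cG := by
  have d0 := dl_zero t (y := 0) (by norm_num)
  have d1 := dl_zero t (y := 1) (by norm_num)
  have d2 := dl_zero t (y := 2) (by norm_num)
  have d3 := dl_zero t (y := 3) (by norm_num)
  have e0 : Hh t ((0 - 1) * l) = Hh t l := by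
    rw [← Hh_neg]
    congr 1
    ring
  unfold dl at d0 d1 d2 d3
  rw [e0] at d0
  simp only [show (0 + 1 : ℝ) * l = l by ring, show (0 : ℝ) * l = 0 by ring,
    show (1 + 1 : ℝ) * l = 2 * l by ring, show (1 - 1 : ℝ) * l = 0 by ring,
    show (1 : ℝ) * l = l by ring, show (2 + 1 : ℝ) * l = 3 * l by ring,
    show (2 - 1 : ℝ) * l = l by ring, show (3 + 1 : ℝ) * l = 4 * l by ring,
    show (3 - 1 : ℝ) * l = 2 * l by ring] at d0 d1 d2 d3
  have h3 := le_Hh t (3 * l)
  have u0 := hh_up t 0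
  have u1 := hh_up t 1
  have g2 := hh_dn t (y := 2) (by norm_num) (by norm_num)
  have g3 := hh_dn t (y := 3) (by norm_num) (by norm_num)
  unfold cG
  linarith

theorem cG_nonneg : 0 ≤ cG := by
  have h1 := Hh_gap 0
  have h2 := le_Hh 0 0
  linarith

/-- constant of `Ag_bdd` -/
def cA : ℝ := 2 * Real.pi * NUMF.Kb (9 / 10 * l) * l

theorem cA_nonneg : 0 ≤ cA := by
  have hl := l_pos
  have h1 := NUMF.Kb_pos (b := 9 / 10 * l) (by positivity) (by linarith)
  have := Real.pi_pos
  unfold cA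
  positivity

theorem Ag_bdd {a : ℝ} (ha : |a| ≤ 9 / 10) (t : ℝ) : |NUMF.Ag a t| ≤ cA := by
  have hl := l_pos
  have hpi := Real.pi_pos
  have hb : 9 / 10 * l < l := by linarith
  have hK := NUMF.Kb_pos (b := 9 / 10 * l) (by positivity) hb
  have ab : ∀ a : ℝ, |a| ≤ 9 / 10 → |a * l| ≤ 9 / 10 * l := by
    intro a ha
    rw [abs_mul, abs_of_pos hl]
    exact mul_le_mul_of_nonneg_right ha hl.le
  have g := NUMF.Ag_lip hb (a := 0) (a' := a) (ab _ (by norm_num)) (ab _ ha) t t
  rw [NUMF.Ag_zero, sub_zero, sub_self, abs_zero, mul_zero, Real.exp_zero, mul_one, zero_add,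
    sub_zero] at g
  have e1 : Real.exp (-(8 / 3) * |t|) ≤ 1 := Real.exp_le_one_iff.2 (by linarith [abs_nonneg t])
  refine g.trans ?_
  unfold cA
  calc 2 * Real.pi * (NUMF.Kb (9 / 10 * l) * Real.exp (-(8 / 3) * |t|)) * (|a| * l) ≤
      2 * Real.pi * (NUMF.Kb (9 / 10 * l) * 1) * (1 * l) := by
        have : |a| ≤ 1 := by linarith
        gcongr
    _ = _ := by ring

end PBO.PLX

end
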