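import Pool.Agent.PLX.Ns
import Pool.Agent.PLX.PB.ObDef
import Pool.Agent.PLX.PB.ObCH

/-!
# Bounds of the row factors, of the legs and of the cutoff on the lines of the objects, two fillings

* `rwO_le`, `rwO_ge`, `rwX_le`, `rwX_ge`: the own and the cross part of the factor of one row,
  away from the poles;
* `rwO_ratio`, `rwX_ratio`, **`rwC_ratio`**: a row against another row (`rwC_zero`: against the row `0`);
* `rwC_le`: `rwC a x u ≤ cR ^ n a * cosh (im (u - x)) ^ (2 n (!a) - 2 n a)` as a product;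
* `thZ_le`, `thZ_line`: the legs;
* `norm_phi_two`: the cutoff.
-/

set_option autoImplicit false

noncomputable section

open Complex MeasureTheory Set
open PLX (Fil)

namespace PBO.PLX

open NUP1 NUO NUGC NUGC.PLX
open NUHM (Agh)

/-! ### sines -/

/-- `sin (l / 1000)` -/
def s1 : ℝ := Real.sin (l / 1000)

theorem pi_eq : 8 * l = Real.pi := by unfold l; ring

theorem s1_pos : 0 < s1 := by
  have hl := l_pos
  have hpi := pi_eq
  exact Real.sin_pos_of_pos_of_lt_pi (by positivity) (by linarith)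

theorem s1_le_one : s1 ≤ 1 := Real.sin_le_one _

theorem abs_sin_ge {x : ℝ} (h1 : l / 1000 ≤ |x|) (h2 : |x| ≤ 8 * l - l / 1000) :
    s1 ≤ |Real.sin x| := by
  have hl := l_pos
  have hpi := pi_eq
  have e : |Real.sin x| = Real.sin |x| := by
    rw [Real.abs_sin_eq_sin_abs_of_abs_le_pi]
    linarith
  rw [e]
  unfold s1
  rcases le_total |x| (4 * l) with h | h
  · exact Real.sin_le_sin_of_le_of_le_pi_div_two (by linarith) (by linarith) h1
  · rw [← Real.sin_pi_sub |x|]
    exact Real.sin_le_sin_of_le_of_le_pi_div_two (by linarith) (by linarith) (by linarith)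

theorem sin_up (z : ℂ) : ‖sin z‖ ≤ Real.cosh z.im := by
  have hc := Real.cosh_pos z.im
  refine (sq_le_sq₀ (norm_nonneg _) hc.le).1 ?_
  have h := NUMF.norm_sin_sq z.re z.im
  have e : (z.re : ℂ) + z.im * I = z := re_add_im z
  rw [e] at h
  rw [h, Real.cosh_two_mul, Real.sinh_sq]
  have := Real.neg_one_le_cos (2 * z.re)
  linarith

theorem sin_dn {z : ℂ} (h1 : l / 1000 ≤ |z.re|) (h2 : |z.re| ≤ 8 * l - l / 1000) :
    s1 * Real.cosh z.im ≤ ‖sin z‖ := by
  refine le_trans ?_ (Bd.le_norm_sin z)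
  exact mul_le_mul_of_nonneg_right (abs_sin_ge h1 h2) (Real.cosh_pos _).le

/-! ### rows and legs -/

/-- bound of the row factors -/
def cR : ℝ := (s1 ^ 2)⁻¹

theorem one_le_cR : 1 ≤ cR := by
  unfold cR
  have h0 := s1_pos
  have h1 := s1_le_one
  exact (one_le_inv₀ (by positivity)).2 (by nlinarith)

theorem cR_pos : 0 < cR := lt_of_lt_of_le one_pos one_le_cR

/-- away from the poles of the own part of the factor of the row `x` -/
structure AwO (x u : ℂ) : Prop where
  h1 : l / 1000 ≤ |u.re - x.re|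
  h2 : |u.re - x.re| ≤ 8 * l - l / 1000
  h3 : l / 1000 ≤ |u.re - x.re - 2 * l|
  h4 : |u.re - x.re - 2 * l| ≤ 8 * l - l / 1000

/-- away from the zeros of the cross part of the factor of the row `x` -/
structure AwX (x u : ℂ) : Prop where
  h1 : l / 1000 ≤ |u.re - x.re + 3 * l|
  h2 : |u.re - x.re + 3 * l| ≤ 8 * l - l / 1000

theorem rwO_le {x u : ℂ} (h : AwO x u) : rwO x u ≤ cR * (Real.cosh (u - x).im ^ 2)⁻¹ := by
  have hs := s1_pos
  have e1 : (u - x).re = u.re - x.re := sub_re _ _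
  have e2 : (u - x - 2 * l).re = u.re - x.re - 2 * l := by simp
  have i1 : (u - x - 2 * l).im = (u - x).im := by simp
  have a2 := sin_dn (z := u - x) (by rw [e1]; exact h.h1) (by rw [e1]; exact h.h2)
  have a3 := sin_dn (z := u - x - 2 * l) (by rw [e2]; exact h.h3) (by rw [e2]; exact h.h4)
  rw [i1] at a3
  have hc := Real.cosh_pos (u - x).im
  unfold rwO cR
  rw [← mul_inv, show s1 ^ 2 * Real.cosh (u - x).im ^ 2 =
    (s1 * Real.cosh (u - x).im) * (s1 * Real.cosh (u - x).im) by ring]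
  refine inv_anti₀ (by positivity) ?_
  gcongr

theorem rwO_ge {x u : ℂ} (h : AwO x u) : (Real.cosh (u - x).im ^ 2)⁻¹ ≤ rwO x u := by
  have hs := s1_pos
  have e1 : (u - x).re = u.re - x.re := sub_re _ _
  have e2 : (u - x - 2 * l).re = u.re - x.re - 2 * l := by simp
  have i1 : (u - x - 2 * l).im = (u - x).im := by simp
  have a2 := sin_dn (z := u - x) (by rw [e1]; exact h.h1) (by rw [e1]; exact h.h2)
  have a3 := sin_dn (z := u - x - 2 * l) (by rw [e2]; exact h.h3) (by rw [e2]; exact h.h4)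
  have b2 := sin_up (u - x)
  have b3 := sin_up (u - x - 2 * l)
  rw [i1] at a3 b3
  have hc := Real.cosh_pos (u - x).im
  unfold rwO
  refine inv_anti₀ (mul_pos (lt_of_lt_of_le (by positivity) a2) (lt_of_lt_of_le (by positivity) a3)) ?_
  rw [sq]
  gcongr

theorem rwX_le (x u : ℂ) : rwX x u ≤ Real.cosh (u - x).im ^ 2 := by
  have i2 : (u - x + 3 * l).im = (u - x).im := by simp
  have a1 := sin_up (u - x + 3 * l)
  rw [i2] at a1
  unfold rwX
  gcongr

theorem rwX_ge {x u : ℂ} (h : AwX x u) : cR⁻¹ * Real.cosh (u - x).im ^ 2 ≤ rwX x u := by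
  have hs := s1_pos
  have e1 : (u - x + 3 * l).re = u.re - x.re + 3 * l := by simp
  have i2 : (u - x + 3 * l).im = (u - x).im := by simp
  have a1 := sin_dn (z := u - x + 3 * l) (by rw [e1]; exact h.h1) (by rw [e1]; exact h.h2)
  rw [i2] at a1
  have hc := Real.cosh_pos (u - x).im
  unfold rwX cR
  rw [inv_inv, ← mul_pow]
  gcongr

/-- a height changed by at most `t` -/
theorem cosh_sub_le {x x' u : ℂ} {h0 : ℝ} (h : |x.im - x'.im| ≤ h0) :
    Real.cosh (u - x).im ≤ Real.exp h0 * Real.cosh (u - x').im := by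
  obtain ⟨h1, h2⟩ := abs_le.1 h
  rw [sub_im, sub_im, Real.cosh_eq, Real.cosh_eq]
  have e1 : Real.exp (u.im - x.im) ≤ Real.exp h0 * Real.exp (u.im - x'.im) := by
    rw [← Real.exp_add]
    exact Real.exp_le_exp.2 (by linarith)
  have e2 : Real.exp (-(u.im - x.im)) ≤ Real.exp h0 * Real.exp (-(u.im - x'.im)) := by
    rw [← Real.exp_add]
    exact Real.exp_le_exp.2 (by linarith)
  linarith

/-- bound of the ratios of the row factors, heights at distance `≤ h0` -/
def cRh (h0 : ℝ) : ℝ := cR * Real.exp (2 * h0)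

theorem cRh_pos (h0 : ℝ) : 0 < cRh h0 := mul_pos cR_pos (Real.exp_pos _)

theorem one_le_cRh {h0 : ℝ} (h : 0 ≤ h0) : 1 ≤ cRh h0 := by
  unfold cRh
  have h1 := one_le_cR
  have h2 : 1 ≤ Real.exp (2 * h0) := Real.one_le_exp (by positivity)
  nlinarith

theorem cosh_sq_sub {x x' u : ℂ} {h0 : ℝ} (h : |x.im - x'.im| ≤ h0) :
    Real.cosh (u - x).im ^ 2 ≤ Real.exp (2 * h0) * Real.cosh (u - x').im ^ 2 := by
  have h1 := cosh_sub_le (u := u) h
  have h2 := Real.cosh_pos (u - x).im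
  have h3 : Real.exp (2 * h0) = Real.exp h0 ^ 2 := by
    rw [← Real.exp_nat_mul]
    norm_num
  rw [h3, ← mul_pow]
  gcongr

/-- **own part, a row against another row** -/
theorem rwO_ratio {x x' u : ℂ} {h0 : ℝ} (h : AwO x u) (h' : AwO x' u) (hh : |x.im - x'.im| ≤ h0) :
    rwO x u ≤ cRh h0 * rwO x' u := by
  have h1 := rwO_le h
  have h2 := rwO_ge h'
  have h3 : Real.cosh (u - x').im ^ 2 ≤ Real.exp (2 * h0) * Real.cosh (u - x).im ^ 2 :=
    cosh_sq_sub (by rw [abs_sub_comm]; exact hh)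
  have hc := Real.cosh_pos (u - x).im
  have hc' := Real.cosh_pos (u - x').im
  have h4 : (Real.cosh (u - x).im ^ 2)⁻¹ ≤ Real.exp (2 * h0) * (Real.cosh (u - x').im ^ 2)⁻¹ := by
    rw [← div_eq_mul_inv, le_div_iff₀ (by positivity), inv_mul_eq_div, div_le_iff₀ (by positivity)]
    exact h3
  have hR := cR_pos
  have he := Real.exp_pos (2 * h0)
  unfold cRh
  calc rwO x u ≤ cR * (Real.exp (2 * h0) * (Real.cosh (u - x').im ^ 2)⁻¹) :=
        h1.trans (mul_le_mul_of_nonneg_left h4 hR.le)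
    _ ≤ cR * (Real.exp (2 * h0) * rwO x' u) := by gcongr
    _ = _ := by ring

/-- **cross part, a row against another row** -/
theorem rwX_ratio {x x' u : ℂ} {h0 : ℝ} (h' : AwX x' u) (hh : |x.im - x'.im| ≤ h0) :
    rwX x u ≤ cRh h0 * rwX x' u := by
  have h1 := rwX_le x u
  have h2 := rwX_ge h'
  have h3 := cosh_sq_sub (u := u) hh
  have hR := cR_pos
  have he := Real.exp_pos (2 * h0)
  have h4 : Real.cosh (u - x').im ^ 2 ≤ cR * rwX x' u := by
    rw [inv_mul_eq_div, div_le_iff₀ hR] at h2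
    linarith
  unfold cRh
  calc rwX x u ≤ Real.exp (2 * h0) * Real.cosh (u - x').im ^ 2 := h1.trans h3
    _ ≤ Real.exp (2 * h0) * (cR * rwX x' u) := by gcongr
    _ = _ := by ring

section

variable [Fil]

/-- bound of the ratios of the factors of the `Fil.n`-fold rows -/
def cRq (h0 : ℝ) : ℝ := cRh h0 ^ (Fil.q + 1)

theorem cRq_pos (h0 : ℝ) : 0 < cRq h0 := pow_pos (cRh_pos h0) _

theorem one_le_cRq {h0 : ℝ} (h : 0 ≤ h0) : 1 ≤ cRq h0 := one_le_pow₀ (one_le_cRh h)

theorem n_add_n (a : Bool) : Fil.n a + Fil.n (!a) = Fil.q + 1 := by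
  cases a
  · rfl
  · exact add_comm _ _

/-- **a row of both species against another row** -/
theorem rwC_ratio (a : Bool) {x x' u : ℂ} {h0 : ℝ} (h : AwO x u) (h' : AwO x' u) (hX : AwX x' u)
    (hh : |x.im - x'.im| ≤ h0) : rwC a x u ≤ cRq h0 * rwC a x' u := by
  have h1 := rwO_ratio h h' hh
  have h2 := rwX_ratio (x := x) hX hh
  have p1 := rwO_nonneg x u
  have p2 := rwX_nonneg x u
  have p3 := rwO_nonneg x' u
  have p4 := rwX_nonneg x' u
  have hc := (cRh_pos h0).le
  rw [rwC_eq, rwC_eq]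
  unfold cRq
  rw [← n_add_n a, pow_add]
  calc rwO x u ^ Fil.n a * rwX x u ^ Fil.n (!a) ≤
      (cRh h0 * rwO x' u) ^ Fil.n a * (cRh h0 * rwX x' u) ^ Fil.n (!a) := by gcongr
    _ = _ := by
        rw [mul_pow, mul_pow]
        ring

/-- the factor of a row away from its poles -/
theorem rwC_le (a : Bool) {x u : ℂ} (h : AwO x u) :
    rwC a x u ≤ cR ^ Fil.n a * ((Real.cosh (u - x).im ^ 2)⁻¹ ^ Fil.n a *
      (Real.cosh (u - x).im ^ 2) ^ Fil.n (!a)) := by
  have h1 := rwO_le h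
  have h2 := rwX_le x u
  have p1 := rwO_nonneg x u
  have p2 := rwX_nonneg x u
  have hc := cR_pos
  have hh := Real.cosh_pos (u - x).im
  rw [rwC_eq, ← mul_assoc, ← mul_pow]
  gcongr

end

/-- bound of the factor of the legs -/
def cZ : ℝ := s1⁻¹

theorem cZ_pos : 0 < cZ := inv_pos.2 s1_pos

theorem thZ_le {z u : ℂ} (h1 : l / 1000 ≤ |z.re - u.re + 2 * l|)
    (h2 : |z.re - u.re + 2 * l| ≤ 8 * l - l / 1000) : thZ z u ≤ cZ := by
  have hs := s1_pos
  have e1 : (z - u + 2 * l).re = z.re - u.re + 2 * l := by simp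
  have i1 : (z - u + 2 * l).im = (z - u).im := by simp
  have i2 : (z - u - 3 * l).im = (z - u).im := by simp
  have a1 := sin_up (z - u - 3 * l)
  have a2 := sin_dn (z := z - u + 2 * l) (by rw [e1]; exact h1) (by rw [e1]; exact h2)
  rw [i2] at a1
  rw [i1] at a2
  have hc := Real.cosh_pos (z - u).im
  unfold thZ cZ
  have e : s1⁻¹ = Real.cosh (z - u).im / (s1 * Real.cosh (z - u).im) := by
    field_simp
  rw [e]
  gcongr

/-- admissible positions of the legs, strings on `-(1 + e) l`, `-(2 + e) l` -/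
def LegOK (e : ℝ) (z : ℂ) : Prop := -(9 / 10 * l) ≤ z.re ∧ z.re ≤ (4 - e - 1 / 1000) * l

theorem thZ_line {e : ℝ} {z u : ℂ} (hz : LegOK e z) (h1 : -((2 + e) * l) ≤ u.re)
    (h2 : u.re ≤ l) : thZ z u ≤ cZ := by
  have hl := l_pos
  obtain ⟨z1, z2⟩ := hz
  have h3 : 0 < z.re - u.re + 2 * l := by linarith
  refine thZ_le ?_ ?_
  · rw [abs_of_pos h3]
    linarith
  · rw [abs_of_pos h3]
    nlinarith

/-! ### products over lists -/

theorem prod_le_pow {L : List ℂ} {f : ℂ → ℝ} {c : ℝ} (hc : 1 ≤ c) (h0 : ∀ x ∈ L, 0 ≤ f x)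
    (h : ∀ x ∈ L, f x ≤ c) {n : ℕ} (hn : L.length ≤ n) : (L.map f).prod ≤ c ^ n := by
  have key : 0 ≤ (L.map f).prod ∧ (L.map f).prod ≤ c ^ L.length := by
    clear hn
    induction L with
    | nil => simp
    | cons x L ih =>
      obtain ⟨i0, i1⟩ := ih (fun y hy => h0 y (by simp [hy])) fun y hy => h y (by simp [hy])
      have a0 := h0 x (by simp)
      have a1 := h x (by simp)
      rw [List.map_cons, List.prod_cons, List.length_cons, pow_succ]
      refine ⟨mul_nonneg a0 i0, ?_⟩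
      calc f x * (L.map f).prod ≤ c * c ^ L.length := mul_le_mul a1 i1 i0 (by linarith)
        _ = _ := mul_comm _ _
  exact key.2.trans (pow_le_pow_right₀ hc hn)

theorem norm_prod_le_pow {L : List ℂ} {f : ℂ → ℂ} {c : ℝ} (hc : 1 ≤ c) (h : ∀ x ∈ L, ‖f x‖ ≤ c)
    {n : ℕ} (hn : L.length ≤ n) : ‖(L.map f).prod‖ ≤ c ^ n := by
  have e : ‖(L.map f).prod‖ = (L.map fun x => ‖f x‖).prod := by
    clear h hn
    induction L with
    | nil => simp
    | cons x L ih => rw [List.map_cons, List.prod_cons, norm_mul, ih, List.map_cons, List.prod_cons]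
  rw [e]
  exact prod_le_pow hc (fun x _ => norm_nonneg _) h hn

/-! ### the cutoff -/

section cutoff
variable {β : ℝ} {X : List ℂ} {u : ℂ}

theorem norm_prod_cs (h0 : 0 < β) (h1 : β ≤ 4 / 3) (hu : ∀ x ∈ X, |(u - x).re + l / 2| ≤ 3 * l / 2) :
    ‖(X.map fun x => psi β (u - x)).prod‖ ≤ 1 := by
  have := norm_prod_le_pow (f := fun x => psi β (u - x)) le_rfl (fun x hx => psi_le_one' h0 h1 (hu x hx))
    (le_refl X.length)
  rwa [one_pow] at this

theorem norm_phi_two (h0 : 0 < β) (h1 : β ≤ 4 / 3) (hu : ∀ x ∈ X, |(u - x).re + l / 2| ≤ 3 * l / 2) :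
    ‖phi β X u‖ ≤ 2 := by
  unfold phi
  refine (norm_sub_le _ _).trans ?_
  rw [norm_one]
  linarith [norm_prod_cs h0 h1 hu]

end cutoff

end PBO.PLX

end
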