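import Pool.Agent.PLX.Ns
import Pool.Agent.PLX.PB.Top0

/-!
# The sum over the numbers of quanta and the double integral over a set, any base

`top_cFS`: for a final class over a base, the sum over the numbers of quanta of the integrals of the
moduli over a set `S` of positions of the half quanta, from the tilted bounds of the choices (as
`PBR.top_cFB`, over a set); `cls_val_le`: the values of the class from the case `S = univ`.
-/

set_option autoImplicit false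
set_option linter.unusedSectionVars false

noncomputable section

open Complex MeasureTheory Finset
open scoped ENNReal
open PLX (Fil)

namespace PBO.PLX

open NUO NUP1 NUCR NUP1S NUP1S.Ab NUP1S.AbC NUP1S.AbG NURow NUP1.Leg NUGC NUGC.PLX

variable [Fil]

/-- **the sum over the numbers of the double integral of a class over a set** -/
theorem top_cFS {C c b c1 c' : ℝ} {k : ℕ} (hC : 0 < C) (hc : 0 < c) (hb : 0 < b) (hc1 : 0 < c1)
    (hc' : 0 ≤ c') {δ : ℝ} (hδ : 0 < δ) :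
    ∃ a0 : ℝ, 0 < a0 ∧ ∀ C' : ℝ, 0 ≤ C' → ∃ L0 : ℝ, ∀ L ≥ L0, ∀ ep : ℝ, 0 < ep → ep ≤ 1 / 100 →
      ∀ e1 : ℝ, 0 < e1 → e1 ≤ 1 / 4 → ∀ J : ℝ, 0 ≤ J →
      Real.exp (-(2 * Real.pi * J)) + 3 * e1 + 3 * ep ≤ a0 →
      ∀ (P : NUO.Par), ParC P → ∀ (X : Bool → Option O3 → ℂ → ℂ) (ob : (Bool → ℂ → ℝ) → OB)
        (κ : ℝ) (E0 : Set ℝ), ∀ (kF kP kF' kP' : ℂ → ℂ) (t t' : HT)
        (ν : ℝ × ℝ → ℝ) (d : ℝ) (K e : ℕ) (Q : ℝ × ℝ → Bool × Bool → ℝ),
      PBR.PLX.Bs X ob P ep κ e E0 → 0 < d →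
      (∀ y u, 0 ≤ Q y u) →
      ((2 * K + (aXt e t t' + aYt e t t') + 1 : ℕ) : ℝ) ≤ Real.exp (2 * L) →
      (∀ (y : ℝ × ℝ) (u : Bool × Bool), (u.1 = true → htP t = true) →
        (u.2 = true → htP t' = true) →
        PerGen C C' c b k c1 c' L ep e1 J (ν y) d K (aXt e t t' + aYt e t t')
          (TmV u.1.toNat u.2.toNat
            (PBR.PLX.obKB ob t t' (vl (htL t) y.1) (vl (htL t') y.2) u.1 u.2) P
            (aXt e t t') (aYt e t t')) (Q y u)) →
      ∀ S : Set (ℝ × ℝ),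
      ∑ n ∈ range (K + 1), ∫⁻ y in S,
          ‖(cF (X true) (X false) kF kP kF' kP' t t').pre (vl (htL t) y.1) (vl (htL t') y.2)‖ₑ *
          ‖(cF (X true) (X false) kF kP kF' kP' t t').Z (X true) (X false) (3 / 5 * l) n (n + e)
            (lX P) (lY P) (vl (htL t) y.1) (vl (htL t') y.2)‖ₑ ≤
        ENNReal.ofReal (4 * (1 + 1 / d) * Real.exp (δ * L)) *
          ∫⁻ y in S, ‖(cF (X true) (X false) kF kP kF' kP' t t').pre
              (vl (htL t) y.1) (vl (htL t') y.2)‖ₑ *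
            ENNReal.ofReal (∑ u : Bool × Bool,
              PBR.PLX.wKB X t t' (vl (htL t) y.1) (vl (htL t') y.2) u.1 u.2 * Q y u) := by
  obtain ⟨a0, ha0, h⟩ := PBR.PLX.cls_leB (k := k) hC hc hb hc1 hc' hδ
  refine ⟨a0, ha0, fun C' hC' => ?_⟩
  obtain ⟨L0, h⟩ := h C' hC'
  refine ⟨L0, fun L hL ep hep hep' e1 he1 he1' J hJ hsm P hP X ob κ E0 kF kP kF' kP'
    t t' ν d K e Q hB hd hQ hK hPer S => ?_⟩
  refine (sum_lint_le' _ _ _).trans ?_
  rw [← lintegral_const_mul' _ _ ENNReal.ofReal_ne_top]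
  refine lintegral_mono fun y => ?_
  beta_reduce
  have h4 : (0 : ℝ) ≤ 4 * (1 + 1 / d) := by positivity
  have hS : 0 ≤ ∑ u : Bool × Bool,
      PBR.PLX.wKB X t t' (vl (htL t) y.1) (vl (htL t') y.2) u.1 u.2 * Q y u :=
    sum_nonneg fun u _ => mul_nonneg (PBR.PLX.wKB_nonneg _ _ _ _ _ _ _) (hQ y u)
  have key := h L hL ep hep hep' e1 he1 he1' J hJ hsm P hP X ob κ E0 kF kP kF' kP'
    t t' (vl (htL t) y.1) (vl (htL t') y.2) (by simp [vl]) (by simp [vl]) (ν y) d K e (Q y) hB hd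
    (hQ y) hK (fun u => hPer y u)
  have key2 := ENNReal.ofReal_le_ofReal key
  rw [← sum_enorm_eq] at key2
  rw [← Finset.mul_sum]
  refine (mul_le_mul_right key2 _).trans (le_of_eq ?_)
  rw [show 4 * (1 + 1 / d) * ((∑ u : Bool × Bool, PBR.PLX.wKB X t t' (vl (htL t) y.1)
      (vl (htL t') y.2) u.1 u.2 * Q y u) * Real.exp (δ * L)) =
      (4 * (1 + 1 / d) * Real.exp (δ * L)) * ∑ u : Bool × Bool, PBR.PLX.wKB X t t' (vl (htL t) y.1)
      (vl (htL t') y.2) u.1 u.2 * Q y u by ring, ENNReal.ofReal_mul (by positivity)]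
  exact mul_left_comm _ _ _

/-- the total number of the additional quanta of a class -/
theorem aXYt_le (e : ℕ) (t t' : HT) : aXt e t t' + aYt e t t' ≤ 4 + e := by
  unfold aXt aYt htN
  cases t <;> cases t' <;> simp only [htD] <;> omega

/-- the values of a class from the integrals over all positions -/
theorem cls_val_le (c : CD) (X Y : Option O3 → ℂ → ℂ) (α : ℝ) (K e : ℕ)
    (lnX : ∀ p p' : ℕ, (Fin p → O3) → (Fin p' → O3) → Fin p → ℝ)
    (lnY : ∀ p p' : ℕ, (Fin p → O3) → (Fin p' → O3) → Fin p' → ℝ) {B : ℝ} (hB : 0 ≤ B)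
    (h : ∑ n ∈ range (K + 1), ∫⁻ y : ℝ × ℝ in Set.univ, ‖c.pre (vl c.a y.1) (vl c.b y.2)‖ₑ *
      ‖c.Z X Y α n (n + e) lnX lnY (vl c.a y.1) (vl c.b y.2)‖ₑ ≤ ENNReal.ofReal B) :
    ∑ n ∈ range (K + 1), ‖c.val X Y α n (n + e) lnX lnY‖ ≤ B := by
  refine sum_norm_le hB (le_trans ?_ h)
  refine sum_le_sum fun n _ => ?_
  rw [Measure.restrict_univ]
  exact c.val_le X Y α n (n + e) lnX lnY

end PBO.PLX

end
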