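import Pool.Agent.PLX.Ns
import Pool.Agent.PLX.PB.QC20
import Pool.Agent.PLX.PB.OthInt

/-!
# The prefactors of the final classes with the gain: bounds of their integrals

`phT t i`: phase of the half quantum of type `t` with the choice `i`; `gU`: the factor
`exp (-gnP)` of a choice; `QG`, `QGD`: the prefactors with the gain.

* **`int_comp`**: a class with a composite half quantum; **`int_F`**: a class `F W`, `W F`, `F F`
  (`OwnFLe`: own bound with a factor `fF` small in the bulk, `fF_small`);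
* **`int_ww`**: the class `W W` outside a set; **`near_ww`**: the class `W W` at heights in the window;
* **`int_D`**: D1, D1'.
-/

set_option autoImplicit false
set_option linter.unusedSectionVars false

noncomputable section

open MeasureTheory Finset
open scoped ENNReal

namespace PBQ.PLX

open NUGC NUGC.PLX NUO NUP1 NUCR NUP1S NURow NUP1.Leg NUP1.Bd
open PBO.PLX (gnP gnQ)

/-- phase of the half quantum of type `t` with the choice `i` -/
def phT : HT → Bool → ℝ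
  | .W, _ => -(3 * l)
  | .F, _ => -(3 * l)
  | .P, _ => 5 * l
  | .H, false => 5 * l
  | .H, true => 13 * l

theorem phT_ge (t : HT) (i : Bool) : -(3 * l) ≤ phT t i := by
  have hl := Bd.l_pos
  cases t <;> cases i <;> simp only [phT] <;> linarith

/-- composite -/
def cmp : HT → Prop
  | .W => False
  | .F => False
  | .P => True
  | .H => True

theorem phT_cmp {t : HT} (h : cmp t) (i : Bool) : 5 * l ≤ phT t i := by
  have hl := Bd.l_pos
  cases t <;> cases i <;> simp_all only [phT, cmp] <;> linarith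

/-- the factor of the gain -/
def gU (e1 J : ℝ) (k : ℕ) (t t' : HT) (y : ℝ × ℝ) (u : Bool × Bool) : ℝ :=
  Real.exp (-gnP e1 J k (phT t u.1) (phT t' u.2) y)

theorem gU_nonneg (e1 J : ℝ) (k : ℕ) (t t' : HT) (y : ℝ × ℝ) (u : Bool × Bool) :
    0 ≤ gU e1 J k t t' y u := (Real.exp_pos _).le

/-- **the prefactor with the gain** -/
def QG (MF : ℕ → Bool → NUSp.Cl → ℂ → ℝ) (k : ℕ) (ep e1 J A : ℝ) (t t' : HT) (y : ℝ × ℝ)
    (u : Bool × Bool) : ℝ := QF MF k ep e1 A t t' (gU e1 J k t t' y u) y u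

/-- **the prefactor of D1, D1' with the gain** -/
def QGD (MF : ℕ → Bool → NUSp.Cl → ℂ → ℝ) (k : ℕ) (ep e1 J A : ℝ) (o : Bool) (τ : ℝ) : ℝ :=
  QD MF k ep e1 A (Real.exp (-gnQ e1 J k (2 * l) τ)) o τ

theorem QG_nonneg {MF : ℕ → Bool → NUSp.Cl → ℂ → ℝ} {k : ℕ} {ep e1 J A : ℝ} (hA : 0 ≤ A) (t t' : HT)
    (y : ℝ × ℝ) (u : Bool × Bool) : 0 ≤ QG MF k ep e1 J A t t' y u :=
  QF_nonneg hA (gU_nonneg _ _ _ _ _ _ _) _ _ _ _

theorem QGD_nonneg {MF : ℕ → Bool → NUSp.Cl → ℂ → ℝ} {k : ℕ} {ep e1 J A : ℝ} (hA : 0 ≤ A) (o : Bool)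
    (τ : ℝ) : 0 ≤ QGD MF k ep e1 J A o τ := QD_nonneg hA (Real.exp_pos _).le _ _

/-- the sum of the factors of the allowed choices -/
def sU (t t' : HT) (g : Bool × Bool → ℝ) : ℝ := ∑ u : Bool × Bool,
  if (u.1 = true → htP t = true) ∧ (u.2 = true → htP t' = true) then g u else 0

theorem sU_le {t t' : HT} {g : Bool × Bool → ℝ} {c B : ℝ} (hB : 0 ≤ B)
    (h : ∀ u, c * g u ≤ B) : c * (sU t t' g / 4) ≤ B := by
  unfold sU
  have h1 : c * (∑ u : Bool × Bool,
      if (u.1 = true → htP t = true) ∧ (u.2 = true → htP t' = true) then g u else 0) ≤ 4 * B := by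
    rw [mul_sum]
    calc ∑ u : Bool × Bool, c * (if (u.1 = true → htP t = true) ∧ (u.2 = true → htP t' = true)
          then g u else 0) ≤ ∑ _u : Bool × Bool, B := by
          refine Finset.sum_le_sum fun u _ => ?_
          split_ifs
          · exact h u
          · rw [mul_zero]
            exact hB
      _ = 4 * B := by
          rw [sum_const, card_univ, Fintype.card_prod, Fintype.card_bool]
          simp only [nsmul_eq_mul]
          push_cast
          ring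
  linarith [mul_div_assoc c (∑ u : Bool × Bool,
      if (u.1 = true → htP t = true) ∧ (u.2 = true → htP t' = true) then g u else 0) 4]

/-- constant of the integrals -/
def KC (δ : ℝ) : ℝ := 4 * (δ⁻¹) ^ 2 * Real.exp 15 + 3000 * (δ⁻¹) ^ 2 * Real.exp 6

theorem KC_nonneg (δ : ℝ) : 0 ≤ KC δ := by
  unfold KC
  positivity

section
variable {ep e1 J : ℝ} {k : ℕ} (he : 0 < e1) (he1 : e1 ≤ 1 / 100) (hep : 0 ≤ ep)
  (hep1 : ep ≤ 1 / 100) (hJ : 0 ≤ J) (hT : 20 ≤ Tb (Real.log k))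
include he he1 hep hep1 hJ hT

theorem TW_b : Tb (Real.log k) ≤ TW ep e1 k ∧ TW ep e1 k ≤ 2 * Tb (Real.log k) := by
  have e : TW ep e1 k = (1 + 2 * e1 + 2 * ep) * Tb (Real.log k) := rfl
  rw [e]
  constructor <;> nlinarith

/-- near bound of a composite choice -/
theorem near_comp {φ φ' : ℝ} (hφ : -(3 * l) ≤ φ) (hφ' : -(3 * l) ≤ φ') (hc : 5 * l ≤ φ ∨ 5 * l ≤ φ')
    (z : ℝ × ℝ) : QI0 z * Real.exp (-gnP e1 J k φ φ' z) ≤
      Real.exp (-(2 * (1 - e1) * Tb (Real.log k)) + 15) := by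
  obtain ⟨q1, q2⟩ := PBO.PLX.QI0_le he he1 hJ hT z
  rcases hc with hc | hc
  · have h1 := PBO.PLX.gnP_of' he he1 hJ hT (φ := φ) hφ' (z := z) le_rfl
    have h2 := PBO.PLX.comp_gn he he1 hJ hT hc z.1
    refine (mul_le_mul_of_nonneg_right q1 (Real.exp_pos _).le).trans ?_
    rw [← Real.exp_add]
    exact Real.exp_le_exp.2 (by linarith)
  · have h1 := PBO.PLX.gnP_of he he1 hJ hT (φ' := φ') hφ (z := z) le_rfl
    have h2 := PBO.PLX.comp_gn he he1 hJ hT hc z.2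
    refine (mul_le_mul_of_nonneg_right q2 (Real.exp_pos _).le).trans ?_
    rw [← Real.exp_add]
    exact Real.exp_le_exp.2 (by linarith)

/-- **the majorant of a class with a composite half quantum** -/
theorem lint_comp {δ : ℝ} (hδ : 0 < δ) (hδ1 : δ ≤ 1 / 4) {t t' : HT} (hc : cmp t ∨ cmp t') :
    ∫⁻ y, ENNReal.ofReal (FM ep e1 k y * sU t t' (gU e1 J k t t' y)) ≤
      ENNReal.ofReal (4 * KC δ * Real.exp (-((7 / 6 - e1 - 2 * δ) * Tb (Real.log k)))) := by
  obtain ⟨T1, T2⟩ := TW_b he he1 hep hep1 hJ hT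
  have key := PBO.PLX.cls_two he he1 hJ hT hδ hδ1 (K := 15) T1 T2
    (w := fun y => sU t t' (gU e1 J k t t' y) / 4)
    (fun z _ _ => sU_le (Real.exp_pos _).le fun u =>
      near_comp he he1 hep hep1 hJ hT (phT_ge t u.1) (phT_ge t' u.2)
        (hc.imp (fun h => phT_cmp h u.1) fun h => phT_cmp h u.2) z)
    (fun z hz => by
      have := sU_le (t := t) (t' := t') (g := gU e1 J k t t' z)
        (Real.exp_pos (-((1 - e1) * Tb (Real.log k)) + 6)).le fun u => by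
          rw [one_mul]
          have h1 := PBO.PLX.gnP_far he he1 hJ hT (phT_ge t u.1) (phT_ge t' u.2) T1 hz
          exact Real.exp_le_exp.2 (by linarith)
      rwa [one_mul] at this)
  have e : ∀ y, ENNReal.ofReal (FM ep e1 k y * sU t t' (gU e1 J k t t' y)) =
      ENNReal.ofReal 4 * ENNReal.ofReal (fr (TW ep e1 k) (Real.log k) y * MQ (TW ep e1 k) y *
        (sU t t' (gU e1 J k t t' y) / 4)) := fun y => by
    rw [← ENNReal.ofReal_mul (by norm_num)]
    congr 1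
    unfold FM
    ring
  simp only [e]
  rw [lintegral_const_mul' _ _ ENNReal.ofReal_ne_top]
  refine (mul_le_mul' le_rfl key).trans ?_
  rw [← ENNReal.ofReal_mul (by norm_num)]
  refine ENNReal.ofReal_le_ofReal (le_of_eq ?_)
  unfold KC
  ring

end

/-! ### the classes -/

namespace KD

variable (K : KD) {MF : ℕ → Bool → NUSp.Cl → ℂ → ℝ} {k : ℕ} {ep e1 J : ℝ} {C CG : ℝ}

/-- **a class with a composite half quantum** -/
theorem int_comp (hC : 0 ≤ C) (hCG : 0 ≤ CG) (hO : K.OwnLe MF k ep C) (hG : DirLe CG)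
    (hep : 0 ≤ ep) (hep1 : ep ≤ 1 / 100) (he : 0 < e1) (he1 : e1 ≤ 1 / 100) (hJ : 0 ≤ J)
    (hT : 20 ≤ Tb (Real.log k)) {A : ℝ} (hA : 0 ≤ A) {δ : ℝ} (hδ : 0 < δ) (hδ1 : δ ≤ 1 / 4)
    {t t' : HT} (hc : cmp t ∨ cmp t') :
    ∫⁻ y, ‖(K.cl t t').pre (vl (htL t) y.1) (vl (htL t') y.2)‖ₑ *
        ENNReal.ofReal (∑ u : Bool × Bool, K.wt t t' (vl (htL t) y.1) (vl (htL t') y.2) u.1 u.2 *
          QG MF k ep e1 J A t t' y u) ≤
      ENNReal.ofReal (A * (C * C * CG) * (4 * KC δ) *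
        Real.exp (-((7 / 6 - e1 - 2 * δ) * Tb (Real.log k)))) := by
  have h1 := K.lint_le hC hCG hO hG hep hep1 he.le hA
    (g := fun y u => gU e1 J k t t' y u) (fun y u => gU_nonneg _ _ _ _ _ _ _) t t' Set.univ
  rw [Measure.restrict_univ] at h1
  refine h1.trans ?_
  refine (mul_le_mul' le_rfl (lint_comp he he1 hep hep1 hJ hT hδ hδ1 hc)).trans ?_
  rw [← ENNReal.ofReal_mul (by positivity)]
  refine ENNReal.ofReal_le_ofReal (le_of_eq ?_)
  ring

/-- own bound of `F` with a factor which is small in the bulk -/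
def OwnFLe (MF : ℕ → Bool → NUSp.Cl → ℂ → ℝ) (k : ℕ) (C : ℝ) (fF : ℝ → ℝ) : Prop :=
  ∀ (a i : Bool), (i = true → htP .F = true) → ∀ τ : ℝ,
    K.own a .F i (vl (htL .F) τ) * Real.exp (MF k a (clh .F i) (vl (htL .F) τ)) ≤
      C * Real.exp (-|τ|) * fF τ

/-- bare half quanta -/
def bare : HT → Prop
  | .W => True
  | .F => True
  | .P => False
  | .H => False

/-- the extra own factor -/
def fT (fF : ℝ → ℝ) (t : HT) (τ : ℝ) : ℝ := if t = .F then fF τ else 1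

theorem fT_nonneg {fF : ℝ → ℝ} (h : ∀ τ, 0 ≤ fF τ) (t : HT) (τ : ℝ) : 0 ≤ fT fF t τ := by
  unfold fT
  split_ifs
  · exact h τ
  · exact zero_le_one

theorem fT_le_one {fF : ℝ → ℝ} (h : ∀ τ, fF τ ≤ 1) (t : HT) (τ : ℝ) : fT fF t τ ≤ 1 := by
  unfold fT
  split_ifs
  · exact h τ
  · exact le_rfl

/-- the own bound of a bare half quantum with the extra factor -/
theorem own_bare (hO : K.OwnLe MF k ep C) {fF : ℝ → ℝ} (hF : K.OwnFLe MF k C fF) (a : Bool)
    {t : HT} (ht : bare t) (i : Bool) (hi : i = true → htP t = true) (τ : ℝ) :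
    K.own a t i (vl (htL t) τ) * Real.exp (MF k a (clh t i) (vl (htL t) τ)) ≤
      C * fT fF t τ * Real.exp (-|τ|) * cut (Real.log k) ep (qh t i) τ := by
  have hq : qh t i = 1 := by
    unfold qh
    cases t <;> cases i <;> simp_all [bare, clh, NUSp.qc]
  cases t
  · have h := hO a .W i hi τ
    unfold fT
    rw [if_neg (by simp), mul_one]
    exact h
  · have h := hF a i hi τ
    rw [hq]
    unfold fT NUGC.cut
    rw [if_pos rfl, if_pos rfl, mul_one]
    linarith [h, mul_right_comm C (Real.exp (-|τ|)) (fF τ)]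
  · exact absurd ht (by simp [bare])
  · exact absurd ht (by simp [bare])

/-- **one choice** of a class of bare half quanta with the extra factor -/
theorem choice_leF (hC : 0 ≤ C) (hCG : 0 ≤ CG) (hO : K.OwnLe MF k ep C) {fF : ℝ → ℝ}
    (f0 : ∀ τ, 0 ≤ fF τ) (hF : K.OwnFLe MF k C fF) (hG : DirLe CG) (hep : 0 ≤ ep)
    (hep' : ep ≤ 1 / 100) (he1 : 0 ≤ e1) {A : ℝ} (hA : 0 ≤ A) {g : ℝ} (hg : 0 ≤ g) {t t' : HT}
    (ht : bare t) (ht' : bare t') (y : ℝ × ℝ) (u : Bool × Bool) :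
    ‖(K.cl t t').pre (vl (htL t) y.1) (vl (htL t') y.2)‖ *
      (K.wt t t' (vl (htL t) y.1) (vl (htL t') y.2) u.1 u.2 * QF MF k ep e1 A t t' g y u) ≤
      A * (C * C * CG) * (FM ep e1 k y * (fT fF t y.1 * fT fF t' y.2 * g)) := by
  have hL := log_nonneg' k
  have g0 := FM_nonneg ep e1 k y
  have n1 := fT_nonneg f0 t y.1
  have n2 := fT_nonneg f0 t' y.2
  by_cases hf : (u.1 = true → htP t = true) ∧ (u.2 = true → htP t' = true)
  · obtain ⟨h, h'⟩ := hf
    have a1 := K.own_bare hO hF true ht u.1 h y.1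
    have a2 := K.own_bare hO hF false ht' u.2 h' y.2
    have a3 := hG 0 0 t t' u.1 u.2 h h' y.1 y.2
    have key := QX_use (q := qh t u.1) (q' := qh t' u.2) hL hep hep' he1 (TW_eq ep e1 k)
      (mul_nonneg (K.own_nonneg false t' u.2 (vl (htL t') y.2)) (Real.exp_pos _).le)
      (gO_nonneg 0 0 t t' u.1 u.2 _ _) (mul_nonneg hC n1) (mul_nonneg hC n2) hCG a1 a2 a3
    rw [← mul_assoc, K.pre_wt h h']
    unfold QF FM
    set E1 := Real.exp (MF k true (clh t u.1) (vl (htL t) y.1))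
    set E2 := Real.exp (MF k false (clh t' u.2) (vl (htL t') y.2))
    set k1 := K.own true t u.1 (vl (htL t) y.1)
    set k2 := K.own false t' u.2 (vl (htL t') y.2)
    set d := NUGC.PLX.gO 0 0 t t' u.1 u.2 (vl (htL t) y.1) (vl (htL t') y.2)
    set qx := QX (TW ep e1 k) (qh t u.1) (qh t' u.2) y.1 y.2
    set f := fr (TW ep e1 k) (Real.log k) y with hfr
    have f0 : 0 ≤ f := fr_nonneg _ _ _
    calc k1 * k2 * d * (A * (E1 * E2 * (f * qx)) * g)
        = A * f * g * (k1 * E1 * (k2 * E2) * d * qx) := by ring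
      _ ≤ A * f * g * (C * fT fF t y.1 * (C * fT fF t' y.2) * CG * MQ (TW ep e1 k) (y.1, y.2)) :=
          mul_le_mul_of_nonneg_left key (mul_nonneg (mul_nonneg hA f0) hg)
      _ = _ := by ring
  · have : K.wt t t' (vl (htL t) y.1) (vl (htL t') y.2) u.1 u.2 = 0 := by
      unfold wt
      rw [if_neg hf]
    rw [this, zero_mul, mul_zero]
    exact mul_nonneg (by positivity) (mul_nonneg g0 (mul_nonneg (mul_nonneg n1 n2) hg))

/-- only one choice is allowed for bare half quanta -/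
theorem sum_bare {t t' : HT} (ht : bare t) (ht' : bare t') (w w' : ℂ) (q : Bool × Bool → ℝ) :
    (∑ u : Bool × Bool, K.wt t t' w w' u.1 u.2 * q u) =
      K.wt t t' w w' false false * q (false, false) := by
  refine (Finset.sum_eq_single (false, false) (fun u _ hu => ?_) fun h =>
    absurd (mem_univ _) h).trans rfl
  have hw : K.wt t t' w w' u.1 u.2 = 0 := by
    unfold wt
    rw [if_neg]
    rintro ⟨h1, h2⟩
    obtain ⟨u1, u2⟩ := u
    cases t <;> cases t' <;> cases u1 <;> cases u2 <;> simp_all [htP, bare]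
  rw [hw, zero_mul]

/-- **the classes `F W`, `W F`, `F F`** -/
theorem int_F (hC : 0 ≤ C) (hCG : 0 ≤ CG) (hO : K.OwnLe MF k ep C) {fF : ℝ → ℝ}
    (f0 : ∀ τ, 0 ≤ fF τ) (f1 : ∀ τ, fF τ ≤ 1)
    (fs : ∀ τ : ℝ, |τ| ≤ (1 - e1) * Tb (Real.log k) →
      fF τ ≤ Real.exp (-(2 * (1 - e1) * Tb (Real.log k))))
    (hF : K.OwnFLe MF k C fF) (hG : DirLe CG) (hep : 0 ≤ ep) (hep1 : ep ≤ 1 / 100) (he : 0 < e1)
    (he1 : e1 ≤ 1 / 100) (hJ : 0 ≤ J) (hT : 20 ≤ Tb (Real.log k)) {A : ℝ} (hA : 0 ≤ A) {δ : ℝ}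
    (hδ : 0 < δ) (hδ1 : δ ≤ 1 / 4) {t t' : HT} (ht : bare t) (ht' : bare t')
    (hc : t = .F ∨ t' = .F) :
    ∫⁻ y, ‖(K.cl t t').pre (vl (htL t) y.1) (vl (htL t') y.2)‖ₑ *
        ENNReal.ofReal (∑ u : Bool × Bool, K.wt t t' (vl (htL t) y.1) (vl (htL t') y.2) u.1 u.2 *
          QG MF k ep e1 J A t t' y u) ≤
      ENNReal.ofReal (A * (C * C * CG) * KC δ *
        Real.exp (-((7 / 6 - e1 - 2 * δ) * Tb (Real.log k)))) := by
  obtain ⟨T1, T2⟩ := TW_b he he1 hep hep1 hJ hT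
  have hB : 0 ≤ A * (C * C * CG) := by positivity
  have key := PBO.PLX.cls_F he he1 hJ hT hδ hδ1 T1 T2 (phT_ge t false) (phT_ge t' false)
    (f := fun y => fT fF t y.1 * fT fF t' y.2)
    (fun z => mul_nonneg (fT_nonneg f0 _ _) (fT_nonneg f0 _ _))
    (fun z => mul_le_one₀ (fT_le_one f1 _ _) (fT_nonneg f0 _ _) (fT_le_one f1 _ _))
    (hc.imp (fun h z hz => by
      have h1 : fT fF t z.1 = fF z.1 := by
        unfold fT
        rw [if_pos h]
      show fT fF t z.1 * fT fF t' z.2 ≤ _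
      rw [h1]
      exact (mul_le_of_le_one_right (f0 _) (fT_le_one f1 _ _)).trans (fs _ hz))
      fun h z hz => by
      have h1 : fT fF t' z.2 = fF z.2 := by
        unfold fT
        rw [if_pos h]
      show fT fF t z.1 * fT fF t' z.2 ≤ _
      rw [h1]
      exact (mul_le_of_le_one_left (f0 _) (fT_le_one f1 _ _)).trans (fs _ hz))
  calc ∫⁻ y, ‖(K.cl t t').pre (vl (htL t) y.1) (vl (htL t') y.2)‖ₑ *
        ENNReal.ofReal (∑ u : Bool × Bool, K.wt t t' (vl (htL t) y.1) (vl (htL t') y.2) u.1 u.2 *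
          QG MF k ep e1 J A t t' y u)
      ≤ ∫⁻ y, ENNReal.ofReal (A * (C * C * CG)) *
          ENNReal.ofReal (fr (TW ep e1 k) (Real.log k) y * MQ (TW ep e1 k) y *
            (fT fF t y.1 * fT fF t' y.2 *
              Real.exp (-gnP e1 J k (phT t false) (phT t' false) y))) := by
        refine lintegral_mono fun y => ?_
        rw [K.sum_bare ht ht', ← ofReal_norm, ← ENNReal.ofReal_mul (norm_nonneg _),
          ← ENNReal.ofReal_mul hB]
        exact ENNReal.ofReal_le_ofReal (K.choice_leF hC hCG hO f0 hF hG hep hep1 he.le hA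
          (gU_nonneg _ _ _ _ _ _ _) ht ht' y (false, false))
    _ = ENNReal.ofReal (A * (C * C * CG)) * ∫⁻ y,
          ENNReal.ofReal (fr (TW ep e1 k) (Real.log k) y * MQ (TW ep e1 k) y *
            (fT fF t y.1 * fT fF t' y.2 *
              Real.exp (-gnP e1 J k (phT t false) (phT t' false) y))) :=
        lintegral_const_mul' _ _ ENNReal.ofReal_ne_top
    _ ≤ _ := by
        refine (mul_le_mul' le_rfl key).trans ?_
        rw [← ENNReal.ofReal_mul hB]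
        refine ENNReal.ofReal_le_ofReal (le_of_eq ?_)
        unfold KC
        ring

/-- **the class `W W` outside the near set** -/
theorem int_ww (hC : 0 ≤ C) (hCG : 0 ≤ CG) (hO : K.OwnLe MF k ep C) (hG : DirLe CG)
    (hep : 0 ≤ ep) (hep1 : ep ≤ 1 / 100) (he : 0 < e1) (he1 : e1 ≤ 1 / 100) (hJ : 0 ≤ J)
    (hT : 20 ≤ Tb (Real.log k)) {A : ℝ} (hA : 0 ≤ A) {δ : ℝ} (hδ : 0 < δ) (hδ1 : δ ≤ 1 / 4)
    {κ : ℝ} {S : Set (ℝ × ℝ)} (hS : MeasurableSet S)
    (hκ : ∀ z ∈ S, κ ≤ 2 * |z.1| + 2 * |z.2| + |z.1 - z.2| / 2) :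
    ∫⁻ y in S, ‖(K.cl .W .W).pre (vl (htL .W) y.1) (vl (htL .W) y.2)‖ₑ *
        ENNReal.ofReal (∑ u : Bool × Bool, K.wt .W .W (vl (htL .W) y.1) (vl (htL .W) y.2)
          u.1 u.2 * QG MF k ep e1 J A .W .W y u) ≤
      ENNReal.ofReal (A * (C * C * CG) * (4 * (δ⁻¹) ^ 2 * Real.exp 20 *
          Real.exp (-(κ - (6 * e1 + 4 * ep + 4 * δ) * Tb (Real.log k))) +
        3000 * (δ⁻¹) ^ 2 * Real.exp 6 *
          Real.exp (-((7 / 6 - e1 - 2 * δ) * Tb (Real.log k))))) := by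
  have hB : 0 ≤ A * (C * C * CG) := by positivity
  have key := PBO.PLX.cls_ww he he1 hJ hT hδ hδ1 hep hep1 (T := TW ep e1 k) rfl hS hκ
  calc ∫⁻ y in S, ‖(K.cl .W .W).pre (vl (htL .W) y.1) (vl (htL .W) y.2)‖ₑ *
        ENNReal.ofReal (∑ u : Bool × Bool, K.wt .W .W (vl (htL .W) y.1) (vl (htL .W) y.2)
          u.1 u.2 * QG MF k ep e1 J A .W .W y u)
      ≤ ∫⁻ y in S, ENNReal.ofReal (A * (C * C * CG)) *
          ENNReal.ofReal (fr (TW ep e1 k) (Real.log k) y * MQ (TW ep e1 k) y *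
            Real.exp (-gnP e1 J k (-(3 * l)) (-(3 * l)) y)) := by
        refine lintegral_mono fun y => ?_
        rw [K.sum_bare (t := .W) (t' := .W) trivial trivial, ← ofReal_norm,
          ← ENNReal.ofReal_mul (norm_nonneg _), ← ENNReal.ofReal_mul hB]
        exact ENNReal.ofReal_le_ofReal (K.choice_le hC hCG hO hG hep hep1 he.le hA
          (gU_nonneg _ _ _ _ _ _ _) .W .W y (false, false))
    _ = ENNReal.ofReal (A * (C * C * CG)) * ∫⁻ y in S,
          ENNReal.ofReal (fr (TW ep e1 k) (Real.log k) y * MQ (TW ep e1 k) y *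
            Real.exp (-gnP e1 J k (-(3 * l)) (-(3 * l)) y)) :=
        lintegral_const_mul' _ _ ENNReal.ofReal_ne_top
    _ ≤ _ := by
        refine (mul_le_mul' le_rfl key).trans ?_
        rw [← ENNReal.ofReal_mul hB]

/-- **the class `W W` in the window** -/
theorem near_ww (hC : 0 ≤ C) (hCG : 0 ≤ CG) (hO : K.OwnLe MF k ep C) (hG : DirLe CG)
    (hep : 0 ≤ ep) (hep1 : ep ≤ 1 / 100) (he : 0 < e1) (he1 : e1 ≤ 1 / 100) (hJ : 0 ≤ J)
    (hT : 20 ≤ Tb (Real.log k)) {A : ℝ} (hA : 0 ≤ A) {y : ℝ × ℝ} (h1 : |y.1| ≤ TW ep e1 k)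
    (h2 : |y.2| ≤ TW ep e1 k) :
    ‖(K.cl .W .W).pre (vl (htL .W) y.1) (vl (htL .W) y.2)‖ *
        (∑ u : Bool × Bool, K.wt .W .W (vl (htL .W) y.1) (vl (htL .W) y.2) u.1 u.2 *
          QG MF k ep e1 J A .W .W y u) ≤
      A * (C * C * CG) * (Real.exp (20 + (6 * e1 + 4 * ep) * Tb (Real.log k)) *
        Real.exp (-(2 * |y.1| + 2 * |y.2| + |y.1 - y.2| / 2))) := by
  have hT0 : 0 ≤ Tb (Real.log k) := by linarith
  have hB : 0 ≤ A * (C * C * CG) := by positivity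
  rw [K.sum_bare (t := .W) (t' := .W) trivial trivial]
  refine (K.choice_le hC hCG hO hG hep hep1 he.le hA (gU_nonneg _ _ _ _ _ _ _) .W .W y
    (false, false)).trans ?_
  refine mul_le_mul_of_nonneg_left ?_ hB
  unfold FM fr MQ
  rw [if_pos ⟨h1, h2⟩, if_pos ⟨h1, h2⟩, one_mul]
  show QI0 y * Real.exp (-gnP e1 J k (-(3 * l)) (-(3 * l)) y) ≤ _
  unfold QI0
  rw [← Real.exp_add, ← Real.exp_add]
  refine Real.exp_le_exp.2 ?_
  have g1 : min (|y.1|) (DC e1 k) + min (|y.2|) (DC e1 k) - 16 ≤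
      gnP e1 J k (-(3 * l)) (-(3 * l)) y := PBO.PLX.gnP_ww he he1 hJ hT y
  have hD : DC e1 k = (1 - e1) * Tb (Real.log k) - 2 := rfl
  have hTW : TW ep e1 k = (1 + 2 * e1 + 2 * ep) * Tb (Real.log k) := rfl
  have h3 : TW ep e1 k - DC e1 k = (3 * e1 + 2 * ep) * Tb (Real.log k) + 2 := by
    rw [hD, hTW]
    ring
  have hmin : ∀ x : ℝ, x ≤ TW ep e1 k → x - ((3 * e1 + 2 * ep) * Tb (Real.log k) + 2) ≤
      min x (DC e1 k) := by
    intro x hx
    refine le_min ?_ (by linarith)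
    have : 0 ≤ (3 * e1 + 2 * ep) * Tb (Real.log k) := by positivity
    linarith
  have h4 := hmin _ h1
  have h5 := hmin _ h2
  linarith

end KD

/-- **D1, D1'** -/
theorem int_D {kD : Bool → ℂ → ℂ} {MF : ℕ → Bool → NUSp.Cl → ℂ → ℝ} {k : ℕ} {ep e1 J : ℝ} {C : ℝ}
    (hC : 0 ≤ C) (hD : OwnDLe kD MF k C) (hep : 0 ≤ ep) (hep1 : ep ≤ 1 / 100) (he : 0 < e1)
    (he1 : e1 ≤ 1 / 100) (hJ : 0 ≤ J) (hT : 20 ≤ Tb (Real.log k)) {A : ℝ} (hA : 0 ≤ A)
    (o : Bool) :
    ∫⁻ y : ℝ, ‖kD o (vl (-(11 / 4) * l) y)‖ₑ * ENNReal.ofReal (QGD MF k ep e1 J A o y) ≤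
      ENNReal.ofReal (C * A * (40 / 3 * Real.exp 12) *
        Real.exp (-(2 * (1 - e1) * Tb (Real.log k)))) := by
  obtain ⟨T1, -⟩ := TW_b he he1 hep hep1 hJ hT
  have key := PBO.PLX.cls_D he he1 hJ hT T1 (φ := 2 * l) (by linarith [Bd.l_pos])
  have h := lintD_le hC hD (ep := ep) (e1 := e1) hA
    (g := fun y => Real.exp (-gnQ e1 J k (2 * l) y)) (fun y => (Real.exp_pos _).le) o
  refine h.trans ((mul_le_mul' le_rfl key).trans ?_)
  rw [← ENNReal.ofReal_mul (mul_nonneg hC hA)]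
  refine ENNReal.ofReal_le_ofReal (le_of_eq ?_)
  ring

/-- **the factor of `F` is small in the bulk** -/
theorem fF_small {c : ℝ} (hc : 0 < c) {e1 : ℝ} (he : 0 < e1) : ∃ k0 : ℕ, ∀ k ≥ k0, ∀ τ : ℝ,
    |τ| ≤ (1 - e1) * Tb (Real.log k) →
    Real.exp (-(c * (k * Real.exp (-(8 / 3) * |τ|)))) ≤
      Real.exp (-(2 * (1 - e1) * Tb (Real.log k))) := by
  -- `c k ^ e1 >= (3 / 4) log k`
  have hlim : Filter.Tendsto (fun k : ℕ => Real.log k / (k : ℝ) ^ e1) Filter.atTop (nhds 0) :=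
    ((isLittleO_log_rpow_atTop he).tendsto_div_nhds_zero).comp tendsto_natCast_atTop_atTop
  have hev := hlim.eventually (gt_mem_nhds (show (0 : ℝ) < c by exact hc))
  obtain ⟨k0, hk0⟩ := Filter.eventually_atTop.1 hev
  refine ⟨max k0 1, fun k hk τ hτ => Real.exp_le_exp.2 (neg_le_neg ?_)⟩
  have hk1 : (1 : ℝ) ≤ k := by exact_mod_cast (le_max_right _ _).trans hk
  have hk' : (0 : ℝ) < k := by linarith
  have hp : (0 : ℝ) < (k : ℝ) ^ e1 := Real.rpow_pos_of_pos hk' _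
  have h1 := hk0 k ((le_max_left _ _).trans hk)
  rw [div_lt_iff₀ hp] at h1
  have hL : 0 ≤ Real.log k := Real.log_nonneg hk1
  have h2 : (k : ℝ) ^ e1 ≤ k * Real.exp (-(8 / 3) * |τ|) := by
    have e : (k : ℝ) * Real.exp (-(8 / 3) * |τ|) =
        Real.exp (Real.log k + -(8 / 3) * |τ|) := by rw [Real.exp_add, Real.exp_log hk']
    rw [Real.rpow_def_of_pos hk', e]
    refine Real.exp_le_exp.2 ?_
    unfold Tb at hτ
    nlinarith
  have h3 : c * (k : ℝ) ^ e1 ≤ c * (k * Real.exp (-(8 / 3) * |τ|)) :=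
    mul_le_mul_of_nonneg_left h2 hc.le
  unfold Tb
  nlinarith

end PBQ.PLX

end
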