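import Pool.Agent.PLX.Ns
import Pool.Agent.PLX.PB.TRFin2

/-!
# (TR) along a ray, top level: integrability at the left end

* `PI_ev`: integrability at the left end from `UX famV`.
-/

set_option autoImplicit false
set_option linter.unusedSectionVars false

noncomputable section

open Complex MeasureTheory Set Filter Topology
open scoped ENNReal
open PLX (Fil)

namespace PBTRF.PLX

open NUP1 (l)
open PBF.PLX (FAN CfN wN mN)
open PBT3 (gF k1T)
open PBTR (nearS)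
open PBU.PLX (cr cr' FS UX UB)
open PBTV.PLX (Zv nFv okv famV)

attribute [local instance] NUSea.seaP

variable [Fil]

/-- **integrability at the left end** from a bound of the mass -/
theorem PI_of {ep e1 J M : ℝ} {k : ℕ} {τ : ℝ × ℝ}
    (h : FS famV ep e1 J k τ (fun _ => 1) (fun _ _ _ _ _ => 1) ≤ ENNReal.ofReal M) :
    PI ep e1 J k τ := by
  have hMC : ∀ n ≤ 2 * (k - 1), PBF.PLX.MC (Zv ep k τ) (NUSea.PLX.O.par0 k) (cr e1 J k) (cr' e1 J k) :=
    fun n _ => PBF.PLX.MC.of (PBX.PLX.ParC_par0 k).rm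
      (fun s q => PBX.PLX.measurable_ZL _ _ _ _ _ s q) (mCr_cr e1 J k)
  have hΨ : ∀ j ≤ 2 * (k - 1), PBF.PLX.MIn ((fun _ _ _ _ _ _ => (1 : ℂ) : ℕ → PBF.PLX.Ins) j) :=
    fun j _ r a b => measurable_const
  refine PBF.PLX.WIN_of (Ψ := fun _ _ _ _ _ _ => (1 : ℂ)) hMC hΨ ?_
  refine lt_of_le_of_lt (le_trans (le_of_eq ?_) h) ENNReal.ofReal_lt_top
  unfold FAN FS
  refine Finset.sum_congr rfl fun n _ => ?_
  rw [PBF.PLX.FA_eq_FE, one_mul]
  simp only [enorm_one]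
  rfl

/-- the same for all indices -/
theorem PI_ev (hV : UX famV) : ∃ a0 : ℝ, 0 < a0 ∧ ∀ ep e1 J : ℝ, 0 < ep → 0 < e1 → 0 ≤ J →
    Real.exp (-(2 * Real.pi * J)) + 3 * e1 + 3 * ep ≤ a0 →
    ∀ᶠ k : ℕ in atTop, ∀ τ : ℝ × ℝ, okv k τ → PI ep e1 J k τ := by
  obtain ⟨a0, ha0, h⟩ := hV 0 1 1 one_pos
  refine ⟨a0, ha0, fun ep e1 J hep he1 hJ hs => ?_⟩
  obtain ⟨m0, hm⟩ := (h ep e1 J hep he1 hJ hs).mass le_rfl
  filter_upwards [eventually_ge_atTop m0] with k hk τ hτ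
  exact PI_of (hm k hk τ hτ)

end PBTRF.PLX

end
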