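import Pool.Agent.PLX.Ns
import Pool.Agent.PLX.PB.TRFin
import Pool.Agent.PLX.NrmN
import Pool.Agent.PLX.NUGC.MasterC
import Pool.Agent.PLX.PB.Reg0

/-!
# (H1) of (TR) along a ray: the physical side

* `Yk k`: the normalised two-point function of `NL k` rows, cut rows `0` and `k`; `phk k`: the phase with the sign
  of the class side;
* **`phys_R0`**: the two-point function over the bulk term is the normaliser times the eleven integrals at rows `0`,
  `n` and `n + Fil.xn (k - 1)` quanta.
-/

set_option autoImplicit false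

noncomputable section

open Complex MeasureTheory Finset Filter

open PLX (Fil)

namespace PBTRF.PLX

open NUP1 (l)
open NUGC.PLX (beC)
open Pool.Agent.PLX (R0 nrmN phN WP BN W_gas bulkN h1_ofN norm_phN R0_Ok R0_Z)

variable [Fil]

theorem lt_NL (k : ℕ) : k < NL k := by
  unfold NL
  omega

/-- the normalised two-point function of `NL k` rows, cut rows `0` and `k` -/
def Yk (k : ℕ) : ℝ := nrmN (NL k) * (WP (lt_NL k)).re

/-- the phase, with the sign of the class side -/
def phk (k : ℕ) : ℂ := phN (NL k) * (-1) ^ Fil.xn (k - 1)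

theorem norm_phk (k : ℕ) : ‖phk k‖ = 1 := by
  unfold phk
  rw [norm_mul, norm_phN, norm_pow, norm_neg, norm_one, one_pow, one_mul]

/-- the physical function -/
theorem phys_R0 {k : ℕ} (hk : 1 ≤ k) {ep : ℝ} (hep : 0 < ep) (hep1 : ep ≤ 1 / 100) :
    2 ^ (NL k * (NL k - 1)) * (BN (NL k) ^ 2 * WP (lt_NL k)) / bulkN (NL k) =
      nr k * ∑ n ∈ range (2 * (k - 1) + 1),
        NUP1.N.E11 (3 / 5 * l) (-(17 / 10) * l) (R0 (k - 1) (beC ep) [I, -I] []).p
          (R0 (k - 1) (beC ep) [I, -I] []).q (R0 (k - 1) (beC ep) [I, -I] []).x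
          (R0 (k - 1) (beC ep) [I, -I] []).y (R0 (k - 1) (beC ep) [I, -I] []).hX
          (R0 (k - 1) (beC ep) [I, -I] []).hY n (n + Fil.xn (k - 1)) (31 / 50 * l) (-(11 / 4) * l) := by
  have hle : k - 1 ≤ Fil.q * (k - 1) := Nat.le_mul_of_pos_left _ Fil.q_pos
  have hx : Fil.q * (k - 1) - (k - 1) = Fil.xn (k - 1) := by
    have := Fil.add_xn (k - 1)
    omega
  have hO : (R0 (k - 1) (beC ep) [I, -I] []).Ok := R0_Ok (k - 1) (by unfold beC; linarith) (by unfold beC; linarith)
    (fun w hw => by
      have hl := PBR.l_pos'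
      have : w.re = 0 := by
        simp only [List.mem_cons, List.not_mem_nil, or_false] at hw
        rcases hw with rfl | rfl <;> simp
      rw [this, abs_zero]
      positivity) (by simp)
  have h := W_gas (m := k - 1) (M := Fil.q * (k - 1)) (N := NL k) (r := k) (by omega) rfl hle (lt_NL k)
    (a := 31 / 50) (Or.inl rfl) hO (by show 1 < beC ep; unfold beC; linarith) rfl rfl (R0_Z (k - 1) _ _ _)
  rw [h, hx]
  unfold nr
  ring

end PBTRF.PLX

end
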