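import Pool.Agent.PLX.PB.TRsDb
import Pool.Agent.PLX.PB.ClsCrv

/-!
# Plan B, (TR), s-path: congruence and signs of the functionals

* `FF_congrZ`: the functional depends on the one body functions at the quanta on the curves and at the objects only;
* `FF_sgn`: signs `(-1) ^ quanta`; `at_A`: the points of the curve are in the window `At none`.
-/

set_option autoImplicit false
set_option linter.unusedSectionVars false
set_option linter.unusedVariables false

noncomputable section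

open Complex MeasureTheory Finset
open scoped ENNReal
open PLX (Fil)

namespace PBTs.PLX

open NUO NUP1 NUCR NUP1S NUP1S.Ab NUP1S.AbC NUGC NUGC.PLX PBF PBF.PLX
open PBT3 (zz)
open PBTD (DelQ DelB DelB' sb KA)

variable [Fil]

/-! ### congruence -/

section congr

variable {Z Z' : Bool → Option O3 → ℂ → ℂ} {P : NUO.Par} {n n' : ℕ} {η η' : Crs}

theorem gK_congrZ {r : ℕ} {O : Fin r → Xo} {e e' : ℝ → ℝ}
    (h : ∀ s t, Z s none (NUO.pA (Fil.cv s e) t) = Z' s none (NUO.pA (Fil.cv s e) t)) {a b : ℕ}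
    (x : (Fin a → ℝ) × (Fin b → ℝ)) :
    PBF.PLX.gK (gF Z P O) e e' a b x = PBF.PLX.gK (gF Z' P O) e e' a b x := by
  unfold PBF.PLX.gK Fc
  rw [Fintype.prod_sum_type, Fintype.prod_sum_type]
  have e1 : ∀ (s : Bool) (t : ℝ),
      hh p0 (gF Z P O) (crvC s NUP1.l (dA (Fil.cv s e)) (dA (Fil.cv s e'))) t =
      hh p0 (gF Z' P O) (crvC s NUP1.l (dA (Fil.cv s e)) (dA (Fil.cv s e'))) t := by
    intro s t
    rw [hh_gF, hh_gF, h]
  simp only [cCt, Sum.elim_inl, Sum.elim_inr, e1]

theorem wK_congrZ {r : ℕ} {O : Fin r → Xo}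
    (h : ∀ i, PBF.PLX.obK Z P.jL (ei P O i) (rr P O i) (O i) = PBF.PLX.obK Z' P.jL (ei P O i) (rr P O i) (O i)) :
    PBF.PLX.wK Z P O = PBF.PLX.wK Z' P O := by
  unfold PBF.PLX.wK
  rw [Finset.prod_congr rfl fun i _ => h i]

/-- **the functional depends on the values on the curve and at the objects** -/
theorem FF_congrZ (Ψ : Ins) (hq : ∀ r ≤ n + n', ∀ᵐ O ∂(Measure.pi fun _ : Fin r => nu),
      ∀ s t, Z s none (NUO.pA (Fil.cv s (η r O)) t) = Z' s none (NUO.pA (Fil.cv s (η r O)) t))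
    (ho : ∀ r (O : Fin r → Xo) i,
      PBF.PLX.obK Z P.jL (ei P O i) (rr P O i) (O i) = PBF.PLX.obK Z' P.jL (ei P O i) (rr P O i) (O i)) :
    PBF.PLX.FF Z P n n' η η' Ψ = PBF.PLX.FF Z' P n n' η η' Ψ := by
  unfold PBF.PLX.FF
  refine Finset.sum_congr rfl fun r hr => ?_
  congr 1
  have hr' : r ≤ n + n' := by
    have := Finset.mem_range.1 hr
    omega
  refine integral_congr_ae ?_
  filter_upwards [hq r hr'] with O hO
  unfold PBF.PLX.trm
  split_ifs
  · rw [wK_congrZ (ho r O)]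
    simp only [gK_congrZ hO]
  · rfl

end congr

/-! ### signs -/

/-- the sign as a multiplicative insertion -/
def sgF : Bool → Option O3 → ℂ → ℂ := fun _ k _ => sgk k

theorem obF_sgF (jL e ρ : ℝ) (x : Xo) :
    obF sgF jL e ρ x = (-1) ^ (chg true x + chg false x) := by
  unfold obF sgF chg sgk
  rcases hk : kd x with _ | _ | _ | _ | _ <;> simp only [] <;> cases sp x <;> norm_num

theorem quF_sgF (e : ℝ → ℝ) {a b : ℕ} (x : (Fin a → ℝ) × (Fin b → ℝ)) :
    quF sgF e x = (-1) ^ (a + b) := by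
  unfold quF sgF sgk
  simp only [Finset.prod_const, Finset.card_univ, Fintype.card_fin]
  rw [pow_add]

section sgn

variable {Z : Bool → Option O3 → ℂ → ℂ} {P : NUO.Par} {n n' : ℕ} {η η' : Crs}

theorem Fa_sgF {r : ℕ} (O : Fin r → Xo) (a b : ℕ) (x : (Fin a → ℝ) × (Fin b → ℝ)) :
    Fa sgF P η r O a b x = (-1) ^ (chgO O true + chgO O false + (a + b)) := by
  unfold Fa
  rw [quF_sgF]
  simp only [obF_sgF]
  rw [Finset.prod_pow_eq_pow_sum, ← pow_add, Finset.sum_add_distrib]
  rfl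

theorem FF_sgn (Ψ : Ins) : PBF.PLX.FF (Zm Z sgF) P n n' η η' Ψ = (-1) ^ (n + n') * PBF.PLX.FF Z P n n' η η' Ψ := by
  unfold PBF.PLX.FF
  rw [Finset.mul_sum]
  refine Finset.sum_congr rfl fun r _ => ?_
  have e0 : ∀ O : Fin r → Xo, PBF.PLX.trm (Zm Z sgF) P n n' η η' Ψ r O =
      (-1) ^ (n + n') * PBF.PLX.trm Z P n n' η η' Ψ r O := by
    intro O
    rw [trm_mul]
    unfold PBF.PLX.trm
    split_ifs with h
    · obtain ⟨h1, h2⟩ := h
      have e : ∀ x, Fa sgF P η r O (n - chgO O true) (n' - chgO O false) x = (-1) ^ (n + n') := by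
        intro x
        rw [Fa_sgF]
        congr 1
        omega
      simp only [e]
      have e2 : ∀ x, PBF.PLX.gK (gF Z P O) (η r O) (η' r O) (n - chgO O true) (n' - chgO O false) x *
          ((-1) ^ (n + n') * Ψ r O (n - chgO O true) (n' - chgO O false) x) =
          (-1) ^ (n + n') * (PBF.PLX.gK (gF Z P O) (η r O) (η' r O) (n - chgO O true)
            (n' - chgO O false) x * Ψ r O (n - chgO O true) (n' - chgO O false) x) :=
        fun x => by ring
      simp only [e2]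
      rw [integral_const_mul]
      ring
    · rw [mul_zero]
  simp only [e0]
  rw [integral_const_mul]
  ring

end sgn

/-! ### regular = family at `s = 1` -/

/-- a point of the curve -/
theorem at_A {e : ℝ → ℝ} {t : ℝ} (h : |e t| ≤ NUP1.l / 5) : At none (NUO.pA e t) := by
  have hl := lp
  obtain ⟨h1, h2⟩ := abs_le.1 h
  show 3 / 5 * NUP1.l ≤ (vl (NUP1.l - e t) t).re ∧ (vl (NUP1.l - e t) t).re ≤ 6 / 5 * NUP1.l
  rw [vl_re]
  constructor <;> linarith

end PBTs.PLX

end
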