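import Pool.Agent.PLX.PB.TRsD2a
import Pool.Agent.PLX.PB.TRsD

/-!
# Plan B, (TR), s-path: regular functional = functional of the family at `s = 1`

* `ZW_pt`, `ZW_obK`: the one body functions on the curves and of the objects;
* `FF_WL'`: `FF (ZW ..) P n n' = (-1) ^ (n + n') * FF (expZ (ZLw ..) (DT w w') 1) P n n'`; **`FF_WL`**: numbers
  `n`, `n + Fil.xn k`, sign `(-1) ^ Fil.xn k`.
-/

set_option autoImplicit false
set_option linter.unusedSectionVars false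
set_option linter.unusedVariables false

noncomputable section

open Complex MeasureTheory Finset
open scoped ENNReal
open PLX (Fil)

namespace PBTs.PLX

open NUO NUP1 NUCR NUP1S NUP1S.Ab NUP1S.AbC NUGC NUGC.PLX PBF PBF.PLX
open PBT3 (zz)
open PBTD (DelQ DelB DelB' sb KA)

variable [Fil]

section WL

variable {w w' : ℂ} (hw : w.re = 5 / 4 * NUP1.l) (hw' : w'.re = 5 / 4 * NUP1.l)
include hw hw'

theorem ZW_pt (m : ℕ) (β : ℝ) (ex ex0 : List ℂ) (b : Bool) {k : Option O3} {u : ℂ} (hu : At k u) :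
    ZW m β ex ex0 w w' b k u =
      Zm (expZ (ZLw m β ex ex0 w w') (DT w w') 1) sgF b k u := by
  rw [ZW_eq hw hw' m β ex ex0 b hu]
  unfold Zm expZ sgF
  rw [one_mul]
  ring

theorem ZW_obK (m : ℕ) (β : ℝ) (ex ex0 : List ℂ) {jL e ρ : ℝ} (hO : OPar jL e ρ) (x : Xo) :
    PBF.PLX.obK (ZW m β ex ex0 w w') jL e ρ x =
      PBF.PLX.obK (Zm (expZ (ZLw m β ex ex0 w w') (DT w w') 1) sgF) jL e ρ x := by
  have H := fun b k u (hu : At k u) => ZW_pt hw hw' m β ex ex0 b hu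
  have aL := at_L hO.j1 hO.j2 (ht x)
  have aT := at_T (ht x)
  have aS := at_S hO.e1 hO.e2 (ht x)
  have aSV := at_SV hO.e1 hO.e2 (ht x)
  have aV := at_V hO.e1 hO.e2 hO.r1 hO.r2 (ht x) (an x)
  unfold PBF.PLX.obK
  rcases hk : kd x with _ | _ | _ | _ | _ <;> simp only []
  · rw [H _ _ _ aL.1]
  · rw [H _ _ _ aT.1]
  · rw [H _ _ _ aS.1]
  · rw [H _ _ _ aS.1, H _ _ _ aV.1]
  · rw [H _ _ _ aS.1, H _ _ _ aSV.1]

variable {P : NUO.Par} (hP : NUGC.PLX.ParC P) {n n' : ℕ} {η η' : Crs}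
include hP

/-- **regular functional = functional of the family at `s = 1`, with the sign** -/
theorem FF_WL' (m : ℕ) (β : ℝ) (ex ex0 : List ℂ)
    (hη : ∀ r ≤ n + n', ∀ᵐ O ∂(Measure.pi fun _ : Fin r => nu), ∀ t, |η r O t| ≤ NUP1.l / 5)
    (Ψ : Ins) : PBF.PLX.FF (ZW m β ex ex0 w w') P n n' η η' Ψ =
      (-1) ^ (n + n') * PBF.PLX.FF (expZ (ZLw m β ex ex0 w w') (DT w w') 1) P n n' η η' Ψ := by
  rw [← FF_sgn]
  refine FF_congrZ Ψ (fun r hr => ?_) fun r O i => ZW_obK hw hw' m β ex ex0 (OPar.of hP O i) _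
  filter_upwards [hη r hr] with O hO
  exact fun s t => ZW_pt hw hw' m β ex ex0 s (at_A (Fil.abs_cv_le_of (hO t)))

/-- **regular functional = functional of the family at `s = 1`**, numbers `n`, `n + Fil.xn k` -/
theorem FF_WL (m : ℕ) (β : ℝ) (ex ex0 : List ℂ) (k : ℕ)
    (hη : ∀ r ≤ n + (n + Fil.xn k), ∀ᵐ O ∂(Measure.pi fun _ : Fin r => nu),
      ∀ t, |η r O t| ≤ NUP1.l / 5)
    (Ψ : Ins) : PBF.PLX.FF (ZW m β ex ex0 w w') P n (n + Fil.xn k) η η' Ψ =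
      (-1) ^ Fil.xn k * PBF.PLX.FF (expZ (ZLw m β ex ex0 w w') (DT w w') 1) P n (n + Fil.xn k)
        η η' Ψ := by
  rw [FF_WL' hw hw' hP m β ex ex0 hη Ψ, ← add_assoc, pow_add, Even.neg_one_pow ⟨n, rfl⟩, one_mul]

end WL

end PBTs.PLX

end
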