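import Pool.Agent.PLX.PB.TRsD2a

/-!
# Plan B, (TR), s-path: bounds of the logarithms `DT w w'`

`M ≥ |Im w|, |Im w'|`; one constant `C`: `DT_le`: `‖DT w w' b k u‖ ≤ C (1 + M)` on the windows; `obT_le`: the same for
an object; `measurable_DelB'`; `Ks_At`: the strip of the quanta is in the window.
-/

set_option autoImplicit false
set_option linter.unusedSectionVars false
set_option linter.unusedVariables false

noncomputable section

open Complex MeasureTheory Finset
open scoped ENNReal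

namespace PBTs.PLX

open NUO NUP1 NUCR NUP1S NUP1S.Ab NUP1S.AbC NUGC NUGC.PLX PBF PBF.PLX
open PBT3 (zz)
open PBTD (DelQ DelB DelQ' DelB' sb KA ct)

/-! ### bounds -/

theorem norm_dch (x : Xo) : ‖dch x‖ ≤ 2 := by
  unfold dch chg
  rcases hk : kd x with _ | _ | _ | _ | _ <;> simp only [] <;> cases sp x <;> norm_num

/-- modulus of an object -/
theorem obT_le : ∃ C : ℝ, 0 ≤ C ∧ ∀ (w w' : ℂ) (M : ℝ), w.re = 5 / 4 * NUP1.l →
    w'.re = 5 / 4 * NUP1.l → |w.im| ≤ M → |w'.im| ≤ M → ∀ (jL e ρ : ℝ) (x : Xo), OPar jL e ρ →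
      ‖obT (DT w w') jL e ρ x‖ ≤ C * (1 + M) := by
  obtain ⟨C, hC, h⟩ := obT_lim
  refine ⟨C + 4, by positivity, ?_⟩
  intro w w' M hw hw' iw iw' jL e ρ x hO
  have hM : 0 ≤ M := (abs_nonneg _).trans iw
  have h1 := h w w' M hw hw' iw iw' jL e ρ x hO
  have h2 : C * (1 + M) * min 1 (Real.exp (2 * (M - |ht x|))) ≤ C * (1 + M) :=
    mul_le_of_le_one_right (by positivity) (min_le_left _ _)
  have h3 : ‖(sg1 (ht x) : ℂ) * (dch x * (I * (w - w')))‖ ≤ 2 * (2 * M) := by
    rw [norm_mul, norm_mul, norm_sg1, one_mul]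
    exact mul_le_mul (norm_dch x) (lim_le hw hw' iw iw') (norm_nonneg _) (by norm_num)
  have h4 := norm_sub_norm_le (obT (DT w w') jL e ρ x) ((sg1 (ht x) : ℂ) * (dch x * (I * (w - w'))))
  nlinarith

/-- all kinds, on the windows -/
theorem DT_le : ∃ C : ℝ, 0 ≤ C ∧ ∀ (w w' : ℂ) (M : ℝ), w.re = 5 / 4 * NUP1.l →
    w'.re = 5 / 4 * NUP1.l → |w.im| ≤ M → |w'.im| ≤ M → ∀ (b : Bool) (k : Option O3) (u : ℂ), At k u →
      ‖DT w w' b k u‖ ≤ C * (1 + M) := by
  obtain ⟨C, hC, h⟩ := DT_lim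
  refine ⟨C + 4, by positivity, ?_⟩
  intro w w' M hw hw' iw iw' b k u hu
  have hM : 0 ≤ M := (abs_nonneg _).trans iw
  have h1 := h w w' M hw hw' iw iw' b k u u.im hu (Or.inl rfl)
  have h2 : C * (1 + M) * min 1 (Real.exp (2 * (M - |u.im|))) ≤ C * (1 + M) :=
    mul_le_of_le_one_right (by positivity) (min_le_left _ _)
  have hk : ‖((ch k : ℝ) : ℂ)‖ ≤ 2 := by
    rw [Complex.norm_real]
    rcases k with _ | k
    · simp [ch]
    · cases k <;> simp [ch]
  have h3 : ‖(sg1 u.im : ℂ) * (ch k * (sb b * (I * (w - w'))))‖ ≤ 2 * (2 * M) := by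
    rw [norm_mul, norm_mul, norm_mul, norm_sg1, norm_sb, one_mul, one_mul]
    exact mul_le_mul hk (lim_le hw hw' iw iw') (norm_nonneg _) (by norm_num)
  have h4 := norm_sub_norm_le (DT w w' b k u) ((sg1 u.im : ℂ) * (ch k * (sb b * (I * (w - w')))))
  nlinarith

/-! ### the quanta -/

theorem measurable_DelQ' (w w' z : ℂ) : Measurable (DelQ' w w' z) := by
  have h : Measurable ct := by
    unfold PBTD.ct
    exact Complex.continuous_cos.measurable.div Complex.continuous_sin.measurable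
  have h1 : ∀ c : ℂ, Measurable fun u : ℂ => ct (c - u) := fun c =>
    h.comp (measurable_const.sub measurable_id)
  have h2 : ∀ c : ℂ, Measurable fun u : ℂ => ct (c + u) := fun c =>
    h.comp (measurable_const.add measurable_id)
  unfold PBTD.DelQ'
  exact (((((h2 _).add (h1 _)).const_mul 2).add (((h1 _).neg.sub (h1 _)).add (h1 _))).add
    (((h1 _).neg.sub (h2 _)).add (h1 _))).sub ((h1 _).neg.add (h1 _))

theorem measurable_DelB' (w w' z : ℂ) (b : Bool) : Measurable (DelB' w w' z b) := by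
  unfold PBTD.DelB'
  cases b
  · exact measurable_DelQ' w' w z
  · exact measurable_DelQ' w w' z

theorem Ks_At {δ : ℝ} (hδ : δ ≤ 1 / 5) {u : ℂ} (hu : u.re ∈ Ks δ) : At none u := by
  have hl := lp
  obtain ⟨h1, h2⟩ := hu
  show 3 / 5 * NUP1.l ≤ u.re ∧ u.re ≤ 6 / 5 * NUP1.l
  constructor
  · linarith
  · nlinarith

end PBTs.PLX

end
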