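import Pool.Agent.PLX.PB.TRsD3a
import Pool.Agent.PLX.PB.TRsB

/-!
# Plan B, (TR), s-path: the data of the path for `D = DT w w'`

* **`DT_PathD`**: `PathD` with the bound `C (1 + M)`, `M ≥ |Im w|, |Im w'|`, for measurable one body functions,
  parameters `ParC`, measurable curves `|η| ≤ l / 5`.
-/

set_option autoImplicit false
set_option linter.unusedSectionVars false
set_option linter.unusedVariables false

noncomputable section

open Complex MeasureTheory Finset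
open scoped ENNReal
open PLX (Fil)

namespace PBTs.PLX

open NUO NUP1 NUCR NUP1S NUP1S.Ab NUP1S.AbC NUGC NUGC.PLX PBF PBF.PLX
open PBT3 (zz)
open PBTD (DelQ DelB DelQ' DelB' sb KA ct)

variable [Fil]

/-- **the data of the path** -/
theorem DT_PathD : ∃ C : ℝ, 0 ≤ C ∧ ∀ (w w' : ℂ) (M : ℝ), w.re = 5 / 4 * NUP1.l →
    w'.re = 5 / 4 * NUP1.l → |w.im| ≤ M → |w'.im| ≤ M →
    ∀ (Z : ℕ → Bool → Option O3 → ℂ → ℂ) (P : ℕ → NUO.Par) (N : ℕ) (η η' : ℕ → Crs),
      (∀ n ≤ N, ∀ s k, Measurable (Z n s k)) → (∀ n ≤ N, ParC (P n)) → (∀ n ≤ N, MCr (η n) (η' n)) →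
      (∀ n ≤ N, ∀ (r : ℕ) (O : Fin r → Xo) t, |η n r O t| ≤ NUP1.l / 5) →
      PathD Z (fun _ => DT w w') P N η η' (C * (1 + M)) := by
  obtain ⟨C1, hC1, h1⟩ := obT_le
  obtain ⟨C2, hC2, h2⟩ := DT_le
  refine ⟨C1 + C2, by positivity, ?_⟩
  intro w w' M hw hw' iw iw' Z P N η η' hZ hP hc hη
  have hM : 0 ≤ M := (abs_nonneg _).trans iw
  have hM1 : 0 ≤ 1 + M := by linarith
  refine ⟨fun n hn => (hP n hn).rm, hZ, fun n hn s k => measurable_DT w w' s k, hc,
    by positivity, ?_, ?_⟩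
  · intro n hn r O s t
    refine (h2 w w' M hw hw' iw iw' s none _ (at_A (Fil.abs_cv_le_of (hη n hn r O t)))).trans ?_
    nlinarith
  · intro n hn r O i
    refine (h1 w w' M hw hw' iw iw' _ _ _ _ (OPar.of (hP n hn) O i)).trans ?_
    nlinarith

end PBTs.PLX

end
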