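import Pool.Agent.PLX.PB.TRsD4a
import Pool.Agent.PLX.PB.TRsD2b

/-!
# Plan B, (TR), s-path: the functional with moduli and nonnegative insertions

* **`FE_ZW`**: `FE (ZW ..) P n n' η η' φ = FE (expZ (ZLw ..) (DT w w') 1) P n n' η η' φ`.
-/

set_option autoImplicit false
set_option linter.unusedSectionVars false
set_option linter.unusedVariables false

noncomputable section

open Complex MeasureTheory Finset
open scoped ENNReal
open PLX (Fil)

namespace PBTs.PLX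

open NUO NUP1 NUCR NUP1S NUP1S.Ab NUP1S.AbC NUGC NUGC.PLX PBF PBF.PLX

variable [Fil]

variable {w w' : ℂ} (hw : w.re = 5 / 4 * NUP1.l) (hw' : w'.re = 5 / 4 * NUP1.l)
include hw hw'

theorem norm_ZW_pt (m : ℕ) (β : ℝ) (ex ex0 : List ℂ) (b : Bool) {k : Option O3} {u : ℂ}
    (hu : At k u) : ‖ZW m β ex ex0 w w' b k u‖ =
      ‖expZ (ZLw m β ex ex0 w w') (DT w w') 1 b k u‖ := by
  rw [ZW_pt hw hw' m β ex ex0 b hu]
  unfold Zm sgF
  rw [norm_mul, norm_sgk, mul_one]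

theorem norm_ZW_obK (m : ℕ) (β : ℝ) (ex ex0 : List ℂ) {jL e ρ : ℝ} (hO : OPar jL e ρ) (x : Xo) :
    ‖PBF.PLX.obK (ZW m β ex ex0 w w') jL e ρ x‖ =
      ‖PBF.PLX.obK (expZ (ZLw m β ex ex0 w w') (DT w w') 1) jL e ρ x‖ := by
  rw [ZW_obK hw hw' m β ex ex0 hO x, obK_mul, norm_mul, obF_sgF, norm_pow, norm_neg, norm_one,
    one_pow, mul_one]

variable {P : NUO.Par} (hP : NUGC.PLX.ParC P) {n n' : ℕ} {η η' : Crs}
include hP

/-- **nonnegative insertions** -/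
theorem FE_ZW (m : ℕ) (β : ℝ) (ex ex0 : List ℂ)
    (hη : ∀ r ≤ n + n', ∀ᵐ O ∂(Measure.pi fun _ : Fin r => nu), ∀ t, |η r O t| ≤ NUP1.l / 5)
    (φ : InsE) : PBF.PLX.FE (ZW m β ex ex0 w w') P n n' η η' φ =
      PBF.PLX.FE (expZ (ZLw m β ex ex0 w w') (DT w w') 1) P n n' η η' φ := by
  refine FE_congrN φ (fun r hr => ?_) fun r O i =>
    norm_ZW_obK hw hw' m β ex ex0 (OPar.of hP O i) _
  filter_upwards [hη r hr] with O hO
  exact fun s t => norm_ZW_pt hw hw' m β ex ex0 s (at_A (Fil.abs_cv_le_of (hO t)))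

end PBTs.PLX

end
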