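import Pool.Agent.PLX.PB.TRsD2
import Pool.Agent.PLX.PB.TRsD4b

/-!
# Plan B, (TR), s-path: the functional with moduli and nonnegative insertions

* `FE_congrN` (TRsD4a): the functional with moduli depends on the moduli of the one body functions at the quanta on the
  curve and at the objects;
* **`FE_WL`**: `FE (RZW (R0 ..) w w') φ = FE (expZ (ZLw ..) (DT w w') 1) φ`.
-/

set_option autoImplicit false
set_option linter.unusedSectionVars false
set_option linter.unusedVariables false

noncomputable section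

open Complex MeasureTheory Finset
open scoped ENNReal
open PLX (Fil)

namespace PBTs.PLX

open NUO NUP1 NUCR NUP1S NUP1S.Ab NUP1S.AbC NUGC NUGC.PLX PBF PBF.PLX

variable [Fil]

variable {w w' : ℂ} (hw : w.re = 5 / 4 * NUP1.l) (hw' : w'.re = 5 / 4 * NUP1.l)
include hw hw'

variable {P : NUO.Par} (hP : NUGC.PLX.ParC P) {n n' : ℕ} {η η' : Crs}
include hP

/-- **nonnegative insertions, regular function** -/
theorem FE_WL (m : ℕ) (β : ℝ) (ex ex0 : List ℂ)
    (hη : ∀ r ≤ n + n', ∀ᵐ O ∂(Measure.pi fun _ : Fin r => nu), ∀ t, |η r O t| ≤ NUP1.l / 5)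
    (φ : InsE) : PBF.PLX.FE (PBR.PLX.RZW (_root_.Pool.Agent.PLX.R0 m β ex ex0) w w') P n n' η η' φ =
      PBF.PLX.FE (expZ (ZLw m β ex ex0 w w') (DT w w') 1) P n n' η η' φ := by
  rw [ZW_RZW]
  exact FE_ZW hw hw' hP m β ex ex0 hη φ

end PBTs.PLX

end
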