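import Pool.Agent.PLX.PB.TRsD2a
import Pool.Agent.PLX.PB.HolU

/-!
# Plan B, (TR), s-path: the functional with moduli and nonnegative insertions, congruence

* `FE_congrN`: `FE` depends on the moduli of the one body functions on the curves and of the objects.
-/

set_option autoImplicit false
set_option linter.unusedSectionVars false
set_option linter.unusedVariables false

noncomputable section

open Complex MeasureTheory Finset
open scoped ENNReal
open PLX (Fil)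

namespace PBTs.PLX

open NUO NUP1 NUCR NUP1S NUP1S.Ab NUP1S.AbC NUGC NUGC.PLX PBF PBF.PLX

variable [Fil]

section congr

variable {Z Z' : Bool → Option O3 → ℂ → ℂ} {P : NUO.Par} {n n' : ℕ} {η η' : Crs}

theorem gK_congrN {r : ℕ} {O : Fin r → Xo} {e e' : ℝ → ℝ}
    (h : ∀ s t, ‖Z s none (NUO.pA (Fil.cv s e) t)‖ = ‖Z' s none (NUO.pA (Fil.cv s e) t)‖)
    {a b : ℕ}
    (x : (Fin a → ℝ) × (Fin b → ℝ)) :
    ‖PBF.PLX.gK (gF Z P O) e e' a b x‖ₑ = ‖PBF.PLX.gK (gF Z' P O) e e' a b x‖ₑ := by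
  rw [← ofReal_norm, ← ofReal_norm]
  congr 1
  unfold PBF.PLX.gK Fc
  rw [Fintype.prod_sum_type, Fintype.prod_sum_type]
  have e1 : ∀ (s : Bool) (t : ℝ),
      ‖hh p0 (gF Z P O) (crvC s NUP1.l (dA (Fil.cv s e)) (dA (Fil.cv s e'))) t‖ =
      ‖hh p0 (gF Z' P O) (crvC s NUP1.l (dA (Fil.cv s e)) (dA (Fil.cv s e'))) t‖ := by
    intro s t
    rw [hh_gF, hh_gF]
    simp only [norm_mul]
    rw [h]
  simp only [norm_mul, norm_prod, cCt, Sum.elim_inl, Sum.elim_inr, e1]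

theorem wK_congrN {r : ℕ} {O : Fin r → Xo}
    (h : ∀ i, ‖PBF.PLX.obK Z P.jL (ei P O i) (rr P O i) (O i)‖ =
      ‖PBF.PLX.obK Z' P.jL (ei P O i) (rr P O i) (O i)‖) :
    ‖PBF.PLX.wK Z P O‖ₑ = ‖PBF.PLX.wK Z' P O‖ₑ := by
  rw [← ofReal_norm, ← ofReal_norm]
  congr 1
  unfold PBF.PLX.wK
  rw [norm_mul, norm_mul, norm_prod, norm_prod, Finset.prod_congr rfl fun i _ => h i]

/-- **the functional with moduli depends on moduli** -/
theorem FE_congrN (φ : InsE) (hq : ∀ r ≤ n + n', ∀ᵐ O ∂(Measure.pi fun _ : Fin r => nu),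
      ∀ s t, ‖Z s none (NUO.pA (Fil.cv s (η r O)) t)‖ = ‖Z' s none (NUO.pA (Fil.cv s (η r O)) t)‖)
    (ho : ∀ r (O : Fin r → Xo) i, ‖PBF.PLX.obK Z P.jL (ei P O i) (rr P O i) (O i)‖ =
      ‖PBF.PLX.obK Z' P.jL (ei P O i) (rr P O i) (O i)‖) :
    PBF.PLX.FE Z P n n' η η' φ = PBF.PLX.FE Z' P n n' η η' φ := by
  unfold PBF.PLX.FE
  refine Finset.sum_congr rfl fun r hr => ?_
  congr 1
  have hr' : r ≤ n + n' := by
    have := Finset.mem_range.1 hr
    omega
  refine lintegral_congr_ae ?_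
  filter_upwards [hq r hr'] with O hO
  unfold PBF.PLX.trE
  split_ifs
  · rw [wK_congrN (ho r O)]
    simp only [gK_congrN hO]
  · rfl

end congr

theorem norm_sgk (k : Option O3) : ‖sgk k‖ = 1 := by
  rcases k with _ | k
  · simp [sgk]
  · cases k <;> simp [sgk]

end PBTs.PLX

end
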