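import Pool.Agent.PLX.Ns
import Pool.Agent.PB.TRsE
import Pool.Agent.PB.TRsO
import Pool.Agent.PB.TRDelG
import Pool.Agent.PLX.PB.TRsA

/-!
# Plan B, (TR), s-path: the logarithms of the ratio `regular spectators / legs`, all kinds

Half quanta at `w`, `w'` (`Re = 5 l / 4`), legs at `zz w w' = l - (w + w') / 2`.

* `aS`, `bS`: the ratio for a string is `sr aS bS`; for a quantum it is `- exp DelQ` (TRDel);
* **`DT`** : logarithms; `alg_Q`, `alg_S'`: ratio of the spectators (one body functions: `PLX/PB/TRsD`);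
* `measurable_DT`, `hasDerivAt_DT`, `DT_le`, **`obT_lim`**: `‖obT (DT w w') x - sgn (ht x) I (w - w')
  (chg true x - chg false x)‖ ≤ C (1 + M) min 1 (e^{2 (M - |ht x|)})`.
-/

set_option autoImplicit false
set_option linter.unusedSectionVars false
set_option linter.unusedVariables false

noncomputable section

open Complex Finset

namespace PBTs.PLX

open NUP1 (l vl)
open NUP1S (O3)
open NUP1.Leg (Ck Dk thE)
open NURow (CC DD RR)
open PBX (Lg thS)
open PBT3 (zz)
open PBTD (DelQ DelQ' DelB DelB' sb KA)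

theorem lp : 0 < l := NUP1.Bd.l_pos

theorem l8 : 8 * l = Real.pi := by unfold NUP1.l; ring

theorem lN : NUMF.l = l := rfl

/-! ### the ratio `regular spectators / legs` -/

theorem thE_zero (u : ℂ) : thE 0 0 0 0 u = sin (u + 3 * l) ^ 2 / sin (u - 2 * l) ^ 2 := by
  unfold NUP1.Leg.thE
  rw [show (0 : ℂ) - u + 2 * l = -(u - 2 * l) by ring, Complex.sin_neg, neg_mul_neg, sub_zero]
  ring

/-- zeros, a string -/
def aS (w w' : ℂ) : Fin 8 → ℂ :=
  ![5 * l, -(3 * l), -(2 * l), -(2 * l), w, w + 3 * l, zz w w' + 2 * l, zz w w' + 3 * l]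

/-- poles, a string -/
def bS (w w' : ℂ) : Fin 8 → ℂ :=
  ![2 * l, 2 * l, 3 * l, 3 * l, w' + 3 * l, w' - 2 * l, zz w w' - 3 * l, zz w w' - 2 * l]

theorem sum_S (w w' : ℂ) : ∑ i, (aS w w' i - bS w w' i) = 2 * (w - w') := by
  simp only [aS, bS, Fin.sum_univ_succ, Matrix.cons_val_zero, Matrix.cons_val_succ,
    Fin.sum_univ_zero, zz]
  rw [lN]
  ring

theorem pi_l : (8 : ℂ) * (l : ℂ) = Real.pi := by
  rw [← l8]
  push_cast
  ring

/-- `sin (z + 8 l) = - sin z` -/
theorem sin_8 (z : ℂ) : sin (z + 8 * l) = -sin z := by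
  rw [pi_l, Complex.sin_add_pi]

/-- a string -/
theorem alg_S {w w' u : ℂ} (h2 : sin (zz w w' - 2 * l - u) ≠ 0) (h3 : sin (zz w w' - 3 * l - u) ≠ 0)
    (h2' : sin (zz w w' + 2 * l - u) ≠ 0) (h3' : sin (zz w w' + 3 * l - u) ≠ 0) :
    thS 0 0 0 0 u * (CC (w - u) * DD (w' - u)) =
      Lg (zz w w') (zz w w') u * Lg (zz w w') (zz w w') (u - l) * sr (aS w w') (bS w w') u := by
  have e1 : sin (5 * (l : ℂ) - u) = -sin (-(3 * (l : ℂ)) - u) := by
    rw [show 5 * (l : ℂ) - u = (-(3 * l) - u) + 8 * l by ring, sin_8]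
  unfold thS Lg
  rw [thE_zero, thE_zero, show u - (l : ℂ) + 3 * l = -(-(2 * l) - u) by ring, Complex.sin_neg,
    show u + 3 * (l : ℂ) = -(-(3 * l) - u) by ring, Complex.sin_neg]
  unfold NURow.CC NURow.DD
  simp only [sr, aS, bS, Fin.prod_univ_succ, Matrix.cons_val_zero, Matrix.cons_val_succ,
    Fin.prod_univ_zero, mul_one]
  rw [e1, show u - 2 * (l : ℂ) = -(2 * l - u) by ring, Complex.sin_neg,
    show u - l - 2 * (l : ℂ) = -(3 * l - u) by ring, Complex.sin_neg,
    show w - u + 3 * (l : ℂ) = w + 3 * l - u by ring,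
    show 3 * (l : ℂ) + (w' - u) = w' + 3 * l - u by ring,
    show 2 * (l : ℂ) - (w' - u) = -(w' - 2 * l - u) by ring, Complex.sin_neg,
    show zz w w' - u - 3 * (l : ℂ) = zz w w' - 3 * l - u by ring,
    show zz w w' - u + 2 * (l : ℂ) = zz w w' + 2 * l - u by ring,
    show zz w w' - (u - l) - 3 * (l : ℂ) = zz w w' - 2 * l - u by ring,
    show zz w w' - (u - l) + 2 * (l : ℂ) = zz w w' + 3 * l - u by ring]
  generalize sin (zz w w' - 2 * l - u) = Y2 at h2 ⊢
  generalize sin (zz w w' - 3 * l - u) = Y3 at h3 ⊢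
  generalize sin (zz w w' + 2 * l - u) = Z2 at h2' ⊢
  generalize sin (zz w w' + 3 * l - u) = Z3 at h3' ⊢
  generalize sin (-(3 * (l : ℂ)) - u) = A
  generalize sin (-(2 * (l : ℂ)) - u) = A2
  generalize sin (2 * (l : ℂ) - u) = B
  generalize sin (3 * (l : ℂ) - u) = B3
  generalize sin (w - u) = W0
  generalize sin (w + 3 * l - u) = W3
  generalize sin (w' + 3 * l - u) = V3
  generalize sin (w' - 2 * l - u) = V2
  have hz : Y3 / Z2 * (Y2 / Z3) * ((Z2 / Y3) * (Z3 / Y2)) = 1 := by field_simp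
  calc (-A) ^ 2 / (-B) ^ 2 * ((-A2) ^ 2 / (-B3) ^ 2) * (W0 * W3 * (1 / (V3 * -V2))) =
      (-A) ^ 2 / (-B) ^ 2 * ((-A2) ^ 2 / (-B3) ^ 2) * (W0 * W3 * (1 / (V3 * -V2))) *
        (Y3 / Z2 * (Y2 / Z3) * ((Z2 / Y3) * (Z3 / Y2))) := by
        rw [hz, mul_one]
    _ = _ := by
        rw [neg_sq, neg_sq, neg_sq, neg_sq]
        simp only [div_eq_mul_inv, mul_inv, inv_neg]
        ring

/-! ### positions -/

/-- window for a kind: strip of the quanta and the satellites, lines of the objects -/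
def At : Option O3 → ℂ → Prop
  | none, u => 3 / 5 * l ≤ u.re ∧ u.re ≤ 6 / 5 * l
  | some .L, u => -(17 / 10 * l) ≤ u.re ∧ u.re ≤ -(5 / 4 * l)
  | some .T, u => u.re = -(1 / 2 * l)
  | some .S, u => -(13 / 10 * l) ≤ u.re ∧ u.re ≤ -(11 / 10 * l)

/-- away from the zeros of the sine -/
def Aw (z : ℂ) : Prop := l / 20 ≤ |z.re| ∧ |z.re| ≤ 8 * l - l / 20

/-- the constant of the lower bounds -/
def kap0 : ℝ := Real.sin (l / 20) / 2

theorem kap0_pos : 0 < kap0 := by
  have hl := lp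
  have h8 := l8
  have := Real.sin_pos_of_pos_of_lt_pi (x := l / 20) (by positivity) (by (clear * - hl h8; linarith))
  unfold kap0
  positivity

theorem kap0_le : kap0 ≤ 1 := by
  unfold kap0
  clear * -
  linarith [Real.sin_le_one (l / 20)]

theorem Aw.low {z : ℂ} (h : Aw z) : kap0 * Real.exp |z.im| ≤ ‖sin z‖ := by
  have hl := lp
  have h8 := l8
  obtain ⟨h1, h2⟩ := h
  refine le_trans ?_ (PBR.norm_sin_ge z)
  refine mul_le_mul_of_nonneg_right ?_ (Real.exp_pos _).le
  unfold kap0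
  have h3 : Real.sin (l / 20) ≤ Real.sin |z.re| := by
    rcases le_total |z.re| (4 * l) with h4 | h4
    · exact Real.sin_le_sin_of_le_of_le_pi_div_two (by (clear * - hl h8; linarith)) (by (clear * - h8 h4; linarith)) h1
    · rw [← Real.sin_pi_sub |z.re|]
      exact Real.sin_le_sin_of_le_of_le_pi_div_two (by (clear * - hl h8; linarith)) (by (clear * - h8 h4; linarith)) (by (clear * - h8 h2; linarith))
  have h5 : Real.sin |z.re| ≤ |Real.sin z.re| := by
    rcases le_total 0 z.re with h6 | h6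
    · rw [abs_of_nonneg h6]
      exact le_abs_self _
    · rw [abs_of_nonpos h6, Real.sin_neg]
      exact neg_le_abs _
  clear * - h3 h5
  linarith

theorem Aw.ne {z : ℂ} (h : Aw z) : sin z ≠ 0 := by
  intro h0
  have h1 := h.low
  have h2 := mul_pos kap0_pos (Real.exp_pos |z.im|)
  rw [h0, norm_zero] at h1
  linarith

theorem Aw.of {z : ℂ} {x y : ℝ} (h1 : x * l ≤ z.re) (h2 : z.re ≤ y * l) (h : 1 / 20 ≤ x)
    (h' : y ≤ 159 / 20) : Aw z := by
  have hl := lp
  have h0 : 0 ≤ z.re := by (clear * - h1 hl h; nlinarith)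
  unfold Aw
  rw [abs_of_nonneg h0]
  constructor <;> (clear * - h1 h hl h2 h'; nlinarith)

theorem Aw.of' {z : ℂ} {x y : ℝ} (h1 : x * l ≤ z.re) (h2 : z.re ≤ y * l) (h : -(159 / 20) ≤ x)
    (h' : y ≤ -(1 / 20)) : Aw z := by
  have hl := lp
  have h0 : z.re ≤ 0 := by (clear * - h2 hl h'; nlinarith)
  unfold Aw
  rw [abs_of_nonpos h0]
  constructor <;> (clear * - h2 h' hl h1 h; nlinarith)

section pos

variable {w w' u : ℂ} (hw : w.re = 5 / 4 * l) (hw' : w'.re = 5 / 4 * l)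
include hw hw'

theorem zz_re : (zz w w').re = -(l / 4) := by
  unfold PBT3.zz
  rw [lN, sub_re, Complex.ofReal_re, show ((w + w') / 2).re = (w.re + w'.re) / 2 by simp, hw, hw']
  ring

theorem re_aS (i : Fin 8) :
    (aS w w' i).re = (![5, -3, -2, -2, 5 / 4, 17 / 4, 7 / 4, 11 / 4] : Fin 8 → ℝ) i * l := by
  have hz := zz_re hw hw'
  fin_cases i
  · show (5 * (l : ℂ)).re = 5 * l
    simp
  · show (-(3 * (l : ℂ))).re = -3 * l
    simp
  · show (-(2 * (l : ℂ))).re = -2 * l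
    simp
  · show (-(2 * (l : ℂ))).re = -2 * l
    simp
  · show w.re = 5 / 4 * l
    exact hw
  · show (w + 3 * (l : ℂ)).re = 17 / 4 * l
    simp [hw]
    ring
  · show (zz w w' + 2 * (l : ℂ)).re = 7 / 4 * l
    simp [hz]
    ring
  · show (zz w w' + 3 * (l : ℂ)).re = 11 / 4 * l
    simp [hz]
    ring

theorem re_bS (i : Fin 8) :
    (bS w w' i).re = (![2, 2, 3, 3, 17 / 4, -(3 / 4), -(13 / 4), -(9 / 4)] : Fin 8 → ℝ) i * l := by
  have hz := zz_re hw hw'
  fin_cases i
  · show (2 * (l : ℂ)).re = 2 * l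
    simp
  · show (2 * (l : ℂ)).re = 2 * l
    simp
  · show (3 * (l : ℂ)).re = 3 * l
    simp
  · show (3 * (l : ℂ)).re = 3 * l
    simp
  · show (w' + 3 * (l : ℂ)).re = 17 / 4 * l
    simp [hw']
    ring
  · show (w' - 2 * (l : ℂ)).re = -(3 / 4) * l
    simp [hw']
    ring
  · show (zz w w' - 3 * (l : ℂ)).re = -(13 / 4) * l
    simp [hz]
    ring
  · show (zz w w' - 2 * (l : ℂ)).re = -(9 / 4) * l
    simp [hz]
    ring

omit hw hw' in
theorem re_win {c u : ℂ} {α x y : ℝ} (hc : c.re = α * l) (h1 : x * l ≤ u.re) (h2 : u.re ≤ y * l) :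
    (α - y) * l ≤ (c - u).re ∧ (c - u).re ≤ (α - x) * l := by
  rw [sub_re, hc]
  constructor <;> linarith

omit hw hw' in
theorem Aw.or {z : ℂ} {x y : ℝ} (h1 : x * l ≤ z.re) (h2 : z.re ≤ y * l)
    (h : (1 / 20 ≤ x ∧ y ≤ 159 / 20) ∨ (-(159 / 20) ≤ x ∧ y ≤ -(1 / 20))) : Aw z := by
  rcases h with h | h
  · exact Aw.of h1 h2 h.1 h.2
  · exact Aw.of' h1 h2 h.1 h.2

theorem aw_aS (hu : At (some .T) u ∨ At (some .S) u) (i : Fin 8) : Aw (aS w w' i - u) := by
  have hl := lp
  have h : -(13 / 10) * l ≤ u.re ∧ u.re ≤ -(1 / 2) * l := by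
    rcases hu with hu | hu
    · have hu' : u.re = -(1 / 2 * l) := hu
      constructor <;> (clear * - hl hu'; linarith)
    · constructor <;> (clear * - hu hl; linarith [hu.1, hu.2])
  obtain ⟨h1, h2⟩ := re_win (re_aS hw hw' i) h.1 h.2
  refine Aw.or h1 h2 ?_
  fin_cases i <;> simp <;> norm_num

theorem aw_bS (hu : At (some .T) u ∨ At (some .S) u) (i : Fin 8) : Aw (bS w w' i - u) := by
  have hl := lp
  rcases hu with hu | hu
  · have hu' : u.re = -(1 / 2 * l) := hu
    obtain ⟨h1, h2⟩ := re_win (u := u) (x := -(1 / 2)) (y := -(1 / 2)) (re_bS hw hw' i)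
      (by linarith) (by linarith)
    refine Aw.or h1 h2 ?_
    fin_cases i <;> simp <;> norm_num
  · obtain ⟨h1, h2⟩ := re_win (u := u) (x := -(13 / 10)) (y := -(11 / 10)) (re_bS hw hw' i)
      (by (clear * - hu; linarith [hu.1])) (by (clear * - hu; linarith [hu.2]))
    refine Aw.or h1 h2 ?_
    fin_cases i <;> simp <;> norm_num

end pos

/-! ### the logarithms -/

/-- logarithms of all kinds, species X -/
def DX (w w' : ℂ) : Option O3 → ℂ → ℂ
  | none, u => DelQ w w' (zz w w') u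
  | some .L, u => DelQ w w' (zz w w') u
  | some .T, u => plog (aS w w') (bS w w') (sg1 u.im * (2 * (I * (w - w')))) u
  | some .S, u => plog (aS w w') (bS w w') (sg1 u.im * (2 * (I * (w - w')))) u

/-- **the logarithms** of `(-1) ^ quanta * (regular spectators / legs)` -/
def DT (w w' : ℂ) : Bool → Option O3 → ℂ → ℂ
  | true => DX w w'
  | false => DX w' w

/-- the sign: `-1` to the number of quanta -/
def sgk : Option O3 → ℂ
  | none => -1
  | some .L => -1
  | some .T => 1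
  | some .S => 1

theorem DT_none (w w' : ℂ) (b : Bool) : DT w w' b none = DelB w w' (zz w w') b := by
  cases b
  · show DelQ w' w (zz w' w) = _
    rw [PBTD.zz_comm w' w]
    rfl
  · rfl

theorem DT_L (w w' : ℂ) (b : Bool) : DT w w' b (some .L) = DelB w w' (zz w w') b := by
  cases b
  · show DelQ w' w (zz w' w) = _
    rw [PBTD.zz_comm w' w]
    rfl
  · rfl

section pos3

variable {w w' u : ℂ} (hw : w.re = 5 / 4 * l) (hw' : w'.re = 5 / 4 * l)
include hw hw'

/-- one quantum -/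
theorem alg_Q (hu : u.re ∈ KA) : thE 0 0 0 0 u * (Ck (w - u) * Dk (w' - u)) =
    -(Lg (zz w w') (zz w w') u) * exp (DelQ w w' (zz w w') u) := by
  have hz : (zz w w').re = -(1 / 4 * NUMF.l) := by
    rw [zz_re hw hw', lN]
    ring
  rw [← PBTD.exp_DelQ hw hw' hz hu]
  ring

theorem KA_none (hu : At none u) : u.re ∈ KA := by
  have hl := lp
  obtain ⟨h1, h2⟩ := hu
  constructor
  · rw [lN]
    clear * - hl h1
    linarith
  · rw [lN]
    exact h2

theorem KA_L (hu : At (some .L) u) : u.re ∈ KA := by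
  have hl := lp
  obtain ⟨h1, h2⟩ := hu
  constructor
  · rw [lN]
    exact h1
  · rw [lN]
    clear * - hl h2
    linarith

/-- a string -/
theorem exp_S (hu : At (some .T) u ∨ At (some .S) u) (lam : ℂ) :
    exp (plog (aS w w') (bS w w') lam u) = sr (aS w w') (bS w w') u :=
  exp_plog (sr_ne (fun i => (aw_aS hw hw' hu i).ne) fun i => (aw_bS hw hw' hu i).ne)

theorem alg_S' (hu : At (some .T) u ∨ At (some .S) u) (lam : ℂ) :
    thS 0 0 0 0 u * (CC (w - u) * DD (w' - u)) =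
      Lg (zz w w') (zz w w') u * Lg (zz w w') (zz w w') (u - l) *
        exp (plog (aS w w') (bS w w') lam u) := by
  rw [exp_S hw hw' hu]
  exact alg_S (aw_bS hw hw' hu 7).ne (aw_bS hw hw' hu 6).ne (aw_aS hw hw' hu 6).ne
    (aw_aS hw hw' hu 7).ne

end pos3

/-! ### measurability -/

theorem measurable_sr {n : ℕ} (a b : Fin n → ℂ) : Measurable (sr a b) := by
  unfold sr
  refine Finset.measurable_prod _ fun i _ => ?_
  exact (Complex.continuous_sin.measurable.comp (measurable_const.sub measurable_id)).div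
    (Complex.continuous_sin.measurable.comp (measurable_const.sub measurable_id))

theorem measurable_plog {n : ℕ} (a b : Fin n → ℂ) (c : ℂ) :
    Measurable fun u : ℂ => plog a b (sg1 u.im * c) u := by
  unfold plog
  have h1 : Measurable fun u : ℂ => ((sg1 u.im : ℝ) : ℂ) * c :=
    (Complex.measurable_ofReal.comp (measurable_sg1.comp Complex.measurable_im)).mul_const c
  exact h1.add (Complex.measurable_log.comp
    ((measurable_sr a b).mul (Complex.measurable_exp.comp h1.neg)))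

theorem measurable_DelQ (w w' z : ℂ) : Measurable (DelQ w w' z) := by
  have h : Measurable Pool.Agent.PB.LSn :=
    Complex.measurable_log.comp Complex.continuous_sin.measurable
  have h1 : ∀ c : ℂ, Measurable fun u : ℂ => Pool.Agent.PB.LSn (c - u) := fun c =>
    h.comp (measurable_const.sub measurable_id)
  have h2 : ∀ c : ℂ, Measurable fun u : ℂ => Pool.Agent.PB.LSn (c + u) := fun c =>
    h.comp (measurable_const.add measurable_id)
  unfold PBTD.DelQ PBTD.thL PBTD.DzL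
  exact ((((h2 _).sub (h1 _)).const_mul 2).add (((h1 _).add (h1 _)).sub (h1 _))).add
    (((h1 _).sub (h2 _)).sub (h1 _)) |>.sub ((h1 _).sub (h1 _))

theorem measurable_DX (w w' : ℂ) (k : Option O3) : Measurable (DX w w' k) := by
  rcases k with _ | k
  · exact measurable_DelQ _ _ _
  · cases k
    · exact measurable_DelQ _ _ _
    · exact measurable_plog _ _ _
    · exact measurable_plog _ _ _

/-- **measurability of the logarithms** -/
theorem measurable_DT (w w' : ℂ) (b : Bool) (k : Option O3) : Measurable (DT w w' b k) := by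
  cases b
  · exact measurable_DX w' w k
  · exact measurable_DX w w' k

/-! ### limits -/

theorem Iww {w w' : ℂ} (hw : w.re = 5 / 4 * l) (hw' : w'.re = 5 / 4 * l) :
    I * (w - w') = ((-(w.im - w'.im) : ℝ) : ℂ) := by
  have e1 : w - w' = (w.im - w'.im : ℝ) * I := by
    apply Complex.ext
    · simp [hw, hw']
    · simp
  rw [e1]
  push_cast
  linear_combination ((w.im : ℂ) - w'.im) * I_mul_I

theorem abs_sb (b : Bool) : |sb b| = 1 := by
  cases b <;> simp [PBTD.sb]

theorem zz_im {w w' : ℂ} {M : ℝ} (iw : |w.im| ≤ M) (iw' : |w'.im| ≤ M) : |(zz w w').im| ≤ M := by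
  have e : (zz w w').im = -((w.im + w'.im) / 2) := by
    unfold PBT3.zz
    rw [sub_im, Complex.ofReal_im, show ((w + w') / 2).im = (w.im + w'.im) / 2 by simp]
    ring
  rw [e, abs_neg]
  have h1 := abs_le.1 iw
  have h2 := abs_le.1 iw'
  rw [abs_le]
  constructor <;> linarith [h1.1, h1.2, h2.1, h2.2]

theorem sg1_or (x : ℝ) : sg1 x = 1 ∨ sg1 x = -1 := by
  unfold sg1
  split_ifs
  · exact Or.inr rfl
  · exact Or.inl rfl

theorem sg1_mul (x : ℝ) : sg1 x * x = |x| := by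
  rcases lt_or_ge x 0 with h | h
  · rw [sg1_neg h, abs_of_neg h]
    ring
  · rw [sg1_nonneg h, abs_of_nonneg h, one_mul]

theorem exp_two_le : Real.exp 2 ≤ 9 := by
  have h6 := Real.exp_one_lt_d9
  have h7 : Real.exp 2 = Real.exp 1 * Real.exp 1 := by
    rw [← Real.exp_add]
    norm_num
  have h9 := Real.exp_pos 1
  rw [h7]
  nlinarith

/-- modulus of the limit -/
theorem lim_le {w w' : ℂ} {M : ℝ} (hw : w.re = 5 / 4 * l) (hw' : w'.re = 5 / 4 * l)
    (iw : |w.im| ≤ M) (iw' : |w'.im| ≤ M) : ‖I * (w - w')‖ ≤ 2 * M := by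
  rw [Iww hw hw', Complex.norm_real, Real.norm_eq_abs, abs_neg]
  exact (abs_sub _ _).trans (by linarith)

theorem norm_sg1 (x : ℝ) : ‖((sg1 x : ℝ) : ℂ)‖ = 1 := by
  rw [Complex.norm_real, Real.norm_eq_abs, abs_sg1]

theorem norm_sb (b : Bool) : ‖((sb b : ℝ) : ℂ)‖ = 1 := by
  rw [Complex.norm_real, Real.norm_eq_abs, abs_sb]

/-- **one quantum**: bounds, derivative, limit -/
theorem DelB_all : ∃ C : ℝ, 0 ≤ C ∧ ∀ (w w' : ℂ) (M : ℝ), w.re = 5 / 4 * l → w'.re = 5 / 4 * l →
    |w.im| ≤ M → |w'.im| ≤ M → ∀ (b : Bool) (u : ℂ), u.re ∈ KA →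
    HasDerivAt (DelB w w' (zz w w') b) (DelB' w w' (zz w w') b u) u ∧
    ‖DelB' w w' (zz w w') b u‖ ≤ C ∧ ‖DelB w w' (zz w w') b u‖ ≤ C * (1 + M) ∧
    ∀ t : ℝ, |u.im - t| ≤ 1 →
      ‖DelB w w' (zz w w') b u - sg1 t * (sb b * (I * (w - w')))‖ ≤
        C * (1 + M) * min 1 (Real.exp (2 * (M - |t|))) ∧
      ‖DelB' w w' (zz w w') b u‖ ≤ C * min 1 (Real.exp (2 * (M - |t|))) := by
  obtain ⟨C0, hC0, h⟩ := PBTD.DelB_lim
  refine ⟨9 * C0 + 2, by positivity, ?_⟩
  intro w w' M hw hw' iw iw' b u hu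
  have hM : 0 ≤ M := (abs_nonneg _).trans iw
  have hz : (zz w w').re = -(1 / 4 * NUMF.l) := by
    rw [zz_re hw hw', lN]
    ring
  obtain ⟨h1, h2, h3, h4⟩ := h w w' (zz w w') M hw hw' hz iw iw' (zz_im iw iw') b u hu
  have cc : C0 ≤ 9 * C0 + 2 := by (clear * - hC0; linarith)
  have hm : C0 * (1 + M) ≤ (9 * C0 + 2) * (1 + M) := by (clear * - hC0 hM; nlinarith)
  refine ⟨h1, h3.trans cc, h4.trans hm, fun t ht => ?_⟩
  obtain ⟨h5, h6⟩ := h2 (sg1 t) (sg1_or t)
  have e1 : |t| - 1 ≤ sg1 t * u.im := by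
    have e2 : sg1 t * u.im = |t| + sg1 t * (u.im - t) := by
      rw [← sg1_mul t]
      ring
    have e3 : -1 ≤ sg1 t * (u.im - t) := by
      have e4 : |sg1 t * (u.im - t)| ≤ 1 := by rwa [abs_mul, abs_sg1, one_mul]
      exact (abs_le.1 e4).1
    linarith
  have e5 : Real.exp (2 * (M - sg1 t * u.im)) ≤ 9 * Real.exp (2 * (M - |t|)) := by
    calc Real.exp (2 * (M - sg1 t * u.im)) ≤ Real.exp (2 + 2 * (M - |t|)) :=
          Real.exp_le_exp.2 (by linarith)
      _ = Real.exp 2 * Real.exp (2 * (M - |t|)) := Real.exp_add _ _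
      _ ≤ _ := mul_le_mul_of_nonneg_right exp_two_le (Real.exp_pos _).le
  have e6 : (((-(sg1 t * sb b * (w.im - w'.im)) : ℝ)) : ℂ) = sg1 t * (sb b * (I * (w - w'))) := by
    rw [Iww hw hw']
    push_cast
    ring
  rw [e6] at h5
  have e0 := Real.exp_pos (2 * (M - |t|))
  rcases le_or_gt M |t| with h7 | h7
  · have h8 : min 1 (Real.exp (2 * (M - |t|))) = Real.exp (2 * (M - |t|)) := by
      refine min_eq_right ?_
      rw [Real.exp_le_one_iff]
      linarith
    rw [h8]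
    constructor
    · refine h5.trans ((mul_le_mul_of_nonneg_left e5 hC0).trans ?_)
      have h9 : 9 * C0 ≤ (9 * C0 + 2) * (1 + M) := by (clear * - hM hC0; nlinarith)
      clear * - e0 h9
      nlinarith
    · refine h6.trans ((mul_le_mul_of_nonneg_left e5 hC0).trans ?_)
      clear * - e0
      nlinarith
  · have h8 : min 1 (Real.exp (2 * (M - |t|))) = 1 :=
      min_eq_left (Real.one_le_exp (by linarith))
    rw [h8, mul_one, mul_one]
    constructor
    · refine (norm_sub_le _ _).trans ?_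
      have h9 : ‖(sg1 t : ℂ) * (sb b * (I * (w - w')))‖ ≤ 2 * M := by
        rw [norm_mul, norm_mul, norm_sg1, norm_sb, one_mul, one_mul]
        exact lim_le hw hw' iw iw'
      clear * - hC0 h4 h9 hM
      nlinarith
    · exact h3.trans cc

/-- number of quanta of a kind -/
def ch : Option O3 → ℝ
  | none => 1
  | some .L => 1
  | some .T => 2
  | some .S => 2

theorem im_aS {w w' : ℂ} {M : ℝ} (iw : |w.im| ≤ M) (iw' : |w'.im| ≤ M) (i : Fin 8) :
    |(aS w w' i).im| ≤ M := by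
  have hz := zz_im iw iw'
  have hM : 0 ≤ M := (abs_nonneg _).trans iw
  fin_cases i
  · show |(5 * (l : ℂ)).im| ≤ M
    simpa using hM
  · show |(-(3 * (l : ℂ))).im| ≤ M
    simpa using hM
  · show |(-(2 * (l : ℂ))).im| ≤ M
    simpa using hM
  · show |(-(2 * (l : ℂ))).im| ≤ M
    simpa using hM
  · exact iw
  · show |(w + 3 * (l : ℂ)).im| ≤ M
    simpa using iw
  · show |(zz w w' + 2 * (l : ℂ)).im| ≤ M
    simpa using hz
  · show |(zz w w' + 3 * (l : ℂ)).im| ≤ M
    simpa using hz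

theorem im_bS {w w' : ℂ} {M : ℝ} (iw : |w.im| ≤ M) (iw' : |w'.im| ≤ M) (i : Fin 8) :
    |(bS w w' i).im| ≤ M := by
  have hz := zz_im iw iw'
  have hM : 0 ≤ M := (abs_nonneg _).trans iw
  fin_cases i
  · show |(2 * (l : ℂ)).im| ≤ M
    simpa using hM
  · show |(2 * (l : ℂ)).im| ≤ M
    simpa using hM
  · show |(3 * (l : ℂ)).im| ≤ M
    simpa using hM
  · show |(3 * (l : ℂ)).im| ≤ M
    simpa using hM
  · show |(w' + 3 * (l : ℂ)).im| ≤ M
    simpa using iw'
  · show |(w' - 2 * (l : ℂ)).im| ≤ M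
    simpa using iw'
  · show |(zz w w' - 3 * (l : ℂ)).im| ≤ M
    simpa using hz
  · show |(zz w w' - 2 * (l : ℂ)).im| ≤ M
    simpa using hz

/-- strings -/
theorem plogS_le {w w' u : ℂ} {M : ℝ} (hw : w.re = 5 / 4 * l) (hw' : w'.re = 5 / 4 * l)
    (iw : |w.im| ≤ M) (iw' : |w'.im| ≤ M) (hu : At (some .T) u ∨ At (some .S) u) :
    ‖plog (aS w w') (bS w w') (sg1 u.im * (2 * (I * (w - w')))) u -
        sg1 u.im * (2 * (I * (w - w')))‖ ≤
      cP 8 kap0 * (1 + M) * min 1 (Real.exp (2 * (M - |u.im|))) := by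
  have hM : 0 ≤ M := (abs_nonneg _).trans iw
  refine plog_le (s := sg1 u.im) kap0_pos kap0_le hM (sg1_or _) (sg1_mul _) ?_
    (fun i => (aw_aS hw hw' hu i).low) (fun i => (aw_bS hw hw' hu i).low) (im_aS iw iw')
    (im_bS iw iw')
  unfold lam0
  rw [sum_S]
  congr 1
  ring

/-- **the limits of the logarithms**, all kinds -/
theorem DT_lim : ∃ C : ℝ, 0 ≤ C ∧ ∀ (w w' : ℂ) (M : ℝ), w.re = 5 / 4 * l → w'.re = 5 / 4 * l →
    |w.im| ≤ M → |w'.im| ≤ M → ∀ (b : Bool) (k : Option O3) (u : ℂ) (t : ℝ), At k u →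
    (u.im = t ∨ k = none ∧ |u.im - t| ≤ 1) →
      ‖DT w w' b k u - sg1 t * (ch k * (sb b * (I * (w - w'))))‖ ≤
        C * (1 + M) * min 1 (Real.exp (2 * (M - |t|))) := by
  obtain ⟨C0, hC0, h⟩ := DelB_all
  have hP := cP_nonneg (n := 8) kap0_pos kap0_le
  refine ⟨C0 + cP 8 kap0, by positivity, ?_⟩
  intro w w' M hw hw' iw iw' b k u t hu ht
  have hM : 0 ≤ M := (abs_nonneg _).trans iw
  have hm : 0 ≤ min 1 (Real.exp (2 * (M - |t|))) := le_min zero_le_one (Real.exp_pos _).le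
  have c1 : C0 * (1 + M) * min 1 (Real.exp (2 * (M - |t|))) ≤
      (C0 + cP 8 kap0) * (1 + M) * min 1 (Real.exp (2 * (M - |t|))) := by
    gcongr
    linarith
  have c2 : cP 8 kap0 * (1 + M) * min 1 (Real.exp (2 * (M - |t|))) ≤
      (C0 + cP 8 kap0) * (1 + M) * min 1 (Real.exp (2 * (M - |t|))) := by
    gcongr
    linarith
  have hS : ∀ k : O3, (k = .T ∨ k = .S) → At (some k) u → u.im = t →
      ‖DT w w' b (some k) u - sg1 t * (2 * (sb b * (I * (w - w'))))‖ ≤
        cP 8 kap0 * (1 + M) * min 1 (Real.exp (2 * (M - |t|))) := by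
    intro k hk hu ht
    subst ht
    have hu' : At (some .T) u ∨ At (some .S) u := by
      rcases hk with rfl | rfl
      · exact Or.inl hu
      · exact Or.inr hu
    cases b
    · have h1 := plogS_le hw' hw iw' iw hu'
      have e1 : (sg1 u.im : ℂ) * (2 * (I * (w' - w))) =
          sg1 u.im * (2 * (sb false * (I * (w - w')))) := by
        simp only [PBTD.sb, Bool.false_eq_true, if_false]
        push_cast
        ring
      rcases hk with rfl | rfl
      · show ‖plog (aS w' w) (bS w' w) (sg1 u.im * (2 * (I * (w' - w)))) u - _‖ ≤ _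
        rw [← e1]
        exact h1
      · show ‖plog (aS w' w) (bS w' w) (sg1 u.im * (2 * (I * (w' - w)))) u - _‖ ≤ _
        rw [← e1]
        exact h1
    · have h1 := plogS_le hw hw' iw iw' hu'
      have e1 : (sg1 u.im : ℂ) * (2 * (I * (w - w'))) =
          sg1 u.im * (2 * (sb true * (I * (w - w')))) := by
        simp only [PBTD.sb, if_true]
        push_cast
        ring
      rcases hk with rfl | rfl
      · show ‖plog (aS w w') (bS w w') (sg1 u.im * (2 * (I * (w - w')))) u - _‖ ≤ _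
        rw [← e1]
        exact h1
      · show ‖plog (aS w w') (bS w w') (sg1 u.im * (2 * (I * (w - w')))) u - _‖ ≤ _
        rw [← e1]
        exact h1
  rcases k with _ | k
  · have h1 : |u.im - t| ≤ 1 := by
      rcases ht with rfl | h1
      · simp
      · exact h1.2
    rw [DT_none]
    refine le_trans (le_of_eq ?_)
      ((((h w w' M hw hw' iw iw' b u (KA_none hw hw' hu)).2.2.2 t h1).1).trans c1)
    show ‖_ - _ * (((1 : ℝ) : ℂ) * _)‖ = _
    rw [Complex.ofReal_one, one_mul]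
  · have ht' : u.im = t := by
      rcases ht with h1 | h1
      · exact h1
      · exact absurd h1.1 (by simp)
    cases k
    · rw [DT_L]
      have h1 : |u.im - t| ≤ 1 := by rw [ht']; simp
      refine le_trans (le_of_eq ?_)
        ((((h w w' M hw hw' iw iw' b u (KA_L hw hw' hu)).2.2.2 t h1).1).trans c1)
      show ‖_ - _ * (((1 : ℝ) : ℂ) * _)‖ = _
      rw [Complex.ofReal_one, one_mul]
    · refine le_trans (le_of_eq ?_) ((hS .S (Or.inr rfl) hu ht').trans c2)
      show ‖_ - _ * (((2 : ℝ) : ℂ) * _)‖ = _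
      rw [Complex.ofReal_ofNat]
    · refine le_trans (le_of_eq ?_) ((hS .T (Or.inl rfl) hu ht').trans c2)
      show ‖_ - _ * (((2 : ℝ) : ℂ) * _)‖ = _
      rw [Complex.ofReal_ofNat]

/-! ### objects -/

open NUO

theorem vl_re (σ t : ℝ) : (vl σ t).re = σ := by simp [NUP1.vl]

theorem vl_im (σ t : ℝ) : (vl σ t).im = t := by simp [NUP1.vl]

theorem at_L {jL : ℝ} (h1 : 9 / 4 ≤ jL) (h2 : jL ≤ 27 / 10) (t : ℝ) :
    At (some .L) (posL jL t) ∧ (posL jL t).im = t := by
  have hl := lp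
  refine ⟨?_, vl_im _ _⟩
  show -(17 / 10 * l) ≤ (vl ((1 - jL) * l) t).re ∧ (vl ((1 - jL) * l) t).re ≤ -(5 / 4 * l)
  rw [vl_re]
  constructor <;> (clear * - h2 hl h1; nlinarith)

theorem at_T (t : ℝ) : At (some .T) (posT t) ∧ (posT t).im = t :=
  ⟨vl_re _ _, vl_im _ _⟩

theorem posS_re (e t : ℝ) : (posS e t).re = -((1 + e) * l) := vl_re _ _

theorem posS_im (e t : ℝ) : (posS e t).im = t := vl_im _ _

theorem at_S {e : ℝ} (h1 : 1 / 10 ≤ e) (h2 : e ≤ 3 / 10) (t : ℝ) :
    At (some .S) (posS e t) ∧ (posS e t).im = t := by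
  have hl := lp
  refine ⟨?_, posS_im _ _⟩
  show -(13 / 10 * l) ≤ (posS e t).re ∧ (posS e t).re ≤ -(11 / 10 * l)
  rw [posS_re]
  constructor <;> (clear * - h2 hl h1; nlinarith)

theorem at_SV {e : ℝ} (h1 : 1 / 10 ≤ e) (h2 : e ≤ 3 / 10) (t : ℝ) :
    At none (posS e t + 2 * l) ∧ (posS e t + 2 * l).im = t := by
  have hl := lp
  constructor
  · show 3 / 5 * l ≤ (posS e t + 2 * l).re ∧ (posS e t + 2 * l).re ≤ 6 / 5 * l
    have : (posS e t + 2 * (l : ℂ)).re = -((1 + e) * l) + 2 * l := by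
      rw [add_re, posS_re]
      simp
    rw [this]
    constructor <;> (clear * - hl h2 h1; nlinarith)
  · rw [add_im, posS_im]
    simp

theorem circ_im (ρ a : ℝ) : (ρ * Complex.exp (2 * Real.pi * a * I)).im =
    ρ * Real.sin (2 * Real.pi * a) := by
  rw [show (2 * Real.pi * a * I : ℂ) = ((2 * Real.pi * a : ℝ) : ℂ) * I by push_cast; ring,
    Complex.im_ofReal_mul, Complex.exp_ofReal_mul_I_im]

theorem at_V {e ρ : ℝ} (h1 : 1 / 10 ≤ e) (h2 : e ≤ 3 / 10) (h3 : 0 ≤ ρ) (h4 : ρ ≤ l / 10)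
    (t a : ℝ) : At none (posV e ρ t a) ∧ |(posV e ρ t a).im - t| ≤ 1 := by
  have hl := lp
  have h8 := l8
  have hp := Real.pi_lt_four
  constructor
  · show 3 / 5 * l ≤ (posV e ρ t a).re ∧ (posV e ρ t a).re ≤ 6 / 5 * l
    rw [NUO.posV_re59]
    have c1 := Real.neg_one_le_cos (2 * Real.pi * a)
    have c2 := Real.cos_le_one (2 * Real.pi * a)
    have e1 : (1 - e) * NUP1.l = NUP1.l - e * NUP1.l := by ring
    rw [e1]
    constructor <;> (clear * - h4 h2 h3 c1 hl h1 c2; nlinarith)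
  · have e1 : (posV e ρ t a).im = t + ρ * Real.sin (2 * Real.pi * a) := by
      unfold NUO.posV
      rw [add_im, circ_im, add_im, posS_im]
      simp
    rw [e1, add_sub_cancel_left, abs_mul, abs_of_nonneg h3]
    have c1 := Real.abs_sin_le_one (2 * Real.pi * a)
    have c2 := abs_nonneg (Real.sin (2 * Real.pi * a))
    clear * - h4 h8 hp h3 c1
    nlinarith

/-- the parameters of an object -/
structure OPar (jL e ρ : ℝ) : Prop where
  j1 : 9 / 4 ≤ jL
  j2 : jL ≤ 27 / 10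
  e1 : 1 / 10 ≤ e
  e2 : e ≤ 3 / 10
  r1 : 0 ≤ ρ
  r2 : ρ ≤ l / 10

/-- the total charge of an object: quanta X minus quanta Y -/
def dch (x : Xo) : ℂ := (chg true x : ℂ) - chg false x

/-- **the logarithm of an object against its limit** -/
theorem obT_lim : ∃ C : ℝ, 0 ≤ C ∧ ∀ (w w' : ℂ) (M : ℝ), w.re = 5 / 4 * l → w'.re = 5 / 4 * l →
    |w.im| ≤ M → |w'.im| ≤ M → ∀ (jL e ρ : ℝ) (x : Xo), OPar jL e ρ →
      ‖PBF.PLX.obT (DT w w') jL e ρ x - sg1 (ht x) * (dch x * (I * (w - w')))‖ ≤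
        C * (1 + M) * min 1 (Real.exp (2 * (M - |ht x|))) := by
  obtain ⟨C0, hC0, h⟩ := DT_lim
  refine ⟨3 * C0, by positivity, ?_⟩
  intro w w' M hw hw' iw iw' jL e ρ x hO
  have hM : 0 ≤ M := (abs_nonneg _).trans iw
  have hm : 0 ≤ min 1 (Real.exp (2 * (M - |ht x|))) := le_min zero_le_one (Real.exp_pos _).le
  set E := min 1 (Real.exp (2 * (M - |ht x|))) with hE
  have hE0 : 0 ≤ C0 * (1 + M) * E := by positivity
  have H := fun b k u => h w w' M hw hw' iw iw' b k u (ht x)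
  have aL := at_L hO.j1 hO.j2 (ht x)
  have aT := at_T (ht x)
  have aS := at_S hO.e1 hO.e2 (ht x)
  have aSV := at_SV hO.e1 hO.e2 (ht x)
  have aV := at_V hO.e1 hO.e2 hO.r1 hO.r2 (ht x) (an x)
  have sbn : ∀ b, ((sb (!b) : ℝ) : ℂ) = -(sb b : ℝ) := by
    intro b
    cases b <;> simp [PBTD.sb]
  unfold PBF.PLX.obT
  rcases hk : kd x with _ | _ | _ | _ | _ <;> simp only []
  · have h1 := H (sp x) (some .L) _ aL.1 (Or.inl aL.2)
    have e1 : dch x = ((ch (some .L) : ℝ) : ℂ) * (sb (sp x) : ℝ) := by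
      unfold dch chg ch
      rw [hk]
      cases sp x <;> simp [PBTD.sb]
    rw [e1, mul_assoc]
    refine h1.trans ?_
    linarith
  · have h1 := H (sp x) (some .T) _ aT.1 (Or.inl aT.2)
    have e1 : dch x = ((ch (some .T) : ℝ) : ℂ) * (sb (sp x) : ℝ) := by
      unfold dch chg ch
      rw [hk]
      cases sp x <;> simp [PBTD.sb]
    rw [e1, mul_assoc]
    refine h1.trans ?_
    linarith
  · have h1 := H (sp x) (some .S) _ aS.1 (Or.inl aS.2)
    have e1 : dch x = ((ch (some .S) : ℝ) : ℂ) * (sb (sp x) : ℝ) := by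
      unfold dch chg ch
      rw [hk]
      cases sp x <;> simp [PBTD.sb]
    rw [e1, mul_assoc]
    refine h1.trans ?_
    linarith
  · have h1 := H (sp x) (some .S) _ aS.1 (Or.inl aS.2)
    have h2 := H (!sp x) none _ aV.1 (Or.inr ⟨rfl, aV.2⟩)
    have e1 : dch x = ((ch (some .S) : ℝ) : ℂ) * (sb (sp x) : ℝ) +
        ((ch none : ℝ) : ℂ) * (sb (!sp x) : ℝ) := by
      rw [sbn]
      unfold dch chg ch
      rw [hk]
      cases sp x <;> simp [PBTD.sb] <;> ring
    have e2 : DT w w' (sp x) (some .S) (posS e (ht x)) +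
        DT w w' (!sp x) none (posV e ρ (ht x) (an x)) - sg1 (ht x) * (dch x * (I * (w - w'))) =
        (DT w w' (sp x) (some .S) (posS e (ht x)) -
          sg1 (ht x) * (ch (some .S) * (sb (sp x) * (I * (w - w'))))) +
        (DT w w' (!sp x) none (posV e ρ (ht x) (an x)) -
          sg1 (ht x) * (ch none * (sb (!sp x) * (I * (w - w'))))) := by
      rw [e1]
      ring
    rw [e2]
    refine (norm_add_le _ _).trans ?_
    linarith
  · have h1 := H (sp x) (some .S) _ aS.1 (Or.inl aS.2)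
    have h2 := H (!sp x) none _ aSV.1 (Or.inl aSV.2)
    have e1 : dch x = ((ch (some .S) : ℝ) : ℂ) * (sb (sp x) : ℝ) +
        2 * (((ch none : ℝ) : ℂ) * (sb (!sp x) : ℝ)) := by
      rw [sbn]
      unfold dch chg ch
      rw [hk]
      cases sp x <;> simp [PBTD.sb]
    have e2 : DT w w' (sp x) (some .S) (posS e (ht x)) +
        2 * DT w w' (!sp x) none (posS e (ht x) + 2 * l) -
          sg1 (ht x) * (dch x * (I * (w - w'))) =
        (DT w w' (sp x) (some .S) (posS e (ht x)) -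
          sg1 (ht x) * (ch (some .S) * (sb (sp x) * (I * (w - w'))))) +
        2 * (DT w w' (!sp x) none (posS e (ht x) + 2 * l) -
          sg1 (ht x) * (ch none * (sb (!sp x) * (I * (w - w'))))) := by
      rw [e1]
      ring
    rw [e2]
    refine (norm_add_le _ _).trans ?_
    rw [norm_mul, Complex.norm_two]
    linarith

end PBTs.PLX

end
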