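import Pool.Agent.PLX.Ns
import Pool.Agent.PLX.PB.TRsV
import Pool.Agent.PLX.PB.QRepU
import Pool.Agent.PB.TRsFa

/-!
# Plan B, (TR): the error on the s-path and (H3) (helper55)

* `MeanP`, `PathP`, `ErrP`: the outputs of `TRsN` (helper39) and `TRsG` (helper80) as propositions;
* `xbd_v`: the field is admissible for the quadratic term;
* `lin_bd`, `quad_bd`: the two parts of the error under `UB`;
* `hE_v`: `‖nF' - (s q + p) nF‖ ≤ k^e Er (e^{|τ₁+τ₂|})^{1-s} (e^{-mT} / |k1|)^s`;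
* **`h3_v`**: the conclusion (H3) between the two ends of the path.
-/

set_option autoImplicit false
set_option linter.unusedSectionVars false

noncomputable section

open Complex MeasureTheory Finset Filter
open scoped ENNReal
open PLX (Fil)

namespace PBTV.PLX

open NUO NUP1 NUP1S NUP1S.Ab NUP1S.AbC NUGC NUGC.PLX PBFunc PBFunc.PLX PBF PBF.PLX PBU PBU.PLX PBP PBP.PLX

/-! ### the field -/

theorem meas_BB {ι : Type*} [Fintype ι] (κ : ℝ) (c a : ι → ℂ) : Measurable (PBT3.BB κ c a) := by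
  unfold PBT3.BB
  refine measurable_const.mul (Finset.measurable_fun_sum _ fun j _ => measurable_const.mul ?_)
  refine Complex.measurable_log.comp (Complex.continuous_cos.measurable.comp ?_)
  exact measurable_const.mul (measurable_const.add (measurable_const.mul measurable_id))

theorem meas_be (w w' : ℂ) (b : Bool) : Measurable (PBT3.be w w' b) := by
  unfold PBT3.be
  exact measurable_const.mul ((meas_BB _ _ _).add (measurable_const.mul (meas_BB _ _ _)))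

theorem G5_v (τ : ℝ × ℝ) : PBT3.G5 (wa τ) (wb τ) := ⟨PBT3.wt_re _, PBT3.wt_re _⟩

theorem MM_v (τ : ℝ × ℝ) : PBT3.MM (wa τ) (wb τ) = Mv τ := by
  unfold PBT3.MM Mv wa wb
  rw [PBT3.wt_im, PBT3.wt_im]

theorem MvF_nonneg (τ : ℝ × ℝ) : 0 ≤ Mv τ := (abs_nonneg _).trans (le_max_left _ _)

theorem Szv_pos {k : ℕ} (hk : 1 ≤ k) (τ : ℝ × ℝ) : 0 < Szv k τ := by
  have : (0 : ℝ) < k := by exact_mod_cast hk
  unfold Szv
  positivity

theorem mn_le_WL {L : ℝ} (x : ℝ) : PBTs.mn L x ≤ PB.WL L x := by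
  unfold PBTs.mn PB.WL
  rcases le_total 0 (L - |x|) with h | h
  · rw [min_eq_left (Real.one_le_exp h), min_eq_left (Real.one_le_exp (by linarith))]
  · refine min_le_min le_rfl (Real.exp_le_exp.2 (by linarith))

theorem meas_Pc : Measurable NUMF.Pc := by
  unfold NUMF.Pc
  fun_prop

theorem meas_rv (k : ℕ) : Measurable (rv k) := by
  unfold rv PBTs.seaT
  exact meas_Pc.const_mul _

variable [Fil]

theorem meas_Xv (k : ℕ) (τ : ℝ × ℝ) (b : Bool) : Measurable (Xv k τ b) := by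
  unfold Xv PBTs.fldT
  exact ((meas_be _ _ _).div ((meas_rv k).add_const _)).const_mul _

theorem strip_v {z : ℂ} (hz : |z.im| < NUMF.l / 5) : z ∈ PBT3.St := by
  have hl := NUMF.l_pos
  have h := abs_lt.1 hz
  refine ⟨?_, ?_⟩
  · show -(NUMF.l / 4) < z.im
    linarith [h.1]
  · show z.im < 11 / 4 * NUMF.l
    linarith [h.2]

/-- size of the field of `be` -/
theorem be_v : ∃ C : ℝ, 0 ≤ C ∧ ∀ (τ : ℝ × ℝ) (b : Bool) (z : ℂ), |z.im| < NUMF.l / 5 →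
    ‖PBT3.be (wa τ) (wb τ) b z‖ ≤ C * Real.exp (8 / 3 * Mv τ) * Real.exp (-(8 / 3 * |z.re|)) := by
  have hl := NUMF.l_pos
  have h1 : -(NUMF.l / 4) < -(NUMF.l / 5) := by linarith
  have h2 : NUMF.l / 5 < 11 / 4 * NUMF.l := by linarith
  refine ⟨PBT3.Cst (-(NUMF.l / 5)) (NUMF.l / 5), PBT3.Cst_nonneg h1 h2 (by linarith),
    fun τ b z hz => ?_⟩
  have h := abs_lt.1 hz
  have h3 := PBT3.be_le (G5_v τ) b (y1 := -(NUMF.l / 5)) (y2 := NUMF.l / 5) h1 h2 (t := z)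
    (by linarith [h.1]) (by linarith [h.2])
  rw [PBT3.exp_split, MM_v] at h3
  rw [mul_assoc]
  exact h3

/-- **the field is admissible for the quadratic term** -/
theorem xbd_v : ∃ C : ℝ, 1 ≤ C ∧ ∀ k : ℕ, 2 ≤ k → ∀ τ : ℝ × ℝ,
    PB.XBd (NUMF.l / 5) (C * Szv k τ) (5 * Real.log k) (Xv k τ) := by
  have hl := NUMF.l_pos
  obtain ⟨C0, hC0, hb⟩ := be_v
  obtain ⟨C1, hC1, H⟩ := PBTs.fld_min (b1 := NUMF.l / 5) (by linarith) (by linarith)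
  refine ⟨max 1 (C1 * (2 * C0)), le_max_left _ _, fun k hk τ => ?_⟩
  have hk1 : (2 : ℝ) ≤ k := by exact_mod_cast hk
  have hk0 : (0 : ℝ) < k := by linarith
  have hn : nk k = (k : ℝ) - 1 := by
    unfold nk
    rw [Nat.cast_sub (by omega), Nat.cast_one]
  have hn0 : 0 < nk k := by rw [hn]; linarith
  have hq0 : 0 < qk k := by
    unfold qk
    positivity
  have hL : 0 ≤ Real.log k := Real.log_nonneg (by linarith)
  set B := C0 * Real.exp (8 / 3 * Mv τ) with hB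
  have hB0 : 0 ≤ B := mul_nonneg hC0 (Real.exp_pos _).le
  have hnq : nk k / qk k ≤ Real.exp (8 / 3 * (5 * Real.log k)) := by
    have e1 : Real.exp (8 / 3 * (5 * Real.log k)) = (k : ℝ) ^ (40 / 3 : ℝ) := by
      rw [Real.rpow_def_of_pos hk0]
      congr 1
      ring
    have e2 : nk k / qk k ≤ (k : ℝ) ^ (11 : ℕ) := by
      unfold qk
      rw [div_inv_eq_mul, hn]
      have : (k : ℝ) ^ (11 : ℕ) = k * (k : ℝ) ^ (10 : ℕ) := by ring
      rw [this]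
      exact mul_le_mul_of_nonneg_right (by linarith) (by positivity)
    rw [e1]
    refine e2.trans ?_
    rw [← Real.rpow_natCast]
    exact Real.rpow_le_rpow_of_exponent_le (by linarith) (by norm_num)
  refine ⟨meas_Xv k τ, fun b z hz => ?_, fun b z hz => ?_⟩
  · exact (PBTs.fldT_d (b1 := NUMF.l / 5) (by linarith) (by linarith) hn0.le hq0
      (fun b z hz => (PBT3.be_hd (G5_v τ) b (strip_v hz)).differentiableAt) b z hz).const_mul _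
  · have h0 : ‖Xv k τ b z‖ ≤ ‖PBTs.fldT (nk k) (qk k) (PBT3.be (wa τ) (wb τ)) b z‖ := by
      unfold Xv
      rw [norm_mul, norm_inv, Complex.norm_real, Real.norm_of_nonneg (Fil.b_nonneg b)]
      exact mul_le_of_le_one_left (norm_nonneg _) (Fil.inv_b_le b)
    refine h0.trans ?_
    have h1 := H (nk k) (qk k) (5 * Real.log k) B hn0 hq0 (by linarith) hnq hB0
      (PBT3.be (wa τ) (wb τ)) (fun b z hz => hb τ b z hz) b z hz
    refine h1.trans ?_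
    have h2 : C1 * (B / nk k) ≤ max 1 (C1 * (2 * C0)) * Szv k τ := by
      have e3 : B / nk k ≤ 2 * C0 * Szv k τ := by
        unfold Szv
        rw [hB, hn, div_le_iff₀ (by linarith)]
        have e4 : 2 * C0 * (Real.exp (8 / 3 * Mv τ) / k) * (k - 1) =
            C0 * Real.exp (8 / 3 * Mv τ) * (2 * (k - 1) / k) := by ring
        rw [e4]
        refine le_mul_of_one_le_right hB0 ?_
        rw [le_div_iff₀ hk0]
        linarith
      calc C1 * (B / nk k) ≤ C1 * (2 * C0 * Szv k τ) :=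
            mul_le_mul_of_nonneg_left e3 (by linarith)
        _ = (C1 * (2 * C0)) * Szv k τ := by ring
        _ ≤ _ := mul_le_mul_of_nonneg_right (le_max_right _ _) (Szv_pos (by omega) τ).le
    exact mul_le_mul h2 (mn_le_WL z.re) (PBTs.mn_nonneg _ _)
      (mul_nonneg (by positivity) (Szv_pos (by omega) τ).le)

/-! ### the inputs -/

attribute [local instance] NUSea.seaP

/-- output of `TRsN`: the hypotheses of the mean statement -/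
def MeanP (ep e1 J : ℝ) : Prop := ∃ k0 : ℕ, ∀ k ≥ k0, ∀ (τ : ℝ × ℝ) (s : ℂ), ∃ κ : ℝ,
  MeanH (Zv ep k τ) (Dv τ) (NUSea.PLX.O.par0 k) (cr e1 J k) (cr' e1 J k)
    (-(dN (2 * (k - 1)) : ℤ)) s (ep / 4) κ (NUP1.l / 5)
    (rv k) (Xv k τ) (LZv ep k τ) (D1v τ) (Ev k τ) (lgv ep k τ) (LPv k) (kov k)

/-- output of `TRsN`: the path -/
def PathP (ep e1 J : ℝ) : Prop := ∃ k0 : ℕ, ∀ k ≥ k0, ∀ τ : ℝ × ℝ, okv k τ →
  ∃ B : ℝ, PathD (fun _ => Zv ep k τ) (fun _ => Dv τ) (fun _ => NUSea.PLX.O.par0 k) (2 * (k - 1))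
    (fun _ => cr e1 J k) (fun _ => cr' e1 J k) B

/-- integrability of the family, from the bound of the mass -/
theorem wiF_v {ep e1 J : ℝ} {p : ℕ} {K ε : ℝ} (h : UB famV ep e1 J p K ε) (hK : 1 ≤ K) :
    ∃ k0 : ℕ, ∀ k ≥ k0, ∀ τ : ℝ × ℝ, okv k τ →
      MC (famV.Z ep k τ) (NUSea.PLX.O.par0 k) (cr e1 J k) (cr' e1 J k) →
      WI (mN (2 * (k - 1))) (wN (fun _ => Zv ep k τ) (fun _ => NUSea.PLX.O.par0 k) (2 * (k - 1))
        (fun _ => cr e1 J k) (fun _ => cr' e1 J k) (fun _ => Pv k τ)) (fun _ => 1) := by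
  obtain ⟨k0, h0⟩ := UB.mass h hK
  refine ⟨k0, fun k hk τ ho hmc => ?_⟩
  have key := WI_wF (F := famV) (i := τ) (e1 := e1) (J := J) (ep := ep) (m := k)
    hmc (Ψ := fun _ _ _ _ _ _ => 1) (fun n _ => MIn.one)
    (φ := fun _ _ _ _ _ => 1) (fun n _ r O a b x => by simp)
    ((h0 k hk τ ho).trans_lt ENNReal.ofReal_lt_top)
  exact key

/-- output of `TRsG`: objects and constants -/
def G1P (ep C : ℝ) (k : ℕ) (τ : ℝ × ℝ) (s : ℝ) : Prop := ∀ (r : ℕ) (O : Fin r → Xo),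
  ‖stO (Dv τ) (NUSea.PLX.O.par0 k) O +
      ∑ b, (∫ t : ℝ, Fil.b b * rv k t * fMH s (Xv k τ) (D1v τ) (lgv ep k τ) (kov k) r O b t) -
      s * PBT3.qI (wa τ) (wb τ) - PBT3.pI (wa τ) (wb τ)‖ ≤
    C * (1 + Mv τ) ^ 2 * Real.exp (2 * Mv τ) * ∑ i, Real.exp (-(2 * |ht (O i)|)) +
      C * Szv k τ * (1 + Real.log k) * (r + 1)

/-- output of `TRsG`: the linear statistic -/
def G2P (ep C : ℝ) (k : ℕ) (τ : ℝ × ℝ) (s : ℝ) : Prop := ∀ (r : ℕ) (O : Fin r → Xo) (b : Bool),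
  BC (-(ep / 8)) (ep / 8) (C * Szv k τ * (1 + Real.log k) * (r + 1))
    (fun z => Ev k τ b z + fMH s (Xv k τ) (D1v τ) (lgv ep k τ) (kov k) r O b z)

/-- the error without the quadratic term -/
def ERL (ep e1 J : ℝ) (k : ℕ) (τ : ℝ × ℝ) (s : ℝ) : Ins := fun r O a b x =>
  ERR (Dv τ) (NUSea.PLX.O.par0 k) (cr e1 J k) s (PBT3.pI (wa τ) (wb τ)) (PBT3.qI (wa τ) (wb τ)) (rv k)
    (Xv k τ) (D1v τ) (Ev k τ) (lgv ep k τ) (kov k) r O a b x -
  Qst (cr e1 J k) (rv k) (Xv k τ) r O a b x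

/-- the weight of the objects -/
def wv (C : ℝ) (k : ℕ) (τ : ℝ × ℝ) (r : ℕ) (O : Fin r → Xo) : ℝ :=
  C * (1 + Mv τ) ^ 2 * Real.exp (2 * Mv τ) * ∑ i, Real.exp (-(2 * |ht (O i)|)) +
    2 * (C * Szv k τ * (1 + Real.log k)) * (r + 1)

/-- the normed test function -/
def gv (ep C : ℝ) (k : ℕ) (τ : ℝ × ℝ) (s : ℝ) (r : ℕ) (O : Fin r → Xo) (b : Bool) (z : ℂ) : ℂ :=
  (((C * Szv k τ * (1 + Real.log k) * (r + 1) : ℝ) : ℂ)⁻¹) *
    (Ev k τ b z + fMH s (Xv k τ) (D1v τ) (lgv ep k τ) (kov k) r O b z)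

theorem ERR_sub (D : Bool → Option O3 → ℂ → ℂ) (P : NUO.Par) (η : Crs) (s p q : ℂ) (ρ : ℂ → ℂ)
    (X D1 E lg : Bool → ℂ → ℂ) (ko : (r : ℕ) → (Fin r → Xo) → Bool → ℂ → ℂ) (r : ℕ)
    (O : Fin r → Xo) (a b : ℕ) (x : (Fin a → ℝ) × (Fin b → ℝ)) :
    ERR D P η s p q ρ X D1 E lg ko r O a b x - Qst η ρ X r O a b x =
      (stO D P O + ∑ b, (∫ t : ℝ, Fil.b b * ρ t * fMH s X D1 lg ko r O b t) - s * q - p) +
      Vst η ρ (fun b z => E b z + fMH s X D1 lg ko r O b z) r O a b x := by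
  unfold ERR
  rw [add_sub_cancel_right]

theorem lin_abs {Sx : NUSea.Sea} {e1 J : ℝ} {k : ℕ} {A : ℂ} {α M : ℝ} (hA : ‖A‖ ≤ α + M)
    (hα : 0 ≤ α) (hM : 0 < M) (ρ : ℂ → ℂ) (g : Bool → ℂ → ℂ) (r : ℕ) (O : Fin r → Xo) (a b : ℕ)
    (x : (Fin a → ℝ) × (Fin b → ℝ)) :
    ‖A + Vst (cr e1 J k) ρ g r O a b x‖ₑ ≤ ENNReal.ofReal (α + 2 * M) *
      nuE (fun t => ρ t) (etaC e1 J k k) (fun z => ((M : ℂ)⁻¹) * g true z)
        (fun z => ((M : ℂ)⁻¹) * g false z) x := by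
  rw [Vst_eq]
  refine (enorm_add_le _ _).trans ?_
  have h3 := enorm_Vy_nuE (e1 := e1) (J := J) (m := k) hM ρ g r O a b x
  have h4 : ‖A‖ₑ ≤ ENNReal.ofReal (α + M) := by
    rw [← ofReal_norm]
    exact ENNReal.ofReal_le_ofReal hA
  have h5 := one_le_nuE (fun t => ρ t) (etaC e1 J k k) (fun z => ((M : ℂ)⁻¹) * g true z)
        (fun z => ((M : ℂ)⁻¹) * g false z) x
  have e2 : α + 2 * M = (α + M) + M := by ring
  rw [e2, ENNReal.ofReal_add (by positivity) hM.le, add_mul]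
  exact add_le_add (h4.trans (le_mul_of_one_le_right' h5)) h3

theorem ERL_le {ep e1 J C : ℝ} {k : ℕ} {τ : ℝ × ℝ} {s : ℝ} (hC : 1 ≤ C) (hk : 1 ≤ k)
    (h1 : G1P ep C k τ s) (r : ℕ) (O : Fin r → Xo) (a b : ℕ)
    (x : (Fin a → ℝ) × (Fin b → ℝ)) :
    ‖ERL ep e1 J k τ s r O a b x‖ₑ ≤ ENNReal.ofReal (wv C k τ r O) *
      nuE (fun t => rv k t) (etaC e1 J k k) (gv ep C k τ s r O true) (gv ep C k τ s r O false) x := by
  have hk1 : (1 : ℝ) ≤ k := by exact_mod_cast hk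
  have hL : 0 ≤ Real.log k := Real.log_nonneg hk1
  have hS := Szv_pos hk τ
  have hr : (0 : ℝ) < (r : ℝ) + 1 := by positivity
  have hM0 : 0 < C * Szv k τ * (1 + Real.log k) * (r + 1) := by positivity
  have hp : 0 ≤ C * (1 + Mv τ) ^ 2 * Real.exp (2 * Mv τ) *
      ∑ i, Real.exp (-(2 * |ht (O i)|)) := by
    have : 0 ≤ ∑ i, Real.exp (-(2 * |ht (O i)|)) := Finset.sum_nonneg fun i _ => (Real.exp_pos _).le
    positivity
  have e2 : wv C k τ r O = C * (1 + Mv τ) ^ 2 * Real.exp (2 * Mv τ) *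
      ∑ i, Real.exp (-(2 * |ht (O i)|)) + 2 * (C * Szv k τ * (1 + Real.log k) * (r + 1)) := by
    unfold wv
    ring
  have e3 : ERL ep e1 J k τ s r O a b x = _ := ERR_sub _ _ _ _ _ _ _ _ _ _ _ _ r O a b x
  rw [e3, e2]
  exact lin_abs (h1 r O) hp hM0 _ _ _ _ _ _ _

theorem OW.add {e1 K B B' : ℝ} {m : ℕ} {w w' : (r : ℕ) → (Fin r → Xo) → ℝ} (h : OW e1 K B m w)
    (h' : OW e1 K B' m w') : OW e1 K (B + B') m fun r O => w r O + w' r O := fun r O => by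
  have h1 := h r O
  have h2 := h' r O
  have e : (B + B') * K ^ r * ∏ j, Real.exp (gT e1 (Real.log m) (ht (O j))) =
      B * K ^ r * ∏ j, Real.exp (gT e1 (Real.log m) (ht (O j))) +
      B' * K ^ r * ∏ j, Real.exp (gT e1 (Real.log m) (ht (O j))) := by ring
  rw [e]
  exact add_le_add h1 h2

/-- the constant of the weight -/
def Bv (C e1 : ℝ) (k : ℕ) (τ : ℝ × ℝ) : ℝ :=
  C * (1 + Mv τ) ^ 2 * Real.exp (2 * Mv τ) * (3 * (k : ℝ) ^ (-(3 / 4 * (1 - 4 * e1)))) +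
    2 * (C * Szv k τ * (1 + Real.log k)) * 3

theorem OW_wv {C e1 : ℝ} (hC : 1 ≤ C) {k : ℕ} (hk : 1 ≤ k) (τ : ℝ × ℝ) :
    OW e1 6 (Bv C e1 k τ) k (wv C k τ) := by
  have hk1 : (1 : ℝ) ≤ k := by exact_mod_cast hk
  have hL : 0 ≤ Real.log k := Real.log_nonneg hk1
  have hS := Szv_pos hk τ
  have h1 := OW.smul (c := C * (1 + Mv τ) ^ 2 * Real.exp (2 * Mv τ)) (by positivity)
    (OW.pin (e1 := e1) (q := 2) (by norm_num) (by norm_num) 0 k)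
  have h2 := OW.smul (c := 2 * (C * Szv k τ * (1 + Real.log k))) (by positivity)
    (OW.mono (K' := 6) (B' := 3) (OW.pow (e1 := e1) 1 k) (by norm_num) (by norm_num)
      (by positivity) (by simp))
  have h3 := OW.add h1 h2
  rw [pinB_two e1 (by positivity)] at h3
  have e1' : C * (1 + Mv τ) ^ 2 * Real.exp (2 * Mv τ) *
      (3 * (Nat.factorial 0 : ℝ) * (k : ℝ) ^ (-(3 / 4 * (1 - 4 * e1)))) +
      2 * (C * Szv k τ * (1 + Real.log k)) * 3 = Bv C e1 k τ := by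
    unfold Bv
    simp
  rw [e1'] at h3
  have e2' : (fun (r : ℕ) (O : Fin r → Xo) => C * (1 + Mv τ) ^ 2 * Real.exp (2 * Mv τ) *
      (((r : ℝ) + 1) ^ 0 * ∑ j, Real.exp (-(2 * |ht (O j)|))) +
      2 * (C * Szv k τ * (1 + Real.log k)) * ((r : ℝ) + 1) ^ 1) = wv C k τ := by
    funext r O
    unfold wv
    rw [pow_zero, one_mul, pow_one]
  rw [e2'] at h3
  exact h3

theorem Bv_nonneg {C e1 : ℝ} (hC : 1 ≤ C) {k : ℕ} (hk : 1 ≤ k) (τ : ℝ × ℝ) : 0 ≤ Bv C e1 k τ := by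
  have hk1 : (1 : ℝ) ≤ k := by exact_mod_cast hk
  have hL : 0 ≤ Real.log k := Real.log_nonneg hk1
  have hS := Szv_pos hk τ
  have : 0 < (k : ℝ) ^ (-(3 / 4 * (1 - 4 * e1))) := Real.rpow_pos_of_pos (by linarith) _
  unfold Bv
  positivity

theorem Bv_E1 {C e1 ε : ℝ} (hC : 1 ≤ C) {k : ℕ} (hk : 1 ≤ k) (τ : ℝ × ℝ) :
    Bv C e1 k τ * (k : ℝ) ^ ε ≤ E1v (2 * C) e1 ε k (Mv τ) := by
  have hk1 : (1 : ℝ) ≤ k := by exact_mod_cast hk
  have hL : 0 ≤ Real.log k := Real.log_nonneg hk1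
  have h1 : 0 < (k : ℝ) ^ ε := Real.rpow_pos_of_pos (by linarith) _
  have h2 : 0 < (k : ℝ) ^ (-(3 / 4 * (1 - 4 * e1))) := Real.rpow_pos_of_pos (by linarith) _
  unfold E1v
  refine mul_le_mul_of_nonneg_right ?_ h1.le
  unfold Bv Szv
  have h3 : 0 ≤ C * (1 + Mv τ) ^ 2 * Real.exp (2 * Mv τ) *
      (3 * (k : ℝ) ^ (-(3 / 4 * (1 - 4 * e1)))) := by positivity
  nlinarith

/-- the mass of one row -/
def CPv : ℝ := ∫ t : ℝ, ‖(NUSea.P t : ℂ)‖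

theorem rv_real (k : ℕ) (t : ℝ) : rv k t = (nk k : ℂ) * (NUSea.P t : ℂ) := by
  have h : NUMF.Pc (t : ℂ) = (NUSea.P t : ℂ) := NUSea.Pc_ofReal t
  unfold rv PBTs.seaT
  rw [h]

theorem DN_v {k : ℕ} (hk : 1 ≤ k) : DN CPv k (fun t : ℝ => rv k t) := by
  have hi : Integrable fun t : ℝ => (NUSea.P t : ℂ) := NUSea.P_int.ofReal
  have hn : nk k = (k : ℝ) - 1 := by
    unfold nk
    rw [Nat.cast_sub hk, Nat.cast_one]
  refine ⟨?_, le_of_eq ?_⟩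
  · simp only [rv_real]
    exact hi.const_mul _
  · unfold CPv
    refine integral_congr_ae (Filter.Eventually.of_forall fun t => ?_)
    simp only [rv_real]
    have e : (nk k : ℂ) * (NUSea.P t : ℂ) - (k : ℂ) * (NUSea.P t : ℂ) = -(NUSea.P t : ℂ) := by
      rw [hn]
      push_cast
      ring
    have e' : ((nk k : ℂ) * (NUSea.P t : ℂ) - ((k : ℝ) : ℂ) * (NUSea.P t : ℂ)) =
        -(NUSea.P t : ℂ) := by
      rw [← e]
      push_cast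
      ring
    rw [← norm_neg (NUSea.P t : ℂ), ← e']

theorem BC_gv {ep C : ℝ} {k : ℕ} {τ : ℝ × ℝ} {s : ℝ} (hC : 1 ≤ C) (hk : 1 ≤ k)
    (h : G2P ep C k τ s) (r : ℕ) (O : Fin r → Xo) (b : Bool) :
    BC (-(ep / 8)) (ep / 8) 1 (gv ep C k τ s r O b) := by
  have hk1 : (1 : ℝ) ≤ k := by exact_mod_cast hk
  have hL : 0 ≤ Real.log k := Real.log_nonneg hk1
  have hS := Szv_pos hk τ
  have hr : (0 : ℝ) < (r : ℝ) + 1 := by positivity
  exact (h r O b).normed (by positivity)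

/-- **the linear part of the error under `UB`** -/
theorem lin_bd {F : Fam (ℝ × ℝ)} {ep e1 J ε C : ℝ} (h : UB F ep e1 J 2 6 ε) (hep : 0 < ep)
    (hC : 1 ≤ C) (hbd : ∀ m i, 0 ≤ F.bd m i) :
    ∃ k0 : ℕ, ∀ k ≥ k0, ∀ τ : ℝ × ℝ, F.ok k τ →
    MC (F.Z ep k τ) (NUSea.PLX.O.par0 k) (cr e1 J k) (cr' e1 J k) → ∀ s : ℝ, G1P ep C k τ s →
    G2P ep C k τ s → MIn (ERL ep e1 J k τ s) →
      ∫⁻ x, ‖wF F ep e1 J k τ x‖ₑ * ‖evN (fun _ => ERL ep e1 J k τ s) x‖ₑ ∂(mN (F.top k)) ≤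
        ENNReal.ofReal (E1v (2 * C) e1 ε k (Mv τ) * F.bd k τ) := by
  obtain ⟨m0, h0⟩ := h CPv (-(ep / 8)) (ep / 8) (by linarith) (by linarith)
  refine ⟨max m0 1, fun k hk τ hok hMC s h1 h2 hm => ?_⟩
  have hk1 : 1 ≤ k := (le_max_right _ _).trans hk
  have hkm : m0 ≤ k := (le_max_left _ _).trans hk
  refine (lint_wF hMC (Ψ := fun _ => ERL ep e1 J k τ s) (fun _ _ => hm)
    (φ := fun r O a b x => ENNReal.ofReal (wv C k τ r O) * nuE (fun t => rv k t) (etaC e1 J k k)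
      (gv ep C k τ s r O true) (gv ep C k τ s r O false) x)
    (fun _ _ r O a b x => ERL_le hC hk1 h1 r O a b x)).trans ?_
  have h3 := h0 k hkm τ hok (fun t => rv k t) (DN_v hk1) (Bv C e1 k τ) (Bv_nonneg hC hk1 τ)
    (wv C k τ) (OW_wv hC hk1 τ) (fun r O _ => gv ep C k τ s r O true)
    (fun r O _ => gv ep C k τ s r O false)
    (fun r O _ => ⟨BC_gv hC hk1 h2 r O true, BC_gv hC hk1 h2 r O false⟩)
  refine le_trans (FS_mono (fun _ => le_rfl) fun r O a b x => ?_) (h3.trans ?_)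
  · rw [Fin.prod_univ_two]
    refine mul_le_mul' le_rfl (le_mul_of_one_le_right' (one_le_nuE _ _ _ _ _))
  · refine ENNReal.ofReal_le_ofReal ?_
    exact mul_le_mul_of_nonneg_right (Bv_E1 hC hk1 τ) (hbd k τ)

/-! ### the quadratic part -/

theorem MIn_Qst {δ b1 : ℝ} {η η' : Crs} {ρ : ℂ → ℂ} {X : Bool → ℂ → ℂ}
    (hc : ∀ r O, CrvR δ (η r O) (η' r O)) (h1 : δ ≤ 1 / 20) (b0 : NUP1.l / 20 < b1)
    (hρ : PB.SeaF b1 ρ) (hX : PB.FldF b1 X) (hm : MCr η η') : MIn (Qst η ρ X) := by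
  intro r a b
  have hl := NUP1.Bd.l_pos
  have hb1 : 0 < b1 := by linarith
  have hz := fun k : Fin a ⊕ Fin b => meas_zq hm r k
  have hz' := fun (k : Fin a ⊕ Fin b) (p : (Fin r → Xo) × ((Fin a → ℝ) × (Fin b → ℝ))) =>
    (zc_strip_cv (hc r p.1) h1 (spQ a b k) (Sum.elim p.2.1 p.2.2 k)).trans_lt b0
  unfold Qst PB.NX.nuQ
  refine (((measurable_const.mul (Finset.measurable_fun_sum _ fun i _ =>
    Finset.measurable_fun_sum _ fun j _ => ?_)).sub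
    (Finset.measurable_fun_sum _ fun i _ => ?_)).add measurable_const)
  · exact meas_aC hX _ _ (hz i) (hz j) (hz' i) (hz' j)
  · exact meas_smr hX hb1 hρ _ (hz i) (hz' i)

theorem YOk_v : PB.YOk (NUMF.l / 10) (3 * NUMF.l / 20) (NUMF.l / 5) := by
  have hl := NUMF.l_pos
  exact ⟨by linarith, by linarith, by linarith, by linarith⟩

/-- **the quadratic part of the error under `UB`** -/
theorem quad_bd {F : Fam (ℝ × ℝ)} {ep e1 J ε : ℝ} (h : UB F ep e1 J 2 6 ε)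
    (hbd : ∀ m i, 0 ≤ F.bd m i) :
    ∃ C : ℝ, 0 < C ∧ ∃ k0 : ℕ, ∀ k ≥ k0, ∀ τ : ℝ × ℝ, F.ok k τ →
    MC (F.Z ep k τ) (NUSea.PLX.O.par0 k) (cr e1 J k) (cr' e1 J k) →
    (∀ t, |etaC e1 J k k t| ≤ NUMF.l / 10) →
      ∫⁻ x, ‖wF F ep e1 J k τ x‖ₑ * ‖evN (fun _ => Qst (cr e1 J k) (rv k) (Xv k τ)) x‖ₑ
        ∂(mN (F.top k)) ≤ ENNReal.ofReal (E2v C ε k (Mv τ) * F.bd k τ) := by
  obtain ⟨Cx, hCx, hX⟩ := xbd_v
  have hl := NUMF.l_pos
  obtain ⟨C, hC, m0, h0⟩ := UB.quad h le_rfl (by norm_num) CPv YOk_v (by linarith)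
  refine ⟨C * Cx, by positivity, max m0 2, fun k hk τ hok hMC hη => ?_⟩
  have hk2 : 2 ≤ k := (le_max_right _ _).trans hk
  have hkm : m0 ≤ k := (le_max_left _ _).trans hk
  have hk1 : (1 : ℝ) ≤ k := by exact_mod_cast (by omega : 1 ≤ k)
  have hL : 0 ≤ Real.log k := Real.log_nonneg hk1
  have hS := Szv_pos (by omega : 1 ≤ k) τ
  have h3 := h0 k hkm τ hok hMC hη (hbd k τ) (rv k) (DN_v (by omega))
    ((meas_rv k).comp Complex.measurable_ofReal) (Cx * Szv k τ) (5 * Real.log k) (Xv k τ)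
    (by positivity) (by positivity) (hX k hk2 τ)
  refine h3.trans (le_of_eq ?_)
  congr 1
  unfold E2v Szv
  ring

/-! ### the error on the path -/

/-- derivative of the normalised functional -/
def nFv' (ep e1 J : ℝ) (k : ℕ) (τ : ℝ × ℝ) (s : ℝ) : ℂ :=
  nF' (fun _ => Zv ep k τ) (fun _ => Dv τ) (fun _ => NUSea.PLX.O.par0 k) (2 * (k - 1))
    (fun _ => cr e1 J k) (fun _ => cr' e1 J k) (fun _ => Pv k τ) 1 (κv k τ) s

/-- the weight of the right end -/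
theorem wF_W {ep e1 J : ℝ} {k : ℕ} {τ : ℝ × ℝ} (x : CfN (2 * (k - 1))) :
    wF famW ep e1 J k τ x = PBT3.k1T τ * Complex.exp (-κv k τ) *
      wN (expN (fun _ => Zv ep k τ) (fun _ => Dv τ) 1) (fun _ => NUSea.PLX.O.par0 k) (2 * (k - 1))
        (fun _ => cr e1 J k) (fun _ => cr' e1 J k) (fun _ => Pv k τ) x := by
  show PBT3.k1T τ * (Complex.exp (-κv k τ) * Pv k τ) * _ = PBT3.k1T τ * Complex.exp (-κv k τ) *
    (Pv k τ * _)
  rw [← mul_assoc (PBT3.k1T τ), mul_assoc (PBT3.k1T τ * Complex.exp (-κv k τ))]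
  rfl

/-- division of a bound by a nonnegative constant -/
theorem lint_div {a b E m : ℝ} {I : ℝ≥0∞} (ha : 0 < a) (hb : 0 < b)
    (h : ENNReal.ofReal (a * b) * I ≤ ENNReal.ofReal (E * m)) :
    ENNReal.ofReal b * I ≤ ENNReal.ofReal (E * (m / a)) := by
  have h1 : ENNReal.ofReal a⁻¹ * (ENNReal.ofReal (a * b) * I) ≤
      ENNReal.ofReal a⁻¹ * ENNReal.ofReal (E * m) := mul_le_mul' le_rfl h
  rw [← mul_assoc, ← ENNReal.ofReal_mul (by positivity), ← ENNReal.ofReal_mul (by positivity)] at h1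
  have e1 : a⁻¹ * (a * b) = b := by field_simp
  have e2 : a⁻¹ * (E * m) = E * (m / a) := by field_simp
  rwa [e1, e2] at h1

theorem lint_W {ep e1 J : ℝ} {k : ℕ} {τ : ℝ × ℝ} {Y : CfN (2 * (k - 1)) → ℝ≥0∞} {E : ℝ}
    (hk : PBT3.k1T τ ≠ 0)
    (h : ∫⁻ x, ‖wF famW ep e1 J k τ x‖ₑ * Y x ∂(mN (2 * (k - 1))) ≤
      ENNReal.ofReal (E * Real.exp (-mTv τ))) :
    ENNReal.ofReal (‖(1 : ℂ)‖ * Real.exp (-(κv k τ).re)) *
      ∫⁻ x, ‖wN (expN (fun _ => Zv ep k τ) (fun _ => Dv τ) 1) (fun _ => NUSea.PLX.O.par0 k)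
        (2 * (k - 1)) (fun _ => cr e1 J k) (fun _ => cr' e1 J k) (fun _ => Pv k τ) x‖ₑ * Y x
        ∂(mN (2 * (k - 1))) ≤ ENNReal.ofReal (E * (Real.exp (-mTv τ) / ‖PBT3.k1T τ‖)) := by
  rw [norm_one, one_mul]
  refine lint_div (norm_pos_iff.2 hk) (Real.exp_pos _) (le_trans (le_of_eq ?_) h)
  have e1 : ENNReal.ofReal (‖PBT3.k1T τ‖ * Real.exp (-(κv k τ).re)) =
      ‖PBT3.k1T τ * Complex.exp (-κv k τ)‖ₑ := by
    rw [← ofReal_norm, norm_mul, Complex.norm_exp, Complex.neg_re]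
  rw [e1, ← lintegral_const_mul' _ _ enorm_ne_top]
  refine lintegral_congr fun x => ?_
  rw [wF_W, enorm_mul (PBT3.k1T τ * Complex.exp (-κv k τ)), mul_assoc]

/-- **the error on the path** -/
theorem hE_v {ep e1 J ε : ℝ} (hep : 0 < ep) (hep1 : ep ≤ 1 / 100)
    (hV : UB famV ep e1 J 2 6 ε) (hW : UB famW ep e1 J 2 6 ε) (hM : MeanP ep e1 J)
    (hP : PathP ep e1 J) {C : ℝ} (hC : 1 ≤ C)
    (hG : ∃ k0 : ℕ, ∀ k ≥ k0, ∀ τ : ℝ × ℝ, okv k τ → ∀ s : ℝ, 0 ≤ s → s ≤ 1 →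
      G1P ep C k τ s ∧ G2P ep C k τ s) :
    ∃ C' : ℝ, 0 < C' ∧ ∃ k0 : ℕ, ∀ k ≥ k0, ∀ τ : ℝ × ℝ, okv k τ → PBT3.k1T τ ≠ 0 →
      ∀ s : ℝ, 0 ≤ s → s ≤ 1 →
      ‖nFv' ep e1 J k τ s - (s * PBT3.qI (wa τ) (wb τ) + PBT3.pI (wa τ) (wb τ)) *
        nFv ep e1 J k τ s‖ ≤ (E1v (2 * C) e1 ε k (Mv τ) + E2v C' ε k (Mv τ)) *
        (Real.exp |τ.1 + τ.2| ^ (1 - s) * (Real.exp (-mTv τ) / ‖PBT3.k1T τ‖) ^ s) := by
  obtain ⟨k1, h1⟩ := hM
  obtain ⟨k2, h2⟩ := hP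
  obtain ⟨k3, h3⟩ := hG
  obtain ⟨k4, h4⟩ := lin_bd hV hep hC (fun m i => (Real.exp_pos _).le)
  obtain ⟨k5, h5⟩ := lin_bd hW hep hC (fun m i => (Real.exp_pos _).le)
  obtain ⟨C1, hC1, k6, h6⟩ := quad_bd hV (fun m i => (Real.exp_pos _).le)
  obtain ⟨C2, hC2, k7, h7⟩ := quad_bd hW (fun m i => (Real.exp_pos _).le)
  obtain ⟨k8, h8⟩ := wiF_v hV (by norm_num)
  refine ⟨max C1 C2, lt_max_of_lt_left hC1,
    max 2 (max k1 (max k2 (max k3 (max k4 (max k5 (max k6 (max k7 k8))))))),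
    fun k hk τ hok hk1 s hs0 hs1 => ?_⟩
  simp only [ge_iff_le, max_le_iff] at hk
  obtain ⟨hk0, i1, i2, i3, i4, i5, i6, i7, i8⟩ := hk
  obtain ⟨B, hB⟩ := h2 k i2 τ hok
  have hI := h8 k i8 τ hok (hB.mc0 0 (Nat.zero_le _))
  obtain ⟨κ, hMean⟩ := h1 k i1 τ (s : ℂ)
  obtain ⟨g1, g2⟩ := h3 k i3 τ hok s hs0 hs1
  have hkp : (0 : ℝ) < k := by exact_mod_cast (by omega : 0 < k)
  have hmc := mcr_cr' e1 J k
  have mV : MC (famV.Z ep k τ) (NUSea.PLX.O.par0 k) (cr e1 J k) (cr' e1 J k) := hB.mc0 0 (Nat.zero_le _)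
  have mW : MC (famW.Z ep k τ) (NUSea.PLX.O.par0 k) (cr e1 J k) (cr' e1 J k) := hB.mc 1 0 (Nat.zero_le _)
  have hEm := hMean.mE hmc (hB.mst 0 (Nat.zero_le _)) (PBT3.pI (wa τ) (wb τ)) (PBT3.qI (wa τ) (wb τ))
  have hQm := MIn_Qst hMean.crv hMean.h1 hMean.b0 hMean.sea hMean.fld hmc
  have hLm : MIn (ERL ep e1 J k τ s) := fun r a b => (hEm r a b).sub (hQm r a b)
  have hη : ∀ t, |etaC e1 J k k t| ≤ NUMF.l / 10 := by
    intro t
    have h := zc_strip (hMean.crv 0 (fun i => i.elim0)) hMean.h1 t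
    rw [zc_im] at h
    have hl := NUMF.l_pos
    have e : NUP1.l = NUMF.l := rfl
    rw [e] at h
    exact h.trans (by linarith)
  set Y : Bool → CfN (2 * (k - 1)) → ℝ≥0∞ := fun b x => if b then
    ‖evN (fun _ => ERL ep e1 J k τ s) x‖ₑ else
    ‖evN (fun _ => Qst (cr e1 J k) (rv k) (Xv k τ)) x‖ₑ with hY
  set Ec : Bool → ℝ := fun b => if b then E1v (2 * C) e1 ε k (Mv τ) else
    E2v (max C1 C2) ε k (Mv τ) with hEc
  have hkε : 0 < (k : ℝ) ^ ε := Real.rpow_pos_of_pos hkp _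
  have hk3 : 0 < (k : ℝ) ^ (-(3 / 4 * (1 - 4 * e1))) := Real.rpow_pos_of_pos hkp _
  have hlog : 0 ≤ Real.log k := Real.log_nonneg (by exact_mod_cast (by omega : 1 ≤ k))
  have hM0 := MvF_nonneg τ
  have hCC : 0 < max C1 C2 := lt_max_of_lt_left hC1
  have hEpos : ∀ b ∈ (Finset.univ : Finset Bool), 0 < Ec b := by
    intro b _
    cases b
    · simp only [hEc, E2v, Bool.false_eq_true, if_false]
      positivity
    · simp only [hEc, E1v, if_true]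
      positivity
  have hYm : ∀ b ∈ (Finset.univ : Finset Bool), Measurable (Y b) := by
    intro b _
    cases b
    · exact (evN_meas fun _ _ => hQm).enorm
    · exact (evN_meas fun _ _ => hLm).enorm
  have hE2 : ∀ Cx, Cx ≤ max C1 C2 → E2v Cx ε k (Mv τ) ≤ E2v (max C1 C2) ε k (Mv τ) := by
    intro Cx hCx
    unfold E2v
    gcongr
  have hb0 : ∀ b ∈ (Finset.univ : Finset Bool), ENNReal.ofReal ‖(1 : ℂ)‖ *
      ∫⁻ x, ‖wN (fun _ => Zv ep k τ) (fun _ => NUSea.PLX.O.par0 k) (2 * (k - 1))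
        (fun _ => cr e1 J k) (fun _ => cr' e1 J k) (fun _ => Pv k τ) x‖ₑ * Y b x
        ∂(mN (2 * (k - 1))) ≤ ENNReal.ofReal (Ec b * Real.exp |τ.1 + τ.2|) := by
    intro b _
    rw [norm_one, ENNReal.ofReal_one, one_mul]
    cases b
    · refine (h6 k i6 τ hok mV hη).trans (ENNReal.ofReal_le_ofReal ?_)
      exact mul_le_mul_of_nonneg_right (hE2 C1 (le_max_left _ _)) (Real.exp_pos _).le
    · exact h4 k i4 τ hok mV s g1 g2 hLm
  have hb1 : ∀ b ∈ (Finset.univ : Finset Bool),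
      ENNReal.ofReal (‖(1 : ℂ)‖ * Real.exp (-(κv k τ).re)) *
      ∫⁻ x, ‖wN (expN (fun _ => Zv ep k τ) (fun _ => Dv τ) 1) (fun _ => NUSea.PLX.O.par0 k)
        (2 * (k - 1)) (fun _ => cr e1 J k) (fun _ => cr' e1 J k) (fun _ => Pv k τ) x‖ₑ * Y b x
        ∂(mN (2 * (k - 1))) ≤ ENNReal.ofReal (Ec b * (Real.exp (-mTv τ) / ‖PBT3.k1T τ‖)) := by
    intro b _
    refine lint_W hk1 ?_
    cases b
    · refine (h7 k i7 τ hok mW hη).trans (ENNReal.ofReal_le_ofReal ?_)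
      exact mul_le_mul_of_nonneg_right (hE2 C2 (le_max_right _ _)) (Real.exp_pos _).le
    · exact h5 k i5 τ hok mW s g1 g2 hLm
  have hμ1 : 0 < Real.exp (-mTv τ) / ‖PBT3.k1T τ‖ := div_pos (Real.exp_pos _) (norm_pos_iff.2 hk1)
  have hmean := mean_N hB hI (fun n _ => hMean) (κ0 := κv k τ) (fun n _ => rfl)
    (PBT3.pI (wa τ) (wb τ)) (PBT3.qI (wa τ) (wb τ)) Finset.univ (Y := Y) hYm (by
      intro x
      rw [Fintype.sum_bool]
      have e : evN (fun n => ERR (Dv τ) (NUSea.PLX.O.par0 k) (cr e1 J k) (s : ℂ)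
          (PBT3.pI (wa τ) (wb τ)) (PBT3.qI (wa τ) (wb τ)) (rv k) (Xv k τ) (D1v τ) (Ev k τ)
          (lgv ep k τ) (kov k)) x = evN (fun _ => ERL ep e1 J k τ s) x +
          evN (fun _ => Qst (cr e1 J k) (rv k) (Xv k τ)) x := by
        unfold evN ev ERL
        exact (sub_add_cancel _ _).symm
      rw [e]
      exact enorm_add_le _ _)
  have key := nF_err hB Finset.univ hYm hs0 hs1 (Real.exp_pos _) hμ1 hEpos one_ne_zero hb0 hb1 hmean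
  rw [Fintype.sum_bool] at key
  exact key

/-! ### (H3) -/

theorem pI_v (τ : ℝ × ℝ) : PBT3.pI (wa τ) (wb τ) = PBT3.pF τ := PBT3.pI_eq (G5_v τ).geo

theorem gI_v (τ : ℝ × ℝ) :
    PBT3.pI (wa τ) (wb τ) + PBT3.qI (wa τ) (wb τ) / 2 = PBT3.gF τ := by
  have h := PBT3.gI_eq (G5_v τ).geo
  rw [div_eq_mul_inv, mul_comm (PBT3.qI (wa τ) (wb τ)) _]
  have e : ((2 : ℂ)⁻¹) = 1 / 2 := by norm_num
  rw [e]
  exact h

theorem Mv_le_log {k : ℕ} {τ : ℝ × ℝ} (hk : 1 ≤ k) (h : okv k τ) : Mv τ ≤ Real.log k := by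
  have hk1 : (1 : ℝ) ≤ k := by exact_mod_cast hk
  have hL : 0 ≤ Real.log k := Real.log_nonneg hk1
  have h1 : 2 * Mv τ ≤ mTv τ := PBTs.max_le_mT τ
  unfold okv at h
  linarith

/-- **(H3) between the two ends of the s-path**, path data for small parameters only -/
theorem h3_w (hV : UX famV) (hW : UX famW)
    (hMP : ∃ a1 : ℝ, 0 < a1 ∧ ∀ ep e1 J : ℝ, 0 < ep → ep ≤ 1 / 100 → 0 < e1 → e1 ≤ 1 / 100 →
      0 ≤ J → Real.exp (-(2 * Real.pi * J)) + 3 * e1 + 3 * ep ≤ a1 →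
      MeanP ep e1 J ∧ PathP ep e1 J)
    (hG : ∀ ep : ℝ, 0 < ep → ep ≤ 1 / 100 → ∃ C : ℝ, 1 ≤ C ∧ ∃ k0 : ℕ, ∀ k ≥ k0, ∀ τ : ℝ × ℝ,
      okv k τ → ∀ s : ℝ, 0 ≤ s → s ≤ 1 → G1P ep C k τ s ∧ G2P ep C k τ s) {c1 : ℝ}
    (hc1 : c1 < 3 / 4) :
    ∃ a0 : ℝ, 0 < a0 ∧ ∀ ep e1 J : ℝ, 0 < ep → ep ≤ 1 / 100 → 0 < e1 → e1 ≤ 1 / 100 → 0 ≤ J →
      Real.exp (-(2 * Real.pi * J)) + 3 * e1 + 3 * ep ≤ a0 →
      ∀ᶠ k : ℕ in atTop, ∀ τ : ℝ × ℝ, okv k τ →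
        ‖PBT3.k1T τ‖ * ‖nFv ep e1 J k τ 1 - Complex.exp (PBT3.gF τ) * nFv ep e1 J k τ 0‖ ≤
          (k : ℝ) ^ (-c1) := by
  set e := (3 / 4 - c1) / 2 with he
  have he0 : 0 < e := by rw [he]; linarith
  obtain ⟨aV, haV, hV⟩ := hV 2 6 (e / 4) (by positivity)
  obtain ⟨aW, haW, hW⟩ := hW 2 6 (e / 4) (by positivity)
  obtain ⟨a1, ha1, hMP⟩ := hMP
  refine ⟨min a1 (min (e / 4) (min aV aW)), lt_min ha1 (lt_min (by positivity) (lt_min haV haW)),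
    fun ep e1 J hep hep1 he1 he11 hJ hsm' => ?_⟩
  have s0 := hsm'.trans (min_le_left _ _)
  have hsm := hsm'.trans (min_le_right _ _)
  have s1 := hsm.trans (min_le_left _ _)
  have s2 := hsm.trans ((min_le_right _ _).trans (min_le_left _ _))
  have s3 := hsm.trans ((min_le_right _ _).trans (min_le_right _ _))
  have hexp := (Real.exp_pos (-(2 * Real.pi * J))).le
  obtain ⟨hM, hP⟩ := hMP ep e1 J hep hep1 he1 he11 hJ s0
  obtain ⟨C, hC, hGG⟩ := hG ep hep hep1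
  obtain ⟨C', hC', k1, hE⟩ := hE_v hep hep1 (hV ep e1 J hep he1 hJ s2) (hW ep e1 J hep he1 hJ s3)
    hM hP hC hGG
  obtain ⟨k2, hP2⟩ := hP
  obtain ⟨k3, hI3⟩ := wiF_v (hV ep e1 J hep he1 hJ s2) (by norm_num)
  obtain ⟨A, hA, hk1⟩ := PBT3.k1T_le
  obtain ⟨Cg, hCg, hgF⟩ := PBT3.gF_re
  obtain ⟨Cp, hCp, hpF⟩ := PBT3.pF_re
  set A' := max A 1 with hA'
  set Cc := max Cg Cp with hCc
  have hCc0 : 0 ≤ Cc := le_max_of_le_left hCg
  have hlim : Tendsto (fun k : ℕ => 3 * A' * Real.exp (2 * Cc) * (k : ℝ) ^ (-(3 / 4 - e - c1)))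
      atTop (nhds (3 * A' * Real.exp (2 * Cc) * 0)) :=
    ((tendsto_rpow_neg_atTop (by rw [he]; linarith)).comp tendsto_natCast_atTop_atTop).const_mul _
  rw [mul_zero] at hlim
  filter_upwards [E_le (C := 2 * C) (C' := C') (e := e) (e1 := e1) (ε := e / 4) (by positivity)
    hC'.le he1.le (by linarith), hlim.eventually_le_const one_pos, eventually_ge_atTop k1,
    eventually_ge_atTop k2, eventually_ge_atTop 1, eventually_ge_atTop k3] with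
    k f1 f2 f3 f4 f5 f6 τ hok
  have hκ : (1 : ℝ) ≤ k := by exact_mod_cast f5
  have hκ0 : (0 : ℝ) < k := by linarith
  rcases eq_or_ne (PBT3.k1T τ) 0 with hz | hz
  · rw [hz, norm_zero, zero_mul]
    exact Real.rpow_nonneg hκ0.le _
  obtain ⟨B, hB⟩ := hP2 k f4 τ hok
  have hI := hI3 k f6 τ hok (hB.mc0 0 (Nat.zero_le _))
  have hnn : ∀ s : ℝ, 0 ≤ Real.exp |τ.1 + τ.2| ^ (1 - s) *
      (Real.exp (-mTv τ) / ‖PBT3.k1T τ‖) ^ s := fun s =>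
    mul_nonneg (Real.rpow_nonneg (Real.exp_pos _).le _)
      (Real.rpow_nonneg (div_nonneg (Real.exp_pos _).le (norm_nonneg _)) _)
  have hM0 := MvF_nonneg τ
  have key := PBTs.h3_pt (k1 := PBT3.k1T τ) (F := nFv ep e1 J k τ) (F' := nFv' ep e1 J k τ)
    (p := PBT3.pI (wa τ) (wb τ)) (q := PBT3.qI (wa τ) (wb τ))
    (m := fun s => Real.exp |τ.1 + τ.2| ^ (1 - s) * (Real.exp (-mTv τ) / ‖PBT3.k1T τ‖) ^ s)
    (A := A') (C := Cc) (d := 1 / 20) (e := e) (e0 := 0) (e1 := 0) (κ := (k : ℝ)) (t := τ)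
    (le_max_right _ _) hCc0 (by norm_num) hκ le_rfl le_rfl
    (by
      have : PBTs.mT τ = mTv τ := rfl
      rw [this]
      refine hok.trans (le_of_eq ?_)
      ring)
    ((hk1 τ).trans (mul_le_mul_of_nonneg_right (le_max_left _ _) (Real.exp_pos _).le))
    (by
      rw [gI_v]
      have h := abs_le.1 (hgF τ)
      have h' : Cg ≤ Cc := le_max_left _ _
      linarith [h.2])
    (by
      rw [pI_v]
      have h := abs_le.1 (hpF τ)
      have h' : Cp ≤ Cc := le_max_right _ _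
      linarith [h.1])
    (fun s _ => hasDerivAt_nF hB hI 1 (κv k τ) s)
    (fun s hs => (hE k f3 τ hok hz s hs.1 hs.2).trans
      (mul_le_mul_of_nonneg_right (f1 (Mv τ) hM0 (Mv_le_log f5 hok)) (hnn s)))
    (fun s _ => hnn s)
    (fun s _ => by
      simp only [sub_zero, Real.rpow_one, Real.rpow_zero, mul_one, sub_self, one_mul, le_refl])
    (by simp only [sub_zero, Real.rpow_one, Real.rpow_zero, mul_one, one_mul, le_refl])
    (by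
      simp only [sub_self, Real.rpow_one, Real.rpow_zero, one_mul]
      rw [mul_div_cancel₀ _ (norm_ne_zero_iff.2 hz)]
      exact le_rfl)
  rw [gI_v] at key
  refine key.trans ?_
  have e1' : (k : ℝ) ^ (e + 0 + 0 - 3 / 4) = (k : ℝ) ^ (-(3 / 4 - e - c1)) * (k : ℝ) ^ (-c1) := by
    rw [← Real.rpow_add hκ0]
    congr 1
    ring
  rw [e1', ← mul_assoc]
  calc 3 * A' * Real.exp (2 * Cc) * (k : ℝ) ^ (-(3 / 4 - e - c1)) * (k : ℝ) ^ (-c1)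
      ≤ 1 * (k : ℝ) ^ (-c1) := mul_le_mul_of_nonneg_right f2 (Real.rpow_nonneg hκ0.le _)
    _ = _ := one_mul _

/-- **(H3) between the two ends of the s-path** -/
theorem h3_v (hV : UX famV) (hW : UX famW)
    (hMP : ∀ ep e1 J : ℝ, 0 < ep → ep ≤ 1 / 100 → 0 < e1 → e1 ≤ 1 / 100 → 0 ≤ J →
      MeanP ep e1 J ∧ PathP ep e1 J)
    (hG : ∀ ep : ℝ, 0 < ep → ep ≤ 1 / 100 → ∃ C : ℝ, 1 ≤ C ∧ ∃ k0 : ℕ, ∀ k ≥ k0, ∀ τ : ℝ × ℝ,
      okv k τ → ∀ s : ℝ, 0 ≤ s → s ≤ 1 → G1P ep C k τ s ∧ G2P ep C k τ s) {c1 : ℝ}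
    (hc1 : c1 < 3 / 4) :
    ∃ a0 : ℝ, 0 < a0 ∧ ∀ ep e1 J : ℝ, 0 < ep → ep ≤ 1 / 100 → 0 < e1 → e1 ≤ 1 / 100 → 0 ≤ J →
      Real.exp (-(2 * Real.pi * J)) + 3 * e1 + 3 * ep ≤ a0 →
      ∀ᶠ k : ℕ in atTop, ∀ τ : ℝ × ℝ, okv k τ →
        ‖PBT3.k1T τ‖ * ‖nFv ep e1 J k τ 1 - Complex.exp (PBT3.gF τ) * nFv ep e1 J k τ 0‖ ≤
          (k : ℝ) ^ (-c1) :=
  h3_w hV hW ⟨1, one_pos, fun ep e1 J a b c d e _ => hMP ep e1 J a b c d e⟩ hG hc1

end PBTV.PLX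

end
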