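import Pool.Agent.PLX.Ns
import Pool.Agent.PLX.PB.UProps
import Pool.Agent.PLX.PB.StatN
import Pool.Agent.PB.RepA
import Pool.Agent.PLX.PB.RepM
import Pool.Agent.PLX.PB.ParZ

/-!
# Plan B: the moments on the configurations from the master bound (helper99), two fillings

Port of `PB/UInst`: `Vp ρ`, `Vm ρ`, `SN ρ` are centred at the rows of the two species
(`Fil.b s * ρ`), `ρ` = density of a one-fold row (`DN`).

`F : Fam ι` a family of functionals, `wF` its weight on `CfN (F.top m)`.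

* `lint_wC_le`, `lint_wN_le`: the integral of the modulus of an insertion is at most `FA`, `FS`; no
  measurability of the insertion is needed;
* `M2_one`, `M2_Vp`, `M2_Vm`, `M2_SN`: second moments (`PBFunc.M2`);
* **`pins`**: the structure `PBRep.Pins` (moments with one pinned factor).
-/

set_option autoImplicit false
set_option linter.unusedSectionVars false

noncomputable section

open Complex MeasureTheory Finset
open scoped ENNReal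
open PLX (Fil)

namespace PBUI.PLX

open NUO NUP1 NUP1S NUP1S.Ab NUP1S.AbC NUGC NUGC.PLX NUCR PBF PBF.PLX PBP PBP.PLX PBU PBU.PLX PBFunc PBFunc.PLX PBE PBE.PLX

/-! ### upper bounds without measurability -/

theorem sum_lint_le {α ι : Type*} [MeasurableSpace α] {μ : Measure α} (s : Finset ι)
    (f : ι → α → ℝ≥0∞) : ∑ i ∈ s, ∫⁻ a, f i a ∂μ ≤ ∫⁻ a, ∑ i ∈ s, f i a ∂μ := by
  classical
  induction s using Finset.induction_on with
  | empty => simp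
  | insert j s hj ih =>
    simp only [Finset.sum_insert hj]
    exact (add_le_add le_rfl ih).trans (le_lintegral_add _ _)

section piece

variable [Fil] {Z : Bool → Option O3 → ℂ → ℂ} {P : NUO.Par} {n n' : ℕ} {η η' : Crs}

theorem lint_wC_le (Ψ : Ins) :
    ∫⁻ c, ‖wC Z P n n' η η' c‖ₑ * ‖ev Ψ c‖ₑ ∂(mC n n') ≤ FA Z P n n' η η' Ψ := by
  have e1 : ∫⁻ c, ‖wC Z P n n' η η' c‖ₑ * ‖ev Ψ c‖ₑ ∂(mC n n') =
      ∑ i : CIx n n', ∫⁻ p : Pc i, ‖wP Z P n n' η η' i p‖ₑ * ‖Ψ i.1 p.1 i.2.1 i.2.2 p.2‖ₑ ∂(mP i) := by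
    unfold mC
    rw [lintegral_sig]
    rfl
  have e2 : ∀ i : CIx n n', ∫⁻ p : Pc i, ‖wP Z P n n' η η' i p‖ₑ *
      ‖Ψ i.1 p.1 i.2.1 i.2.2 p.2‖ₑ ∂(mP i) ≤
      ∫⁻ O : Fin (i.1 : ℕ) → Xo, (∫⁻ x, ‖wP Z P n n' η η' i (O, x)‖ₑ *
        ‖Ψ i.1 O i.2.1 i.2.2 x‖ₑ) ∂(Measure.pi fun _ => nu) := by
    intro i
    unfold mP
    exact lintegral_prod_le _
  rw [e1, Fintype.sum_prod_type]
  unfold PBF.PLX.FA
  rw [Finset.sum_range]
  refine Finset.sum_le_sum fun r _ => ?_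
  have e4 : (((r : ℕ).factorial : ℕ) : ℝ≥0∞)⁻¹ *
      ∫⁻ O : Fin (r : ℕ) → Xo, trA Z P n n' η η' Ψ r O ∂(Measure.pi fun _ => nu) =
      ∫⁻ O : Fin (r : ℕ) → Xo, (((r : ℕ).factorial : ℕ) : ℝ≥0∞)⁻¹ * trA Z P n n' η η' Ψ r O
        ∂(Measure.pi fun _ => nu) :=
    (lintegral_const_mul' _ _ (ENNReal.inv_ne_top.2
      (by exact_mod_cast Nat.factorial_ne_zero _))).symm
  rw [e4]
  refine (Finset.sum_le_sum fun ab _ => e2 (r, ab)).trans ?_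
  refine (sum_lint_le (μ := Measure.pi fun _ => nu) univ (fun (ab : Fin (n + 1) × Fin (n' + 1)) (O : Fin (r : ℕ) → Xo) =>
    ∫⁻ x, ‖wP Z P n n' η η' (r, ab) (O, x)‖ₑ * ‖Ψ r O ab.1 ab.2 x‖ₑ)).trans (le_of_eq ?_)
  exact lintegral_congr fun O => sum_wP_enorm Ψ r O

end piece

/-! ### a family -/

section fam

variable [Fil] [NUSea.Sea] {ι : Type} (F : Fam ι) (ep e1 J : ℝ) (m : ℕ) (i : ι)

/-- the weight of a family -/
abbrev wF : CfN (F.top m) → ℂ :=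
  wN (fun _ => F.Z ep m i) (fun _ => NUSea.PLX.O.par0 m) (F.top m) (fun _ => cr e1 J m)
    (fun _ => cr' e1 J m) (fun _ => F.Pf m i)

variable {F ep e1 J m i}

theorem lint_wN_le (Ψ : Ins) :
    ∫⁻ ω, ‖wF F ep e1 J m i ω‖ₑ * ‖(evN (fun _ => Ψ) : CfN (F.top m) → ℂ) ω‖ₑ
      ∂(mN (F.top m)) ≤
    FS F ep e1 J m i (fun _ => 1) fun r O a b x => ‖Ψ r O a b x‖ₑ := by
  unfold FS mN
  rw [lintegral_sig, Finset.sum_range]
  refine Finset.sum_le_sum fun n _ => ?_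
  rw [one_mul, ← FA_eq_FE]
  refine le_trans (le_of_eq ?_) (mul_le_mul' (le_refl ‖F.Pf m i‖ₑ) (lint_wC_le (Z := F.Z ep m i)
    (P := NUSea.PLX.O.par0 m) (n := n) (n' := n + dN (F.top m)) (η := cr e1 J m) (η' := cr' e1 J m) Ψ))
  rw [← lintegral_const_mul' _ _ enorm_ne_top]
  refine lintegral_congr fun x => ?_
  unfold wF wN evN
  rw [enorm_mul, mul_assoc]

theorem L1_of {Ψ : Ins} {B : ℝ}
    (h : FS F ep e1 J m i (fun _ => 1) (fun r O a b x => ‖Ψ r O a b x‖ₑ) ≤ ENNReal.ofReal B) :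
    L1 (mN (F.top m)) (wF F ep e1 J m i) (evN fun _ => Ψ) B := by
  unfold L1
  refine le_trans (le_of_eq ?_) ((lint_wN_le Ψ).trans h)
  refine lintegral_congr fun ω => ?_
  rw [ENNReal.ofReal_mul (norm_nonneg _), ofReal_norm, ofReal_norm]

theorem M2_of {Ψ : Ins} {a K : ℝ}
    (h : FS F ep e1 J m i (fun _ => 1) (fun r O c d x => ‖Ψ r O c d x * Ψ r O c d x‖ₑ) ≤
      ENNReal.ofReal (a ^ 2 * K)) :
    M2 (mN (F.top m)) (wF F ep e1 J m i) K (evN fun _ => Ψ) a := by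
  unfold M2
  refine le_trans (le_of_eq ?_) ((lint_wN_le (fun r O c d x => Ψ r O c d x * Ψ r O c d x)).trans h)
  refine lintegral_congr fun ω => ?_
  rw [ENNReal.ofReal_mul (norm_nonneg _), ofReal_norm, ← ofReal_norm (evN _ ω)]
  congr 2
  rw [show (evN (fun _ => fun r O c d x => Ψ r O c d x * Ψ r O c d x) : CfN (F.top m) → ℂ) ω =
    (evN (fun _ => Ψ) : CfN (F.top m) → ℂ) ω * (evN (fun _ => Ψ) : CfN (F.top m) → ℂ) ω from rfl,
    norm_mul, pow_two]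

/-! ### statistics as insertions -/

/-- normalised test function -/
def nz (M : ℝ) (h : ℂ → ℂ) : ℂ → ℂ := fun z => ((M : ℂ)⁻¹) * h z

theorem nu1_nz (ρ : ℝ → ℂ) (η : ℝ → ℝ) (s : Bool) (g : ℂ → ℂ) {M : ℝ} (hM : 0 < M) {a b : ℕ}
    (x : (Fin a → ℝ) × (Fin b → ℝ)) :
    ‖nu1 ρ η s g x‖ₑ = ENNReal.ofReal M * ‖nu1 ρ η s (nz M g) x‖ₑ := by
  unfold nz
  rw [nu1_smul, enorm_mul, ← mul_assoc, ← ofReal_norm (((M : ℝ) : ℂ)⁻¹), norm_inv, norm_real,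
    Real.norm_of_nonneg hM.le, ← ENNReal.ofReal_mul hM.le, mul_inv_cancel₀ hM.ne',
    ENNReal.ofReal_one, one_mul]

/-- plus -/
def vpI (ρ : ℝ → ℂ) (η : Crs) (h : ℂ → ℂ) : Ins := fun r O _ _ x =>
  nu1 ρ (η r O) true h x + nu1 ρ (η r O) false h x

/-- minus -/
def vmI (ρ : ℝ → ℂ) (η : Crs) (h : ℂ → ℂ) : Ins := fun r O _ _ x =>
  nu1 ρ (η r O) true h x - nu1 ρ (η r O) false h x

theorem hgt_pA (η : ℝ → ℝ) (t : ℝ) : hgt (NUO.pA η t) = hq η t := by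
  rw [pA_hq]
  unfold hgt
  linear_combination (-(hq η t)) * I_mul_I

theorem Vp_ins {N : ℕ} (ρ : ℝ → ℂ) (η : Crs) (h : ℂ → ℂ) :
    (Vp ρ (fun _ => η) h : CfN N → ℂ) = evN fun _ => vpI ρ η h := by
  funext ω
  rw [Vp_eq]
  show _ = nu1 ρ (η ω.2.1.1 ω.2.2.1) true h ω.2.2.2 + nu1 ρ (η ω.2.1.1 ω.2.2.1) false h ω.2.2.2
  unfold nu1
  simp only [hgt_pA, if_true, Bool.false_eq_true, if_false]
  ring

theorem Vm_ins {N : ℕ} (ρ : ℝ → ℂ) (η : Crs) (h : ℂ → ℂ) :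
    (Vm ρ (fun _ => η) h : CfN N → ℂ) = evN fun _ => vmI ρ η h := by
  funext ω
  rw [Vm_eq]
  show _ = nu1 ρ (η ω.2.1.1 ω.2.2.1) true h ω.2.2.2 - nu1 ρ (η ω.2.1.1 ω.2.2.1) false h ω.2.2.2
  unfold nu1
  simp only [hgt_pA, if_true, Bool.false_eq_true, if_false]
  ring

theorem vpI_le (ρ : ℝ → ℂ) (η : Crs) (h : ℂ → ℂ) {M : ℝ} (hM : 0 < M) (r : ℕ) (O : Fin r → Xo)
    (a b : ℕ) (x : (Fin a → ℝ) × (Fin b → ℝ)) :
    ‖vpI ρ η h r O a b x‖ₑ ≤ ENNReal.ofReal M * nuE ρ (η r O) (nz M h) (nz M h) x := by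
  unfold vpI nuE
  refine (enorm_add_le _ _).trans ?_
  rw [nu1_nz ρ (η r O) true _ hM, nu1_nz ρ (η r O) false _ hM, ← mul_add, add_assoc]
  exact mul_le_mul' le_rfl le_add_self

theorem vmI_le (ρ : ℝ → ℂ) (η : Crs) (h : ℂ → ℂ) {M : ℝ} (hM : 0 < M) (r : ℕ) (O : Fin r → Xo)
    (a b : ℕ) (x : (Fin a → ℝ) × (Fin b → ℝ)) :
    ‖vmI ρ η h r O a b x‖ₑ ≤ ENNReal.ofReal M * nuE ρ (η r O) (nz M h) (nz M h) x := by
  unfold vmI nuE
  refine (enorm_sub_le).trans ?_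
  rw [nu1_nz ρ (η r O) true _ hM, nu1_nz ρ (η r O) false _ hM, ← mul_add, add_assoc]
  exact mul_le_mul' le_rfl le_add_self

/-! ### the master bound with majorants -/

variable {K ε : ℝ}

/-- without pin -/
theorem FS_maj (h : UB F ep e1 J 2 K ε) (hK : 6 ≤ K) (s : ℕ) (C0 y₁ y₂ : ℝ) (h1 : y₁ < 0)
    (h2 : 0 < y₂) :
    ∃ m0 : ℕ, ∀ m ≥ m0, ∀ i : ι, F.ok m i → ∀ ρ : ℝ → ℂ, DN C0 m ρ → ∀ M : ℝ, 0 ≤ M →
    ∀ g g' : Fin 2 → ℂ → ℂ, (∀ j, BC y₁ y₂ 1 (g j) ∧ BC y₁ y₂ 1 (g' j)) →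
    ∀ φ : InsE, (∀ r O c d x, φ r O c d x ≤ ENNReal.ofReal (M * ((r : ℝ) + 1) ^ s) *
        (nuE ρ (etaC e1 J m m) (g 0) (g' 0) x * nuE ρ (etaC e1 J m m) (g 1) (g' 1) x)) →
      FS F ep e1 J m i (fun _ => 1) φ ≤
        ENNReal.ofReal (M * (3 * s.factorial) * (m : ℝ) ^ ε * F.bd m i) := by
  obtain ⟨m0, h0⟩ := h C0 y₁ y₂ h1 h2
  refine ⟨m0, fun m hm i hi ρ hρ M hM g g' hg φ hφ => ?_⟩
  have hw := ((OW.pow (e1 := e1) s m).mono (K' := K) (by norm_num) (by linarith) (by positivity)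
    le_rfl).smul hM
  have h3 := h0 m hm i hi ρ hρ _ (mul_nonneg hM (by positivity)) _ hw (fun _ _ => g)
    (fun _ _ => g') (fun _ _ j => hg j)
  refine (FS_mono (fun _ => le_rfl) ?_).trans h3
  intro r O c d x
  rw [Fin.prod_univ_two]
  exact hφ r O c d x

/-- with pin -/
theorem FS_pin (h : UB F ep e1 J 2 K ε) (hK : 6 ≤ K) {q : ℝ} (hq0 : 0 ≤ q) (hq : q ≤ 8 / 3)
    (s : ℕ) (C0 y₁ y₂ : ℝ) (h1 : y₁ < 0) (h2 : 0 < y₂) :
    ∃ m0 : ℕ, ∀ m ≥ m0, ∀ i : ι, F.ok m i → ∀ ρ : ℝ → ℂ, DN C0 m ρ → ∀ M : ℝ, 0 ≤ M →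
    ∀ g g' : Fin 2 → ℂ → ℂ, (∀ j, BC y₁ y₂ 1 (g j) ∧ BC y₁ y₂ 1 (g' j)) →
    ∀ φ : InsE, (∀ r O c d x, φ r O c d x ≤
        ENNReal.ofReal (M * (((r : ℝ) + 1) ^ s * ∑ j, Real.exp (-(q * |ht (O j)|)))) *
        (nuE ρ (etaC e1 J m m) (g 0) (g' 0) x * nuE ρ (etaC e1 J m m) (g 1) (g' 1) x)) →
      FS F ep e1 J m i (fun _ => 1) φ ≤
        ENNReal.ofReal (M * (3 * s.factorial * (m : ℝ) ^ (-(3 / 8 * q * (1 - 4 * e1)))) *
          (m : ℝ) ^ ε * F.bd m i) := by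
  obtain ⟨m0, h0⟩ := h C0 y₁ y₂ h1 h2
  refine ⟨max m0 1, fun m hm i hi ρ hρ M hM g g' hg φ hφ => ?_⟩
  have hm0 : m0 ≤ m := (le_max_left _ _).trans hm
  have hm1 : (0 : ℝ) < m := by exact_mod_cast (le_max_right m0 1).trans hm
  have hp := pinB_pos q e1 (Real.log m)
  have hw := ((OW.pin (e1 := e1) hq0 hq s m).mono (K' := K) (by norm_num) hK (by positivity)
    le_rfl).smul hM
  have h3 := h0 m hm0 i hi ρ hρ _ (mul_nonneg hM (by positivity)) _ hw (fun _ _ => g)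
    (fun _ _ => g') (fun _ _ j => hg j)
  rw [pinB_rpow q e1 hm1] at h3
  refine (FS_mono (fun _ => le_rfl) ?_).trans h3
  intro r O c d x
  rw [Fin.prod_univ_two]
  exact hφ r O c d x

theorem BC.zero (y₁ y₂ : ℝ) : BC y₁ y₂ 1 fun _ => 0 :=
  ⟨differentiableOn_const 0, fun _ _ => by simp⟩

/-- from all larger constants -/
theorem le_of_lim {X : ℝ≥0∞} {f : ℝ → ℝ} (hf : Continuous f) {M : ℝ}
    (h : ∀ M', M < M' → X ≤ ENNReal.ofReal (f M')) : X ≤ ENNReal.ofReal (f M) := by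
  have h1 : Filter.Tendsto (fun M' => ENNReal.ofReal (f M')) (nhdsWithin M (Set.Ioi M))
      (nhds (ENNReal.ofReal (f M))) :=
    ((ENNReal.continuous_ofReal.comp hf).tendsto M).mono_left nhdsWithin_le_nhds
  exact ge_of_tendsto h1 (by filter_upwards [self_mem_nhdsWithin] with M' hM' using h M' hM')

/-! ### second moments -/

/-- **the mass** -/
theorem M2_one (h : UB F ep e1 J 2 K ε) (hK : 6 ≤ K) :
    ∃ m0 : ℕ, ∀ m ≥ m0, ∀ i : ι, F.ok m i →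
      M2 (mN (F.top m)) (wF F ep e1 J m i) (3 * (m : ℝ) ^ ε * F.bd m i) (fun _ => 1) 1 := by
  obtain ⟨m0, h0⟩ := FS_maj h hK 0 0 (-1) 1 (by norm_num) one_pos
  refine ⟨m0, fun m hm i hi => ?_⟩
  refine M2_of (Ψ := fun _ _ _ _ _ => 1) ?_
  refine (h0 m hm i hi _ (DN.std m) 1 zero_le_one (fun _ _ => 0) (fun _ _ => 0)
    (fun j => ⟨BC.zero _ _, BC.zero _ _⟩) _ fun r O c d x => ?_).trans (le_of_eq ?_)
  · simp only [pow_zero, mul_one, ENNReal.ofReal_one, one_mul, enorm_one]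
    exact one_le_mul_of_one_le_of_one_le (one_le_nuE _ _ _ _ _) (one_le_nuE _ _ _ _ _)
  · congr 1
    simp [Nat.factorial]

/-- **a statistic of the quanta**, plus -/
theorem M2_Vp (h : UB F ep e1 J 2 K ε) (hK : 6 ≤ K) (C0 y₁ y₂ : ℝ) (h1 : y₁ < 0) (h2 : 0 < y₂) :
    ∃ m0 : ℕ, ∀ m ≥ m0, ∀ i : ι, F.ok m i → ∀ ρ : ℝ → ℂ, DN C0 m ρ → ∀ M : ℝ, 0 ≤ M →
      ∀ g : ℂ → ℂ, BC y₁ y₂ M g →
      M2 (mN (F.top m)) (wF F ep e1 J m i) (3 * (m : ℝ) ^ ε * F.bd m i)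
        (Vp ρ (fun _ => cr e1 J m) g) M := by
  obtain ⟨m0, h0⟩ := FS_maj h hK 0 C0 y₁ y₂ h1 h2
  refine ⟨m0, fun m hm i hi ρ hρ M hM g hg => ?_⟩
  rw [Vp_ins]
  refine le_of_lim (f := fun M => M ^ 2 * (3 * (m : ℝ) ^ ε * F.bd m i)) (by fun_prop)
    fun M' hM' => ?_
  have hM0 : 0 < M' := hM.trans_lt hM'
  have hg' := (hg.mono hM'.le).normed hM0
  refine M2_of (a := M') ?_
  refine (h0 m hm i hi ρ hρ (M' ^ 2) (by positivity) (fun _ => nz M' g) (fun _ => nz M' g)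
    (fun j => ⟨hg', hg'⟩) _ fun r O c d x => ?_).trans (le_of_eq ?_)
  · rw [enorm_mul, pow_zero, mul_one, pow_two, ENNReal.ofReal_mul hM0.le]
    have := vpI_le ρ (cr e1 J m) g hM0 r O c d x
    refine (mul_le_mul' this this).trans (le_of_eq ?_)
    unfold cr
    ring
  · congr 1
    simp [Nat.factorial]
    ring

/-- **a statistic of the quanta**, minus -/
theorem M2_Vm (h : UB F ep e1 J 2 K ε) (hK : 6 ≤ K) (C0 y₁ y₂ : ℝ) (h1 : y₁ < 0) (h2 : 0 < y₂) :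
    ∃ m0 : ℕ, ∀ m ≥ m0, ∀ i : ι, F.ok m i → ∀ ρ : ℝ → ℂ, DN C0 m ρ → ∀ M : ℝ, 0 ≤ M →
      ∀ g : ℂ → ℂ, BC y₁ y₂ M g →
      M2 (mN (F.top m)) (wF F ep e1 J m i) (3 * (m : ℝ) ^ ε * F.bd m i)
        (Vm ρ (fun _ => cr e1 J m) g) M := by
  obtain ⟨m0, h0⟩ := FS_maj h hK 0 C0 y₁ y₂ h1 h2
  refine ⟨m0, fun m hm i hi ρ hρ M hM g hg => ?_⟩
  rw [Vm_ins]
  refine le_of_lim (f := fun M => M ^ 2 * (3 * (m : ℝ) ^ ε * F.bd m i)) (by fun_prop)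
    fun M' hM' => ?_
  have hM0 : 0 < M' := hM.trans_lt hM'
  have hg' := (hg.mono hM'.le).normed hM0
  refine M2_of (a := M') ?_
  refine (h0 m hm i hi ρ hρ (M' ^ 2) (by positivity) (fun _ => nz M' g)
    (fun _ => nz M' g) (fun j => ⟨hg', hg'⟩) _ fun r O c d x => ?_).trans (le_of_eq ?_)
  · rw [enorm_mul, pow_zero, mul_one, pow_two, ENNReal.ofReal_mul hM0.le]
    have := vmI_le ρ (cr e1 J m) g hM0 r O c d x
    refine (mul_le_mul' this this).trans (le_of_eq ?_)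
    unfold cr
    ring
  · congr 1
    simp [Nat.factorial]
    ring

/-! ### the step -/

theorem norm_sgC_le {z : ℂ} (hz : |z.im| ≤ Real.pi / 8) : ‖PB.NX.sgC z‖ ≤ 3 := by
  have h1 := PB.NX.norm_add_one_ge (PB.NX.exp_re_nonneg hz)
  have h2 : 1 ≤ ‖Complex.exp (4 * z) + 1‖ := (le_max_right _ _).trans h1
  unfold PB.NX.sgC
  refine (norm_sub_le _ _).trans ?_
  rw [norm_one, norm_div, Complex.norm_ofNat]
  have : 2 / ‖Complex.exp (4 * z) + 1‖ ≤ 2 := by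
    rw [div_le_iff₀ (by linarith)]
    linarith
  linarith

theorem BC_sgC {y₁ y₂ : ℝ} (h1 : -NUP1.l ≤ y₁) (h2 : y₂ ≤ NUP1.l) : BC y₁ y₂ 3 PB.NX.sgC := by
  have e : Real.pi / 8 = NUP1.l := rfl
  have hz : ∀ z ∈ PBE.Sp y₁ y₂, |z.im| ≤ Real.pi / 8 := fun z hz => by
    rw [e, abs_le]
    exact ⟨by linarith [hz.1], by linarith [hz.2]⟩
  exact ⟨fun z h => (PB.NX.differentiableAt_sgC (hz z h)).differentiableWithinAt,
    fun z h => norm_sgC_le (hz z h)⟩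

theorem norm_qb_le (b : Bool × Option O3) : ‖PBOb.qb b‖ ≤ 2 := by
  unfold PBOb.qb
  rw [norm_real, Real.norm_eq_abs]
  exact (PBOb.abs_sc _).2

theorem norm_sgD_le (s : Bool) (k : Option O3) {z : ℂ}
    (hz : |NUP1.l - (PBOb.pf k z).re| ≤ NUP1.l) : ‖sgD s k z‖ ≤ 6 := by
  have e : Real.pi / 8 = NUP1.l := rfl
  unfold sgD PBOb.sgU
  rw [norm_mul]
  have h1 := norm_qb_le (s, k)
  have h2 : ‖PB.NX.sgC (-I * (PBOb.pf k z - NUP1.l))‖ ≤ 3 := by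
    apply norm_sgC_le
    rw [(PBOb.sgU_arg _).2, e]
    exact hz
  calc ‖PBOb.qb (s, k)‖ * ‖PB.NX.sgC (-I * (PBOb.pf k z - NUP1.l))‖ ≤ 2 * 3 :=
        mul_le_mul h1 h2 (norm_nonneg _) (by norm_num)
    _ = 6 := by norm_num

theorem stO_sgD_le (m : ℕ) {r : ℕ} (O : Fin r → Xo) :
    ‖stO sgD (NUSea.PLX.O.par0 m) O‖ ≤ 240 * r := by
  have hP := parZ_parC m
  have hl := NUP1.Bd.l_pos
  have h := stO_leC (D := sgD) hP (M := 6) (a := 0) (by norm_num) le_rfl (by norm_num) O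
    (fun s t => by
      rw [zero_mul, neg_zero, Real.exp_zero, mul_one]
      apply norm_sgD_le
      rw [PBOb.pf_re, PBOb.sh_some]
      have e1 : (posL (NUSea.PLX.O.par0 m).jL t).re = (1 - (NUSea.PLX.O.par0 m).jL) * NUP1.l := by
        simp [posL, vl]
      rw [e1, abs_le]
      have h1 := hP.j1
      have h2 := hP.j2
      constructor <;> nlinarith)
    (fun s t => by
      rw [zero_mul, neg_zero, Real.exp_zero, mul_one]
      apply norm_sgD_le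
      rw [PBOb.pf_re, PBOb.sh_some]
      have e1 : (posT t).re = -(1 / 2 * NUP1.l) := by simp [posT, vl]
      rw [e1, abs_le]
      constructor <;> linarith)
    (fun s i t => by
      rw [zero_mul, neg_zero, Real.exp_zero, mul_one]
      apply norm_sgD_le
      rw [PBOb.pf_re, PBOb.sh_some]
      have e1 : (posS (ei (NUSea.PLX.O.par0 m) O i) t).re =
          -((1 + ei (NUSea.PLX.O.par0 m) O i) * NUP1.l) := by
        simp [posS, vl]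
      have h1 := (ei_mem hP.goodP O i).1
      have h2 := (ei_mem hP.goodP O i).2
      have h3 := hP.e1
      have h4 := hP.e2 r
      have h5 := hP.d0 r
      rw [e1, abs_le]
      constructor <;> nlinarith)
    (fun s z h1 h2 => by
      rw [zero_mul, neg_zero, Real.exp_zero, mul_one]
      apply norm_sgD_le
      rw [PBOb.pf_re, PBOb.sh_none, add_zero, abs_le]
      constructor <;> linarith)
  refine h.trans (le_of_eq ?_)
  simp only [zero_mul, neg_zero, Real.exp_zero, Finset.sum_const, Finset.card_univ,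
    Fintype.card_fin, nsmul_eq_mul, mul_one]
  ring

theorem stQ_sgD (ρ : ℝ → ℂ) (η : Crs) (r : ℕ) (O : Fin r → Xo) (a b : ℕ)
    (x : (Fin a → ℝ) × (Fin b → ℝ)) :
    stQ sgD (η r O) a b x = vmI ρ η PB.NX.sgC r O a b x +
      ((Fil.b true : ℂ) - Fil.b false) * ∫ t : ℝ, ρ t * PB.NX.sgC t := by
  have q1 : PBOb.qb (true, none) = 1 := by simp [PBOb.qb, PBI.co, NUP1S.sc, ob4, NUP1.Bd.chg]
  have q2 : PBOb.qb (false, none) = -1 := by simp [PBOb.qb, PBI.co, NUP1S.sc, ob4, NUP1.Bd.chg]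
  have e1 : ∀ (ζ : ℝ → ℝ) (t : ℝ), sgD true none (NUO.pA ζ t) = PB.NX.sgC (hq ζ t) := by
    intro ζ t
    unfold sgD PBOb.sgU PBOb.pf
    rw [q1, one_mul, PBOb.sh_none, ofReal_zero, add_zero, ← hgt_pA]
    rfl
  have e2 : ∀ (ζ : ℝ → ℝ) (t : ℝ), sgD false none (NUO.pA ζ t) = -PB.NX.sgC (hq ζ t) := by
    intro ζ t
    unfold sgD PBOb.sgU PBOb.pf
    rw [q2, neg_one_mul, PBOb.sh_none, ofReal_zero, add_zero, ← hgt_pA]
    rfl
  unfold stQ vmI nu1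
  simp only [e1, e2, if_true, Bool.false_eq_true, if_false, Finset.sum_neg_distrib]
  ring

/-- the centred step -/
def snI (ρ : ℝ → ℂ) (P : NUO.Par) (η : Crs) : Ins := fun r O a b x =>
  stA sgD P η r O a b x - ((Fil.b true : ℂ) - Fil.b false) * ∫ t : ℝ, ρ t * PB.NX.sgC t

theorem SN_ins {N : ℕ} (ρ : ℝ → ℂ) (P : NUO.Par) (η : Crs) :
    (SN ρ P (fun _ => η) : CfN N → ℂ) = evN fun _ => snI ρ P η := rfl

theorem snI_eq (ρ : ℝ → ℂ) (P : NUO.Par) (η : Crs) (r : ℕ) (O : Fin r → Xo) (a b : ℕ)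
    (x : (Fin a → ℝ) × (Fin b → ℝ)) :
    snI ρ P η r O a b x = stO sgD P O + vmI ρ η PB.NX.sgC r O a b x := by
  unfold snI stA
  rw [stQ_sgD ρ η]
  ring

/-- the step against one factor `nuE` -/
theorem step_le (ρ : ℝ → ℂ) (η : Crs) (r : ℕ) (O : Fin r → Xo) (a b : ℕ)
    (x : (Fin a → ℝ) × (Fin b → ℝ)) :
    ‖snI ρ (NUSea.PLX.O.par0 m) η r O a b x‖ₑ ≤ ENNReal.ofReal (240 * ((r : ℝ) + 1)) *
      nuE ρ (η r O) (nz 3 PB.NX.sgC) (nz 3 PB.NX.sgC) x := by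
  rw [snI_eq]
  refine (enorm_add_le _ _).trans ?_
  have h1 : ‖stO sgD (NUSea.PLX.O.par0 m) O‖ₑ ≤ ENNReal.ofReal (240 * r) := by
    rw [← ofReal_norm]
    exact ENNReal.ofReal_le_ofReal (stO_sgD_le m O)
  have h2 := vmI_le ρ η PB.NX.sgC (M := 3) (by norm_num) r O a b x
  have h3 := one_le_nuE ρ (η r O) (nz 3 PB.NX.sgC) (nz 3 PB.NX.sgC) x
  calc _ ≤ ENNReal.ofReal (240 * r) * nuE ρ (η r O) (nz 3 PB.NX.sgC) (nz 3 PB.NX.sgC) x +
        ENNReal.ofReal 3 * nuE ρ (η r O) (nz 3 PB.NX.sgC) (nz 3 PB.NX.sgC) x :=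
        add_le_add (h1.trans (le_mul_of_one_le_right' h3)) h2
    _ = ENNReal.ofReal (240 * r + 3) * nuE ρ (η r O) (nz 3 PB.NX.sgC) (nz 3 PB.NX.sgC) x := by
        rw [ENNReal.ofReal_add (by positivity) (by norm_num), add_mul]
    _ ≤ _ := mul_le_mul' (ENNReal.ofReal_le_ofReal (by linarith)) le_rfl

theorem BC_nz : BC (-(NUP1.l / 2)) (NUP1.l / 2) 1 (nz 3 PB.NX.sgC) := by
  have hl := NUP1.Bd.l_pos
  exact (BC_sgC (by linarith) (by linarith)).normed (by norm_num)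

/-- **the step** -/
theorem M2_SN (h : UB F ep e1 J 2 K ε) (hK : 6 ≤ K) (C0 : ℝ) :
    ∃ m0 : ℕ, ∀ m ≥ m0, ∀ i : ι, F.ok m i → ∀ ρ : ℝ → ℂ, DN C0 m ρ →
      M2 (mN (F.top m)) (wF F ep e1 J m i) (345600 * (m : ℝ) ^ ε * F.bd m i)
        (SN ρ (NUSea.PLX.O.par0 m) fun _ => cr e1 J m) 1 := by
  have hl := NUP1.Bd.l_pos
  obtain ⟨m0, h0⟩ := FS_maj h hK 2 C0 (-(NUP1.l / 2)) (NUP1.l / 2) (by linarith) (by linarith)
  refine ⟨m0, fun m hm i hi ρ hρ => ?_⟩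
  rw [SN_ins]
  refine M2_of (Ψ := snI ρ (NUSea.PLX.O.par0 m) (cr e1 J m)) ?_
  refine (h0 m hm i hi ρ hρ (240 ^ 2) (by positivity) (fun _ => nz 3 PB.NX.sgC)
    (fun _ => nz 3 PB.NX.sgC) (fun j => ⟨BC_nz, BC_nz⟩) _ fun r O c d x => ?_).trans (le_of_eq ?_)
  · rw [enorm_mul]
    have := step_le (m := m) ρ (cr e1 J m) r O c d x
    refine (mul_le_mul' this this).trans (le_of_eq ?_)
    rw [show (240 : ℝ) ^ 2 * ((r : ℝ) + 1) ^ 2 = (240 * ((r : ℝ) + 1)) * (240 * ((r : ℝ) + 1)) by ring,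
      ENNReal.ofReal_mul (p := 240 * ((r : ℝ) + 1)) (by positivity)]
    unfold cr
    ring
  · congr 1
    rw [show Nat.factorial 2 = 2 from rfl]
    push_cast
    ring

/-! ### one pinned factor -/

/-- the pin -/
def pinI (a : ℝ) : Ins := fun _ O _ _ _ => ((∑ j, Real.exp (-(a * |ht (O j)|)) : ℝ) : ℂ)

theorem pinI_enorm (a : ℝ) (r : ℕ) (O : Fin r → Xo) (c d : ℕ) (x : (Fin c → ℝ) × (Fin d → ℝ)) :
    ‖pinI a r O c d x‖ₑ = ENNReal.ofReal (∑ j, Real.exp (-(a * |ht (O j)|))) := by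
  unfold pinI
  rw [← ofReal_norm, norm_real, Real.norm_of_nonneg (Finset.sum_nonneg fun _ _ => (Real.exp_pos _).le)]

theorem pin_le {a : ℝ} (ha : 0 ≤ a) {r : ℕ} (O : Fin r → Xo) :
    ∑ j, Real.exp (-(a * |ht (O j)|)) ≤ (r : ℝ) + 1 := by
  have h : ∀ j ∈ (univ : Finset (Fin r)), Real.exp (-(a * |ht (O j)|)) ≤ 1 := fun j _ => by
    rw [Real.exp_le_one_iff, neg_nonpos]
    exact mul_nonneg ha (abs_nonneg _)
  refine (Finset.sum_le_card_nsmul _ _ _ h).trans ?_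
  rw [Finset.card_univ, Fintype.card_fin, nsmul_eq_mul, mul_one]
  linarith

/-- the pinned bound -/
def dl (C e1 a ε bd : ℝ) (m : ℕ) : ℝ := C * (m : ℝ) ^ (-(3 / 8 * a * (1 - 4 * e1))) * (m : ℝ) ^ ε * bd

theorem dl_mono {C C' e1 a ε bd : ℝ} {m : ℕ} (h : C ≤ C') (hb : 0 ≤ bd) :
    dl C e1 a ε bd m ≤ dl C' e1 a ε bd m := by
  unfold dl
  gcongr

/-- **a pinned factor times an insertion with a majorant** -/
theorem L1_pin (h : UB F ep e1 J 2 K ε) (hK : 6 ≤ K) {a : ℝ} (ha0 : 0 ≤ a) (ha : a ≤ 8 / 3)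
    (s : ℕ) (C0 y₁ y₂ : ℝ) (h1 : y₁ < 0) (h2 : 0 < y₂) :
    ∃ m0 : ℕ, ∀ m ≥ m0, ∀ i : ι, F.ok m i → ∀ ρ : ℝ → ℂ, DN C0 m ρ → ∀ M : ℝ, 0 ≤ M →
    ∀ g g' : Fin 2 → ℂ → ℂ, (∀ j, BC y₁ y₂ 1 (g j) ∧ BC y₁ y₂ 1 (g' j)) →
    ∀ Ψ : Ins, (∀ r O c d x, ‖Ψ r O c d x‖ₑ ≤ ENNReal.ofReal (M * ((r : ℝ) + 1) ^ s) *
        (nuE ρ (cr e1 J m r O) (g 0) (g' 0) x * nuE ρ (cr e1 J m r O) (g 1) (g' 1) x)) →
      L1 (mN (F.top m)) (wF F ep e1 J m i)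
        (fun ω => (pinN a ω : ℂ) * (evN (fun _ => Ψ) : CfN (F.top m) → ℂ) ω)
        (M * dl (3 * s.factorial) e1 a ε (F.bd m i) m) := by
  obtain ⟨m0, h0⟩ := FS_pin h hK ha0 ha s C0 y₁ y₂ h1 h2
  refine ⟨m0, fun m hm i hi ρ hρ M hM g g' hg Ψ hΨ => ?_⟩
  have e : (fun ω : CfN (F.top m) => (pinN a ω : ℂ) * (evN (fun _ => Ψ) : CfN (F.top m) → ℂ) ω) =
      evN fun _ => fun r O c d x => pinI a r O c d x * Ψ r O c d x := rfl
  rw [e]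
  refine L1_of ?_
  refine (h0 m hm i hi ρ hρ M hM g g' hg _ fun r O c d x => ?_).trans (le_of_eq ?_)
  · rw [enorm_mul, pinI_enorm]
    refine (mul_le_mul' le_rfl (hΨ r O c d x)).trans (le_of_eq ?_)
    have hp : 0 ≤ ∑ j, Real.exp (-(a * |ht (O j)|)) := Finset.sum_nonneg fun _ _ => (Real.exp_pos _).le
    rw [show M * (((r : ℝ) + 1) ^ s * ∑ j, Real.exp (-(a * |ht (O j)|))) =
      (∑ j, Real.exp (-(a * |ht (O j)|))) * (M * ((r : ℝ) + 1) ^ s) by ring,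
      ENNReal.ofReal_mul hp]
    unfold cr
    ring
  · congr 1
    unfold dl
    ring

/-- **the moments with one pinned factor** -/
theorem pins (h : UB F ep e1 J 2 K ε) (hK : 6 ≤ K) {a : ℝ} (ha0 : 0 ≤ a) (ha : a ≤ 8 / 3)
    (C0 y₁ y₂ : ℝ) (h1 : y₁ < 0) (h2 : 0 < y₂) :
    ∃ m0 : ℕ, ∀ m ≥ m0, ∀ i : ι, F.ok m i → 0 ≤ F.bd m i → ∀ ρ : ℝ → ℂ, DN C0 m ρ →
      PBRep.Pins y₁ y₂ a (mN (F.top m)) (wF F ep e1 J m i) (Vp ρ fun _ => cr e1 J m)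
        (Vm ρ fun _ => cr e1 J m) (SN ρ (NUSea.PLX.O.par0 m) fun _ => cr e1 J m) (pinN a)
        (dl 720 e1 a ε (F.bd m i) m) := by
  have hl := NUP1.Bd.l_pos
  obtain ⟨n0, g0⟩ := L1_pin h hK ha0 ha 0 C0 y₁ y₂ h1 h2
  obtain ⟨n1, g1⟩ := L1_pin h hK ha0 ha 1 C0 (-(NUP1.l / 2)) (NUP1.l / 2) (by linarith) (by linarith)
  refine ⟨max n0 n1, fun m hm i hi hb ρ hρ => ?_⟩
  have hm0 : n0 ≤ m := (le_max_left _ _).trans hm
  have hm1 : n1 ≤ m := (le_max_right _ _).trans hm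
  have z0 : ∀ j : Fin 2, BC y₁ y₂ 1 ((fun _ _ => 0 : Fin 2 → ℂ → ℂ) j) ∧
      BC y₁ y₂ 1 ((fun _ _ => 0 : Fin 2 → ℂ → ℂ) j) := fun j => ⟨BC.zero _ _, BC.zero _ _⟩
  have z1 : ∀ j : Fin 2, BC (-(NUP1.l / 2)) (NUP1.l / 2) 1 ((fun _ _ => 0 : Fin 2 → ℂ → ℂ) j) ∧
      BC (-(NUP1.l / 2)) (NUP1.l / 2) 1 ((fun _ _ => 0 : Fin 2 → ℂ → ℂ) j) :=
    fun j => ⟨BC.zero _ _, BC.zero _ _⟩
  have d3 : dl (3 * Nat.factorial 0) e1 a ε (F.bd m i) m ≤ dl 720 e1 a ε (F.bd m i) m :=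
    dl_mono (by norm_num) hb
  have d0 : 0 ≤ dl 720 e1 a ε (F.bd m i) m := by
    unfold dl
    positivity
  have nn : ∀ (r : ℕ) (O : Fin r → Xo) (c d : ℕ) (x : (Fin c → ℝ) × (Fin d → ℝ)),
      1 ≤ nuE ρ (cr e1 J m r O) (fun _ => 0) (fun _ => 0) x * nuE ρ (cr e1 J m r O) (fun _ => 0)
        (fun _ => 0) x := fun r O c d x =>
    one_le_mul_of_one_le_of_one_le (one_le_nuE _ _ _ _ _) (one_le_nuE _ _ _ _ _)
  -- a statistic of the quanta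
  have vv : ∀ (V : (ℂ → ℂ) → Ins), (∀ (M : ℝ) (_ : 0 < M) (g : ℂ → ℂ) (r : ℕ) (O : Fin r → Xo)
      (c d : ℕ) (x : (Fin c → ℝ) × (Fin d → ℝ)), ‖V g r O c d x‖ₑ ≤
        ENNReal.ofReal M * nuE ρ (cr e1 J m r O) (nz M g) (nz M g) x) →
      ∀ M g, PBE.TC y₁ y₂ a M g → L1 (mN (F.top m)) (wF F ep e1 J m i)
        (fun ω => (pinN a ω : ℂ) * (evN (fun _ => V g) : CfN (F.top m) → ℂ) ω)
        (M * dl 720 e1 a ε (F.bd m i) m) := by
    intro V hV M g hg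
    have M0 := hg.nonneg h1 h2
    refine le_of_lim (f := fun M => M * dl 720 e1 a ε (F.bd m i) m) (by fun_prop) fun M' hM' => ?_
    have hM0 : 0 < M' := M0.trans_lt hM'
    have hg' := ((BC.of_TC hg ha0 M0).mono hM'.le).normed hM0
    have := g0 m hm0 i hi ρ hρ M' hM0.le (fun j => if j = 0 then nz M' g else fun _ => 0)
      (fun j => if j = 0 then nz M' g else fun _ => 0) (fun j => by
        by_cases hj : j = 0
        · simp only [hj, if_true]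
          exact ⟨hg', hg'⟩
        · simp only [hj, if_false]
          exact ⟨BC.zero _ _, BC.zero _ _⟩) (V g) (fun r O c d x => by
        rw [pow_zero, mul_one]
        refine (hV M' hM0 g r O c d x).trans (mul_le_mul' le_rfl ?_)
        exact le_mul_of_one_le_right' (one_le_nuE _ _ _ _ _))
    exact this.mono (mul_le_mul_of_nonneg_left d3 hM0.le)
  refine ⟨d0, fun ω => pinN_nonneg a ω, ?_, ?_, ?_, ?_, ?_⟩
  · have := g0 m hm0 i hi ρ hρ 1 zero_le_one (fun _ _ => 0) (fun _ _ => 0) z0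
      (fun _ _ _ _ _ => 1) (fun r O c d x => by
        rw [enorm_one, pow_zero, mul_one, ENNReal.ofReal_one, one_mul]
        exact nn r O c d x)
    have e : (fun ω : CfN (F.top m) => (pinN a ω : ℂ)) = fun ω : CfN (F.top m) => (pinN a ω : ℂ) *
        (evN (fun _ => fun _ _ _ _ _ => 1) : CfN (F.top m) → ℂ) ω := by
      funext ω
      exact (mul_one _).symm
    rw [e]
    exact this.mono (by rw [one_mul]; exact d3)
  · have := g1 m hm1 i hi ρ hρ 1 zero_le_one (fun _ _ => 0) (fun _ _ => 0) z1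
      (pinI a) (fun r O c d x => by
        rw [pinI_enorm, pow_one, one_mul]
        refine (ENNReal.ofReal_le_ofReal (pin_le ha0 O)).trans (le_mul_of_one_le_right' ?_)
        exact one_le_mul_of_one_le_of_one_le (one_le_nuE _ _ _ _ _) (one_le_nuE _ _ _ _ _))
    refine this.mono ?_
    rw [one_mul]
    exact dl_mono (by norm_num) hb
  · have := g1 m hm1 i hi ρ hρ 240 (by norm_num) (fun _ => nz 3 PB.NX.sgC)
      (fun _ => nz 3 PB.NX.sgC) (fun j => ⟨BC_nz, BC_nz⟩)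
      (snI ρ (NUSea.PLX.O.par0 m) (cr e1 J m)) (fun r O c d x => by
        rw [pow_one]
        refine (step_le (m := m) ρ (cr e1 J m)
          r O c d x).trans (mul_le_mul' le_rfl ?_)
        exact le_mul_of_one_le_right' (one_le_nuE _ _ _ _ _))
    refine this.mono (le_of_eq ?_)
    unfold dl
    norm_num
    ring
  · intro M g hg
    rw [Vp_ins]
    exact vv (vpI ρ (cr e1 J m)) (fun M hM g r O c d x => vpI_le ρ (cr e1 J m) g hM r O c d x)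
      M g hg
  · intro M g hg
    rw [Vm_ins]
    exact vv (vmI ρ (cr e1 J m)) (fun M hM g r O c d x => vmI_le ρ (cr e1 J m) g hM r O c d x)
      M g hg

/-- **all second moments with one constant** -/
theorem M2_all (h : UB F ep e1 J 2 K ε) (hK : 6 ≤ K) (C0 y₁ y₂ : ℝ) (h1 : y₁ < 0) (h2 : 0 < y₂) :
    ∃ m0 : ℕ, ∀ m ≥ m0, ∀ i : ι, F.ok m i → 0 ≤ F.bd m i → ∀ ρ : ℝ → ℂ, DN C0 m ρ →
      M2 (mN (F.top m)) (wF F ep e1 J m i) (345600 * (m : ℝ) ^ ε * F.bd m i) (fun _ => 1) 1 ∧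
      (∀ M g, 0 ≤ M → BC y₁ y₂ M g → M2 (mN (F.top m)) (wF F ep e1 J m i)
        (345600 * (m : ℝ) ^ ε * F.bd m i) (Vp ρ (fun _ => cr e1 J m) g) M) ∧
      (∀ M g, 0 ≤ M → BC y₁ y₂ M g → M2 (mN (F.top m)) (wF F ep e1 J m i)
        (345600 * (m : ℝ) ^ ε * F.bd m i) (Vm ρ (fun _ => cr e1 J m) g) M) ∧
      M2 (mN (F.top m)) (wF F ep e1 J m i) (345600 * (m : ℝ) ^ ε * F.bd m i)
        (SN ρ (NUSea.PLX.O.par0 m) fun _ => cr e1 J m) 1 := by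
  obtain ⟨n0, g0⟩ := M2_one h hK
  obtain ⟨n1, g1⟩ := M2_Vp h hK C0 y₁ y₂ h1 h2
  obtain ⟨n2, g2⟩ := M2_Vm h hK C0 y₁ y₂ h1 h2
  obtain ⟨n3, g3⟩ := M2_SN h hK C0
  refine ⟨max (max n0 n1) (max n2 n3), fun m hm i hi hb ρ hρ => ?_⟩
  have m0 : n0 ≤ m := ((le_max_left _ _).trans (le_max_left _ _)).trans hm
  have m1 : n1 ≤ m := ((le_max_right _ _).trans (le_max_left _ _)).trans hm
  have m2 : n2 ≤ m := ((le_max_left _ _).trans (le_max_right _ _)).trans hm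
  have m3 : n3 ≤ m := ((le_max_right _ _).trans (le_max_right _ _)).trans hm
  have k0 : 0 ≤ 3 * (m : ℝ) ^ ε * F.bd m i := by positivity
  have kk : 3 * (m : ℝ) ^ ε * F.bd m i ≤ 345600 * (m : ℝ) ^ ε * F.bd m i := by
    have : (0 : ℝ) ≤ (m : ℝ) ^ ε := by positivity
    gcongr
    norm_num
  exact ⟨(g0 m m0 i hi).mono zero_le_one le_rfl kk k0,
    fun M g hM hg => (g1 m m1 i hi ρ hρ M hM g hg).mono hM le_rfl kk k0,
    fun M g hM hg => (g2 m m2 i hi ρ hρ M hM g hg).mono hM le_rfl kk k0, g3 m m3 i hi ρ hρ⟩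

end fam

end PBUI.PLX

end
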