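import Pool.Agent.PB.ValR
import Pool.Agent.NUSea.Inst
import Pool.Agent.PLX.Ns
import Pool.Agent.PLX.Fil
import Pool.Agent.PLX.NUSea.MFC
import Pool.Agent.NUP.MF.Bulk

/-!
# The mean field value of the sea at rows `0`, two numbers of rows

* `EMF0 = ∫ P v`, `EX0 = ∫ P vx`, `EMF0_eq`, `EX0_eq : EX0 = 2 log ((2 + √2) / 3)`;
* `MF_seaP`: `NUSea.PLX.MF` at the instance `seaP` is
  `(s true ^ 2 + s false ^ 2) / 2 * EMF0 - (s true - s false) ^ 2 / 2 * EX0`;
* **`AM0_match'`**: `m` rows and `M` rows `0` in the two groups, `N = m + M + 2`: the prefactor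
  `2 ^ (N (N - 1)) sin l Bp Bp` times `exp (MF (m + 1, M + 1))` is `bulk / sin l`,
  `bulk = (2 / 3 (2 + √2)) ^ (N (N - 1)) (2 / 3) ^ N`.
-/

set_option autoImplicit false

noncomputable section

open MeasureTheory Complex

namespace PBVR.PLX

open NUP1 NUP1.Leg
open NUP1.Grand (P)
open NUMFC (sq2 sq2_pos sq2_lt)

/-- the exponent of the mean field value, own part -/
def EMF0 : ℝ := ∫ t, NUMF.P t * NUMF.v t

/-- the exponent of the mean field value, the part of the difference of the numbers -/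
def EX0 : ℝ := ∫ t, NUMF.P t * (NUAct.vx t).re

theorem EMF0_eq : EMF0 = 4 * Real.log (2 / 3 * (2 + √2)) - Real.log (4 + 2 * √2) := by
  have h := NUMFC.MF_one
  unfold NUMFC.MF at h
  rw [one_pow, one_mul] at h
  exact h

theorem EX0_eq : EX0 = 2 * Real.log ((2 + √2) / 3) := by
  have hs := sq2_pos
  have h1 : EX0 = NUMF.H 0 0 - Real.log 2 := by
    have e : ∀ t : ℝ, NUMF.P t * (NUAct.vx t).re = NUMF.P t * NUMF.h (0 - t) 0 - NUMF.P t * Real.log 2 := by
      intro t
      have e1 : (NUAct.vx t).re = NUMF.h t 0 - Real.log 2 := by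
        have e2 : (NUAct.vx (t : ℂ)) = ((NUMF.h t 0 - Real.log 2 : ℝ) : ℂ) := by
          unfold NUAct.vx
          rw [NUAct.Ly_ofReal (by rw [abs_zero]; exact Real.pi_div_two_pos)]
          push_cast
          rfl
        rw [e2, Complex.ofReal_re]
      have e3 : NUMF.h (0 - t) 0 = NUMF.h t 0 := by
        unfold NUMF.h
        rw [zero_sub, mul_neg, Real.cosh_neg]
      rw [e1, e3]
      ring
    unfold EX0 NUMF.H
    simp_rw [e]
    rw [integral_sub (NUMF.Ph_integrable 0 0) (NUMF.P_integrable.mul_const _), NUMF.integral_P_mul]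
  rw [h1, NUMF.H_zero.1]
  have e1 : (2 + √2) / 3 = 4 / 3 * (1 + NUMF.r) / 2 := by
    unfold NUMF.r
    ring
  have e2 : 0 < 1 + NUMF.r := by
    unfold NUMF.r
    positivity
  have e3 : Real.log (4 / 3 * (1 + NUMF.r) / 2) =
      Real.log (4 / 3) + Real.log (1 + NUMF.r) - Real.log 2 := by
    rw [Real.log_div (by positivity) (by norm_num), Real.log_mul (by norm_num) e2.ne']
  rw [e1, e3]
  ring

theorem v_seaP' : @NUSea.v NUSea.seaP = NUMF.v := by
  funext t
  have h0 : @NUSea.vc NUSea.seaP = NUAct.vc := by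
    funext z
    exact (NUAct.vc_eq z).symm
  have h1 : @NUSea.v NUSea.seaP t = (@NUSea.vc NUSea.seaP t).re := rfl
  rw [h1, h0, NUAct.vc_ofReal, Complex.ofReal_re]

/-- the mean field value of the sea, rows `0`, the numbers `s` of rows -/
theorem MF_seaP (s : Bool → ℝ) : @NUSea.PLX.MF NUSea.seaP s =
    1 / 2 * (s true ^ 2 + s false ^ 2) * EMF0 - 1 / 2 * (s true - s false) ^ 2 * EX0 := by
  unfold NUSea.PLX.MF NUSea.PLX.Ms NUSea.PLX.Mx EMF0 EX0
  rw [v_seaP']
  have h1 : @NUSea.P NUSea.seaP = NUMF.P := rfl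
  have h2 : @NUSea.vx NUSea.seaP = NUAct.vx := rfl
  rw [h1, h2]
  ring

/-- equal numbers -/
theorem MF_same (s : ℝ) : @NUSea.PLX.MF NUSea.seaP (fun _ => s) = s ^ 2 * EMF0 := by
  rw [MF_seaP]
  ring

/-! ### the prefactor -/

theorem norm_Bp (m : ℕ) : 0 < ‖Bp 0 0 (fun _ : Fin m => (0 : ℂ))‖ ∧
    2 * Real.log ‖Bp 0 0 (fun _ : Fin m => (0 : ℂ))‖ =
      2 * m * Real.log (Real.sin NUP1.l) + m * (m + 1) * Real.log kap0 := by
  have hs := sin_l_pos
  have hk := kap0_pos
  have h : ‖Bp 0 0 (fun _ : Fin m => (0 : ℂ))‖ * ‖Bp 0 0 (fun _ : Fin m => (0 : ℂ))‖ =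
      (Real.sin NUP1.l ^ 2) ^ m * kap0 ^ (m * (m + 1)) := by
    rw [← norm_mul, Bp_sq, Complex.norm_real, Real.norm_eq_abs, abs_of_pos (by positivity)]
  have h0 : 0 < ‖Bp 0 0 (fun _ : Fin m => (0 : ℂ))‖ := by
    rcases (norm_nonneg (Bp 0 0 (fun _ : Fin m => (0 : ℂ)))).lt_or_eq with h1 | h1
    · exact h1
    · rw [← h1, zero_mul] at h
      have : 0 < (Real.sin NUP1.l ^ 2) ^ m * kap0 ^ (m * (m + 1)) := by positivity
      linarith
  refine ⟨h0, ?_⟩
  have h2 := congrArg Real.log h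
  rw [Real.log_mul h0.ne' h0.ne', Real.log_mul (by positivity) (by positivity), Real.log_pow,
    Real.log_pow, Real.log_pow] at h2
  push_cast at h2
  linarith

theorem log_kap0 : Real.log kap0 = Real.log (4 + 2 * √2) - 4 * Real.log 2 := by
  have hs := sq2_pos
  unfold kap0
  rw [Real.log_div (by positivity) (by norm_num), show (16 : ℝ) = 2 ^ 4 by norm_num, Real.log_pow]
  norm_num

/-- `sin l ^ 2 (2 + √2) ^ 2 = 4 κ`, in logarithms -/
theorem log_sin : 2 * Real.log (Real.sin NUP1.l) =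
    2 * Real.log 2 + Real.log kap0 - 2 * Real.log (2 + √2) := by
  have hs := sq2_pos
  have h0 := sin_l_pos
  have hk := kap0_pos
  have h : Real.sin NUP1.l ^ 2 * (2 + √2) ^ 2 = 2 ^ 2 * kap0 := by
    rw [sin_l_sq]
    unfold kap0
    have h2 : √2 ^ 2 = 2 := Real.sq_sqrt (by norm_num)
    have h3 : √2 ^ 3 = 2 * √2 := by rw [pow_succ, h2]
    nlinarith [h2, h3]
  have h1 := congrArg Real.log h
  rw [Real.log_mul (by positivity) (by positivity), Real.log_mul (by positivity) hk.ne', Real.log_pow,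
    Real.log_pow, Real.log_pow] at h1
  push_cast at h1
  linarith

/-- **prefactor times mean field value**, `m` rows and `M` rows, `N = m + M + 2` -/
theorem AM0_match' (m M N : ℕ) (hN : N = m + M + 2) (s : Bool → ℝ) (h1 : s true = m + 1)
    (h2 : s false = M + 1) :
    (2 : ℝ) ^ (N * (N - 1)) * ‖Complex.sin NUP1.l * (Bp 0 0 (fun _ : Fin m => (0 : ℂ)) *
      Bp 0 0 (fun _ : Fin M => (0 : ℂ)))‖ * Real.exp (@NUSea.PLX.MF NUSea.seaP s) =
      (Real.sin NUP1.l)⁻¹ * ((2 / 3 * (2 + √2)) ^ (N * (N - 1)) * (2 / 3) ^ N) := by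
  have hs := sq2_pos
  have h0 := sin_l_pos
  obtain ⟨p1, q1⟩ := norm_Bp m
  obtain ⟨p2, q2⟩ := norm_Bp M
  have e1 : ‖Complex.sin NUP1.l‖ = Real.sin NUP1.l := by
    rw [← Complex.ofReal_sin, Complex.norm_real, Real.norm_eq_abs, abs_of_pos h0]
  have hb : (0 : ℝ) < 2 / 3 * (2 + √2) := by positivity
  have l1 : Real.log (2 / 3 * (2 + √2)) = Real.log (2 / 3) + Real.log (2 + √2) := by
    rw [Real.log_mul (by norm_num) (by positivity)]
  have l2 : Real.log (2 / 3) = Real.log 2 - Real.log 3 := Real.log_div (by norm_num) (by norm_num)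
  have l3 : Real.log ((2 + √2) / 3) = Real.log (2 + √2) - Real.log 3 :=
    Real.log_div (by positivity) (by norm_num)
  have k1 := log_kap0
  have k2 := log_sin
  have hNc : ((N * (N - 1) : ℕ) : ℝ) = (m + M + 2) * (m + M + 1) := by
    rw [hN, show m + M + 2 - 1 = m + M + 1 by omega]
    push_cast
    ring
  have hNc' : (N : ℝ) = m + M + 2 := by
    rw [hN]
    push_cast
    ring
  refine Real.log_injOn_pos (Set.mem_Ioi.2 ?_) (Set.mem_Ioi.2 ?_) ?_
  · rw [norm_mul, norm_mul, e1]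
    positivity
  · positivity
  · rw [norm_mul, norm_mul, e1, Real.log_mul (by positivity) (by positivity), Real.log_exp,
      Real.log_mul (by positivity) (by positivity), Real.log_mul h0.ne' (by positivity),
      Real.log_mul p1.ne' p2.ne', Real.log_pow, Real.log_mul (by positivity) (by positivity),
      Real.log_mul (by positivity) (by positivity), Real.log_inv, Real.log_pow, Real.log_pow, hNc,
      MF_seaP, h1, h2, EMF0_eq, EX0_eq, l1, l3, l2, hNc']
    have q1' : Real.log ‖Bp 0 0 (fun _ : Fin m => (0 : ℂ))‖ =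
      m * Real.log (Real.sin NUP1.l) + m * (m + 1) / 2 * Real.log kap0 := by linarith
    have q2' : Real.log ‖Bp 0 0 (fun _ : Fin M => (0 : ℂ))‖ =
      M * Real.log (Real.sin NUP1.l) + M * (M + 1) / 2 * Real.log kap0 := by linarith
    have k2' : Real.log (Real.sin NUP1.l) =
      Real.log 2 + Real.log kap0 / 2 - Real.log (2 + √2) := by linarith
    rw [q1', q2', k2', k1]
    ring

end PBVR.PLX

end
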