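import Pool.Agent.PLX.PB.Reg0
import Pool.Agent.PLX.Fil

/-!
# The two-point function of two rows as the sum of the eleven integrals, rows `(m | q m)` at `0`

* `W_gas_R0U` : `BN N ^ 2 * WP h` for the data `R0U m M β ex ex0`, `N = m + M + 2`, distance `m + 1`, `m ≤ M`;
* `W_gas_R0` : the same for `R0 m β ex ex0` (`M = Fil.q * m`), numbers `n`, `n + Fil.xn m`; here
  `N = (Fil.q + 1) * m + 2`.
-/

set_option autoImplicit false
set_option linter.unusedSectionVars false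
set_option linter.unusedVariables false

noncomputable section

open Complex MeasureTheory Filter Topology
open PLX (Fil)

namespace Pool.Agent.PLX

open NUP1
open NUP1.N (E11)
open NUP1.Leg (Bp cc)

/-- the data `R0U m M β ex ex0` -/
theorem W_gas_R0U {m M N r : ℕ} (hr : r = m + 1) (hN : N = m + M + 2) (hmM : m ≤ M) (h : r < N) {a : ℝ}
    (ha : a = 31 / 50 ∨ a = 5 / 4) {β : ℝ} (hβ : 1 < β) (hβ' : β ≤ 4 / 3) {ex ex0 : List ℂ}
    (hex : ∀ w ∈ ex, |w.re| ≤ l / 2) (hex0 : ∀ w ∈ ex0, |w.re| ≤ l / 2) :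
    BN N ^ 2 * WP h =
      sin l * (Bp 0 0 (fun _ : Fin m => 0) * Bp 0 0 (fun _ : Fin M => 0)) *
      ∑ n ∈ Finset.range (2 * m + 1),
        E11 (3 / 5 * l) (-(17 / 10) * l) (R0U m M β ex ex0).p (R0U m M β ex ex0).q (R0U m M β ex ex0).x
          (R0U m M β ex ex0).y (R0U m M β ex ex0).hX (R0U m M β ex ex0).hY n (n + (M - m)) (a * l)
          (-(11 / 4) * l) :=
  W_gas hr hN hmM h ha (R0U_Ok m M (by linarith) hβ' hex hex0) hβ rfl rfl (R0U_Z m M β ex ex0)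

theorem xn_eq [Fil] (m : ℕ) : Fil.q * m - m = Fil.xn m := by
  unfold Fil.xn
  rw [Nat.sub_mul, one_mul]

/-- **rows `(m | q m)` at `0`**, distance `m + 1` on the cylinder of `(q + 1) m + 2` rows -/
theorem W_gas_R0 [Fil] {m N r : ℕ} (hr : r = m + 1) (hN : N = (Fil.q + 1) * m + 2) (h : r < N) {a : ℝ}
    (ha : a = 31 / 50 ∨ a = 5 / 4) {β : ℝ} (hβ : 1 < β) (hβ' : β ≤ 4 / 3) {ex ex0 : List ℂ}
    (hex : ∀ w ∈ ex, |w.re| ≤ l / 2) (hex0 : ∀ w ∈ ex0, |w.re| ≤ l / 2) :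
    BN N ^ 2 * WP h =
      sin l * (Bp 0 0 (fun _ : Fin m => 0) * Bp 0 0 (fun _ : Fin (Fil.q * m) => 0)) *
      ∑ n ∈ Finset.range (2 * m + 1),
        E11 (3 / 5 * l) (-(17 / 10) * l) (R0 m β ex ex0).p (R0 m β ex ex0).q (R0 m β ex ex0).x
          (R0 m β ex ex0).y (R0 m β ex ex0).hX (R0 m β ex ex0).hY n (n + Fil.xn m) (a * l)
          (-(11 / 4) * l) := by
  have h1 : m ≤ Fil.q * m := Nat.le_mul_of_pos_left m Fil.q_pos
  have h2 := W_gas_R0U (m := m) (M := Fil.q * m) hr (by rw [hN]; ring) h1 h ha hβ hβ' hex hex0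
  rwa [xn_eq] at h2

end Pool.Agent.PLX

end
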