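import Pool.Agent.PLX.Ns
import Pool.Agent.PLX.IB
import Pool.Agent.PLX.PB.MBd
import Pool.Agent.PLX.PB.WPc
import Pool.Agent.PLX.PB.WPlus0
import Pool.Agent.PLX.PB.ObStep
import Pool.Agent.PB.FldX

/-!
# Plan B: the minus channel of level two (`LevD.wm`, `LevD.ws`), first part, two fillings

The field of the species `s` is `ib (sg2 (XS ρ 0 β0)) s = (b s)⁻¹ sg2 (XS ρ 0 β0) s`, the density of the species
`s` is `b s ρ`; the products are the landed ones.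

* `tgh_eq`: the step of `PB/WaveE` is the step of `PB/NormX` in the strip; `dk_TC`, `dk_step`;
* `mass_zero`: the field of a test function has no mass;
* `m2_V`, `l1_pV`: moments of the statistics from `PBU.PLX.MBd`;
* `Pp_min`, `Pp_step`: the response of the objects is pinned;
* `dh_const`: the constant of the derivative term; `wm_fdw`: the data of a field; `mB_zero`.
-/

set_option autoImplicit false
set_option linter.unusedSectionVars false

noncomputable section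

open Complex MeasureTheory Finset
open scoped ENNReal
open PLX (Fil)

namespace PBWM.PLX

open NUO NUP1 NUCR NUP1S NUP1S.Ab NUP1S.AbC NUGC NUGC.PLX PBFunc PBFunc.PLX PBF PBF.PLX PBWP PBWP.PLX PBOR PBOR.PLX
open Pool.Agent.PB (CmV CsV CssV)
open PBE (TC SeaL XS thX sg2 mass bS)
open PBE.PLX (ib b_ib norm_ib_le)
open PBU.PLX (BC MBd)

/-! ### moments -/

section gen

variable {Ω : Type*} [MeasurableSpace Ω] {μ : Measure Ω} {w A B : Ω → ℂ} {K a b : ℝ}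

theorem m2_add (ha : 0 ≤ a) (hb : 0 ≤ b) (hK : 0 ≤ K) (hw : AEStronglyMeasurable w μ)
    (hA : AEStronglyMeasurable A μ) (h : M2 μ w K A a) (h' : M2 μ w K B b) :
    M2 μ w K (fun ω => A ω + B ω) (a + b) := by
  refine PBU.PLX.M2.of_pos fun M' hM' => ?_
  obtain ⟨e, he⟩ : ∃ e : ℝ, e = (M' - (a + b)) / 2 := ⟨_, rfl⟩
  have he0 : 0 < e := by rw [he]; (clear * - hM'; linarith)
  have h1 : M2 μ w K A (a + e) := h.mono ha (by (clear * - he0; linarith)) le_rfl hK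
  have h2 : M2 μ w K B (b + e) := h'.mono hb (by (clear * - he0; linarith)) le_rfl hK
  have h3 := h1.add (by (clear * - ha he0; linarith)) (by (clear * - hb he0; linarith)) hw hA h2
  have : a + e + (b + e) = M' := by rw [he]; ring
  rwa [this] at h3

theorem m2_c (h : M2 μ w K (fun _ => 1) 1) (c : ℂ) : M2 μ w K (fun _ => c) ‖c‖ := by
  have := h.smul c
  simpa using this

theorem m2_le_c {c : ℝ} (h : M2 μ w K B b) (hle : ∀ ω, ‖A ω‖ ≤ c * ‖B ω‖) :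
    M2 μ w K A (c * b) := by
  unfold M2 at *
  calc ∫⁻ ω, ENNReal.ofReal (‖w ω‖ * ‖A ω‖ ^ 2) ∂μ ≤
      ∫⁻ ω, ENNReal.ofReal (c ^ 2) * ENNReal.ofReal (‖w ω‖ * ‖B ω‖ ^ 2) ∂μ := by
        refine lintegral_mono fun ω => ?_
        simp only []
        rw [← ENNReal.ofReal_mul (by positivity)]
        apply ENNReal.ofReal_le_ofReal
        have h1 : ‖A ω‖ ^ 2 ≤ (c * ‖B ω‖) ^ 2 := pow_le_pow_left₀ (norm_nonneg _) (hle ω) 2
        have h2 := mul_le_mul_of_nonneg_left h1 (norm_nonneg (w ω))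
        refine h2.trans (le_of_eq ?_)
        ring
    _ = ENNReal.ofReal (c ^ 2) * ∫⁻ ω, ENNReal.ofReal (‖w ω‖ * ‖B ω‖ ^ 2) ∂μ :=
        lintegral_const_mul' _ _ ENNReal.ofReal_ne_top
    _ ≤ ENNReal.ofReal (c ^ 2) * ENNReal.ofReal (b ^ 2 * K) := mul_le_mul' le_rfl h
    _ = _ := by
        rw [← ENNReal.ofReal_mul (by (clear * -; positivity))]
        congr 1
        ring

theorem l1_le_c {c : ℝ} (hc : 0 ≤ c) (h : L1 μ w B b) (hle : ∀ ω, ‖A ω‖ ≤ c * ‖B ω‖) :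
    L1 μ w A (c * b) := by
  unfold L1 at *
  calc ∫⁻ ω, ENNReal.ofReal (‖w ω‖ * ‖A ω‖) ∂μ ≤
      ∫⁻ ω, ENNReal.ofReal c * ENNReal.ofReal (‖w ω‖ * ‖B ω‖) ∂μ := by
        refine lintegral_mono fun ω => ?_
        simp only []
        rw [← ENNReal.ofReal_mul hc]
        apply ENNReal.ofReal_le_ofReal
        have h2 := mul_le_mul_of_nonneg_left (hle ω) (norm_nonneg (w ω))
        refine h2.trans (le_of_eq ?_)
        ring
    _ = ENNReal.ofReal c * ∫⁻ ω, ENNReal.ofReal (‖w ω‖ * ‖B ω‖) ∂μ :=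
        lintegral_const_mul' _ _ ENNReal.ofReal_ne_top
    _ ≤ ENNReal.ofReal c * ENNReal.ofReal b := mul_le_mul' le_rfl h
    _ = _ := (ENNReal.ofReal_mul hc).symm

theorem wmi_mono {y₁ y₂ a K K' θ θ' δp δp' M : ℝ} {V : (ℂ → ℂ) → Ω → ℂ} {S Y : Ω → ℂ}
    {C : (ℂ → ℂ) → ℂ} {Cs : ℂ} {D : (ℂ → ℂ) → Ω → ℂ} {Ds Q P : Ω → ℂ}
    (h : PBE.WMi y₁ y₂ a μ w K θ δp M V S Y C Cs D Ds Q P) (h1 : y₁ < 0) (h2 : 0 < y₂)
    (hM : 0 ≤ M) (hK0 : 0 ≤ K) (hK : K ≤ K') (hθ0 : 0 ≤ θ) (hθ : θ ≤ θ') (hδ : δp ≤ δp') :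
    PBE.WMi y₁ y₂ a μ w K' θ' δp' M V S Y C Cs D Ds Q P where
  two := h.two
  step := h.step
  mQ := h.mQ
  mP := h.mP
  q2 := h.q2.mono (by positivity) (by (clear * - hθ hM; gcongr)) hK hK0
  mD := h.mD
  mDs := h.mDs
  d2 M' k hk := by
    have := hk.nonneg h1 h2
    exact (h.d2 M' k hk).mono (by positivity) (by (clear * - hM this hθ; gcongr)) hK hK0
  ds2 := h.ds2.mono (by positivity) (by (clear * - hθ hM; gcongr)) hK hK0
  p2 M' k hk := by
    have := hk.nonneg h1 h2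
    exact (h.p2 M' k hk).mono (by (clear * - hM this hδ; gcongr))
  ps := h.ps.mono (by (clear * - hM hδ; gcongr))

end gen

/-! ### the two steps -/

theorem tgh_eq {z : ℂ} (hz : |z.im| ≤ Real.pi / 8) : PBV.tgh z = PB.NX.sgC z := by
  have h0 := PB.NX.exp_re_nonneg hz
  have h1 : Complex.exp (4 * z) + 1 ≠ 0 := by
    intro h
    have := congrArg Complex.re h
    rw [add_re, one_re, zero_re] at this
    clear * - h0 this
    linarith
  have e1 : Complex.exp (4 * z) = Complex.exp (2 * z) * Complex.exp (2 * z) := by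
    rw [← Complex.exp_add]
    congr 1
    ring
  have h2 := Complex.exp_ne_zero (2 * z)
  unfold PBV.tgh PB.NX.sgC
  rw [Complex.sinh, Complex.cosh, Complex.exp_neg]
  rw [e1] at h1 ⊢
  generalize Complex.exp (2 * z) = E at h1 h2 ⊢
  have h3 : E ^ 2 + 1 ≠ 0 := by rwa [pow_two]
  have e5 : E + E⁻¹ = (E ^ 2 + 1) / E := by field_simp
  have e6 : E - E⁻¹ = (E ^ 2 - 1) / E := by field_simp
  rw [e5, e6, ← pow_two]
  field_simp
  ring

theorem deriv_sgC {z : ℂ} (hz : |z.im| < Real.pi / 8) :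
    deriv PB.NX.sgC z = deriv PBV.tgh z := by
  refine Filter.EventuallyEq.deriv_eq ?_
  have ho : IsOpen {w : ℂ | |w.im| < Real.pi / 8} :=
    isOpen_lt (by fun_prop) continuous_const
  filter_upwards [ho.mem_nhds hz] with w hw
  exact (tgh_eq (le_of_lt hw)).symm

/-- the derivative of the step -/
theorem dk_step {b : ℝ} (hb : 0 < b) (hbl : b < NUP1.l) : ∃ D : ℝ, 0 ≤ D ∧
    ∀ z : ℂ, |z.im| < b → DifferentiableAt ℂ (deriv PB.NX.sgC) z ∧
      ‖deriv PB.NX.sgC z‖ ≤ D := by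
  have hl : Real.pi / 8 = NUP1.l := rfl
  have hl2 : NUMF.l = NUP1.l := rfl
  have hl0 := Bd.l_pos
  obtain ⟨h1, -⟩ := PBE.tgh_TC hb (by rw [hl2]; (clear * - hb hbl; linarith) : b < 2 * NUMF.l)
  have hD : 0 ≤ 8 / Real.cos (2 * b) ^ 2 := by (clear * -; positivity)
  refine ⟨_, hD, fun z hz => ?_⟩
  have hz' := abs_lt.1 hz
  have h2 : DifferentiableAt ℂ (deriv PBV.tgh) z := h1.dAt ⟨by (clear * - hz'; linarith), by (clear * - hz'; linarith)⟩
  have h3 := h1.bd z ⟨by (clear * - hz'; linarith), by (clear * - hz'; linarith)⟩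
  have hzl : |z.im| < Real.pi / 8 := by rw [hl]; (clear * - hbl hz; linarith)
  refine ⟨?_, ?_⟩
  · refine h2.congr_of_eventuallyEq ?_
    have ho : IsOpen {w : ℂ | |w.im| < Real.pi / 8} :=
      isOpen_lt (by fun_prop) continuous_const
    filter_upwards [ho.mem_nhds hzl] with w hw
    exact deriv_sgC hw
  · rw [deriv_sgC hzl]
    refine h3.trans (mul_le_of_le_one_right hD (Real.exp_le_one_iff.2 ?_))
    have := abs_nonneg z.re
    clear * - this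
    linarith

/-- the derivative of a test function -/
theorem dk_TC {y₁ y₂ a M b r : ℝ} {k : ℂ → ℂ} (hk : TC y₁ y₂ a M k) (ha : 0 ≤ a) (hM : 0 ≤ M)
    (hr : 0 < r) (h1 : y₁ + r ≤ -b) (h2 : b ≤ y₂ - r) {z : ℂ} (hz : |z.im| < b) :
    DifferentiableAt ℂ (deriv k) z ∧ ‖deriv k z‖ ≤ M * (Real.exp (a * r) / r) := by
  have hd := Pool.Agent.PB.TC_derivTC hk ha hM hr
  have hz' := abs_lt.1 hz
  have hm : z ∈ PBE.Sp (y₁ + r) (y₂ - r) := ⟨by (clear * - h1 hz'; linarith), by (clear * - h2 hz'; linarith)⟩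
  refine ⟨hd.dAt hm, (hd.bd z hm).trans ?_⟩
  have h3 : Real.exp (-(a * |z.re|)) ≤ 1 := Real.exp_le_one_iff.2 (by
    have := mul_nonneg ha (abs_nonneg z.re)
    clear * - this
    linarith)
  have h4 : 0 ≤ M * Real.exp (a * r) / r := by (clear * - hM hr; positivity)
  calc M * Real.exp (a * r) / r * Real.exp (-(a * |z.re|)) ≤ M * Real.exp (a * r) / r * 1 :=
        mul_le_mul_of_nonneg_left h3 h4
    _ = _ := by ring

/-- **the field of a test function has no mass** -/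
theorem mass_zero {y₁ y₂ a b κ B M : ℝ} {β g : ℂ → ℂ} (hβ : TC (-b) b κ B β) (hκ0 : 0 < κ)
    (hκ : κ < 2) (hb : 0 < b) (hb2 : b < 2 * NUMF.l) (hg : TC y₁ y₂ a M g) (ha : 0 < a)
    (h1 : y₁ < 0) (h2 : 0 < y₂)
    (he : ∀ z : ℂ, |z.im| < b → ∀ s : Bool, PB.rsp (fun s => sg2 β s) s z = sg2 g s z) :
    mass β = 0 := by
  obtain ⟨C, hC, H⟩ := PBE.fwd_step (κ₂ := κ / 2) (κ₁ := κ) (b := b) (b' := b / 2) (by (clear * - hκ0; linarith))
    (by (clear * - hκ0; linarith)) hκ (by (clear * - hb; linarith)) (by (clear * - hb; linarith)) hb2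
  obtain ⟨-, e, te, re⟩ := H B β hβ
  have hM := hg.nonneg h1 h2
  have hB := hβ.nonneg (by (clear * - hb; linarith)) hb
  obtain ⟨c, hc⟩ : ∃ c : ℝ, c = min 4 (min a (κ / 2)) := ⟨_, rfl⟩
  have hc0 : 0 < c := by
    rw [hc]
    exact lt_min (by norm_num) (lt_min ha (by (clear * - hκ0; linarith)))
  have hc1 : c ≤ 4 := by rw [hc]; exact min_le_left _ _
  have hc2 : c ≤ a := by rw [hc]; exact (min_le_right _ _).trans (min_le_left _ _)
  have hc3 : c ≤ κ / 2 := by rw [hc]; exact (min_le_right _ _).trans (min_le_right _ _)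
  have key : ∀ t : ℝ, 0 ≤ t → ‖4 * mass β‖ ≤ (8 * ‖mass β‖ + M + C * B) *
      Real.exp (-(c * t)) := by
    intro t ht
    have hz : |((t : ℝ) : ℂ).im| < b / 2 := by rw [ofReal_im, abs_zero]; (clear * - hb; linarith)
    have r1 := re t hz false
    rw [he t (by rw [ofReal_im, abs_zero]; exact hb) false] at r1
    have r2 : g t = e t + 4 * mass β * PBV.tgh t := r1
    have e1 : 4 * mass β = 4 * mass β * (1 - PBV.tgh t) + (g t - e t) := by
      rw [r2]; ring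
    have n1 : ‖1 - PBV.tgh (t : ℂ)‖ ≤ 2 * Real.exp (-(c * t)) := by
      have hp := Real.pi_pos
      rw [tgh_eq (by rw [ofReal_im, abs_zero]; positivity)]
      have := PB.NX.norm_one_sub_sgC (z := (t : ℂ)) (by rw [ofReal_im, abs_zero]; positivity)
        (by rw [ofReal_re]; exact ht)
      rw [ofReal_re, abs_of_nonneg ht] at this
      refine this.trans (mul_le_mul_of_nonneg_left (Real.exp_le_exp.2 ?_) (by norm_num))
      clear * - hc1 ht
      nlinarith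
    have n2 : ‖g t‖ ≤ M * Real.exp (-(c * t)) := by
      have := hg.bd (t : ℂ) ⟨by simpa using h1, by simpa using h2⟩
      rw [ofReal_re, abs_of_nonneg ht] at this
      refine this.trans (mul_le_mul_of_nonneg_left (Real.exp_le_exp.2 ?_) hM)
      clear * - hc2 ht
      nlinarith
    have n3 : ‖e t‖ ≤ C * B * Real.exp (-(c * t)) := by
      have := te.bd (t : ℂ) ⟨by simp; (clear * - hb; linarith), by simp; (clear * - hb; linarith)⟩
      rw [ofReal_re, abs_of_nonneg ht] at this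
      refine this.trans (mul_le_mul_of_nonneg_left (Real.exp_le_exp.2 ?_) (by positivity))
      clear * - hc3 ht
      nlinarith
    rw [e1]
    refine (norm_add_le _ _).trans ?_
    have n4 : ‖4 * mass β * (1 - PBV.tgh (t : ℂ))‖ ≤
        8 * ‖mass β‖ * Real.exp (-(c * t)) := by
      rw [norm_mul, norm_mul]
      have : ‖(4 : ℂ)‖ = 4 := by simp
      rw [this]
      have := mul_le_mul_of_nonneg_left n1 (by positivity : 0 ≤ 4 * ‖mass β‖)
      linarith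
    have n5 := norm_sub_le (g (t : ℂ)) (e t)
    calc _ ≤ 8 * ‖mass β‖ * Real.exp (-(c * t)) + (M * Real.exp (-(c * t)) +
          C * B * Real.exp (-(c * t))) := by linarith
      _ = _ := by ring
  have hlim : Filter.Tendsto (fun t : ℝ => (8 * ‖mass β‖ + M + C * B) * Real.exp (-(c * t)))
      Filter.atTop (nhds 0) := by
    have h3 : Filter.Tendsto (fun t : ℝ => Real.exp (-(c * t))) Filter.atTop (nhds 0) := by
      refine Real.tendsto_exp_neg_atTop_nhds_zero.comp ?_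
      exact Filter.tendsto_id.const_mul_atTop hc0
    simpa using h3.const_mul (8 * ‖mass β‖ + M + C * B)
  have h4 : ‖4 * mass β‖ ≤ 0 := ge_of_tendsto hlim
    (Filter.eventually_atTop.2 ⟨0, fun t ht => key t ht⟩)
  have h5 : 4 * mass β = 0 := norm_le_zero_iff.1 h4
  simpa using h5

/-! ### the statistics -/

theorem bc_mul {b1 G : ℝ} {f : ℂ → ℂ} (hd : ∀ z : ℂ, |z.im| < b1 → DifferentiableAt ℂ f z)
    (hb : ∀ z : ℂ, |z.im| < b1 → ‖f z‖ ≤ G) {ε : ℂ} (hε : ‖ε‖ ≤ 1) :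
    BC (-b1) b1 G fun z => ε * f z where
  an z hz := ((hd z (abs_lt.2 hz)).const_mul _).differentiableWithinAt
  bd z hz := by
    rw [norm_mul]
    have h1 := hb z (abs_lt.2 hz)
    have h2 := mul_le_mul hε h1 (norm_nonneg _) zero_le_one
    linarith

theorem sg2_eq (f : ℂ → ℂ) (s : Bool) (z : ℂ) : sg2 f s z = -eM s * f z := by
  unfold sg2 eM
  cases s <;> simp

theorem sg2_fun (f : ℂ → ℂ) (s : Bool) : sg2 f s = fun z => -eM s * f z :=
  funext fun z => sg2_eq f s z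

theorem norm_sg2 (f : ℂ → ℂ) (s : Bool) (z : ℂ) : ‖sg2 f s z‖ = ‖f z‖ := by
  rw [sg2_eq, norm_mul, norm_neg, norm_eM, one_mul]

theorem bc_sg2 {b1 G : ℝ} {f : ℂ → ℂ} (hd : ∀ z : ℂ, |z.im| < b1 → DifferentiableAt ℂ f z)
    (hb : ∀ z : ℂ, |z.im| < b1 → ‖f z‖ ≤ G) (s : Bool) : BC (-b1) b1 G (sg2 f s) := by
  rw [sg2_fun]
  exact bc_mul hd hb (by rw [norm_neg, norm_eM])

theorem bc_eM {b1 G : ℝ} {f : ℂ → ℂ} (hd : ∀ z : ℂ, |z.im| < b1 → DifferentiableAt ℂ f z)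
    (hb : ∀ z : ℂ, |z.im| < b1 → ‖f z‖ ≤ G) (s : Bool) : BC (-b1) b1 G fun z => eM s * f z :=
  bc_mul hd hb (norm_eM s).le

theorem bd_TC {y₁ y₂ a M b1 : ℝ} {g : ℂ → ℂ} (hg : TC y₁ y₂ a M g) (ha : 0 ≤ a) (hM : 0 ≤ M)
    (h1 : y₁ ≤ -b1) (h2 : b1 ≤ y₂) {z : ℂ} (hz : |z.im| < b1) : ‖g z‖ ≤ M := by
  have hz' := abs_lt.1 hz
  refine (hg.bd z ⟨by (clear * - h1 hz'; linarith), by (clear * - h2 hz'; linarith)⟩).trans (mul_le_of_le_one_right hM
    (Real.exp_le_one_iff.2 ?_))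
  have := mul_nonneg ha (abs_nonneg z.re)
  clear * - this
  linarith

variable [Fil]

variable {N : ℕ} {Z : ℕ → Bool → Option O3 → ℂ → ℂ} {P : NUO.Par} {η η' : ℕ → Crs}
  {c : ℕ → ℂ} {δ b0 b1 : ℝ} {kk : ℕ → ℝ} {LZ : ℕ → Bool → ℂ → ℂ}
  {LP : (r : ℕ) → (Fin r → Xo) → Bool → ℂ → ℂ} {ρ : ℂ → ℂ} {K q dp : ℝ}

theorem norm_evN_mul (Ψ : ℕ → Ins) (ω : CfN N) :
    ‖evN (fun n r O a b x => ((r : ℂ) + 1) * Ψ n r O a b x) ω‖ =
      ((ω.2.1.1 : ℕ) + 1) * ‖evN Ψ ω‖ := by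
  show ‖(((ω.2.1.1 : ℕ) : ℂ) + 1) * _‖ = _
  rw [norm_mul, PBU.PLX.norm_cn]
  rfl

theorem mVy (h : FibN N Z (fun _ => P) η η' δ 0 b0 b1 kk LZ (fun _ => LP) ρ)
    {g : Bool → ℂ → ℂ} {G : ℝ} (hg : ∀ s, BC (-b1) b1 G (g s)) :
    ∀ n ≤ N, MIn (Vy 0 (η n) ρ g) := fun n hn =>
  MIn.vy (h.mc n hn) (h.hs n hn) h.b01 ρ fun s _ hz =>
    ((hg s).an.differentiableAt ((Pool.Agent.PB.isOpen_Sp _ _).mem_nhds (abs_lt.1 hz)))

/-- second moment of a statistic -/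
theorem m2_V (h : FibN N Z (fun _ => P) η η' δ 0 b0 b1 kk LZ (fun _ => LP) ρ)
    (Bd : MBd N Z (fun _ => P) η η' c ρ (-b1) b1 K q dp) {g : Bool → ℂ → ℂ} {G : ℝ}
    (hG : 0 ≤ G) (hg : ∀ s, BC (-b1) b1 G (g s)) :
    M2 (mN N) (wN Z (fun _ => P) N η η' c) K (evN fun n => Vy 0 (η n) ρ g) G := by
  have h1 := Bd.vy G (fun _ _ => g) hG (fun _ _ s => hg s) (mVy h hg)
  refine PBWP.PLX.M2.le' h1 fun ω => ?_
  rw [norm_evN_mul (fun n => Vy 0 (η n) ρ g) ω]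
  have := norm_nonneg (evN (fun n => Vy 0 (η n) ρ g) ω)
  clear * - this
  nlinarith [Nat.cast_nonneg (α := ℝ) (ω.2.1.1 : ℕ)]

theorem m2_one (Bd : MBd N Z (fun _ => P) η η' c ρ (-b1) b1 K q dp) :
    M2 (mN N) (wN Z (fun _ => P) N η η' c) K (fun _ => 1) 1 := by
  refine PBWP.PLX.M2.le' Bd.one fun ω => ?_
  show _ ≤ ‖(((ω.2.1.1 : ℕ) : ℂ) + 1)‖
  rw [PBU.PLX.norm_cn, norm_one]
  have := Nat.cast_nonneg (α := ℝ) (ω.2.1.1 : ℕ)
  clear * -
  linarith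

/-- a function of the objects at most linear in their number -/
theorem m2_r (Bd : MBd N Z (fun _ => P) η η' c ρ (-b1) b1 K q dp) {A : CfN N → ℂ} {C : ℝ}
    (hC : 0 ≤ C) (hA : ∀ ω : CfN N, ‖A ω‖ ≤ C * (ω.2.1.1 : ℕ)) :
    M2 (mN N) (wN Z (fun _ => P) N η η' c) K A C := by
  have h1 := m2_le_c (A := A) Bd.one fun ω => by
    show _ ≤ C * ‖(((ω.2.1.1 : ℕ) : ℂ) + 1)‖
    rw [PBU.PLX.norm_cn]
    have h2 := hA ω
    have : C * ((ω.2.1.1 : ℕ) : ℝ) ≤ C * (((ω.2.1.1 : ℕ) : ℝ) + 1) :=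
      mul_le_mul_of_nonneg_left (by (clear * -; linarith)) hC
    clear * - hC h2
    linarith
  rwa [mul_one] at h1

theorem norm_pin (ω : CfN N) (r0 : ℝ) :
    ‖evN (fun _ r O a b x => ((r : ℂ) + 1) * PBU.PLX.pinI r0 r O a b x) ω‖ =
      ((ω.2.1.1 : ℕ) + 1) * pinR r0 ω.2.2.1 := by
  show ‖(((ω.2.1.1 : ℕ) : ℂ) + 1) * _‖ = _
  rw [norm_mul, PBU.PLX.norm_cn, PBU.PLX.norm_pinI]
  rfl

/-- pinned term against a statistic -/
theorem l1_pV (h : FibN N Z (fun _ => P) η η' δ 0 b0 b1 kk LZ (fun _ => LP) ρ)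
    (Bd : MBd N Z (fun _ => P) η η' c ρ (-b1) b1 K q dp) {g : Bool → ℂ → ℂ} {G : ℝ}
    (hG : 0 ≤ G) (hg : ∀ s, BC (-b1) b1 G (g s)) {A : CfN N → ℂ} {C : ℝ} (hC : 0 ≤ C)
    (hA : ∀ ω : CfN N, ‖A ω‖ ≤ C * pinR q ω.2.2.1) :
    L1 (mN N) (wN Z (fun _ => P) N η η' c)
      (fun ω => A ω * evN (fun n => Vy 0 (η n) ρ g) ω) (C * (G * dp)) := by
  have h1 := Bd.pinv G (fun _ _ => g) hG (fun _ _ s => hg s) (mVy h hg)
  refine l1_le_c hC h1 fun ω => ?_
  have e : evN (fun n r O a b x =>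
      (((r : ℂ) + 1) * PBU.PLX.pinI q r O a b x) * Vy 0 (η n) ρ g r O a b x) ω =
      evN (fun _ r O a b x => ((r : ℂ) + 1) * PBU.PLX.pinI q r O a b x) ω *
        evN (fun n => Vy 0 (η n) ρ g) ω := rfl
  rw [e, norm_mul, norm_mul, norm_pin]
  have h2 := hA ω
  have h3 := pinR_nonneg q ω.2.2.1
  have h4 := norm_nonneg (evN (fun n => Vy 0 (η n) ρ g) ω)
  have h5 : 0 ≤ ((ω.2.1.1 : ℕ) : ℝ) := Nat.cast_nonneg _
  calc ‖A ω‖ * ‖evN (fun n => Vy 0 (η n) ρ g) ω‖ ≤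
        C * pinR q ω.2.2.1 * ‖evN (fun n => Vy 0 (η n) ρ g) ω‖ :=
        mul_le_mul_of_nonneg_right h2 h4
    _ = C * (1 * pinR q ω.2.2.1 * ‖evN (fun n => Vy 0 (η n) ρ g) ω‖) := by ring
    _ ≤ _ := by
        gcongr
        linarith

/-- pinned term against a function of the objects -/
theorem l1_pO (Bd : MBd N Z (fun _ => P) η η' c ρ (-b1) b1 K q dp) {A B : CfN N → ℂ} {C D : ℝ}
    (hC : 0 ≤ C) (hD : 0 ≤ D) (hA : ∀ ω : CfN N, ‖A ω‖ ≤ C * pinR q ω.2.2.1)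
    (hB : ∀ ω : CfN N, ‖B ω‖ ≤ D * (ω.2.1.1 : ℕ)) :
    L1 (mN N) (wN Z (fun _ => P) N η η' c) (fun ω => A ω * B ω) (C * D * dp) := by
  refine l1_le_c (by positivity) Bd.pin fun ω => ?_
  rw [norm_mul, norm_pin]
  have h2 := hA ω
  have h3 := pinR_nonneg q ω.2.2.1
  have h5 : 0 ≤ ((ω.2.1.1 : ℕ) : ℝ) := Nat.cast_nonneg _
  calc ‖A ω‖ * ‖B ω‖ ≤ C * pinR q ω.2.2.1 * (D * (ω.2.1.1 : ℕ)) :=
        mul_le_mul h2 (hB ω) (norm_nonneg _) (by (clear * - hC h3; positivity))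
    _ = C * D * (((ω.2.1.1 : ℕ) : ℝ) * pinR q ω.2.2.1) := by ring
    _ ≤ _ := by
        gcongr
        linarith

/-! ### the response of the objects -/

/-- the forces of the objects in the two forms -/
abbrev OkLP (P : NUO.Par) (LP : (r : ℕ) → (Fin r → Xo) → Bool → ℂ → ℂ) : Prop :=
  ∀ (r : ℕ) (O : Fin r → Xo) (s : Bool) (t : ℝ),
    LP r O s ((NUP1.l : ℂ) + I * t) = kP P O s ((NUP1.l : ℂ) + I * t)

theorem Pp_eq (hPO : ∀ (r : ℕ) (O : Fin r → Xo), PO P O) (hLP : OkLP P LP)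
    {β : Bool → ℂ → ℂ} (hi : ∀ s, Integrable fun t : ℝ => β s t) (r : ℕ) (O : Fin r → Xo)
    (a b : ℕ) (x : (Fin a → ℝ) × (Fin b → ℝ)) :
    Pp LP β r O a b x = ∑ i, kapO P O i fun s (t : ℝ) => β s t := by
  unfold Pp PBWP.PLX.obF
  simp only [hLP r O]
  exact sum_kapO (hPO r O) hi

section resp

variable {b κ B : ℝ} {β0 : ℂ → ℂ}

theorem int_sg2 (hβ : TC (-b) b κ B β0) (hκ0 : 0 < κ) (hb : 0 < b) (s : Bool) :
    Integrable fun t : ℝ => sg2 β0 s t := by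
  have h1 := (hβ.real hκ0 (by linarith) hb).1
  have e : (fun t : ℝ => sg2 β0 s t) = fun t : ℝ => -eM s * β0 t :=
    funext fun t => sg2_eq β0 s t
  rw [e]
  exact h1.const_mul _

theorem sg2_real_le (hβ : TC (-b) b κ B β0) (hb : 0 < b) (s : Bool) (t : ℝ) :
    ‖sg2 β0 s t‖ ≤ B * Real.exp (-(κ * |t|)) := by
  rw [norm_sg2]
  have := hβ.bd (t : ℂ) ⟨by simpa using hb, by simpa using hb⟩
  simpa using this

/-- **the response of the objects to the field of a test function is pinned** -/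
theorem Pp_min (hPO : ∀ (r : ℕ) (O : Fin r → Xo), PO P O) (hLP : OkLP P LP)
    (hβ : TC (-b) b κ B β0) (hκ0 : 0 < κ) (hκ2 : κ < 2) (hb : 0 < b) (hm : mass β0 = 0)
    (hq : q ≤ κ) (r : ℕ) (O : Fin r → Xo) (a b' : ℕ) (x : (Fin a → ℝ) × (Fin b' → ℝ)) :
    ‖Pp LP (sg2 β0) r O a b' x‖ ≤ B * CK κ * pinR q O := by
  have hB := hβ.nonneg (by linarith) hb
  rw [Pp_eq hPO hLP (int_sg2 hβ hκ0 hb)]
  refine (kapO_pin (hPO r O) hκ0 hκ2 hB
    (fun s => (int_sg2 hβ hκ0 hb s).aestronglyMeasurable) (sg2_real_le hβ hb)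
    (fun x => ?_)).trans (mul_le_mul_of_nonneg_left (pinR_mono hq O)
      (mul_nonneg hB (CK_nonneg hκ0 hκ2)))
  refine Finset.sum_eq_zero fun s _ => ?_
  have e : (∫ t : ℝ, sg2 β0 s t) = 0 := by
    have e1 : (fun t : ℝ => sg2 β0 s t) = fun t : ℝ => -eM s * β0 t :=
      funext fun t => sg2_eq β0 s t
    rw [e1, integral_const_mul]
    unfold mass at hm
    rw [hm, mul_zero]
  rw [e, mul_zero]

/-- **the response of the objects to the field of the step, with their own step statistic** -/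
theorem Pp_step (hPO : ∀ (r : ℕ) (O : Fin r → Xo), PO P O) (hLP : OkLP P LP)
    (hβ : TC (-b) b κ B bS) (hκ0 : 0 < κ) (hκ2 : κ < 2) (hb : 0 < b) (hq : q ≤ κ)
    (r : ℕ) (O : Fin r → Xo) (a b' : ℕ) (x : (Fin a → ℝ) × (Fin b' → ℝ)) :
    ‖Pp LP (sg2 bS) r O a b' x + -stO sgD P O‖ ≤ (PBOR.PLX.CS + B * CK κ) * pinR q O := by
  have hB := hβ.nonneg (by linarith) hb
  have hi : ∀ s, Integrable fun t : ℝ => eM s * bS t := fun s =>
    (hβ.real hκ0 (by linarith) hb).1.const_mul _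
  have h1 := stepO (hPO r O) (β := fun s (t : ℝ) => eM s * bS t) hκ0 hκ2 hB
    (fun s => (hi s).aestronglyMeasurable) (fun s t => by
      rw [norm_mul, norm_eM, one_mul, ← norm_sg2 bS s]
      exact sg2_real_le hβ hb s t) (fun s => by
      rw [integral_const_mul]
      have := PBE.mass_bS
      unfold mass at this
      rw [this])
  have e : Pp LP (sg2 bS) r O a b' x =
      -∑ i, kapO P O i fun s (t : ℝ) => eM s * bS t := by
    rw [Pp_eq hPO hLP (int_sg2 hβ hκ0 hb), ← Finset.sum_neg_distrib]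
    refine Finset.sum_congr rfl fun i _ => ?_
    rw [kapO_eq, kapO_eq, ← Finset.sum_neg_distrib]
    refine Finset.sum_congr rfl fun s _ => ?_
    rw [← integral_neg]
    refine integral_congr_ae (Filter.Eventually.of_forall fun t => ?_)
    simp only [sg2_eq]
    ring
  have e2 : Pp LP (sg2 bS) r O a b' x + -stO sgD P O =
      -(stO sgD P O + ∑ i, kapO P O i fun s (t : ℝ) => eM s * bS t) := by
    rw [e]; ring
  rw [e2, norm_neg]
  exact h1.trans (mul_le_mul_of_nonneg_left (pinR_mono hq O)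
    (add_nonneg PBOR.PLX.CS_pos.le (mul_nonneg hB (CK_nonneg hκ0 hκ2))))

end resp

/-! ### the derivative term -/

theorem cont_real {b1 : ℝ} {f : ℂ → ℂ} (hb1 : 0 < b1)
    (hd : ∀ z : ℂ, |z.im| < b1 → DifferentiableAt ℂ f z) : Continuous fun t : ℝ => f t := by
  rw [continuous_iff_continuousAt]
  intro t
  have h1 := (hd (t : ℂ) (by rw [ofReal_im, abs_zero]; exact hb1)).continuousAt
  exact ContinuousAt.comp (f := fun t : ℝ => (t : ℂ)) h1 continuous_ofReal.continuousAt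

theorem eM_sg2 (f : ℂ → ℂ) (s : Bool) (z w : ℂ) : sg2 f s z * (eM s * w) = -(f z * w) := by
  unfold sg2 eM
  cases s <;> simp

section dterm

variable {b c0 Nr κ κ₁ B D : ℝ} {β0 k : ℂ → ℂ}

theorem dh_const (hsea : SeaL b c0 Nr ρ) (hb : 0 < b) (hβ : TC (-b) b κ B β0) (hB : 0 ≤ B)
    (hκ1 : 0 < κ₁) (h1 : κ₁ ≤ κ) (h2 : κ - κ₁ ≤ 8 / 3)
    (hk : ∀ z : ℂ, |z.im| < b → DifferentiableAt ℂ (deriv k) z ∧ ‖deriv k z‖ ≤ D) :
    ‖(∑ s, ∫ u : ℝ, (Fil.b s : ℂ) * ρ u * (ib (sg2 (XS ρ 0 β0)) s u * (eM s * deriv k u))) -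
      -(2 * ∫ t : ℝ, β0 t * deriv k t)‖ ≤
      4 / κ₁ * (thX c0 Nr (κ - κ₁) 0 * B) * D := by
  have hf : Continuous fun u : ℝ => deriv k u := cont_real hb fun z hz => (hk z hz).1
  have hD : ∀ u : ℝ, ‖deriv k u‖ ≤ D := fun u =>
    (hk u (by rw [ofReal_im, abs_zero]; exact hb)).2
  have tX := PBE.XS_TC hsea hβ hB h1 h2 0
  have hT : 0 ≤ thX c0 Nr (κ - κ₁) 0 * B := mul_nonneg (PBE.thX_nonneg hsea.Np) hB
  have e1 := (PBE.int_rXD hsea hb hβ hB hκ1 h1 h2 0 hf hD).2.2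
  have e2 := PBE.int_XD_le tX hb hκ1 hT 0 hD
  simp only [ofReal_zero, sub_zero] at e1 e2
  have e3 : ∀ s : Bool, ∫ u : ℝ, (Fil.b s : ℂ) * ρ u *
      (ib (sg2 (XS ρ 0 β0)) s u * (eM s * deriv k u)) =
      -((∫ u : ℝ, β0 u * deriv k u) - ∫ u : ℝ, XS ρ 0 β0 u * deriv k u) := by
    intro s
    rw [← e1, ← integral_neg]
    refine integral_congr_ae (Filter.Eventually.of_forall fun u => ?_)
    have h3 := b_ib (sg2 (XS ρ 0 β0)) s u
    have h4 := eM_sg2 (XS ρ 0 β0) s u (deriv k u)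
    linear_combination (ρ u * (eM s * deriv k u)) * h3 + (ρ u) * h4
  rw [Fintype.sum_bool, e3, e3]
  have e4 : -((∫ u : ℝ, β0 u * deriv k u) - ∫ u : ℝ, XS ρ 0 β0 u * deriv k u) +
      -((∫ u : ℝ, β0 u * deriv k u) - ∫ u : ℝ, XS ρ 0 β0 u * deriv k u) -
      -(2 * ∫ t : ℝ, β0 t * deriv k t) = 2 * ∫ u : ℝ, XS ρ 0 β0 u * deriv k u := by ring
  rw [e4, norm_mul]
  have n2 : ‖(2 : ℂ)‖ = 2 := by simp
  rw [n2]
  calc 2 * ‖∫ u : ℝ, XS ρ 0 β0 u * deriv k u‖ ≤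
        2 * (thX c0 Nr (κ - κ₁) 0 * B * (2 / κ₁) * D) :=
        mul_le_mul_of_nonneg_left e2 (by norm_num)
    _ = _ := by ring

end dterm

/-! ### one field -/

theorem int_rho_bd {ρ : ℂ → ℂ} {b1 G : ℝ} (hs : PB.SeaF b1 ρ) (hb1 : 0 < b1) {f : ℂ → ℂ}
    (hd : ∀ z : ℂ, |z.im| < b1 → DifferentiableAt ℂ f z)
    (hb : ∀ z : ℂ, |z.im| < b1 → ‖f z‖ ≤ G) : Integrable fun t : ℝ => ρ t * f t := by
  obtain ⟨A, c, hA, hc, hbd⟩ := hs.bd
  have h0 : ∀ t : ℝ, |(t : ℂ).im| < b1 := fun t => by rw [ofReal_im, abs_zero]; exact hb1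
  have h1 : Integrable fun t : ℝ => ρ t := by
    refine ((PBE.int_exp_abs hc).1.const_mul A).mono'
      (cont_real hb1 hs.d).aestronglyMeasurable (Filter.Eventually.of_forall fun t => ?_)
    have := hbd (t : ℂ) (h0 t)
    rwa [ofReal_re] at this
  exact h1.mul_bdd (c := G) (cont_real hb1 hd).aestronglyMeasurable
    (Filter.Eventually.of_forall fun t => hb _ (h0 t))

theorem tgh_dAt {b1 : ℝ} (hb1 : 0 < b1) (hbl : b1 ≤ NUP1.l) {z : ℂ} (hz : |z.im| < b1) :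
    DifferentiableAt ℂ PBV.tgh z := by
  have hl2 : NUMF.l = NUP1.l := rfl
  have hl0 := Bd.l_pos
  exact ((PBE.tgh_TC hb1 (by rw [hl2]; linarith : b1 < 2 * NUMF.l)).2 z hz).differentiableAt

theorem tgh_le {b1 : ℝ} (hbl : b1 ≤ NUP1.l) {z : ℂ} (hz : |z.im| < b1) :
    ‖PBV.tgh z‖ ≤ 3 := by
  have hl : Real.pi / 8 = NUP1.l := rfl
  have h1 : |z.im| ≤ Real.pi / 8 := by rw [hl]; linarith
  rw [tgh_eq h1]
  exact sgC_le h1

/-- the response of the field -/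
abbrev eX (e0 : ℂ → ℂ) (m : ℂ) : Bool → ℂ → ℂ := sg2 fun z => e0 z + 4 * m * PBV.tgh z

section core

variable {b b' c0 Nr κ κ₁ κ₂ B G : ℝ} {β0 g0 e0 h0 : ℂ → ℂ} {cut : Bool → ℂ → ℂ}

theorem mulF2_ib (ρ : ℂ → ℂ) (X : Bool → ℂ → ℂ) : PB.mulF2 ρ (ib X) = PB.mulF ρ X := by
  funext s z
  unfold PB.mulF2 PB.mulF
  exact PBE.PLX.ib_dens ρ X s z

/-- **the data of a field, minus channel** -/
theorem wm_fdw (h : FibN N Z (fun _ => P) η η' δ 0 b0 b1 kk LZ (fun _ => LP) ρ)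
    (hPO : ∀ (r : ℕ) (O : Fin r → Xo), PO P O) (hLP : OkLP P LP) (hsea : SeaL b c0 Nr ρ)
    (hb1 : b1 ≤ b') (hbb : b' ≤ b) (hb1l : b1 ≤ NUP1.l) (hβ : TC (-b) b κ B β0) (hB : 0 ≤ B)
    (hκ1 : 0 < κ₁) (hκ2 : 0 ≤ κ₂) (h1 : κ₁ ≤ κ) (h2 : κ - κ₁ ≤ 8 / 3)
    (te : TC (-b') b' κ₂ (thX c0 Nr (κ - κ₁) 0 * B) e0)
    (re : ∀ z : ℂ, |z.im| < b' → ∀ t : Bool,
      PB.rsp (PB.mulF ρ (sg2 (XS ρ 0 β0))) t z =
        sg2 (fun w => g0 w - e0 w - 4 * mass (XS ρ 0 β0) * PBV.tgh w) t z)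
    (gd : ∀ z : ℂ, |z.im| < b1 → DifferentiableAt ℂ g0 z)
    (gb : ∀ z : ℂ, |z.im| < b1 → ‖g0 z‖ ≤ G)
    (hd0 : ∀ z : ℂ, |z.im| < b1 → DifferentiableAt ℂ h0 z) {M0 : ℝ}
    (hb0 : ∀ z : ℂ, |z.im| < b1 → ‖h0 z‖ ≤ M0)
    (hl : ∀ n ≤ N, ∀ r O s (t : ℝ), I * LZ n s (NUP1.l + I * zy 0 (Fil.cv s (η n r O)) t) -
      PB.kp2 ρ s (zy 0 (Fil.cv s (η n r O)) t) =
      h0 (zy 0 (Fil.cv s (η n r O)) t) + cut s (zy 0 (Fil.cv s (η n r O)) t)) :
    FdW N η b1 LZ (fun _ => LP) ρ (sg2 β0) (ib (sg2 (XS ρ 0 β0))) (sg2 g0)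
      (eX e0 (mass (XS ρ 0 β0))) (fun _ => h0) cut := by
  have hb1p := h.b1p
  have hb'p : 0 < b' := hb1p.trans_le hb1
  have hbp : 0 < b := hb'p.trans_le hbb
  have hκ : 0 < κ := by (clear * - hκ1 h1; linarith)
  have tX := PBE.XS_TC hsea hβ hB h1 h2 0
  have hT : 0 ≤ thX c0 Nr (κ - κ₁) 0 * B := mul_nonneg (PBE.thX_nonneg hsea.Np) hB
  have h0t : ∀ t : ℝ, |(t : ℂ).im| < b1 := fun t => by rw [ofReal_im, abs_zero]; exact hb1p
  have ed : ∀ z : ℂ, |z.im| < b1 → DifferentiableAt ℂ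
      (fun z => e0 z + 4 * mass (XS ρ 0 β0) * PBV.tgh z) z := fun z hz =>
    (te.dAt (abs_lt.1 (hz.trans_le hb1))).add ((tgh_dAt hb1p hb1l hz).const_mul _)
  have eb : ∀ z : ℂ, |z.im| < b1 → ‖e0 z + 4 * mass (XS ρ 0 β0) * PBV.tgh z‖ ≤
      thX c0 Nr (κ - κ₁) 0 * B + ‖4 * mass (XS ρ 0 β0)‖ * 3 := fun z hz => by
    refine (norm_add_le _ _).trans (add_le_add (bd_TC te hκ2 hT le_rfl le_rfl
      (hz.trans_le hb1)) ?_)
    rw [norm_mul]
    exact mul_le_mul_of_nonneg_left (tgh_le hb1l hz) (norm_nonneg _)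
  have dsg : ∀ (f : ℂ → ℂ), (∀ z : ℂ, |z.im| < b1 → DifferentiableAt ℂ f z) → ∀ (s : Bool)
      (z : ℂ), |z.im| < b1 → DifferentiableAt ℂ (sg2 f s) z := fun f hf s z hz => by
    rw [sg2_fun]
    exact (hf z hz).const_mul _
  have irho : ∀ (f : ℂ → ℂ) (G : ℝ), (∀ z : ℂ, |z.im| < b1 → DifferentiableAt ℂ f z) →
      (∀ z : ℂ, |z.im| < b1 → ‖f z‖ ≤ G) → ∀ s : Bool,
      Integrable fun t : ℝ => ρ t * sg2 f s t := fun f G hf hG s =>
    int_rho_bd h.sea hb1p (dsg f hf s) fun z hz => by rw [norm_sg2]; exact hG z hz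
  have iF : ∀ s : Bool, (Integrable fun t : ℝ => sg2 β0 s t) ∧
      Integrable fun t : ℝ => ib (sg2 (XS ρ 0 β0)) s t := fun s =>
    ⟨int_sg2 hβ hκ hbp s, (int_sg2 tX hκ1 hbp s).const_mul _⟩
  have iL : ∀ {f : ℝ → ℂ}, Integrable f → Integrable fun t : ℝ => f t * h0 t := fun hf =>
    hf.mul_bdd (c := M0) (cont_real hb1p hd0).aestronglyMeasurable
      (Filter.Eventually.of_forall fun t => hb0 _ (h0t t))
  have iO : ∀ {f : ℝ → ℂ}, Integrable f → ∀ (r : ℕ) (O : Fin r → Xo) (s : Bool),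
      Integrable fun t : ℝ => f t * PBWP.PLX.obF LP r O s t := by
    intro f hf r O s
    have hl0 := Bd.l_pos
    have e1 : (fun t : ℝ => PBWP.PLX.obF LP r O s t) =
        fun t : ℝ => I * kP P O s ((NUP1.l : ℂ) + I * t) := by
      funext t
      show I * LP r O s ((NUP1.l : ℂ) + I * t) = _
      rw [hLP]
    have hc : Continuous fun t : ℝ => I * kP P O s ((NUP1.l : ℂ) + I * t) := by
      refine continuous_const.mul ?_
      rw [continuous_iff_continuousAt]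
      intro t
      have h3 := (kP_dAt (hPO r O) s (z := (t : ℂ)) (by
        rw [ofReal_im, abs_zero]; positivity)).continuousAt
      exact ContinuousAt.comp (f := fun t : ℝ => (t : ℂ)) h3
        continuous_ofReal.continuousAt
    refine hf.mul_bdd (c := r * (PBOR.PLX.CO + 4)) (by rw [e1]; exact hc.aestronglyMeasurable)
      (Filter.Eventually.of_forall fun t => ?_)
    have e2 : PBWP.PLX.obF LP r O s t = I * kP P O s ((NUP1.l : ℂ) + I * t) := congrFun e1 t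
    rw [e2, norm_mul, norm_I, one_mul]
    exact kP_lI_le (hPO r O) s (by rw [ofReal_im, abs_zero]; positivity)
  exact
    { fX := PBE.PLX.FldF.ib
        { d := fun s z hz => by
            rw [sg2_fun]
            exact (tX.dAt (abs_lt.1 (hz.trans_le (hb1.trans hbb)))).const_mul _
          bd := ⟨_, hT, fun s z hz => by
            rw [norm_sg2]
            exact bd_TC tX hκ1.le hT le_rfl le_rfl (hz.trans_le (hb1.trans hbb))⟩ }
      rs := fun s z hz => by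
        rw [mulF2_ib, re z (hz.trans_le hb1) s]
        simp only [eX, sg2_eq]
        ring
      gd := fun s z hz => dsg g0 gd s z hz
      ed := fun s z hz => dsg _ ed s z hz
      ig := irho g0 G gd gb
      ie := irho _ _ ed eb
      mβ := fun s => by
        have : Continuous fun t : ℝ => sg2 β0 s t := cont_real hbp fun z hz => by
          rw [sg2_fun]
          exact (hβ.dAt (abs_lt.1 hz)).const_mul _
        exact this.measurable
      hβ := fun s t => by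
        have h3 := PBE.XS_mul (β := β0) hsea 0 (z := (t : ℂ)) (by
          rw [ofReal_im, abs_zero]; exact hbp)
        rw [ofReal_zero, add_zero] at h3
        have h4 := b_ib (sg2 (XS ρ 0 β0)) s t
        rw [sg2_eq] at h4
        rw [sg2_eq]
        linear_combination (-eM s) * h3 + (ρ t + 1) * h4
      hl := hl
      i1 := fun s => iL (iF s).1
      i2 := fun s => iL (iF s).2
      i3 := fun n _ r O s => iO (iF s).1 r O s
      i4 := fun n _ r O s => iO (iF s).2 r O s }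

theorem mB_zero (β0 h0 : ℂ → ℂ) : mB (sg2 β0) (fun _ => h0) = 0 := by
  unfold mB
  rw [Fintype.sum_bool]
  have e : ∀ s : Bool, (∫ t : ℝ, sg2 β0 s t * h0 t) = -eM s * ∫ t : ℝ, β0 t * h0 t := by
    intro s
    rw [← integral_const_mul]
    refine integral_congr_ae (Filter.Eventually.of_forall fun t => ?_)
    simp only [sg2_eq]
    ring
  rw [e, e]
  simp [eM]

end core

end PBWM.PLX

end
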