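import Pool.Agent.PLX.PB.ZFamR
import Pool.Agent.PLX.I1Q2
import Pool.Agent.PB.ZFamK

/-!
# The cut term with the literal names of the Ward identity, two fillings (port PLX of ZFamK)

* **`zcut_K`** : on the lines of all words `Zcut (ZR η0) (ZdR η0) ZpR (xiK x 0) (krK2 x) (r1K2 x 0)
  (lamK z0)` is `ZcX` with the field `xiR x 0`, rows `rwq x a`, `x = rwx k η0`.
-/

set_option autoImplicit false
set_option linter.unusedSectionVars false
set_option linter.unusedVariables false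

noncomputable section

open Complex MeasureTheory Filter Topology
open PLX (Fil)

namespace PBZF.PLX

open NUP1 NUP1.Bd NURow
open NUP1S hiding R0
open PBX (Lg)
open PBI PBI.PLX
open PBZF (KI_range KI_range')
open _root_.Pool.Agent.PLX (rwq)

variable [Fil] {b : ℝ} {a : ℕ} {z0 : ℂ}

/-- **the cut term on the lines of all words, literal names** -/
theorem zcut_K (c : Bool → ℂ) (hb1 : 1 ≤ b) (hb' : b ≤ 4 / 3) (hz : Lz z0) (η0 : ℝ)
    (ξe : ℝ → ℂ) {α : ℝ} (hα : 3 / 5 * l ≤ α) (hα' : α ≤ 9 / 10 * l) {L : PBI.Lns}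
    (hL : LnH L.X L.Y) (n n' : ℕ) :
    AllW α n n' L fun c' x => ∀ i, ∀ t : ℝ,
      Zcut (ZR c b a z0 η0 (vE b a η0 ξe) η0)
        (ZdR c b a z0 η0 (vE b a η0 ξe) η0)
        (ZpR c b a z0 η0 (vE b a η0 ξe))
        (PBQ1.xiK (rwx a (η0 : ℂ)) 0) (PBQ1.krK2 (rwx a (η0 : ℂ))) (PBQ1.r1K2 (rwx a (η0 : ℂ)) 0)
        (PBQ1.lamK z0) (c' i).1 (c' i).2 (NUP1.vl (x i) t) =
      PBC.PLX.ZcX (c (c' i).1) (rwq (rwx a (η0 : ℂ)) (c' i).1) (rwq (rwx a (η0 : ℂ)) (!(c' i).1))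
        (Fil.n (c' i).1) b (Fil.n (c' i).1 * a) ((η0 : ℂ) * I) I ξe
        (PBForce.xiR (rwx a (η0 : ℂ)) 0) (Lg z0 z0)
        (fun w => Lg z0 z0 w * Lg z0 z0 (w - l)) (c' i).2 (NUP1.vl (x i) t) := by
  intro p p' k k' h1 h2 i t
  have hi := all_KI hα hα' hL n n' k k' i
  rw [show L.all α n n' k k' i = (NUP1.vl (L.all α n n' k k' i) t).re from
    (NUP1.re_vl _ _).symm] at hi
  exact zcut_eq c hb1 hb' hz η0 ξe (PBI.cl n n' k k' i).1 hi rfl (fun o => rfl) rfl rfl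
    (lamK_eq hz hi)

end PBZF.PLX

end
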