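import Pool.Agent.PLX.Ns
import Pool.Agent.PLX.PB.ZLegP
import Pool.Agent.PLX.PB.UProps
import Pool.Agent.PLX.PB.ParZ
import Pool.Agent.PLX.PB.FNeq

/-!
# Two fillings, (Z) at the dislocated function (helper61)

Rows `i s, 0, …, 0` (`j + 1` rows, `q`-fold in the species Y), legs at `i t`, the landed curve, at most
`2 (j + 1)` quanta X (`xn (j + 1)` more quanta Y).

* `legH_L`: the hypotheses `LegH`;
* `DN_rhS`, `vP_nu1`, `FS_pI`, `FS_pI2`: the density, the statistics, the pinned functionals;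
* **`zleg`**: `F[V h0] + i ∂_z fxQ` and `F[V h0 V h0] + F[V g2] + ∂_z² fxQ` are at most
  `C j ^ (- 3/4 (1 - 4 e1) + ε)` (the hypothesis `hτ` of `PBEM.E2_of`), from `UB famL`.

The first half of the landed file (prefactor, density, statistics) is `PLX/PB/ZLegP`.
-/

set_option autoImplicit false
set_option linter.unusedSectionVars false
set_option linter.unusedVariables false

noncomputable section

open Complex MeasureTheory Finset Filter Topology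
open scoped ENNReal

open PLX (Fil)

namespace PBLg.PLX

open NUO NUP1S NUP1S.AbC NUGC NUGC.PLX NUCR PBF PBF.PLX PBFunc PBFunc.PLX
open PBI (Stt)
open NUMF (l P)
open PBU.PLX (famL UB DN BC nu1)
open Pool.Agent.PB (Pf Nu LS)
open Pool.Agent.PLX (yq fxQ)
open PBL.PLX (mu1)

attribute [local instance] NUSea.seaP

/-! ### the hypotheses -/

theorem lgF_eq (z : ℂ) : PBX.PLX.lgF z = lgK z := by
  funext a k u
  rcases k with _ | _ | _ | _ <;> rfl

variable [Fil]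

/-- the class functions without legs, rows `i s, 0, …, 0` -/
def ZS (ep : ℝ) (j : ℕ) (s : ℝ) : Stt := PBX.PLX.Z0 (4 / 3 * (1 - ep)) (mu1 j (I * s)) [I, -I] []

theorem ZS_eq (ep : ℝ) (j : ℕ) (s t : ℝ) : Zm (ZS ep j s) (lgK (I * t)) =
    PBX.PLX.ZL (4 / 3 * (1 - ep)) (mu1 j (I * s)) [I, -I] [] (I * t) := by
  rw [PBX.PLX.ZL_eq, lgF_eq]
  rfl

theorem measurable_ZS (ep : ℝ) (j : ℕ) (s : ℝ) (a : Bool) (k : Option O3) :
    Measurable (ZS ep j s a k) :=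
  Pool.Agent.PLX.measurable_XXU (PBX.measurable_gP _ _) (PBX.measurable_gP _ _) measurable_const
    measurable_const k

/-- the heights of the rows -/
def hS (j : ℕ) (s : ℝ) : Fin (j + 1) → ℝ := Fin.cons s fun _ => 0

theorem mu1_hS (j : ℕ) (s : ℝ) (i : Fin (j + 1)) : mu1 j (I * s) i = I * hS j s i := by
  unfold PBL.PLX.mu1 hS
  refine Fin.cases ?_ (fun k => ?_) i
  · simp
  · simp

theorem ok_L {m : ℕ} (hm : 1 ≤ m) {s t : ℝ} (hs : |s| ≤ 1) (ht : |t| ≤ 1) :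
    famL.ok m ((I * s, I * t) : ℂ × ℂ) := by
  have hl := NUMF.l_pos
  have hl1 : NUP1.l = l := rfl
  have hlog : 0 ≤ Real.log m := Real.log_nonneg (by exact_mod_cast hm)
  have r1 : (I * (s : ℂ)).re = 0 := by simp
  have r2 : (I * (t : ℂ)).re = 0 := by simp
  have i1 : (I * (s : ℂ)).im = s := by simp
  have i2 : (I * (t : ℂ)).im = t := by simp
  refine ⟨?_, ?_, ?_, ?_, ?_⟩
  · show |(I * (s : ℂ)).re| ≤ NUP1.l / 10
    rw [r1, abs_zero, hl1]
    positivity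
  · show |(I * (s : ℂ)).im| ≤ 2
    rw [i1]
    linarith
  · show -(9 / 10 * NUP1.l) ≤ (I * (t : ℂ)).re
    rw [r2, hl1]
    linarith
  · show (I * (t : ℂ)).re < 37 / 10 * NUP1.l
    rw [r2, hl1]
    positivity
  · show |(I * (t : ℂ)).im| ≤ 3 / 20 * Real.log m + 2
    rw [i2]
    linarith

theorem FAN_FS {ep e1 J : ℝ} {m : ℕ} {i : ℂ × ℂ} (Ψ : Ins) :
    FAN (fun _ => famL.Z ep m i) (fun _ => NUSea.PLX.O.par0 m) (famL.top m) (fun _ => PBU.PLX.cr e1 J m)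
      (fun _ => PBU.PLX.cr' e1 J m) (fun _ => famL.Pf m i) (fun _ => Ψ) =
    PBU.PLX.FS famL ep e1 J m i (fun _ => 1) fun r O a b x => ‖Ψ r O a b x‖ₑ := by
  unfold FAN PBU.PLX.FS
  refine Finset.sum_congr rfl fun n _ => ?_
  rw [one_mul, ← FA_eq_FE]

theorem MCr_cr (e1 J : ℝ) (m : ℕ) : MCr (PBU.PLX.cr e1 J m) (PBU.PLX.cr' e1 J m) where
  m r := curZ_meas e1 J m m r
  m' r := curZ_meas' e1 J m m r

section main

variable {p : ℕ} {K ε ep e1 J : ℝ}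

/-- **the hypotheses of `ZLeg`** -/
theorem legH_L (hU : UB famL ep e1 J p K ε) (hK : 1 ≤ K) (he : 0 < e1) (he1 : e1 ≤ 1 / 100)
    (hJ : 0 ≤ J) : ∀ᶠ j : ℕ in atTop, ∀ s : ℝ, |s| ≤ 1 →
    LegH (ZS ep j s) (NUSea.PLX.O.par0 (j + 1)) (2 * (j + 1)) (fun _ => PBU.PLX.cr e1 J (j + 1))
      (fun _ => PBU.PLX.cr' e1 J (j + 1)) := by
  have hl := NUMF.l_pos
  obtain ⟨mc, -, Hcur⟩ := curZ_crs he he1 hJ one_pos
  obtain ⟨m0, H0⟩ := hU.mass hK
  filter_upwards [eventually_ge_atTop mc, eventually_ge_atTop m0] with j h1 h2 s hs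
  refine ⟨parZ_goodP _, NUSea.PLX.O.rad0_meas _, measurable_ZS ep j s, fun _ => MCr_cr e1 J _,
    fun n r O t => ?_, fun n hn => ⟨0, ?_⟩⟩
  · have h3 := (Hcur (j + 1) (by omega) r O).h1 t
    refine h3.trans ?_
    show 1 * l / 4 ≤ l / 2
    linarith
  · rw [ZS_eq, ofReal_zero]
    have h3 := H0 (j + 1) (by omega) (I * s, I * (0 : ℝ)) (ok_L (by omega) hs (by simp))
    have h4 := h3.trans_lt ENNReal.ofReal_lt_top
    unfold PBU.PLX.FS at h4
    rw [ENNReal.sum_lt_top] at h4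
    have h5 := h4 n (Finset.mem_range.2 (by
      show n < 2 * (j + 1) + 1
      omega))
    rw [one_mul] at h5
    rw [show famL.top (j + 1) = 2 * (j + 1) from rfl] at h5
    have hP : ‖famL.Pf (j + 1) ((I * s, I * (0 : ℝ)) : ℂ × ℂ)‖ₑ ≠ 0 := by
      rw [enorm_ne_zero]
      refine Pf_ne (X := mu1 j (I * s)) (z := I * (0 : ℝ)) (fun i => ?_) (by simp)
      rw [mu1_hS]
      simp
    have h6 : FE (famL.Z ep (j + 1) ((I * s, I * (0 : ℝ)) : ℂ × ℂ)) (NUSea.PLX.O.par0 (j + 1)) n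
        (n + dN (2 * (j + 1)))
        (PBU.PLX.cr e1 J (j + 1)) (PBU.PLX.cr' e1 J (j + 1)) (fun _ _ _ _ _ => 1) < ∞ := by
      by_contra h7
      rw [not_lt, top_le_iff] at h7
      rw [h7, ENNReal.mul_top hP] at h5
      exact lt_irrefl _ h5
    rw [FA_eq_FE]
    simp only [enorm_one]
    rw [ofReal_zero] at h6
    exact h6

/-! ### the densities and the test functions -/

theorem rhS_hS (j : ℕ) (s t : ℝ) : rhS (hS j s) t = (P (t - s) : ℂ) + j * (P t : ℂ) := by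
  unfold rhS hS
  rw [Fin.sum_univ_succ]
  simp

/-- the density as the function `rhoR` of the rows -/
theorem rhoR_hS (j : ℕ) (s t : ℝ) : PBForce.rhoR (mu1 j (I * s)) (NUP1.vl NUP1.l t) =
    rhS (hS j s) t := by
  unfold PBForce.rhoR rhS
  refine Finset.sum_congr rfl fun i _ => ?_
  rw [← PBForce.pc_I, mu1_hS]
  congr 1
  unfold NUP1.vl
  push_cast
  ring

theorem DN_rhS (j : ℕ) (s : ℝ) : DN 2 (j + 1) (rhS (hS j s)) := by
  have i1 : Integrable fun t : ℝ => P (t - s) := NUMF.P_integrable.comp_sub_right s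
  have i2 : Integrable fun t : ℝ => P t := NUMF.P_integrable
  have p0 : ∀ t, 0 ≤ P t := fun t => (NUSea.P_pos t).le
  have m1 : ∫ t : ℝ, P t = 1 := NUSea.P_mass
  have m2 : ∫ t : ℝ, P (t - s) = 1 := by
    rw [integral_sub_right_eq_self (μ := volume) (fun t : ℝ => P t) s, m1]
  constructor
  · unfold rhS
    exact integrable_finsetSum _ fun i _ =>
      (NUMF.P_integrable.comp_sub_right (hS j s i)).ofReal
  · have e : ∀ t : ℝ, ‖rhS (hS j s) t - ((j + 1 : ℕ) : ℝ) * NUSea.P t‖ ≤ P (t - s) + P t := by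
      intro t
      have e1 : rhS (hS j s) t - ((j + 1 : ℕ) : ℝ) * NUSea.P t = ((P (t - s) - P t : ℝ) : ℂ) := by
        rw [rhS_hS, show NUSea.P t = P t from rfl]
        push_cast
        ring
      rw [e1, norm_real, Real.norm_eq_abs, abs_le]
      constructor <;> linarith [p0 t, p0 (t - s)]
    have i3 : Integrable fun t : ℝ => rhS (hS j s) t - ((j + 1 : ℕ) : ℝ) * NUSea.P t := by
      have i4 : Integrable (rhS (hS j s)) := by
        unfold rhS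
        exact integrable_finsetSum _ fun i _ =>
          (NUMF.P_integrable.comp_sub_right (hS j s i)).ofReal
      have i5 : Integrable fun t : ℝ => (((j + 1 : ℕ) : ℝ) : ℂ) * (P t : ℂ) :=
        i2.ofReal.const_mul _
      exact i4.sub i5
    calc ∫ t : ℝ, ‖rhS (hS j s) t - ((j + 1 : ℕ) : ℝ) * NUSea.P t‖ ≤ ∫ t : ℝ, (P (t - s) + P t) :=
          integral_mono i3.norm (i1.add i2) e
      _ = 2 := by
          rw [integral_add i1 i2, m1, m2]
          norm_num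

/-- the test functions of the legs on a strip -/
theorem BC_dls : ∃ M : ℝ, 0 < M ∧ ∀ τ : ℝ, BC (-(l / 2)) l M (fun z => dl (z - τ)) := by
  have hl := NUMF.l_pos
  obtain ⟨C, hC, hb⟩ := dl_bd (y1 := -(l / 2)) (y2 := l) (by linarith) (by linarith)
  refine ⟨C + 1, by linarith, fun τ => ⟨fun z hz => ?_, fun z hz => ?_⟩⟩
  · have e : (z - (τ : ℂ)).im = z.im := by simp
    exact ((hasDerivAt_dl (z := z - τ) (by rw [e]; linarith [hz.1]) (by rw [e]; linarith [hz.2])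
      ).differentiableAt.comp z (differentiableAt_id.sub_const (τ : ℂ))).differentiableWithinAt
  · have e : (z - (τ : ℂ)).im = z.im := by simp
    refine ((hb (z - τ) (by rw [e]; exact hz.1.le) (by rw [e]; exact hz.2.le)).1.trans
      (mul_le_of_le_one_right hC (exp_le_one _))).trans (by linarith)

theorem vP_nu1 (ρ : ℝ → ℂ) (e1 J : ℝ) (m : ℕ) (g : ℂ → ℂ) {r a b : ℕ} (O : Fin r → Xo)
    (x : (Fin a → ℝ) × (Fin b → ℝ)) : vP ρ g (PBU.PLX.cr e1 J m) r O a b x =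
      nu1 ρ (etaC e1 J m m) true g x + nu1 ρ (etaC e1 J m m) false g x := by
  unfold vP PBU.PLX.nu1 bS
  simp only [if_true, Bool.false_eq_true, if_false]
  have e : ∀ (c : Bool) (t : ℝ), hgt (NUO.pA (Fil.cv c (PBU.PLX.cr e1 J m r O)) t) =
      PBU.PLX.hq (Fil.cv c (etaC e1 J m m)) t := fun c t =>
    (PBU.PLX.hq_pA (Fil.cv c (etaC e1 J m m)) t).symm
  simp only [e]
  ring

/-! ### the functionals -/

theorem enorm_pI {r a b : ℕ} (O : Fin r → Xo) (x : (Fin a → ℝ) × (Fin b → ℝ)) :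
    ‖pI r O a b x‖ₑ = ENNReal.ofReal (∑ i, Real.exp (-(2 * |ht (O i)|))) := by
  unfold pI
  rw [← ofReal_norm, norm_real, Real.norm_of_nonneg (Finset.sum_nonneg fun i _ =>
    (Real.exp_pos _).le)]

/-- the pinned functionals of `ZLeg` -/
theorem FS_pI {ep e1 J : ℝ} {m : ℕ} {i : ℂ × ℂ} {D : ℝ≥0∞}
    (h : PBU.PLX.FS famL ep e1 J m i (fun _ => 1) (fun r O _ _ x =>
      ENNReal.ofReal (((r : ℝ) + 1) ^ 1 * ∑ j, Real.exp (-(2 * |ht (O j)|))) * 1) ≤ D) :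
    FAN (fun _ => famL.Z ep m i) (fun _ => NUSea.PLX.O.par0 m) (famL.top m) (fun _ => PBU.PLX.cr e1 J m)
      (fun _ => PBU.PLX.cr' e1 J m) (fun _ => famL.Pf m i) (fun _ => pI) ≤ D := by
  rw [FAN_FS]
  refine (PBU.PLX.FS_mono (fun _ => le_rfl) fun r O a b x => ?_).trans h
  rw [enorm_pI, mul_one]
  refine ENNReal.ofReal_le_ofReal ?_
  have h0 : 0 ≤ ∑ j, Real.exp (-(2 * |ht (O j)|)) := Finset.sum_nonneg fun i _ =>
    (Real.exp_pos _).le
  have h1 : (1 : ℝ) ≤ ((r : ℝ) + 1) ^ 1 := by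
    have : (0 : ℝ) ≤ r := Nat.cast_nonneg r
    linarith
  exact le_mul_of_one_le_left h0 h1

theorem FS_pI2 {ep e1 J : ℝ} {m : ℕ} {i : ℂ × ℂ} {D D' : ℝ} (hD : 0 ≤ D) (hD' : 0 ≤ D')
    (hZ : ∀ s k, Measurable (famL.Z ep m i s k)) (ρ : ℝ → ℂ) {g : ℂ → ℂ} (hg : Measurable g)
    (h : PBU.PLX.FS famL ep e1 J m i (fun _ => 1) (fun r O _ _ x =>
      ENNReal.ofReal (((r : ℝ) + 1) ^ 1 * ∑ j, Real.exp (-(2 * |ht (O j)|))) * 1) ≤
        ENNReal.ofReal D)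
    (h' : PBU.PLX.FS famL ep e1 J m i (fun _ => 1) (fun r O _ _ x =>
      ENNReal.ofReal (((r : ℝ) + 1) ^ 0 * ∑ j, Real.exp (-(2 * |ht (O j)|))) *
        (‖nu1 ρ (etaC e1 J m m) true g x‖ₑ + ‖nu1 ρ (etaC e1 J m m) false g x‖ₑ)) ≤
        ENNReal.ofReal D') :
    FAN (fun _ => famL.Z ep m i) (fun _ => NUSea.PLX.O.par0 m) (famL.top m) (fun _ => PBU.PLX.cr e1 J m)
      (fun _ => PBU.PLX.cr' e1 J m) (fun _ => famL.Pf m i) (fun _ => pI2 ρ g (PBU.PLX.cr e1 J m)) ≤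
      ENNReal.ofReal (D + D') := by
  have hM : ∀ n ≤ famL.top m, MC (famL.Z ep m i) (NUSea.PLX.O.par0 m) (PBU.PLX.cr e1 J m)
      (PBU.PLX.cr' e1 J m) := fun n _ => MC.of (NUSea.PLX.O.rad0_meas _) hZ (MCr_cr e1 J m)
  -- the two parts
  set A : Ins := fun r O a b x => pI r O a b x * ((1 + r : ℝ) : ℂ) with hA
  set B : Ins := fun r O a b x => pI r O a b x * ((‖vP ρ g (PBU.PLX.cr e1 J m) r O a b x‖ : ℝ) : ℂ)
    with hB
  have mA : MIn A := fun r a b => (MIn_pI r a b).mul measurable_const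
  have mB : MIn B := fun r a b => (MIn_pI r a b).mul (Complex.measurable_ofReal.comp
    (MIn_vP (Pm := NUSea.PLX.O.par0 m) (NUSea.PLX.O.rad0_meas m) (MCr_cr e1 J m) ρ hg r a b).norm)
  have m2 : MIn (pI2 ρ g (PBU.PLX.cr e1 J m)) :=
    MIn_pI2 (Pm := NUSea.PLX.O.par0 m) (NUSea.PLX.O.rad0_meas m) (MCr_cr e1 J m) ρ hg
  have e2 : ∀ (r : ℕ) (O : Fin r → Xo) (a b : ℕ) (x : (Fin a → ℝ) × (Fin b → ℝ)),
      pI2 ρ g (PBU.PLX.cr e1 J m) r O a b x = A r O a b x + B r O a b x := by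
    intro r O a b x
    simp only [hA, hB]
    unfold pI2
    push_cast
    ring
  have key : FAN (fun _ => famL.Z ep m i) (fun _ => NUSea.PLX.O.par0 m) (famL.top m)
      (fun _ => PBU.PLX.cr e1 J m) (fun _ => PBU.PLX.cr' e1 J m) (fun _ => famL.Pf m i)
      (fun _ => pI2 ρ g (PBU.PLX.cr e1 J m)) ≤
      FAN (fun _ => famL.Z ep m i) (fun _ => NUSea.PLX.O.par0 m) (famL.top m)
        (fun _ => PBU.PLX.cr e1 J m) (fun _ => PBU.PLX.cr' e1 J m) (fun _ => famL.Pf m i) (fun _ => A) +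
      FAN (fun _ => famL.Z ep m i) (fun _ => NUSea.PLX.O.par0 m) (famL.top m)
        (fun _ => PBU.PLX.cr e1 J m) (fun _ => PBU.PLX.cr' e1 J m) (fun _ => famL.Pf m i) (fun _ => B) := by
    rw [FAN_eq hM fun n _ => m2, FAN_eq hM fun n _ => mA, FAN_eq hM fun n _ => mB]
    set W : CfN (famL.top m) → ℂ := wN (fun _ => famL.Z ep m i) (fun _ => NUSea.PLX.O.par0 m)
      (famL.top m) (fun _ => PBU.PLX.cr e1 J m) (fun _ => PBU.PLX.cr' e1 J m) (fun _ => famL.Pf m i)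
      with hW
    have mW : Measurable W := wN_meas hM
    have mEA : Measurable (evN (fun _ => A) : CfN (famL.top m) → ℂ) := evN_meas fun n _ => mA
    have hadd := lintegral_add_left (μ := mN (famL.top m))
      (f := fun x => ‖W x‖ₑ * ‖evN (fun _ => A) x‖ₑ) (mW.enorm.mul mEA.enorm)
      fun x => ‖W x‖ₑ * ‖evN (fun _ => B) x‖ₑ
    refine le_trans (lintegral_mono fun x => ?_) (le_of_eq hadd)
    show _ ≤ ‖W x‖ₑ * ‖evN (fun _ => A) x‖ₑ + ‖W x‖ₑ * ‖evN (fun _ => B) x‖ₑ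
    rw [← mul_add]
    refine mul_le_mul' le_rfl ?_
    have e3 : evN (fun _ => pI2 ρ g (PBU.PLX.cr e1 J m)) x = evN (fun _ => A) x +
        evN (fun _ => B) x := e2 _ _ _ _ _
    rw [e3]
    exact enorm_add_le _ _
  rw [ENNReal.ofReal_add hD hD']
  refine key.trans (add_le_add ?_ ?_)
  · rw [FAN_FS]
    refine (PBU.PLX.FS_mono (fun _ => le_rfl) fun r O a b x => ?_).trans h
    simp only [hA]
    rw [enorm_mul, enorm_pI, mul_one, ← ofReal_norm (((1 + r : ℝ) : ℂ)), norm_real,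
      Real.norm_of_nonneg (by positivity), ← ENNReal.ofReal_mul (Finset.sum_nonneg fun i _ =>
        (Real.exp_pos _).le)]
    refine ENNReal.ofReal_le_ofReal (le_of_eq ?_)
    ring
  · rw [FAN_FS]
    refine (PBU.PLX.FS_mono (fun _ => le_rfl) fun r O a b x => ?_).trans h'
    simp only [hB]
    rw [enorm_mul, enorm_pI, pow_zero, one_mul]
    refine mul_le_mul' le_rfl ?_
    rw [vP_nu1, ← ofReal_norm ((_ : ℝ) : ℂ), norm_real, Real.norm_of_nonneg (norm_nonneg _),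
      ofReal_norm]
    exact enorm_add_le _ _

/-- the weight of the dislocated function, rows `i s, 0, …, 0`, legs at `i t` -/
def wL (ep e1 J : ℝ) (j : ℕ) (s t : ℝ) : CfN (2 * (j + 1)) → ℂ :=
  wN (fun _ => PBX.PLX.ZL (4 / 3 * (1 - ep)) (mu1 j (I * s)) [I, -I] [] (I * t))
    (fun _ => NUSea.PLX.O.par0 (j + 1)) (2 * (j + 1)) (fun _ => PBU.PLX.cr e1 J (j + 1))
    (fun _ => PBU.PLX.cr' e1 J (j + 1)) fun _ =>
      Pf (I * t) (mu1 j (I * s)) (yq (mu1 j (I * s)))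

/-- **(Z)**: the derivatives in the height of the legs, `hτ` of `PBEM.E2_of` -/
theorem zleg (hU : UB famL ep e1 J p K ε) (hp : 0 < p) (hK : 6 ≤ K) (hep : 0 < ep)
    (hep1 : ep ≤ 1 / 100) (he : 0 < e1) (he1 : e1 ≤ 1 / 100) (hJ : 0 ≤ J) {c : ℝ} (hc0 : 0 ≤ c)
    (hc : c + ε ≤ 3 / 4 * (1 - 4 * e1)) :
    ∃ C : ℝ, 0 < C ∧ ∀ᶠ j : ℕ in atTop, ∀ s t : ℝ, |s| ≤ 1 → |t| ≤ 1 →
      ‖F (mN (2 * (j + 1))) (wL ep e1 J j s t)
          (Vp (rhS (hS j s)) (fun _ => PBU.PLX.cr e1 J (j + 1)) (PBEI.h0T t)) +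
        I * deriv (fun z => fxQ Fil.q j (I * s) z) (I * t)‖ ≤ C * (j : ℝ) ^ (-c) ∧
      ‖F (mN (2 * (j + 1))) (wL ep e1 J j s t) (fun ω =>
          Vp (rhS (hS j s)) (fun _ => PBU.PLX.cr e1 J (j + 1)) (PBEI.h0T t) ω *
            Vp (rhS (hS j s)) (fun _ => PBU.PLX.cr e1 J (j + 1)) (PBEI.h0T t) ω) +
        F (mN (2 * (j + 1))) (wL ep e1 J j s t)
          (Vp (rhS (hS j s)) (fun _ => PBU.PLX.cr e1 J (j + 1)) (PBEI.g2T t)) -
        -deriv (deriv fun z => fxQ Fil.q j (I * s) z) (I * t)‖ ≤ C * (j : ℝ) ^ (-c) := by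
  have hl := NUMF.l_pos
  have hl1 : NUP1.l = l := rfl
  obtain ⟨C1, hC1, B1⟩ := leg_b1
  obtain ⟨C2, hC2, B2⟩ := leg_b2
  obtain ⟨M, hM, hBC⟩ := BC_dls
  obtain ⟨m0, H0⟩ := hU.pin hK (q := 2) (by norm_num) (by norm_num) 1 2 (-(l / 2)) l
    (by linarith) hl
  obtain ⟨m1, H1⟩ := hU.pin hK (q := 2) (by norm_num) (by norm_num) 0 2 (-(l / 2)) l
    (by linarith) hl
  obtain ⟨mc, -, Hcur⟩ := curZ_crs he he1 hJ hep
  have hE := Real.exp_pos (2 : ℝ)
  refine ⟨(C1 + C2) * (3 * (1 + M) * Real.exp 2), by positivity, ?_⟩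
  filter_upwards [legH_L hU (by linarith) he he1 hJ, eventually_ge_atTop m0, eventually_ge_atTop m1,
    eventually_ge_atTop mc, eventually_ge_atTop 1] with j hH j0 j1 j2 j3 s t hs ht
  have H := hH s hs
  have hb : ∀ (n : ℕ) (r : ℕ) (O : Fin r → Xo) (u : ℝ),
      |(fun _ : ℕ => PBU.PLX.cr e1 J (j + 1)) n r O u| ≤ l / 2 := H.b
  -- the function
  set X : Fin (j + 1) → ℂ := mu1 j (I * s) with hX
  set cT : ℝ → ℂ := fun τ => Pf (I * τ) X (yq X) with hcT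
  have hXs : ∀ i, X i = I * hS j s i := mu1_hS j s
  have hRws : PBX.Rws X := fun i => by
    rw [hXs, hl1]
    simp
    positivity
  have hc1 : ∀ τ : ℝ, HasDerivAt cT (Mn (rhS (hS j s)) τ * cT τ) τ := fun τ => Pf_Mn hXs τ
  have hf : ∀ τ : ℝ, fxQ Fil.q j (I * s) (I * τ) = T0 (ZS ep j s) (NUSea.PLX.O.par0 (j + 1)) (2 * (j + 1))
      (fun _ => PBU.PLX.cr e1 J (j + 1)) (fun _ => PBU.PLX.cr' e1 J (j + 1)) cT τ := by
    intro τ
    rw [H.T0_eq, ZS_eq, dN_two]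
    refine PBX.PLX.fN_FF (P := NUSea.PLX.O.par0 (j + 1)) (PBX.PLX.ParC_par0 (j + 1)) (PBX.PLX.rad_low (j + 1)) hep
      hep1 (by linarith) (by linarith) hRws (ex := [I, -I]) (ex0 := []) ?_ (by simp) ?_ ?_
      (η := fun _ => PBU.PLX.cr e1 J (j + 1)) (η' := fun _ => PBU.PLX.cr' e1 J (j + 1))
      (fun n _ r _ => Eventually.of_forall fun O => Hcur (j + 1) (by omega) r O)
    · intro w hw
      rw [List.mem_cons, List.mem_singleton] at hw
      rcases hw with rfl | rfl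
      · rw [Complex.I_re, abs_zero, hl1]
        positivity
      · rw [Complex.neg_re, Complex.I_re, neg_zero, abs_zero, hl1]
        positivity
    · rw [hl1]
      simp
      positivity
    · rw [hl1]
      simp
      positivity
  -- the derivatives
  have hS' : IsOpen {z : ℂ | |z.re| < 43 / 10 * NUP1.l} :=
    isOpen_lt (continuous_abs.comp Complex.continuous_re) continuous_const
  have hd := Pool.Agent.PLX.fxQ_diff Fil.q j (ξ := I * s) (by simp; rw [hl1]; positivity)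
  have hd' : DifferentiableOn ℂ (deriv (fxQ Fil.q j (I * s))) {z : ℂ | |z.re| < 43 / 10 * NUP1.l} :=
    hd.deriv hS'
  have hmem : ∀ τ : ℝ, I * (τ : ℂ) ∈ {z : ℂ | |z.re| < 43 / 10 * NUP1.l} := fun τ => by
    show |(I * (τ : ℂ)).re| < 43 / 10 * NUP1.l
    rw [show (I * (τ : ℂ)).re = 0 by simp, abs_zero, hl1]
    positivity
  have d0 : ∀ τ : ℝ, HasDerivAt (fun τ : ℝ => I * (τ : ℂ)) I τ := fun τ => by
    simpa using (Complex.ofRealCLM.hasDerivAt (x := τ)).const_mul I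
  have f1 : ∀ τ : ℝ, I * deriv (fxQ Fil.q j (I * s)) (I * τ) = T1 (ZS ep j s) (NUSea.PLX.O.par0 (j + 1))
      (2 * (j + 1)) (fun _ => PBU.PLX.cr e1 J (j + 1)) (fun _ => PBU.PLX.cr' e1 J (j + 1))
      (rhS (hS j s)) cT τ := by
    intro τ
    have a1 := ((hd.differentiableAt (hS'.mem_nhds (hmem τ))).hasDerivAt.comp_of_eq τ (d0 τ) rfl)
    have a2 := H.d1 (hc1 τ)
    have e : (fxQ Fil.q j (I * s) ∘ fun τ : ℝ => I * (τ : ℂ)) = T0 (ZS ep j s) (NUSea.PLX.O.par0 (j + 1))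
        (2 * (j + 1)) (fun _ => PBU.PLX.cr e1 J (j + 1)) (fun _ => PBU.PLX.cr' e1 J (j + 1)) cT :=
      funext hf
    rw [e] at a1
    rw [← a1.unique a2, mul_comm]
  have f2 : -deriv (deriv (fxQ Fil.q j (I * s))) (I * t) = T2 (ZS ep j s) (NUSea.PLX.O.par0 (j + 1))
      (2 * (j + 1)) (fun _ => PBU.PLX.cr e1 J (j + 1)) (fun _ => PBU.PLX.cr' e1 J (j + 1))
      (rhS (hS j s)) cT t := by
    have a1 := ((hd'.differentiableAt (hS'.mem_nhds (hmem t))).hasDerivAt.comp_of_eq t (d0 t)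
      rfl).const_mul I
    have a2 := H.d2 (hc1 t) (hasDerivAt_Mn (hS j s) t)
    have e : (fun τ : ℝ => I * (deriv (fxQ Fil.q j (I * s)) ∘ fun τ : ℝ => I * (τ : ℂ)) τ) =
        T1 (ZS ep j s) (NUSea.PLX.O.par0 (j + 1)) (2 * (j + 1)) (fun _ => PBU.PLX.cr e1 J (j + 1))
          (fun _ => PBU.PLX.cr' e1 J (j + 1)) (rhS (hS j s)) cT := funext f1
    rw [e] at a1
    rw [← a1.unique a2]
    linear_combination (-(deriv (deriv (fxQ Fil.q j (I * s))) (I * t))) * I_mul_I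
  -- the weight
  have hw : WT (ZS ep j s) (NUSea.PLX.O.par0 (j + 1)) (2 * (j + 1)) (fun _ => PBU.PLX.cr e1 J (j + 1))
      (fun _ => PBU.PLX.cr' e1 J (j + 1)) cT t = wL ep e1 J j s t := by
    unfold WT wL
    rw [ZS_eq]
  have v0 : (Vp (rhS (hS j s)) (fun _ => PBU.PLX.cr e1 J (j + 1)) (PBEI.h0T t) :
      CfN (2 * (j + 1)) → ℂ) = evN fun n => vP (rhS (hS j s)) (fun z => dl (z - t))
        ((fun _ => PBU.PLX.cr e1 J (j + 1)) n) := by
    rw [← Vp_vP]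
    exact Vp_congr hb fun z h1 h2 => h0T_dl h1 h2
  have v1 : (Vp (rhS (hS j s)) (fun _ => PBU.PLX.cr e1 J (j + 1)) (PBEI.g2T t) :
      CfN (2 * (j + 1)) → ℂ) = evN fun n => vP (rhS (hS j s)) (fun z => dl2 (z - t))
        ((fun _ => PBU.PLX.cr e1 J (j + 1)) n) := by
    rw [← Vp_vP]
    exact Vp_congr hb fun z h1 h2 => g2T_dl h1 h2
  -- the sizes
  have hok := ok_L (m := j + 1) (by omega) hs ht
  have hm0 : (0 : ℝ) < ((j + 1 : ℕ) : ℝ) := by positivity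
  set A : ℝ := ((j + 1 : ℕ) : ℝ) ^ (-(3 / 8 * 2 * (1 - 4 * e1))) * ((j + 1 : ℕ) : ℝ) ^ ε *
    Real.exp (2 * |t|) with hA
  have hA0 : 0 ≤ A := by positivity
  have hbd : famL.bd (j + 1) ((I * s, I * t) : ℂ × ℂ) = Real.exp (2 * |t|) := by
    show Real.exp (2 * |(I * (t : ℂ)).im|) = _
    rw [show (I * (t : ℂ)).im = t by simp]
  have G0 := H0 (j + 1) (by omega) (I * s, I * t) hok (rhS (hS j s)) (DN_rhS j s)
    (fun _ => M) (fun _ => hM) (fun _ _ _ z => dl (z - t)) (fun _ _ _ z => dl (z - t))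
    (fun _ _ _ => ⟨hBC t, hBC t⟩) ∅
  have G1 := H1 (j + 1) (by omega) (I * s, I * t) hok (rhS (hS j s)) (DN_rhS j s)
    (fun _ => M) (fun _ => hM) (fun _ _ _ z => dl (z - t)) (fun _ _ _ z => dl (z - t))
    (fun _ _ _ => ⟨hBC t, hBC t⟩) {⟨0, hp⟩}
  rw [hbd] at G0 G1
  simp only [Finset.prod_empty, Finset.prod_singleton] at G0 G1
  have z0 : 3 * ((1 : ℕ).factorial : ℝ) * ((j + 1 : ℕ) : ℝ) ^ (-(3 / 8 * 2 * (1 - 4 * e1))) * 1 *
      ((j + 1 : ℕ) : ℝ) ^ ε * Real.exp (2 * |t|) = 3 * A := by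
    rw [hA, Nat.factorial_one]
    push_cast
    ring
  have z1 : 3 * ((0 : ℕ).factorial : ℝ) * ((j + 1 : ℕ) : ℝ) ^ (-(3 / 8 * 2 * (1 - 4 * e1))) * M *
      ((j + 1 : ℕ) : ℝ) ^ ε * Real.exp (2 * |t|) = 3 * M * A := by
    rw [hA, Nat.factorial_zero]
    push_cast
    ring
  rw [z0] at G0
  rw [z1] at G1
  have hZm : ∀ a k, Measurable (famL.Z ep (j + 1) ((I * s, I * t) : ℂ × ℂ) a k) := fun a k =>
    PBX.PLX.measurable_ZL _ _ _ _ _ a k
  have Q1 := FS_pI G0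
  have Q2 := FS_pI2 (D := 3 * A) (D' := 3 * M * A) (by positivity) (by positivity) hZm
    (rhS (hS j s)) (measurable_dls t) G0 G1
  -- powers
  have hpow : A ≤ Real.exp 2 * (j : ℝ) ^ (-c) := by
    have hj : (1 : ℝ) ≤ j := by exact_mod_cast j3
    have hj1 : (1 : ℝ) ≤ ((j + 1 : ℕ) : ℝ) := by
      push_cast
      linarith
    have e1' : Real.exp (2 * |t|) ≤ Real.exp 2 := Real.exp_le_exp.2 (by linarith)
    have e2 : ((j + 1 : ℕ) : ℝ) ^ (-(3 / 8 * 2 * (1 - 4 * e1))) * ((j + 1 : ℕ) : ℝ) ^ ε ≤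
        (j : ℝ) ^ (-c) := by
      rw [← Real.rpow_add hm0]
      calc ((j + 1 : ℕ) : ℝ) ^ (-(3 / 8 * 2 * (1 - 4 * e1)) + ε) ≤ ((j + 1 : ℕ) : ℝ) ^ (-c) :=
            Real.rpow_le_rpow_of_exponent_le hj1 (by linarith)
        _ ≤ (j : ℝ) ^ (-c) := Real.rpow_le_rpow_of_nonpos (by linarith) (by
            push_cast
            linarith) (by linarith)
    rw [hA, mul_comm (Real.exp 2)]
    exact mul_le_mul e2 e1' (Real.exp_pos _).le (by positivity)
  have hjc : 0 ≤ (j : ℝ) ^ (-c) := by positivity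
  constructor
  · have k := B1 H (rhS (hS j s)) cT ht (d := 3 * A) (by positivity) (by
      rw [ZS_eq]
      exact Q1)
    rw [hw, ← f1 t] at k
    rw [v0]
    refine k.trans ?_
    calc C1 * (3 * A) ≤ C1 * (3 * (Real.exp 2 * (j : ℝ) ^ (-c))) := by gcongr
      _ ≤ (C1 + C2) * (3 * (1 + M) * Real.exp 2) * (j : ℝ) ^ (-c) := by
          have a1 : 0 ≤ Real.exp 2 * (j : ℝ) ^ (-c) := by positivity
          have a2 : C1 ≤ (C1 + C2) * (1 + M) := by nlinarith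
          calc C1 * (3 * (Real.exp 2 * (j : ℝ) ^ (-c))) =
              C1 * (3 * (Real.exp 2 * (j : ℝ) ^ (-c))) := rfl
            _ ≤ ((C1 + C2) * (1 + M)) * (3 * (Real.exp 2 * (j : ℝ) ^ (-c))) := by gcongr
            _ = _ := by ring
  · have k := B2 H (rhS (hS j s)) cT ht (d := 3 * A + 3 * M * A) (by positivity) (by
      rw [ZS_eq]
      exact Q2)
    rw [hw, ← f2] at k
    rw [v0, v1]
    refine k.trans ?_
    calc C2 * (3 * A + 3 * M * A) = C2 * (3 * (1 + M) * A) := by ring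
      _ ≤ C2 * (3 * (1 + M) * (Real.exp 2 * (j : ℝ) ^ (-c))) := by gcongr
      _ ≤ (C1 + C2) * (3 * (1 + M) * (Real.exp 2 * (j : ℝ) ^ (-c))) := by
          gcongr
          linarith
      _ = _ := by ring

end main

end PBLg.PLX

end
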