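import Pool.Agent.PLX.Ns
import Pool.Agent.PLX.PB.UseW
import Pool.Agent.PLX.PB.ZcD
import Pool.Agent.PLX.PB.OneD

/-!
# Plan B: the cut term at the rows `x ^ q, 0 ^ A` (port PLX of ZcB)

Species `a`: rows `y a : Fin (N a) → ℂ`, a permutation of the list `R0 (qa a) (A a) x` (`qa a` rows at
`x`, `A a` rows at `0`).

* `FlX k C0 X ξe`: the field at the heads: analytic for `l / 2 ≤ Re ≤ 31 l / 20`, limits `ξe` with the
  structure `Fl` on every line;
* `CutH b qa A x v ξe X c M δ`: bounds of the moved cutoffs by species and kinds;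
* `DW_diff`, `meas_DW`, ..: regularity;
* **`cutZ_X`**: `CutZ` for `XXU`, `ZcX` with the data `obU`, from `CutH`;
* **`zc_A`, `zc_L`, `zc_S`, `zc_T`**: the same relative to `XXU`.
-/

set_option autoImplicit false
set_option linter.unusedVariables false
set_option linter.unusedSectionVars false

noncomputable section

open Complex Set

namespace PBC.PLX

open NUP1 NUP1S.AbC NURow NUO NUGC NUGC.PLX PBX PBX.PLX
open NUP1S hiding R0
open PBFar hiding W0 phi_W0 phi_R0 phi_le phi_ge phi_le_R phi_ge_R vI DW DR hasDerivAt_W hasDerivAt_R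
  CW trW far_W far_W_prod trR far_R_prod far_R_tr norm_vI_le cutT DT hasDerivAt_T
open PBFar.PLX
open _root_.Pool.Agent.PLX (XXU RRU TTU measurable_XXU measurable_RRU diffAt_RRU)

/-! ## regularity of the moved cutoffs -/

section reg
variable {ι : Type*} [Fintype ι] [DecidableEq ι]

theorem diff_psiD {b : ℝ} {z : ℂ} (h : cos (th b z) + cos (b * l) ≠ 0) :
    DifferentiableAt ℂ (psiD b) z := by
  have h1 : DifferentiableAt ℂ (fun z => th b z) z := by
    unfold th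
    fun_prop
  unfold psiD
  exact (DifferentiableAt.const_mul h1.csin _).neg.div
    ((h1.ccos.add_const _).pow 2) (pow_ne_zero 2 h)

theorem diff_psi {b : ℝ} {z : ℂ} (h : cos (th b z) + cos (b * l) ≠ 0) :
    DifferentiableAt ℂ (psi b) z := (hasDerivAt_psi h).differentiableAt

theorem diff_prd {b : ℝ} {w : ι → ℂ} {u : ℂ} (h : ∀ i, cos (th b (u - w i)) + cos (b * l) ≠ 0) :
    DifferentiableAt ℂ (prd b w) u := by
  unfold prd
  exact DifferentiableAt.fun_finsetProd (𝕜 := ℂ) (f := fun i u => psi b (u - w i)) fun i _ =>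
    (diff_psi (h i)).comp u (differentiableAt_id.sub_const _)

theorem diff_prd1 {b : ℝ} {a : ℂ → ι → ℂ} {w : ι → ℂ} {u : ℂ}
    (ha : ∀ i, DifferentiableAt ℂ (fun u => a u i) u)
    (h : ∀ i, cos (th b (u - w i)) + cos (b * l) ≠ 0) :
    DifferentiableAt ℂ (fun u => prd1 b (a u) w u) u := by
  unfold prd1
  refine DifferentiableAt.fun_sum fun i _ => ((ha i).mul ?_).mul ?_
  · exact (diff_psiD (h i)).comp u (differentiableAt_id.sub_const _)
  · exact DifferentiableAt.fun_finsetProd (𝕜 := ℂ) (f := fun j u => psi b (u - w j)) fun j _ =>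
      (diff_psi (h j)).comp u (differentiableAt_id.sub_const _)

theorem diff_Dph0 {b : ℝ} {a : ℕ} {w v : ι → ℂ} {X : ℂ → ℂ} {u : ℂ} (hX : DifferentiableAt ℂ X u)
    (h0 : cos (th b u) + cos (b * l) ≠ 0)
    (h : ∀ i, cos (th b (u - w i)) + cos (b * l) ≠ 0) :
    DifferentiableAt ℂ (fun u => Dph b 0 a w v (X u) u) u := by
  have e1 : DifferentiableAt ℂ (Bk b 0 a) u := by
    have e : Bk b 0 a = fun u => psi b u ^ a := by
      funext u
      unfold Bk
      rw [pow_zero, one_mul]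
    rw [e]
    exact (diff_psi h0).pow a
  have e2 : DifferentiableAt ℂ (BkD b 0 a) u := by
    have e : BkD b 0 a = fun u => a * psi b u ^ (a - 1) * psiD b u := by
      funext u
      unfold BkD
      simp
    rw [e]
    exact (((diff_psi h0).pow (a - 1)).const_mul _).mul (diff_psiD h0)
  have e3 : DifferentiableAt ℂ (fun u => prd1 b (fun i => v i - I * X u) w u) u :=
    diff_prd1 (a := fun u i => v i - I * X u) (fun i => (hX.const_mul I).const_sub (v i)) h
  unfold Dph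
  exact (e1.mul e3).sub ((((hX.const_mul I)).mul e2).mul (diff_prd h))

theorem meas_psiD (b : ℝ) : Measurable (psiD b) := by
  unfold psiD th
  fun_prop

theorem meas_prd (b : ℝ) (w : ι → ℂ) : Measurable (prd b w) := by
  unfold prd
  exact Finset.measurable_prod _ fun i _ => Bd.measurable_psi b (w i)

theorem meas_prd1 {b : ℝ} {a : ℂ → ι → ℂ} (w : ι → ℂ) (ha : ∀ i, Measurable fun u => a u i) :
    Measurable (fun u => prd1 b (a u) w u) := by
  unfold prd1
  refine Finset.measurable_sum _ fun i _ => ((ha i).mul ?_).mul ?_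
  · exact (meas_psiD b).comp (measurable_id.sub_const _)
  · exact Finset.measurable_prod _ fun j _ => Bd.measurable_psi b (w j)

theorem meas_Dph {b : ℝ} {M a : ℕ} {w v : ι → ℂ} {X : ℂ → ℂ} (hX : Measurable X) :
    Measurable (fun u => Dph b M a w v (X u) u) := by
  have h1 := measurable_psi0 b
  have hP : Measurable (Psi b) := by
    have e : Psi b = fun u => psi b (u - l / 2) * psi b (u + l / 2) := rfl
    rw [e]
    exact (h1.comp (measurable_id.sub_const _)).mul (h1.comp (measurable_id.add_const _))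
  have hPD : Measurable (PsiD b) := by
    unfold PsiD
    have h2 := meas_psiD b
    exact ((h2.comp (measurable_id.sub_const _)).mul (h1.comp (measurable_id.add_const _))).add
      ((h1.comp (measurable_id.sub_const _)).mul (h2.comp (measurable_id.add_const _)))
  have e1 : Measurable (Bk b M a) := by
    unfold Bk
    exact (hP.pow_const M).mul (h1.pow_const a)
  have e2 : Measurable (BkD b M a) := by
    unfold BkD
    exact ((((hP.pow_const (M - 1)).const_mul _).mul hPD).mul (h1.pow_const a)).add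
      ((hP.pow_const M).mul (((h1.pow_const (a - 1)).const_mul _).mul (meas_psiD b)))
  have e3 : Measurable (fun u => prd1 b (fun i => v i - I * X u) w u) :=
    meas_prd1 (a := fun u i => v i - I * X u) w fun i => (hX.const_mul I).const_sub (v i)
  unfold Dph
  exact (e1.mul e3).sub ((((hX.const_mul I)).mul e2).mul (meas_prd b w))

end reg

section rows
variable {b s : ℝ} {q k : ℕ} {x v : ℂ} {ξe : ℝ → ℂ} {X : ℂ → ℂ}

theorem DW_diff (h : Hyp b s) (hx : |x.re| ≤ l / 2) {u : ℂ} (hX : DifferentiableAt ℂ X u)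
    (hu : |u.re + l / 2| ≤ s) : DifferentiableAt ℂ (fun u => DW q b k x v ξe (X u) u) u := by
  have hl := Bd.l_pos
  unfold DW
  refine diff_Dph0 hX (den_ne' h.wide (hu.trans (by linarith))) ?_
  rintro (i | i)
  · exact den_ne' h.wide (re_pt h hu (by simpa using hx))
  · refine den_ne' h.wide (re_pt h hu ?_)
    fin_cases i <;> simp [PBFar.wE] <;> positivity

theorem meas_DW (hX : Measurable X) : Measurable (fun u => DW q b k x v ξe (X u) u) := by
  unfold DW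
  exact meas_Dph hX

theorem meas_DR (hX : Measurable X) : Measurable (fun u => DR q b k x v (X u) u) := by
  unfold DR
  exact meas_Dph hX

theorem meas_DT (hX : Measurable X) : Measurable (fun u => DT q b k x v ξe (X u) u) := by
  unfold DT
  have h1 : Measurable (fun u => NUP1.phi b (W0 q k x PBFar.wE) u) := Bd.measurable_phi b _
  have h2 : Measurable (fun u : ℂ => DW q b k x v ξe (X u) (u - l)) := by
    have h3 : Measurable (fun u : ℂ => X (u + l)) := hX.comp (measurable_id.add_const _)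
    have h4 := (meas_DW (q := q) (b := b) (k := k) (x := x) (v := v) (ξe := ξe) h3).comp
      ((measurable_id (α := ℂ)).sub_const (l : ℂ))
    have e : (fun u : ℂ => DW q b k x v ξe (X u) (u - l)) =
        (fun u => DW q b k x v ξe (X (u + l)) u) ∘ fun u : ℂ => id u - l := by
      funext u
      simp
    rw [e]
    exact h4
  exact (((meas_DW hX).mul (h1.comp (measurable_id.sub_const _))).add (h1.mul h2)).sub (meas_DR hX)

end rows

/-! ## the field and the bounds of the moved cutoffs -/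

/-- **the field at the heads** -/
structure FlX (k : ℕ) (C0 : ℝ) (X : ℂ → ℂ) (ξe : ℝ → ℂ) : Prop where
  me : Measurable X
  fl : ∀ r, 1 / 2 * l ≤ r → r ≤ 31 / 20 * l → Fl k C0 (fun t => X (vl r t)) ξe
  df : ∀ u : ℂ, 1 / 2 * l ≤ u.re → u.re ≤ 31 / 20 * l → DifferentiableAt ℂ X u

/-- **bounds of the moved cutoffs**: species `a` has the list `x ^ (qa a), 0 ^ (nz a)` -/
structure CutH (b : ℝ) (qa nz : Bool → ℕ) (x v : ℂ) (ξe : ℝ → ℂ) (X : ℂ → ℂ) (c : ℝ)
    (M : Bool → ℝ → ℝ) (δ : ℝ) : Prop where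
  c0 : 0 ≤ c
  M0 : ∀ a t, 0 ≤ M a t
  A : ∀ (a : Bool) (u : ℂ), 1 / 2 * l ≤ u.re → u.re ≤ (1 + δ) * l →
    ‖DW (qa a) b (nz a) x v ξe (X u) u‖ ≤ c * ‖NUP1.phi b (W0 (qa a) (nz a) x PBFar.wE) u‖
  L : ∀ (a : Bool) (u : ℂ), -(3 / 2 * l) ≤ u.re → u.re ≤ -l →
    ‖DW (qa a) b (nz a) x v ξe (X (u + 2 * l)) u‖ ≤
      c * ‖NUP1.phi b (W0 (qa a) (nz a) x PBFar.wE) u‖
  S : ∀ (a : Bool) (w : ℂ), -(3 / 2 * l) ≤ w.re → w.re ≤ -l →
    ‖DR (qa a) (4 / 3) (nz a) x v (X (w + 2 * l)) w‖ ≤ c * ‖NUP1.phi (4 / 3) (R0 (qa a) (nz a) x) w‖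
  T : ∀ (a : Bool) t, ‖DT (qa a) b (nz a) x v ξe (X (posT t + 2 * l)) (posT t)‖ ≤ M a t

variable {N : Bool → ℕ} {b : ℝ} {qa nz : Bool → ℕ} {k : ℕ} {x v : ℂ} {ξe : ℝ → ℂ} {X : ℂ → ℂ}
  {cc : ℝ} {M : Bool → ℝ → ℝ} {ep : ℝ}
  {y : ∀ a, Fin (N a) → ℂ} {s1 s2 : Bool → ℂ → ℂ} {c : Bool → ℂ} {c0 : ℝ}

theorem phi_perm {V W : List ℂ} (h : V.Perm W) (b : ℝ) (u : ℂ) : NUP1.phi b V u = NUP1.phi b W u := by
  unfold NUP1.phi
  rw [(h.map fun x => psi b (u - x)).prod_eq]

/-- species `a` has the rows `x ^ (qa a), 0 ^ (nz a)` -/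
def RwP (y : ∀ a, Fin (N a) → ℂ) (qa nz : Bool → ℕ) (x : ℂ) : Prop :=
  ∀ a, (List.ofFn (y a)).Perm (R0 (qa a) (nz a) x)

theorem phi_W0_eq (hy : RwP y qa nz x) (a : Bool) (u : ℂ) :
    NUP1.phi b (W0 (qa a) (nz a) x PBFar.wE) u = ph b (y a) (gP b [I, -I]) u := by
  rw [ph_gP]
  exact (phi_perm ((hy a).append_right [I, -I]) b u).symm

theorem phi_R_eq (hy : RwP y qa nz x) (a : Bool) (u : ℂ) :
    NUP1.phi (4 / 3) (R0 (qa a) (nz a) x) u = ph (4 / 3) (y a) (gP (4 / 3) []) u := by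
  rw [ph_gP, List.append_nil]
  exact (phi_perm (hy a) (4 / 3) u).symm

/-! ## relative to the class functions -/

/-- the cut term of the two species -/
def ZcF (c : Bool → ℂ) (y : ∀ a, Fin (N a) → ℂ) (qa : Bool → ℕ) (b : ℝ) (nz : Bool → ℕ) (x v : ℂ)
    (ξe : ℝ → ℂ) (X : ℂ → ℂ) (s1 s2 : Bool → ℂ → ℂ) : Bool → Option O3 → ℂ → ℂ := fun a =>
  ZcX (c a) (y a) (y !a) (qa a) b (nz a) x v ξe X (s1 a) (s2 a)

/-- the one body functions of the two species, cutoff points `± i` -/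
def XXF (c : Bool → ℂ) (b : ℝ) (y : ∀ a, Fin (N a) → ℂ) (s1 s2 : Bool → ℂ → ℂ) :
    Bool → Option O3 → ℂ → ℂ := fun a =>
  XXU (c a) b (y a) (y !a) (gP b [I, -I]) (gP (4 / 3) []) (s1 a) (s2 a)

/-- the quanta -/
theorem zc_A (hy : RwP y qa nz x) {δ : ℝ} (h : CutH b qa nz x v ξe X cc M δ)
    (a : Bool) {u : ℂ} (h1 : 1 / 2 * l ≤ u.re) (h2 : u.re ≤ (1 + δ) * l) :
    ‖ZcF c y qa b nz x v ξe X s1 s2 a none u‖ ≤ cc * ‖XXF c b y s1 s2 a none u‖ := by
  show ‖RRU (c a) (y a) (y !a) u * DW (qa a) b (nz a) x v ξe (X u) u * s1 a u‖ ≤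
    cc * ‖RRU (c a) (y a) (y !a) u * ph b (y a) (gP b [I, -I]) u * s1 a u‖
  rw [norm_mul, norm_mul, norm_mul, norm_mul, ← phi_W0_eq hy]
  have := h.A a u h1 h2
  calc _ ≤ ‖RRU (c a) (y a) (y !a) u‖ *
        (cc * ‖NUP1.phi b (W0 (qa a) (nz a) x PBFar.wE) u‖) * ‖s1 a u‖ := by gcongr
    _ = _ := by ring

/-- `L` -/
theorem zc_L (hy : RwP y qa nz x) {δ : ℝ} (h : CutH b qa nz x v ξe X cc M δ)
    (a : Bool) {u : ℂ} (h1 : -(3 / 2 * l) ≤ u.re) (h2 : u.re ≤ -l) :
    ‖ZcF c y qa b nz x v ξe X s1 s2 a (some .L) u‖ ≤ cc * ‖XXF c b y s1 s2 a (some .L) u‖ := by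
  show ‖RRU (c a) (y a) (y !a) u * DW (qa a) b (nz a) x v ξe (X (u + 2 * l)) u * s1 a u‖ ≤
    cc * ‖RRU (c a) (y a) (y !a) u * ph b (y a) (gP b [I, -I]) u * s1 a u‖
  rw [norm_mul, norm_mul, norm_mul, norm_mul, ← phi_W0_eq hy]
  have := h.L a u h1 h2
  calc _ ≤ ‖RRU (c a) (y a) (y !a) u‖ *
        (cc * ‖NUP1.phi b (W0 (qa a) (nz a) x PBFar.wE) u‖) * ‖s1 a u‖ := by gcongr
    _ = _ := by ring

/-- `S` -/
theorem zc_S (hy : RwP y qa nz x) {δ : ℝ} (h : CutH b qa nz x v ξe X cc M δ)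
    (a : Bool) {u : ℂ} (h1 : -(3 / 2 * l) ≤ u.re) (h2 : u.re ≤ -l) :
    ‖ZcF c y qa b nz x v ξe X s1 s2 a (some .S) u‖ ≤ cc * ‖XXF c b y s1 s2 a (some .S) u‖ := by
  show ‖RRU (c a) (y a) (y !a) u * RRU (c a) (y a) (y !a) (u - l) *
      DR (qa a) (4 / 3) (nz a) x v (X (u + 2 * l)) u * s2 a u‖ ≤
    cc * ‖RRU (c a) (y a) (y !a) u * RRU (c a) (y a) (y !a) (u - l) *
      ph (4 / 3) (y a) (gP (4 / 3) []) u * s2 a u‖
  rw [norm_mul, norm_mul, norm_mul _ (s2 a u), norm_mul _ (ph _ _ _ _), ← phi_R_eq hy]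
  have := h.S a u h1 h2
  calc _ ≤ ‖RRU (c a) (y a) (y !a) u * RRU (c a) (y a) (y !a) (u - l)‖ *
        (cc * ‖NUP1.phi (4 / 3) (R0 (qa a) (nz a) x) u‖) * ‖s2 a u‖ := by gcongr
    _ = _ := by ring

theorem zc_meas (hX : Measurable X) (hm1 : ∀ a, Measurable (s1 a)) (hm2 : ∀ a, Measurable (s2 a))
    (a : Bool) (o : Option O3) : Measurable (ZcF c y qa b nz x v ξe X s1 s2 a o) := by
  have hR := measurable_RRU (c a) (y a) (y !a)
  have hR' : Measurable fun w : ℂ => RRU (c a) (y a) (y !a) (w - l) :=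
    hR.comp (measurable_id.sub_const _)
  have hX2 : Measurable fun u : ℂ => X (u + 2 * l) := hX.comp (measurable_id.add_const _)
  rcases o with _ | _ | _ | _
  · exact (hR.mul (meas_DW hX)).mul (hm1 a)
  · exact (hR.mul (meas_DW hX2)).mul (hm1 a)
  · exact ((hR.mul hR').mul (meas_DR hX2)).mul (hm2 a)
  · exact ((hR.mul hR').mul (meas_DT hX2)).mul (hm2 a)

/-- regularity of the quanta -/
theorem zc_diff {s : ℝ} (hH : Hyp b s) {C0 : ℝ}
    (hF : FlX k C0 X ξe) (hr : ∀ a, Rws (y a)) (hx : |x.re| ≤ l / 2) (a : Bool) {u : ℂ}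
    (h1 : 3 / 5 * l ≤ u.re) (h2 : u.re ≤ 21 / 20 * l) (hs : u.re + l / 2 ≤ s)
    (hd : DifferentiableAt ℂ (s1 a) u) :
    DifferentiableAt ℂ (ZcF c y qa b nz x v ξe X s1 s2 a none) u := by
  have hl := Bd.l_pos
  have hu : u.re ∈ Set.Icc (3 / 5 * l) (21 / 20 * l) := ⟨h1, h2⟩
  have h3 := diffAt_RRU (c a) (x := y a) (y := y !a) NPr_A (hr a) hu
  have h4 : DifferentiableAt ℂ (fun u => DW (qa a) b (nz a) x v ξe (X u) u) u :=
    DW_diff hH hx (hF.df u (by linarith) (by linarith)) (by rw [abs_of_pos (by linarith)]; exact hs)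
  exact (h3.mul h4).mul hd

/-! ## `CutZ` -/

variable {P : NUO.Par} {E : Set ℝ} {q : ℤ}

/-- **the cut term relative to the one body data** -/
theorem cutZ_X {x0 s : ℝ} (hx0 : 3 / 5 * l ≤ x0) (hx0' : x0 ≤ 19 / 20 * l) (hP : ParC P)
    (hj : P.jL ≤ 5 / 2) (hep0 : 0 < ep) (hep : ep ≤ 1 / 100) (hβ : 0 < b) (hβ' : b ≤ 4 / 3)
    (hH : Hyp b s) (hs : (3 / 2 + ep / 4) * l ≤ s) (hr : ∀ a, Rws (y a)) (hx : |x.re| ≤ l / 2)
    (hy : RwP y qa nz x) (hc : ∀ a, ‖c a‖ = c0) {C0 : ℝ}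
    (hF : FlX k C0 X ξe) (hm1 : ∀ a, Measurable (s1 a)) (hm2 : ∀ a, Measurable (s2 a))
    (hA : ∀ a, SpecAt x0 a q (s1 a)) (hS : ∀ a, SpecS P E (s1 a) (s2 a))
    (hE : MeasureTheory.volume E = 0) (h : CutH b qa nz x v ξe X cc M (ep / 4)) :
    CutZ (XXF c b y s1 s2) (ZcF c y qa b nz x v ξe X s1 s2)
      (obU c0 b y (fun _ => [I, -I]) (fun _ => []) fun a u => ‖s1 a u‖) P ep (2 * b) x0
      (q + N true - N false)
      (E ∪ ⋃ a, Set.range fun i => (y a i).im) cc M := by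
  have hl := Bd.l_pos
  have hc0 : 0 ≤ c0 := by
    rw [← hc true]
    exact norm_nonneg _
  have hone : ∀ a (u : ℂ), ‖XXF c b y s1 s2 a none u‖ =
      c0 * rwU (y a) (y !a) u * ‖s1 a u‖ * ‖NUP1.phi b (List.ofFn (y a) ++ [I, -I]) u‖ := by
    intro a u
    show ‖RRU (c a) (y a) (y !a) u * ph b (y a) (gP b [I, -I]) u * s1 a u‖ = _
    rw [norm_mul, norm_mul, ph_gP, norm_RRU, hc]
    ring
  have hstr : ∀ a (u : ℂ), ‖s2 a u‖ ≤ ‖s1 a u‖ * ‖s1 a (u - l)‖ →
      ‖RRU (c a) (y a) (y !a) u‖ * ‖RRU (c a) (y a) (y !a) (u - l)‖ * ‖s2 a u‖ ≤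
      (c0 * rwU (y a) (y !a) u * ‖s1 a u‖) *
        (c0 * rwU (y a) (y !a) (u - l) * ‖s1 a (u - l)‖) := by
    intro a u h5
    rw [norm_RRU, norm_RRU, hc]
    have p1 : 0 ≤ rwU (y a) (y !a) u := rwU_nonneg _ _ _
    have p2 : 0 ≤ rwU (y a) (y !a) (u - l) := rwU_nonneg _ _ _
    calc _ ≤ c0 * rwU (y a) (y !a) u * (c0 * rwU (y a) (y !a) (u - l)) *
          (‖s1 a u‖ * ‖s1 a (u - l)‖) := mul_le_mul_of_nonneg_left h5 (by positivity)
      _ = _ := by ring
  have hA' : ∀ a (u : ℂ), 1 / 2 * l ≤ u.re → u.re ≤ (1 + ep / 4) * l →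
      ‖ZcF c y qa b nz x v ξe X s1 s2 a none u‖ ≤
        cc * ((obU c0 b y (fun _ => [I, -I]) (fun _ => []) fun a u => ‖s1 a u‖).R a u *
          ‖(obU c0 b y (fun _ => [I, -I]) (fun _ => []) fun a u => ‖s1 a u‖).φ a u‖) := by
    intro a u u1 u2
    refine (zc_A hy h a u1 u2).trans (le_of_eq ?_)
    rw [hone]
    rfl
  refine
    { c0 := h.c0
      M0 := h.M0
      meas := fun a o => zc_meas hF.me hm1 hm2 a o
      L := ?_
      T := ?_
      S := ?_
      V := ?_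
      A := ?_
      dA := ?_
      bA := ?_ }
  · intro a t _
    have hre : (posL P.jL t).re = (1 - P.jL) * l := NUO.vl_re _ _
    have j1 := hP.j1
    refine (zc_L hy h a (u := posL P.jL t) (by rw [hre]; nlinarith)
      (by rw [hre]; nlinarith)).trans (le_of_eq ?_)
    have := hone a (posL P.jL t)
    show cc * ‖XXF c b y s1 s2 a none (posL P.jL t)‖ = _
    rw [this]
    rfl
  · intro a t ht
    have htE : t ∉ E := fun h => ht (Or.inl h)
    have key := hstr a (posT t) ((hS a).1 t htE)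
    have hM := h.T a t
    show ‖RRU (c a) (y a) (y !a) (posT t) * RRU (c a) (y a) (y !a) (posT t - l) *
      DT (qa a) b (nz a) x v ξe (X (posT t + 2 * l)) (posT t) * s2 a (posT t)‖ ≤ _
    rw [norm_mul, norm_mul, norm_mul]
    have hM0 := h.M0 a t
    calc _ = (‖RRU (c a) (y a) (y !a) (posT t)‖ * ‖RRU (c a) (y a) (y !a) (posT t - l)‖ *
            ‖s2 a (posT t)‖) *
          ‖DT (qa a) b (nz a) x v ξe (X (posT t + 2 * l)) (posT t)‖ := by ring
      _ ≤ (‖RRU (c a) (y a) (y !a) (posT t)‖ * ‖RRU (c a) (y a) (y !a) (posT t - l)‖ *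
            ‖s2 a (posT t)‖) * M a t :=
          mul_le_mul_of_nonneg_left hM (by positivity)
      _ ≤ _ := mul_le_mul_of_nonneg_right key hM0
  · intro a r e t ht h1 h2
    have htE : t ∉ E := fun h => ht (Or.inl h)
    have hre : (posS e t).re = -((1 + e) * l) := posS_re e t
    have e1 := hP.e1
    have e2 := hP.e2 r
    have d0 := hP.d0 r
    refine (zc_S hy h a (u := posS e t) (by rw [hre]; nlinarith) (by rw [hre]; nlinarith)).trans ?_
    refine mul_le_mul_of_nonneg_left ?_ h.c0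
    show ‖RRU (c a) (y a) (y !a) (posS e t) * RRU (c a) (y a) (y !a) (posS e t - l) *
      ph (4 / 3) (y a) (gP (4 / 3) []) (posS e t) * s2 a (posS e t)‖ ≤ _
    rw [norm_mul, norm_mul, norm_mul, ph_gP]
    have key := hstr a (posS e t) ((hS a).2 r e t htE h1 h2)
    calc _ = (‖RRU (c a) (y a) (y !a) (posS e t)‖ * ‖RRU (c a) (y a) (y !a) (posS e t - l)‖ *
            ‖s2 a (posS e t)‖) *
          ‖NUP1.phi (4 / 3) (List.ofFn (y a) ++ []) (posS e t)‖ := by ring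
      _ ≤ _ := mul_le_mul_of_nonneg_right key (norm_nonneg _)
  · intro a r e h1 h2 u hu
    have e1 := hP.e1
    have e2 := hP.e2 r
    have d0 := hP.d0 r
    have hd : l * P.d r / (8 * (r + 1)) ≤ l * P.d r / 8 := by
      refine div_le_div_of_nonneg_left (by positivity) (by norm_num) ?_
      have : (0 : ℝ) ≤ r := Nat.cast_nonneg r
      linarith
    obtain ⟨u1, u2⟩ := abs_le.1 (hu.trans hd)
    refine hA' a u ?_ ?_
    · nlinarith
    · nlinarith
  · intro a u hu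
    exact hA' a u (by linarith [hu.1]) hu.2
  · intro a u u1 u2
    have u3 : u.re ≤ 21 / 20 * l := by nlinarith
    exact zc_diff hH hF hr hx a (hx0.trans u1) u3 (by nlinarith) ((hA a).df u ⟨u1, u3⟩)
  · intro a
    have hO := oneC_XXU (c0 := c0) (c := c) (s1 := s1) (s2 := s2) (E := E) (q := q) (P := P)
      (ex := fun _ => [I, -I]) (xr := y) hx0 hx0' hP hep0 hep hβ hβ' hr (by
        intro a w hw
        simp only [List.mem_cons, List.not_mem_nil, or_false] at hw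
        rcases hw with rfl | rfl <;> simp <;> positivity) (fun _ => []) hc hm1 hm2 hA hS
    obtain ⟨C, hC, hb⟩ := (hO hE).bA a
    refine ⟨cc * C, mul_nonneg h.c0 hC, fun z hz => ?_⟩
    refine (zc_A hy h a (by linarith [hz.1]) hz.2).trans ?_
    rw [mul_assoc]
    exact mul_le_mul_of_nonneg_left (hb z hz) h.c0

end PBC.PLX

end
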